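import Mathlib
import Pool.Agent.Lib.MP_663568_nul.Vino
import Pool.Agent.Lib.MP_663568_nt.Final
import Pool.Agent.Lib.TU.Defs

/-!
# Theorem V (MP_663568_nt): frequencies of bounded variation.  Definitions and row statements.

Part II: the combinatorial core.  The paper proof is the note tt6_MP_663568_nt_h19.  (helper19)
-/

set_option autoImplicit false
open Finset MeasureTheory

namespace Pool.Agent.SV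

open Pool.Agent.Lib.MP_663568_nt Pool.Agent.Lib.MP_663568_nt.Katai
  Pool.Agent.Lib.MP_663568_nt.Nul

noncomputable section

/-! ### Systems -/

/-- `L = ∑ 1 / p`. -/
def Ls (PP : Finset ℕ) : ℝ := ∑ p ∈ PP, 1 / (p : ℝ)

/-- The weights `1 / (p L)`. -/
def wt (PP : Finset ℕ) (p : ℕ) : ℝ := 1 / ((p : ℝ) * Ls PP)

/-- Primes, the frequencies at the upper and at the lower level (as functions of `u = log y`), the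
number of the step, the good pairs. -/
structure Sys where
  PP : Finset ℕ
  al : ℝ → ℝ
  b : ℝ → ℝ
  st : ℝ → ℤ
  G : ℕ → Set ℝ
  tau : ℝ
  lo : ℝ
  hi : ℝ

/-- The properties of a system. -/
structure Sys.OK (s : Sys) (P1 P2 R : ℝ) : Prop where
  P1one : 2 ≤ P1
  prime : ∀ p ∈ s.PP, p.Prime
  ge : ∀ p ∈ s.PP, P1 ≤ p
  le : ∀ p ∈ s.PP, (p : ℝ) ≤ P2
  one : 1 ≤ Ls s.PP
  Rone : 1 ≤ R
  mono : Monotone s.st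
  grow : ∀ u : ℝ, (s.st (u + 1) : ℝ) ≤ s.st u + R
  const : ∀ u v : ℝ, s.st u = s.st v → s.al u = s.al v
  meas : ∀ p, MeasurableSet (s.G p)
  mem : ∀ p, ∀ u ∈ s.G p, p ∈ s.PP ∧ s.lo ≤ u ∧ u ≤ s.hi
  good : ∀ p, ∀ u ∈ s.G p, ∃ k : ℤ, |(p : ℝ) * s.al (u + Real.log p) - s.b u - k| ≤ s.tau
  len : Real.log P2 ≤ s.hi - s.lo
  tau0 : 0 ≤ s.tau

/-- The mass of the good pairs. -/
def mass (s : Sys) : ℝ := ∑ p ∈ s.PP, wt s.PP p * (volume (s.G p)).toReal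

/-- `z` such that `(q z, p)` and `(p z, q)` are good. -/
def Pair (s : Sys) (p q : ℕ) : Set ℝ :=
  {z | z + Real.log q ∈ s.G p ∧ z + Real.log p ∈ s.G q}

/-- The edges for the auxiliary primes `q`. -/
def Edge (s : Sys) (cell : ℕ → ℕ) {m : ℕ} (q : Fin m → ℕ) (p p' : ℕ) : Set ℝ :=
  {z | cell p = cell p' ∧ ∀ i, z ∈ Pair s p (q i) ∧ z ∈ Pair s p' (q i)}

/-- Row J1: density of the pairs. -/
def J1_stmt : Prop := ∀ (s : Sys) (P1 P2 R δ : ℝ), s.OK P1 P2 R → 0 ≤ δ →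
  δ * (s.hi - s.lo) ≤ mass s →
  δ ^ 2 / 2 * (s.hi - s.lo) ≤
    ∑ p ∈ s.PP, ∑ q ∈ s.PP, wt s.PP p * wt s.PP q * (volume (Pair s p q)).toReal

/-- Row J2: choice of the auxiliary primes. -/
def J2_stmt : Prop := ∀ (δ : ℝ) (m J : ℕ), 0 < δ → δ ≤ 1 → 1 ≤ m → 1 ≤ J →
  ∃ δ₁ : ℝ, 0 < δ₁ ∧ δ₁ ≤ 1 ∧ ∃ X₀ : ℝ, ∀ (s : Sys) (P1 P2 R : ℝ), s.OK P1 P2 R → X₀ ≤ P1 →
  ∀ cell : ℕ → ℕ, (∀ p ∈ s.PP, cell p < J) →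
  δ * (s.hi - s.lo) ≤
    ∑ p ∈ s.PP, ∑ q ∈ s.PP, wt s.PP p * wt s.PP q * (volume (Pair s p q)).toReal →
  ∃ q : Fin m → ℕ, Function.Injective q ∧ (∀ i, q i ∈ s.PP) ∧
    δ₁ * (s.hi - s.lo) ≤ ∑ p ∈ s.PP, ∑ p' ∈ s.PP,
      wt s.PP p * wt s.PP p' * (volume (Edge s cell q p p')).toReal

/-! ### The lift -/

/-- `β` is a lift of `b` modulo the product of the `q i`. -/
def IsLift (s : Sys) {m : ℕ} (q : Fin m → ℕ) (β : ℝ → ℝ) : Prop :=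
  ∀ u : ℝ, (∀ i, u ∈ s.G (q i)) → (∃ k : ℤ, β u = s.b u + k) ∧
    ∀ i, ∃ k : ℤ, |β u - q i * s.al (u + Real.log (q i)) - q i * k| ≤ s.tau

/-- Row P0: existence of the lift (Chinese remainder theorem). -/
def P0_stmt : Prop := ∀ (s : Sys) (P1 P2 R : ℝ), s.OK P1 P2 R → ∀ (m : ℕ) (q : Fin m → ℕ),
  Function.Injective q → (∀ i, q i ∈ s.PP) → ∃ β : ℝ → ℝ, IsLift s q β

/-- Row P1: the relation along an edge. -/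
def P1_stmt : Prop := ∀ (s : Sys) (P1 P2 R : ℝ), s.OK P1 P2 R → 8 * P2 * s.tau < 1 →
  ∀ (m : ℕ) (q : Fin m → ℕ), 1 ≤ m → Function.Injective q → (∀ i, q i ∈ s.PP) →
  ∀ β : ℝ → ℝ, IsLift s q β → ∀ cell : ℕ → ℕ, ∀ p ∈ s.PP, ∀ p' ∈ s.PP,
  ∀ z ∈ Edge s cell q p p', ∃ k : ℤ,
    |(p : ℝ) * β (z + Real.log p) - p' * β (z + Real.log p') - k * ((∏ i, q i : ℕ) : ℝ)|
      ≤ 4 * P2 * s.tau

/-- Row P2: the same step. -/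
def P2_stmt : Prop := ∀ (s : Sys) (P1 P2 R : ℝ), s.OK P1 P2 R → 8 * P2 * s.tau < 1 →
  ∀ (m : ℕ) (q : Fin m → ℕ), 1 ≤ m → Function.Injective q → (∀ i, q i ∈ s.PP) →
  ∀ β : ℝ → ℝ, IsLift s q β → ∀ u v : ℝ, (∀ i, u ∈ s.G (q i)) → (∀ i, v ∈ s.G (q i)) →
  (∀ i, s.al (u + Real.log (q i)) = s.al (v + Real.log (q i))) → ∃ k : ℤ,
    |β u - β v - k * ((∏ i, q i : ℕ) : ℝ)| ≤ 2 * s.tau

/-! ### Operators and paths -/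

section

variable {ι : Type}

/-- `(A f)(v) = ∑ ω_i 1[v ∈ E_i] f(v + σ_i)`. -/
def Op (I : Finset ι) (ω σ : ι → ℝ) (E : ι → Set ℝ) (f : ℝ → ℝ) (v : ℝ) : ℝ := by
  classical
  exact ∑ i ∈ I, ω i * (if v ∈ E i then f (v + σ i) else 0)

/-- The lists of length `k` with entries in `I`. -/
def paths [DecidableEq ι] (I : Finset ι) : ℕ → Finset (List ι)
  | 0 => {[]}
  | k + 1 => (I ×ˢ paths I k).image fun x => x.1 :: x.2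

/-- The path is allowed from `v`. -/
def OkL (σ : ι → ℝ) (E : ι → Set ℝ) : List ι → ℝ → Prop
  | [], _ => True
  | i :: l, v => v ∈ E i ∧ OkL σ E l (v + σ i)

/-- A symmetric system of moves. -/
structure Sym (I : Finset ι) (ω σ : ι → ℝ) (E : ι → Set ℝ) (inv : ι → ι) (lo hi : ℝ) : Prop where
  nn : ∀ i ∈ I, 0 ≤ ω i
  sum : ∑ i ∈ I, ω i ≤ 1
  meas : ∀ i ∈ I, MeasurableSet (E i)
  sub : ∀ i ∈ I, E i ⊆ Set.Icc lo hi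
  mem : ∀ i ∈ I, inv i ∈ I
  invol : ∀ i ∈ I, inv (inv i) = i
  wt : ∀ i ∈ I, ω (inv i) = ω i
  sh : ∀ i ∈ I, σ (inv i) = - σ i
  edge : ∀ i ∈ I, ∀ v, v ∈ E i ↔ v + σ i ∈ E (inv i)
  le : lo < hi

end

/-- Row K1: many paths. -/
def K1_stmt : Prop := ∀ (I : Finset (ℕ × ℕ)) (ω σ : ℕ × ℕ → ℝ) (E : ℕ × ℕ → Set ℝ)
  (inv : ℕ × ℕ → ℕ × ℕ) (lo hi : ℝ), Sym I ω σ E inv lo hi → ∀ c : ℝ, 0 ≤ c →
  c * (hi - lo) ≤ ∑ i ∈ I, ω i * (volume (E i)).toReal → ∀ r : ℕ,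
  c ^ (2 ^ r) * (hi - lo) ≤ ∫ v in Set.Icc lo hi, (Op I ω σ E)^[2 ^ r] (fun _ => 1) v

/-- Row K2: the iterates as sums over paths. -/
def K2_stmt : Prop := ∀ (I : Finset (ℕ × ℕ)) (ω σ : ℕ × ℕ → ℝ) (E : ℕ × ℕ → Set ℝ) (k : ℕ)
  (g : ℝ → ℝ) (v : ℝ), (Op I ω σ E)^[k] g v = by
    classical
    exact ∑ l ∈ paths I k, (l.map ω).prod * (if OkL σ E l v then g (v + (l.map σ).sum) else 0)

/-- Row K3: many paths from rich points to rich points. -/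
def K3_stmt : Prop := ∀ (I : Finset (ℕ × ℕ)) (ω σ : ℕ × ℕ → ℝ) (E : ℕ × ℕ → Set ℝ)
  (inv : ℕ × ℕ → ℕ × ℕ) (lo hi : ℝ), Sym I ω σ E inv lo hi → ∀ (k : ℕ) (δ : ℝ), 1 ≤ k → 0 < δ →
  4 * δ * (hi - lo) ≤ ∫ v in Set.Icc lo hi, (Op I ω σ E)^[k] (fun _ => 1) v →
  ∀ S : Set ℝ, S = {v | δ ≤ (Op I ω σ E)^[k] (fun _ => 1) v} →
  MeasurableSet S ∧ S ⊆ Set.Icc lo hi ∧
  2 * δ * (hi - lo) ≤ ∫ v in S, (Op I ω σ E)^[k] (S.indicator fun _ => 1) v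

/-! ### The moves of a system -/

/-- The pairs of primes of one cell. -/
def Mv (s : Sys) (cell : ℕ → ℕ) : Finset (ℕ × ℕ) :=
  (s.PP ×ˢ s.PP).filter fun i => cell i.1 = cell i.2

/-- weight, shift and domain of a move: from `v = z + log p'` to `z + log p` -/
def om (s : Sys) (i : ℕ × ℕ) : ℝ := wt s.PP i.1 * wt s.PP i.2
def sg (i : ℕ × ℕ) : ℝ := Real.log i.1 - Real.log i.2
def Ed (s : Sys) (cell : ℕ → ℕ) {m : ℕ} (q : Fin m → ℕ) (i : ℕ × ℕ) : Set ℝ :=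
  {v | v - Real.log i.2 ∈ Edge s cell q i.1 i.2}

/-- The moves are symmetric. -/
def K0_stmt : Prop := ∀ (s : Sys) (P1 P2 R : ℝ), s.OK P1 P2 R → ∀ (cell : ℕ → ℕ) (m : ℕ)
  (q : Fin m → ℕ), 1 ≤ m → (∀ i, q i ∈ s.PP) →
  Sym (Mv s cell) (om s) sg (Ed s cell q) Prod.swap s.lo s.hi ∧
  ∑ p ∈ s.PP, ∑ p' ∈ s.PP, wt s.PP p * wt s.PP p' * (volume (Edge s cell q p p')).toReal =
    ∑ i ∈ Mv s cell, om s i * (volume (Ed s cell q i)).toReal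

/-- The products of the first and of the second primes. -/
def N1 (l : List (ℕ × ℕ)) : ℕ := (l.map Prod.fst).prod
def N2 (l : List (ℕ × ℕ)) : ℕ := (l.map Prod.snd).prod

/-- Row P3: the relation along a path. -/
def P3_stmt : Prop := ∀ (s : Sys) (P1 P2 R g : ℝ), s.OK P1 P2 R → 8 * P2 * s.tau < 1 → 1 ≤ g →
  ∀ (m : ℕ) (q : Fin m → ℕ), 1 ≤ m → Function.Injective q → (∀ i, q i ∈ s.PP) →
  ∀ β : ℝ → ℝ, IsLift s q β → ∀ cell : ℕ → ℕ,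
  (∀ p ∈ s.PP, ∀ p' ∈ s.PP, cell p = cell p' → (p : ℝ) ≤ g * p') →
  ∀ (k : ℕ), ∀ l ∈ paths (Mv s cell) k, ∀ v : ℝ, OkL sg (Ed s cell q) l v →
    |(l.map sg).sum| ≤ k * Real.log g ∧
    (l.map sg).sum = Real.log (N1 l) - Real.log (N2 l) ∧
    ∃ j : ℤ, |(N1 l : ℝ) * β (v + (l.map sg).sum) - N2 l * β v - j * ((∏ i, q i : ℕ) : ℝ)|
      ≤ N2 l * (k * g ^ k * (4 * P2 * s.tau) / P1)

/-- The properties of the pairs `(n₁, n₂)` of the closed paths. -/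
structure Close (P1 P2 R β M E2 : ℝ) (k : ℕ) (x : ℕ × ℕ) : Prop where
  rough : ∀ r : ℕ, r.Prime → r ∣ x.1 * x.2 → P1 ≤ r
  l1 : P1 ^ (2 * k) ≤ x.1
  u1 : (x.1 : ℝ) ≤ P2 ^ (2 * k)
  l2 : P1 ^ (2 * k) ≤ x.2
  u2 : (x.2 : ℝ) ≤ P2 ^ (2 * k)
  near : |Real.log x.1 - Real.log x.2| ≤ 1 / R
  rel : ∃ j : ℤ, |((x.1 : ℝ) - x.2) * β - j * M| ≤ 2 * (x.1 + x.2) * E2

/-- Row E1: closed paths from a rich point. -/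
def E1_stmt : Prop := ∀ (s : Sys) (P1 P2 R g : ℝ), s.OK P1 P2 R → 8 * P2 * s.tau < 1 → 1 ≤ g →
  ∀ (m : ℕ) (q : Fin m → ℕ), 1 ≤ m → Function.Injective q → (∀ i, q i ∈ s.PP) →
  ∀ β : ℝ → ℝ, IsLift s q β → ∀ cell : ℕ → ℕ,
  (∀ p ∈ s.PP, ∀ p' ∈ s.PP, cell p = cell p' → (p : ℝ) ≤ g * p') →
  ∀ (k : ℕ) (δ v : ℝ), 1 ≤ k → 0 < δ →
  δ ≤ (Op (Mv s cell) (om s) sg (Ed s cell q))^[k] (fun _ => 1) v →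
  ∃ Nn : Finset (ℕ × ℕ),
    (∀ x ∈ Nn, Close P1 P2 R (β v) ((∏ i, q i : ℕ) : ℝ) (k * g ^ k * (4 * P2 * s.tau) / P1) k x) ∧
    δ ^ 2 / (((2 * (k * Real.log g) + 1) * (m * R) + 2 * (k * Real.log g) * R + 2) *
      ((2 * k).factorial : ℝ) ^ 2) ≤ ∑ x ∈ Nn, 1 / ((x.1 : ℝ) * x.2)

open Classical in
/-- Row SV2: two-dimensional sieve. -/
def SV2_stmt : Prop := ∃ C : ℝ, 0 < C ∧ ∀ (P : ℝ) (X d : ℕ), 2 ≤ P → P ≤ X → 1 ≤ d →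
  (#((Icc 1 X).filter fun n : ℕ => ∀ r : ℕ, r.Prime → r ∣ n * (n + d) → P ≤ r) : ℝ) ≤
    C * X / (Real.log P) ^ 2 * ((d : ℝ) / Nat.totient d) ^ 2

/-- Row PHI. -/
def PHI_stmt : Prop := ∃ C : ℝ, 0 < C ∧ ∀ X : ℕ,
  ∑ d ∈ Icc 1 X, ((d : ℝ) / Nat.totient d) ^ 4 ≤ C * X

/-- Row NT: the rich points have a lift close to a rational multiple of `M`. -/
def NT_stmt : Prop := ∀ (κ₁ κ₂ A c : ℝ) (k : ℕ), 0 < κ₁ → 0 < c → 1 ≤ k →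
  A + 1 ≤ 2 * k * κ₁ → 0 ≤ A → ∃ Q₁ : ℕ, 1 ≤ Q₁ ∧ ∃ C : ℝ, 0 < C ∧ ∃ H₀ : ℝ, ∀ H : ℝ, H₀ ≤ H →
  ∀ R β M E2 : ℝ, 1 ≤ R → R ≤ H ^ A → 0 < M → 0 ≤ E2 → H ^ (2 * k * κ₂ + 1) * E2 ≤ M →
  ∀ Nn : Finset (ℕ × ℕ), (∀ x ∈ Nn, Close (H ^ κ₁) (H ^ κ₂) R β M E2 k x) →
  c / (R * Real.log H) ≤ ∑ x ∈ Nn, 1 / ((x.1 : ℝ) * x.2) →
  ∃ q : ℕ, 1 ≤ q ∧ q ≤ Q₁ ∧ ∃ j : ℤ, |(q : ℝ) * β - j * M| ≤ C * R * E2

open Classical in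
/-- Row SV1: one-dimensional sieve in short intervals. -/
def SV1_stmt : Prop := ∃ C : ℝ, 0 < C ∧ ∀ P x y : ℝ, 2 ≤ P → 0 ≤ x → P ≤ y →
  (#((Ioc ⌊x⌋₊ ⌊x + y⌋₊).filter fun n : ℕ => ∀ r : ℕ, r.Prime → r ∣ n → P ≤ r) : ℝ) ≤
    C * y / Real.log P

/-- Row F1: a cell without jump and with many paths. -/
def F1_stmt : Prop := ∀ (lo hi δ r₃ B : ℝ) (S : Set ℝ) (ψ : ℝ → ℝ) (T : ℝ → ℤ), 0 < δ → 0 < r₃ →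
  r₃ ≤ 1 → 1 ≤ hi - lo → 1 ≤ B → MeasurableSet S → S ⊆ Set.Icc lo hi → Measurable ψ →
  (∀ v, 0 ≤ ψ v) → (∀ v, ψ v ≤ 1) → 2 * δ * (hi - lo) ≤ ∫ v in S, ψ v → Monotone T →
  (∀ u : ℝ, (T (u + 1) : ℝ) ≤ T u + B) → 16 * B * r₃ ≤ δ →
  ∃ a : ℝ, (∀ u ∈ Set.Ico a (a + r₃), T u = T a) ∧
    δ / 2 * r₃ ≤ ∫ v in S ∩ Set.Ico a (a + r₃), ψ v

/-- Row F3: density of the end points. -/
def F3_stmt : Prop := ∀ k : ℕ, 1 ≤ k → ∃ C : ℝ, 0 < C ∧ ∀ (s : Sys) (P1 P2 R : ℝ), s.OK P1 P2 R →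
  ∀ (cell : ℕ → ℕ) (r₃ : ℝ), 0 < r₃ → r₃ ≤ 1 → 1 ≤ r₃ * P1 ^ (k - 1 : ℝ) → ∀ u a : ℝ, (by
    classical
    exact ∑ l ∈ paths (Mv s cell) k, (l.map (om s)).prod *
      (if u - (l.map sg).sum ∈ Set.Ico a (a + r₃) then 1 else 0)) ≤ C * r₃ / Real.log P1

/-- Row F2: the set of the end points. -/
def F2_stmt : Prop := ∀ (s : Sys) (P1 P2 R : ℝ), s.OK P1 P2 R → ∀ (cell : ℕ → ℕ) (m : ℕ)
  (q : Fin m → ℕ), 1 ≤ m → (∀ i, q i ∈ s.PP) → ∀ (k : ℕ) (S C₀ : Set ℝ) (d D : ℝ), 1 ≤ k →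
  MeasurableSet S → S ⊆ Set.Icc s.lo s.hi → MeasurableSet C₀ → 0 < d → 0 < D →
  d ≤ ∫ v in S ∩ C₀, (Op (Mv s cell) (om s) sg (Ed s cell q))^[k] (S.indicator fun _ => 1) v →
  (∀ u : ℝ, (by
    classical
    exact ∑ l ∈ paths (Mv s cell) k, (l.map (om s)).prod *
      (if u - (l.map sg).sum ∈ C₀ then 1 else 0)) ≤ D) →
  ∃ U : Set ℝ, MeasurableSet U ∧ U ⊆ S ∧ d / D ≤ (volume U).toReal ∧
    ∀ u ∈ U, ∃ l ∈ paths (Mv s cell) k, ∃ v ∈ S ∩ C₀, OkL sg (Ed s cell q) l v ∧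
      u = v + (l.map sg).sum

/-- **The combinatorial core.** -/
def CORE_stmt : Prop := ∀ A κ₁ κ₂ κ' δ : ℝ, 0 ≤ A → 0 < κ₁ → κ₁ ≤ κ₂ → κ₂ ≤ 1 / 16 → 0 < κ' →
  κ' ≤ 1 / 16 → 0 < δ → δ ≤ 1 →
  ∃ c C : ℝ, 0 < c ∧ 0 < C ∧ ∃ Q₀ : ℕ, 1 ≤ Q₀ ∧ ∃ H₀ : ℝ, ∀ H : ℝ, H₀ ≤ H → ∀ (s : Sys) (R : ℝ),
  s.OK (H ^ κ₁) (H ^ κ₂) R → R ≤ H ^ A → s.tau ≤ H ^ (-(1 / 2) : ℝ) →
  δ * (s.hi - s.lo) ≤ mass s →
  ∃ q ∈ s.PP, ∃ u₀ T₀ : ℝ, ∃ S : Set ℝ, MeasurableSet S ∧ S ⊆ Set.Icc u₀ (u₀ + 1) ∧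
    c ≤ (volume S).toReal ∧ |T₀| ≤ Real.exp u₀ * (C * R * s.tau * H ^ (2 * κ' + κ₂)) ∧
    ∀ u ∈ S, u ∈ s.G q ∧ ∃ j : ℤ,
      |s.b u - T₀ * Real.exp (-u) - j / Q₀| ≤ C * s.tau * H ^ (2 * κ' + κ₂)

end

end Pool.Agent.SV
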