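import Mathlib
import Pool.Agent.Lib.SV.Defs
import Pool.Agent.Lib.MRF.Defs

/-!
# Theorem V (MP_663568_nt): frequencies of bounded variation.  Row statements of parts I and III.

Part III: reduction to the core and the contradiction.  Part I: the theorem of Matomäki and
Radziwiłł with the twist `n^{-iT}`, uniformly in `|T| ≤ X ^ D`.  (helper19)
-/

set_option autoImplicit false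
open Finset MeasureTheory

namespace Pool.Agent.SV

open Pool.Agent.Lib.MP_663568_nt Pool.Agent.Lib.MP_663568_nt.Katai
  Pool.Agent.Lib.MP_663568_nt.Nul Pool.Agent.MRL Pool.Agent.MRF Pool.Agent.MRHal

noncomputable section

/-! ### Part III -/

/-- The mean of a window: `|∑_{m ≤ l} μ(y + m) e(b m)| / l`. -/
def vv (l y : ℕ) (b : ℝ) : ℝ := ‖∑ m ∈ Icc 1 l, muC (y + m) * ee (b * m)‖ / l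

/-- The variation of `α` on the dyadic blocks is at most `V`. -/
def TV (α : ℕ → ℝ) (V : ℝ) : Prop :=
  ∀ j : ℕ, ∑ n ∈ Ico (2 ^ j) (2 ^ (j + 1)), |α (n + 1) - α n| ≤ V

/-- **Theorem V.** -/
def V_stmt : Prop := ∀ A ε : ℝ, 0 < ε → ∃ H₀ : ℕ, ∀ H N : ℕ, H₀ ≤ H → H ≤ N →
  ∀ α : ℕ → ℝ, TV α ((H : ℝ) ^ A) →
  ∑ n ∈ Icc 1 N, (1 / (n : ℝ)) * ‖∑ h ∈ Icc 1 H, muC (n + h) * ee (α n * h)‖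
    ≤ ε * H * Real.log N

/-- Row RH: the windows at the beginning (from `TU.H_stmt`). -/
def RH_stmt : Prop := ∀ ε : ℝ, 0 < ε → ∃ H₀ : ℕ, ∀ H : ℕ, H₀ ≤ H → ∀ n : ℕ, n ≤ 2 * H →
  ∀ a : ℝ, ‖∑ h ∈ Icc 1 H, muC (n + h) * ee (a * h)‖ ≤ ε * H

/-- Row RW: choice of a window of scales. -/
def RW_stmt : Prop := ∀ A ε : ℝ, 0 ≤ A → 0 < ε → ε ≤ 1 → ∃ κ : ℝ, 0 < κ ∧ κ ≤ ε / 64 ∧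
  ∃ H₀ : ℕ, ∀ H N : ℕ, H₀ ≤ H → H ≤ N → ∀ f : ℕ → ℝ, (∀ n, 0 ≤ f n) → (∀ n, f n ≤ 1) →
  (∀ n, n ≤ 2 * H → f n ≤ ε / 8) → ε * Real.log N < ∑ n ∈ Icc 1 N, (1 / (n : ℝ)) * f n →
  ∃ xa xb : ℝ, (H : ℝ) ^ (1 + κ) ≤ xa ∧ xa < xb ∧ xb ≤ N ∧
    κ * Real.log H ≤ Real.log xb - Real.log xa ∧ (xb ≤ xa * (H : ℝ) ^ (2 * κ) ∨
      (H : ℝ) ^ (A + 6) ≤ xa) ∧
    ε / 4 * (Real.log xb - Real.log xa) ≤ ∑ n ∈ Ioc ⌊xa⌋₊ ⌊xb⌋₊, (1 / (n : ℝ)) * f n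

/-- The mean over the cell of length `X` of `e ^ u`, with the frequency `a j` of the cell. -/
def SS (X : ℕ) (a : ℕ → ℝ) (u : ℝ) : ℝ :=
  ‖∑ m ∈ Ioc (⌊Real.exp u / X⌋₊ * X) ((⌊Real.exp u / X⌋₊ + 1) * X),
    muC m * ee (a ⌊Real.exp u / X⌋₊ * m)‖ / X

/-- Row RA: from windows to cells, few jumps. -/
def RA_stmt : Prop := ∀ A ε κ : ℝ, 0 ≤ A → 0 < ε → ε ≤ 1 → 0 < κ → κ ≤ ε / 64 →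
  ∃ η A' : ℝ, 0 < η ∧ η ≤ 1 ∧ 0 ≤ A' ∧ ∃ H₀ : ℕ, ∀ H N : ℕ, H₀ ≤ H → H ≤ N →
  ∀ α : ℕ → ℝ, TV α ((H : ℝ) ^ A) → ∀ xa xb : ℝ, (H : ℝ) ^ (1 + κ) ≤ xa → xa < xb → xb ≤ N →
    κ * Real.log H ≤ Real.log xb - Real.log xa → (xb ≤ xa * (H : ℝ) ^ (2 * κ) ∨
      (H : ℝ) ^ (A + 6) ≤ xa) →
    ε / 4 * (Real.log xb - Real.log xa) ≤ ∑ n ∈ Ioc ⌊xa⌋₊ ⌊xb⌋₊, (1 / (n : ℝ)) *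
      (‖∑ h ∈ Icc 1 H, muC (n + h) * ee (α n * h)‖ / H) →
  ∃ (a : ℕ → ℝ) (ta tb R : ℝ), (1 + κ / 2) * Real.log (⌊η * H⌋₊ : ℝ) ≤ ta ∧
    κ * Real.log (⌊η * H⌋₊ : ℝ) ≤ tb - ta ∧ 1 ≤ R ∧ R ≤ (⌊η * H⌋₊ : ℝ) ^ A' ∧
    R ≤ Real.exp ta * (⌊η * H⌋₊ : ℝ) ^ (-(1 / 2) : ℝ) ∧
    (∀ u : ℝ, (#((Ico ⌊Real.exp u / (⌊η * H⌋₊ : ℝ)⌋₊
      ⌊Real.exp (u + 1) / (⌊η * H⌋₊ : ℝ)⌋₊).filter fun i => a (i + 1) ≠ a i) : ℝ) ≤ R) ∧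
    ε / 16 * (tb - ta) ≤ ∫ u in ta..tb, SS ⌊η * H⌋₊ a u

open Classical in
/-- The primes of `[X ^ κ₁, X ^ κ₂]`. -/
def PPs (X : ℕ) (κ₁ κ₂ : ℝ) : Finset ℕ :=
  (Icc 1 ⌊(X : ℝ) ^ κ₂⌋₊).filter fun p => p.Prime ∧ (X : ℝ) ^ κ₁ ≤ p

/-- Row RB: Turán–Kubilius for a cell. -/
def RB_stmt : Prop := ∀ ε κ₂ : ℝ, 0 < ε → 0 < κ₂ → κ₂ ≤ 1 / 4 →
  ∃ κ₁ : ℝ, 0 < κ₁ ∧ κ₁ ≤ κ₂ ∧ ∃ η : ℝ, 0 < η ∧ η ≤ 1 ∧ ∃ X₀ : ℕ, ∀ X : ℕ, X₀ ≤ X →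
  1 ≤ Ls (PPs X κ₁ κ₂) ∧ ∀ (n : ℕ) (a : ℝ),
    ‖∑ m ∈ Ioc n (n + X), muC m * ee (a * m)‖ / X ≤
      ∑ p ∈ PPs X κ₁ κ₂, wt (PPs X κ₁ κ₂) p *
        (1 / X * ∫ t in (n : ℝ)..(n + X), vv ⌊η * (X : ℝ) ^ (1 - κ₂)⌋₊ ⌊t / p⌋₊ (p * a)) + ε

/-- Row RB2: the same over a window of scales. -/
def RB2_stmt : Prop := RB_stmt → ∀ e κ₂ κ : ℝ, 0 < e → e ≤ 1 → 0 < κ₂ → κ₂ ≤ 1 / 4 → 0 < κ →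
  ∃ κ₁ : ℝ, 0 < κ₁ ∧ κ₁ ≤ κ₂ ∧ ∃ η : ℝ, 0 < η ∧ η ≤ 1 ∧ ∃ X₀ : ℕ, ∀ X : ℕ, X₀ ≤ X →
  1 ≤ Ls (PPs X κ₁ κ₂) ∧ ∀ (a : ℕ → ℝ) (ta tb : ℝ), (1 + κ / 2) * Real.log X ≤ ta →
    κ * Real.log X ≤ tb - ta → e * (tb - ta) ≤ ∫ u in ta..tb, SS X a u →
    e / 2 * (tb - ta) ≤ ∑ p ∈ PPs X κ₁ κ₂, wt (PPs X κ₁ κ₂) p *
      ∫ u in ta..tb, vv ⌊η * (X : ℝ) ^ (1 - κ₂)⌋₊ ⌊Real.exp u / p⌋₊ (p * a ⌊Real.exp u / X⌋₊)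

/-- The good pairs: `u = log y`, `p y` in the window, the centre of the lower cell correlates, the
upper frequency is near the centre. -/
def Gd (l : ℕ) (PP : Finset ℕ) (al : ℝ → ℝ) (B : ℕ → ℝ) (ta tb η C e : ℝ) (p : ℕ) : Set ℝ :=
  {u | p ∈ PP ∧ ta ≤ u + Real.log p ∧ u + Real.log p ≤ tb ∧
    e / 4 ≤ vv l ⌊(⌊Real.exp u / (η * l)⌋₊ : ℝ) * (η * l)⌋₊ (B ⌊Real.exp u / (η * l)⌋₊) ∧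
    nd ((p : ℝ) * al (u + Real.log p) - B ⌊Real.exp u / (η * l)⌋₊) ≤ C / l}

/-- Row RC: clusters of frequencies. -/
def RC_stmt : Prop := ∀ e : ℝ, 0 < e → e ≤ 1 → ∃ δ η C : ℝ, 0 < δ ∧ δ ≤ 1 ∧ 0 < η ∧ η ≤ 1 ∧
  0 < C ∧ ∃ l₀ : ℕ, ∀ l : ℕ, l₀ ≤ l → ∀ PP : Finset ℕ, (∀ p ∈ PP, p.Prime) → 1 ≤ Ls PP →
  ∀ al : ℝ → ℝ, Measurable al → ∀ ta tb : ℝ, ta < tb →
  e * (tb - ta) ≤ ∑ p ∈ PP, wt PP p * ∫ u in ta..tb, vv l ⌊Real.exp u / p⌋₊ (p * al u) →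
  ∃ B : ℕ → ℝ, (∀ p, MeasurableSet (Gd l PP al B ta tb η C e p)) ∧
    δ * (tb - ta) ≤ ∑ p ∈ PP, wt PP p * (volume (Gd l PP al B ta tb η C e p)).toReal

/-- Row MuT: short sums of `μ(n) n^{-iT}` in progressions. -/
def MuT_stmt : Prop := ∀ D q b : ℕ, 1 ≤ q → ∀ ε : ℝ, 0 < ε → ∃ h0 : ℕ, ∀ h : ℕ, h0 ≤ h →
  ∃ X0 : ℝ, ∀ X : ℝ, X0 ≤ X → ∀ T : ℝ, |T| ≤ X ^ D →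
    ∑ x ∈ Icc ⌈X⌉₊ ⌊2 * X⌋₊, ‖∑ j ∈ Icc 1 h,
      (if (x + j) % q = b % q then muC (x + j) * nt (x + j) T else 0)‖ ≤ ε * h * X

/-- Row RD: the contradiction. -/
def RD_stmt : Prop := MuT_stmt → ∀ (e c η : ℝ) (Q : ℕ), 0 < e → 0 < c → 0 < η → η ≤ 1 → 1 ≤ Q →
  ∃ ϑ : ℝ, 0 < ϑ ∧ ∃ l₀ : ℕ, ∃ U₀ : ℝ, ∀ l : ℕ, l₀ ≤ l → ∀ u₀ T₀ : ℝ, U₀ ≤ u₀ →
  l ≤ ϑ * Real.exp u₀ → |T₀| ≤ Real.exp (2 * u₀) → |T₀| * l ≤ ϑ * Real.exp (2 * u₀) →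
  ∀ (B : ℕ → ℝ) (S : Set ℝ), MeasurableSet S → S ⊆ Set.Icc u₀ (u₀ + 1) →
  c ≤ (volume S).toReal →
  (∀ u ∈ S, e ≤ vv l ⌊(⌊Real.exp u / (η * l)⌋₊ : ℝ) * (η * l)⌋₊ (B ⌊Real.exp u / (η * l)⌋₊) ∧
    ∃ j : ℤ, |B ⌊Real.exp u / (η * l)⌋₊ - T₀ * Real.exp (-u) - j / Q| ≤ ϑ) → False

/-! ### Part I -/

/-- The bodies of the statements of `MRF`, with explicit constants. -/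
def DecompC (C : ℝ) (f : ℕ → ℂ) : Prop := ∀ (X T : ℝ) (H v1 v2 : ℕ), 1 ≤ H →
  (H : ℝ) ≤ X → v1 ≤ v2 → 1 ≤ LL H v1 v2 → Real.exp ((v2 : ℝ) / H) ≤ √X → 0 < T → T ≤ X →
  ∫ t : ℝ, ‖AF f X t - ((1 / LL H v1 v2 : ℝ) : ℂ) * SF f X H v1 v2 t‖ ^ 2 * g T t
    ≤ C * (1 / LL H v1 v2 + 1 / H)

def StepOneC (C : ℝ) (f : ℕ → ℂ) : Prop := ∀ (X T : ℝ) (H v1 v2 : ℕ) (α : ℝ), 1 ≤ H →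
  v1 ≤ v2 → 0 < T → 0 ≤ α → T * Real.exp ((v2 : ℝ) / H) ≤ X → Real.exp ((v2 : ℝ) / H) ≤ √X →
  ∫ t in {t : ℝ | GoodF f H v1 v2 α t}, ‖SF f X H v1 v2 t‖ ^ 2 * g T t
    ≤ C * (v2 : ℝ) ^ 2 * Real.exp (-(2 * α * v1 / H))

def StepJC (C : ℝ) (f : ℕ → ℂ) : Prop :=
  ∀ (X T : ℝ) (H' v1' v2' H v1 v2 : ℕ) (α' α : ℝ),
  1 ≤ H' → H' ≤ v1' → v1' ≤ v2' → H' ≤ H → H ≤ v1 → v1 ≤ v2 →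
  0 ≤ α' → α' < α → α ≤ 1 →
  12 * ((v2' : ℝ) / H') ≤ (α - α') * ((v1 : ℝ) / H) →
  12 * Real.log ((v2 : ℝ) + 2) ≤ (α - α') * ((v1 : ℝ) / H) →
  Real.log (C * ((v2 : ℝ) / H) + C) ≤ (α - α') / 2 * ((v1' : ℝ) / H') →
  0 < T → T ≤ X → Real.exp ((v2 : ℝ) / H) ≤ √X →
  ∫ t in {t : ℝ | GoodF f H v1 v2 α t ∧ ¬ GoodF f H' v1' v2' α' t},
      ‖SF f X H v1 v2 t‖ ^ 2 * g T t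
    ≤ C * Real.exp (-((α - α') * v1 / H))

def ChainC (CJ C : ℝ) (f : ℕ → ℂ) : Prop := ∀ (K α : ℝ) (s : ℕ → Scale),
  1 ≤ K → 0 < α → α ≤ 1 / 4 → ParamsOK K α CJ s → ∀ (J : ℕ) (X T : ℝ), 0 < T → T ≤ X →
  T * Real.exp (((s 0).v2 : ℝ) / (s 0).H) ≤ X →
  (∀ j ≤ J, Real.exp (((s j).v2 : ℝ) / (s j).H) ≤ √X ∧ ((s j).H : ℝ) ≤ X) →
  ∫ t in {t : ℝ | ∃ j ≤ J, ScaleGood f (s j) t}, ‖AF f X t‖ ^ 2 * g T t ≤ C / K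

/-- Rows U1: uniform constants. -/
def DecompU : Prop := ∃ C : ℝ, 0 < C ∧ ∀ f : ℕ → ℂ, CM f → DecompC C f
def StepOneU : Prop := ∃ C : ℝ, 0 < C ∧ ∀ f : ℕ → ℂ, CM f → StepOneC C f
def StepJU : Prop := ∃ C : ℝ, 1 ≤ C ∧ ∀ f : ℕ → ℂ, CM f → StepJC C f
def ChainU : Prop := ∃ CJ : ℝ, 1 ≤ CJ ∧ ∃ C : ℝ, 0 < C ∧ ∀ f : ℕ → ℂ, CM f → ChainC CJ C f

def LargeCountU : Prop := ∀ θ : ℝ, 0 < θ → θ ≤ 1 → ∃ X0 : ℝ, ∀ f : ℕ → ℂ, CM f →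
  ∀ X : ℝ, X0 ≤ X → ∀ (H v1 v2 : ℕ) (α : ℝ), 1 ≤ H → H ≤ v1 → v1 ≤ v2 → 0 ≤ α → α ≤ θ / 16 →
  (v2 : ℝ) / H ≤ θ / 16 * Real.log X → 16 / θ * Real.log (Real.log X) ≤ (v1 : ℝ) / H →
  12 * Real.log ((v2 : ℝ) + 2) ≤ (v1 : ℝ) / H →
  ∀ R : Finset ℤ, (∀ r ∈ R, |(r : ℝ)| ≤ 2 * X) →
    (∀ r ∈ R, ∃ t ∈ Set.Icc (r : ℝ) (r + 1), ¬ GoodF f H v1 v2 α t) →
    (R.card : ℝ) ≤ X ^ θ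

def SparseU : Prop := ∀ β : ℝ, 0 < β → β ≤ 1 / 8 → ∃ θ : ℝ, 0 < θ ∧ θ ≤ 1 ∧
  ∃ C : ℝ, 0 < C ∧ ∃ X0 : ℝ, ∀ f : ℕ → ℂ, CM f → ∀ X : ℝ, X0 ≤ X → ∀ H v : ℕ, 1 ≤ H →
  X ^ β ≤ Real.exp ((v : ℝ) / H) → Real.exp (((v : ℝ) + 1) / H) ≤ √X →
  ∀ (R : Finset ℤ) (τ : ℤ → ℝ), (∀ r ∈ R, |(r : ℝ)| ≤ 2 * X) → (R.card : ℝ) ≤ X ^ θ →
    (∀ r ∈ R, τ r ∈ Set.Icc (r : ℝ) (r + 1)) →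
    ∑ r ∈ R, ‖QF f H v (τ r)‖ ^ 2 ≤ C / (Real.log X) ^ 2

/-- `f` is small at all heights `|t| ≤ 2 X + 2` on the dyadic blocks of `[√X / 8, 8 X]`. -/
def PtSmall (f : ℕ → ℂ) (X ρ : ℝ) : Prop :=
  ∀ Y t : ℝ, √X / 8 ≤ Y → Y ≤ 8 * X → |t| ≤ 2 * X + 2 → ‖AF f Y t‖ ≤ ρ

def UPartU : Prop := ∀ δ : ℝ, 0 < δ → ∃ θ : ℝ, 0 < θ ∧ θ ≤ 1 ∧ ∃ X0 ρ : ℝ, 0 < ρ ∧
  ∀ f : ℕ → ℂ, CM f → ∀ X T : ℝ, X0 ≤ X → PtSmall f X ρ →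
  0 < T → T ≤ X → ∀ (E : Set ℝ) (R : Finset ℤ), MeasurableSet E → (∀ t ∈ E, |t| ≤ X) →
  (∀ r ∈ R, |(r : ℝ)| ≤ 2 * X) → (R.card : ℝ) ≤ X ^ θ →
  (∀ t ∈ E, ∃ r ∈ R, t ∈ Set.Icc (r : ℝ) (r + 1)) →
  ∫ t in E, ‖AF f X t‖ ^ 2 * g T t ≤ δ

def TailU : Prop := ∀ δ : ℝ, 0 < δ → ∃ h : ℝ, 1 ≤ h ∧ ∀ f : ℕ → ℂ, CM f → ∀ X T : ℝ, 1 ≤ X →
  0 < T → T ≤ X / h → ∫ t in {t : ℝ | X < |t|}, ‖AF f X t‖ ^ 2 * g T t ≤ δ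

/-- Row U2: the theorem of Matomäki and Radziwiłł with uniform constants. -/
def MRDU : Prop := ∀ δ : ℝ, 0 < δ → ∃ h : ℝ, 1 ≤ h ∧ ∃ X0 ρ : ℝ, 0 < ρ ∧ ∀ f : ℕ → ℂ, CM f →
  ∀ X : ℝ, X0 ≤ X → PtSmall f X ρ →
  ∀ T : ℝ, 1 ≤ T → T ≤ X / h → ∫ t : ℝ, ‖AF f X t‖ ^ 2 * g T t ≤ δ

def U2_stmt : Prop := ChainU → UPartU → TailU → LargeCountU → MRDU

/-- Row U3: Halász for `λ χ`, every power. -/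
def U3_stmt : Prop := ∀ (q : ℕ) [NeZero q] (χ : DirichletCharacter ℂ q) (D : ℕ) (η : ℝ), 0 < η →
  ∃ Y0 : ℝ, ∀ Y : ℝ, Y0 ≤ Y → ∀ t : ℝ, |t| ≤ Y ^ D → ‖AF (lamChi χ) Y t‖ ≤ η

/-- Row U4: short sums with uniform constants. -/
def U4_stmt : Prop := MRDU → ∀ ε : ℝ, 0 < ε → ∃ h0 : ℕ, ∀ h : ℕ, h0 ≤ h → ∃ X0 ρ : ℝ, 0 < ρ ∧
  ∀ f : ℕ → ℂ, CM f → ∀ X : ℝ, X0 ≤ X →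
  (∀ X' : ℝ, X / 8 ≤ X' → X' ≤ 8 * X → PtSmall f X' ρ) →
    ∑ x ∈ Icc ⌈X⌉₊ ⌊2 * X⌋₊, ‖∑ j ∈ Icc 1 h, f (x + j)‖ ≤ ε * h * X

/-- Short sums of `F(n) n^{-iT}`, uniformly for `|T| ≤ X ^ D`, every `D`. -/
def ShortT (F : ℕ → ℂ) : Prop := ∀ (D : ℕ) (ε : ℝ), 0 < ε → ∃ h0 : ℕ, ∀ h : ℕ, h0 ≤ h →
  ∃ X0 : ℝ, ∀ X : ℝ, X0 ≤ X → ∀ T : ℝ, |T| ≤ X ^ D →
    ∑ x ∈ Icc ⌈X⌉₊ ⌊2 * X⌋₊, ‖∑ j ∈ Icc 1 h, F (x + j) * nt (x + j) T‖ ≤ ε * h * X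

/-- Row U5: twisted short sums of `λ χ`. -/
def U5_stmt : Prop := U3_stmt → U4_stmt → MRDU → ∀ (q : ℕ) [NeZero q]
  (χ : DirichletCharacter ℂ q), ShortT (lamChi χ)

/-- Row U6: from `λ χ` to `μ` in progressions (the file `WC86.MuAP` with the twist). -/
def U6_stmt : Prop := (∀ (q : ℕ) [NeZero q] (χ : DirichletCharacter ℂ q), ShortT (lamChi χ)) →
  MuT_stmt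

end

end Pool.Agent.SV
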