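import Mathlib
import Pool.Agent.Lib.SV.Defs3
import Pool.Agent.Lib.MP_663568_nul.Base

/-!
# Theorem TF (MP_663568_nt): time-frequency sets.  Definitions and row statements.

The paper proof is the note tf_MP_663568_nt_h19.  (helper19)
-/

set_option autoImplicit false
open Finset MeasureTheory

namespace Pool.Agent.SV

open Pool.Agent.Lib.MP_663568_nt Pool.Agent.Lib.MP_663568_nt.Katai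
  Pool.Agent.Lib.MP_663568_nt.Nul

noncomputable section

/-! ### Averages over products of primes -/

/-- The average of `F(P)`, `P` a product of `j` independent primes of `PP` with the weights `wt`. -/
def EP (PP : Finset ℕ) : ℕ → (ℕ → ℝ) → ℝ
  | 0, F => F 1
  | (j + 1), F => ∑ p ∈ PP, wt PP p * EP PP j (fun P => F (p * P))

/-- The average over lists of `j` independent primes. -/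
def EL (PP : Finset ℕ) : ℕ → (List ℕ → ℝ) → ℝ
  | 0, F => F []
  | (j + 1), F => ∑ p ∈ PP, wt PP p * EL PP j (fun L => F (p :: L))

/-- Row EPC: linearity, monotonicity, products, marginals. -/
def EPC_stmt : Prop := ∀ (PP : Finset ℕ), 1 ≤ Ls PP →
  (∀ (j : ℕ) (c : ℝ), EP PP j (fun _ => c) = c) ∧
  (∀ (j : ℕ) (F G : ℕ → ℝ), EP PP j (fun P => F P + G P) = EP PP j F + EP PP j G) ∧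
  (∀ (j : ℕ) (c : ℝ) (F : ℕ → ℝ), EP PP j (fun P => c * F P) = c * EP PP j F) ∧
  (∀ (j : ℕ) (F G : ℕ → ℝ), (∀ L : List ℕ, (∀ p ∈ L, p ∈ PP) → L.length = j →
    F L.prod ≤ G L.prod) → EP PP j F ≤ EP PP j G) ∧
  (∀ (i j : ℕ) (F : ℕ → ℝ), EP PP (i + j) F = EP PP i (fun P => EP PP j (fun P' => F (P * P')))) ∧
  (∀ (J : ℕ) (F G : List ℕ → ℝ), EL PP J (fun L => F L + G L) = EL PP J F + EL PP J G) ∧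
  (∀ (J : ℕ) (c : ℝ) (F : List ℕ → ℝ), EL PP J (fun L => c * F L) = c * EL PP J F) ∧
  (∀ (J : ℕ) (F G : List ℕ → ℝ), (∀ L : List ℕ, (∀ p ∈ L, p ∈ PP) → L.length = J →
    F L ≤ G L) → EL PP J F ≤ EL PP J G) ∧
  (∀ (J i : ℕ) (G : ℕ → ℝ), i ≤ J → EL PP J (fun L => G (L.take i).prod) = EP PP i G) ∧
  (∀ (J i j : ℕ) (G : ℕ → ℕ → ℝ), i ≤ j → j ≤ J →
    EL PP J (fun L => G (L.take i).prod (L.take j).prod) =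
      EP PP i (fun P => EP PP (j - i) (fun P' => G P (P * P'))))

/-! ### Turán–Kubilius -/

/-- The mean of a window with its absolute phase. -/
def zz (l y : ℕ) (b : ℝ) : ℂ := (∑ m ∈ Ioc y (y + l), muC m * ee (b * m)) / l

/-- Row T0. -/
def T0_stmt : Prop := ∀ (l y : ℕ) (b : ℝ), ‖zz l y b‖ = vv l y b

/-- Row T1: Turán–Kubilius for windows (see the proof of `rb`). -/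
def T1_stmt : Prop := ∀ ε : ℝ, 0 < ε → ∃ K η : ℝ, 1 ≤ K ∧ 0 < η ∧ η ≤ 1 ∧
  ∀ (PP : Finset ℕ) (Z : ℝ), (∀ p ∈ PP, p.Prime ∧ K ≤ p ∧ (p : ℝ) ≤ Z) → K ≤ Ls PP →
  ∀ X l : ℕ, K * Z ^ 2 ≤ X → 1 ≤ l → l * Z ≤ η * X → ∀ (n : ℕ) (a : ℝ),
    ‖zz X n a + ∑ p ∈ PP, (wt PP p : ℂ) *
      (((1 / X : ℝ) : ℂ) * ∫ t in (n : ℝ)..(n + X), zz l ⌊t / p⌋₊ (p * a))‖ ≤ ε

/-- Row T2: several steps. -/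
def T2_stmt : Prop := T0_stmt → T1_stmt → EPC_stmt → ∀ (ε : ℝ) (J : ℕ), 0 < ε → ∃ K : ℝ, 1 ≤ K ∧
  ∀ (PP : Finset ℕ) (Z : ℝ), (∀ p ∈ PP, p.Prime ∧ K ≤ p ∧ (p : ℝ) ≤ Z) → K ≤ Ls PP →
  ∀ X l : ℕ, 1 ≤ l → K * Z ^ (J + 2) * l ≤ X → ∀ j ≤ J, ∀ (n : ℕ) (a : ℝ),
    vv X n a ≤ EP PP j (fun P => 1 / X * ∫ t in (n : ℝ)..(n + X), vv l ⌊t / P⌋₊ (P * a)) + ε

/-- The frequency of the cell of `e ^ u`. -/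
def cf (X : ℕ) (a : ℕ → ℝ) (u : ℝ) : ℝ := a ⌊Real.exp u / X⌋₊

/-- The weight of the cell of `e ^ u`, `0` outside `[ta, tb]`. -/
def cg (X : ℕ) (g : ℕ → ℝ) (ta tb u : ℝ) : ℝ :=
  if ta ≤ u ∧ u ≤ tb then g ⌊Real.exp u / X⌋₊ else 0

/-- The part of `T2_stmt` used below. -/
def T2' : Prop := ∀ (ε : ℝ) (J : ℕ), 0 < ε → ∃ K : ℝ, 1 ≤ K ∧
  ∀ (PP : Finset ℕ) (Z : ℝ), (∀ p ∈ PP, p.Prime ∧ K ≤ p ∧ (p : ℝ) ≤ Z) → K ≤ Ls PP →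
  ∀ X l : ℕ, 1 ≤ l → K * Z ^ (J + 2) * l ≤ X → ∀ j ≤ J, ∀ (n : ℕ) (a : ℝ),
    vv X n a ≤ EP PP j (fun P => 1 / X * ∫ t in (n : ℝ)..(n + X), vv l ⌊t / P⌋₊ (P * a)) + ε

/-- Row T3: several steps, integrated over the scales (cells of length `X`, weights `g`). -/
def T3_stmt : Prop := T2' → EPC_stmt → ∀ (ε : ℝ) (J : ℕ), 0 < ε → ∃ K : ℝ, 1 ≤ K ∧
  ∀ (PP : Finset ℕ) (Z : ℝ), (∀ p ∈ PP, p.Prime ∧ K ≤ p ∧ (p : ℝ) ≤ Z) → K ≤ Ls PP →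
  ∀ X l : ℕ, 1 ≤ l → K * Z ^ (J + 2) * l ≤ X → ∀ (a g : ℕ → ℝ), (∀ k, 0 ≤ g k) → (∀ k, g k ≤ 1) →
  ∀ ta tb : ℝ, ta ≤ tb → 2 * Real.log X + K ≤ ta → ∀ j ≤ J,
    ∫ u in ta..tb, g ⌊Real.exp u / X⌋₊ * SS X a u ≤
      EP PP j (fun P => ∫ u in ta..tb, cg X g ta tb (u + Real.log P) *
        vv l ⌊Real.exp u⌋₊ (P * cf X a (u + Real.log P))) + ε * (tb - ta) + J * Real.log Z + 2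

/-- At most `K` changes in each dyadic block. -/
def Slow (B : ℕ → Set ℝ) (K : ℝ) : Prop := ∀ j : ℕ, (by
  classical
  exact (#((Ico (2 ^ j) (2 ^ (j + 1))).filter fun n => B (n + 1) ≠ B n) : ℝ)) ≤ K

/-- Row T4: from windows to cells, no loss in the constant. -/
def T4_stmt : Prop := ∀ A ε : ℝ, 0 ≤ A → 0 < ε → ε ≤ 1 → ∃ η : ℝ, 0 < η ∧ η ≤ 1 ∧ ∃ H₀ : ℕ,
  ∀ H N : ℕ, H₀ ≤ H → (H : ℝ) ^ (A + 3) ≤ N → ∀ T : ℕ → Set ℝ, Slow T ((H : ℝ) ^ A) →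
  (∀ n, (T n).Nonempty) → ∀ a : ℕ → ℝ,
  (∀ k : ℕ, ∀ y ∈ T (k * ⌊η * H⌋₊), vv ⌊η * H⌋₊ (k * ⌊η * H⌋₊) y ≤
    vv ⌊η * H⌋₊ (k * ⌊η * H⌋₊) (a k) + ε / 4) →
  ∑ n ∈ Ioc ⌊(H : ℝ) ^ (A + 3)⌋₊ N, (1 / (n : ℝ)) * ⨆ y : {y : ℝ // y ∈ T n}, vv H n y ≤
    (∫ u in ((A + 3) * Real.log H)..(Real.log N), SS ⌊η * H⌋₊ a u) + ε * Real.log N

/-! ### Bessel -/

/-- Row T5: Bessel's inequality with the density of the square-free numbers. -/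
def T5_stmt : Prop := ∀ ε : ℝ, 0 < ε → ∃ C : ℝ, 0 < C ∧ ∃ l₀ : ℕ, ∀ l : ℕ, l₀ ≤ l →
  ∀ (y : ℕ) (ι : Finset ℕ) (c w : ℕ → ℝ), (∀ j, 0 ≤ w j) → (∀ j, w j ≤ 1) →
  (2 * ∑ j ∈ ι, w j * vv l y (c j)) ^ 2 ≤ (6 / Real.pi ^ 2 + ε) *
    (2 * ∑ i ∈ ι, ∑ j ∈ ι, w i * w j * ((if nd (c i - c j) ≤ C / l then 1 else 0) +
      (if nd (c i + c j) ≤ C / l then 1 else 0)) + ε * (#ι : ℝ) ^ 2)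

/-! ### Vinogradov for random products of primes -/

/-- Row T6: one prime. -/
def T6_stmt : Prop := SV2_stmt → PHI_stmt → ∀ κ₁ κ₂ ε : ℝ, 0 < κ₁ → κ₁ ≤ κ₂ → 0 < ε →
  ∃ (Q : ℕ) (C : ℝ), 1 ≤ Q ∧ 1 ≤ C ∧ ∃ H₀ : ℕ, ∀ H : ℕ, H₀ ≤ H → 1 ≤ Ls (PPs H κ₁ κ₂) →
  ∀ D ρ : ℝ, 0 ≤ ρ → ρ ≤ 1 / C →
  ε ≤ ∑ p ∈ PPs H κ₁ κ₂, wt (PPs H κ₁ κ₂) p * (if nd ((p : ℝ) * D) ≤ ρ then 1 else 0) →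
  ∃ q : ℕ, 1 ≤ q ∧ q ≤ Q ∧ nd ((q : ℝ) * D) ≤ C * ρ

/-- Row T7: products of `j` primes. -/
def T7' : Prop := ∀ (κ₁ κ₂ ε : ℝ) (j : ℕ), 0 < κ₁ → κ₁ ≤ κ₂ → 0 < ε →
  ∃ (Q : ℕ) (C : ℝ), 1 ≤ Q ∧ 1 ≤ C ∧ ∃ H₀ : ℕ, ∀ H : ℕ, H₀ ≤ H → 1 ≤ Ls (PPs H κ₁ κ₂) →
  ∀ D ρ : ℝ, 0 ≤ ρ → ρ ≤ 1 / C →
  ε ≤ EP (PPs H κ₁ κ₂) j (fun P => if nd ((P : ℝ) * D) ≤ ρ then 1 else 0) →
  ∃ q : ℕ, 1 ≤ q ∧ q ≤ Q ∧ nd ((q : ℝ) * D) ≤ C * ρ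
def T7_stmt : Prop := T6_stmt → SV2_stmt → PHI_stmt → EPC_stmt → T7'

/-- Row T8: coincidences come from above. -/
def T8' : Prop := ∀ (κ₁ κ₂ ε : ℝ) (j : ℕ), 0 < κ₁ → κ₁ ≤ κ₂ → κ₂ * j ≤ 1 / 4 → 0 < ε →
  ∃ H₀ : ℕ, ∀ H : ℕ, H₀ ≤ H → 1 ≤ Ls (PPs H κ₁ κ₂) → ∀ D τ : ℝ, 0 ≤ τ →
  τ ≤ (H : ℝ) ^ (-(1 / 2) : ℝ) →
  EP (PPs H κ₁ κ₂) j (fun P => if nd ((P : ℝ) * D) ≤ τ then 1 else 0) ≤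
    (if nd D ≤ (H : ℝ) ^ (-(1 / 4) : ℝ) then 1 else 0) + ε
def T8_stmt : Prop := T7' → EPC_stmt → T8'

/-! ### Equidistribution -/

/-- Row T9: one prime, one interval. -/
def T9' : Prop := ∀ κ₁ κ₂ ε : ℝ, 0 < κ₁ → κ₁ ≤ κ₂ → 0 < ε →
  ∃ c C : ℝ, 0 < c ∧ 0 < C ∧ ∃ H₀ : ℕ, ∀ H : ℕ, H₀ ≤ H → 1 ≤ Ls (PPs H κ₁ κ₂) →
  ∀ (s r : ℝ), 0 < r → ∀ W θ : ℝ → ℝ, Measurable W → Measurable θ → (∀ x, 0 ≤ W x) →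
  (∀ x, W x ≤ 1) →
  ε * r ≤ ∑ p ∈ PPs H κ₁ κ₂, wt (PPs H κ₁ κ₂) p *
    ‖∫ x in s..(s + r), (W x : ℂ) * ee ((p : ℝ) * θ x)‖ →
  c * r ^ 2 ≤ ∫ x in s..(s + r), ∫ y in s..(s + r),
    W x * W y * (if nd (θ x - θ y) ≤ C * (H : ℝ) ^ (-κ₁) then 1 else 0)
def T9_stmt : Prop := SV2_stmt → PHI_stmt → T9'

/-- Row T10: products of `j ≥ 1` primes, one interval. -/
def T10' : Prop := ∀ (κ₁ κ₂ ε : ℝ) (j : ℕ), 0 < κ₁ → κ₁ ≤ κ₂ → 0 < ε → 1 ≤ j →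
  ∃ (Q : ℕ) (c : ℝ), 1 ≤ Q ∧ 0 < c ∧ ∃ H₀ : ℕ, ∀ H : ℕ, H₀ ≤ H → 1 ≤ Ls (PPs H κ₁ κ₂) →
  ∀ (s r : ℝ), 0 < r → ∀ W θ : ℝ → ℝ, Measurable W → Measurable θ → (∀ x, 0 ≤ W x) →
  (∀ x, W x ≤ 1) →
  ε * r ≤ EP (PPs H κ₁ κ₂) j (fun P => ‖∫ x in s..(s + r), (W x : ℂ) * ee ((P : ℝ) * θ x)‖) →
  ∃ q : ℕ, 1 ≤ q ∧ q ≤ Q ∧ ∃ x₀ ∈ Set.Icc s (s + r),
    c * r ≤ ∫ x in s..(s + r), W x *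
      (if nd ((q : ℝ) * (θ x - θ x₀)) ≤ (H : ℝ) ^ (-(κ₁ / 2)) then 1 else 0)
def T10_stmt : Prop := T9' → T7' → EPC_stmt → T10'

/-- A step function with at most `K` steps in each unit interval. -/
def Stp (A : ℝ → ℂ) (K : ℝ) : Prop := ∃ st : ℝ → ℤ, Monotone st ∧
  (∀ u : ℝ, (st (u + 1) : ℝ) ≤ st u + K) ∧ ∀ u v : ℝ, st u = st v → A u = A v

/-- `al` is constant on the intervals `[i r, (i + 1) r)`. -/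
def Grid (al : ℝ → ℝ) (r : ℝ) : Prop := ∀ i : ℤ, ∀ x : ℝ, i * r ≤ x → x < (i + 1) * r →
  al x = al (i * r)

/-- Row T11: equidistribution over a window of scales. -/
def T11' : Prop := ∀ (κ₁ κ₂ ε : ℝ) (j Kf : ℕ), 0 < κ₁ → κ₁ ≤ κ₂ → 0 < ε → 1 ≤ j →
  ∃ (Q : ℕ) (ε₁ : ℝ), 1 ≤ Q ∧ 0 < ε₁ ∧ ∃ H₀ : ℕ, ∀ H : ℕ, H₀ ≤ H → 1 ≤ Ls (PPs H κ₁ κ₂) →
  ∀ (r ta tb Λ K : ℝ), 0 < r → ta ≤ tb → tb - ta ≤ Λ → 1 ≤ Λ → 1 ≤ K → r * K ≤ ε₁ →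
  ∀ (W θ : ℝ → ℝ) (A : ℝ → ℂ), Measurable W → Measurable θ → (∀ x, 0 ≤ W x) → (∀ x, W x ≤ 1) →
  Stp A K → (∀ u, ‖A u‖ ≤ 1) →
  (∀ q : ℕ, 1 ≤ q → q ≤ Q → ∀ al : ℝ → ℝ, Grid al r → ∫ x in ta..tb, W x *
    (if nd ((q : ℝ) * (θ x - al x)) ≤ (H : ℝ) ^ (-(κ₁ / 2)) then 1 else 0) ≤ ε₁ * Λ) →
  ∀ k : ℤ, k ≠ 0 → |k| ≤ Kf →
  EP (PPs H κ₁ κ₂) j (fun P => ‖∫ x in ta..tb, (W x : ℂ) * A (x - Real.log P) *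
    ee (k * ((P : ℝ) * θ x))‖) ≤ ε * Λ
def T11_stmt : Prop := T10' → EPC_stmt → T11'

/-! ### The use of Theorem V -/

/-- Row T12: Theorem V for grids and short windows. -/
def T12' : Prop := ∀ (A₁ c₁ ε : ℝ) (Q : ℕ), 0 ≤ A₁ → 0 < c₁ → c₁ ≤ 1 → 0 < ε →
  ∃ H₀ : ℕ, ∀ H N : ℕ, H₀ ≤ H → (H : ℝ) ^ (A₁ + 1) ≤ N → ∀ al : ℝ → ℝ,
  Grid al ((H : ℝ) ^ (-A₁)) → ∀ q b : ℕ, 1 ≤ q → q ≤ Q → b < q →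
    ∫ u in ((A₁ + 1) * Real.log H)..(Real.log N),
      vv ⌊(H : ℝ) ^ c₁⌋₊ ⌊Real.exp u⌋₊ (al u + b / q) ≤ ε * Real.log N
def T12_stmt : Prop := V_stmt → T12'

/-- Row T13: concentrated frequencies of cells are rare. -/
def T13' : Prop := ∀ (A₁ κ ε : ℝ) (Q : ℕ), 0 ≤ A₁ → 0 < κ → 0 < ε →
  ∃ H₀ : ℕ, ∀ H N X : ℕ, H₀ ≤ H → (H : ℝ) ^ (A₁ + 3) ≤ N → (H : ℝ) ^ (1 / 2 : ℝ) ≤ X → X ≤ H →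
  ∀ (a : ℕ → ℝ) (al : ℝ → ℝ), Grid al ((H : ℝ) ^ (-A₁)) → ∀ q : ℕ, 1 ≤ q → q ≤ Q →
    ∫ u in ((A₁ + 3) * Real.log H)..(Real.log N), SS X a u *
      (if nd ((q : ℝ) * (cf X a u - al u)) ≤ (H : ℝ) ^ (-κ) then 1 else 0) ≤ ε * Real.log N
def T13_stmt : Prop := T12' → T13'

/-- Row T14: concentrated frequencies of windows are rare. -/
def T14' : Prop := ∀ (A₁ κ ε : ℝ) (Q : ℕ), 0 ≤ A₁ → 0 < κ → 0 < ε →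
  ∃ H₀ : ℕ, ∀ H N X : ℕ, H₀ ≤ H → (H : ℝ) ^ (A₁ + 3) ≤ N → (H : ℝ) ^ (1 / 2 : ℝ) ≤ X → X ≤ H →
  ∀ (a : ℕ → ℝ) (al : ℝ → ℝ), Grid al ((H : ℝ) ^ (-A₁)) → ∀ q : ℕ, 1 ≤ q → q ≤ Q →
    ∫ u in ((A₁ + 3) * Real.log H)..(Real.log N), vv X ⌊Real.exp u⌋₊ (a ⌊Real.exp u⌋₊) *
      (if nd ((q : ℝ) * (a ⌊Real.exp u⌋₊ - al u)) ≤ (H : ℝ) ^ (-κ) then 1 else 0) ≤
      ε * Real.log N
def T14_stmt : Prop := T12' → T14'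

/-! ### Smoothing of sets -/

/-- Row T15: the Fejér mean of a periodic set. -/
def T15_stmt : Prop := ∀ R ε : ℝ, 1 ≤ R → 0 < ε → ∃ K : ℕ, ∀ S : Set ℝ, MeasurableSet S →
  (∀ x : ℝ, x + 1 ∈ S ↔ x ∈ S) → ∃ c : ℤ → ℂ, (∀ k, ‖c k‖ ≤ 1) ∧
  c 0 = ((volume (S ∩ Set.Icc 0 1)).toReal : ℂ) ∧ ∀ x : ℝ,
    0 ≤ (∑ k ∈ Icc (-(K : ℤ)) K, c k * ee (k * x)).re ∧
    (∑ k ∈ Icc (-(K : ℤ)) K, c k * ee (k * x)).re ≤ 1 ∧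
    ((∀ z : ℝ, |z - x| ≤ 1 / R → z ∈ S) →
      1 - ε ≤ (∑ k ∈ Icc (-(K : ℤ)) K, c k * ee (k * x)).re) ∧
    ((∀ z : ℝ, |z - x| ≤ 1 / R → z ∉ S) →
      (∑ k ∈ Icc (-(K : ℤ)) K, c k * ee (k * x)).re ≤ ε)

end

end Pool.Agent.SV
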