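import Mathlib
import Pool.Agent.Lib.SV.TFDefs

/-!
# Theorem TF (MP_663568_nt): row statements, second part.

The paper proof is the note tf_MP_663568_nt_h19.  (helper19)
-/

set_option autoImplicit false
open Finset MeasureTheory

namespace Pool.Agent.SV

open Pool.Agent.Lib.MP_663568_nt Pool.Agent.Lib.MP_663568_nt.Katai
  Pool.Agent.Lib.MP_663568_nt.Nul

noncomputable section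

/-! ### The steps of a slow family -/

/-- Row S1: functions of `T` are step functions of `u`. -/
def S1' : Prop := ∀ A : ℝ, 0 ≤ A → ∃ H₀ : ℕ, ∀ H X : ℕ, H₀ ≤ H → 1 ≤ X → X ≤ H →
  ∀ T : ℕ → Set ℝ, Slow T ((H : ℝ) ^ A) → ∀ Φ : Set ℝ → ℂ,
  Stp (fun u => Φ (T (⌊Real.exp (max u ((A + 3) * Real.log H)) / X⌋₊ * X))) (4 * (H : ℝ) ^ A)

/-- Row S2: means over the cells and over the integers. -/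
def S2' : Prop := ∀ A ε : ℝ, 0 ≤ A → 0 < ε → ∃ H₀ : ℕ, ∀ H N X : ℕ, H₀ ≤ H → 1 ≤ X → X ≤ H →
  (H : ℝ) ^ (A + 3) ≤ N → ∀ T : ℕ → Set ℝ, Slow T ((H : ℝ) ^ A) → ∀ φ : Set ℝ → ℝ,
  (∀ S, 0 ≤ φ S) → (∀ S, φ S ≤ 1) →
  ∫ u in ((A + 3) * Real.log H)..(Real.log N), φ (T (⌊Real.exp u / X⌋₊ * X)) ≤
    ∑ n ∈ Icc 1 N, (1 / (n : ℝ)) * φ (T n) + ε

/-- Row S3: a window around `e ^ u / p` contains no step, for most `u`. -/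
def S3' : Prop := ∀ A ε : ℝ, 0 ≤ A → 0 < ε → ∃ H₀ : ℕ, ∀ H N X p : ℕ, H₀ ≤ H → 1 ≤ X → X ≤ H →
  1 ≤ p → p ≤ H → (H : ℝ) ^ (A + 4) ≤ N → ∀ T : ℕ → Set ℝ, Slow T ((H : ℝ) ^ A) →
  volume {u : ℝ | (A + 4) * Real.log H ≤ u ∧ u ≤ Real.log N ∧ ∃ t : ℝ, (⌊Real.exp u⌋₊ : ℝ) ≤ t ∧
    t ≤ ⌊Real.exp u⌋₊ + X ∧ T ⌊t / p⌋₊ ≠ T ⌊Real.exp u / p⌋₊} ≤ ENNReal.ofReal ε

/-- Symmetric periodic sets. -/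
def SymP (T : ℕ → Set ℝ) : Prop := ∀ n : ℕ, ∀ y : ℝ, (y ∈ T n ↔ -y ∈ T n) ∧ (y + 1 ∈ T n ↔ y ∈ T n)

/-- The measure of the open `1 / R`-neighbourhood. -/
def om1 (S : Set ℝ) (R : ℝ) : ℝ :=
  (volume {x : ℝ | x ∈ Set.Icc 0 1 ∧ ∃ y ∈ S, |y - x| < 1 / R}).toReal

/-- The measure of the set of points whose open `1 / R`-neighbourhood is in `S`. -/
def im1 (S : Set ℝ) (R : ℝ) : ℝ :=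
  (volume {x : ℝ | x ∈ Set.Icc 0 1 ∧ ∀ z : ℝ, |z - x| < 1 / R → z ∈ S}).toReal

open Classical in
/-- Row T16a: coincidences come from above. -/
def T16a' : Prop := ∀ (A ε κ₁ κ₂ : ℝ) (J : ℕ), 0 ≤ A → 0 < ε → 0 < κ₁ → κ₁ ≤ κ₂ →
  κ₂ * J ≤ 1 / 8 → ∃ H₀ : ℕ, ∀ H N X : ℕ, H₀ ≤ H → 1 ≤ Ls (PPs H κ₁ κ₂) →
  (H : ℝ) ^ (A + 5) ≤ N → (H : ℝ) ^ (1 / 2 : ℝ) ≤ X → X ≤ H →
  ∀ T : ℕ → Set ℝ, SymP T → ∀ a g : ℕ → ℝ, (∀ k : ℕ, a k ∈ T (k * X)) → (∀ k, 0 ≤ g k) →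
  (∀ k, g k ≤ 1) → (∀ k : ℕ, ε * g k ≤ vv X (k * X) (a k)) →
  ∀ τ : ℝ, 0 ≤ τ → τ ≤ (H : ℝ) ^ (-(1 / 2) : ℝ) → ∀ i j : ℕ, 1 ≤ j → i + j ≤ J →
  EP (PPs H κ₁ κ₂) i (fun P => EP (PPs H κ₁ κ₂) j (fun P' =>
    ∫ u in ((A + 4) * Real.log H)..(Real.log N),
      cg X g ((A + 4) * Real.log H) (Real.log N) (u + Real.log P) *
      cg X g ((A + 4) * Real.log H) (Real.log N) (u + Real.log (P * P' : ℕ)) *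
      ((if nd (P * cf X a (u + Real.log P) - (P * P' : ℕ) * cf X a (u + Real.log (P * P' : ℕ))) ≤ τ
        then 1 else 0) +
       (if nd (P * cf X a (u + Real.log P) + (P * P' : ℕ) * cf X a (u + Real.log (P * P' : ℕ))) ≤ τ
        then 1 else 0)))) ≤
  EP (PPs H κ₁ κ₂) j (fun P' => ∫ x in ((A + 4) * Real.log H)..(Real.log N),
    cg X g ((A + 4) * Real.log H) (Real.log N) x *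
    (if ∃ y ∈ T (⌊Real.exp (x - Real.log P') / X⌋₊ * X),
      |P' * cf X a x - y| ≤ (H : ℝ) ^ (-(1 / 4) : ℝ) then 1 else 0)) + ε * Real.log N
def T16a_stmt : Prop := T7' → T8' → T13' → EPC_stmt → T16a'

/-- Row T16d: the diagonal. -/
def T16d' : Prop := ∀ (A ε κ₁ κ₂ : ℝ) (J : ℕ), 0 ≤ A → 0 < ε → 0 < κ₁ → κ₁ ≤ κ₂ →
  κ₂ * J ≤ 1 / 8 → ∃ H₀ : ℕ, ∀ H N X : ℕ, H₀ ≤ H → 1 ≤ Ls (PPs H κ₁ κ₂) →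
  (H : ℝ) ^ (A + 5) ≤ N → (H : ℝ) ^ (1 / 2 : ℝ) ≤ X → X ≤ H →
  ∀ a g : ℕ → ℝ, (∀ k, 0 ≤ g k) → (∀ k, g k ≤ 1) → (∀ k : ℕ, ε * g k ≤ vv X (k * X) (a k)) →
  ∀ τ : ℝ, 0 ≤ τ → τ ≤ (H : ℝ) ^ (-(1 / 2) : ℝ) → ∀ i : ℕ, i ≤ J →
  EP (PPs H κ₁ κ₂) i (fun P => ∫ u in ((A + 4) * Real.log H)..(Real.log N),
      cg X g ((A + 4) * Real.log H) (Real.log N) (u + Real.log P) *
      (if nd (P * cf X a (u + Real.log P) + P * cf X a (u + Real.log P)) ≤ τ then 1 else 0)) ≤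
    ε * Real.log N
def T16d_stmt : Prop := T7' → T13' → EPC_stmt → T16d'

open Classical in
/-- Row T16b: equidistribution against the sets `T`. -/
def T16b' : Prop := ∀ (A ε κ₁ κ₂ R : ℝ) (J : ℕ), 0 ≤ A → 0 < ε → 0 < κ₁ → κ₁ ≤ κ₂ → 1 ≤ R →
  κ₂ * J ≤ 1 / 8 → ∃ H₀ : ℕ, ∀ H N X : ℕ, H₀ ≤ H → 1 ≤ Ls (PPs H κ₁ κ₂) →
  (H : ℝ) ^ (A + 5) ≤ N → (H : ℝ) ^ (1 / 2 : ℝ) ≤ X → X ≤ H →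
  ∀ T : ℕ → Set ℝ, SymP T → Slow T ((H : ℝ) ^ A) → ∀ a g : ℕ → ℝ, (∀ k, 0 ≤ g k) →
  (∀ k, g k ≤ 1) → (∀ k : ℕ, ε * g k ≤ vv X (k * X) (a k)) → ∀ j : ℕ, 1 ≤ j → j ≤ J →
  EP (PPs H κ₁ κ₂) j (fun P' => ∫ x in ((A + 4) * Real.log H)..(Real.log N),
    cg X g ((A + 4) * Real.log H) (Real.log N) x *
    (if ∃ y ∈ T (⌊Real.exp (x - Real.log P') / X⌋₊ * X),
      |P' * cf X a x - y| ≤ (H : ℝ) ^ (-(1 / 4) : ℝ) then 1 else 0)) ≤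
  ∑ n ∈ Icc 1 N, (1 / (n : ℝ)) * om1 (T n) R + ε * Real.log N
def T16b_stmt : Prop := T11' → T13' → T15_stmt → S1' → S2' → EPC_stmt → T16b'

/-! ### Part (i) -/

/-- Part (i) for symmetric periodic nonempty sets, large range. -/
def I' : Prop := ∀ A ε R : ℝ, 0 ≤ A → 0 < ε → 1 ≤ R → ∃ H₀ : ℕ, ∀ H N : ℕ, H₀ ≤ H →
  (H : ℝ) ^ (A + 5) ≤ N → ∀ T : ℕ → Set ℝ, SymP T → Slow T ((H : ℝ) ^ A) →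
  (∀ n, (T n).Nonempty) →
  ∑ n ∈ Ioc ⌊(H : ℝ) ^ (A + 4)⌋₊ N, (1 / (n : ℝ)) * ⨆ y : {y : ℝ // y ∈ T n}, vv H n y ≤
    (√(3 * ((∑ n ∈ Icc 1 N, (1 / (n : ℝ)) * om1 (T n) R) / Real.log N)) / Real.pi + ε) *
      Real.log N

/-! ### Part (ii) -/

/-- The supremum over all frequencies. -/
def sv (l n : ℕ) : ℝ := ⨆ b : ℝ, vv l n b

/-- Row T18: change of variables. -/
def T18' : Prop := ∀ ε : ℝ, 0 < ε → ∃ K : ℝ, 1 ≤ K ∧ ∀ (PP : Finset ℕ) (Z : ℝ),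
  (∀ p ∈ PP, p.Prime ∧ (p : ℝ) ≤ Z) → 1 ≤ Ls PP → 1 ≤ Z → ∀ X : ℕ, 1 ≤ X → ∀ ta tb : ℝ,
  Real.log X + Real.log Z + K ≤ ta → ta ≤ tb → ∀ f : ℕ → ℝ, (∀ n, 0 ≤ f n) → (∀ n, f n ≤ 1) →
  ∫ u in ta..tb, ∑ p ∈ PP, wt PP p * (1 / X *
    ∫ t in (⌊Real.exp u⌋₊ : ℝ)..(⌊Real.exp u⌋₊ + X), f ⌊t / p⌋₊) ≤
  (∫ u in ta..tb, f ⌊Real.exp u⌋₊) + ε * (tb - ta) + Real.log Z + 1

/-- Row T19: the second moment. -/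
def T19' : Prop := ∀ ε : ℝ, 0 < ε → ∃ K η : ℝ, 1 ≤ K ∧ 0 < η ∧ η ≤ 1 ∧
  ∀ (PP : Finset ℕ) (Z : ℝ), (∀ p ∈ PP, p.Prime ∧ K ≤ p ∧ (p : ℝ) ≤ Z) → K ≤ Ls PP →
  ∀ X l : ℕ, K * Z ^ 2 ≤ X → 1 ≤ l → l * Z ≤ η * X → ∀ ta tb : ℝ,
  Real.log X + Real.log Z + K ≤ ta → ta ≤ tb → ∀ b : ℕ → ℝ,
  ((∫ u in ta..tb, ∑ p ∈ PP, wt PP p * (1 / X *
    ∫ t in (⌊Real.exp u⌋₊ : ℝ)..(⌊Real.exp u⌋₊ + X),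
      ‖zz l ⌊t / p⌋₊ (p * b ⌊Real.exp u⌋₊) + zz X ⌊Real.exp u⌋₊ (b ⌊Real.exp u⌋₊)‖ ^ 2)) ≤
  (∫ u in ta..tb, sv l ⌊Real.exp u⌋₊ ^ 2) -
    (∫ u in ta..tb, vv X ⌊Real.exp u⌋₊ (b ⌊Real.exp u⌋₊) ^ 2) + ε * (tb - ta) +
      Real.log Z + 1) ∧
  ∫ u in ta..tb, vv X ⌊Real.exp u⌋₊ (b ⌊Real.exp u⌋₊) ≤
    (∫ u in ta..tb, sv l ⌊Real.exp u⌋₊) + ε * (tb - ta) + Real.log Z + 1
def T19_stmt : Prop := T0_stmt → T1_stmt → T18' → T19'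

/-- Row T21: the lower bound at a regular scale. -/
def T21' : Prop := ∀ ε : ℝ, 0 < ε → ε ≤ 1 → ∃ K η : ℝ, 1 ≤ K ∧ 0 < η ∧ η ≤ 1 ∧
  ∀ A κ₁ κ₂ R : ℝ, 0 ≤ A → 0 < κ₁ → κ₁ ≤ κ₂ → 8 * κ₂ ≤ ε → 1 ≤ R →
  ∃ H₀ : ℕ, ∀ H N X l : ℕ, H₀ ≤ H →
  K ≤ Ls (PPs H κ₁ κ₂) → (H : ℝ) ^ (A + 5) ≤ N → (H : ℝ) ^ (1 / 2 : ℝ) ≤ X → X ≤ H → 1 ≤ l →
  l * (H : ℝ) ^ κ₂ ≤ η * X →
  (∫ u in ((A + 4) * Real.log H)..(Real.log N), sv l ⌊Real.exp u⌋₊ ^ 2) ≤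
    (∫ u in ((A + 4) * Real.log H)..(Real.log N), sv X ⌊Real.exp u⌋₊ ^ 2) + ε * Real.log N →
  ∀ T : ℕ → Set ℝ, SymP T → Slow T ((H : ℝ) ^ A) → ∀ w : ℝ, 0 ≤ w → (∀ n, w ≤ im1 (T n) R) →
  w * (∫ u in ((A + 4) * Real.log H)..(Real.log N), sv X ⌊Real.exp u⌋₊) - 8 * √ε * Real.log N ≤
    ∫ u in ((A + 4) * Real.log H)..(Real.log N),
      ⨆ y : {y : ℝ // y ∈ T ⌊Real.exp u⌋₊}, vv l ⌊Real.exp u⌋₊ y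
def T21_stmt : Prop := T0_stmt → T18' → T19' → T11' → T14' → T15_stmt → S1' → S3' → T21'

/-- Part (ii) in the large range. -/
def II' : Prop := ∀ A ε R : ℝ, 0 ≤ A → 0 < ε → 1 ≤ R → ∃ H₀ : ℕ, ∀ H N : ℕ, H₀ ≤ H →
  (H : ℝ) ^ (A + 5) ≤ N → ∃ L : ℕ, (H : ℝ) ^ (1 - ε) ≤ L ∧ L ≤ H ∧ ∀ T : ℕ → Set ℝ, SymP T →
  Slow T ((H : ℝ) ^ A) → ∀ w : ℝ, 0 ≤ w → (∀ n, w ≤ im1 (T n) R) →
  w * (∫ u in ((A + 4) * Real.log H)..(Real.log N), sv H ⌊Real.exp u⌋₊) - ε * Real.log N ≤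
    ∫ u in ((A + 4) * Real.log H)..(Real.log N),
      ⨆ y : {y : ℝ // y ∈ T ⌊Real.exp u⌋₊}, vv L ⌊Real.exp u⌋₊ y

end

end Pool.Agent.SV
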