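import Mathlib
import Pool.Agent.Lib.SV.TFDefs

/-!
# Theorem TF (MP_663568_nt): calculus of the averages over products of primes.  (helper19)
-/

set_option autoImplicit false
open Finset MeasureTheory

namespace Pool.Agent.SV

open Pool.Agent.Lib.MP_663568_nt Pool.Agent.Lib.MP_663568_nt.Katai
  Pool.Agent.Lib.MP_663568_nt.Nul

noncomputable section

namespace EPx

theorem Ls_pos {PP : Finset ℕ} (h : 1 ≤ Ls PP) : 0 < Ls PP := by linarith

theorem wt_nonneg {PP : Finset ℕ} (h : 1 ≤ Ls PP) (p : ℕ) : 0 ≤ wt PP p := by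
  unfold wt
  have := Ls_pos h
  positivity

theorem sum_wt {PP : Finset ℕ} (h : 1 ≤ Ls PP) : ∑ p ∈ PP, wt PP p = 1 := by
  have h0 := Ls_pos h
  have : ∑ p ∈ PP, wt PP p = (∑ p ∈ PP, 1 / (p : ℝ)) / Ls PP := by
    rw [sum_div]
    refine sum_congr rfl fun p _ => ?_
    rw [wt, div_div]
  rw [this]
  exact div_self h0.ne'

theorem EP_const {PP : Finset ℕ} (h : 1 ≤ Ls PP) (j : ℕ) (c : ℝ) : EP PP j (fun _ => c) = c := by
  induction j with
  | zero => rfl
  | succ j ih => rw [EP]; simp only [ih]; rw [← sum_mul, sum_wt h, one_mul]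

theorem EP_add (PP : Finset ℕ) (j : ℕ) : ∀ F G : ℕ → ℝ,
    EP PP j (fun P => F P + G P) = EP PP j F + EP PP j G := by
  induction j with
  | zero => intro F G; rfl
  | succ j ih =>
    intro F G
    rw [EP, EP, EP, ← sum_add_distrib]
    refine sum_congr rfl fun p _ => ?_
    rw [ih (fun P => F (p * P)) (fun P => G (p * P)), mul_add]

theorem EP_mul (PP : Finset ℕ) (j : ℕ) (c : ℝ) : ∀ F : ℕ → ℝ,
    EP PP j (fun P => c * F P) = c * EP PP j F := by
  induction j with
  | zero => intro F; rfl
  | succ j ih =>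
    intro F
    rw [EP, EP, mul_sum]
    refine sum_congr rfl fun p _ => ?_
    rw [ih (fun P => F (p * P))]
    ring

theorem EP_mono {PP : Finset ℕ} (h : 1 ≤ Ls PP) (j : ℕ) : ∀ F G : ℕ → ℝ,
    (∀ L : List ℕ, (∀ p ∈ L, p ∈ PP) → L.length = j → F L.prod ≤ G L.prod) →
    EP PP j F ≤ EP PP j G := by
  induction j with
  | zero =>
    intro F G hFG
    simpa [EP] using hFG [] (by simp) rfl
  | succ j ih =>
    intro F G hFG
    rw [EP, EP]
    refine sum_le_sum fun p hp => mul_le_mul_of_nonneg_left (ih _ _ ?_) (wt_nonneg h p)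
    intro L hL hl
    have := hFG (p :: L) (by
      intro q hq
      rcases List.mem_cons.1 hq with h1 | h1
      · rw [h1]; exact hp
      · exact hL q h1) (by simp [hl])
    rwa [List.prod_cons] at this

theorem EP_split (PP : Finset ℕ) (i j : ℕ) : ∀ F : ℕ → ℝ,
    EP PP (i + j) F = EP PP i (fun P => EP PP j (fun P' => F (P * P'))) := by
  induction i with
  | zero =>
    intro F
    rw [zero_add]
    show EP PP j F = EP PP j (fun P' => F (1 * P'))
    simp only [one_mul]
  | succ i ih =>
    intro F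
    rw [show i + 1 + j = (i + j) + 1 by ring, EP, EP]
    refine sum_congr rfl fun p _ => ?_
    rw [ih (fun P => F (p * P))]
    simp only [mul_assoc]

theorem EL_const {PP : Finset ℕ} (h : 1 ≤ Ls PP) (j : ℕ) (c : ℝ) : EL PP j (fun _ => c) = c := by
  induction j with
  | zero => rfl
  | succ j ih => rw [EL]; simp only [ih]; rw [← sum_mul, sum_wt h, one_mul]

theorem EL_add (PP : Finset ℕ) (j : ℕ) : ∀ F G : List ℕ → ℝ,
    EL PP j (fun P => F P + G P) = EL PP j F + EL PP j G := by
  induction j with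
  | zero => intro F G; rfl
  | succ j ih =>
    intro F G
    rw [EL, EL, EL, ← sum_add_distrib]
    refine sum_congr rfl fun p _ => ?_
    rw [ih (fun P => F (p :: P)) (fun P => G (p :: P)), mul_add]

theorem EL_mul (PP : Finset ℕ) (j : ℕ) (c : ℝ) : ∀ F : List ℕ → ℝ,
    EL PP j (fun P => c * F P) = c * EL PP j F := by
  induction j with
  | zero => intro F; rfl
  | succ j ih =>
    intro F
    rw [EL, EL, mul_sum]
    refine sum_congr rfl fun p _ => ?_
    rw [ih (fun P => F (p :: P))]
    ring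

theorem EL_mono {PP : Finset ℕ} (h : 1 ≤ Ls PP) (j : ℕ) : ∀ F G : List ℕ → ℝ,
    (∀ L : List ℕ, (∀ p ∈ L, p ∈ PP) → L.length = j → F L ≤ G L) →
    EL PP j F ≤ EL PP j G := by
  induction j with
  | zero =>
    intro F G hFG
    simpa [EL] using hFG [] (by simp) rfl
  | succ j ih =>
    intro F G hFG
    rw [EL, EL]
    refine sum_le_sum fun p hp => mul_le_mul_of_nonneg_left (ih _ _ ?_) (wt_nonneg h p)
    intro L hL hl
    exact hFG (p :: L) (by
      intro q hq
      rcases List.mem_cons.1 hq with h1 | h1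
      · rw [h1]; exact hp
      · exact hL q h1) (by simp [hl])

theorem EL_take {PP : Finset ℕ} (h : 1 ≤ Ls PP) (J : ℕ) : ∀ (i : ℕ) (G : ℕ → ℝ), i ≤ J →
    EL PP J (fun L => G (L.take i).prod) = EP PP i G := by
  induction J with
  | zero =>
    intro i G hi
    obtain rfl : i = 0 := by omega
    simp [EL, EP]
  | succ J ih =>
    intro i G hi
    rcases Nat.eq_zero_or_pos i with h0 | h0
    · subst h0
      simp only [List.take_zero, List.prod_nil]
      rw [EL_const h]
      rfl
    · obtain ⟨i, rfl⟩ := Nat.exists_eq_succ_of_ne_zero (by omega : i ≠ 0)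
      rw [EL, Nat.succ_eq_add_one, EP]
      refine sum_congr rfl fun p _ => ?_
      simp only [List.take_succ_cons, List.prod_cons]
      rw [ih i (fun P => G (p * P)) (by omega)]

theorem EL_take2 {PP : Finset ℕ} (h : 1 ≤ Ls PP) (J : ℕ) : ∀ (i j : ℕ) (G : ℕ → ℕ → ℝ),
    i ≤ j → j ≤ J → EL PP J (fun L => G (L.take i).prod (L.take j).prod) =
      EP PP i (fun P => EP PP (j - i) (fun P' => G P (P * P'))) := by
  induction J with
  | zero =>
    intro i j G hij hj
    obtain rfl : j = 0 := by omega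
    obtain rfl : i = 0 := by omega
    simp [EL, EP]
  | succ J ih =>
    intro i j G hij hj
    rcases Nat.eq_zero_or_pos i with h0 | h0
    · subst h0
      simp only [List.take_zero, List.prod_nil]
      rw [EL_take h (J + 1) j (fun P => G 1 P) hj]
      show _ = EP PP (j - 0) (fun P' => G 1 (1 * P'))
      simp only [one_mul, Nat.sub_zero]
    · obtain ⟨i, rfl⟩ := Nat.exists_eq_succ_of_ne_zero (by omega : i ≠ 0)
      obtain ⟨j, rfl⟩ := Nat.exists_eq_succ_of_ne_zero (by omega : j ≠ 0)
      rw [EL, Nat.succ_eq_add_one, EP]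
      refine sum_congr rfl fun p _ => ?_
      simp only [List.take_succ_cons, List.prod_cons]
      rw [ih i j (fun P P' => G (p * P) (p * P')) (by omega) (by omega)]
      simp only [Nat.succ_eq_add_one, Nat.add_sub_add_right, mul_assoc]

end EPx

theorem epc : EPC_stmt := fun PP h => ⟨EPx.EP_const h, EPx.EP_add PP, EPx.EP_mul PP,
  EPx.EP_mono h, EPx.EP_split PP, EPx.EL_add PP, EPx.EL_mul PP, EPx.EL_mono h,
  fun J i G hi => EPx.EL_take h J i G hi, fun J i j G h1 h2 => EPx.EL_take2 h J i j G h1 h2⟩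

end

end Pool.Agent.SV
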