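import Pool.Agent.Lib.SV.Defs3
import Pool.Agent.Lib.MP_663568_nul.Base

/-!
# Theorem V (MP_663568_nt), row RC: clusters of frequencies
-/

set_option autoImplicit false
open Finset MeasureTheory

namespace Pool.Agent.SV

open Pool.Agent.Lib.MP_663568_nt Pool.Agent.Lib.MP_663568_nt.Katai
  Pool.Agent.Lib.MP_663568_nt.Nul

namespace RCx

lemma geom_le (θ δ : ℝ) (hδ : 0 < δ) (h : δ ≤ nd θ) (L : ℕ) :
    ‖∑ l ∈ Icc 1 L, ee (θ * l)‖ ≤ 1 / (2 * δ) := by
  have h1 := geom_bound θ 0 L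
  simp only [add_zero] at h1
  have h2 := nd_le_norm_one_sub_ee θ
  have h3 : 4 * δ * ‖∑ l ∈ Icc 1 L, ee (θ * l)‖ ≤ 2 :=
    (mul_le_mul_of_nonneg_right (by linarith) (norm_nonneg _)).trans h1
  rw [le_div_iff₀ (by positivity)]
  linarith

/-- Bessel: few separated large frequencies. -/
lemma bessel (l : ℕ) (hl : 1 ≤ l) (y : ℕ) (S : Finset ℝ) (e C : ℝ) (he : 0 < e) (hC : 0 < C)
    (hC2 : 16 ≤ C * e ^ 2) (hbig : ∀ c ∈ S, e / 4 ≤ vv l y c)
    (hsep : ∀ c ∈ S, ∀ c' ∈ S, c ≠ c' → C / l ≤ nd (c - c')) :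
    (S.card : ℝ) ≤ 32 / e ^ 2 := by
  classical
  have hl0 : (0 : ℝ) < l := by exact_mod_cast hl
  choose u hu1 hu2 using exists_unit
  set z : ℝ → ℂ := fun c => ∑ m ∈ Icc 1 l, muC (y + m) * ee (c * m) with hz
  set D : ℕ → ℂ := fun m => ∑ c ∈ S, u (z c) * ee (c * m) with hD
  have h1 : ((∑ c ∈ S, ‖z c‖ : ℝ) : ℂ) = ∑ m ∈ Icc 1 l, muC (y + m) * D m := by
    push_cast
    have e1 : ∀ c ∈ S, ((‖z c‖ : ℝ) : ℂ) = ∑ m ∈ Icc 1 l, muC (y + m) * (u (z c) * ee (c * m)) := by
      intro c _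
      rw [← hu2 (z c)]
      conv_lhs => rw [hz]
      simp only
      rw [mul_sum]
      refine sum_congr rfl fun m _ => ?_
      ring
    rw [sum_congr rfl e1, sum_comm]
    refine sum_congr rfl fun m _ => ?_
    rw [hD, mul_sum]
  have h2 : ∑ c ∈ S, ‖z c‖ ≤ ∑ m ∈ Icc 1 l, ‖D m‖ := by
    have h3 : ∑ c ∈ S, ‖z c‖ = ‖((∑ c ∈ S, ‖z c‖ : ℝ) : ℂ)‖ := by
      rw [Complex.norm_real, Real.norm_of_nonneg (sum_nonneg fun _ _ => norm_nonneg _)]
    rw [h3, h1]
    refine (norm_sum_le _ _).trans (sum_le_sum fun m _ => ?_)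
    rw [norm_mul]
    calc _ ≤ 1 * ‖D m‖ := mul_le_mul_of_nonneg_right (norm_muC _) (norm_nonneg _)
      _ = _ := one_mul _
  have h4 : ∑ m ∈ Icc 1 l, ‖D m‖ ^ 2 ≤ (S.card : ℝ) * l + (S.card : ℝ) ^ 2 * (l / (2 * C)) := by
    have e2 : ((∑ m ∈ Icc 1 l, ‖D m‖ ^ 2 : ℝ) : ℂ) = ∑ c ∈ S, ∑ c' ∈ S,
        u (z c) * (starRingEnd ℂ) (u (z c')) * ∑ m ∈ Icc 1 l, ee ((c - c') * m) := by
      push_cast
      have e3 : ∀ m ∈ Icc 1 l, ((‖D m‖ : ℂ)) ^ 2 = ∑ c ∈ S, ∑ c' ∈ S,
          u (z c) * (starRingEnd ℂ) (u (z c')) * ee ((c - c') * m) := by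
        intro m _
        rw [← Complex.mul_conj', hD, map_sum, sum_mul_sum]
        refine sum_congr rfl fun c _ => sum_congr rfl fun c' _ => ?_
        rw [map_mul, sub_mul, ee_sub]
        ring
      rw [sum_congr rfl e3, sum_comm]
      refine sum_congr rfl fun c _ => ?_
      rw [sum_comm]
      refine sum_congr rfl fun c' _ => ?_
      rw [mul_sum]
    have e4 : ∑ m ∈ Icc 1 l, ‖D m‖ ^ 2 = ‖((∑ m ∈ Icc 1 l, ‖D m‖ ^ 2 : ℝ) : ℂ)‖ := by
      rw [Complex.norm_real, Real.norm_of_nonneg (sum_nonneg fun _ _ => by positivity)]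
    rw [e4, e2]
    have e5 : ∀ c ∈ S, ∀ c' ∈ S, ‖u (z c) * (starRingEnd ℂ) (u (z c')) *
        ∑ m ∈ Icc 1 l, ee ((c - c') * m)‖ ≤ (if c = c' then (l : ℝ) else 0) + l / (2 * C) := by
      intro c hc c' hc'
      have n1 : ‖u (z c) * (starRingEnd ℂ) (u (z c'))‖ ≤ 1 := by
        rw [norm_mul, RCLike.norm_conj]
        exact mul_le_one₀ (hu1 _) (norm_nonneg _) (hu1 _)
      rw [norm_mul]
      have n2 : ‖∑ m ∈ Icc 1 l, ee ((c - c') * m)‖ ≤ (if c = c' then (l : ℝ) else 0) +
          l / (2 * C) := by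
        split_ifs with hcc
        · refine (norm_sum_le _ _).trans ?_
          simp only [norm_ee, sum_const, Nat.card_Icc, nsmul_eq_mul, mul_one]
          have : (0 : ℝ) ≤ l / (2 * C) := by positivity
          have h9 : ((l + 1 - 1 : ℕ) : ℝ) = l := by simp
          linarith
        · rw [zero_add]
          refine (geom_le (c - c') (C / l) (by positivity) (hsep c hc c' hc' hcc) l).trans
            (le_of_eq ?_)
          field_simp
      calc _ ≤ 1 * ‖∑ m ∈ Icc 1 l, ee ((c - c') * m)‖ :=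
            mul_le_mul_of_nonneg_right n1 (norm_nonneg _)
        _ ≤ _ := by rw [one_mul]; exact n2
    calc _ ≤ ∑ c ∈ S, ∑ c' ∈ S, ‖u (z c) * (starRingEnd ℂ) (u (z c')) *
        ∑ m ∈ Icc 1 l, ee ((c - c') * m)‖ :=
        (norm_sum_le _ _).trans (sum_le_sum fun c _ => norm_sum_le _ _)
      _ ≤ ∑ c ∈ S, ∑ c' ∈ S, ((if c = c' then (l : ℝ) else 0) + l / (2 * C)) :=
        sum_le_sum fun c hc => sum_le_sum fun c' hc' => e5 c hc c' hc'
      _ = _ := by
        simp only [sum_add_distrib, sum_ite_eq, sum_ite_mem, inter_self, sum_const, nsmul_eq_mul]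
        ring
  have h5 : (S.card : ℝ) * (e / 4) * l ≤ ∑ c ∈ S, ‖z c‖ := by
    have e6 : ∀ c ∈ S, e / 4 * l ≤ ‖z c‖ := by
      intro c hc
      have := hbig c hc
      rw [vv, le_div_iff₀ hl0] at this
      exact this
    calc (S.card : ℝ) * (e / 4) * l = ∑ _c ∈ S, e / 4 * l := by
          rw [sum_const, nsmul_eq_mul]; ring
      _ ≤ _ := sum_le_sum e6
  have h6 : (∑ m ∈ Icc 1 l, ‖D m‖) ^ 2 ≤ l * ∑ m ∈ Icc 1 l, ‖D m‖ ^ 2 := by
    have := sq_sum_le_card_mul_sum_sq (s := Icc 1 l) (f := fun m => ‖D m‖)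
    simpa using this
  have h7 : ((S.card : ℝ) * (e / 4) * l) ^ 2 ≤
      l * ((S.card : ℝ) * l + (S.card : ℝ) ^ 2 * (l / (2 * C))) :=
    (pow_le_pow_left₀ (by positivity) (h5.trans h2) 2).trans
      (h6.trans (mul_le_mul_of_nonneg_left h4 hl0.le))
  have h8 : 1 / (2 * C) ≤ e ^ 2 / 32 := by
    rw [div_le_div_iff₀ (by positivity) (by norm_num)]
    linarith
  rcases Nat.eq_zero_or_pos S.card with h0 | h0
  · rw [h0]
    simp only [Nat.cast_zero]
    positivity
  have hK : (0 : ℝ) < S.card := by exact_mod_cast h0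
  have h9 : (S.card : ℝ) * (e ^ 2 / 16) ≤ 1 + S.card * (1 / (2 * C)) := by
    have h10 : (l : ℝ) ^ 2 * S.card * ((S.card : ℝ) * (e ^ 2 / 16)) ≤
        (l : ℝ) ^ 2 * S.card * (1 + S.card * (1 / (2 * C))) := by
      calc _ = ((S.card : ℝ) * (e / 4) * l) ^ 2 := by ring
        _ ≤ _ := h7
        _ = _ := by ring
    exact le_of_mul_le_mul_left h10 (by positivity)
  have h11 : (S.card : ℝ) * (1 / (2 * C)) ≤ S.card * (e ^ 2 / 32) :=
    mul_le_mul_of_nonneg_left h8 hK.le
  rw [le_div_iff₀ (by positivity)]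
  nlinarith

/-- A net of the large frequencies. -/
lemma exists_net (l : ℕ) (hl : 1 ≤ l) (y : ℕ) (e C : ℝ) (he : 0 < e) (hC : 0 < C)
    (hC2 : 16 ≤ C * e ^ 2) : ∃ S : Finset ℝ, (S.card : ℝ) ≤ 32 / e ^ 2 ∧
      (∀ c ∈ S, e / 4 ≤ vv l y c) ∧ ∀ b, e / 4 ≤ vv l y b → ∃ c ∈ S, nd (b - c) ≤ C / l := by
  classical
  have hl0 : (0 : ℝ) < l := by exact_mod_cast hl
  set P : ℕ → Prop := fun n => ∃ S : Finset ℝ, S.card = n ∧ (∀ c ∈ S, e / 4 ≤ vv l y c) ∧
    ∀ c ∈ S, ∀ c' ∈ S, c ≠ c' → C / l ≤ nd (c - c') with hP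
  have hP0 : P 0 := ⟨∅, rfl, by simp, by simp⟩
  have hbd : ∀ n, P n → n ≤ ⌊32 / e ^ 2⌋₊ := by
    rintro n ⟨S, rfl, h1, h2⟩
    exact Nat.le_floor (bessel l hl y S e C he hC hC2 h1 h2)
  obtain ⟨S, hS, hbig, hsep⟩ := Nat.findGreatest_spec (P := P) (Nat.zero_le ⌊32 / e ^ 2⌋₊) hP0
  refine ⟨S, bessel l hl y S e C he hC hC2 hbig hsep, hbig, fun b hb => ?_⟩
  by_contra hcon
  push Not at hcon
  have hbS : b ∉ S := by
    intro h
    have h1 := hcon b h
    rw [sub_self] at h1
    have h2 : nd (0 : ℝ) = 0 := by simpa using nd_int 0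
    rw [h2] at h1
    have : (0 : ℝ) < C / l := by positivity
    linarith
  have hPn : P (S.card + 1) := by
    refine ⟨insert b S, card_insert_of_notMem hbS, ?_, ?_⟩
    · intro c hc
      rcases mem_insert.1 hc with rfl | hc
      · exact hb
      · exact hbig c hc
    · intro c hc c' hc' hne
      rcases mem_insert.1 hc with e1 | hc1
      · rcases mem_insert.1 hc' with e2 | hc2
        · exact absurd (e1.trans e2.symm) hne
        · rw [e1]
          exact (hcon c' hc2).le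
      · rcases mem_insert.1 hc' with e2 | hc2
        · rw [← nd_neg, neg_sub, e2]
          exact (hcon c hc1).le
        · exact hsep c hc1 c' hc2 hne
  have h3 := Nat.le_findGreatest (hbd _ hPn) hPn
  omega

/-- Moving the window. -/
lemma vv_shift (l : ℕ) (hl : 1 ≤ l) (y : ℕ) (b : ℝ) (k : ℕ) :
    |vv l (y + k) b - vv l y b| ≤ 2 * k / l := by
  have hl0 : (0 : ℝ) < l := by exact_mod_cast hl
  induction k with
  | zero => simp
  | succ k ih =>
    have h1 : |vv l (y + (k + 1)) b - vv l (y + k) b| ≤ 2 / l := by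
      rw [vv, vv, ← sub_div, abs_div, abs_of_pos hl0]
      apply div_le_div_of_nonneg_right _ hl0.le
      set w := y + k with hw
      have e1 : ee b * ∑ m ∈ Icc 1 l, muC (y + (k + 1) + m) * ee (b * m) =
          ∑ m ∈ Icc 1 l, muC (w + m) * ee (b * m) +
            (muC (w + (l + 1)) * ee (b * (l + 1)) - muC (w + 1) * ee b) := by
        have e2 : ∀ L : ℕ, ee b * ∑ m ∈ Icc 1 L, muC (y + (k + 1) + m) * ee (b * m) =
          ∑ m ∈ Icc 1 L, muC (w + m) * ee (b * m) +
            (muC (w + (L + 1)) * ee (b * (L + 1)) - muC (w + 1) * ee b) := by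
          intro L
          induction L with
          | zero => simp
          | succ L ihL =>
            rw [sum_Icc_succ_top (by omega), sum_Icc_succ_top (by omega), mul_add, ihL]
            have e3 : y + (k + 1) + (L + 1) = w + (L + 1 + 1) := by omega
            have e4 : ee (b * ((L + 1 : ℕ) + 1)) = ee b * ee (b * ((L + 1 : ℕ))) := by
              rw [← ee_add]; congr 1; ring
            rw [e3, e4]
            push_cast
            ring
        exact e2 l
      have e5 : ‖∑ m ∈ Icc 1 l, muC (y + (k + 1) + m) * ee (b * m)‖ =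
          ‖ee b * ∑ m ∈ Icc 1 l, muC (y + (k + 1) + m) * ee (b * m)‖ := by
        rw [norm_mul, norm_ee, one_mul]
      rw [e5, e1]
      refine (abs_norm_sub_norm_le _ _).trans ?_
      rw [add_sub_cancel_left]
      refine (norm_sub_le _ _).trans ?_
      rw [norm_mul, norm_mul, norm_ee, norm_ee, mul_one, mul_one]
      linarith [norm_muC (w + (l + 1)), norm_muC (w + 1)]
    calc _ = |(vv l (y + (k + 1)) b - vv l (y + k) b) + (vv l (y + k) b - vv l y b)| := by
          congr 1; ring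
      _ ≤ 2 / l + 2 * k / l := (abs_add_le _ _).trans (add_le_add h1 ih)
      _ = _ := by push_cast; ring

lemma vv_nonneg (l y : ℕ) (b : ℝ) : 0 ≤ vv l y b := div_nonneg (norm_nonneg _) (Nat.cast_nonneg _)

lemma vv_le_one (l : ℕ) (hl : 1 ≤ l) (y : ℕ) (b : ℝ) : vv l y b ≤ 1 := by
  have hl0 : (0 : ℝ) < l := by exact_mod_cast hl
  rw [vv, div_le_one hl0]
  refine (norm_sum_le _ _).trans ?_
  calc _ ≤ ∑ _m ∈ Icc 1 l, (1 : ℝ) := by
        refine sum_le_sum fun m _ => ?_
        rw [norm_mul, norm_ee, mul_one]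
        exact norm_muC _
    _ = l := by simp

lemma continuous_vv (l y : ℕ) : Continuous (vv l y) := by
  unfold vv
  refine Continuous.div_const ?_ _
  refine (continuous_finsetSum _ fun m _ => ?_).norm
  exact continuous_const.mul (continuous_ee.comp (continuous_id.mul continuous_const))

lemma measurable_vv0 (l : ℕ) :
    Measurable fun x : ℝ × ℕ => vv l x.2 x.1 := by
  refine measurable_from_prod_countable_left fun n => ?_
  have h1 : Measurable (vv l n) := (continuous_vv l n).measurable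
  exact h1

lemma measurable_vv (l : ℕ) {N : ℝ → ℕ} {β : ℝ → ℝ} (hN : Measurable N) (hβ : Measurable β) :
    Measurable fun u => vv l (N u) (β u) := by
  have h2 : Measurable fun u : ℝ => (β u, N u) := hβ.prodMk hN
  have h3 := (measurable_vv0 l).comp h2
  simp only [Function.comp_def] at h3
  exact h3

/-- The most popular centre. -/
lemma majority (PP : Finset ℕ) (w : ℕ → ℝ) (hw : ∀ p, 0 ≤ w p) (S : Finset ℝ) (K : ℝ)
    (hS : (S.card : ℝ) ≤ K) (L : ℕ → ℝ) (M : ℕ → ℝ → ℝ) (hM : ∀ p c, 0 ≤ M p c)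
    (hLM : ∀ p, L p ≤ ∑ c ∈ S, M p c) (hne : S.Nonempty) :
    ∃ c ∈ S, ∑ p ∈ PP, w p * L p ≤ K * ∑ p ∈ PP, w p * M p c := by
  obtain ⟨c, hc, hmax⟩ := exists_max_image S (fun c => ∑ p ∈ PP, w p * M p c) hne
  refine ⟨c, hc, ?_⟩
  have h0 : 0 ≤ ∑ p ∈ PP, w p * M p c := sum_nonneg fun p _ => mul_nonneg (hw p) (hM p c)
  calc ∑ p ∈ PP, w p * L p ≤ ∑ p ∈ PP, w p * ∑ c ∈ S, M p c :=
        sum_le_sum fun p _ => mul_le_mul_of_nonneg_left (hLM p) (hw p)
    _ = ∑ c ∈ S, ∑ p ∈ PP, w p * M p c := by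
        rw [sum_comm]
        exact sum_congr rfl fun p _ => mul_sum _ _ _
    _ ≤ ∑ _c ∈ S, ∑ p ∈ PP, w p * M p c := sum_le_sum fun c' hc' => hmax c' hc'
    _ = S.card * ∑ p ∈ PP, w p * M p c := by rw [sum_const, nsmul_eq_mul]
    _ ≤ _ := mul_le_mul_of_nonneg_right hS h0

lemma wt_nonneg (PP : Finset ℕ) (p : ℕ) : 0 ≤ wt PP p := by
  unfold wt Ls
  exact div_nonneg zero_le_one (mul_nonneg (Nat.cast_nonneg _)
    (sum_nonneg fun _ _ => div_nonneg zero_le_one (Nat.cast_nonneg _)))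

lemma sum_wt (PP : Finset ℕ) (h : 1 ≤ Ls PP) : ∑ p ∈ PP, wt PP p = 1 := by
  have h1 : ∀ p ∈ PP, wt PP p = 1 / (p : ℝ) * (1 / Ls PP) := by
    intro p _
    rw [wt, div_mul_div_comm, one_mul]
  rw [sum_congr rfl h1, ← sum_mul]
  change Ls PP * (1 / Ls PP) = 1
  field_simp

/-- The window in the lower variable. -/
lemma near_cell (l : ℕ) (hl : 1 ≤ l) (η : ℝ) (hη : 0 < η) (u b : ℝ) :
    |vv l ⌊Real.exp u⌋₊ b - vv l ⌊(⌊Real.exp u / (η * l)⌋₊ : ℝ) * (η * l)⌋₊ b| ≤
      2 * η + 2 / l := by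
  have hl0 : (0 : ℝ) < l := by exact_mod_cast hl
  have hc : 0 < η * l := mul_pos hη hl0
  set j : ℝ := (⌊Real.exp u / (η * l)⌋₊ : ℝ) with hj
  have h1 : j * (η * l) ≤ Real.exp u := by
    have := Nat.floor_le (a := Real.exp u / (η * l)) (by positivity)
    rwa [le_div_iff₀ hc] at this
  have h2 : Real.exp u < (j + 1) * (η * l) := by
    have := Nat.lt_floor_add_one (Real.exp u / (η * l))
    rwa [div_lt_iff₀ hc] at this
  have h3 : ⌊j * (η * l)⌋₊ ≤ ⌊Real.exp u⌋₊ := Nat.floor_le_floor h1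
  obtain ⟨k, hk⟩ := Nat.exists_eq_add_of_le h3
  rw [hk]
  refine (vv_shift l hl _ b k).trans ?_
  have h4 : (k : ℝ) ≤ η * l + 1 := by
    have h5 : ((⌊j * (η * l)⌋₊ + k : ℕ) : ℝ) ≤ Real.exp u := by
      rw [← hk]; exact Nat.floor_le (by positivity)
    have h6 := Nat.lt_floor_add_one (j * (η * l))
    push_cast at h5
    nlinarith
  rw [div_le_iff₀ hl0]
  have : (2 * η + 2 / l) * l = 2 * (η * l) + 2 := by field_simp
  rw [this]
  linarith

/-- The integral of one prime. -/
lemma integral_le (l : ℕ) (hl : 1 ≤ l) (p : ℕ) (hp : 0 < p) (al : ℝ → ℝ) (hal : Measurable al)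
    (ta tb e : ℝ) (hab : ta ≤ tb) (he : 0 ≤ e) :
    ∫ u in ta..tb, vv l ⌊Real.exp u / p⌋₊ (p * al u) ≤
      (volume (Set.Icc (ta - Real.log p) (tb - Real.log p) ∩
        {u | e / 2 ≤ vv l ⌊Real.exp u⌋₊ (p * al (u + Real.log p))})).toReal +
      e / 2 * (tb - ta) := by
  have hp0 : (0 : ℝ) < p := by exact_mod_cast hp
  set F : ℝ → ℝ := fun u => vv l ⌊Real.exp u⌋₊ (p * al (u + Real.log p)) with hF
  have hFm : Measurable F :=
    measurable_vv l Real.measurable_exp.nat_floor
      (measurable_const.mul (hal.comp (measurable_id.add_const _)))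
  set a := ta - Real.log p with ha
  set b := tb - Real.log p with hb
  have hab' : a ≤ b := by linarith
  have e1 : ∫ u in ta..tb, vv l ⌊Real.exp u / p⌋₊ (p * al u) = ∫ u in a..b, F u := by
    have h1 := intervalIntegral.integral_comp_add_right (a := a) (b := b)
      (fun u => vv l ⌊Real.exp u / p⌋₊ (p * al u)) (Real.log p)
    have h2 : a + Real.log p = ta := by rw [ha]; ring
    have h3 : b + Real.log p = tb := by rw [hb]; ring
    rw [h2, h3] at h1
    rw [← h1]
    refine intervalIntegral.integral_congr fun u _ => ?_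
    simp only [hF]
    rw [Real.exp_add, Real.exp_log hp0, mul_div_assoc, div_self hp0.ne', mul_one]
  rw [e1]
  set Bg : Set ℝ := {u | e / 2 ≤ F u} with hBg
  have hBgm : MeasurableSet Bg := measurableSet_le measurable_const hFm
  have hint : IntervalIntegrable F volume a b := by
    rw [intervalIntegrable_iff_integrableOn_Ioc_of_le hab']
    refine Measure.integrableOn_of_bounded (M := 1) (by simp) hFm.aestronglyMeasurable ?_
    refine Filter.Eventually.of_forall fun u => ?_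
    rw [Real.norm_of_nonneg (vv_nonneg _ _ _)]
    exact vv_le_one l hl _ _
  have hint2 : IntervalIntegrable (Bg.indicator (fun _ => (1 : ℝ))) volume a b := by
    rw [intervalIntegrable_iff_integrableOn_Ioc_of_le hab']
    refine Measure.integrableOn_of_bounded (M := 1) (by simp)
      (measurable_const.indicator hBgm).aestronglyMeasurable ?_
    refine Filter.Eventually.of_forall fun u => ?_
    by_cases hu : u ∈ Bg <;> simp [hu]
  have h2 : ∫ u in a..b, F u ≤ ∫ u in a..b, (Bg.indicator (fun _ => (1 : ℝ)) u + e / 2) := by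
    refine intervalIntegral.integral_mono_on hab' hint (hint2.add intervalIntegrable_const) ?_
    intro u _
    by_cases hu : u ∈ Bg
    · rw [Set.indicator_of_mem hu]
      have := vv_le_one l hl ⌊Real.exp u⌋₊ (p * al (u + Real.log p))
      simp only [hF]
      linarith
    · rw [Set.indicator_of_notMem hu]
      have : F u < e / 2 := not_le.1 hu
      linarith
  refine h2.trans ?_
  rw [intervalIntegral.integral_add hint2 intervalIntegrable_const,
    intervalIntegral.integral_const, smul_eq_mul]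
  have h3 : ∫ u in a..b, Bg.indicator (fun _ => (1 : ℝ)) u ≤ (volume (Set.Icc a b ∩ Bg)).toReal := by
    rw [intervalIntegral.integral_of_le hab', setIntegral_indicator hBgm, setIntegral_const,
      smul_eq_mul, mul_one]
    refine ENNReal.toReal_mono ?_ (measure_mono (Set.inter_subset_inter_left _ Set.Ioc_subset_Icc_self))
    exact ((measure_mono Set.inter_subset_left).trans_lt measure_Icc_lt_top).ne
  have h4 : (b - a) * (e / 2) = e / 2 * (tb - ta) := by rw [ha, hb]; ring
  rw [h4]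
  linarith

end RCx

open RCx in
/-- **Row RC.** -/
theorem rc : RC_stmt := by
  classical
  intro e he he1
  have hη0 : 0 < e / 32 := by positivity
  have hC0 : 0 < 16 / e ^ 2 := by positivity
  refine ⟨e ^ 3 / 64, e / 32, 16 / e ^ 2, by positivity, ?_, hη0, by linarith, hC0,
    ⌈32 / e⌉₊ + 1, fun l hl PP hPP hLs al hal ta tb htab hbig => ?_⟩
  · have : e ^ 3 ≤ 1 := pow_le_one₀ he.le he1
    linarith
  set η := e / 32 with hη
  set C := 16 / e ^ 2 with hC
  have hC2 : 16 ≤ C * e ^ 2 := by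
    rw [hC, div_mul_cancel₀ _ (by positivity)]
  have hl1 : 1 ≤ l := by omega
  have hl0 : (0 : ℝ) < l := by exact_mod_cast hl1
  have hle : 32 / e ≤ l := by
    have h1 : 32 / e ≤ ⌈32 / e⌉₊ := Nat.le_ceil _
    have h2 : (⌈32 / e⌉₊ : ℝ) ≤ l := by exact_mod_cast (by omega : ⌈32 / e⌉₊ ≤ l)
    linarith
  have hle2 : 2 / (l : ℝ) ≤ e / 16 := by
    rw [div_le_iff₀ he] at hle
    rw [div_le_iff₀ hl0]
    linarith
  set cellf : ℝ → ℕ := fun u => ⌊Real.exp u / (η * l)⌋₊ with hcell
  set ctr : ℕ → ℕ := fun j => ⌊(j : ℝ) * (η * l)⌋₊ with hctr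
  set W : ℕ → Set ℝ := fun p => Set.Icc (ta - Real.log p) (tb - Real.log p) with hW
  have hcellm : Measurable cellf := (Real.measurable_exp.div_const _).nat_floor
  have hβm : ∀ p : ℕ, Measurable fun u => (p : ℝ) * al (u + Real.log p) := fun p =>
    measurable_const.mul (hal.comp (measurable_id.add_const _))
  set T : ℕ → ℝ → ℕ → Set ℝ := fun j c p => W p ∩ ({u | cellf u = j} ∩
    {u | nd ((p : ℝ) * al (u + Real.log p) - c) ≤ C / l}) with hT
  set Lg : ℕ → ℕ → Set ℝ := fun j p => W p ∩ ({u | cellf u = j} ∩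
    {u | e / 4 ≤ vv l (ctr j) ((p : ℝ) * al (u + Real.log p))}) with hLg
  have hWfin : ∀ (p : ℕ) (X : Set ℝ), volume (W p ∩ X) ≠ ⊤ := fun p X =>
    ((measure_mono Set.inter_subset_left).trans_lt measure_Icc_lt_top).ne
  -- choice of the centres
  have hB : ∀ j : ℕ, ∃ b : ℝ, ∑ p ∈ PP, wt PP p * (volume (Lg j p)).toReal ≤
      32 / e ^ 2 * ∑ p ∈ PP, wt PP p *
        (volume (if e / 4 ≤ vv l (ctr j) b then T j b p else ∅)).toReal := by
    intro j
    obtain ⟨S, hS1, hS2, hS3⟩ := exists_net l hl1 (ctr j) e C he hC0 hC2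
    rcases S.eq_empty_or_nonempty with hS | hS
    · refine ⟨0, ?_⟩
      have h0 : ∀ p ∈ PP, wt PP p * (volume (Lg j p)).toReal = 0 := by
        intro p _
        have h1 : Lg j p = ∅ := by
          rw [Set.eq_empty_iff_forall_notMem]
          rintro u ⟨_, _, hu⟩
          obtain ⟨c, hc, _⟩ := hS3 _ hu
          rw [hS] at hc
          simp at hc
        rw [h1]
        simp
      rw [sum_congr rfl h0, sum_const_zero]
      refine mul_nonneg (by positivity) (sum_nonneg fun p _ => mul_nonneg (wt_nonneg _ _) ?_)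
      exact ENNReal.toReal_nonneg
    · have hLM : ∀ p : ℕ, (volume (Lg j p)).toReal ≤ ∑ c ∈ S, (volume (T j c p)).toReal := by
        intro p
        have h1 : Lg j p ⊆ ⋃ c ∈ S, T j c p := by
          rintro u ⟨hu1, hu2, hu3⟩
          obtain ⟨c, hc, hcn⟩ := hS3 _ hu3
          exact Set.mem_biUnion (Finset.mem_coe.2 hc) ⟨hu1, hu2, hcn⟩
        have h2 : volume (⋃ c ∈ S, T j c p) ≤ ∑ c ∈ S, volume (T j c p) :=
          measure_biUnion_finset_le S _
        have h3 : ∑ c ∈ S, volume (T j c p) ≠ ⊤ := by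
          rw [ENNReal.sum_ne_top]
          exact fun c _ => hWfin p _
        have h4 := ENNReal.toReal_mono h3 ((measure_mono h1).trans h2)
        rw [ENNReal.toReal_sum fun c _ => hWfin p _] at h4
        exact h4
      obtain ⟨c, hc, hmaj⟩ := majority PP (wt PP) (wt_nonneg PP) S (32 / e ^ 2) hS1
        (fun p => (volume (Lg j p)).toReal) (fun p c => (volume (T j c p)).toReal)
        (fun p c => ENNReal.toReal_nonneg) hLM hS
      refine ⟨c, ?_⟩
      have e9 : ∀ p : ℕ, (if e / 4 ≤ vv l (ctr j) c then T j c p else ∅) = T j c p :=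
        fun p => if_pos (hS2 c hc)
      simp only [e9]
      exact hmaj
  choose B hB using hB
  have hGd : ∀ p ∈ PP, Gd l PP al B ta tb η C e p = W p ∩
      ({u | e / 4 ≤ vv l (ctr (cellf u)) (B (cellf u))} ∩
        {u | nd ((p : ℝ) * al (u + Real.log p) - B (cellf u)) ≤ C / l}) := by
    intro p hp
    ext u
    simp only [Gd, Set.mem_ofPred_eq, Set.mem_inter_iff, hW, Set.mem_Icc, hcell, hctr]
    constructor
    · rintro ⟨_, h1, h2, h3, h4⟩
      exact ⟨⟨by linarith, by linarith⟩, h3, h4⟩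
    · rintro ⟨⟨h1, h2⟩, h3, h4⟩
      exact ⟨hp, by linarith, by linarith, h3, h4⟩
  have hBm : Measurable fun u => B (cellf u) := (measurable_from_nat (f := B)).comp hcellm
  have hvm : Measurable fun u => vv l (ctr (cellf u)) (B (cellf u)) :=
    (measurable_from_nat (f := fun j => vv l (ctr j) (B j))).comp hcellm
  have hGm : ∀ p, MeasurableSet (Gd l PP al B ta tb η C e p) := by
    intro p
    by_cases hp : p ∈ PP
    · rw [hGd p hp]
      refine measurableSet_Icc.inter ((measurableSet_le measurable_const hvm).inter ?_)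
      exact measurableSet_le (continuous_nd.measurable.comp ((hβm p).sub hBm)) measurable_const
    · have : Gd l PP al B ta tb η C e p = ∅ := by
        rw [Set.eq_empty_iff_forall_notMem]
        rintro u ⟨h, _⟩
        exact hp h
      rw [this]
      exact MeasurableSet.empty
  refine ⟨B, hGm, ?_⟩
  -- the large pairs
  set Bg : ℕ → Set ℝ := fun p => W p ∩
    {u | e / 2 ≤ vv l ⌊Real.exp u⌋₊ ((p : ℝ) * al (u + Real.log p))} with hBg
  have s1 : e / 2 * (tb - ta) ≤ ∑ p ∈ PP, wt PP p * (volume (Bg p)).toReal := by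
    have h1 : ∑ p ∈ PP, wt PP p * ∫ u in ta..tb, vv l ⌊Real.exp u / p⌋₊ (p * al u) ≤
        ∑ p ∈ PP, wt PP p * ((volume (Bg p)).toReal + e / 2 * (tb - ta)) := by
      refine sum_le_sum fun p hp => mul_le_mul_of_nonneg_left ?_ (wt_nonneg _ _)
      exact integral_le l hl1 p (hPP p hp).pos al hal ta tb e htab.le he.le
    have h2 : ∑ p ∈ PP, wt PP p * ((volume (Bg p)).toReal + e / 2 * (tb - ta)) =
        ∑ p ∈ PP, wt PP p * (volume (Bg p)).toReal + e / 2 * (tb - ta) := by
      simp only [mul_add]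
      rw [sum_add_distrib, ← sum_mul, sum_wt PP hLs, one_mul]
    have h3 := hbig.trans h1
    rw [h2] at h3
    linarith
  set J : ℕ := ⌊Real.exp tb / (η * l)⌋₊ + 1 with hJ
  have s2 : ∀ p ∈ PP, (volume (Bg p)).toReal ≤ ∑ j ∈ range J, (volume (Lg j p)).toReal := by
    intro p hp
    have hp1 : (1 : ℝ) ≤ p := by exact_mod_cast (hPP p hp).one_lt.le
    have h1 : Bg p ⊆ ⋃ j ∈ range J, Lg j p := by
      rintro u ⟨hu1, hu2⟩
      have hj : cellf u ∈ range J := by
        rw [mem_range, hJ, Nat.lt_succ_iff]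
        refine Nat.floor_le_floor (div_le_div_of_nonneg_right (Real.exp_le_exp.2 ?_) ?_)
        · have h5 : u ≤ tb - Real.log p := hu1.2
          have h6 : 0 ≤ Real.log p := Real.log_nonneg hp1
          linarith
        · positivity
      refine Set.mem_biUnion (Finset.mem_coe.2 hj) ⟨hu1, rfl, ?_⟩
      have h7 := near_cell l hl1 η hη0 u ((p : ℝ) * al (u + Real.log p))
      have h8 := (abs_le.1 h7).2
      have h9 : e / 2 ≤ vv l ⌊Real.exp u⌋₊ ((p : ℝ) * al (u + Real.log p)) := hu2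
      have h10 : 2 * η = e / 16 := by rw [hη]; ring
      change e / 4 ≤ vv l ⌊(⌊Real.exp u / (η * l)⌋₊ : ℝ) * (η * l)⌋₊ ((p : ℝ) * al (u + Real.log p))
      linarith
    have h2 : volume (⋃ j ∈ range J, Lg j p) ≤ ∑ j ∈ range J, volume (Lg j p) :=
      measure_biUnion_finset_le _ _
    have h3 : ∑ j ∈ range J, volume (Lg j p) ≠ ⊤ := by
      rw [ENNReal.sum_ne_top]
      exact fun c _ => hWfin p _
    have h4 := ENNReal.toReal_mono h3 ((measure_mono h1).trans h2)
    rw [ENNReal.toReal_sum fun c _ => hWfin p _] at h4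
    exact h4
  have s3 : ∀ p ∈ PP, ∑ j ∈ range J,
      (volume (if e / 4 ≤ vv l (ctr j) (B j) then T j (B j) p else ∅)).toReal ≤
      (volume (Gd l PP al B ta tb η C e p)).toReal := by
    intro p hp
    have h1 : ∀ j ∈ range J,
        (volume (if e / 4 ≤ vv l (ctr j) (B j) then T j (B j) p else ∅)).toReal ≤
        (volume (Gd l PP al B ta tb η C e p ∩ cellf ⁻¹' {j})).toReal := by
      intro j _
      have h2 : (if e / 4 ≤ vv l (ctr j) (B j) then T j (B j) p else ∅) ⊆
          Gd l PP al B ta tb η C e p ∩ cellf ⁻¹' {j} := by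
        split_ifs with hv
        · rintro u ⟨hu1, hu2, hu3⟩
          have hu2' : cellf u = j := hu2
          refine ⟨?_, hu2'⟩
          rw [hGd p hp]
          refine ⟨hu1, ?_, ?_⟩
          · change e / 4 ≤ vv l (ctr (cellf u)) (B (cellf u))
            rw [hu2']; exact hv
          · change nd ((p : ℝ) * al (u + Real.log p) - B (cellf u)) ≤ C / l
            rw [hu2']; exact hu3
        · exact Set.empty_subset _
      refine ENNReal.toReal_mono ?_ (measure_mono h2)
      rw [hGd p hp, Set.inter_assoc]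
      exact hWfin p _
    refine (sum_le_sum h1).trans ?_
    rw [← ENNReal.toReal_sum fun j _ => ?_]
    · rw [← measure_biUnion_finset]
      · refine ENNReal.toReal_mono ?_ (measure_mono (Set.iUnion₂_subset fun j _ =>
          Set.inter_subset_left))
        rw [hGd p hp]
        exact hWfin p _
      · intro i _ j _ hij
        refine Disjoint.mono Set.inter_subset_right Set.inter_subset_right ?_
        exact Disjoint.preimage _ (Set.disjoint_singleton.2 hij)
      · exact fun j _ => (hGm p).inter (hcellm (measurableSet_singleton j))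
    · rw [hGd p hp, Set.inter_assoc]
      exact hWfin p _
  -- the sum over the cells
  have s4 : ∑ p ∈ PP, wt PP p * (volume (Bg p)).toReal ≤
      32 / e ^ 2 * ∑ p ∈ PP, wt PP p * (volume (Gd l PP al B ta tb η C e p)).toReal := by
    calc ∑ p ∈ PP, wt PP p * (volume (Bg p)).toReal
        ≤ ∑ p ∈ PP, wt PP p * ∑ j ∈ range J, (volume (Lg j p)).toReal :=
          sum_le_sum fun p hp => mul_le_mul_of_nonneg_left (s2 p hp) (wt_nonneg _ _)
      _ = ∑ j ∈ range J, ∑ p ∈ PP, wt PP p * (volume (Lg j p)).toReal := by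
          simp only [mul_sum]
          exact sum_comm
      _ ≤ ∑ j ∈ range J, 32 / e ^ 2 * ∑ p ∈ PP, wt PP p *
          (volume (if e / 4 ≤ vv l (ctr j) (B j) then T j (B j) p else ∅)).toReal :=
          sum_le_sum fun j _ => hB j
      _ = 32 / e ^ 2 * ∑ p ∈ PP, wt PP p * ∑ j ∈ range J,
          (volume (if e / 4 ≤ vv l (ctr j) (B j) then T j (B j) p else ∅)).toReal := by
          rw [← mul_sum]
          congr 1
          simp only [mul_sum]
          exact sum_comm
      _ ≤ _ := by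
          refine mul_le_mul_of_nonneg_left (sum_le_sum fun p hp =>
            mul_le_mul_of_nonneg_left (s3 p hp) (wt_nonneg _ _)) (by positivity)
  have s5 := s1.trans s4
  have s6 : e ^ 3 / 64 * (tb - ta) = e ^ 2 / 32 * (e / 2 * (tb - ta)) := by ring
  rw [s6]
  calc e ^ 2 / 32 * (e / 2 * (tb - ta)) ≤ e ^ 2 / 32 * (32 / e ^ 2 *
        ∑ p ∈ PP, wt PP p * (volume (Gd l PP al B ta tb η C e p)).toReal) :=
        mul_le_mul_of_nonneg_left s5 (by positivity)
    _ = _ := by
        rw [← mul_assoc]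
        have : e ^ 2 / 32 * (32 / e ^ 2) = 1 := by field_simp
        rw [this, one_mul]

end Pool.Agent.SV
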