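import Mathlib
import Pool.Agent.Lib.SV.TFDefs2
import Pool.Agent.Lib.SV.EPC
import Pool.Agent.Lib.SV.RC

/-!
# Theorem TF (MP_663568_nt): part (i), the integrated Bessel inequality.  (helper19)
-/

set_option autoImplicit false
open Finset MeasureTheory

namespace Pool.Agent.SV

open Pool.Agent.Lib.MP_663568_nt Pool.Agent.Lib.MP_663568_nt.Katai
  Pool.Agent.Lib.MP_663568_nt.Nul

noncomputable section

namespace IFx

theorem EL_sum (PP : Finset ℕ) (J : ℕ) {ι : Type} (s : Finset ι) : ∀ F : ι → List ℕ → ℝ,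
    EL PP J (fun L => ∑ j ∈ s, F j L) = ∑ j ∈ s, EL PP J (F j) := by
  induction J with
  | zero => intro F; rfl
  | succ J ih =>
    intro F
    rw [EL]
    simp only [EL]
    rw [sum_comm]
    refine sum_congr rfl fun p _ => ?_
    rw [ih (fun j L => F j (p :: L)), mul_sum]

theorem wt_sq {PP : Finset ℕ} (h : 1 ≤ Ls PP) (x : ℕ → ℝ) :
    (∑ p ∈ PP, wt PP p * x p) ^ 2 ≤ ∑ p ∈ PP, wt PP p * x p ^ 2 := by
  obtain ⟨m, hm⟩ : ∃ m, m = ∑ p ∈ PP, wt PP p * x p := ⟨_, rfl⟩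
  have h0 : 0 ≤ ∑ p ∈ PP, wt PP p * (x p - m) ^ 2 :=
    sum_nonneg fun p _ => mul_nonneg (EPx.wt_nonneg h p) (sq_nonneg _)
  have h1 : ∑ p ∈ PP, wt PP p * (x p - m) ^ 2 =
      ∑ p ∈ PP, wt PP p * x p ^ 2 - 2 * m * ∑ p ∈ PP, wt PP p * x p + m ^ 2 * ∑ p ∈ PP, wt PP p := by
    rw [mul_sum, mul_sum, ← sum_sub_distrib, ← sum_add_distrib]
    refine sum_congr rfl fun p _ => ?_
    ring
  rw [EPx.sum_wt h, ← hm] at h1
  rw [← hm]
  nlinarith

theorem EL_sq {PP : Finset ℕ} (h : 1 ≤ Ls PP) (J : ℕ) : ∀ F : List ℕ → ℝ,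
    (EL PP J F) ^ 2 ≤ EL PP J (fun L => F L ^ 2) := by
  induction J with
  | zero => intro F; exact le_rfl
  | succ J ih =>
    intro F
    rw [EL, EL]
    refine (wt_sq h _).trans (sum_le_sum fun p _ => ?_)
    exact mul_le_mul_of_nonneg_left (ih _) (EPx.wt_nonneg h p)

theorem ii_bdd {f : ℝ → ℝ} (hm : Measurable f) {C : ℝ} (hb : ∀ u, |f u| ≤ C) (a b : ℝ) :
    IntervalIntegrable f volume a b := by
  rw [intervalIntegrable_iff]
  refine MeasureTheory.Measure.integrableOn_of_bounded (M := C) ?_ hm.aestronglyMeasurable ?_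
  · simp [Set.uIoc]
  · exact Filter.Eventually.of_forall fun t => by rw [Real.norm_eq_abs]; exact hb t

theorem ii_sum {ι : Type} (s : Finset ι) (f : ι → ℝ → ℝ) {a b : ℝ}
    (h : ∀ i ∈ s, IntervalIntegrable (f i) volume a b) :
    IntervalIntegrable (fun u => ∑ i ∈ s, f i u) volume a b := by
  have e : (fun u => ∑ i ∈ s, f i u) = ∑ i ∈ s, f i := by
    funext u
    rw [Finset.sum_apply]
  rw [e]
  exact IntervalIntegrable.sum s h

theorem le_sqrt_add {x a b : ℝ} (ha : 0 ≤ a) (hb : 0 ≤ b) (h : x ^ 2 ≤ a + b) :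
    x ≤ √a + √b := by
  have h1 := Real.sq_sqrt ha
  have h2 := Real.sq_sqrt hb
  have h3 := Real.sqrt_nonneg a
  have h4 := Real.sqrt_nonneg b
  have h5 : 0 ≤ √a * √b := mul_nonneg h3 h4
  by_contra hcon
  have h6 : √a + √b < x := lt_of_not_ge hcon
  nlinarith

theorem int_sq {f : ℝ → ℝ} (hm : Measurable f) {C : ℝ} (hb : ∀ u, |f u| ≤ C) {a b : ℝ}
    (hab : a ≤ b) : (∫ u in a..b, f u) ^ 2 ≤ (b - a) * ∫ u in a..b, f u ^ 2 := by
  rcases hab.eq_or_lt with h | h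
  · rw [h]; simp
  have hba : 0 < b - a := by linarith
  have hC : 0 ≤ C := (abs_nonneg _).trans (hb 0)
  have i1 := ii_bdd hm hb a b
  have i2 : IntervalIntegrable (fun u => f u ^ 2) volume a b := by
    refine ii_bdd (C := C ^ 2) (hm.pow_const 2) (fun u => ?_) a b
    rw [abs_pow]
    exact pow_le_pow_left₀ (abs_nonneg _) (hb u) 2
  obtain ⟨I, hI⟩ : ∃ I, I = ∫ u in a..b, f u := ⟨_, rfl⟩
  obtain ⟨m, hm'⟩ : ∃ m, m = I / (b - a) := ⟨_, rfl⟩
  have h0 : 0 ≤ ∫ u in a..b, (f u - m) ^ 2 :=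
    intervalIntegral.integral_nonneg hab fun u _ => sq_nonneg _
  have h1 : ∫ u in a..b, (f u - m) ^ 2 = (∫ u in a..b, f u ^ 2) - 2 * m * I + m ^ 2 * (b - a) := by
    have : ∀ u, (f u - m) ^ 2 = f u ^ 2 - 2 * m * f u + m ^ 2 := fun u => by ring
    simp only [this]
    rw [intervalIntegral.integral_add (i2.sub (i1.const_mul _)) (by simp),
      intervalIntegral.integral_sub i2 (i1.const_mul _), intervalIntegral.integral_const_mul,
      intervalIntegral.integral_const, smul_eq_mul, ← hI]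
    ring
  rw [h1] at h0
  rw [← hI]
  have h2 : m * (b - a) = I := by rw [hm']; field_simp
  have h3 : (∫ u in a..b, f u ^ 2) * (b - a) ≥ I ^ 2 := by
    have : 0 ≤ ((∫ u in a..b, f u ^ 2) - 2 * m * I + m ^ 2 * (b - a)) * (b - a) := by positivity
    have e : ((∫ u in a..b, f u ^ 2) - 2 * m * I + m ^ 2 * (b - a)) * (b - a) =
        (∫ u in a..b, f u ^ 2) * (b - a) - 2 * (m * (b - a)) * I + (m * (b - a)) ^ 2 := by ring
    rw [e, h2] at this
    nlinarith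
  linarith

/-- The integrated Bessel inequality. -/
theorem bessel_int {PP : Finset ℕ} (hL : 1 ≤ Ls PP) (J : ℕ) {ta tb : ℝ} (hab : ta ≤ tb)
    {e c0 Cf Cg Dl U U0 : ℝ} (hc0 : 0 ≤ c0) (f : ℕ → ℝ → ℝ)
    (G : ℕ → ℕ → ℝ → ℝ) (hfm : ∀ P, Measurable (f P)) (hfb : ∀ P u, |f P u| ≤ Cf)
    (hGm : ∀ P Q, Measurable (G P Q)) (hGb : ∀ P Q u, |G P Q u| ≤ Cg)
    (hB : ∀ (L : List ℕ) (u : ℝ), (2 * ∑ j ∈ range (J + 1), f (L.take j).prod u) ^ 2 ≤
      c0 * (2 * ∑ i ∈ range (J + 1), ∑ j ∈ range (J + 1), G (L.take i).prod (L.take j).prod u +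
        e * ((J : ℝ) + 1) ^ 2))
    (hlow : ∀ j ≤ J, Dl ≤ EP PP j (fun P => ∫ u in ta..tb, f P u))
    (hup : ∀ i j, i < j → j ≤ J →
      EP PP i (fun P => EP PP (j - i) (fun P' => ∫ u in ta..tb, G P (P * P') u)) ≤ U)
    (hsym : ∀ P Q u, G P Q u = G Q P u)
    (hdiag : ∀ i ≤ J, EP PP i (fun P => ∫ u in ta..tb, G P P u) ≤ U0) (hDl : 0 ≤ Dl) :
    4 * ((J : ℝ) + 1) ^ 2 * Dl ^ 2 ≤ (tb - ta) *
      (c0 * (2 * (((J : ℝ) + 1) * U0 + J * (J + 1) * U) + e * ((J : ℝ) + 1) ^ 2 * (tb - ta))) := by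
  have hba : 0 ≤ tb - ta := by linarith
  obtain ⟨F, hF⟩ : ∃ F : List ℕ → ℝ → ℝ, F = fun L u =>
    2 * ∑ j ∈ range (J + 1), f (L.take j).prod u := ⟨_, rfl⟩
  have hFm : ∀ L, Measurable (F L) := by
    intro L
    rw [hF]
    exact measurable_const.mul (Finset.measurable_sum _ fun j _ => hfm _)
  have hFb : ∀ L u, |F L u| ≤ 2 * ∑ _j ∈ range (J + 1), Cf := by
    intro L u
    rw [hF, abs_mul, abs_of_pos (by norm_num : (0 : ℝ) < 2)]
    have := (abs_sum_le_sum_abs (fun j => f (L.take j).prod u) (range (J + 1))).trans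
      (sum_le_sum fun j _ => hfb _ u)
    linarith
  have hfi : ∀ P, IntervalIntegrable (f P) volume ta tb := fun P => ii_bdd (hfm P) (hfb P) _ _
  have hGi : ∀ P Q, IntervalIntegrable (G P Q) volume ta tb := fun P Q =>
    ii_bdd (hGm P Q) (hGb P Q) _ _
  have hFint : ∀ L, ∫ u in ta..tb, F L u =
      2 * ∑ j ∈ range (J + 1), ∫ u in ta..tb, f (L.take j).prod u := by
    intro L
    rw [hF]
    simp only
    rw [intervalIntegral.integral_const_mul, intervalIntegral.integral_finsetSum]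
    exact fun j _ => hfi _
  -- the lower bound
  have h1 : 2 * (((J : ℝ) + 1) * Dl) ≤ EL PP J (fun L => ∫ u in ta..tb, F L u) := by
    simp only [hFint]
    rw [EPx.EL_mul, EL_sum]
    have : ∀ j ∈ range (J + 1), Dl ≤ EL PP J (fun L => ∫ u in ta..tb, f (L.take j).prod u) := by
      intro j hj
      rw [mem_range] at hj
      rw [EPx.EL_take hL J j (fun P => ∫ u in ta..tb, f P u) (by omega)]
      exact hlow j (by omega)
    have h2 := sum_le_sum this
    rw [sum_const, card_range, nsmul_eq_mul] at h2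
    push_cast at h2
    linarith
  -- squares
  have h2 : (EL PP J (fun L => ∫ u in ta..tb, F L u)) ^ 2 ≤
      EL PP J (fun L => (tb - ta) * ∫ u in ta..tb, F L u ^ 2) := by
    refine (EL_sq hL J _).trans (EPx.EL_mono hL J _ _ fun L _ _ => ?_)
    exact int_sq (hFm L) (hFb L) hab
  have h3 : ∀ L : List ℕ, ∫ u in ta..tb, F L u ^ 2 ≤ c0 * (2 * ∑ i ∈ range (J + 1),
      ∑ j ∈ range (J + 1), (∫ u in ta..tb, G (L.take i).prod (L.take j).prod u)) +
        c0 * (e * ((J : ℝ) + 1) ^ 2) * (tb - ta) := by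
    intro L
    have i2 : IntervalIntegrable (fun u => F L u ^ 2) volume ta tb := by
      refine ii_bdd (C := (2 * ∑ _j ∈ range (J + 1), Cf) ^ 2) ((hFm L).pow_const 2) (fun u => ?_) _ _
      rw [abs_pow]
      exact pow_le_pow_left₀ (abs_nonneg _) (hFb L u) 2
    have hsi : ∀ i ∈ range (J + 1), IntervalIntegrable
        (fun u => ∑ j ∈ range (J + 1), G (L.take i).prod (L.take j).prod u) volume ta tb :=
      fun i _ => ii_sum _ _ fun j _ => hGi _ _
    have hss : IntervalIntegrable (fun u => ∑ i ∈ range (J + 1), ∑ j ∈ range (J + 1),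
        G (L.take i).prod (L.take j).prod u) volume ta tb := ii_sum _ _ hsi
    have i3 : IntervalIntegrable (fun u => c0 * (2 * ∑ i ∈ range (J + 1), ∑ j ∈ range (J + 1),
        G (L.take i).prod (L.take j).prod u + e * ((J : ℝ) + 1) ^ 2)) volume ta tb :=
      ((hss.const_mul 2).add (by simp)).const_mul c0
    have h4 := intervalIntegral.integral_mono_on hab i2 i3 (fun u _ => by
      have := hB L u
      rw [hF]
      exact this)
    refine h4.trans (le_of_eq ?_)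
    rw [intervalIntegral.integral_const_mul, intervalIntegral.integral_add (hss.const_mul 2)
      (by simp), intervalIntegral.integral_const_mul, intervalIntegral.integral_finsetSum hsi,
      intervalIntegral.integral_const, smul_eq_mul]
    have : ∀ i ∈ range (J + 1), ∫ u in ta..tb, ∑ j ∈ range (J + 1),
        G (L.take i).prod (L.take j).prod u = ∑ j ∈ range (J + 1),
          ∫ u in ta..tb, G (L.take i).prod (L.take j).prod u := fun i _ =>
      intervalIntegral.integral_finsetSum fun j _ => hGi _ _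
    rw [sum_congr rfl this]
    ring
  have h5 : EL PP J (fun L => (tb - ta) * ∫ u in ta..tb, F L u ^ 2) ≤
      (tb - ta) * (c0 * (2 * ∑ i ∈ range (J + 1), ∑ j ∈ range (J + 1),
        EL PP J (fun L => ∫ u in ta..tb, G (L.take i).prod (L.take j).prod u)) +
        c0 * (e * ((J : ℝ) + 1) ^ 2) * (tb - ta)) := by
    rw [EPx.EL_mul]
    refine mul_le_mul_of_nonneg_left ?_ hba
    refine (EPx.EL_mono hL J _ _ fun L _ _ => h3 L).trans (le_of_eq ?_)
    rw [EPx.EL_add, EPx.EL_const hL, EPx.EL_mul, EPx.EL_mul, EL_sum]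
    simp only [EL_sum]
  -- the pairs
  have h6 : ∀ i ∈ range (J + 1), ∀ j ∈ range (J + 1),
      EL PP J (fun L => ∫ u in ta..tb, G (L.take i).prod (L.take j).prod u) ≤
        if i = j then U0 else U := by
    intro i hi j hj
    rw [mem_range] at hi hj
    rcases lt_trichotomy i j with h | h | h
    · rw [if_neg h.ne, EPx.EL_take2 hL J i j (fun P Q => ∫ u in ta..tb, G P Q u) h.le (by omega)]
      exact hup i j h (by omega)
    · subst h
      rw [if_pos rfl, EPx.EL_take hL J i (fun P => ∫ u in ta..tb, G P P u) (by omega)]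
      exact hdiag i (by omega)
    · rw [if_neg h.ne']
      have : (fun L : List ℕ => ∫ u in ta..tb, G (L.take i).prod (L.take j).prod u) =
          fun L : List ℕ => ∫ u in ta..tb, G (L.take j).prod (L.take i).prod u := by
        funext L
        simp only [hsym (L.take i).prod (L.take j).prod]
      rw [this, EPx.EL_take2 hL J j i (fun P Q => ∫ u in ta..tb, G P Q u) h.le (by omega)]
      exact hup j i h (by omega)
  have h7 : ∑ i ∈ range (J + 1), ∑ j ∈ range (J + 1),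
      EL PP J (fun L => ∫ u in ta..tb, G (L.take i).prod (L.take j).prod u) ≤
      ((J : ℝ) + 1) * U0 + J * (J + 1) * U := by
    refine (sum_le_sum fun i hi => sum_le_sum fun j hj => h6 i hi j hj).trans (le_of_eq ?_)
    have : ∀ i ∈ range (J + 1), ∑ j ∈ range (J + 1), (if i = j then U0 else U) =
        U0 + J * U := by
      intro i hi
      have e1 : ∀ j ∈ range (J + 1), (if i = j then U0 else U) = U + if i = j then U0 - U else 0 := by
        intro j _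
        split_ifs <;> ring
      rw [sum_congr rfl e1, sum_add_distrib, sum_const, card_range, nsmul_eq_mul,
        Finset.sum_ite_eq, if_pos hi]
      push_cast
      ring
    rw [sum_congr rfl this, sum_const, card_range, nsmul_eq_mul]
    push_cast
    ring
  have h8 : (2 * (((J : ℝ) + 1) * Dl)) ^ 2 ≤ (EL PP J (fun L => ∫ u in ta..tb, F L u)) ^ 2 :=
    pow_le_pow_left₀ (by positivity) h1 2
  calc 4 * ((J : ℝ) + 1) ^ 2 * Dl ^ 2 = (2 * (((J : ℝ) + 1) * Dl)) ^ 2 := by ring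
    _ ≤ _ := h8.trans (h2.trans h5)
    _ ≤ (tb - ta) * (c0 * (2 * (((J : ℝ) + 1) * U0 + J * (J + 1) * U)) +
        c0 * (e * ((J : ℝ) + 1) ^ 2) * (tb - ta)) := by gcongr
    _ = _ := by ring

/-- Numbers. -/
theorem num_i {e D Dl V Λ T : ℝ} {J : ℕ} (he : 0 < e) (he1 : e ≤ 1 / 4) (hΛ : 0 < Λ) (hV : 0 ≤ V)
    (hV2 : V ≤ 2 * Λ) (hT0 : 0 ≤ T) (hT : T ≤ Λ) (hD : D = Dl + 4 * e * Λ) (hDl : 0 ≤ Dl)
    (h : 4 * ((J : ℝ) + 1) ^ 2 * Dl ^ 2 ≤ T * ((6 / Real.pi ^ 2 + e) *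
      (2 * (((J : ℝ) + 1) * ((1 + e) * Λ) + J * (J + 1) * (V + 2 * e * Λ)) +
        e * ((J : ℝ) + 1) ^ 2 * T))) :
    D ≤ (√(3 * (V / Λ)) / Real.pi + √(3 * e + 1 / ((J : ℝ) + 1)) + 4 * e) * Λ := by
  have hJ : (0 : ℝ) < (J : ℝ) + 1 := by positivity
  have hpi := Real.pi_gt_three
  have hpi2 : 9 ≤ Real.pi ^ 2 := by nlinarith
  obtain ⟨c0, hc0⟩ : ∃ c0 : ℝ, c0 = 6 / Real.pi ^ 2 + e := ⟨_, rfl⟩
  have hc1 : 6 / Real.pi ^ 2 ≤ 2 / 3 := by
    rw [div_le_iff₀ (by positivity)]; linarith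
  have hc00 : 0 < c0 := by rw [hc0]; positivity
  have hc01 : c0 ≤ 1 := by rw [hc0]; linarith
  rw [← hc0] at h
  obtain ⟨v, hv⟩ : ∃ v, v = V / Λ := ⟨_, rfl⟩
  have hv0 : 0 ≤ v := by rw [hv]; positivity
  have hv2 : v ≤ 2 := by rw [hv, div_le_iff₀ hΛ]; exact hV2
  have hVv : V = v * Λ := by rw [hv]; field_simp
  obtain ⟨x, hx⟩ : ∃ x, x = Dl / Λ := ⟨_, rfl⟩
  have hx0 : 0 ≤ x := by rw [hx]; positivity
  have hDx : Dl = x * Λ := by rw [hx]; field_simp
  have h1 : 4 * ((J : ℝ) + 1) ^ 2 * Dl ^ 2 ≤ Λ * (c0 *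
      (2 * (((J : ℝ) + 1) * ((1 + e) * Λ) + J * (J + 1) * (V + 2 * e * Λ)) +
        e * ((J : ℝ) + 1) ^ 2 * Λ)) := by
    refine h.trans ?_
    gcongr
  have h2 : 4 * ((J : ℝ) + 1) ^ 2 * x ^ 2 ≤ c0 *
      (2 * (((J : ℝ) + 1) * (1 + e) + J * (J + 1) * (v + 2 * e)) + e * ((J : ℝ) + 1) ^ 2) := by
    have e1 : 4 * ((J : ℝ) + 1) ^ 2 * Dl ^ 2 = (4 * ((J : ℝ) + 1) ^ 2 * x ^ 2) * (Λ * Λ) := by
      rw [hDx]; ring
    have e2 : Λ * (c0 * (2 * (((J : ℝ) + 1) * ((1 + e) * Λ) + J * (J + 1) * (V + 2 * e * Λ)) +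
        e * ((J : ℝ) + 1) ^ 2 * Λ)) = (c0 * (2 * (((J : ℝ) + 1) * (1 + e) +
          J * (J + 1) * (v + 2 * e)) + e * ((J : ℝ) + 1) ^ 2)) * (Λ * Λ) := by
      rw [hVv]; ring
    rw [e1, e2] at h1
    exact le_of_mul_le_mul_right h1 (by positivity)
  have h3 : 4 * x ^ 2 ≤ c0 * (2 * (1 + e) / ((J : ℝ) + 1) + 2 * (v + 2 * e) + e) := by
    have e1 : J * ((J : ℝ) + 1) * (v + 2 * e) ≤ ((J : ℝ) + 1) ^ 2 * (v + 2 * e) := by
      rw [pow_two]; gcongr; linarith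
    have e2 : 4 * ((J : ℝ) + 1) ^ 2 * x ^ 2 ≤ c0 * (2 * (((J : ℝ) + 1) * (1 + e) +
        ((J : ℝ) + 1) ^ 2 * (v + 2 * e)) + e * ((J : ℝ) + 1) ^ 2) := by
      refine h2.trans ?_
      gcongr
    have e3 : c0 * (2 * (((J : ℝ) + 1) * (1 + e) +
        ((J : ℝ) + 1) ^ 2 * (v + 2 * e)) + e * ((J : ℝ) + 1) ^ 2) =
        (c0 * (2 * (1 + e) / ((J : ℝ) + 1) + 2 * (v + 2 * e) + e)) * ((J : ℝ) + 1) ^ 2 := by
      field_simp
    rw [e3] at e2
    have e4 : (4 * x ^ 2) * ((J : ℝ) + 1) ^ 2 ≤ _ := le_trans (le_of_eq (by ring)) e2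
    exact le_of_mul_le_mul_right e4 (by positivity)
  have h4 : x ^ 2 ≤ 3 / Real.pi ^ 2 * v + (3 * e + 1 / ((J : ℝ) + 1)) := by
    have e1 : c0 * (2 * (1 + e) / ((J : ℝ) + 1)) ≤ 1 * (4 * (1 / ((J : ℝ) + 1))) := by
      refine mul_le_mul hc01 ?_ (by positivity) (by norm_num)
      rw [mul_one_div]
      gcongr
      linarith
    have e2 : c0 * (5 * e) ≤ 1 * (5 * e) := by gcongr
    have e3 : c0 * (2 * v) = 12 / Real.pi ^ 2 * v + 2 * e * v := by rw [hc0]; ring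
    have e4 : 2 * e * v ≤ 2 * e * 2 := by gcongr
    have e5 : c0 * (2 * (1 + e) / ((J : ℝ) + 1) + 2 * (v + 2 * e) + e) =
        c0 * (2 * (1 + e) / ((J : ℝ) + 1)) + c0 * (2 * v) + c0 * (5 * e) := by ring
    have e6 : 12 / Real.pi ^ 2 * v = 4 * (3 / Real.pi ^ 2 * v) := by ring
    rw [e5] at h3
    linarith
  have h5 : x ≤ √(3 * v) / Real.pi + √(3 * e + 1 / ((J : ℝ) + 1)) := by
    have e1 : √(3 * v) / Real.pi = √(3 / Real.pi ^ 2 * v) := by
      rw [show 3 / Real.pi ^ 2 * v = (3 * v) / Real.pi ^ 2 by ring,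
        Real.sqrt_div (by positivity), Real.sqrt_sq (by positivity)]
    rw [e1]
    exact le_sqrt_add (by positivity) (by positivity) h4
  rw [hD, hDx, ← hv]
  have := mul_le_mul_of_nonneg_right h5 hΛ.le
  linarith

end IFx

end

end Pool.Agent.SV
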