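import Pool.Agent.Lib.SV.Defs3
import Pool.Agent.Lib.MRL.ML
import Pool.Agent.Lib.MP_663568_nul.TKD

/-!
Theorem V, row RB: Turán–Kubilius for a cell (helper20).
-/

set_option autoImplicit false
open Finset MeasureTheory

namespace Pool.Agent.SV

open Pool.Agent.Lib.MP_663568_nt Pool.Agent.Lib.MP_663568_nt.Katai
  Pool.Agent.Lib.MP_663568_nt.Nul Pool.Agent.MRL Pool.Agent.MRF

noncomputable section

namespace RB

theorem vv_nonneg (l y : ℕ) (b : ℝ) : 0 ≤ vv l y b := by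
  unfold vv; positivity

theorem vv_le (l y : ℕ) (b : ℝ) : vv l y b ≤ 1 := by
  unfold vv
  apply div_le_one_of_le₀ _ (Nat.cast_nonneg _)
  refine (norm_sum_le _ _).trans ?_
  calc ∑ m ∈ Icc 1 l, ‖muC (y + m) * ee (b * m)‖ ≤ ∑ m ∈ Icc 1 l, (1 : ℝ) := by
        refine sum_le_sum fun m _ => ?_
        rw [norm_mul, norm_ee, mul_one]
        exact norm_muC _
    _ = l := by simp

/-- A step function of `⌊t / p⌋`: the integral dominates the sum. -/
theorem sum_le_integral (p : ℕ) (hp : 0 < p) (n X : ℕ) (f : ℕ → ℝ) (hf : ∀ j, 0 ≤ f j)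
    (hf1 : ∀ j, f j ≤ 1) :
    ∑ j ∈ Ico (n / p) ((n + X) / p), f j ≤
      1 / p * (∫ t in (n : ℝ)..(n + X), f ⌊t / p⌋₊) + 1 := by
  have hp0 : (0 : ℝ) < p := by exact_mod_cast hp
  set g : ℝ → ℝ := fun t => f ⌊t / p⌋₊ with hg
  have hgm : Measurable g :=
    (measurable_from_nat (f := f)).comp (Nat.measurable_floor.comp (measurable_id.div_const _))
  have hgi : ∀ a b : ℝ, IntervalIntegrable g volume a b := by
    intro a b
    rw [intervalIntegrable_iff]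
    refine MeasureTheory.Measure.integrableOn_of_bounded (M := 1) ?_ hgm.aestronglyMeasurable ?_
    · simp [Set.uIoc]
    · refine Filter.Eventually.of_forall fun t => ?_
      rw [Real.norm_eq_abs, abs_of_nonneg (hf _)]
      exact hf1 _
  have hint0 : 0 ≤ ∫ t in (n : ℝ)..(n + X), g t :=
    intervalIntegral.integral_nonneg (by simp) fun t _ => hf _
  set J1 := n / p with hJ1
  set J2 := (n + X) / p with hJ2
  have hJ12 : J1 ≤ J2 := Nat.div_le_div_right (by omega)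
  by_cases h : J1 + 1 ≤ J2
  · have h1 : ∑ j ∈ Ico J1 J2, f j = f J1 + ∑ j ∈ Ico (J1 + 1) J2, f j :=
      Finset.sum_eq_sum_Ico_succ_bot (by omega) f
    have h2 : ∀ j : ℕ, ∫ t in ((p : ℝ) * j)..((p : ℝ) * (j + 1 : ℕ)), g t = p * f j := by
      intro j
      have hle : (p : ℝ) * j ≤ p * (j + 1 : ℕ) := by push_cast; nlinarith
      rw [intervalIntegral.integral_of_le hle, MeasureTheory.integral_Ioc_eq_integral_Ioo]
      have h3 : ∀ t ∈ Set.Ioo ((p : ℝ) * j) ((p : ℝ) * (j + 1 : ℕ)), g t = f j := by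
        intro t ht
        rw [hg]
        simp only
        congr 1
        rw [Nat.floor_eq_iff (by
          apply div_nonneg _ hp0.le
          have : 0 ≤ (p : ℝ) * j := by positivity
          linarith [ht.1])]
        constructor
        · rw [le_div_iff₀ hp0]; linarith [ht.1]
        · rw [div_lt_iff₀ hp0]
          have := ht.2
          push_cast at this
          linarith
      rw [MeasureTheory.setIntegral_congr_fun measurableSet_Ioo h3,
        MeasureTheory.setIntegral_const]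
      simp only [MeasureTheory.measureReal_def, Real.volume_Ioo]
      rw [ENNReal.toReal_ofReal (by linarith)]
      push_cast
      rw [smul_eq_mul]
      ring
    have h3 := intervalIntegral.sum_integral_adjacent_intervals_Ico (f := g) (μ := volume)
      (a := fun j : ℕ => (p : ℝ) * j) h (fun k _ => hgi _ _)
    rw [Finset.sum_congr rfl fun j _ => h2 j, ← Finset.mul_sum] at h3
    have h4 : ∫ t in ((p : ℝ) * ((J1 + 1 : ℕ) : ℝ))..((p : ℝ) * (J2 : ℝ)), g t ≤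
        ∫ t in (n : ℝ)..(n + X), g t := by
      refine intervalIntegral.integral_mono_interval ?_ ?_ ?_ ?_ (hgi _ _)
      · have : n < p * (J1 + 1) := by
          have := Nat.lt_mul_div_succ n hp
          rwa [← hJ1] at this
        exact_mod_cast this.le
      · have : p * (J1 + 1) ≤ p * J2 := Nat.mul_le_mul_left _ h
        exact_mod_cast this
      · have : p * J2 ≤ n + X := Nat.mul_div_le _ _
        exact_mod_cast this
      · exact Filter.Eventually.of_forall fun t => hf _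
    rw [h1]
    have h5 : ∑ j ∈ Ico (J1 + 1) J2, f j ≤ 1 / p * ∫ t in (n : ℝ)..(n + X), g t := by
      rw [one_div, ← div_eq_inv_mul, le_div_iff₀ hp0, mul_comm, h3]
      exact h4
    linarith [hf1 J1]
  · have : Ico J1 J2 = ∅ := Finset.Ico_eq_empty (by omega)
    rw [this, Finset.sum_empty]
    positivity

/-- Mertens for the primes between two powers. -/
theorem mertens (K κ₂ : ℝ) (hκ : 0 < κ₂) (hκ1 : κ₂ ≤ 1 / 4) (hK : 1 ≤ K) :
    ∃ κ₁ : ℝ, 0 < κ₁ ∧ κ₁ ≤ κ₂ ∧ ∃ X₀ : ℕ, ∀ X : ℕ, X₀ ≤ X → K ≤ Ls (PPs X κ₁ κ₂) := by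
  set κ₁ : ℝ := κ₂ * Real.exp (-(K + 23)) with hκ₁
  have hκ₁0 : 0 < κ₁ := by positivity
  have hle : κ₁ ≤ κ₂ := by
    have : Real.exp (-(K + 23)) ≤ 1 := Real.exp_le_one_iff.2 (by linarith)
    nlinarith
  refine ⟨κ₁, hκ₁0, hle, ?_⟩
  -- large X
  have hev : ∀ᶠ X : ℕ in Filter.atTop, 4 ≤ (X : ℝ) ^ κ₁ ∧ Real.log 2 ≤ κ₂ / 2 * Real.log X := by
    have h1 := (tendsto_rpow_atTop hκ₁0).comp (tendsto_natCast_atTop_atTop (R := ℝ))
    have h2 := (Real.tendsto_log_atTop.comp (tendsto_natCast_atTop_atTop (R := ℝ))).const_mul_atTop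
      (show 0 < κ₂ / 2 by positivity)
    exact (h1.eventually_ge_atTop 4).and (h2.eventually_ge_atTop (Real.log 2))
  obtain ⟨X₀, hX₀⟩ := Filter.eventually_atTop.1 (hev.and (Filter.eventually_ge_atTop 2))
  refine ⟨X₀, fun X hX => ?_⟩
  obtain ⟨⟨hX4, hXl⟩, hX2⟩ := hX₀ X hX
  have hX0 : (0 : ℝ) < X := by exact_mod_cast (by omega : 0 < X)
  have hX1 : (1 : ℝ) < X := by exact_mod_cast (by omega : 1 < X)
  have hlX : 0 < Real.log X := Real.log_pos hX1
  set a : ℕ := ⌊(X : ℝ) ^ κ₁⌋₊ with ha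
  set b : ℕ := ⌊(X : ℝ) ^ κ₂⌋₊ with hb
  have hab : a ≤ b := Nat.floor_le_floor (Real.rpow_le_rpow_of_exponent_le hX1.le hle)
  have ha4 : 4 ≤ a := Nat.le_floor (by exact_mod_cast hX4)
  have hsub : (Ioc a b).filter Nat.Prime ⊆ PPs X κ₁ κ₂ := by
    intro p hp
    rw [mem_filter, mem_Ioc] at hp
    rw [PPs, mem_filter, mem_Icc]
    refine ⟨⟨hp.2.one_lt.le, hp.1.2⟩, hp.2, ?_⟩
    exact (Nat.lt_of_floor_lt hp.1.1).le
  have h1 : Mer.P b - Mer.P a ≤ Ls (PPs X κ₁ κ₂) := by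
    rw [Mer.P_sub hab, Ls]
    exact sum_le_sum_of_subset_of_nonneg hsub fun p _ _ => by positivity
  have h2 := Mer.P_lower (n := b) (by omega)
  have h3 := Mer.P_upper (n := a) (by omega)
  have h4 : κ₂ / 2 * Real.log X ≤ Real.log b := by
    have hb1 : (X : ℝ) ^ κ₂ < b + 1 := Nat.lt_floor_add_one _
    have hb2 : (1 : ℝ) ≤ b := by exact_mod_cast (by omega : 1 ≤ b)
    have hb3 : (X : ℝ) ^ κ₂ ≤ 2 * b := by linarith
    have := Real.log_le_log (by positivity) hb3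
    rw [Real.log_rpow hX0, Real.log_mul (by norm_num) (by linarith)] at this
    linarith
  have h5 : Real.log a ≤ κ₁ * Real.log X := by
    have ha1 : (a : ℝ) ≤ (X : ℝ) ^ κ₁ := Nat.floor_le (by positivity)
    have := Real.log_le_log (by exact_mod_cast (by omega : 0 < a)) ha1
    rwa [Real.log_rpow hX0] at this
  have ha1 : 0 < Real.log a := Real.log_pos (by exact_mod_cast (by omega : 1 < a))
  have h6 : Real.log (κ₂ / 2 * Real.log X) ≤ Real.log (Real.log b) :=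
    Real.log_le_log (by positivity) h4
  have h7 : Real.log (Real.log a) ≤ Real.log (κ₁ * Real.log X) := Real.log_le_log ha1 h5
  rw [Real.log_mul (by positivity) hlX.ne', Real.log_div (by positivity) (by norm_num)] at h6
  rw [Real.log_mul (by positivity) hlX.ne', hκ₁, Real.log_mul (by positivity) (by positivity),
    Real.log_exp] at h7
  have h8 : Real.log 2 ≤ 1 := by
    have := Real.log_two_lt_d9
    linarith
  linarith

/-- The second moment, in the mean. -/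
theorem tk (P : Finset ℕ) (hP : ∀ p ∈ P, p.Prime) (n X : ℕ) (Z : ℝ) (hZ : ∀ p ∈ P, (p : ℝ) ≤ Z)
    (hH : (1 + 2 * (P.card : ℝ)) * Z ≤ X) :
    ∑ m ∈ Ioc n (n + X), |Katai.om P m - WW P| ≤ X * Real.sqrt (2 * WW P) := by
  have h1 := tk_coeff P hP n X Z hZ hH (fun _ => 1)
  have h2 : ∀ m, ‖∑ p ∈ P, (1 : ℂ) * (((if p ∣ m then (1 : ℝ) else 0) - 1 / p : ℝ) : ℂ)‖ =
      |Katai.om P m - WW P| := by
    intro m
    rw [← Real.norm_eq_abs, ← Complex.norm_real]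
    congr 1
    rw [Katai.om, WW, ← sum_sub_distrib]
    push_cast
    refine sum_congr rfl fun p _ => ?_
    rw [one_mul]
  simp only [h2] at h1
  have h3 : ∑ p ∈ P, ‖(1 : ℂ)‖ ^ 2 / (p : ℝ) = WW P := by
    rw [WW]
    refine sum_congr rfl fun p _ => ?_
    simp
  rw [h3] at h1
  have h4 : (∑ m ∈ Ioc n (n + X), |Katai.om P m - WW P|) ^ 2 ≤
      (Ioc n (n + X)).card * ∑ m ∈ Ioc n (n + X), |Katai.om P m - WW P| ^ 2 := sq_sum_le_card_mul_sum_sq
  rw [Nat.card_Ioc, Nat.add_sub_cancel_left] at h4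
  have h5 : (∑ m ∈ Ioc n (n + X), |Katai.om P m - WW P|) ^ 2 ≤ (X * Real.sqrt (2 * WW P)) ^ 2 := by
    rw [mul_pow, Real.sq_sqrt (by have := WW_nonneg P; positivity)]
    calc _ ≤ (X : ℝ) * ∑ m ∈ Ioc n (n + X), |Katai.om P m - WW P| ^ 2 := h4
      _ ≤ (X : ℝ) * (2 * X * WW P) := mul_le_mul_of_nonneg_left h1 (Nat.cast_nonneg _)
      _ = _ := by ring
  exact le_of_sq_le_sq h5 (by positivity)

/-- One prime. -/
theorem one_prime (p : ℕ) (hp : p.Prime) (n X l : ℕ) (hl : 0 < l) (a : ℝ) :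
    ‖∑ m ∈ Ioc (n / p) ((n + X) / p), ee (a * (p * m : ℕ)) * muC m‖ ≤
      1 / p * (∫ t in (n : ℝ)..(n + X), vv l ⌊t / p⌋₊ (p * a)) + (2 * l + 1) := by
  have h1 := smooth (fun m => ee (a * (p * m : ℕ)) * muC m) (fun m => by
    rw [norm_mul, norm_ee, one_mul]; exact norm_muC m) (n / p) ((n + X) / p) l
    (Nat.div_le_div_right (by omega)) hl
  refine h1.trans ?_
  have h2 : 1 / (l : ℝ) * ∑ j ∈ Ico (n / p) ((n + X) / p),
      ‖∑ m ∈ Icc 1 l, ee (a * (p * (j + m) : ℕ)) * muC (j + m)‖ =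
      ∑ j ∈ Ico (n / p) ((n + X) / p), vv l j (p * a) := by
    rw [mul_sum]
    refine sum_congr rfl fun j _ => ?_
    have : ∑ m ∈ Icc 1 l, ee (a * (p * (j + m) : ℕ)) * muC (j + m) =
        ee (p * a * j) * ∑ m ∈ Icc 1 l, muC (j + m) * ee (p * a * m) := by
      rw [mul_sum]
      refine sum_congr rfl fun m _ => ?_
      have : a * (p * (j + m) : ℕ) = p * a * j + p * a * m := by push_cast; ring
      rw [this, ee_add]
      ring
    rw [this, norm_mul, norm_ee, one_mul, vv]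
    ring
  rw [h2]
  have h3 := sum_le_integral p hp.pos n X (fun j => vv l j (p * a)) (fun j => vv_nonneg _ _ _)
    (fun j => vv_le _ _ _)
  linarith

/-- Multiples of `p` in the short window. -/
theorem mult_bound (p : ℕ) (hp : p.Prime) (n X : ℕ) :
    ∑ m ∈ Ioc (n / p) ((n + X) / p), (if p ∣ m then (2 : ℝ) else 0) ≤
      2 * ((X : ℝ) / (p * p) + 1) := by
  have e : ∀ m, (if p ∣ m then (2 : ℝ) else 0) = 2 * (if p ∣ m then (1 : ℝ) else 0) := by
    intro m; split_ifs <;> norm_num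
  simp only [e, ← mul_sum]
  apply mul_le_mul_of_nonneg_left _ (by norm_num)
  have e2 := dilate (fun m => if p ∣ m / p then (1 : ℝ) else 0) p hp.pos n X
  have e3 : ∀ m ∈ Ioc (n / p) ((n + X) / p), (if p ∣ p * m / p then (1 : ℝ) else 0)
      = if p ∣ m then (1 : ℝ) else 0 := by
    intro m _
    rw [Nat.mul_div_cancel_left m hp.pos]
  rw [sum_congr rfl e3] at e2
  rw [← e2]
  have e4 : ∀ m ∈ Ioc n (n + X), (if p ∣ m then (if p ∣ m / p then (1 : ℝ) else 0) else 0)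
      = if p * p ∣ m then (1 : ℝ) else 0 := by
    intro m _
    by_cases h : p ∣ m
    · rw [if_pos h]
      obtain ⟨k, rfl⟩ := h
      rw [Nat.mul_div_cancel_left k hp.pos]
      have : p * p ∣ p * k ↔ p ∣ k := Nat.mul_dvd_mul_iff_left hp.pos
      simp only [this]
    · rw [if_neg h, if_neg]
      intro h2; exact h ((dvd_mul_right p p).trans h2)
  rw [sum_congr rfl e4]
  have := (abs_le.mp (card_mult (p * p) (Nat.mul_pos hp.pos hp.pos) n X)).2
  push_cast at this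
  linarith

end RB

theorem rb : RB_stmt := by
  classical
  intro ε κ₂ hε hκ₂ hκ4
  obtain ⟨κ₁, hκ₁, hle, X₁, hX₁⟩ := RB.mertens (max 1 (32 / ε ^ 2)) κ₂ hκ₂ hκ4 (le_max_left _ _)
  set η : ℝ := min 1 (ε / 8) with hη
  have hη0 : 0 < η := by positivity
  have hη1 : η ≤ 1 := min_le_left _ _
  have hηε : η ≤ ε / 8 := min_le_right _ _
  refine ⟨κ₁, hκ₁, hle, η, hη0, hη1, ?_⟩
  have hev : ∀ᶠ X : ℕ in Filter.atTop, 2 ≤ (X : ℝ) ^ κ₁ ∧ 8 / ε ≤ (X : ℝ) ^ κ₁ ∧
      1 / η ≤ (X : ℝ) ^ (3 / 4 : ℝ) ∧ 12 / ε ≤ (X : ℝ) ^ (3 / 4 : ℝ) ∧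
      3 ≤ (X : ℝ) ^ (1 / 2 : ℝ) := by
    have h1 := (tendsto_rpow_atTop hκ₁).comp (tendsto_natCast_atTop_atTop (R := ℝ))
    have h2 := (tendsto_rpow_atTop (show (0 : ℝ) < 3 / 4 by norm_num)).comp
      (tendsto_natCast_atTop_atTop (R := ℝ))
    have h3 := (tendsto_rpow_atTop (show (0 : ℝ) < 1 / 2 by norm_num)).comp
      (tendsto_natCast_atTop_atTop (R := ℝ))
    exact (h1.eventually_ge_atTop 2).and ((h1.eventually_ge_atTop _).and
      ((h2.eventually_ge_atTop _).and ((h2.eventually_ge_atTop _).and (h3.eventually_ge_atTop 3))))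
  obtain ⟨X₀, hX₀⟩ := Filter.eventually_atTop.1 ((hev.and (Filter.eventually_ge_atTop 2)).and
    (Filter.eventually_ge_atTop X₁))
  refine ⟨X₀, fun X hX => ?_⟩
  obtain ⟨⟨⟨hA, hB, hC, hD, hE⟩, hX2⟩, hXX₁⟩ := hX₀ X hX
  have hL := hX₁ X hXX₁
  set P := PPs X κ₁ κ₂ with hP
  set L := Ls P with hLd
  have hL1 : 1 ≤ L := (le_max_left _ _).trans hL
  have hL2 : 32 / ε ^ 2 ≤ L := (le_max_right _ _).trans hL
  refine ⟨hL1, fun n a => ?_⟩
  have hX0 : (0 : ℝ) < X := by exact_mod_cast (by omega : 0 < X)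
  have hX1 : (1 : ℝ) ≤ X := by exact_mod_cast (by omega : 1 ≤ X)
  have hprime : ∀ p ∈ P, p.Prime := fun p hp => by
    rw [hP, PPs, mem_filter] at hp; exact hp.2.1
  have hge : ∀ p ∈ P, (X : ℝ) ^ κ₁ ≤ p := fun p hp => by
    rw [hP, PPs, mem_filter] at hp; exact hp.2.2
  have hleZ : ∀ p ∈ P, (p : ℝ) ≤ (X : ℝ) ^ κ₂ := fun p hp => by
    rw [hP, PPs, mem_filter, mem_Icc] at hp
    exact (Nat.cast_le.2 hp.1.2).trans (Nat.floor_le (by positivity))
  have hcard : (P.card : ℝ) ≤ (X : ℝ) ^ κ₂ := by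
    have : P.card ≤ ⌊(X : ℝ) ^ κ₂⌋₊ := by
      rw [hP, PPs]
      refine (card_filter_le _ _).trans ?_
      simp
    exact (Nat.cast_le.2 this).trans (Nat.floor_le (by positivity))
  set Z : ℝ := (X : ℝ) ^ κ₂ with hZ
  have hZ1 : 1 ≤ Z := Real.one_le_rpow hX1 hκ₂.le
  have hZq : Z ≤ (X : ℝ) ^ (1 / 4 : ℝ) := Real.rpow_le_rpow_of_exponent_le hX1 hκ4
  have hZZ : Z * Z ≤ (X : ℝ) ^ (1 / 2 : ℝ) := by
    calc Z * Z ≤ (X : ℝ) ^ (1 / 4 : ℝ) * (X : ℝ) ^ (1 / 4 : ℝ) :=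
          mul_le_mul hZq hZq (by linarith) (by positivity)
      _ = _ := by rw [← Real.rpow_add hX0]; norm_num
  have hXh : (X : ℝ) ^ (1 / 2 : ℝ) * (X : ℝ) ^ (1 / 2 : ℝ) = X := by
    rw [← Real.rpow_add hX0]; norm_num
  have hcond : (1 + 2 * (P.card : ℝ)) * Z ≤ X := by
    calc (1 + 2 * (P.card : ℝ)) * Z ≤ (Z + 2 * Z) * Z :=
          mul_le_mul_of_nonneg_right (by linarith) (by linarith)
      _ = 3 * (Z * Z) := by ring
      _ ≤ (X : ℝ) ^ (1 / 2 : ℝ) * (X : ℝ) ^ (1 / 2 : ℝ) :=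
          mul_le_mul hE hZZ (by positivity) (by positivity)
      _ = X := hXh
  set l : ℕ := ⌊η * (X : ℝ) ^ (1 - κ₂)⌋₊ with hl
  have hXk : (X : ℝ) ^ (3 / 4 : ℝ) ≤ (X : ℝ) ^ (1 - κ₂) :=
    Real.rpow_le_rpow_of_exponent_le hX1 (by linarith)
  have hl0 : 0 < l := by
    rw [hl, Nat.floor_pos]
    rw [div_le_iff₀ hη0] at hC
    calc (1 : ℝ) ≤ (X : ℝ) ^ (3 / 4 : ℝ) * η := hC
      _ ≤ (X : ℝ) ^ (1 - κ₂) * η := mul_le_mul_of_nonneg_right hXk hη0.le
      _ = _ := mul_comm _ _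
  have hlle : (l : ℝ) ≤ η * (X : ℝ) ^ (1 - κ₂) := Nat.floor_le (by positivity)
  have hZl : Z * (X : ℝ) ^ (1 - κ₂) = X := by
    rw [hZ, ← Real.rpow_add hX0]; norm_num
  -- the pointwise inequality
  have hpt := pointwise P hprime (fun m => ee (a * (m : ℕ))) muC (fun m => by rw [norm_ee])
    norm_muC (fun p hp m hm => muC_mul p (hprime p hp) m hm) X n
  rw [icc_ioc (fun m => ee (a * (m : ℕ)) * muC m)] at hpt
  have hS : ∑ m ∈ Ioc n (n + X), ee (a * (m : ℕ)) * muC m =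
      ∑ m ∈ Ioc n (n + X), muC m * ee (a * m) := sum_congr rfl fun m _ => mul_comm _ _
  rw [hS] at hpt
  set S := ‖∑ m ∈ Ioc n (n + X), muC m * ee (a * m)‖ with hSd
  have hWL : WW P = L := rfl
  rw [hWL] at hpt
  have htk := RB.tk P hprime n X Z hleZ hcond
  rw [hWL] at htk
  set I : ℕ → ℝ := fun p => ∫ t in (n : ℝ)..(n + X), vv l ⌊t / p⌋₊ (p * a) with hI
  have hsum : ∑ p ∈ P, (‖∑ m ∈ Ioc (n / p) ((n + X) / p), ee (a * (p * m : ℕ)) * muC m‖
          + ∑ m ∈ Ioc (n / p) ((n + X) / p), if p ∣ m then (2 : ℝ) else 0) ≤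
      ∑ p ∈ P, (1 / p * I p) + (P.card * (2 * l + 3) + 2 * X / (X : ℝ) ^ κ₁ * L) := by
    have : ∀ p ∈ P, (‖∑ m ∈ Ioc (n / p) ((n + X) / p), ee (a * (p * m : ℕ)) * muC m‖
          + ∑ m ∈ Ioc (n / p) ((n + X) / p), if p ∣ m then (2 : ℝ) else 0) ≤
        1 / p * I p + ((2 * l + 3) + 2 * X / (X : ℝ) ^ κ₁ * (1 / p)) := by
      intro p hp
      have h1 := RB.one_prime p (hprime p hp) n X l hl0 a
      have h2 := RB.mult_bound p (hprime p hp) n X
      have hp0 : (0 : ℝ) < p := by exact_mod_cast (hprime p hp).pos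
      have h3 : (X : ℝ) / (p * p) ≤ X / (X : ℝ) ^ κ₁ * (1 / p) := by
        rw [div_mul_div_comm, mul_one]
        apply div_le_div_of_nonneg_left hX0.le (by positivity)
        exact mul_le_mul_of_nonneg_right (hge p hp) hp0.le
      have h4 : 2 * X / (X : ℝ) ^ κ₁ * (1 / p) = 2 * (X / (X : ℝ) ^ κ₁ * (1 / p)) := by ring
      rw [h4]
      linarith
    refine (sum_le_sum this).trans (le_of_eq ?_)
    rw [sum_add_distrib, sum_add_distrib, sum_const, nsmul_eq_mul, ← mul_sum]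
    rfl
  have hmain : L * S ≤ X * Real.sqrt (2 * L) + (∑ p ∈ P, (1 / p * I p) +
      (P.card * (2 * l + 3) + 2 * X / (X : ℝ) ^ κ₁ * L)) := by
    refine hpt.trans (add_le_add htk ?_)
    exact hsum
  -- the errors
  have hLp : 0 < L := by linarith
  have e1 : Real.sqrt (2 * L) ≤ ε / 4 * L := by
    rw [Real.sqrt_le_left (by positivity)]
    have : 32 ≤ L * ε ^ 2 := by rwa [div_le_iff₀ (by positivity)] at hL2
    nlinarith
  have e2 : (P.card : ℝ) * (2 * l) ≤ ε / 4 * X := by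
    calc (P.card : ℝ) * (2 * l) ≤ Z * (2 * (η * (X : ℝ) ^ (1 - κ₂))) :=
          mul_le_mul hcard (by linarith) (by positivity) (by linarith)
      _ = 2 * η * (Z * (X : ℝ) ^ (1 - κ₂)) := by ring
      _ = 2 * η * X := by rw [hZl]
      _ ≤ ε / 4 * X := mul_le_mul_of_nonneg_right (by linarith) hX0.le
  have hX34 : (X : ℝ) ^ (1 / 4 : ℝ) * (X : ℝ) ^ (3 / 4 : ℝ) = X := by
    rw [← Real.rpow_add hX0]; norm_num
  have e3 : (P.card : ℝ) * 3 ≤ ε / 4 * X := by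
    have : 12 ≤ (X : ℝ) ^ (3 / 4 : ℝ) * ε := by rwa [div_le_iff₀ hε] at hD
    have h5 : (P.card : ℝ) ≤ (X : ℝ) ^ (1 / 4 : ℝ) := hcard.trans hZq
    have h6 : 0 ≤ (X : ℝ) ^ (1 / 4 : ℝ) := by positivity
    calc (P.card : ℝ) * 3 ≤ (X : ℝ) ^ (1 / 4 : ℝ) * 3 := mul_le_mul_of_nonneg_right h5 (by norm_num)
      _ ≤ (X : ℝ) ^ (1 / 4 : ℝ) * ((X : ℝ) ^ (3 / 4 : ℝ) * ε / 4) :=
          mul_le_mul_of_nonneg_left (by linarith) h6
      _ = ε / 4 * ((X : ℝ) ^ (1 / 4 : ℝ) * (X : ℝ) ^ (3 / 4 : ℝ)) := by ring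
      _ = ε / 4 * X := by rw [hX34]
  have e4 : 2 * X / (X : ℝ) ^ κ₁ ≤ ε / 4 * X := by
    rw [div_le_iff₀ (by positivity)]
    have : 8 ≤ (X : ℝ) ^ κ₁ * ε := by rwa [div_le_iff₀ hε] at hB
    nlinarith
  have hmain2 : L * S ≤ ∑ p ∈ P, (1 / p * I p) + ε * X * L := by
    have f1 : X * Real.sqrt (2 * L) ≤ X * (ε / 4 * L) := mul_le_mul_of_nonneg_left e1 hX0.le
    have f2 : (P.card : ℝ) * (2 * l + 3) ≤ ε / 2 * X := by
      rw [mul_add]; linarith
    have f3 : ε / 2 * X ≤ ε / 2 * X * L := by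
      have : 0 ≤ ε / 2 * X := by positivity
      nlinarith
    have f4 : 2 * X / (X : ℝ) ^ κ₁ * L ≤ ε / 4 * X * L := mul_le_mul_of_nonneg_right e4 hLp.le
    linarith
  have hfin : S / X ≤ (∑ p ∈ P, (1 / p * I p)) / (L * X) + ε := by
    rw [div_add' _ _ _ (by positivity), div_le_div_iff₀ hX0 (by positivity)]
    nlinarith
  refine hfin.trans (le_of_eq ?_)
  congr 1
  rw [sum_div]
  refine sum_congr rfl fun p hp => ?_
  have hp0 : (p : ℝ) ≠ 0 := by exact_mod_cast (hprime p hp).ne_zero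
  rw [wt]
  simp only [hI]
  rw [← hLd]
  field_simp

end

end Pool.Agent.SV
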