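import Mathlib
import Pool.Agent.Lib.SV.IFinA
import Pool.Agent.Lib.SV.RB

/-!
# Theorem TF (MP_663568_nt): part (ii), assembly.  (helper19)
-/

set_option autoImplicit false
open Finset MeasureTheory Filter

namespace Pool.Agent.SV

open Pool.Agent.Lib.MP_663568_nt Pool.Agent.Lib.MP_663568_nt.Katai
  Pool.Agent.Lib.MP_663568_nt.Nul

noncomputable section

namespace IIx

theorem large_ii (κ₁ W : ℝ) (hκ₁ : 0 < κ₁) :
    ∃ H₁ : ℕ, ∀ H : ℕ, H₁ ≤ H → W ≤ (H : ℝ) ^ κ₁ ∧ W ≤ (H : ℝ) ^ (1 / 8 : ℝ) ∧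
      W ≤ Real.log H ∧ 1 ≤ H := by
  have t := tendsto_natCast_atTop_atTop (R := ℝ)
  have h1 := (tendsto_rpow_atTop hκ₁).comp t
  have h2 := (tendsto_rpow_atTop (show (0 : ℝ) < 1 / 8 by norm_num)).comp t
  have h4 := Real.tendsto_log_atTop.comp t
  obtain ⟨X₁, hX₁⟩ := eventually_atTop.1
    ((((h1.eventually_ge_atTop W).and (h2.eventually_ge_atTop W)).and
      (h4.eventually_ge_atTop W)).and (eventually_ge_atTop 1))
  refine ⟨X₁, fun X hX => ?_⟩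
  obtain ⟨⟨⟨a1, a2⟩, a3⟩, a4⟩ := hX₁ X hX
  exact ⟨a1, a2, a3, a4⟩

theorem sv_bd (l n : ℕ) : 0 ≤ sv l n ∧ sv l n ≤ 1 := by
  have hb : BddAbove (Set.range fun b : ℝ => vv l n b) :=
    ⟨1, by rintro _ ⟨y, rfl⟩; exact RB.vv_le l n y⟩
  exact ⟨(RB.vv_nonneg l n 0).trans (le_ciSup hb 0), ciSup_le fun b => RB.vv_le l n b⟩

theorem near (l n : ℕ) {e : ℝ} (he : 0 < e) : ∃ b : ℝ, sv l n ≤ vv l n b + e := by
  obtain ⟨b, hb⟩ := exists_lt_of_lt_ciSup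
    (show sv l n - e < ⨆ b : ℝ, vv l n b by show sv l n - e < sv l n; linarith)
  exact ⟨b, by linarith⟩

theorem fl_ii (f : ℕ → ℝ) (h0 : ∀ n, 0 ≤ f n) (h1 : ∀ n, f n ≤ 1) (ta tb : ℝ) :
    IntervalIntegrable (fun u => f ⌊Real.exp u⌋₊) volume ta tb := by
  refine IFx.ii_bdd (C := 1) ((measurable_from_nat (f := f)).comp
    Real.measurable_exp.nat_floor) (fun u => ?_) ta tb
  show |f ⌊Real.exp u⌋₊| ≤ 1
  rw [abs_of_nonneg (h0 _)]
  exact h1 _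

theorem scales (H : ℕ) {r : ℝ} (hr0 : 0 < r) (hr1 : r ≤ 1) : ∃ x : ℕ → ℕ, x 0 = H ∧
    (∀ i, (x (i + 1) : ℝ) ≤ r * x i) ∧ (∀ i, x i ≤ H) ∧
    ∀ M : ℕ, 1 ≤ (H : ℝ) * (r / 2) ^ M → ∀ i ≤ M, (H : ℝ) * (r / 2) ^ i ≤ x i := by
  obtain ⟨x, hx0, hxs⟩ : ∃ x : ℕ → ℕ, x 0 = H ∧ ∀ i, x (i + 1) = ⌊r * x i⌋₊ :=
    ⟨fun i => Nat.rec H (fun _ y => ⌊r * (y : ℝ)⌋₊) i, rfl, fun i => rfl⟩
  have h1 : ∀ i, (x (i + 1) : ℝ) ≤ r * x i := fun i => by
    rw [hxs]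
    exact Nat.floor_le (by positivity)
  refine ⟨x, hx0, h1, fun i => ?_, fun M hM i => ?_⟩
  · induction i with
    | zero => exact hx0.le
    | succ i ih =>
      refine le_trans ?_ ih
      have : (x (i + 1) : ℝ) ≤ x i := (h1 i).trans (mul_le_of_le_one_left (by positivity) hr1)
      exact_mod_cast this
  · induction i with
    | zero => intro _; rw [hx0]; simp
    | succ i ih =>
      intro hi
      have e1 := ih (by omega)
      have e2 : 1 ≤ (H : ℝ) * (r / 2) ^ (i + 1) := by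
        refine hM.trans ?_
        have : (r / 2) ^ M ≤ (r / 2) ^ (i + 1) :=
          pow_le_pow_of_le_one (by positivity) (by linarith) hi
        exact mul_le_mul_of_nonneg_left this (Nat.cast_nonneg _)
      have e3 : r * x i - 1 < x (i + 1) := by rw [hxs]; exact Nat.sub_one_lt_floor _
      have e4 : r * ((H : ℝ) * (r / 2) ^ i) ≤ r * x i := mul_le_mul_of_nonneg_left e1 hr0.le
      have e5 : r * ((H : ℝ) * (r / 2) ^ i) = 2 * ((H : ℝ) * (r / 2) ^ (i + 1)) := by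
        rw [pow_succ]; ring
      linarith

theorem pigeon (g : ℕ → ℝ) {e Λ : ℝ} (he : 0 < e) (hΛ : 0 < Λ) (hg0 : 0 ≤ g 0)
    (M : ℕ) (hg1 : g M ≤ Λ) (hM : 1 / e < M) : ∃ i < M, g (i + 1) ≤ g i + e * Λ := by
  by_contra hcon
  push Not at hcon
  have h1 : ∀ i ≤ M, g 0 + i * (e * Λ) ≤ g i := by
    intro i
    induction i with
    | zero => intro _; simp
    | succ i ih =>
      intro hi
      have e1 := ih (by omega)
      have e2 := hcon i (by omega)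
      push_cast
      linarith
  have h2 := h1 M le_rfl
  rw [div_lt_iff₀ he] at hM
  have h3 : 1 * Λ < M * e * Λ := mul_lt_mul_of_pos_right hM hΛ
  have h4 : (M : ℝ) * (e * Λ) = M * e * Λ := by ring
  linarith

end IIx

open IIx

theorem iifin (h19 : T19') (h21 : T21') : II' := by
  intro A ε₀ R hA0 hε₀ hR
  obtain ⟨ε, hε⟩ : ∃ ε, ε = min ε₀ 1 := ⟨_, rfl⟩
  have hε0 : 0 < ε := by rw [hε]; exact lt_min hε₀ one_pos
  have hε1 : ε ≤ 1 := by rw [hε]; exact min_le_right _ _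
  have hεε : ε ≤ ε₀ := by rw [hε]; exact min_le_left _ _
  have hε2 : ε ^ 2 ≤ ε := by nlinarith
  obtain ⟨e, he⟩ : ∃ e, e = (ε / 32) ^ 2 := ⟨_, rfl⟩
  have hse : √e = ε / 32 := by rw [he]; exact Real.sqrt_sq (by positivity)
  have he0 : 0 < e := by rw [he]; positivity
  have he1 : e ≤ ε / 1024 := by rw [he, div_pow]; linarith
  obtain ⟨M, hM⟩ : ∃ M : ℕ, M = ⌈1 / e⌉₊ + 1 := ⟨_, rfl⟩
  have hMe : 1 / e < M := by
    rw [hM]
    push_cast
    linarith [Nat.le_ceil (1 / e)]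
  obtain ⟨κ₂, hκ₂⟩ : ∃ κ₂ : ℝ, κ₂ = e / (8 * ((M : ℝ) + 1)) := ⟨_, rfl⟩
  have hM0 : (0 : ℝ) ≤ M := Nat.cast_nonneg _
  have hκ₂0 : 0 < κ₂ := by rw [hκ₂]; positivity
  have hκM1 : κ₂ * ((M : ℝ) + 1) = e / 8 := by rw [hκ₂]; field_simp
  have hκM : κ₂ * (M : ℝ) ≤ e / 8 := by linarith
  have hκe : κ₂ ≤ e / 8 := by
    have : 0 ≤ κ₂ * (M : ℝ) := by positivity
    linarith
  obtain ⟨K, η, hK1, hη0, hη1, h21⟩ := h21 e he0 (by linarith)
  obtain ⟨K', η', hK1', hη0', hη1', h19⟩ := h19 e he0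
  obtain ⟨κ₁, hκ₁, hκ₁₂, Xm, hMer⟩ := RB.mertens (max K K') κ₂ hκ₂0 (by linarith)
    (hK1.trans (le_max_left _ _))
  obtain ⟨Ht, h21⟩ := h21 A κ₁ κ₂ R hA0 hκ₁ hκ₁₂ (by linarith) hR
  obtain ⟨η₀, hη₀⟩ : ∃ x, x = min η η' := ⟨_, rfl⟩
  have hη₀0 : 0 < η₀ := by rw [hη₀]; exact lt_min hη0 hη0'
  have hη₀η : η₀ ≤ η := by rw [hη₀]; exact min_le_left _ _
  have hη₀η' : η₀ ≤ η' := by rw [hη₀]; exact min_le_right _ _
  obtain ⟨W, hW⟩ : ∃ W : ℝ, W = K' + (2 / η₀) ^ M + 1 / e + 4 := ⟨_, rfl⟩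
  have hWa : K' ≤ W ∧ (2 / η₀) ^ M ≤ W ∧ 1 / e ≤ W ∧ 4 ≤ W := by
    have h1 : 0 ≤ (2 / η₀) ^ M := by positivity
    have h2 : 0 ≤ 1 / e := by positivity
    rw [hW]
    refine ⟨?_, ?_, ?_, ?_⟩ <;> linarith
  obtain ⟨W1, W2, W3, W4⟩ := hWa
  obtain ⟨Hl, hHl⟩ := large_ii κ₁ W hκ₁
  refine ⟨max (max Ht Xm) Hl, ?_⟩
  intro H N hH hN
  have hHt : Ht ≤ H := ((le_max_left _ _).trans (le_max_left _ _)).trans hH
  have hXm : Xm ≤ H := ((le_max_right _ _).trans (le_max_left _ _)).trans hH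
  have hHl' : Hl ≤ H := (le_max_right _ _).trans hH
  obtain ⟨b1, b2, b3, b4⟩ := hHl H hHl'
  have hH1 : (1 : ℝ) ≤ H := by exact_mod_cast b4
  have hH0 : (0 : ℝ) < H := by linarith
  have hLs := hMer H hXm
  have hLsK : K ≤ Ls (PPs H κ₁ κ₂) := (le_max_left _ _).trans hLs
  have hLsK' : K' ≤ Ls (PPs H κ₁ κ₂) := (le_max_right _ _).trans hLs
  obtain ⟨Λ, hΛ⟩ : ∃ Λ, Λ = Real.log N := ⟨_, rfl⟩
  obtain ⟨h, hh⟩ : ∃ h, h = Real.log H := ⟨_, rfl⟩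
  have hh4 : 4 ≤ h := by rw [hh]; linarith
  have hΛh : (A + 5) * h ≤ Λ := by
    rw [hΛ, hh, ← Real.log_rpow hH0]
    exact Real.log_le_log (Real.rpow_pos_of_pos hH0 _) hN
  have hAh : 0 ≤ A * h := by positivity
  have hhΛ : h ≤ Λ := by linarith
  have hΛ0 : 0 < Λ := by linarith
  obtain ⟨ta, hta⟩ : ∃ ta, ta = (A + 4) * h := ⟨_, rfl⟩
  have htab : ta ≤ Λ := by rw [hta]; linarith
  have hta0 : 0 ≤ ta := by rw [hta]; positivity
  obtain ⟨Z, hZ⟩ : ∃ Z : ℝ, Z = (H : ℝ) ^ κ₂ := ⟨_, rfl⟩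
  have hZ1 : 1 ≤ Z := by rw [hZ]; exact Real.one_le_rpow hH1 hκ₂0.le
  have hZ0 : 0 < Z := by linarith
  obtain ⟨r, hr⟩ : ∃ r : ℝ, r = η₀ / Z := ⟨_, rfl⟩
  have hr0 : 0 < r := by rw [hr]; positivity
  have hrη : r ≤ η₀ := by rw [hr]; exact div_le_self hη₀0.le hZ1
  have hr1 : r ≤ 1 := by linarith
  -- the size of the scales
  have hsz : (H : ℝ) ^ (1 - e / 4) ≤ (H : ℝ) * (r / 2) ^ M := by
    have a1 : (H : ℝ) ^ (-(e / 8)) ≤ (η₀ / 2) ^ M := by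
      have c1 : (2 / η₀) ^ M ≤ (H : ℝ) ^ (e / 8) :=
        (W2.trans b1).trans (Real.rpow_le_rpow_of_exponent_le hH1 (by linarith))
      rw [Real.rpow_neg hH0.le]
      have c2 : (η₀ / 2) ^ M = ((2 / η₀) ^ M)⁻¹ := by rw [← inv_pow, inv_div]
      rw [c2]
      exact inv_anti₀ (by positivity) c1
    have a2 : (H : ℝ) ^ (-(e / 8)) ≤ (1 / Z) ^ M := by
      have c1 : Z ^ M ≤ (H : ℝ) ^ (e / 8) := by
        rw [hZ, ← Real.rpow_natCast, ← Real.rpow_mul hH0.le]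
        exact Real.rpow_le_rpow_of_exponent_le hH1 hκM
      rw [Real.rpow_neg hH0.le, one_div, inv_pow]
      exact inv_anti₀ (by positivity) c1
    have a3 : (r / 2) ^ M = (η₀ / 2) ^ M * (1 / Z) ^ M := by
      rw [← mul_pow, hr]; congr 1; ring
    have a4 : (H : ℝ) ^ (1 - e / 4) = H * ((H : ℝ) ^ (-(e / 8)) * (H : ℝ) ^ (-(e / 8))) := by
      rw [← Real.rpow_add hH0, show 1 - e / 4 = 1 + (-(e / 8) + -(e / 8)) by ring,
        Real.rpow_add hH0 1, Real.rpow_one]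
    rw [a3, a4]
    gcongr
  have hsz1 : 1 ≤ (H : ℝ) * (r / 2) ^ M :=
    (Real.one_le_rpow hH1 (by linarith : (0 : ℝ) ≤ 1 - e / 4)).trans hsz
  obtain ⟨x, hx0, hxr, hxH, hxl⟩ := scales H hr0 hr1
  have hxl := hxl M hsz1
  have hxlow : ∀ i ≤ M, (H : ℝ) ^ (1 - e / 4) ≤ x i := by
    intro i hi
    refine hsz.trans (le_trans ?_ (hxl i hi))
    have : (r / 2) ^ M ≤ (r / 2) ^ i :=
      pow_le_pow_of_le_one (by positivity) (by linarith) hi
    exact mul_le_mul_of_nonneg_left this hH0.le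
  have hsv0 : ∀ l n : ℕ, 0 ≤ sv l n ^ 2 := fun l n => sq_nonneg _
  have hsv1 : ∀ l n : ℕ, sv l n ^ 2 ≤ 1 := fun l n => by
    have := sv_bd l n
    exact pow_le_one₀ this.1 this.2
  obtain ⟨i, hiM, hi⟩ := pigeon (fun i => ∫ u in ta..Λ, sv (x i) ⌊Real.exp u⌋₊ ^ 2) he0 hΛ0
    (intervalIntegral.integral_nonneg htab fun u _ => hsv0 _ _) M
    (by
      have c1 := intervalIntegral.integral_mono_on htab
        (fl_ii (fun n => sv (x M) n ^ 2) (hsv0 _) (hsv1 _) ta Λ)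
        (intervalIntegrable_const (c := (1 : ℝ))) (fun u _ => hsv1 (x M) ⌊Real.exp u⌋₊)
      rw [intervalIntegral.integral_const, smul_eq_mul, mul_one] at c1
      exact c1.trans (by linarith)) hMe
  have hi2 : (H : ℝ) ^ (1 / 2 : ℝ) ≤ x i := by
    refine le_trans ?_ (hxlow i hiM.le)
    exact Real.rpow_le_rpow_of_exponent_le hH1 (by linarith)
  have hone : ∀ j ≤ M, 1 ≤ x j := by
    intro j hj
    have : (1 : ℝ) ≤ x j :=
      (Real.one_le_rpow hH1 (by linarith : (0 : ℝ) ≤ 1 - e / 4)).trans (hxlow j hj)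
    exact_mod_cast this
  have hrZ : r * Z = η₀ := by rw [hr]; field_simp
  have hstep : ∀ j, (x (j + 1) : ℝ) * Z ≤ η₀ * x j := by
    intro j
    have c1 := mul_le_mul_of_nonneg_right (hxr j) hZ0.le
    calc (x (j + 1) : ℝ) * Z ≤ r * x j * Z := c1
      _ = r * Z * x j := by ring
      _ = η₀ * x j := by rw [hrZ]
  refine ⟨x (i + 1), ?_, hxH _, ?_⟩
  · refine le_trans ?_ (hxlow (i + 1) hiM)
    exact Real.rpow_le_rpow_of_exponent_le hH1 (by linarith)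
  intro T hSy hSl w hw0 hw
  have hw1 : w ≤ 1 := by
    refine (hw 0).trans ?_
    unfold im1
    refine ENNReal.toReal_le_of_le_ofReal zero_le_one ?_
    calc volume {x : ℝ | x ∈ Set.Icc 0 1 ∧ ∀ z : ℝ, |z - x| < 1 / R → z ∈ T 0} ≤
          volume (Set.Icc (0 : ℝ) 1) := measure_mono fun x hx => hx.1
      _ = ENNReal.ofReal 1 := by rw [Real.volume_Icc]; norm_num
  have h1 := h21 H N (x i) (x (i + 1)) hHt hLsK hN hi2 (hxH i) (hone _ hiM)
    (by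
      rw [← hZ]
      exact (hstep i).trans (mul_le_mul_of_nonneg_right hη₀η (Nat.cast_nonneg _)))
    (by rw [← hh, ← hΛ, ← hta]; exact hi) T hSy hSl w hw0 hw
  rw [← hh, ← hΛ, ← hta] at h1 ⊢
  obtain ⟨IH, hIH⟩ : ∃ IH, IH = ∫ u in ta..Λ, sv H ⌊Real.exp u⌋₊ := ⟨_, rfl⟩
  obtain ⟨Ii, hIi⟩ : ∃ Ii, Ii = ∫ u in ta..Λ, sv (x i) ⌊Real.exp u⌋₊ := ⟨_, rfl⟩
  rw [← hIi, hse] at h1
  rw [← hIH]
  have heh : e * h ≤ e * Λ := mul_le_mul_of_nonneg_left hhΛ he0.le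
  have heh0 : 0 ≤ e * h := by positivity
  have heΛ0 : 0 ≤ e * Λ := by positivity
  have h2 : IH ≤ Ii + 4 * (e * Λ) := by
    rcases Nat.eq_zero_or_pos i with hi0 | hi0
    · rw [hIH, hIi, hi0, hx0]
      linarith
    choose b hb using fun n => near H n he0
    have c0 : 1 ≤ e * Λ := by
      have := W3.trans b3
      rw [div_le_iff₀ he0, ← hh] at this
      linarith
    have c1 : IH ≤ (∫ u in ta..Λ, vv H ⌊Real.exp u⌋₊ (b ⌊Real.exp u⌋₊)) + e * (Λ - ta) := by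
      have i1 := fl_ii (fun n => sv H n) (fun n => (sv_bd H n).1) (fun n => (sv_bd H n).2) ta Λ
      have i2 := fl_ii (fun n => vv H n (b n)) (fun n => RB.vv_nonneg H n _)
        (fun n => RB.vv_le H n _) ta Λ
      rw [hIH]
      refine (intervalIntegral.integral_mono_on htab i1
        (i2.add (intervalIntegrable_const (c := e))) fun u _ => hb _).trans (le_of_eq ?_)
      rw [intervalIntegral.integral_add i2 intervalIntegrable_const,
        intervalIntegral.integral_const, smul_eq_mul]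
      ring
    have hpp : ∀ p ∈ PPs H κ₁ κ₂, p.Prime ∧ K' ≤ p ∧ (p : ℝ) ≤ Z := by
      intro p hp
      unfold PPs at hp
      rw [mem_filter, mem_Icc] at hp
      exact ⟨hp.2.1, W1.trans (b1.trans hp.2.2), by
        rw [hZ]; exact (Nat.le_floor_iff (Real.rpow_nonneg hH0.le _)).1 hp.1.2⟩
    have c2 : K' * Z ^ 2 ≤ H := by
      have d1 : Z ^ 2 ≤ (H : ℝ) ^ (1 / 8 : ℝ) := by
        rw [hZ, ← Real.rpow_natCast, ← Real.rpow_mul hH0.le]
        refine Real.rpow_le_rpow_of_exponent_le hH1 ?_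
        push_cast
        linarith
      calc K' * Z ^ 2 ≤ (H : ℝ) ^ (1 / 8 : ℝ) * (H : ℝ) ^ (1 / 8 : ℝ) :=
            mul_le_mul (W1.trans b2) d1 (by positivity) (by positivity)
        _ = (H : ℝ) ^ (1 / 4 : ℝ) := by rw [← Real.rpow_add hH0]; norm_num
        _ ≤ (H : ℝ) ^ (1 : ℝ) := Real.rpow_le_rpow_of_exponent_le hH1 (by norm_num)
        _ = H := Real.rpow_one _
    have c3 : (x i : ℝ) * Z ≤ η' * H := by
      obtain ⟨j, rfl⟩ : ∃ j, i = j + 1 := ⟨i - 1, by omega⟩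
      refine (hstep j).trans ?_
      have d1 : (x j : ℝ) ≤ H := by exact_mod_cast hxH j
      exact mul_le_mul hη₀η' d1 (Nat.cast_nonneg _) hη0'.le
    have c4 : Real.log Z = κ₂ * h := by rw [hZ, Real.log_rpow hH0, hh]
    have c5 : κ₂ * h ≤ e * Λ := by
      have d1 : κ₂ * h ≤ e * h := mul_le_mul_of_nonneg_right (by linarith) (by linarith)
      linarith
    have c6 : Real.log (H : ℝ) + Real.log Z + K' ≤ ta := by
      have d1 : K' ≤ h := by rw [hh]; exact W1.trans b3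
      have d2 : κ₂ * h ≤ 1 * h := mul_le_mul_of_nonneg_right (by linarith) (by linarith)
      rw [c4, ← hh, hta]
      linarith
    have c7 := (h19 (PPs H κ₁ κ₂) Z hpp hLsK' H (x i) c2 (hone i hiM.le) c3 ta Λ c6 htab b).2
    rw [c4, ← hIi] at c7
    have c8 : e * (Λ - ta) ≤ e * Λ := mul_le_mul_of_nonneg_left (by linarith) he0.le
    linarith
  have h3 : w * IH ≤ w * Ii + 4 * (e * Λ) := by
    have d1 := mul_le_mul_of_nonneg_left h2 hw0
    have d2 : w * (4 * (e * Λ)) ≤ 1 * (4 * (e * Λ)) :=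
      mul_le_mul_of_nonneg_right hw1 (by positivity)
    linarith
  have h4 : 4 * (e * Λ) + 8 * (ε / 32) * Λ ≤ ε₀ * Λ := by
    have d1 : 4 * e + 8 * (ε / 32) ≤ ε₀ := by linarith
    have d2 := mul_le_mul_of_nonneg_right d1 hΛ0.le
    linarith
  linarith

end

end Pool.Agent.SV
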