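import Pool.Agent.Lib.SV.P3

/-!
# Theorem V: row F3 (density of the end points).  (helper28)
-/

set_option autoImplicit false
open Finset MeasureTheory

namespace Pool.Agent.SV

/-! ### Lists with entries in a finite set -/

theorem sum_paths_succ_b {ι : Type} [DecidableEq ι] (I : Finset ι) (k : ℕ) (f : List ι → ℝ) :
    ∑ l ∈ paths I (k + 1), f l = ∑ i ∈ I, ∑ l ∈ paths I k, f (i :: l) := by
  rw [paths, Finset.sum_image, Finset.sum_product]
  intro x _ y _ hxy
  simp only [List.cons.injEq] at hxy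
  exact Prod.ext hxy.1 hxy.2

theorem mem_paths_iff {ι : Type} [DecidableEq ι] {I : Finset ι} {k : ℕ} {l : List ι} :
    l ∈ paths I k ↔ l.length = k ∧ ∀ i ∈ l, i ∈ I := by
  induction k generalizing l with
  | zero =>
    simp only [paths, Finset.mem_singleton, List.length_eq_zero_iff]
    constructor
    · rintro rfl; simp
    · exact fun h => h.1
  | succ k ih =>
    cases l with
    | nil => simp [paths]
    | cons i l =>
      simp only [paths, Finset.mem_image, Finset.mem_product, List.cons.injEq, Prod.exists,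
        List.length_cons, add_left_inj, List.mem_cons, forall_eq_or_imp]
      constructor
      · rintro ⟨a, b, ⟨h1, h2⟩, rfl, rfl⟩
        exact ⟨(ih.1 h2).1, h1, (ih.1 h2).2⟩
      · rintro ⟨h1, h2, h3⟩
        exact ⟨i, l, ⟨h2, ih.2 ⟨h1, h3⟩⟩, rfl, rfl⟩

theorem sum_paths_prod {ι : Type} [DecidableEq ι] (I : Finset ι) (w : ι → ℝ) (k : ℕ) :
    ∑ l ∈ paths I k, (l.map w).prod = (∑ i ∈ I, w i) ^ k := by
  induction k with
  | zero => simp [paths]
  | succ k ih =>
    rw [sum_paths_succ_b, pow_succ', Finset.sum_mul]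
    refine Finset.sum_congr rfl fun i _ => ?_
    simp only [List.map_cons, List.prod_cons]
    rw [← Finset.mul_sum, ih]

/-- At most `k!` lists of `k` primes have a given product. -/
theorem card_paths_prod_le (PP : Finset ℕ) (hPP : ∀ p ∈ PP, p.Prime) (k n : ℕ) :
    #((paths PP k).filter fun l => l.prod = n) ≤ k.factorial := by
  rcases ((paths PP k).filter fun l => l.prod = n).eq_empty_or_nonempty with h0 | ⟨l0, h0⟩
  · rw [h0]; simp
  · rw [Finset.mem_filter, mem_paths_iff] at h0
    have h1 : ((paths PP k).filter fun l => l.prod = n) ⊆ l0.permutations.toFinset := by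
      intro l hl
      rw [Finset.mem_filter, mem_paths_iff] at hl
      rw [List.mem_toFinset, List.mem_permutations]
      have a1 := Nat.primeFactorsList_unique hl.2 fun p hp => hPP p (hl.1.2 p hp)
      have a2 := Nat.primeFactorsList_unique h0.2 fun p hp => hPP p (h0.1.2 p hp)
      exact a1.trans a2.symm
    refine (Finset.card_le_card h1).trans ((List.toFinset_card_le _).trans ?_)
    rw [List.length_permutations, h0.1.1]

theorem prod_ge_of_paths {PP : Finset ℕ} {P1 : ℝ} (h1 : 0 ≤ P1) (hP : ∀ p ∈ PP, P1 ≤ p) :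
    ∀ {k : ℕ} {l : List ℕ}, l ∈ paths PP k → P1 ^ k ≤ (l.prod : ℝ) := by
  intro k
  induction k with
  | zero => intro l hl; rw [mem_paths_zero hl]; simp
  | succ k ih =>
    intro l hl
    obtain ⟨i, l', hi, hl', rfl⟩ := mem_paths_cons hl
    rw [List.prod_cons, pow_succ', Nat.cast_mul]
    exact mul_le_mul (hP i hi) (ih hl') (by positivity) (h1.trans (hP i hi))

theorem rough_of_paths {PP : Finset ℕ} {P1 : ℝ} (hPP : ∀ p ∈ PP, p.Prime)
    (hP : ∀ p ∈ PP, P1 ≤ p) {k : ℕ} {l : List ℕ} (hl : l ∈ paths PP k) :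
    ∀ r : ℕ, r.Prime → r ∣ l.prod → P1 ≤ r := by
  intro r hr hd
  obtain ⟨a, ha, hra⟩ := (Nat.Prime.prime hr).dvd_prod_iff.1 hd
  have h1 := (mem_paths_iff.1 hl).2 a ha
  rw [(Nat.prime_dvd_prime_iff_eq hr (hPP a h1)).1 hra]
  exact hP a h1

theorem wt_nonneg_b {PP : Finset ℕ} (h : 1 ≤ Ls PP) (p : ℕ) : 0 ≤ wt PP p := by
  unfold wt; positivity

theorem wt_le {PP : Finset ℕ} (h : 1 ≤ Ls PP) (p : ℕ) : wt PP p ≤ 1 / (p : ℝ) := by
  unfold wt
  rcases Nat.eq_zero_or_pos p with rfl | hp
  · simp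
  · have : (0 : ℝ) < p := by exact_mod_cast hp
    exact one_div_le_one_div_of_le this (le_mul_of_one_le_right this.le h)

theorem sum_wt_b {PP : Finset ℕ} (h : 1 ≤ Ls PP) : ∑ p ∈ PP, wt PP p = 1 := by
  have h1 : ∑ p ∈ PP, wt PP p = Ls PP / Ls PP := by
    unfold wt
    conv_rhs => rw [Ls, Finset.sum_div]
    refine Finset.sum_congr rfl fun p _ => ?_
    have : Ls PP ≠ 0 := by linarith
    by_cases hp : (p : ℝ) = 0
    · simp [hp]
    · rw [show (∑ p ∈ PP, 1 / (p : ℝ)) = Ls PP from rfl]
      field_simp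
  rw [h1, div_self (by linarith)]

theorem prod_wt_nonneg {PP : Finset ℕ} (h : 1 ≤ Ls PP) (l : List ℕ) :
    0 ≤ (l.map (wt PP)).prod := by
  apply List.prod_nonneg
  intro a ha
  obtain ⟨p, _, rfl⟩ := List.mem_map.1 ha
  exact wt_nonneg_b h p

theorem prod_wt_le {PP : Finset ℕ} (h : 1 ≤ Ls PP) (l : List ℕ) :
    (l.map (wt PP)).prod ≤ 1 / (l.prod : ℝ) := by
  induction l with
  | nil => simp
  | cons p l ih =>
    simp only [List.map_cons, List.prod_cons, Nat.cast_mul]
    have e : 1 / ((p : ℝ) * (l.prod : ℝ)) = 1 / (p : ℝ) * (1 / (l.prod : ℝ)) := by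
      rw [one_div_mul_one_div]
    rw [e]
    exact mul_le_mul (wt_le h p) ih (prod_wt_nonneg h l) (by positivity)

open Classical in
/-- One-sided version: lists of `k` primes with product in `(e ^ (y - r), e ^ y]`. -/
theorem short_sum {C : ℝ} (hC : 0 < C)
    (hS : ∀ P x y : ℝ, 2 ≤ P → 0 ≤ x → P ≤ y →
      (#((Ioc ⌊x⌋₊ ⌊x + y⌋₊).filter fun n : ℕ => ∀ r : ℕ, r.Prime → r ∣ n → P ≤ r) : ℝ) ≤
        C * y / Real.log P)
    {PP : Finset ℕ} {P1 : ℝ} (hP1 : 2 ≤ P1) (hPP : ∀ p ∈ PP, p.Prime) (hP : ∀ p ∈ PP, P1 ≤ p)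
    (hL : 1 ≤ Ls PP) {k : ℕ} (hk : 1 ≤ k) {r : ℝ} (hr0 : 0 < r) (hr1 : r ≤ 1)
    (hrP : 1 ≤ r * P1 ^ (k - 1 : ℝ)) (y : ℝ) :
    ∑ l ∈ paths PP k, (l.map (wt PP)).prod *
      (if y - r < Real.log l.prod ∧ Real.log l.prod ≤ y then (1 : ℝ) else 0) ≤
      6 * C * k.factorial * r / Real.log P1 := by
  have hlog : 0 < Real.log P1 := Real.log_pos (by linarith)
  have hP0 : 0 < P1 := by linarith
  set S : Finset (List ℕ) := (paths PP k).filter fun l => y - r < Real.log l.prod ∧
    Real.log l.prod ≤ y with hSd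
  rcases S.eq_empty_or_nonempty with h0 | ⟨l0, hl0⟩
  · have h1 : ∑ l ∈ paths PP k, (l.map (wt PP)).prod *
        (if y - r < Real.log l.prod ∧ Real.log l.prod ≤ y then (1 : ℝ) else 0) = 0 := by
      refine Finset.sum_eq_zero fun l hl => ?_
      rw [if_neg, mul_zero]
      intro h2
      have h3 : l ∈ S := Finset.mem_filter.2 ⟨hl, h2⟩
      rw [h0] at h3
      simp at h3
    rw [h1]
    positivity
  · -- `e ^ y ≥ P1 ^ k`
    have hposl : ∀ l ∈ paths PP k, (0 : ℝ) < l.prod := fun l hl =>
      lt_of_lt_of_le (by positivity) (prod_ge_of_paths hP0.le hP hl)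
    have hy : P1 ^ k ≤ Real.exp y := by
      rw [hSd, Finset.mem_filter] at hl0
      refine (prod_ge_of_paths hP0.le hP hl0.1).trans ?_
      rw [← Real.log_le_iff_le_exp (hposl _ hl0.1)]
      exact hl0.2.2
    set x := Real.exp (y - r) with hx
    set z := 2 * Real.exp y * r with hz
    have hxe : x = Real.exp y * Real.exp (-r) := by rw [hx, sub_eq_add_neg, Real.exp_add]
    have hexy := Real.exp_pos y
    have hz1 : P1 ≤ z := by
      have a1 : P1 ^ k = P1 * P1 ^ (k - 1 : ℝ) := by
        have : (k : ℝ) = 1 + (k - 1 : ℝ) := by ring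
        rw [← Real.rpow_natCast, this, Real.rpow_add hP0, Real.rpow_one]
        ring_nf
      have a2 : P1 ≤ P1 ^ k * r := by
        rw [a1]
        nlinarith
      have a3 : P1 ^ k * r ≤ Real.exp y * r := mul_le_mul_of_nonneg_right hy hr0.le
      have a4 : 0 < Real.exp y * r := by positivity
      rw [hz]; linarith
    have hxz : Real.exp y ≤ x + z := by
      have a1 := Real.add_one_le_exp (-r)
      rw [hxe, hz]
      nlinarith
    have hcount := hS P1 x z hP1 (Real.exp_pos _).le hz1
    set N := (Ioc ⌊x⌋₊ ⌊x + z⌋₊).filter fun n : ℕ => ∀ r : ℕ, r.Prime → r ∣ n → P1 ≤ r with hN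
    have hmem : ∀ l ∈ S, l.prod ∈ N := by
      intro l hl
      rw [hSd, Finset.mem_filter] at hl
      rw [hN, Finset.mem_filter, Finset.mem_Ioc]
      have a1 := hposl _ hl.1
      refine ⟨⟨?_, ?_⟩, rough_of_paths hPP hP hl.1⟩
      · rw [Nat.floor_lt (Real.exp_pos _).le]
        rw [← Real.lt_log_iff_exp_lt a1]
        exact hl.2.1
      · apply Nat.le_floor
        refine le_trans ?_ hxz
        rw [← Real.log_le_iff_le_exp a1]
        exact hl.2.2
    have hb : ∀ n ∈ N, 1 / (n : ℝ) ≤ 3 * Real.exp (-y) := by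
      intro n hn
      rw [hN, Finset.mem_filter, Finset.mem_Ioc] at hn
      have a1 : x < n := (Nat.floor_lt (Real.exp_pos _).le).1 hn.1.1
      have a2 : 0 < x := Real.exp_pos _
      have a3 : 1 / (n : ℝ) ≤ 1 / x := one_div_le_one_div_of_le a2 a1.le
      refine a3.trans ?_
      have a4 : 1 / x = Real.exp (-y) * Real.exp r := by
        rw [hx, one_div, ← Real.exp_neg, ← Real.exp_add]; ring_nf
      rw [a4, mul_comm]
      refine mul_le_mul_of_nonneg_right ?_ (Real.exp_pos _).le
      have a5 : Real.exp r ≤ Real.exp 1 := Real.exp_le_exp.2 hr1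
      have a6 := Real.exp_one_lt_d9
      linarith
    calc ∑ l ∈ paths PP k, (l.map (wt PP)).prod *
        (if y - r < Real.log l.prod ∧ Real.log l.prod ≤ y then (1 : ℝ) else 0)
        = ∑ l ∈ S, (l.map (wt PP)).prod := by
          rw [hSd, Finset.sum_filter]
          refine Finset.sum_congr rfl fun l _ => ?_
          split_ifs <;> simp
      _ ≤ ∑ l ∈ S, 1 / (l.prod : ℝ) := Finset.sum_le_sum fun l _ => prod_wt_le hL l
      _ = ∑ n ∈ N, ∑ l ∈ S.filter (fun l => l.prod = n), 1 / (l.prod : ℝ) :=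
          (Finset.sum_fiberwise_of_maps_to hmem _).symm
      _ ≤ ∑ n ∈ N, (k.factorial : ℝ) * (3 * Real.exp (-y)) := by
          refine Finset.sum_le_sum fun n hn => ?_
          have a1 : ∑ l ∈ S.filter (fun l => l.prod = n), 1 / (l.prod : ℝ) =
              (#(S.filter fun l => l.prod = n) : ℝ) * (1 / (n : ℝ)) := by
            rw [← nsmul_eq_mul]
            refine Finset.sum_eq_card_nsmul fun l hl => ?_
            rw [(Finset.mem_filter.1 hl).2]
          rw [a1]
          have a2 : #(S.filter fun l => l.prod = n) ≤ k.factorial := by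
            refine le_trans (Finset.card_le_card ?_) (card_paths_prod_le PP hPP k n)
            intro l hl
            rw [Finset.mem_filter] at hl ⊢
            exact ⟨(Finset.mem_filter.1 hl.1).1, hl.2⟩
          exact mul_le_mul (by exact_mod_cast a2) (hb n hn) (by positivity) (by positivity)
      _ = (#N : ℝ) * ((k.factorial : ℝ) * (3 * Real.exp (-y))) := by
          rw [Finset.sum_const, nsmul_eq_mul]
      _ ≤ (C * z / Real.log P1) * ((k.factorial : ℝ) * (3 * Real.exp (-y))) :=
          mul_le_mul_of_nonneg_right hcount (by positivity)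
      _ = 6 * C * k.factorial * r / Real.log P1 * (Real.exp y * Real.exp (-y)) := by
          rw [hz]; ring
      _ = 6 * C * k.factorial * r / Real.log P1 := by
          rw [← Real.exp_add, add_neg_cancel, Real.exp_zero, mul_one]

theorem map_om_prod (s : Sys) (l : List (ℕ × ℕ)) :
    (l.map (om s)).prod = ((l.map Prod.fst).map (wt s.PP)).prod *
      ((l.map Prod.snd).map (wt s.PP)).prod := by
  induction l with
  | nil => simp
  | cons i l ih =>
    simp only [List.map_cons, List.prod_cons, ih, om]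
    ring

theorem map_sg_sum {PP : Finset ℕ} (hpos : ∀ p ∈ PP, p ≠ 0) (l : List (ℕ × ℕ))
    (h : ∀ i ∈ l, i.1 ∈ PP ∧ i.2 ∈ PP) :
    (l.map sg).sum = Real.log ((l.map Prod.fst).prod : ℕ) - Real.log ((l.map Prod.snd).prod : ℕ) := by
  induction l with
  | nil => simp
  | cons i l ih =>
    have h1 := ih fun j hj => h j (List.mem_cons_of_mem _ hj)
    have h2 := h i List.mem_cons_self
    have h3 : (l.map Prod.fst).prod ≠ 0 := by
      apply List.prod_ne_zero
      intro h0
      obtain ⟨j, hj, hj0⟩ := List.mem_map.1 h0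
      exact hpos _ (h j (List.mem_cons_of_mem _ hj)).1 hj0
    have h4 : (l.map Prod.snd).prod ≠ 0 := by
      apply List.prod_ne_zero
      intro h0
      obtain ⟨j, hj, hj0⟩ := List.mem_map.1 h0
      exact hpos _ (h j (List.mem_cons_of_mem _ hj)).2 hj0
    simp only [List.map_cons, List.sum_cons, List.prod_cons, Nat.cast_mul]
    rw [Real.log_mul (by exact_mod_cast hpos _ h2.1) (by exact_mod_cast h3),
      Real.log_mul (by exact_mod_cast hpos _ h2.2) (by exact_mod_cast h4), h1]
    unfold sg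
    ring

/-- Row F3. -/
theorem f3 (h : SV1_stmt) : F3_stmt := by
  classical
  intro k hk
  obtain ⟨C, hC, hS⟩ := h
  refine ⟨6 * C * k.factorial, by positivity, ?_⟩
  intro s P1 P2 R hs cell r₃ hr0 hr1 hrP u a
  have hL := hs.one
  have hP1 := hs.P1one
  set φ : List (ℕ × ℕ) → List ℕ × List ℕ := fun l => (l.map Prod.snd, l.map Prod.fst) with hφ
  set G : List ℕ × List ℕ → ℝ := fun x => (x.1.map (wt s.PP)).prod *
    ((x.2.map (wt s.PP)).prod * (if (u + Real.log (x.1.prod : ℕ) - a) - r₃ < Real.log (x.2.prod : ℕ) ∧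
      Real.log (x.2.prod : ℕ) ≤ (u + Real.log (x.1.prod : ℕ) - a) then (1 : ℝ) else 0)) with hG
  have hinj : ∀ l l' : List (ℕ × ℕ), φ l = φ l' → l = l' := by
    intro l l' hll
    have a1 : l.unzip = l'.unzip := by
      rw [hφ] at hll
      simp only [Prod.mk.injEq] at hll
      rw [List.unzip_eq_map, List.unzip_eq_map, hll.1, hll.2]
    rw [← List.zip_unzip l, ← List.zip_unzip l', a1]
  have hmemMv : ∀ l ∈ paths (Mv s cell) k, ∀ i ∈ l, i.1 ∈ s.PP ∧ i.2 ∈ s.PP := by
    intro l hl i hi
    have := mem_Mv_b ((mem_paths_iff.1 hl).2 i hi)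
    exact ⟨this.1, this.2.1⟩
  have hne : ∀ p ∈ s.PP, p ≠ 0 := fun p hp => (hs.prime p hp).ne_zero
  calc ∑ l ∈ paths (Mv s cell) k, (l.map (om s)).prod *
        (if u - (l.map sg).sum ∈ Set.Ico a (a + r₃) then (1 : ℝ) else 0)
      = ∑ l ∈ paths (Mv s cell) k, G (φ l) := by
        refine Finset.sum_congr rfl fun l hl => ?_
        rw [map_om_prod, map_sg_sum hne l (hmemMv l hl)]
        simp only [hG, hφ]
        have : (u - (Real.log ((l.map Prod.fst).prod : ℕ) - Real.log ((l.map Prod.snd).prod : ℕ)) ∈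
            Set.Ico a (a + r₃)) ↔
            ((u + Real.log ((l.map Prod.snd).prod : ℕ) - a) - r₃ < Real.log ((l.map Prod.fst).prod : ℕ) ∧
            Real.log ((l.map Prod.fst).prod : ℕ) ≤ (u + Real.log ((l.map Prod.snd).prod : ℕ) - a)) := by
          rw [Set.mem_Ico]
          constructor
          · rintro ⟨h1, h2⟩; constructor <;> linarith
          · rintro ⟨h1, h2⟩; constructor <;> linarith
        rw [if_congr this rfl rfl]
        ring
    _ = ∑ x ∈ (paths (Mv s cell) k).image φ, G x := by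
        rw [Finset.sum_image]
        intro l _ l' _ hll
        exact hinj l l' hll
    _ ≤ ∑ x ∈ paths s.PP k ×ˢ paths s.PP k, G x := by
        refine Finset.sum_le_sum_of_subset_of_nonneg ?_ ?_
        · intro x hx
          obtain ⟨l, hl, rfl⟩ := Finset.mem_image.1 hx
          have hlen := (mem_paths_iff.1 hl).1
          rw [Finset.mem_product, mem_paths_iff, mem_paths_iff]
          simp only [hφ, List.length_map, hlen, List.mem_map, true_and]
          constructor
          · rintro p ⟨i, hi, rfl⟩; exact (hmemMv l hl i hi).2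
          · rintro p ⟨i, hi, rfl⟩; exact (hmemMv l hl i hi).1
        · intro x _ _
          simp only [hG]
          have a1 := prod_wt_nonneg hL x.1
          have a2 := prod_wt_nonneg hL x.2
          split_ifs
          · positivity
          · simp
    _ = ∑ L2 ∈ paths s.PP k, (L2.map (wt s.PP)).prod * ∑ L1 ∈ paths s.PP k,
          ((L1.map (wt s.PP)).prod * (if (u + Real.log (L2.prod : ℕ) - a) - r₃ < Real.log (L1.prod : ℕ)
            ∧ Real.log (L1.prod : ℕ) ≤ (u + Real.log (L2.prod : ℕ) - a) then (1 : ℝ) else 0)) := by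
        rw [Finset.sum_product]
        refine Finset.sum_congr rfl fun L2 _ => ?_
        rw [Finset.mul_sum]
    _ ≤ ∑ L2 ∈ paths s.PP k, (L2.map (wt s.PP)).prod *
          (6 * C * k.factorial * r₃ / Real.log P1) := by
        refine Finset.sum_le_sum fun L2 _ => ?_
        exact mul_le_mul_of_nonneg_left
          (short_sum hC hS hP1 hs.prime hs.ge hL hk hr0 hr1 hrP _) (prod_wt_nonneg hL L2)
    _ = 6 * C * k.factorial * r₃ / Real.log P1 := by
        rw [← Finset.sum_mul, sum_paths_prod, sum_wt_b hL, one_pow, one_mul]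

end Pool.Agent.SV
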