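import Pool.Agent.Lib.SV.Defs3
import Pool.Agent.Lib.SV.F3

/-!
# Theorem V: row RB2 (Turán–Kubilius over a window of scales).  (helper28)
-/

set_option autoImplicit false
open Finset MeasureTheory

namespace Pool.Agent.SV

open Pool.Agent.Lib.MP_663568_nt Pool.Agent.Lib.MP_663568_nt.Katai
  Pool.Agent.Lib.MP_663568_nt.Nul Pool.Agent.MRL Pool.Agent.MRF Pool.Agent.MRHal

theorem rb2_norm_ee (x : ℝ) : ‖ee x‖ = 1 := by
  have h : (2 * Real.pi * Complex.I * x : ℂ) = ((2 * Real.pi * x : ℝ) : ℂ) * Complex.I := by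
    push_cast; ring
  rw [ee, h, Complex.norm_exp_ofReal_mul_I]

theorem rb2_sum_le (s : Finset ℕ) (c : ℕ → ℕ) (b : ℕ → ℝ) :
    ‖∑ m ∈ s, muC (c m) * ee (b m)‖ ≤ #s := by
  refine (norm_sum_le _ _).trans ?_
  calc ∑ m ∈ s, ‖muC (c m) * ee (b m)‖ ≤ ∑ _m ∈ s, (1 : ℝ) := by
        refine Finset.sum_le_sum fun m _ => ?_
        rw [norm_mul, rb2_norm_ee, mul_one]
        exact norm_muC _
    _ = #s := by simp

theorem vv_nonneg (l y : ℕ) (b : ℝ) : 0 ≤ vv l y b := by unfold vv; positivity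

theorem vv_le_one (l y : ℕ) (b : ℝ) : vv l y b ≤ 1 := by
  unfold vv
  refine div_le_one_of_le₀ ?_ (Nat.cast_nonneg _)
  refine (rb2_sum_le (Icc 1 l) (fun m => y + m) fun m => b * m).trans ?_
  simp

theorem SS_nonneg (X : ℕ) (a : ℕ → ℝ) (u : ℝ) : 0 ≤ SS X a u := by unfold SS; positivity

theorem SS_le_one (X : ℕ) (a : ℕ → ℝ) (u : ℝ) : SS X a u ≤ 1 := by
  unfold SS
  refine div_le_one_of_le₀ ?_ (Nat.cast_nonneg _)
  refine (rb2_sum_le _ (fun m => m) fun m => a ⌊Real.exp u / X⌋₊ * m).trans ?_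
  rw [Nat.card_Ioc, add_mul, one_mul, Nat.add_sub_cancel_left]

theorem rb2_meas_floor (X : ℝ) : Measurable fun u : ℝ => ⌊Real.exp u / X⌋₊ :=
  Nat.measurable_floor.comp (Real.measurable_exp.div_const X)

theorem SS_measurable (X : ℕ) (a : ℕ → ℝ) : Measurable (SS X a) := by
  have h : Measurable fun j : ℕ => ‖∑ m ∈ Ioc (j * X) ((j + 1) * X), muC m * ee (a j * m)‖ / X :=
    measurable_of_countable _
  exact h.comp (rb2_meas_floor X)

theorem W_measurable (l p X : ℕ) (a : ℕ → ℝ) :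
    Measurable fun u : ℝ => vv l ⌊Real.exp u / p⌋₊ (p * a ⌊Real.exp u / X⌋₊) := by
  let F : ℕ × ℕ → ℝ := fun x => vv l x.1 (p * a x.2)
  have h : Measurable F := measurable_of_countable _
  have h2 : Measurable fun u : ℝ => (⌊Real.exp u / (p : ℝ)⌋₊, ⌊Real.exp u / (X : ℝ)⌋₊) :=
    (rb2_meas_floor p).prodMk (rb2_meas_floor X)
  change Measurable (F ∘ fun u : ℝ => (⌊Real.exp u / (p : ℝ)⌋₊, ⌊Real.exp u / (X : ℝ)⌋₊))
  exact h.comp h2

theorem ii_of_bdd {f : ℝ → ℝ} (hm : Measurable f) (h0 : ∀ x, 0 ≤ f x) (h1 : ∀ x, f x ≤ 1)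
    (a b : ℝ) : IntervalIntegrable f volume a b :=
  (intervalIntegrable_const (c := (1 : ℝ))).mono_fun' hm.aestronglyMeasurable
    (Filter.Eventually.of_forall fun x => by
      simp only [Real.norm_of_nonneg (h0 x)]
      exact h1 x)

theorem img_exp_Ioc (a b : ℝ) : Real.exp '' Set.Ioc a b = Set.Ioc (Real.exp a) (Real.exp b) := by
  ext y
  simp only [Set.mem_image, Set.mem_Ioc]
  constructor
  · rintro ⟨x, ⟨h1, h2⟩, rfl⟩
    exact ⟨Real.exp_lt_exp.2 h1, Real.exp_le_exp.2 h2⟩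
  · rintro ⟨h1, h2⟩
    have hy : 0 < y := (Real.exp_pos _).trans h1
    exact ⟨Real.log y, ⟨(Real.lt_log_iff_exp_lt hy).2 h1, (Real.log_le_iff_le_exp hy).2 h2⟩,
      Real.exp_log hy⟩

/-- Substitution on a cell. -/
theorem rb2_subst {f : ℝ → ℝ} (hm : Measurable f) (h0 : ∀ x, 0 ≤ f x) (h1 : ∀ x, f x ≤ 1)
    {a b : ℝ} (hab : a ≤ b) :
    ∫ t in (Real.exp a)..(Real.exp b), f t ≤ Real.exp b * ∫ u in a..b, f (Real.exp u) := by
  rw [intervalIntegral.integral_of_le (Real.exp_le_exp.2 hab), intervalIntegral.integral_of_le hab,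
    ← img_exp_Ioc, integral_image_eq_integral_deriv_smul_of_monotoneOn measurableSet_Ioc
      (fun x _ => (Real.hasDerivAt_exp x).hasDerivWithinAt) (Real.exp_monotone.monotoneOn _),
    ← integral_const_mul]
  have hi : IntegrableOn (fun u => f (Real.exp u)) (Set.Ioc a b) :=
    (intervalIntegrable_iff_integrableOn_Ioc_of_le hab).1
      (ii_of_bdd (hm.comp Real.measurable_exp) (fun x => h0 _) (fun x => h1 _) a b)
  have hi2 : IntegrableOn (fun u => Real.exp u * f (Real.exp u)) (Set.Ioc a b) := by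
    refine Integrable.mono' (hi.const_mul (Real.exp b)) ?_ ?_
    · exact (Real.measurable_exp.mul (hm.comp Real.measurable_exp)).aestronglyMeasurable
    · refine (ae_restrict_iff' measurableSet_Ioc).2 (Filter.Eventually.of_forall fun u hu => ?_)
      rw [Real.norm_of_nonneg (mul_nonneg (Real.exp_pos _).le (h0 _))]
      exact mul_le_mul_of_nonneg_right (Real.exp_le_exp.2 hu.2) (h0 _)
  refine setIntegral_mono_on hi2 (hi.const_mul _) measurableSet_Ioc fun u hu => ?_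
  exact mul_le_mul_of_nonneg_right (Real.exp_le_exp.2 hu.2) (h0 _)

/-- The nodes `log (j X)`. -/
noncomputable def nd' (X j : ℕ) : ℝ := Real.log (j * X)

theorem rb2_floor {X j : ℕ} (hX : 1 ≤ X) (hj : 1 ≤ j) {u : ℝ} (h1 : nd' X j ≤ u)
    (h2 : u < nd' X (j + 1)) : ⌊Real.exp u / X⌋₊ = j := by
  have hX0 : (0 : ℝ) < X := by exact_mod_cast hX
  have hj0 : (0 : ℝ) < j := by exact_mod_cast hj
  unfold nd' at h1 h2
  rw [Real.log_le_iff_le_exp (by positivity)] at h1
  rw [Real.lt_log_iff_exp_lt (by positivity)] at h2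
  rw [Nat.floor_eq_iff (by positivity), le_div_iff₀ hX0, div_lt_iff₀ hX0]
  push_cast at h2
  exact ⟨h1, h2⟩

theorem nd_succ_sub {X j : ℕ} (hX : 1 ≤ X) (hj : 1 ≤ j) :
    nd' X (j + 1) - nd' X j ≤ 1 / j := by
  have hX0 : (0 : ℝ) < X := by exact_mod_cast hX
  have hj0 : (0 : ℝ) < j := by exact_mod_cast hj
  unfold nd'
  rw [← Real.log_div (by positivity) (by positivity)]
  have h1 := Real.log_le_sub_one_of_pos (x := (((j + 1 : ℕ) : ℝ) * X) / (j * X)) (by positivity)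
  refine h1.trans (le_of_eq ?_)
  push_cast
  field_simp
  ring

theorem nd_mono {X i j : ℕ} (hX : 1 ≤ X) (hi : 1 ≤ i) (hij : i ≤ j) : nd' X i ≤ nd' X j := by
  have hX0 : (0 : ℝ) < X := by exact_mod_cast hX
  have hi0 : (0 : ℝ) < i := by exact_mod_cast hi
  unfold nd'
  apply Real.log_le_log (by positivity)
  exact mul_le_mul_of_nonneg_right (by exact_mod_cast hij) hX0.le

theorem rb2_congr {f g : ℝ → ℝ} {a b : ℝ} (hab : a ≤ b) (h : ∀ u, a < u → u < b → f u = g u) :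
    ∫ u in a..b, f u = ∫ u in a..b, g u := by
  refine intervalIntegral.integral_congr_ae ?_
  have h1 : ∀ᵐ x : ℝ, x ≠ b := by simp [ae_iff, measure_singleton]
  filter_upwards [h1] with x hx hx2
  rw [Set.uIoc_of_le hab] at hx2
  exact h x hx2.1 (lt_of_le_of_ne hx2.2 hx)

/-- Row RB2. -/
theorem rb2 : RB2_stmt := by
  classical
  intro hRB e κ₂ κ he he1 hκ₂ hκ₂' hκ
  obtain ⟨κ₁, hκ₁, hκ₁', η, hη, hη1, X₀, hX₀⟩ := hRB (e / 8) κ₂ (by positivity) hκ₂ hκ₂'
  refine ⟨κ₁, hκ₁, hκ₁', η, hη, hη1, max X₀ (max 1 ⌈Real.exp (16 / (e * κ))⌉₊), fun X hX => ?_⟩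
  have hX1 : X₀ ≤ X := (le_max_left _ _).trans hX
  have hX2 : 1 ≤ X := ((le_max_left _ _).trans (le_max_right _ _)).trans hX
  have hX3 : Real.exp (16 / (e * κ)) ≤ X := (Nat.le_ceil _).trans
    (by exact_mod_cast ((le_max_right _ _).trans (le_max_right _ _)).trans hX)
  have hX0 : (0 : ℝ) < X := by exact_mod_cast hX2
  obtain ⟨hL, hmain⟩ := hX₀ X hX1
  refine ⟨hL, fun a ta tb hta htb hint => ?_⟩
  set PP := PPs X κ₁ κ₂ with hPP
  set l := ⌊η * (X : ℝ) ^ (1 - κ₂)⌋₊ with hl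
  have hlogX : 16 / (e * κ) ≤ Real.log X := (Real.le_log_iff_exp_le hX0).2 hX3
  have hlog2 : 8 / e ≤ κ / 2 * Real.log X := by
    have h1 : κ / 2 * (16 / (e * κ)) = 8 / e := by field_simp; ring
    rw [← h1]
    exact mul_le_mul_of_nonneg_left hlogX (by positivity)
  have h8e : 8 ≤ 8 / e := by rw [le_div_iff₀ he]; linarith
  set Λ := tb - ta with hΛ
  have hΛ1 : 1 ≤ Λ := by linarith
  set j0 := ⌊Real.exp ta / X⌋₊ with hj0
  set j1 := ⌊Real.exp tb / X⌋₊ with hj1
  have hx0 : 8 / e + 1 ≤ Real.exp ta / X := by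
    have h1 : Real.exp ta / X = Real.exp (ta - Real.log X) := by
      rw [Real.exp_sub, Real.exp_log hX0]
    rw [h1]
    have h2 := Real.add_one_le_exp (ta - Real.log X)
    linarith
  have hj0' : 8 / e ≤ (j0 : ℝ) := by
    have := Nat.lt_floor_add_one (Real.exp ta / X)
    rw [← hj0] at this
    linarith
  have hj0p : (0 : ℝ) < j0 := by linarith
  have hj0one : 1 ≤ j0 := by
    have : (0 : ℝ) < (j0 : ℝ) := hj0p
    exact_mod_cast this
  have hj0e : 1 / (j0 : ℝ) ≤ e / 8 := by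
    rw [div_le_div_iff₀ hj0p (by norm_num)]
    rw [div_le_iff₀ he] at hj0'
    linarith
  have hj01 : j0 + 1 ≤ j1 := by
    apply Nat.le_floor
    have h1 : (j0 : ℝ) ≤ Real.exp ta / X := Nat.floor_le (by positivity)
    have h2 : Real.exp tb / X = Real.exp ta / X * Real.exp Λ := by
      rw [hΛ, Real.exp_sub]; field_simp
    have h3 := Real.add_one_le_exp Λ
    have h4 : Real.exp ta / X * 2 ≤ Real.exp tb / X := by
      rw [h2]
      exact mul_le_mul_of_nonneg_left (by linarith) (by positivity)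
    push_cast
    linarith
  have hj1one : 1 ≤ j1 := by omega
  -- the nodes
  have n1 : nd' X j0 ≤ ta := by
    unfold nd'
    rw [Real.log_le_iff_le_exp (by positivity), ← le_div_iff₀ hX0]
    exact Nat.floor_le (by positivity)
  have n2 : ta ≤ nd' X (j0 + 1) := by
    unfold nd'
    rw [Real.le_log_iff_exp_le (by positivity), ← div_le_iff₀ hX0]
    push_cast
    exact (Nat.lt_floor_add_one _).le
  have hj1p : (0 : ℝ) < j1 := by exact_mod_cast hj1one
  have n3 : nd' X j1 ≤ tb := by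
    unfold nd'
    rw [Real.log_le_iff_le_exp (by positivity), ← le_div_iff₀ hX0]
    exact Nat.floor_le (by positivity)
  have n4 : tb ≤ nd' X (j1 + 1) := by
    unfold nd'
    rw [Real.le_log_iff_exp_le (by positivity), ← div_le_iff₀ hX0]
    push_cast
    exact (Nat.lt_floor_add_one _).le
  have n5 : nd' X (j0 + 1) ≤ nd' X j1 := nd_mono hX2 (by omega) hj01
  set V : ℝ → ℝ := SS X a with hV
  set W : ℕ → ℝ → ℝ := fun p u => vv l ⌊Real.exp u / p⌋₊ (p * a ⌊Real.exp u / X⌋₊) with hW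
  have iV : ∀ x y, IntervalIntegrable V volume x y :=
    ii_of_bdd (SS_measurable X a) (SS_nonneg X a) (SS_le_one X a)
  have iW : ∀ p x y, IntervalIntegrable (W p) volume x y := fun p =>
    ii_of_bdd (W_measurable l p X a) (fun u => vv_nonneg _ _ _) (fun u => vv_le_one _ _ _)
  have hwt : ∀ p, 0 ≤ wt PP p := wt_nonneg_b hL
  -- one cell
  have hcell : ∀ j, j0 + 1 ≤ j → ∫ u in (nd' X j)..(nd' X (j + 1)), V u ≤
      (1 + 1 / (j0 : ℝ)) * ∑ p ∈ PP, wt PP p * (∫ u in (nd' X j)..(nd' X (j + 1)), W p u) +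
      e / 8 * (nd' X (j + 1) - nd' X j) := by
    intro j hj
    have hj' : 1 ≤ j := by omega
    have hjp : (0 : ℝ) < j := by exact_mod_cast hj'
    have hle : nd' X j ≤ nd' X (j + 1) := nd_mono hX2 hj' (Nat.le_succ j)
    set c := ‖∑ m ∈ Ioc (j * X) ((j + 1) * X), muC m * ee (a j * m)‖ / X with hc
    have e1 : ∫ u in (nd' X j)..(nd' X (j + 1)), V u = c * (nd' X (j + 1) - nd' X j) := by
      rw [rb2_congr hle (g := fun _ => c)]
      · rw [intervalIntegral.integral_const, smul_eq_mul, mul_comm]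
      · intro u h1 h2
        rw [hV, SS, rb2_floor hX2 hj' h1.le h2]
    have h1 := hmain (j * X) (a j)
    have e2 : j * X + X = (j + 1) * X := by ring
    rw [e2] at h1
    rw [← hc] at h1
    have hexp1 : Real.exp (nd' X j) = j * X := by
      unfold nd'; rw [Real.exp_log (by positivity)]
    have hexp2 : Real.exp (nd' X (j + 1)) = ((j + 1 : ℕ) : ℝ) * X := by
      unfold nd'; rw [Real.exp_log (by positivity)]
    have h2 : ∀ p ∈ PP, wt PP p * (1 / X * ∫ t in ((j * X : ℕ) : ℝ)..(((j * X : ℕ) : ℝ) + X),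
        vv l ⌊t / p⌋₊ (p * a j)) ≤
        (j + 1) * (wt PP p * ∫ u in (nd' X j)..(nd' X (j + 1)), W p u) := by
      intro p _
      have e3 : ((j * X : ℕ) : ℝ) = Real.exp (nd' X j) := by rw [hexp1]; push_cast; ring
      have e4 : ((j * X : ℕ) : ℝ) + X = Real.exp (nd' X (j + 1)) := by
        rw [hexp2]; push_cast; ring
      have hm : Measurable fun t : ℝ => vv l ⌊t / p⌋₊ (p * a j) := by
        have h : Measurable fun n : ℕ => vv l n (p * a j) := measurable_of_countable _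
        exact h.comp (Nat.measurable_floor.comp (measurable_id.div_const (p : ℝ)))
      have h3 := rb2_subst hm (fun x => vv_nonneg _ _ _) (fun x => vv_le_one _ _ _) hle
      rw [← e4, ← e3] at h3
      have e5 : ∫ u in (nd' X j)..(nd' X (j + 1)), vv l ⌊Real.exp u / p⌋₊ (p * a j) =
          ∫ u in (nd' X j)..(nd' X (j + 1)), W p u := by
        refine rb2_congr hle fun u h1 h2 => ?_
        rw [hW]
        simp only
        rw [rb2_floor hX2 hj' h1.le h2]
      rw [e5] at h3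
      have h4 : 1 / (X : ℝ) * (∫ t in ((j * X : ℕ) : ℝ)..(((j * X : ℕ) : ℝ) + X),
          vv l ⌊t / p⌋₊ (p * a j)) ≤ (j + 1) * ∫ u in (nd' X j)..(nd' X (j + 1)), W p u := by
        rw [one_div_mul_eq_div, div_le_iff₀ hX0]
        refine h3.trans (le_of_eq ?_)
        push_cast
        ring
      calc _ ≤ wt PP p * ((j + 1) * ∫ u in (nd' X j)..(nd' X (j + 1)), W p u) :=
            mul_le_mul_of_nonneg_left h4 (hwt p)
        _ = _ := by ring
    set D := nd' X (j + 1) - nd' X j with hD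
    have hD0 : 0 ≤ D := by rw [hD]; linarith
    have hD1 : D ≤ 1 / j := nd_succ_sub hX2 hj'
    set Sg := ∑ p ∈ PP, wt PP p * (∫ u in (nd' X j)..(nd' X (j + 1)), W p u) with hSg
    have hSg0 : 0 ≤ Sg := Finset.sum_nonneg fun p _ => mul_nonneg (hwt p)
      (intervalIntegral.integral_nonneg hle fun u _ => vv_nonneg _ _ _)
    have h3 : c ≤ (j + 1) * Sg + e / 8 := by
      refine h1.trans (add_le_add ?_ le_rfl)
      rw [hSg, Finset.mul_sum]
      exact Finset.sum_le_sum h2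
    rw [e1]
    have h4 : c * D ≤ ((j + 1) * Sg + e / 8) * D := mul_le_mul_of_nonneg_right h3 hD0
    have h5 : ((j : ℝ) + 1) * D ≤ 1 + 1 / (j0 : ℝ) := by
      have h6 : ((j : ℝ) + 1) * D ≤ (j + 1) * (1 / j) :=
        mul_le_mul_of_nonneg_left hD1 (by positivity)
      have h7 : ((j : ℝ) + 1) * (1 / j) = 1 + 1 / j := by field_simp
      have h8 : 1 / (j : ℝ) ≤ 1 / j0 := one_div_le_one_div_of_le hj0p
        (by exact_mod_cast (by omega : j0 ≤ j))
      linarith
    have h6 := mul_le_mul_of_nonneg_right h5 hSg0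
    nlinarith
  -- the sum over the cells
  have hmid : ∫ u in (nd' X (j0 + 1))..(nd' X j1), V u ≤
      (1 + 1 / (j0 : ℝ)) * ∑ p ∈ PP, wt PP p * (∫ u in (nd' X (j0 + 1))..(nd' X j1), W p u) +
      e / 8 * (nd' X j1 - nd' X (j0 + 1)) := by
    rw [← intervalIntegral.sum_integral_adjacent_intervals_Ico (a := nd' X) hj01
      (fun k _ => iV _ _)]
    have e1 : ∀ p, ∫ u in (nd' X (j0 + 1))..(nd' X j1), W p u =
        ∑ j ∈ Ico (j0 + 1) j1, ∫ u in (nd' X j)..(nd' X (j + 1)), W p u := fun p =>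
      (intervalIntegral.sum_integral_adjacent_intervals_Ico (a := nd' X) hj01
        (fun k _ => iW p _ _)).symm
    have e2 : nd' X j1 - nd' X (j0 + 1) = ∑ j ∈ Ico (j0 + 1) j1, (nd' X (j + 1) - nd' X j) :=
      (Finset.sum_Ico_sub (nd' X) hj01).symm
    simp only [e1]
    rw [e2, Finset.mul_sum (Ico (j0 + 1) j1)]
    have e3 : ∑ p ∈ PP, wt PP p * ∑ j ∈ Ico (j0 + 1) j1,
        (∫ u in (nd' X j)..(nd' X (j + 1)), W p u) = ∑ j ∈ Ico (j0 + 1) j1, ∑ p ∈ PP,
        wt PP p * (∫ u in (nd' X j)..(nd' X (j + 1)), W p u) := by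
      simp only [Finset.mul_sum]
      rw [Finset.sum_comm]
    rw [e3, Finset.mul_sum (Ico (j0 + 1) j1), ← Finset.sum_add_distrib]
    exact Finset.sum_le_sum fun j hj => hcell j (Finset.mem_Ico.1 hj).1
  -- the ends
  have hsplit : ∫ u in ta..tb, V u = (∫ u in ta..(nd' X (j0 + 1)), V u) +
      (∫ u in (nd' X (j0 + 1))..(nd' X j1), V u) + ∫ u in (nd' X j1)..tb, V u := by
    rw [intervalIntegral.integral_add_adjacent_intervals (iV _ _) (iV _ _),
      intervalIntegral.integral_add_adjacent_intervals (iV _ _) (iV _ _)]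
  have hend : ∀ x y : ℝ, x ≤ y → ∫ u in x..y, V u ≤ y - x := by
    intro x y hxy
    have h1 : ∫ u in x..y, V u ≤ ∫ _u in x..y, (1 : ℝ) :=
      intervalIntegral.integral_mono_on hxy (iV _ _) intervalIntegrable_const
        (fun u _ => SS_le_one X a u)
    simpa using h1
  have hendW : ∀ p, ∀ x y : ℝ, x ≤ y → ∫ u in x..y, W p u ≤ y - x := by
    intro p x y hxy
    have h1 : ∫ u in x..y, W p u ≤ ∫ _u in x..y, (1 : ℝ) :=
      intervalIntegral.integral_mono_on hxy (iW _ _ _) intervalIntegrable_const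
        (fun u _ => vv_le_one _ _ _)
    simpa using h1
  have h1 := hend ta (nd' X (j0 + 1)) n2
  have h2 := hend (nd' X j1) tb n3
  have h3 := nd_succ_sub hX2 hj0one
  have h4 := nd_succ_sub hX2 hj1one
  have h5 : 1 / (j1 : ℝ) ≤ 1 / j0 := one_div_le_one_div_of_le hj0p
    (by exact_mod_cast (by omega : j0 ≤ j1))
  set S := ∑ p ∈ PP, wt PP p * ∫ u in ta..tb, W p u with hS
  have hmono : ∑ p ∈ PP, wt PP p * (∫ u in (nd' X (j0 + 1))..(nd' X j1), W p u) ≤ S := by
    refine Finset.sum_le_sum fun p _ => mul_le_mul_of_nonneg_left ?_ (hwt p)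
    exact intervalIntegral.integral_mono_interval n2 n5 n3
      (Filter.Eventually.of_forall fun u => vv_nonneg _ _ _) (iW p _ _)
  have hS1 : S ≤ Λ := by
    calc S ≤ ∑ p ∈ PP, wt PP p * Λ := Finset.sum_le_sum fun p _ =>
          mul_le_mul_of_nonneg_left (hendW p ta tb (by linarith)) (hwt p)
      _ = Λ := by rw [← Finset.sum_mul, sum_wt_b hL, one_mul]
  have hS0 : 0 ≤ S := Finset.sum_nonneg fun p _ => mul_nonneg (hwt p)
    (intervalIntegral.integral_nonneg (by linarith) fun u _ => vv_nonneg _ _ _)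
  have hj0i : 0 ≤ 1 / (j0 : ℝ) := by positivity
  have h6 : (1 + 1 / (j0 : ℝ)) * ∑ p ∈ PP, wt PP p *
      (∫ u in (nd' X (j0 + 1))..(nd' X j1), W p u) ≤ (1 + 1 / (j0 : ℝ)) * S :=
    mul_le_mul_of_nonneg_left hmono (by linarith)
  have h7 : 1 / (j0 : ℝ) * S ≤ e / 8 * Λ := mul_le_mul hj0e hS1 hS0 (by positivity)
  have h8 : e / 8 * (nd' X j1 - nd' X (j0 + 1)) ≤ e / 8 * Λ :=
    mul_le_mul_of_nonneg_left (by linarith) (by positivity)
  have h9 : e / 8 ≤ e / 8 * Λ := le_mul_of_one_le_right (by positivity) hΛ1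
  rw [hsplit] at hint
  change e / 2 * Λ ≤ S
  nlinarith

end Pool.Agent.SV
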