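import Mathlib
import Pool.Agent.Lib.SV.TFDefs2

/-!
# Row S3: a window around `e ^ u / p` contains no step, for most `u`

helper15.
-/

set_option autoImplicit false
open Finset MeasureTheory

namespace Pool.Agent.SV

namespace S3x

lemma exists_change (T : ℕ → Set ℝ) (a b : ℕ) (hab : a ≤ b) (hne : T a ≠ T b) :
    ∃ n, a ≤ n ∧ n < b ∧ T (n + 1) ≠ T n := by
  by_contra h
  push Not at h
  refine hne ?_
  have h1 : ∀ m, a ≤ m → m ≤ b → T a = T m := by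
    intro m hm
    induction m, hm using Nat.le_induction with
    | base => intro _; rfl
    | succ m hm ih =>
      intro h2
      rw [ih (by omega), h m hm (by omega)]
  exact h1 b hab le_rfl

open Classical in
lemma harm (T : ℕ → Set ℝ) (K : ℝ) (hT : Slow T K) (j i : ℕ) :
    ∑ n ∈ (Ico (2 ^ j) (2 ^ (j + i))).filter (fun n => T (n + 1) ≠ T n), (1 / (n : ℝ)) ≤
      K * (2 / 2 ^ j - 2 / 2 ^ (j + i)) := by
  induction i with
  | zero => simp
  | succ i ih =>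
    have h1 : (2 : ℕ) ^ j ≤ 2 ^ (j + i) := Nat.pow_le_pow_right (by norm_num) (by omega)
    have h2 : (2 : ℕ) ^ (j + i) ≤ 2 ^ (j + (i + 1)) := Nat.pow_le_pow_right (by norm_num) (by omega)
    rw [← Ico_union_Ico_eq_Ico h1 h2, filter_union, sum_union]
    · have h3 : ∑ n ∈ (Ico (2 ^ (j + i)) (2 ^ (j + (i + 1)))).filter (fun n => T (n + 1) ≠ T n),
          (1 / (n : ℝ)) ≤ K * (1 / 2 ^ (j + i)) := by
        calc _ ≤ ∑ n ∈ (Ico (2 ^ (j + i)) (2 ^ (j + (i + 1)))).filter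
              (fun n => T (n + 1) ≠ T n), (1 / (2 : ℝ) ^ (j + i)) := by
              refine sum_le_sum fun n hn => ?_
              rw [mem_filter, mem_Ico] at hn
              refine one_div_le_one_div_of_le (by positivity) ?_
              exact_mod_cast hn.1.1
          _ = (#((Ico (2 ^ (j + i)) (2 ^ (j + (i + 1)))).filter
              (fun n => T (n + 1) ≠ T n)) : ℝ) * (1 / (2 : ℝ) ^ (j + i)) := by
              rw [sum_const, nsmul_eq_mul]
          _ ≤ K * (1 / 2 ^ (j + i)) := by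
              refine mul_le_mul_of_nonneg_right ?_ (by positivity)
              exact hT (j + i)
      have h4 : K * (2 / 2 ^ j - 2 / 2 ^ (j + (i + 1))) =
          K * (2 / 2 ^ j - 2 / 2 ^ (j + i)) + K * (1 / 2 ^ (j + i)) := by
        rw [← add_assoc, pow_succ (2 : ℝ) (j + i)]
        field_simp
        ring
      rw [h4]
      exact add_le_add ih h3
    · refine disjoint_filter_filter ?_
      rw [disjoint_left]
      intro x hx hy
      rw [mem_Ico] at hx hy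
      omega

/-- A change point near `e ^ u / p`. -/
lemma near (T : ℕ → Set ℝ) (p X : ℕ) (hp : 1 ≤ p) (hX : 1 ≤ X) (u t : ℝ)
    (h1 : (⌊Real.exp u⌋₊ : ℝ) ≤ t) (h2 : t ≤ ⌊Real.exp u⌋₊ + X)
    (hne : T ⌊t / p⌋₊ ≠ T ⌊Real.exp u / p⌋₊) :
    ∃ n : ℕ, T (n + 1) ≠ T n ∧ (p : ℝ) * n - X < Real.exp u ∧ Real.exp u < p * n + 2 * p := by
  have hpr : (0 : ℝ) < p := by exact_mod_cast hp
  have hpr1 : (1 : ℝ) ≤ p := by exact_mod_cast hp
  have hXr : (1 : ℝ) ≤ X := by exact_mod_cast hX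
  have he : 0 < Real.exp u := Real.exp_pos u
  have h3 : Real.exp u < ⌊Real.exp u⌋₊ + 1 := Nat.lt_floor_add_one _
  have h4 : (⌊Real.exp u⌋₊ : ℝ) ≤ Real.exp u := Nat.floor_le he.le
  have ht0 : 0 ≤ t := le_trans (Nat.cast_nonneg _) h1
  have f1 : ((⌊t / p⌋₊ : ℕ) : ℝ) ≤ t / p := Nat.floor_le (by positivity)
  have f2 : t / p < (⌊t / p⌋₊ : ℕ) + 1 := Nat.lt_floor_add_one _
  have f3 : ((⌊Real.exp u / p⌋₊ : ℕ) : ℝ) ≤ Real.exp u / p := Nat.floor_le (by positivity)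
  have f4 : Real.exp u / p < (⌊Real.exp u / p⌋₊ : ℕ) + 1 := Nat.lt_floor_add_one _
  rw [le_div_iff₀ hpr] at f1 f3
  rw [div_lt_iff₀ hpr] at f2 f4
  rcases le_total ⌊t / p⌋₊ ⌊Real.exp u / p⌋₊ with h | h
  · obtain ⟨n, ha, hb, hn⟩ := exists_change T _ _ h hne
    refine ⟨n, hn, ?_, ?_⟩
    · have h5 : ((n : ℕ) : ℝ) ≤ ⌊Real.exp u / p⌋₊ := by exact_mod_cast hb.le
      have h6 : (p : ℝ) * n ≤ p * ⌊Real.exp u / p⌋₊ := by gcongr
      nlinarith
    · have h5 : ((⌊t / p⌋₊ : ℕ) : ℝ) ≤ n := by exact_mod_cast ha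
      have h6 : (p : ℝ) * ⌊t / p⌋₊ ≤ p * n := by gcongr
      nlinarith
  · obtain ⟨n, ha, hb, hn⟩ := exists_change T _ _ h hne.symm
    refine ⟨n, hn, ?_, ?_⟩
    · have h5 : ((n + 1 : ℕ) : ℝ) ≤ ⌊t / p⌋₊ := by exact_mod_cast hb
      have h6 : (p : ℝ) * ((n + 1 : ℕ) : ℝ) ≤ p * ⌊t / p⌋₊ := by gcongr
      push_cast at h6
      nlinarith
    · have h5 : ((⌊Real.exp u / p⌋₊ : ℕ) : ℝ) ≤ n := by exact_mod_cast ha
      have h6 : (p : ℝ) * ⌊Real.exp u / p⌋₊ ≤ p * n := by gcongr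
      nlinarith

end S3x

open S3x

theorem s3 : S3' := by
  classical
  intro A ε hA hε
  obtain ⟨H₁, hH₁⟩ := exists_nat_ge (48 / ε)
  refine ⟨max H₁ 2, fun H N X p hH hX1 hXH hp1 hpH hN T hT => ?_⟩
  have hH2 : 2 ≤ H := (le_max_right _ _).trans hH
  have hH1 : H₁ ≤ H := (le_max_left _ _).trans hH
  have hHr : (2 : ℝ) ≤ H := by exact_mod_cast hH2
  have hH0 : (0 : ℝ) < H := by linarith
  have hpr : (0 : ℝ) < p := by exact_mod_cast hp1
  have hpr1 : (1 : ℝ) ≤ p := by exact_mod_cast hp1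
  have hpHr : (p : ℝ) ≤ H := by exact_mod_cast hpH
  have hXr : (1 : ℝ) ≤ X := by exact_mod_cast hX1
  have hXHr : (X : ℝ) ≤ H := by exact_mod_cast hXH
  obtain ⟨B, hB⟩ : ∃ B, B = (H : ℝ) ^ (A + 4) := ⟨_, rfl⟩
  obtain ⟨hA0, hA0d⟩ : ∃ C, C = (H : ℝ) ^ A := ⟨_, rfl⟩
  have hA01 : 1 ≤ hA0 := by rw [hA0d]; exact Real.one_le_rpow (by linarith) hA
  have hBA : B = hA0 * (H : ℝ) ^ 4 := by
    rw [hB, hA0d, Real.rpow_add hH0]
    norm_num
  have hH4 : (8 : ℝ) * H ≤ (H : ℝ) ^ 4 := by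
    have : (8 : ℝ) ≤ (H : ℝ) ^ 3 := by
      calc (8 : ℝ) = 2 ^ 3 := by norm_num
        _ ≤ (H : ℝ) ^ 3 := by gcongr
    nlinarith
  have hB8 : 8 * H ≤ B := by
    rw [hBA]
    nlinarith [pow_pos hH0 4]
  obtain ⟨ν, hν⟩ : ∃ ν, ν = B / (2 * p) := ⟨_, rfl⟩
  have hν4 : 4 ≤ ν := by
    rw [hν, le_div_iff₀ (by positivity)]
    nlinarith
  obtain ⟨j, hj⟩ : ∃ j, j = Nat.log 2 ⌊ν⌋₊ := ⟨_, rfl⟩
  have hfl : 1 ≤ ⌊ν⌋₊ := Nat.one_le_floor_iff _ |>.2 (by linarith)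
  have hj1 : 2 ^ j ≤ ⌊ν⌋₊ := by rw [hj]; exact Nat.pow_log_le_self 2 (by omega)
  have hj2 : ⌊ν⌋₊ < 2 ^ (j + 1) := by rw [hj]; exact Nat.lt_pow_succ_log_self (by norm_num) _
  have hj3 : ν < 2 * (2 : ℝ) ^ j := by
    have h1 : ((⌊ν⌋₊ + 1 : ℕ) : ℝ) ≤ ((2 ^ (j + 1) : ℕ) : ℝ) := by exact_mod_cast hj2
    have h2 : ν < ⌊ν⌋₊ + 1 := Nat.lt_floor_add_one _
    push_cast at h1
    rw [pow_succ] at h1
    linarith
  obtain ⟨i, hi⟩ : ∃ i : ℕ, i = N + H := ⟨_, rfl⟩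
  obtain ⟨C, hC⟩ : ∃ C, C = (Ico (2 ^ j) (2 ^ (j + i))).filter (fun n => T (n + 1) ≠ T n) :=
    ⟨_, rfl⟩
  have hsub : {u : ℝ | (A + 4) * Real.log H ≤ u ∧ u ≤ Real.log N ∧ ∃ t : ℝ,
      (⌊Real.exp u⌋₊ : ℝ) ≤ t ∧ t ≤ ⌊Real.exp u⌋₊ + X ∧ T ⌊t / p⌋₊ ≠ T ⌊Real.exp u / p⌋₊} ⊆
      ⋃ n ∈ C, Set.Ioo (Real.log (p * n - X)) (Real.log (p * n + 2 * p)) := by
    rintro u ⟨hu1, hu2, t, ht1, ht2, hne⟩
    obtain ⟨n, hn, hn1, hn2⟩ := near T p X hp1 hX1 u t ht1 ht2 hne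
    have hBu : B ≤ Real.exp u := by
      rw [hB, Real.rpow_def_of_pos hH0, mul_comm]
      exact Real.exp_le_exp.2 hu1
    have hN0 : (0 : ℝ) < N := lt_of_lt_of_le (by rw [← hB]; linarith) hN
    have huN : Real.exp u ≤ N := by
      rw [← Real.exp_log hN0]
      exact Real.exp_le_exp.2 hu2
    have hpn : B / 2 < p * n := by linarith
    have hnν : ν < n := by
      rw [hν, div_lt_iff₀ (by positivity)]
      linarith
    have hnj : 2 ^ j ≤ n := by
      have : (⌊ν⌋₊ : ℝ) ≤ n := (Nat.floor_le (by linarith)).trans hnν.le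
      exact hj1.trans (by exact_mod_cast this)
    have hnN : n < N + H := by
      have h1 : (n : ℝ) ≤ p * n := le_mul_of_one_le_left (Nat.cast_nonneg _) hpr1
      have h2 : (n : ℝ) < ((N + H : ℕ) : ℝ) := by
        push_cast
        linarith
      exact_mod_cast h2
    have hni : n < 2 ^ (j + i) := by
      have h1 : N + H < 2 ^ (N + H) := Nat.lt_two_pow_self
      have h2 : 2 ^ (N + H) ≤ 2 ^ (j + i) := Nat.pow_le_pow_right (by norm_num) (by omega)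
      omega
    rw [Set.mem_iUnion₂]
    refine ⟨n, ?_, ?_, ?_⟩
    · rw [hC, mem_filter, mem_Ico]
      exact ⟨⟨hnj, hni⟩, hn⟩
    · rw [Real.log_lt_iff_lt_exp (by linarith)]
      exact hn1
    · rw [Real.lt_log_iff_exp_lt (by linarith)]
      exact hn2
  refine (measure_mono hsub).trans ((measure_biUnion_finset_le _ _).trans ?_)
  have hlen : ∀ n ∈ C, volume (Set.Ioo (Real.log (p * n - X)) (Real.log (p * n + 2 * p))) ≤
      ENNReal.ofReal (6 * H / p * (1 / (n : ℝ))) := by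
    intro n hn
    rw [Real.volume_Ioo]
    refine ENNReal.ofReal_le_ofReal ?_
    rw [hC, mem_filter, mem_Ico] at hn
    have h1 : ν / 2 < n := by
      have : ((2 ^ j : ℕ) : ℝ) ≤ n := by exact_mod_cast hn.1.1
      push_cast at this
      linarith
    have hpn : B / 4 < p * n := by
      have h2 : p * (ν / 2) < p * n := by gcongr
      have h3 : (p : ℝ) * (ν / 2) = B / 4 := by
        rw [hν]; field_simp; ring
      linarith
    have hn0 : (0 : ℝ) < n := by linarith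
    have ha : (0 : ℝ) < p * n - X := by linarith
    have hb : (0 : ℝ) < p * n + 2 * p := by positivity
    rw [← Real.log_div hb.ne' ha.ne']
    refine (Real.log_le_sub_one_of_pos (by positivity)).trans ?_
    have h4 : ((p : ℝ) * n + 2 * p) / (p * n - X) - 1 = (2 * p + X) / (p * n - X) := by
      field_simp
      ring
    rw [h4]
    have h5 : 6 * (H : ℝ) / p * (1 / n) = 3 * H / (p * n / 2) := by
      field_simp
      ring
    rw [h5]
    have h6 : (p : ℝ) * n / 2 ≤ p * n - X := by linarith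
    gcongr
    linarith
  refine (sum_le_sum hlen).trans ?_
  rw [← ENNReal.ofReal_sum_of_nonneg fun n _ => by positivity]
  refine ENNReal.ofReal_le_ofReal ?_
  rw [← mul_sum]
  have h1 := harm T _ hT j i
  have h2 : ∑ n ∈ C, (1 / (n : ℝ)) ≤ hA0 * (2 / 2 ^ j) := by
    rw [hC]
    refine h1.trans ?_
    rw [← hA0d]
    have : (0 : ℝ) ≤ 2 / 2 ^ (j + i) := by positivity
    have hA00 : 0 ≤ hA0 := by linarith
    nlinarith
  have h3 : 2 / (2 : ℝ) ^ j ≤ 8 * p / B := by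
    have hB0 : 0 < B := by linarith
    rw [div_le_div_iff₀ (by positivity) hB0]
    rw [hν, div_lt_iff₀ (by positivity)] at hj3
    nlinarith
  have hH3 : 48 / (H : ℝ) ^ 3 ≤ ε := by
    rw [div_le_iff₀ (by positivity)]
    rw [div_le_iff₀ hε] at hH₁
    have h4 : (H₁ : ℝ) ≤ H := by exact_mod_cast hH1
    have h5 : (H : ℝ) ≤ (H : ℝ) ^ 3 := by
      have : (1 : ℝ) ≤ (H : ℝ) ^ 2 := one_le_pow₀ (by linarith)
      nlinarith
    nlinarith
  calc 6 * (H : ℝ) / p * ∑ n ∈ C, (1 / (n : ℝ)) ≤ 6 * H / p * (hA0 * (8 * p / B)) := by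
        refine mul_le_mul_of_nonneg_left (h2.trans ?_) (by positivity)
        exact mul_le_mul_of_nonneg_left h3 (by linarith)
    _ = 48 / (H : ℝ) ^ 3 := by
        rw [hBA]
        have : hA0 ≠ 0 := by linarith
        field_simp
        ring
    _ ≤ ε := hH3

end Pool.Agent.SV
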