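import Mathlib
import Pool.Agent.Lib.SV.TFDefs2
import Pool.Agent.Lib.SV.S3
import Pool.Agent.Lib.SV.RB2

/-!
# Theorem TF (MP_663568_nt), row S2: means over the cells and over the integers (helper60)
-/

set_option autoImplicit false
open Finset MeasureTheory

namespace Pool.Agent.SV

open Pool.Agent.Lib.MP_663568_nt Pool.Agent.Lib.MP_663568_nt.Katai
  Pool.Agent.Lib.MP_663568_nt.Nul

namespace S2x

open S3x

theorem meas_floor (X : ℝ) : Measurable fun u : ℝ => ⌊Real.exp u / X⌋₊ :=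
  Nat.measurable_floor.comp (Real.measurable_exp.div_const X)

theorem meas_floor' : Measurable fun u : ℝ => ⌊Real.exp u⌋₊ :=
  Nat.measurable_floor.comp Real.measurable_exp

theorem ii_of_bdd' {f : ℝ → ℝ} (hm : Measurable f) (h0 : ∀ x, 0 ≤ f x) (h1 : ∀ x, f x ≤ 1)
    (a b : ℝ) : IntervalIntegrable f volume a b :=
  (intervalIntegrable_const (c := (1 : ℝ))).mono_fun' hm.aestronglyMeasurable
    (Filter.Eventually.of_forall fun x => by
      simp only [Real.norm_of_nonneg (h0 x)]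
      exact h1 x)

theorem int_floor (g : ℕ → ℝ) (h0 : ∀ n, 0 ≤ g n) (h1 : ∀ n, g n ≤ 1) (N : ℕ) (hN : 1 ≤ N) :
    ∫ u in (0 : ℝ)..(Real.log N), g ⌊Real.exp u⌋₊ ≤ ∑ n ∈ Ico 1 N, (1 / (n : ℝ)) * g n := by
  have hm : Measurable fun u : ℝ => g ⌊Real.exp u⌋₊ := measurable_from_top.comp meas_floor'
  have hii := fun a b => ii_of_bdd' hm (fun x => h0 _) (fun x => h1 _) a b
  induction N, hN using Nat.le_induction with
  | base => simp
  | succ N hN ih =>
    have hN0 : (0 : ℝ) < N := by exact_mod_cast hN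
    rw [← intervalIntegral.integral_add_adjacent_intervals (hii _ (Real.log N)) (hii _ _),
      sum_Ico_succ_top hN]
    refine add_le_add ih ?_
    have hle : Real.log N ≤ Real.log ((N + 1 : ℕ) : ℝ) :=
      Real.log_le_log hN0 (by push_cast; linarith)
    have h2 : ∫ u in (Real.log N)..(Real.log ((N + 1 : ℕ) : ℝ)), g ⌊Real.exp u⌋₊ =
        ∫ u in (Real.log N)..(Real.log ((N + 1 : ℕ) : ℝ)), g N := by
      refine intervalIntegral.integral_congr_ae ?_
      have h3 : ∀ᵐ x : ℝ, x ≠ Real.log ((N + 1 : ℕ) : ℝ) := by simp [ae_iff, measure_singleton]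
      filter_upwards [h3] with x hx hx2
      rw [Set.uIoc_of_le hle] at hx2
      have h4 : x < Real.log ((N + 1 : ℕ) : ℝ) := lt_of_le_of_ne hx2.2 hx
      have h5 : ⌊Real.exp x⌋₊ = N := by
        rw [Nat.floor_eq_iff (Real.exp_pos x).le]
        constructor
        · rw [← Real.log_le_iff_le_exp hN0]
          exact hx2.1.le
        · rw [Real.lt_log_iff_exp_lt (by positivity)] at h4
          push_cast at h4
          exact h4
      rw [h5]
    rw [h2, intervalIntegral.integral_const, smul_eq_mul]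
    refine mul_le_mul_of_nonneg_right ?_ (h0 N)
    rw [← Real.log_div (by positivity) hN0.ne']
    refine (Real.log_le_sub_one_of_pos (by positivity)).trans (le_of_eq ?_)
    push_cast
    field_simp
    ring

/-- A change point below `e ^ u` in the cell. -/
lemma near (T : ℕ → Set ℝ) (X : ℕ) (hX : 1 ≤ X) (u : ℝ)
    (hne : T (⌊Real.exp u / X⌋₊ * X) ≠ T ⌊Real.exp u⌋₊) :
    ∃ n : ℕ, T (n + 1) ≠ T n ∧ (n : ℝ) < Real.exp u ∧ Real.exp u < n + X := by
  have hXr : (0 : ℝ) < X := by exact_mod_cast hX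
  have he : 0 < Real.exp u := Real.exp_pos u
  have f1 : ((⌊Real.exp u / X⌋₊ : ℕ) : ℝ) ≤ Real.exp u / X := Nat.floor_le (by positivity)
  have f2 : Real.exp u / X < (⌊Real.exp u / X⌋₊ : ℕ) + 1 := Nat.lt_floor_add_one _
  rw [le_div_iff₀ hXr] at f1
  rw [div_lt_iff₀ hXr] at f2
  have h : ⌊Real.exp u / X⌋₊ * X ≤ ⌊Real.exp u⌋₊ := by
    refine Nat.le_floor ?_
    push_cast
    exact f1
  obtain ⟨n, ha, hb, hn⟩ := exists_change T _ _ h hne
  refine ⟨n, hn, ?_, ?_⟩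
  · have h4 : (⌊Real.exp u⌋₊ : ℝ) ≤ Real.exp u := Nat.floor_le he.le
    have h5 : (n : ℝ) < ⌊Real.exp u⌋₊ := by exact_mod_cast hb
    linarith
  · have h5 : ((⌊Real.exp u / X⌋₊ * X : ℕ) : ℝ) ≤ n := by exact_mod_cast ha
    push_cast at h5
    nlinarith

theorem bad_vol (A ε : ℝ) (hA : 0 ≤ A) (hε : 0 < ε) : ∃ H₀ : ℕ, ∀ H N X : ℕ, H₀ ≤ H → 1 ≤ X →
    X ≤ H → (H : ℝ) ^ (A + 3) ≤ N → ∀ T : ℕ → Set ℝ, Slow T ((H : ℝ) ^ A) →
    volume {u : ℝ | (A + 3) * Real.log H ≤ u ∧ u ≤ Real.log N ∧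
      T (⌊Real.exp u / X⌋₊ * X) ≠ T ⌊Real.exp u⌋₊} ≤ ENNReal.ofReal ε := by
  classical
  obtain ⟨H₁, hH₁⟩ := exists_nat_ge (8 / ε)
  refine ⟨max H₁ 2, fun H N X hH hX1 hXH hN T hT => ?_⟩
  have hH2 : 2 ≤ H := (le_max_right _ _).trans hH
  have hH1 : H₁ ≤ H := (le_max_left _ _).trans hH
  have hHr : (2 : ℝ) ≤ H := by exact_mod_cast hH2
  have hH0 : (0 : ℝ) < H := by linarith
  have hXr : (1 : ℝ) ≤ X := by exact_mod_cast hX1
  have hXHr : (X : ℝ) ≤ H := by exact_mod_cast hXH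
  obtain ⟨B, hB⟩ : ∃ B, B = (H : ℝ) ^ (A + 3) := ⟨_, rfl⟩
  obtain ⟨hA0, hA0d⟩ : ∃ C, C = (H : ℝ) ^ A := ⟨_, rfl⟩
  have hA01 : 1 ≤ hA0 := by rw [hA0d]; exact Real.one_le_rpow (by linarith) hA
  have hBA : B = hA0 * (H : ℝ) ^ 3 := by
    rw [hB, hA0d, Real.rpow_add hH0]
    norm_num
  have hH3 : (4 : ℝ) * H ≤ (H : ℝ) ^ 3 := by
    have h1 : (4 : ℝ) ≤ (H : ℝ) ^ 2 := by nlinarith
    calc (4 : ℝ) * H ≤ (H : ℝ) ^ 2 * H := mul_le_mul_of_nonneg_right h1 hH0.le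
      _ = _ := by ring
  have hB4 : 4 * H ≤ B := by
    rw [hBA]
    nlinarith [pow_pos hH0 3]
  obtain ⟨ν, hν⟩ : ∃ ν, ν = B / 2 := ⟨_, rfl⟩
  have hν4 : 4 ≤ ν := by
    rw [hν]
    linarith
  obtain ⟨j, hj⟩ : ∃ j, j = Nat.log 2 ⌊ν⌋₊ := ⟨_, rfl⟩
  have hfl : 1 ≤ ⌊ν⌋₊ := Nat.one_le_floor_iff _ |>.2 (by linarith)
  have hj1 : 2 ^ j ≤ ⌊ν⌋₊ := by rw [hj]; exact Nat.pow_log_le_self 2 (by omega)
  have hj2 : ⌊ν⌋₊ < 2 ^ (j + 1) := by rw [hj]; exact Nat.lt_pow_succ_log_self (by norm_num) _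
  have hj3 : ν < 2 * (2 : ℝ) ^ j := by
    have h1 : ((⌊ν⌋₊ + 1 : ℕ) : ℝ) ≤ ((2 ^ (j + 1) : ℕ) : ℝ) := by exact_mod_cast hj2
    have h2 : ν < ⌊ν⌋₊ + 1 := Nat.lt_floor_add_one _
    push_cast at h1
    rw [pow_succ] at h1
    linarith
  obtain ⟨i, hi⟩ : ∃ i : ℕ, i = N + H := ⟨_, rfl⟩
  obtain ⟨C, hC⟩ : ∃ C, C = (Ico (2 ^ j) (2 ^ (j + i))).filter (fun n => T (n + 1) ≠ T n) :=
    ⟨_, rfl⟩
  have hsub : {u : ℝ | (A + 3) * Real.log H ≤ u ∧ u ≤ Real.log N ∧
      T (⌊Real.exp u / X⌋₊ * X) ≠ T ⌊Real.exp u⌋₊} ⊆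
      ⋃ n ∈ C, Set.Ioo (Real.log n) (Real.log (n + X)) := by
    rintro u ⟨hu1, hu2, hne⟩
    obtain ⟨n, hn, hn1, hn2⟩ := near T X hX1 u hne
    have hBu : B ≤ Real.exp u := by
      rw [hB, Real.rpow_def_of_pos hH0, mul_comm]
      exact Real.exp_le_exp.2 hu1
    have hN0 : (0 : ℝ) < N := lt_of_lt_of_le (by rw [← hB]; linarith) hN
    have huN : Real.exp u ≤ N := by
      rw [← Real.exp_log hN0]
      exact Real.exp_le_exp.2 hu2
    have hnν : ν < n := by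
      rw [hν]
      linarith
    have hnj : 2 ^ j ≤ n := by
      have : (⌊ν⌋₊ : ℝ) ≤ n := (Nat.floor_le (by linarith)).trans hnν.le
      exact hj1.trans (by exact_mod_cast this)
    have hnN : n < N + H := by
      have h2 : (n : ℝ) < ((N + H : ℕ) : ℝ) := by
        push_cast
        linarith
      exact_mod_cast h2
    have hni : n < 2 ^ (j + i) := by
      have h1 : N + H < 2 ^ (N + H) := Nat.lt_two_pow_self
      have h2 : 2 ^ (N + H) ≤ 2 ^ (j + i) := Nat.pow_le_pow_right (by norm_num) (by omega)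
      omega
    rw [Set.mem_iUnion₂]
    refine ⟨n, ?_, ?_, ?_⟩
    · rw [hC, mem_filter, mem_Ico]
      exact ⟨⟨hnj, hni⟩, hn⟩
    · rw [Real.log_lt_iff_lt_exp (by linarith)]
      exact hn1
    · rw [Real.lt_log_iff_exp_lt (by linarith)]
      exact hn2
  refine (measure_mono hsub).trans ((measure_biUnion_finset_le _ _).trans ?_)
  have hlen : ∀ n ∈ C, volume (Set.Ioo (Real.log n) (Real.log (n + X))) ≤
      ENNReal.ofReal (H * (1 / (n : ℝ))) := by
    intro n hn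
    rw [Real.volume_Ioo]
    refine ENNReal.ofReal_le_ofReal ?_
    rw [hC, mem_filter, mem_Ico] at hn
    have hn0 : (0 : ℝ) < n := by
      have : ((2 ^ j : ℕ) : ℝ) ≤ n := by exact_mod_cast hn.1.1
      push_cast at this
      linarith
    have hb : (0 : ℝ) < n + X := by positivity
    rw [← Real.log_div hb.ne' hn0.ne']
    refine (Real.log_le_sub_one_of_pos (by positivity)).trans ?_
    have h4 : ((n : ℝ) + X) / n - 1 = X * (1 / n) := by
      field_simp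
      ring
    rw [h4]
    exact mul_le_mul_of_nonneg_right hXHr (by positivity)
  refine (sum_le_sum hlen).trans ?_
  rw [← ENNReal.ofReal_sum_of_nonneg fun n _ => by positivity]
  refine ENNReal.ofReal_le_ofReal ?_
  rw [← mul_sum]
  have h1 := harm T _ hT j i
  have h2 : ∑ n ∈ C, (1 / (n : ℝ)) ≤ hA0 * (2 / 2 ^ j) := by
    rw [hC]
    refine h1.trans ?_
    rw [← hA0d]
    have : (0 : ℝ) ≤ 2 / 2 ^ (j + i) := by positivity
    have hA00 : 0 ≤ hA0 := by linarith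
    nlinarith
  have h3 : 2 / (2 : ℝ) ^ j ≤ 8 / B := by
    have hB0 : 0 < B := by linarith
    rw [div_le_div_iff₀ (by positivity) hB0]
    rw [hν] at hj3
    linarith
  have hH3 : 8 / (H : ℝ) ^ 2 ≤ ε := by
    rw [div_le_iff₀ (by positivity)]
    rw [div_le_iff₀ hε] at hH₁
    have h4 : (H₁ : ℝ) ≤ H := by exact_mod_cast hH1
    have h5 : (H : ℝ) ≤ (H : ℝ) ^ 2 := by nlinarith
    nlinarith
  calc (H : ℝ) * ∑ n ∈ C, (1 / (n : ℝ)) ≤ H * (hA0 * (8 / B)) := by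
        refine mul_le_mul_of_nonneg_left (h2.trans ?_) (by positivity)
        exact mul_le_mul_of_nonneg_left h3 (by linarith)
    _ = 8 / (H : ℝ) ^ 2 := by
        rw [hBA]
        have : hA0 ≠ 0 := by linarith
        field_simp
    _ ≤ ε := hH3

end S2x

open S2x

theorem s2 : S2' := by
  classical
  intro A ε hA hε
  obtain ⟨H₁, hH₁⟩ := bad_vol A ε hA hε
  refine ⟨max H₁ 2, fun H N X hH hX1 hXH hN T hT φ h0 h1 => ?_⟩
  have hvol := hH₁ H N X ((le_max_left _ _).trans hH) hX1 hXH hN T hT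
  have hHr : (2 : ℝ) ≤ H := by exact_mod_cast (le_max_right _ _).trans hH
  have hH0 : (0 : ℝ) < H := by linarith
  obtain ⟨u₀, hu₀⟩ : ∃ u₀, u₀ = (A + 3) * Real.log H := ⟨_, rfl⟩
  rw [← hu₀] at hvol ⊢
  have hlogH : 0 ≤ Real.log H := Real.log_nonneg (by linarith)
  have hu00 : 0 ≤ u₀ := by rw [hu₀]; positivity
  have hB0 : (0 : ℝ) < (H : ℝ) ^ (A + 3) := by positivity
  have hN0 : (0 : ℝ) < N := lt_of_lt_of_le hB0 hN
  have hN1 : 1 ≤ N := by exact_mod_cast hN0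
  have huN : u₀ ≤ Real.log N := by
    rw [hu₀, ← Real.log_rpow hH0]
    exact Real.log_le_log hB0 hN
  obtain ⟨Bad, hBad⟩ : ∃ Bad : Set ℝ, Bad = {u : ℝ | T (⌊Real.exp u / X⌋₊ * X) ≠
      T ⌊Real.exp u⌋₊} := ⟨_, rfl⟩
  have hBadm : MeasurableSet Bad := by
    have h2 : Measurable fun u : ℝ => (⌊Real.exp u / X⌋₊, ⌊Real.exp u⌋₊) :=
      (meas_floor X).prodMk meas_floor'
    have h3 : MeasurableSet {q : ℕ × ℕ | T (q.1 * X) ≠ T q.2} := MeasurableSet.of_discrete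
    rw [hBad]
    exact h2 h3
  have hmG : Measurable fun u : ℝ => φ (T ⌊Real.exp u⌋₊) :=
    (measurable_from_top (f := fun n : ℕ => φ (T n))).comp meas_floor'
  have hmF : Measurable fun u : ℝ => φ (T (⌊Real.exp u / X⌋₊ * X)) :=
    (measurable_from_top (f := fun n : ℕ => φ (T (n * X)))).comp (meas_floor X)
  have hiG := fun a b => ii_of_bdd' hmG (fun x => h0 _) (fun x => h1 _) a b
  have hiF := fun a b => ii_of_bdd' hmF (fun x => h0 _) (fun x => h1 _) a b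
  have hmI : Measurable (Bad.indicator fun _ => (1 : ℝ)) := measurable_const.indicator hBadm
  have hiI := fun a b => ii_of_bdd' hmI (fun x => Set.indicator_nonneg (fun _ _ => zero_le_one) x)
    (fun x => Set.indicator_le_self' (fun _ _ => zero_le_one) x) a b
  have hle : ∫ u in u₀..(Real.log N), φ (T (⌊Real.exp u / X⌋₊ * X)) ≤
      ∫ u in u₀..(Real.log N), (φ (T ⌊Real.exp u⌋₊) + Bad.indicator (fun _ => (1 : ℝ)) u) := by
    refine intervalIntegral.integral_mono_on huN (hiF _ _) ((hiG _ _).add (hiI _ _)) ?_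
    intro u _
    by_cases hu : u ∈ Bad
    · rw [Set.indicator_of_mem hu]
      linarith [h0 (T ⌊Real.exp u⌋₊), h1 (T (⌊Real.exp u / X⌋₊ * X))]
    · rw [Set.indicator_of_notMem hu, add_zero]
      have : T (⌊Real.exp u / X⌋₊ * X) = T ⌊Real.exp u⌋₊ := by
        by_contra hne
        exact hu (by rw [hBad]; exact hne)
      rw [this]
  rw [intervalIntegral.integral_add (hiG _ _) (hiI _ _)] at hle
  refine hle.trans (add_le_add ?_ ?_)
  · have h2 : ∫ u in (0 : ℝ)..(Real.log N), φ (T ⌊Real.exp u⌋₊) ≤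
        ∑ n ∈ Ico 1 N, (1 / (n : ℝ)) * φ (T n) :=
      int_floor (fun n => φ (T n)) (fun n => h0 _) (fun n => h1 _) N hN1
    have h3 : ∫ u in u₀..(Real.log N), φ (T ⌊Real.exp u⌋₊) ≤
        ∫ u in (0 : ℝ)..(Real.log N), φ (T ⌊Real.exp u⌋₊) := by
      rw [← intervalIntegral.integral_add_adjacent_intervals (hiG 0 u₀) (hiG _ _)]
      have := intervalIntegral.integral_nonneg (μ := volume) hu00
        (fun u _ => h0 (T ⌊Real.exp u⌋₊))
      linarith
    refine (h3.trans h2).trans ?_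
    refine sum_le_sum_of_subset_of_nonneg ?_ fun n _ _ => mul_nonneg (by positivity) (h0 _)
    intro n hn
    rw [mem_Ico] at hn
    rw [mem_Icc]
    omega
  · rw [intervalIntegral.integral_of_le huN, integral_indicator hBadm, setIntegral_const,
      smul_eq_mul, mul_one]
    rw [Measure.real]
    refine ENNReal.toReal_le_of_le_ofReal hε.le (le_trans ?_ hvol)
    rw [Measure.restrict_apply hBadm]
    refine measure_mono ?_
    rintro u ⟨hu1, hu2⟩
    rw [hBad] at hu1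
    exact ⟨hu2.1.le, hu2.2, hu1⟩

end Pool.Agent.SV
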