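import Mathlib
import Pool.Agent.Lib.SV.TFDefs2
import Pool.Agent.Lib.SV.RB
import Pool.Agent.Lib.SV.IIFin
import Pool.Agent.Lib.SV.S2

/-!
# Theorem TF (MP_663568_nt): from symmetric periodic sets to arbitrary sets.  (helper19)
-/

set_option autoImplicit false
open Finset MeasureTheory Filter

namespace Pool.Agent.SV

open Pool.Agent.Lib.MP_663568_nt Pool.Agent.Lib.MP_663568_nt.Katai
  Pool.Agent.Lib.MP_663568_nt.Nul

noncomputable section

namespace TFx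

/-! ### The definitions of the result -/

/-- The logarithmic average of the supremum over `y ∈ B n`. -/
def Avg (B : ℕ → Set ℝ) (N H : ℕ) : ℝ :=
  ∑ n ∈ Finset.Icc 1 N, (1 / (n : ℝ)) * ⨆ y : {y : ℝ // y ∈ B n},
    ‖∑ h ∈ Finset.Icc 1 H,
      Complex.exp (2 * Real.pi * Complex.I * (((h + n : ℕ) : ℝ) * (y : ℝ) : ℝ)) *
        ((ArithmeticFunction.moebius (n + h) : ℤ) : ℂ)‖

/-- At most `K` changes in each dyadic block. -/
def SlowR (B : ℕ → Set ℝ) (K : ℝ) : Prop :=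
  ∀ j : ℕ, (({n : ℕ | 2 ^ j ≤ n ∧ n < 2 ^ (j + 1) ∧ B (n + 1) ≠ B n}.ncard : ℕ) : ℝ) ≤ K

/-- The union of `A` and `-A`. -/
def Sym (A : Set ℝ) : Set ℝ := {y | y ∈ A ∨ -y ∈ A}

/-- The measure of the set of points of `[0, 1]` at distance at most `1 / R` from `A` modulo `1`. -/
def outer (A : Set ℝ) (R : ℝ) : ℝ :=
  (MeasureTheory.volume {x : ℝ | x ∈ Set.Icc 0 1 ∧ ∃ y ∈ A, ∃ b : ℤ, |y - x - b| ≤ 1 / R}).toReal

/-- The measure of the set of points of `[0, 1]` whose closed `1 / R`-neighbourhood is contained in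
`A` modulo `1`. -/
def inner (A : Set ℝ) (R : ℝ) : ℝ :=
  (MeasureTheory.volume {x : ℝ | x ∈ Set.Icc 0 1 ∧ ∀ z : ℝ, |z - x| ≤ 1 / R →
    ∃ b : ℤ, z + b ∈ A}).toReal

/-! ### The supremum over a set -/

/-- The supremum of the means over a set. -/
def sB (S : Set ℝ) (l n : ℕ) : ℝ := ⨆ y : {y : ℝ // y ∈ S}, vv l n y

theorem vv_add_int (l n : ℕ) (y : ℝ) (b : ℤ) : vv l n (y + b) = vv l n y := by
  unfold vv
  congr 2
  refine sum_congr rfl fun m _ => ?_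
  rw [show (y + b) * (m : ℝ) = y * m + ((b * m : ℤ) : ℝ) by push_cast; ring, ee_add, ee_int,
    mul_one]

theorem vv_neg (l n : ℕ) (y : ℝ) : vv l n (-y) = vv l n y := by
  unfold vv
  congr 1
  have e0 : ∀ z : ℝ, ee (-z) = (starRingEnd ℂ) (ee z) := fun z => by
    have h := ee_sub 0 z
    have h0 : ee 0 = 1 := by simpa using ee_int 0
    rw [zero_sub, h0, one_mul] at h
    exact h
  have h1 : ∑ m ∈ Icc 1 l, muC (n + m) * ee (-y * m) =
      (starRingEnd ℂ) (∑ m ∈ Icc 1 l, muC (n + m) * ee (y * m)) := by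
    rw [map_sum]
    refine sum_congr rfl fun m _ => ?_
    rw [map_mul, show -y * (m : ℝ) = -(y * m) by ring, e0]
    congr 1
    unfold muC
    simp
  rw [h1, Complex.norm_conj]

theorem sB_nonneg (S : Set ℝ) (l n : ℕ) : 0 ≤ sB S l n :=
  Real.iSup_nonneg fun _ => RB.vv_nonneg _ _ _

theorem sB_bdd (S : Set ℝ) (l n : ℕ) : BddAbove (Set.range fun y : {y : ℝ // y ∈ S} => vv l n y) :=
  ⟨1, by rintro _ ⟨y, rfl⟩; exact RB.vv_le l n y⟩

theorem sB_le_of (S : Set ℝ) (l n : ℕ) {c : ℝ} (hc : 0 ≤ c) (h : ∀ y ∈ S, vv l n y ≤ c) :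
    sB S l n ≤ c :=
  Real.iSup_le (fun y => h y.1 y.2) hc

theorem le_sB {S : Set ℝ} (l n : ℕ) {y : ℝ} (hy : y ∈ S) : vv l n y ≤ sB S l n :=
  le_ciSup (sB_bdd S l n) ⟨y, hy⟩

theorem sB_le_one (S : Set ℝ) (l n : ℕ) : sB S l n ≤ 1 :=
  sB_le_of S l n zero_le_one fun y _ => RB.vv_le l n y

theorem le_sv (l n : ℕ) (y : ℝ) : vv l n y ≤ sv l n :=
  le_ciSup (f := fun b : ℝ => vv l n b) ⟨1, by rintro _ ⟨y, rfl⟩; exact RB.vv_le l n y⟩ y

theorem sB_le_sv (S : Set ℝ) (l n : ℕ) : sB S l n ≤ sv l n :=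
  sB_le_of S l n (IIx.sv_bd l n).1 fun y _ => le_sv l n y

theorem sB_mono {S T : Set ℝ} (h : S ⊆ T) (l n : ℕ) : sB S l n ≤ sB T l n :=
  sB_le_of S l n (sB_nonneg T l n) fun _ hy => le_sB l n (h hy)

theorem sv_le_univ (l n : ℕ) : sv l n = sB Set.univ l n := by
  apply le_antisymm
  · exact ciSup_le fun b => le_sB l n (Set.mem_univ b)
  · exact sB_le_sv _ _ _

/-- All translates by integers of `S` and `-S`. -/
def hull (S : Set ℝ) : Set ℝ := {y | ∃ b : ℤ, y + b ∈ Sym S}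

theorem sub_hull (S : Set ℝ) : S ⊆ hull S := fun y hy => ⟨0, by
  rw [Int.cast_zero, add_zero]; exact Or.inl hy⟩

theorem sB_hull (S : Set ℝ) (l n : ℕ) : sB (hull S) l n ≤ sB S l n := by
  refine sB_le_of _ l n (sB_nonneg _ l n) fun y hy => ?_
  obtain ⟨b, hb | hb⟩ := hy
  · rw [← vv_add_int l n y b]; exact le_sB l n hb
  · rw [← vv_add_int l n y b, ← vv_neg]; exact le_sB l n hb

theorem avg_eq (B : ℕ → Set ℝ) (N H : ℕ) :
    Avg B N H = H * ∑ n ∈ Icc 1 N, (1 / (n : ℝ)) * sB (B n) H n := by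
  unfold Avg
  rw [mul_sum]
  refine sum_congr rfl fun n _ => ?_
  have h1 : ∀ y : ℝ, ‖∑ h ∈ Finset.Icc 1 H,
      Complex.exp (2 * Real.pi * Complex.I * (((h + n : ℕ) : ℝ) * (y : ℝ) : ℝ)) *
        ((ArithmeticFunction.moebius (n + h) : ℤ) : ℂ)‖ = H * vv H n y := by
    intro y
    have h2 : ∑ h ∈ Finset.Icc 1 H,
        Complex.exp (2 * Real.pi * Complex.I * (((h + n : ℕ) : ℝ) * (y : ℝ) : ℝ)) *
        ((ArithmeticFunction.moebius (n + h) : ℤ) : ℂ) =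
        ee (n * y) * ∑ h ∈ Finset.Icc 1 H, muC (n + h) * ee (y * h) := by
      rw [mul_sum]
      refine sum_congr rfl fun h _ => ?_
      have h3 : Complex.exp (2 * Real.pi * Complex.I * (((h + n : ℕ) : ℝ) * (y : ℝ) : ℝ)) =
          ee (((h + n : ℕ) : ℝ) * y) := rfl
      rw [h3, show ((h + n : ℕ) : ℝ) * y = n * y + y * h by push_cast; ring, ee_add]
      unfold muC
      ring
    rw [h2, norm_mul, norm_ee, one_mul]
    unfold vv
    rcases Nat.eq_zero_or_pos H with h0 | h0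
    · subst h0; simp
    · have : (H : ℝ) ≠ 0 := by positivity
      field_simp
  have h2 : (⨆ y : {y : ℝ // y ∈ B n}, ‖∑ h ∈ Finset.Icc 1 H,
      Complex.exp (2 * Real.pi * Complex.I * (((h + n : ℕ) : ℝ) * (y : ℝ) : ℝ)) *
        ((ArithmeticFunction.moebius (n + h) : ℤ) : ℂ)‖) = H * sB (B n) H n := by
    unfold sB
    rw [Real.mul_iSup_of_nonneg (Nat.cast_nonneg H)]
    exact iSup_congr fun y => h1 y
  rw [h2]
  ring

/-! ### Sums and integrals -/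

theorem harm {N : ℕ} (hN : 3 ≤ N) : 1 ≤ Real.log N ∧
    ∑ n ∈ Icc 1 N, 1 / (n : ℝ) ≤ 2 * Real.log N := by
  have h1 : 1 ≤ Real.log N := by
    rw [Real.le_log_iff_exp_le (by positivity)]
    have : (3 : ℝ) ≤ N := by exact_mod_cast hN
    exact (Real.exp_one_lt_d9.le.trans (by norm_num)).trans this
  have e2 : ∑ n ∈ Icc 1 N, 1 / (n : ℝ) ≤ 1 + Real.log N := by
    have := harmonic_le_one_add_log N
    rw [harmonic_eq_sum_Icc] at this
    push_cast at this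
    simpa only [one_div] using this
  exact ⟨h1, by linarith⟩

theorem int_le_sum (g : ℕ → ℝ) (h0 : ∀ n, 0 ≤ g n) (h1 : ∀ n, g n ≤ 1) {N : ℕ} (hN : 1 ≤ N)
    {ta : ℝ} (hta : 0 ≤ ta) :
    ∫ u in ta..(Real.log N), g ⌊Real.exp u⌋₊ ≤ ∑ n ∈ Icc 1 N, (1 / (n : ℝ)) * g n := by
  have a1 := S2x.int_floor g h0 h1 N hN
  have a2 : ∑ n ∈ Ico 1 N, (1 / (n : ℝ)) * g n ≤ ∑ n ∈ Icc 1 N, (1 / (n : ℝ)) * g n := by
    refine sum_le_sum_of_subset_of_nonneg (fun n hn => ?_) fun n _ _ =>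
      mul_nonneg (by positivity) (h0 n)
    rw [mem_Ico] at hn
    rw [mem_Icc]
    omega
  have hii := fun a b => IIx.fl_ii g h0 h1 a b
  have a3 := intervalIntegral.integral_add_adjacent_intervals (hii 0 ta) (hii ta (Real.log N))
  have a4 : 0 ≤ ∫ u in (0 : ℝ)..ta, g ⌊Real.exp u⌋₊ :=
    intervalIntegral.integral_nonneg hta fun u _ => h0 _
  linarith

theorem sum_le_int (g : ℕ → ℝ) (h0 : ∀ n, 0 ≤ g n) (h1 : ∀ n, g n ≤ 1) {s : ℕ} (hs : 1 ≤ s)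
    (N : ℕ) (hN : s ≤ N) :
    ∑ n ∈ Ico s N, (1 / (n : ℝ)) * g n ≤
      (∫ u in (Real.log s)..(Real.log N), g ⌊Real.exp u⌋₊) + (1 / s - 1 / N) := by
  have hii := fun a b => IIx.fl_ii g h0 h1 a b
  induction N, hN using Nat.le_induction with
  | base => simp
  | succ N hN ih =>
    have hN0 : (0 : ℝ) < N := by exact_mod_cast (hs.trans hN)
    rw [← intervalIntegral.integral_add_adjacent_intervals (hii _ (Real.log N)) (hii _ _),
      sum_Ico_succ_top hN]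
    have hle : Real.log N ≤ Real.log ((N + 1 : ℕ) : ℝ) :=
      Real.log_le_log hN0 (by push_cast; linarith)
    have h2 : ∫ u in (Real.log N)..(Real.log ((N + 1 : ℕ) : ℝ)), g ⌊Real.exp u⌋₊ =
        ∫ u in (Real.log N)..(Real.log ((N + 1 : ℕ) : ℝ)), g N := by
      refine intervalIntegral.integral_congr_ae ?_
      have h3 : ∀ᵐ x : ℝ, x ≠ Real.log ((N + 1 : ℕ) : ℝ) := by simp [ae_iff, measure_singleton]
      filter_upwards [h3] with x hx hx2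
      rw [Set.uIoc_of_le hle] at hx2
      have h4 : x < Real.log ((N + 1 : ℕ) : ℝ) := lt_of_le_of_ne hx2.2 hx
      have h5 : ⌊Real.exp x⌋₊ = N := by
        rw [Nat.floor_eq_iff (Real.exp_pos x).le]
        constructor
        · rw [← Real.log_le_iff_le_exp hN0]
          exact hx2.1.le
        · rw [Real.lt_log_iff_exp_lt (by positivity)] at h4
          push_cast at h4
          exact h4
      rw [h5]
    rw [h2, intervalIntegral.integral_const, smul_eq_mul]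
    have hN1 : (0 : ℝ) < ((N + 1 : ℕ) : ℝ) := by positivity
    have a1 : 1 / ((N + 1 : ℕ) : ℝ) ≤ Real.log ((N + 1 : ℕ) : ℝ) - Real.log N := by
      rw [← Real.log_div hN1.ne' hN0.ne']
      have := Real.one_sub_inv_le_log_of_pos (show 0 < ((N + 1 : ℕ) : ℝ) / N by positivity)
      refine le_trans (le_of_eq ?_) this
      push_cast
      field_simp
      ring
    have a2 : 1 / (N : ℝ) * g N - 1 / ((N + 1 : ℕ) : ℝ) * g N ≤ 1 / N - 1 / ((N + 1 : ℕ) : ℝ) := by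
      have b1 : 0 ≤ 1 / (N : ℝ) - 1 / ((N + 1 : ℕ) : ℝ) := by
        rw [sub_nonneg]
        exact one_div_le_one_div_of_le hN0 (by push_cast; linarith)
      have b2 := mul_le_mul_of_nonneg_left (h1 N) b1
      linarith
    have a3 := mul_le_mul_of_nonneg_right a1 (h0 N)
    linarith

theorem sum_le_int' (g : ℕ → ℝ) (h0 : ∀ n, 0 ≤ g n) (h1 : ∀ n, g n ≤ 1) {n₀ N : ℕ}
    (hN : n₀ < N) {ta : ℝ} (hta : ta ≤ Real.log ((n₀ + 1 : ℕ) : ℝ)) :
    ∑ n ∈ Ioc n₀ N, (1 / (n : ℝ)) * g n ≤ (∫ u in ta..(Real.log N), g ⌊Real.exp u⌋₊) + 1 := by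
  have hii := fun a b => IIx.fl_ii g h0 h1 a b
  have a1 := sum_le_int g h0 h1 (s := n₀ + 1) (by omega) N hN
  have hN0 : (0 : ℝ) < N := by exact_mod_cast (show 0 < N by omega)
  have a2 : ∑ n ∈ Ioc n₀ N, (1 / (n : ℝ)) * g n =
      ∑ n ∈ Ico (n₀ + 1) N, (1 / (n : ℝ)) * g n + 1 / N * g N := by
    rw [← sum_Ico_succ_top (by omega : n₀ + 1 ≤ N)]
    refine sum_congr ?_ fun _ _ => rfl
    ext n
    rw [mem_Ioc, mem_Ico]
    omega
  have a3 : 1 / (N : ℝ) * g N ≤ 1 / N := mul_le_of_le_one_right (by positivity) (h1 N)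
  have a4 : 1 / ((n₀ + 1 : ℕ) : ℝ) ≤ 1 := by
    rw [div_le_one (by positivity)]
    push_cast
    linarith [Nat.cast_nonneg (α := ℝ) n₀]
  have a5 := intervalIntegral.integral_add_adjacent_intervals
    (hii ta (Real.log ((n₀ + 1 : ℕ) : ℝ))) (hii _ (Real.log N))
  have a6 : 0 ≤ ∫ u in ta..(Real.log ((n₀ + 1 : ℕ) : ℝ)), g ⌊Real.exp u⌋₊ :=
    intervalIntegral.integral_nonneg hta fun u _ => h0 _
  linarith

/-! ### The beginning -/

theorem small (hV : V_stmt) (A ε : ℝ) (hε : 0 < ε) : ∃ H₀ : ℕ, ∀ H N n₁ : ℕ, H₀ ≤ H → H ≤ N →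
    (n₁ : ℝ) ≤ (H : ℝ) ^ A → n₁ ≤ N →
    ∑ n ∈ Icc 1 n₁, (1 / (n : ℝ)) * sv H n ≤ ε * Real.log N := by
  obtain ⟨HV, hV⟩ := hV A (ε / 4) (by linarith)
  refine ⟨max HV 3, fun H N n₁ hH hHN hn hnN => ?_⟩
  have hH3 : 3 ≤ H := (le_max_right _ _).trans hH
  have hN3 : 3 ≤ N := hH3.trans hHN
  obtain ⟨hl1, hharm⟩ := harm hN3
  have hH0 : (0 : ℝ) < H := by exact_mod_cast (show 0 < H by omega)
  choose b hb using fun n => IIx.near H n (show 0 < ε / 4 by linarith)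
  obtain ⟨α, hα⟩ : ∃ α : ℕ → ℝ, α = fun n => if n ≤ n₁ then Int.fract (b n) else 0 := ⟨_, rfl⟩
  have hα0 : ∀ n, 0 ≤ α n ∧ α n ≤ 1 := fun n => by
    rw [hα]
    show 0 ≤ ite _ _ _ ∧ ite _ _ _ ≤ (1 : ℝ)
    split_ifs
    · exact ⟨Int.fract_nonneg _, (Int.fract_lt_one _).le⟩
    · exact ⟨le_rfl, zero_le_one⟩
  have hTV : TV α ((H : ℝ) ^ A) := by
    intro j
    rcases le_or_gt (2 ^ j) n₁ with h | h
    · have e1 : ∑ n ∈ Ico (2 ^ j) (2 ^ (j + 1)), |α (n + 1) - α n| ≤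
          ∑ n ∈ Ico (2 ^ j) (2 ^ (j + 1)), (1 : ℝ) := by
        refine sum_le_sum fun n _ => ?_
        rw [abs_le]
        constructor <;> linarith [(hα0 n).1, (hα0 n).2, (hα0 (n + 1)).1, (hα0 (n + 1)).2]
      refine e1.trans ?_
      rw [sum_const, Nat.card_Ico, nsmul_eq_mul, mul_one, pow_succ,
        show 2 ^ j * 2 - 2 ^ j = 2 ^ j by omega]
      refine le_trans ?_ hn
      exact_mod_cast h
    · refine le_trans (le_of_eq (sum_eq_zero fun n hn' => ?_)) (Real.rpow_nonneg hH0.le _)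
      rw [mem_Ico] at hn'
      have e1 : α n = 0 := by rw [hα]; exact if_neg (by omega)
      have e2 : α (n + 1) = 0 := by rw [hα]; exact if_neg (by omega)
      rw [e1, e2, sub_zero, abs_zero]
  have h1 := hV H N ((le_max_left _ _).trans hH) hHN α hTV
  have h2 : ∑ n ∈ Icc 1 N, (1 / (n : ℝ)) * vv H n (α n) ≤ ε / 4 * Real.log N := by
    have e1 : ∑ n ∈ Icc 1 N, (1 / (n : ℝ)) * ‖∑ h ∈ Icc 1 H, muC (n + h) * ee (α n * h)‖ =
        H * ∑ n ∈ Icc 1 N, (1 / (n : ℝ)) * vv H n (α n) := by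
      rw [mul_sum]
      refine sum_congr rfl fun n _ => ?_
      unfold vv
      field_simp
    rw [e1] at h1
    have e2 : (H : ℝ) * ∑ n ∈ Icc 1 N, (1 / (n : ℝ)) * vv H n (α n) ≤
        H * (ε / 4 * Real.log N) := by linarith
    exact le_of_mul_le_mul_left e2 hH0
  have h3 : ∑ n ∈ Icc 1 n₁, (1 / (n : ℝ)) * sv H n ≤
      ∑ n ∈ Icc 1 n₁, ((1 / (n : ℝ)) * vv H n (α n) + ε / 4 * (1 / (n : ℝ))) := by
    refine sum_le_sum fun n hn' => ?_
    rw [mem_Icc] at hn'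
    have e1 : vv H n (α n) = vv H n (b n) := by
      have : α n = Int.fract (b n) := by rw [hα]; exact if_pos hn'.2
      rw [this]
      have e2 := vv_add_int H n (Int.fract (b n)) ⌊b n⌋
      rw [Int.fract_add_floor] at e2
      exact e2.symm
    rw [e1]
    have e3 := mul_le_mul_of_nonneg_left (hb n) (show 0 ≤ 1 / (n : ℝ) by positivity)
    linarith
  have hsub : Icc 1 n₁ ⊆ Icc 1 N := Icc_subset_Icc_right hnN
  have h4 : ∑ n ∈ Icc 1 n₁, ((1 / (n : ℝ)) * vv H n (α n) + ε / 4 * (1 / (n : ℝ))) ≤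
      ∑ n ∈ Icc 1 N, ((1 / (n : ℝ)) * vv H n (α n) + ε / 4 * (1 / (n : ℝ))) :=
    sum_le_sum_of_subset_of_nonneg hsub fun n _ _ => add_nonneg
      (mul_nonneg (by positivity) (RB.vv_nonneg _ _ _)) (by positivity)
  have h4' : ∑ n ∈ Icc 1 N, ((1 / (n : ℝ)) * vv H n (α n) + ε / 4 * (1 / (n : ℝ))) =
      ∑ n ∈ Icc 1 N, (1 / (n : ℝ)) * vv H n (α n) + ε / 4 * ∑ n ∈ Icc 1 N, 1 / (n : ℝ) := by
    rw [sum_add_distrib, ← mul_sum]
  rw [h4'] at h4
  have h5 := mul_le_mul_of_nonneg_left hharm (show 0 ≤ ε / 4 by linarith)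
  have h6 : 0 ≤ ε * Real.log N := mul_nonneg hε.le (by linarith)
  linarith

/-! ### Measures and changes -/

theorem outer_bd (S : Set ℝ) (R : ℝ) : 0 ≤ outer S R ∧ outer S R ≤ 1 := by
  refine ⟨ENNReal.toReal_nonneg, ?_⟩
  unfold outer
  refine ENNReal.toReal_le_of_le_ofReal zero_le_one ?_
  calc _ ≤ volume (Set.Icc (0 : ℝ) 1) := measure_mono fun x hx => hx.1
    _ = ENNReal.ofReal 1 := by rw [Real.volume_Icc]; norm_num

theorem inner_bd (S : Set ℝ) (R : ℝ) : 0 ≤ inner S R ∧ inner S R ≤ 1 := by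
  refine ⟨ENNReal.toReal_nonneg, ?_⟩
  unfold inner
  refine ENNReal.toReal_le_of_le_ofReal zero_le_one ?_
  calc _ ≤ volume (Set.Icc (0 : ℝ) 1) := measure_mono fun x hx => hx.1
    _ = ENNReal.ofReal 1 := by rw [Real.volume_Icc]; norm_num

theorem slow_of {B T : ℕ → Set ℝ} {K : ℝ} (h : SlowR B K)
    (hT : ∀ n, B (n + 1) = B n → T (n + 1) = T n) : Slow T K := by
  classical
  intro j
  have h1 : (#((Ico (2 ^ j) (2 ^ (j + 1))).filter fun n => T (n + 1) ≠ T n) : ℝ) ≤ K := by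
    refine le_trans ?_ (h j)
    have hsub : (((Ico (2 ^ j) (2 ^ (j + 1))).filter fun n => T (n + 1) ≠ T n : Finset ℕ) :
        Set ℕ) ⊆ {n : ℕ | 2 ^ j ≤ n ∧ n < 2 ^ (j + 1) ∧ B (n + 1) ≠ B n} := by
      intro n hn
      rw [mem_coe, mem_filter, mem_Ico] at hn
      exact ⟨hn.1.1, hn.1.2, fun hB => hn.2 (hT n hB)⟩
    have hfin : {n : ℕ | 2 ^ j ≤ n ∧ n < 2 ^ (j + 1) ∧ B (n + 1) ≠ B n}.Finite :=
      (Set.finite_Ico (2 ^ j) (2 ^ (j + 1))).subset fun n hn => ⟨hn.1, hn.2.1⟩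
    have := Set.ncard_le_ncard hsub hfin
    rw [Set.ncard_coe_finset] at this
    exact_mod_cast this
  convert h1

/-- The sets of part (i). -/
def hull1 (S : Set ℝ) : Set ℝ := hull S ∪ Set.range fun b : ℤ => (b : ℝ)

theorem hull_sym (B : ℕ → Set ℝ) : SymP fun n => hull (B n) := by
  intro n y
  have key : ∀ y : ℝ, y ∈ hull (B n) → -y ∈ hull (B n) := by
    rintro y ⟨b, hb⟩
    refine ⟨-b, ?_⟩
    have e : -y + ((-b : ℤ) : ℝ) = -(y + b) := by push_cast; ring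
    rw [e]
    rcases hb with hb | hb
    · exact Or.inr (by rw [neg_neg]; exact hb)
    · exact Or.inl hb
  refine ⟨⟨key y, fun h => by simpa using key _ h⟩, ?_, ?_⟩
  · rintro ⟨b, hb⟩
    refine ⟨b + 1, ?_⟩
    have e : y + ((b + 1 : ℤ) : ℝ) = y + 1 + b := by push_cast; ring
    rw [e]; exact hb
  · rintro ⟨b, hb⟩
    refine ⟨b - 1, ?_⟩
    have e : y + 1 + ((b - 1 : ℤ) : ℝ) = y + b := by push_cast; ring
    rw [e]; exact hb

theorem hull1_sym (B : ℕ → Set ℝ) : SymP fun n => hull1 (B n) := by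
  intro n y
  obtain ⟨h1, h2⟩ := hull_sym B n y
  have e1 : (y ∈ Set.range fun b : ℤ => (b : ℝ)) ↔ (-y ∈ Set.range fun b : ℤ => (b : ℝ)) := by
    constructor
    · rintro ⟨b, rfl⟩; exact ⟨-b, by push_cast; rfl⟩
    · rintro ⟨b, hb⟩; exact ⟨-b, by simp only at hb ⊢; push_cast; rw [hb, neg_neg]⟩
  have e2 : (y + 1 ∈ Set.range fun b : ℤ => (b : ℝ)) ↔ (y ∈ Set.range fun b : ℤ => (b : ℝ)) := by
    constructor
    · rintro ⟨b, hb⟩; exact ⟨b - 1, by simp only at hb ⊢; push_cast; rw [hb]; ring⟩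
    · rintro ⟨b, rfl⟩; exact ⟨b + 1, by push_cast; rfl⟩
  exact ⟨or_congr h1 e1, or_congr h2 e2⟩

theorem om1_hull1 (S : Set ℝ) {R R' : ℝ} (hR : 1 ≤ R) (hRR : R ≤ R') :
    om1 (hull1 S) R' ≤ outer (Sym S) R + 2 / R' := by
  have hR0 : 0 < R := by linarith
  have hR'0 : 0 < R' := by linarith
  have hRinv : 1 / R' ≤ 1 / R := one_div_le_one_div_of_le hR0 hRR
  have hRinv1 : 1 / R' ≤ 1 := by rw [div_le_one hR'0]; linarith
  have hpos : 0 < 1 / R' := by positivity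
  have hsub : {x : ℝ | x ∈ Set.Icc 0 1 ∧ ∃ y ∈ hull1 S, |y - x| < 1 / R'} ⊆
      {x : ℝ | x ∈ Set.Icc 0 1 ∧ ∃ y ∈ Sym S, ∃ b : ℤ, |y - x - b| ≤ 1 / R} ∪
        (Set.Icc 0 (1 / R') ∪ Set.Icc (1 - 1 / R') 1) := by
    rintro x ⟨hx, y, hy | ⟨b, rfl⟩, hyx⟩
    · obtain ⟨b, hb⟩ := hy
      refine Or.inl ⟨hx, y + b, hb, b, ?_⟩
      rw [show y + b - x - b = y - x by ring]
      linarith
    · right
      simp only at hyx
      rw [abs_lt] at hyx
      have b0 : (-1 : ℝ) < b := by linarith [hx.1]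
      have b1 : (b : ℝ) < 2 := by linarith [hx.2]
      have b0' : -1 < b := by exact_mod_cast b0
      have b1' : b < 2 := by exact_mod_cast b1
      have : b = 0 ∨ b = 1 := by omega
      rcases this with rfl | rfl
      · left
        rw [Int.cast_zero] at hyx
        exact ⟨hx.1, by linarith⟩
      · right
        rw [Int.cast_one] at hyx
        exact ⟨by linarith, hx.2⟩
  have hfin : ∀ s : Set ℝ, s ⊆ Set.Icc 0 1 → volume s ≠ ⊤ := fun s hs =>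
    ne_top_of_le_ne_top (by rw [Real.volume_Icc]; exact ENNReal.ofReal_ne_top) (measure_mono hs)
  have h1 : volume {x : ℝ | x ∈ Set.Icc 0 1 ∧ ∃ y ∈ hull1 S, |y - x| < 1 / R'} ≤
      volume {x : ℝ | x ∈ Set.Icc 0 1 ∧ ∃ y ∈ Sym S, ∃ b : ℤ, |y - x - b| ≤ 1 / R} +
        ENNReal.ofReal (2 / R') := by
    refine (measure_mono hsub).trans ((measure_union_le _ _).trans ?_)
    gcongr
    refine (measure_union_le _ _).trans ?_
    rw [Real.volume_Icc, Real.volume_Icc, ← ENNReal.ofReal_add (by linarith) (by linarith)]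
    refine ENNReal.ofReal_le_ofReal (le_of_eq ?_)
    ring
  unfold om1 outer
  have h2 := ENNReal.toReal_mono (ENNReal.add_ne_top.2
    ⟨hfin _ fun x hx => hx.1, ENNReal.ofReal_ne_top⟩) h1
  rw [ENNReal.toReal_add (hfin _ fun x hx => hx.1) ENNReal.ofReal_ne_top,
    ENNReal.toReal_ofReal (by positivity)] at h2
  exact h2

theorem inner_im1 (S : Set ℝ) (R : ℝ) : inner (Sym S) R ≤ im1 (hull S) R := by
  unfold inner im1
  refine ENNReal.toReal_mono (ne_top_of_le_ne_top (b := volume (Set.Icc (0 : ℝ) 1))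
    (by rw [Real.volume_Icc]; exact ENNReal.ofReal_ne_top) (measure_mono fun x hx => hx.1))
    (measure_mono ?_)
  rintro x ⟨hx, h⟩
  exact ⟨hx, fun z hz => h z hz.le⟩

/-! ### Part (i) -/

theorem fin_i (hI : I') (hV : V_stmt) (A ε R : ℝ) (hε : 0 < ε) (hR : 1 ≤ R) :
    ∃ H₀ : ℕ, ∀ H N : ℕ, H₀ ≤ H → H ≤ N → ∀ B : ℕ → Set ℝ, SlowR B ((H : ℝ) ^ A) →
      Avg B N H ≤ (√(3 * ((∑ n ∈ Icc 1 N, (1 / (n : ℝ)) * outer (Sym (B n)) R) / Real.log N)) /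
        Real.pi + ε) * H * Real.log N := by
  obtain ⟨A', hA'⟩ : ∃ A', A' = max A 0 := ⟨_, rfl⟩
  have hA0 : 0 ≤ A' := by rw [hA']; exact le_max_right _ _
  have hAA : A ≤ A' := by rw [hA']; exact le_max_left _ _
  obtain ⟨R', hR'⟩ : ∃ R', R' = max R (192 / ε ^ 2) := ⟨_, rfl⟩
  have hRR : R ≤ R' := by rw [hR']; exact le_max_left _ _
  have hRe : 192 / ε ^ 2 ≤ R' := by rw [hR']; exact le_max_right _ _
  have hR'0 : 0 < R' := by linarith
  have hsq : √(12 / R') ≤ ε / 4 := by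
    rw [Real.sqrt_le_left (by linarith), div_le_iff₀ hR'0]
    rw [div_le_iff₀ (by positivity)] at hRe
    have : (ε / 4) ^ 2 * R' = R' * ε ^ 2 / 16 := by ring
    rw [this]
    linarith
  obtain ⟨H1, hI⟩ := hI A' (ε / 4) R' hA0 (by linarith) (by linarith)
  obtain ⟨H2, hS⟩ := small hV (A' + 5) (ε / 4) (by linarith)
  refine ⟨max (max H1 H2) 3, fun H N hH hHN B hB => ?_⟩
  have hH1 : H1 ≤ H := ((le_max_left _ _).trans (le_max_left _ _)).trans hH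
  have hH2 : H2 ≤ H := ((le_max_right _ _).trans (le_max_left _ _)).trans hH
  have hH3 : 3 ≤ H := (le_max_right _ _).trans hH
  have hHone : (1 : ℝ) ≤ H := by exact_mod_cast (show 1 ≤ H by omega)
  have hH0 : (0 : ℝ) < H := by linarith
  obtain ⟨hl1, hharm⟩ := harm (hH3.trans hHN)
  obtain ⟨Λ, hΛ⟩ : ∃ Λ, Λ = Real.log N := ⟨_, rfl⟩
  rw [← hΛ] at hl1 hharm ⊢
  have hΛ0 : 0 < Λ := by linarith
  obtain ⟨Vn, hVn⟩ : ∃ Vn, Vn = ∑ n ∈ Icc 1 N, (1 / (n : ℝ)) * outer (Sym (B n)) R := ⟨_, rfl⟩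
  rw [← hVn]
  have hVn0 : 0 ≤ Vn := by
    rw [hVn]
    exact sum_nonneg fun n _ => mul_nonneg (by positivity) (outer_bd _ _).1
  rw [avg_eq]
  suffices hfin : ∑ n ∈ Icc 1 N, (1 / (n : ℝ)) * sB (B n) H n ≤
      (√(3 * (Vn / Λ)) / Real.pi + ε) * Λ by
    have := mul_le_mul_of_nonneg_left hfin hH0.le
    linarith
  have hr0 : 0 ≤ √(3 * (Vn / Λ)) / Real.pi := by positivity
  have hsv : ∀ n : ℕ, (1 / (n : ℝ)) * sB (B n) H n ≤ (1 / (n : ℝ)) * sv H n := fun n =>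
    mul_le_mul_of_nonneg_left (sB_le_sv _ _ _) (by positivity)
  rcases lt_or_ge (N : ℝ) ((H : ℝ) ^ (A' + 5)) with hlt | hge
  · have h1 := hS H N N hH2 hHN hlt.le le_rfl
    rw [← hΛ] at h1
    have h2 := (sum_le_sum fun n (_ : n ∈ Icc 1 N) => hsv n).trans h1
    refine h2.trans ?_
    have : ε / 4 * Λ ≤ ε * Λ := mul_le_mul_of_nonneg_right (by linarith) hΛ0.le
    have := mul_nonneg hr0 hΛ0.le
    linarith
  obtain ⟨n₀, hn₀⟩ : ∃ n₀ : ℕ, n₀ = ⌊(H : ℝ) ^ (A' + 4)⌋₊ := ⟨_, rfl⟩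
  have hn₀u : (n₀ : ℝ) ≤ (H : ℝ) ^ (A' + 4) := by
    rw [hn₀]; exact Nat.floor_le (Real.rpow_nonneg hH0.le _)
  have hpw : (H : ℝ) ^ (A' + 4) ≤ (H : ℝ) ^ (A' + 5) :=
    Real.rpow_le_rpow_of_exponent_le hHone (by linarith)
  have hn₀N : n₀ ≤ N := by
    have : (n₀ : ℝ) ≤ N := (hn₀u.trans hpw).trans hge
    exact_mod_cast this
  have h1 := hS H N n₀ hH2 hHN (hn₀u.trans hpw) hn₀N
  rw [← hΛ] at h1
  have h2 := (sum_le_sum fun n (_ : n ∈ Icc 1 n₀) => hsv n).trans h1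
  have hSl : Slow (fun n => hull1 (B n)) ((H : ℝ) ^ A') :=
    slow_of (B := B) (fun j => (hB j).trans (Real.rpow_le_rpow_of_exponent_le hHone hAA))
      fun n hn => by show hull1 (B (n + 1)) = hull1 (B n); rw [hn]
  have h3 := hI H N hH1 hge (fun n => hull1 (B n)) (hull1_sym B) hSl
    fun n => ⟨0, Or.inr ⟨0, Int.cast_zero⟩⟩
  rw [← hn₀, ← hΛ] at h3
  obtain ⟨V', hV'⟩ : ∃ V', V' = ∑ n ∈ Icc 1 N, (1 / (n : ℝ)) * om1 (hull1 (B n)) R' := ⟨_, rfl⟩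
  rw [← hV'] at h3
  have h4 : V' ≤ Vn + 4 / R' * Λ := by
    rw [hV', hVn]
    have e1 : ∑ n ∈ Icc 1 N, (1 / (n : ℝ)) * om1 (hull1 (B n)) R' ≤
        ∑ n ∈ Icc 1 N, ((1 / (n : ℝ)) * outer (Sym (B n)) R + 2 / R' * (1 / (n : ℝ))) := by
      refine sum_le_sum fun n _ => ?_
      have := mul_le_mul_of_nonneg_left (om1_hull1 (B n) hR hRR)
        (show 0 ≤ 1 / (n : ℝ) by positivity)
      linarith
    rw [sum_add_distrib, ← mul_sum] at e1
    have e2 := mul_le_mul_of_nonneg_left hharm (show 0 ≤ 2 / R' by positivity)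
    have e3 : 2 / R' * (2 * Λ) = 4 / R' * Λ := by ring
    linarith
  have h5 : √(3 * (V' / Λ)) ≤ √(3 * (Vn / Λ)) + ε / 4 := by
    have e1 : 3 * (V' / Λ) ≤ 3 * (Vn / Λ) + 12 / R' := by
      have : V' / Λ ≤ Vn / Λ + 4 / R' := by
        rw [div_le_iff₀ hΛ0, add_mul, div_mul_cancel₀ _ hΛ0.ne']
        exact h4
      have e3 : (12 : ℝ) / R' = 3 * (4 / R') := by ring
      rw [e3]
      linarith
    refine (Real.sqrt_le_sqrt e1).trans ?_
    have e2 : √(3 * (Vn / Λ) + 12 / R') ≤ √(3 * (Vn / Λ)) + √(12 / R') := by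
      refine IFx.le_sqrt_add (by positivity) (by positivity) ?_
      rw [Real.sq_sqrt (by positivity)]
    linarith
  have h6 : √(3 * (V' / Λ)) / Real.pi ≤ √(3 * (Vn / Λ)) / Real.pi + ε / 4 := by
    have e1 : √(3 * (V' / Λ)) / Real.pi ≤ (√(3 * (Vn / Λ)) + ε / 4) / Real.pi := by
      gcongr
    have e2 : ε / 4 / Real.pi ≤ ε / 4 := div_le_self (by linarith) (by linarith [Real.pi_gt_three])
    rw [add_div] at e1
    linarith
  have h7 : ∑ n ∈ Ioc n₀ N, (1 / (n : ℝ)) * sB (B n) H n ≤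
      (√(3 * (Vn / Λ)) / Real.pi + ε / 4 + ε / 4) * Λ := by
    refine le_trans (sum_le_sum fun n _ => ?_) (h3.trans
      (mul_le_mul_of_nonneg_right (by linarith) hΛ0.le))
    refine mul_le_mul_of_nonneg_left ?_ (by positivity)
    exact sB_mono (fun y hy => Or.inl (sub_hull _ hy)) H n
  have h8 : ∑ n ∈ Icc 1 N, (1 / (n : ℝ)) * sB (B n) H n =
      ∑ n ∈ Icc 1 n₀, (1 / (n : ℝ)) * sB (B n) H n +
        ∑ n ∈ Ioc n₀ N, (1 / (n : ℝ)) * sB (B n) H n := by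
    have e1 : Icc 1 N = Ioc 0 N := by ext n; rw [mem_Icc, mem_Ioc]; omega
    have e2 : Icc 1 n₀ = Ioc 0 n₀ := by ext n; rw [mem_Icc, mem_Ioc]; omega
    rw [e1, e2, sum_Ioc_consecutive _ (Nat.zero_le _) hn₀N]
  rw [h8]
  have h9 : 0 ≤ ε * Λ := by positivity
  linarith

/-! ### Part (ii) -/

theorem fin_ii (hII : II') (hV : V_stmt) (A ε R : ℝ) (hε : 0 < ε) (hR : 1 ≤ R) :
    ∃ H₀ : ℕ, ∀ H N : ℕ, H₀ ≤ H → H ≤ N → ∃ L : ℕ, (H : ℝ) ^ (1 - ε) ≤ L ∧ L ≤ H ∧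
      ∀ B : ℕ → Set ℝ, SlowR B ((H : ℝ) ^ A) → ∀ w : ℝ, (∀ n, w ≤ inner (Sym (B n)) R) →
      w * Avg (fun _ => Set.univ) N H / H - ε * Real.log N ≤ Avg B N L / L := by
  obtain ⟨A', hA'⟩ : ∃ A', A' = max A 0 := ⟨_, rfl⟩
  have hA0 : 0 ≤ A' := by rw [hA']; exact le_max_right _ _
  have hAA : A ≤ A' := by rw [hA']; exact le_max_left _ _
  obtain ⟨H1, hII⟩ := hII A' (ε / 4) R hA0 (by linarith) hR
  obtain ⟨H2, hS⟩ := small hV (A' + 5) (ε / 4) (by linarith)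
  refine ⟨max (max H1 H2) (max 3 ⌈Real.exp (4 / ε)⌉₊), fun H N hH hHN => ?_⟩
  have hH1 : H1 ≤ H := ((le_max_left _ _).trans (le_max_left _ _)).trans hH
  have hH2 : H2 ≤ H := ((le_max_right _ _).trans (le_max_left _ _)).trans hH
  have hH3 : 3 ≤ H := ((le_max_left _ _).trans (le_max_right _ _)).trans hH
  have hH4 : ⌈Real.exp (4 / ε)⌉₊ ≤ H := ((le_max_right _ _).trans (le_max_right _ _)).trans hH
  have hHone : (1 : ℝ) ≤ H := by exact_mod_cast (show 1 ≤ H by omega)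
  have hH0 : (0 : ℝ) < H := by linarith
  have hHN' : (H : ℝ) ≤ N := by exact_mod_cast hHN
  have hN0 : (0 : ℝ) < N := by linarith
  obtain ⟨hl1, hharm⟩ := harm (hH3.trans hHN)
  have hle : 4 / ε ≤ Real.log N := by
    rw [Real.le_log_iff_exp_le hN0]
    exact ((Nat.le_ceil _).trans (by exact_mod_cast hH4)).trans hHN'
  obtain ⟨Λ, hΛ⟩ : ∃ Λ, Λ = Real.log N := ⟨_, rfl⟩
  rw [← hΛ] at hl1 hharm hle
  have hΛ0 : 0 < Λ := by linarith
  have hε1 : 1 ≤ ε / 4 * Λ := by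
    rw [div_le_iff₀ hε] at hle
    linarith
  have havg0 : ∀ (B : ℕ → Set ℝ) (L : ℕ), 0 ≤ Avg B N L / L := fun B L => by
    rw [avg_eq]
    refine div_nonneg (mul_nonneg (Nat.cast_nonneg _) (sum_nonneg fun n _ =>
      mul_nonneg (by positivity) (sB_nonneg _ _ _))) (Nat.cast_nonneg _)
  have huniv : Avg (fun _ => Set.univ) N H / H = ∑ n ∈ Icc 1 N, (1 / (n : ℝ)) * sv H n := by
    rw [avg_eq, mul_div_assoc, mul_comm, div_mul_cancel₀ _ hH0.ne']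
    exact sum_congr rfl fun n _ => by rw [sv_le_univ]
  have hsv0 : ∀ n : ℕ, 0 ≤ (1 / (n : ℝ)) * sv H n := fun n =>
    mul_nonneg (by positivity) (IIx.sv_bd H n).1
  rcases lt_or_ge (N : ℝ) ((H : ℝ) ^ (A' + 5)) with hlt | hge
  · refine ⟨H, ?_, le_rfl, fun B hB w hw => ?_⟩
    · calc (H : ℝ) ^ (1 - ε) ≤ (H : ℝ) ^ (1 : ℝ) :=
            Real.rpow_le_rpow_of_exponent_le hHone (by linarith)
        _ = H := Real.rpow_one _
    refine le_trans ?_ (havg0 B H)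
    have h1 := hS H N N hH2 hHN hlt.le le_rfl
    rw [mul_div_assoc, huniv, ← hΛ]
    rw [← hΛ] at h1
    have hw1 : w ≤ 1 := (hw 0).trans (inner_bd _ _).2
    have h0 := sum_nonneg fun n (_ : n ∈ Icc 1 N) => hsv0 n
    have h2 := mul_le_mul_of_nonneg_right hw1 h0
    have h3 : ε / 4 * Λ ≤ ε * Λ := mul_le_mul_of_nonneg_right (by linarith) hΛ0.le
    linarith
  obtain ⟨L, hL1, hL2, hL⟩ := hII H N hH1 hge
  refine ⟨L, ?_, hL2, fun B hB w hw => ?_⟩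
  · refine le_trans ?_ hL1
    exact Real.rpow_le_rpow_of_exponent_le hHone (by linarith)
  have hL0 : (0 : ℝ) < L := lt_of_lt_of_le (Real.rpow_pos_of_pos hH0 _) hL1
  rcases le_or_gt w 0 with hw0 | hw0
  · refine le_trans ?_ (havg0 B L)
    rw [mul_div_assoc, ← hΛ]
    have h1 := mul_nonneg (neg_nonneg.2 hw0) (havg0 (fun _ => Set.univ) H)
    have h3 : 0 ≤ ε * Λ := by positivity
    linarith
  have hSl : Slow (fun n => hull (B n)) ((H : ℝ) ^ A') :=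
    slow_of (B := B) (fun j => (hB j).trans (Real.rpow_le_rpow_of_exponent_le hHone hAA))
      fun n hn => by show hull (B (n + 1)) = hull (B n); rw [hn]
  have h3 := hL (fun n => hull (B n)) (hull_sym B) hSl w hw0.le
    fun n => (hw n).trans (inner_im1 _ _)
  have hLdiv : Avg B N L / L = ∑ n ∈ Icc 1 N, (1 / (n : ℝ)) * sB (B n) L n := by
    rw [avg_eq, mul_div_assoc, mul_comm, div_mul_cancel₀ _ hL0.ne']
  rw [mul_div_assoc, huniv, hLdiv, ← hΛ]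
  rw [← hΛ] at h3
  have hw1 : w ≤ 1 := (hw 0).trans (inner_bd _ _).2
  -- the right side
  have hlogH : 0 ≤ Real.log H := Real.log_nonneg hHone
  have hta0 : 0 ≤ (A' + 4) * Real.log H := by positivity
  have h4 : ∫ u in ((A' + 4) * Real.log H)..Λ,
      (⨆ y : {y : ℝ // y ∈ hull (B ⌊Real.exp u⌋₊)}, vv L ⌊Real.exp u⌋₊ y) ≤
      ∑ n ∈ Icc 1 N, (1 / (n : ℝ)) * sB (B n) L n := by
    have e1 := int_le_sum (fun n => sB (hull (B n)) L n) (fun n => sB_nonneg _ _ _)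
      (fun n => sB_le_one _ _ _) (N := N) (by omega) hta0
    rw [← hΛ] at e1
    refine e1.trans (sum_le_sum fun n _ => ?_)
    exact mul_le_mul_of_nonneg_left (sB_hull _ _ _) (by positivity)
  have h5 := h3.trans h4
  -- the left side
  obtain ⟨n₀, hn₀⟩ : ∃ n₀ : ℕ, n₀ = ⌊(H : ℝ) ^ (A' + 4)⌋₊ := ⟨_, rfl⟩
  have hn₀u : (n₀ : ℝ) ≤ (H : ℝ) ^ (A' + 4) := by
    rw [hn₀]; exact Nat.floor_le (Real.rpow_nonneg hH0.le _)
  have hpw : (H : ℝ) ^ (A' + 4) < (H : ℝ) ^ (A' + 5) := by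
    refine Real.rpow_lt_rpow_of_exponent_lt ?_ (by linarith)
    exact_mod_cast (show 1 < H by omega)
  have hn₀N : n₀ < N := by
    have : (n₀ : ℝ) < N := lt_of_lt_of_le (lt_of_le_of_lt hn₀u hpw) hge
    exact_mod_cast this
  have h6 := hS H N n₀ hH2 hHN (hn₀u.trans hpw.le) hn₀N.le
  rw [← hΛ] at h6
  have h7 := sum_le_int' (fun n => sv H n) (fun n => (IIx.sv_bd H n).1)
    (fun n => (IIx.sv_bd H n).2) hn₀N (ta := (A' + 4) * Real.log H) (by
      rw [← Real.log_rpow hH0]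
      refine Real.log_le_log (Real.rpow_pos_of_pos hH0 _) ?_
      rw [hn₀]
      push_cast
      exact (Nat.lt_floor_add_one _).le)
  rw [← hΛ] at h7
  have h8 : ∑ n ∈ Icc 1 N, (1 / (n : ℝ)) * sv H n =
      ∑ n ∈ Icc 1 n₀, (1 / (n : ℝ)) * sv H n + ∑ n ∈ Ioc n₀ N, (1 / (n : ℝ)) * sv H n := by
    have e1 : Icc 1 N = Ioc 0 N := by ext n; rw [mem_Icc, mem_Ioc]; omega
    have e2 : Icc 1 n₀ = Ioc 0 n₀ := by ext n; rw [mem_Icc, mem_Ioc]; omega
    rw [e1, e2, sum_Ioc_consecutive _ (Nat.zero_le _) hn₀N.le]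
  obtain ⟨II, hIIe⟩ : ∃ II, II = ∫ u in ((A' + 4) * Real.log H)..Λ, sv H ⌊Real.exp u⌋₊ := ⟨_, rfl⟩
  rw [← hIIe] at h5 h7
  have h9 : ∑ n ∈ Icc 1 N, (1 / (n : ℝ)) * sv H n ≤ II + (ε / 4 * Λ + 1) := by
    rw [h8]; linarith
  have h10 := mul_le_mul_of_nonneg_left h9 hw0.le
  have h11 : w * (ε / 4 * Λ + 1) ≤ 1 * (ε / 4 * Λ + 1) :=
    mul_le_mul_of_nonneg_right hw1 (by linarith)
  linarith

end TFx

end

end Pool.Agent.SV
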