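import Mathlib
import Pool.Agent.Lib.SV.Defs3

/-!
# Theorem V (MP_663568_nt): row RW, choice of a window of scales (helper98)
-/

set_option autoImplicit false
open Finset

namespace Pool.Agent.SV

namespace RWr

lemma sum_inv_le {a b : ℕ} (ha : 1 ≤ a) (hab : a ≤ b) :
    ∑ n ∈ Ioc a b, 1 / (n : ℝ) ≤ Real.log b - Real.log a := by
  induction b, hab using Nat.le_induction with
  | base => simp
  | succ b hb ih =>
    rw [← Finset.insert_Ioc_right_eq_Ioc_add_one hb, sum_insert (by simp)]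
    have hb0 : (0 : ℝ) < b := by exact_mod_cast (by omega : 0 < b)
    have h1 : 1 / ((b + 1 : ℕ) : ℝ) ≤ Real.log ((b + 1 : ℕ) : ℝ) - Real.log b := by
      push_cast
      have h2 := Real.log_le_sub_one_of_pos (x := (b : ℝ) / (b + 1)) (by positivity)
      rw [Real.log_div (by positivity) (by positivity)] at h2
      have h3 : (b : ℝ) / (b + 1) - 1 = - (1 / ((b : ℝ) + 1)) := by field_simp; ring
      rw [h3] at h2
      linarith
    linarith

lemma sum_inv_le' {K : ℕ} (hK : 1 ≤ K) : ∑ n ∈ Icc 1 K, 1 / (n : ℝ) ≤ 1 + Real.log K := by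
  have h1 := sum_inv_le le_rfl hK
  have h2 : ∑ n ∈ Icc 1 K, 1 / (n : ℝ) = 1 + ∑ n ∈ Ioc 1 K, 1 / (n : ℝ) := by
    have h3 : Icc 1 K = insert 1 (Ioc 1 K) := by
      ext n
      simp only [mem_Icc, mem_insert, mem_Ioc]
      omega
    rw [h3, sum_insert (by simp)]
    simp
  rw [h2]
  simp only [Nat.cast_one, Real.log_one, sub_zero] at h1
  linarith

/-- The first part of the sum. -/
lemma first {ε : ℝ} (hε : 0 < ε) {H K N : ℕ} (hH : 1 ≤ H) (hK : 1 ≤ K) (hKN : K ≤ N) {Y : ℝ}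
    (hY : 0 ≤ Y) (hKY : Real.log K ≤ Real.log H + Y) {f : ℕ → ℝ}
    (hf1 : ∀ n, f n ≤ 1) (hf : ∀ n, n ≤ 2 * H → f n ≤ ε / 8) :
    ∑ n ∈ Icc 1 K, (1 / (n : ℝ)) * f n ≤ ε / 8 * (1 + Real.log N) + Y := by
  have h1 : ∑ n ∈ Icc 1 K, (1 / (n : ℝ)) * f n ≤
      ε / 8 * ∑ n ∈ Icc 1 K, 1 / (n : ℝ) + ∑ n ∈ Ioc (2 * H) K, 1 / (n : ℝ) := by
    have h2 : ∀ n ∈ Icc 1 K, (1 / (n : ℝ)) * f n ≤ ε / 8 * (1 / (n : ℝ)) +
        (if n ∈ Ioc (2 * H) K then 1 / (n : ℝ) else 0) := by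
      intro n hn
      rw [mem_Icc] at hn
      have h3 : (0 : ℝ) ≤ 1 / (n : ℝ) := by positivity
      by_cases h4 : n ≤ 2 * H
      · rw [if_neg (by rw [mem_Ioc]; omega)]
        have := mul_le_mul_of_nonneg_left (hf n h4) h3
        linarith
      · rw [if_pos (by rw [mem_Ioc]; omega)]
        have := mul_le_mul_of_nonneg_left (hf1 n) h3
        have : 0 ≤ ε / 8 * (1 / (n : ℝ)) := by positivity
        linarith
    refine (sum_le_sum h2).trans ?_
    rw [sum_add_distrib, ← mul_sum, ← sum_filter]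
    gcongr
    intro n hn
    rw [mem_filter] at hn
    exact hn.2
  have h5 := sum_inv_le' hK
  have h6 : Real.log K ≤ Real.log N := Real.log_le_log (by exact_mod_cast hK) (by exact_mod_cast hKN)
  have h7 : ∑ n ∈ Ioc (2 * H) K, 1 / (n : ℝ) ≤ Y := by
    by_cases h8 : 2 * H ≤ K
    · have h9 := sum_inv_le (by omega : 1 ≤ 2 * H) h8
      have h10 : Real.log H ≤ Real.log ((2 * H : ℕ) : ℝ) :=
        Real.log_le_log (by exact_mod_cast hH) (by exact_mod_cast (by omega : H ≤ 2 * H))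
      linarith
    · rw [Finset.Ioc_eq_empty (by omega), sum_empty]
      exact hY
  have h11 : ε / 8 * ∑ n ∈ Icc 1 K, 1 / (n : ℝ) ≤ ε / 8 * (1 + Real.log N) :=
    mul_le_mul_of_nonneg_left (by linarith) (by positivity)
  linarith

/-- Telescoping over consecutive windows. -/
lemma tele (g : ℕ → ℝ) (x : ℕ → ℝ) (hx : Monotone x) (m : ℕ) :
    ∑ n ∈ Ioc ⌊x 0⌋₊ ⌊x m⌋₊, g n = ∑ i ∈ range m, ∑ n ∈ Ioc ⌊x i⌋₊ ⌊x (i + 1)⌋₊, g n := by
  induction m with
  | zero => simp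
  | succ m ih =>
    rw [sum_range_succ, ← ih, sum_Ioc_consecutive _ (Nat.floor_mono (hx (Nat.zero_le _)))
      (Nat.floor_mono (hx (Nat.le_succ _)))]

end RWr

open RWr in
theorem rw1 : RW_stmt := by
  intro A ε _ hε hε1
  refine ⟨ε / 64, by positivity, le_rfl, ⌈Real.exp (4 / ε)⌉₊, ?_⟩
  intro H N hH hHN f hf0 hf1 hf hS
  obtain ⟨κ, hκ⟩ : ∃ κ : ℝ, κ = ε / 64 := ⟨_, rfl⟩
  rw [← hκ]
  have hκ0 : 0 < κ := by rw [hκ]; positivity
  have hHr : Real.exp (4 / ε) ≤ H := (Nat.le_ceil _).trans (by exact_mod_cast hH)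
  have hHpos : (0 : ℝ) < H := lt_of_lt_of_le (Real.exp_pos _) hHr
  have hH1 : 1 ≤ H := by exact_mod_cast hHpos
  have hL : 4 / ε ≤ Real.log H := by
    rw [Real.le_log_iff_exp_le hHpos]
    exact hHr
  have h4ε : (4 : ℝ) ≤ 4 / ε := by
    rw [le_div_iff₀ hε]
    nlinarith
  have hL1 : 4 ≤ ε * Real.log H := by
    rw [div_le_iff₀ hε] at hL
    linarith
  obtain ⟨L, hLd⟩ : ∃ L : ℝ, L = Real.log H := ⟨_, rfl⟩
  rw [← hLd] at hL hL1
  have hN1 : 1 ≤ N := le_trans hH1 hHN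
  have hNpos : (0 : ℝ) < N := by exact_mod_cast hN1
  have hLN : L ≤ Real.log N := by
    rw [hLd]
    exact Real.log_le_log hHpos (by exact_mod_cast hHN)
  have hL4 : 4 ≤ L := le_trans h4ε hL
  -- the starting point
  have hy0 : (H : ℝ) ^ (1 + κ) = Real.exp ((1 + κ) * L) := by
    rw [Real.rpow_def_of_pos hHpos, hLd, mul_comm]
  obtain ⟨y0, hy0d⟩ : ∃ y0 : ℝ, y0 = Real.exp ((1 + κ) * L) := ⟨_, rfl⟩
  have hy0pos : 0 < y0 := by rw [hy0d]; exact Real.exp_pos _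
  have hlogy : Real.log y0 = (1 + κ) * L := by rw [hy0d, Real.log_exp]
  have hy02 : 2 ≤ y0 := by
    rw [hy0d]
    have h1 := Real.add_one_le_exp ((1 + κ) * L)
    nlinarith
  obtain ⟨M, hM⟩ : ∃ M : ℕ, M = ⌊y0⌋₊ := ⟨_, rfl⟩
  have hM1 : 1 ≤ M := by
    rw [hM, Nat.one_le_floor_iff]
    linarith
  have hMpos : (0 : ℝ) < M := by exact_mod_cast hM1
  have hMy : (M : ℝ) ≤ y0 := by rw [hM]; exact Nat.floor_le hy0pos.le
  have hyM : y0 / 2 ≤ M := by
    have h1 := Nat.lt_floor_add_one y0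
    rw [← hM] at h1
    linarith
  have hlogM : Real.log M ≤ L + κ * L := by
    have h1 := Real.log_le_log hMpos hMy
    rw [hlogy] at h1
    linarith
  have hlogM2 : (1 + κ) * L - 1 ≤ Real.log M := by
    have h1 := Real.log_le_log (by positivity) hyM
    rw [Real.log_div hy0pos.ne' (by norm_num), hlogy] at h1
    have h2 := Real.log_two_lt_d9
    linarith
  have hκε : κ * L ≤ ε / 64 * Real.log N := by
    rw [hκ]
    exact mul_le_mul_of_nonneg_left hLN (by positivity)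
  have hεN : 4 ≤ ε * Real.log N := le_trans hL1 (mul_le_mul_of_nonneg_left hLN hε.le)
  -- M < N
  have hMN : M ≤ N := by
    by_contra h
    have h1 := first hε hH1 hN1 le_rfl (Y := κ * L) (by positivity)
      (by
        have h2 : Real.log N ≤ Real.log M :=
          Real.log_le_log hNpos (by exact_mod_cast (not_le.1 h).le)
        rw [← hLd]
        linarith) hf1 hf
    nlinarith
  have hfirst := first hε hH1 hM1 hMN (Y := κ * L) (by positivity) (by rw [← hLd]; exact hlogM)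
    hf1 hf
  have hsplit : ∑ n ∈ Icc 1 N, (1 / (n : ℝ)) * f n =
      ∑ n ∈ Icc 1 M, (1 / (n : ℝ)) * f n + ∑ n ∈ Ioc M N, (1 / (n : ℝ)) * f n := by
    have h1 : ∀ K : ℕ, Icc 1 K = Ioc 0 K := by
      intro K
      ext n
      simp [Nat.one_le_iff_ne_zero, Nat.pos_iff_ne_zero]
    rw [h1, h1, sum_Ioc_consecutive _ (Nat.zero_le _) hMN]
  have htail : ε / 2 * Real.log N < ∑ n ∈ Ioc M N, (1 / (n : ℝ)) * f n := by
    rw [hsplit] at hS
    nlinarith
  have htail2 : ∑ n ∈ Ioc M N, (1 / (n : ℝ)) * f n ≤ Real.log N - Real.log M := by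
    refine le_trans (sum_le_sum fun n hn => ?_) (sum_inv_le hM1 hMN)
    have h3 : (0 : ℝ) ≤ 1 / (n : ℝ) := by positivity
    have := mul_le_mul_of_nonneg_left (hf1 n) h3
    linarith
  obtain ⟨W, hW⟩ : ∃ W : ℝ, W = Real.log N - (1 + κ) * L := ⟨_, rfl⟩
  have hWL : κ * L ≤ W := by
    have h1 : ε / 2 * L ≤ ε / 2 * Real.log N := mul_le_mul_of_nonneg_left hLN (by positivity)
    have h2 : κ * L = ε * L / 64 := by rw [hκ]; ring
    rw [hW]
    nlinarith
  have hWN : W ≤ Real.log N := by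
    rw [hW]
    have : 0 ≤ (1 + κ) * L := by positivity
    linarith
  have hκL : 0 < κ * L := by positivity
  -- the number of windows
  obtain ⟨m, hm⟩ : ∃ m : ℕ, m = ⌊W / (κ * L)⌋₊ := ⟨_, rfl⟩
  have hm1 : 1 ≤ m := by
    rw [hm, Nat.one_le_floor_iff, le_div_iff₀ hκL]
    linarith
  have hmpos : (0 : ℝ) < m := by exact_mod_cast hm1
  have hmW : m * (κ * L) ≤ W := by
    have h1 := Nat.floor_le (a := W / (κ * L)) (div_nonneg (le_trans hκL.le hWL) hκL.le)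
    rw [← hm, le_div_iff₀ hκL] at h1
    exact h1
  have hmW2 : W < (m + 1) * (κ * L) := by
    have h1 := Nat.lt_floor_add_one (W / (κ * L))
    rw [← hm, div_lt_iff₀ hκL] at h1
    exact h1
  obtain ⟨Λ, hΛ⟩ : ∃ Λ : ℝ, Λ = W / m := ⟨_, rfl⟩
  have hmΛ : m * Λ = W := by rw [hΛ]; field_simp
  have hΛ1 : κ * L ≤ Λ := by
    rw [hΛ, le_div_iff₀ hmpos]
    linarith
  have hΛ2 : Λ ≤ 2 * κ * L := by
    rw [hΛ, div_le_iff₀ hmpos]
    have h1 : (1 : ℝ) ≤ m := by exact_mod_cast hm1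
    nlinarith
  have hΛ0 : 0 < Λ := lt_of_lt_of_le hκL hΛ1
  set x : ℕ → ℝ := fun i => Real.exp ((1 + κ) * L + i * Λ) with hx
  have hxm : Monotone x := by
    intro i j hij
    simp only [hx]
    have : (i : ℝ) ≤ j := by exact_mod_cast hij
    gcongr
  have hx0 : x 0 = y0 := by simp only [hx]; rw [hy0d]; simp
  have hxM : x m = N := by
    simp only [hx]
    rw [hmΛ, hW]
    have : (1 + κ) * L + (Real.log N - (1 + κ) * L) = Real.log N := by ring
    rw [this, Real.exp_log hNpos]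
  have htele := tele (fun n => (1 / (n : ℝ)) * f n) x hxm m
  rw [hx0, hxM, ← hM, Nat.floor_natCast] at htele
  -- pigeonhole
  obtain ⟨i, hi, hiS⟩ : ∃ i ∈ range m, ε / 4 * Λ ≤
      ∑ n ∈ Ioc ⌊x i⌋₊ ⌊x (i + 1)⌋₊, (1 / (n : ℝ)) * f n := by
    by_contra h
    push Not at h
    have h1 : ∑ i ∈ range m, ∑ n ∈ Ioc ⌊x i⌋₊ ⌊x (i + 1)⌋₊, (1 / (n : ℝ)) * f n ≤
        ∑ _i ∈ range m, ε / 4 * Λ := sum_le_sum fun i hi => (h i hi).le
    rw [sum_const, card_range, nsmul_eq_mul] at h1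
    have h2 : (m : ℝ) * (ε / 4 * Λ) = ε / 4 * W := by rw [← hmΛ]; ring
    rw [h2, ← htele] at h1
    have h3 : ε / 4 * W ≤ ε / 4 * Real.log N := mul_le_mul_of_nonneg_left hWN (by positivity)
    nlinarith
  rw [mem_range] at hi
  have hxs : x (i + 1) = x i * Real.exp Λ := by
    simp only [hx]
    rw [← Real.exp_add]
    congr 1
    push_cast
    ring
  have hlog : Real.log (x (i + 1)) - Real.log (x i) = Λ := by
    simp only [hx]
    rw [Real.log_exp, Real.log_exp]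
    push_cast
    ring
  have hxi : 0 < x i := Real.exp_pos _
  refine ⟨x i, x (i + 1), ?_, ?_, ?_, ?_, Or.inl ?_, ?_⟩
  · rw [hy0, ← hy0d, ← hx0]
    exact hxm (Nat.zero_le _)
  · rw [hxs]
    have : 1 < Real.exp Λ := Real.one_lt_exp_iff.2 hΛ0
    nlinarith
  · rw [← hxM]
    exact hxm hi
  · rw [hlog, ← hLd]
    exact hΛ1
  · rw [hxs, Real.rpow_def_of_pos hHpos, ← hLd]
    refine mul_le_mul_of_nonneg_left (Real.exp_le_exp.2 ?_) hxi.le
    linarith
  · rw [hlog]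
    exact hiS

end Pool.Agent.SV
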