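import Mathlib
import Pool.Agent.Lib.SV.Defs3

/-!
# Theorem V (MP_663568_nt), row RD: the contradiction.  (helper99)
-/

set_option autoImplicit false
open Finset MeasureTheory

namespace Pool.Agent.SV

open Pool.Agent.Lib.MP_663568_nt Pool.Agent.Lib.MP_663568_nt.Katai
  Pool.Agent.Lib.MP_663568_nt.Nul Pool.Agent.MRL Pool.Agent.MRF Pool.Agent.MRHal

namespace RDr

theorem shift_sum (f : ℕ → ℂ) (l : ℕ) :
    ∑ m ∈ range l, f (m + 1) = ∑ m ∈ Icc 1 l, f m := by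
  induction l with
  | zero => simp
  | succ l ih => rw [Finset.sum_range_succ, ih, Finset.sum_Icc_succ_top (by omega)]

theorem shift_diff (f : ℕ → ℂ) (hf : ∀ n, ‖f n‖ ≤ 1) (l k : ℕ) :
    ‖∑ m ∈ range l, f (m + (k + 1)) - ∑ m ∈ Icc 1 l, f m‖ ≤ 2 * k := by
  induction k with
  | zero => rw [zero_add, shift_sum]; simp
  | succ k ih =>
    have h1 : ∑ m ∈ range l, f (m + (k + 1 + 1)) - ∑ m ∈ range l, f (m + (k + 1)) =
        f (l + (k + 1)) - f (0 + (k + 1)) := by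
      rw [← Finset.sum_sub_distrib]
      have := Finset.sum_range_sub (fun m => f (m + (k + 1))) l
      rw [← this]
      refine Finset.sum_congr rfl fun m _ => ?_
      congr 2
      ring
    have h2 : ∑ m ∈ range l, f (m + (k + 1 + 1)) - ∑ m ∈ Icc 1 l, f m =
        (f (l + (k + 1)) - f (0 + (k + 1))) +
        (∑ m ∈ range l, f (m + (k + 1)) - ∑ m ∈ Icc 1 l, f m) := by
      rw [← h1]
      ring
    rw [h2]
    refine (norm_add_le _ _).trans ?_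
    have h3 : ‖f (l + (k + 1)) - f (0 + (k + 1))‖ ≤ 2 := by
      refine (norm_sub_le _ _).trans ?_
      linarith [hf (l + (k + 1)), hf (0 + (k + 1))]
    push_cast
    linarith

/-- a long sum as an average of short sums. -/
theorem avg (f : ℕ → ℂ) (hf : ∀ n, ‖f n‖ ≤ 1) (l h : ℕ) :
    h * ‖∑ m ∈ Icc 1 l, f m‖ ≤ ∑ m ∈ range l, ‖∑ k ∈ Icc 1 h, f (m + k)‖ + 2 * (h : ℝ) ^ 2 := by
  have h1 : ∑ k ∈ Icc 1 h, ∑ m ∈ range l, f (m + k) =
      ∑ k ∈ Icc 1 h, (∑ m ∈ range l, f (m + k) - ∑ m ∈ Icc 1 l, f m) +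
        h * ∑ m ∈ Icc 1 l, f m := by
    rw [Finset.sum_sub_distrib, Finset.sum_const, Nat.card_Icc, nsmul_eq_mul]
    simp
  have h2 : (h : ℂ) * ∑ m ∈ Icc 1 l, f m = ∑ m ∈ range l, ∑ k ∈ Icc 1 h, f (m + k) -
      ∑ k ∈ Icc 1 h, (∑ m ∈ range l, f (m + k) - ∑ m ∈ Icc 1 l, f m) := by
    rw [Finset.sum_comm, h1]
    ring
  have h3 : (h : ℝ) * ‖∑ m ∈ Icc 1 l, f m‖ = ‖(h : ℂ) * ∑ m ∈ Icc 1 l, f m‖ := by
    rw [norm_mul]
    simp
  rw [h3, h2]
  refine (norm_sub_le _ _).trans (add_le_add (norm_sum_le _ _) ?_)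
  refine (norm_sum_le _ _).trans ?_
  have h4 : ∀ k ∈ Icc 1 h, ‖∑ m ∈ range l, f (m + k) - ∑ m ∈ Icc 1 l, f m‖ ≤ 2 * (h : ℝ) := by
    intro k hk
    rw [Finset.mem_Icc] at hk
    obtain ⟨j, rfl⟩ : ∃ j, k = j + 1 := ⟨k - 1, by omega⟩
    refine (shift_diff f hf l j).trans ?_
    have : ((j + 1 : ℕ) : ℝ) ≤ h := by exact_mod_cast hk.2
    push_cast at this
    linarith
  refine (Finset.sum_le_sum h4).trans ?_
  rw [Finset.sum_const, Nat.card_Icc, nsmul_eq_mul]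
  simp only [Nat.add_sub_cancel]
  nlinarith

/-- the sum over the classes. -/
noncomputable def Zf (Q h : ℕ) (T : ℝ) (x : ℕ) : ℝ :=
  ∑ r ∈ range Q, ‖∑ k ∈ Icc 1 h,
    (if (x + k) % Q = r % Q then muC (x + k) * nt (x + k) T else 0)‖

theorem Zf_nonneg (Q h : ℕ) (T : ℝ) (x : ℕ) : 0 ≤ Zf Q h T x :=
  Finset.sum_nonneg fun _ _ => norm_nonneg _

theorem ee_class (Q : ℕ) (hQ : 1 ≤ Q) (j : ℤ) (n : ℕ) :
    ee (j * n / Q) = ee (j * ((n % Q : ℕ) : ℝ) / Q) := by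
  have hQ' : (Q : ℝ) ≠ 0 := by positivity
  have h1 : (n : ℝ) = Q * ((n / Q : ℕ) : ℝ) + ((n % Q : ℕ) : ℝ) := by
    exact_mod_cast (Nat.div_add_mod n Q).symm
  have h2 : (j * n / Q : ℝ) = ((j * ((n / Q : ℕ) : ℤ) : ℤ) : ℝ) + j * ((n % Q : ℕ) : ℝ) / Q := by
    rw [h1, Int.cast_mul, Int.cast_natCast]
    field_simp
  rw [h2, ee_add, ee_int, one_mul]

theorem classes (Q h : ℕ) (hQ : 1 ≤ Q) (T : ℝ) (x : ℕ) (j : ℤ) :
    ‖∑ k ∈ Icc 1 h, muC (x + k) * nt (x + k) T * ee (j * ((x + k : ℕ) : ℝ) / Q)‖ ≤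
      Zf Q h T x := by
  have h1 : ∀ k ∈ Icc 1 h, muC (x + k) * nt (x + k) T * ee (j * ((x + k : ℕ) : ℝ) / Q) =
      ∑ r ∈ range Q, ee (j * (r : ℝ) / Q) *
        (if (x + k) % Q = r % Q then muC (x + k) * nt (x + k) T else 0) := by
    intro k _
    rw [Finset.sum_eq_single ((x + k) % Q)]
    · rw [if_pos (by rw [Nat.mod_mod]), ee_class Q hQ]
      ring
    · intro r hr hne
      rw [Finset.mem_range] at hr
      rw [if_neg (by rw [Nat.mod_eq_of_lt hr]; exact fun h => hne h.symm), mul_zero]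
    · intro hn
      exact absurd (Finset.mem_range.2 (Nat.mod_lt _ (by omega))) hn
  rw [Finset.sum_congr rfl h1, Finset.sum_comm]
  refine (norm_sum_le _ _).trans (Finset.sum_le_sum fun r _ => ?_)
  rw [← Finset.mul_sum, norm_mul, norm_ee, one_mul]

theorem nt_ee (n : ℕ) (T₀ : ℝ) : nt n (-(2 * Real.pi * T₀)) = ee (T₀ * Real.log n) := by
  rw [nt, ee]
  congr 1
  push_cast
  ring

/-- one point. -/
theorem point (Q h : ℕ) (hQ : 1 ≤ Q) (T₀ b δ : ℝ) (x : ℕ) (j : ℤ)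
    (hb : ∀ k ∈ Icc 1 h, |b * k - (T₀ * (Real.log ((x + k : ℕ) : ℝ) - Real.log x) + j * k / Q)| ≤ δ) :
    ‖∑ k ∈ Icc 1 h, muC (x + k) * ee (b * k)‖ ≤
      Zf Q h (-(2 * Real.pi * T₀)) x + h * (2 * Real.pi * δ) := by
  set c : ℂ := ee (-(T₀ * Real.log x) - j * x / Q) with hc
  have hcn : ‖c‖ = 1 := norm_ee _
  have h1 : ∀ k ∈ Icc 1 h,
      ee (T₀ * (Real.log ((x + k : ℕ) : ℝ) - Real.log x) + j * k / Q) =
      c * (nt (x + k) (-(2 * Real.pi * T₀)) * ee (j * ((x + k : ℕ) : ℝ) / Q)) := by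
    intro k _
    rw [nt_ee, hc, ← ee_add, ← ee_add]
    congr 1
    push_cast
    ring
  have h2 : ∑ k ∈ Icc 1 h, muC (x + k) * ee (b * k) =
      c * ∑ k ∈ Icc 1 h, muC (x + k) * nt (x + k) (-(2 * Real.pi * T₀)) *
        ee (j * ((x + k : ℕ) : ℝ) / Q) +
      ∑ k ∈ Icc 1 h, muC (x + k) * (ee (b * k) -
        ee (T₀ * (Real.log ((x + k : ℕ) : ℝ) - Real.log x) + j * k / Q)) := by
    rw [Finset.mul_sum, ← Finset.sum_add_distrib]
    refine Finset.sum_congr rfl fun k hk => ?_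
    rw [h1 k hk]
    ring
  rw [h2]
  refine (norm_add_le _ _).trans (add_le_add ?_ ?_)
  · rw [norm_mul, hcn, one_mul]
    exact classes Q h hQ _ x j
  · refine (norm_sum_le _ _).trans ?_
    have h3 : ∀ k ∈ Icc 1 h, ‖muC (x + k) * (ee (b * k) -
        ee (T₀ * (Real.log ((x + k : ℕ) : ℝ) - Real.log x) + j * k / Q))‖ ≤
        2 * Real.pi * δ := by
      intro k hk
      rw [norm_mul]
      have h4 := norm_ee_sub_ee_le (b * k)
        (T₀ * (Real.log ((x + k : ℕ) : ℝ) - Real.log x) + j * k / Q)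
      have h5 : 2 * Real.pi * |b * k - (T₀ * (Real.log ((x + k : ℕ) : ℝ) - Real.log x) +
          j * k / Q)| ≤ 2 * Real.pi * δ :=
        mul_le_mul_of_nonneg_left (hb k hk) (by positivity)
      have h6 := norm_muC (x + k)
      have h7 := norm_nonneg (ee (b * k) -
        ee (T₀ * (Real.log ((x + k : ℕ) : ℝ) - Real.log x) + j * k / Q))
      calc _ ≤ 1 * ‖ee (b * k) -
            ee (T₀ * (Real.log ((x + k : ℕ) : ℝ) - Real.log x) + j * k / Q)‖ :=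
            mul_le_mul_of_nonneg_right h6 h7
        _ ≤ _ := by rw [one_mul]; exact h4.trans h5
    refine (Finset.sum_le_sum h3).trans ?_
    rw [Finset.sum_const, Nat.card_Icc, nsmul_eq_mul]
    simp

/-- the phase. -/
theorem phase {E E0 : ℝ} {x k h l : ℕ} (hE0 : 0 < E0) (hE : E0 ≤ E) (hx : E0 / 2 ≤ x)
    (hxE : |(x : ℝ) - E| ≤ 2 * l) (hkh : k ≤ h) :
    |(k : ℝ) / E - (Real.log ((x + k : ℕ) : ℝ) - Real.log x)| ≤
      4 * h * l / E0 ^ 2 + 4 * h ^ 2 / E0 ^ 2 := by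
  have hx0 : 0 < (x : ℝ) := by linarith
  have hEp : 0 < E := by linarith
  have hkh' : (k : ℝ) ≤ h := by exact_mod_cast hkh
  have hk0 : (0 : ℝ) ≤ k := Nat.cast_nonneg k
  have hh0 : (0 : ℝ) ≤ h := Nat.cast_nonneg h
  have hl0 : (0 : ℝ) ≤ l := Nat.cast_nonneg l
  set t : ℝ := k / x with ht
  have ht0 : 0 ≤ t := by positivity
  have hlog : Real.log ((x + k : ℕ) : ℝ) - Real.log x = Real.log (1 + t) := by
    have h1 : ((x + k : ℕ) : ℝ) = x * (1 + t) := by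
      rw [ht]
      push_cast
      field_simp
    rw [h1, Real.log_mul hx0.ne' (by positivity)]
    ring
  rw [hlog]
  have hup : Real.log (1 + t) ≤ t := by
    have := Real.log_le_sub_one_of_pos (show 0 < 1 + t by positivity)
    linarith
  have hlow : t - t ^ 2 ≤ Real.log (1 + t) := by
    have h1 := Real.one_sub_inv_le_log_of_pos (show 0 < 1 + t by positivity)
    have h2 : t - t ^ 2 ≤ 1 - (1 + t)⁻¹ := by
      rw [← sub_nonneg]
      have h3 : 1 - (1 + t)⁻¹ - (t - t ^ 2) = t ^ 3 / (1 + t) := by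
        field_simp
        ring
      rw [h3]
      positivity
    linarith
  have ht2 : t ^ 2 ≤ 4 * h ^ 2 / E0 ^ 2 := by
    have h1 : t ≤ 2 * h / E0 := by
      rw [ht, div_le_div_iff₀ hx0 hE0]
      nlinarith
    calc t ^ 2 ≤ (2 * h / E0) ^ 2 := pow_le_pow_left₀ ht0 h1 2
      _ = _ := by rw [div_pow]; ring
  have hd : |(k : ℝ) / E - t| ≤ 4 * h * l / E0 ^ 2 := by
    have h1 : (k : ℝ) / E - t = k * ((x : ℝ) - E) / (x * E) := by
      rw [ht]
      field_simp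
    rw [h1, abs_div, abs_mul, abs_of_nonneg hk0, abs_of_pos (mul_pos hx0 hEp)]
    have h2 : E0 ^ 2 / 2 ≤ x * E := by nlinarith
    have h3 : (k : ℝ) * |(x : ℝ) - E| ≤ h * (2 * l) :=
      mul_le_mul hkh' hxE (abs_nonneg _) hh0
    calc (k : ℝ) * |(x : ℝ) - E| / (x * E) ≤ h * (2 * l) / (E0 ^ 2 / 2) :=
          div_le_div₀ (by positivity) h3 (by positivity) h2
      _ = _ := by
        field_simp
        ring
  rw [abs_le] at hd ⊢
  constructor <;> linarith [hd.1, hd.2]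

/-- naturals in an open interval. -/
theorem card_open (S : Finset ℕ) (a a' : ℝ) (haa : a ≤ a') (h : ∀ j ∈ S, a < j ∧ (j : ℝ) < a') :
    (S.card : ℝ) ≤ a' - a + 1 := by
  rcases S.eq_empty_or_nonempty with h0 | h0
  · rw [h0]
    simp
    linarith
  · have h1 : S ⊆ Icc (S.min' h0) (S.max' h0) := fun j hj =>
      Finset.mem_Icc.2 ⟨S.min'_le j hj, S.le_max' j hj⟩
    have h2 := Finset.card_le_card h1
    rw [Nat.card_Icc] at h2
    have h3 := h _ (S.min'_mem h0)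
    have h4 := h _ (S.max'_mem h0)
    have h5 : S.min' h0 ≤ S.max' h0 := S.min'_le _ (S.max'_mem h0)
    have h6 : (S.card : ℝ) ≤ ((S.max' h0 + 1 - S.min' h0 : ℕ) : ℝ) := by exact_mod_cast h2
    rw [Nat.cast_sub (by omega)] at h6
    push_cast at h6
    linarith [h3.1, h4.2]

/-- a cell has small measure. -/
theorem cell_vol {u₀ w : ℝ} {j : ℕ} (hw : 0 < w) (A : Set ℝ)
    (hA : ∀ u ∈ A, u₀ ≤ u ∧ ⌊Real.exp u / w⌋₊ = j) :
    volume A ≤ ENNReal.ofReal (w / Real.exp u₀) := by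
  refine (Real.volume_le_diam A).trans ?_
  refine Metric.ediam_le_of_forall_dist_le ?_
  have key : ∀ u ∈ A, ∀ v ∈ A, u ≤ v → v - u ≤ w / Real.exp u₀ := by
    intro u hu v hv huv
    obtain ⟨hu1, hu2⟩ := hA u hu
    obtain ⟨hv1, hv2⟩ := hA v hv
    have h1 : (j : ℝ) ≤ Real.exp u / w := by
      rw [← hu2]
      exact Nat.floor_le (by positivity)
    have h2 : Real.exp v / w < j + 1 := by
      rw [← hv2]
      exact Nat.lt_floor_add_one _
    rw [le_div_iff₀ hw] at h1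
    rw [div_lt_iff₀ hw] at h2
    have h3 : Real.exp v = Real.exp u * Real.exp (v - u) := by
      rw [← Real.exp_add]
      congr 1
      ring
    have h4 := Real.add_one_le_exp (v - u)
    have h5 : Real.exp u₀ ≤ Real.exp u := Real.exp_le_exp.2 hu1
    have h6 : Real.exp u * (v - u) ≤ Real.exp v - Real.exp u := by
      rw [h3]
      nlinarith [Real.exp_pos u]
    have h7 : Real.exp u₀ * (v - u) ≤ Real.exp u * (v - u) :=
      mul_le_mul_of_nonneg_right h5 (by linarith)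
    rw [le_div_iff₀ (Real.exp_pos _)]
    nlinarith
  intro u hu v hv
  rw [Real.dist_eq]
  rcases le_total u v with h | h
  · rw [abs_sub_comm, abs_of_nonneg (by linarith)]
    exact key u hu v hv h
  · rw [abs_of_nonneg (by linarith)]
    exact key v hv u hu h

/-- the lower bound for one cell. -/
theorem cell_low {e η ϑ : ℝ} {Q h l : ℕ} (he : 0 < e) (hη : 0 < η) (hη1 : η ≤ 1) (hQ : 1 ≤ Q)
    (hh : 1 ≤ h) (hl : 1 ≤ l) (hlh : 8 * h / e ≤ l) {E0 : ℝ} (hE0 : 0 < E0)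
    (hlE : (l : ℝ) ≤ ϑ * E0) (hϑ0 : 0 < ϑ) (hϑ1 : ϑ ≤ 1 / 4) (hϑ2 : ϑ * (228 * h ^ 2) ≤ e)
    {T₀ : ℝ} (hT : |T₀| * l ≤ ϑ * E0 ^ 2) {B : ℕ → ℝ} {u : ℝ} (hu : E0 ≤ Real.exp u)
    (h1 : e ≤ vv l ⌊(⌊Real.exp u / (η * l)⌋₊ : ℝ) * (η * l)⌋₊ (B ⌊Real.exp u / (η * l)⌋₊))
    (h2 : ∃ j : ℤ, |B ⌊Real.exp u / (η * l)⌋₊ - T₀ * Real.exp (-u) - j / Q| ≤ ϑ) :
    e / 2 * (h * l) ≤ ∑ m ∈ range l, Zf Q h (-(2 * Real.pi * T₀))
      (⌊(⌊Real.exp u / (η * l)⌋₊ : ℝ) * (η * l)⌋₊ + m) ∧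
    E0 / 2 ≤ (⌊(⌊Real.exp u / (η * l)⌋₊ : ℝ) * (η * l)⌋₊ : ℝ) ∧
    (⌊(⌊Real.exp u / (η * l)⌋₊ : ℝ) * (η * l)⌋₊ : ℝ) ≤ Real.exp u := by
  set j : ℕ := ⌊Real.exp u / (η * l)⌋₊ with hj
  set y : ℕ := ⌊(j : ℝ) * (η * l)⌋₊ with hy
  set b : ℝ := B j with hb
  obtain ⟨jj, hjj⟩ := h2
  have hl0 : (1 : ℝ) ≤ l := by exact_mod_cast hl
  have hh0 : (1 : ℝ) ≤ h := by exact_mod_cast hh
  have hηl : 0 < η * l := by positivity
  have hEu : 0 < Real.exp u := Real.exp_pos u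
  have hj1 : (j : ℝ) * (η * l) ≤ Real.exp u := by
    have := Nat.floor_le (show 0 ≤ Real.exp u / (η * l) by positivity)
    rwa [← hj, le_div_iff₀ hηl] at this
  have hj2 : Real.exp u < ((j : ℝ) + 1) * (η * l) := by
    have := Nat.lt_floor_add_one (Real.exp u / (η * l))
    rwa [← hj, div_lt_iff₀ hηl] at this
  have hy1 : (y : ℝ) ≤ (j : ℝ) * (η * l) := Nat.floor_le (by positivity)
  have hy2 : (j : ℝ) * (η * l) < y + 1 := Nat.lt_floor_add_one _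
  have hηll : η * l ≤ l := by nlinarith
  have hyE : Real.exp u - l - 1 < y := by nlinarith
  have hlE2 : (l : ℝ) + 1 ≤ E0 / 2 := by nlinarith
  refine ⟨?_, by linarith, by linarith⟩
  -- the average
  have hav := avg (fun m => muC (y + m) * ee (b * m)) (fun m => by
    rw [norm_mul, norm_ee, mul_one]
    exact norm_muC _) l h
  have hbig : e * l ≤ ‖∑ m ∈ Icc 1 l, muC (y + m) * ee (b * m)‖ := by
    rw [vv, le_div_iff₀ (by linarith)] at h1
    exact h1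
  -- the error
  have herr : ∀ m ∈ range l, ‖∑ k ∈ Icc 1 h, muC (y + (m + k)) * ee (b * ((m + k : ℕ) : ℝ))‖ ≤
      Zf Q h (-(2 * Real.pi * T₀)) (y + m) + e / 4 * h := by
    intro m hm
    rw [Finset.mem_range] at hm
    have hml : (m : ℝ) ≤ l := by exact_mod_cast hm.le
    have hxE : |((y + m : ℕ) : ℝ) - Real.exp u| ≤ 2 * l := by
      push_cast
      rw [abs_le]
      constructor <;> linarith [Nat.cast_nonneg (α := ℝ) m]
    have hx2 : E0 / 2 ≤ ((y + m : ℕ) : ℝ) := by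
      push_cast
      linarith [Nat.cast_nonneg (α := ℝ) m]
    have h3 : ∑ k ∈ Icc 1 h, muC (y + (m + k)) * ee (b * ((m + k : ℕ) : ℝ)) =
        ee (b * m) * ∑ k ∈ Icc 1 h, muC ((y + m) + k) * ee (b * k) := by
      rw [Finset.mul_sum]
      refine Finset.sum_congr rfl fun k _ => ?_
      rw [← add_assoc, show b * ((m + k : ℕ) : ℝ) = b * m + b * k by push_cast; ring, ee_add]
      ring
    rw [h3, norm_mul, norm_ee, one_mul]
    have h4 := point Q h hQ T₀ b (9 * h ^ 2 * ϑ) (y + m) jj (fun k hk => by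
      rw [Finset.mem_Icc] at hk
      have hkh : (k : ℝ) ≤ h := by exact_mod_cast hk.2
      have hk0 : (0 : ℝ) ≤ k := Nat.cast_nonneg k
      have h5 := phase (E := Real.exp u) (E0 := E0) (x := y + m) (k := k) (h := h) (l := l)
        hE0 hu hx2 hxE hk.2
      have h6 : b * k - (T₀ * (Real.log ((y + m + k : ℕ) : ℝ) - Real.log ((y + m : ℕ) : ℝ)) +
          jj * k / Q) = k * (b - T₀ * Real.exp (-u) - jj / Q) +
          T₀ * ((k : ℝ) / Real.exp u -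
            (Real.log ((y + m + k : ℕ) : ℝ) - Real.log ((y + m : ℕ) : ℝ))) := by
        rw [Real.exp_neg]
        ring
      rw [h6]
      refine (abs_add_le _ _).trans ?_
      rw [abs_mul, abs_mul, abs_of_nonneg hk0]
      have h7 : (k : ℝ) * |b - T₀ * Real.exp (-u) - jj / Q| ≤ h * ϑ :=
        mul_le_mul hkh hjj (abs_nonneg _) (by linarith)
      have h8 : |T₀| * |(k : ℝ) / Real.exp u -
            (Real.log ((y + m + k : ℕ) : ℝ) - Real.log ((y + m : ℕ) : ℝ))| ≤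
          |T₀| * (4 * h * l / E0 ^ 2 + 4 * h ^ 2 / E0 ^ 2) :=
        mul_le_mul_of_nonneg_left h5 (abs_nonneg _)
      have h9 : |T₀| * (4 * h * l / E0 ^ 2 + 4 * h ^ 2 / E0 ^ 2) ≤ 8 * h ^ 2 * ϑ := by
        have h10 : |T₀| * (4 * h * l / E0 ^ 2 + 4 * h ^ 2 / E0 ^ 2) =
            (|T₀| * (4 * h * l + 4 * h ^ 2)) / E0 ^ 2 := by ring
        rw [h10, div_le_iff₀ (by positivity)]
        have h11 : 4 * (h : ℝ) * l + 4 * h ^ 2 ≤ 8 * h ^ 2 * l := by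
          have h12 : (h : ℝ) * l ≤ h ^ 2 * l :=
            mul_le_mul_of_nonneg_right (by nlinarith) (by linarith)
          have h13 : (h : ℝ) ^ 2 * 1 ≤ h ^ 2 * l :=
            mul_le_mul_of_nonneg_left hl0 (by positivity)
          linarith
        calc |T₀| * (4 * h * l + 4 * h ^ 2) ≤ |T₀| * (8 * h ^ 2 * l) :=
              mul_le_mul_of_nonneg_left h11 (abs_nonneg _)
          _ = 8 * h ^ 2 * (|T₀| * l) := by ring
          _ ≤ 8 * h ^ 2 * (ϑ * E0 ^ 2) := mul_le_mul_of_nonneg_left hT (by positivity)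
          _ = _ := by ring
      have h14 : (h : ℝ) * ϑ ≤ h ^ 2 * ϑ :=
        mul_le_mul_of_nonneg_right (by nlinarith) hϑ0.le
      linarith)
    refine h4.trans (add_le_add le_rfl ?_)
    have hpi : Real.pi < 3.15 := Real.pi_lt_d2
    have h15 : 2 * Real.pi * (9 * h ^ 2 * ϑ) ≤ e / 4 := by
      have h16 : 0 < (h : ℝ) ^ 2 * ϑ := by positivity
      nlinarith
    nlinarith
  have hsum : ∑ m ∈ range l, ‖∑ k ∈ Icc 1 h, muC (y + (m + k)) * ee (b * ((m + k : ℕ) : ℝ))‖ ≤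
      ∑ m ∈ range l, Zf Q h (-(2 * Real.pi * T₀)) (y + m) + l * (e / 4 * h) := by
    refine (Finset.sum_le_sum herr).trans ?_
    rw [Finset.sum_add_distrib, Finset.sum_const, Finset.card_range, nsmul_eq_mul]
  have h5 : (h : ℝ) * (e * l) ≤ h * ‖∑ m ∈ Icc 1 l, muC (y + m) * ee (b * m)‖ :=
    mul_le_mul_of_nonneg_left hbig (by linarith)
  have h6 : 2 * (h : ℝ) ^ 2 ≤ e / 4 * (h * l) := by
    rw [div_le_iff₀ he] at hlh
    nlinarith
  have h7 : (h : ℝ) * ‖∑ m ∈ Icc 1 l, muC (y + m) * ee (b * m)‖ ≤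
      (∑ m ∈ range l, Zf Q h (-(2 * Real.pi * T₀)) (y + m) + l * (e / 4 * h)) +
        2 * (h : ℝ) ^ 2 := hav.trans (add_le_add hsum le_rfl)
  nlinarith

end RDr

open RDr Classical in
/-- Row RD. -/
theorem rd : RD_stmt := by
  intro hMu e c η Q he hc hη hη1 hQ
  set ε : ℝ := e * c / (40 * Q) with hε
  have hQ0 : (1 : ℝ) ≤ Q := by exact_mod_cast hQ
  have hε0 : 0 < ε := by positivity
  have hmu := fun r : ℕ => hMu 3 Q r hQ ε hε0
  choose h0 hh0 using hmu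
  set h : ℕ := (range Q).sup h0 + 1 with hh
  have hh1 : 1 ≤ h := by omega
  have hh1' : (1 : ℝ) ≤ h := by exact_mod_cast hh1
  have hhr : ∀ r ∈ range Q, h0 r ≤ h := fun r hr => by
    have := Finset.le_sup (f := h0) hr
    omega
  have hX := fun r : range Q => hh0 r h (hhr r r.2)
  choose X0 hX0 using hX
  set X1 : ℝ := ∑ r : range Q, |X0 r| with hX1
  have hX1r : ∀ r : range Q, X0 r ≤ X1 := fun r => (le_abs_self _).trans
    (Finset.single_le_sum (f := fun r : range Q => |X0 r|) (fun _ _ => abs_nonneg _)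
      (Finset.mem_univ r))
  have hX10 : 0 ≤ X1 := Finset.sum_nonneg fun _ _ => abs_nonneg _
  set ϑ : ℝ := min (1 / 4) (e / (228 * h ^ 2)) with hϑ
  have hϑ0 : 0 < ϑ := lt_min (by norm_num) (by positivity)
  have hϑ1 : ϑ ≤ 1 / 4 := min_le_left _ _
  have hϑ2 : ϑ * (228 * h ^ 2) ≤ e := by
    rw [← le_div_iff₀ (by positivity)]
    exact min_le_right _ _
  refine ⟨ϑ, hϑ0, ⌈8 * h / e⌉₊ + 1, Real.log (2 * X1 + 100), ?_⟩
  intro l hl u₀ T₀ hu₀ hlE hT1 hT2 B S hS hSsub hSc hSu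
  have hl1 : 1 ≤ l := by omega
  have hl1' : (1 : ℝ) ≤ l := by exact_mod_cast hl1
  have hlh : 8 * h / e ≤ (l : ℝ) := by
    refine (Nat.le_ceil _).trans ?_
    exact_mod_cast (by omega : ⌈8 * (h : ℝ) / e⌉₊ ≤ l)
  set E0 : ℝ := Real.exp u₀ with hE0
  have hE0p : 0 < E0 := Real.exp_pos _
  have hE0X : 2 * X1 + 100 ≤ E0 := by
    rw [hE0, ← Real.exp_log (show 0 < 2 * X1 + 100 by linarith)]
    exact Real.exp_le_exp.2 hu₀
  have hexp2 : Real.exp (2 * u₀) = E0 ^ 2 := by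
    rw [hE0, ← Real.exp_nat_mul]
    norm_num
  rw [hexp2] at hT1 hT2
  set T : ℝ := -(2 * Real.pi * T₀) with hT
  have hηl : 0 < η * l := by positivity
  -- the sum of Z over one dyadic block
  have hblock : ∀ X : ℝ, E0 / 2 ≤ X → ∑ x ∈ Icc ⌈X⌉₊ ⌊2 * X⌋₊, Zf Q h T x ≤ Q * (ε * h * X) := by
    intro X hX
    have hTX : |T| ≤ X ^ 3 := by
      rw [hT, abs_neg, abs_mul, abs_of_pos (by positivity)]
      have hpi : Real.pi < 3.15 := Real.pi_lt_d2
      have h1 : (E0 / 2) ^ 3 ≤ X ^ 3 := pow_le_pow_left₀ (by positivity) hX 3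
      have h2 : 2 * Real.pi * |T₀| ≤ 2 * 3.15 * E0 ^ 2 :=
        mul_le_mul (by linarith) hT1 (abs_nonneg _) (by norm_num)
      have h3 : 2 * 3.15 * E0 ^ 2 ≤ (E0 / 2) ^ 3 := by
        have h4 : 100 ≤ E0 := by linarith
        have h5 : 0 < E0 ^ 2 := by positivity
        nlinarith
      linarith
    unfold Zf
    rw [Finset.sum_comm]
    have h1 : ∀ r ∈ range Q, ∑ x ∈ Icc ⌈X⌉₊ ⌊2 * X⌋₊, ‖∑ k ∈ Icc 1 h,
        (if (x + k) % Q = r % Q then muC (x + k) * nt (x + k) T else 0)‖ ≤ ε * h * X := by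
      intro r hr
      have h2 : X0 ⟨r, hr⟩ ≤ X := by
        have := hX1r ⟨r, hr⟩
        linarith
      exact hX0 ⟨r, hr⟩ X h2 T hTX
    refine (Finset.sum_le_sum h1).trans ?_
    rw [Finset.sum_const, Finset.card_range, nsmul_eq_mul]
  set A : Finset ℕ := Icc ⌈E0 / 2⌉₊ ⌊4 * E0⌋₊ with hA
  have hAsum : ∑ x ∈ A, Zf Q h T x ≤ Q * (ε * h * (7 / 2 * E0)) := by
    have h1 : A ⊆ (Icc ⌈E0 / 2⌉₊ ⌊2 * (E0 / 2)⌋₊ ∪ Icc ⌈E0⌉₊ ⌊2 * E0⌋₊) ∪
        Icc ⌈2 * E0⌉₊ ⌊2 * (2 * E0)⌋₊ := by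
      intro x hx
      rw [hA, Finset.mem_Icc, Nat.ceil_le, Nat.le_floor_iff (by positivity)] at hx
      simp only [Finset.mem_union, Finset.mem_Icc, Nat.ceil_le]
      rw [Nat.le_floor_iff (by positivity), Nat.le_floor_iff (by positivity),
        Nat.le_floor_iff (by positivity)]
      rcases le_total (x : ℝ) E0 with h2 | h2
      · exact Or.inl (Or.inl ⟨hx.1, by linarith⟩)
      · rcases le_total (x : ℝ) (2 * E0) with h3 | h3
        · exact Or.inl (Or.inr ⟨h2, h3⟩)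
        · exact Or.inr ⟨h3, by linarith [hx.2]⟩
    refine (Finset.sum_le_sum_of_subset_of_nonneg h1 fun _ _ _ => Zf_nonneg _ _ _ _).trans ?_
    have hun : ∀ s t : Finset ℕ, ∑ x ∈ s ∪ t, Zf Q h T x ≤
        ∑ x ∈ s, Zf Q h T x + ∑ x ∈ t, Zf Q h T x := by
      intro s t
      rw [← Finset.sum_union_inter]
      exact le_add_of_nonneg_right (Finset.sum_nonneg fun _ _ => Zf_nonneg _ _ _ _)
    have h2 := hblock (E0 / 2) le_rfl
    have h3 := hblock E0 (by linarith)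
    have h4 := hblock (2 * E0) (by linarith)
    have h5 := hun (Icc ⌈E0 / 2⌉₊ ⌊2 * (E0 / 2)⌋₊ ∪ Icc ⌈E0⌉₊ ⌊2 * E0⌋₊)
      (Icc ⌈2 * E0⌉₊ ⌊2 * (2 * E0)⌋₊)
    have h6 := hun (Icc ⌈E0 / 2⌉₊ ⌊2 * (E0 / 2)⌋₊) (Icc ⌈E0⌉₊ ⌊2 * E0⌋₊)
    linarith
  -- the cells
  set Nn : ℕ := ⌊Real.exp (u₀ + 1) / (η * l)⌋₊ + 1 with hNn
  set J : Finset ℕ := (range Nn).filter fun j => ∃ u ∈ S, ⌊Real.exp u / (η * l)⌋₊ = j with hJ
  have hJmem : ∀ u ∈ S, ⌊Real.exp u / (η * l)⌋₊ ∈ J := by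
    intro u hu
    rw [hJ, Finset.mem_filter, Finset.mem_range]
    refine ⟨?_, u, hu, rfl⟩
    have h1 : Real.exp u / (η * l) ≤ Real.exp (u₀ + 1) / (η * l) :=
      div_le_div_of_nonneg_right (Real.exp_le_exp.2 (hSsub hu).2) hηl.le
    have := Nat.floor_le_floor h1
    omega
  have hcard : c * E0 / (η * l) ≤ (J.card : ℝ) := by
    have h1 : S ⊆ ⋃ j ∈ J, (S ∩ {u | ⌊Real.exp u / (η * l)⌋₊ = j}) := by
      intro u hu
      simp only [Set.mem_iUnion]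
      exact ⟨_, hJmem u hu, hu, rfl⟩
    have h2 : volume S ≤ ∑ j ∈ J, volume (S ∩ {u | ⌊Real.exp u / (η * l)⌋₊ = j}) :=
      (measure_mono h1).trans (measure_biUnion_finset_le _ _)
    have h3 : ∀ j ∈ J, volume (S ∩ {u | ⌊Real.exp u / (η * l)⌋₊ = j}) ≤
        ENNReal.ofReal (η * l / E0) := by
      intro j _
      exact cell_vol hηl _ (fun u hu => ⟨(hSsub hu.1).1, hu.2⟩)
    have h4 : volume S ≤ ENNReal.ofReal (J.card * (η * l / E0)) := by
      refine h2.trans ((Finset.sum_le_sum h3).trans ?_)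
      rw [Finset.sum_const, nsmul_eq_mul, ENNReal.ofReal_mul (Nat.cast_nonneg _),
        ENNReal.ofReal_natCast]
    have h5 : (volume S).toReal ≤ J.card * (η * l / E0) := by
      have h6 := ENNReal.toReal_mono ENNReal.ofReal_ne_top h4
      rwa [ENNReal.toReal_ofReal (by positivity)] at h6
    have h7 : c ≤ J.card * (η * l / E0) := hSc.trans h5
    rw [div_le_iff₀ hηl]
    rw [mul_div_assoc', le_div_iff₀ hE0p] at h7
    linarith
  -- the lower bound for each cell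
  have hlow : ∀ j ∈ J, e / 2 * (h * l) ≤ ∑ m ∈ range l, Zf Q h T (⌊(j : ℝ) * (η * l)⌋₊ + m) ∧
      E0 / 2 ≤ (⌊(j : ℝ) * (η * l)⌋₊ : ℝ) ∧
      (⌊(j : ℝ) * (η * l)⌋₊ : ℝ) ≤ Real.exp (u₀ + 1) := by
    intro j hj
    rw [hJ, Finset.mem_filter] at hj
    obtain ⟨_, u, hu, rfl⟩ := hj
    obtain ⟨hu1, hu2⟩ := hSu u hu
    have h1 := cell_low he hη hη1 hQ hh1 hl1 hlh hE0p hlE hϑ0 hϑ1 hϑ2 hT2
      (Real.exp_le_exp.2 (hSsub hu).1) hu1 hu2
    exact ⟨h1.1, h1.2.1, h1.2.2.trans (Real.exp_le_exp.2 (hSsub hu).2)⟩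
  -- double counting
  have hsum : (J.card : ℝ) * (e / 2 * (h * l)) ≤ 3 / η * ∑ x ∈ A, Zf Q h T x := by
    have h1 : (J.card : ℝ) * (e / 2 * (h * l)) ≤
        ∑ j ∈ J, ∑ m ∈ range l, Zf Q h T (⌊(j : ℝ) * (η * l)⌋₊ + m) := by
      rw [← nsmul_eq_mul, ← Finset.sum_const]
      exact Finset.sum_le_sum fun j hj => (hlow j hj).1
    refine h1.trans ?_
    have h2 : ∀ j ∈ J, ∑ m ∈ range l, Zf Q h T (⌊(j : ℝ) * (η * l)⌋₊ + m) =
        ∑ x ∈ A, if (⌊(j : ℝ) * (η * l)⌋₊ ≤ x ∧ x < ⌊(j : ℝ) * (η * l)⌋₊ + l) then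
          Zf Q h T x else 0 := by
      intro j hj
      set y : ℕ := ⌊(j : ℝ) * (η * l)⌋₊ with hy
      have h3 : ∑ m ∈ range l, Zf Q h T (y + m) = ∑ x ∈ Ico y (y + l), Zf Q h T x := by
        rw [Finset.sum_Ico_eq_sum_range]
        simp
      rw [h3, ← Finset.sum_filter]
      refine Finset.sum_congr ?_ fun _ _ => rfl
      ext x
      rw [Finset.mem_Ico, Finset.mem_filter]
      refine ⟨fun hx => ⟨?_, hx⟩, fun hx => hx.2⟩
      rw [hA, Finset.mem_Icc, Nat.ceil_le, Nat.le_floor_iff (by positivity)]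
      have h4 := (hlow j hj).2
      rw [← hy] at h4
      have h5 : (y : ℝ) ≤ x := by exact_mod_cast hx.1
      have h6 : (x : ℝ) ≤ y + l := by exact_mod_cast hx.2.le
      have h7 : Real.exp (u₀ + 1) ≤ 2.7182818286 * E0 := by
        rw [Real.exp_add, ← hE0]
        nlinarith [Real.exp_one_lt_d9]
      constructor
      · linarith [h4.1]
      · nlinarith [h4.2]
    rw [Finset.sum_congr rfl h2, Finset.sum_comm, Finset.mul_sum]
    refine Finset.sum_le_sum fun x _ => ?_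
    rw [← Finset.sum_filter, Finset.sum_const, nsmul_eq_mul]
    refine mul_le_mul_of_nonneg_right ?_ (Zf_nonneg _ _ _ _)
    have h3 := card_open (J.filter fun j => ⌊(j : ℝ) * (η * l)⌋₊ ≤ x ∧
      x < ⌊(j : ℝ) * (η * l)⌋₊ + l) (((x : ℝ) - l) / (η * l)) (((x : ℝ) + 1) / (η * l))
      (div_le_div_of_nonneg_right (by linarith) hηl.le) (fun j hj => by
        rw [Finset.mem_filter] at hj
        obtain ⟨_, hj1, hj2⟩ := hj
        have h4 : (⌊(j : ℝ) * (η * l)⌋₊ : ℝ) ≤ x := by exact_mod_cast hj1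
        have h5 : (x : ℝ) < ⌊(j : ℝ) * (η * l)⌋₊ + l := by exact_mod_cast hj2
        have h6 : (⌊(j : ℝ) * (η * l)⌋₊ : ℝ) ≤ (j : ℝ) * (η * l) := Nat.floor_le (by positivity)
        have h7 : (j : ℝ) * (η * l) < ⌊(j : ℝ) * (η * l)⌋₊ + 1 := Nat.lt_floor_add_one _
        rw [div_lt_iff₀ hηl, lt_div_iff₀ hηl]
        constructor <;> linarith)
    refine h3.trans ?_
    have h4 : ((x : ℝ) + 1) / (η * l) - ((x : ℝ) - l) / (η * l) + 1 =
        ((l : ℝ) + 1 + η * l) / (η * l) := by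
      field_simp
      ring
    rw [h4, div_le_div_iff₀ hηl hη]
    nlinarith
  -- the contradiction
  have hfin : c * E0 / (η * l) * (e / 2 * (h * l)) ≤ 3 / η * (Q * (ε * h * (7 / 2 * E0))) := by
    calc c * E0 / (η * l) * (e / 2 * (h * l)) ≤ (J.card : ℝ) * (e / 2 * (h * l)) :=
          mul_le_mul_of_nonneg_right hcard (by positivity)
      _ ≤ 3 / η * ∑ x ∈ A, Zf Q h T x := hsum
      _ ≤ _ := mul_le_mul_of_nonneg_left hAsum (by positivity)
  have h1 : c * E0 / (η * l) * (e / 2 * (h * l)) = (c * e * h * E0 / η) * (1 / 2) := by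
    field_simp
  have h2 : 3 / η * (Q * (ε * h * (7 / 2 * E0))) = (c * e * h * E0 / η) * (21 / 80) := by
    rw [hε]
    field_simp
    ring
  rw [h1, h2] at hfin
  have h3 : 0 < c * e * h * E0 / η := by positivity
  linarith

end Pool.Agent.SV
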