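import Mathlib
import Pool.Agent.Lib.SV.Defs

/-!
# Theorem V (MP_663568_nt), row K0: the moves are symmetric (helper19)
-/

set_option autoImplicit false
open Finset MeasureTheory

namespace Pool.Agent.SV

section

variable {s : Sys} {P1 P2 R : ℝ} (h : s.OK P1 P2 R)

include h

theorem Ls_pos : 0 < Ls s.PP := lt_of_lt_of_le one_pos h.one

theorem wt_nonneg (p : ℕ) : 0 ≤ wt s.PP p := by
  have := Ls_pos h
  unfold wt
  positivity

theorem sum_wt : ∑ p ∈ s.PP, wt s.PP p = 1 := by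
  have hL := Ls_pos h
  unfold wt
  have : ∀ p ∈ s.PP, 1 / ((p : ℝ) * Ls s.PP) = (1 / (p : ℝ)) * (1 / Ls s.PP) := fun p _ => by
    rw [one_div_mul_one_div]
  rw [sum_congr rfl this, ← sum_mul, ← Ls, mul_one_div, div_self hL.ne']

theorem meas_pair (p q : ℕ) : MeasurableSet (Pair s p q) := by
  have h1 : MeasurableSet {z : ℝ | z + Real.log q ∈ s.G p} :=
    (measurable_id.add_const (Real.log q)) (h.meas p)
  have h2 : MeasurableSet {z : ℝ | z + Real.log p ∈ s.G q} :=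
    (measurable_id.add_const (Real.log p)) (h.meas q)
  exact h1.inter h2

theorem meas_edge (cell : ℕ → ℕ) {m : ℕ} (q : Fin m → ℕ) (p p' : ℕ) :
    MeasurableSet (Edge s cell q p p') := by
  by_cases hc : cell p = cell p'
  · have : Edge s cell q p p' = ⋂ i, (Pair s p (q i) ∩ Pair s p' (q i)) := by
      ext z
      simp [Edge, hc]
    rw [this]
    exact MeasurableSet.iInter fun i => (meas_pair h _ _).inter (meas_pair h _ _)
  · have : Edge s cell q p p' = ∅ := by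
      ext z
      simp [Edge, hc]
    rw [this]
    exact MeasurableSet.empty

theorem meas_Ed (cell : ℕ → ℕ) {m : ℕ} (q : Fin m → ℕ) (i : ℕ × ℕ) :
    MeasurableSet (Ed s cell q i) :=
  (measurable_id.sub_const (Real.log i.2)) (meas_edge h cell q i.1 i.2)

end

theorem edge_swap {s : Sys} {cell : ℕ → ℕ} {m : ℕ} {q : Fin m → ℕ} {p p' : ℕ} {z : ℝ} :
    z ∈ Edge s cell q p p' ↔ z ∈ Edge s cell q p' p := by
  unfold Edge
  simp only [Set.mem_ofPred_eq]
  constructor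
  · rintro ⟨h1, h2⟩
    exact ⟨h1.symm, fun i => ⟨(h2 i).2, (h2 i).1⟩⟩
  · rintro ⟨h1, h2⟩
    exact ⟨h1.symm, fun i => ⟨(h2 i).2, (h2 i).1⟩⟩

theorem mem_Ed {s : Sys} {cell : ℕ → ℕ} {m : ℕ} {q : Fin m → ℕ} {i : ℕ × ℕ} {v : ℝ} :
    v ∈ Ed s cell q i ↔ v - Real.log i.2 ∈ Edge s cell q i.1 i.2 := Iff.rfl

theorem mem_Mv {s : Sys} {cell : ℕ → ℕ} {i : ℕ × ℕ} :
    i ∈ Mv s cell ↔ (i.1 ∈ s.PP ∧ i.2 ∈ s.PP) ∧ cell i.1 = cell i.2 := by
  rw [Mv, mem_filter, mem_product]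

/-- Both ends of an edge are good for all auxiliary primes. -/
theorem edge_ends {s : Sys} {cell : ℕ → ℕ} {m : ℕ} {q : Fin m → ℕ} {p p' : ℕ} {z : ℝ}
    (hz : z ∈ Edge s cell q p p') (i : Fin m) :
    z + Real.log p ∈ s.G (q i) ∧ z + Real.log p' ∈ s.G (q i) :=
  ⟨((hz.2 i).1).2, ((hz.2 i).2).2⟩

theorem Ed_start {s : Sys} {cell : ℕ → ℕ} {m : ℕ} {q : Fin m → ℕ} {j : ℕ × ℕ} {v : ℝ}
    (hv : v ∈ Ed s cell q j) (i : Fin m) : v ∈ s.G (q i) := by
  have := (edge_ends (mem_Ed.1 hv) i).2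
  rwa [sub_add_cancel] at this

theorem Ed_end {s : Sys} {cell : ℕ → ℕ} {m : ℕ} {q : Fin m → ℕ} {j : ℕ × ℕ} {v : ℝ}
    (hv : v ∈ Ed s cell q j) (i : Fin m) : v + sg j ∈ s.G (q i) := by
  have := (edge_ends (mem_Ed.1 hv) i).1
  rwa [show v - Real.log j.2 + Real.log j.1 = v + sg j by rw [sg]; ring] at this

theorem k0 : K0_stmt := by
  intro s P1 P2 R h cell m q hm hq
  have hI : ∀ i ∈ Mv s cell, i.swap ∈ Mv s cell := by
    intro i hi
    rw [mem_Mv] at hi ⊢
    exact ⟨⟨hi.1.2, hi.1.1⟩, hi.2.symm⟩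
  have hne : s.PP.Nonempty := by
    rw [nonempty_iff_ne_empty]
    intro he
    have := h.one
    rw [he] at this
    norm_num [Ls] at this
  obtain ⟨p0, hp0⟩ := hne
  refine ⟨⟨?_, ?_, ?_, ?_, hI, ?_, ?_, ?_, ?_, ?_⟩, ?_⟩
  · intro i _
    exact mul_nonneg (wt_nonneg h _) (wt_nonneg h _)
  · calc ∑ i ∈ Mv s cell, om s i ≤ ∑ i ∈ s.PP ×ˢ s.PP, om s i :=
        sum_le_sum_of_subset_of_nonneg (filter_subset _ _) fun i _ _ =>
          mul_nonneg (wt_nonneg h _) (wt_nonneg h _)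
      _ = (∑ p ∈ s.PP, wt s.PP p) * ∑ p ∈ s.PP, wt s.PP p := by
          rw [sum_mul_sum, sum_product]
          rfl
      _ = 1 := by rw [sum_wt h, one_mul]
      _ ≤ 1 := le_rfl
  · intro i _
    exact meas_Ed h cell q i
  · intro i _ v hv
    have := h.mem _ _ (Ed_start hv ⟨0, by omega⟩)
    exact ⟨this.2.1, this.2.2⟩
  · intro i _
    exact Prod.swap_swap i
  · intro i _
    simp only [om, Prod.fst_swap, Prod.snd_swap]
    ring
  · intro i _
    simp only [sg, Prod.fst_swap, Prod.snd_swap]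
    ring
  · intro i _ v
    rw [mem_Ed, mem_Ed, Prod.fst_swap, Prod.snd_swap, edge_swap]
    rw [show v + sg i - Real.log i.1 = v - Real.log i.2 by rw [sg]; ring]
  · have h2 : (2 : ℝ) ≤ P2 := h.P1one.trans ((h.ge p0 hp0).trans (h.le p0 hp0))
    have := h.len
    have h3 : 0 < Real.log P2 := Real.log_pos (by linarith)
    linarith
  · have e1 : ∀ i : ℕ × ℕ, volume (Ed s cell q i) = volume (Edge s cell q i.1 i.2) := by
      intro i
      have : Ed s cell q i = (fun v => v + -Real.log i.2) ⁻¹' (Edge s cell q i.1 i.2) := rfl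
      rw [this]
      exact measure_preimage_add_right volume (-Real.log i.2) (Edge s cell q i.1 i.2)
    rw [Mv, sum_filter, sum_product]
    refine sum_congr rfl fun p _ => sum_congr rfl fun p' _ => ?_
    by_cases hc : cell p = cell p'
    · rw [if_pos hc, e1]
      rfl
    · rw [if_neg hc]
      have : Edge s cell q p p' = ∅ := by
        ext z
        simp [Edge, hc]
      rw [this]
      simp

end Pool.Agent.SV
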