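import Mathlib
import Pool.Agent.Lib.SV.Defs

/-!
# Theorem V (MP_663568_nt), row K2: the iterates as sums over paths (helper19)
-/

set_option autoImplicit false
open Finset MeasureTheory

namespace Pool.Agent.SV

theorem sum_paths_succ {ι : Type} [DecidableEq ι] {M : Type} [AddCommMonoid M] (I : Finset ι)
    (k : ℕ) (f : List ι → M) :
    ∑ l ∈ paths I (k + 1), f l = ∑ i ∈ I, ∑ l ∈ paths I k, f (i :: l) := by
  rw [paths, sum_image, sum_product]
  rintro ⟨a, l⟩ _ ⟨b, m⟩ _ h
  simp only [List.cons.injEq] at h
  exact Prod.ext h.1 h.2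

theorem Op_iterate {ι : Type} [DecidableEq ι] (I : Finset ι) (ω σ : ι → ℝ) (E : ι → Set ℝ)
    (k : ℕ) (g : ℝ → ℝ) (v : ℝ) : (Op I ω σ E)^[k] g v = by
    classical
    exact ∑ l ∈ paths I k, (l.map ω).prod * (if OkL σ E l v then g (v + (l.map σ).sum) else 0) := by
  classical
  induction k generalizing v with
  | zero => simp [paths, OkL]
  | succ k ih =>
    rw [Function.iterate_succ_apply', sum_paths_succ]
    rw [Op]
    refine sum_congr rfl fun i hi => ?_
    by_cases hv : v ∈ E i
    · rw [if_pos hv, ih, mul_sum]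
      refine sum_congr rfl fun l hl => ?_
      have e1 : OkL σ E (i :: l) v ↔ OkL σ E l (v + σ i) := by
        rw [OkL]; exact and_iff_right hv
      simp only [List.map_cons, List.prod_cons, List.sum_cons, ← add_assoc, mul_assoc]
      congr 2
      by_cases h : OkL σ E l (v + σ i)
      · rw [if_pos h, if_pos (e1.2 h)]
      · rw [if_neg h, if_neg fun h' => h (e1.1 h')]
    · rw [if_neg hv, mul_zero]
      symm
      refine sum_eq_zero fun l hl => ?_
      rw [if_neg, mul_zero]
      rw [OkL]
      exact fun h => hv h.1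

theorem k2 : K2_stmt := fun I ω σ E k g v => Op_iterate I ω σ E k g v

end Pool.Agent.SV
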