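import Mathlib
import Pool.Agent.Lib.SV.Defs
import Pool.Agent.Lib.SV.K0
import Pool.Agent.Lib.SV.K2

/-!
# Theorem V (MP_663568_nt): tools for the assembly of the core (helper19)
-/

set_option autoImplicit false
open Finset MeasureTheory

namespace Pool.Agent.SV

open Pool.Agent.Lib.MP_663568_nt Pool.Agent.Lib.MP_663568_nt.Katai
  Pool.Agent.Lib.MP_663568_nt.Nul

/-! ### The operator -/

section

variable {ι : Type} {I : Finset ι} {ω σ : ι → ℝ} {E : ι → Set ℝ} {inv : ι → ι} {lo hi : ℝ}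

theorem Op_measurable (h : Sym I ω σ E inv lo hi) {f : ℝ → ℝ} (hf : Measurable f) :
    Measurable (Op I ω σ E f) := by
  classical
  unfold Op
  refine Finset.measurable_sum _ fun i hi => ?_
  refine Measurable.const_mul ?_ _
  exact Measurable.ite (h.meas i hi) (hf.comp (measurable_id.add_const _)) measurable_const

theorem Op_iter_measurable (h : Sym I ω σ E inv lo hi) {f : ℝ → ℝ} (hf : Measurable f) (k : ℕ) :
    Measurable ((Op I ω σ E)^[k] f) := by
  induction k with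
  | zero => exact hf
  | succ k ih =>
    rw [Function.iterate_succ']
    exact Op_measurable h ih

theorem Op_bound (h : Sym I ω σ E inv lo hi) {f : ℝ → ℝ} (h0 : ∀ v, 0 ≤ f v) (h1 : ∀ v, f v ≤ 1)
    (v : ℝ) : 0 ≤ Op I ω σ E f v ∧ Op I ω σ E f v ≤ 1 := by
  classical
  unfold Op
  constructor
  · refine sum_nonneg fun i hi => mul_nonneg (h.nn i hi) ?_
    split_ifs
    · exact h0 _
    · exact le_rfl
  · refine le_trans (sum_le_sum fun i hi => ?_) h.sum
    have := h.nn i hi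
    split_ifs
    · nlinarith [h1 (v + σ i)]
    · simpa using this

theorem Op_iter_bound (h : Sym I ω σ E inv lo hi) {f : ℝ → ℝ} (h0 : ∀ v, 0 ≤ f v)
    (h1 : ∀ v, f v ≤ 1) (k : ℕ) (v : ℝ) :
    0 ≤ (Op I ω σ E)^[k] f v ∧ (Op I ω σ E)^[k] f v ≤ 1 := by
  induction k generalizing v with
  | zero => exact ⟨h0 v, h1 v⟩
  | succ k ih =>
    rw [Function.iterate_succ_apply']
    exact Op_bound h (fun v => (ih v).1) (fun v => (ih v).2) v

/-- A point with a path of positive length has a move. -/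
theorem Op_iter_move {f : ℝ → ℝ} {k : ℕ} (hk : 1 ≤ k) {v : ℝ}
    (h : (Op I ω σ E)^[k] f v ≠ 0) : ∃ i ∈ I, v ∈ E i := by
  classical
  obtain ⟨k, rfl⟩ : ∃ k', k = k' + 1 := ⟨k - 1, by omega⟩
  rw [Function.iterate_succ_apply'] at h
  by_contra hc
  push Not at hc
  apply h
  unfold Op
  refine sum_eq_zero fun i hi => ?_
  rw [if_neg (hc i hi), mul_zero]

end

/-! ### Unit intervals -/

theorem unit_interval {U : Set ℝ} {x : ℝ} {n : ℕ} (hn : 1 ≤ n)
    (hs : U ⊆ Set.Icc x (x + n)) : ∃ u₀ : ℝ, x ≤ u₀ ∧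
    (volume U).toReal / n ≤ (volume (U ∩ Set.Icc u₀ (u₀ + 1))).toReal := by
  have hn0 : (0 : ℝ) < n := by exact_mod_cast hn
  have hfin : ∀ a b : ℝ, volume (U ∩ Set.Icc a b) ≠ ⊤ := fun a b =>
    ((measure_mono Set.inter_subset_right).trans_lt (by
      rw [Real.volume_Icc]; exact ENNReal.ofReal_lt_top)).ne
  by_contra hc
  push Not at hc
  have hcov : U ⊆ ⋃ i ∈ range n, (U ∩ Set.Icc (x + (i : ℝ)) (x + i + 1)) := by
    intro u hu
    obtain ⟨h1, h2⟩ := hs hu
    by_cases hlast : u < x + n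
    · have hpos : 0 ≤ u - x := by linarith
      have hfl : ⌊u - x⌋₊ < n := by
        rw [Nat.floor_lt hpos]
        linarith
      refine Set.mem_biUnion (mem_coe.2 (mem_range.2 hfl)) ⟨hu, ?_, ?_⟩
      · have := Nat.floor_le hpos
        linarith
      · have := Nat.lt_floor_add_one (u - x)
        linarith
    · refine Set.mem_biUnion (mem_coe.2 (mem_range.2 (show n - 1 < n by omega))) ⟨hu, ?_, ?_⟩
      · push_cast [Nat.cast_sub hn]
        linarith
      · push_cast [Nat.cast_sub hn]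
        linarith
  have h1 : volume U ≤ ∑ i ∈ range n, volume (U ∩ Set.Icc (x + (i : ℝ)) (x + i + 1)) :=
    (measure_mono hcov).trans (measure_biUnion_finset_le _ _)
  have h2 : (volume U).toReal ≤
      ∑ i ∈ range n, (volume (U ∩ Set.Icc (x + (i : ℝ)) (x + i + 1))).toReal := by
    rw [← ENNReal.toReal_sum fun i _ => hfin _ _]
    exact ENNReal.toReal_mono (ENNReal.sum_ne_top.2 fun i _ => hfin _ _) h1
  have h3 : ∑ i ∈ range n, (volume (U ∩ Set.Icc (x + (i : ℝ)) (x + i + 1))).toReal <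
      ∑ _i ∈ range n, (volume U).toReal / n := by
    refine sum_lt_sum_of_nonempty (nonempty_range_iff.2 (by omega)) fun i _ => ?_
    exact hc (x + i) (by
      have : (0 : ℝ) ≤ i := Nat.cast_nonneg i
      linarith)
  rw [sum_const, card_range, nsmul_eq_mul, mul_div_cancel₀ _ hn0.ne'] at h3
  linarith

/-! ### Cells of primes -/

theorem cell_lt {z X : ℝ} (hz : 0 < z) (hX : 0 < X) {κ : ℝ} {p : ℕ}
    (hp : Real.log p ≤ κ * X) : ⌊Real.log p / (z * X)⌋₊ < ⌊κ / z⌋₊ + 1 := by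
  have h1 : Real.log p / (z * X) ≤ κ / z := by
    rw [div_le_div_iff₀ (by positivity) hz]
    calc Real.log p * z ≤ κ * X * z := by gcongr
      _ = κ * (z * X) := by ring
  exact Nat.lt_succ_of_le (Nat.floor_le_floor h1)

theorem cell_ratio {z X : ℝ} (hz : 0 < z) (hX : 0 < X) {p p' : ℕ} (hp : 1 ≤ p) (hp' : 1 ≤ p')
    (h : ⌊Real.log p / (z * X)⌋₊ = ⌊Real.log p' / (z * X)⌋₊) :
    (p : ℝ) ≤ Real.exp (z * X) * p' := by
  have hzX : 0 < z * X := by positivity
  have h0 : 0 ≤ Real.log p' / (z * X) :=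
    div_nonneg (Real.log_nonneg (by exact_mod_cast hp')) hzX.le
  have h1 := Nat.lt_floor_add_one (Real.log p / (z * X))
  rw [h] at h1
  have h2 := Nat.floor_le h0
  have h3 : Real.log p / (z * X) ≤ Real.log p' / (z * X) + 1 := by linarith
  have h4 : Real.log p ≤ z * X + Real.log p' := by
    rw [div_add_one hzX.ne', div_le_div_iff_of_pos_right hzX] at h3
    linarith
  have hp0 : (0 : ℝ) < p := by exact_mod_cast hp
  have hp0' : (0 : ℝ) < p' := by exact_mod_cast hp'
  calc (p : ℝ) = Real.exp (Real.log p) := (Real.exp_log hp0).symm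
    _ ≤ Real.exp (z * X + Real.log p') := Real.exp_le_exp.2 h4
    _ = Real.exp (z * X) * p' := by rw [Real.exp_add, Real.exp_log hp0']

/-! ### The total number of the step -/

/-- `∑ st(u + log q_i) + ⌊u R⌋`. -/
noncomputable def stt (s : Sys) {m : ℕ} (q : Fin m → ℕ) (R : ℝ) (u : ℝ) : ℤ :=
  ∑ i, s.st (u + Real.log (q i)) + ⌊u * R⌋

theorem stt_mono {s : Sys} {P1 P2 R : ℝ} (h : s.OK P1 P2 R) {m : ℕ} (q : Fin m → ℕ) :
    Monotone (stt s q R) := by
  intro u v huv
  have hR := h.Rone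
  unfold stt
  refine add_le_add (sum_le_sum fun i _ => h.mono (by linarith)) (Int.floor_le_floor ?_)
  gcongr

theorem stt_grow {s : Sys} {P1 P2 R : ℝ} (h : s.OK P1 P2 R) {m : ℕ} (q : Fin m → ℕ) (u : ℝ) :
    (stt s q R (u + 1) : ℝ) ≤ stt s q R u + (m * R + R + 1) := by
  unfold stt
  push_cast
  have h1 : ∑ i, ((s.st (u + 1 + Real.log (q i)) : ℤ) : ℝ) ≤
      ∑ i, ((s.st (u + Real.log (q i)) : ℤ) : ℝ) + m * R := by
    calc ∑ i, ((s.st (u + 1 + Real.log (q i)) : ℤ) : ℝ)
        ≤ ∑ i : Fin m, (((s.st (u + Real.log (q i)) : ℤ) : ℝ) + R) := by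
          refine sum_le_sum fun i _ => ?_
          have := h.grow (u + Real.log (q i))
          rwa [show u + Real.log (q i) + 1 = u + 1 + Real.log (q i) by ring] at this
      _ = _ := by
          rw [sum_add_distrib, sum_const, card_univ, Fintype.card_fin, nsmul_eq_mul]
  have h2 : (⌊(u + 1) * R⌋ : ℝ) ≤ ⌊u * R⌋ + (R + 1) := by
    have a1 := Int.floor_le ((u + 1) * R)
    have a2 := Int.lt_floor_add_one (u * R)
    nlinarith
  linarith

theorem stt_eq {s : Sys} {P1 P2 R : ℝ} (h : s.OK P1 P2 R) {m : ℕ} {q : Fin m → ℕ} {u v : ℝ}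
    (huv : stt s q R u = stt s q R v) :
    (∀ i, s.al (u + Real.log (q i)) = s.al (v + Real.log (q i))) ∧ |u - v| ≤ 1 / R := by
  have hR := h.Rone
  have hR0 : 0 < R := by linarith
  wlog hle : u ≤ v generalizing u v
  · obtain ⟨h1, h2⟩ := this huv.symm (by linarith)
    exact ⟨fun i => (h1 i).symm, by rw [abs_sub_comm]; exact h2⟩
  unfold stt at huv
  have hfl : ⌊u * R⌋ ≤ ⌊v * R⌋ := Int.floor_le_floor (by gcongr)
  have hst : ∀ i ∈ (univ : Finset (Fin m)), s.st (u + Real.log (q i)) ≤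
      s.st (v + Real.log (q i)) := fun i _ => h.mono (by linarith)
  have hsum := sum_le_sum hst
  have e1 : ∑ i, s.st (u + Real.log (q i)) = ∑ i, s.st (v + Real.log (q i)) := by omega
  have e2 : ⌊u * R⌋ = ⌊v * R⌋ := by omega
  have e3 := (sum_eq_sum_iff_of_le hst).1 e1
  refine ⟨fun i => h.const _ _ (e3 i (mem_univ i)), ?_⟩
  have a1 := Int.floor_le (u * R)
  have a2 := Int.lt_floor_add_one (v * R)
  rw [← e2] at a2
  rw [abs_sub_comm, abs_of_nonneg (by linarith), le_div_iff₀ hR0]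
  nlinarith

end Pool.Agent.SV
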