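import Mathlib
import Pool.Agent.Lib.SV.CoreA

/-!
# Theorem V (MP_663568_nt): the lift at the rich points (helper19)

`M` is the product of the auxiliary primes, `E2` the relative error of the relation along a path.
-/

set_option autoImplicit false
open Finset MeasureTheory

namespace Pool.Agent.SV

open Pool.Agent.Lib.MP_663568_nt Pool.Agent.Lib.MP_663568_nt.Katai
  Pool.Agent.Lib.MP_663568_nt.Nul

/-- An integer multiple of `M` of absolute value less than `M` is zero. -/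
theorem int_mul_small {M x : ℝ} {k : ℤ} (hM : 0 < M) (h : |x - k * M| ≤ M / 4)
    (hx : |x| ≤ M / 4) : k = 0 := by
  by_contra hk
  have h1 : (1 : ℝ) ≤ |(k : ℝ)| := by
    have : (1 : ℤ) ≤ |k| := Int.one_le_abs hk
    exact_mod_cast this
  have h2 : |(k : ℝ) * M| ≤ M / 2 := by
    calc |(k : ℝ) * M| = |x - (x - k * M)| := by ring_nf
      _ ≤ |x| + |x - k * M| := abs_sub _ _
      _ ≤ M / 4 + M / 4 := add_le_add hx h
      _ = M / 2 := by ring
  rw [abs_mul, abs_of_pos hM] at h2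
  nlinarith

/-- From `q β` near `M ℤ` for some `q ≤ Q` to `Q! β`. -/
theorem factorial_lift {Q q : ℕ} (hq : 1 ≤ q) (hqQ : q ≤ Q) {β M D : ℝ} {j : ℤ}
    (h : |(q : ℝ) * β - j * M| ≤ D) :
    ∃ j' : ℤ, |(Q.factorial : ℝ) * β - j' * M| ≤ Q.factorial * D := by
  obtain ⟨c, hc⟩ : q ∣ Q.factorial := Nat.dvd_factorial hq hqQ
  have hcQ : c ≤ Q.factorial := by
    rw [hc]
    exact Nat.le_mul_of_pos_left c hq
  have hD : 0 ≤ D := (abs_nonneg _).trans h
  refine ⟨c * j, ?_⟩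
  have e : (Q.factorial : ℝ) * β - ((c * j : ℤ) : ℝ) * M = c * ((q : ℝ) * β - j * M) := by
    rw [hc]
    push_cast
    ring
  rw [e, abs_mul, Nat.abs_cast]
  calc (c : ℝ) * |(q : ℝ) * β - j * M| ≤ c * D := by gcongr
    _ ≤ Q.factorial * D := by
        have : (c : ℝ) ≤ Q.factorial := by exact_mod_cast hcQ
        gcongr

/-- Two rich points with almost the same lift have almost the same `θ`. -/
theorem theta_close {Q0 M βu βv θu θv Θ ε : ℝ} {ju jv k : ℤ} (hM : 0 < M) (hQ : 1 ≤ Q0)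
    (hu : Q0 * βu = θu + ju * M) (hv : Q0 * βv = θv + jv * M) (h1 : |θu| ≤ Θ) (h2 : |θv| ≤ Θ)
    (hk : |βu - βv - k * M| ≤ ε) (hQi : ∃ z : ℤ, Q0 = z) (hΘ : 2 * Θ ≤ M / 4)
    (hε : Q0 * ε ≤ M / 4) : |θu - θv| ≤ Q0 * ε := by
  obtain ⟨z, hz⟩ := hQi
  have e : θu - θv - ((z * k - ju + jv : ℤ) : ℝ) * M = Q0 * (βu - βv - k * M) := by
    push_cast
    rw [← hz]
    linear_combination -hu + hv
  have h3 : |θu - θv - ((z * k - ju + jv : ℤ) : ℝ) * M| ≤ Q0 * ε := by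
    rw [e, abs_mul, abs_of_pos (by linarith)]
    gcongr
  have h4 : |θu - θv| ≤ M / 4 := by
    calc |θu - θv| ≤ |θu| + |θv| := abs_sub _ _
      _ ≤ Θ + Θ := add_le_add h1 h2
      _ = 2 * Θ := by ring
      _ ≤ M / 4 := hΘ
  have h5 := int_mul_small hM (h3.trans hε) h4
  rw [h5] at h3
  simpa using h3

/-- The relation along a path, for `θ`. -/
theorem theta_path {Q0 M βu βv θu θv Θ E2 n1 n2 N : ℝ} {ju jv k : ℤ} (hM : 0 < M) (hQ : 1 ≤ Q0)
    (hu : Q0 * βu = θu + ju * M) (hv : Q0 * βv = θv + jv * M) (h1 : |θu| ≤ Θ) (h2 : |θv| ≤ Θ)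
    (hk : |n1 * βu - n2 * βv - k * M| ≤ n2 * E2) (hQi : ∃ z : ℤ, Q0 = z)
    (hn1i : ∃ z : ℤ, n1 = z) (hn2i : ∃ z : ℤ, n2 = z) (hn1 : 0 ≤ n1) (hn2 : 0 ≤ n2)
    (hN1 : n1 ≤ N) (hN2 : n2 ≤ N) (hΘ : 2 * (N * Θ) ≤ M / 4)
    (hε : Q0 * (N * E2) ≤ M / 4) (hE2 : 0 ≤ E2) : |n1 * θu - n2 * θv| ≤ Q0 * (n2 * E2) := by
  obtain ⟨z, hz⟩ := hQi
  obtain ⟨z1, hz1⟩ := hn1i
  obtain ⟨z2, hz2⟩ := hn2i
  have hΘ0 : 0 ≤ Θ := (abs_nonneg _).trans h1
  have hN0 : 0 ≤ N := hn1.trans hN1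
  have e : n1 * θu - n2 * θv - ((z * k - z1 * ju + z2 * jv : ℤ) : ℝ) * M =
      Q0 * (n1 * βu - n2 * βv - k * M) := by
    push_cast
    rw [← hz, ← hz1, ← hz2]
    linear_combination -n1 * hu + n2 * hv
  have h3 : |n1 * θu - n2 * θv - ((z * k - z1 * ju + z2 * jv : ℤ) : ℝ) * M| ≤
      Q0 * (n2 * E2) := by
    rw [e, abs_mul, abs_of_pos (by linarith)]
    gcongr
  have h4 : |n1 * θu - n2 * θv| ≤ M / 4 := by
    calc |n1 * θu - n2 * θv| ≤ |n1 * θu| + |n2 * θv| := abs_sub _ _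
      _ = n1 * |θu| + n2 * |θv| := by rw [abs_mul, abs_mul, abs_of_nonneg hn1, abs_of_nonneg hn2]
      _ ≤ N * Θ + N * Θ := by gcongr
      _ = 2 * (N * Θ) := by ring
      _ ≤ M / 4 := hΘ
  have h6 : Q0 * (n2 * E2) ≤ M / 4 := by
    refine le_trans ?_ hε
    gcongr
  have h5 := int_mul_small hM (h3.trans h6) h4
  rw [h5] at h3
  simpa using h3

/-- The final comparison: `θ_u / Q0` against `T₀ e^{-u}`. -/
theorem final_compare {Q0 θu θv θs Θ E2 τ n1 n2 u v vs G r : ℝ} (hQ : 1 ≤ Q0) (hn1 : 0 < n1)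
    (hn2 : 0 < n2) (hr0 : 0 ≤ r) (hr1 : r ≤ 1)
    (hrel : |n1 * θu - n2 * θv| ≤ Q0 * (n2 * E2)) (hlog : u = v + (Real.log n1 - Real.log n2))
    (hvs : |θv - θs| ≤ Q0 * (2 * τ)) (hs : |θs| ≤ Θ) (hG : Real.exp (v - u) ≤ G)
    (hvv : |v - vs| ≤ r) (hE2 : 0 ≤ E2) :
    |θu / Q0 - Real.exp vs * θs / Q0 * Real.exp (-u)| ≤
      G * (E2 + 2 * τ + 2 * r * (Θ / Q0)) := by
  have hQ0 : 0 < Q0 := by linarith
  have hG0 : 0 ≤ G := (Real.exp_pos _).le.trans hG
  have hΘ0 : 0 ≤ Θ := (abs_nonneg _).trans hs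
  have e1 : Real.exp (v - u) = n2 / n1 := by
    rw [hlog, show v - (v + (Real.log n1 - Real.log n2)) = Real.log n2 - Real.log n1 by ring,
      Real.exp_sub, Real.exp_log hn1, Real.exp_log hn2]
  -- the first difference
  have h1 : |θu / Q0 - Real.exp (v - u) * θv / Q0| ≤ G * E2 := by
    have e : θu / Q0 - Real.exp (v - u) * θv / Q0 = (n1 * θu - n2 * θv) / (n1 * Q0) := by
      rw [e1]
      field_simp
    rw [e, abs_div, abs_of_pos (show 0 < n1 * Q0 by positivity)]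
    calc |n1 * θu - n2 * θv| / (n1 * Q0) ≤ Q0 * (n2 * E2) / (n1 * Q0) := by gcongr
      _ = n2 / n1 * E2 := by field_simp
      _ ≤ G * E2 := by rw [← e1]; gcongr
  have h2 : |Real.exp (v - u) * θv / Q0 - Real.exp (v - u) * θs / Q0| ≤ G * (2 * τ) := by
    have e : Real.exp (v - u) * θv / Q0 - Real.exp (v - u) * θs / Q0 =
        Real.exp (v - u) * ((θv - θs) / Q0) := by ring
    rw [e, abs_mul, abs_of_pos (Real.exp_pos _), abs_div, abs_of_pos hQ0]
    calc Real.exp (v - u) * (|θv - θs| / Q0) ≤ G * (Q0 * (2 * τ) / Q0) := by gcongr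
      _ = G * (2 * τ) := by rw [mul_div_cancel_left₀ _ hQ0.ne']
  have h3 : |Real.exp (v - u) * θs / Q0 - Real.exp vs * θs / Q0 * Real.exp (-u)| ≤
      G * (2 * r * (Θ / Q0)) := by
    have e : Real.exp (v - u) * θs / Q0 - Real.exp vs * θs / Q0 * Real.exp (-u) =
        Real.exp (v - u) * (1 - Real.exp (vs - v)) * (θs / Q0) := by
      have : Real.exp vs * Real.exp (-u) = Real.exp (v - u) * Real.exp (vs - v) := by
        rw [← Real.exp_add, ← Real.exp_add]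
        congr 1
        ring
      calc Real.exp (v - u) * θs / Q0 - Real.exp vs * θs / Q0 * Real.exp (-u)
          = Real.exp (v - u) * θs / Q0 - (Real.exp vs * Real.exp (-u)) * (θs / Q0) := by ring
        _ = _ := by rw [this]; ring
    have h4 : |1 - Real.exp (vs - v)| ≤ 2 * r := by
      have a1 : |vs - v| ≤ 1 := by rw [abs_sub_comm]; exact hvv.trans hr1
      have a2 := Real.abs_exp_sub_one_le a1
      rw [abs_sub_comm]
      refine a2.trans ?_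
      rw [abs_sub_comm]
      linarith
    rw [e, abs_mul, abs_mul, abs_of_pos (Real.exp_pos _), abs_div, abs_of_pos hQ0]
    calc Real.exp (v - u) * |1 - Real.exp (vs - v)| * (|θs| / Q0)
        ≤ G * (2 * r) * (Θ / Q0) := by gcongr
      _ = G * (2 * r * (Θ / Q0)) := by ring
  calc |θu / Q0 - Real.exp vs * θs / Q0 * Real.exp (-u)|
      = |(θu / Q0 - Real.exp (v - u) * θv / Q0) +
          (Real.exp (v - u) * θv / Q0 - Real.exp (v - u) * θs / Q0) +
          (Real.exp (v - u) * θs / Q0 - Real.exp vs * θs / Q0 * Real.exp (-u))| := by ring_nf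
    _ ≤ G * E2 + G * (2 * τ) + G * (2 * r * (Θ / Q0)) :=
        (abs_add_three _ _ _).trans (add_le_add (add_le_add h1 h2) h3)
    _ = _ := by ring

end Pool.Agent.SV
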