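import Mathlib
import Pool.Agent.Lib.SV.CoreB

/-!
# Theorem V (MP_663568_nt): assembly of the core (helper19)
-/

set_option autoImplicit false
open Finset MeasureTheory

namespace Pool.Agent.SV

open Pool.Agent.Lib.MP_663568_nt Pool.Agent.Lib.MP_663568_nt.Katai
  Pool.Agent.Lib.MP_663568_nt.Nul

/-- The conditions on the size of `H`. -/
theorem core_large (κ₁ κ₂ W X₀ H₁ : ℝ) (hκ₁ : 0 < κ₁) (hκ₂ : 0 < κ₂) :
    ∃ H₀ : ℝ, ∀ H : ℝ, H₀ ≤ H → H₁ ≤ H ∧ X₀ ≤ H ^ κ₁ ∧ 2 ≤ H ^ κ₁ ∧ 1 ≤ Real.log H ∧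
      1 ≤ κ₂ * Real.log H ∧ W ≤ H ^ (1 / 4 : ℝ) ∧ W ≤ H ∧ 1 ≤ H := by
  have h1 : ∀ᶠ H : ℝ in Filter.atTop, H₁ ≤ H ∧ X₀ ≤ H ^ κ₁ ∧ 2 ≤ H ^ κ₁ ∧ 1 ≤ Real.log H ∧
      1 ≤ κ₂ * Real.log H ∧ W ≤ H ^ (1 / 4 : ℝ) ∧ W ≤ H ∧ 1 ≤ H := by
    filter_upwards [Filter.eventually_ge_atTop H₁, Filter.eventually_ge_atTop W,
      Filter.eventually_ge_atTop 1, (tendsto_rpow_atTop hκ₁).eventually_ge_atTop X₀,
      (tendsto_rpow_atTop hκ₁).eventually_ge_atTop 2,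
      (tendsto_rpow_atTop (show (0 : ℝ) < 1 / 4 by norm_num)).eventually_ge_atTop W,
      Real.tendsto_log_atTop.eventually_ge_atTop 1,
      Real.tendsto_log_atTop.eventually_ge_atTop (1 / κ₂)] with H a1 a2 a3 a4 a5 a6 a7 a8
    refine ⟨a1, a4, a5, a7, ?_, a6, a2, a3⟩
    rw [div_le_iff₀ hκ₂] at a8
    linarith
  obtain ⟨H₀, hH₀⟩ := Filter.eventually_atTop.1 h1
  exact ⟨H₀, hH₀⟩

theorem core (hJ1 : J1_stmt) (hJ2 : J2_stmt) (hP0 : P0_stmt) (hP2 : P2_stmt) (hP3 : P3_stmt)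
    (hK1 : K1_stmt) (hK3 : K3_stmt) (hE1 : E1_stmt) (hNT : NT_stmt) (hF1 : F1_stmt)
    (hF2 : F2_stmt) (hF3 : F3_stmt) : CORE_stmt := by
  classical
  intro A κ₁ κ₂ κ' δ hA hκ₁ hκ₁₂ hκ₂ hκ' hκ'2 hδ hδ1
  have hκ₂0 : 0 < κ₂ := by linarith
  -- the constants
  obtain ⟨r, hr⟩ : ∃ r : ℕ, (A + 1) / κ₁ + 1 ≤ (2 : ℝ) ^ r := by
    obtain ⟨r, hr⟩ := pow_unbounded_of_one_lt ((A + 1) / κ₁ + 1) (one_lt_two (α := ℝ))
    exact ⟨r, hr.le⟩
  obtain ⟨k, hk⟩ : ∃ k : ℕ, k = 2 ^ r := ⟨_, rfl⟩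
  have hkr : (A + 1) / κ₁ + 1 ≤ (k : ℝ) := by rw [hk]; push_cast; exact hr
  have hA1 : 0 ≤ (A + 1) / κ₁ := by positivity
  have hk1 : 1 ≤ k := by rw [hk]; exact Nat.one_le_two_pow
  have hk0 : (1 : ℝ) ≤ k := by exact_mod_cast hk1
  have hkκ : A + 1 ≤ κ₁ * ((k : ℝ) - 1) := by
    have : (A + 1) / κ₁ ≤ (k : ℝ) - 1 := by linarith
    rw [div_le_iff₀ hκ₁] at this
    linarith
  obtain ⟨z, hz⟩ : ∃ z : ℝ, z = κ' / k := ⟨_, rfl⟩
  have hz0 : 0 < z := by rw [hz]; positivity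
  have hkz : k * z = κ' := by rw [hz]; field_simp
  obtain ⟨J, hJ⟩ : ∃ J : ℕ, J = ⌊κ₂ / z⌋₊ + 1 := ⟨_, rfl⟩
  obtain ⟨m, hm⟩ : ∃ m : ℕ, max 1 ((2 * k * κ₂ + A + 4) / κ₁) ≤ m := exists_nat_ge _
  have hm1 : 1 ≤ m := by
    have : (1 : ℝ) ≤ m := (le_max_left _ _).trans hm
    exact_mod_cast this
  have hm2 : 2 * k * κ₂ + A + 4 ≤ κ₁ * m := by
    have := (le_max_right _ _).trans hm
    rw [div_le_iff₀ hκ₁] at this
    linarith
  obtain ⟨δ₁, hδ₁, hδ₁1, X₀, hJ2⟩ := hJ2 (δ ^ 2 / 2) m J (by positivity) (by nlinarith) hm1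
    (by omega)
  obtain ⟨δ₂, hδ₂⟩ : ∃ δ₂ : ℝ, δ₂ = δ₁ ^ k / 4 := ⟨_, rfl⟩
  have hδ₂0 : 0 < δ₂ := by rw [hδ₂]; positivity
  have hδ₂1 : δ₂ ≤ 1 := by
    rw [hδ₂]
    have : δ₁ ^ k ≤ 1 := pow_le_one₀ hδ₁.le hδ₁1
    linarith
  obtain ⟨C', hC'⟩ : ∃ C' : ℝ, C' = (2 * κ' + 1) * m + 2 * κ' + 2 := ⟨_, rfl⟩
  have hC'0 : 0 < C' := by rw [hC']; positivity
  obtain ⟨cN, hcN⟩ : ∃ cN : ℝ, cN = δ₂ ^ 2 / (C' * ((2 * k).factorial : ℝ) ^ 2) := ⟨_, rfl⟩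
  have hcN0 : 0 < cN := by
    have : (0 : ℝ) < (2 * k).factorial := by exact_mod_cast Nat.factorial_pos _
    rw [hcN]; positivity
  obtain ⟨Q₁, hQ₁, CN, hCN, H₁, hNT⟩ := hNT κ₁ κ₂ A cN k hκ₁ hcN0 hk1 (by nlinarith) hA
  obtain ⟨CF, hCF, hF3⟩ := hF3 k hk1
  have hfac : (1 : ℝ) ≤ Q₁.factorial := by exact_mod_cast Nat.factorial_pos Q₁
  obtain ⟨W, hW⟩ : ∃ W : ℝ, W = 9 + 4 * k + 16 * (m + 2) / δ₂ + 8 * Q₁.factorial * (CN + 1) :=
    ⟨_, rfl⟩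
  obtain ⟨H₀, hH₀⟩ := core_large κ₁ κ₂ W X₀ H₁ hκ₁ hκ₂0
  refine ⟨δ₂ * κ₁ / (2 * CF * (2 * κ' + 2)),
    4 * k * (1 + 2 * CN) + 2 + Real.exp 2 * (4 * k * CN), by positivity, by positivity,
    Q₁.factorial, Nat.factorial_pos _, H₀, ?_⟩
  intro H hH s R h hR hτ hmass
  obtain ⟨b1, b2, b3, b4, b5, b6, b7, b8⟩ := hH₀ H hH
  have hH0 : 0 < H := by linarith
  have hR1 := h.Rone
  have hR0 : 0 < R := by linarith
  have hτ0 := h.tau0
  obtain ⟨X, hX⟩ : ∃ X : ℝ, X = Real.log H := ⟨_, rfl⟩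
  rw [← hX] at b4 b5
  have hX0 : 0 < X := by linarith
  have hHexp : ∀ y : ℝ, H ^ y = Real.exp (y * X) := fun y => by
    rw [Real.rpow_def_of_pos hH0, hX, mul_comm]
  have hWpos : 9 ≤ W := by
    rw [hW]
    have : 0 ≤ 16 * ((m : ℝ) + 2) / δ₂ := by positivity
    have : 0 ≤ 8 * (Q₁.factorial : ℝ) * (CN + 1) := by positivity
    linarith
  have hP1pos : 0 < H ^ κ₁ := Real.rpow_pos_of_pos hH0 _
  have hP2pos : 0 < H ^ κ₂ := Real.rpow_pos_of_pos hH0 _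
  have hP12 : H ^ κ₁ ≤ H ^ κ₂ := Real.rpow_le_rpow_of_exponent_le b8 hκ₁₂
  have hP21 : 1 ≤ H ^ κ₂ := by linarith
  -- the small quantities
  have hquart : H ^ (-(1 / 4) : ℝ) = 1 / H ^ (1 / 4 : ℝ) := by
    rw [Real.rpow_neg hH0.le, inv_eq_one_div]
  have hq4 : 0 < H ^ (1 / 4 : ℝ) := Real.rpow_pos_of_pos hH0 _
  have hsm : 8 * H ^ κ₂ * s.tau < 1 := by
    have e1 : H ^ κ₂ * H ^ (-(1 / 2) : ℝ) ≤ H ^ (-(1 / 4) : ℝ) := by
      rw [← Real.rpow_add hH0]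
      exact Real.rpow_le_rpow_of_exponent_le b8 (by linarith)
    have e2 : H ^ κ₂ * s.tau ≤ 1 / H ^ (1 / 4 : ℝ) := by
      rw [← hquart]
      exact le_trans (by gcongr) e1
    have e3 : 1 / H ^ (1 / 4 : ℝ) ≤ 1 / 9 := one_div_le_one_div_of_le (by norm_num) (by linarith)
    linarith
  -- the cells
  obtain ⟨g, hg⟩ : ∃ g : ℝ, g = Real.exp (z * X) := ⟨_, rfl⟩
  have hg1 : 1 ≤ g := by rw [hg]; exact Real.one_le_exp (by positivity)
  have hg0 : 0 < g := by linarith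
  have hlg : k * Real.log g = κ' * X := by rw [hg, Real.log_exp, ← mul_assoc, hkz]
  have hgk : g ^ k = H ^ κ' := by
    rw [hg, ← Real.exp_nat_mul, hHexp, ← mul_assoc, hkz]
  obtain ⟨cell, hcell⟩ : ∃ cell : ℕ → ℕ, cell = fun p : ℕ => ⌊Real.log p / (z * X)⌋₊ :=
    ⟨_, rfl⟩
  have hp1 : ∀ p ∈ s.PP, 1 ≤ p := fun p hp => (h.prime p hp).one_lt.le
  have hcJ : ∀ p ∈ s.PP, cell p < J := by
    intro p hp
    rw [hcell, hJ]
    refine cell_lt hz0 hX0 ?_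
    have := h.le p hp
    rw [hHexp] at this
    calc Real.log p ≤ Real.log (Real.exp (κ₂ * X)) :=
          Real.log_le_log (by exact_mod_cast hp1 p hp) this
      _ = κ₂ * X := Real.log_exp _
  have hcg : ∀ p ∈ s.PP, ∀ p' ∈ s.PP, cell p = cell p' → (p : ℝ) ≤ g * p' := by
    intro p hp p' hp' hc
    rw [hcell] at hc
    rw [hg]
    exact cell_ratio hz0 hX0 (hp1 p hp) (hp1 p' hp') hc
  -- the auxiliary primes
  obtain ⟨q, hqi, hqP, hqm⟩ := hJ2 s _ _ R h b2 cell hcJ (hJ1 s _ _ R δ h hδ.le hmass)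
  obtain ⟨hsym, hid⟩ := k0 s _ _ R h cell m q hm1 hqP
  rw [hid] at hqm
  have hlohi : 0 < s.hi - s.lo := by linarith [hsym.le]
  have hlen : 1 ≤ s.hi - s.lo := by
    have := h.len
    rw [hHexp, Real.log_exp] at this
    linarith
  -- many paths
  have hK := hK1 _ _ _ _ _ _ _ hsym δ₁ hδ₁.le hqm r
  rw [← hk] at hK
  obtain ⟨S, hS⟩ : ∃ S : Set ℝ, S = {v | δ₂ ≤ (Op (Mv s cell) (om s) sg (Ed s cell q))^[k]
    (fun _ => 1) v} := ⟨_, rfl⟩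
  obtain ⟨hSm, hSs, hSi⟩ := hK3 _ _ _ _ _ _ _ hsym k δ₂ hk1 hδ₂0 (by
    refine le_trans (le_of_eq ?_) hK
    rw [hδ₂]; ring) S hS
  obtain ⟨ψ, hψ⟩ : ∃ ψ : ℝ → ℝ, ψ = (Op (Mv s cell) (om s) sg (Ed s cell q))^[k]
    (S.indicator fun _ => 1) := ⟨_, rfl⟩
  rw [← hψ] at hSi
  have hind0 : ∀ v, 0 ≤ S.indicator (fun _ => (1 : ℝ)) v := fun v =>
    Set.indicator_nonneg (fun _ _ => zero_le_one) v
  have hind1 : ∀ v, S.indicator (fun _ => (1 : ℝ)) v ≤ 1 := fun v =>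
    Set.indicator_le_self' (fun _ _ => zero_le_one) v
  have hψm : Measurable ψ := by
    rw [hψ]
    exact Op_iter_measurable hsym (measurable_const.indicator hSm) k
  have hψb : ∀ v, 0 ≤ ψ v ∧ ψ v ≤ 1 := fun v => by
    rw [hψ]
    exact Op_iter_bound hsym hind0 hind1 k v
  -- a short cell
  obtain ⟨r₃, hr₃⟩ : ∃ r₃ : ℝ, r₃ = H ^ (-(A + 1)) := ⟨_, rfl⟩
  have hr₃0 : 0 < r₃ := by rw [hr₃]; exact Real.rpow_pos_of_pos hH0 _
  have hr₃1 : r₃ ≤ 1 := by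
    rw [hr₃]
    exact Real.rpow_le_one_of_one_le_of_nonpos b8 (by linarith)
  have hRr : R * r₃ ≤ 1 / H := by
    calc R * r₃ ≤ H ^ A * H ^ (-(A + 1)) := by rw [hr₃]; gcongr
      _ = H ^ (-1 : ℝ) := by rw [← Real.rpow_add hH0]; congr 1; ring
      _ = 1 / H := by rw [Real.rpow_neg_one, one_div]
  have hB : 16 * (m * R + R + 1) * r₃ ≤ δ₂ := by
    have e1 : m * R + R + 1 ≤ (m + 2) * R := by linarith
    calc 16 * (m * R + R + 1) * r₃ ≤ 16 * ((m + 2) * R) * r₃ := by gcongr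
      _ = 16 * (m + 2) * (R * r₃) := by ring
      _ ≤ 16 * (m + 2) * (1 / H) := by gcongr
      _ ≤ δ₂ := by
          rw [mul_one_div, div_le_iff₀ hH0]
          have e2 : 16 * ((m : ℝ) + 2) / δ₂ ≤ H := by
            refine le_trans ?_ b7
            rw [hW]
            have : 0 ≤ 8 * (Q₁.factorial : ℝ) * (CN + 1) := by positivity
            linarith
          rw [div_le_iff₀ hδ₂0] at e2
          linarith
  obtain ⟨a, hTa, hamass⟩ := hF1 s.lo s.hi δ₂ r₃ (m * R + R + 1) S ψ (stt s q R) hδ₂0 hr₃0 hr₃1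
    hlen (by
      have : 0 ≤ (m : ℝ) * R := by positivity
      linarith) hSm hSs hψm (fun v => (hψb v).1) (fun v => (hψb v).2)
    hSi (stt_mono h q) (stt_grow h q) hB
  -- the end points
  have hlP1 : Real.log (H ^ κ₁) = κ₁ * X := by rw [hHexp, Real.log_exp]
  have hlP10 : 0 < Real.log (H ^ κ₁) := by rw [hlP1]; positivity
  obtain ⟨U, hUm, hUS, hUv, hU⟩ := hF2 s _ _ R h cell m q hm1 hqP k S (Set.Ico a (a + r₃))
    (δ₂ / 2 * r₃) (CF * r₃ / Real.log (H ^ κ₁)) hk1 hSm hSs measurableSet_Ico (by positivity)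
    (by positivity) (by rw [← hψ]; exact hamass)
    (fun u => by
      have h1 : 1 ≤ r₃ * (H ^ κ₁) ^ ((k : ℝ) - 1) := by
        rw [hr₃, ← Real.rpow_mul hH0.le, ← Real.rpow_add hH0]
        refine Real.one_le_rpow b8 ?_
        linarith
      have h2 := hF3 s _ _ R h cell r₃ hr₃0 hr₃1 h1 u a
      convert h2)
  -- the lift
  obtain ⟨β, hβ⟩ := hP0 s _ _ R h m q hqi hqP
  obtain ⟨M, hM⟩ : ∃ M : ℝ, M = ((∏ i, q i : ℕ) : ℝ) := ⟨_, rfl⟩
  obtain ⟨E2, hE2⟩ : ∃ E2 : ℝ, E2 = k * g ^ k * (4 * H ^ κ₂ * s.tau) / H ^ κ₁ := ⟨_, rfl⟩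
  have hE20 : 0 ≤ E2 := by rw [hE2]; positivity
  have hE2b : E2 ≤ 4 * k * (s.tau * H ^ (κ' + κ₂)) := by
    rw [hE2, hgk]
    rw [div_le_iff₀ hP1pos, Real.rpow_add hH0]
    have : 0 ≤ 4 * k * (s.tau * (H ^ κ' * H ^ κ₂)) := by positivity
    calc (k : ℝ) * H ^ κ' * (4 * H ^ κ₂ * s.tau) = 4 * k * (s.tau * (H ^ κ' * H ^ κ₂)) * 1 := by ring
      _ ≤ 4 * k * (s.tau * (H ^ κ' * H ^ κ₂)) * H ^ κ₁ := by gcongr; linarith
  have hE21 : E2 ≤ 1 := by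
    refine hE2b.trans ?_
    have e1 : s.tau * H ^ (κ' + κ₂) ≤ 1 / H ^ (1 / 4 : ℝ) := by
      rw [← hquart]
      calc s.tau * H ^ (κ' + κ₂) ≤ H ^ (-(1 / 2) : ℝ) * H ^ (κ' + κ₂) := by gcongr
        _ = H ^ (-(1 / 2) + (κ' + κ₂)) := by rw [← Real.rpow_add hH0]
        _ ≤ H ^ (-(1 / 4) : ℝ) := Real.rpow_le_rpow_of_exponent_le b8 (by linarith)
    have e2 : 4 * (k : ℝ) ≤ H ^ (1 / 4 : ℝ) := by
      refine le_trans ?_ b6
      rw [hW]
      have : 0 ≤ 16 * ((m : ℝ) + 2) / δ₂ := by positivity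
      have : 0 ≤ 8 * (Q₁.factorial : ℝ) * (CN + 1) := by positivity
      linarith
    calc 4 * (k : ℝ) * (s.tau * H ^ (κ' + κ₂)) ≤ 4 * k * (1 / H ^ (1 / 4 : ℝ)) := by gcongr
      _ ≤ 1 := by rw [mul_one_div, div_le_one hq4]; exact e2
  have hMbig : H ^ (2 * k * κ₂ + A + 4) ≤ M := by
    rw [hM]
    push_cast
    calc H ^ (2 * k * κ₂ + A + 4) ≤ H ^ (κ₁ * m) := Real.rpow_le_rpow_of_exponent_le b8 hm2
      _ = (H ^ κ₁) ^ m := by rw [Real.rpow_mul hH0.le, Real.rpow_natCast]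
      _ = ∏ _i : Fin m, H ^ κ₁ := by rw [prod_const, card_univ, Fintype.card_fin]
      _ ≤ ∏ i, (q i : ℝ) := prod_le_prod (fun _ _ => hP1pos.le) fun i _ => h.ge _ (hqP i)
  have hM0 : 0 < M := lt_of_lt_of_le (Real.rpow_pos_of_pos hH0 _) hMbig
  obtain ⟨Q0, hQ0⟩ : ∃ Q0 : ℝ, Q0 = (Q₁.factorial : ℝ) := ⟨_, rfl⟩
  have hQ01 : 1 ≤ Q0 := by rw [hQ0]; exact hfac
  have hQ00 : 0 < Q0 := by linarith
  obtain ⟨Θ, hΘ⟩ : ∃ Θ : ℝ, Θ = Q0 * (CN * R * E2) := ⟨_, rfl⟩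
  have hΘ0 : 0 ≤ Θ := by rw [hΘ]; positivity
  have hWQ : 8 * Q0 * (CN + 1) ≤ H := by
    refine le_trans ?_ b7
    rw [hW, hQ0]
    have : 0 ≤ 16 * ((m : ℝ) + 2) / δ₂ := by positivity
    linarith
  have hkκ0 : 0 ≤ k * κ₂ := by positivity
  -- sizes against `M`
  have hbig : ∀ y : ℝ, y ≤ 2 * k * κ₂ + A → 8 * Q0 * (CN + 1) * H ^ y ≤ M := by
    intro y hy
    calc 8 * Q0 * (CN + 1) * H ^ y ≤ H * H ^ y := by gcongr
      _ = H ^ (1 + y) := by rw [Real.rpow_add hH0, Real.rpow_one]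
      _ ≤ H ^ (2 * k * κ₂ + A + 4) := Real.rpow_le_rpow_of_exponent_le b8 (by linarith)
      _ ≤ M := hMbig
  have hΘM : 2 * (H ^ (k * κ₂) * Θ) ≤ M / 4 := by
    have e1 : Θ ≤ Q0 * CN * H ^ A := by
      rw [hΘ]
      calc Q0 * (CN * R * E2) ≤ Q0 * (CN * H ^ A * 1) := by gcongr
        _ = Q0 * CN * H ^ A := by ring
    have e2 := hbig (k * κ₂ + A) (by linarith)
    have e3 : H ^ (k * κ₂) * H ^ A = H ^ (k * κ₂ + A) := by rw [← Real.rpow_add hH0]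
    have e4 : 0 ≤ Q0 * H ^ (k * κ₂ + A) := by positivity
    calc 2 * (H ^ (k * κ₂) * Θ) ≤ 2 * (H ^ (k * κ₂) * (Q0 * CN * H ^ A)) := by gcongr
      _ = 2 * (Q0 * CN) * (H ^ (k * κ₂) * H ^ A) := by ring
      _ = 2 * (Q0 * CN) * H ^ (k * κ₂ + A) := by rw [e3]
      _ ≤ M / 4 := by linarith
  have hEM : Q0 * (H ^ (k * κ₂) * E2) ≤ M / 4 := by
    have e2 := hbig (k * κ₂) (by linarith)
    have e4 : 0 ≤ Q0 * H ^ (k * κ₂) := by positivity
    have e5 : 0 ≤ Q0 * CN * H ^ (k * κ₂) := by positivity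
    calc Q0 * (H ^ (k * κ₂) * E2) ≤ Q0 * (H ^ (k * κ₂) * 1) := by gcongr
      _ ≤ M / 4 := by linarith
  have hkκ1 : 1 ≤ H ^ (k * κ₂) := Real.one_le_rpow b8 (by positivity)
  have hτ1 : s.tau ≤ 1 := by
    have : s.tau * 1 ≤ s.tau * H ^ κ₂ := by gcongr
    linarith
  have hτM : Q0 * (2 * s.tau) ≤ M / 4 := by
    have e2 := hbig 0 (by positivity)
    rw [Real.rpow_zero] at e2
    have e3 : Q0 * s.tau ≤ Q0 * 1 := by gcongr
    have e4 : 0 ≤ Q0 * CN := by positivity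
    linarith
  have hΘM2 : 2 * Θ ≤ M / 4 := by
    refine le_trans ?_ hΘM
    have : 1 * Θ ≤ H ^ (k * κ₂) * Θ := by gcongr
    linarith
  -- the rich points
  have hgood : ∀ v ∈ S, ∀ i, v ∈ s.G (q i) := by
    intro v hv i
    rw [hS] at hv
    obtain ⟨j, _, hj⟩ := Op_iter_move (I := Mv s cell) (ω := om s) (σ := sg)
      (E := Ed s cell q) (f := fun _ => 1) hk1 (v := v) (by
        intro h0
        have : δ₂ ≤ _ := hv
        rw [h0] at this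
        linarith)
    exact Ed_start hj i
  have hrich : ∀ v : ℝ, ∃ θ : ℝ, ∃ j : ℤ, v ∈ S → Q0 * β v = θ + j * M ∧ |θ| ≤ Θ := by
    intro v
    by_cases hv : v ∈ S
    swap
    · exact ⟨0, 0, fun h => absurd h hv⟩
    have hv' : δ₂ ≤ (Op (Mv s cell) (om s) sg (Ed s cell q))^[k] (fun _ => 1) v := by
      rw [hS] at hv
      exact hv
    obtain ⟨Nn, hNn, hNs⟩ := hE1 s _ _ R g h hsm hg1 m q hm1 hqi hqP β hβ cell hcg k δ₂ v hk1
      hδ₂0 hv'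
    rw [← hE2, ← hM] at hNn
    have hlow : cN / (R * Real.log H) ≤ ∑ x ∈ Nn, 1 / ((x.1 : ℝ) * x.2) := by
      refine le_trans ?_ hNs
      rw [hlg, hcN, div_div, ← hX]
      apply div_le_div_of_nonneg_left (by positivity)
      · have : (0 : ℝ) < (2 * k).factorial := by exact_mod_cast Nat.factorial_pos _
        positivity
      · have e1 : (2 * (κ' * X) + 1) * (m * R) + 2 * (κ' * X) * R + 2 ≤ C' * (R * X) := by
          rw [hC']
          have a1 : (m : ℝ) * R ≤ m * R * X := by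
            have : m * R * 1 ≤ m * R * X := by gcongr
            linarith
          have a2 : 1 ≤ R * X := one_le_mul_of_one_le_of_one_le hR1 b4
          linarith
        calc ((2 * (κ' * X) + 1) * (m * R) + 2 * (κ' * X) * R + 2) *
              ((2 * k).factorial : ℝ) ^ 2 ≤ C' * (R * X) * ((2 * k).factorial : ℝ) ^ 2 := by
              gcongr
          _ = _ := by ring
    obtain ⟨q', hq1, hq2, j, hj⟩ := hNT H b1 R (β v) M E2 hR1 hR hM0 hE20 (by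
      calc H ^ (2 * k * κ₂ + 1) * E2 ≤ H ^ (2 * k * κ₂ + 1) * 1 := by gcongr
        _ = H ^ (2 * k * κ₂ + 1) := mul_one _
        _ ≤ H ^ (2 * k * κ₂ + A + 4) := Real.rpow_le_rpow_of_exponent_le b8 (by linarith)
        _ ≤ M := hMbig) Nn hNn hlow
    obtain ⟨j', hj'⟩ := factorial_lift hq1 hq2 hj
    refine ⟨Q0 * β v - j' * M, j', fun _ => ⟨by ring, ?_⟩⟩
    rw [hΘ, hQ0]
    exact hj'
  choose θ Jv hθ using hrich
  -- a base point
  obtain ⟨vs, hvs⟩ : (S ∩ Set.Ico a (a + r₃)).Nonempty := by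
    rw [Set.nonempty_iff_ne_empty]
    intro he
    rw [he] at hamass
    simp only [Measure.restrict_empty, integral_zero_measure] at hamass
    have : 0 < δ₂ / 2 * r₃ := by positivity
    linarith
  -- the interval
  obtain ⟨n, hn⟩ : ∃ n : ℕ, n = ⌈2 * (κ' * X)⌉₊ + 1 := ⟨_, rfl⟩
  have hn1 : 2 * (κ' * X) + 1 ≤ n := by
    rw [hn]; push_cast
    linarith [Nat.le_ceil (2 * (κ' * X))]
  have hn2 : (n : ℝ) ≤ (2 * κ' + 2) * X := by
    rw [hn]; push_cast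
    have := Nat.ceil_lt_add_one (show 0 ≤ 2 * (κ' * X) by positivity)
    linarith
  have hUdist : ∀ u ∈ U, ∃ l ∈ paths (Mv s cell) k, ∃ v ∈ S ∩ Set.Ico a (a + r₃),
      OkL sg (Ed s cell q) l v ∧ u = v + (l.map sg).sum ∧ |(l.map sg).sum| ≤ κ' * X := by
    intro u hu
    obtain ⟨l, hl, v, hv, hok, huv⟩ := hU u hu
    obtain ⟨d1, _, _⟩ := hP3 s _ _ R g h hsm hg1 m q hm1 hqi hqP β hβ cell hcg k l hl v hok
    rw [hlg] at d1
    exact ⟨l, hl, v, hv, hok, huv, d1⟩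
  have hUsub : U ⊆ Set.Icc (a - κ' * X) (a - κ' * X + n) := by
    intro u hu
    obtain ⟨l, _, v, hv, _, huv, hd⟩ := hUdist u hu
    have := abs_le.1 hd
    have h1 := hv.2.1
    have h2 := hv.2.2
    constructor
    · linarith
    · linarith
  obtain ⟨u₀, hu₀, hvol⟩ := unit_interval (by omega : 1 ≤ n) hUsub
  have hn0 : (0 : ℝ) < n := by
    have : 0 ≤ 2 * (κ' * X) := by positivity
    linarith
  refine ⟨q ⟨0, by omega⟩, hqP _, u₀, Real.exp vs * θ vs / Q0, U ∩ Set.Icc u₀ (u₀ + 1),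
    hUm.inter measurableSet_Icc, Set.inter_subset_right, ?_, ?_, ?_⟩
  · -- the measure
    refine le_trans ?_ hvol
    rw [le_div_iff₀ hn0]
    refine le_trans ?_ hUv
    rw [hlP1]
    calc δ₂ * κ₁ / (2 * CF * (2 * κ' + 2)) * n
        ≤ δ₂ * κ₁ / (2 * CF * (2 * κ' + 2)) * ((2 * κ' + 2) * X) := by gcongr
      _ = δ₂ / 2 * r₃ / (CF * r₃ / (κ₁ * X)) := by field_simp
  · -- the size of `T₀`
    have hne : (U ∩ Set.Icc u₀ (u₀ + 1)).Nonempty := by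
      rw [Set.nonempty_iff_ne_empty]
      intro he
      rw [he, measure_empty, ENNReal.toReal_zero] at hvol
      have h1 : 0 < (volume U).toReal := lt_of_lt_of_le (by positivity) hUv
      have h2 : 0 < (volume U).toReal / n := by positivity
      linarith
    obtain ⟨u, hu, hu1, hu2⟩ := hne
    obtain ⟨l, _, v, hv, _, huv, hd⟩ := hUdist u hu
    have h3 := abs_le.1 hd
    have h4 := hv.2.1
    have h5 := hvs.2.2
    have h6 : vs ≤ u₀ + (κ' * X + 2) := by linarith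
    have h7 : |θ vs| ≤ Θ := (hθ vs hvs.1).2
    have h8 : Real.exp vs ≤ Real.exp u₀ * (H ^ κ' * Real.exp 2) := by
      rw [hHexp, ← Real.exp_add, ← Real.exp_add]
      exact Real.exp_le_exp.2 h6
    have e1 : |Real.exp vs * θ vs / Q0| ≤ Real.exp vs * (CN * R * E2) := by
      rw [abs_div, abs_mul, abs_of_pos (Real.exp_pos _), abs_of_pos hQ00, div_le_iff₀ hQ00]
      calc Real.exp vs * |θ vs| ≤ Real.exp vs * Θ := by gcongr
        _ = _ := by rw [hΘ]; ring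
    refine e1.trans ?_
    have e2 : H ^ κ' * H ^ (κ' + κ₂) = H ^ (2 * κ' + κ₂) := by
      rw [← Real.rpow_add hH0]; congr 1; ring
    calc Real.exp vs * (CN * R * E2)
        ≤ (Real.exp u₀ * (H ^ κ' * Real.exp 2)) *
          (CN * R * (4 * k * (s.tau * H ^ (κ' + κ₂)))) := by gcongr
      _ = Real.exp u₀ * ((Real.exp 2 * (4 * k * CN)) * R * s.tau *
          (H ^ κ' * H ^ (κ' + κ₂))) := by ring
      _ = Real.exp u₀ * ((Real.exp 2 * (4 * k * CN)) * R * s.tau * H ^ (2 * κ' + κ₂)) := by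
          rw [e2]
      _ ≤ _ := by
          gcongr
          have : 0 ≤ 4 * (k : ℝ) * (1 + 2 * CN) + 2 := by positivity
          linarith
  · rintro u ⟨hu, _⟩
    have huS := hUS hu
    refine ⟨hgood u huS _, ?_⟩
    obtain ⟨l, hl, v, hv, hok, huv, hd⟩ := hUdist u hu
    obtain ⟨_, hsum, jp, hjp⟩ := hP3 s _ _ R g h hsm hg1 m q hm1 hqi hqP β hβ cell hcg k l hl v
      hok
    rw [← huv, ← hE2, ← hM] at hjp
    -- the lift is constant on the cell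
    have hTT : stt s q R v = stt s q R vs := by
      rw [hTa v hv.2, hTa vs hvs.2]
    obtain ⟨kv, hkv⟩ := hP2 s _ _ R h hsm m q hm1 hqi hqP β hβ v vs (hgood v hv.1)
      (hgood vs hvs.1) (stt_eq h hTT).1
    rw [← hM] at hkv
    have hint : ∃ zz : ℤ, Q0 = zz := ⟨Q₁.factorial, by rw [hQ0]; push_cast; rfl⟩
    have hc1 := theta_close hM0 hQ01 (hθ v hv.1).1 (hθ vs hvs.1).1 (hθ v hv.1).2
      (hθ vs hvs.1).2 hkv hint hΘM2 hτM
    -- sizes of the products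
    have hprod : ∀ f : ℕ × ℕ → ℕ, (∀ i ∈ Mv s cell, 1 ≤ f i ∧ (f i : ℝ) ≤ H ^ κ₂) →
        ∀ (j : ℕ), ∀ l ∈ paths (Mv s cell) j, 1 ≤ (l.map f).prod ∧
          (((l.map f).prod : ℕ) : ℝ) ≤ (H ^ κ₂) ^ j := by
      intro f hf j
      induction j with
      | zero =>
        intro l hl
        rw [paths, mem_singleton] at hl
        subst hl
        simp
      | succ j ih =>
        intro l hl
        rw [paths, mem_image] at hl
        obtain ⟨x, hx, rfl⟩ := hl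
        rw [mem_product] at hx
        obtain ⟨f1, f2⟩ := hf _ hx.1
        obtain ⟨g1, g2⟩ := ih _ hx.2
        rw [List.map_cons, List.prod_cons]
        refine ⟨Nat.one_le_iff_ne_zero.2 (Nat.mul_ne_zero (by omega) (by omega)), ?_⟩
        rw [Nat.cast_mul, pow_succ']
        exact mul_le_mul f2 g2 (Nat.cast_nonneg _) hP2pos.le
    have hf1 := hprod Prod.fst (fun i hi => ⟨hp1 _ (mem_Mv.1 hi).1.1, h.le _ (mem_Mv.1 hi).1.1⟩)
      k l hl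
    have hf2 := hprod Prod.snd (fun i hi => ⟨hp1 _ (mem_Mv.1 hi).1.2, h.le _ (mem_Mv.1 hi).1.2⟩)
      k l hl
    have hpk : (H ^ κ₂) ^ k = H ^ (k * κ₂) := by
      rw [← Real.rpow_mul_natCast hH0.le, mul_comm]
    rw [hpk] at hf1 hf2
    have hN1pos : (0 : ℝ) < N1 l := by exact_mod_cast hf1.1
    have hN2pos : (0 : ℝ) < N2 l := by exact_mod_cast hf2.1
    have hc2 := theta_path (N := H ^ (k * κ₂)) hM0 hQ01 (hθ u huS).1 (hθ v hv.1).1 (hθ u huS).2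
      (hθ v hv.1).2 hjp hint ⟨(N1 l : ℤ), by push_cast; rfl⟩ ⟨(N2 l : ℤ), by push_cast; rfl⟩
      hN1pos.le hN2pos.le hf1.2 hf2.2 hΘM hEM hE20
    have hlog' : u = v + (Real.log (N1 l) - Real.log (N2 l)) := by rw [huv, hsum]
    have hG' : Real.exp (v - u) ≤ H ^ κ' := by
      rw [hHexp]
      refine Real.exp_le_exp.2 ?_
      have := abs_le.1 hd
      rw [huv]
      linarith
    have hvv' : |v - vs| ≤ r₃ := by
      have h1 := hv.2.1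
      have h2 := hv.2.2
      have h3 := hvs.2.1
      have h4 := hvs.2.2
      rw [abs_le]
      constructor <;> linarith
    have hfin := final_compare hQ01 hN1pos hN2pos
      hr₃0.le hr₃1 hc2 hlog' hc1 (hθ vs hvs.1).2 hG' hvv' hE20
    -- back to `b`
    obtain ⟨kb, hkb⟩ := (hβ u (hgood u huS)).1
    obtain ⟨Mz, hMz⟩ : ∃ Mz : ℤ, M = Mz := ⟨((∏ i, q i : ℕ) : ℤ), by rw [hM]; push_cast; rfl⟩
    refine ⟨Jv u * Mz - Q₁.factorial * kb, ?_⟩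
    have e1 : s.b u - Real.exp vs * θ vs / Q0 * Real.exp (-u) -
        ((Jv u * Mz - Q₁.factorial * kb : ℤ) : ℝ) / (Q₁.factorial : ℝ) =
        θ u / Q0 - Real.exp vs * θ vs / Q0 * Real.exp (-u) := by
      have a1 := (hθ u huS).1
      have a2 : s.b u = β u - kb := by linarith
      push_cast
      rw [← hMz, ← hQ0, a2]
      field_simp
      linear_combination a1
    rw [e1]
    refine hfin.trans ?_
    have e2 : H ^ κ' * H ^ (κ' + κ₂) = H ^ (2 * κ' + κ₂) := by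
      rw [← Real.rpow_add hH0]; congr 1; ring
    have e3 : 2 * r₃ * (Θ / Q0) ≤ 2 * CN * E2 := by
      rw [hΘ, mul_div_cancel_left₀ _ hQ00.ne']
      have : R * r₃ ≤ 1 := hRr.trans (by rw [div_le_one hH0]; exact b8)
      calc 2 * r₃ * (CN * R * E2) = 2 * CN * E2 * (R * r₃) := by ring
        _ ≤ 2 * CN * E2 * 1 := by gcongr
        _ = _ := by ring
    have e4 : s.tau ≤ s.tau * H ^ (κ' + κ₂) := by
      have : 1 ≤ H ^ (κ' + κ₂) := Real.one_le_rpow b8 (by positivity)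
      have := mul_le_mul_of_nonneg_left this hτ0
      linarith
    have hH' : 0 < H ^ κ' := Real.rpow_pos_of_pos hH0 _
    calc H ^ κ' * (E2 + 2 * s.tau + 2 * r₃ * (Θ / Q0))
        ≤ H ^ κ' * (4 * k * (s.tau * H ^ (κ' + κ₂)) + 2 * (s.tau * H ^ (κ' + κ₂)) +
          2 * CN * (4 * k * (s.tau * H ^ (κ' + κ₂)))) := by
          have e5 := mul_le_mul_of_nonneg_left hE2b (by positivity : 0 ≤ 2 * CN)
          exact mul_le_mul_of_nonneg_left (by linarith) hH'.le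
      _ = (4 * k * (1 + 2 * CN) + 2) * s.tau * (H ^ κ' * H ^ (κ' + κ₂)) := by ring
      _ = (4 * k * (1 + 2 * CN) + 2) * s.tau * H ^ (2 * κ' + κ₂) := by rw [e2]
      _ ≤ _ := by
          have h1 : 0 ≤ Real.exp 2 * (4 * k * CN) := by positivity
          refine mul_le_mul_of_nonneg_right (mul_le_mul_of_nonneg_right ?_ hτ0) (by positivity)
          linarith

end Pool.Agent.SV
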