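import Pool.Agent.Lib.SV.Defs

/-!
Theorem V, row E1: closed paths from a rich point (helper20).
-/

set_option autoImplicit false
open Finset MeasureTheory

namespace Pool.Agent.SV

open Pool.Agent.Lib.MP_663568_nt Pool.Agent.Lib.MP_663568_nt.Katai
  Pool.Agent.Lib.MP_663568_nt.Nul

noncomputable section

namespace E1

/-- Membership in the lists of length `k`. -/
theorem mem_paths {ι : Type} [DecidableEq ι] (I : Finset ι) :
    ∀ (k : ℕ) (l : List ι), l ∈ paths I k ↔ l.length = k ∧ ∀ i ∈ l, i ∈ I := by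
  intro k
  induction k with
  | zero =>
    intro l
    rw [paths, mem_singleton]
    constructor
    · rintro rfl
      simp
    · rintro ⟨h, -⟩
      exact List.length_eq_zero_iff.1 h
  | succ k ih =>
    intro l
    rw [paths, mem_image]
    constructor
    · rintro ⟨⟨a, t⟩, hx, rfl⟩
      rw [mem_product] at hx
      have h2 := (ih t).1 hx.2
      refine ⟨by simp [h2.1], ?_⟩
      intro i hi
      rw [List.mem_cons] at hi
      rcases hi with rfl | hi
      · exact hx.1
      · exact h2.2 i hi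
    · rintro ⟨h1, h2⟩
      cases l with
      | nil => simp at h1
      | cons a t =>
        refine ⟨(a, t), ?_, rfl⟩
        rw [mem_product]
        refine ⟨h2 a (by simp), (ih t).2 ⟨by simpa using h1, fun i hi => h2 i (by simp [hi])⟩⟩

/-- The end point of an allowed path. -/
theorem end_mem (s : Sys) (cell : ℕ → ℕ) {m : ℕ} (q : Fin m → ℕ) :
    ∀ (l : List (ℕ × ℕ)) (v : ℝ), l ≠ [] → OkL sg (Ed s cell q) l v →
    ∀ i, v + (l.map sg).sum ∈ s.G (q i) := by
  intro l
  induction l with
  | nil => intro v h; exact absurd rfl h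
  | cons a t ih =>
    intro v _ hok i
    rw [OkL] at hok
    rw [List.map_cons, List.sum_cons]
    by_cases ht : t = []
    · subst ht
      have h1 := (hok.1).2 i
      have h2 := h1.1.2
      simp only [List.map_nil, List.sum_nil, add_zero]
      have e : v - Real.log a.2 + Real.log a.1 = v + sg a := by rw [sg]; ring
      rw [e] at h2
      exact h2
    · have := ih (v + sg a) ht hok.2 i
      rwa [add_assoc] at this

/-- The weight of a path. -/
theorem prod_om (s : Sys) : ∀ l : List (ℕ × ℕ),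
    (l.map (om s)).prod = 1 / ((N1 l : ℝ) * N2 l * Ls s.PP ^ (2 * l.length)) := by
  intro l
  induction l with
  | nil => simp [N1, N2]
  | cons a t ih =>
    rw [List.map_cons, List.prod_cons, ih, om, wt, wt, N1, N2, N1, N2, List.map_cons,
      List.map_cons, List.prod_cons, List.prod_cons, List.length_cons, mul_add, pow_add]
    push_cast
    rw [div_mul_div_comm, div_mul_div_comm]
    congr 1
    · ring
    · ring

theorem N1_cons (a : ℕ × ℕ) (t : List (ℕ × ℕ)) : N1 (a :: t) = a.1 * N1 t := by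
  simp [N1]

theorem N2_cons (a : ℕ × ℕ) (t : List (ℕ × ℕ)) : N2 (a :: t) = a.2 * N2 t := by
  simp [N2]

/-- Size of `N1`, `N2`. -/
theorem bounds {s : Sys} {P1 P2 R g : ℝ} (hs : s.OK P1 P2 R) (hg : 1 ≤ g) (cell : ℕ → ℕ)
    (hcell : ∀ p ∈ s.PP, ∀ p' ∈ s.PP, cell p = cell p' → (p : ℝ) ≤ g * p') :
    ∀ l : List (ℕ × ℕ), (∀ i ∈ l, i ∈ Mv s cell) →
    P1 ^ l.length ≤ N1 l ∧ (N1 l : ℝ) ≤ P2 ^ l.length ∧
    P1 ^ l.length ≤ N2 l ∧ (N2 l : ℝ) ≤ P2 ^ l.length ∧ (N1 l : ℝ) ≤ g ^ l.length * N2 l := by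
  intro l
  have hP1 : 0 < P1 := by linarith [hs.P1one]
  induction l with
  | nil => intro _; simp [N1, N2]
  | cons a t ih =>
    intro h
    have ha := h a (by simp)
    rw [Mv, mem_filter, mem_product] at ha
    obtain ⟨⟨ha1, ha2⟩, hac⟩ := ha
    obtain ⟨i1, i2, i3, i4, i5⟩ := ih fun i hi => h i (by simp [hi])
    have b1 := hs.ge _ ha1
    have b2 := hs.le _ ha1
    have b3 := hs.ge _ ha2
    have b4 := hs.le _ ha2
    have b5 := hcell _ ha1 _ ha2 hac
    rw [N1_cons, N2_cons, List.length_cons]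
    push_cast
    have e1 : (0 : ℝ) ≤ a.1 := Nat.cast_nonneg _
    have e2 : (0 : ℝ) ≤ a.2 := Nat.cast_nonneg _
    have e3 : (0 : ℝ) ≤ N1 t := Nat.cast_nonneg _
    have e4 : (0 : ℝ) ≤ N2 t := Nat.cast_nonneg _
    refine ⟨?_, ?_, ?_, ?_, ?_⟩
    · rw [pow_succ, mul_comm]
      exact mul_le_mul b1 i1 (by positivity) e1
    · rw [pow_succ, mul_comm _ P2]
      exact mul_le_mul b2 i2 e3 (by linarith)
    · rw [pow_succ, mul_comm]
      exact mul_le_mul b3 i3 (by positivity) e2
    · rw [pow_succ, mul_comm _ P2]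
      exact mul_le_mul b4 i4 e4 (by linarith)
    · calc (a.1 : ℝ) * N1 t ≤ (g * a.2) * (g ^ t.length * N2 t) :=
            mul_le_mul b5 i5 e3 (by positivity)
        _ = g ^ (t.length + 1) * (a.2 * N2 t) := by ring

/-- A list of pairs is determined by its two projections. -/
theorem list_ext : ∀ l l' : List (ℕ × ℕ), l.map Prod.fst = l'.map Prod.fst →
    l.map Prod.snd = l'.map Prod.snd → l = l' := by
  intro l
  induction l with
  | nil =>
    intro l' h _
    cases l' with
    | nil => rfl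
    | cons b u => simp at h
  | cons a t ih =>
    intro l' h h'
    cases l' with
    | nil => simp at h
    | cons b u =>
      simp only [List.map_cons, List.cons.injEq] at h h'
      rw [ih u h.2 h'.2, Prod.ext h.1 h'.1]

/-- The growth of a step function. -/
theorem grow {T : ℝ → ℤ} {B : ℝ} (hm : Monotone T) (hB : 0 ≤ B)
    (h : ∀ u : ℝ, (T (u + 1) : ℝ) ≤ T u + B) (u t : ℝ) (ht : 0 ≤ t) :
    (T (u + t) : ℝ) ≤ T u + B * (t + 1) := by
  have h1 : ∀ n : ℕ, (T (u + n) : ℝ) ≤ T u + n * B := by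
    intro n
    induction n with
    | zero => simp
    | succ n ih =>
      have := h (u + n)
      rw [add_assoc] at this
      push_cast
      linarith
  have h2 : T (u + t) ≤ T (u + ⌈t⌉₊) := hm (by linarith [Nat.le_ceil t])
  have h3 : (T (u + t) : ℝ) ≤ T (u + ⌈t⌉₊) := by exact_mod_cast h2
  have h4 := h1 ⌈t⌉₊
  have h5 : (⌈t⌉₊ : ℝ) < t + 1 := Nat.ceil_lt_add_one ht
  nlinarith

/-- Equality of sums of monotone functions. -/
theorem eq_of_sum {m : ℕ} {f : Fin m → ℝ → ℤ} {h : ℝ → ℤ} (hf : ∀ i, Monotone (f i))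
    (hh : Monotone h) {u w : ℝ} (huw : u ≤ w) (he : ∑ i, f i u + h u = ∑ i, f i w + h w) :
    (∀ i, f i u = f i w) ∧ h u = h w := by
  have h1 : ∑ i, f i u ≤ ∑ i, f i w := Finset.sum_le_sum fun i _ => hf i huw
  have h2 := hh huw
  have h3 : ∑ i, f i u = ∑ i, f i w := by omega
  refine ⟨fun i => ?_, by omega⟩
  exact (Finset.sum_eq_sum_iff_of_le fun i _ => hf i huw).1 h3 i (mem_univ i)

end E1

theorem e1 : P3_stmt → P2_stmt → K2_stmt → E1_stmt := by
  classical
  intro hP3 hP2 hK2 s P1 P2 R g hs hτ hg m q hm hq hqP β hβ cell hcell k δ v hk hδ hv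
  have hP1 : 0 < P1 := by linarith [hs.P1one]
  have hR : 0 < R := by linarith [hs.Rone]
  have hlg : 0 ≤ Real.log g := Real.log_nonneg hg
  set M : ℝ := ((∏ i, q i : ℕ) : ℝ) with hM
  set E2 : ℝ := k * g ^ k * (4 * P2 * s.tau) / P1 with hE2
  set K : ℝ := k * Real.log g with hK
  have hK0 : 0 ≤ K := by positivity
  -- the allowed paths
  set L : Finset (List (ℕ × ℕ)) :=
    (paths (Mv s cell) k).filter fun l => OkL sg (Ed s cell q) l v with hL
  set W : List (ℕ × ℕ) → ℝ := fun l => (l.map (om s)).prod with hW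
  have hsumW : δ ≤ ∑ l ∈ L, W l := by
    have h1 := hK2 (Mv s cell) (om s) sg (Ed s cell q) k (fun _ => 1) v
    rw [h1] at hv
    rw [hL, sum_filter]
    refine hv.trans (le_of_eq ?_)
    refine sum_congr rfl fun l _ => ?_
    simp only [hW, mul_ite, mul_one, mul_zero]
  have hLm : ∀ l ∈ L, l ∈ paths (Mv s cell) k ∧ l.length = k ∧ (∀ i ∈ l, i ∈ Mv s cell) ∧
      OkL sg (Ed s cell q) l v := by
    intro l hl
    rw [hL, mem_filter] at hl
    have := (E1.mem_paths (Mv s cell) k l).1 hl.1
    exact ⟨hl.1, this.1, this.2, hl.2⟩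
  -- the end points
  set en : List (ℕ × ℕ) → ℝ := fun l => v + (l.map sg).sum with hen
  have hend : ∀ l ∈ L, ∀ i, en l ∈ s.G (q i) := by
    intro l hl i
    obtain ⟨-, h2, -, h4⟩ := hLm l hl
    refine E1.end_mem s cell q l v ?_ h4 i
    intro h
    rw [h] at h2
    simp at h2
    omega
  have hpath := fun l (hl : l ∈ L) => hP3 s P1 P2 R g hs hτ hg m q hm hq hqP β hβ cell hcell k l
    (hLm l hl).1 v (hLm l hl).2.2.2
  have hWle : ∀ l ∈ L, 0 ≤ W l ∧ W l ≤ 1 / ((N1 l : ℝ) * N2 l) := by
    intro l hl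
    obtain ⟨h1, h2, h3, h4⟩ := hLm l hl
    obtain ⟨i1, i2, i3, i4, i5⟩ := E1.bounds hs hg cell hcell l h3
    have p1 : (0 : ℝ) < N1 l := lt_of_lt_of_le (by positivity) i1
    have p2 : (0 : ℝ) < N2 l := lt_of_lt_of_le (by positivity) i3
    have hLs : 1 ≤ Ls s.PP ^ (2 * l.length) := one_le_pow₀ hs.one
    rw [hW]
    simp only
    rw [E1.prod_om]
    constructor
    · positivity
    · apply one_div_le_one_div_of_le (by positivity)
      have : (0 : ℝ) < (N1 l : ℝ) * N2 l := by positivity
      nlinarith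
  -- the class of a point
  set T : ℝ → ℤ := fun u => ∑ i, s.st (u + Real.log (q i)) + ⌊u * R⌋ with hT
  have hfm : ∀ i : Fin m, Monotone fun u : ℝ => s.st (u + Real.log (q i)) := fun i a b hab =>
    hs.mono (by linarith)
  have hfl : Monotone fun u : ℝ => ⌊u * R⌋ := fun a b hab =>
    Int.floor_le_floor (mul_le_mul_of_nonneg_right hab hR.le)
  have hTm : Monotone T := by
    intro a b hab
    exact add_le_add (Finset.sum_le_sum fun i _ => hfm i hab) (hfl hab)
  have hTeq : ∀ u w : ℝ, T u = T w → (∀ i, s.al (u + Real.log (q i)) = s.al (w + Real.log (q i))) ∧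
      |u - w| ≤ 1 / R := by
    have key : ∀ u w : ℝ, u ≤ w → T u = T w →
        (∀ i, s.al (u + Real.log (q i)) = s.al (w + Real.log (q i))) ∧ |u - w| ≤ 1 / R := by
      intro u w huw he
      obtain ⟨h1, h2⟩ := E1.eq_of_sum hfm hfl huw he
      refine ⟨fun i => hs.const _ _ (h1 i), ?_⟩
      have h3 := Int.floor_le (u * R)
      have h4 := Int.lt_floor_add_one (w * R)
      rw [← h2] at h4
      rw [abs_sub_comm, abs_of_nonneg (by linarith), le_div_iff₀ hR]
      linarith
    intro u w he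
    rcases le_total u w with h | h
    · exact key u w h he
    · obtain ⟨h1, h2⟩ := key w u h he.symm
      exact ⟨fun i => (h1 i).symm, by rwa [abs_sub_comm]⟩
  -- the number of classes
  set B : ℝ := (2 * K + 1) * (m * R) + 2 * K * R + 2 with hB
  have hB0 : 0 < B := by positivity
  have hcard : ((L.image fun l => T (en l)).card : ℝ) ≤ B := by
    have h1 : (L.image fun l => T (en l)) ⊆ Finset.Icc (T (v - K)) (T (v + K)) := by
      intro c hc
      rw [mem_image] at hc
      obtain ⟨l, hl, rfl⟩ := hc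
      have := (hpath l hl).1
      rw [abs_le] at this
      rw [Finset.mem_Icc]
      constructor
      · apply hTm
        simp only [hen]
        linarith [this.1]
      · apply hTm
        simp only [hen]
        linarith [this.2]
    have h2 := Finset.card_le_card h1
    rw [Int.card_Icc] at h2
    have h3 : T (v - K) ≤ T (v + K) := hTm (by linarith)
    have h4 : (((T (v + K) + 1 - T (v - K)).toNat : ℕ) : ℤ) = T (v + K) + 1 - T (v - K) :=
      Int.toNat_of_nonneg (by linarith)
    have h5 : (((T (v + K) + 1 - T (v - K)).toNat : ℕ) : ℝ) = (T (v + K) : ℝ) + 1 - T (v - K) := by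
      exact_mod_cast h4
    have h6 : ((L.image fun l => T (en l)).card : ℝ) ≤ ((T (v + K) + 1 - T (v - K)).toNat : ℕ) := by
      exact_mod_cast h2
    refine h6.trans ?_
    rw [h5]
    have h7 : ∀ i : Fin m, (s.st (v + K + Real.log (q i)) : ℝ) ≤
        s.st (v - K + Real.log (q i)) + R * (2 * K + 1) := by
      intro i
      have := E1.grow hs.mono hR.le hs.grow (v - K + Real.log (q i)) (2 * K) (by linarith)
      rwa [show v - K + Real.log (q i) + 2 * K = v + K + Real.log (q i) by ring] at this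
    have h8 : (∑ i : Fin m, (s.st (v + K + Real.log (q i)) : ℝ)) ≤
        (∑ i : Fin m, (s.st (v - K + Real.log (q i)) : ℝ)) + m * (R * (2 * K + 1)) := by
      refine (Finset.sum_le_sum fun i _ => h7 i).trans (le_of_eq ?_)
      rw [Finset.sum_add_distrib]
      simp
    have h9 : (⌊(v + K) * R⌋ : ℝ) ≤ ⌊(v - K) * R⌋ + 2 * K * R + 1 := by
      have a1 := Int.floor_le ((v + K) * R)
      have a2 := Int.lt_floor_add_one ((v - K) * R)
      nlinarith
    simp only [hT]
    push_cast
    rw [hB]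
    nlinarith [h8, h9]
  -- Cauchy
  set PR : Finset (List (ℕ × ℕ) × List (ℕ × ℕ)) :=
    (L ×ˢ L).filter fun x => T (en x.1) = T (en x.2) with hPR
  have hCS : δ ^ 2 / B ≤ ∑ x ∈ PR, W x.1 * W x.2 := by
    set IM := L.image fun l => T (en l) with hIM
    set f : ℤ → ℝ := fun c => ∑ l ∈ L.filter (fun l => T (en l) = c), W l with hf
    have h1 : ∑ c ∈ IM, f c = ∑ l ∈ L, W l :=
      Finset.sum_fiberwise_of_maps_to (fun l hl => mem_image_of_mem _ hl) _
    have h2 : (∑ c ∈ IM, f c) ^ 2 ≤ IM.card * ∑ c ∈ IM, f c ^ 2 := sq_sum_le_card_mul_sum_sq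
    have h3 : ∑ c ∈ IM, f c ^ 2 = ∑ x ∈ PR, W x.1 * W x.2 := by
      have h4 : ∀ x ∈ PR, T (en x.1) ∈ IM := by
        intro x hx
        rw [hPR, mem_filter, mem_product] at hx
        exact mem_image_of_mem _ hx.1.1
      rw [← Finset.sum_fiberwise_of_maps_to h4]
      refine sum_congr rfl fun c _ => ?_
      rw [hf]
      simp only
      rw [sq, Finset.sum_mul_sum, ← Finset.sum_product']
      refine sum_congr ?_ fun _ _ => rfl
      ext x
      simp only [hPR, mem_filter, mem_product]
      constructor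
      · rintro ⟨⟨a1, a2⟩, a3, a4⟩
        exact ⟨⟨⟨a1, a3⟩, by rw [a2, a4]⟩, a2⟩
      · rintro ⟨⟨⟨a1, a3⟩, a5⟩, a2⟩
        exact ⟨⟨a1, a2⟩, a3, by rw [← a5, a2]⟩
    rw [h1] at h2
    rw [← h3, div_le_iff₀ hB0]
    have h5 : δ ^ 2 ≤ (∑ l ∈ L, W l) ^ 2 := pow_le_pow_left₀ hδ.le hsumW 2
    have h6 : 0 ≤ ∑ c ∈ IM, f c ^ 2 := Finset.sum_nonneg fun c _ => sq_nonneg _
    calc δ ^ 2 ≤ IM.card * ∑ c ∈ IM, f c ^ 2 := h5.trans h2
      _ ≤ B * ∑ c ∈ IM, f c ^ 2 := mul_le_mul_of_nonneg_right hcard h6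
      _ = _ := mul_comm _ _
  -- the pairs
  set nn : List (ℕ × ℕ) × List (ℕ × ℕ) → ℕ × ℕ := fun x => (N1 x.1 * N2 x.2, N1 x.2 * N2 x.1)
    with hnn
  have hPRm : ∀ x ∈ PR, x.1 ∈ L ∧ x.2 ∈ L ∧ T (en x.1) = T (en x.2) := by
    intro x hx
    rw [hPR, mem_filter, mem_product] at hx
    exact ⟨hx.1.1, hx.1.2, hx.2⟩
  refine ⟨PR.image nn, ?_, ?_⟩
  · intro x hx
    rw [mem_image] at hx
    obtain ⟨⟨l, l'⟩, hll, rfl⟩ := hx
    obtain ⟨hl, hl', hTT⟩ := hPRm _ hll
    simp only at hl hl' hTT
    obtain ⟨a1, a2, a3, a4⟩ := hLm l hl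
    obtain ⟨b1, b2, b3, b4⟩ := hLm l' hl'
    obtain ⟨c1, c2, c3, c4, c5⟩ := E1.bounds hs hg cell hcell l a3
    obtain ⟨d1, d2, d3, d4, d5⟩ := E1.bounds hs hg cell hcell l' b3
    rw [a2] at c1 c2 c3 c4 c5
    rw [b2] at d1 d2 d3 d4 d5
    obtain ⟨e1, e2⟩ := hTeq _ _ hTT
    obtain ⟨f1, f2, j1, f3⟩ := hpath l hl
    obtain ⟨g1, g2, j2, g3⟩ := hpath l' hl'
    obtain ⟨j3, h3⟩ := hP2 s P1 P2 R hs hτ m q hm hq hqP β hβ _ _ (hend l hl) (hend l' hl') e1
    have p1 : (0 : ℝ) < N1 l := lt_of_lt_of_le (by positivity) c1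
    have p2 : (0 : ℝ) < N2 l := lt_of_lt_of_le (by positivity) c3
    have p3 : (0 : ℝ) < N1 l' := lt_of_lt_of_le (by positivity) d1
    have p4 : (0 : ℝ) < N2 l' := lt_of_lt_of_le (by positivity) d3
    refine ⟨?_, ?_, ?_, ?_, ?_, ?_, ?_⟩
    · intro r hr hdvd
      have hprod : ∀ (l : List (ℕ × ℕ)), (∀ i ∈ l, i ∈ Mv s cell) → r ∣ N1 l ∨ r ∣ N2 l →
          P1 ≤ r := by
        intro l hl h
        have hMv : ∀ i ∈ l, i.1 ∈ s.PP ∧ i.2 ∈ s.PP := by
          intro i hi
          have := hl i hi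
          rw [Mv, mem_filter, mem_product] at this
          exact this.1
        rcases h with h | h
        · rw [N1, hr.prime.dvd_prod_iff] at h
          obtain ⟨a, ha, hra⟩ := h
          rw [List.mem_map] at ha
          obtain ⟨i, hi, rfl⟩ := ha
          have h1 := (hMv i hi).1
          have h2 := (Nat.prime_dvd_prime_iff_eq hr (hs.prime _ h1)).1 hra
          rw [h2]
          exact hs.ge _ h1
        · rw [N2, hr.prime.dvd_prod_iff] at h
          obtain ⟨a, ha, hra⟩ := h
          rw [List.mem_map] at ha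
          obtain ⟨i, hi, rfl⟩ := ha
          have h1 := (hMv i hi).2
          have h2 := (Nat.prime_dvd_prime_iff_eq hr (hs.prime _ h1)).1 hra
          rw [h2]
          exact hs.ge _ h1
      simp only [hnn] at hdvd
      rw [hr.dvd_mul, hr.dvd_mul, hr.dvd_mul] at hdvd
      rcases hdvd with (h | h) | (h | h)
      · exact hprod l a3 (Or.inl h)
      · exact hprod l' b3 (Or.inr h)
      · exact hprod l' b3 (Or.inl h)
      · exact hprod l a3 (Or.inr h)
    · simp only [hnn]
      push_cast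
      rw [two_mul, pow_add]
      exact mul_le_mul c1 d3 (by positivity) p1.le
    · simp only [hnn]
      push_cast
      rw [two_mul, pow_add]
      exact mul_le_mul c2 d4 p4.le (p1.le.trans c2)
    · simp only [hnn]
      push_cast
      rw [two_mul, pow_add]
      exact mul_le_mul d1 c3 (by positivity) p3.le
    · simp only [hnn]
      push_cast
      rw [two_mul, pow_add]
      exact mul_le_mul d2 c4 p2.le (p3.le.trans d2)
    · simp only [hnn]
      push_cast
      rw [Real.log_mul p1.ne' p4.ne', Real.log_mul p3.ne' p2.ne']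
      have : Real.log (N1 l) + Real.log (N2 l') - (Real.log (N1 l') + Real.log (N2 l)) =
          en l - en l' := by
        simp only [hen]
        rw [f2, g2]
        ring
      rw [this]
      exact e2
    · simp only [hnn]
      push_cast
      have hP12 : P1 ≤ P2 := by
        have i0 : Fin m := ⟨0, hm⟩
        exact (hs.ge _ (hqP i0)).trans (hs.le _ (hqP i0))
      have hgk : 1 ≤ g ^ k := one_le_pow₀ hg
      have hk1 : (1 : ℝ) ≤ k := by exact_mod_cast hk
      have hτ0 := hs.tau0
      have hE4 : 4 * g ^ k * s.tau ≤ E2 := by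
        rw [hE2, le_div_iff₀ hP1]
        have : 4 * g ^ k * s.tau * P1 ≤ 4 * g ^ k * s.tau * P2 :=
          mul_le_mul_of_nonneg_left hP12 (by positivity)
        have h2 : 0 ≤ 4 * g ^ k * s.tau * P2 := by
          have : 0 < P2 := by linarith
          positivity
        nlinarith
      refine ⟨N1 l' * j1 - N1 l * j2 - N1 l * N1 l' * j3, ?_⟩
      have hid : ((N1 l : ℝ) * N2 l' - N1 l' * N2 l) * β v -
          ((N1 l' * j1 - N1 l * j2 - N1 l * N1 l' * j3 : ℤ) : ℝ) * M =
          N1 l' * (N1 l * β (en l) - N2 l * β v - j1 * M) -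
          N1 l * (N1 l' * β (en l') - N2 l' * β v - j2 * M) -
          N1 l * N1 l' * (β (en l) - β (en l') - j3 * M) := by
        push_cast
        ring
      rw [hid]
      have t1 : |N1 l' * (N1 l * β (en l) - N2 l * β v - j1 * M)| ≤ N1 l' * (N2 l * E2) := by
        rw [abs_mul, abs_of_pos p3]
        exact mul_le_mul_of_nonneg_left f3 p3.le
      have t2 : |N1 l * (N1 l' * β (en l') - N2 l' * β v - j2 * M)| ≤ N1 l * (N2 l' * E2) := by
        rw [abs_mul, abs_of_pos p1]
        exact mul_le_mul_of_nonneg_left g3 p1.le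
      have t3 : |N1 l * N1 l' * (β (en l) - β (en l') - j3 * M)| ≤ N1 l * N1 l' * (2 * s.tau) := by
        rw [abs_mul, abs_of_pos (mul_pos p1 p3)]
        exact mul_le_mul_of_nonneg_left h3 (mul_pos p1 p3).le
      have t4 : (N1 l : ℝ) * N1 l' * (2 * s.tau) ≤ N1 l * N2 l' * E2 := by
        have u1 : (N1 l : ℝ) * N1 l' ≤ N1 l * (g ^ k * N2 l') :=
          mul_le_mul_of_nonneg_left d5 p1.le
        have u2 : (N1 l : ℝ) * N1 l' * (2 * s.tau) ≤ N1 l * (g ^ k * N2 l') * (2 * s.tau) :=
          mul_le_mul_of_nonneg_right u1 (by linarith)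
        have u3 : (N1 l : ℝ) * N2 l' * (2 * g ^ k * s.tau) ≤ N1 l * N2 l' * E2 := by
          apply mul_le_mul_of_nonneg_left _ (by positivity)
          have : 0 ≤ g ^ k * s.tau := by positivity
          linarith
        linarith
      have hE20 : 0 ≤ E2 := by
        have : 0 ≤ 4 * g ^ k * s.tau := by positivity
        linarith
      have t5 : 0 ≤ (N1 l' : ℝ) * N2 l * E2 := by positivity
      calc _ ≤ |N1 l' * (N1 l * β (en l) - N2 l * β v - j1 * M)| +
            |N1 l * (N1 l' * β (en l') - N2 l' * β v - j2 * M)| +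
            |N1 l * N1 l' * (β (en l) - β (en l') - j3 * M)| := by
              refine (abs_sub _ _).trans ?_
              exact add_le_add (abs_sub _ _) le_rfl
        _ ≤ _ := by nlinarith
  · -- the sum
    have hfac : (0 : ℝ) < ((2 * k).factorial : ℝ) ^ 2 := by positivity
    rw [← div_div, div_le_iff₀ hfac]
    refine hCS.trans ?_
    have h1 : ∑ x ∈ PR, W x.1 * W x.2 ≤ ∑ x ∈ PR, 1 / (((nn x).1 : ℝ) * (nn x).2) := by
      refine Finset.sum_le_sum fun x hx => ?_
      obtain ⟨hl, hl', -⟩ := hPRm x hx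
      obtain ⟨w1, w2⟩ := hWle _ hl
      obtain ⟨w3, w4⟩ := hWle _ hl'
      refine (mul_le_mul w2 w4 w3 (w1.trans w2)).trans (le_of_eq ?_)
      simp only [hnn]
      push_cast
      rw [div_mul_div_comm]
      congr 1 <;> ring
    refine h1.trans ?_
    rw [← Finset.sum_fiberwise_of_maps_to (t := PR.image nn) (g := nn)
      (fun x hx => mem_image_of_mem _ hx), Finset.sum_mul]
    refine Finset.sum_le_sum fun y hy => ?_
    have h2 : ∑ x ∈ PR.filter (fun x => nn x = y), 1 / (((nn x).1 : ℝ) * (nn x).2) =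
        (PR.filter fun x => nn x = y).card * (1 / ((y.1 : ℝ) * y.2)) := by
      rw [Finset.sum_congr rfl (g := fun _ => 1 / ((y.1 : ℝ) * y.2)), Finset.sum_const, nsmul_eq_mul]
      intro x hx
      rw [mem_filter] at hx
      rw [hx.2]
    rw [h2, mul_comm]
    refine mul_le_mul_of_nonneg_left ?_ (by positivity)
    -- the fibres
    set F := PR.filter fun x => nn x = y with hF
    set φ : List (ℕ × ℕ) × List (ℕ × ℕ) → List ℕ × List ℕ := fun x =>
      (x.1.map Prod.fst ++ x.2.map Prod.snd, x.2.map Prod.fst ++ x.1.map Prod.snd) with hφ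
    have hFm : ∀ x ∈ F, x.1 ∈ L ∧ x.2 ∈ L ∧ nn x = y := by
      intro x hx
      rw [hF, mem_filter] at hx
      exact ⟨(hPRm x hx.1).1, (hPRm x hx.1).2.1, hx.2⟩
    have hinj : Set.InjOn φ (F : Set _) := by
      intro x hx x' hx' h
      obtain ⟨a1, a2, -⟩ := hFm x hx
      obtain ⟨b1, b2, -⟩ := hFm x' hx'
      simp only [hφ, Prod.mk.injEq] at h
      have l1 := (hLm _ a1).2.1
      have l2 := (hLm _ a2).2.1
      have l3 := (hLm _ b1).2.1
      have l4 := (hLm _ b2).2.1
      have e1 := List.append_inj h.1 (by simp [l1, l3])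
      have e2 := List.append_inj h.2 (by simp [l2, l4])
      exact Prod.ext (E1.list_ext _ _ e1.1 e2.2) (E1.list_ext _ _ e2.1 e1.2)
    have hprime : ∀ l ∈ L, (∀ p ∈ l.map Prod.fst, Nat.Prime p) ∧ ∀ p ∈ l.map Prod.snd, Nat.Prime p := by
      intro l hl
      have h3 := (hLm l hl).2.2.1
      constructor
      · intro p hp
        rw [List.mem_map] at hp
        obtain ⟨i, hi, rfl⟩ := hp
        have := h3 i hi
        rw [Mv, mem_filter, mem_product] at this
        exact hs.prime _ this.1.1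
      · intro p hp
        rw [List.mem_map] at hp
        obtain ⟨i, hi, rfl⟩ := hp
        have := h3 i hi
        rw [Mv, mem_filter, mem_product] at this
        exact hs.prime _ this.1.2
    rcases F.eq_empty_or_nonempty with hFe | ⟨x0, hx0⟩
    · rw [hFe]
      simp
    have hperm : ∀ x ∈ F, (φ x).1.Perm y.1.primeFactorsList ∧ (φ x).2.Perm y.2.primeFactorsList ∧
        (φ x).1.length = 2 * k ∧ (φ x).2.length = 2 * k := by
      intro x hx
      obtain ⟨a1, a2, a3⟩ := hFm x hx
      have l1 := (hLm _ a1).2.1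
      have l2 := (hLm _ a2).2.1
      have q1 := hprime _ a1
      have q2 := hprime _ a2
      refine ⟨?_, ?_, ?_, ?_⟩
      · apply Nat.primeFactorsList_unique
        · simp only [hφ]
          rw [List.prod_append, ← a3]
          rfl
        · intro p hp
          simp only [hφ] at hp
          rw [List.mem_append] at hp
          exact hp.elim (q1.1 p) (q2.2 p)
      · apply Nat.primeFactorsList_unique
        · simp only [hφ]
          rw [List.prod_append, ← a3]
          rfl
        · intro p hp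
          simp only [hφ] at hp
          rw [List.mem_append] at hp
          exact hp.elim (q2.1 p) (q1.2 p)
      · simp [hφ, l1, l2]
        omega
      · simp [hφ, l1, l2]
        omega
    have hsub : F.image φ ⊆ (y.1.primeFactorsList.permutations.toFinset) ×ˢ
        (y.2.primeFactorsList.permutations.toFinset) := by
      intro z hz
      rw [mem_image] at hz
      obtain ⟨x, hx, rfl⟩ := hz
      rw [mem_product, List.mem_toFinset, List.mem_toFinset, List.mem_permutations,
        List.mem_permutations]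
      exact ⟨(hperm x hx).1, (hperm x hx).2.1⟩
    have h3 := Finset.card_le_card hsub
    rw [Finset.card_image_of_injOn hinj, card_product] at h3
    have h4 : y.1.primeFactorsList.length = 2 * k := by
      rw [← (hperm x0 hx0).1.length_eq, (hperm x0 hx0).2.2.1]
    have h5 : y.2.primeFactorsList.length = 2 * k := by
      rw [← (hperm x0 hx0).2.1.length_eq, (hperm x0 hx0).2.2.2]
    have h6 : (y.1.primeFactorsList.permutations.toFinset).card ≤ (2 * k).factorial := by
      refine (List.toFinset_card_le _).trans ?_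
      rw [List.length_permutations, h4]
    have h7 : (y.2.primeFactorsList.permutations.toFinset).card ≤ (2 * k).factorial := by
      refine (List.toFinset_card_le _).trans ?_
      rw [List.length_permutations, h5]
    have h8 : F.card ≤ (2 * k).factorial ^ 2 := by
      rw [sq]
      exact h3.trans (Nat.mul_le_mul h6 h7)
    exact_mod_cast h8

end

end Pool.Agent.SV
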