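import Mathlib
import Pool.Agent.Lib.SV.Defs

/-!
# Theorem V, row F1: a cell without jump and with many paths.
-/

set_option autoImplicit false
open Finset MeasureTheory

namespace Pool.Agent.SV

theorem F1_grow {T : ℝ → ℤ} {B : ℝ} (hT : Monotone T) (hB : 1 ≤ B)
    (h : ∀ u : ℝ, (T (u + 1) : ℝ) ≤ T u + B) (u x : ℝ) (hx : 0 ≤ x) :
    (T (u + x) : ℝ) ≤ T u + B * (x + 1) := by
  have h1 : ∀ n : ℕ, (T (u + n) : ℝ) ≤ T u + B * n := by
    intro n
    induction n with
    | zero => simp
    | succ n ih =>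
      have h2 := h (u + n)
      have h3 : u + ((n + 1 : ℕ) : ℝ) = u + n + 1 := by push_cast; ring
      rw [h3]
      push_cast
      linarith
  have h2 : (T (u + x) : ℝ) ≤ T (u + (⌈x⌉₊ : ℕ)) := by
    exact_mod_cast hT (by linarith [Nat.le_ceil x])
  have h3 : ((⌈x⌉₊ : ℕ) : ℝ) ≤ x + 1 := (Nat.ceil_lt_add_one hx).le
  have h4 : B * ((⌈x⌉₊ : ℕ) : ℝ) ≤ B * (x + 1) := mul_le_mul_of_nonneg_left h3 (by linarith)
  linarith [h1 ⌈x⌉₊]

theorem f1 : F1_stmt := by
  intro lo hi δ r B S ψ T hδ hr hr1 hL hB hS hSI hψ hψ0 hψ1 hint hT hgrow hBr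
  by_contra hno
  push Not at hno
  set N : ℕ := ⌊(hi - lo) / r⌋₊ + 1 with hN
  have hq0 : 0 ≤ (hi - lo) / r := by positivity
  have hN1 : hi < lo + N * r := by
    have h1 := Nat.lt_floor_add_one ((hi - lo) / r)
    rw [div_lt_iff₀ hr] at h1
    rw [hN]
    push_cast
    linarith
  have hN2 : (N : ℝ) * r ≤ (hi - lo) + r := by
    have h1 := Nat.floor_le hq0
    rw [le_div_iff₀ hr] at h1
    rw [hN]
    push_cast
    linarith
  -- integrability
  have hI : ∀ A : Set ℝ, MeasurableSet A → A ⊆ Set.Icc lo hi → IntegrableOn ψ A := by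
    intro A hA hA'
    refine Measure.integrableOn_of_bounded (M := 1)
      ((measure_mono hA').trans_lt measure_Icc_lt_top).ne hψ.aestronglyMeasurable
      (Filter.Eventually.of_forall fun v => ?_)
    rw [Real.norm_eq_abs, abs_of_nonneg (hψ0 v)]
    exact hψ1 v
  -- additivity
  have hadd : ∀ n : ℕ, ∫ v in S ∩ Set.Ico lo (lo + n * r), ψ v =
      ∑ j ∈ range n, ∫ v in S ∩ Set.Ico (lo + j * r) (lo + j * r + r), ψ v := by
    intro n
    induction n with
    | zero => simp
    | succ n ih =>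
      rw [Finset.sum_range_succ, ← ih]
      have h1 : S ∩ Set.Ico lo (lo + ((n + 1 : ℕ) : ℝ) * r) =
          (S ∩ Set.Ico lo (lo + n * r)) ∪ (S ∩ Set.Ico (lo + n * r) (lo + n * r + r)) := by
        rw [← Set.inter_union_distrib_left, Set.Ico_union_Ico_eq_Ico]
        · congr 2
          push_cast
          ring
        · have : (0 : ℝ) ≤ n * r := by positivity
          linarith
        · linarith
      rw [h1, setIntegral_union]
      · rw [Set.disjoint_left]
        rintro v ⟨-, h2⟩ ⟨-, h3⟩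
        exact absurd h3.1 (not_le.mpr h2.2)
      · exact hS.inter measurableSet_Ico
      · exact hI _ (hS.inter measurableSet_Ico) (Set.inter_subset_left.trans hSI)
      · exact hI _ (hS.inter measurableSet_Ico) (Set.inter_subset_left.trans hSI)
  have hall : S ∩ Set.Ico lo (lo + N * r) = S := by
    refine Set.inter_eq_left.mpr fun v hv => ?_
    have h1 := hSI hv
    exact ⟨h1.1, h1.2.trans_lt hN1⟩
  have hsum := hadd N
  rw [hall] at hsum
  -- one cell
  have hcell : ∀ j ∈ range N, ∫ v in S ∩ Set.Ico (lo + j * r) (lo + j * r + r), ψ v ≤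
      δ / 2 * r + r * ((T (lo + ((j + 1 : ℕ) : ℝ) * r) : ℝ) - T (lo + (j : ℝ) * r)) := by
    intro j _
    have hj1 : lo + ((j + 1 : ℕ) : ℝ) * r = lo + j * r + r := by push_cast; ring
    rw [hj1]
    have hmono : (T (lo + (j : ℝ) * r) : ℝ) ≤ T (lo + j * r + r) := by
      exact_mod_cast hT (by linarith)
    by_cases hg : ∀ u ∈ Set.Ico (lo + j * r) (lo + j * r + r), T u = T (lo + j * r)
    · have h1 := hno (lo + j * r) hg
      have h2 : 0 ≤ r * ((T (lo + j * r + r) : ℝ) - T (lo + (j : ℝ) * r)) :=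
        mul_nonneg hr.le (by linarith)
      linarith
    · push Not at hg
      obtain ⟨u, hu, hne⟩ := hg
      have h1 : T (lo + j * r) ≤ T u := hT hu.1
      have h2 : T u ≤ T (lo + j * r + r) := hT hu.2.le
      have h3 : T (lo + j * r) + 1 ≤ T (lo + j * r + r) := by omega
      have h4 : (1 : ℝ) ≤ (T (lo + j * r + r) : ℝ) - T (lo + (j : ℝ) * r) := by
        have : ((T (lo + j * r) + 1 : ℤ) : ℝ) ≤ T (lo + j * r + r) := by exact_mod_cast h3
        push_cast at this
        linarith
      have h5 : ∫ v in S ∩ Set.Ico (lo + j * r) (lo + j * r + r), ψ v ≤ r := by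
        have h6 := norm_setIntegral_le_of_norm_le_const (μ := volume) (C := 1) (f := ψ)
          (s := S ∩ Set.Ico (lo + j * r) (lo + j * r + r))
          ((measure_mono Set.inter_subset_right).trans_lt measure_Ico_lt_top)
          (fun v _ => by
            rw [Real.norm_eq_abs, abs_of_nonneg (hψ0 v)]
            exact hψ1 v)
        rw [Real.norm_eq_abs] at h6
        have h7 : (volume.real (S ∩ Set.Ico (lo + j * r) (lo + j * r + r))) ≤ r := by
          calc _ ≤ volume.real (Set.Ico (lo + j * r) (lo + j * r + r)) :=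
                measureReal_mono Set.inter_subset_right measure_Ico_lt_top.ne
            _ = r := by
                rw [Real.volume_real_Ico_of_le (by linarith)]
                ring
        linarith [le_abs_self (∫ v in S ∩ Set.Ico (lo + j * r) (lo + j * r + r), ψ v)]
      have h6 : r ≤ r * ((T (lo + j * r + r) : ℝ) - T (lo + (j : ℝ) * r)) := by
        calc r = r * 1 := (mul_one r).symm
          _ ≤ _ := mul_le_mul_of_nonneg_left h4 hr.le
      have h7 : 0 ≤ δ / 2 * r := by positivity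
      linarith
  have h1 : ∫ v in S, ψ v ≤ N * (δ / 2 * r) +
      r * ((T (lo + (N : ℝ) * r) : ℝ) - T (lo + ((0 : ℕ) : ℝ) * r)) := by
    rw [hsum]
    refine (Finset.sum_le_sum hcell).trans (le_of_eq ?_)
    rw [Finset.sum_add_distrib, Finset.sum_const, Finset.card_range, nsmul_eq_mul,
      ← Finset.mul_sum, Finset.sum_range_sub (fun j : ℕ => (T (lo + (j : ℝ) * r) : ℝ))]
  have h2 : (T (lo + (N : ℝ) * r) : ℝ) - T (lo + ((0 : ℕ) : ℝ) * r) ≤ B * (N * r + 1) := by
    have h3 := F1_grow hT hB hgrow lo (N * r) (by positivity)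
    rw [Nat.cast_zero, zero_mul, add_zero]
    linarith
  have h3 : r * (B * (N * r + 1)) ≤ 3 / 16 * δ * (hi - lo) := by
    have h4 : (N : ℝ) * r + 1 ≤ 3 * (hi - lo) := by linarith
    calc r * (B * (N * r + 1)) = (B * r) * (N * r + 1) := by ring
      _ ≤ (δ / 16) * (3 * (hi - lo)) := by
          refine mul_le_mul (by linarith) h4 (by positivity) (by positivity)
      _ = _ := by ring
  have h4 : (N : ℝ) * (δ / 2 * r) ≤ δ * (hi - lo) := by
    calc (N : ℝ) * (δ / 2 * r) = δ / 2 * (N * r) := by ring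
      _ ≤ δ / 2 * (2 * (hi - lo)) := mul_le_mul_of_nonneg_left (by linarith) (by positivity)
      _ = _ := by ring
  have h5 : r * ((T (lo + (N : ℝ) * r) : ℝ) - T (lo + ((0 : ℕ) : ℝ) * r)) ≤
      r * (B * (N * r + 1)) := mul_le_mul_of_nonneg_left h2 hr.le
  have h6 : 0 < δ * (hi - lo) := by
    have : 0 < hi - lo := by linarith
    positivity
  have h7 : ∫ v in S, ψ v ≤ δ * (hi - lo) + 3 / 16 * δ * (hi - lo) :=
    h1.trans (add_le_add h4 (h5.trans h3))
  have h8 := hint.trans h7
  nlinarith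

end Pool.Agent.SV
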