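import Mathlib
import Pool.Agent.Lib.SV.Defs
import Pool.Agent.Lib.SV.K0

/-!
# Theorem V, row F2: the set of the end points.
-/

set_option autoImplicit false
open Finset MeasureTheory

namespace Pool.Agent.SV

theorem F2_meas {ι : Type} {σ : ι → ℝ} {E : ι → Set ℝ} (hE : ∀ i, MeasurableSet (E i)) :
    ∀ l : List ι, MeasurableSet {v : ℝ | OkL σ E l v} := by
  intro l
  induction l with
  | nil =>
    have h1 : {v : ℝ | OkL σ E [] v} = Set.univ := by
      ext v
      exact ⟨fun _ => trivial, fun _ => trivial⟩
    rw [h1]
    exact MeasurableSet.univ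
  | cons i l ih =>
    have h1 : {v : ℝ | OkL σ E (i :: l) v} = E i ∩ (fun v => v + σ i) ⁻¹' {v | OkL σ E l v} := by
      ext v
      exact Iff.rfl
    rw [h1]
    exact (hE i).inter ((measurable_id.add_const _) ih)

theorem f2 : K2_stmt → F2_stmt := by
  classical
  intro hK2 s P1 P2 R hs cell m q hm hq k S C₀ d D hk hS hSI hC hd hD hint hsum
  set I := Mv s cell with hI
  set E := Ed s cell q with hE
  have hEm : ∀ i, MeasurableSet (E i) := fun i => meas_Ed hs cell q i
  have hOm : ∀ l : List (ℕ × ℕ), 0 ≤ (l.map (om s)).prod := by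
    intro l
    refine List.prod_nonneg fun x hx => ?_
    obtain ⟨i, _, rfl⟩ := List.mem_map.mp hx
    exact mul_nonneg (wt_nonneg hs _) (wt_nonneg hs _)
  -- the sets
  set V : List (ℕ × ℕ) → Set ℝ := fun l =>
    (S ∩ C₀) ∩ ({v | OkL sg E l v} ∩ {v | v + (l.map sg).sum ∈ S}) with hV
  have hVm : ∀ l, MeasurableSet (V l) := fun l =>
    (hS.inter hC).inter ((F2_meas hEm l).inter ((measurable_id.add_const _) hS))
  set W : List (ℕ × ℕ) → Set ℝ := fun l => (fun u => u - (l.map sg).sum) ⁻¹' V l with hW
  have hWm : ∀ l, MeasurableSet (W l) := fun l => (measurable_id.sub_const _) (hVm l)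
  have hWS : ∀ l, W l ⊆ S := by
    intro l u hu
    have h1 : u - (l.map sg).sum + (l.map sg).sum ∈ S := hu.2.2
    rwa [sub_add_cancel] at h1
  have hfin : ∀ A : Set ℝ, A ⊆ S → volume A ≠ ⊤ := fun A hA =>
    ((measure_mono (hA.trans hSI)).trans_lt measure_Icc_lt_top).ne
  have hVW : ∀ l, volume.real (V l) = volume.real (W l) := by
    intro l
    rw [hW]
    simp only [Measure.real]
    congr 1
    have h1 := measure_preimage_add_right (volume : Measure ℝ) (-(l.map sg).sum) (V l)
    simp only [← sub_eq_add_neg] at h1
    exact h1.symm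
  set U : Set ℝ := ⋃ l ∈ paths I k, W l with hU
  have hUm : MeasurableSet U := Finset.measurableSet_biUnion _ fun l _ => hWm l
  have hUS : U ⊆ S := Set.iUnion₂_subset fun l _ => hWS l
  refine ⟨U, hUm, hUS, ?_, ?_⟩
  · -- the mass
    have h1 : ∫ v in S ∩ C₀, (Op I (om s) sg E)^[k] (S.indicator fun _ => 1) v =
        ∑ l ∈ paths I k, (l.map (om s)).prod * volume.real (V l) := by
      have h2 : ∀ v, (Op I (om s) sg E)^[k] (S.indicator fun _ => 1) v =
          ∑ l ∈ paths I k, (l.map (om s)).prod *
            ({v | OkL sg E l v} ∩ {v | v + (l.map sg).sum ∈ S}).indicator (fun _ => (1 : ℝ)) v := by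
        intro v
        rw [hK2]
        refine Finset.sum_congr (by congr) fun l _ => ?_
        congr 1
        by_cases h3 : OkL sg E l v
        · rw [if_pos h3]
          by_cases h4 : v + (l.map sg).sum ∈ S
          · rw [Set.indicator_of_mem h4, Set.indicator_of_mem
              (show v ∈ {v | OkL sg E l v} ∩ {v | v + (l.map sg).sum ∈ S} from ⟨h3, h4⟩)]
          · rw [Set.indicator_of_notMem h4, Set.indicator_of_notMem fun h5 => h4 h5.2]
        · rw [if_neg h3, Set.indicator_of_notMem fun h5 => h3 h5.1]
      simp only [h2]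
      have hm' : ∀ l, MeasurableSet ({v | OkL sg E l v} ∩ {v : ℝ | v + (l.map sg).sum ∈ S}) :=
        fun l => (F2_meas hEm l).inter ((measurable_id.add_const _) hS)
      have hfin' : volume (S ∩ C₀) ≠ ⊤ := hfin _ Set.inter_subset_left
      rw [integral_finsetSum]
      · refine Finset.sum_congr rfl fun l _ => ?_
        rw [integral_const_mul, setIntegral_indicator (hm' l)]
        simp [hV]
      · intro l _
        have hconst : Integrable (fun _ : ℝ => (1 : ℝ)) (volume.restrict (S ∩ C₀)) :=
          integrableOn_const (μ := volume) hfin'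
        exact (hconst.indicator (hm' l)).const_mul _
    rw [h1] at hint
    have h2 : ∑ l ∈ paths I k, (l.map (om s)).prod * volume.real (V l) ≤ D * volume.real U := by
      have h3 : ∑ l ∈ paths I k, (l.map (om s)).prod * volume.real (V l) =
          ∫ u, ∑ l ∈ paths I k, (l.map (om s)).prod * (W l).indicator (fun _ => (1 : ℝ)) u := by
        rw [integral_finsetSum]
        · refine Finset.sum_congr rfl fun l _ => ?_
          rw [integral_const_mul, integral_indicator (hWm l), hVW l]
          simp
        · intro l _
          refine Integrable.const_mul ?_ _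
          exact (integrable_indicator_iff (hWm l)).mpr (integrableOn_const (hfin _ (hWS l)))
      have h4 : D * volume.real U = ∫ u, U.indicator (fun _ => D) u := by
        rw [integral_indicator hUm]
        simp [mul_comm]
      rw [h3, h4]
      refine integral_mono ?_ ?_ fun u => ?_
      · refine integrable_finsetSum _ fun l _ => Integrable.const_mul ?_ _
        exact (integrable_indicator_iff (hWm l)).mpr (integrableOn_const (hfin _ (hWS l)))
      · exact (integrable_indicator_iff hUm).mpr (integrableOn_const (hfin _ hUS))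
      · dsimp only
        by_cases hu : u ∈ U
        · rw [Set.indicator_of_mem hu]
          refine le_trans ?_ (hsum u)
          refine (Finset.sum_le_sum (g := fun l => (l.map (om s)).prod *
            (if u - (l.map sg).sum ∈ C₀ then (1 : ℝ) else 0)) fun l _ => ?_).trans (le_of_eq ?_)
          · refine mul_le_mul_of_nonneg_left ?_ (hOm l)
            by_cases h6 : u ∈ W l
            · rw [Set.indicator_of_mem h6, if_pos]
              exact h6.1.2
            · rw [Set.indicator_of_notMem h6]
              split_ifs <;> norm_num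
          · congr
        · rw [Set.indicator_of_notMem hu]
          refine le_of_eq (Finset.sum_eq_zero fun l hl => ?_)
          rw [Set.indicator_of_notMem, mul_zero]
          intro h6
          exact hu (Set.mem_iUnion₂.mpr ⟨l, hl, h6⟩)
    rw [div_le_iff₀ hD]
    calc d ≤ D * volume.real U := hint.trans h2
      _ = (volume U).toReal * D := mul_comm _ _
  · intro u hu
    obtain ⟨l, hl, hul⟩ := Set.mem_iUnion₂.mp hu
    refine ⟨l, ?_, u - (l.map sg).sum, hul.1, hul.2.1, by ring⟩
    convert hl

end Pool.Agent.SV
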