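import Mathlib
import Pool.Agent.Lib.SV.Defs3
import Pool.Agent.Lib.MP_663568_nul.Base

/-!
# Theorem V (MP_663568_nt): the assembly of Theorem V from the rows of part III, the core and the
row MuT.  (helper19)
-/

set_option autoImplicit false
open Finset MeasureTheory Filter

namespace Pool.Agent.SV

open Pool.Agent.Lib.MP_663568_nt Pool.Agent.Lib.MP_663568_nt.Katai
  Pool.Agent.Lib.MP_663568_nt.Nul Pool.Agent.MRL

noncomputable section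

/-- The number of the jumps of `a` before the cell of `e ^ u`. -/
def stj (X : ℕ) (a : ℕ → ℝ) (u : ℝ) : ℤ :=
  #((range ⌊Real.exp u / (X : ℝ)⌋₊).filter fun i => a (i + 1) ≠ a i)

theorem stj_add (X : ℕ) (a : ℕ → ℝ) {u v : ℝ} (h : u ≤ v) :
    stj X a v = stj X a u + #((Ico ⌊Real.exp u / (X : ℝ)⌋₊ ⌊Real.exp v / (X : ℝ)⌋₊).filter
      fun i => a (i + 1) ≠ a i) := by
  have hle : ⌊Real.exp u / (X : ℝ)⌋₊ ≤ ⌊Real.exp v / (X : ℝ)⌋₊ := by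
    apply Nat.floor_mono
    gcongr
  unfold stj
  rw [← Nat.cast_add]
  congr 1
  rw [card_filter, card_filter, card_filter, sum_range_add_sum_Ico _ hle]

theorem stj_const (X : ℕ) (a : ℕ → ℝ) {u v : ℝ} (h : u ≤ v) (he : stj X a u = stj X a v) :
    a ⌊Real.exp u / (X : ℝ)⌋₊ = a ⌊Real.exp v / (X : ℝ)⌋₊ := by
  have hle : ⌊Real.exp u / (X : ℝ)⌋₊ ≤ ⌊Real.exp v / (X : ℝ)⌋₊ := by
    apply Nat.floor_mono
    gcongr
  rw [stj_add X a h] at he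
  have h0 : (Ico ⌊Real.exp u / (X : ℝ)⌋₊ ⌊Real.exp v / (X : ℝ)⌋₊).filter
      (fun i => a (i + 1) ≠ a i) = ∅ := by
    rw [← card_eq_zero]; omega
  rw [filter_eq_empty_iff] at h0
  have key : ∀ n, ⌊Real.exp u / (X : ℝ)⌋₊ ≤ n → n ≤ ⌊Real.exp v / (X : ℝ)⌋₊ →
      a ⌊Real.exp u / (X : ℝ)⌋₊ = a n := by
    intro n hn
    induction n, hn using Nat.le_induction with
    | base => intro _; rfl
    | succ n hn ih =>
      intro h1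
      rw [ih (by omega)]
      have := h0 (x := n) (by rw [mem_Ico]; omega)
      exact (not_not.1 this).symm
  exact key _ hle le_rfl

theorem sysF_ok {X : ℕ} {κ₁ κ₂ : ℝ} {a : ℕ → ℝ} {l : ℕ} {B : ℕ → ℝ} {ta tb η C e R : ℝ}
    (h2 : 2 ≤ (X : ℝ) ^ κ₁) (hL : 1 ≤ Ls (PPs X κ₁ κ₂)) (hR : 1 ≤ R) (hC : 0 ≤ C) (hab : ta ≤ tb)
    (hX : 0 < (X : ℝ))
    (hj : ∀ u : ℝ, (#((Ico ⌊Real.exp u / (X : ℝ)⌋₊
      ⌊Real.exp (u + 1) / (X : ℝ)⌋₊).filter fun i => a (i + 1) ≠ a i) : ℝ) ≤ R)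
    (hG : ∀ p, MeasurableSet (Gd l (PPs X κ₁ κ₂) (fun u => a ⌊Real.exp u / (X : ℝ)⌋₊) B
      ta tb η C e p)) :
    Sys.OK ⟨PPs X κ₁ κ₂, fun u => a ⌊Real.exp u / (X : ℝ)⌋₊,
      fun u => B ⌊Real.exp u / (η * l)⌋₊, stj X a,
      Gd l (PPs X κ₁ κ₂) (fun u => a ⌊Real.exp u / (X : ℝ)⌋₊) B ta tb η C e, C / l,
      ta - Real.log ((X : ℝ) ^ κ₂), tb⟩ ((X : ℝ) ^ κ₁) ((X : ℝ) ^ κ₂) R := by
  have hPP : ∀ p ∈ PPs X κ₁ κ₂, p.Prime ∧ (X : ℝ) ^ κ₁ ≤ p ∧ (p : ℝ) ≤ (X : ℝ) ^ κ₂ := by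
    intro p hp
    unfold PPs at hp
    rw [mem_filter, mem_Icc] at hp
    exact ⟨hp.2.1, hp.2.2, (Nat.le_floor_iff (Real.rpow_nonneg hX.le _)).1 hp.1.2⟩
  refine ⟨h2, fun p hp => (hPP p hp).1, fun p hp => (hPP p hp).2.1, fun p hp => (hPP p hp).2.2,
    hL, hR, ?_, ?_, ?_, hG, ?_, ?_, ?_, ?_⟩
  · intro u v huv
    show stj X a u ≤ stj X a v
    rw [stj_add X a huv]
    omega
  · intro u
    show (stj X a (u + 1) : ℝ) ≤ stj X a u + R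
    rw [stj_add X a (by linarith : u ≤ u + 1)]
    have := hj u
    push_cast
    linarith
  · intro u v huv
    show a ⌊Real.exp u / (X : ℝ)⌋₊ = a ⌊Real.exp v / (X : ℝ)⌋₊
    rcases le_total u v with h | h
    · exact stj_const X a h huv
    · exact (stj_const X a h huv.symm).symm
  · rintro p u ⟨hp, h1, h3, _⟩
    have hp1 : (1 : ℝ) ≤ p := by exact_mod_cast (hPP p hp).1.one_lt.le
    have e1 : Real.log p ≤ Real.log ((X : ℝ) ^ κ₂) :=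
      Real.log_le_log (by linarith) (hPP p hp).2.2
    have e2 : 0 ≤ Real.log p := Real.log_nonneg hp1
    refine ⟨hp, ?_, ?_⟩
    · show ta - Real.log ((X : ℝ) ^ κ₂) ≤ u
      linarith
    · show u ≤ tb
      linarith
  · rintro p u ⟨hp, h1, h3, _, h5⟩
    obtain ⟨k, hk⟩ := nd_exists ((p : ℝ) * a ⌊Real.exp (u + Real.log p) / (X : ℝ)⌋₊ -
      B ⌊Real.exp u / (η * l)⌋₊)
    refine ⟨k, ?_⟩
    show |(p : ℝ) * a ⌊Real.exp (u + Real.log p) / (X : ℝ)⌋₊ - B ⌊Real.exp u / (η * l)⌋₊ - k| ≤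
      C / l
    rw [← hk]
    exact h5
  · show Real.log ((X : ℝ) ^ κ₂) ≤ tb - (ta - Real.log ((X : ℝ) ^ κ₂))
    linarith
  · show 0 ≤ C / (l : ℝ)
    positivity

/-- Large `X`. -/
theorem fin_large (κ κ₁ W U₀ H₀ : ℝ) (X₀ : ℕ) (hκ : 0 < κ) (hκ₁ : 0 < κ₁) :
    ∃ X₁ : ℕ, ∀ X : ℕ, X₁ ≤ X → X₀ ≤ X ∧ H₀ ≤ X ∧ 1 ≤ Real.log X ∧ U₀ + 1 ≤ Real.log X ∧
      2 ≤ (X : ℝ) ^ κ₁ ∧ W ≤ (X : ℝ) ^ (1 / 4 : ℝ) ∧ W ≤ (X : ℝ) ^ (κ / 4) := by
  have t := tendsto_natCast_atTop_atTop (R := ℝ)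
  have h1 := (tendsto_rpow_atTop hκ₁).comp t
  have h2 := (tendsto_rpow_atTop (show (0 : ℝ) < 1 / 4 by norm_num)).comp t
  have h3 := (tendsto_rpow_atTop (show (0 : ℝ) < κ / 4 by linarith)).comp t
  have h4 := Real.tendsto_log_atTop.comp t
  obtain ⟨X₁, hX₁⟩ := eventually_atTop.1
    (((((((eventually_ge_atTop X₀).and (t.eventually_ge_atTop H₀)).and
      (h4.eventually_ge_atTop 1)).and (h4.eventually_ge_atTop (U₀ + 1))).and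
      (h1.eventually_ge_atTop 2)).and (h2.eventually_ge_atTop W)).and
      (h3.eventually_ge_atTop W))
  refine ⟨X₁, fun X hX => ?_⟩
  obtain ⟨⟨⟨⟨⟨⟨a1, a2⟩, a3⟩, a4⟩, a5⟩, a6⟩, a7⟩ := hX₁ X hX
  exact ⟨a1, a2, a3, a4, a5, a6, a7⟩

theorem fin_v (hRH : RH_stmt) (hRW : RW_stmt) (hRA : RA_stmt) (hRB : RB_stmt) (hRB2 : RB2_stmt)
    (hRC : RC_stmt) (hCORE : CORE_stmt) (hMuT : MuT_stmt) (hRD : RD_stmt) : V_stmt := by
  intro A₀ ε₀ hε₀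
  obtain ⟨A, hA⟩ : ∃ A, A = max A₀ 0 := ⟨_, rfl⟩
  obtain ⟨ε, hε⟩ : ∃ ε, ε = min ε₀ 1 := ⟨_, rfl⟩
  have hA0 : 0 ≤ A := by rw [hA]; exact le_max_right _ _
  have hAA : A₀ ≤ A := by rw [hA]; exact le_max_left _ _
  have hε0 : 0 < ε := by rw [hε]; exact lt_min hε₀ one_pos
  have hε1 : ε ≤ 1 := by rw [hε]; exact min_le_right _ _
  have hεε : ε ≤ ε₀ := by rw [hε]; exact min_le_left _ _
  obtain ⟨Ha, hRH⟩ := hRH (ε / 8) (by positivity)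
  obtain ⟨κ, hκ, hκε, Hb, hRW⟩ := hRW A ε hA0 hε0 hε1
  obtain ⟨η, A', hη, hη1, hA', Hc, hRA⟩ := hRA A ε κ hA0 hε0 hε1 hκ hκε
  have hκ64 : κ ≤ 1 / 64 := by linarith
  obtain ⟨κ₁, hκ₁, hκ₁₂, η₂, hη₂, hη₂1, Xd, hRB2⟩ := hRB2 hRB (ε / 16) (κ / 4) κ
    (by positivity) (by linarith) (by positivity) (by linarith) hκ
  obtain ⟨δ, η₃, C, hδ, hδ1, hη₃, hη₃1, hC, lc, hRC⟩ := hRC (ε / 16 / 2) (by positivity)
    (by linarith)
  obtain ⟨c, C₄, hc, hC₄, Q₀, hQ₀, He, hCORE⟩ := hCORE A' κ₁ (κ / 4) (1 / 16) (δ / 2) hA' hκ₁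
    hκ₁₂ (by linarith) (by norm_num) le_rfl (by positivity) (by linarith)
  obtain ⟨ϑ, hϑ, ld, U₀, hRD⟩ := hRD hMuT (ε / 16 / 2 / 4) c η₃ Q₀ (by positivity) hc hη₃ hη₃1
    hQ₀
  obtain ⟨W, hW⟩ : ∃ W : ℝ, W = (2 * C + lc + ld + 2) / η₂ + Real.exp 1 / ϑ +
    Real.exp 1 * C₄ * C + Real.exp 1 * C₄ * C / ϑ + C₄ / ϑ := ⟨_, rfl⟩
  have hWa : (2 * C + lc + ld + 2) / η₂ ≤ W := by
    rw [hW]
    have : 0 ≤ Real.exp 1 / ϑ + Real.exp 1 * C₄ * C + Real.exp 1 * C₄ * C / ϑ + C₄ / ϑ := by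
      positivity
    linarith
  have hWb : Real.exp 1 / ϑ ≤ W := by
    rw [hW]
    have : 0 ≤ (2 * C + lc + ld + 2) / η₂ + Real.exp 1 * C₄ * C + Real.exp 1 * C₄ * C / ϑ +
      C₄ / ϑ := by positivity
    linarith
  have hWc : Real.exp 1 * C₄ * C ≤ W := by
    rw [hW]
    have : 0 ≤ (2 * C + lc + ld + 2) / η₂ + Real.exp 1 / ϑ + Real.exp 1 * C₄ * C / ϑ +
      C₄ / ϑ := by positivity
    linarith
  have hWd : Real.exp 1 * C₄ * C / ϑ ≤ W := by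
    rw [hW]
    have : 0 ≤ (2 * C + lc + ld + 2) / η₂ + Real.exp 1 / ϑ + Real.exp 1 * C₄ * C +
      C₄ / ϑ := by positivity
    linarith
  have hWe : C₄ / ϑ ≤ W := by
    rw [hW]
    have : 0 ≤ (2 * C + lc + ld + 2) / η₂ + Real.exp 1 / ϑ + Real.exp 1 * C₄ * C +
      Real.exp 1 * C₄ * C / ϑ := by positivity
    linarith
  obtain ⟨X₁, hX₁⟩ := fin_large κ κ₁ W U₀ He Xd hκ hκ₁
  refine ⟨max (max (max Ha Hb) (max Hc 1)) ⌈((X₁ : ℝ) + 1) / η⌉₊, ?_⟩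
  intro H N hH hHN α hα
  have hHa : Ha ≤ H := ((le_max_left _ _).trans (le_max_left _ _)).trans ((le_max_left _ _).trans hH)
  have hHb : Hb ≤ H := ((le_max_right _ _).trans (le_max_left _ _)).trans ((le_max_left _ _).trans hH)
  have hHc : Hc ≤ H := ((le_max_left _ _).trans (le_max_right _ _)).trans ((le_max_left _ _).trans hH)
  have hH1 : 1 ≤ H := ((le_max_right _ _).trans (le_max_right _ _)).trans ((le_max_left _ _).trans hH)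
  have hH1' : (1 : ℝ) ≤ H := by exact_mod_cast hH1
  have hHη : ((X₁ : ℝ) + 1) / η ≤ H :=
    (Nat.le_ceil _).trans (by exact_mod_cast (le_max_right _ _).trans hH)
  have hlogN : 0 ≤ Real.log N := Real.log_nonneg (by exact_mod_cast hH1.trans hHN)
  by_contra hcon
  replace hcon := lt_of_not_ge hcon
  have hTV : TV α ((H : ℝ) ^ A) := fun j => (hα j).trans (Real.rpow_le_rpow_of_exponent_le hH1' hAA)
  obtain ⟨f, hf⟩ : ∃ f : ℕ → ℝ, f = fun n => ‖∑ h ∈ Icc 1 H, muC (n + h) * ee (α n * h)‖ / H :=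
    ⟨_, rfl⟩
  have hfn : ∀ n, f n = ‖∑ h ∈ Icc 1 H, muC (n + h) * ee (α n * h)‖ / H := fun n => by rw [hf]
  have hf0 : ∀ n, 0 ≤ f n := fun n => by rw [hfn]; positivity
  have hf1 : ∀ n, f n ≤ 1 := by
    intro n
    rw [hfn, div_le_one (by linarith)]
    refine (norm_sum_le _ _).trans ?_
    calc ∑ h ∈ Icc 1 H, ‖muC (n + h) * ee (α n * h)‖ ≤ ∑ _h ∈ Icc 1 H, (1 : ℝ) := by
          refine sum_le_sum fun h _ => ?_
          rw [norm_mul]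
          have e1 : ‖ee (α n * h)‖ = 1 := norm_ee _
          have e2 : ‖muC (n + h)‖ ≤ 1 := norm_muC _
          rw [e1, mul_one]
          exact e2
      _ = H := by simp
  have hfs : ∀ n, n ≤ 2 * H → f n ≤ ε / 8 := by
    intro n hn
    rw [hfn, div_le_iff₀ (by linarith)]
    exact hRH H hHa n hn (α n)
  have hbig : ε * Real.log N < ∑ n ∈ Icc 1 N, (1 / (n : ℝ)) * f n := by
    have e1 : ∑ n ∈ Icc 1 N, (1 / (n : ℝ)) * f n = (∑ n ∈ Icc 1 N, (1 / (n : ℝ)) *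
        ‖∑ h ∈ Icc 1 H, muC (n + h) * ee (α n * h)‖) / H := by
      rw [sum_div]
      refine sum_congr rfl fun n _ => ?_
      rw [hfn]; ring
    rw [e1, lt_div_iff₀ (by linarith)]
    refine lt_of_le_of_lt ?_ hcon
    calc ε * Real.log N * H = ε * (H * Real.log N) := by ring
      _ ≤ ε₀ * (H * Real.log N) := by gcongr
      _ = ε₀ * H * Real.log N := by ring
  obtain ⟨xa, xb, hx1, hx2, hx3, hx4, hx5, hx6⟩ := hRW H N hHb hHN f hf0 hf1 hfs hbig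
  obtain ⟨a, ta, tb, R, ht1, ht2, hR1, hR2, hR3, hj, hint⟩ := hRA H N hHc hHN α hTV xa xb hx1 hx2
    hx3 hx4 hx5 (by simpa only [hfn] using hx6)
  obtain ⟨X, hX⟩ : ∃ X : ℕ, X = ⌊η * H⌋₊ := ⟨_, rfl⟩
  rw [← hX] at ht1 ht2 hR2 hR3 hj hint
  have hXX : X₁ ≤ X := by
    rw [hX]
    apply Nat.le_floor
    rw [div_le_iff₀ hη] at hHη
    linarith
  obtain ⟨b1, b2, b3, b4, b5, b6, b7⟩ := hX₁ X hXX
  have hXpos : 0 < (X : ℝ) := by
    rcases Nat.eq_zero_or_pos X with h | h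
    · rw [h] at b3
      simp at b3
      linarith
    · exact_mod_cast h
  have hX1 : (1 : ℝ) ≤ X := by exact_mod_cast Nat.pos_of_ne_zero (fun h => by
    rw [h] at hXpos; simp at hXpos)
  obtain ⟨hLs, hRB2⟩ := hRB2 X b1
  have h3 := hRB2 a ta tb ht1 ht2 hint
  obtain ⟨l, hl⟩ : ∃ l : ℕ, l = ⌊η₂ * (X : ℝ) ^ (1 - κ / 4)⌋₊ := ⟨_, rfl⟩
  rw [← hl] at h3
  -- the size of `l`
  have hXq : (X : ℝ) ^ (1 / 4 : ℝ) ≤ (X : ℝ) ^ (1 - κ / 4) :=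
    Real.rpow_le_rpow_of_exponent_le hX1 (by linarith)
  have hly : 2 * C + lc + ld + 2 ≤ η₂ * (X : ℝ) ^ (1 - κ / 4) := by
    have := hWa.trans (b6.trans hXq)
    rw [div_le_iff₀ hη₂] at this
    linarith
  have hl1 : η₂ * (X : ℝ) ^ (1 - κ / 4) - 1 < l := by rw [hl]; exact Nat.sub_one_lt_floor _
  have hl2 : (l : ℝ) ≤ η₂ * (X : ℝ) ^ (1 - κ / 4) := by
    rw [hl]; exact Nat.floor_le (by positivity)
  have hlc : lc ≤ l := by
    have : (lc : ℝ) ≤ l := by linarith [Nat.cast_nonneg (α := ℝ) ld]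
    exact_mod_cast this
  have hld : ld ≤ l := by
    have : (ld : ℝ) ≤ l := by linarith [Nat.cast_nonneg (α := ℝ) lc]
    exact_mod_cast this
  have hlone : (1 : ℝ) ≤ l := by
    linarith [Nat.cast_nonneg (α := ℝ) lc, Nat.cast_nonneg (α := ℝ) ld]
  have hlX : (l : ℝ) ≤ X := by
    refine hl2.trans ?_
    calc η₂ * (X : ℝ) ^ (1 - κ / 4) ≤ 1 * (X : ℝ) ^ (1 : ℝ) :=
          mul_le_mul hη₂1 (Real.rpow_le_rpow_of_exponent_le hX1 (by linarith)) (by positivity)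
            zero_le_one
      _ = X := by rw [one_mul, Real.rpow_one]
  have hquart : (X : ℝ) ^ (-(1 / 2) : ℝ) * (X : ℝ) ^ (1 / 4 : ℝ) = 1 / (X : ℝ) ^ (1 / 4 : ℝ) := by
    rw [← Real.rpow_add hXpos, show (-(1 / 2) + 1 / 4 : ℝ) = -(1 / 4) by norm_num,
      Real.rpow_neg hXpos.le, inv_eq_one_div]
  have hq4 : 0 < (X : ℝ) ^ (1 / 4 : ℝ) := Real.rpow_pos_of_pos hXpos _
  have htau : C / (l : ℝ) ≤ (X : ℝ) ^ (-(1 / 2) : ℝ) := by
    rw [div_le_iff₀ (by linarith)]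
    have e1 : η₂ * (X : ℝ) ^ (1 - κ / 4) / 2 ≤ l := by
      linarith [Nat.cast_nonneg (α := ℝ) lc, Nat.cast_nonneg (α := ℝ) ld]
    have e2 : (X : ℝ) ^ (-(1 / 2) : ℝ) * (η₂ * (X : ℝ) ^ (1 - κ / 4) / 2) =
        η₂ / 2 * (X : ℝ) ^ (1 / 2 - κ / 4) := by
      have : (X : ℝ) ^ (1 / 2 - κ / 4) = (X : ℝ) ^ (-(1 / 2) : ℝ) * (X : ℝ) ^ (1 - κ / 4) := by
        rw [← Real.rpow_add hXpos]; congr 1; ring
      rw [this]; ring
    have e3 : (X : ℝ) ^ (1 / 4 : ℝ) ≤ (X : ℝ) ^ (1 / 2 - κ / 4) :=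
      Real.rpow_le_rpow_of_exponent_le hX1 (by linarith)
    have e4 : 2 * C / η₂ ≤ (X : ℝ) ^ (1 / 4 : ℝ) := by
      refine le_trans ?_ (hWa.trans b6)
      gcongr
      linarith [Nat.cast_nonneg (α := ℝ) lc, Nat.cast_nonneg (α := ℝ) ld]
    rw [div_le_iff₀ hη₂] at e4
    have e5 : (X : ℝ) ^ (-(1 / 2) : ℝ) * (η₂ * (X : ℝ) ^ (1 - κ / 4) / 2) ≤
        (X : ℝ) ^ (-(1 / 2) : ℝ) * l := by gcongr
    have e6 : η₂ / 2 * (X : ℝ) ^ (1 / 4 : ℝ) ≤ η₂ / 2 * (X : ℝ) ^ (1 / 2 - κ / 4) := by gcongr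
    linarith
  -- the clusters
  have hlX0 : 0 < Real.log X := by linarith
  have hklX : 0 < κ * Real.log X := mul_pos hκ hlX0
  have htab : ta < tb := by linarith
  have hta : ta ≤ tb := htab.le
  obtain ⟨B, hGm, hmass⟩ := hRC l hlc (PPs X κ₁ (κ / 4)) (by
    intro p hp
    unfold PPs at hp
    exact (mem_filter.1 hp).2.1) hLs (fun u => a ⌊Real.exp u / (X : ℝ)⌋₊)
    (((measurable_from_nat (f := a)).comp Nat.measurable_floor).comp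
      (Real.measurable_exp.div_const _)) ta tb htab (by linarith)
  have hok := sysF_ok (e := ε / 16 / 2) b5 hLs hR1 hC.le hta hXpos hj hGm
  obtain ⟨q, hq, u₀, T₀, S, hSm, hSs, hSv, hT₀, hS⟩ := hCORE X b2 _ R hok hR2 htau (by
    show δ / 2 * (tb - (ta - Real.log ((X : ℝ) ^ (κ / 4)))) ≤ _
    refine le_trans ?_ hmass
    rw [Real.log_rpow hXpos]
    have e1 : κ / 4 * Real.log X ≤ tb - ta := by linarith
    have e2 := mul_le_mul_of_nonneg_left e1 (by positivity : 0 ≤ δ / 2)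
    linarith)
  have hT₀ : |T₀| ≤ Real.exp u₀ * (C₄ * R * (C / l) * (X : ℝ) ^ (2 * (1 / 16) + κ / 4)) := hT₀
  -- a point
  have hne : S.Nonempty := by
    rw [Set.nonempty_iff_ne_empty]
    intro he
    rw [he, measure_empty, ENNReal.toReal_zero] at hSv
    linarith
  obtain ⟨u, hu⟩ := hne
  have hlo : ta - Real.log ((X : ℝ) ^ (κ / 4)) ≤ u := (hok.mem q u (hS u hu).1).2.1
  rw [Real.log_rpow hXpos] at hlo
  have hu0 : ta - κ / 4 * Real.log X - 1 ≤ u₀ := by linarith [(hSs hu).2]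
  have hu1 : (1 + κ / 4) * Real.log X - 1 ≤ u₀ := by linarith
  have hu2 : Real.log X - 1 ≤ u₀ := by linarith
  have hexpX : Real.exp (Real.log X) = X := Real.exp_log hXpos
  have hexp1 : (X : ℝ) * (X : ℝ) ^ (κ / 4) ≤ Real.exp 1 * Real.exp u₀ := by
    rw [← Real.exp_add]
    calc (X : ℝ) * (X : ℝ) ^ (κ / 4) = Real.exp ((1 + κ / 4) * Real.log X) := by
          rw [Real.rpow_def_of_pos hXpos, add_mul, Real.exp_add, one_mul, hexpX, mul_comm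
            (Real.log (X : ℝ))]
      _ ≤ _ := Real.exp_le_exp.2 (by linarith)
  have hexp2 : Real.exp ta ≤ Real.exp 1 * Real.exp u₀ * (X : ℝ) ^ (κ / 4) := by
    rw [Real.rpow_def_of_pos hXpos, ← Real.exp_add, ← Real.exp_add]
    exact Real.exp_le_exp.2 (by linarith)
  have hE2 : Real.exp (2 * u₀) = Real.exp u₀ * Real.exp u₀ := by
    rw [← Real.exp_add]; congr 1; ring
  have hpow : (X : ℝ) ^ (2 * (1 / 16) + κ / 4) ≤ (X : ℝ) ^ (1 / 4 - κ / 4) :=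
    Real.rpow_le_rpow_of_exponent_le hX1 (by linarith)
  have hT1 : |T₀| * l ≤ Real.exp (2 * u₀) * (Real.exp 1 * C₄ * C * (1 / (X : ℝ) ^ (1 / 4 : ℝ))) := by
    have e1 : |T₀| * l ≤ Real.exp u₀ * (C₄ * R * (C / l) * (X : ℝ) ^ (2 * (1 / 16) + κ / 4)) * l := by
      gcongr
    have e2 : Real.exp u₀ * (C₄ * R * (C / l) * (X : ℝ) ^ (2 * (1 / 16) + κ / 4)) * l =
        Real.exp u₀ * (C₄ * C * R * (X : ℝ) ^ (2 * (1 / 16) + κ / 4)) := by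
      field_simp
    have e3 : R ≤ Real.exp 1 * Real.exp u₀ * (X : ℝ) ^ (κ / 4) * (X : ℝ) ^ (-(1 / 2) : ℝ) :=
      hR3.trans (by gcongr)
    have e4 : (X : ℝ) ^ (κ / 4) * (X : ℝ) ^ (-(1 / 2) : ℝ) * (X : ℝ) ^ (1 / 4 - κ / 4) =
        1 / (X : ℝ) ^ (1 / 4 : ℝ) := by
      rw [← hquart, ← Real.rpow_add hXpos, ← Real.rpow_add hXpos, ← Real.rpow_add hXpos]
      congr 1; ring
    rw [e2] at e1
    refine e1.trans ?_
    calc Real.exp u₀ * (C₄ * C * R * (X : ℝ) ^ (2 * (1 / 16) + κ / 4))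
        ≤ Real.exp u₀ * (C₄ * C * (Real.exp 1 * Real.exp u₀ * (X : ℝ) ^ (κ / 4) *
          (X : ℝ) ^ (-(1 / 2) : ℝ)) * (X : ℝ) ^ (1 / 4 - κ / 4)) := by gcongr
      _ = Real.exp u₀ * Real.exp u₀ * (Real.exp 1 * C₄ * C * ((X : ℝ) ^ (κ / 4) *
          (X : ℝ) ^ (-(1 / 2) : ℝ) * (X : ℝ) ^ (1 / 4 - κ / 4))) := by ring
      _ = _ := by rw [e4, hE2]
  have hsmall1 : Real.exp 1 * C₄ * C * (1 / (X : ℝ) ^ (1 / 4 : ℝ)) ≤ 1 := by
    rw [mul_one_div, div_le_one hq4]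
    exact hWc.trans b6
  have hsmall2 : Real.exp 1 * C₄ * C * (1 / (X : ℝ) ^ (1 / 4 : ℝ)) ≤ ϑ := by
    rw [mul_one_div, div_le_iff₀ hq4]
    have := hWd.trans b6
    rw [div_le_iff₀ hϑ] at this
    linarith
  refine hRD l hld u₀ T₀ (by linarith) ?_ ?_ ?_ B S hSm hSs hSv ?_
  · have e1 := hWb.trans b7
    rw [div_le_iff₀ hϑ] at e1
    have e2 : (X : ℝ) * Real.exp 1 ≤ ϑ * (Real.exp 1 * Real.exp u₀) := by
      calc (X : ℝ) * Real.exp 1 ≤ X * ((X : ℝ) ^ (κ / 4) * ϑ) := by gcongr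
        _ = ϑ * (X * (X : ℝ) ^ (κ / 4)) := by ring
        _ ≤ _ := by gcongr
    have e3 : (X : ℝ) ≤ ϑ * Real.exp u₀ := by
      have := Real.exp_pos 1
      have e4 : (X : ℝ) * Real.exp 1 ≤ ϑ * Real.exp u₀ * Real.exp 1 := by linarith
      exact le_of_mul_le_mul_right e4 this
    exact hlX.trans e3
  · calc |T₀| ≤ |T₀| * l := le_mul_of_one_le_right (abs_nonneg _) hlone
      _ ≤ _ := hT1
      _ ≤ Real.exp (2 * u₀) * 1 := by gcongr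
      _ = _ := mul_one _
  · calc |T₀| * l ≤ _ := hT1
      _ ≤ Real.exp (2 * u₀) * ϑ := by gcongr
      _ = _ := mul_comm _ _
  · intro u hu
    obtain ⟨⟨_, _, _, h4, _⟩, j, hj⟩ := hS u hu
    refine ⟨h4, j, hj.trans ?_⟩
    show C₄ * (C / l) * (X : ℝ) ^ (2 * (1 / 16) + κ / 4) ≤ ϑ
    have e1 : (X : ℝ) ^ (2 * (1 / 16) + κ / 4) ≤ (X : ℝ) ^ (1 / 4 : ℝ) :=
      Real.rpow_le_rpow_of_exponent_le hX1 (by linarith)
    calc C₄ * (C / l) * (X : ℝ) ^ (2 * (1 / 16) + κ / 4)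
        ≤ C₄ * (X : ℝ) ^ (-(1 / 2) : ℝ) * (X : ℝ) ^ (1 / 4 : ℝ) := by gcongr
      _ = C₄ * ((X : ℝ) ^ (-(1 / 2) : ℝ) * (X : ℝ) ^ (1 / 4 : ℝ)) := by ring
      _ = C₄ / (X : ℝ) ^ (1 / 4 : ℝ) := by rw [hquart]; ring
      _ ≤ ϑ := by
          rw [div_le_iff₀ hq4]
          have := hWe.trans b6
          rw [div_le_iff₀ hϑ] at this
          linarith

end

end Pool.Agent.SV
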