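import Pool.Agent.Lib.SV.Defs

/-!
# Theorem V, row J1: density of the pairs
-/

set_option autoImplicit false
open Finset MeasureTheory

namespace Pool.Agent.SV

namespace J12

theorem Ls_pos {s : Sys} {P1 P2 R : ℝ} (h : s.OK P1 P2 R) : 0 < Ls s.PP := by
  have := h.one
  linarith

theorem wt_nonneg {s : Sys} {P1 P2 R : ℝ} (h : s.OK P1 P2 R) (p : ℕ) : 0 ≤ wt s.PP p := by
  unfold wt
  have := Ls_pos h
  positivity

theorem wt_le {s : Sys} {P1 P2 R : ℝ} (h : s.OK P1 P2 R) {p : ℕ} (hp : p ∈ s.PP) :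
    wt s.PP p ≤ 1 / P1 := by
  unfold wt
  have h1 := h.one
  have h2 := h.ge p hp
  have h3 := h.P1one
  apply one_div_le_one_div_of_le (by linarith)
  calc P1 ≤ p := h2
    _ = p * 1 := by ring
    _ ≤ p * Ls s.PP := by
        apply mul_le_mul_of_nonneg_left h1
        linarith

theorem sum_wt {s : Sys} {P1 P2 R : ℝ} (h : s.OK P1 P2 R) : ∑ p ∈ s.PP, wt s.PP p = 1 := by
  have hL := Ls_pos h
  have h1 : ∀ p ∈ s.PP, wt s.PP p = 1 / Ls s.PP * (1 / (p : ℝ)) := by
    intro p hp
    unfold wt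
    rw [one_div_mul_one_div, mul_comm (Ls s.PP)]
  rw [Finset.sum_congr rfl h1, ← Finset.mul_sum]
  change 1 / Ls s.PP * Ls s.PP = 1
  field_simp

theorem nonempty {s : Sys} {P1 P2 R : ℝ} (h : s.OK P1 P2 R) : s.PP.Nonempty := by
  rw [Finset.nonempty_iff_ne_empty]
  intro h0
  have := h.one
  rw [Ls, h0] at this
  norm_num at this

theorem P2_ge {s : Sys} {P1 P2 R : ℝ} (h : s.OK P1 P2 R) : 2 ≤ P2 := by
  obtain ⟨p, hp⟩ := nonempty h
  have := h.ge p hp
  have := h.le p hp
  have := h.P1one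
  linarith

theorem len_pos {s : Sys} {P1 P2 R : ℝ} (h : s.OK P1 P2 R) : 0 < s.hi - s.lo := by
  have h1 := P2_ge h
  have h2 := h.len
  have h3 : 0 < Real.log P2 := Real.log_pos (by linarith)
  linarith

theorem log_nonneg {s : Sys} {P1 P2 R : ℝ} (h : s.OK P1 P2 R) {p : ℕ} (hp : p ∈ s.PP) :
    0 ≤ Real.log p := by
  have := h.ge p hp
  have := h.P1one
  exact Real.log_nonneg (by linarith)

theorem log_le {s : Sys} {P1 P2 R : ℝ} (h : s.OK P1 P2 R) {p : ℕ} (hp : p ∈ s.PP) :
    Real.log p ≤ Real.log P2 := by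
  have := h.ge p hp
  have := h.P1one
  exact Real.log_le_log (by linarith) (h.le p hp)

/-- The volume of a measurable subset of an interval as an integral. -/
theorem vol_eq {a b : ℝ} {A : Set ℝ} (hA : MeasurableSet A) (hs : A ⊆ Set.Icc a b) :
    ∫ x, A.indicator (fun _ => (1 : ℝ)) x ∂(volume.restrict (Set.Icc a b)) =
      (volume A).toReal := by
  rw [integral_indicator hA]
  rw [Measure.restrict_restrict hA, Set.inter_eq_left.mpr hs]
  simp [Measure.real]

theorem int_ind {a b : ℝ} {A : Set ℝ} (hA : MeasurableSet A) :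
    Integrable (fun x => A.indicator (fun _ => (1 : ℝ)) x) (volume.restrict (Set.Icc a b)) :=
  (integrable_const (1 : ℝ)).indicator hA

theorem int_const {a b c : ℝ} (hab : a ≤ b) :
    ∫ _x, c ∂(volume.restrict (Set.Icc a b)) = (b - a) * c := by
  simp [Measure.real, hab]

theorem ind_mul (A B : Set ℝ) (x : ℝ) :
    A.indicator (fun _ => (1 : ℝ)) x * B.indicator (fun _ => (1 : ℝ)) x =
      (A ∩ B).indicator (fun _ => (1 : ℝ)) x := by
  by_cases h1 : x ∈ A <;> by_cases h2 : x ∈ B <;> simp [h1, h2]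

end J12

open J12

theorem j1 : J1_stmt := by
  intro s P1 P2 R δ h hδ hm
  have hℓ := len_pos h
  have hlen := h.len
  have hP2 : 0 < Real.log P2 := Real.log_pos (by have := P2_ge h; linarith)
  set A : ℕ → Set ℝ := fun p => {x | x + -Real.log p ∈ s.G p} with hAdef
  have hA : ∀ p, MeasurableSet (A p) := fun p => (measurable_id.add_const _) (h.meas p)
  have hvA : ∀ p, volume (A p) = volume (s.G p) := fun p =>
    measure_preimage_add_right volume (-Real.log p) (s.G p)
  have hvP : ∀ p q, volume (Pair s p q) = volume (A p ∩ A q) := by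
    intro p q
    have h1 : Pair s p q = (fun z => z + (Real.log p + Real.log q)) ⁻¹' (A p ∩ A q) := by
      ext z
      simp only [Pair, hAdef, Set.mem_ofPred_eq, Set.mem_preimage, Set.mem_inter_iff]
      have e1 : z + (Real.log p + Real.log q) + -Real.log p = z + Real.log q := by ring
      have e2 : z + (Real.log p + Real.log q) + -Real.log q = z + Real.log p := by ring
      rw [e1, e2]
    rw [h1, measure_preimage_add_right]
  have hsub : ∀ p, A p ⊆ Set.Icc s.lo (s.hi + Real.log P2) := by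
    intro p x hx
    simp only [hAdef, Set.mem_ofPred_eq] at hx
    obtain ⟨hp, h1, h2⟩ := h.mem p _ hx
    have h3 := log_nonneg h hp
    have h4 := log_le h hp
    constructor <;> linarith
  set μ := volume.restrict (Set.Icc s.lo (s.hi + Real.log P2)) with hμ
  set χ : ℕ → ℝ → ℝ := fun p x => (A p).indicator (fun _ => (1 : ℝ)) x with hχ
  have hint : ∀ p, Integrable (χ p) μ := fun p => int_ind (hA p)
  have hmul : ∀ p q x, χ p x * χ q x = (A p ∩ A q).indicator (fun _ => (1 : ℝ)) x :=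
    fun p q x => ind_mul (A p) (A q) x
  have hint2 : ∀ p q, Integrable (fun x => χ p x * χ q x) μ := by
    intro p q
    simp only [hmul]
    exact int_ind ((hA p).inter (hA q))
  have h1 : ∫ x, (∑ p ∈ s.PP, wt s.PP p * χ p x) ∂μ = mass s := by
    rw [integral_finsetSum _ fun p _ => (hint p).const_mul _]
    unfold mass
    refine Finset.sum_congr rfl fun p _ => ?_
    rw [integral_const_mul]
    congr 1
    rw [← hvA p]
    exact vol_eq (hA p) (hsub p)
  have hsq : ∀ x, (∑ p ∈ s.PP, wt s.PP p * χ p x) ^ 2 =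
      ∑ p ∈ s.PP, ∑ q ∈ s.PP, wt s.PP p * wt s.PP q * (χ p x * χ q x) := by
    intro x
    rw [sq, Finset.sum_mul_sum]
    refine Finset.sum_congr rfl fun p _ => Finset.sum_congr rfl fun q _ => ?_
    ring
  have h2 : ∫ x, (∑ p ∈ s.PP, wt s.PP p * χ p x) ^ 2 ∂μ =
      ∑ p ∈ s.PP, ∑ q ∈ s.PP, wt s.PP p * wt s.PP q * (volume (Pair s p q)).toReal := by
    simp only [hsq]
    rw [integral_finsetSum _ fun p _ => integrable_finsetSum _ fun q _ =>
      (hint2 p q).const_mul _]
    refine Finset.sum_congr rfl fun p _ => ?_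
    rw [integral_finsetSum _ fun q _ => (hint2 p q).const_mul _]
    refine Finset.sum_congr rfl fun q _ => ?_
    rw [integral_const_mul]
    congr 1
    simp only [hmul]
    rw [hvP p q]
    exact vol_eq ((hA p).inter (hA q)) (Set.inter_subset_left.trans (hsub p))
  have hig : Integrable (fun x => ∑ p ∈ s.PP, wt s.PP p * χ p x) μ :=
    integrable_finsetSum _ fun p _ => (hint p).const_mul _
  have hig2 : Integrable (fun x => (∑ p ∈ s.PP, wt s.PP p * χ p x) ^ 2) μ := by
    simp only [hsq]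
    exact integrable_finsetSum _ fun p _ => integrable_finsetSum _ fun q _ =>
      (hint2 p q).const_mul _
  have h3 : ∫ x, (2 * (δ / 2) * (∑ p ∈ s.PP, wt s.PP p * χ p x) - (δ / 2) ^ 2) ∂μ ≤
      ∫ x, (∑ p ∈ s.PP, wt s.PP p * χ p x) ^ 2 ∂μ := by
    refine integral_mono ((hig.const_mul _).sub (integrable_const _)) hig2 fun x => ?_
    nlinarith [sq_nonneg ((∑ p ∈ s.PP, wt s.PP p * χ p x) - δ / 2)]
  rw [integral_sub (hig.const_mul _) (integrable_const _), integral_const_mul, h1, h2,
    int_const (by linarith)] at h3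
  have h4 : (s.hi + Real.log P2 - s.lo) * (δ / 2) ^ 2 ≤ 2 * (s.hi - s.lo) * (δ / 2) ^ 2 :=
    mul_le_mul_of_nonneg_right (by linarith) (sq_nonneg _)
  have h5 : δ * (δ * (s.hi - s.lo)) ≤ δ * mass s := mul_le_mul_of_nonneg_left hm hδ
  nlinarith [h3, h4, h5]

end Pool.Agent.SV
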