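import Pool.Agent.Lib.SV.J1

/-!
# Theorem V, row J2: choice of the auxiliary primes
-/

set_option autoImplicit false
open Finset MeasureTheory

namespace Pool.Agent.SV

namespace J12

/-- tangent line of `t ^ m` -/
theorem tangent {t a : ℝ} (ht : 0 ≤ t) (ha : 0 < a) (k : ℕ) :
    ((k : ℝ) + 1) * a ^ k * t - k * a ^ (k + 1) ≤ t ^ (k + 1) := by
  have h1 : (-2 : ℝ) ≤ t / a - 1 := by
    have : 0 ≤ t / a := by positivity
    linarith
  have h2 := one_add_mul_le_pow h1 (k + 1)
  have h3 : (1 + (t / a - 1)) ^ (k + 1) = t ^ (k + 1) / a ^ (k + 1) := by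
    rw [← div_pow]
    congr 1
    ring
  rw [h3, le_div_iff₀ (by positivity)] at h2
  refine le_trans (le_of_eq ?_) h2
  push_cast
  have : t / a * a = t := by field_simp
  rw [pow_succ]
  calc ((k : ℝ) + 1) * a ^ k * t - k * (a ^ k * a)
      = ((k : ℝ) + 1) * a ^ k * (t / a * a) - k * (a ^ k * a) := by rw [this]
    _ = (1 + ((k : ℝ) + 1) * (t / a - 1)) * (a ^ k * a) := by ring

/-- Cauchy over the cells -/
theorem cells (PP : Finset ℕ) (cell : ℕ → ℕ) (J : ℕ) (hJ : 1 ≤ J) (hc : ∀ p ∈ PP, cell p < J)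
    (f : ℕ → ℝ) : 1 / (J : ℝ) * (∑ p ∈ PP, f p) ^ 2 ≤
      ∑ p ∈ PP, ∑ p' ∈ PP, (if cell p = cell p' then f p * f p' else 0) := by
  set g : ℕ → ℝ := fun j => ∑ p ∈ PP with cell p = j, f p with hg
  have hm : ∀ p ∈ PP, cell p ∈ range J := fun p hp => Finset.mem_range.mpr (hc p hp)
  have h1 : ∑ p ∈ PP, f p = ∑ j ∈ range J, g j := by
    rw [hg, Finset.sum_fiberwise_of_maps_to hm]
  have h2 : ∑ p ∈ PP, ∑ p' ∈ PP, (if cell p = cell p' then f p * f p' else 0) =
      ∑ j ∈ range J, g j ^ 2 := by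
    have h3 : ∀ p ∈ PP, ∑ p' ∈ PP, (if cell p = cell p' then f p * f p' else 0) =
        f p * g (cell p) := by
      intro p _
      rw [hg]
      simp only
      rw [Finset.mul_sum, Finset.sum_filter]
      refine Finset.sum_congr rfl fun p' _ => ?_
      by_cases hh : cell p = cell p'
      · rw [if_pos hh, if_pos hh.symm]
      · rw [if_neg hh, if_neg fun h' => hh h'.symm]
    rw [Finset.sum_congr rfl h3, ← Finset.sum_fiberwise_of_maps_to hm]
    refine Finset.sum_congr rfl fun j _ => ?_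
    rw [sq]
    conv_rhs => rw [hg]
    simp only
    rw [Finset.sum_mul]
    refine Finset.sum_congr rfl fun p hp => ?_
    rw [(Finset.mem_filter.mp hp).2]
  rw [h1, h2]
  have h4 := sq_sum_le_card_mul_sum_sq (s := range J) (f := g)
  rw [Finset.card_range] at h4
  have hJ0 : (0 : ℝ) < J := by exact_mod_cast hJ
  rw [one_div, inv_mul_le_iff₀ hJ0]
  exact h4

open Classical in
/-- two equal indices -/
theorem pairEq {s : Sys} {P1 P2 R : ℝ} (h : s.OK P1 P2 R) (m : ℕ) (i j : Fin m) (hij : i ≠ j) :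
    ∑ q ∈ Fintype.piFinset (fun _ : Fin m => s.PP),
      (∏ k, wt s.PP (q k)) * (if q i = q j then 1 else 0) ≤ 1 / P1 := by
  have hP1 := h.P1one
  set f : ℕ → Fin m → ℕ → ℝ := fun x k y =>
    wt s.PP y * (if k = i ∨ k = j then (if y = x then 1 else 0) else 1) with hf
  have h1 : ∀ q ∈ Fintype.piFinset (fun _ : Fin m => s.PP),
      (∏ k, wt s.PP (q k)) * (if q i = q j then (1 : ℝ) else 0) =
        ∑ x ∈ s.PP, ∏ k, f x k (q k) := by
    intro q hq
    have hqi : q i ∈ s.PP := Fintype.mem_piFinset.mp hq i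
    have h2 : ∀ x, ∏ k, f x k (q k) =
        (∏ k, wt s.PP (q k)) * (if q i = x ∧ q j = x then 1 else 0) := by
      intro x
      rw [hf]
      simp only
      rw [Finset.prod_mul_distrib]
      congr 1
      by_cases hx : q i = x ∧ q j = x
      · rw [if_pos hx]
        apply Finset.prod_eq_one
        intro k _
        by_cases hk : k = i ∨ k = j
        · rw [if_pos hk]
          rcases hk with rfl | rfl
          · rw [if_pos hx.1]
          · rw [if_pos hx.2]
        · rw [if_neg hk]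
      · rw [if_neg hx]
        rw [not_and_or] at hx
        rcases hx with hx | hx
        · apply Finset.prod_eq_zero (Finset.mem_univ i)
          rw [if_pos (Or.inl rfl), if_neg hx]
        · apply Finset.prod_eq_zero (Finset.mem_univ j)
          rw [if_pos (Or.inr rfl), if_neg hx]
    simp only [h2]
    rw [← Finset.mul_sum]
    congr 1
    by_cases hh : q i = q j
    · rw [if_pos hh]
      rw [Finset.sum_eq_single (q i)]
      · rw [if_pos ⟨rfl, hh.symm⟩]
      · intro x _ hx
        rw [if_neg]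
        rintro ⟨h3, -⟩
        exact hx h3.symm
      · intro h3
        exact absurd hqi h3
    · rw [if_neg hh]
      symm
      apply Finset.sum_eq_zero
      intro x _
      rw [if_neg]
      rintro ⟨h3, h4⟩
      exact hh (h3.trans h4.symm)
  rw [Finset.sum_congr rfl h1, Finset.sum_comm]
  have h5 : ∀ x ∈ s.PP, ∑ q ∈ Fintype.piFinset (fun _ : Fin m => s.PP), ∏ k, f x k (q k) =
      wt s.PP x ^ 2 := by
    intro x hx
    rw [← Finset.prod_univ_sum]
    have h6 : ∀ k : Fin m, ∑ y ∈ s.PP, f x k y = if k = i ∨ k = j then wt s.PP x else 1 := by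
      intro k
      rw [hf]
      simp only
      by_cases hk : k = i ∨ k = j
      · simp only [if_pos hk]
        simp only [mul_ite, mul_one, mul_zero]
        rw [Finset.sum_ite_eq' s.PP x, if_pos hx]
      · simp only [if_neg hk, mul_one]
        exact sum_wt h
    simp only [h6]
    rw [Finset.prod_ite, Finset.prod_const, Finset.prod_const_one, mul_one]
    congr 1
    have h7 : (Finset.univ.filter fun k : Fin m => k = i ∨ k = j) = {i, j} := by
      ext k
      simp
    rw [h7, Finset.card_pair hij]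
  rw [Finset.sum_congr rfl h5]
  calc ∑ x ∈ s.PP, wt s.PP x ^ 2 ≤ ∑ x ∈ s.PP, wt s.PP x * (1 / P1) := by
        refine Finset.sum_le_sum fun x hx => ?_
        rw [sq]
        exact mul_le_mul_of_nonneg_left (wt_le h hx) (wt_nonneg h x)
    _ = 1 / P1 := by rw [← Finset.sum_mul, sum_wt h, one_mul]

open Classical in
/-- tuples with a repetition -/
theorem noninj {s : Sys} {P1 P2 R : ℝ} (h : s.OK P1 P2 R) (m : ℕ) :
    ∑ q ∈ (Fintype.piFinset (fun _ : Fin m => s.PP)) with ¬ Function.Injective q,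
      ∏ k, wt s.PP (q k) ≤ (m : ℝ) ^ 2 / P1 := by
  have hP1 := h.P1one
  have hnn : ∀ q : Fin m → ℕ, 0 ≤ ∏ k, wt s.PP (q k) := fun q =>
    Finset.prod_nonneg fun k _ => wt_nonneg h _
  have h1 : ∑ q ∈ (Fintype.piFinset (fun _ : Fin m => s.PP)) with ¬ Function.Injective q,
      ∏ k, wt s.PP (q k) ≤ ∑ q ∈ Fintype.piFinset (fun _ : Fin m => s.PP),
        ∑ i : Fin m, ∑ j : Fin m, (if i ≠ j then
          (∏ k, wt s.PP (q k)) * (if q i = q j then (1 : ℝ) else 0) else 0) := by
    rw [Finset.sum_filter]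
    refine Finset.sum_le_sum fun q _ => ?_
    have hterm : ∀ i j : Fin m, 0 ≤ (if i ≠ j then
        (∏ k, wt s.PP (q k)) * (if q i = q j then (1 : ℝ) else 0) else 0) := by
      intro i j
      have := hnn q
      split_ifs <;> simp [this]
    by_cases hq : Function.Injective q
    · rw [if_neg (not_not.mpr hq)]
      exact Finset.sum_nonneg fun i _ => Finset.sum_nonneg fun j _ => hterm i j
    · rw [if_pos hq]
      simp only [Function.Injective, not_forall] at hq
      obtain ⟨i, j, hqe, hne⟩ := hq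
      calc ∏ k, wt s.PP (q k) = (if i ≠ j then
            (∏ k, wt s.PP (q k)) * (if q i = q j then (1 : ℝ) else 0) else 0) := by
              rw [if_pos hne, if_pos hqe, mul_one]
        _ ≤ ∑ j : Fin m, (if i ≠ j then
            (∏ k, wt s.PP (q k)) * (if q i = q j then (1 : ℝ) else 0) else 0) :=
              Finset.single_le_sum (f := fun j : Fin m => (if i ≠ j then
                (∏ k, wt s.PP (q k)) * (if q i = q j then (1 : ℝ) else 0) else 0))
                (fun j _ => hterm i j) (Finset.mem_univ j)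
        _ ≤ _ := Finset.single_le_sum (f := fun i : Fin m => ∑ j : Fin m, (if i ≠ j then
                (∏ k, wt s.PP (q k)) * (if q i = q j then (1 : ℝ) else 0) else 0))
                (fun i _ => Finset.sum_nonneg fun j _ => hterm i j) (Finset.mem_univ i)
  refine h1.trans ?_
  rw [Finset.sum_comm]
  calc ∑ i : Fin m, ∑ q ∈ Fintype.piFinset (fun _ : Fin m => s.PP), ∑ j : Fin m, (if i ≠ j then
          (∏ k, wt s.PP (q k)) * (if q i = q j then (1 : ℝ) else 0) else 0)
      ≤ ∑ i : Fin m, ∑ j : Fin m, 1 / P1 := by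
        refine Finset.sum_le_sum fun i _ => ?_
        rw [Finset.sum_comm]
        refine Finset.sum_le_sum fun j _ => ?_
        by_cases hij : i ≠ j
        · simp only [if_pos hij]
          exact pairEq h m i j hij
        · simp only [if_neg hij, Finset.sum_const_zero]
          positivity
    _ = (m : ℝ) ^ 2 / P1 := by
        simp only [Finset.sum_const, Finset.card_univ, Fintype.card_fin, nsmul_eq_mul]
        ring

end J12

open J12

open Classical in
theorem j2 : J2_stmt := by
  intro δ m J hδ hδ1 hm hJ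
  have hJ0 : (1 : ℝ) ≤ J := by exact_mod_cast hJ
  obtain ⟨k, rfl⟩ : ∃ k, m = k + 1 := ⟨m - 1, by omega⟩
  set a : ℝ := δ ^ 2 / (4 * J) with ha_def
  have ha : 0 < a := by positivity
  have ha1 : a ≤ 1 := by
    rw [ha_def, div_le_one (by positivity)]
    nlinarith
  have hapow : 0 < a ^ (k + 1) := by positivity
  have hapow1 : a ^ (k + 1) ≤ 1 := pow_le_one₀ ha.le ha1
  refine ⟨a ^ (k + 1) / 2, by positivity, by linarith, 2 * ((k + 1 : ℕ) : ℝ) ^ 2 / a ^ (k + 1),
    fun s P1 P2 R h hX cell hcell hd => ?_⟩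
  have hℓ := len_pos h
  have hlen := h.len
  have hP1 := h.P1one
  have hP2 : 0 < Real.log P2 := Real.log_pos (by have := P2_ge h; linarith)
  set ℓ := s.hi - s.lo with hℓd
  set w := wt s.PP with hw
  have hwn : ∀ p, 0 ≤ w p := wt_nonneg h
  have hws : ∑ p ∈ s.PP, w p = 1 := sum_wt h
  have hPm : ∀ p q, MeasurableSet (Pair s p q) := fun p q =>
    ((measurable_id.add_const _) (h.meas p)).inter ((measurable_id.add_const _) (h.meas q))
  have hPs : ∀ p q, Pair s p q ⊆ Set.Icc (s.lo - Real.log P2) s.hi := by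
    intro p q z hz
    obtain ⟨hz1, hz2⟩ := hz
    obtain ⟨-, h1, h2⟩ := h.mem p _ hz1
    obtain ⟨hq, -, -⟩ := h.mem q _ hz2
    have h3 := log_nonneg h hq
    have h4 := log_le h hq
    constructor <;> linarith
  have hEm : ∀ (q : Fin (k + 1) → ℕ) p p', MeasurableSet (Edge s cell q p p') := by
    intro q p p'
    by_cases hc : cell p = cell p'
    · have : Edge s cell q p p' = ⋂ i, (Pair s p (q i) ∩ Pair s p' (q i)) := by
        ext z
        simp [Edge, hc]
      rw [this]
      exact MeasurableSet.iInter fun i => (hPm _ _).inter (hPm _ _)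
    · have : Edge s cell q p p' = ∅ := by
        ext z
        simp [Edge, hc]
      rw [this]
      exact MeasurableSet.empty
  have hEs : ∀ (q : Fin (k + 1) → ℕ) p p', Edge s cell q p p' ⊆
      Set.Icc (s.lo - Real.log P2) s.hi := fun q p p' z hz => hPs p (q 0) (hz.2 0).1
  set μ := volume.restrict (Set.Icc (s.lo - Real.log P2) s.hi) with hμ
  set χ : ℕ → ℕ → ℝ → ℝ := fun p q x => (Pair s p q).indicator (fun _ => (1 : ℝ)) x with hχ
  have hχ0 : ∀ p q x, 0 ≤ χ p q x := fun p q x => Set.indicator_nonneg (fun _ _ => zero_le_one) x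
  set ε : (Fin (k + 1) → ℕ) → ℕ → ℕ → ℝ → ℝ := fun q p p' x =>
    (Edge s cell q p p').indicator (fun _ => (1 : ℝ)) x with hε
  have hεeq : ∀ q p p' x, ε q p p' x =
      (if cell p = cell p' then 1 else 0) * ∏ i, (χ p (q i) x * χ p' (q i) x) := by
    intro q p p' x
    by_cases hx : x ∈ Edge s cell q p p'
    · have h1 : ε q p p' x = 1 := by simp [hε, hx]
      rw [h1, if_pos hx.1, one_mul]
      symm
      apply Finset.prod_eq_one
      intro i _
      have h2 := hx.2 i
      simp [hχ, h2.1, h2.2]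
    · have h1 : ε q p p' x = 0 := by simp [hε, hx]
      rw [h1]
      by_cases hc : cell p = cell p'
      · rw [if_pos hc, one_mul]
        symm
        have h2 : ∃ i, ¬ (x ∈ Pair s p (q i) ∧ x ∈ Pair s p' (q i)) := by
          by_contra hcon
          push Not at hcon
          exact hx ⟨hc, hcon⟩
        obtain ⟨i, hi⟩ := h2
        apply Finset.prod_eq_zero (Finset.mem_univ i)
        rw [not_and_or] at hi
        rcases hi with hi | hi
        · simp [hχ, hi]
        · simp [hχ, hi]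
      · rw [if_neg hc, zero_mul]
  have hintχ : ∀ p q, Integrable (χ p q) μ := fun p q => int_ind (hPm p q)
  have hintε : ∀ q p p', Integrable (ε q p p') μ := fun q p p' => int_ind (hEm q p p')
  set W : (Fin (k + 1) → ℕ) → ℝ := fun q => ∏ i, w (q i) with hW
  have hWn : ∀ q, 0 ≤ W q := fun q => Finset.prod_nonneg fun i _ => hwn _
  set TT := Fintype.piFinset (fun _ : Fin (k + 1) => s.PP) with hTT
  have hWs : ∑ q ∈ TT, W q = 1 := by
    rw [hTT, hW]
    simp only
    rw [← Finset.prod_univ_sum]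
    simp [hws]
  set E : (Fin (k + 1) → ℕ) → ℝ := fun q => ∑ p ∈ s.PP, ∑ p' ∈ s.PP,
      w p * w p' * (volume (Edge s cell q p p')).toReal with hE
  -- the pointwise inequality
  set T : ℕ → ℕ → ℝ → ℝ := fun p p' x => ∑ q ∈ s.PP, w q * (χ p q x * χ p' q x) with hT
  have hT0 : ∀ p p' x, 0 ≤ T p p' x := fun p p' x => Finset.sum_nonneg fun q _ =>
    mul_nonneg (hwn q) (mul_nonneg (hχ0 _ _ _) (hχ0 _ _ _))
  set S : ℝ → ℝ := fun x => ∑ p ∈ s.PP, ∑ q ∈ s.PP, w p * w q * χ p q x with hS
  have hA : ∀ x, ∑ q ∈ TT, W q * (∑ p ∈ s.PP, ∑ p' ∈ s.PP, w p * w p' * ε q p p' x) =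
      ∑ p ∈ s.PP, ∑ p' ∈ s.PP, w p * w p' * ((if cell p = cell p' then 1 else 0) *
        T p p' x ^ (k + 1)) := by
    intro x
    have h1 : ∀ p p', T p p' x ^ (k + 1) =
        ∑ q ∈ TT, W q * ∏ i, (χ p (q i) x * χ p' (q i) x) := by
      intro p p'
      have h2 : T p p' x ^ (k + 1) = ∏ _i : Fin (k + 1), T p p' x := by
        rw [Finset.prod_const, Finset.card_univ, Fintype.card_fin]
      rw [h2, hT]
      simp only
      rw [Finset.prod_univ_sum]
      refine Finset.sum_congr rfl fun q _ => ?_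
      rw [Finset.prod_mul_distrib]
    simp only [h1, hεeq, Finset.mul_sum]
    rw [Finset.sum_comm]
    refine Finset.sum_congr rfl fun p _ => ?_
    rw [Finset.sum_comm]
    refine Finset.sum_congr rfl fun p' _ => ?_
    refine Finset.sum_congr rfl fun q _ => ?_
    ring
  have hB : ∀ x, ((k : ℝ) + 1) * a ^ k * (∑ p ∈ s.PP, ∑ p' ∈ s.PP, w p * w p' *
      ((if cell p = cell p' then 1 else 0) * T p p' x)) - k * a ^ (k + 1) ≤
      ∑ p ∈ s.PP, ∑ p' ∈ s.PP, w p * w p' * ((if cell p = cell p' then 1 else 0) *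
        T p p' x ^ (k + 1)) := by
    intro x
    have h1 : ∀ p p', w p * w p' * (((k : ℝ) + 1) * a ^ k *
        ((if cell p = cell p' then 1 else 0) * T p p' x) - k * a ^ (k + 1)) ≤
        w p * w p' * ((if cell p = cell p' then 1 else 0) * T p p' x ^ (k + 1)) := by
      intro p p'
      refine mul_le_mul_of_nonneg_left ?_ (mul_nonneg (hwn p) (hwn p'))
      by_cases hc : cell p = cell p'
      · simp only [if_pos hc, one_mul]
        exact tangent (hT0 p p' x) ha k
      · simp only [if_neg hc, zero_mul, mul_zero]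
        have : 0 ≤ (k : ℝ) * a ^ (k + 1) := by positivity
        linarith
    refine le_trans (le_of_eq ?_) (Finset.sum_le_sum fun p _ => Finset.sum_le_sum fun p' _ =>
      h1 p p')
    have h2 : ∑ p ∈ s.PP, ∑ p' ∈ s.PP, w p * w p' * (k * a ^ (k + 1)) = k * a ^ (k + 1) := by
      have h3 : ∀ p ∈ s.PP, ∑ p' ∈ s.PP, w p * w p' * (k * a ^ (k + 1)) =
          w p * (k * a ^ (k + 1)) := by
        intro p _
        rw [← Finset.sum_mul, ← Finset.mul_sum, hws, mul_one]
      rw [Finset.sum_congr rfl h3, ← Finset.sum_mul, hws, one_mul]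
    calc ((k : ℝ) + 1) * a ^ k * (∑ p ∈ s.PP, ∑ p' ∈ s.PP, w p * w p' *
          ((if cell p = cell p' then 1 else 0) * T p p' x)) - k * a ^ (k + 1)
        = ((k : ℝ) + 1) * a ^ k * (∑ p ∈ s.PP, ∑ p' ∈ s.PP, w p * w p' *
          ((if cell p = cell p' then 1 else 0) * T p p' x)) -
          ∑ p ∈ s.PP, ∑ p' ∈ s.PP, w p * w p' * (k * a ^ (k + 1)) := by rw [h2]
      _ = _ := by
          rw [Finset.mul_sum, ← Finset.sum_sub_distrib]
          refine Finset.sum_congr rfl fun p _ => ?_
          rw [Finset.mul_sum, ← Finset.sum_sub_distrib]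
          refine Finset.sum_congr rfl fun p' _ => ?_
          ring
  have hC : ∀ x, 1 / (J : ℝ) * (2 * (δ / 2) * S x - (δ / 2) ^ 2) ≤
      ∑ p ∈ s.PP, ∑ p' ∈ s.PP, w p * w p' *
        ((if cell p = cell p' then 1 else 0) * T p p' x) := by
    intro x
    have h1 : ∑ p ∈ s.PP, ∑ p' ∈ s.PP, w p * w p' *
        ((if cell p = cell p' then 1 else 0) * T p p' x) =
        ∑ q ∈ s.PP, w q * ∑ p ∈ s.PP, ∑ p' ∈ s.PP,
          (if cell p = cell p' then (w p * χ p q x) * (w p' * χ p' q x) else 0) := by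
      rw [hT]
      simp only [Finset.mul_sum]
      have e1 : ∀ p ∈ s.PP, ∑ p' ∈ s.PP, ∑ q ∈ s.PP, w p * w p' *
          ((if cell p = cell p' then 1 else 0) * (w q * (χ p q x * χ p' q x))) =
          ∑ q ∈ s.PP, ∑ p' ∈ s.PP, w p * w p' *
          ((if cell p = cell p' then 1 else 0) * (w q * (χ p q x * χ p' q x))) :=
        fun p _ => Finset.sum_comm
      rw [Finset.sum_congr rfl e1, Finset.sum_comm]
      refine Finset.sum_congr rfl fun q _ => Finset.sum_congr rfl fun p _ =>
        Finset.sum_congr rfl fun p' _ => ?_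
      by_cases hc : cell p = cell p'
      · simp only [if_pos hc]
        ring
      · simp only [if_neg hc]
        ring
    rw [h1]
    have h2 : 1 / (J : ℝ) * (2 * (δ / 2) * S x - (δ / 2) ^ 2) =
        ∑ q ∈ s.PP, w q * (1 / (J : ℝ) *
          (2 * (δ / 2) * (∑ p ∈ s.PP, w p * χ p q x) - (δ / 2) ^ 2)) := by
      have e1 : S x = ∑ q ∈ s.PP, w q * ∑ p ∈ s.PP, w p * χ p q x := by
        rw [hS]
        simp only [Finset.mul_sum]
        rw [Finset.sum_comm]
        refine Finset.sum_congr rfl fun q _ => Finset.sum_congr rfl fun p _ => ?_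
        ring
      have e2 : (δ / 2) ^ 2 = ∑ q ∈ s.PP, w q * (δ / 2) ^ 2 := by
        rw [← Finset.sum_mul, hws, one_mul]
      calc 1 / (J : ℝ) * (2 * (δ / 2) * S x - (δ / 2) ^ 2)
          = 1 / (J : ℝ) * (2 * (δ / 2) * (∑ q ∈ s.PP, w q * ∑ p ∈ s.PP, w p * χ p q x) -
            ∑ q ∈ s.PP, w q * (δ / 2) ^ 2) := by rw [← e1, ← e2]
        _ = _ := by
            rw [Finset.mul_sum, ← Finset.sum_sub_distrib, Finset.mul_sum]
            refine Finset.sum_congr rfl fun q _ => ?_
            ring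
    rw [h2]
    refine Finset.sum_le_sum fun q _ => mul_le_mul_of_nonneg_left ?_ (hwn q)
    refine le_trans ?_ (cells s.PP cell J hJ hcell fun p => w p * χ p q x)
    refine mul_le_mul_of_nonneg_left ?_ (by positivity)
    nlinarith [sq_nonneg ((∑ p ∈ s.PP, w p * χ p q x) - δ / 2)]
  have hpt : ∀ x, ((k : ℝ) + 1) * a ^ k * (1 / (J : ℝ) *
      (2 * (δ / 2) * S x - (δ / 2) ^ 2)) - k * a ^ (k + 1) ≤
      ∑ q ∈ TT, W q * (∑ p ∈ s.PP, ∑ p' ∈ s.PP, w p * w p' * ε q p p' x) := by
    intro x
    rw [hA x]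
    refine le_trans ?_ (hB x)
    have := mul_le_mul_of_nonneg_left (hC x) (show (0 : ℝ) ≤ ((k : ℝ) + 1) * a ^ k by positivity)
    linarith
  -- integrate
  have hIF : ∫ x, (∑ q ∈ TT, W q * (∑ p ∈ s.PP, ∑ p' ∈ s.PP, w p * w p' * ε q p p' x)) ∂μ =
      ∑ q ∈ TT, W q * E q := by
    rw [integral_finsetSum _ fun q _ => (integrable_finsetSum _ fun p _ =>
      integrable_finsetSum _ fun p' _ => (hintε q p p').const_mul _).const_mul _]
    refine Finset.sum_congr rfl fun q _ => ?_
    rw [integral_const_mul]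
    congr 1
    rw [integral_finsetSum _ fun p _ => integrable_finsetSum _ fun p' _ =>
      (hintε q p p').const_mul _]
    refine Finset.sum_congr rfl fun p _ => ?_
    rw [integral_finsetSum _ fun p' _ => (hintε q p p').const_mul _]
    refine Finset.sum_congr rfl fun p' _ => ?_
    rw [integral_const_mul]
    congr 1
    exact vol_eq (hEm q p p') (hEs q p p')
  have hintS : Integrable S μ :=
    integrable_finsetSum _ fun p _ => integrable_finsetSum _ fun q _ => (hintχ p q).const_mul _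
  have hIS : ∫ x, S x ∂μ = ∑ p ∈ s.PP, ∑ q ∈ s.PP, w p * w q * (volume (Pair s p q)).toReal := by
    rw [hS]
    rw [integral_finsetSum _ fun p _ => integrable_finsetSum _ fun q _ =>
      (hintχ p q).const_mul _]
    refine Finset.sum_congr rfl fun p _ => ?_
    rw [integral_finsetSum _ fun q _ => (hintχ p q).const_mul _]
    refine Finset.sum_congr rfl fun q _ => ?_
    rw [integral_const_mul]
    congr 1
    exact vol_eq (hPm p q) (hPs p q)
  have hintL : Integrable (fun x => ((k : ℝ) + 1) * a ^ k * (1 / (J : ℝ) *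
      (2 * (δ / 2) * S x - (δ / 2) ^ 2)) - k * a ^ (k + 1)) μ :=
    ((((hintS.const_mul _).sub (integrable_const _)).const_mul _).const_mul _).sub
      (integrable_const _)
  have hintR : Integrable (fun x => ∑ q ∈ TT, W q *
      (∑ p ∈ s.PP, ∑ p' ∈ s.PP, w p * w p' * ε q p p' x)) μ :=
    integrable_finsetSum _ fun q _ => (integrable_finsetSum _ fun p _ =>
      integrable_finsetSum _ fun p' _ => (hintε q p p').const_mul _).const_mul _
  have hI := integral_mono hintL hintR hpt
  have hi1 : Integrable (fun x => 2 * (δ / 2) * S x) μ := hintS.const_mul _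
  have hi2 : Integrable (fun x => ((k : ℝ) + 1) * a ^ k * (1 / (J : ℝ) *
      (2 * (δ / 2) * S x - (δ / 2) ^ 2))) μ :=
    ((hi1.sub (integrable_const _)).const_mul _).const_mul _
  rw [hIF, integral_sub hi2 (integrable_const _), integral_const_mul, integral_const_mul,
    integral_sub hi1 (integrable_const _), integral_const_mul, hIS,
    int_const (by linarith), int_const (by linarith)] at hI
  set D := ∑ p ∈ s.PP, ∑ q ∈ s.PP, w p * w q * (volume (Pair s p q)).toReal with hD
  set I0 := s.hi - (s.lo - Real.log P2) with hI0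
  have hI0le : I0 ≤ 2 * ℓ := by
    rw [hI0, hℓd]
    rw [hℓd] at hlen
    linarith
  have hmain : 2 * a ^ (k + 1) * ℓ ≤ ∑ q ∈ TT, W q * E q := by
    refine le_trans ?_ hI
    have h1 : 2 * (δ / 2) * D - I0 * (δ / 2) ^ 2 ≥ δ ^ 2 / 2 * ℓ := by
      have e1 : I0 * (δ / 2) ^ 2 ≤ 2 * ℓ * (δ / 2) ^ 2 :=
        mul_le_mul_of_nonneg_right hI0le (sq_nonneg _)
      have e2 : δ * (δ * ℓ) ≤ δ * D := mul_le_mul_of_nonneg_left hd hδ.le
      nlinarith
    have h2 : I0 * (k * a ^ (k + 1)) ≤ 2 * ℓ * (k * a ^ (k + 1)) :=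
      mul_le_mul_of_nonneg_right hI0le (by positivity)
    have h3 : ((k : ℝ) + 1) * a ^ k * (1 / (J : ℝ) * (δ ^ 2 / 2 * ℓ)) ≤
        ((k : ℝ) + 1) * a ^ k * (1 / (J : ℝ) * (2 * (δ / 2) * D - I0 * (δ / 2) ^ 2)) := by
      refine mul_le_mul_of_nonneg_left (mul_le_mul_of_nonneg_left h1 (by positivity))
        (by positivity)
    have h4 : ((k : ℝ) + 1) * a ^ k * (1 / (J : ℝ) * (δ ^ 2 / 2 * ℓ)) =
        ((k : ℝ) + 1) * (2 * a ^ (k + 1) * ℓ) := by
      have e1 : 1 / (J : ℝ) * (δ ^ 2 / 2 * ℓ) = 2 * a * ℓ := by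
        rw [ha_def]
        field_simp
        ring
      rw [e1, pow_succ]
      ring
    linarith
  -- the tuples with repetitions
  have hEle : ∀ q, E q ≤ 2 * ℓ := by
    intro q
    have h1 : ∀ p p', (volume (Edge s cell q p p')).toReal ≤ 2 * ℓ := by
      intro p p'
      have h2 : (volume (Edge s cell q p p')).toReal ≤
          (volume (Set.Icc (s.lo - Real.log P2) s.hi)).toReal :=
        ENNReal.toReal_mono (by simp) (measure_mono (hEs q p p'))
      rw [Real.volume_Icc, ENNReal.toReal_ofReal (by linarith)] at h2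
      exact h2.trans hI0le
    calc E q ≤ ∑ p ∈ s.PP, ∑ p' ∈ s.PP, w p * w p' * (2 * ℓ) :=
          Finset.sum_le_sum fun p _ => Finset.sum_le_sum fun p' _ =>
            mul_le_mul_of_nonneg_left (h1 p p') (mul_nonneg (hwn p) (hwn p'))
      _ = 2 * ℓ := by
          have h3 : ∀ p ∈ s.PP, ∑ p' ∈ s.PP, w p * w p' * (2 * ℓ) = w p * (2 * ℓ) := by
            intro p _
            rw [← Finset.sum_mul, ← Finset.mul_sum, hws, mul_one]
          rw [Finset.sum_congr rfl h3, ← Finset.sum_mul, hws, one_mul]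
  have hbad : ∑ q ∈ TT with ¬ Function.Injective q, W q * E q ≤ a ^ (k + 1) * ℓ := by
    calc ∑ q ∈ TT with ¬ Function.Injective q, W q * E q
        ≤ ∑ q ∈ TT with ¬ Function.Injective q, W q * (2 * ℓ) :=
          Finset.sum_le_sum fun q _ => mul_le_mul_of_nonneg_left (hEle q) (hWn q)
      _ = (∑ q ∈ TT with ¬ Function.Injective q, W q) * (2 * ℓ) := by rw [Finset.sum_mul]
      _ ≤ (((k + 1 : ℕ) : ℝ) ^ 2 / P1) * (2 * ℓ) :=
          mul_le_mul_of_nonneg_right (noninj h (k + 1)) (by linarith)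
      _ ≤ a ^ (k + 1) * ℓ := by
          have h1 : 2 * ((k + 1 : ℕ) : ℝ) ^ 2 ≤ P1 * a ^ (k + 1) := by
            rw [div_le_iff₀ hapow] at hX
            exact hX
          have h2 : ((k + 1 : ℕ) : ℝ) ^ 2 / P1 * (2 * ℓ) =
              (2 * ((k + 1 : ℕ) : ℝ) ^ 2) / P1 * ℓ := by ring
          rw [h2]
          refine mul_le_mul_of_nonneg_right ?_ hℓ.le
          rw [div_le_iff₀ (by linarith)]
          linarith
  have hsplit := Finset.sum_filter_add_sum_filter_not TT
    (fun q : Fin (k + 1) → ℕ => Function.Injective q) (fun q => W q * E q)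
  have hgood : a ^ (k + 1) * ℓ ≤ ∑ q ∈ TT with Function.Injective q, W q * E q := by
    linarith
  by_contra hcon
  push Not at hcon
  have hlt : ∀ q ∈ TT.filter (fun q : Fin (k + 1) → ℕ => Function.Injective q),
      W q * E q ≤ W q * (a ^ (k + 1) / 2 * ℓ) := by
    intro q hq
    rw [Finset.mem_filter] at hq
    refine mul_le_mul_of_nonneg_left ?_ (hWn q)
    exact (hcon q hq.2 (fun i => Fintype.mem_piFinset.mp hq.1 i)).le
  have h1 : ∑ q ∈ TT with Function.Injective q, W q * E q ≤ a ^ (k + 1) / 2 * ℓ := by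
    calc ∑ q ∈ TT with Function.Injective q, W q * E q
        ≤ ∑ q ∈ TT with Function.Injective q, W q * (a ^ (k + 1) / 2 * ℓ) :=
          Finset.sum_le_sum hlt
      _ = (∑ q ∈ TT with Function.Injective q, W q) * (a ^ (k + 1) / 2 * ℓ) := by
          rw [Finset.sum_mul]
      _ ≤ 1 * (a ^ (k + 1) / 2 * ℓ) := by
          refine mul_le_mul_of_nonneg_right ?_ (by positivity)
          rw [← hWs]
          exact Finset.sum_le_sum_of_subset_of_nonneg (Finset.filter_subset _ _)
            fun q _ _ => hWn q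
      _ = a ^ (k + 1) / 2 * ℓ := one_mul _
  have h2 : 0 < a ^ (k + 1) * ℓ := by positivity
  linarith

end Pool.Agent.SV
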