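import Mathlib
import Pool.Agent.Lib.SV.Defs

/-!
# Theorem V, row K1: many paths; symmetry of the operator.
-/

set_option autoImplicit false
open Finset MeasureTheory

namespace Pool.Agent.SV

section

variable {ι : Type} {I : Finset ι} {ω σ : ι → ℝ} {E : ι → Set ℝ} {inv : ι → ι} {lo hi : ℝ}

theorem K_op (I : Finset ι) (ω σ : ι → ℝ) (E : ι → Set ℝ) (f : ℝ → ℝ) (v : ℝ) :
    Op I ω σ E f v = ∑ i ∈ I, ω i * (E i).indicator (fun v => f (v + σ i)) v := by
  classical
  unfold Op
  refine Finset.sum_congr rfl fun i _ => ?_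
  rw [Set.indicator_apply]

theorem K_meas (h : Sym I ω σ E inv lo hi) {f : ℝ → ℝ} (hf : Measurable f) :
    Measurable (Op I ω σ E f) := by
  have h1 : Op I ω σ E f = fun v => ∑ i ∈ I, ω i * (E i).indicator (fun v => f (v + σ i)) v :=
    funext fun v => K_op I ω σ E f v
  rw [h1]
  refine Finset.measurable_fun_sum I fun i hi => Measurable.const_mul ?_ _
  exact (hf.comp (measurable_id.add_const _)).indicator (h.meas i hi)

theorem K_bdd (h : Sym I ω σ E inv lo hi) {f : ℝ → ℝ} {B : ℝ} (hB : 0 ≤ B) (hf : ∀ v, |f v| ≤ B)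
    (v : ℝ) : |Op I ω σ E f v| ≤ B := by
  rw [K_op]
  calc |∑ i ∈ I, ω i * (E i).indicator (fun v => f (v + σ i)) v|
      ≤ ∑ i ∈ I, |ω i * (E i).indicator (fun v => f (v + σ i)) v| := Finset.abs_sum_le_sum_abs _ _
    _ ≤ ∑ i ∈ I, ω i * B := by
        refine Finset.sum_le_sum fun i hi => ?_
        rw [abs_mul, abs_of_nonneg (h.nn i hi)]
        refine mul_le_mul_of_nonneg_left ?_ (h.nn i hi)
        by_cases hv : v ∈ E i
        · rw [Set.indicator_of_mem hv]
          exact hf _
        · rw [Set.indicator_of_notMem hv, abs_zero]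
          exact hB
    _ = (∑ i ∈ I, ω i) * B := (Finset.sum_mul _ _ _).symm
    _ ≤ 1 * B := mul_le_mul_of_nonneg_right h.sum hB
    _ = B := one_mul B

theorem K_nonneg (h : Sym I ω σ E inv lo hi) {f : ℝ → ℝ} (hf : ∀ v, 0 ≤ f v)
    (v : ℝ) : 0 ≤ Op I ω σ E f v := by
  rw [K_op]
  exact Finset.sum_nonneg fun i hi => mul_nonneg (h.nn i hi)
    (Set.indicator_nonneg (fun x _ => hf _) v)

theorem K_supp (h : Sym I ω σ E inv lo hi) {f : ℝ → ℝ} {v : ℝ} (hv : v ∉ Set.Icc lo hi) :
    Op I ω σ E f v = 0 := by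
  rw [K_op]
  refine Finset.sum_eq_zero fun i hi => ?_
  rw [Set.indicator_of_notMem fun h' => hv (h.sub i hi h'), mul_zero]

theorem K_add {f g : ℝ → ℝ} : Op I ω σ E (fun v => f v + g v) =
    fun v => Op I ω σ E f v + Op I ω σ E g v := by
  funext v
  rw [K_op, K_op, K_op, ← Finset.sum_add_distrib]
  refine Finset.sum_congr rfl fun i _ => ?_
  by_cases hv : v ∈ E i
  · rw [Set.indicator_of_mem hv, Set.indicator_of_mem hv, Set.indicator_of_mem hv, mul_add]
  · rw [Set.indicator_of_notMem hv, Set.indicator_of_notMem hv, Set.indicator_of_notMem hv]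
    ring

/-- integrability on a bounded set -/
theorem K_int {S : Set ℝ} (hS : MeasurableSet S) (hS' : S ⊆ Set.Icc lo hi) {f : ℝ → ℝ}
    (hf : Measurable f) {B : ℝ} (hB : ∀ v, |f v| ≤ B) : Integrable (S.indicator f) := by
  rw [integrable_indicator_iff hS]
  refine Measure.integrableOn_of_bounded (M := B) ?_ hf.aestronglyMeasurable ?_
  · exact (measure_mono hS').trans_lt measure_Icc_lt_top |>.ne
  · exact Filter.Eventually.of_forall fun v => by rw [Real.norm_eq_abs]; exact hB v

/-- the operator is symmetric -/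
theorem K_sym (h : Sym I ω σ E inv lo hi) {f g : ℝ → ℝ} (hf : Measurable f) (hg : Measurable g)
    {B : ℝ} (hfB : ∀ v, |f v| ≤ B) (hgB : ∀ v, |g v| ≤ B) :
    ∫ v, Op I ω σ E f v * g v = ∫ v, f v * Op I ω σ E g v := by
  have hB : 0 ≤ B := (abs_nonneg _).trans (hfB 0)
  have hI : ∀ i ∈ I, Integrable ((E i).indicator fun v => f (v + σ i) * g v) := fun i hi =>
    K_int (h.meas i hi) (h.sub i hi) ((hf.comp (measurable_id.add_const _)).mul hg)
      (B := B * B) fun v => by
        rw [abs_mul]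
        exact mul_le_mul (hfB _) (hgB _) (abs_nonneg _) hB
  have hI' : ∀ i ∈ I, Integrable ((E i).indicator fun v => f v * g (v + σ i)) := fun i hi =>
    K_int (h.meas i hi) (h.sub i hi) (hf.mul (hg.comp (measurable_id.add_const _)))
      (B := B * B) fun v => by
        rw [abs_mul]
        exact mul_le_mul (hfB _) (hgB _) (abs_nonneg _) hB
  have h1 : ∀ v, Op I ω σ E f v * g v =
      ∑ i ∈ I, ω i * (E i).indicator (fun v => f (v + σ i) * g v) v := by
    intro v
    rw [K_op, Finset.sum_mul]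
    refine Finset.sum_congr rfl fun i _ => ?_
    by_cases hv : v ∈ E i
    · rw [Set.indicator_of_mem hv, Set.indicator_of_mem hv, mul_assoc]
    · rw [Set.indicator_of_notMem hv, Set.indicator_of_notMem hv, mul_zero, zero_mul]
  have h2 : ∀ v, f v * Op I ω σ E g v =
      ∑ i ∈ I, ω i * (E i).indicator (fun v => f v * g (v + σ i)) v := by
    intro v
    rw [K_op, Finset.mul_sum]
    refine Finset.sum_congr rfl fun i _ => ?_
    by_cases hv : v ∈ E i
    · rw [Set.indicator_of_mem hv, Set.indicator_of_mem hv]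
      ring
    · rw [Set.indicator_of_notMem hv, Set.indicator_of_notMem hv, mul_zero, mul_zero]
  simp only [h1, h2]
  rw [integral_finsetSum _ fun i hi => (hI i hi).const_mul _,
    integral_finsetSum _ fun i hi => (hI' i hi).const_mul _]
  simp only [integral_const_mul]
  have h3 : ∀ i ∈ I, ∫ v, (E i).indicator (fun v => f (v + σ i) * g v) v =
      ∫ v, (E (inv i)).indicator (fun v => f v * g (v + σ (inv i))) v := by
    intro i hi
    rw [← integral_add_right_eq_self
      (fun v => (E (inv i)).indicator (fun v => f v * g (v + σ (inv i))) v) (σ i)]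
    refine integral_congr_ae (Filter.Eventually.of_forall fun v => ?_)
    dsimp only
    by_cases hv : v ∈ E i
    · rw [Set.indicator_of_mem hv, Set.indicator_of_mem ((h.edge i hi v).mp hv), h.sh i hi]
      congr 2
      ring
    · rw [Set.indicator_of_notMem hv, Set.indicator_of_notMem fun h' => hv ((h.edge i hi v).mpr h')]
  refine Finset.sum_nbij' inv inv h.mem h.mem h.invol h.invol fun i hi => ?_
  rw [h3 i hi, h.wt i hi]

theorem K_iter_meas (h : Sym I ω σ E inv lo hi) {f : ℝ → ℝ} (hf : Measurable f) (k : ℕ) :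
    Measurable ((Op I ω σ E)^[k] f) := by
  induction k with
  | zero => exact hf
  | succ k ih =>
    rw [Function.iterate_succ_apply']
    exact K_meas h ih

theorem K_iter_bdd (h : Sym I ω σ E inv lo hi) {f : ℝ → ℝ} {B : ℝ} (hB : 0 ≤ B)
    (hf : ∀ v, |f v| ≤ B) (k : ℕ) : ∀ v, |(Op I ω σ E)^[k] f v| ≤ B := by
  induction k with
  | zero => exact hf
  | succ k ih =>
    intro v
    rw [Function.iterate_succ_apply']
    exact K_bdd h hB ih v

theorem K_iter_nonneg (h : Sym I ω σ E inv lo hi) {f : ℝ → ℝ} (hf : ∀ v, 0 ≤ f v) (k : ℕ) :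
    ∀ v, 0 ≤ (Op I ω σ E)^[k] f v := by
  induction k with
  | zero => exact hf
  | succ k ih =>
    intro v
    rw [Function.iterate_succ_apply']
    exact K_nonneg h ih v

theorem K_iter_supp (h : Sym I ω σ E inv lo hi) {f : ℝ → ℝ} {k : ℕ} (hk : 1 ≤ k) {v : ℝ}
    (hv : v ∉ Set.Icc lo hi) : (Op I ω σ E)^[k] f v = 0 := by
  obtain ⟨m, rfl⟩ : ∃ m, k = m + 1 := ⟨k - 1, by omega⟩
  rw [Function.iterate_succ_apply']
  exact K_supp h hv

theorem K_iter_add {f g : ℝ → ℝ} (k : ℕ) : (Op I ω σ E)^[k] (fun v => f v + g v) =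
    fun v => (Op I ω σ E)^[k] f v + (Op I ω σ E)^[k] g v := by
  induction k with
  | zero => rfl
  | succ k ih =>
    rw [Function.iterate_succ_apply', ih, K_add, Function.iterate_succ_apply',
      Function.iterate_succ_apply']

theorem K_iter_sym (h : Sym I ω σ E inv lo hi) (k : ℕ) : ∀ {f g : ℝ → ℝ}, Measurable f →
    Measurable g → ∀ {B : ℝ}, (∀ v, |f v| ≤ B) → (∀ v, |g v| ≤ B) →
    ∫ v, (Op I ω σ E)^[k] f v * g v = ∫ v, f v * (Op I ω σ E)^[k] g v := by
  induction k with
  | zero =>
    intro f g _ _ B _ _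
    rfl
  | succ k ih =>
    intro f g hf hg B hfB hgB
    have hB : 0 ≤ B := (abs_nonneg _).trans (hfB 0)
    calc ∫ v, (Op I ω σ E)^[k + 1] f v * g v
        = ∫ v, Op I ω σ E ((Op I ω σ E)^[k] f) v * g v := by
          simp only [Function.iterate_succ_apply']
      _ = ∫ v, (Op I ω σ E)^[k] f v * Op I ω σ E g v :=
          K_sym h (K_iter_meas h hf k) hg (K_iter_bdd h hB hfB k) hgB
      _ = ∫ v, f v * (Op I ω σ E)^[k] (Op I ω σ E g) v :=
          ih hf (K_meas h hg) hfB (K_bdd h hB hgB)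
      _ = _ := by simp only [Function.iterate_succ_apply]

/-- the integral over the line is the integral over the interval -/
theorem K_line (h : Sym I ω σ E inv lo hi) {f : ℝ → ℝ} {k : ℕ} (hk : 1 ≤ k) (g : ℝ → ℝ) :
    ∫ v, (Op I ω σ E)^[k] f v * g v = ∫ v in Set.Icc lo hi, (Op I ω σ E)^[k] f v * g v := by
  rw [← integral_indicator measurableSet_Icc]
  refine integral_congr_ae (Filter.Eventually.of_forall fun v => ?_)
  dsimp only
  by_cases hv : v ∈ Set.Icc lo hi
  · rw [Set.indicator_of_mem hv]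
  · rw [Set.indicator_of_notMem hv, K_iter_supp h hk hv, zero_mul]

/-- doubling -/
theorem K_double (h : Sym I ω σ E inv lo hi) {k : ℕ} (hk : 1 ≤ k) :
    ∫ v in Set.Icc lo hi, (Op I ω σ E)^[2 * k] (fun _ => 1) v =
      ∫ v in Set.Icc lo hi, ((Op I ω σ E)^[k] (fun _ => 1) v) ^ 2 := by
  have h1 := K_line h (f := fun _ => 1) (k := 2 * k) (by omega) (fun _ => 1)
  simp only [mul_one] at h1
  rw [← h1]
  have hb : ∀ v : ℝ, |(fun _ : ℝ => (1 : ℝ)) v| ≤ 1 := fun v => by simp
  have h2 := K_iter_sym h k (K_iter_meas h (measurable_const (a := (1 : ℝ))) k)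
    (measurable_const (a := (1 : ℝ))) (K_iter_bdd h zero_le_one hb k) hb
  simp only [mul_one] at h2
  have h3 : ∀ v, (Op I ω σ E)^[2 * k] (fun _ => 1) v =
      (Op I ω σ E)^[k] ((Op I ω σ E)^[k] fun _ => 1) v := by
    intro v
    rw [two_mul, Function.iterate_add_apply]
  simp only [h3]
  rw [h2, K_line h hk]
  simp only [pow_two]

end

theorem k1 : K1_stmt := by
  intro I ω σ E inv lo hi h c hc hE r
  have hL : 0 < hi - lo := sub_pos.mpr h.le
  have hb : ∀ v : ℝ, |(fun _ : ℝ => (1 : ℝ)) v| ≤ 1 := fun v => by simp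
  induction r with
  | zero =>
    rw [pow_zero, pow_one, Function.iterate_one]
    refine hE.trans (le_of_eq ?_)
    have h1 : ∀ v, Op I ω σ E (fun _ => 1) v = ∑ i ∈ I, ω i * (E i).indicator (fun _ => 1) v :=
      fun v => K_op I ω σ E (fun _ => 1) v
    simp only [h1]
    rw [integral_finsetSum _ fun i hi => ((K_int (h.meas i hi) (h.sub i hi) measurable_const
      (B := 1) fun v => by simp).integrableOn.const_mul _)]
    refine Finset.sum_congr rfl fun i hi => ?_
    rw [integral_const_mul, setIntegral_indicator (h.meas i hi),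
      Set.inter_eq_right.mpr (h.sub i hi)]
    simp [Measure.real]
  | succ r ih =>
    set k := 2 ^ r with hk
    have hk1 : 1 ≤ k := Nat.one_le_two_pow
    rw [pow_succ, mul_comm (2 ^ r) 2, ← hk, K_double h hk1]
    set f : ℝ → ℝ := (Op I ω σ E)^[k] fun _ => 1 with hf
    have hfm : Measurable f := K_iter_meas h measurable_const k
    have hfb : ∀ v, |f v| ≤ 1 := K_iter_bdd h zero_le_one hb k
    have hi1 : IntegrableOn f (Set.Icc lo hi) :=
      Measure.integrableOn_of_bounded (M := 1) measure_Icc_lt_top.ne hfm.aestronglyMeasurable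
        (Filter.Eventually.of_forall fun v => by rw [Real.norm_eq_abs]; exact hfb v)
    have hi2 : IntegrableOn (fun v => f v ^ 2) (Set.Icc lo hi) :=
      Measure.integrableOn_of_bounded (M := 1) measure_Icc_lt_top.ne
        (hfm.pow_const 2).aestronglyMeasurable
        (Filter.Eventually.of_forall fun v => by
          rw [Real.norm_eq_abs, abs_pow]
          exact pow_le_one₀ (abs_nonneg _) (hfb v))
    set t : ℝ := c ^ k with ht
    have ht0 : 0 ≤ t := by positivity
    have h1 : ∫ v in Set.Icc lo hi, (2 * t * f v - t ^ 2) ≤ ∫ v in Set.Icc lo hi, f v ^ 2 := by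
      refine integral_mono_ae (((hi1.const_mul (2 * t)).sub (integrable_const (t ^ 2)))) hi2
        (Filter.Eventually.of_forall fun v => ?_)
      dsimp only
      nlinarith [sq_nonneg (f v - t)]
    have h2 : ∫ v in Set.Icc lo hi, (2 * t * f v - t ^ 2) =
        2 * t * (∫ v in Set.Icc lo hi, f v) - t ^ 2 * (hi - lo) := by
      rw [integral_sub (hi1.const_mul (2 * t)) (integrable_const (t ^ 2)), integral_const_mul]
      simp [Measure.real, h.le.le]
      ring
    have h3 : c ^ (2 * k) = t ^ 2 := by rw [ht, ← pow_mul, mul_comm]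
    rw [h3]
    have h4 : 2 * t * (t * (hi - lo)) ≤ 2 * t * ∫ v in Set.Icc lo hi, f v :=
      mul_le_mul_of_nonneg_left ih (by positivity)
    nlinarith

end Pool.Agent.SV
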