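import Mathlib
import Pool.Agent.Lib.SV.K1

/-!
# Theorem V, row K3: many paths from rich points to rich points.
-/

set_option autoImplicit false
open Finset MeasureTheory

namespace Pool.Agent.SV

theorem K3_int {lo hi : ℝ} {F : ℝ → ℝ} (hF : Measurable F) {B : ℝ} (hB : ∀ v, |F v| ≤ B)
    (h0 : ∀ v, v ∉ Set.Icc lo hi → F v = 0) : Integrable F := by
  have h1 := K_int (lo := lo) (hi := hi) measurableSet_Icc (le_refl (Set.Icc lo hi)) hF hB
  have h2 : (Set.Icc lo hi).indicator F = F := by
    rw [Set.indicator_eq_self]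
    intro v hv
    by_contra h'
    exact hv (h0 v h')
  rwa [h2] at h1

theorem k3 : K3_stmt := by
  intro I ω σ E inv lo hi h k δ hk hδ hint S hS
  have hL : 0 < hi - lo := sub_pos.mpr h.le
  have hb : ∀ v : ℝ, |(fun _ : ℝ => (1 : ℝ)) v| ≤ 1 := fun v => by simp
  set f : ℝ → ℝ := (Op I ω σ E)^[k] fun _ => 1 with hf
  have hfm : Measurable f := K_iter_meas h measurable_const k
  have hfb : ∀ v, |f v| ≤ 1 := K_iter_bdd h zero_le_one hb k
  have hfs : ∀ v, v ∉ Set.Icc lo hi → f v = 0 := fun v hv => K_iter_supp h hk hv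
  have hSm : MeasurableSet S := by
    rw [hS]
    exact measurableSet_le measurable_const hfm
  have hSI : S ⊆ Set.Icc lo hi := by
    intro v hv
    by_contra h'
    rw [hS, Set.mem_ofPred_eq, hfs v h'] at hv
    linarith
  refine ⟨hSm, hSI, ?_⟩
  set g : ℝ → ℝ := S.indicator fun _ => 1 with hg
  set g' : ℝ → ℝ := Sᶜ.indicator fun _ => 1 with hg'
  have hgm : Measurable g := measurable_const.indicator hSm
  have hgm' : Measurable g' := measurable_const.indicator hSm.compl
  have hgn : ∀ v, 0 ≤ g v := fun v => Set.indicator_nonneg (fun _ _ => zero_le_one) v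
  have hgn' : ∀ v, 0 ≤ g' v := fun v => Set.indicator_nonneg (fun _ _ => zero_le_one) v
  have hgg : ∀ v, g v + g' v = 1 := by
    intro v
    have := Set.indicator_self_add_compl S (fun _ : ℝ => (1 : ℝ))
    exact congrFun this v
  have hgb : ∀ v, |g v| ≤ 1 := fun v => by
    rw [abs_of_nonneg (hgn v)]
    linarith [hgg v, hgn' v]
  have hgb' : ∀ v, |g' v| ≤ 1 := fun v => by
    rw [abs_of_nonneg (hgn' v)]
    linarith [hgg v, hgn v]
  set F : ℝ → ℝ := (Op I ω σ E)^[k] g with hF
  set F' : ℝ → ℝ := (Op I ω σ E)^[k] g' with hF'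
  have hFm : Measurable F := K_iter_meas h hgm k
  have hFm' : Measurable F' := K_iter_meas h hgm' k
  have hFn : ∀ v, 0 ≤ F v := K_iter_nonneg h hgn k
  have hFn' : ∀ v, 0 ≤ F' v := K_iter_nonneg h hgn' k
  have hFF : ∀ v, f v = F v + F' v := by
    intro v
    have h1 := congrFun (K_iter_add (I := I) (ω := ω) (σ := σ) (E := E) (f := g) (g := g') k) v
    have h5 : (fun v => g v + g' v) = fun _ => (1 : ℝ) := funext hgg
    rw [h5] at h1
    exact h1
  have hFb : ∀ v, |F v| ≤ 1 := K_iter_bdd h zero_le_one hgb k
  have hFb' : ∀ v, |F' v| ≤ 1 := K_iter_bdd h zero_le_one hgb' k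
  have hFs : ∀ v, v ∉ Set.Icc lo hi → F v = 0 := fun v hv => K_iter_supp h hk hv
  have hFs' : ∀ v, v ∉ Set.Icc lo hi → F' v = 0 := fun v hv => K_iter_supp h hk hv
  have hprod : ∀ {u w : ℝ → ℝ}, Measurable u → Measurable w → (∀ v, |u v| ≤ 1) →
      (∀ v, |w v| ≤ 1) → (∀ v, v ∉ Set.Icc lo hi → u v = 0) → Integrable fun v => u v * w v := by
    intro u w hu hw hub hwb hus
    refine K3_int (lo := lo) (hi := hi) (B := 1) (hu.mul hw) (fun v => ?_) fun v hv => ?_
    · rw [abs_mul]
      exact mul_le_one₀ (hub v) (abs_nonneg _) (hwb v)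
    · rw [hus v hv, zero_mul]
  -- the four integrals
  have h1 : ∫ v in Set.Icc lo hi, f v = ∫ v, (F v * g v + (F' v * g v + f v * g' v)) := by
    have h2 := K_line h (f := fun _ => 1) hk (fun _ => 1)
    simp only [mul_one] at h2
    rw [← h2]
    refine integral_congr_ae (Filter.Eventually.of_forall fun v => ?_)
    have h3 : f v = F v * g v + (F' v * g v + f v * g' v) := by
      have h4 : f v = f v * (g v + g' v) := by rw [hgg, mul_one]
      calc f v = f v * (g v + g' v) := h4
        _ = f v * g v + f v * g' v := by ring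
        _ = (F v + F' v) * g v + f v * g' v := by rw [← hFF]
        _ = _ := by ring
    exact h3
  have hA : Integrable fun v => F' v * g v + f v * g' v :=
    (hprod hFm' hgm hFb' hgb hFs').add (hprod hfm hgm' hfb hgb' hfs)
  rw [integral_add (hprod hFm hgm hFb hgb hFs) hA,
    integral_add (hprod hFm' hgm hFb' hgb hFs') (hprod hfm hgm' hfb hgb' hfs)] at h1
  have h2 : ∫ v, f v * g' v ≤ δ * (hi - lo) := by
    calc ∫ v, f v * g' v ≤ ∫ v, (Set.Icc lo hi).indicator (fun _ => δ) v := by
          refine integral_mono (hprod hfm hgm' hfb hgb' hfs)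
            ((integrable_indicator_iff measurableSet_Icc).mpr (integrableOn_const
              (by exact measure_Icc_lt_top.ne))) fun v => ?_
          dsimp only
          by_cases hv : v ∈ Set.Icc lo hi
          · rw [Set.indicator_of_mem hv]
            by_cases hvS : v ∈ S
            · have hvc : v ∉ Sᶜ := fun h' => h' hvS
              have : g' v = 0 := Set.indicator_of_notMem hvc _
              rw [this, mul_zero]
              exact hδ.le
            · have h3 : f v < δ := by
                by_contra h'
                push Not at h'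
                exact hvS (by rw [hS]; exact h')
              have h4 : g' v = 1 := Set.indicator_of_mem hvS _
              rw [h4, mul_one]
              exact h3.le
          · rw [Set.indicator_of_notMem hv, hfs v hv, zero_mul]
      _ = δ * (hi - lo) := by
          rw [integral_indicator measurableSet_Icc]
          simp [Measure.real, h.le.le]
          ring
  have h3 : ∫ v, F' v * g v ≤ ∫ v, f v * g' v := by
    rw [K_iter_sym h k hgm' hgm hgb' hgb]
    have h4 : Integrable fun v => g' v * (Op I ω σ E)^[k] g v := by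
      have h5 := hprod hFm hgm' hFb hgb' hFs
      refine h5.congr (Filter.Eventually.of_forall fun v => ?_)
      exact mul_comm _ _
    refine integral_mono h4 (hprod hfm hgm' hfb hgb' hfs) fun v => ?_
    dsimp only
    rw [mul_comm]
    refine mul_le_mul_of_nonneg_right ?_ (hgn' v)
    rw [hFF v]
    linarith [hFn' v]
  have h4 : ∫ v in S, F v = ∫ v, F v * g v := by
    rw [← integral_indicator hSm]
    refine integral_congr_ae (Filter.Eventually.of_forall fun v => ?_)
    dsimp only
    by_cases hv : v ∈ S
    · rw [Set.indicator_of_mem hv, hg, Set.indicator_of_mem hv, mul_one]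
    · rw [Set.indicator_of_notMem hv, hg, Set.indicator_of_notMem hv, mul_zero]
  rw [h4]
  linarith

end Pool.Agent.SV
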