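import Pool.Agent.Lib.SV.Defs

/-!
# Theorem V (MP_663568_nt): row NT, the lift of a rich point is near a rational multiple of `M`
-/

set_option autoImplicit false
open Finset MeasureTheory

namespace Pool.Agent.SV

open Pool.Agent.Lib.MP_663568_nt Pool.Agent.Lib.MP_663568_nt.Katai
  Pool.Agent.Lib.MP_663568_nt.Nul

namespace NTr

lemma diag (B : ℝ) (hB : 2 ≤ B) (S : Finset (ℕ × ℕ)) (h : ∀ x ∈ S, x.1 = x.2 ∧ B ≤ x.1) :
    ∑ x ∈ S, 1 / ((x.1 : ℝ) * x.2) ≤ 2 / B := by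
  have e1 : ∑ x ∈ S, 1 / ((x.1 : ℝ) * x.2) = ∑ n ∈ S.image Prod.fst, ((n : ℝ) ^ 2)⁻¹ := by
    rw [sum_image]
    · refine sum_congr rfl fun x hx => ?_
      rw [← (h x hx).1, one_div, sq]
    · intro x hx y hy hxy
      have h1 := (h x hx).1
      have h2 := (h y hy).1
      exact Prod.ext hxy (by rw [← h1, ← h2]; exact hxy)
  rw [e1]
  set k : ℕ := ⌈B⌉₊ - 1 with hk
  have hc : B ≤ (⌈B⌉₊ : ℝ) := Nat.le_ceil B
  have hc2 : 2 ≤ ⌈B⌉₊ := by
    have : ((2 : ℕ) : ℝ) ≤ (⌈B⌉₊ : ℝ) := by push_cast; linarith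
    exact_mod_cast this
  have hk1 : 1 ≤ k := by omega
  have hkr : (k : ℝ) = (⌈B⌉₊ : ℝ) - 1 := by
    rw [hk]; push_cast [Nat.cast_sub (show 1 ≤ ⌈B⌉₊ by omega)]; ring
  obtain ⟨n, hn⟩ : ∃ n : ℕ, ∀ x ∈ S, x.1 ≤ n :=
    ⟨∑ x ∈ S, x.1, fun x hx => single_le_sum (f := fun x : ℕ × ℕ => x.1)
      (fun _ _ => Nat.zero_le _) hx⟩
  have hsub : S.image Prod.fst ⊆ Ioc k (max k n) := by
    intro m hm
    rw [mem_image] at hm
    obtain ⟨x, hx, rfl⟩ := hm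
    rw [mem_Ioc]
    constructor
    · have h1 : ⌈B⌉₊ ≤ x.1 := Nat.ceil_le.2 (h x hx).2
      omega
    · exact (hn x hx).trans (le_max_right _ _)
  calc ∑ n ∈ S.image Prod.fst, ((n : ℝ) ^ 2)⁻¹ ≤ ∑ n ∈ Ioc k (max k n), ((n : ℝ) ^ 2)⁻¹ :=
        sum_le_sum_of_subset_of_nonneg hsub fun _ _ _ => by positivity
    _ ≤ (k : ℝ)⁻¹ - ((max k n : ℕ) : ℝ)⁻¹ := sum_Ioc_inv_sq_le_sub (by omega) (le_max_left _ _)
    _ ≤ (k : ℝ)⁻¹ := by
        have : (0 : ℝ) ≤ ((max k n : ℕ) : ℝ)⁻¹ := by positivity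
        linarith
    _ ≤ 2 / B := by
        rw [inv_le_comm₀ (by positivity) (by positivity), inv_div]
        linarith

lemma exp_le (R : ℝ) (hR : 1 ≤ R) : Real.exp (1 / R) ≤ 1 + 2 / R := by
  have h0 : (0 : ℝ) ≤ 1 / R := by positivity
  have h1 : 1 / R ≤ 1 := by rw [div_le_one (by linarith)]; exact hR
  have h2 := Real.abs_exp_sub_one_le (x := 1 / R) (by rw [abs_of_nonneg h0]; exact h1)
  rw [abs_of_nonneg h0] at h2
  have h3 := (abs_le.1 h2).2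
  have h4 : 2 / R = 2 * (1 / R) := by ring
  rw [h4]
  linarith

open Classical in
lemma block {C₂ C₃ : ℝ} (hC₂ : 0 < C₂)
    (h2 : ∀ (P : ℝ) (X d : ℕ), 2 ≤ P → P ≤ X → 1 ≤ d →
      (#((Icc 1 X).filter fun n : ℕ => ∀ r : ℕ, r.Prime → r ∣ n * (n + d) → P ≤ r) : ℝ) ≤
      C₂ * X / (Real.log P) ^ 2 * ((d : ℝ) / Nat.totient d) ^ 2)
    (h3 : ∀ X : ℕ, ∑ d ∈ Icc 1 X, ((d : ℝ) / Nat.totient d) ^ 4 ≤ C₃ * X)
    {P R β M E2 s : ℝ} {Z : ℕ} (hP : 2 ≤ P) (hR : 1 ≤ R) (hZ : 1 ≤ Z) (hM : 0 < M)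
    (hE : 0 ≤ E2) (F : Finset (ℕ × ℕ))
    (hF : ∀ x ∈ F, Z ≤ x.1 ∧ x.1 < 2 * Z ∧ x.1 < x.2 ∧
      (∀ r : ℕ, r.Prime → r ∣ x.1 * x.2 → P ≤ r) ∧ P ≤ x.1 ∧
      |Real.log x.1 - Real.log x.2| ≤ 1 / R ∧
      ∃ j : ℤ, |((x.1 : ℝ) - x.2) * β - j * M| ≤ 2 * (x.1 + x.2) * E2)
    (hs : 0 < s) (hsum : s ≤ ∑ x ∈ F, 1 / ((x.1 : ℝ) * x.2)) :
    ∃ D ⊆ Icc 1 ⌊4 * Z / R⌋₊, (∀ d ∈ D, nd ((d : ℝ) * (β / M)) ≤ 16 * Z * E2 / M) ∧
      (s * Z * (Real.log P) ^ 2 / (2 * C₂)) ^ 2 ≤ #D * (C₃ * (4 * Z / R)) := by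
  have hZ0 : (0 : ℝ) < Z := by exact_mod_cast hZ
  have hR0 : 0 < R := by linarith
  have hlP : 0 < Real.log P := Real.log_pos (by linarith)
  set D : Finset ℕ := (Icc 1 ⌊4 * Z / R⌋₊).filter
    fun d : ℕ => nd ((d : ℝ) * (β / M)) ≤ 16 * Z * E2 / M with hD
  refine ⟨D, filter_subset _ _, fun d hd => (mem_filter.1 hd).2, ?_⟩
  have hd : ∀ x ∈ F, x.2 - x.1 ∈ D := by
    intro x hx
    obtain ⟨a1, a2, a3, -, a5, a6, j, a7⟩ := hF x hx
    have b1 : (0 : ℝ) < x.1 := by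
      have : 1 ≤ x.1 := hZ.trans a1
      exact_mod_cast this
    have b2 : (0 : ℝ) < x.2 := by
      have : 1 ≤ x.2 := by omega
      exact_mod_cast this
    have b3 : (x.1 : ℝ) < 2 * Z := by exact_mod_cast a2
    have c1 : (x.2 : ℝ) ≤ x.1 * (1 + 2 / R) := by
      have h4 : Real.log x.2 ≤ Real.log x.1 + 1 / R := by
        have := (abs_le.1 a6).1
        linarith
      have h5 : (x.2 : ℝ) ≤ Real.exp (Real.log x.1 + 1 / R) := by
        rw [← Real.log_le_iff_le_exp b2]; exact h4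
      rw [Real.exp_add, Real.exp_log b1] at h5
      exact h5.trans (mul_le_mul_of_nonneg_left (exp_le R hR) b1.le)
    have c2 : ((x.2 - x.1 : ℕ) : ℝ) = (x.2 : ℝ) - x.1 := by
      rw [Nat.cast_sub a3.le]
    have c3 : ((x.2 - x.1 : ℕ) : ℝ) ≤ 4 * Z / R := by
      rw [c2]
      have h6 : (x.2 : ℝ) - x.1 ≤ x.1 * (2 / R) := by linarith
      have h7 : (x.1 : ℝ) * (2 / R) ≤ (2 * Z) * (2 / R) :=
        mul_le_mul_of_nonneg_right b3.le (by positivity)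
      calc _ ≤ (2 * (Z : ℝ)) * (2 / R) := h6.trans h7
        _ = 4 * Z / R := by ring
    have c4 : 4 * (Z : ℝ) / R ≤ 4 * Z := by
      rw [div_le_iff₀ hR0]
      nlinarith
    rw [hD, mem_filter, mem_Icc]
    refine ⟨⟨by omega, Nat.le_floor c3⟩, ?_⟩
    have h8 := nd_le (((x.2 - x.1 : ℕ) : ℝ) * (β / M)) (-j)
    refine h8.trans ?_
    have h9 : ((x.2 - x.1 : ℕ) : ℝ) * (β / M) - ((-j : ℤ) : ℝ) =
        -((((x.1 : ℝ) - x.2) * β - j * M) / M) := by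
      rw [c2]
      push_cast
      field_simp
      ring
    rw [h9, abs_neg, abs_div, abs_of_pos hM]
    refine div_le_div_of_nonneg_right (a7.trans ?_) hM.le
    have h10 : (x.1 : ℝ) + x.2 ≤ 8 * Z := by
      have : (x.2 : ℝ) ≤ x.1 + 4 * Z := by
        rw [c2] at c3
        linarith
      linarith
    nlinarith
  -- the number of elements
  have hcard : (#F : ℝ) ≤ ∑ d ∈ D, C₂ * (2 * Z : ℕ) / (Real.log P) ^ 2 *
      ((d : ℝ) / Nat.totient d) ^ 2 := by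
    rcases F.eq_empty_or_nonempty with h0 | ⟨y, hy⟩
    · rw [h0, card_empty, Nat.cast_zero]
      exact sum_nonneg fun _ _ => by positivity
    have hPX : P ≤ ((2 * Z : ℕ) : ℝ) := by
      obtain ⟨-, a2, -, -, a5, -⟩ := hF y hy
      exact a5.trans (by exact_mod_cast a2.le)
    have hsub : F ⊆ D.biUnion fun d => ((Icc 1 (2 * Z)).filter
        fun n : ℕ => ∀ r : ℕ, r.Prime → r ∣ n * (n + d) → P ≤ r).image fun n => (n, n + d) := by
      intro x hx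
      obtain ⟨a1, a2, a3, a4, -⟩ := hF x hx
      rw [mem_biUnion]
      refine ⟨x.2 - x.1, hd x hx, ?_⟩
      rw [mem_image]
      have e : x.1 + (x.2 - x.1) = x.2 := by omega
      refine ⟨x.1, ?_, by rw [e]⟩
      rw [mem_filter, mem_Icc, e]
      exact ⟨⟨by omega, a2.le⟩, a4⟩
    calc (#F : ℝ) ≤ #(D.biUnion fun d => ((Icc 1 (2 * Z)).filter
        fun n : ℕ => ∀ r : ℕ, r.Prime → r ∣ n * (n + d) → P ≤ r).image fun n => (n, n + d)) := by
          exact_mod_cast card_le_card hsub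
      _ ≤ ∑ d ∈ D, (#((Icc 1 (2 * Z)).filter
        fun n : ℕ => ∀ r : ℕ, r.Prime → r ∣ n * (n + d) → P ≤ r) : ℝ) := by
          have h4 := card_biUnion_le (s := D) (t := fun d => ((Icc 1 (2 * Z)).filter
            fun n : ℕ => ∀ r : ℕ, r.Prime → r ∣ n * (n + d) → P ≤ r).image fun n => (n, n + d))
          have h5 : ∑ d ∈ D, #(((Icc 1 (2 * Z)).filter
            fun n : ℕ => ∀ r : ℕ, r.Prime → r ∣ n * (n + d) → P ≤ r).image fun n => (n, n + d)) ≤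
            ∑ d ∈ D, #((Icc 1 (2 * Z)).filter
              fun n : ℕ => ∀ r : ℕ, r.Prime → r ∣ n * (n + d) → P ≤ r) :=
            sum_le_sum fun d _ => card_image_le
          exact_mod_cast h4.trans h5
      _ ≤ _ := by
          refine sum_le_sum fun d hdD => ?_
          have := (mem_Icc.1 (mem_filter.1 hdD).1).1
          exact h2 P (2 * Z) d hP hPX this
  have hs2 : s ≤ #F / (Z : ℝ) ^ 2 := by
    refine hsum.trans ?_
    calc ∑ x ∈ F, 1 / ((x.1 : ℝ) * x.2) ≤ ∑ _x ∈ F, 1 / (Z : ℝ) ^ 2 := by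
          refine sum_le_sum fun x hx => ?_
          obtain ⟨a1, a2, a3, -⟩ := hF x hx
          have b1 : (Z : ℝ) ≤ x.1 := by exact_mod_cast a1
          have b2 : (Z : ℝ) ≤ x.2 := by exact_mod_cast a1.trans a3.le
          rw [sq]
          exact one_div_le_one_div_of_le (by positivity) (mul_le_mul b1 b2 hZ0.le (by linarith))
      _ = #F / (Z : ℝ) ^ 2 := by rw [sum_const, nsmul_eq_mul]; ring
  have hsd : s * Z * (Real.log P) ^ 2 / (2 * C₂) ≤ ∑ d ∈ D, ((d : ℝ) / Nat.totient d) ^ 2 := by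
    rw [← mul_sum] at hcard
    rw [le_div_iff₀ (by positivity)] at hs2
    have h4 := hs2.trans hcard
    rw [div_le_iff₀ (by positivity)]
    have h5 : s * Z * (Real.log P) ^ 2 = s * (Z : ℝ) ^ 2 * (Real.log P) ^ 2 / Z := by
      field_simp
    rw [h5, div_le_iff₀ hZ0]
    calc s * (Z : ℝ) ^ 2 * (Real.log P) ^ 2 ≤ (C₂ * ((2 * Z : ℕ) : ℝ) / (Real.log P) ^ 2 *
          ∑ d ∈ D, ((d : ℝ) / Nat.totient d) ^ 2) * (Real.log P) ^ 2 :=
          mul_le_mul_of_nonneg_right h4 (by positivity)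
      _ = _ := by push_cast; field_simp
  have hcs := sq_sum_le_card_mul_sum_sq (s := D) (f := fun d : ℕ => ((d : ℝ) / Nat.totient d) ^ 2)
  have h4 : ∑ d ∈ D, (((d : ℝ) / Nat.totient d) ^ 2) ^ 2 ≤ C₃ * (4 * Z / R) := by
    calc _ = ∑ d ∈ D, ((d : ℝ) / Nat.totient d) ^ 4 := sum_congr rfl fun d _ => by ring
      _ ≤ ∑ d ∈ Icc 1 ⌊4 * Z / R⌋₊, ((d : ℝ) / Nat.totient d) ^ 4 :=
          sum_le_sum_of_subset_of_nonneg (filter_subset _ _) fun _ _ _ => by positivity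
      _ ≤ C₃ * (⌊4 * Z / R⌋₊ : ℝ) := h3 _
      _ ≤ C₃ * (4 * Z / R) := by
          have hC₃ : 0 ≤ C₃ := by
            have := h3 1
            have h6 : (0 : ℝ) ≤ ∑ d ∈ Icc (1 : ℕ) 1, ((d : ℝ) / Nat.totient d) ^ 4 :=
              sum_nonneg fun _ _ => by positivity
            rw [Nat.cast_one, mul_one] at this
            exact h6.trans this
          exact mul_le_mul_of_nonneg_left (Nat.floor_le (by positivity)) hC₃
  calc (s * Z * (Real.log P) ^ 2 / (2 * C₂)) ^ 2 ≤ (∑ d ∈ D, ((d : ℝ) / Nat.totient d) ^ 2) ^ 2 :=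
        pow_le_pow_left₀ (by positivity) hsd 2
    _ ≤ _ := hcs.trans (mul_le_mul_of_nonneg_left h4 (Nat.cast_nonneg _))

lemma core (hS : SV2_stmt) (hP : PHI_stmt) (κ₁ κ₂ A c : ℝ) (k : ℕ) (hκ : 0 < κ₁) (hc : 0 < c)
    (hk : 1 ≤ k) (hA : A + 1 ≤ 2 * k * κ₁) (hA0 : 0 ≤ A) :
    ∃ Q₁ : ℕ, 1 ≤ Q₁ ∧ ∃ C : ℝ, 0 < C ∧ ∃ H₀ : ℝ, ∀ H : ℝ, H₀ ≤ H →
    ∀ R β M E2 : ℝ, 1 ≤ R → R ≤ H ^ A → 0 < M → 0 ≤ E2 → H ^ (2 * k * κ₂ + 1) * E2 ≤ M →
    ∀ Nn : Finset (ℕ × ℕ), (∀ x ∈ Nn, Close (H ^ κ₁) (H ^ κ₂) R β M E2 k x) →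
    (∀ x ∈ Nn, x.1 < x.2) →
    c / (R * Real.log H) ≤ ∑ x ∈ Nn, 1 / ((x.1 : ℝ) * x.2) →
    ∃ q : ℕ, 1 ≤ q ∧ q ≤ Q₁ ∧ ∃ j : ℤ, |(q : ℝ) * β - j * M| ≤ C * R * E2 := by
  classical
  obtain ⟨C₂, hC₂, h2⟩ := hS
  obtain ⟨C₃, hC₃, h3⟩ := hP
  set C₁ : ℝ := 3 * k * |κ₂| + 1 with hC₁
  have hC₁0 : 1 ≤ C₁ := by rw [hC₁]; have : 0 ≤ 3 * (k : ℝ) * |κ₂| := by positivity
                           linarith
  set c₄ : ℝ := c * κ₁ ^ 2 / (2 * C₁ * C₂) with hc₄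
  have hc₄0 : 0 < c₄ := by positivity
  set κ : ℝ := c₄ ^ 2 / (16 * C₃) with hκd
  have hκ0 : 0 < κ := by positivity
  refine ⟨⌈6 / κ⌉₊, Nat.one_le_ceil_iff.2 (by positivity), 8 / κ, by positivity,
    max (max (Real.exp 1) (4 / κ)) (max (1024 / κ) ((2 : ℝ) ^ (1 / κ₁))), ?_⟩
  intro H hH R β M E2 hR hRA hM hE hME Nn hN hlt hsum
  have hH1 : Real.exp 1 ≤ H := (le_max_left _ _).trans ((le_max_left _ _).trans hH)
  have hH2 : 4 / κ ≤ H := (le_max_right _ _).trans ((le_max_left _ _).trans hH)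
  have hH3 : 1024 / κ ≤ H := (le_max_left _ _).trans ((le_max_right _ _).trans hH)
  have hH4 : (2 : ℝ) ^ (1 / κ₁) ≤ H := (le_max_right _ _).trans ((le_max_right _ _).trans hH)
  have he : 2 < Real.exp 1 := lt_trans (by norm_num) Real.exp_one_gt_d9
  have hH0 : 0 < H := by linarith
  have hH1' : 1 ≤ H := by linarith
  have hL1 : 1 ≤ Real.log H := by
    rw [Real.le_log_iff_exp_le hH0]; exact hH1
  set L := Real.log H with hL
  have hL0 : 0 < L := by linarith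
  have hR0 : 0 < R := by linarith
  have hP2 : 2 ≤ H ^ κ₁ := by
    have h4 : ((2 : ℝ) ^ (1 / κ₁)) ^ κ₁ ≤ H ^ κ₁ :=
      Real.rpow_le_rpow (by positivity) hH4 hκ.le
    rwa [← Real.rpow_mul (by norm_num), one_div, inv_mul_cancel₀ hκ.ne', Real.rpow_one] at h4
  have hP1 : 1 ≤ H ^ κ₁ := by linarith
  have hlogP : Real.log (H ^ κ₁) = κ₁ * L := Real.log_rpow hH0 _
  have hpk : (H ^ κ₁) ^ (2 * k) = H ^ (2 * k * κ₁) := by
    rw [← Real.rpow_natCast, ← Real.rpow_mul hH0.le]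
    congr 1
    push_cast
    ring
  have hpk2 : (H ^ κ₂) ^ (2 * k) = H ^ (2 * k * κ₂) := by
    rw [← Real.rpow_natCast, ← Real.rpow_mul hH0.le]
    congr 1
    push_cast
    ring
  -- the dyadic blocks
  set m : ℕ := ⌊3 * k * |κ₂| * L⌋₊ + 1 with hm
  have hmC : (m : ℝ) ≤ C₁ * L := by
    rw [hm, hC₁]
    push_cast
    have := Nat.floor_le (show 0 ≤ 3 * (k : ℝ) * |κ₂| * L by positivity)
    nlinarith
  have hm0 : (0 : ℝ) < m := by rw [hm]; positivity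
  have hlog : ∀ x ∈ Nn, Nat.log 2 x.1 ∈ range m := by
    intro x hx
    have h4 := hN x hx
    have b1 : (1 : ℝ) ≤ x.1 := le_trans (one_le_pow₀ hP1) h4.l1
    have b0 : x.1 ≠ 0 := by
      intro h0
      rw [h0] at b1
      norm_num at b1
    have h5 : ((2 ^ Nat.log 2 x.1 : ℕ) : ℝ) ≤ H ^ (2 * k * κ₂) := by
      have h6 : ((2 ^ Nat.log 2 x.1 : ℕ) : ℝ) ≤ x.1 := by
        exact_mod_cast Nat.pow_log_le_self 2 b0
      have h7 := h4.u1
      rw [hpk2] at h7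
      exact h6.trans h7
    have h6 : (Nat.log 2 x.1 : ℝ) * Real.log 2 ≤ 2 * k * κ₂ * L := by
      have h7 := Real.log_le_log (by positivity) h5
      rw [Real.log_rpow hH0] at h7
      push_cast at h7
      rwa [Real.log_pow] at h7
    have h7 : (Nat.log 2 x.1 : ℝ) ≤ 3 * k * |κ₂| * L := by
      have h8 : (0.6931471803 : ℝ) < Real.log 2 := Real.log_two_gt_d9
      have h9 : 2 * (k : ℝ) * κ₂ * L ≤ 2 * k * |κ₂| * L := by
        have := le_abs_self κ₂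
        gcongr
      have h10 : 0 ≤ (k : ℝ) * |κ₂| * L := by positivity
      have h11 : (0 : ℝ) ≤ (Nat.log 2 x.1 : ℝ) := Nat.cast_nonneg _
      nlinarith
    rw [mem_range, hm]
    exact Nat.lt_succ_of_le (Nat.le_floor h7)
  have hfib := sum_fiberwise_of_maps_to (g := fun x : ℕ × ℕ => Nat.log 2 x.1) hlog
    (fun x => 1 / ((x.1 : ℝ) * x.2))
  obtain ⟨i, -, hi⟩ : ∃ i ∈ range m, c / (R * L) / m ≤
      ∑ x ∈ Nn with Nat.log 2 x.1 = i, 1 / ((x.1 : ℝ) * x.2) := by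
    refine exists_le_of_sum_le (s := range m) ⟨0, mem_range.2 (by omega)⟩ ?_
    rw [hfib, sum_const, card_range, nsmul_eq_mul, mul_div_cancel₀ _ hm0.ne']
    exact hsum
  set F := Nn.filter fun x => Nat.log 2 x.1 = i with hF
  set Z : ℕ := 2 ^ i with hZ
  have hZ1 : 1 ≤ Z := Nat.one_le_two_pow
  have hs0 : 0 < c / (R * L) / m := by positivity
  have hFp : ∀ x ∈ F, (Z ≤ x.1 ∧ x.1 < 2 * Z) ∧ H ^ (A + 1) ≤ x.1 ∧
      (x.1 : ℝ) ≤ H ^ (2 * k * κ₂) ∧ H ^ κ₁ ≤ x.1 := by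
    intro x hx
    rw [hF, mem_filter] at hx
    have h4 := hN x hx.1
    have h5 := h4.l1
    have b1 : (1 : ℝ) ≤ x.1 := le_trans (one_le_pow₀ hP1) h5
    have b0 : x.1 ≠ 0 := by
      intro h0
      rw [h0] at b1
      norm_num at b1
    refine ⟨⟨?_, ?_⟩, ?_, ?_, ?_⟩
    · rw [hZ, ← hx.2]; exact Nat.pow_log_le_self 2 b0
    · have := Nat.lt_pow_succ_log_self (b := 2) (by norm_num) x.1
      rw [hx.2, Nat.succ_eq_add_one, pow_succ] at this
      rw [hZ]; omega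
    · rw [hpk] at h5
      exact (Real.rpow_le_rpow_of_exponent_le hH1' hA).trans h5
    · have h6 := h4.u1
      rwa [hpk2] at h6
    · refine le_trans ?_ h5
      exact le_self_pow₀ hP1 (by omega)
  have hFne : F.Nonempty := by
    rw [nonempty_iff_ne_empty]
    intro h0
    rw [h0, sum_empty] at hi
    linarith
  obtain ⟨y, hy⟩ := hFne
  obtain ⟨⟨y1, y2⟩, y3, y4, -⟩ := hFp y hy
  have hZ0 : (0 : ℝ) < Z := by exact_mod_cast hZ1
  have hZR : H ≤ 2 * Z / R := by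
    rw [le_div_iff₀ hR0]
    have y5 : (y.1 : ℝ) < 2 * Z := by exact_mod_cast y2
    calc H * R ≤ H * H ^ A := mul_le_mul_of_nonneg_left hRA hH0.le
      _ = H ^ (A + 1) := by rw [Real.rpow_add hH0, Real.rpow_one, mul_comm]
      _ ≤ 2 * Z := by linarith
  have hZE : 16 * Z * E2 / M ≤ 16 / H := by
    have y6 : (Z : ℝ) ≤ H ^ (2 * k * κ₂) := le_trans (by exact_mod_cast y1) y4
    rw [div_le_div_iff₀ hM hH0]
    have h4 : H ^ (2 * k * κ₂ + 1) = H ^ (2 * k * κ₂) * H := by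
      rw [Real.rpow_add hH0, Real.rpow_one]
    rw [h4] at hME
    have h5 : (Z : ℝ) * H * E2 ≤ H ^ (2 * k * κ₂) * H * E2 := by gcongr
    nlinarith
  obtain ⟨D, hD1, hD2, hD3⟩ := block (P := H ^ κ₁) (R := R) (β := β) (M := M) (E2 := E2) (Z := Z)
    hC₂ h2 h3 hP2 hR hZ1 hM hE F (by
      intro x hx
      obtain ⟨⟨a1, a2⟩, -, -, a3⟩ := hFp x hx
      have hx' := (mem_filter.1 hx).1
      have h4 := hN x hx'
      exact ⟨a1, a2, hlt x hx', h4.rough, a3, h4.near, h4.rel⟩) hs0 hi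
  rw [hlogP] at hD3
  -- the lower bound for `D`
  have hDc : c₄ ^ 2 * (Z / R) / (4 * C₃) ≤ #D := by
    have h4 : c₄ * (Z / R) ≤ c / (R * L) / m * Z * (κ₁ * L) ^ 2 / (2 * C₂) := by
      have h5 : c₄ * (Z / R) = c / (R * L) / (C₁ * L) * Z * (κ₁ * L) ^ 2 / (2 * C₂) := by
        rw [hc₄]
        field_simp
      rw [h5]
      gcongr
    have h6 : (c₄ * (Z / R)) ^ 2 ≤ #D * (C₃ * (4 * Z / R)) :=
      (pow_le_pow_left₀ (by positivity) h4 2).trans hD3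
    rw [div_le_iff₀ (by positivity)]
    have h7 : (0 : ℝ) < Z / R := by positivity
    have h8 : c₄ ^ 2 * (Z / R) * (Z / R) ≤ #D * (4 * C₃) * (Z / R) := by
      calc _ = (c₄ * (Z / R)) ^ 2 := by ring
        _ ≤ #D * (C₃ * (4 * Z / R)) := h6
        _ = _ := by ring
    exact le_of_mul_le_mul_right h8 h7
  set Mv : ℕ := ⌊4 * Z / R⌋₊ with hMv
  have hMv1 : (Mv : ℝ) ≤ 4 * Z / R := Nat.floor_le (by positivity)
  have hMv2 : 2 * Z / R ≤ Mv := by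
    have h4 := Nat.lt_floor_add_one (4 * (Z : ℝ) / R)
    rw [← hMv] at h4
    have h5 : 4 * (Z : ℝ) / R = 2 * (2 * Z / R) := by ring
    rw [h5] at h4
    linarith
  have hκM : κ * Mv ≤ #D := by
    refine le_trans ?_ hDc
    calc κ * Mv ≤ κ * (4 * Z / R) := mul_le_mul_of_nonneg_left hMv1 hκ0.le
      _ = _ := by rw [hκd]; field_simp; ring
  have h4κ : 4 ≤ κ * Mv := by
    rw [div_le_iff₀ hκ0] at hH2
    calc (4 : ℝ) ≤ H * κ := hH2
      _ ≤ (2 * Z / R) * κ := mul_le_mul_of_nonneg_right hZR hκ0.le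
      _ ≤ κ * Mv := by rw [mul_comm]; exact mul_le_mul_of_nonneg_left hMv2 hκ0.le
  have hδ : 16 * Z * E2 / M ≤ κ / 64 := by
    refine hZE.trans ?_
    rw [div_le_iff₀ hκ0] at hH3
    rw [div_le_div_iff₀ hH0 (by norm_num)]
    linarith
  obtain ⟨q, hq1, hq2, hq3⟩ := vino (β / M) κ (16 * Z * E2 / M) Mv D hD1 hκ0 h4κ (by positivity)
    hδ hκM hD2
  refine ⟨q, hq1, ?_, ?_⟩
  · have := hq2.trans (Nat.le_ceil _)
    exact_mod_cast this
  · obtain ⟨j, hj⟩ := nd_exists ((q : ℝ) * (β / M))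
    refine ⟨j, ?_⟩
    have h4 : (q : ℝ) * β - j * M = ((q : ℝ) * (β / M) - j) * M := by
      field_simp
    rw [h4, abs_mul, abs_of_pos hM, ← hj]
    calc nd ((q : ℝ) * (β / M)) * M ≤ (16 * Z * E2 / M / (κ * Mv)) * M :=
          mul_le_mul_of_nonneg_right hq3 hM.le
      _ = 16 * Z * E2 / (κ * Mv) := by field_simp
      _ ≤ 16 * Z * E2 / (κ * (2 * Z / R)) := by
          refine div_le_div_of_nonneg_left (by positivity) (by positivity) ?_
          exact mul_le_mul_of_nonneg_left hMv2 hκ0.le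
      _ = 8 / κ * R * E2 := by field_simp; ring

lemma close_swap {P1 P2 R β M E2 : ℝ} {k : ℕ} {x : ℕ × ℕ} (h : Close P1 P2 R β M E2 k x) :
    Close P1 P2 R β M E2 k x.swap := by
  obtain ⟨h1, h2, h3, h4, h5, h6, j, h7⟩ := h
  refine ⟨?_, h4, h5, h2, h3, ?_, -j, ?_⟩
  · intro r hr hd
    refine h1 r hr ?_
    rwa [Prod.fst_swap, Prod.snd_swap, mul_comm] at hd
  · rw [Prod.fst_swap, Prod.snd_swap, abs_sub_comm]; exact h6
  · rw [Prod.fst_swap, Prod.snd_swap, ← abs_neg, add_comm (x.2 : ℝ)]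
    refine le_trans (le_of_eq ?_) h7
    congr 1
    push_cast
    ring

end NTr

open NTr in
theorem nt : SV2_stmt → PHI_stmt → NT_stmt := by
  classical
  intro hS hP κ₁ κ₂ A c k hκ hc hk hA hA0
  obtain ⟨Q₁, hQ₁, C, hC, H₀, hcore⟩ := core hS hP κ₁ κ₂ A (c / 4) k hκ (by positivity) hk hA hA0
  obtain ⟨H₁, hH₁⟩ := Filter.eventually_atTop.1
    (Real.isLittleO_log_id_atTop.bound (show 0 < c / 4 by positivity))
  refine ⟨Q₁, hQ₁, C, hC, max (max H₀ H₁) (max (Real.exp 1) ((2 : ℝ) ^ (1 / κ₁))), ?_⟩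
  intro H hH R β M E2 hR hRA hM hE hME Nn hN hsum
  have hH2 : H₀ ≤ H := (le_max_left _ _).trans ((le_max_left _ _).trans hH)
  have hH3 : H₁ ≤ H := (le_max_right _ _).trans ((le_max_left _ _).trans hH)
  have hH4 : Real.exp 1 ≤ H := (le_max_left _ _).trans ((le_max_right _ _).trans hH)
  have hH5 : (2 : ℝ) ^ (1 / κ₁) ≤ H := (le_max_right _ _).trans ((le_max_right _ _).trans hH)
  have he : 2 < Real.exp 1 := lt_trans (by norm_num) Real.exp_one_gt_d9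
  have hH0 : 0 < H := by linarith
  have hH1' : 1 ≤ H := by linarith
  have hL1 : 1 ≤ Real.log H := by
    rw [Real.le_log_iff_exp_le hH0]; exact hH4
  have hLH : Real.log H ≤ c / 4 * H := by
    have h4 := hH₁ H hH3
    rw [Real.norm_of_nonneg (by linarith), id, Real.norm_of_nonneg hH0.le] at h4
    exact h4
  set L := Real.log H with hL
  have hL0 : 0 < L := by linarith
  have hR0 : 0 < R := by linarith
  have hP2 : 2 ≤ H ^ κ₁ := by
    have h4 : ((2 : ℝ) ^ (1 / κ₁)) ^ κ₁ ≤ H ^ κ₁ :=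
      Real.rpow_le_rpow (by positivity) hH5 hκ.le
    rwa [← Real.rpow_mul (by norm_num), one_div, inv_mul_cancel₀ hκ.ne', Real.rpow_one] at h4
  have hP1 : 1 ≤ H ^ κ₁ := by linarith
  have hpk : (H ^ κ₁) ^ (2 * k) = H ^ (2 * k * κ₁) := by
    rw [← Real.rpow_natCast, ← Real.rpow_mul hH0.le]
    congr 1
    push_cast
    ring
  have hB : 2 ≤ (H ^ κ₁) ^ (2 * k) := hP2.trans (le_self_pow₀ hP1 (by omega))
  -- the three parts
  set Se := Nn.filter fun x => x.1 = x.2 with hSe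
  set Sl := Nn.filter fun x => x.1 < x.2 with hSl
  set Sg := Nn.filter fun x => x.2 < x.1 with hSg
  have hsplit : ∑ x ∈ Nn, 1 / ((x.1 : ℝ) * x.2) = ∑ x ∈ Se, 1 / ((x.1 : ℝ) * x.2) +
      ∑ x ∈ Sl, 1 / ((x.1 : ℝ) * x.2) + ∑ x ∈ Sg, 1 / ((x.1 : ℝ) * x.2) := by
    rw [hSe, hSl, hSg, sum_filter, sum_filter, sum_filter, ← sum_add_distrib, ← sum_add_distrib]
    refine sum_congr rfl fun x _ => ?_
    rcases lt_trichotomy x.1 x.2 with h | h | h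
    · rw [if_neg h.ne, if_pos h, if_neg h.not_gt]; ring
    · rw [if_pos h, if_neg (by omega), if_neg (by omega)]; ring
    · rw [if_neg h.ne', if_neg h.not_gt, if_pos h]; ring
  have hdiag := diag ((H ^ κ₁) ^ (2 * k)) hB Se (by
    intro x hx
    rw [hSe, mem_filter] at hx
    exact ⟨hx.2, (hN x hx.1).l1⟩)
  have hdiag2 : 2 / (H ^ κ₁) ^ (2 * k) ≤ c / (R * L) / 2 := by
    have h4 : R * H ≤ (H ^ κ₁) ^ (2 * k) := by
      rw [hpk]
      calc R * H ≤ H ^ A * H := mul_le_mul_of_nonneg_right hRA hH0.le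
        _ = H ^ (A + 1) := by rw [Real.rpow_add hH0, Real.rpow_one]
        _ ≤ _ := Real.rpow_le_rpow_of_exponent_le hH1' hA
    calc 2 / (H ^ κ₁) ^ (2 * k) ≤ 2 / (R * H) :=
          div_le_div_of_nonneg_left (by norm_num) (by positivity) h4
      _ ≤ c / (R * L) / 2 := by
          rw [div_div, div_le_div_iff₀ (by positivity) (by positivity)]
          have : R * L ≤ R * (c / 4 * H) := mul_le_mul_of_nonneg_left hLH hR0.le
          linarith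
  have e4 : c / 4 / (R * L) = c / (R * L) / 4 := by ring
  have hor : c / 4 / (R * L) ≤ ∑ x ∈ Sl, 1 / ((x.1 : ℝ) * x.2) ∨
      c / 4 / (R * L) ≤ ∑ x ∈ Sg, 1 / ((x.1 : ℝ) * x.2) := by
    by_contra hno
    rw [not_or, not_le, not_le] at hno
    rw [hsplit] at hsum
    rw [e4] at hno
    linarith [hno.1, hno.2]
  rcases hor with h | h
  · exact hcore H hH2 R β M E2 hR hRA hM hE hME Sl
      (fun x hx => hN x (mem_filter.1 hx).1) (fun x hx => (mem_filter.1 hx).2) h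
  · refine hcore H hH2 R β M E2 hR hRA hM hE hME (Sg.image Prod.swap) ?_ ?_ ?_
    · intro x hx
      rw [mem_image] at hx
      obtain ⟨y, hy, rfl⟩ := hx
      exact close_swap (hN y (mem_filter.1 hy).1)
    · intro x hx
      rw [mem_image] at hx
      obtain ⟨y, hy, rfl⟩ := hx
      exact (mem_filter.1 hy).2
    · rw [sum_image fun x _ y _ hxy => Prod.swap_injective hxy]
      refine h.trans (le_of_eq (sum_congr rfl fun x _ => ?_))
      rw [Prod.fst_swap, Prod.snd_swap, mul_comm]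

end Pool.Agent.SV
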