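import Pool.Agent.Lib.SV.Defs

/-!
# Theorem V: row P0 (the lift exists).  (helper28)
-/

set_option autoImplicit false
open Finset MeasureTheory

namespace Pool.Agent.SV

theorem Sys.OK.pp_coprime {s : Sys} {P1 P2 R : ℝ} (h : s.OK P1 P2 R) {m : ℕ} {q : Fin m → ℕ}
    (hq : Function.Injective q) (hm : ∀ i, q i ∈ s.PP) :
    ∀ i j, i ≠ j → Nat.Coprime (q i) (q j) := by
  intro i j hij
  exact (Nat.coprime_primes (h.prime _ (hm i)) (h.prime _ (hm j))).2 fun e => hij (hq e)

/-- Row P0. -/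
theorem p0 : P0_stmt := by
  classical
  intro s P1 P2 R h m q hq hm
  have key : ∀ u : ℝ, ∃ β : ℝ, (∀ i, u ∈ s.G (q i)) → (∃ k : ℤ, β = s.b u + k) ∧
      ∀ i, ∃ k : ℤ, |β - q i * s.al (u + Real.log (q i)) - q i * k| ≤ s.tau := by
    intro u
    by_cases hu : ∀ i, u ∈ s.G (q i)
    · have h1 : ∀ i, ∃ k : ℤ, |(q i : ℝ) * s.al (u + Real.log (q i)) - s.b u - k| ≤ s.tau :=
        fun i => h.good _ _ (hu i)
      choose k hk using h1
      -- Chinese remainder theorem
      have hco : Pairwise (Function.onFun IsCoprime fun i : Fin m =>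
          Ideal.span {((q i : ℕ) : ℤ)}) := by
        intro i j hij
        exact (Ideal.isCoprime_span_singleton_iff _ _).2
          (Nat.isCoprime_iff_coprime.2 (h.pp_coprime hq hm i j hij))
      obtain ⟨K, hK⟩ : ∃ K : ℤ, ∀ i, ((q i : ℕ) : ℤ) ∣ K - k i := by
        obtain ⟨K, hK⟩ := Ideal.exists_forall_sub_mem_ideal hco k
        exact ⟨K, fun i => Ideal.mem_span_singleton.1 (hK i)⟩
      refine ⟨s.b u + K, fun _ => ⟨⟨K, rfl⟩, fun i => ?_⟩⟩
      obtain ⟨t, ht⟩ := hK i
      refine ⟨t, ?_⟩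
      have h2 : (K : ℝ) = k i + q i * t := by
        have h3 : K = k i + ((q i : ℕ) : ℤ) * t := by linarith
        exact_mod_cast h3
      have h3 : s.b u + (K : ℝ) - q i * s.al (u + Real.log (q i)) - q i * t
          = -((q i : ℝ) * s.al (u + Real.log (q i)) - s.b u - k i) := by
        rw [h2]; ring
      rw [h3, abs_neg]
      exact hk i
    · exact ⟨0, fun h => absurd h hu⟩
  choose β hβ using key
  exact ⟨β, fun u hu => hβ u hu⟩

end Pool.Agent.SV
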