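import Pool.Agent.Lib.SV.P0

/-!
# Theorem V: rows P1 and P2 (the relations along an edge and for equal steps).  (helper28)
-/

set_option autoImplicit false
open Finset MeasureTheory

namespace Pool.Agent.SV

/-- A number close to a multiple of each of finitely many distinct primes. -/
theorem near_prod {m : ℕ} (hm : 1 ≤ m) (q : Fin m → ℕ) (hq : ∀ i j, i ≠ j → Nat.Coprime (q i) (q j))
    {D E : ℝ} (hE : E < 1 / 2) (h : ∀ i, ∃ k : ℤ, |D - q i * k| ≤ E) :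
    ∃ k : ℤ, |D - k * ((∏ i, q i : ℕ) : ℝ)| ≤ E := by
  classical
  choose k hk using h
  have i0 : Fin m := ⟨0, hm⟩
  set n : ℤ := (q i0 : ℤ) * k i0 with hn
  have h1 : ∀ i, (q i : ℤ) * k i = n := by
    intro i
    have h2 := abs_le.1 (hk i)
    have h3 := abs_le.1 (hk i0)
    have h4 : |(((q i : ℤ) * k i - n : ℤ) : ℝ)| < 1 := by
      rw [hn]
      push_cast
      rw [abs_lt]
      constructor <;> linarith [h2.1, h2.2, h3.1, h3.2]
    have h5 : |(q i : ℤ) * k i - n| < 1 := by exact_mod_cast h4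
    have h6 := Int.abs_lt_one_iff.1 h5
    linarith
  have h2 : ((∏ i, q i : ℕ) : ℤ) ∣ n := by
    push_cast
    refine Finset.prod_dvd_of_coprime ?_ fun i _ => ⟨k i, (h1 i).symm⟩
    intro i _ j _ hij
    exact Nat.isCoprime_iff_coprime.2 (hq i j hij)
  obtain ⟨t, ht⟩ := h2
  refine ⟨t, ?_⟩
  have h3 : ((t : ℝ)) * ((∏ i, q i : ℕ) : ℝ) = q i0 * k i0 := by
    have h4 : t * ((∏ i, q i : ℕ) : ℤ) = (q i0 : ℤ) * k i0 := by rw [mul_comm, ← ht]
    exact_mod_cast h4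
  rw [h3]
  exact hk i0

/-- Row P1. -/
theorem p1 : P1_stmt := by
  intro s P1 P2 R h h8 m q hm hq hqm β hβ cell p hp p' hp' z hz
  have hE : 4 * P2 * s.tau < 1 / 2 := by linarith
  refine near_prod hm q (h.pp_coprime hq hqm) hE fun i => ?_
  have hz1 : ∀ i, z + Real.log p ∈ s.G (q i) := fun i => (hz.2 i).1.2
  have hz2 : ∀ i, z + Real.log p' ∈ s.G (q i) := fun i => (hz.2 i).2.2
  obtain ⟨k1, hk1⟩ := (hβ _ hz1).2 i
  obtain ⟨k2, hk2⟩ := (hβ _ hz2).2 i
  obtain ⟨k3, hk3⟩ := h.good _ _ (hz.2 i).1.1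
  obtain ⟨k4, hk4⟩ := h.good _ _ (hz.2 i).2.1
  have e1 : z + Real.log (q i) + Real.log p = z + Real.log p + Real.log (q i) := by ring
  have e2 : z + Real.log (q i) + Real.log p' = z + Real.log p' + Real.log (q i) := by ring
  rw [e1] at hk3
  rw [e2] at hk4
  refine ⟨p * k1 - p' * k2 + (k3 - k4), ?_⟩
  set A := s.al (z + Real.log p + Real.log (q i)) with hA
  set A' := s.al (z + Real.log p' + Real.log (q i)) with hA'
  set B := s.b (z + Real.log (q i)) with hB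
  have hp0 : (0 : ℝ) ≤ p := Nat.cast_nonneg _
  have hp0' : (0 : ℝ) ≤ p' := Nat.cast_nonneg _
  have hq0 : (0 : ℝ) ≤ q i := Nat.cast_nonneg _
  have e3 : (p : ℝ) * β (z + Real.log p) - p' * β (z + Real.log p')
      - q i * ((p * k1 - p' * k2 + (k3 - k4) : ℤ) : ℝ)
      = p * (β (z + Real.log p) - q i * A - q i * k1)
        - p' * (β (z + Real.log p') - q i * A' - q i * k2)
        + q i * (p * A - B - k3) - q i * (p' * A' - B - k4) := by
    push_cast; ring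
  rw [e3]
  have b1 : |(p : ℝ) * (β (z + Real.log p) - q i * A - q i * k1)| ≤ P2 * s.tau := by
    rw [abs_mul, abs_of_nonneg hp0]
    exact mul_le_mul (h.le _ hp) hk1 (abs_nonneg _) (hp0.trans (h.le _ hp))
  have b2 : |(p' : ℝ) * (β (z + Real.log p') - q i * A' - q i * k2)| ≤ P2 * s.tau := by
    rw [abs_mul, abs_of_nonneg hp0']
    exact mul_le_mul (h.le _ hp') hk2 (abs_nonneg _) (hp0'.trans (h.le _ hp'))
  have b3 : |(q i : ℝ) * (p * A - B - k3)| ≤ P2 * s.tau := by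
    rw [abs_mul, abs_of_nonneg hq0]
    exact mul_le_mul (h.le _ (hqm i)) hk3 (abs_nonneg _) (hq0.trans (h.le _ (hqm i)))
  have b4 : |(q i : ℝ) * (p' * A' - B - k4)| ≤ P2 * s.tau := by
    rw [abs_mul, abs_of_nonneg hq0]
    exact mul_le_mul (h.le _ (hqm i)) hk4 (abs_nonneg _) (hq0.trans (h.le _ (hqm i)))
  rw [abs_le] at b1 b2 b3 b4 ⊢
  constructor <;> linarith [b1.1, b1.2, b2.1, b2.2, b3.1, b3.2, b4.1, b4.2]

/-- Row P2. -/
theorem p2 : P2_stmt := by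
  intro s P1 P2 R h h8 m q hm hq hqm β hβ u v hu hv hal
  have hP2 : 2 ≤ P2 := (h.P1one.trans (h.ge _ (hqm ⟨0, hm⟩))).trans (h.le _ (hqm ⟨0, hm⟩))
  have hE : 2 * s.tau < 1 / 2 := by nlinarith [h.tau0]
  refine near_prod hm q (h.pp_coprime hq hqm) hE fun i => ?_
  obtain ⟨k1, hk1⟩ := (hβ _ hu).2 i
  obtain ⟨k2, hk2⟩ := (hβ _ hv).2 i
  refine ⟨k1 - k2, ?_⟩
  rw [hal i] at hk1
  push_cast
  rw [abs_le] at hk1 hk2 ⊢
  constructor <;> linarith [hk1.1, hk1.2, hk2.1, hk2.2]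

end Pool.Agent.SV
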