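import Pool.Agent.Lib.SV.P12

/-!
# Theorem V: row P3 (the relation along a path).  (helper28)
-/

set_option autoImplicit false
open Finset MeasureTheory

namespace Pool.Agent.SV

theorem mem_paths_cons {ι : Type} [DecidableEq ι] {I : Finset ι} {k : ℕ} {l : List ι}
    (h : l ∈ paths I (k + 1)) : ∃ i l', i ∈ I ∧ l' ∈ paths I k ∧ l = i :: l' := by
  simp only [paths, Finset.mem_image, Finset.mem_product] at h
  obtain ⟨x, ⟨h1, h2⟩, h3⟩ := h
  exact ⟨x.1, x.2, h1, h2, h3.symm⟩

theorem mem_paths_zero {ι : Type} [DecidableEq ι] {I : Finset ι} {l : List ι}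
    (h : l ∈ paths I 0) : l = [] := by simpa [paths] using h

theorem mem_Mv_b {s : Sys} {cell : ℕ → ℕ} {i : ℕ × ℕ} (h : i ∈ Mv s cell) :
    i.1 ∈ s.PP ∧ i.2 ∈ s.PP ∧ cell i.1 = cell i.2 := by
  simp only [Mv, Finset.mem_filter, Finset.mem_product] at h
  exact ⟨h.1.1, h.1.2, h.2⟩

/-- Row P3, from row P1. -/
theorem p3_of (h1 : P1_stmt) : P3_stmt := by
  classical
  intro s P1 P2 R g h h8 hg m q hm hq hqm β hβ cell hc k
  set E : ℝ := 4 * P2 * s.tau with hEd
  set M : ℝ := ((∏ i, q i : ℕ) : ℝ) with hMd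
  have hP1 : 2 ≤ P1 := h.P1one
  have hP2 : 2 ≤ P2 := (h.P1one.trans (h.ge _ (hqm ⟨0, hm⟩))).trans (h.le _ (hqm ⟨0, hm⟩))
  have hE0 : 0 ≤ E := by
    have := h.tau0
    positivity
  have hlg : 0 ≤ Real.log g := Real.log_nonneg hg
  have hpos : ∀ p ∈ s.PP, (0 : ℝ) < p := fun p hp => lt_of_lt_of_le (by linarith) (h.ge p hp)
  have hstep : ∀ i ∈ Mv s cell, |sg i| ≤ Real.log g := by
    intro i hi
    obtain ⟨h2, h3, h4⟩ := mem_Mv_b hi
    have a1 := hc _ h2 _ h3 h4
    have a2 := hc _ h3 _ h2 h4.symm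
    have b1 := Real.log_le_log (hpos _ h2) a1
    have b2 := Real.log_le_log (hpos _ h3) a2
    rw [Real.log_mul (by positivity) (hpos _ h3).ne'] at b1
    rw [Real.log_mul (by positivity) (hpos _ h2).ne'] at b2
    unfold sg
    rw [abs_le]
    constructor <;> linarith
  induction k with
  | zero =>
    intro l hl v _
    rw [mem_paths_zero hl]
    simp only [List.map_nil, List.sum_nil, abs_zero, Nat.cast_zero, zero_mul, le_refl, N1, N2,
      List.prod_nil, Nat.cast_one, Real.log_one, sub_self, true_and, add_zero, one_mul, zero_div]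
    exact ⟨0, by simp⟩
  | succ k ih =>
    intro l hl v hv
    obtain ⟨i, l', hi, hl', rfl⟩ := mem_paths_cons hl
    obtain ⟨hp, hp', hcell⟩ := mem_Mv_b hi
    have hv1 : v ∈ Ed s cell q i := hv.1
    obtain ⟨ih1, ih2, j, ih3⟩ := ih l' hl' (v + sg i) hv.2
    have hz : v - Real.log i.2 ∈ Edge s cell q i.1 i.2 := hv1
    obtain ⟨t, ht⟩ := h1 s P1 P2 R h h8 m q hm hq hqm β hβ cell i.1 hp i.2 hp' _ hz
    have e1 : v - Real.log i.2 + Real.log i.1 = v + sg i := by unfold sg; ring
    have e2 : v - Real.log i.2 + Real.log i.2 = v := by ring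
    rw [e1, e2, ← hMd, ← hEd] at ht
    have p1 := hpos _ hp
    have p2 := hpos _ hp'
    have hN2 : (0 : ℝ) ≤ N2 l' := Nat.cast_nonneg _
    have hN1pos : ∀ (k : ℕ) (l : List (ℕ × ℕ)), l ∈ paths (Mv s cell) k →
        (0 : ℝ) < N1 l ∧ (0 : ℝ) < N2 l := by
      intro k
      induction k with
      | zero => intro l hl; rw [mem_paths_zero hl]; simp [N1, N2]
      | succ k ih' =>
        intro l hl
        obtain ⟨i, l', hi, hl', rfl⟩ := mem_paths_cons hl
        obtain ⟨hp, hp', hcell⟩ := mem_Mv_b hi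
        have := ih' l' hl'
        have a1 := hpos _ hp
        have a2 := hpos _ hp'
        simp only [N1, N2, List.map_cons, List.prod_cons, Nat.cast_mul] at this ⊢
        exact ⟨mul_pos a1 this.1, mul_pos a2 this.2⟩
    have hN := hN1pos k l' hl'
    have hN1e : (N1 (i :: l') : ℝ) = i.1 * N1 l' := by simp [N1]
    have hN2e : (N2 (i :: l') : ℝ) = i.2 * N2 l' := by simp [N2]
    have hsum : ((i :: l').map sg).sum = sg i + (l'.map sg).sum := by simp
    refine ⟨?_, ?_, j * i.1 + t * N2 l', ?_⟩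
    · rw [hsum]
      have a1 := hstep i hi
      have a2 := abs_add_le (sg i) (l'.map sg).sum
      push_cast
      linarith
    · rw [hsum, hN1e, hN2e, Real.log_mul p1.ne' hN.1.ne', Real.log_mul p2.ne' hN.2.ne', ih2]
      unfold sg
      ring
    · rw [hsum, hN1e, hN2e]
      have e3 : v + (sg i + (l'.map sg).sum) = v + sg i + (l'.map sg).sum := by ring
      rw [e3]
      have hgk : (0 : ℝ) < g ^ k := by positivity
      set F := E / P1 with hF
      have hF0 : 0 ≤ F := by positivity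
      have hEF : E ≤ i.2 * F := by
        rw [hF, mul_div_assoc', le_div_iff₀ (by linarith)]
        have := h.ge _ hp'
        nlinarith
      have e4 : (k : ℝ) * g ^ k * E / P1 = k * g ^ k * F := by rw [hF]; ring
      have e5 : (((k + 1 : ℕ) : ℝ)) * g ^ (k + 1) * E / P1 = (k + 1) * g ^ (k + 1) * F := by
        rw [hF]; push_cast; ring
      rw [e4] at ih3
      rw [e5]
      set X := β (v + sg i + (l'.map sg).sum) with hX
      set Y := β (v + sg i) with hY
      have c1 : |(i.1 : ℝ) * (N1 l' * X - N2 l' * Y - j * M)| ≤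
          i.1 * (N2 l' * (k * g ^ k * F)) := by
        rw [abs_mul, abs_of_pos p1]
        exact mul_le_mul_of_nonneg_left ih3 p1.le
      have c2 : |(N2 l' : ℝ) * (i.1 * Y - i.2 * β v - t * M)| ≤ N2 l' * E := by
        rw [abs_mul, abs_of_nonneg hN2]
        exact mul_le_mul_of_nonneg_left ht hN2
      have e6 : (i.1 : ℝ) * N1 l' * X - i.2 * N2 l' * β v - ((j * i.1 + t * N2 l' : ℤ) : ℝ) * M
          = i.1 * (N1 l' * X - N2 l' * Y - j * M)
            + N2 l' * (i.1 * Y - i.2 * β v - t * M) := by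
        push_cast; ring
      rw [e6]
      refine (abs_add_le _ _).trans ((add_le_add c1 c2).trans ?_)
      have c3 : (i.1 : ℝ) ≤ g * i.2 := hc _ hp _ hp' hcell
      have c4 : (i.1 : ℝ) * (N2 l' * (k * g ^ k * F)) ≤ g * i.2 * (N2 l' * (k * g ^ k * F)) :=
        mul_le_mul_of_nonneg_right c3 (by positivity)
      have c5 : (N2 l' : ℝ) * E ≤ N2 l' * (i.2 * F) := mul_le_mul_of_nonneg_left hEF hN2
      have c6 : (1 : ℝ) ≤ g ^ (k + 1) := one_le_pow₀ hg
      have c7 : (N2 l' : ℝ) * (i.2 * F) ≤ N2 l' * (i.2 * F) * g ^ (k + 1) :=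
        le_mul_of_one_le_right (by positivity) c6
      have e7 : (i.2 : ℝ) * N2 l' * ((k + 1) * g ^ (k + 1) * F) =
          g * i.2 * (N2 l' * (k * g ^ k * F)) + N2 l' * (i.2 * F) * g ^ (k + 1) := by
        rw [pow_succ]; ring
      rw [e7]
      linarith

/-- Row P3. -/
theorem p3 : P3_stmt := p3_of p1

end Pool.Agent.SV
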