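import Pool.Agent.Lib.SV.Defs3
import Pool.Agent.Lib.MP_663568_nt.Final

/-!
# Theorem V (MP_663568_nt), row RA: from windows to cells, few jumps.  helper66.
-/

set_option autoImplicit false

section

open Finset

namespace Pool.Agent.SV.RAr

noncomputable section

/-- The step function which follows `α`. -/
def stp (α : ℕ → ℝ) (θ : ℝ) : ℕ → ℝ
  | 0 => α 0
  | n + 1 => if |α (n + 1) - stp α θ n| ≤ θ then stp α θ n else α (n + 1)

theorem stp_near {α : ℕ → ℝ} {θ : ℝ} (hθ : 0 ≤ θ) (n : ℕ) : |α n - stp α θ n| ≤ θ := by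
  cases n with
  | zero => simpa [stp] using hθ
  | succ n =>
    unfold stp
    split_ifs with h
    · exact h
    · simpa using hθ

open Classical in
/-- The number of jumps. -/
theorem stp_jumps {α : ℕ → ℝ} {θ : ℝ} (hθ : 0 ≤ θ) {s t : ℕ} (hst : s ≤ t) :
    θ * #((Ioc s t).filter fun n => stp α θ n ≠ stp α θ (n - 1)) + |α t - stp α θ t| ≤
      θ + ∑ n ∈ Ico s t, |α (n + 1) - α n| := by
  induction t, hst using Nat.le_induction with
  | base =>
    simp
    exact stp_near hθ s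
  | succ t hst ih =>
    have h1 : Ioc s (t + 1) = insert (t + 1) (Ioc s t) := by
      ext x
      simp only [mem_Ioc, mem_insert]
      omega
    have h2 : t + 1 ∉ Ioc s t := by simp
    rw [sum_Ico_succ_top hst, h1, filter_insert]
    have h3 : |α (t + 1) - stp α θ t| ≤ |α (t + 1) - α t| + |α t - stp α θ t| :=
      abs_sub_le _ _ _
    by_cases h : |α (t + 1) - stp α θ t| ≤ θ
    · have h4 : stp α θ (t + 1) = stp α θ t := by
        rw [stp, if_pos h]
      rw [if_neg (by simp [h4])]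
      rw [h4]
      linarith
    · have h4 : stp α θ (t + 1) = α (t + 1) := by
        rw [stp, if_neg h]
      have h5 : ((#(if stp α θ (t + 1) ≠ stp α θ (t + 1 - 1) then
          insert (t + 1) ((Ioc s t).filter fun n => stp α θ n ≠ stp α θ (n - 1)) else
          (Ioc s t).filter fun n => stp α θ n ≠ stp α θ (n - 1)) : ℕ) : ℝ) ≤
          #((Ioc s t).filter fun n => stp α θ n ≠ stp α θ (n - 1)) + 1 := by
        split_ifs
        · exact_mod_cast card_insert_le _ _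
        · linarith
      have h6 := mul_le_mul_of_nonneg_left h5 hθ
      rw [h4, sub_self, abs_zero]
      rw [h4] at h6
      push Not at h
      nlinarith

/-- The indices which see a jump. -/
theorem card_seen {X H n : ℕ} (hX : 1 ≤ X) (hn : 1 ≤ n) (T : Finset ℕ)
    (h : ∀ i ∈ T, (i + 1) * X < n + H ∧ n ≤ (i + 1) * X) : #T ≤ H / X + 1 := by
  have h1 : T ⊆ Icc ((n - 1) / X) ((n - 1) / X + H / X) := by
    intro i hi
    obtain ⟨h2, h3⟩ := h i hi
    rw [mem_Icc]
    constructor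
    · have : (n - 1) / X < i + 1 := (Nat.div_lt_iff_lt_mul (by omega)).2 (by omega)
      omega
    · by_contra hc
      push Not at hc
      have h4 : (n - 1) / X + H / X + 2 ≤ i + 1 := by omega
      have h5 : ((n - 1) / X + H / X + 2) * X ≤ (i + 1) * X := Nat.mul_le_mul_right X h4
      have h6 := Nat.lt_div_mul_add (a := n - 1) (b := X) (by omega)
      have h7 := Nat.lt_div_mul_add (a := H) (b := X) (by omega)
      have h8 : ((n - 1) / X + H / X + 2) * X = (n - 1) / X * X + H / X * X + 2 * X := by ring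
      omega
  refine (card_le_card h1).trans ?_
  rw [Nat.card_Icc]
  generalize H / X = c
  generalize (n - 1) / X = d
  omega

theorem const_of_no_jump {a : ℕ → ℝ} {s t : ℕ} (h : ∀ n, s < n → n ≤ t → a n = a (n - 1)) :
    ∀ m, s ≤ m → m ≤ t → a m = a s := by
  intro m hm
  induction m, hm using Nat.le_induction with
  | base => intro _; rfl
  | succ m hm ih =>
    intro hmt
    rw [h (m + 1) (by omega) hmt]
    exact ih (by omega)

/-- The choice of the frequencies of the cells. -/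
theorem exists_freq (S : ℕ → ℝ → ℝ) (α : ℕ → ℝ) {X H na nb : ℕ} (hab : na ≤ nb)
    (hXH : X ≤ H) : ∃ a : ℕ → ℝ,
    (∀ j n, na ≤ n → n ≤ nb → n ≤ j * X → (j + 1) * X ≤ n + H → S j (α n) ≤ S j (a j)) ∧
    ∀ i, a (i + 1) ≠ a i → ∃ n, na < n ∧ n ≤ nb ∧ (i + 1) * X < n + H ∧ n ≤ (i + 1) * X ∧
      α n ≠ α (n - 1) := by
  set cl : ℕ → ℕ := fun x => max na (min x nb) with hcl
  have hmono : ∀ x y, x ≤ y → cl x ≤ cl y := by
    intro x y hxy
    simp only [hcl]
    omega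
  have hF : ∀ j, ∃ n ∈ Icc (cl ((j + 1) * X - H)) (cl (j * X)),
      ∀ m ∈ Icc (cl ((j + 1) * X - H)) (cl (j * X)), S j (α m) ≤ S j (α n) := by
    intro j
    refine exists_max_image _ _ ?_
    rw [nonempty_Icc]
    refine hmono _ _ ?_
    rw [add_mul]
    omega
  choose nn hn1 hn2 using hF
  refine ⟨fun j => α (nn j), ?_, ?_⟩
  · intro j n h1 h2 h3 h4
    refine hn2 j n ?_
    rw [mem_Icc]
    simp only [hcl]
    omega
  · intro i hi
    by_contra hc
    push Not at hc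
    apply hi
    have h5 : ∀ n, cl ((i + 1) * X - H) < n → n ≤ cl ((i + 1) * X) → α n = α (n - 1) := by
      intro n hn1 hn2
      simp only [hcl] at hn1 hn2
      exact hc n (by omega) (by omega) (by omega) (by omega)
    have h6 := const_of_no_jump h5
    have h7 := mem_Icc.1 (hn1 i)
    have h8 := mem_Icc.1 (hn1 (i + 1))
    have h9 : cl (i * X) ≤ cl ((i + 1) * X) := hmono _ _ (by rw [add_mul]; omega)
    have h10 : cl ((i + 1) * X - H) ≤ cl ((i + 1 + 1) * X - H) :=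
      hmono _ _ (by rw [add_mul (i + 1) 1]; omega)
    show α (nn (i + 1)) = α (nn i)
    rw [h6 (nn (i + 1)) (by omega) h8.2, h6 (nn i) h7.1 (by omega)]

end

end Pool.Agent.SV.RAr

end

section

open Finset MeasureTheory

namespace Pool.Agent.SV.RAr

open Pool.Agent.Lib.MP_663568_nt Pool.Agent.Lib.MP_663568_nt.Katai

noncomputable section

/-- the sum over a cell -/
def Sc (X j : ℕ) (b : ℝ) : ℝ := ‖∑ m ∈ Ioc (j * X) ((j + 1) * X), muC m * ee (b * m)‖

theorem norm_term (b : ℝ) (m : ℕ) : ‖muC m * ee (b * m)‖ ≤ 1 := by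
  rw [norm_mul, norm_ee, mul_one]
  exact norm_muC m

theorem norm_sum_Ioc_le (s t : ℕ) (b : ℝ) :
    ‖∑ m ∈ Ioc s t, muC m * ee (b * m)‖ ≤ ((t - s : ℕ) : ℝ) := by
  refine (norm_sum_le _ _).trans ?_
  refine (sum_le_sum fun m _ => norm_term b m).trans ?_
  simp

theorem Sc_nonneg (X j : ℕ) (b : ℝ) : 0 ≤ Sc X j b := norm_nonneg _

theorem Sc_le (X j : ℕ) (b : ℝ) : Sc X j b ≤ X := by
  unfold Sc
  refine (norm_sum_Ioc_le _ _ _).trans (le_of_eq ?_)
  congr 1
  rw [add_mul, one_mul, Nat.add_sub_cancel_left]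

theorem cells_le (X : ℕ) (b : ℝ) {j0 j1 : ℕ} (h : j0 ≤ j1) :
    ‖∑ m ∈ Ioc (j0 * X) (j1 * X), muC m * ee (b * m)‖ ≤ ∑ j ∈ Ico j0 j1, Sc X j b := by
  induction j1, h using Nat.le_induction with
  | base => simp
  | succ j1 h ih =>
    rw [sum_Ico_succ_top h, ← sum_Ioc_consecutive _ (Nat.mul_le_mul_right X h)
      (Nat.mul_le_mul_right X (Nat.le_succ j1))]
    exact (norm_add_le _ _).trans (add_le_add ih le_rfl)

theorem window_le {X H : ℕ} (hX : 1 ≤ X) (hXH : 2 * X ≤ H) (n : ℕ) (b : ℝ) :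
    ‖∑ h ∈ Icc 1 H, muC (n + h) * ee (b * h)‖ ≤
      (∑ j ∈ Ico ((n + X - 1) / X) ((n + H) / X), Sc X j b) + 2 * X := by
  have h1 : ‖∑ h ∈ Icc 1 H, muC (n + h) * ee (b * h)‖ =
      ‖∑ m ∈ Ioc n (n + H), muC m * ee (b * m)‖ := by
    have h2 : ∑ m ∈ Ioc n (n + H), muC m * ee (b * m) =
        ee (b * n) * ∑ h ∈ Icc 1 H, muC (n + h) * ee (b * h) := by
      rw [mul_sum]
      symm
      refine sum_nbij' (fun h => n + h) (fun m => m - n) ?_ ?_ ?_ ?_ ?_
      · intro h hh; simp only [mem_Icc, mem_Ioc] at *; omega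
      · intro h hh; simp only [mem_Icc, mem_Ioc] at *; omega
      · intro h hh; simp
      · intro h hh; simp only [mem_Ioc] at hh; omega
      · intro h hh
        push_cast
        rw [mul_add b, ee_add]
        ring
    rw [h2, norm_mul, norm_ee, one_mul]
  rw [h1]
  set j0 := (n + X - 1) / X with hj0
  set j1 := (n + H) / X with hj1
  have a1 : n ≤ j0 * X := by
    have := Nat.lt_div_mul_add (a := n + X - 1) (b := X) (by omega)
    rw [← hj0] at this
    omega
  have a2 : j0 * X ≤ n + X - 1 := Nat.div_mul_le_self _ _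
  have a3 : j1 * X ≤ n + H := Nat.div_mul_le_self _ _
  have a4 : n + H < j1 * X + X := Nat.lt_div_mul_add (by omega)
  have a5 : j0 * X ≤ j1 * X := by omega
  have a6 : j0 ≤ j1 := Nat.le_of_mul_le_mul_right a5 (by omega)
  rw [← sum_Ioc_consecutive _ a1 (show j0 * X ≤ n + H by omega),
    ← sum_Ioc_consecutive _ a5 a3]
  have b1 := norm_sum_Ioc_le n (j0 * X) b
  have b2 := norm_sum_Ioc_le (j1 * X) (n + H) b
  have b3 := cells_le X b a6
  have b4 : ((j0 * X - n : ℕ) : ℝ) ≤ X := by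
    have : j0 * X - n ≤ X := by omega
    exact_mod_cast this
  have b5 : ((n + H - j1 * X : ℕ) : ℝ) ≤ X := by
    have : n + H - j1 * X ≤ X := by omega
    exact_mod_cast this
  refine (norm_add_le _ _).trans ?_
  have b6 := norm_add_le (∑ m ∈ Ioc (j0 * X) (j1 * X), muC m * ee (b * m))
    (∑ m ∈ Ioc (j1 * X) (n + H), muC m * ee (b * m))
  linarith

/-- Change of the frequency. -/
theorem change_le {H n : ℕ} {a b θ : ℝ} (h : |a - b| ≤ θ) :
    ‖∑ h ∈ Icc 1 H, muC (n + h) * ee (a * h)‖ ≤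
      ‖∑ h ∈ Icc 1 H, muC (n + h) * ee (b * h)‖ + 2 * Real.pi * θ * H * H := by
  have h1 : ‖∑ h ∈ Icc 1 H, muC (n + h) * ee (a * h) -
      ∑ h ∈ Icc 1 H, muC (n + h) * ee (b * h)‖ ≤ 2 * Real.pi * θ * H * H := by
    rw [← sum_sub_distrib]
    refine (norm_sum_le _ _).trans ?_
    have h2 : ∀ k ∈ Icc 1 H, ‖muC (n + k) * ee (a * k) - muC (n + k) * ee (b * k)‖ ≤
        2 * Real.pi * θ * H := by
      intro k hk
      rw [← mul_sub, norm_mul]
      have h3 : ‖ee (a * k) - ee (b * k)‖ ≤ 2 * Real.pi * |a * k - b * k| :=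
        norm_ee_sub_ee_le _ _
      have h4 : |a * k - b * k| ≤ θ * H := by
        rw [← sub_mul, abs_mul, Nat.abs_cast]
        have h5 : (k : ℝ) ≤ H := by exact_mod_cast (mem_Icc.1 hk).2
        have h6 : 0 ≤ θ := (abs_nonneg _).trans h
        exact mul_le_mul h h5 (by positivity) h6
      calc ‖muC (n + k)‖ * ‖ee (a * k) - ee (b * k)‖ ≤ 1 * (2 * Real.pi * (θ * H)) := by
            refine mul_le_mul (norm_muC _) (h3.trans ?_) (norm_nonneg _) zero_le_one
            exact mul_le_mul_of_nonneg_left h4 (by positivity)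
        _ = _ := by ring
    refine (sum_le_sum h2).trans (le_of_eq ?_)
    simp
    ring
  have h7 := norm_sub_norm_le (∑ h ∈ Icc 1 H, muC (n + h) * ee (a * h))
    (∑ h ∈ Icc 1 H, muC (n + h) * ee (b * h))
  linarith

/-- Double counting. -/
theorem double_count {X H s t : ℕ} (hX : 1 ≤ X) (hXH : 2 * X ≤ H) (hs : 6 * H ≤ s) (hst : s ≤ t)
    (c : ℕ → ℝ) (hc : ∀ j, 0 ≤ c j) :
    ∑ n ∈ Ioc s t, (1 / (n : ℝ)) * ∑ j ∈ Ico ((n + X - 1) / X) ((n + H) / X), c j ≤
      ∑ j ∈ Ico ((s + X) / X) ((t + H) / X), 6 / 5 * H * (c j / ((j + 1 : ℕ) * X)) := by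
  classical
  have hX0 : 0 < X := by omega
  have h1 : ∑ n ∈ Ioc s t, (1 / (n : ℝ)) * ∑ j ∈ Ico ((n + X - 1) / X) ((n + H) / X), c j =
      ∑ n ∈ Ioc s t, ∑ j ∈ Ico ((n + X - 1) / X) ((n + H) / X), (1 / (n : ℝ)) * c j :=
    sum_congr rfl fun n _ => by rw [mul_sum]
  rw [h1]
  rw [sum_comm' (s' := fun j => (Ioc s t).filter fun n => n ≤ j * X ∧ (j + 1) * X ≤ n + H)
    (t' := Ico ((s + X) / X) ((t + H) / X))]
  · refine sum_le_sum fun j hj => ?_
    rw [mem_Ico] at hj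
    have hj1 : s < j * X + X := by
      have h2 : (s + X) / X < j + 1 := by omega
      have h3 := (Nat.div_lt_iff_lt_mul hX0).1 h2
      rw [add_mul] at h3
      omega
    rw [← sum_mul]
    have h4 : ∑ n ∈ (Ioc s t).filter (fun n => n ≤ j * X ∧ (j + 1) * X ≤ n + H), 1 / (n : ℝ) ≤
        6 / 5 * H * (1 / ((j + 1 : ℕ) * X)) := by
      have hpos : (0 : ℝ) < (((j + 1) * X : ℕ) : ℝ) := by
        have : 0 < (j + 1) * X := by positivity
        exact_mod_cast this
      have h5 : ∀ n ∈ (Ioc s t).filter (fun n => n ≤ j * X ∧ (j + 1) * X ≤ n + H),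
          1 / (n : ℝ) ≤ 6 / 5 * (1 / ((j + 1 : ℕ) * X)) := by
        intro n hn
        rw [mem_filter, mem_Ioc] at hn
        have h6 : 5 * ((j + 1) * X) ≤ 6 * n := by
          have := hn.2.2
          have := hn.1.1
          omega
        have h7 : (5 : ℝ) * ((j + 1 : ℕ) * X) ≤ 6 * n := by exact_mod_cast h6
        have hn0 : (0 : ℝ) < n := by
          have : 0 < n := by omega
          exact_mod_cast this
        push_cast at hpos h7 ⊢
        rw [mul_one_div, div_le_div_iff₀ hn0 hpos]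
        linarith
      refine (sum_le_sum h5).trans ?_
      rw [sum_const, nsmul_eq_mul]
      have h8 : #((Ioc s t).filter (fun n => n ≤ j * X ∧ (j + 1) * X ≤ n + H)) ≤ H := by
        have h9 : (Ioc s t).filter (fun n => n ≤ j * X ∧ (j + 1) * X ≤ n + H) ⊆
            Icc ((j + 1) * X - H) (j * X) := by
          intro n hn
          rw [mem_filter, mem_Ioc] at hn
          rw [mem_Icc]
          omega
        refine (card_le_card h9).trans ?_
        rw [Nat.card_Icc, add_mul]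
        omega
      have h10 : (#((Ioc s t).filter (fun n => n ≤ j * X ∧ (j + 1) * X ≤ n + H)) : ℝ) ≤ H := by
        exact_mod_cast h8
      calc (#((Ioc s t).filter (fun n => n ≤ j * X ∧ (j + 1) * X ≤ n + H)) : ℝ) *
            (6 / 5 * (1 / ((j + 1 : ℕ) * X))) ≤ H * (6 / 5 * (1 / ((j + 1 : ℕ) * X))) :=
            mul_le_mul_of_nonneg_right h10 (by positivity)
        _ = _ := by ring
    calc (∑ n ∈ (Ioc s t).filter (fun n => n ≤ j * X ∧ (j + 1) * X ≤ n + H), 1 / (n : ℝ)) * c j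
        ≤ 6 / 5 * H * (1 / ((j + 1 : ℕ) * X)) * c j := mul_le_mul_of_nonneg_right h4 (hc j)
      _ = _ := by ring
  · intro n j
    simp only [mem_Ioc, mem_Ico, mem_filter]
    have e1 : (n + X - 1) / X ≤ j ↔ n ≤ j * X := by
      rw [← Nat.lt_succ_iff, Nat.div_lt_iff_lt_mul hX0, Nat.succ_mul]
      omega
    have e2 : j < (n + H) / X ↔ (j + 1) * X ≤ n + H := by
      rw [← Nat.succ_le_iff, Nat.le_div_iff_mul_le hX0]
    have e3 : (s + X) / X ≤ j ↔ s < j * X := by
      rw [← Nat.lt_succ_iff, Nat.div_lt_iff_lt_mul hX0, Nat.succ_mul]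
      omega
    have e4 : j < (t + H) / X ↔ (j + 1) * X ≤ t + H := by
      rw [← Nat.succ_le_iff, Nat.le_div_iff_mul_le hX0]
    rw [e1, e2, e3, e4]
    constructor
    · rintro ⟨⟨q1, q2⟩, q3, q4⟩
      exact ⟨⟨⟨q1, q2⟩, q3, q4⟩, by omega, by omega⟩
    · rintro ⟨⟨⟨q1, q2⟩, q3, q4⟩, -⟩
      exact ⟨⟨q1, q2⟩, q3, q4⟩

end

end Pool.Agent.SV.RAr

end

section

open Finset MeasureTheory

namespace Pool.Agent.SV.RAr

open Pool.Agent.Lib.MP_663568_nt Pool.Agent.Lib.MP_663568_nt.Katai Pool.Agent.SV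

noncomputable section

theorem SS_eq (X : ℕ) (a : ℕ → ℝ) (u : ℝ) :
    SS X a u = Sc X ⌊Real.exp u / X⌋₊ (a ⌊Real.exp u / X⌋₊) / X := rfl

theorem SS_meas (X : ℕ) (a : ℕ → ℝ) : Measurable (SS X a) := by
  have h1 : Measurable fun u : ℝ => ⌊Real.exp u / X⌋₊ :=
    Nat.measurable_floor.comp (Real.measurable_exp.div_const _)
  have h2 : Measurable fun j : ℕ => Sc X j (a j) / X := measurable_from_nat
  exact h2.comp h1

theorem SS_nonneg (X : ℕ) (a : ℕ → ℝ) (u : ℝ) : 0 ≤ SS X a u := by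
  rw [SS_eq]
  exact div_nonneg (Sc_nonneg _ _ _) (Nat.cast_nonneg _)

theorem SS_le_one (X : ℕ) (a : ℕ → ℝ) (u : ℝ) : SS X a u ≤ 1 := by
  rw [SS_eq]
  exact div_le_one_of_le₀ (Sc_le _ _ _) (Nat.cast_nonneg _)

theorem SS_int (X : ℕ) (a : ℕ → ℝ) (s t : ℝ) : IntervalIntegrable (SS X a) volume s t := by
  rw [intervalIntegrable_iff]
  refine Measure.integrableOn_of_bounded (M := 1) ?_ (SS_meas X a).aestronglyMeasurable
    (Filter.Eventually.of_forall fun u => ?_)
  · rw [Set.uIoc, Real.volume_Ioc]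
    exact ENNReal.ofReal_ne_top
  · rw [Real.norm_eq_abs, abs_of_nonneg (SS_nonneg _ _ _)]
    exact SS_le_one _ _ _

theorem cell_integral {X : ℕ} (hX : 1 ≤ X) (a : ℕ → ℝ) {j : ℕ} (hj : 1 ≤ j) :
    Sc X j (a j) / ((j + 1 : ℕ) * X) ≤
      ∫ u in (Real.log (j * X : ℕ))..(Real.log ((j + 1) * X : ℕ)), SS X a u := by
  have hXr : (0 : ℝ) < X := by exact_mod_cast hX
  have hjr : (0 : ℝ) < j := by exact_mod_cast hj
  have hle : Real.log (j * X : ℕ) ≤ Real.log ((j + 1) * X : ℕ) := by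
    refine Real.log_le_log (by push_cast; positivity) ?_
    exact_mod_cast Nat.mul_le_mul_right X (Nat.le_succ j)
  rw [intervalIntegral.integral_of_le hle, integral_Ioc_eq_integral_Ioo]
  have h1 : ∫ u in Set.Ioo (Real.log (j * X : ℕ)) (Real.log ((j + 1) * X : ℕ)), SS X a u =
      ∫ _u in Set.Ioo (Real.log (j * X : ℕ)) (Real.log ((j + 1) * X : ℕ)), Sc X j (a j) / X := by
    refine setIntegral_congr_fun measurableSet_Ioo fun u hu => ?_
    rw [Set.mem_Ioo] at hu
    have h2 : ⌊Real.exp u / X⌋₊ = j := by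
      rw [Nat.floor_eq_iff (by positivity)]
      constructor
      · rw [le_div_iff₀ hXr]
        have h3 := Real.exp_le_exp.2 hu.1.le
        rw [Real.exp_log (by push_cast; positivity)] at h3
        push_cast at h3
        exact h3
      · rw [div_lt_iff₀ hXr]
        have h3 := Real.exp_lt_exp.2 hu.2
        rw [Real.exp_log (by push_cast; positivity)] at h3
        push_cast at h3
        exact h3
    show SS X a u = _
    rw [SS_eq, h2]
  rw [h1, setIntegral_const, smul_eq_mul]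
  have h4 : (volume : Measure ℝ).real (Set.Ioo (Real.log (j * X : ℕ)) (Real.log ((j + 1) * X : ℕ))) =
      Real.log ((j + 1) * X : ℕ) - Real.log (j * X : ℕ) := by
    rw [Real.volume_real_Ioo_of_le hle]
  rw [h4]
  have h5 : 1 / ((j : ℝ) + 1) ≤ Real.log ((j + 1) * X : ℕ) - Real.log (j * X : ℕ) := by
    push_cast
    rw [Real.log_mul (by positivity) (by positivity), Real.log_mul (by positivity) (by positivity)]
    have h6 : Real.log ((j : ℝ) / (j + 1)) ≤ (j : ℝ) / (j + 1) - 1 :=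
      Real.log_le_sub_one_of_pos (by positivity)
    rw [Real.log_div (by positivity) (by positivity)] at h6
    have h7 : (j : ℝ) / (j + 1) - 1 = - (1 / ((j : ℝ) + 1)) := by
      field_simp
      ring
    linarith
  have h8 : Sc X j (a j) / ((j + 1 : ℕ) * X) = 1 / ((j : ℝ) + 1) * (Sc X j (a j) / X) := by
    push_cast
    field_simp
  rw [h8]
  exact mul_le_mul_of_nonneg_right h5 (div_nonneg (Sc_nonneg _ _ _) hXr.le)

theorem cells_integral {X : ℕ} (hX : 1 ≤ X) (a : ℕ → ℝ) {j0 j1 : ℕ} (hj : 1 ≤ j0) (h01 : j0 ≤ j1)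
    {ta tb : ℝ} (ha : ta ≤ Real.log (j0 * X : ℕ)) (hb : Real.log (j1 * X : ℕ) ≤ tb) :
    ∑ j ∈ Ico j0 j1, Sc X j (a j) / ((j + 1 : ℕ) * X) ≤ ∫ u in ta..tb, SS X a u := by
  have h1 : ∑ j ∈ Ico j0 j1, Sc X j (a j) / ((j + 1 : ℕ) * X) ≤
      ∑ j ∈ Ico j0 j1, ∫ u in (Real.log (j * X : ℕ))..(Real.log ((j + 1) * X : ℕ)), SS X a u := by
    refine sum_le_sum fun j hj' => cell_integral hX a ?_
    rw [mem_Ico] at hj'
    omega
  have h2 := intervalIntegral.sum_integral_adjacent_intervals_Ico (f := SS X a) (μ := volume)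
    (a := fun j => Real.log (j * X : ℕ)) h01 (fun k _ => SS_int X a _ _)
  refine h1.trans ?_
  rw [h2]
  have h3 : Real.log (j0 * X : ℕ) ≤ Real.log (j1 * X : ℕ) := by
    refine Real.log_le_log ?_ ?_
    · have : 0 < j0 * X := by positivity
      exact_mod_cast this
    · exact_mod_cast Nat.mul_le_mul_right X h01
  exact intervalIntegral.integral_mono_interval ha h3 hb
    (Filter.Eventually.of_forall fun u => SS_nonneg X a u) (SS_int X a _ _)

/-- harmonic sums -/
theorem sum_inv_le {s t : ℕ} (hs : 1 ≤ s) (hst : s ≤ t) :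
    ∑ n ∈ Ioc s t, 1 / (n : ℝ) ≤ Real.log t - Real.log s := by
  induction t, hst using Nat.le_induction with
  | base => simp
  | succ t hst ih =>
    rw [sum_Ioc_succ_top (by omega)]
    have h6 : Real.log ((t : ℝ) / (t + 1)) ≤ (t : ℝ) / (t + 1) - 1 := by
      refine Real.log_le_sub_one_of_pos ?_
      have : (0 : ℝ) < t := by
        have : 0 < t := by omega
        exact_mod_cast this
      positivity
    have ht : (0 : ℝ) < t := by
      have : 0 < t := by omega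
      exact_mod_cast this
    rw [Real.log_div (by positivity) (by positivity)] at h6
    have h7 : (t : ℝ) / (t + 1) - 1 = - (1 / ((t : ℝ) + 1)) := by
      field_simp
      ring
    push_cast
    linarith

end

end Pool.Agent.SV.RAr

end

section

open Finset MeasureTheory

namespace Pool.Agent.SV.RAr

open Pool.Agent.Lib.MP_663568_nt Pool.Agent.Lib.MP_663568_nt.Katai Pool.Agent.SV

noncomputable section

theorem main_ineq {X H s t : ℕ} {η : ℝ} (hX : 1 ≤ X) (hXH : 2 * X ≤ H) (hs : 6 * H ≤ s)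
    (hst : s < t) (hη : 0 ≤ η) (α a : ℕ → ℝ)
    (ha : ∀ j n, s + 1 ≤ n → n ≤ t → n ≤ j * X → (j + 1) * X ≤ n + H →
      Sc X j (stp α (η / H) n) ≤ Sc X j (a j)) {ta tb : ℝ}
    (hta : ta ≤ Real.log (((s + X) / X) * X : ℕ)) (htb : Real.log (((t + H) / X) * X : ℕ) ≤ tb) :
    ∑ n ∈ Ioc s t, (1 / (n : ℝ)) * (‖∑ h ∈ Icc 1 H, muC (n + h) * ee (α n * h)‖ / H) ≤
      6 / 5 * (∫ u in ta..tb, SS X a u) +
        (2 * X / H + 2 * Real.pi * η) * (Real.log t - Real.log s) := by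
  have hH : (0 : ℝ) < H := by
    have : 0 < H := by omega
    exact_mod_cast this
  have hX0 : 0 < X := by omega
  have h1 : ∀ n ∈ Ioc s t, (1 / (n : ℝ)) *
      (‖∑ h ∈ Icc 1 H, muC (n + h) * ee (α n * h)‖ / H) ≤
      (1 / H) * ((1 / (n : ℝ)) * ∑ j ∈ Ico ((n + X - 1) / X) ((n + H) / X), Sc X j (a j)) +
        (2 * X / H + 2 * Real.pi * η) * (1 / (n : ℝ)) := by
    intro n hn
    rw [mem_Ioc] at hn
    have hn0 : (0 : ℝ) < n := by
      have : 0 < n := by omega
      exact_mod_cast this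
    have h2 := change_le (H := H) (n := n) (stp_near (α := α) (θ := η / H) (by positivity) n)
    have h3 := window_le hX hXH n (stp α (η / H) n)
    have h4 : ∑ j ∈ Ico ((n + X - 1) / X) ((n + H) / X), Sc X j (stp α (η / H) n) ≤
        ∑ j ∈ Ico ((n + X - 1) / X) ((n + H) / X), Sc X j (a j) := by
      refine sum_le_sum fun j hj => ha j n (by omega) hn.2 ?_ ?_
      · rw [mem_Ico] at hj
        have h5 : (n + X - 1) / X < j + 1 := by omega
        have h6 := (Nat.div_lt_iff_lt_mul hX0).1 h5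
        rw [add_mul] at h6
        omega
      · rw [mem_Ico] at hj
        exact (Nat.le_div_iff_mul_le hX0).1 (Nat.succ_le_iff.2 hj.2)
    have h5 : 2 * Real.pi * (η / H) * H * H = 2 * Real.pi * η * H := by
      field_simp
    rw [h5] at h2
    have h6 : ‖∑ h ∈ Icc 1 H, muC (n + h) * ee (α n * h)‖ ≤
        (∑ j ∈ Ico ((n + X - 1) / X) ((n + H) / X), Sc X j (a j)) + 2 * X +
          2 * Real.pi * η * H := by linarith
    calc (1 / (n : ℝ)) * (‖∑ h ∈ Icc 1 H, muC (n + h) * ee (α n * h)‖ / H)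
        ≤ (1 / (n : ℝ)) * (((∑ j ∈ Ico ((n + X - 1) / X) ((n + H) / X), Sc X j (a j)) + 2 * X +
          2 * Real.pi * η * H) / H) := by gcongr
      _ = _ := by
          field_simp
          ring
  refine (sum_le_sum h1).trans ?_
  rw [sum_add_distrib, ← mul_sum, ← mul_sum]
  have h7 := double_count hX hXH hs hst.le (fun j => Sc X j (a j)) (fun j => Sc_nonneg _ _ _)
  have h8 : ∑ j ∈ Ico ((s + X) / X) ((t + H) / X),
      6 / 5 * H * (Sc X j (a j) / ((j + 1 : ℕ) * X)) =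
      6 / 5 * H * ∑ j ∈ Ico ((s + X) / X) ((t + H) / X), Sc X j (a j) / ((j + 1 : ℕ) * X) := by
    rw [mul_sum]
  have hj0 : 1 ≤ (s + X) / X := by
    rw [Nat.le_div_iff_mul_le hX0]
    omega
  have h01 : (s + X) / X ≤ (t + H) / X := Nat.div_le_div_right (by omega)
  have h9 := cells_integral hX a hj0 h01 hta htb
  have h10 : (1 / (H : ℝ)) * ∑ n ∈ Ioc s t, (1 / (n : ℝ)) *
      ∑ j ∈ Ico ((n + X - 1) / X) ((n + H) / X), Sc X j (a j) ≤
      6 / 5 * ∫ u in ta..tb, SS X a u := by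
    calc (1 / (H : ℝ)) * ∑ n ∈ Ioc s t, (1 / (n : ℝ)) *
        ∑ j ∈ Ico ((n + X - 1) / X) ((n + H) / X), Sc X j (a j)
        ≤ (1 / (H : ℝ)) * (6 / 5 * H * ∫ u in ta..tb, SS X a u) := by
          refine mul_le_mul_of_nonneg_left ?_ (by positivity)
          refine h7.trans ?_
          show ∑ j ∈ Ico ((s + X) / X) ((t + H) / X),
            6 / 5 * H * (Sc X j (a j) / ((j + 1 : ℕ) * X)) ≤ _
          rw [h8]
          exact mul_le_mul_of_nonneg_left h9 (by positivity)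
      _ = _ := by field_simp
  have h11 := sum_inv_le (s := s) (t := t) (by omega) hst.le
  have h12 : (2 * X / H + 2 * Real.pi * η) * ∑ n ∈ Ioc s t, 1 / (n : ℝ) ≤
      (2 * X / H + 2 * Real.pi * η) * (Real.log t - Real.log s) :=
    mul_le_mul_of_nonneg_left h11 (by positivity)
  linarith

open Classical in
/-- The number of the changes of the frequency, case of large scales. -/
theorem changes_A {X H : ℕ} {A η : ℝ} (hX : 1 ≤ X) (hXH : X ≤ H) (hη : 0 < η)
    (α a : ℕ → ℝ) (hTV : TV α ((H : ℝ) ^ A)) {s t : ℕ} (hs : 16 * H ≤ s)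
    (hch : ∀ i, a (i + 1) ≠ a i → ∃ n, s + 1 < n ∧ n ≤ t ∧ (i + 1) * X < n + H ∧
      n ≤ (i + 1) * X ∧ stp α (η / H) n ≠ stp α (η / H) (n - 1)) (u : ℝ) :
    (#((Ico ⌊Real.exp u / (X : ℝ)⌋₊ ⌊Real.exp (u + 1) / (X : ℝ)⌋₊).filter
      fun i => a (i + 1) ≠ a i) : ℝ) ≤ (1 + 3 * (H : ℝ) ^ A * H / η) * ((H : ℝ) / X + 1) := by
  have hH0 : 0 < H := by omega
  have hH : (0 : ℝ) < H := by exact_mod_cast hH0
  have hXr : (0 : ℝ) < X := by exact_mod_cast (show 0 < X by omega)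
  have hX0 : 0 < X := by omega
  set T := (Ico ⌊Real.exp u / (X : ℝ)⌋₊ ⌊Real.exp (u + 1) / (X : ℝ)⌋₊).filter
      (fun i => a (i + 1) ≠ a i) with hT
  have hA0 : 0 ≤ (H : ℝ) ^ A := by positivity
  by_cases hTe : T = ∅
  · rw [hTe]
    simp
    positivity
  obtain ⟨i0, hi0⟩ := nonempty_iff_ne_empty.2 hTe
  -- location of the jumps
  have hloc : ∀ i ∈ T, Real.exp u < ((i + 1 : ℕ) * X : ℝ) ∧
      ((i + 1 : ℕ) * X : ℝ) ≤ Real.exp (u + 1) := by
    intro i hi
    rw [hT, mem_filter, mem_Ico] at hi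
    constructor
    · have h1 : Real.exp u / X < i + 1 := by
        have h2 := Nat.lt_floor_add_one (Real.exp u / (X : ℝ))
        have h3 : (⌊Real.exp u / (X : ℝ)⌋₊ : ℝ) ≤ i := by exact_mod_cast hi.1.1
        linarith
      rw [div_lt_iff₀ hXr] at h1
      push_cast
      exact h1
    · have h1 : i + 1 ≤ ⌊Real.exp (u + 1) / (X : ℝ)⌋₊ := hi.1.2
      have h2 : ((i + 1 : ℕ) : ℝ) ≤ Real.exp (u + 1) / X :=
        (Nat.le_floor_iff (by positivity)).1 h1
      rwa [le_div_iff₀ hXr] at h2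
  have he : Real.exp (u + 1) ≤ 2.7182818286 * Real.exp u := by
    rw [Real.exp_add, mul_comm]
    exact mul_le_mul_of_nonneg_right Real.exp_one_lt_d9.le (Real.exp_pos _).le
  have hbig : 5 * (H : ℝ) ≤ Real.exp u := by
    obtain ⟨n, h1, -, -, h4, -⟩ := hch i0 (by rw [hT, mem_filter] at hi0; exact hi0.2)
    have h5 := (hloc i0 hi0).2
    have h6 : ((16 * H : ℕ) : ℝ) ≤ (((i0 + 1) * X : ℕ) : ℝ) := by
      exact_mod_cast (by omega : 16 * H ≤ (i0 + 1) * X)
    push_cast at h6 h5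
    nlinarith
  -- the block
  set y := ⌊4 / 5 * Real.exp u⌋₊ with hy
  have hy4 : 4 * H ≤ y := by
    rw [hy]
    refine Nat.le_floor ?_
    push_cast
    linarith
  have hy0 : y ≠ 0 := by omega
  set j := Nat.log 2 y with hj
  have hj1 : 2 ^ j ≤ y := Nat.pow_log_le_self 2 hy0
  have hj2 : y < 2 ^ (j + 1) := Nat.lt_pow_succ_log_self (by norm_num) y
  have hyu : 4 / 5 * Real.exp u < y + 1 := Nat.lt_floor_add_one _
  have hyl : (y : ℝ) ≤ 4 / 5 * Real.exp u := Nat.floor_le (by positivity)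
  set B := (Ioc (2 ^ j) (2 ^ (j + 3))).filter
    (fun n => stp α (η / H) n ≠ stp α (η / H) (n - 1)) with hB
  have hin : ∀ i ∈ T, ∃ n ∈ B, (i + 1) * X < n + H ∧ n ≤ (i + 1) * X := by
    intro i hi
    obtain ⟨n, h1, h2, h3, h4, h5⟩ := hch i (by rw [hT, mem_filter] at hi; exact hi.2)
    refine ⟨n, ?_, h3, h4⟩
    rw [hB, mem_filter, mem_Ioc]
    refine ⟨⟨?_, ?_⟩, h5⟩
    · have h6 := (hloc i hi).1
      have h7 : (((i + 1) * X : ℕ) : ℝ) < ((n + H : ℕ) : ℝ) := by exact_mod_cast h3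
      push_cast at h6 h7
      have h8 : (y : ℝ) < n := by linarith
      have h9 : y < n := by exact_mod_cast h8
      omega
    · have h6 := (hloc i hi).2
      have h7 : (n : ℝ) ≤ (((i + 1) * X : ℕ) : ℝ) := by exact_mod_cast h4
      push_cast at h6 h7
      have h8 : (n : ℝ) ≤ 4 * (y + 1) := by linarith
      have h9 : n ≤ 4 * (y + 1) := by exact_mod_cast h8
      have h10 : 2 ^ (j + 3) = 4 * 2 ^ (j + 1) := by ring
      omega
  -- number of the jumps
  have hBc : (#B : ℝ) ≤ 1 + 3 * (H : ℝ) ^ A * H / η := by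
    have hθ : 0 < η / H := by positivity
    have h1 := stp_jumps (α := α) hθ.le (s := 2 ^ j) (t := 2 ^ (j + 3))
      (Nat.pow_le_pow_right (by norm_num) (by omega))
    have h2 : ∑ n ∈ Ico (2 ^ j) (2 ^ (j + 3)), |α (n + 1) - α n| ≤ 3 * (H : ℝ) ^ A := by
      have e1 : 2 ^ j ≤ 2 ^ (j + 1) := Nat.pow_le_pow_right (by norm_num) (by omega)
      have e2 : 2 ^ (j + 1) ≤ 2 ^ (j + 2) := Nat.pow_le_pow_right (by norm_num) (by omega)
      have e3 : 2 ^ (j + 2) ≤ 2 ^ (j + 3) := Nat.pow_le_pow_right (by norm_num) (by omega)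
      rw [← sum_Ico_consecutive _ e1 (e2.trans e3), ← sum_Ico_consecutive _ e2 e3]
      have := hTV j
      have := hTV (j + 1)
      have := hTV (j + 2)
      linarith
    have h3 := abs_nonneg (α (2 ^ (j + 3)) - stp α (η / H) (2 ^ (j + 3)))
    have h4 : η / H * #B ≤ η / H + 3 * (H : ℝ) ^ A := by linarith
    have h5 : (#B : ℝ) = (η / H * #B) * (H / η) := by field_simp
    rw [h5]
    calc (η / H * #B) * (H / η) ≤ (η / H + 3 * (H : ℝ) ^ A) * (H / η) :=
          mul_le_mul_of_nonneg_right h4 (by positivity)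
      _ = _ := by field_simp
  -- counting
  have hcov : T ⊆ B.biUnion fun n => T.filter fun i => (i + 1) * X < n + H ∧ n ≤ (i + 1) * X := by
    intro i hi
    obtain ⟨n, hn, h1, h2⟩ := hin i hi
    exact mem_biUnion.2 ⟨n, hn, mem_filter.2 ⟨hi, h1, h2⟩⟩
  have hcard : #T ≤ #B * (H / X + 1) := by
    refine (card_le_card hcov).trans (card_biUnion_le_card_mul _ _ _ fun n hn => ?_)
    refine card_seen hX (n := n) ?_ _ fun i hi => (mem_filter.1 hi).2
    rw [hB, mem_filter, mem_Ioc] at hn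
    omega
  have hdiv : ((H / X : ℕ) : ℝ) ≤ (H : ℝ) / X := Nat.cast_div_le
  calc (#T : ℝ) ≤ #B * ((H / X : ℕ) + 1) := by exact_mod_cast hcard
    _ ≤ (1 + 3 * (H : ℝ) ^ A * H / η) * ((H : ℝ) / X + 1) := by
        refine mul_le_mul hBc (by linarith) (by positivity) (by positivity)

open Classical in
/-- The number of the changes of the frequency, trivial bound. -/
theorem changes_B {X H : ℕ} {η : ℝ} (hX : 1 ≤ X)
    (α a : ℕ → ℝ) {s t : ℕ}
    (hch : ∀ i, a (i + 1) ≠ a i → ∃ n, s + 1 < n ∧ n ≤ t ∧ (i + 1) * X < n + H ∧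
      n ≤ (i + 1) * X ∧ stp α (η / H) n ≠ stp α (η / H) (n - 1)) (I : Finset ℕ) :
    (#(I.filter fun i => a (i + 1) ≠ a i) : ℝ) ≤ ((t : ℝ) + H) / X := by
  have hX0 : 0 < X := by omega
  have h1 : I.filter (fun i => a (i + 1) ≠ a i) ⊆ range ((t + H) / X) := by
    intro i hi
    obtain ⟨n, h1, h2, h3, h4, h5⟩ := hch i (mem_filter.1 hi).2
    rw [mem_range, ← Nat.succ_le_iff, Nat.le_div_iff_mul_le hX0]
    have : i.succ * X = (i + 1) * X := rfl
    omega
  have h2 := card_le_card h1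
  rw [card_range] at h2
  calc (#(I.filter fun i => a (i + 1) ≠ a i) : ℝ) ≤ (((t + H) / X : ℕ) : ℝ) := by
        exact_mod_cast h2
    _ ≤ ((t + H : ℕ) : ℝ) / X := Nat.cast_div_le
    _ = _ := by push_cast; ring

end

end Pool.Agent.SV.RAr

end

section

open Finset MeasureTheory

namespace Pool.Agent.SV

open Pool.Agent.Lib.MP_663568_nt Pool.Agent.Lib.MP_663568_nt.Katai Pool.Agent.SV.RAr Filter

noncomputable section

theorem ra : RA_stmt := by
  classical
  intro A ε κ hA hε hε1 hκ hκε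
  have hκ64 : κ ≤ 1 / 64 := hκε.trans (by linarith)
  set η : ℝ := ε / 512 with hη
  have hη0 : 0 < η := by positivity
  have hη1 : η ≤ 1 / 512 := by rw [hη]; linarith
  refine ⟨η, 2 * (A + 8), hη0, by linarith, by linarith, ?_⟩
  -- the conditions on `H`
  set K0 : ℝ := (1 + 3 / η) * (2 / η + 1) with hK0
  have e1 : ∀ᶠ h : ℝ in atTop, 1 ≤ κ * Real.log h := by
    have h1 : Tendsto (fun h : ℝ => κ * Real.log h) atTop atTop :=
      Real.tendsto_log_atTop.const_mul_atTop hκ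
    exact h1.eventually_ge_atTop 1
  have e2 : ∀ᶠ h : ℝ in atTop, 32 ≤ h ^ κ := (tendsto_rpow_atTop hκ).eventually_ge_atTop 32
  have e3 : ∀ᶠ h : ℝ in atTop, 2 / η ≤ h ^ (1 / 2 : ℝ) :=
    (tendsto_rpow_atTop (by norm_num)).eventually_ge_atTop _
  have e4 : ∀ᶠ h : ℝ in atTop, 3 ≤ h ^ (1 / 8 : ℝ) :=
    (tendsto_rpow_atTop (by norm_num)).eventually_ge_atTop _
  have e5 : ∀ᶠ h : ℝ in atTop, max K0 3 ≤ h := eventually_ge_atTop _
  have eall := tendsto_natCast_atTop_atTop (R := ℝ) |>.eventually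
    (e1.and (e2.and (e3.and (e4.and e5))))
  obtain ⟨H₀, hH₀⟩ := eventually_atTop.1 eall
  refine ⟨H₀, fun H N hH hHN α hTV xa xb hxa hxab hxbN hΛ hcase hsum => ?_⟩
  obtain ⟨c1, c2, c3, c4, c5⟩ := hH₀ H hH
  have c6 : K0 ≤ H := (le_max_left _ _).trans c5
  have c7 : (3 : ℝ) ≤ H := (le_max_right _ _).trans c5
  have hH1 : (1 : ℝ) ≤ H := by linarith
  have hHp : (0 : ℝ) < H := by linarith
  have hlogH : 0 ≤ Real.log H := Real.log_nonneg hH1
  -- the length of the cells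
  set X := ⌊η * (H : ℝ)⌋₊ with hX
  have hhalf : (H : ℝ) ^ (1 / 2 : ℝ) * (H : ℝ) ^ (1 / 2 : ℝ) = H := by
    rw [← Real.rpow_add hHp]
    norm_num
  have hh1 : 1 ≤ (H : ℝ) ^ (1 / 2 : ℝ) := Real.one_le_rpow hH1 (by norm_num)
  have d1 : (H : ℝ) ^ (1 / 2 : ℝ) + 1 ≤ η * H := by
    have h1 : 2 ≤ η * (H : ℝ) ^ (1 / 2 : ℝ) := by
      rw [div_le_iff₀ hη0] at c3
      linarith
    have h2 : η * H = η * (H : ℝ) ^ (1 / 2 : ℝ) * (H : ℝ) ^ (1 / 2 : ℝ) := by
      rw [mul_assoc, hhalf]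
    rw [h2]
    nlinarith
  have d2 : (X : ℝ) ≤ η * H := Nat.floor_le (by positivity)
  have d3 : η * H - 1 < X := by
    have := Nat.lt_floor_add_one (η * (H : ℝ))
    rw [← hX] at this
    linarith
  have d4 : (H : ℝ) ^ (1 / 2 : ℝ) ≤ X := by linarith
  have d5 : (1 : ℝ) ≤ X := by linarith
  have hX1 : 1 ≤ X := by exact_mod_cast d5
  have hXp : (0 : ℝ) < X := by linarith
  have d6 : (X : ℝ) ≤ H / 512 := by
    have : η * H ≤ 1 / 512 * H := mul_le_mul_of_nonneg_right hη1 hHp.le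
    linarith
  have hXH : 2 * X ≤ H := by
    have : (2 : ℝ) * X ≤ H := by linarith
    exact_mod_cast this
  have hXH' : X ≤ H := by omega
  have d7 : (H : ℝ) / X ≤ 2 / η := by
    rw [div_le_div_iff₀ hXp hη0]
    linarith
  have hlogX : 0 ≤ Real.log X := Real.log_nonneg d5
  have hlogXH : Real.log X ≤ Real.log H := Real.log_le_log hXp (by exact_mod_cast hXH')
  -- the window
  have hHk : (H : ℝ) ^ (1 + κ) = H * (H : ℝ) ^ κ := by
    rw [Real.rpow_add hHp, Real.rpow_one]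
  have f1 : 32 * (H : ℝ) ≤ xa := by
    refine le_trans ?_ hxa
    rw [hHk]
    nlinarith
  have hxa0 : 0 < xa := by linarith
  have hxb0 : 0 < xb := by linarith
  set Λ := Real.log xb - Real.log xa with hΛd
  have f2 : 1 ≤ Λ := c1.trans hΛ
  have f3 : 2 * xa ≤ xb := by
    have h1 : Real.log xa + 1 ≤ Real.log xb := by linarith
    have h2 := Real.exp_le_exp.2 h1
    rw [Real.exp_add, Real.exp_log hxa0, Real.exp_log hxb0] at h2
    have h3 : 2 ≤ Real.exp 1 := by linarith [Real.exp_one_gt_d9]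
    nlinarith
  set s := ⌊xa⌋₊ with hs
  set t := ⌊xb⌋₊ with ht
  have g1 : (s : ℝ) ≤ xa := Nat.floor_le hxa0.le
  have g2 : xa < s + 1 := Nat.lt_floor_add_one xa
  have g3 : (t : ℝ) ≤ xb := Nat.floor_le hxb0.le
  have g4 : xb < t + 1 := Nat.lt_floor_add_one xb
  have hs16 : 16 * H ≤ s := by
    have : (16 : ℝ) * H ≤ s := by linarith
    exact_mod_cast this
  have hst : s < t := by
    have : (s : ℝ) < t := by linarith
    exact_mod_cast this
  -- frequencies
  obtain ⟨a, ha1, ha2⟩ := exists_freq (fun j b => Sc X j b) (stp α (η / H)) (X := X) (H := H)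
    (na := s + 1) (nb := t) hst hXH'
  have hta : Real.log xa ≤ Real.log (((s + X) / X) * X : ℕ) := by
    refine Real.log_le_log hxa0 ?_
    have h1 : s + X < (s + X) / X * X + X := Nat.lt_div_mul_add (by omega)
    have h2 : s + 1 ≤ (s + X) / X * X := by omega
    have h3 : ((s + 1 : ℕ) : ℝ) ≤ (((s + X) / X * X : ℕ) : ℝ) := by exact_mod_cast h2
    push_cast at h3 ⊢
    linarith
  have htb : Real.log (((t + H) / X) * X : ℕ) ≤ Real.log (xb + H) := by
    refine Real.log_le_log ?_ ?_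
    · have h1 : t + H < (t + H) / X * X + X := Nat.lt_div_mul_add (by omega)
      have h2 : 0 < (t + H) / X * X := by omega
      exact_mod_cast h2
    · have h1 : (t + H) / X * X ≤ t + H := Nat.div_mul_le_self _ _
      have h2 : (((t + H) / X * X : ℕ) : ℝ) ≤ ((t + H : ℕ) : ℝ) := by exact_mod_cast h1
      push_cast at h2 ⊢
      linarith
  have hmain := main_ineq hX1 hXH (by omega : 6 * H ≤ s) hst hη0.le α a
    (fun j n q1 q2 q3 q4 => ha1 j n q1 q2 q3 q4) hta htb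
  set I := ∫ u in (Real.log xa)..(Real.log (xb + H)), SS X a u with hI
  have hs0 : (0 : ℝ) < s := by
    have : 0 < s := by omega
    exact_mod_cast this
  have hs1 : (1 : ℝ) ≤ s := by
    have : 1 ≤ s := by omega
    exact_mod_cast this
  have hlogst : Real.log t - Real.log s ≤ 2 * Λ := by
    have h1 : Real.log t ≤ Real.log xb := by
      refine Real.log_le_log ?_ g3
      have : (s : ℝ) < t := by exact_mod_cast hst
      linarith
    have h2 : Real.log (xa / s) ≤ xa / s - 1 := Real.log_le_sub_one_of_pos (by positivity)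
    rw [Real.log_div hxa0.ne' hs0.ne'] at h2
    have h3 : xa / s ≤ 2 := by
      rw [div_le_iff₀ hs0]
      linarith
    linarith
  have hcoef : 2 * (X : ℝ) / H + 2 * Real.pi * η ≤ 8.3 * η := by
    have h1 : 2 * (X : ℝ) / H ≤ 2 * η := by
      rw [div_le_iff₀ hHp]
      linarith
    have h2 : Real.pi ≤ 3.15 := Real.pi_lt_d2.le
    nlinarith
  have hcoef0 : 0 ≤ 2 * (X : ℝ) / H + 2 * Real.pi * η := by positivity
  have hIge : ε / 8 * Λ ≤ I := by
    have h1 : (2 * (X : ℝ) / H + 2 * Real.pi * η) * (Real.log t - Real.log s) ≤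
        8.3 * η * (2 * Λ) :=
      (mul_le_mul_of_nonneg_left hlogst hcoef0).trans
        (mul_le_mul_of_nonneg_right hcoef (by linarith))
    have h2 := hsum.trans (hmain.trans (add_le_add le_rfl h1))
    rw [hη] at h2
    have hεΛ : 0 ≤ ε * Λ := by positivity
    nlinarith
  have htbta : Real.log (xb + H) - Real.log xa ≤ 2 * Λ := by
    have h1 : Real.log ((xb + H) / xb) ≤ (xb + H) / xb - 1 :=
      Real.log_le_sub_one_of_pos (by positivity)
    rw [Real.log_div (by positivity) hxb0.ne'] at h1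
    have h2 : (xb + H) / xb ≤ 2 := by
      rw [div_le_iff₀ hxb0]
      linarith
    linarith
  have htb2 : Λ ≤ Real.log (xb + H) - Real.log xa := by
    have h1 : Real.log xb ≤ Real.log (xb + H) := Real.log_le_log hxb0 (by linarith)
    linarith
  -- the number of the changes
  have hXA : (H : ℝ) ^ (A + 8) ≤ (X : ℝ) ^ (2 * (A + 8)) := by
    have h1 : ((H : ℝ) ^ (1 / 2 : ℝ)) ^ (2 * (A + 8)) ≤ (X : ℝ) ^ (2 * (A + 8)) :=
      Real.rpow_le_rpow (by positivity) d4 (by linarith)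
    rw [← Real.rpow_mul hHp.le] at h1
    have h2 : (1 / 2 : ℝ) * (2 * (A + 8)) = A + 8 := by ring
    rwa [h2] at h1
  have hR : ∃ R : ℝ, 1 ≤ R ∧ R ≤ (X : ℝ) ^ (2 * (A + 8)) ∧
      R ≤ Real.exp (Real.log xa) * (X : ℝ) ^ (-(1 / 2) : ℝ) ∧
      ∀ u : ℝ, (#((Ico ⌊Real.exp u / (X : ℝ)⌋₊ ⌊Real.exp (u + 1) / (X : ℝ)⌋₊).filter
        fun i => a (i + 1) ≠ a i) : ℝ) ≤ R := by
    rw [Real.exp_log hxa0]
    by_cases hbig : (H : ℝ) ^ (A + 6) ≤ xa
    · refine ⟨(H : ℝ) ^ (A + 2), Real.one_le_rpow hH1 (by linarith), ?_, ?_, ?_⟩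
      · exact (Real.rpow_le_rpow_of_exponent_le hH1 (by linarith)).trans hXA
      · have h1 : (H : ℝ) ^ (-(1 / 2) : ℝ) ≤ (X : ℝ) ^ (-(1 / 2) : ℝ) :=
          Real.rpow_le_rpow_of_nonpos hXp (by exact_mod_cast hXH') (by norm_num)
        calc (H : ℝ) ^ (A + 2) ≤ (H : ℝ) ^ (A + 6 + -(1 / 2)) :=
              Real.rpow_le_rpow_of_exponent_le hH1 (by linarith)
          _ = (H : ℝ) ^ (A + 6) * (H : ℝ) ^ (-(1 / 2) : ℝ) := Real.rpow_add hHp _ _
          _ ≤ xa * (X : ℝ) ^ (-(1 / 2) : ℝ) :=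
              mul_le_mul hbig h1 (by positivity) hxa0.le
      · intro u
        have h1 := changes_A hX1 hXH' hη0 α a hTV hs16 ha2 u
        refine h1.trans ?_
        have h2 : (1 : ℝ) ≤ (H : ℝ) ^ (A + 1) := Real.one_le_rpow hH1 (by linarith)
        have h3 : (H : ℝ) ^ A * H = (H : ℝ) ^ (A + 1) := by
          rw [Real.rpow_add hHp, Real.rpow_one]
        have h4 : 1 + 3 * (H : ℝ) ^ A * H / η ≤ (1 + 3 / η) * (H : ℝ) ^ (A + 1) := by
          have h5 : 3 * (H : ℝ) ^ A * H / η = 3 / η * (H : ℝ) ^ (A + 1) := by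
            rw [mul_assoc 3, h3]
            ring
          rw [h5, add_mul, one_mul]
          linarith
        calc (1 + 3 * (H : ℝ) ^ A * H / η) * ((H : ℝ) / X + 1)
            ≤ ((1 + 3 / η) * (H : ℝ) ^ (A + 1)) * (2 / η + 1) :=
              mul_le_mul h4 (by linarith) (by positivity) (by positivity)
          _ = K0 * (H : ℝ) ^ (A + 1) := by rw [hK0]; ring
          _ ≤ H * (H : ℝ) ^ (A + 1) := mul_le_mul_of_nonneg_right c6 (by positivity)
          _ = (H : ℝ) ^ (A + 2) := by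
              have h6 : A + 2 = 1 + (A + 1) := by ring
              rw [h6, Real.rpow_add hHp 1 (A + 1), Real.rpow_one]
    · have hxbB : xb ≤ xa * (H : ℝ) ^ (2 * κ) := by
        rcases hcase with h | h
        · exact h
        · exact absurd h hbig
      push Not at hbig
      have k1 : 3 * (H : ℝ) ^ (2 * κ) ≤ (H : ℝ) ^ (1 / 4 : ℝ) := by
        calc 3 * (H : ℝ) ^ (2 * κ) ≤ (H : ℝ) ^ (1 / 8 : ℝ) * (H : ℝ) ^ (2 * κ) :=
              mul_le_mul_of_nonneg_right c4 (by positivity)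
          _ = (H : ℝ) ^ (1 / 8 + 2 * κ) := (Real.rpow_add hHp _ _).symm
          _ ≤ (H : ℝ) ^ (1 / 4 : ℝ) := Real.rpow_le_rpow_of_exponent_le hH1 (by linarith)
      have k2 : (H : ℝ) ^ (1 / 4 : ℝ) ≤ (X : ℝ) ^ (1 / 2 : ℝ) := by
        have h1 : ((H : ℝ) ^ (1 / 2 : ℝ)) ^ (1 / 2 : ℝ) ≤ (X : ℝ) ^ (1 / 2 : ℝ) :=
          Real.rpow_le_rpow (by positivity) d4 (by norm_num)
        rw [← Real.rpow_mul hHp.le] at h1
        norm_num at h1 ⊢
        exact h1
      have k3 : (X : ℝ) ^ (1 / 2 : ℝ) * (X : ℝ) ^ (-(1 / 2) : ℝ) = 1 := by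
        rw [← Real.rpow_add hXp]
        norm_num
      have k4 : (X : ℝ) ^ (1 / 2 : ℝ) * (X : ℝ) ^ (1 / 2 : ℝ) = X := by
        rw [← Real.rpow_add hXp]
        norm_num
      have k5 : (X : ℝ) ^ (1 / 2 : ℝ) / X = (X : ℝ) ^ (-(1 / 2) : ℝ) := by
        rw [div_eq_iff hXp.ne']
        calc (X : ℝ) ^ (1 / 2 : ℝ) = (X : ℝ) ^ (1 / 2 : ℝ) * ((X : ℝ) ^ (1 / 2 : ℝ) *
              (X : ℝ) ^ (-(1 / 2) : ℝ)) := by rw [k3, mul_one]
          _ = (X : ℝ) ^ (-(1 / 2) : ℝ) * ((X : ℝ) ^ (1 / 2 : ℝ) * (X : ℝ) ^ (1 / 2 : ℝ)) := by ring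
          _ = _ := by rw [k4]
      refine ⟨2 * xb / X, ?_, ?_, ?_, ?_⟩
      · rw [le_div_iff₀ hXp]
        linarith
      · refine le_trans ?_ hXA
        have h1 : 2 * xb / X ≤ 2 * xb := div_le_self (by positivity) d5
        have h2 : 2 * xb ≤ (H : ℝ) ^ (A + 6) * (3 * (H : ℝ) ^ (2 * κ)) := by
          have : xa * (H : ℝ) ^ (2 * κ) ≤ (H : ℝ) ^ (A + 6) * (H : ℝ) ^ (2 * κ) :=
            mul_le_mul_of_nonneg_right hbig.le (by positivity)
          have : 0 ≤ (H : ℝ) ^ (A + 6) * (H : ℝ) ^ (2 * κ) := by positivity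
          linarith
        have h3 : (H : ℝ) ^ (A + 6) * (3 * (H : ℝ) ^ (2 * κ)) ≤
            (H : ℝ) ^ (A + 6) * (H : ℝ) ^ (1 / 4 : ℝ) :=
          mul_le_mul_of_nonneg_left k1 (by positivity)
        rw [← Real.rpow_add hHp] at h3
        exact h1.trans (h2.trans (h3.trans
          (Real.rpow_le_rpow_of_exponent_le hH1 (by linarith))))
      · rw [← k5]
        rw [mul_div_assoc']
        refine div_le_div_of_nonneg_right ?_ hXp.le
        have h1 : 2 * (H : ℝ) ^ (2 * κ) ≤ (X : ℝ) ^ (1 / 2 : ℝ) := by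
          have : 0 ≤ (H : ℝ) ^ (2 * κ) := by positivity
          linarith
        calc 2 * xb ≤ 2 * (xa * (H : ℝ) ^ (2 * κ)) := by linarith
          _ = xa * (2 * (H : ℝ) ^ (2 * κ)) := by ring
          _ ≤ xa * (X : ℝ) ^ (1 / 2 : ℝ) := mul_le_mul_of_nonneg_left h1 hxa0.le
      · intro u
        have h1 := changes_B hX1 α a ha2
          (Ico ⌊Real.exp u / (X : ℝ)⌋₊ ⌊Real.exp (u + 1) / (X : ℝ)⌋₊)
        refine h1.trans ?_
        refine div_le_div_of_nonneg_right ?_ hXp.le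
        linarith
  obtain ⟨R, hR1, hR2, hR3, hR4⟩ := hR
  refine ⟨a, Real.log xa, Real.log (xb + H), R, ?_, ?_, hR1, hR2, hR3, ?_, ?_⟩
  · have h1 : Real.log ((H : ℝ) ^ (1 + κ)) ≤ Real.log xa := Real.log_le_log (by positivity) hxa
    rw [Real.log_rpow hHp] at h1
    calc (1 + κ / 2) * Real.log X ≤ (1 + κ) * Real.log H := by
          refine mul_le_mul (by linarith) hlogXH hlogX (by linarith)
      _ ≤ _ := h1
  · have h1 : κ * Real.log X ≤ κ * Real.log H := mul_le_mul_of_nonneg_left hlogXH hκ.le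
    linarith
  · intro u
    convert hR4 u using 3
  · have h1 : ε / 16 * (Real.log (xb + H) - Real.log xa) ≤ ε / 16 * (2 * Λ) :=
      mul_le_mul_of_nonneg_left htbta (by positivity)
    linarith

end

end Pool.Agent.SV

end

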