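import Mathlib
import Pool.Agent.Lib.SV.Defs3
import Pool.Agent.Lib.TU.Z
import Pool.Agent.Lib.TU.H
import Pool.Agent.Lib.TU.RowA

/-!
# Theorem V (MP_663568_nt): row RH, the windows at the beginning (helper98)
-/

set_option autoImplicit false
open Finset

namespace Pool.Agent.SV

open Pool.Agent.Lib.MP_663568_nt Pool.Agent.Lib.MP_663568_nt.Katai
  Pool.Agent.Lib.MP_663568_nt.Nul

theorem rh : RH_stmt := by
  intro ε hε
  obtain ⟨H₀, h⟩ := TU.ZZ.start (TU.rowH TU.rowA) 1 hε
  refine ⟨H₀, fun H hH n hn a => ?_⟩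
  have h1 := h H hH n hn (fun _ => a)
  simpa [TU.ph] using h1

end Pool.Agent.SV
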