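import Pool.Agent.Lib.SV.Defs
import Pool.Agent.Lib.MP_663568_nul.Sel

/-! Theorem V, row SV1: rough numbers in short intervals. -/

set_option autoImplicit false
open Finset

namespace Pool.Agent.SV

open Pool.Agent.Lib.MP_663568_nt.Nul

lemma rough_sieve (C : ℝ) (R x y : ℕ) (lam : ℕ → ℝ) (h1 : lam 1 = 1)
    (h2 : ∀ d, |lam d| ≤ 1) (h3 : ∀ d, lam d ≠ 0 → 1 ≤ d ∧ d ≤ R ∧ Nat.Coprime d 1)
    (h4 : ∑ d ∈ Icc 1 R, ∑ d' ∈ Icc 1 R, lam d * lam d' / (Nat.lcm d d' : ℝ)
        ≤ C / Real.log R) (S : Finset ℕ) (hS : S ⊆ Ioc x (x + y))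
    (hR : 1 ≤ R) (hrough : ∀ n ∈ S, ∀ r : ℕ, r.Prime → r ∣ n → R < r) :
    (S.card : ℝ) ≤ C * y / Real.log R + (R : ℝ) ^ 2 := by
  set M := Ioc x (x + y) with hM
  have hw : (S.card : ℝ)
      ≤ ∑ m ∈ M, (∑ d ∈ (Icc 1 R).filter (fun d => d ∣ m), lam d) ^ 2 := by
    calc (S.card : ℝ) = ∑ p ∈ S, (1 : ℝ) := by simp
      _ ≤ ∑ p ∈ S, (∑ d ∈ (Icc 1 R).filter (fun d => d ∣ p), lam d) ^ 2 := by
          apply Finset.sum_le_sum
          intro p hp
          have e1 : (Icc 1 R).filter (fun d => d ∣ p) = {1} := by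
            ext d
            simp only [mem_filter, mem_Icc, mem_singleton]
            constructor
            · rintro ⟨⟨h5, h6⟩, h7⟩
              by_contra hd1
              obtain ⟨r, hr, hrd⟩ := Nat.exists_prime_and_dvd hd1
              have h8 := hrough p hp r hr (hrd.trans h7)
              have h9 := Nat.le_of_dvd h5 hrd
              omega
            · rintro rfl
              exact ⟨⟨le_refl _, by omega⟩, one_dvd _⟩
          rw [e1, Finset.sum_singleton, h1]; norm_num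
      _ ≤ _ := by
          apply Finset.sum_le_sum_of_subset_of_nonneg hS
          intro m _ _; positivity
  have hexp : ∑ m ∈ M, (∑ d ∈ (Icc 1 R).filter (fun d => d ∣ m), lam d) ^ 2
      = ∑ d ∈ Icc 1 R, ∑ d' ∈ Icc 1 R, lam d * lam d' *
        (((Ioc x (x + y)).filter fun m : ℕ => m ≡ 0 [MOD 1] ∧ Nat.lcm d d' ∣ m).card : ℝ) := by
    have e1 : ∀ m ∈ M, (∑ d ∈ (Icc 1 R).filter (fun d => d ∣ m), lam d) ^ 2
        = ∑ d ∈ Icc 1 R, ∑ d' ∈ Icc 1 R, lam d * lam d' *
          (if Nat.lcm d d' ∣ m then (1 : ℝ) else 0) := by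
      intro m _
      rw [Finset.sum_filter, sq, Finset.sum_mul_sum]
      apply Finset.sum_congr rfl; intro d _
      apply Finset.sum_congr rfl; intro d' _
      by_cases ha : d ∣ m <;> by_cases hb : d' ∣ m
      · rw [if_pos ha, if_pos hb, if_pos (Nat.lcm_dvd ha hb), mul_one]
      · rw [if_neg hb, if_neg (fun h => hb ((Nat.dvd_lcm_right d d').trans h))]; simp
      · rw [if_neg ha, if_neg (fun h => ha ((Nat.dvd_lcm_left d d').trans h))]; simp
      · rw [if_neg ha, if_neg (fun h => ha ((Nat.dvd_lcm_left d d').trans h))]; simp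
    rw [Finset.sum_congr rfl e1, Finset.sum_comm]
    apply Finset.sum_congr rfl; intro d _
    rw [Finset.sum_comm]
    apply Finset.sum_congr rfl; intro d' _
    rw [← Finset.mul_sum]
    congr 1
    have e2 : (Ioc x (x + y)).filter (fun m : ℕ => m ≡ 0 [MOD 1] ∧ Nat.lcm d d' ∣ m) =
        (Ioc x (x + y)).filter (fun m : ℕ => Nat.lcm d d' ∣ m) := by
      apply Finset.filter_congr
      intro m _
      exact ⟨fun h => h.2, fun h => ⟨Nat.modEq_one, h⟩⟩
    rw [e2, ← Finset.sum_filter, hM]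
    simp
  have hterm : ∀ d ∈ Icc 1 R, ∀ d' ∈ Icc 1 R, lam d * lam d' *
        (((Ioc x (x + y)).filter fun m : ℕ => m ≡ 0 [MOD 1] ∧ Nat.lcm d d' ∣ m).card : ℝ)
      ≤ (y : ℝ) * (lam d * lam d' / (Nat.lcm d d' : ℝ)) + 1 := by
    intro d hd d' hd'
    by_cases h0 : lam d * lam d' = 0
    · rw [h0]; simp
    obtain ⟨a1, -, a3⟩ := h3 d (left_ne_zero_of_mul h0)
    obtain ⟨a1', -, a3'⟩ := h3 d' (right_ne_zero_of_mul h0)
    have hL : 1 ≤ Nat.lcm d d' := Nat.lcm_pos a1 a1'
    have hLR : (0 : ℝ) < (Nat.lcm d d' : ℝ) := by exact_mod_cast hL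
    have h5 := Sel.count_le 1 (Nat.lcm d d') 0 x y le_rfl hL (Nat.coprime_one_right _)
    set n := (((Ioc x (x + y)).filter fun m : ℕ => m ≡ 0 [MOD 1] ∧ Nat.lcm d d' ∣ m).card : ℝ)
      with hn
    have h6 : |lam d * lam d'| ≤ 1 := by
      rw [abs_mul]
      exact mul_le_one₀ (h2 d) (abs_nonneg _) (h2 d')
    have e1 : (y : ℝ) * (lam d * lam d' / (Nat.lcm d d' : ℝ))
        = lam d * lam d' * ((y : ℝ) / ((1 : ℕ) * (Nat.lcm d d' : ℝ))) := by
      push_cast
      field_simp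
    rw [e1]
    have h7 : lam d * lam d' * (n - (y : ℝ) / ((1 : ℕ) * (Nat.lcm d d' : ℝ))) ≤ 1 := by
      refine (le_abs_self _).trans ?_
      rw [abs_mul]
      exact mul_le_one₀ h6 (abs_nonneg _) h5
    linarith
  have hsum : ∑ d ∈ Icc 1 R, ∑ d' ∈ Icc 1 R, lam d * lam d' *
        (((Ioc x (x + y)).filter fun m : ℕ => m ≡ 0 [MOD 1] ∧ Nat.lcm d d' ∣ m).card : ℝ)
      ≤ (y : ℝ) * (∑ d ∈ Icc 1 R, ∑ d' ∈ Icc 1 R, lam d * lam d' / (Nat.lcm d d' : ℝ))
        + (R : ℝ) ^ 2 := by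
    calc _ ≤ ∑ d ∈ Icc 1 R, ∑ d' ∈ Icc 1 R,
          ((y : ℝ) * (lam d * lam d' / (Nat.lcm d d' : ℝ)) + 1) :=
          Finset.sum_le_sum (fun d hd => Finset.sum_le_sum (hterm d hd))
      _ = _ := by
          simp only [Finset.sum_add_distrib, ← Finset.mul_sum]
          simp
          ring
  have hmain : (y : ℝ) * (∑ d ∈ Icc 1 R, ∑ d' ∈ Icc 1 R,
        lam d * lam d' / (Nat.lcm d d' : ℝ)) ≤ C * y / Real.log R := by
    calc _ ≤ (y : ℝ) * (C / Real.log R) := by gcongr
      _ = _ := by ring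
  linarith [hw, hexp, hsum, hmain]

/-- Row SV1. -/
theorem sv1 : SV1_stmt := by
  classical
  obtain ⟨C, hC, hw⟩ := selberg_weights
  refine ⟨16 * C + 8, by positivity, fun P x y hP hx hy => ?_⟩
  have hP0 : (0 : ℝ) < P := by linarith
  have hy0 : (0 : ℝ) < y := by linarith
  have hlogP : 0 < Real.log P := Real.log_pos (by linarith)
  set S := (Ioc ⌊x⌋₊ ⌊x + y⌋₊).filter fun n : ℕ => ∀ r : ℕ, r.Prime → r ∣ n → P ≤ r with hS
  have hfl : ⌊x⌋₊ ≤ ⌊x + y⌋₊ := Nat.floor_le_floor (by linarith)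
  obtain ⟨Y, hY⟩ := Nat.exists_eq_add_of_le hfl
  have hYR : (Y : ℝ) ≤ 2 * y := by
    have h1 : ((⌊x + y⌋₊ : ℕ) : ℝ) ≤ x + y := Nat.floor_le (by linarith)
    have h2 : x < (⌊x⌋₊ : ℝ) + 1 := Nat.lt_floor_add_one x
    rw [hY] at h1
    push_cast at h1
    linarith
  have hcard : (S.card : ℝ) ≤ Y := by
    have h1 : S.card ≤ Y := by
      calc S.card ≤ (Ioc ⌊x⌋₊ ⌊x + y⌋₊).card := Finset.card_filter_le _ _
        _ = Y := by rw [Nat.card_Ioc, hY]; omega
    exact_mod_cast h1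
  have hgoal : (S.card : ℝ) ≤ (16 * C + 8) * y / Real.log P := by
    rw [le_div_iff₀ hlogP]
    by_cases hP16 : P < 16
    · have h1 : Real.log P ≤ 4 := by
        have h2 : Real.log P ≤ Real.log 16 := Real.log_le_log hP0 hP16.le
        have h3 : Real.log 16 = 4 * Real.log 2 := by
          rw [show (16 : ℝ) = 2 ^ 4 by norm_num, Real.log_pow]; norm_num
        have := Real.log_two_lt_d9
        linarith
      calc (S.card : ℝ) * Real.log P ≤ (2 * y) * 4 :=
            mul_le_mul (hcard.trans hYR) h1 hlogP.le (by positivity)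
        _ ≤ (16 * C + 8) * y := by nlinarith
    · push Not at hP16
      set R : ℕ := ⌊P ^ (1 / 4 : ℝ)⌋₊ with hR
      have h16 : (2 : ℝ) ≤ P ^ (1 / 4 : ℝ) := by
        have h1 : (16 : ℝ) ^ (1 / 4 : ℝ) ≤ P ^ (1 / 4 : ℝ) :=
          Real.rpow_le_rpow (by norm_num) hP16 (by norm_num)
        have h2 : (16 : ℝ) ^ (1 / 4 : ℝ) = 2 := by
          rw [show (16 : ℝ) = 2 ^ (4 : ℝ) by norm_num, ← Real.rpow_mul (by norm_num)]
          norm_num
        linarith
      have hR2 : 2 ≤ R := Nat.le_floor (by exact_mod_cast h16)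
      have hRR : (R : ℝ) ≤ P ^ (1 / 4 : ℝ) := Nat.floor_le (by positivity)
      have hR1' : P ^ (1 / 4 : ℝ) < R + 1 := Nat.lt_floor_add_one _
      have hR2R : (2 : ℝ) ≤ R := by exact_mod_cast hR2
      have hRP : (R : ℝ) < P := by
        refine lt_of_le_of_lt hRR ?_
        calc P ^ (1 / 4 : ℝ) < P ^ (1 : ℝ) :=
              Real.rpow_lt_rpow_of_exponent_lt (by linarith) (by norm_num)
          _ = P := Real.rpow_one P
      obtain ⟨lam, h1, h2, h3, h4⟩ := hw 1 R le_rfl hR2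
      have h4' : ∑ d ∈ Icc 1 R, ∑ d' ∈ Icc 1 R, lam d * lam d' / (Nat.lcm d d' : ℝ)
          ≤ C / Real.log R := by simpa using h4
      have h5 := rough_sieve C R ⌊x⌋₊ Y lam h1 h2 h3 h4' S (by
        rw [← hY]; exact Finset.filter_subset _ _) (by omega) (by
        intro n hn r hr hrn
        have h6 := (Finset.mem_filter.1 hn).2 r hr hrn
        have h7 : (R : ℝ) < r := lt_of_lt_of_le hRP h6
        exact_mod_cast h7)
      have hlogR : 0 < Real.log R := Real.log_pos (by linarith)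
      have hl1 : Real.log P ≤ 8 * Real.log R := by
        have e1 : Real.log P / 4 ≤ Real.log (R + 1) := by
          have e2 : Real.log (P ^ (1 / 4 : ℝ)) = Real.log P / 4 := by
            rw [Real.log_rpow hP0]; ring
          rw [← e2]
          exact Real.log_le_log (by positivity) hR1'.le
        have e3 : Real.log (R + 1) ≤ 2 * Real.log R := by
          calc Real.log (R + 1) ≤ Real.log ((R : ℝ) ^ 2) :=
                Real.log_le_log (by positivity) (by nlinarith)
            _ = 2 * Real.log R := by rw [Real.log_pow]; norm_num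
        linarith
      have t1 : C * Y / Real.log R * Real.log P ≤ 16 * C * y := by
        rw [div_mul_eq_mul_div, div_le_iff₀ hlogR]
        calc C * Y * Real.log P ≤ C * (2 * y) * (8 * Real.log R) := by gcongr
          _ = 16 * C * y * Real.log R := by ring
      have t2 : (R : ℝ) ^ 2 * Real.log P ≤ 8 * y := by
        have e1 : (R : ℝ) ^ 2 ≤ Real.sqrt P := by
          calc (R : ℝ) ^ 2 ≤ (P ^ (1 / 4 : ℝ)) ^ 2 := pow_le_pow_left₀ (by positivity) hRR 2
            _ = Real.sqrt P := by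
              rw [← Real.rpow_natCast, ← Real.rpow_mul hP0.le, Real.sqrt_eq_rpow]
              norm_num
        have e2 : Real.log P ≤ 2 * Real.sqrt P := by
          have e3 := Real.log_le_sub_one_of_pos (Real.sqrt_pos.2 hP0)
          rw [Real.log_sqrt hP0.le] at e3
          linarith
        have e4 := Real.mul_self_sqrt hP0.le
        calc (R : ℝ) ^ 2 * Real.log P ≤ Real.sqrt P * (2 * Real.sqrt P) :=
              mul_le_mul e1 e2 hlogP.le (Real.sqrt_nonneg _)
          _ = 2 * (Real.sqrt P * Real.sqrt P) := by ring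
          _ = 2 * P := by rw [e4]
          _ ≤ 8 * y := by linarith
      have t3 := mul_le_mul_of_nonneg_right h5 hlogP.le
      calc (S.card : ℝ) * Real.log P
          ≤ (C * Y / Real.log R + (R : ℝ) ^ 2) * Real.log P := t3
        _ = C * Y / Real.log R * Real.log P + (R : ℝ) ^ 2 * Real.log P := by ring
        _ ≤ (16 * C + 8) * y := by linarith
  rw [hS] at hgoal
  convert hgoal

end Pool.Agent.SV
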