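import Pool.Agent.Lib.SV.Defs
import Pool.Agent.Lib.MP_f006b0_nt_h92.Av

/-! Theorem V, row SV2: the two-dimensional sieve. -/

set_option autoImplicit false
open Finset

namespace Pool.Agent.SV.Two

open ArithmeticFunction BoundingSieve
open Pool.Agent.FQ
open Pool.Agent.Lib.MP_663568_nt.Nul.Sel (SC GG)

/-- the product of the two linear forms -/
def F2 (h n : ℕ) : ℕ := n * (n + h)

lemma three_le {p h : ℕ} (hp : p.Prime) (hq : ¬ p ∣ 2 * h) : 3 ≤ p := by
  by_contra hlt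
  have h2 := hp.two_le
  have : p = 2 := by omega
  rw [this] at hq
  exact hq ⟨h, rfl⟩

lemma roots_card {p h : ℕ} (hp : p.Prime) (hq : ¬ p ∣ 2 * h) :
    ((range p).filter (fun r => p ∣ F2 h r)).card = 2 := by
  classical
  have : Fact p.Prime := ⟨hp⟩
  have e1 : (h : ZMod p) ≠ 0 := fun h0 => hq (((ZMod.natCast_eq_zero_iff _ _).1 h0).mul_left 2)
  set Z : Finset (ZMod p) := {0, -(h : ZMod p)} with hZ
  have hZc : Z.card = 2 := by
    rw [hZ, Finset.card_pair]
    intro h0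
    apply e1
    linear_combination h0
  have hFz : ∀ r : ℕ, p ∣ F2 h r ↔ (r : ZMod p) ∈ Z := by
    intro r
    rw [← ZMod.natCast_eq_zero_iff]
    unfold F2
    push_cast
    simp only [hZ, Finset.mem_insert, Finset.mem_singleton, mul_eq_zero]
    constructor
    · rintro (h0 | h0)
      · exact Or.inl h0
      · exact Or.inr (by linear_combination h0)
    · rintro (h0 | h0)
      · exact Or.inl h0
      · exact Or.inr (by linear_combination h0)
  have himg : (range p).filter (fun r => p ∣ F2 h r) = Z.image ZMod.val := by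
    ext r
    simp only [mem_filter, mem_range, mem_image]
    constructor
    · rintro ⟨h1, h'⟩
      exact ⟨(r : ZMod p), (hFz r).1 h', ZMod.val_natCast_of_lt h1⟩
    · rintro ⟨z, hz, rfl⟩
      refine ⟨ZMod.val_lt z, (hFz _).2 ?_⟩
      rw [ZMod.natCast_zmod_val]
      exact hz
  rw [himg, Finset.card_image_of_injective _ (ZMod.val_injective p), hZc]

lemma F2_strictMono (h : ℕ) {a b : ℕ} (ha : 1 ≤ a) (hab : a < b) : F2 h a < F2 h b := by
  unfold F2
  nlinarith

lemma F2_inj (h x : ℕ) : Set.InjOn (F2 h) ((Ico 1 (x + 1) : Finset ℕ) : Set ℕ) := by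
  intro a ha b hb h0
  have ha' := (Finset.mem_Ico.1 (Finset.mem_coe.1 ha)).1
  have hb' := (Finset.mem_Ico.1 (Finset.mem_coe.1 hb)).1
  rcases lt_trichotomy a b with h' | h' | h'
  · exact absurd h0 (F2_strictMono h ha' h').ne
  · exact h'
  · exact absurd h0.symm (F2_strictMono h hb' h').ne

/-- the density -/
noncomputable def nu2 : ArithmeticFunction ℝ :=
  ArithmeticFunction.prodPrimeFactors (fun p => 2 / (p : ℝ))

lemma nu2_apply {d : ℕ} (hd : d ≠ 0) : nu2 d = ∏ p ∈ d.primeFactors, (2 / (p : ℝ)) := by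
  unfold nu2
  rw [ArithmeticFunction.prodPrimeFactors_apply hd]

lemma nu2_prime {p : ℕ} (hp : p.Prime) : nu2 p = 2 / (p : ℝ) := by
  rw [nu2_apply hp.ne_zero, hp.primeFactors, Finset.prod_singleton]

/-- the sieve problem -/
noncomputable def BS2 (x h y : ℕ) : BoundingSieve where
  support := (Ico 1 (x + 1)).image (F2 h)
  prodPrimes := ∏ p ∈ PS (2 * h) y, p
  prodPrimes_squarefree := sqf_prod _ (fun p hp => (mem_PS.1 hp).2.1)
  weights := fun _ => 1
  weights_nonneg := fun _ => zero_le_one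
  totalMass := x
  nu := nu2
  nu_mult := ArithmeticFunction.IsMultiplicative.prodPrimeFactors _
  nu_pos_of_prime := by
    intro p hp _
    rw [nu2_prime hp]
    have : (0 : ℝ) < p := by exact_mod_cast hp.pos
    positivity
  nu_lt_one_of_prime := by
    intro p hp hd
    rw [nu2_prime hp]
    have h1 : p ∈ PS (2 * h) y := by
      obtain ⟨r, hr, hpr⟩ := (hp.prime.dvd_finsetProd_iff _).1 hd
      rwa [(Nat.prime_dvd_prime_iff_eq hp (mem_PS.1 hr).2.1).1 hpr]
    have h5 : (3 : ℝ) ≤ p := by exact_mod_cast three_le hp (mem_PS.1 h1).2.2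
    rw [div_lt_one (by linarith)]
    linarith

lemma BS_mem {x h y d : ℕ} (hd : d ∣ (BS2 x h y).prodPrimes) {p : ℕ}
    (hp : p ∈ d.primeFactors) : p ≤ y ∧ p.Prime ∧ ¬ p ∣ 2 * h := by
  have hpp := Nat.prime_of_mem_primeFactors hp
  have h1 : p ∣ ∏ p ∈ PS (2 * h) y, p := (Nat.dvd_of_mem_primeFactors hp).trans hd
  obtain ⟨r, hr, hpr⟩ := (hpp.prime.dvd_finsetProd_iff _).1 h1
  rw [(Nat.prime_dvd_prime_iff_eq hpp (mem_PS.1 hr).2.1).1 hpr]
  exact mem_PS.1 hr

lemma BS_rem (x h y d : ℕ) (hd : d ∣ (BS2 x h y).prodPrimes) :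
    |(BS2 x h y).rem d| ≤ (d : ℝ) := by
  have hsq : Squarefree d := squarefree_of_dvd_prodPrimes hd
  have hd0 : d ≠ 0 := hsq.ne_zero
  have hmod : ∀ p k : ℕ, p ∣ F2 h (k % p) ↔ p ∣ F2 h k := by
    intro p k
    have e : F2 h (k % p) ≡ F2 h k [MOD p] := by
      unfold F2
      have h0 : k % p ≡ k [MOD p] := Nat.mod_modEq k p
      exact h0.mul (h0.add_right _)
    exact e.dvd_iff (dvd_refl p)
  set A : ℕ → Finset ℕ := fun p => (range p).filter (fun r => ¬ p ∣ F2 h r) with hA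
  have hc := crtCount d.primeFactors (fun p hp => Nat.prime_of_mem_primeFactors hp)
    A (fun p _ => Finset.filter_subset _ _) 1 0 1 (x + 1) one_pos (Nat.coprime_one_left _)
    (by omega)
  have hcard : ∀ p ∈ d.primeFactors, (1 - ((A p).card : ℝ) / p) = 2 / (p : ℝ) := by
    intro p hp
    obtain ⟨-, hpp, hpq⟩ := BS_mem hd hp
    have h4 := roots_card hpp hpq
    have h5 := Finset.card_filter_add_card_filter_not (s := range p)
      (fun r => p ∣ F2 h r)
    rw [h4, Finset.card_range] at h5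
    have hp0 : (0 : ℝ) < p := by exact_mod_cast hpp.pos
    have h6 : ((A p).card : ℝ) = (p : ℝ) - 2 := by
      have : (A p).card + 2 = p := by rw [hA]; simp only; omega
      rw [eq_sub_iff_add_eq]
      exact_mod_cast this
    rw [h6]
    field_simp
    ring
  have hset : (Ico 1 (x + 1)).filter (fun k => k % 1 = 0 % 1 ∧ ∀ p ∈ d.primeFactors, k % p ∉ A p)
      = (Ico 1 (x + 1)).filter (fun k => d ∣ F2 h k) := by
    apply Finset.filter_congr
    intro k _
    constructor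
    · rintro ⟨_, h1⟩
      rw [← Nat.prod_primeFactors_of_squarefree hsq]
      apply Finset.prod_primes_dvd
      · intro p hp
        exact (Nat.prime_of_mem_primeFactors hp).prime
      · intro p hp
        have hpp := Nat.prime_of_mem_primeFactors hp
        have := h1 p hp
        rw [hA] at this
        simp only [mem_filter, mem_range, not_and, not_not] at this
        exact (hmod p k).1 (this (Nat.mod_lt _ hpp.pos))
    · intro h1
      refine ⟨by simp [Nat.mod_one], ?_⟩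
      intro p hp hmem
      rw [hA] at hmem
      simp only [mem_filter, mem_range] at hmem
      exact hmem.2 ((hmod p k).2 ((Nat.dvd_of_mem_primeFactors hp).trans h1))
  rw [hset, Finset.prod_congr rfl hcard] at hc
  have hprod : ∏ p ∈ d.primeFactors, (p : ℝ) = (d : ℝ) := by
    rw [← Nat.cast_prod, Nat.prod_primeFactors_of_squarefree hsq]
  rw [hprod] at hc
  have hms : (BS2 x h y).multSum d
      = (((Ico 1 (x + 1)).filter (fun k => d ∣ F2 h k)).card : ℝ) := by
    change ∑ n ∈ (Ico 1 (x + 1)).image (F2 h), (if d ∣ n then (1 : ℝ) else 0) = _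
    rw [Finset.sum_image (F2_inj h x), Finset.card_filter]
    push_cast
    rfl
  unfold BoundingSieve.rem
  rw [hms]
  change |_ - nu2 d * (x : ℝ)| ≤ _
  rw [nu2_apply hd0]
  have e2 : (((x + 1 : ℕ) : ℝ) - ((1 : ℕ) : ℝ)) / ((1 : ℕ) : ℝ) = x := by
    push_cast; ring
  rw [e2] at hc
  rw [mul_comm (∏ p ∈ d.primeFactors, (2 / (p : ℝ)))]
  exact hc

lemma BS_nu (x h y d : ℕ) (hd : d ∣ (BS2 x h y).prodPrimes) :
    ((BS2 x h y).nu d)⁻¹ ≤ (d : ℝ) := by
  have hsq : Squarefree d := squarefree_of_dvd_prodPrimes hd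
  change (nu2 d)⁻¹ ≤ _
  rw [nu2_apply hsq.ne_zero, ← Finset.prod_inv_distrib]
  have hprod : ∏ p ∈ d.primeFactors, (p : ℝ) = (d : ℝ) := by
    rw [← Nat.cast_prod, Nat.prod_primeFactors_of_squarefree hsq]
  rw [← hprod]
  apply Finset.prod_le_prod
  · intro p _; positivity
  · intro p hp
    have hp0 : (0 : ℝ) < p := by exact_mod_cast (Nat.prime_of_mem_primeFactors hp).pos
    rw [inv_div]
    linarith

/-- the lower bound for the Selberg sum in dimension two -/
theorem Gs_lower2 (s : BoundingSieve) (P : Finset ℕ) (hP : ∀ p ∈ P, p.Prime)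
    (hP3 : ∀ p ∈ P, 3 ≤ p)
    (hs : s.prodPrimes = ∏ p ∈ P, p) (hnu : ∀ p ∈ P, s.nu p = 2 / (p : ℝ)) (q y : ℕ) (hq : 1 ≤ q)
    (hPP : ∀ p, p.Prime → p ≤ y → ¬ p ∣ q → p ∈ P) :
    (((Nat.totient q : ℝ) / q) * Real.log (y + 1 : ℕ)) ^ 2 ≤ Gs s (y ^ 2) := by
  have hqR : (0 : ℝ) < q := by exact_mod_cast hq
  have hphi : (0 : ℝ) < (Nat.totient q : ℝ) := by exact_mod_cast Nat.totient_pos.2 hq
  have h1 := Pool.Agent.Lib.MP_663568_nt.Nul.Sel.log_le q y hq
  have h2 : ((Nat.totient q : ℝ) / q) * Real.log (y + 1 : ℕ) ≤ GG q y := by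
    calc ((Nat.totient q : ℝ) / q) * Real.log (y + 1 : ℕ)
        ≤ ((Nat.totient q : ℝ) / q) * (((q : ℝ) / Nat.totient q) * GG q y) :=
          mul_le_mul_of_nonneg_left h1 (by positivity)
      _ = GG q y := by field_simp
  have h0 : 0 ≤ Real.log (y + 1 : ℕ) := Real.log_natCast_nonneg _
  have h3 := GG_le_TT q y P (fun p hp => (hP p hp).two_le) hPP
  have hf : ∀ p ∈ P, 0 ≤ (fun p : ℕ => 1 / ((p : ℝ) - 1)) p := by
    intro p hp
    have : (3 : ℝ) ≤ p := by exact_mod_cast hP3 p hp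
    apply div_nonneg zero_le_one; linarith
  have h4 := TT_sq P (fun p hp => (hP p hp).one_lt.le) (fun p => 1 / ((p : ℝ) - 1)) hf y
    (Nat.cast_nonneg _)
  have h5 := TT_le_Gs s P hP hs (y ^ 2)
  have hF : ∀ p ∈ P, 0 ≤ (fun p : ℕ => (1 + 1 / ((p : ℝ) - 1)) ^ 2 - 1) p := by
    intro p hp
    have h := hf p hp
    simp only at h ⊢
    have : 1 ≤ (1 + 1 / ((p : ℝ) - 1)) ^ 2 := one_le_pow₀ (by linarith)
    linarith
  have h6 := TT_monof P (fun p => (1 + 1 / ((p : ℝ) - 1)) ^ 2 - 1)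
    (fun p => s.nu p * (1 - s.nu p)⁻¹) hF (by
      intro p hp
      have h5 : (3 : ℝ) ≤ p := by exact_mod_cast hP3 p hp
      rw [hnu p hp]
      have hb : 0 < (p : ℝ) - 2 := by linarith
      have e1 : 2 / (p : ℝ) * (1 - 2 / (p : ℝ))⁻¹ = 2 / ((p : ℝ) - 2) := by
        have : (p : ℝ) ≠ 0 := by linarith
        field_simp
      rw [e1]
      have e2 : 1 + 1 / ((p : ℝ) - 1) = p / ((p : ℝ) - 1) := by
        have : (p : ℝ) - 1 ≠ 0 := by linarith
        field_simp
        ring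
      rw [e2, div_pow]
      have e3 : (2 : ℝ) / ((p : ℝ) - 2) = p / ((p : ℝ) - 2) - 1 := by
        field_simp; ring
      rw [e3]
      apply sub_le_sub_right
      rw [div_le_div_iff₀ (by apply pow_pos; linarith) hb]
      nlinarith [sq_nonneg ((p : ℝ) - 1), sq_nonneg (p : ℝ)]) ((y : ℝ) ^ 2)
  calc _ ≤ (GG q y) ^ 2 := pow_le_pow_left₀ (by positivity) h2 2
    _ ≤ (TT P (fun p => 1 / ((p : ℝ) - 1)) y) ^ 2 := by
        apply pow_le_pow_left₀ _ h3
        unfold GG
        exact Finset.sum_nonneg (fun _ _ => by positivity)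
    _ ≤ _ := h4
    _ ≤ _ := h6
    _ ≤ _ := by exact_mod_cast h5

end Two

open Two Pool.Agent.FQ

/-- Row SV2. -/
theorem sv2 : SV2_stmt := by
  classical
  refine ⟨24 ^ 2 * 4 + 16, by norm_num, ?_⟩
  intro P X h hP hPX hh
  set q := 2 * h with hq
  have hq1 : 1 ≤ q := by omega
  have hqR : (0 : ℝ) < q := by exact_mod_cast hq1
  have hhR : (0 : ℝ) < h := by exact_mod_cast hh
  have hphi : (0 : ℝ) < (Nat.totient q : ℝ) := by exact_mod_cast Nat.totient_pos.2 hq1
  have hphih : (0 : ℝ) < (Nat.totient h : ℝ) := by exact_mod_cast Nat.totient_pos.2 hh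
  have hP0 : (0 : ℝ) < P := by linarith
  have hX0 : (0 : ℝ) < X := by linarith
  have hlog : 0 < Real.log P := Real.log_pos (by linarith)
  set z : ℝ := P ^ (1 / 24 : ℝ) with hz
  have hz1 : 1 ≤ z := Real.one_le_rpow (by linarith) (by norm_num)
  set y := ⌊z⌋₊ with hy
  have hy1 : 1 ≤ y := Nat.le_floor (by simpa using hz1)
  have hyz : (y : ℝ) ≤ z := Nat.floor_le (by linarith)
  have hy1R : (1 : ℝ) ≤ y := by exact_mod_cast hy1
  have hyP : (y : ℝ) < P := by
    refine lt_of_le_of_lt hyz ?_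
    calc P ^ (1 / 24 : ℝ) < P ^ (1 : ℝ) :=
          Real.rpow_lt_rpow_of_exponent_lt (by linarith) (by norm_num)
      _ = P := Real.rpow_one P
  have hz12 : z ^ 12 = Real.sqrt P := by
    rw [hz, ← Real.rpow_natCast, ← Real.rpow_mul hP0.le, Real.sqrt_eq_rpow]
    norm_num
  have hy12 : (y : ℝ) ^ 12 ≤ Real.sqrt X := by
    calc (y : ℝ) ^ 12 ≤ z ^ 12 := pow_le_pow_left₀ (by linarith) hyz 12
      _ = Real.sqrt P := hz12
      _ ≤ Real.sqrt X := Real.sqrt_le_sqrt hPX
  have hlogy : Real.log P / 24 ≤ Real.log (y + 1 : ℕ) := by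
    have h0 : z ≤ ((y + 1 : ℕ) : ℝ) := by
      push_cast
      exact (Nat.lt_floor_add_one z).le
    calc Real.log P / 24 = Real.log z := by
          rw [hz, Real.log_rpow hP0]; ring
      _ ≤ _ := Real.log_le_log (by linarith) h0
  have hR1 : 1 ≤ y ^ 2 := Nat.one_le_pow _ _ hy1
  have hsel := selberg (BS2 X h y) (y ^ 2) hR1 (BS_nu X h y) (BS_rem X h y)
  have hG := Gs_lower2 (BS2 X h y) (PS q y) (fun p hp => (mem_PS.1 hp).2.1)
    (fun p hp => three_le (mem_PS.1 hp).2.1 (mem_PS.1 hp).2.2) rfl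
    (fun p hp => nu2_prime (mem_PS.1 hp).2.1) q y hq1
    (fun p hp h1 h2 => mem_PS.2 ⟨h1, hp, h2⟩)
  have hGpos := Gs_pos (BS2 X h y) (y ^ 2) hR1
  have hG2 : (((Nat.totient q : ℝ) / q) * (Real.log P / 24)) ^ 2 ≤ Gs (BS2 X h y) (y ^ 2) := by
    refine le_trans ?_ hG
    apply pow_le_pow_left₀ (by positivity)
    exact mul_le_mul_of_nonneg_left hlogy (by positivity)
  have hrr : (q : ℝ) / Nat.totient q ≤ 2 * ((h : ℝ) / Nat.totient h) := by
    have h1 := rr_mul 2 h
    have h2 : rr 2 = 2 := by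
      unfold rr
      have : Nat.totient 2 = 1 := by decide
      rw [this]; norm_num
    rw [h2] at h1
    unfold rr at h1
    exact h1
  have hinv : (Gs (BS2 X h y) (y ^ 2))⁻¹
      ≤ 24 ^ 2 * 4 / (Real.log P) ^ 2 * ((h : ℝ) / Nat.totient h) ^ 2 := by
    calc (Gs (BS2 X h y) (y ^ 2))⁻¹
        ≤ ((((Nat.totient q : ℝ) / q) * (Real.log P / 24)) ^ 2)⁻¹ :=
          inv_anti₀ (by positivity) hG2
      _ = 24 ^ 2 / (Real.log P) ^ 2 * ((q : ℝ) / Nat.totient q) ^ 2 := by field_simp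
      _ ≤ 24 ^ 2 / (Real.log P) ^ 2 * (2 * ((h : ℝ) / Nat.totient h)) ^ 2 := by gcongr
      _ = _ := by ring
  have hss : (BS2 X h y).siftedSum = (((Ico 1 (X + 1)).filter (fun k =>
      Nat.Coprime (∏ p ∈ PS q y, p) (F2 h k))).card : ℝ) := by
    change ∑ n ∈ (Ico 1 (X + 1)).image (F2 h),
      (if Nat.Coprime (∏ p ∈ PS q y, p) n then (1 : ℝ) else 0) = _
    rw [Finset.sum_image (F2_inj h X), Finset.card_filter]
    push_cast
    rfl
  have hcount : (((Icc 1 X).filter fun n : ℕ => ∀ r : ℕ, r.Prime → r ∣ n * (n + h) →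
      P ≤ r).card : ℝ) ≤ (BS2 X h y).siftedSum := by
    rw [hss]
    have hsub : ((Icc 1 X).filter fun n : ℕ => ∀ r : ℕ, r.Prime → r ∣ n * (n + h) → P ≤ r) ⊆
        (Ico 1 (X + 1)).filter (fun k => Nat.Coprime (∏ p ∈ PS q y, p) (F2 h k)) := by
      intro n hn
      obtain ⟨h1, h2⟩ := Finset.mem_filter.1 hn
      obtain ⟨n1, n2⟩ := Finset.mem_Icc.1 h1
      rw [mem_filter, mem_Ico]
      refine ⟨⟨n1, by omega⟩, ?_⟩
      apply Nat.Coprime.prod_left
      intro p hp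
      obtain ⟨hpy, hpp, hpq⟩ := mem_PS.1 hp
      rw [Nat.Prime.coprime_iff_not_dvd hpp]
      intro hd
      have h3 := h2 p hpp hd
      have h4 : (p : ℝ) ≤ y := by exact_mod_cast hpy
      linarith
    exact_mod_cast Finset.card_le_card hsub
  have hsq : Real.sqrt X ≤ 16 * (X / (Real.log P) ^ 2) := by
    have h1 : Real.log X ≤ (X : ℝ) ^ (1 / 4 : ℝ) / (1 / 4) :=
      Real.log_le_rpow_div hX0.le (by norm_num)
    have h0 : Real.log P ≤ Real.log X := Real.log_le_log hP0 hPX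
    have h2 : (Real.log P) ^ 2 ≤ 16 * Real.sqrt X := by
      calc (Real.log P) ^ 2 ≤ ((X : ℝ) ^ (1 / 4 : ℝ) / (1 / 4)) ^ 2 :=
            pow_le_pow_left₀ hlog.le (h0.trans h1) 2
        _ = 16 * Real.sqrt X := by
            rw [div_pow, ← Real.rpow_natCast ((X : ℝ) ^ (1 / 4 : ℝ)), ← Real.rpow_mul hX0.le,
              Real.sqrt_eq_rpow]
            norm_num
            ring
    rw [← mul_div_assoc, le_div_iff₀ (by positivity)]
    have h3 : Real.sqrt X * Real.sqrt X = X := Real.mul_self_sqrt hX0.le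
    nlinarith [Real.sqrt_nonneg (X : ℝ)]
  have hrat : 1 ≤ ((h : ℝ) / Nat.totient h) ^ 2 := by
    apply one_le_pow₀
    rw [one_le_div hphih]
    exact_mod_cast Nat.totient_le h
  have hfin : (((y ^ 2 : ℕ) : ℝ)) ^ 6 ≤ Real.sqrt X := by
    push_cast
    rw [← pow_mul]
    exact hy12
  have htm : (BS2 X h y).totalMass = X := rfl
  rw [htm] at hsel
  have hmain : (X : ℝ) * (Gs (BS2 X h y) (y ^ 2))⁻¹
      ≤ 24 ^ 2 * 4 * (X / (Real.log P) ^ 2) * ((h : ℝ) / Nat.totient h) ^ 2 := by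
    calc (X : ℝ) * (Gs (BS2 X h y) (y ^ 2))⁻¹
        ≤ X * (24 ^ 2 * 4 / (Real.log P) ^ 2 * ((h : ℝ) / Nat.totient h) ^ 2) :=
          mul_le_mul_of_nonneg_left hinv hX0.le
      _ = _ := by ring
  have hpos : 0 ≤ X / (Real.log P) ^ 2 := by positivity
  have hgoal : (((Icc 1 X).filter fun n : ℕ => ∀ r : ℕ, r.Prime → r ∣ n * (n + h) →
      P ≤ r).card : ℝ) ≤ (24 ^ 2 * 4 + 16) * X / (Real.log P) ^ 2 *
        ((h : ℝ) / Nat.totient h) ^ 2 := by
    calc _ ≤ (BS2 X h y).siftedSum := hcount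
      _ ≤ 24 ^ 2 * 4 * (X / (Real.log P) ^ 2) * ((h : ℝ) / Nat.totient h) ^ 2
          + Real.sqrt X := by linarith
      _ ≤ 24 ^ 2 * 4 * (X / (Real.log P) ^ 2) * ((h : ℝ) / Nat.totient h) ^ 2
          + 16 * (X / (Real.log P) ^ 2) * 1 := by linarith
      _ ≤ 24 ^ 2 * 4 * (X / (Real.log P) ^ 2) * ((h : ℝ) / Nat.totient h) ^ 2
          + 16 * (X / (Real.log P) ^ 2) * ((h : ℝ) / Nat.totient h) ^ 2 := by
          gcongr
      _ = _ := by ring
  convert hgoal

end Pool.Agent.SV
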