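import Pool.Agent.Lib.SV.Defs3
import Pool.Agent.Lib.MRF.AU
import Pool.Agent.Lib.MRL.ML

/-! Theorem V, row U1A: the mean square of `A_f` over a set covered by few unit intervals,
uniformly in `f`.  helper50. -/

set_option autoImplicit false

namespace Pool.Agent.SV

open Finset MeasureTheory Pool.Agent.MRL Pool.Agent.MRF Pool.Agent.MRHal

/-- ROW U1A. -/
theorem uPartU : DecompU → SparseU → UPartU := by
  intro hD hSP
  obtain ⟨CD, hCD, hD⟩ := hD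
  obtain ⟨c, hc, CL, hML⟩ := mertensLower
  intro δ hδ
  obtain ⟨K, hK⟩ : ∃ K : ℝ, K = 8 * CD / δ + 1 := ⟨_, rfl⟩
  have hK1 : 1 ≤ K := by
    rw [hK]
    have : 0 ≤ 8 * CD / δ := by positivity
    linarith
  obtain ⟨κ, hκ⟩ : ∃ κ : ℝ, κ = (K + |CL|) / c := ⟨_, rfl⟩
  have hκ0 : 0 ≤ κ := by
    rw [hκ]
    positivity
  obtain ⟨β, hβdef⟩ : ∃ β : ℝ, β = 1 / 8 * Real.exp (-κ) := ⟨_, rfl⟩
  have hβ : 0 < β := by
    rw [hβdef]
    positivity
  have hβ8 : β ≤ 1 / 8 := by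
    rw [hβdef]
    have : Real.exp (-κ) ≤ 1 := Real.exp_le_one_iff.mpr (by linarith)
    linarith
  have hβκ : β * Real.exp κ = 1 / 8 := by
    rw [hβdef, mul_assoc, ← Real.exp_add, neg_add_cancel, Real.exp_zero, mul_one]
  obtain ⟨θ, hθ, hθ1, CS, hCS, X1, hSP⟩ := hSP β hβ hβ8
  obtain ⟨H, hHdef⟩ : ∃ H : ℕ, H = ⌈K⌉₊ := ⟨_, rfl⟩
  have hHK : K ≤ H := by
    rw [hHdef]
    exact Nat.le_ceil _
  have hHr : (1 : ℝ) ≤ H := hK1.trans hHK
  have hH1 : 1 ≤ H := by exact_mod_cast hHr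
  have hH0 : (0 : ℝ) < H := by linarith
  obtain ⟨η, hηdef⟩ : ∃ η : ℝ, η = √(4 * δ / ((H : ℝ) ^ 2 * CS)) := ⟨_, rfl⟩
  have hη : 0 < η := by
    rw [hηdef]
    exact Real.sqrt_pos.mpr (by positivity)
  have hη2 : η ^ 2 = 4 * δ / ((H : ℝ) ^ 2 * CS) := by
    rw [hηdef]
    exact Real.sq_sqrt (by positivity)
  have hlog : Filter.Tendsto Real.log Filter.atTop Filter.atTop := Real.tendsto_log_atTop
  have e1 : ∀ᶠ X : ℝ in Filter.atTop, X1 ≤ X := Filter.eventually_ge_atTop X1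
  have e2 : ∀ᶠ X : ℝ in Filter.atTop, 1 ≤ X := Filter.eventually_ge_atTop 1
  have e3 : ∀ᶠ X : ℝ in Filter.atTop, (H : ℝ) ≤ X := Filter.eventually_ge_atTop _
  have e4 : ∀ᶠ X : ℝ in Filter.atTop, 1 / β ≤ Real.log X :=
    hlog.eventually (Filter.eventually_ge_atTop _)
  have e5 : ∀ᶠ X : ℝ in Filter.atTop, 8 * (2 + Real.exp κ) ≤ Real.log X :=
    hlog.eventually (Filter.eventually_ge_atTop _)
  obtain ⟨X0, hX0⟩ := Filter.eventually_atTop.mp
    (e1.and (e2.and (e3.and (e4.and e5))))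
  refine ⟨θ, hθ, hθ1, X0, η, hη, ?_⟩
  intro f hf X T hX hHA hT hTX E R hE hEX hRX hRc hcov
  obtain ⟨hX1, hX2, hX3, hX4, hX5⟩ := hX0 X hX
  have hXpos : 0 < X := by linarith
  obtain ⟨l, hl⟩ : ∃ l : ℝ, l = Real.log X := ⟨_, rfl⟩
  rw [← hl] at hX4 hX5
  have hl0 : 0 < l := by
    have := Real.exp_pos κ
    linarith
  have hβl : 1 ≤ β * l := by
    rw [div_le_iff₀ hβ] at hX4
    linarith
  have hexpl : Real.exp l = X := by
    rw [hl]
    exact Real.exp_log hXpos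
  obtain ⟨v1, hv1def⟩ : ∃ v1 : ℕ, v1 = ⌈(H : ℝ) * β * l⌉₊ := ⟨_, rfl⟩
  obtain ⟨v2, hv2def⟩ : ∃ v2 : ℕ, v2 = ⌊(H : ℝ) * l / 4⌋₊ := ⟨_, rfl⟩
  have hv1 : (H : ℝ) * β * l ≤ v1 := by
    rw [hv1def]
    exact Nat.le_ceil _
  have hv1' : (v1 : ℝ) < (H : ℝ) * β * l + 1 := by
    rw [hv1def]
    exact Nat.ceil_lt_add_one (by positivity)
  have hv2 : (v2 : ℝ) ≤ (H : ℝ) * l / 4 := by
    rw [hv2def]
    exact Nat.floor_le (by positivity)
  have hv2' : (H : ℝ) * l / 4 - 1 < v2 := by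
    rw [hv2def]
    exact Nat.sub_one_lt_floor _
  have hHl : 8 * (2 + Real.exp κ) ≤ (H : ℝ) * l := by
    calc 8 * (2 + Real.exp κ) ≤ 1 * l := by linarith
      _ ≤ (H : ℝ) * l := mul_le_mul_of_nonneg_right hHr hl0.le
  have hHv1r : (H : ℝ) ≤ v1 := by
    calc (H : ℝ) = H * 1 := (mul_one _).symm
      _ ≤ H * (β * l) := mul_le_mul_of_nonneg_left hβl hH0.le
      _ = H * β * l := by ring
      _ ≤ v1 := hv1
  have hHv1 : H ≤ v1 := by exact_mod_cast hHv1r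
  have hv1pos : (0 : ℝ) < v1 := lt_of_lt_of_le hH0 hHv1r
  have hv1κ : (v1 : ℝ) * Real.exp κ ≤ v2 := by
    have h1 : (v1 : ℝ) * Real.exp κ ≤ ((H : ℝ) * β * l + 1) * Real.exp κ :=
      mul_le_mul_of_nonneg_right hv1'.le (Real.exp_pos _).le
    have h2 : ((H : ℝ) * β * l + 1) * Real.exp κ = (H : ℝ) * l / 8 + Real.exp κ := by
      calc ((H : ℝ) * β * l + 1) * Real.exp κ
          = (H : ℝ) * l * (β * Real.exp κ) + Real.exp κ := by ring
        _ = (H : ℝ) * l / 8 + Real.exp κ := by rw [hβκ]; ring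
    linarith
  have hexpκ : 1 ≤ Real.exp κ := Real.one_le_exp hκ0
  have hv12r : (v1 : ℝ) ≤ v2 := by
    calc (v1 : ℝ) = v1 * 1 := (mul_one _).symm
      _ ≤ v1 * Real.exp κ := mul_le_mul_of_nonneg_left hexpκ hv1pos.le
      _ ≤ v2 := hv1κ
  have hv12 : v1 ≤ v2 := by exact_mod_cast hv12r
  have hLL : K ≤ LL H v1 v2 := by
    have h1 := hML H v1 v2 hH1 hHv1 hv12
    have h2 : κ ≤ Real.log ((v2 : ℝ) / v1) := by
      rw [Real.le_log_iff_exp_le (div_pos (lt_of_lt_of_le hv1pos hv12r) hv1pos),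
        le_div_iff₀ hv1pos, mul_comm]
      exact hv1κ
    have h3 : c * κ ≤ c * Real.log ((v2 : ℝ) / v1) := mul_le_mul_of_nonneg_left h2 hc.le
    have h4 : c * κ = K + |CL| := by
      rw [hκ]
      field_simp
    have h5 := le_abs_self CL
    linarith
  have hL1 : 1 ≤ LL H v1 v2 := hK1.trans hLL
  have hsqrt : √X = Real.exp (l / 2) := by
    rw [Real.sqrt_eq_rpow, Real.rpow_def_of_pos hXpos, ← hl]
    congr 1
    ring
  have hv2H : (v2 : ℝ) / H ≤ l / 4 := by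
    rw [div_le_iff₀ hH0]
    linarith
  have hexpv2 : Real.exp ((v2 : ℝ) / H) ≤ √X := by
    rw [hsqrt, Real.exp_le_exp]
    linarith
  -- the decomposition
  have hDD := hD f hf X T H v1 v2 hH1 hX3 hv12 hL1 hexpv2 hT hTX
  -- the prime polynomials
  have hQ : ∀ v ∈ Ico v1 v2, ∫ t in E, ‖QF f H v t‖ ^ 2 ≤ CS / l ^ 2 := by
    intro v hv
    rw [Finset.mem_Ico] at hv
    have hvr : (v1 : ℝ) ≤ v := by exact_mod_cast hv.1
    have hvr2 : (v : ℝ) + 1 ≤ v2 := by exact_mod_cast hv.2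
    refine AU.int_Q_le R ?_ E hE hcov
    intro τ hτ
    rw [hl]
    refine hSP f hf X hX1 H v hH1 ?_ ?_ R τ hRX hRc hτ
    · rw [Real.rpow_def_of_pos hXpos, ← hl, Real.exp_le_exp, le_div_iff₀ hH0]
      calc l * β * H = (H : ℝ) * β * l := by ring
        _ ≤ v1 := hv1
        _ ≤ v := hvr
    · refine le_trans ?_ hexpv2
      rw [Real.exp_le_exp]
      gcongr
  -- the `A` factors
  have hAA : ∀ v ∈ Ico v1 v2, ∀ t ∈ E, ‖AF f (X * Real.exp (-((v : ℝ) / H))) t‖ ≤ η := by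
    intro v hv t ht
    rw [Finset.mem_Ico] at hv
    have hvr2 : (v : ℝ) ≤ v2 := by exact_mod_cast hv.2.le
    have hvH : (v : ℝ) / H ≤ l / 4 := (div_le_div_of_nonneg_right hvr2 hH0.le).trans hv2H
    have hY : X ^ (3 / 4 : ℝ) ≤ X * Real.exp (-((v : ℝ) / H)) := by
      rw [Real.rpow_def_of_pos hXpos, ← hl]
      conv_rhs => rw [← hexpl]
      rw [← Real.exp_add, Real.exp_le_exp]
      linarith
    have hexp1 : Real.exp (-((v : ℝ) / H)) ≤ 1 := Real.exp_le_one_iff.2 (by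
      have : (0 : ℝ) ≤ (v : ℝ) / H := by positivity
      linarith)
    refine hHA _ t ?_ ?_ ?_
    · have h12 : √X ≤ X ^ (3 / 4 : ℝ) := by
        rw [Real.sqrt_eq_rpow]
        exact Real.rpow_le_rpow_of_exponent_le hX2 (by norm_num)
      have h13 := Real.sqrt_nonneg X
      linarith
    · have : X * Real.exp (-((v : ℝ) / H)) ≤ X * 1 := mul_le_mul_of_nonneg_left hexp1 hXpos.le
      linarith
    · have := hEX t ht
      linarith
  have hS := AU.int_S_le (X := X) (T := T) (H := H) (v1 := v1) (v2 := v2) hη.le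
    (by positivity : 0 ≤ CS / l ^ 2) E hE hEX hAA hQ
  have hfin := AU.int_A_le hT hL1 E hE hDD hS
  refine hfin.trans ?_
  have h1 : CD * (1 / LL H v1 v2 + 1 / H) ≤ δ / 4 := by
    have h2 : 1 / LL H v1 v2 ≤ 1 / K := one_div_le_one_div_of_le (by linarith) hLL
    have h3 : 1 / (H : ℝ) ≤ 1 / K := one_div_le_one_div_of_le (by linarith) hHK
    calc CD * (1 / LL H v1 v2 + 1 / H) ≤ CD * (1 / K + 1 / K) := by gcongr
      _ = 2 * CD / K := by ring
      _ ≤ δ / 4 := by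
          rw [div_le_iff₀ (by linarith), hK]
          have : δ / 4 * (8 * CD / δ + 1) = 2 * CD + δ / 4 := by
            field_simp
            ring
          rw [this]
          linarith
  have h2 : (v2 : ℝ) ^ 2 * η ^ 2 * (CS / l ^ 2) ≤ δ / 4 := by
    have h3 : (v2 : ℝ) ^ 2 ≤ ((H : ℝ) * l / 4) ^ 2 := pow_le_pow_left₀ (by positivity) hv2 2
    calc (v2 : ℝ) ^ 2 * η ^ 2 * (CS / l ^ 2)
        ≤ ((H : ℝ) * l / 4) ^ 2 * η ^ 2 * (CS / l ^ 2) := by gcongr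
      _ = δ / 4 := by
          rw [hη2]
          field_simp
  linarith

end Pool.Agent.SV
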