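import Pool.Agent.Lib.SV.Defs3
import Pool.Agent.Lib.MRF.AC

/-! Theorem V, row U1C: the union of the good sets up to level `J`, uniformly in `f`.
helper50. -/

set_option autoImplicit false

namespace Pool.Agent.SV

open Finset MeasureTheory Pool.Agent.MRL Pool.Agent.MRF Pool.Agent.MRHal

theorem chainU : DecompU → StepOneU → StepJU → ChainU := by
  rintro ⟨CD, hCD, hD⟩ ⟨C1, hC1, h1⟩ ⟨CJ, hCJ, hJ⟩
  refine ⟨CJ, hCJ, 8 * CD + 2 * C1 + 4 * CJ, by linarith, ?_⟩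
  intro f hf
  replace hD := hD f hf
  replace h1 := h1 f hf
  replace hJ := hJ f hf
  unfold DecompC at hD
  unfold StepOneC at h1
  unfold StepJC at hJ
  unfold ChainC
  intro K α s hK hα hα4 hP J X T hT hTX hTX0 hX
  obtain ⟨hs, hH, hal, h0, hstep⟩ := hP
  have hK0 : 0 < K := by linarith
  -- the defect at one level
  have hdef : ∀ j ≤ J, ∫ t : ℝ, ‖AF f X t - ((1 / LL (s j).H (s j).v1 (s j).v2 : ℝ) : ℂ) *
      SF f X (s j).H (s j).v1 (s j).v2 t‖ ^ 2 * g T t ≤ 2 * CD / K * (1 / ((j : ℝ) + 1) ^ 2) := by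
    intro j hj
    obtain ⟨hHK, hLK⟩ := hH j
    have hj1 : (1 : ℝ) ≤ ((j : ℝ) + 1) ^ 2 := by
      have : (0 : ℝ) ≤ j := Nat.cast_nonneg j
      nlinarith
    have hKj : 1 ≤ K * ((j : ℝ) + 1) ^ 2 := by nlinarith
    refine (hD X T (s j).H (s j).v1 (s j).v2 (hs j).1 (hX j hj).2 (hs j).2.2.1.le
      (hKj.trans hLK) (hX j hj).1 hT hTX).trans ?_
    have e1 : 1 / LL (s j).H (s j).v1 (s j).v2 ≤ 1 / (K * ((j : ℝ) + 1) ^ 2) :=
      one_div_le_one_div_of_le (by linarith) hLK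
    have e2 : 1 / ((s j).H : ℝ) ≤ 1 / (K * ((j : ℝ) + 1) ^ 2) :=
      one_div_le_one_div_of_le (by linarith) hHK
    calc CD * (1 / LL (s j).H (s j).v1 (s j).v2 + 1 / ((s j).H : ℝ)) ≤
        CD * (1 / (K * ((j : ℝ) + 1) ^ 2) + 1 / (K * ((j : ℝ) + 1) ^ 2)) :=
          mul_le_mul_of_nonneg_left (add_le_add e1 e2) hCD.le
      _ = 2 * CD / K * (1 / ((j : ℝ) + 1) ^ 2) := by
          field_simp
          ring
  have hL1 : ∀ j, 1 ≤ LL (s j).H (s j).v1 (s j).v2 := by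
    intro j
    have hj1 : (1 : ℝ) ≤ ((j : ℝ) + 1) ^ 2 := by
      have : (0 : ℝ) ≤ j := Nat.cast_nonneg j
      nlinarith
    have hKj : 1 ≤ K * ((j : ℝ) + 1) ^ 2 := by nlinarith
    exact hKj.trans (hH j).2
  have hmeas : ∀ j, MeasurableSet {t : ℝ | ScaleGood f (s j) t} := fun j =>
    (isClosed_goodF f (s j).H (s j).v1 (s j).v2 (s j).α).measurableSet
  -- level 0
  have hlev0 : ∫ t in {t : ℝ | ScaleGood f (s 0) t}, ‖AF f X t‖ ^ 2 * g T t ≤
      2 * (2 * CD / K * (1 / (((0 : ℕ) : ℝ) + 1) ^ 2)) + 2 * (C1 * (1 / K)) := by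
    refine pieceF f hT (hL1 0) (hmeas 0) (hdef 0 (Nat.zero_le _)) ?_
    refine (h1 X T (s 0).H (s 0).v1 (s 0).v2 (s 0).α (hs 0).1 (hs 0).2.2.1.le hT
      (by linarith [(hal 0).1]) hTX0 (hX 0 (Nat.zero_le _)).1).trans ?_
    rw [mul_assoc]
    refine mul_le_mul_of_nonneg_left ?_ hC1.le
    set x := (s 0).α * (((s 0).v1 : ℝ) / (s 0).H) with hx
    have e1 : 2 * (s 0).α * ((s 0).v1 : ℝ) / (s 0).H = 2 * x := by
      rw [hx]
      ring
    rw [e1]
    have hv : (0 : ℝ) < ((s 0).v2 : ℝ) + 2 := by positivity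
    have e2 : ((s 0).v2 : ℝ) ^ 2 ≤ Real.exp (2 * Real.log (((s 0).v2 : ℝ) + 2)) := by
      rw [mul_comm, Real.exp_mul, Real.exp_log hv, Real.rpow_two]
      exact pow_le_pow_left₀ (Nat.cast_nonneg _) (by linarith) 2
    have e3 : 0 ≤ Real.log (((s 0).v2 : ℝ) + 2) := Real.log_nonneg (by
      have : (0 : ℝ) ≤ ((s 0).v2 : ℝ) := Nat.cast_nonneg _
      linarith)
    calc ((s 0).v2 : ℝ) ^ 2 * Real.exp (-(2 * x)) ≤
        Real.exp (2 * Real.log (((s 0).v2 : ℝ) + 2)) * Real.exp (-(2 * x)) :=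
          mul_le_mul_of_nonneg_right e2 (Real.exp_pos _).le
      _ = Real.exp (2 * Real.log (((s 0).v2 : ℝ) + 2) + -(2 * x)) := (Real.exp_add _ _).symm
      _ ≤ Real.exp (-K) := Real.exp_le_exp.2 (by linarith)
      _ ≤ 1 / K := exp_neg_le_inv hK
  -- level j + 1
  have hlevj : ∀ j < J, ∫ t in {t : ℝ | ScaleGood f (s (j + 1)) t ∧ ¬ ScaleGood f (s j) t}, ‖AF f X t‖ ^ 2 * g T t ≤
      2 * (2 * CD / K * (1 / (((j + 1 : ℕ) : ℝ) + 1) ^ 2)) + 2 * (CJ * Real.exp (-(K + j))) := by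
    intro j hj
    refine pieceF f hT (hL1 (j + 1)) ((hmeas (j + 1)).inter (hmeas j).compl) (hdef (j + 1) hj) ?_
    obtain ⟨p1, p2, p3, p4⟩ := hstep j
    refine (hJ X T (s j).H (s j).v1 (s j).v2 (s (j + 1)).H (s (j + 1)).v1 (s (j + 1)).v2
      (s j).α (s (j + 1)).α (hs j).1 (hs j).2.1 (hs j).2.2.1.le (hs j).2.2.2 (hs (j + 1)).2.1
      (hs (j + 1)).2.2.1.le (by linarith [(hal j).1]) (hal j).2.1
      (by linarith [(hal (j + 1)).2.2]) p1 p2 p3 hT hTX (hX (j + 1) hj).1).trans ?_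
    refine mul_le_mul_of_nonneg_left (Real.exp_le_exp.2 ?_) (by linarith)
    have e1 : ((s (j + 1)).α - (s j).α) * ((s (j + 1)).v1 : ℝ) / (s (j + 1)).H =
        ((s (j + 1)).α - (s j).α) * (((s (j + 1)).v1 : ℝ) / (s (j + 1)).H) := by ring
    rw [e1]
    linarith
  -- induction over the levels
  have hF := (cb_AF f X).integrable hT
  have hnn : ∀ t, 0 ≤ ‖AF f X t‖ ^ 2 * g T t := fun t => mul_nonneg (sq_nonneg _) (g_nonneg T t)
  have hind : ∀ m ≤ J, ∫ t in {t : ℝ | ∃ j ≤ m, ScaleGood f (s j) t}, ‖AF f X t‖ ^ 2 * g T t ≤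
      4 * CD / K * ∑ j ∈ range (m + 1), 1 / ((j : ℝ) + 1) ^ 2 + 2 * (C1 * (1 / K)) +
        2 * CJ * ∑ j ∈ range m, Real.exp (-(K + j)) := by
    intro m
    induction m with
    | zero =>
      intro _
      have e1 : {t : ℝ | ∃ j ≤ 0, ScaleGood f (s j) t} = {t : ℝ | ScaleGood f (s 0) t} := by
        ext t
        simp
      rw [e1]
      refine hlev0.trans ?_
      simp
      ring_nf
      rfl
    | succ m ih =>
      intro hm
      have e1 : {t : ℝ | ∃ j ≤ m + 1, ScaleGood f (s j) t} ⊆ {t : ℝ | ∃ j ≤ m, ScaleGood f (s j) t} ∪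
          {t : ℝ | ScaleGood f (s (m + 1)) t ∧ ¬ ScaleGood f (s m) t} := by
        rintro t ⟨j, hj, hg⟩
        by_cases hmg : ScaleGood f (s m) t
        · exact Or.inl ⟨m, le_rfl, hmg⟩
        · rcases Nat.lt_or_ge m j with h | h
          · obtain rfl : j = m + 1 := by omega
            exact Or.inr ⟨hg, hmg⟩
          · exact Or.inl ⟨j, h, hg⟩
      have e2 : ∫ t in {t : ℝ | ∃ j ≤ m + 1, ScaleGood f (s j) t}, ‖AF f X t‖ ^ 2 * g T t ≤
          ∫ t in {t : ℝ | ∃ j ≤ m, ScaleGood f (s j) t} ∪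
            {t : ℝ | ScaleGood f (s (m + 1)) t ∧ ¬ ScaleGood f (s m) t}, ‖AF f X t‖ ^ 2 * g T t :=
        setIntegral_mono_set hF.integrableOn
          (Filter.Eventually.of_forall hnn) (Filter.Eventually.of_forall e1)
      refine e2.trans ?_
      have e3 : ∫ t in {t : ℝ | ∃ j ≤ m, ScaleGood f (s j) t} ∪
            {t : ℝ | ScaleGood f (s (m + 1)) t ∧ ¬ ScaleGood f (s m) t}, ‖AF f X t‖ ^ 2 * g T t ≤
          (∫ t in {t : ℝ | ∃ j ≤ m, ScaleGood f (s j) t}, ‖AF f X t‖ ^ 2 * g T t) +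
          ∫ t in {t : ℝ | ScaleGood f (s (m + 1)) t ∧ ¬ ScaleGood f (s m) t}, ‖AF f X t‖ ^ 2 * g T t := by
        have hm2 : MeasurableSet {t : ℝ | ScaleGood f (s (m + 1)) t ∧ ¬ ScaleGood f (s m) t} :=
          (hmeas (m + 1)).inter (hmeas m).compl
        exact setIntegral_union_le hm2 hF hnn
      refine e3.trans ?_
      have h5 := ih (by omega)
      have h6 := hlevj m hm
      rw [sum_range_succ (fun j : ℕ => 1 / ((j : ℝ) + 1) ^ 2) (m + 1),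
        sum_range_succ (fun j : ℕ => Real.exp (-(K + j))) m]
      have e4 : 2 * (2 * CD / K * (1 / (((m + 1 : ℕ) : ℝ) + 1) ^ 2)) =
        4 * CD / K * (1 / (((m + 1 : ℕ) : ℝ) + 1) ^ 2) := by ring
      rw [e4] at h6
      linarith
  refine (hind J le_rfl).trans ?_
  have f1 := sum_inv_sq_succ J
  have f2 := sum_exp_neg_le K J
  have f3 := exp_neg_le_inv hK
  have f4 : (0 : ℝ) < 1 / ((J : ℝ) + 1) := by positivity
  have f5 : 4 * CD / K * ∑ j ∈ range (J + 1), 1 / ((j : ℝ) + 1) ^ 2 ≤ 4 * CD / K * 2 :=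
    mul_le_mul_of_nonneg_left (by linarith) (by positivity)
  have f6 : 2 * CJ * ∑ j ∈ range J, Real.exp (-(K + j)) ≤ 2 * CJ * (2 * (1 / K)) :=
    mul_le_mul_of_nonneg_left (by linarith) (by linarith)
  have f7 : (8 * CD + 2 * C1 + 4 * CJ) / K =
      4 * CD / K * 2 + 2 * (C1 * (1 / K)) + 2 * CJ * (2 * (1 / K)) := by
    field_simp
    ring
  rw [f7]
  linarith

end Pool.Agent.SV
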