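import Pool.Agent.Lib.SV.Defs3
import Pool.Agent.Lib.MRF.DC
import Pool.Agent.Lib.MRL.MV

/-! Theorem V, row U1D: the decomposition with a uniform constant.  Copy of the final proof of
`Lib/MRF/DC.lean` with the constant pulled out.  helper65. -/

set_option autoImplicit false

namespace Pool.Agent.SVU

open Finset Pool.Agent.MRL Pool.Agent.MRHal Pool.Agent.MRL.DC Pool.Agent.MRF Pool.Agent.MRF.DC
open Pool.Agent.Lib.MP_663568_nt.Katai (om WW turan_kubilius)

noncomputable section

/-- The mean value theorem with the constant `C`. -/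
def MVC (C : ℝ) : Prop := ∀ (N : ℕ) (T : ℝ) (a : ℕ → ℂ), 1 ≤ N → 0 < T →
  ∫ t : ℝ, ‖∑ n ∈ Icc 1 N, a n * nt n t‖ ^ 2 * g T t ≤ C * (T + N) * ∑ n ∈ Icc 1 N, ‖a n‖ ^ 2

theorem decompC {f : ℕ → ℂ} (hmul : ∀ p m : ℕ, p ≠ 0 → m ≠ 0 → f (p * m) = f p * f m)
    (hle : ∀ n, ‖f n‖ ≤ 1) {C : ℝ} (hC : 0 < C) (hmv : MVC C) :
    Pool.Agent.SV.DecompC (210 * C) f := by
  intro X T H v1 v2 hH hHX _ hL hv2 hT hTX
  have hH' : (1 : ℝ) ≤ H := by exact_mod_cast hH
  have hX : 1 ≤ X := hH'.trans hHX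
  set L := LL H v1 v2 with hLdef
  have hL0 : 0 < L := by linarith
  set N := ⌊6 * X⌋₊ with hN
  have hN1 : 1 ≤ N := by
    rw [hN, Nat.one_le_floor_iff]; linarith
  have hNX : (N : ℝ) ≤ 6 * X := Nat.floor_le (by linarith)
  have hfun : ∀ t : ℝ, AF f X t - ((1 / L : ℝ) : ℂ) * SF f X H v1 v2 t =
      ∑ n ∈ Icc 1 N, (co f n * ((ind X n - cc X H v1 v2 n / L : ℝ) : ℂ)) * nt n t := by
    intro t
    rw [A_eq f hX, S_eq hmul hX hH, mul_sum, ← sum_sub_distrib]
    apply sum_congr rfl
    intro n _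
    push_cast
    ring
  simp only [hfun]
  refine (hmv N T _ hN1 hT).trans ?_
  -- the coefficients
  have hcoef : ∀ n ∈ Icc 1 N, ‖co f n * ((ind X n - cc X H v1 v2 n / L : ℝ) : ℂ)‖ ^ 2 ≤
      1 / X ^ 2 * (2 / L ^ 2 * (om (PP H v1 v2) n - WW (PP H v1 v2)) ^ 2 +
        3 * (if n ∈ Edge X H N then 1 else 0)) := by
    intro n hn
    have hd := d_sq_le hX hL hn (N := N)
    rw [norm_mul, Complex.norm_real, Real.norm_eq_abs, mul_pow, sq_abs]
    by_cases h1 : (n : ℝ) ≤ X
    · rw [ind_zero hX (Or.inl h1), cc_zero hX (Or.inl h1)]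
      simp only [zero_div, sub_zero]
      have : (0 : ℝ) ≤ 1 / X ^ 2 * (2 / L ^ 2 * (om (PP H v1 v2) n - WW (PP H v1 v2)) ^ 2 +
        3 * (if n ∈ Edge X H N then 1 else 0)) := by
        apply mul_nonneg (by positivity)
        apply add_nonneg (by positivity)
        split_ifs <;> norm_num
      simpa using this
    · rw [not_le] at h1
      apply mul_le_mul _ hd (sq_nonneg _) (by positivity)
      have hc : ‖co f n‖ ≤ 1 / X := by
        unfold co
        exact (norm_coef hle n).trans (one_div_le_one_div_of_le (by linarith) h1.le)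
      calc ‖co f n‖ ^ 2 ≤ (1 / X) ^ 2 := pow_le_pow_left₀ (norm_nonneg _) hc 2
        _ = 1 / X ^ 2 := by rw [div_pow, one_pow]
  have hTK := turan_kubilius (PP H v1 v2) (fun p hp => prime_of_mem_PP hp) N
  rw [WW_PP, ← hLdef] at hTK
  have hcard := card_PP_le H v1 v2
  have hsq : √X ≤ X := by
    rw [Real.sqrt_le_left (by linarith)]
    nlinarith
  have hPX : ((PP H v1 v2).card : ℝ) ≤ X := by linarith
  have hE := card_Edge hX hH hHX N
  have hsumE : ∑ n ∈ Icc 1 N, (if n ∈ Edge X H N then (1 : ℝ) else 0) ≤ 8 * X / H := by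
    rw [← sum_filter, sum_const, nsmul_eq_mul, mul_one]
    refine le_trans ?_ hE
    have : (Icc 1 N).filter (fun n => n ∈ Edge X H N) ⊆ Edge X H N := by
      intro n hn
      exact (mem_filter.mp hn).2
    exact_mod_cast card_le_card this
  have hsum : ∑ n ∈ Icc 1 N, ‖co f n * ((ind X n - cc X H v1 v2 n / L : ℝ) : ℂ)‖ ^ 2 ≤
      1 / X ^ 2 * (2 / L ^ 2 * (L * N + 2 * L * X) + 3 * (8 * X / H)) := by
    refine (sum_le_sum hcoef).trans ?_
    rw [← mul_sum, sum_add_distrib, ← mul_sum, ← mul_sum]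
    apply mul_le_mul_of_nonneg_left _ (by positivity)
    apply add_le_add
    · apply mul_le_mul_of_nonneg_left _ (by positivity)
      rw [WW_PP, ← hLdef]
      refine hTK.trans ?_
      have : 2 * L * ((PP H v1 v2).card : ℝ) ≤ 2 * L * X :=
        mul_le_mul_of_nonneg_left hPX (by positivity)
      linarith
    · exact mul_le_mul_of_nonneg_left hsumE (by norm_num)
  have h1 : 1 / X ^ 2 * (2 / L ^ 2 * (L * N + 2 * L * X) + 3 * (8 * X / H)) ≤
      24 / X * (1 / L + 1 / H) := by
    have hX0 : 0 < X := by linarith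
    have hH0 : (0 : ℝ) < H := by linarith
    calc 1 / X ^ 2 * (2 / L ^ 2 * (L * N + 2 * L * X) + 3 * (8 * X / H))
        ≤ 1 / X ^ 2 * (2 / L ^ 2 * (L * (6 * X) + 2 * L * X) + 3 * (8 * X / H)) := by
          apply mul_le_mul_of_nonneg_left _ (by positivity)
          apply add_le_add _ le_rfl
          apply mul_le_mul_of_nonneg_left _ (by positivity)
          apply add_le_add _ le_rfl
          exact mul_le_mul_of_nonneg_left hNX hL0.le
      _ = 16 / X * (1 / L) + 24 / X * (1 / H) := by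
          field_simp
          ring
      _ ≤ 24 / X * (1 / L) + 24 / X * (1 / H) := by
          apply add_le_add _ le_rfl
          apply mul_le_mul_of_nonneg_right _ (by positivity)
          apply div_le_div_of_nonneg_right (by norm_num) hX0.le
      _ = _ := by ring
  calc C * (T + N) * ∑ n ∈ Icc 1 N,
        ‖co f n * ((ind X n - cc X H v1 v2 n / L : ℝ) : ℂ)‖ ^ 2
      ≤ C * (7 * X) * (24 / X * (1 / L + 1 / H)) := by
        apply mul_le_mul _ (hsum.trans h1) (by positivity) (by positivity)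
        apply mul_le_mul_of_nonneg_left _ hC.le
        linarith
    _ = 168 * C * (1 / L + 1 / H) := by
        have hX0 : X ≠ 0 := by linarith
        field_simp
        ring
    _ ≤ 210 * C * (1 / L + 1 / H) := by
        apply mul_le_mul_of_nonneg_right _ (by positivity)
        linarith

end

end Pool.Agent.SVU

namespace Pool.Agent.SV

open Pool.Agent.MRL Pool.Agent.MRF Pool.Agent.MRHal in
/-- Row U1D. -/
theorem decompU : DecompU := by
  obtain ⟨C, hC, hmv⟩ := meanValue
  exact ⟨210 * C, by positivity, fun f hf =>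
    Pool.Agent.SVU.decompC (fun p m _ _ => hf.mul p m) hf.le hC hmv⟩

end Pool.Agent.SV
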