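import Pool.Agent.Lib.SV.Defs3
import Pool.Agent.Lib.MRF.SP
import Pool.Agent.Lib.MRL.VD

/-! Theorem V, row U1P: the sparse set of prime polynomials, uniformly in `f` (the proof of
`MRF.SP` with the constants in front of `f`).  helper64. -/

set_option autoImplicit false

namespace Pool.Agent.SV

open Finset Complex Pool.Agent.MRL Pool.Agent.MRL.HM Pool.Agent.MRF Pool.Agent.MRHal

/-- ROW U1P. -/
theorem sparseU : SparseU := by
  have hW : VDC := vdc_row
  intro β hβ hβ'
  obtain ⟨η, hη, C, hC, P0, hcore⟩ := hm_core hW (2 / β + 1) (by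
    have : 0 < 2 / β := by positivity
    linarith)
  set θ : ℝ := min 1 (β * η / 4) with hθ
  have hθ0 : 0 < θ := lt_min one_pos (by positivity)
  have hθ1 : θ ≤ β * η / 4 := min_le_right _ _
  set M : ℝ := 4 * C * (1 + 2 / η) with hM
  have hM0 : 0 < M := by positivity
  set X0 : ℝ := ((P0 : ℝ) + 5) ^ (2 / β) with hX0
  refine ⟨θ, hθ0, min_le_left _ _, 32 * M / β ^ 2, by positivity, X0, ?_⟩
  intro f hCM X hX H v hH hv1 hv2 R τ hR hcard hτ
  have hf : ∀ n, ‖f n‖ ≤ 1 := hCM.le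
  have hX0pos : 0 < X0 := by positivity
  have hX01 : 1 ≤ X0 := Real.one_le_rpow (by linarith [(Nat.cast_nonneg P0 : (0 : ℝ) ≤ P0)]) (by positivity)
  have hX1 : 1 ≤ X := hX01.trans hX
  have hXpos : 0 < X := by linarith
  set Z : ℝ := X ^ (β / 2) with hZ
  have hZge : (P0 : ℝ) + 5 ≤ Z := by
    have h1 : X0 ^ (β / 2) ≤ X ^ (β / 2) := Real.rpow_le_rpow hX0pos.le hX (by positivity)
    rw [hX0, ← Real.rpow_mul (by positivity)] at h1
    have e : 2 / β * (β / 2) = 1 := by field_simp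
    rwa [e, Real.rpow_one] at h1
  have hP0r : (0 : ℝ) ≤ P0 := Nat.cast_nonneg P0
  have hX5 : 5 ≤ X := by
    have h1 : Z ≤ X ^ (1 : ℝ) := Real.rpow_le_rpow_of_exponent_le hX1 (by linarith)
    rw [Real.rpow_one] at h1
    linarith
  have hZZ : X ^ β = Z ^ 2 := by
    rw [hZ, ← Real.rpow_natCast, ← Real.rpow_mul hXpos.le]; congr 1; push_cast; ring
  set P : ℕ := ⌊Real.exp ((v : ℝ) / H)⌋₊ with hP
  have hPZ : Z ≤ P := by
    have h1 : Real.exp ((v : ℝ) / H) < P + 1 := Nat.lt_floor_add_one _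
    have h2 : Z ^ 2 < P + 1 := by rw [← hZZ]; exact hv1.trans_lt h1
    nlinarith
  have hPge : (P0 : ℝ) + 5 ≤ P := hZge.trans hPZ
  have hPge' : P0 + 5 ≤ P := by exact_mod_cast hPge
  have hPr : (5 : ℝ) ≤ P := by linarith
  have hPpos : (0 : ℝ) < P := by linarith
  have hXP : X ≤ (P : ℝ) ^ (2 / β) := by
    have h1 : Z ^ (2 / β) ≤ (P : ℝ) ^ (2 / β) := Real.rpow_le_rpow (by linarith) hPZ (by positivity)
    rw [hZ, ← Real.rpow_mul hXpos.le] at h1
    have e : β / 2 * (2 / β) = 1 := by field_simp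
    rwa [e, Real.rpow_one] at h1
  have hlogX : 0 < Real.log X := by
    apply Real.log_pos
    have h1 : (1 : ℝ) < Z := by linarith
    by_contra hcon
    have h2 : X = 1 := le_antisymm (not_lt.1 hcon) hX1
    rw [hZ, h2, Real.one_rpow] at h1
    linarith
  have hlogP : β / 2 * Real.log X ≤ Real.log P := by
    rw [← Real.log_rpow hXpos]
    exact Real.log_le_log (by positivity) hPZ
  -- all primes of the window lie in [P, 4P]
  have hWmem : ∀ p ∈ W H v, p.Prime ∧ P ≤ p ∧ p ≤ 4 * P := by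
    intro p hp
    unfold W at hp
    rw [mem_filter, mem_Ioc] at hp
    refine ⟨hp.2, hp.1.1.le, ?_⟩
    have h1 : (p : ℝ) ≤ Real.exp (((v : ℝ) + 1) / H) := by
      have h1 : (p : ℝ) ≤ (⌊Real.exp (((v : ℝ) + 1) / H)⌋₊ : ℝ) := by exact_mod_cast hp.1.2
      exact h1.trans (Nat.floor_le (Real.exp_pos _).le)
    have hH' : (1 : ℝ) ≤ H := by exact_mod_cast hH
    have h2 : Real.exp (((v : ℝ) + 1) / H) ≤ Real.exp 1 * Real.exp ((v : ℝ) / H) := by
      rw [← Real.exp_add]
      apply Real.exp_le_exp.2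
      rw [add_div]
      have : 1 / (H : ℝ) ≤ 1 := by rw [div_le_one (by linarith)]; exact hH'
      linarith
    have h3 : Real.exp ((v : ℝ) / H) < P + 1 := Nat.lt_floor_add_one _
    have h4 := Real.exp_one_lt_d9
    have h5 : (p : ℝ) ≤ 4 * P := by
      have h6 : Real.exp 1 * Real.exp ((v : ℝ) / H) ≤ 2.7182818286 * (P + 1) :=
        mul_le_mul h4.le h3.le (Real.exp_pos _).le (by norm_num)
      linarith
    exact_mod_cast h5
  set S1 := (W H v).filter (fun p => p ≤ 2 * P) with hS1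
  set S2 := (W H v).filter (fun p => ¬ p ≤ 2 * P) with hS2
  have hQ : ∀ t : ℝ, MRF.QF f H v t = ∑ p ∈ S1, (((1 / (p : ℝ) : ℝ) : ℂ) * f p) * ee (-t) p
      + ∑ p ∈ S2, (((1 / (p : ℝ) : ℝ) : ℂ) * f p) * ee (-t) p := by
    intro t
    unfold MRF.QF
    rw [hS1, hS2, Finset.sum_filter_add_sum_filter_not]
    refine Finset.sum_congr rfl fun p _ => ?_
    rw [nt_eq_ee]
  -- one parity class
  have hclass : ∀ R' : Finset ℤ, R' ⊆ R → (∀ r ∈ R', ∀ s ∈ R', r ≠ s → 2 ≤ |r - s|) →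
      ∑ r ∈ R', ‖MRF.QF f H v (τ r)‖ ^ 2 ≤ 16 * M / β ^ 2 / (Real.log X) ^ 2 := by
    intro R' hR' hpar
    obtain ⟨hsep, hc, hsum⟩ := parity R' τ (fun r hr => hτ r (hR' hr)) hpar
      (fun t => ‖MRF.QF f H v t‖ ^ 2)
    rw [hsum]
    set T := R'.image τ with hT
    have hTb : ∀ s ∈ T, |s| ≤ 2 * X + 1 := by
      intro s hs
      rw [hT, mem_image] at hs
      obtain ⟨r, hr, rfl⟩ := hs
      have h1 := hR r (hR' hr)
      have h2 := hτ r (hR' hr)
      rw [abs_le] at h1 ⊢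
      constructor
      · linarith [h2.1]
      · linarith [h2.2]
    have hTdist : ∀ s ∈ T, ∀ t ∈ T, |s - t| ≤ (P : ℝ) ^ (2 / β + 1) := by
      intro s hs t ht
      have h1 := hTb s hs
      have h2 := hTb t ht
      have h3 : |s - t| ≤ |s| + |t| := abs_sub s t
      have h4 : (P : ℝ) ^ (2 / β + 1) = (P : ℝ) ^ (2 / β) * P := by
        rw [Real.rpow_add hPpos, Real.rpow_one]
      rw [h4]
      have h5 : X * 5 ≤ (P : ℝ) ^ (2 / β) * P :=
        mul_le_mul hXP hPr (by norm_num) (by positivity)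
      linarith
    have hTcard : (T.card : ℝ) ≤ (P : ℝ) ^ (η / 2) := by
      have h1 : (T.card : ℝ) ≤ X ^ θ := by
        refine le_trans ?_ hcard
        exact_mod_cast hc.trans (Finset.card_le_card hR')
      refine h1.trans ?_
      have h2 : X ^ θ ≤ X ^ (β * η / 4) := Real.rpow_le_rpow_of_exponent_le hX1 hθ1
      have h3 : X ^ (β * η / 4) ≤ ((P : ℝ) ^ (2 / β)) ^ (β * η / 4) :=
        Real.rpow_le_rpow hXpos.le hXP (by positivity)
      rw [← Real.rpow_mul hPpos.le] at h3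
      have e : 2 / β * (β * η / 4) = η / 2 := by field_simp; ring
      rw [e] at h3
      exact h2.trans h3
    have hP0' : (0 : ℝ) < Real.log P := by
      have : 0 < β / 2 * Real.log X := by positivity
      linarith
    have hM1 : M / (Real.log P) ^ 2 ≤ 4 * M / β ^ 2 / (Real.log X) ^ 2 := by
      have h1 : (β / 2 * Real.log X) ^ 2 ≤ (Real.log P) ^ 2 :=
        pow_le_pow_left₀ (by positivity) hlogP 2
      refine (div_le_div_of_nonneg_left hM0.le (by positivity) h1).trans (le_of_eq ?_)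
      field_simp
      ring
    -- first window
    have hA1 := windowF η C hη hC P (by omega) T hTcard S1 (by
      intro p hp
      rw [hS1, mem_filter] at hp
      exact ⟨(hWmem p hp.1).1, (hWmem p hp.1).2.1, hp.2⟩) f hf
      (hcore P (by omega) T hsep hTdist S1 (by
        intro p hp
        rw [hS1, mem_filter] at hp
        exact ⟨(hWmem p hp.1).1, (hWmem p hp.1).2.1, hp.2⟩))
    -- second window
    have h2P : (P : ℝ) ≤ ((2 * P : ℕ) : ℝ) := by push_cast; linarith
    have hA2 := windowF η C hη hC (2 * P) (by omega) T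
      (hTcard.trans (Real.rpow_le_rpow hPpos.le h2P (by positivity))) S2 (by
      intro p hp
      rw [hS2, mem_filter] at hp
      exact ⟨(hWmem p hp.1).1, by omega, by have := (hWmem p hp.1).2.2; omega⟩) f hf
      (hcore (2 * P) (by omega) T hsep (fun s hs t ht => (hTdist s hs t ht).trans
        (Real.rpow_le_rpow hPpos.le h2P (by positivity))) S2 (by
        intro p hp
        rw [hS2, mem_filter] at hp
        exact ⟨(hWmem p hp.1).1, by omega, by have := (hWmem p hp.1).2.2; omega⟩))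
    have hA2' : M / (Real.log ((2 * P : ℕ) : ℝ)) ^ 2 ≤ M / (Real.log P) ^ 2 := by
      refine div_le_div_of_nonneg_left hM0.le (by positivity) ?_
      exact pow_le_pow_left₀ hP0'.le (Real.log_le_log hPpos h2P) 2
    have hpt : ∀ t ∈ T, ‖MRF.QF f H v t‖ ^ 2 ≤ 2 * ‖∑ p ∈ S1, (((1 / (p : ℝ) : ℝ) : ℂ) * f p) * ee (-t) p‖ ^ 2
        + 2 * ‖∑ p ∈ S2, (((1 / (p : ℝ) : ℝ) : ℂ) * f p) * ee (-t) p‖ ^ 2 := by
      intro t _
      rw [hQ t]
      exact norm_add_sq_le _ _
    refine (Finset.sum_le_sum hpt).trans ?_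
    rw [Finset.sum_add_distrib, ← Finset.mul_sum, ← Finset.mul_sum]
    have e16 : 16 * M / β ^ 2 / (Real.log X) ^ 2
        = 4 * (4 * M / β ^ 2 / (Real.log X) ^ 2) := by ring
    rw [e16]
    rw [← hM] at hA1 hA2
    linarith
  have hsplit : ∑ r ∈ R, ‖MRF.QF f H v (τ r)‖ ^ 2
      = ∑ r ∈ R.filter (fun r => Even r), ‖MRF.QF f H v (τ r)‖ ^ 2
        + ∑ r ∈ R.filter (fun r => ¬ Even r), ‖MRF.QF f H v (τ r)‖ ^ 2 := by
    rw [Finset.sum_filter_add_sum_filter_not]
  have hpar2 : ∀ r s : ℤ, Even (r - s) → r ≠ s → 2 ≤ |r - s| := by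
    intro r s hev hne
    obtain ⟨k, hk⟩ := hev
    have hk0 : k ≠ 0 := by rintro rfl; omega
    rw [hk]
    have : 1 ≤ |k| := Int.one_le_abs hk0
    have e : |k + k| = 2 * |k| := by
      rw [← two_mul, abs_mul]; norm_num
    rw [e]; omega
  rw [hsplit]
  have h1 := hclass (R.filter (fun r => Even r)) (Finset.filter_subset _ _) (by
    intro r hr s hs hne
    rw [mem_filter] at hr hs
    exact hpar2 r s (hr.2.sub hs.2) hne)
  have h2 := hclass (R.filter (fun r => ¬ Even r)) (Finset.filter_subset _ _) (by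
    intro r hr s hs hne
    rw [mem_filter, Int.not_even_iff_odd] at hr hs
    exact hpar2 r s (hr.2.sub_odd hs.2) hne)
  have e : 32 * M / β ^ 2 / (Real.log X) ^ 2
      = 16 * M / β ^ 2 / (Real.log X) ^ 2 + 16 * M / β ^ 2 / (Real.log X) ^ 2 := by ring
  rw [e]
  exact add_le_add h1 h2

end Pool.Agent.SV
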