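import Pool.Agent.Lib.SV.U1D
import Pool.Agent.Lib.MRF.AT
import Pool.Agent.Lib.MRF.SJ
import Pool.Agent.Lib.MRF.MO

/-! Theorem V, row U1S: the first scale and the step `j` with uniform constants.  Copies of the
final proofs of `Lib/MRF/S1.lean`, `Lib/MRF/SJ.lean` with the constants pulled out.  helper65. -/

set_option autoImplicit false

namespace Pool.Agent.SVU

open Finset MeasureTheory Pool.Agent.MRL Pool.Agent.MRHal Pool.Agent.MRF
open Pool.Agent.MRL.SJ (g_nonneg int_sq bdd_pow_mul bdd_mul term_le)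
open Pool.Agent.MRF.SJ (bdd_A bdd_Q bdd_S meas_good S_sq_le one_le_of_not_good int_le)

/-- The body of `MomentF` with the constant `C`. -/
def MomC (C : ℝ) (f : ℕ → ℂ) : Prop := ∀ (l H v : ℕ) (Y : ℝ), 1 ≤ l → 1 ≤ H →
  H ≤ v → 1 ≤ Y →
  ∃ (N : ℕ) (c : ℕ → ℂ), 1 ≤ N ∧ (N : ℝ) ≤ 2 * Real.exp (l * (((v : ℝ) + 1) / H)) * Y ∧
    (∀ t : ℝ, QF f H v t ^ l * AF f Y t = ∑ n ∈ Icc 1 N, c n * nt n t) ∧
    (∀ n : ℕ, c n ≠ 0 → Real.exp (l * ((v : ℝ) / H)) * Y ≤ n) ∧
    ∑ n ∈ Icc 1 N, ‖c n‖ ^ 2 * n ≤ (C * l) ^ l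

/-- the mean square of `AF f Y`. -/
theorem AF_meanC {C : ℝ} (hC : 0 < C) (h : MVC C) {f : ℕ → ℂ} (hf : ∀ n, ‖f n‖ ≤ 1)
    (Y T : ℝ) (hY : 1 ≤ Y) (hT : 0 < T) (hTY : T ≤ Y) :
    ∫ t : ℝ, ‖AF f Y t‖ ^ 2 * g T t ≤ 6 * C := by
  set N := ⌊2 * Y⌋₊ with hN
  have hN1 : 1 ≤ N := by
    rw [hN, Nat.one_le_floor_iff]
    linarith
  have hNY : (N : ℝ) ≤ 2 * Y := Nat.floor_le (by linarith)
  set a : ℕ → ℂ := fun n => if n ∈ Ioc ⌊Y⌋₊ N then ((1 / (n : ℝ) : ℝ) : ℂ) * f n else 0 with ha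
  have hsub : Ioc ⌊Y⌋₊ N ⊆ Icc 1 N := by
    intro n hn
    rw [Finset.mem_Ioc] at hn
    rw [Finset.mem_Icc]
    omega
  have hA : ∀ t, AF f Y t = ∑ n ∈ Icc 1 N, a n * nt n t := by
    intro t
    unfold AF
    rw [← Finset.sum_subset hsub]
    · refine Finset.sum_congr rfl fun n hn => ?_
      rw [ha]
      simp only [hn, if_true]
    · intro n _ hn
      rw [ha]
      simp only [hn, if_false, zero_mul]
  have h2 := h N T a hN1 hT
  have h3 : ∑ n ∈ Icc 1 N, ‖a n‖ ^ 2 ≤ 2 / Y := by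
    have h4 : ∑ n ∈ Icc 1 N, ‖a n‖ ^ 2 = ∑ n ∈ Ioc ⌊Y⌋₊ N, ‖a n‖ ^ 2 := by
      rw [← Finset.sum_subset hsub]
      intro n _ hn
      rw [ha]
      simp only [hn, if_false, norm_zero]
      norm_num
    rw [h4]
    have h5 : ∀ n ∈ Ioc ⌊Y⌋₊ N, ‖a n‖ ^ 2 ≤ 1 / Y ^ 2 := by
      intro n hn
      have hn' := Finset.mem_Ioc.mp hn
      have hYn : Y < n := (Nat.floor_lt (by linarith)).mp hn'.1
      have h6 : ‖a n‖ ≤ 1 / (n : ℝ) := by
        rw [ha]
        simp only [hn, if_true]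
        exact norm_coef hf n
      calc ‖a n‖ ^ 2 ≤ (1 / (n : ℝ)) ^ 2 := pow_le_pow_left₀ (norm_nonneg _) h6 2
        _ = 1 / (n : ℝ) ^ 2 := by rw [div_pow, one_pow]
        _ ≤ 1 / Y ^ 2 := by
            apply one_div_le_one_div_of_le (by positivity)
            exact pow_le_pow_left₀ (by linarith) hYn.le 2
    refine (Finset.sum_le_card_nsmul _ _ _ h5).trans ?_
    rw [nsmul_eq_mul, Nat.card_Ioc]
    have h6 : ((N - ⌊Y⌋₊ : ℕ) : ℝ) ≤ 2 * Y := by
      calc ((N - ⌊Y⌋₊ : ℕ) : ℝ) ≤ (N : ℝ) := by exact_mod_cast Nat.sub_le _ _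
        _ ≤ 2 * Y := hNY
    calc ((N - ⌊Y⌋₊ : ℕ) : ℝ) * (1 / Y ^ 2) ≤ 2 * Y * (1 / Y ^ 2) := by gcongr
      _ = 2 / Y := by field_simp
  simp_rw [hA]
  refine h2.trans ?_
  have h7 : T + N ≤ 3 * Y := by linarith
  have h8 : 0 ≤ ∑ n ∈ Icc 1 N, ‖a n‖ ^ 2 := by positivity
  calc C * (T + N) * ∑ n ∈ Icc 1 N, ‖a n‖ ^ 2 ≤ C * (3 * Y) * (2 / Y) := by gcongr
    _ = 6 * C := by field_simp; ring

theorem stepOneC {C : ℝ} (hC : 0 < C) {f : ℕ → ℂ} (hf : ∀ n, ‖f n‖ ≤ 1)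
    (hA : ∀ Y T : ℝ, 1 ≤ Y → 0 < T → T ≤ Y → ∫ t : ℝ, ‖AF f Y t‖ ^ 2 * g T t ≤ C) :
    Pool.Agent.SV.StepOneC C f := by
  intro X T H v1 v2 α hH hv hT hα hTX hX
  have hHr : (0 : ℝ) < H := by exact_mod_cast hH
  have hX1 : 1 ≤ √X := le_trans (Real.one_le_exp (by positivity)) hX
  have hX0 : 0 < X := by
    by_contra hneg
    rw [Real.sqrt_eq_zero_of_nonpos (not_lt.mp hneg)] at hX1
    linarith
  -- the pointwise bound
  have hpt : ∀ t ∈ {t : ℝ | GoodF f H v1 v2 α t}, ‖SF f X H v1 v2 t‖ ^ 2 * g T t ≤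
      ∑ v ∈ Ico v1 v2, (v2 : ℝ) * Real.exp (-(2 * α * v1 / H)) *
        (‖AF f (X * Real.exp (-((v : ℝ) / H))) t‖ ^ 2 * g T t) := by
    intro t ht
    have hs : ‖SF f X H v1 v2 t‖ ^ 2 ≤ ∑ v ∈ Ico v1 v2, (v2 : ℝ) *
        Real.exp (-(2 * α * v1 / H)) * ‖AF f (X * Real.exp (-((v : ℝ) / H))) t‖ ^ 2 := by
      unfold SF
      calc ‖∑ v ∈ Ico v1 v2, QF f H v t * AF f (X * Real.exp (-((v : ℝ) / H))) t‖ ^ 2
          ≤ (∑ v ∈ Ico v1 v2, ‖QF f H v t * AF f (X * Real.exp (-((v : ℝ) / H))) t‖) ^ 2 :=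
            pow_le_pow_left₀ (norm_nonneg _) (norm_sum_le _ _) 2
        _ ≤ (Ico v1 v2).card * ∑ v ∈ Ico v1 v2,
              ‖QF f H v t * AF f (X * Real.exp (-((v : ℝ) / H))) t‖ ^ 2 :=
            sq_sum_le_card_mul_sum_sq
        _ ≤ (v2 : ℝ) * ∑ v ∈ Ico v1 v2, Real.exp (-(2 * α * v1 / H)) *
              ‖AF f (X * Real.exp (-((v : ℝ) / H))) t‖ ^ 2 := by
            have hcard : (((Ico v1 v2).card : ℕ) : ℝ) ≤ v2 := by
              rw [Nat.card_Ico]
              exact_mod_cast Nat.sub_le _ _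
            refine mul_le_mul hcard (Finset.sum_le_sum fun v hv' => ?_) (by positivity)
              (by positivity)
            rw [norm_mul, mul_pow]
            refine mul_le_mul_of_nonneg_right ?_ (by positivity)
            have hv1 : v1 ≤ v := (Finset.mem_Ico.mp hv').1
            calc ‖QF f H v t‖ ^ 2 ≤ Real.exp (-(α * v / H)) ^ 2 :=
                  pow_le_pow_left₀ (norm_nonneg _) (ht v hv') 2
              _ = Real.exp (-(2 * α * v / H)) := by
                  rw [← Real.exp_nat_mul]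
                  congr 1
                  push_cast
                  ring
              _ ≤ Real.exp (-(2 * α * v1 / H)) := by
                  rw [Real.exp_le_exp, neg_le_neg_iff]
                  have : (v1 : ℝ) ≤ v := by exact_mod_cast hv1
                  gcongr
        _ = _ := by
            rw [Finset.mul_sum]
            exact Finset.sum_congr rfl fun v _ => by ring
    calc ‖SF f X H v1 v2 t‖ ^ 2 * g T t ≤ (∑ v ∈ Ico v1 v2, (v2 : ℝ) *
          Real.exp (-(2 * α * v1 / H)) * ‖AF f (X * Real.exp (-((v : ℝ) / H))) t‖ ^ 2) *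
            g T t := mul_le_mul_of_nonneg_right hs (AT.g_pos T t).le
      _ = _ := by
          rw [Finset.sum_mul]
          exact Finset.sum_congr rfl fun v _ => by ring
  have hint : ∀ v ∈ Ico v1 v2, Integrable fun t => (v2 : ℝ) * Real.exp (-(2 * α * v1 / H)) *
      (‖AF f (X * Real.exp (-((v : ℝ) / H))) t‖ ^ 2 * g T t) := fun v _ =>
    (AT.integrable_AF hf _ hT).const_mul _
  have hint' : Integrable fun t => ∑ v ∈ Ico v1 v2, (v2 : ℝ) * Real.exp (-(2 * α * v1 / H)) *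
      (‖AF f (X * Real.exp (-((v : ℝ) / H))) t‖ ^ 2 * g T t) := integrable_finsetSum _ hint
  calc ∫ t in {t : ℝ | GoodF f H v1 v2 α t}, ‖SF f X H v1 v2 t‖ ^ 2 * g T t
      ≤ ∫ t in {t : ℝ | GoodF f H v1 v2 α t}, ∑ v ∈ Ico v1 v2, (v2 : ℝ) *
          Real.exp (-(2 * α * v1 / H)) *
            (‖AF f (X * Real.exp (-((v : ℝ) / H))) t‖ ^ 2 * g T t) := by
        refine integral_mono_of_nonneg ?_ hint'.integrableOn ?_
        · exact Filter.Eventually.of_forall fun t => by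
            have := AT.g_pos T t
            positivity
        · exact (ae_restrict_iff' (isClosed_goodF f H v1 v2 α).measurableSet).mpr
            (Filter.Eventually.of_forall hpt)
    _ ≤ ∫ t, ∑ v ∈ Ico v1 v2, (v2 : ℝ) * Real.exp (-(2 * α * v1 / H)) *
          (‖AF f (X * Real.exp (-((v : ℝ) / H))) t‖ ^ 2 * g T t) := by
        refine setIntegral_le_integral hint' (Filter.Eventually.of_forall fun t => ?_)
        exact Finset.sum_nonneg fun v _ => by
          have := AT.g_pos T t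
          positivity
    _ = ∑ v ∈ Ico v1 v2, (v2 : ℝ) * Real.exp (-(2 * α * v1 / H)) *
          ∫ t, ‖AF f (X * Real.exp (-((v : ℝ) / H))) t‖ ^ 2 * g T t := by
        rw [integral_finsetSum _ hint]
        exact Finset.sum_congr rfl fun v _ => integral_const_mul _ _
    _ ≤ ∑ v ∈ Ico v1 v2, (v2 : ℝ) * Real.exp (-(2 * α * v1 / H)) * C := by
        refine Finset.sum_le_sum fun v hv' => ?_
        refine mul_le_mul_of_nonneg_left ?_ (by positivity)
        have hv2 : (v : ℝ) ≤ v2 := by exact_mod_cast (Finset.mem_Ico.mp hv').2.le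
        have hexp : Real.exp ((v : ℝ) / H) ≤ Real.exp ((v2 : ℝ) / H) := by
          rw [Real.exp_le_exp]
          gcongr
        have hinv : X * Real.exp (-((v : ℝ) / H)) = X / Real.exp ((v : ℝ) / H) := by
          rw [Real.exp_neg]
          rfl
        apply hA
        · rw [hinv, le_div_iff₀ (Real.exp_pos _), one_mul]
          calc Real.exp ((v : ℝ) / H) ≤ √X := hexp.trans hX
            _ ≤ √X * √X := by nlinarith
            _ = X := Real.mul_self_sqrt hX0.le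
        · exact hT
        · rw [hinv, le_div_iff₀ (Real.exp_pos _)]
          exact (mul_le_mul_of_nonneg_left hexp hT.le).trans hTX
    _ = ((v2 - v1 : ℕ) : ℝ) * ((v2 : ℝ) * Real.exp (-(2 * α * v1 / H)) * C) := by
        rw [Finset.sum_const, Nat.card_Ico, nsmul_eq_mul]
    _ ≤ (v2 : ℝ) * ((v2 : ℝ) * Real.exp (-(2 * α * v1 / H)) * C) := by
        refine mul_le_mul_of_nonneg_right ?_ (by positivity)
        exact_mod_cast Nat.sub_le _ _
    _ = C * (v2 : ℝ) ^ 2 * Real.exp (-(2 * α * v1 / H)) := by ring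

/-- The mean value of `Q^l A`. -/
theorem mv_momentC {C1 : ℝ} (hC1 : 0 < C1) (h1 : MVC C1) {C2 : ℝ} (hC2 : 1 ≤ C2) {f : ℕ → ℂ}
    (h2 : MomC C2 f) (l H v : ℕ) (Y T : ℝ) (hl : 1 ≤ l) (hH : 1 ≤ H) (hv : H ≤ v) (hY : 1 ≤ Y)
    (hT : 0 < T) (hTY : T ≤ Real.exp (l * ((v : ℝ) / H)) * Y) :
    ∫ t : ℝ, ‖QF f H v t ^ l * AF f Y t‖ ^ 2 * g T t ≤
      (max (max 1 (3 * C1)) (Real.exp 1 * C2)) *
        ((max (max 1 (3 * C1)) (Real.exp 1 * C2)) * l) ^ l := by
  obtain ⟨N, c, hN1, hN, hid, hsupp, hsum⟩ := h2 l H v Y hl hH hv hY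
  set N0 : ℝ := Real.exp (l * ((v : ℝ) / H)) * Y with hN0
  have hN0p : 0 < N0 := by positivity
  have hHr : (0 : ℝ) < H := by exact_mod_cast hH
  have hHr1 : (1 : ℝ) ≤ H := by exact_mod_cast hH
  have hl0 : (1 : ℝ) ≤ l := by exact_mod_cast hl
  -- the sum of squares
  have hsq : ∑ n ∈ Icc 1 N, ‖c n‖ ^ 2 ≤ (C2 * l) ^ l / N0 := by
    rw [le_div_iff₀ hN0p, sum_mul]
    refine le_trans (sum_le_sum fun n _ => ?_) hsum
    by_cases hc : c n = 0
    · simp [hc]
    · exact mul_le_mul_of_nonneg_left (hsupp n hc) (by positivity)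
  have hN2 : (N : ℝ) ≤ 2 * Real.exp l * N0 := by
    refine hN.trans ?_
    have h3 : (l : ℝ) * (((v : ℝ) + 1) / H) = l * ((v : ℝ) / H) + l / H := by
      field_simp
    rw [h3, Real.exp_add, hN0]
    have h4 : Real.exp ((l : ℝ) / H) ≤ Real.exp l :=
      Real.exp_le_exp.mpr (div_le_self (by positivity) hHr1)
    have h5 : 0 ≤ Real.exp (l * ((v : ℝ) / H)) * Y := hN0p.le
    nlinarith [mul_le_mul_of_nonneg_left h4 h5]
  have hT2 : T ≤ Real.exp l * N0 := by
    refine hTY.trans ?_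
    have : (1 : ℝ) ≤ Real.exp l := Real.one_le_exp (by positivity)
    nlinarith
  have hmv := h1 N T c hN1 hT
  have heq : ∫ t : ℝ, ‖QF f H v t ^ l * AF f Y t‖ ^ 2 * g T t =
      ∫ t : ℝ, ‖∑ n ∈ Icc 1 N, c n * nt n t‖ ^ 2 * g T t := by
    congr 1
    ext t
    rw [hid t]
  rw [heq]
  refine hmv.trans ?_
  have hM0 : 0 ≤ (C2 * l) ^ l := by positivity
  have h6 : C1 * (T + N) * ∑ n ∈ Icc 1 N, ‖c n‖ ^ 2 ≤
      C1 * (3 * Real.exp l * N0) * ((C2 * l) ^ l / N0) := by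
    apply mul_le_mul
    · exact mul_le_mul_of_nonneg_left (by linarith) hC1.le
    · exact hsq
    · exact sum_nonneg fun n _ => by positivity
    · positivity
  refine h6.trans ?_
  have h7 : C1 * (3 * Real.exp l * N0) * ((C2 * l) ^ l / N0) =
      3 * C1 * (Real.exp 1 * C2 * l) ^ l := by
    have h8 : Real.exp (l : ℝ) = Real.exp 1 ^ l := by
      rw [← Real.exp_nat_mul, mul_one]
    rw [h8, mul_assoc (Real.exp 1), mul_pow (Real.exp 1)]
    field_simp
  rw [h7]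
  have h9 : 3 * C1 ≤ max (max 1 (3 * C1)) (Real.exp 1 * C2) :=
    (le_max_right _ _).trans (le_max_left _ _)
  have h10 : Real.exp 1 * C2 ≤ max (max 1 (3 * C1)) (Real.exp 1 * C2) := le_max_right _ _
  apply mul_le_mul h9
  · apply pow_le_pow_left₀ (by positivity)
    exact mul_le_mul_of_nonneg_right h10 (by positivity)
  · positivity
  · exact le_trans (by positivity) h9

theorem stepJC {C : ℝ} (hC : 1 ≤ C) {f : ℕ → ℂ} (hmv : ∀ (l H v : ℕ) (Y T : ℝ), 1 ≤ l →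
    1 ≤ H → H ≤ v → 1 ≤ Y → 0 < T → T ≤ Real.exp (l * ((v : ℝ) / H)) * Y →
      ∫ t : ℝ, ‖QF f H v t ^ l * AF f Y t‖ ^ 2 * g T t ≤ C * (C * l) ^ l) :
    Pool.Agent.SV.StepJC C f := by
  intro X T H' v1' v2' H v1 v2 α' α hH' hv1' hv12' hHH hv1 hv12 hα' hD hα h12 hlog2 hlog3 hT hTX
    hX
  have hH : 1 ≤ H := hH'.trans hHH
  have hHr : (0 : ℝ) < H := by exact_mod_cast hH
  have hH'r : (0 : ℝ) < H' := by exact_mod_cast hH'
  set A1 : ℝ := (v1 : ℝ) / H with hA1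
  set B1 : ℝ := (v1' : ℝ) / H' with hB1
  set B2 : ℝ := (v2' : ℝ) / H' with hB2
  have hA1' : 1 ≤ A1 := by
    rw [hA1, le_div_iff₀ hHr, one_mul]
    exact_mod_cast hv1
  have hB1' : 1 ≤ B1 := by
    rw [hB1, le_div_iff₀ hH'r, one_mul]
    exact_mod_cast hv1'
  have hX1 : 1 ≤ √X := (Real.one_le_exp (by positivity)).trans hX
  have hX0 : 0 < X := by
    by_contra h
    rw [Real.sqrt_eq_zero_of_nonpos (not_lt.mp h)] at hX1
    linarith
  set l : ℕ → ℕ → ℕ := fun v w => ⌈((v : ℝ) / H) / ((w : ℝ) / H')⌉₊ with hl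
  have hterm : ∀ v ∈ Ico v1 v2, ∀ w ∈ Ico v1' v2',
      Real.exp (-(2 * α * v / H)) * Real.exp (2 * l v w * (α' * w / H')) *
        ∫ t : ℝ, ‖QF f H' w t ^ l v w * AF f (X * Real.exp (-((v : ℝ) / H))) t‖ ^ 2 * g T t ≤
      C * Real.exp (-(31 / 24 * ((α - α') * A1))) := by
    intro v hv w hw
    rw [mem_Ico] at hv hw
    have ha1 : A1 ≤ (v : ℝ) / H := by
      rw [hA1]
      gcongr
      exact_mod_cast hv.1
    have ha2 : (v : ℝ) / H ≤ (v2 : ℝ) / H := by
      gcongr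
      exact_mod_cast hv.2.le
    have hb1 : B1 ≤ (w : ℝ) / H' := by
      rw [hB1]
      gcongr
      exact_mod_cast hw.1
    have hb2 : (w : ℝ) / H' ≤ B2 := by
      rw [hB2]
      gcongr
      exact_mod_cast hw.2.le
    set a : ℝ := (v : ℝ) / H with ha
    set b : ℝ := (w : ℝ) / H' with hb
    have ha0 : 0 < a := by linarith
    have hb0 : 0 < b := by linarith
    have hl1 : 1 ≤ l v w := Nat.one_le_iff_ne_zero.mpr (Nat.ceil_pos.mpr (by positivity)).ne'
    have hl2 : (l v w : ℝ) ≤ a / b + 1 := (Nat.ceil_lt_add_one (by positivity)).le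
    have hl3 : a / b ≤ l v w := Nat.le_ceil _
    have hY : X * Real.exp (-a) ≥ √X := by
      have h1 : Real.exp a ≤ √X := (Real.exp_le_exp.mpr ha2).trans hX
      rw [Real.exp_neg, ← div_eq_mul_inv, ge_iff_le, le_div_iff₀ (Real.exp_pos _)]
      calc √X * Real.exp a ≤ √X * √X := mul_le_mul_of_nonneg_left h1 (by positivity)
        _ = X := Real.mul_self_sqrt hX0.le
    have hTY : T ≤ Real.exp (l v w * b) * (X * Real.exp (-a)) := by
      refine hTX.trans ?_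
      have h1 : a ≤ l v w * b := by
        rwa [div_le_iff₀ hb0] at hl3
      have h2 : Real.exp a ≤ Real.exp (l v w * b) := Real.exp_le_exp.mpr h1
      have h3 : Real.exp a * Real.exp (-a) = 1 := by
        rw [← Real.exp_add, add_neg_cancel, Real.exp_zero]
      calc X = Real.exp a * (X * Real.exp (-a)) := by
            rw [mul_left_comm, h3, mul_one]
        _ ≤ _ := mul_le_mul_of_nonneg_right h2 (by positivity)
    have h1 := hmv (l v w) H' w (X * Real.exp (-a)) T hl1 hH' (hv1'.trans hw.1)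
      (hX1.trans hY) hT hTY
    have h2 : Real.exp (-(2 * α * v / H)) * Real.exp (2 * l v w * (α' * w / H')) *
        ∫ t : ℝ, ‖QF f H' w t ^ l v w * AF f (X * Real.exp (-a)) t‖ ^ 2 * g T t ≤
        Real.exp (-(2 * α * v / H)) * Real.exp (2 * l v w * (α' * w / H')) *
          (C * (C * l v w) ^ l v w) :=
      mul_le_mul_of_nonneg_left h1 (by positivity)
    refine h2.trans ?_
    have h3 := term_le (C := C) (α := α) (α' := α') (a := a) (b := b) (A1 := A1) (B1 := B1)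
      (B2 := B2) (V := (v2 : ℝ) / H) (l := l v w) hC hα' hD hα hB1' hb1 hb2 ha1 ha2 hA1' h12
      hlog3 hl1 hl2
    have h4 : 2 * α * v / H = 2 * α * a := by
      rw [ha]
      ring
    have h5 : α' * w / H' = α' * b := by
      rw [hb]
      ring
    rw [h4, h5]
    exact h3
  have h1 := int_le f (X := X) (T := T) (H' := H') (v1' := v1') (v2' := v2') (H := H) (v1 := v1)
    (v2 := v2) (α' := α') (α := α) hT l
  refine h1.trans ?_
  have h2 : ∑ v ∈ Ico v1 v2, ∑ w ∈ Ico v1' v2',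
        Real.exp (-(2 * α * v / H)) * Real.exp (2 * l v w * (α' * w / H')) *
        ∫ t : ℝ, ‖QF f H' w t ^ l v w * AF f (X * Real.exp (-((v : ℝ) / H))) t‖ ^ 2 * g T t ≤
      ((Ico v1 v2).card : ℝ) * (((Ico v1' v2').card : ℝ) *
        (C * Real.exp (-(31 / 24 * ((α - α') * A1))))) := by
    have h3 : ∀ v ∈ Ico v1 v2, ∑ w ∈ Ico v1' v2',
        Real.exp (-(2 * α * v / H)) * Real.exp (2 * l v w * (α' * w / H')) *
        ∫ t : ℝ, ‖QF f H' w t ^ l v w * AF f (X * Real.exp (-((v : ℝ) / H))) t‖ ^ 2 * g T t ≤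
        ((Ico v1' v2').card : ℝ) * (C * Real.exp (-(31 / 24 * ((α - α') * A1)))) := by
      intro v hv
      have := sum_le_card_nsmul (Ico v1' v2') _ _ (hterm v hv)
      rwa [nsmul_eq_mul] at this
    have := sum_le_card_nsmul (Ico v1 v2) _ _ h3
    rwa [nsmul_eq_mul] at this
  -- the number of terms
  have hV : (v2' : ℝ) ≤ v2 := by
    have h3 : 12 * B2 ≤ A1 := by
      refine h12.trans ?_
      nlinarith
    have h4 : A1 ≤ (v1 : ℝ) / H' := by
      rw [hA1]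
      exact div_le_div_of_nonneg_left (by positivity) hH'r (by exact_mod_cast hHH)
    have h5 : 12 * ((v2' : ℝ) / H') ≤ (v1 : ℝ) / H' := h3.trans h4
    rw [← mul_div_assoc, div_le_div_iff_of_pos_right hH'r] at h5
    have h6 : (v1 : ℝ) ≤ v2 := by exact_mod_cast hv12
    have h7 : (0 : ℝ) ≤ v2' := by positivity
    linarith
  have hc1 : ((Ico v1 v2).card : ℝ) ≤ (v2 : ℝ) + 2 := by
    rw [Nat.card_Ico]
    have : ((v2 - v1 : ℕ) : ℝ) ≤ v2 := by exact_mod_cast Nat.sub_le _ _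
    linarith
  have hc2 : ((Ico v1' v2').card : ℝ) ≤ (v2 : ℝ) + 2 := by
    rw [Nat.card_Ico]
    have : ((v2' - v1' : ℕ) : ℝ) ≤ v2' := by exact_mod_cast Nat.sub_le _ _
    linarith
  have hP : ((v2 : ℝ) + 2) ^ 3 ≤ Real.exp ((α - α') * A1 / 4) := by
    have h3 : ((v2 : ℝ) + 2) ^ 3 = Real.exp (3 * Real.log ((v2 : ℝ) + 2)) := by
      have : (3 : ℝ) = ((3 : ℕ) : ℝ) := by norm_num
      rw [this, Real.exp_nat_mul, Real.exp_log (by positivity)]
    rw [h3]
    exact Real.exp_le_exp.mpr (by linarith)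
  have hE0 : 0 ≤ C * Real.exp (-(31 / 24 * ((α - α') * A1))) := by positivity
  calc ((Ico v1 v2).card : ℝ) * _ ≤ ((Ico v1 v2).card : ℝ) * (((Ico v1 v2).card : ℝ) *
        (((Ico v1' v2').card : ℝ) * (C * Real.exp (-(31 / 24 * ((α - α') * A1)))))) :=
        mul_le_mul_of_nonneg_left h2 (by positivity)
    _ ≤ ((v2 : ℝ) + 2) * (((v2 : ℝ) + 2) *
        (((v2 : ℝ) + 2) * (C * Real.exp (-(31 / 24 * ((α - α') * A1)))))) := by
        gcongr
    _ = ((v2 : ℝ) + 2) ^ 3 * (C * Real.exp (-(31 / 24 * ((α - α') * A1)))) := by ring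
    _ ≤ Real.exp ((α - α') * A1 / 4) * (C * Real.exp (-(31 / 24 * ((α - α') * A1)))) :=
        mul_le_mul_of_nonneg_right hP hE0
    _ = C * Real.exp (-(25 / 24 * ((α - α') * A1))) := by
        rw [mul_left_comm, ← Real.exp_add]
        congr 2
        ring
    _ ≤ C * Real.exp (-((α - α') * v1 / H)) := by
        refine mul_le_mul_of_nonneg_left (Real.exp_le_exp.mpr ?_) (by linarith)
        have h3 : (α - α') * v1 / H = (α - α') * A1 := by
          rw [hA1]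
          ring
        rw [h3]
        have : 0 ≤ (α - α') * A1 := mul_nonneg (by linarith) (by linarith)
        linarith

/-- **Row F_MO**, with the polynomial `A`. -/
theorem momC {f : ℕ → ℂ} (hf : CM f) : MomC 72 f := by
  intro l H v Y hl hH hv hY
  obtain ⟨N, c, h1, h2, h3, h4, h5⟩ := Pool.Agent.MRF.MO.moment_auxF hf.le hH hv hl (Ioc ⌊Y⌋₊ ⌊2 * Y⌋₊)
    (fun m => ((1 / (m : ℝ) : ℝ) : ℂ) * f m) (y0 := Y) (y1 := 2 * Y) (by linarith)
    (fun m hm => by
      have h := mem_Ioc.1 hm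
      have h1 := (Nat.floor_lt (by linarith)).1 h.1
      exact ⟨by omega, h1.le, (Nat.le_floor_iff (by linarith)).1 h.2⟩)
    (fun m _ => norm_coef hf.le m)
    (by linarith)
  refine ⟨N, c, h1, by linarith, fun t => ?_, h4, ?_⟩
  · rw [← h3 t]
    rfl
  · refine h5.trans ?_
    have e : 2 * Y / Y = 2 := by field_simp
    have e2 : (72 * (l : ℝ)) ^ l = 2 ^ l * (36 * l) ^ l := by
      rw [← mul_pow]
      congr 1
      ring
    rw [e, e2]
    apply mul_le_mul_of_nonneg_right _ (by positivity)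
    have h6 := pow_le_pow_right₀ (show (1 : ℝ) ≤ 2 by norm_num) hl
    simpa using h6

end Pool.Agent.SVU

namespace Pool.Agent.SV

open Pool.Agent.MRL Pool.Agent.MRF Pool.Agent.MRHal

/-- Row U1S, the first scale. -/
theorem stepOneU : StepOneU := by
  obtain ⟨C, hC, hmv⟩ := meanValue
  exact ⟨6 * C, by positivity, fun f hf => Pool.Agent.SVU.stepOneC (by positivity) hf.le
    (Pool.Agent.SVU.AF_meanC hC hmv hf.le)⟩

/-- Row U1S, the step `j`. -/
theorem stepJU : StepJU := by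
  obtain ⟨C, hC, hmv⟩ := meanValue
  have h1 : (1 : ℝ) ≤ max (max 1 (3 * C)) (Real.exp 1 * 72) :=
    (le_max_left _ _).trans (le_max_left _ _)
  exact ⟨max (max 1 (3 * C)) (Real.exp 1 * 72), h1, fun f hf => Pool.Agent.SVU.stepJC h1
    (Pool.Agent.SVU.mv_momentC hC hmv (by norm_num) (Pool.Agent.SVU.momC hf))⟩

end Pool.Agent.SV
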