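import Pool.Agent.Lib.SV.Defs3
import Pool.Agent.Lib.MRF.NR

/-! Theorem V, row U4: short sums with uniform constants.  Copy of the final proof of
`Lib/MRF/NR.lean` with the constants pulled out.  helper65. -/

set_option autoImplicit false

namespace Pool.Agent.SVU4

open Finset MeasureTheory Pool.Agent.MRF Pool.Agent.MRF.NR
open Pool.Agent.MRL (nt g gw gw_nonneg gw_continuous gw_integrable gw_integral es es_continuous
  es_int energy tp tp_continuous cs_interval)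

/-- the energy of the Gaussian averages -/
theorem energy_leU {f : ℕ → ℂ} {ε h X : ℝ} (hh : 1 ≤ h)
    (H : ∀ Y : ℝ, X / 4 ≤ Y → Y ≤ 2 * X → ∀ T : ℝ, 1 ≤ T → T ≤ Y / h →
      ∫ t : ℝ, ‖AF f Y t‖ ^ 2 * g T t ≤ ε)
    (hX1 : 4 * h ≤ X) (hX : 0 < X) (hε : 0 ≤ ε) :
    ∫ u, ‖es (Ioc ⌊X / 4⌋₊ ⌊4 * X⌋₊) (fun n => Real.log n) (fb f) (4 * h / X) u‖ ^ 2
      ≤ 3 * ε := by
  have hδ : 0 < 4 * h / X := by positivity
  rw [energy hδ]
  set T : ℝ := 1 / (4 * h / X) with hT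
  have hTX : T = X / (4 * h) := by rw [hT]; field_simp
  have hT0 : 0 < T := by rw [hTX]; positivity
  have hT1 : 1 ≤ T := by
    rw [hTX, le_div_iff₀ (by positivity)]
    linarith
  have hk : ∀ Y : ℝ, X / 4 ≤ Y → Y ≤ 2 * X → ∫ t : ℝ, ‖AF f Y t‖ ^ 2 * g T t ≤ ε := by
    intro Y hY hY2
    refine H Y hY hY2 T hT1 ?_
    rw [hTX, show X / (4 * h) = X / 4 / h by field_simp]
    exact div_le_div_of_nonneg_right hY (by linarith)
  have h1 := hk (X / 4) le_rfl (by linarith)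
  have h2 := hk (X / 2) (by linarith) (by linarith)
  have h3 := hk X (by linarith) (by linarith)
  have h4 := hk (2 * X) (by linarith) le_rfl
  have hpt : ∀ t : ℝ, ‖tp (Ioc ⌊X / 4⌋₊ ⌊4 * X⌋₊) (fun n => -Real.log n) (fb f) t‖ ^ 2 *
      Real.exp (-(1 / T ^ 2) * t ^ 2) ≤
      4 * (‖AF f (X / 4) t‖ ^ 2 * g T t + ‖AF f (X / 2) t‖ ^ 2 * g T t +
        ‖AF f X t‖ ^ 2 * g T t + ‖AF f (2 * X) t‖ ^ 2 * g T t) := by
    intro t
    have hg : g T t = Real.exp (-(1 / T ^ 2) * t ^ 2) := by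
      unfold g
      congr 1
      field_simp
    rw [tp_split f hX.le, ← hg]
    have hg0 : 0 ≤ g T t := by unfold g; positivity
    have h5 : ‖AF f (X / 4) t + AF f (X / 2) t + AF f X t + AF f (2 * X) t‖ ≤
        ‖AF f (X / 4) t‖ + ‖AF f (X / 2) t‖ + ‖AF f X t‖ + ‖AF f (2 * X) t‖ := by
      refine (norm_add_le _ _).trans (add_le_add ?_ le_rfl)
      refine (norm_add_le _ _).trans (add_le_add ?_ le_rfl)
      exact norm_add_le _ _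
    have h6 : ‖AF f (X / 4) t + AF f (X / 2) t + AF f X t + AF f (2 * X) t‖ ^ 2 ≤
        4 * (‖AF f (X / 4) t‖ ^ 2 + ‖AF f (X / 2) t‖ ^ 2 + ‖AF f X t‖ ^ 2 +
          ‖AF f (2 * X) t‖ ^ 2) := by
      refine (pow_le_pow_left₀ (norm_nonneg _) h5 2).trans ?_
      nlinarith [sq_nonneg (‖AF f (X / 4) t‖ - ‖AF f (X / 2) t‖),
        sq_nonneg (‖AF f (X / 4) t‖ - ‖AF f X t‖),
        sq_nonneg (‖AF f (X / 4) t‖ - ‖AF f (2 * X) t‖),
        sq_nonneg (‖AF f (X / 2) t‖ - ‖AF f X t‖),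
        sq_nonneg (‖AF f (X / 2) t‖ - ‖AF f (2 * X) t‖),
        sq_nonneg (‖AF f X t‖ - ‖AF f (2 * X) t‖)]
    nlinarith [mul_le_mul_of_nonneg_right h6 hg0]
  have i1 := AF_g_int f (X / 4) hT0
  have i2 := AF_g_int f (X / 2) hT0
  have i3 := AF_g_int f X hT0
  have i4 := AF_g_int f (2 * X) hT0
  have h7 : ∫ t : ℝ, ‖tp (Ioc ⌊X / 4⌋₊ ⌊4 * X⌋₊) (fun n => -Real.log n) (fb f) t‖ ^ 2 *
      Real.exp (-(1 / T ^ 2) * t ^ 2) ≤ 4 * (4 * ε) := by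
    refine (integral_mono_of_nonneg (Filter.Eventually.of_forall fun t => by positivity)
      ((((i1.add i2).add i3).add i4).const_mul 4)
      (Filter.Eventually.of_forall hpt)).trans ?_
    have h8 : ∫ t : ℝ, 4 * (‖AF f (X / 4) t‖ ^ 2 * g T t + ‖AF f (X / 2) t‖ ^ 2 * g T t +
        ‖AF f X t‖ ^ 2 * g T t + ‖AF f (2 * X) t‖ ^ 2 * g T t) =
        4 * ((∫ t, ‖AF f (X / 4) t‖ ^ 2 * g T t) + (∫ t, ‖AF f (X / 2) t‖ ^ 2 * g T t) +
          (∫ t, ‖AF f X t‖ ^ 2 * g T t) + (∫ t, ‖AF f (2 * X) t‖ ^ 2 * g T t)) := by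
      have e1 := integral_add i1 i2
      have e2 := integral_add (i1.add i2) i3
      have e3 := integral_add ((i1.add i2).add i3) i4
      simp only [Pi.add_apply] at e2 e3
      rw [integral_const_mul, e3, e2, e1]
    exact h8.le.trans (by linarith)
  have hpi : 1 / (2 * Real.pi) ≤ 1 / 6 := by
    apply one_div_le_one_div_of_le (by norm_num)
    have := Real.pi_gt_three
    linarith
  have hpi0 : 0 ≤ 1 / (2 * Real.pi) := by positivity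
  calc 1 / (2 * Real.pi) * ∫ t : ℝ,
        ‖tp (Ioc ⌊X / 4⌋₊ ⌊4 * X⌋₊) (fun n => -Real.log n) (fb f) t‖ ^ 2 *
        Real.exp (-(1 / T ^ 2) * t ^ 2) ≤ 1 / (2 * Real.pi) * (4 * (4 * ε)) :=
        mul_le_mul_of_nonneg_left h7 hpi0
    _ ≤ 1 / 6 * (4 * (4 * ε)) := mul_le_mul_of_nonneg_right hpi (by positivity)
    _ ≤ 3 * ε := by linarith

/-- Row U4. -/
theorem u4 : Pool.Agent.SV.U4_stmt := by
  intro H ε hε
  obtain ⟨w, hw, X0, ρ, hρ, hX0⟩ := H (ε ^ 2 / 96) (by positivity)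
  set m : ℕ := ⌈40 * w⌉₊ with hmd
  have hm : 40 * w ≤ m := Nat.le_ceil _
  refine ⟨⌈400 * m / ε⌉₊ + 1, fun h hh => ?_⟩
  have hh1 : 1 ≤ h := by omega
  have hh2 : 400 * m / ε ≤ h := by
    refine (Nat.le_ceil _).trans ?_
    exact_mod_cast (by omega : ⌈400 * m / ε⌉₊ ≤ h)
  have hh3 : 400 * (m : ℝ) ≤ ε * h := by
    rw [div_le_iff₀ hε] at hh2
    linarith
  have hh' : (1 : ℝ) ≤ h := by exact_mod_cast hh1
  refine ⟨max (4 * X0) (max (4 * w) ((h : ℝ) ^ 2 + h + 4)), ρ, hρ, fun f hCM X hX hPt => ?_⟩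
  have hf : ∀ n, ‖f n‖ ≤ 1 := hCM.le
  have hX1 : 4 * X0 ≤ X := (le_max_left _ _).trans hX
  have hX2 : 4 * w ≤ X := ((le_max_left _ _).trans (le_max_right _ _)).trans hX
  have hX3 : (h : ℝ) ^ 2 + h + 4 ≤ X := ((le_max_right _ _).trans (le_max_right _ _)).trans hX
  have hXpos : 0 < X := by nlinarith
  have hen := energy_leU (f := f) (ε := ε ^ 2 / 96) hw (fun Y hY1 hY2 T hT1 hT2 =>
    hX0 f hCM Y (by linarith) (hPt Y (by linarith) (by linarith)) T hT1 hT2) hX2 hXpos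
    (by positivity)
  set s : Finset ℕ := Ioc ⌊X / 4⌋₊ ⌊4 * X⌋₊ with hs
  set B : ℝ → ℂ := es s (fun n => Real.log n) (fb f) (4 * w / X) with hB
  have hδ : 0 < 4 * w / X := by positivity
  have hBc : Continuous B := es_continuous _ _ _ _
  have hBi : Integrable fun u => ‖B u‖ ^ 2 := es_int hδ _ _ _
  set I : ℕ → ℂ := fun x => ∫ u in (Real.log x)..(Real.log ((x : ℝ) + h)), B u with hI
  have hAB : Icc ⌈X⌉₊ ⌊2 * X⌋₊ = Ico ⌈X⌉₊ (⌊2 * X⌋₊ + 1) := by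
    ext n
    rw [Finset.mem_Icc, Finset.mem_Ico]
    omega
  have hA0 : 0 < ⌈X⌉₊ := Nat.ceil_pos.2 hXpos
  set N : ℕ := ⌊2 * X⌋₊ + 1 - ⌈X⌉₊ with hN
  have hNX : (N : ℝ) ≤ 2 * X := by
    have h1 : (⌊2 * X⌋₊ : ℝ) ≤ 2 * X := Nat.floor_le (by positivity)
    have h2 : X ≤ (⌈X⌉₊ : ℝ) := Nat.le_ceil _
    have h3 : (N : ℝ) ≤ ⌊2 * X⌋₊ := by
      exact_mod_cast (by omega : N ≤ ⌊2 * X⌋₊)
    linarith
  have hmemx : ∀ x ∈ Icc ⌈X⌉₊ ⌊2 * X⌋₊, X ≤ (x : ℝ) ∧ (x : ℝ) ≤ 2 * X := by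
    intro x hx
    rw [Finset.mem_Icc] at hx
    exact ⟨Nat.ceil_le.1 hx.1, (Nat.le_floor_iff (by positivity)).1 hx.2⟩
  have hcard : ((Icc ⌈X⌉₊ ⌊2 * X⌋₊).card : ℝ) ≤ 2 * X := by
    rw [Nat.card_Icc]
    exact hNX
  -- the energy of the windows
  have hsq : ∑ x ∈ Icc ⌈X⌉₊ ⌊2 * X⌋₊, ‖I x‖ ^ 2 ≤ h ^ 2 / X * (3 * (ε ^ 2 / 96)) := by
    have h1 : ∀ x ∈ Icc ⌈X⌉₊ ⌊2 * X⌋₊, ‖I x‖ ^ 2 ≤
        h / X * ∫ u in (Real.log x)..(Real.log ((x : ℝ) + h)), ‖B u‖ ^ 2 := by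
      intro x hx
      obtain ⟨hx1, hx2⟩ := hmemx x hx
      have hx0 : (0 : ℝ) < x := by linarith
      have hlog : Real.log x ≤ Real.log ((x : ℝ) + h) := Real.log_le_log hx0 (by linarith)
      have h2 := cs_interval hBc hlog
      have h3 : Real.log ((x : ℝ) + h) - Real.log x ≤ h / X := by
        rw [← Real.log_div (by linarith) hx0.ne']
        have h3 := Real.log_le_sub_one_of_pos (show 0 < ((x : ℝ) + h) / x by positivity)
        have h4 : ((x : ℝ) + h) / x - 1 = h / x := by field_simp; ring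
        have h5 : (h : ℝ) / x ≤ h / X := div_le_div_of_nonneg_left (by linarith) hXpos hx1
        linarith
      refine h2.trans (mul_le_mul_of_nonneg_right h3 ?_)
      exact intervalIntegral.integral_nonneg hlog fun u _ => by positivity
    refine (Finset.sum_le_sum h1).trans ?_
    rw [← Finset.mul_sum, hAB, Finset.sum_Ico_eq_sum_range]
    have h6 := sum_windows (fun u => by positivity) hBi hA0 N h
    have h7 : (h : ℝ) * ∫ u, ‖B u‖ ^ 2 ≤ h * (3 * (ε ^ 2 / 96)) :=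
      mul_le_mul_of_nonneg_left hen (by linarith)
    calc (h : ℝ) / X * ∑ i ∈ range (⌊2 * X⌋₊ + 1 - ⌈X⌉₊),
          ∫ u in (Real.log ((⌈X⌉₊ + i : ℕ) : ℝ))..
            (Real.log (((⌈X⌉₊ + i : ℕ) : ℝ) + h)), ‖B u‖ ^ 2
        ≤ h / X * (h * (3 * (ε ^ 2 / 96))) :=
          mul_le_mul_of_nonneg_left (h6.trans h7) (by positivity)
      _ = h ^ 2 / X * (3 * (ε ^ 2 / 96)) := by ring
  -- the first power
  have hfirst : ∑ x ∈ Icc ⌈X⌉₊ ⌊2 * X⌋₊, 2 * X * ‖I x‖ ≤ ε * h * X / 2 := by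
    set l : ℝ := ε * h / (8 * X) with hl
    have hl0 : 0 < l := by positivity
    have h1 : ∀ x ∈ Icc ⌈X⌉₊ ⌊2 * X⌋₊, 2 * X * ‖I x‖ ≤ X * l + X / l * ‖I x‖ ^ 2 := by
      intro x _
      have h2 : 0 ≤ (l - ‖I x‖) ^ 2 := sq_nonneg _
      have h3 : X * l + X / l * ‖I x‖ ^ 2 - 2 * X * ‖I x‖ = X / l * (l - ‖I x‖) ^ 2 := by
        field_simp
        ring
      have h4 : 0 ≤ X / l * (l - ‖I x‖) ^ 2 := by positivity
      linarith
    refine (Finset.sum_le_sum h1).trans ?_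
    rw [Finset.sum_add_distrib, Finset.sum_const, nsmul_eq_mul, ← Finset.mul_sum]
    have h5 : ((Icc ⌈X⌉₊ ⌊2 * X⌋₊).card : ℝ) * (X * l) ≤ 2 * X * (X * l) :=
      mul_le_mul_of_nonneg_right hcard (by positivity)
    have h6 : X / l * ∑ x ∈ Icc ⌈X⌉₊ ⌊2 * X⌋₊, ‖I x‖ ^ 2 ≤
        X / l * (h ^ 2 / X * (3 * (ε ^ 2 / 96))) := mul_le_mul_of_nonneg_left hsq (by positivity)
    have h7 : 2 * X * (X * l) = ε * h * X / 4 := by
      rw [hl]
      field_simp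
      ring
    have h8 : X / l * (h ^ 2 / X * (3 * (ε ^ 2 / 96))) = ε * h * X / 4 := by
      rw [hl]
      field_simp
      ring
    linarith
  have hall : ∑ x ∈ Icc ⌈X⌉₊ ⌊2 * X⌋₊, ‖∑ j ∈ Icc 1 h, f (x + j)‖ ≤
      ∑ x ∈ Icc ⌈X⌉₊ ⌊2 * X⌋₊, (2 * X * ‖I x‖ + 97 * m) := by
    refine Finset.sum_le_sum fun x hx => ?_
    obtain ⟨hx1, hx2⟩ := hmemx x hx
    exact window_le hf hw hm hX3 hx1 hx2
  refine hall.trans ?_
  rw [Finset.sum_add_distrib, Finset.sum_const, nsmul_eq_mul]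
  have h9 : ((Icc ⌈X⌉₊ ⌊2 * X⌋₊).card : ℝ) * (97 * m) ≤ 2 * X * (97 * m) :=
    mul_le_mul_of_nonneg_right hcard (by positivity)
  nlinarith

end Pool.Agent.SVU4

namespace Pool.Agent.SV

/-- Row U4. -/
theorem u4 : U4_stmt := Pool.Agent.SVU4.u4

end Pool.Agent.SV
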