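import Mathlib
import Pool.Agent.Lib.SV.Defs3
import Pool.Agent.Lib.MRL.Basics
import Pool.Agent.Lib.MRF.FLFc

/-!
# Theorem V, row U5: twisted short sums of `λ χ`.
-/

set_option autoImplicit false

namespace Pool.Agent.SV

open Finset Pool.Agent.MRL Pool.Agent.MRF Pool.Agent.MRHal

theorem U5_cm {q : ℕ} (χ : DirichletCharacter ℂ q) (T : ℝ) :
    CM (fun n => lamChi χ n * nt n T) := by
  have h := Pool.Agent.MRF.FLFa.cm_lamChi χ
  have h0 : lamChi χ 0 = 0 := by unfold lamChi; rw [if_pos rfl]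
  refine ⟨?_, ?_, ?_⟩
  · rw [h.one, one_mul]
    unfold nt
    simp
  · intro m n
    rcases Nat.eq_zero_or_pos m with rfl | hm
    · rw [zero_mul, h0]
      ring
    rcases Nat.eq_zero_or_pos n with rfl | hn
    · rw [mul_zero, h0]
      ring
    rw [h.mul, Pool.Agent.MRL.Bas.nt_mul hm.ne' hn.ne']
    ring
  · intro n
    rw [norm_mul, Pool.Agent.MRL.Bas.norm_nt, mul_one]
    exact h.le n

theorem U5_AF (f : ℕ → ℂ) (Y t T : ℝ) : AF (fun n => f n * nt n T) Y t = AF f Y (t + T) := by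
  unfold AF
  refine sum_congr rfl fun m _ => ?_
  rw [Pool.Agent.MRL.Bas.nt_add]
  ring

theorem u5 : U5_stmt := by
  intro h3 h4 hM q _ χ D ε hε
  obtain ⟨h0, H⟩ := h4 hM ε hε
  refine ⟨h0, fun h hh => ?_⟩
  obtain ⟨X0, ρ, hρ, H2⟩ := H h hh
  obtain ⟨Y0, hY0⟩ := h3 q χ (2 * D + 3) ρ hρ
  set M : ℝ := max Y0 (130 + 512 ^ D) with hMd
  have hMY : Y0 ≤ M := le_max_left _ _
  have hM1 : (130 : ℝ) + 512 ^ D ≤ M := le_max_right _ _
  have h512 : (0 : ℝ) < 512 ^ D := by positivity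
  have hM0 : 0 < M := by linarith
  refine ⟨max X0 (512 * M ^ 2), fun X hX T hT => ?_⟩
  have hX0 : X0 ≤ X := (le_max_left _ _).trans hX
  have hXM : 512 * M ^ 2 ≤ X := (le_max_right _ _).trans hX
  have hXpos : 0 < X := lt_of_lt_of_le (by positivity) hXM
  refine H2 (fun n => lamChi χ n * nt n T) (U5_cm χ T) X hX0 ?_
  intro X' h1 h2 Y t hY1 hY2 ht
  rw [U5_AF]
  have hX'0 : 0 < X' := by linarith
  have hs : √X' ≤ 8 * Y := by linarith
  have hYM : M ≤ Y := by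
    have h5 : 8 * M ≤ √X' := by
      apply Real.le_sqrt_of_sq_le
      nlinarith
    linarith
  have hY1' : 1 ≤ Y := by linarith
  have hX'Y : X' ≤ 64 * Y ^ 2 := by
    have h5 : X' = √X' * √X' := (Real.mul_self_sqrt hX'0.le).symm
    have h6 : 0 ≤ √X' := Real.sqrt_nonneg _
    nlinarith
  have hXY : X ≤ 512 * Y ^ 2 := by linarith
  refine hY0 Y (hMY.trans hYM) (t + T) ?_
  have h5 : X ^ D ≤ 512 ^ D * Y ^ (2 * D) := by
    calc X ^ D ≤ (512 * Y ^ 2) ^ D := pow_le_pow_left₀ hXpos.le hXY D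
      _ = _ := by rw [mul_pow, ← pow_mul]
  have h6 : 1 ≤ Y ^ (2 * D) := one_le_pow₀ hY1'
  have h7 : 1 ≤ Y ^ 2 := one_le_pow₀ hY1'
  have h8 : |t + T| ≤ (130 + 512 ^ D) * (Y ^ 2 * Y ^ (2 * D)) := by
    have h9 := abs_add_le t T
    have h10 : Y ^ 2 ≤ Y ^ 2 * Y ^ (2 * D) := le_mul_of_one_le_right (by positivity) h6
    have h11 : Y ^ (2 * D) ≤ Y ^ 2 * Y ^ (2 * D) := le_mul_of_one_le_left (by positivity) h7
    have h12 : (512 : ℝ) ^ D * Y ^ (2 * D) ≤ 512 ^ D * (Y ^ 2 * Y ^ (2 * D)) :=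
      mul_le_mul_of_nonneg_left h11 h512.le
    calc |t + T| ≤ (2 * X' + 2) + X ^ D := h9.trans (add_le_add ht hT)
      _ ≤ 130 * (Y ^ 2 * Y ^ (2 * D)) + 512 ^ D * (Y ^ 2 * Y ^ (2 * D)) := by linarith
      _ = _ := by ring
  refine h8.trans ?_
  calc (130 + 512 ^ D) * (Y ^ 2 * Y ^ (2 * D)) ≤ Y * (Y ^ 2 * Y ^ (2 * D)) :=
        mul_le_mul_of_nonneg_right (hM1.trans hYM) (by positivity)
    _ = Y ^ (2 * D + 3) := by ring

end Pool.Agent.SV
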