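import Mathlib
import Pool.Agent.Lib.SV.Fin
import Pool.Agent.Lib.SV.Core
import Pool.Agent.Lib.SV.E1
import Pool.Agent.Lib.SV.F1
import Pool.Agent.Lib.SV.F2
import Pool.Agent.Lib.SV.F3
import Pool.Agent.Lib.SV.J1
import Pool.Agent.Lib.SV.J2
import Pool.Agent.Lib.SV.K1
import Pool.Agent.Lib.SV.K2
import Pool.Agent.Lib.SV.K3
import Pool.Agent.Lib.SV.NT
import Pool.Agent.Lib.SV.P0
import Pool.Agent.Lib.SV.P12
import Pool.Agent.Lib.SV.P3
import Pool.Agent.Lib.SV.PHI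
import Pool.Agent.Lib.SV.RA
import Pool.Agent.Lib.SV.RB
import Pool.Agent.Lib.SV.RB2
import Pool.Agent.Lib.SV.RC
import Pool.Agent.Lib.SV.RD
import Pool.Agent.Lib.SV.RH
import Pool.Agent.Lib.SV.RW
import Pool.Agent.Lib.SV.SV1
import Pool.Agent.Lib.SV.SV2
import Pool.Agent.Lib.SV.U1A
import Pool.Agent.Lib.SV.U1C
import Pool.Agent.Lib.SV.U1D
import Pool.Agent.Lib.SV.U1L
import Pool.Agent.Lib.SV.U1P
import Pool.Agent.Lib.SV.U1S
import Pool.Agent.Lib.SV.U2
import Pool.Agent.Lib.SV.U3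
import Pool.Agent.Lib.SV.U4
import Pool.Agent.Lib.SV.U5
import Pool.Agent.Lib.SV.U6

/-!
# Theorem V (MP_663568_nt).  (helper19)
-/

set_option autoImplicit false

namespace Pool.Agent.SV

open Pool.Agent.Lib.MP_663568_nt Pool.Agent.MRL

/-- The combinatorial core, without hypotheses. -/
theorem core_thm : CORE_stmt :=
  core j1 j2 p0 p2 p3 k1 k3 (e1 p3 p2 k2) (nt sv2 phi4) f1 (f2 k2) (f3 sv1)

/-- The theorem of Matomäki and Radziwiłł with uniform constants. -/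
theorem mrdU : MRDU :=
  u2 (chainU decompU stepOneU stepJU) (uPartU decompU sparseU) tailU largeCountU

/-- Short sums of `μ(n) n^{-iT}` in progressions, `|T| ≤ X ^ D`. -/
theorem muT : MuT_stmt := u6 (u5 u3 u4 mrdU)

/-- **Theorem V**, without hypotheses. -/
theorem v_thm : V_stmt := fin_v rh rw1 ra rb rb2 rc core_thm muT rd

end Pool.Agent.SV
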