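import Mathlib
import Pool.Agent.Lib.SV.TFDefs
import Pool.Agent.Lib.SV.RB

/-!
# Theorem TF (MP_663568_nt), row T1: Turán–Kubilius for windows, complex form (helper20)
-/

set_option autoImplicit false
open Finset MeasureTheory

namespace Pool.Agent.SV

open Pool.Agent.Lib.MP_663568_nt Pool.Agent.Lib.MP_663568_nt.Katai
  Pool.Agent.Lib.MP_663568_nt.Nul Pool.Agent.MRL Pool.Agent.MRF

noncomputable section

namespace T1

/-- Shifting a sum by windows of length `L`. -/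
theorem smoothC (x : ℕ → ℂ) (hx : ∀ n, ‖x n‖ ≤ 1) (a b L : ℕ) (hab : a ≤ b) (hL : 0 < L) :
    ‖∑ m ∈ Ioc a b, x m - ∑ j ∈ Ico a b, (∑ m ∈ Ioc j (j + L), x m) / L‖ ≤ 2 * L := by
  have key : ∀ A B : ℕ, A ≤ B → ‖∑ m ∈ Ico A B, x m‖ ≤ ((B - A : ℕ) : ℝ) := by
    intro A B _
    calc ‖∑ m ∈ Ico A B, x m‖ ≤ ∑ m ∈ Ico A B, ‖x m‖ := norm_sum_le _ _
      _ ≤ ∑ m ∈ Ico A B, (1 : ℝ) := sum_le_sum (fun m _ => hx m)
      _ = ((B - A : ℕ) : ℝ) := by simp
  have h1 : ∀ l ∈ Icc 1 L, ‖∑ m ∈ Ioc a b, x m - ∑ j ∈ Ico a b, x (j + l)‖ ≤ 2 * L := by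
    intro l hl
    rw [mem_Icc] at hl
    have e1 : ∑ m ∈ Ioc a b, x m = ∑ m ∈ Ico (a + 1) (b + 1), x m := by
      apply sum_congr _ (fun _ _ => rfl)
      ext m; simp only [mem_Ioc, mem_Ico]; omega
    have e2 : ∑ j ∈ Ico a b, x (j + l) = ∑ m ∈ Ico (a + l) (b + l), x m := by
      rw [sum_Ico_add' x a b l]
    have e3 : ∑ m ∈ Ico (a + 1) (b + 1), x m + ∑ m ∈ Ico (b + 1) (b + l), x m
        = ∑ m ∈ Ico (a + 1) (a + l), x m + ∑ m ∈ Ico (a + l) (b + l), x m := by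
      rw [sum_Ico_consecutive _ (by omega) (by omega), sum_Ico_consecutive _ (by omega) (by omega)]
    have e4 : ∑ m ∈ Ioc a b, x m - ∑ j ∈ Ico a b, x (j + l)
        = ∑ m ∈ Ico (a + 1) (a + l), x m - ∑ m ∈ Ico (b + 1) (b + l), x m := by
      rw [e1, e2]
      linear_combination e3
    rw [e4]
    have k1 := key (a + 1) (a + l) (by omega)
    have k2 := key (b + 1) (b + l) (by omega)
    have c1 : ((a + l - (a + 1) : ℕ) : ℝ) ≤ L := by norm_cast; omega
    have c2 : ((b + l - (b + 1) : ℕ) : ℝ) ≤ L := by norm_cast; omega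
    calc _ ≤ ‖∑ m ∈ Ico (a + 1) (a + l), x m‖ + ‖∑ m ∈ Ico (b + 1) (b + l), x m‖ := norm_sub_le _ _
      _ ≤ 2 * L := by linarith
  have hLr : (0 : ℝ) < L := by exact_mod_cast hL
  have hLc : (L : ℂ) ≠ 0 := by exact_mod_cast hLr.ne'
  have e0 : ∑ m ∈ Ioc a b, x m - ∑ j ∈ Ico a b, (∑ m ∈ Ioc j (j + L), x m) / L
      = (∑ l ∈ Icc 1 L, (∑ m ∈ Ioc a b, x m - ∑ j ∈ Ico a b, x (j + l))) / L := by
    rw [eq_div_iff hLc, sub_mul, sum_sub_distrib, ← sum_div, div_mul_cancel₀ _ hLc, sum_const,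
      Nat.card_Icc, Nat.add_sub_cancel, nsmul_eq_mul, mul_comm]
    congr 1
    rw [sum_comm]
    refine sum_congr rfl fun j _ => ?_
    rw [icc_ioc x j L]
  rw [e0, norm_div, Complex.norm_natCast, div_le_iff₀ hLr]
  refine (norm_sum_le _ _).trans ((sum_le_sum h1).trans (le_of_eq ?_))
  rw [sum_const, Nat.card_Icc, Nat.add_sub_cancel, nsmul_eq_mul]
  ring

/-- A step function of `⌊t / p⌋`: the integral and the sum. -/
theorem integralC (p : ℕ) (hp : 0 < p) (n X : ℕ) (f : ℕ → ℂ) (hf : ∀ j, ‖f j‖ ≤ 1) :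
    ‖∑ j ∈ Ico (n / p) ((n + X) / p), f j - 1 / p * (∫ t in (n : ℝ)..(n + X), f ⌊t / p⌋₊)‖ ≤ 2 := by
  have hp0 : (0 : ℝ) < p := by exact_mod_cast hp
  have hpc : (p : ℂ) ≠ 0 := by exact_mod_cast hp0.ne'
  set g : ℝ → ℂ := fun t => f ⌊t / p⌋₊ with hg
  have hgm : Measurable g :=
    (measurable_from_nat (f := f)).comp (Nat.measurable_floor.comp (measurable_id.div_const _))
  have hgi : ∀ a b : ℝ, IntervalIntegrable g volume a b := by
    intro a b
    rw [intervalIntegrable_iff]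
    refine MeasureTheory.Measure.integrableOn_of_bounded (M := 1) ?_ hgm.aestronglyMeasurable ?_
    · simp [Set.uIoc]
    · exact Filter.Eventually.of_forall fun t => hf _
  set J1 := n / p with hJ1
  set J2 := (n + X) / p with hJ2
  have hJ12 : J1 ≤ J2 := Nat.div_le_div_right (by omega)
  have h2 : ∀ j : ℕ, ∫ t in ((p : ℝ) * j)..((p : ℝ) * (j + 1 : ℕ)), g t = p * f j := by
    intro j
    have hle : (p : ℝ) * j ≤ p * (j + 1 : ℕ) := by push_cast; nlinarith
    rw [intervalIntegral.integral_of_le hle, MeasureTheory.integral_Ioc_eq_integral_Ioo]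
    have h3 : ∀ t ∈ Set.Ioo ((p : ℝ) * j) ((p : ℝ) * (j + 1 : ℕ)), g t = f j := by
      intro t ht
      rw [hg]
      simp only
      congr 1
      rw [Nat.floor_eq_iff (by
        apply div_nonneg _ hp0.le
        have : 0 ≤ (p : ℝ) * j := by positivity
        linarith [ht.1])]
      constructor
      · rw [le_div_iff₀ hp0]; linarith [ht.1]
      · rw [div_lt_iff₀ hp0]
        have := ht.2
        push_cast at this
        linarith
    rw [MeasureTheory.setIntegral_congr_fun measurableSet_Ioo h3,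
      MeasureTheory.setIntegral_const]
    simp only [MeasureTheory.measureReal_def, Real.volume_Ioo]
    rw [ENNReal.toReal_ofReal (by linarith)]
    have : (p : ℝ) * (j + 1 : ℕ) - p * j = p := by push_cast; ring
    rw [this, Complex.real_smul, Complex.ofReal_natCast]
  have h3 := intervalIntegral.sum_integral_adjacent_intervals_Ico (f := g) (μ := volume)
    (a := fun j : ℕ => (p : ℝ) * j) hJ12 (fun k _ => hgi _ _)
  rw [Finset.sum_congr rfl fun j _ => h2 j, ← Finset.mul_sum] at h3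
  have hb1 : p * J1 ≤ n := Nat.mul_div_le _ _
  have hb2 : n < p * (J1 + 1) := by
    have := Nat.lt_mul_div_succ n hp
    rwa [← hJ1] at this
  have hb3 : p * J2 ≤ n + X := Nat.mul_div_le _ _
  have hb4 : n + X < p * (J2 + 1) := by
    have := Nat.lt_mul_div_succ (n + X) hp
    rwa [← hJ2] at this
  have hc1 : (p : ℝ) * J1 ≤ n := by exact_mod_cast hb1
  have hc2 : (n : ℝ) ≤ p * J1 + p := by
    have : (n : ℝ) < p * (J1 + 1) := by exact_mod_cast hb2
    linarith
  have hc3 : (p : ℝ) * J2 ≤ n + X := by exact_mod_cast hb3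
  have hc4 : (n : ℝ) + X ≤ p * J2 + p := by
    have : (n : ℝ) + X < p * (J2 + 1) := by exact_mod_cast hb4
    linarith
  have h4 : ∫ t in (n : ℝ)..(n + X), g t = (∫ t in (n : ℝ)..((p : ℝ) * J1), g t)
      + (∫ t in ((p : ℝ) * J1)..((p : ℝ) * J2), g t) + ∫ t in ((p : ℝ) * J2)..(n + X), g t := by
    rw [intervalIntegral.integral_add_adjacent_intervals (hgi _ _) (hgi _ _),
      intervalIntegral.integral_add_adjacent_intervals (hgi _ _) (hgi _ _)]
  have h5 : ‖∫ t in (n : ℝ)..((p : ℝ) * J1), g t‖ ≤ 1 * |(p : ℝ) * J1 - n| :=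
    intervalIntegral.norm_integral_le_of_norm_le_const fun t _ => hf _
  have h6 : ‖∫ t in ((p : ℝ) * J2)..((n : ℝ) + X), g t‖ ≤ 1 * |(n : ℝ) + X - p * J2| :=
    intervalIntegral.norm_integral_le_of_norm_le_const fun t _ => hf _
  rw [one_mul] at h5 h6
  have h5' : |(p : ℝ) * J1 - n| ≤ p := abs_le.mpr ⟨by linarith, by linarith⟩
  have h6' : |(n : ℝ) + X - p * J2| ≤ p := abs_le.mpr ⟨by linarith, by linarith⟩
  have e1 : ∑ j ∈ Ico J1 J2, f j - 1 / p * (∫ t in (n : ℝ)..(n + X), g t)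
      = -(1 / p * ((∫ t in (n : ℝ)..((p : ℝ) * J1), g t) + ∫ t in ((p : ℝ) * J2)..(n + X), g t)) := by
    rw [h4, ← h3]
    field_simp
    ring
  rw [e1, norm_neg, norm_mul]
  have h7 : ‖(1 / (p : ℂ))‖ = 1 / p := by
    rw [norm_div, norm_one, Complex.norm_natCast]
  rw [h7]
  have h8 : ‖(∫ t in (n : ℝ)..((p : ℝ) * J1), g t) + ∫ t in ((p : ℝ) * J2)..(n + X), g t‖ ≤ 2 * p := by
    refine (norm_add_le _ _).trans ?_
    linarith
  calc 1 / (p : ℝ) * _ ≤ 1 / p * (2 * p) := mul_le_mul_of_nonneg_left h8 (by positivity)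
    _ = 2 := by field_simp

theorem norm_zz_le (l y : ℕ) (b : ℝ) : ‖zz l y b‖ ≤ 1 := by
  unfold zz
  rw [norm_div, Complex.norm_natCast]
  apply div_le_one_of_le₀ _ (Nat.cast_nonneg _)
  refine (norm_sum_le _ _).trans ?_
  calc ∑ m ∈ Ioc y (y + l), ‖muC m * ee (b * m)‖ ≤ ∑ m ∈ Ioc y (y + l), (1 : ℝ) := by
        refine sum_le_sum fun m _ => ?_
        rw [norm_mul, norm_ee, mul_one]
        exact norm_muC _
    _ = l := by simp

/-- One prime. -/
theorem one_primeC (p : ℕ) (hp : p.Prime) (n X l : ℕ) (hl : 0 < l) (a : ℝ) :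
    ‖∑ m ∈ Ioc (n / p) ((n + X) / p), ee (a * (p * m : ℕ)) * muC m
      - 1 / p * (∫ t in (n : ℝ)..(n + X), zz l ⌊t / p⌋₊ (p * a))‖ ≤ 2 * l + 2 := by
  have h1 := smoothC (fun m => ee (a * (p * m : ℕ)) * muC m) (fun m => by
    rw [norm_mul, norm_ee, one_mul]; exact norm_muC m) (n / p) ((n + X) / p) l
    (Nat.div_le_div_right (by omega)) hl
  have h2 : ∀ j : ℕ, (∑ m ∈ Ioc j (j + l), ee (a * (p * m : ℕ)) * muC m) / l = zz l j (p * a) := by
    intro j
    unfold zz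
    congr 1
    refine sum_congr rfl fun m _ => ?_
    rw [mul_comm]
    congr 2
    push_cast
    ring
  simp only [h2] at h1
  have h3 := integralC p hp.pos n X (fun j => zz l j (p * a)) (fun j => norm_zz_le _ _ _)
  calc _ = ‖(∑ m ∈ Ioc (n / p) ((n + X) / p), ee (a * (p * m : ℕ)) * muC m
        - ∑ j ∈ Ico (n / p) ((n + X) / p), zz l j (p * a))
        + (∑ j ∈ Ico (n / p) ((n + X) / p), zz l j (p * a)
        - 1 / p * (∫ t in (n : ℝ)..(n + X), zz l ⌊t / p⌋₊ (p * a)))‖ := by congr 1; ring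
    _ ≤ _ := (norm_add_le _ _).trans (by linarith)

/-- The pointwise identity. -/
theorem pointwiseC (P : Finset ℕ) (hP : ∀ p ∈ P, p.Prime) (F : ℕ → ℂ) (hF : ∀ n, ‖F n‖ ≤ 1)
    (H n : ℕ) :
    ‖(WW P : ℂ) * ∑ m ∈ Ioc n (n + H), F m * muC m
        + ∑ p ∈ P, ∑ m ∈ Ioc (n / p) ((n + H) / p), F (p * m) * muC m‖
      ≤ ∑ m ∈ Ioc n (n + H), |Katai.om P m - WW P|
        + ∑ p ∈ P, ∑ m ∈ Ioc (n / p) ((n + H) / p), if p ∣ m then (2 : ℝ) else 0 := by
  have h1 : (WW P : ℂ) * ∑ m ∈ Ioc n (n + H), F m * muC m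
      = ∑ m ∈ Ioc n (n + H), ((WW P : ℂ) - Katai.om P m) * (F m * muC m)
        + ∑ p ∈ P, ∑ m ∈ Ioc (n / p) ((n + H) / p), F (p * m) * muC (p * m) := by
    have e : ∀ p ∈ P, ∑ m ∈ Ioc (n / p) ((n + H) / p), F (p * m) * muC (p * m)
        = ∑ m ∈ Ioc n (n + H), (if p ∣ m then F m * muC m else 0) := by
      intro p hp
      rw [dilate (fun m => F m * muC m) p (hP p hp).pos]
    rw [sum_congr rfl e, sum_comm (s := P), ← sum_add_distrib, mul_sum]
    apply sum_congr rfl; intro m _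
    have : ∑ p ∈ P, (if p ∣ m then F m * muC m else 0) = (Katai.om P m : ℂ) * (F m * muC m) := by
      rw [Katai.om]; push_cast
      rw [sum_mul]; apply sum_congr rfl; intro p _
      split_ifs <;> simp
    rw [this]; ring
  have h2 : ‖∑ m ∈ Ioc n (n + H), ((WW P : ℂ) - Katai.om P m) * (F m * muC m)‖
      ≤ ∑ m ∈ Ioc n (n + H), |Katai.om P m - WW P| := by
    refine (norm_sum_le _ _).trans (sum_le_sum ?_)
    intro m _
    rw [norm_mul, norm_mul]
    have e1 : ‖(WW P : ℂ) - Katai.om P m‖ = |Katai.om P m - WW P| := by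
      rw [← Complex.ofReal_sub, Complex.norm_real, Real.norm_eq_abs, abs_sub_comm]
    rw [e1]
    exact mul_le_of_le_one_right (abs_nonneg _)
      (mul_le_one₀ (hF _) (norm_nonneg _) (norm_muC _))
  have h3 : ‖∑ p ∈ P, ∑ m ∈ Ioc (n / p) ((n + H) / p), F (p * m) * (muC (p * m) + muC m)‖
      ≤ ∑ p ∈ P, ∑ m ∈ Ioc (n / p) ((n + H) / p), (if p ∣ m then (2 : ℝ) else 0) := by
    refine (norm_sum_le _ _).trans (sum_le_sum fun p hp => ?_)
    refine (norm_sum_le _ _).trans (sum_le_sum fun m _ => ?_)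
    rw [norm_mul]
    refine (mul_le_of_le_one_left (norm_nonneg _) (hF _)).trans ?_
    by_cases hpm : p ∣ m
    · rw [if_pos hpm]
      calc ‖muC (p * m) + muC m‖ ≤ ‖muC (p * m)‖ + ‖muC m‖ := norm_add_le _ _
        _ ≤ 1 + 1 := add_le_add (norm_muC _) (norm_muC _)
        _ = 2 := by norm_num
    · have hmp : muC p = -1 := by
        unfold muC
        rw [ArithmeticFunction.moebius_apply_prime (hP p hp)]
        norm_num
      rw [if_neg hpm, muC_mul p (hP p hp) m hpm, hmp]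
      simp
  have e2 : (WW P : ℂ) * ∑ m ∈ Ioc n (n + H), F m * muC m
        + ∑ p ∈ P, ∑ m ∈ Ioc (n / p) ((n + H) / p), F (p * m) * muC m
      = ∑ m ∈ Ioc n (n + H), ((WW P : ℂ) - Katai.om P m) * (F m * muC m)
        + ∑ p ∈ P, ∑ m ∈ Ioc (n / p) ((n + H) / p), F (p * m) * (muC (p * m) + muC m) := by
    rw [h1, add_assoc, ← sum_add_distrib]
    congr 1
    refine sum_congr rfl fun p _ => ?_
    rw [← sum_add_distrib]
    refine sum_congr rfl fun m _ => ?_
    ring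
  rw [e2]
  exact (norm_add_le _ _).trans (add_le_add h2 h3)

end T1

theorem t1 : T1_stmt := by
  classical
  intro ε hε
  obtain ⟨K, hK⟩ : ∃ K : ℝ, K = max 3 (max (32 / ε ^ 2) (24 / ε)) := ⟨_, rfl⟩
  have hK3 : 3 ≤ K := by rw [hK]; exact le_max_left _ _
  have hK32 : 32 / ε ^ 2 ≤ K := by rw [hK]; exact (le_max_left _ _).trans (le_max_right _ _)
  have hK24 : 24 / ε ≤ K := by rw [hK]; exact (le_max_right _ _).trans (le_max_right _ _)
  obtain ⟨η, hη⟩ : ∃ η : ℝ, η = min 1 (ε / 8) := ⟨_, rfl⟩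
  have hη0 : 0 < η := by rw [hη]; positivity
  have hη1 : η ≤ 1 := by rw [hη]; exact min_le_left _ _
  have hηε : η ≤ ε / 8 := by rw [hη]; exact min_le_right _ _
  refine ⟨K, η, by linarith, hη0, hη1, fun P Z hP hL X l hX hl hlZ n a => ?_⟩
  have hprime : ∀ p ∈ P, p.Prime := fun p hp => (hP p hp).1
  have hge : ∀ p ∈ P, K ≤ (p : ℝ) := fun p hp => (hP p hp).2.1
  have hleZ : ∀ p ∈ P, (p : ℝ) ≤ Z := fun p hp => (hP p hp).2.2
  set L := Ls P with hLd
  have hLp : 0 < L := by linarith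
  have hK0 : 0 < K := by linarith
  have hne : P.Nonempty := by
    rw [nonempty_iff_ne_empty]
    rintro rfl
    rw [hLd, Ls, sum_empty] at hLp
    exact lt_irrefl _ hLp
  obtain ⟨p₀, hp₀⟩ := hne
  have hZK : K ≤ Z := (hge p₀ hp₀).trans (hleZ p₀ hp₀)
  have hZ1 : 1 ≤ Z := by linarith
  have hZ0 : 0 ≤ Z := by linarith
  have hcard : (P.card : ℝ) ≤ Z := by
    have h1 : P ⊆ Icc 1 ⌊Z⌋₊ := by
      intro p hp
      rw [mem_Icc]
      exact ⟨(hprime p hp).one_lt.le, Nat.le_floor (hleZ p hp)⟩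
    have h2 : P.card ≤ ⌊Z⌋₊ := by
      have := card_le_card h1
      rwa [Nat.card_Icc, Nat.add_sub_cancel] at this
    exact (Nat.cast_le.2 h2).trans (Nat.floor_le hZ0)
  have hc0 : (0 : ℝ) ≤ P.card := Nat.cast_nonneg _
  have hZZ : Z ≤ Z ^ 2 := by nlinarith
  have hX0 : (0 : ℝ) < X := by
    have : 0 < K * Z ^ 2 := by positivity
    linarith
  have hcond : (1 + 2 * (P.card : ℝ)) * Z ≤ X := by
    calc (1 + 2 * (P.card : ℝ)) * Z ≤ (Z + 2 * Z) * Z :=
          mul_le_mul_of_nonneg_right (by linarith) hZ0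
      _ = 3 * Z ^ 2 := by ring
      _ ≤ K * Z ^ 2 := mul_le_mul_of_nonneg_right hK3 (by positivity)
      _ ≤ X := hX
  have hl0 : 0 < l := hl
  -- the pointwise inequality
  have hpt := T1.pointwiseC P hprime (fun m => ee (a * (m : ℕ))) (fun m => by rw [norm_ee]) X n
  have htk := RB.tk P hprime n X Z hleZ hcond
  have hWL : WW P = L := rfl
  rw [hWL] at hpt htk
  set S := ∑ m ∈ Ioc n (n + X), ee (a * (m : ℕ)) * muC m with hSd
  set T : ℕ → ℂ := fun p => ∑ m ∈ Ioc (n / p) ((n + X) / p), ee (a * (p * m : ℕ)) * muC m with hT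
  set I : ℕ → ℂ := fun p => ∫ t in (n : ℝ)..(n + X), zz l ⌊t / p⌋₊ (p * a) with hI
  have h1 : ‖(L : ℂ) * S + ∑ p ∈ P, T p‖ ≤ X * Real.sqrt (2 * L) + (2 * (X / K) * L + 2 * Z) := by
    refine hpt.trans (add_le_add htk ?_)
    have : ∀ p ∈ P, (∑ m ∈ Ioc (n / p) ((n + X) / p), if p ∣ m then (2 : ℝ) else 0) ≤
        2 * (X / K) * (1 / p) + 2 := by
      intro p hp
      have h2 := RB.mult_bound p (hprime p hp) n X
      have hp0 : (0 : ℝ) < p := by exact_mod_cast (hprime p hp).pos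
      have h3 : (X : ℝ) / (p * p) ≤ X / K * (1 / p) := by
        rw [div_mul_div_comm, mul_one]
        apply div_le_div_of_nonneg_left hX0.le (by positivity)
        exact mul_le_mul_of_nonneg_right (hge p hp) hp0.le
      linarith
    refine (sum_le_sum this).trans ?_
    rw [sum_add_distrib, sum_const, nsmul_eq_mul, ← mul_sum]
    have : ∑ p ∈ P, 1 / (p : ℝ) = L := rfl
    rw [this]
    linarith
  have h2 : ‖∑ p ∈ P, (T p - 1 / p * I p)‖ ≤ Z * (2 * l + 2) := by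
    refine (norm_sum_le _ _).trans ?_
    refine (sum_le_sum fun p hp => T1.one_primeC p (hprime p hp) n X l hl0 a).trans ?_
    rw [sum_const, nsmul_eq_mul]
    exact mul_le_mul_of_nonneg_right hcard (by positivity)
  have h3 : ‖(L : ℂ) * S + ∑ p ∈ P, 1 / p * I p‖ ≤ ε * (L * X) := by
    have e1 : (L : ℂ) * S + ∑ p ∈ P, 1 / p * I p
        = ((L : ℂ) * S + ∑ p ∈ P, T p) - ∑ p ∈ P, (T p - 1 / p * I p) := by
      rw [sum_sub_distrib]; ring
    rw [e1]
    refine (norm_sub_le _ _).trans ((add_le_add h1 h2).trans ?_)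
    have f1 : Real.sqrt (2 * L) ≤ ε / 4 * L := by
      rw [Real.sqrt_le_left (by positivity)]
      have : 32 ≤ L * ε ^ 2 := by
        have := hK32.trans hL
        rwa [div_le_iff₀ (by positivity)] at this
      nlinarith
    have f2 : 6 * (X / K) ≤ ε / 4 * X := by
      have : 24 ≤ K * ε := by rwa [div_le_iff₀ hε] at hK24
      rw [← mul_div_assoc, div_le_iff₀ hK0]
      nlinarith
    have f3 : Z ≤ X / K := by
      rw [le_div_iff₀ hK0]
      nlinarith
    have f4 : Z * l ≤ ε / 8 * X := by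
      have : η * X ≤ ε / 8 * X := mul_le_mul_of_nonneg_right hηε hX0.le
      linarith [mul_comm (l : ℝ) Z]
    have hL1 : 1 ≤ L := by linarith
    have g1 : X * Real.sqrt (2 * L) ≤ X * (ε / 4 * L) := mul_le_mul_of_nonneg_left f1 hX0.le
    have hXL : (X : ℝ) ≤ L * X := by nlinarith
    have hXK : (0 : ℝ) ≤ X / K := by positivity
    have g2 : X / K ≤ X / K * L := by nlinarith
    have g3 : 6 * (X / K) * L ≤ ε / 4 * X * L := mul_le_mul_of_nonneg_right f2 hLp.le
    have g4 : ε / 4 * X ≤ ε / 4 * (L * X) := mul_le_mul_of_nonneg_left hXL (by positivity)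
    have g5 : Z * (2 * l + 2) ≤ ε / 4 * X + 2 * (X / K) := by
      have : Z * (2 * l + 2) = 2 * (Z * l) + 2 * Z := by ring
      rw [this]
      linarith
    have hLX : 0 ≤ L * X := by positivity
    nlinarith
  have hLc : (L : ℂ) ≠ 0 := by exact_mod_cast hLp.ne'
  have hXc : (X : ℂ) ≠ 0 := by exact_mod_cast hX0.ne'
  have e2 : zz X n a + ∑ p ∈ P, (wt P p : ℂ) * (((1 / X : ℝ) : ℂ) * I p)
      = ((L : ℂ) * S + ∑ p ∈ P, 1 / p * I p) / (L * X) := by
    have e3 : zz X n a = S / X := by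
      unfold zz
      rw [hSd]
      congr 1
      exact sum_congr rfl fun m _ => mul_comm _ _
    rw [e3, add_div, sum_div (s := P)]
    congr 1
    · rw [mul_div_mul_left _ _ hLc]
    · refine sum_congr rfl fun p hp => ?_
      have hp0 : (p : ℂ) ≠ 0 := by exact_mod_cast (hprime p hp).ne_zero
      rw [wt, ← hLd]
      push_cast
      field_simp
  have e4 : ‖((L : ℂ) * X)‖ = L * X := by
    rw [norm_mul, Complex.norm_real, Complex.norm_natCast, Real.norm_of_nonneg hLp.le]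
  rw [e2, norm_div, e4, div_le_iff₀ (by positivity)]
  exact h3

end

end Pool.Agent.SV
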