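import Mathlib
import Pool.Agent.Lib.SV.IFinA
import Pool.Agent.Lib.SV.RB

/-!
# Theorem TF (MP_663568_nt): part (i), assembly.  (helper19)
-/

set_option autoImplicit false
open Finset MeasureTheory Filter

namespace Pool.Agent.SV

open Pool.Agent.Lib.MP_663568_nt Pool.Agent.Lib.MP_663568_nt.Katai
  Pool.Agent.Lib.MP_663568_nt.Nul

noncomputable section

namespace IFx

theorem large_i (κ₁ W : ℝ) (hκ₁ : 0 < κ₁) :
    ∃ H₁ : ℕ, ∀ H : ℕ, H₁ ≤ H → W ≤ (H : ℝ) ^ κ₁ ∧ W ≤ (H : ℝ) ^ (1 / 8 : ℝ) ∧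
      W ≤ Real.log H ∧ 1 ≤ H := by
  have t := tendsto_natCast_atTop_atTop (R := ℝ)
  have h1 := (tendsto_rpow_atTop hκ₁).comp t
  have h2 := (tendsto_rpow_atTop (show (0 : ℝ) < 1 / 8 by norm_num)).comp t
  have h4 := Real.tendsto_log_atTop.comp t
  obtain ⟨X₁, hX₁⟩ := eventually_atTop.1
    ((((h1.eventually_ge_atTop W).and (h2.eventually_ge_atTop W)).and
      (h4.eventually_ge_atTop W)).and (eventually_ge_atTop 1))
  refine ⟨X₁, fun X hX => ?_⟩
  obtain ⟨⟨⟨a1, a2⟩, a3⟩, a4⟩ := hX₁ X hX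
  exact ⟨a1, a2, a3, a4⟩

theorem near_max (X n : ℕ) (S : Set ℝ) (hS : S.Nonempty) {e : ℝ} (he : 0 < e) :
    ∃ y ∈ S, ∀ y' ∈ S, vv X n y' ≤ vv X n y + e := by
  have hb : BddAbove (vv X n '' S) := ⟨1, by rintro _ ⟨y, _, rfl⟩; exact RB.vv_le X n y⟩
  have hne : (vv X n '' S).Nonempty := hS.image _
  obtain ⟨_, ⟨y, hy, rfl⟩, hlt⟩ := exists_lt_of_lt_csSup hne
    (show sSup (vv X n '' S) - e < sSup (vv X n '' S) by linarith)
  refine ⟨y, hy, fun y' hy' => ?_⟩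
  have := le_csSup hb ⟨y', hy', rfl⟩
  linarith

theorem meas_cf (X : ℕ) (a : ℕ → ℝ) : Measurable (cf X a) :=
  (measurable_from_nat (f := a)).comp ((Real.measurable_exp.div_const _).nat_floor)

theorem meas_cg (X : ℕ) (g : ℕ → ℝ) (ta tb : ℝ) : Measurable (cg X g ta tb) := by
  unfold cg
  refine Measurable.ite ?_ ?_ measurable_const
  · exact measurableSet_Icc
  · exact (measurable_from_nat (f := g)).comp ((Real.measurable_exp.div_const _).nat_floor)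

theorem cg_bd (X : ℕ) (g : ℕ → ℝ) (ta tb : ℝ) (h0 : ∀ k, 0 ≤ g k) (h1 : ∀ k, g k ≤ 1) (u : ℝ) :
    0 ≤ cg X g ta tb u ∧ cg X g ta tb u ≤ 1 := by
  unfold cg
  split_ifs
  · exact ⟨h0 _, h1 _⟩
  · exact ⟨le_rfl, zero_le_one⟩

theorem SS_eq_vv (X : ℕ) (a : ℕ → ℝ) (u : ℝ) :
    SS X a u = vv X (⌊Real.exp u / X⌋₊ * X) (a ⌊Real.exp u / X⌋₊) := by
  unfold SS vv
  congr 1
  have e : ∀ k : ℕ, ∑ m ∈ Ioc (k * X) ((k + 1) * X), muC m * ee (a k * m) =
      ee (a k * (k * X : ℕ)) * ∑ m ∈ Icc 1 X, muC (k * X + m) * ee (a k * m) := by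
    intro k
    rw [mul_sum, show Ioc (k * X) ((k + 1) * X) = (Icc 1 X).map (addLeftEmbedding (k * X)) by
      ext m
      simp only [mem_Ioc, Finset.mem_map, mem_Icc, addLeftEmbedding_apply, add_mul, one_mul]
      constructor
      · intro h; exact ⟨m - k * X, by omega, by omega⟩
      · rintro ⟨a, ha, rfl⟩; omega]
    rw [sum_map]
    refine sum_congr rfl fun m _ => ?_
    rw [addLeftEmbedding_apply]
    have : a k * ((k * X + m : ℕ) : ℝ) = a k * (k * X : ℕ) + a k * m := by push_cast; ring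
    rw [this, ee_add]
    ring
  rw [e, norm_mul, norm_ee, one_mul]

theorem om1_le (S : Set ℝ) (R : ℝ) : 0 ≤ om1 S R ∧ om1 S R ≤ 1 := by
  refine ⟨ENNReal.toReal_nonneg, ?_⟩
  unfold om1
  refine ENNReal.toReal_le_of_le_ofReal zero_le_one ?_
  calc volume {x : ℝ | x ∈ Set.Icc 0 1 ∧ ∃ y ∈ S, |y - x| < 1 / R} ≤ volume (Set.Icc (0 : ℝ) 1) :=
        measure_mono fun x hx => hx.1
    _ = ENNReal.ofReal 1 := by rw [Real.volume_Icc]; norm_num

theorem int_gSS (X : ℕ) (a g : ℕ → ℝ) {e ta Λ : ℝ} (he0 : 0 < e) (htab : ta ≤ Λ)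
    (hg : g = fun k => if e ≤ vv X (k * X) (a k) then 1 else 0) :
    ∫ u in ta..Λ, SS X a u ≤ (∫ u in ta..Λ, g ⌊Real.exp u / X⌋₊ * SS X a u) + e * (Λ - ta) := by
  have hg0 : ∀ k, 0 ≤ g k := fun k => by rw [hg]; show 0 ≤ ite _ _ _; split_ifs <;> norm_num
  have hg1 : ∀ k, g k ≤ 1 := fun k => by rw [hg]; show ite _ _ _ ≤ _; split_ifs <;> norm_num
  have hSSm : Measurable (SS X a) := by
    have e1 : SS X a = fun u => (fun k : ℕ => vv X (k * X) (a k)) ⌊Real.exp u / X⌋₊ := by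
      funext u
      rw [SS_eq_vv]
    rw [e1]
    exact (measurable_from_nat (f := fun k : ℕ => vv X (k * X) (a k))).comp
      ((Real.measurable_exp.div_const _).nat_floor)
  have hSSb : ∀ u, |SS X a u| ≤ 1 := fun u => by
    rw [SS_eq_vv, abs_of_nonneg (RB.vv_nonneg _ _ _)]
    exact RB.vv_le _ _ _
  have hgm : Measurable fun u : ℝ => g ⌊Real.exp u / X⌋₊ :=
    (measurable_from_nat (f := g)).comp ((Real.measurable_exp.div_const _).nat_floor)
  have hb : ∀ u, |g ⌊Real.exp u / X⌋₊ * SS X a u| ≤ 1 := fun u => by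
    rw [abs_mul, abs_of_nonneg (hg0 _)]
    exact mul_le_one₀ (hg1 _) (abs_nonneg _) (hSSb u)
  have i1 := ii_bdd hSSm hSSb ta Λ
  have i3 : IntervalIntegrable (fun u : ℝ => g ⌊Real.exp u / X⌋₊ * SS X a u) volume ta Λ :=
    ii_bdd (hgm.mul hSSm) hb _ _
  have i2 : IntervalIntegrable (fun u : ℝ => g ⌊Real.exp u / X⌋₊ * SS X a u + e) volume ta Λ :=
    i3.add (by simp)
  refine (intervalIntegral.integral_mono_on htab i1 i2 fun u _ => ?_).trans (le_of_eq ?_)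
  · rw [SS_eq_vv, hg]
    show _ ≤ (if _ then (1 : ℝ) else 0) * _ + e
    split_ifs with h7
    · rw [one_mul]; linarith
    · rw [zero_mul]; linarith [lt_of_not_ge h7]
  · rw [intervalIntegral.integral_add i3 (by simp), intervalIntegral.integral_const,
      smul_eq_mul]
    ring

theorem diag_i {PP : Finset ℕ} (hLs1 : 1 ≤ Ls PP) (X : ℕ) (a : ℕ → ℝ) {g : ℕ → ℝ} {ta Λ : ℝ}
    (hg0 : ∀ k, 0 ≤ g k) (hg1 : ∀ k, g k ≤ 1) (htab : ta ≤ Λ) (τ : ℝ) (i : ℕ) :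
    EP PP i (fun P => ∫ u in ta..Λ, cg X g ta Λ (u + Real.log P) *
        cg X g ta Λ (u + Real.log P) *
        ((if nd (P * cf X a (u + Real.log P) - P * cf X a (u + Real.log P)) ≤ τ then 1 else 0) +
         (if nd (P * cf X a (u + Real.log P) + P * cf X a (u + Real.log P)) ≤ τ
          then (1 : ℝ) else 0))) ≤ (Λ - ta) +
    EP PP i (fun P => ∫ u in ta..Λ, cg X g ta Λ (u + Real.log P) *
        (if nd (P * cf X a (u + Real.log P) + P * cf X a (u + Real.log P)) ≤ τ then 1 else 0)) := by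
  have bI : ∀ p : Prop, ∀ _ : Decidable p, 0 ≤ (if p then (1 : ℝ) else 0) ∧
    (if p then (1 : ℝ) else 0) ≤ 1 := fun p _ => by split_ifs <;> norm_num
  have h6 : ∀ P : ℕ, ∫ u in ta..Λ, cg X g ta Λ (u + Real.log P) *
      cg X g ta Λ (u + Real.log P) *
      ((if nd (P * cf X a (u + Real.log P) - P * cf X a (u + Real.log P)) ≤ τ then 1 else 0) +
       (if nd (P * cf X a (u + Real.log P) + P * cf X a (u + Real.log P)) ≤ τ
        then (1 : ℝ) else 0)) ≤ (Λ - ta) + ∫ u in ta..Λ, cg X g ta Λ (u + Real.log P) *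
      (if nd (P * cf X a (u + Real.log P) + P * cf X a (u + Real.log P)) ≤ τ then 1 else 0) := by
    intro P
    have m1 : Measurable fun u : ℝ => (P : ℝ) * cf X a (u + Real.log P) :=
      measurable_const.mul ((meas_cf _ _).comp (measurable_id.add_const _))
    have mc : Measurable fun u : ℝ => cg X g ta Λ (u + Real.log P) :=
      (meas_cg _ _ _ _).comp (measurable_id.add_const _)
    have my1 : Measurable fun u : ℝ => (if nd (P * cf X a (u + Real.log P) -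
        P * cf X a (u + Real.log P)) ≤ τ then (1 : ℝ) else 0) :=
      Measurable.ite (measurableSet_le (continuous_nd.measurable.comp (m1.sub m1))
        measurable_const) measurable_const measurable_const
    have my2 : Measurable fun u : ℝ => (if nd (P * cf X a (u + Real.log P) +
        P * cf X a (u + Real.log P)) ≤ τ then (1 : ℝ) else 0) :=
      Measurable.ite (measurableSet_le (continuous_nd.measurable.comp (m1.add m1))
        measurable_const) measurable_const measurable_const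
    have key : ∀ w y1 y2 : ℝ, 0 ≤ w → w ≤ 1 → 0 ≤ y1 → y1 ≤ 1 → 0 ≤ y2 → y2 ≤ 1 →
        |w * w * (y1 + y2)| ≤ 2 ∧ |w * y2| ≤ 1 ∧ w * w * (y1 + y2) ≤ 1 + w * y2 := by
      intro w y1 y2 hw0 hw1 h0 h1 h2 h3
      have z3 : w * w ≤ w := mul_le_of_le_one_left hw0 hw1
      have z4 : w * w * y1 ≤ 1 := mul_le_one₀ (z3.trans hw1) h0 h1
      have z5 : w * w * y2 ≤ w * y2 := mul_le_mul_of_nonneg_right z3 h2
      have z6 : w * y2 ≤ 1 := mul_le_one₀ hw1 h2 h3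
      have z7 : 0 ≤ w * w * y1 := by positivity
      have z8 : 0 ≤ w * w * y2 := by positivity
      have z9 : 0 ≤ w * y2 := by positivity
      refine ⟨?_, ?_, ?_⟩
      · rw [abs_of_nonneg (by linarith), mul_add]; linarith
      · rw [abs_of_nonneg z9]; exact z6
      · rw [mul_add]; linarith
    have i1 : IntervalIntegrable (fun u : ℝ => cg X g ta Λ (u + Real.log P) *
        cg X g ta Λ (u + Real.log P) *
        ((if nd (P * cf X a (u + Real.log P) - P * cf X a (u + Real.log P)) ≤ τ then 1 else 0) +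
         (if nd (P * cf X a (u + Real.log P) + P * cf X a (u + Real.log P)) ≤ τ
          then (1 : ℝ) else 0))) volume ta Λ := by
      refine ii_bdd (C := 2) ((mc.mul mc).mul (my1.add my2)) (fun u => ?_) _ _
      obtain ⟨c1, c2⟩ := cg_bd X g ta Λ hg0 hg1 (u + Real.log P)
      exact (key _ _ _ c1 c2 (bI _ _).1 (bI _ _).2 (bI _ _).1 (bI _ _).2).1
    have i3 : IntervalIntegrable (fun u : ℝ => cg X g ta Λ (u + Real.log P) *
        (if nd (P * cf X a (u + Real.log P) + P * cf X a (u + Real.log P)) ≤ τ then (1 : ℝ)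
          else 0)) volume ta Λ := by
      refine ii_bdd (C := 1) (mc.mul my2) (fun u => ?_) _ _
      obtain ⟨c1, c2⟩ := cg_bd X g ta Λ hg0 hg1 (u + Real.log P)
      exact (key _ 0 _ c1 c2 le_rfl zero_le_one (bI _ _).1 (bI _ _).2).2.1
    have i2 : IntervalIntegrable (fun u : ℝ => 1 + cg X g ta Λ (u + Real.log P) *
        (if nd (P * cf X a (u + Real.log P) + P * cf X a (u + Real.log P)) ≤ τ then (1 : ℝ)
          else 0)) volume ta Λ := (by simp : IntervalIntegrable (fun _ => (1 : ℝ)) volume ta Λ).add i3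
    refine (intervalIntegral.integral_mono_on htab i1 i2 fun u _ => ?_).trans (le_of_eq ?_)
    · obtain ⟨c1, c2⟩ := cg_bd X g ta Λ hg0 hg1 (u + Real.log P)
      exact (key _ _ _ c1 c2 (bI _ _).1 (bI _ _).2 (bI _ _).1 (bI _ _).2).2.2
    · rw [intervalIntegral.integral_add (by simp) i3, intervalIntegral.integral_const,
        smul_eq_mul, mul_one]
  have h8 := EPx.EP_mono hLs1 i (fun P : ℕ => ∫ u in ta..Λ, cg X g ta Λ (u + Real.log P) *
        cg X g ta Λ (u + Real.log P) *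
        ((if nd (P * cf X a (u + Real.log P) - P * cf X a (u + Real.log P)) ≤ τ then 1 else 0) +
         (if nd (P * cf X a (u + Real.log P) + P * cf X a (u + Real.log P)) ≤ τ
          then (1 : ℝ) else 0))) (fun P : ℕ => (Λ - ta) +
      ∫ u in ta..Λ, cg X g ta Λ (u + Real.log P) *
        (if nd (P * cf X a (u + Real.log P) + P * cf X a (u + Real.log P)) ≤ τ
          then (1 : ℝ) else 0)) (fun L _ _ => h6 L.prod)
  rw [EPx.EP_add, EPx.EP_const hLs1] at h8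
  exact h8

end IFx

open IFx

theorem ifin (hT2 : T2') (hE : EPC_stmt) (hT3 : T3_stmt) (hT4 : T4_stmt) (hT5 : T5_stmt)
    (hA : T16a') (hD : T16d') (hB : T16b') : I' := by
  intro A ε₀ R hA0 hε₀ hR
  obtain ⟨ε, hε⟩ : ∃ ε, ε = min ε₀ 1 := ⟨_, rfl⟩
  have hε0 : 0 < ε := by rw [hε]; exact lt_min hε₀ one_pos
  have hε1 : ε ≤ 1 := by rw [hε]; exact min_le_right _ _
  have hεε : ε ≤ ε₀ := by rw [hε]; exact min_le_left _ _
  have hε2 : ε ^ 2 ≤ ε := by nlinarith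
  obtain ⟨e, he⟩ : ∃ e, e = ε ^ 2 / 64 := ⟨_, rfl⟩
  have he0 : 0 < e := by rw [he]; positivity
  have he1 : e ≤ 1 / 64 := by rw [he]; linarith
  obtain ⟨J, hJ⟩ : ∃ J : ℕ, J = ⌈32 / ε ^ 2⌉₊ := ⟨_, rfl⟩
  have hJ32 : 32 / ε ^ 2 ≤ J := by rw [hJ]; exact Nat.le_ceil _
  obtain ⟨κ₂, hκ₂⟩ : ∃ κ₂ : ℝ, κ₂ = e / (8 * ((J : ℝ) + 2)) := ⟨_, rfl⟩
  have hκ₂0 : 0 < κ₂ := by rw [hκ₂]; positivity
  have hκJ2 : κ₂ * ((J : ℝ) + 2) = e / 8 := by rw [hκ₂]; field_simp
  have hκJ : κ₂ * (J : ℝ) ≤ e / 8 := by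
    rw [← hκJ2]; gcongr; linarith
  have hκ4 : κ₂ ≤ 1 / 4 := by
    have : κ₂ * 2 ≤ κ₂ * ((J : ℝ) + 2) := by gcongr; linarith [Nat.cast_nonneg (α := ℝ) J]
    linarith
  obtain ⟨K, hK1, hT3⟩ := hT3 hT2 hE e J he0
  obtain ⟨κ₁, hκ₁, hκ₁₂, Xm, hMer⟩ := RB.mertens K κ₂ hκ₂0 hκ4 hK1
  obtain ⟨η, hη, hη1, H4, hT4⟩ := hT4 (A + 1) e (by linarith) he0 (by linarith)
  obtain ⟨C, hC, l₀, hT5⟩ := hT5 e he0
  obtain ⟨Ha, hA⟩ := hA A e κ₁ κ₂ J hA0 he0 hκ₁ hκ₁₂ (by linarith)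
  obtain ⟨Hd, hD⟩ := hD A e κ₁ κ₂ J hA0 he0 hκ₁ hκ₁₂ (by linarith)
  obtain ⟨Hb, hB⟩ := hB A e κ₁ κ₂ R J hA0 he0 hκ₁ hκ₁₂ hR (by linarith)
  obtain ⟨W, hW⟩ : ∃ W : ℝ, W = K + 2 * K / η + 2 * C + l₀ + 2 / e + 4 := ⟨_, rfl⟩
  have hWa : K ≤ W ∧ 2 * K / η ≤ W ∧ 2 * C ≤ W ∧ (l₀ : ℝ) + 2 ≤ W ∧ 2 / e ≤ W ∧ 4 ≤ W := by
    have h1 : 0 ≤ 2 * K / η := by positivity
    have h2 : 0 ≤ 2 / e := by positivity
    have h3 : (0 : ℝ) ≤ l₀ := Nat.cast_nonneg _
    rw [hW]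
    refine ⟨?_, ?_, ?_, ?_, ?_, ?_⟩ <;> linarith
  obtain ⟨W1, W2, W3, W4, W5, W6⟩ := hWa
  obtain ⟨Hl, hHl⟩ := large_i κ₁ W hκ₁
  refine ⟨max (max (max Ha Hd) (max Hb H4)) (max Xm Hl), ?_⟩
  intro H N hH hN T hSy hSl hne
  have hHa : Ha ≤ H := by
    refine le_trans ?_ hH
    exact (le_max_left _ _).trans ((le_max_left _ _).trans (le_max_left _ _))
  have hHd : Hd ≤ H := by
    refine le_trans ?_ hH
    exact (le_max_right _ _).trans ((le_max_left _ _).trans (le_max_left _ _))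
  have hHb : Hb ≤ H := by
    refine le_trans ?_ hH
    exact (le_max_left _ _).trans ((le_max_right _ _).trans (le_max_left _ _))
  have hH4 : H4 ≤ H := by
    refine le_trans ?_ hH
    exact (le_max_right _ _).trans ((le_max_right _ _).trans (le_max_left _ _))
  have hXm : Xm ≤ H := by
    refine le_trans ?_ hH
    exact (le_max_left _ _).trans (le_max_right _ _)
  have hHl' : Hl ≤ H := by
    refine le_trans ?_ hH
    exact (le_max_right _ _).trans (le_max_right _ _)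
  obtain ⟨b1, b2, b3, b4⟩ := hHl H hHl'
  have hH1 : (1 : ℝ) ≤ H := by exact_mod_cast b4
  have hH0 : (0 : ℝ) < H := by linarith
  have hLs := hMer H hXm
  have hLs1 : 1 ≤ Ls (PPs H κ₁ κ₂) := hK1.trans hLs
  obtain ⟨Λ, hΛ⟩ : ∃ Λ, Λ = Real.log N := ⟨_, rfl⟩
  obtain ⟨h, hh⟩ : ∃ h, h = Real.log H := ⟨_, rfl⟩
  have hh4 : 4 ≤ h := by rw [hh]; linarith
  have hN0 : (0 : ℝ) < N := lt_of_lt_of_le (Real.rpow_pos_of_pos hH0 _) hN
  have hΛh : (A + 5) * h ≤ Λ := by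
    rw [hΛ, hh, ← Real.log_rpow hH0]
    exact Real.log_le_log (Real.rpow_pos_of_pos hH0 _) hN
  have hAh : 0 ≤ A * h := by positivity
  have hhΛ : h ≤ Λ := by linarith
  have hΛ0 : 0 < Λ := by linarith
  obtain ⟨ta, hta⟩ : ∃ ta, ta = (A + 4) * h := ⟨_, rfl⟩
  have htab : ta ≤ Λ := by rw [hta]; linarith
  have hta0 : 0 ≤ ta := by rw [hta]; positivity
  -- the cells
  obtain ⟨X, hX⟩ : ∃ X : ℕ, X = ⌊η * H⌋₊ := ⟨_, rfl⟩
  have hH8 : (H : ℝ) ^ (1 / 8 : ℝ) * (H : ℝ) ^ (7 / 8 : ℝ) = H := by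
    rw [← Real.rpow_add hH0]; norm_num
  have hH78 : 1 ≤ (H : ℝ) ^ (7 / 8 : ℝ) := Real.one_le_rpow hH1 (by norm_num)
  have hH18 : 1 ≤ (H : ℝ) ^ (1 / 8 : ℝ) := Real.one_le_rpow hH1 (by norm_num)
  have hKη : 2 * K * (H : ℝ) ^ (7 / 8 : ℝ) ≤ η * H := by
    have h1 := W2.trans b2
    rw [div_le_iff₀ hη] at h1
    calc 2 * K * (H : ℝ) ^ (7 / 8 : ℝ) ≤ (H : ℝ) ^ (1 / 8 : ℝ) * η * (H : ℝ) ^ (7 / 8 : ℝ) := by
          gcongr
      _ = η * ((H : ℝ) ^ (1 / 8 : ℝ) * (H : ℝ) ^ (7 / 8 : ℝ)) := by ring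
      _ = η * H := by rw [hH8]
  have hXl : η * H - 1 < X := by rw [hX]; exact Nat.sub_one_lt_floor _
  have hXu : (X : ℝ) ≤ η * H := by rw [hX]; exact Nat.floor_le (by positivity)
  have hKX : K * (H : ℝ) ^ (7 / 8 : ℝ) ≤ X := by
    have : 1 ≤ K * (H : ℝ) ^ (7 / 8 : ℝ) := one_le_mul_of_one_le_of_one_le hK1 hH78
    linarith
  have hXH : X ≤ H := by
    have : (X : ℝ) ≤ H := hXu.trans (by nlinarith)
    exact_mod_cast this
  have hX2 : (H : ℝ) ^ (1 / 2 : ℝ) ≤ X := by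
    refine le_trans ?_ hKX
    calc (H : ℝ) ^ (1 / 2 : ℝ) ≤ (H : ℝ) ^ (7 / 8 : ℝ) :=
          Real.rpow_le_rpow_of_exponent_le hH1 (by norm_num)
      _ ≤ K * (H : ℝ) ^ (7 / 8 : ℝ) := le_mul_of_one_le_left (by positivity) hK1
  have hXpos : (0 : ℝ) < X := lt_of_lt_of_le (by positivity) hX2
  -- the short windows
  obtain ⟨l, hl⟩ : ∃ l : ℕ, l = ⌊(H : ℝ) ^ (3 / 4 : ℝ)⌋₊ := ⟨_, rfl⟩
  have hH34 : (H : ℝ) ^ (1 / 8 : ℝ) ≤ (H : ℝ) ^ (3 / 4 : ℝ) :=
    Real.rpow_le_rpow_of_exponent_le hH1 (by norm_num)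
  have hl1 : (H : ℝ) ^ (3 / 4 : ℝ) - 1 < l := by rw [hl]; exact Nat.sub_one_lt_floor _
  have hlu : (l : ℝ) ≤ (H : ℝ) ^ (3 / 4 : ℝ) := by rw [hl]; exact Nat.floor_le (by positivity)
  have hl₀ : l₀ ≤ l := by
    have : (l₀ : ℝ) ≤ l := by linarith
    exact_mod_cast this
  have hlone : 1 ≤ l := by
    have : (1 : ℝ) ≤ l := by linarith
    exact_mod_cast this
  have hl0 : (0 : ℝ) < l := by exact_mod_cast hlone
  obtain ⟨τ, hτ⟩ : ∃ τ : ℝ, τ = C / l := ⟨_, rfl⟩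
  have hτ0 : 0 ≤ τ := by rw [hτ]; positivity
  have hτ1 : τ ≤ (H : ℝ) ^ (-(1 / 2) : ℝ) := by
    rw [hτ, div_le_iff₀ hl0]
    have e1 : (H : ℝ) ^ (3 / 4 : ℝ) / 2 ≤ l := by linarith
    have e2 : (H : ℝ) ^ (-(1 / 2) : ℝ) * ((H : ℝ) ^ (3 / 4 : ℝ) / 2) = (H : ℝ) ^ (1 / 4 : ℝ) / 2 := by
      rw [← mul_div_assoc, ← Real.rpow_add hH0]; norm_num
    have e3 : (H : ℝ) ^ (1 / 8 : ℝ) ≤ (H : ℝ) ^ (1 / 4 : ℝ) :=
      Real.rpow_le_rpow_of_exponent_le hH1 (by norm_num)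
    have e4 : (H : ℝ) ^ (-(1 / 2) : ℝ) * ((H : ℝ) ^ (3 / 4 : ℝ) / 2) ≤
        (H : ℝ) ^ (-(1 / 2) : ℝ) * l := by gcongr
    linarith
  -- the frequencies
  choose a haT hamax using fun k : ℕ => near_max X (k * X) (T (k * X)) (hne _)
    (show 0 < e / 4 by positivity)
  obtain ⟨g, hg⟩ : ∃ g : ℕ → ℝ, g = fun k => if e ≤ vv X (k * X) (a k) then 1 else 0 := ⟨_, rfl⟩
  have hg0 : ∀ k, 0 ≤ g k := fun k => by rw [hg]; simp only; split_ifs <;> norm_num
  have hg1 : ∀ k, g k ≤ 1 := fun k => by rw [hg]; simp only; split_ifs <;> norm_num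
  have hge : ∀ k : ℕ, e * g k ≤ vv X (k * X) (a k) := fun k => by
    rw [hg]; simp only
    split_ifs with h1
    · rw [mul_one]; exact h1
    · rw [mul_zero]; exact RB.vv_nonneg _ _ _
  have hSl' : Slow T ((H : ℝ) ^ (A + 1)) := fun j => (hSl j).trans
    (Real.rpow_le_rpow_of_exponent_le hH1 (by linarith))
  have hA13 : A + 1 + 3 = A + 4 := by ring
  have h4 := hT4 H N hH4 (by
    rw [hA13]
    exact (Real.rpow_le_rpow_of_exponent_le hH1 (by linarith)).trans hN) T hSl' hne a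
  rw [hA13, ← hX, ← hh, ← hΛ, ← hta] at h4
  have h4 := h4 hamax
  obtain ⟨D, hDd⟩ : ∃ D, D = ∫ u in ta..Λ, SS X a u := ⟨_, rfl⟩
  rw [← hDd] at h4
  obtain ⟨V, hV⟩ : ∃ V, V = ∑ n ∈ Icc 1 N, (1 / (n : ℝ)) * om1 (T n) R := ⟨_, rfl⟩
  have hV0 : 0 ≤ V := by
    rw [hV]
    exact sum_nonneg fun n _ => mul_nonneg (by positivity) (om1_le _ _).1
  have hV2 : V ≤ 2 * Λ := by
    have e1 : V ≤ ∑ n ∈ Icc 1 N, 1 / (n : ℝ) := by
      rw [hV]
      refine sum_le_sum fun n _ => ?_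
      exact mul_le_of_le_one_right (by positivity) (om1_le _ _).2
    have e2 : ∑ n ∈ Icc 1 N, 1 / (n : ℝ) ≤ 1 + Real.log N := by
      have := harmonic_le_one_add_log N
      rw [harmonic_eq_sum_Icc] at this
      push_cast at this
      simpa only [one_div] using this
    rw [← hΛ] at e2
    linarith
  rw [← hΛ, ← hV]
  -- conclusion from the bound for `D`
  suffices hfin : D ≤ (√(3 * (V / Λ)) / Real.pi + √(3 * e + 1 / ((J : ℝ) + 1)) + 4 * e) * Λ by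
    have e1 : √(3 * e + 1 / ((J : ℝ) + 1)) ≤ ε / 2 := by
      rw [Real.sqrt_le_left (by positivity)]
      have : 1 / ((J : ℝ) + 1) ≤ ε ^ 2 / 32 := by
        rw [div_le_iff₀ (by positivity)]
        rw [div_le_iff₀ (by positivity)] at hJ32
        have h5 : 0 ≤ ε ^ 2 := by positivity
        linarith
      rw [he]
      nlinarith
    have e2 : 5 * e ≤ ε / 2 := by rw [he]; linarith
    refine h4.trans ?_
    have e3 : (√(3 * (V / Λ)) / Real.pi + √(3 * e + 1 / ((J : ℝ) + 1)) + 4 * e) * Λ + e * Λ ≤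
        (√(3 * (V / Λ)) / Real.pi + ε₀) * Λ := by
      have : √(3 * (V / Λ)) / Real.pi + √(3 * e + 1 / ((J : ℝ) + 1)) + 4 * e + e ≤
          √(3 * (V / Λ)) / Real.pi + ε₀ := by linarith
      have := mul_le_mul_of_nonneg_right this hΛ0.le
      linarith
    linarith
  obtain ⟨Dl, hDl⟩ : ∃ Dl, Dl = D - 4 * e * Λ := ⟨_, rfl⟩
  rcases lt_or_ge Dl 0 with hneg | hpos
  · have e1 : 0 ≤ (√(3 * (V / Λ)) / Real.pi + √(3 * e + 1 / ((J : ℝ) + 1))) * Λ := by positivity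
    linarith
  refine num_i he0 (by linarith) hΛ0 hV0 hV2 (T := Λ - ta) (by linarith) (by linarith)
    (by rw [hDl]; ring) hpos ?_
  have hc0 : 0 ≤ 6 / Real.pi ^ 2 + e := by positivity
  have key := bessel_int hLs1 J htab (e := e) (c0 := 6 / Real.pi ^ 2 + e) (Cf := 1) (Cg := 2)
    (Dl := Dl) (U := V + 2 * e * Λ) (U0 := (1 + e) * Λ) hc0
    (fun P u => cg X g ta Λ (u + Real.log P) *
      vv l ⌊Real.exp u⌋₊ (P * cf X a (u + Real.log P)))
    (fun P Q u => cg X g ta Λ (u + Real.log P) * cg X g ta Λ (u + Real.log Q) *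
      ((if nd (P * cf X a (u + Real.log P) - Q * cf X a (u + Real.log Q)) ≤ τ then 1 else 0) +
       (if nd (P * cf X a (u + Real.log P) + Q * cf X a (u + Real.log Q)) ≤ τ then 1 else 0)))
    ?_ ?_ ?_ ?_ ?_ ?_ ?_ ?_ ?_ hpos
  · exact key
  · -- measurability
    intro P
    exact ((meas_cg _ _ _ _).comp (measurable_id.add_const _)).mul
      (RCx.measurable_vv l Real.measurable_exp.nat_floor
        (measurable_const.mul ((meas_cf _ _).comp (measurable_id.add_const _))))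
  · intro P u
    obtain ⟨c1, c2⟩ := cg_bd X g ta Λ hg0 hg1 (u + Real.log P)
    have v1 := RB.vv_nonneg l ⌊Real.exp u⌋₊ (P * cf X a (u + Real.log P))
    have v2 := RB.vv_le l ⌊Real.exp u⌋₊ (P * cf X a (u + Real.log P))
    rw [abs_of_nonneg (mul_nonneg c1 v1)]
    exact mul_le_one₀ c2 v1 v2
  · intro P Q
    have m1 : ∀ c : ℝ, Measurable fun u : ℝ => c * cf X a (u + Real.log c) := fun c =>
      measurable_const.mul ((meas_cf _ _).comp (measurable_id.add_const _))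
    refine (((meas_cg _ _ _ _).comp (measurable_id.add_const _)).mul
      ((meas_cg _ _ _ _).comp (measurable_id.add_const _))).mul (Measurable.add ?_ ?_)
    · exact Measurable.ite (measurableSet_le (continuous_nd.measurable.comp ((m1 P).sub (m1 Q)))
        measurable_const) measurable_const measurable_const
    · exact Measurable.ite (measurableSet_le (continuous_nd.measurable.comp ((m1 P).add (m1 Q)))
        measurable_const) measurable_const measurable_const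
  · intro P Q u
    obtain ⟨c1, c2⟩ := cg_bd X g ta Λ hg0 hg1 (u + Real.log P)
    obtain ⟨c3, c4⟩ := cg_bd X g ta Λ hg0 hg1 (u + Real.log Q)
    have e1 : ∀ p : Prop, ∀ _ : Decidable p, 0 ≤ (if p then (1 : ℝ) else 0) ∧
        (if p then (1 : ℝ) else 0) ≤ 1 := fun p _ => by split_ifs <;> norm_num
    rw [abs_of_nonneg (mul_nonneg (mul_nonneg c1 c3) (add_nonneg (e1 _ _).1 (e1 _ _).1))]
    calc _ ≤ (1 : ℝ) * (1 + 1) := mul_le_mul (mul_le_one₀ c2 c3 c4)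
          (add_le_add (e1 _ _).2 (e1 _ _).2) (add_nonneg (e1 _ _).1 (e1 _ _).1) zero_le_one
      _ = 2 := by norm_num
  · -- Bessel
    intro L u
    have h5 := hT5 l hl₀ ⌊Real.exp u⌋₊ (range (J + 1))
      (fun j => (((L.take j).prod : ℕ) : ℝ) * cf X a (u + Real.log ((L.take j).prod : ℕ)))
      (fun j => cg X g ta Λ (u + Real.log ((L.take j).prod : ℕ)))
      (fun j => (cg_bd X g ta Λ hg0 hg1 _).1) (fun j => (cg_bd X g ta Λ hg0 hg1 _).2)
    rw [← hτ, card_range] at h5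
    push_cast at h5 ⊢
    exact h5
  · -- the lower bound
    intro j hj
    have hpp : ∀ p ∈ PPs H κ₁ κ₂, p.Prime ∧ K ≤ p ∧ (p : ℝ) ≤ (H : ℝ) ^ κ₂ := by
      intro p hp
      unfold PPs at hp
      rw [mem_filter, mem_Icc] at hp
      exact ⟨hp.2.1, W1.trans (b1.trans hp.2.2),
        (Nat.le_floor_iff (Real.rpow_nonneg hH0.le _)).1 hp.1.2⟩
    have hZ : K * ((H : ℝ) ^ κ₂) ^ (J + 2) * l ≤ X := by
      refine le_trans ?_ hKX
      have e1 : ((H : ℝ) ^ κ₂) ^ (J + 2) ≤ (H : ℝ) ^ (1 / 8 : ℝ) := by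
        rw [← Real.rpow_natCast, ← Real.rpow_mul hH0.le]
        refine Real.rpow_le_rpow_of_exponent_le hH1 ?_
        push_cast
        rw [hκJ2]
        linarith
      calc K * ((H : ℝ) ^ κ₂) ^ (J + 2) * l ≤ K * (H : ℝ) ^ (1 / 8 : ℝ) *
            (H : ℝ) ^ (3 / 4 : ℝ) := by gcongr
        _ = K * ((H : ℝ) ^ (1 / 8 : ℝ) * (H : ℝ) ^ (3 / 4 : ℝ)) := by ring
        _ = K * (H : ℝ) ^ (7 / 8 : ℝ) := by rw [← Real.rpow_add hH0]; norm_num
    have hlX : 2 * Real.log X + K ≤ ta := by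
      have e1 : Real.log X ≤ h := by
        rw [hh]
        exact Real.log_le_log hXpos (by exact_mod_cast hXH)
      have e2 : K ≤ h := by rw [hh]; exact W1.trans b3
      rw [hta]
      linarith
    have h3 := hT3 (PPs H κ₁ κ₂) ((H : ℝ) ^ κ₂) hpp hLs X l hlone hZ a g hg0 hg1 ta Λ htab hlX
      j hj
    have h6 : D ≤ (∫ u in ta..Λ, g ⌊Real.exp u / X⌋₊ * SS X a u) + e * (Λ - ta) := by
      rw [hDd]
      exact int_gSS X a g he0 htab hg
    have e0 : e * h ≤ e * Λ := mul_le_mul_of_nonneg_left hhΛ he0.le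
    have e0' : 0 ≤ e * h := by positivity
    have e1 : (J : ℝ) * Real.log ((H : ℝ) ^ κ₂) ≤ e * Λ := by
      rw [Real.log_rpow hH0, ← hh]
      calc (J : ℝ) * (κ₂ * h) = κ₂ * J * h := by ring
        _ ≤ e / 8 * h := by gcongr
        _ ≤ e * Λ := by linarith
    have e2 : 2 ≤ e * Λ := by
      have := W5.trans b3
      rw [div_le_iff₀ he0, ← hh] at this
      linarith
    have e3 : e * (Λ - ta) ≤ e * Λ := by gcongr; linarith
    rw [hDl]
    linarith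
  · -- pairs
    intro i j hij hj
    have h5 := hA H N X hHa hLs1 hN hX2 hXH T hSy a g haT hg0 hg1 hge τ hτ0 hτ1 i (j - i)
      (by omega) (by omega)
    have h6 := hB H N X hHb hLs1 hN hX2 hXH T hSy hSl a g hg0 hg1 hge (j - i) (by omega)
      (by omega)
    rw [← hh, ← hΛ, ← hta] at h5 h6
    rw [← hV] at h6
    have h7 := h5.trans (add_le_add_left h6 _)
    exact h7.trans (by linarith)
  · -- symmetry
    intro P Q u
    have e1 : nd (P * cf X a (u + Real.log P) - Q * cf X a (u + Real.log Q)) =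
        nd (Q * cf X a (u + Real.log Q) - P * cf X a (u + Real.log P)) := by
      rw [← nd_neg, neg_sub]
    rw [e1, add_comm (P * cf X a (u + Real.log P)) (Q * cf X a (u + Real.log Q)),
      mul_comm (cg X g ta Λ (u + Real.log P))]
  · -- the diagonal
    intro i hi
    have h5 := hD H N X hHd hLs1 hN hX2 hXH a g hg0 hg1 hge τ hτ0 hτ1 i hi
    rw [← hh, ← hΛ, ← hta] at h5
    have h7 := diag_i hLs1 X a hg0 hg1 htab τ i
    refine h7.trans ?_
    linarith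

end

end Pool.Agent.SV
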