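import Pool.Agent.Lib.SV.TFDefs
import Pool.Agent.Lib.SV.RA

/-!
# Theorem TF (MP_663568_nt), row T4: from windows to cells, no loss in the constant.  helper66.
-/

set_option autoImplicit false

open Finset MeasureTheory

namespace Pool.Agent.SV.T4x

open Pool.Agent.Lib.MP_663568_nt Pool.Agent.Lib.MP_663568_nt.Katai Pool.Agent.SV
  Pool.Agent.SV.RAr

noncomputable section

/-- the mean over a cell -/
theorem vv_cell (X j : ℕ) (b : ℝ) : vv X (j * X) b = Sc X j b / X := by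
  unfold vv Sc
  congr 1
  have h2 : ∑ m ∈ Ioc (j * X) ((j + 1) * X), muC m * ee (b * m) =
      ee (b * (j * X : ℕ)) * ∑ h ∈ Icc 1 X, muC (j * X + h) * ee (b * h) := by
    rw [mul_sum]
    symm
    refine sum_nbij' (fun h => j * X + h) (fun m => m - j * X) ?_ ?_ ?_ ?_ ?_
    · intro h hh
      simp only [mem_Icc, mem_Ioc, add_mul] at *
      omega
    · intro h hh
      simp only [mem_Icc, mem_Ioc, add_mul] at *
      omega
    · intro h hh
      simp
    · intro h hh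
      simp only [mem_Ioc] at hh
      omega
    · intro h hh
      have : (b * ((j * X + h : ℕ) : ℝ)) = b * (j * X : ℕ) + b * h := by
        push_cast
        ring
      rw [this, ee_add]
      ring
  rw [h2, norm_mul, norm_ee, one_mul]

theorem vv_le_one (l y : ℕ) (b : ℝ) : vv l y b ≤ 1 := by
  unfold vv
  refine div_le_one_of_le₀ ?_ (Nat.cast_nonneg _)
  refine (norm_sum_le _ _).trans ?_
  have : ∀ m ∈ Icc 1 l, ‖muC (y + m) * ee (b * m)‖ ≤ 1 := by
    intro m _
    rw [norm_mul, norm_ee, mul_one]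
    exact norm_muC _
  refine (sum_le_sum this).trans ?_
  simp

/-- Double counting, no loss. -/
theorem double_count' {X H s t : ℕ} {c0 : ℝ} (hX : 1 ≤ X) (hXH : 2 * X ≤ H)
    (hc0 : 0 ≤ c0) (hs : ∀ n, s < n → (n : ℝ) + H ≤ c0 * n)
    (c : ℕ → ℝ) (hc : ∀ j, 0 ≤ c j) :
    ∑ n ∈ Ioc s t, (1 / (n : ℝ)) * ∑ j ∈ Ico ((n + X - 1) / X) ((n + H) / X), c j ≤
      ∑ j ∈ Ico ((s + X) / X) ((t + H) / X), c0 * H * (c j / ((j + 1 : ℕ) * X)) := by
  classical
  have hX0 : 0 < X := by omega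
  have h1 : ∑ n ∈ Ioc s t, (1 / (n : ℝ)) * ∑ j ∈ Ico ((n + X - 1) / X) ((n + H) / X), c j =
      ∑ n ∈ Ioc s t, ∑ j ∈ Ico ((n + X - 1) / X) ((n + H) / X), (1 / (n : ℝ)) * c j :=
    sum_congr rfl fun n _ => by rw [mul_sum]
  rw [h1]
  rw [sum_comm' (s' := fun j => (Ioc s t).filter fun n => n ≤ j * X ∧ (j + 1) * X ≤ n + H)
    (t' := Ico ((s + X) / X) ((t + H) / X))]
  · refine sum_le_sum fun j hj => ?_
    rw [mem_Ico] at hj
    rw [← sum_mul]
    have h4 : ∑ n ∈ (Ioc s t).filter (fun n => n ≤ j * X ∧ (j + 1) * X ≤ n + H), 1 / (n : ℝ) ≤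
        c0 * H * (1 / ((j + 1 : ℕ) * X)) := by
      have hpos : (0 : ℝ) < (((j + 1) * X : ℕ) : ℝ) := by
        have : 0 < (j + 1) * X := by positivity
        exact_mod_cast this
      have h5 : ∀ n ∈ (Ioc s t).filter (fun n => n ≤ j * X ∧ (j + 1) * X ≤ n + H),
          1 / (n : ℝ) ≤ c0 * (1 / ((j + 1 : ℕ) * X)) := by
        intro n hn
        rw [mem_filter, mem_Ioc] at hn
        have h6 : (((j + 1) * X : ℕ) : ℝ) ≤ c0 * n := by
          have h7 : (((j + 1) * X : ℕ) : ℝ) ≤ ((n + H : ℕ) : ℝ) := by exact_mod_cast hn.2.2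
          push_cast at h7 ⊢
          exact h7.trans (hs n hn.1.1)
        have hn0 : (0 : ℝ) < n := by
          have : 0 < n := by omega
          exact_mod_cast this
        push_cast at hpos h6 ⊢
        rw [mul_one_div, div_le_div_iff₀ hn0 hpos]
        linarith
      refine (sum_le_sum h5).trans ?_
      rw [sum_const, nsmul_eq_mul]
      have h8 : #((Ioc s t).filter (fun n => n ≤ j * X ∧ (j + 1) * X ≤ n + H)) ≤ H := by
        have h9 : (Ioc s t).filter (fun n => n ≤ j * X ∧ (j + 1) * X ≤ n + H) ⊆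
            Icc ((j + 1) * X - H) (j * X) := by
          intro n hn
          rw [mem_filter, mem_Ioc] at hn
          rw [mem_Icc]
          omega
        refine (card_le_card h9).trans ?_
        rw [Nat.card_Icc, add_mul]
        omega
      have h10 : (#((Ioc s t).filter (fun n => n ≤ j * X ∧ (j + 1) * X ≤ n + H)) : ℝ) ≤ H := by
        exact_mod_cast h8
      calc (#((Ioc s t).filter (fun n => n ≤ j * X ∧ (j + 1) * X ≤ n + H)) : ℝ) *
            (c0 * (1 / ((j + 1 : ℕ) * X))) ≤ H * (c0 * (1 / ((j + 1 : ℕ) * X))) :=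
            mul_le_mul_of_nonneg_right h10 (by positivity)
        _ = _ := by ring
    calc (∑ n ∈ (Ioc s t).filter (fun n => n ≤ j * X ∧ (j + 1) * X ≤ n + H), 1 / (n : ℝ)) * c j
        ≤ c0 * H * (1 / ((j + 1 : ℕ) * X)) * c j := mul_le_mul_of_nonneg_right h4 (hc j)
      _ = _ := by ring
  · intro n j
    simp only [mem_Ioc, mem_Ico, mem_filter]
    have e1 : (n + X - 1) / X ≤ j ↔ n ≤ j * X := by
      rw [← Nat.lt_succ_iff, Nat.div_lt_iff_lt_mul hX0, Nat.succ_mul]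
      omega
    have e2 : j < (n + H) / X ↔ (j + 1) * X ≤ n + H := by
      rw [← Nat.succ_le_iff, Nat.le_div_iff_mul_le hX0]
    have e3 : (s + X) / X ≤ j ↔ s < j * X := by
      rw [← Nat.lt_succ_iff, Nat.div_lt_iff_lt_mul hX0, Nat.succ_mul]
      omega
    have e4 : j < (t + H) / X ↔ (j + 1) * X ≤ t + H := by
      rw [← Nat.succ_le_iff, Nat.le_div_iff_mul_le hX0]
    rw [e1, e2, e3, e4]
    constructor
    · rintro ⟨⟨q1, q2⟩, q3, q4⟩
      exact ⟨⟨⟨q1, q2⟩, q3, q4⟩, by omega, by omega⟩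
    · rintro ⟨⟨⟨q1, q2⟩, q3, q4⟩, -⟩
      exact ⟨⟨q1, q2⟩, q3, q4⟩

open Classical in
/-- The number of the changes below `M`. -/
theorem changes_le {T : ℕ → Set ℝ} {K : ℝ} (hT : Slow T K) (M : ℕ) :
    (#((Ico 1 M).filter fun n => T (n + 1) ≠ T n) : ℝ) ≤ (Nat.log 2 M + 1) * K := by
  have h1 : (Ico 1 M).filter (fun n => T (n + 1) ≠ T n) ⊆
      (range (Nat.log 2 M + 1)).biUnion fun j =>
        (Ico (2 ^ j) (2 ^ (j + 1))).filter fun n => T (n + 1) ≠ T n := by
    intro n hn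
    rw [mem_filter, mem_Ico] at hn
    rw [mem_biUnion]
    refine ⟨Nat.log 2 n, ?_, ?_⟩
    · rw [mem_range]
      have := Nat.log_mono_right (b := 2) hn.1.2.le
      omega
    · rw [mem_filter, mem_Ico]
      exact ⟨⟨Nat.pow_log_le_self 2 (by omega), Nat.lt_pow_succ_log_self (by norm_num) n⟩, hn.2⟩
  have h2 := (card_le_card h1).trans card_biUnion_le
  have h3 : (#((Ico 1 M).filter fun n => T (n + 1) ≠ T n) : ℝ) ≤
      ∑ j ∈ range (Nat.log 2 M + 1),
        (#((Ico (2 ^ j) (2 ^ (j + 1))).filter fun n => T (n + 1) ≠ T n) : ℝ) := by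
    exact_mod_cast h2
  refine h3.trans ?_
  have h4 : ∀ j ∈ range (Nat.log 2 M + 1),
      (#((Ico (2 ^ j) (2 ^ (j + 1))).filter fun n => T (n + 1) ≠ T n) : ℝ) ≤ K := by
    intro j _
    have := hT j
    convert this
  refine (sum_le_sum h4).trans ?_
  simp

theorem const_of {T : ℕ → Set ℝ} {s t : ℕ} (h : ∀ m, s ≤ m → m < t → T (m + 1) = T m) :
    ∀ m, s ≤ m → m ≤ t → T m = T s := by
  intro m hm
  induction m, hm using Nat.le_induction with
  | base => intro _; rfl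
  | succ m hm ih =>
    intro hmt
    rw [h m hm (by omega)]
    exact ih (by omega)

open Classical in
/-- The bad windows. -/
theorem bad_le {T : ℕ → Set ℝ} {K : ℝ} (hT : Slow T K) {H s t : ℕ} (hs : 1 ≤ s) :
    ∑ n ∈ (Ioc s t).filter (fun n => ∃ m, n ≤ m ∧ m < n + H ∧ T (m + 1) ≠ T m), 1 / (n : ℝ) ≤
      (Nat.log 2 (t + H) + 1) * K * H / s := by
  have hs0 : (0 : ℝ) < s := by exact_mod_cast hs
  set J := (Ico 1 (t + H)).filter fun m => T (m + 1) ≠ T m with hJ
  have h1 : (Ioc s t).filter (fun n => ∃ m, n ≤ m ∧ m < n + H ∧ T (m + 1) ≠ T m) ⊆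
      J.biUnion fun m => Ioc (m - H) m := by
    intro n hn
    rw [mem_filter, mem_Ioc] at hn
    obtain ⟨⟨hn1, hn2⟩, m, hm1, hm2, hm3⟩ := hn
    rw [mem_biUnion]
    refine ⟨m, ?_, ?_⟩
    · rw [hJ, mem_filter, mem_Ico]
      exact ⟨⟨by omega, by omega⟩, hm3⟩
    · rw [mem_Ioc]
      omega
  have h2 : #((Ioc s t).filter (fun n => ∃ m, n ≤ m ∧ m < n + H ∧ T (m + 1) ≠ T m)) ≤
      #J * H := by
    refine (card_le_card h1).trans (card_biUnion_le_card_mul _ _ _ fun m _ => ?_)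
    rw [Nat.card_Ioc]
    omega
  have h3 : ∀ n ∈ (Ioc s t).filter (fun n => ∃ m, n ≤ m ∧ m < n + H ∧ T (m + 1) ≠ T m),
      1 / (n : ℝ) ≤ 1 / s := by
    intro n hn
    rw [mem_filter, mem_Ioc] at hn
    have : (s : ℝ) ≤ n := by exact_mod_cast hn.1.1.le
    exact one_div_le_one_div_of_le hs0 this
  refine (sum_le_sum h3).trans ?_
  rw [sum_const, nsmul_eq_mul]
  have h4 : (#((Ioc s t).filter (fun n => ∃ m, n ≤ m ∧ m < n + H ∧ T (m + 1) ≠ T m)) : ℝ) ≤
      #J * H := by exact_mod_cast h2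
  have h5 := changes_le hT (t + H)
  calc (#((Ioc s t).filter (fun n => ∃ m, n ≤ m ∧ m < n + H ∧ T (m + 1) ≠ T m)) : ℝ) *
        (1 / s) ≤ (((Nat.log 2 (t + H) + 1) * K) * H) * (1 / s) := by
        refine mul_le_mul_of_nonneg_right (h4.trans ?_) (by positivity)
        exact mul_le_mul_of_nonneg_right h5 (by positivity)
    _ = _ := by ring

/-- A good window. -/
theorem good_le {T : ℕ → Set ℝ} {X H n : ℕ} (hX : 1 ≤ X) (hXH : 2 * X ≤ H)
    (hgood : ∀ m, n ≤ m → m ≤ n + H → T m = T n) {a : ℕ → ℝ} {e : ℝ} (he : 0 ≤ e)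
    (ha : ∀ k : ℕ, ∀ y ∈ T (k * X), vv X (k * X) y ≤ vv X (k * X) (a k) + e) {y : ℝ}
    (hy : y ∈ T n) :
    vv H n y ≤ 1 / H * (∑ j ∈ Ico ((n + X - 1) / X) ((n + H) / X), Sc X j (a j)) +
      (e + 2 * X / H) := by
  have hH : (0 : ℝ) < H := by
    have : 0 < H := by omega
    exact_mod_cast this
  have hXr : (0 : ℝ) < X := by exact_mod_cast hX
  have hX0 : 0 < X := by omega
  have h1 := window_le hX hXH n y
  have h2 : ∑ j ∈ Ico ((n + X - 1) / X) ((n + H) / X), Sc X j y ≤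
      ∑ j ∈ Ico ((n + X - 1) / X) ((n + H) / X), (Sc X j (a j) + e * X) := by
    refine sum_le_sum fun j hj => ?_
    rw [mem_Ico] at hj
    have h3 : n ≤ j * X := by
      have h5 : (n + X - 1) / X < j + 1 := by omega
      have h6 := (Nat.div_lt_iff_lt_mul hX0).1 h5
      rw [add_mul] at h6
      omega
    have h4 : (j + 1) * X ≤ n + H := (Nat.le_div_iff_mul_le hX0).1 (Nat.succ_le_iff.2 hj.2)
    have h5 : j * X ≤ n + H := by
      rw [add_mul] at h4
      omega
    have h6 : y ∈ T (j * X) := by rwa [hgood (j * X) h3 h5]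
    have h7 := ha j y h6
    rw [vv_cell, vv_cell, div_add' _ _ _ hXr.ne', div_le_div_iff_of_pos_right hXr] at h7
    exact h7
  rw [sum_add_distrib, sum_const, nsmul_eq_mul] at h2
  have h3 : (#(Ico ((n + X - 1) / X) ((n + H) / X)) : ℝ) * X ≤ H := by
    rw [Nat.card_Ico]
    have h4 : ((n + H) / X - (n + X - 1) / X) * X ≤ H := by
      rw [Nat.sub_mul]
      have a1 : n ≤ (n + X - 1) / X * X := by
        have := Nat.lt_div_mul_add (a := n + X - 1) (b := X) (by omega)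
        omega
      have a3 : (n + H) / X * X ≤ n + H := Nat.div_mul_le_self _ _
      omega
    exact_mod_cast h4
  have h4 : (#(Ico ((n + X - 1) / X) ((n + H) / X)) : ℝ) * (e * X) ≤ e * H := by
    calc (#(Ico ((n + X - 1) / X) ((n + H) / X)) : ℝ) * (e * X)
        = e * ((#(Ico ((n + X - 1) / X) ((n + H) / X)) : ℝ) * X) := by ring
      _ ≤ e * H := mul_le_mul_of_nonneg_left h3 he
  have h5 : ‖∑ h ∈ Icc 1 H, muC (n + h) * ee (y * h)‖ ≤
      (∑ j ∈ Ico ((n + X - 1) / X) ((n + H) / X), Sc X j (a j)) + e * H + 2 * X := by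
    linarith
  unfold vv
  calc ‖∑ h ∈ Icc 1 H, muC (n + h) * ee (y * h)‖ / H ≤
      ((∑ j ∈ Ico ((n + X - 1) / X) ((n + H) / X), Sc X j (a j)) + e * H + 2 * X) / H :=
        div_le_div_of_nonneg_right h5 hH.le
    _ = _ := by
      field_simp
      ring

theorem log2_le {N H : ℕ} (hHN : H ≤ N) (hN : 3 ≤ N) :
    (Nat.log 2 (N + H) + 1 : ℝ) ≤ 4 * Real.log N := by
  have hN0 : (0 : ℝ) < N := by
    have : 0 < N := by omega
    exact_mod_cast this
  have h1 : Nat.log 2 (N + H) ≤ Nat.log 2 (2 * N) := Nat.log_mono_right (by omega)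
  have h2 : ((2 ^ Nat.log 2 (2 * N) : ℕ) : ℝ) ≤ ((2 * N : ℕ) : ℝ) := by
    exact_mod_cast Nat.pow_log_le_self 2 (by omega)
  push_cast at h2
  have h3 : (Nat.log 2 (2 * N) : ℝ) * Real.log 2 ≤ Real.log 2 + Real.log N := by
    have := Real.log_le_log (by positivity) h2
    rwa [Real.log_pow, Real.log_mul (by norm_num) hN0.ne'] at this
  have h4 : (Nat.log 2 (N + H) : ℝ) ≤ Nat.log 2 (2 * N) := by exact_mod_cast h1
  have h5 : (0.6931471803 : ℝ) < Real.log 2 := Real.log_two_gt_d9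
  have h6 : 1 ≤ Real.log N := by
    rw [Real.le_log_iff_exp_le hN0]
    have : Real.exp 1 < 2.7182818286 := Real.exp_one_lt_d9
    have h7 : (3 : ℝ) ≤ N := by exact_mod_cast hN
    linarith
  have h7 : ((Nat.log 2 (2 * N) : ℝ) - 1) * Real.log 2 ≤ Real.log N := by linarith
  have h8 : (Nat.log 2 (2 * N) : ℝ) - 1 ≤ 1.5 * Real.log N := by
    by_contra hc
    push Not at hc
    have h9 : 0 < (Nat.log 2 (2 * N) : ℝ) - 1 := by linarith
    nlinarith
  linarith

end

end Pool.Agent.SV.T4x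

namespace Pool.Agent.SV

open Pool.Agent.Lib.MP_663568_nt Pool.Agent.Lib.MP_663568_nt.Katai Pool.Agent.SV.RAr
  Pool.Agent.SV.T4x Filter

noncomputable section

theorem t4 : T4_stmt := by
  classical
  intro A ε hA hε hε1
  set η : ℝ := ε / 16 with hη
  have hη0 : 0 < η := by positivity
  have hη1 : η ≤ 1 / 16 := by rw [hη]; linarith
  refine ⟨η, hη0, by linarith, ?_⟩
  have e1 : ∀ᶠ h : ℝ in atTop, 64 / ε + 64 ≤ h := eventually_ge_atTop _
  obtain ⟨H₀, hH₀⟩ := eventually_atTop.1 (tendsto_natCast_atTop_atTop (R := ℝ) |>.eventually e1)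
  refine ⟨H₀, fun H N hH hHN T hT hTne a ha => ?_⟩
  have c1 := hH₀ H hH
  have hε64 : 64 ≤ 64 / ε := by
    rw [le_div_iff₀ hε]
    linarith
  have hH128 : (128 : ℝ) ≤ H := by linarith
  have hH1 : (1 : ℝ) ≤ H := by linarith
  have hHp : (0 : ℝ) < H := by linarith
  have c2 : 64 ≤ ε * H := by
    have : 64 / ε ≤ H := by linarith
    rw [div_le_iff₀ hε] at this
    linarith
  set X := ⌊η * (H : ℝ)⌋₊ with hX
  have d2 : (X : ℝ) ≤ η * H := Nat.floor_le (by positivity)
  have d5 : 1 ≤ X := by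
    rw [hX]
    refine Nat.le_floor ?_
    rw [hη]
    push_cast
    linarith
  have hXp : (0 : ℝ) < X := by exact_mod_cast d5
  have hXH : 2 * X ≤ H := by
    have : (2 : ℝ) * X ≤ H := by nlinarith
    exact_mod_cast this
  -- the powers of `H`
  have hA0 : 0 < (H : ℝ) ^ A := by positivity
  have hA1 : 1 ≤ (H : ℝ) ^ A := Real.one_le_rpow hH1 hA
  have hpow : (H : ℝ) ^ (A + 3) = (H : ℝ) ^ A * H ^ 3 := by
    rw [Real.rpow_add hHp]
    norm_num
  set s := ⌊(H : ℝ) ^ (A + 3)⌋₊ with hs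
  have s1 : (s : ℝ) ≤ (H : ℝ) ^ (A + 3) := Nat.floor_le (by positivity)
  have s2 : (H : ℝ) ^ (A + 3) < s + 1 := Nat.lt_floor_add_one _
  have hH2 : (H : ℝ) ≤ H ^ 2 := by nlinarith
  have hH3 : 128 * (H : ℝ) ^ 2 ≤ H ^ 3 := by
    have : (H : ℝ) ^ 3 = H * H ^ 2 := by ring
    rw [this]
    exact mul_le_mul_of_nonneg_right hH128 (by positivity)
  have hH3' : 64 * (H : ℝ) ^ 2 ≤ ε * H ^ 3 := by
    have : ε * (H : ℝ) ^ 3 = ε * H * H ^ 2 := by ring
    rw [this]
    exact mul_le_mul_of_nonneg_right c2 (by positivity)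
  have s3 : (H : ℝ) ^ 3 ≤ (H : ℝ) ^ (A + 3) := by
    rw [hpow]
    exact le_mul_of_one_le_left (by positivity) hA1
  have s4 : (H : ℝ) ^ (A + 3) ≤ 2 * s := by
    have : 2 ≤ (H : ℝ) ^ (A + 3) := by nlinarith
    linarith
  have hs0 : (0 : ℝ) < s := by nlinarith
  have hs1 : 1 ≤ s := by exact_mod_cast hs0
  have hN0 : (0 : ℝ) < N := by nlinarith
  have hsN : s ≤ N := by
    have : (s : ℝ) ≤ N := s1.trans hHN
    exact_mod_cast this
  have hHN2 : (H : ℝ) ≤ N := by nlinarith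
  have hHN1 : H ≤ N := by exact_mod_cast hHN2
  have hN3 : 3 ≤ N := by
    have : (3 : ℝ) ≤ N := by linarith
    exact_mod_cast this
  have hlogN1 : 1 ≤ Real.log N := by
    rw [Real.le_log_iff_exp_le hN0]
    have : Real.exp 1 < 2.7182818286 := Real.exp_one_lt_d9
    have h7 : (3 : ℝ) ≤ N := by exact_mod_cast hN3
    linarith
  -- pointwise bound
  set bad : ℕ → Prop := fun n => ∃ m, n ≤ m ∧ m < n + H ∧ T (m + 1) ≠ T m with hbad
  have hpt : ∀ n ∈ Ioc s N, (1 / (n : ℝ)) * ⨆ y : {y : ℝ // y ∈ T n}, vv H n y ≤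
      1 / H * ((1 / (n : ℝ)) * ∑ j ∈ Ico ((n + X - 1) / X) ((n + H) / X), Sc X j (a j)) +
        (ε / 4 + 2 * X / H) * (1 / (n : ℝ)) + (if bad n then 1 / (n : ℝ) else 0) := by
    intro n hn
    rw [mem_Ioc] at hn
    have hn0 : (0 : ℝ) < n := by
      have : 0 < n := by omega
      exact_mod_cast this
    have : Nonempty {y : ℝ // y ∈ T n} := (hTne n).to_subtype
    have hS0 : 0 ≤ ∑ j ∈ Ico ((n + X - 1) / X) ((n + H) / X), Sc X j (a j) :=
      sum_nonneg fun j _ => Sc_nonneg _ _ _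
    by_cases hb : bad n
    · rw [if_pos hb]
      have h1 : ⨆ y : {y : ℝ // y ∈ T n}, vv H n y ≤ 1 := ciSup_le fun y => vv_le_one _ _ _
      have h2 : (1 / (n : ℝ)) * ⨆ y : {y : ℝ // y ∈ T n}, vv H n y ≤ (1 / (n : ℝ)) * 1 :=
        mul_le_mul_of_nonneg_left h1 (by positivity)
      have h3 : 0 ≤ 1 / (H : ℝ) * ((1 / (n : ℝ)) *
          ∑ j ∈ Ico ((n + X - 1) / X) ((n + H) / X), Sc X j (a j)) := by positivity
      have h4 : 0 ≤ (ε / 4 + 2 * X / H) * (1 / (n : ℝ)) := by positivity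
      linarith
    · rw [if_neg hb, add_zero]
      have hgood : ∀ m, n ≤ m → m ≤ n + H → T m = T n := by
        refine const_of ?_
        intro m hm1 hm2
        by_contra hc
        exact hb ⟨m, hm1, hm2, hc⟩
      have h1 : ⨆ y : {y : ℝ // y ∈ T n}, vv H n y ≤
          1 / H * (∑ j ∈ Ico ((n + X - 1) / X) ((n + H) / X), Sc X j (a j)) +
            (ε / 4 + 2 * X / H) :=
        ciSup_le fun y => good_le d5 hXH hgood (by positivity) ha y.2
      calc (1 / (n : ℝ)) * ⨆ y : {y : ℝ // y ∈ T n}, vv H n y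
          ≤ (1 / (n : ℝ)) * (1 / H * (∑ j ∈ Ico ((n + X - 1) / X) ((n + H) / X), Sc X j (a j)) +
            (ε / 4 + 2 * X / H)) := mul_le_mul_of_nonneg_left h1 (by positivity)
        _ = _ := by ring
  refine (sum_le_sum hpt).trans ?_
  rw [sum_add_distrib, sum_add_distrib, ← mul_sum, ← mul_sum, ← sum_filter]
  -- the bad windows
  have hB := bad_le hT (H := H) (s := s) (t := N) hs1
  have hB2 : ((Nat.log 2 (N + H) + 1 : ℝ)) * (H : ℝ) ^ A * H / s ≤ ε / 8 * Real.log N := by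
    have h1 := log2_le hHN1 hN3
    have h2 : (Nat.log 2 (N + H) + 1 : ℝ) * (H : ℝ) ^ A * H / s ≤
        4 * Real.log N * (H : ℝ) ^ A * H / s := by gcongr
    refine h2.trans ?_
    rw [div_le_iff₀ hs0]
    have h3 : 8 * (H : ℝ) ≤ ε / 8 * H ^ 3 := by nlinarith
    have h4 : 8 * ((H : ℝ) ^ A * H) ≤ ε / 8 * (2 * s) := by
      calc 8 * ((H : ℝ) ^ A * H) = (H : ℝ) ^ A * (8 * H) := by ring
        _ ≤ (H : ℝ) ^ A * (ε / 8 * H ^ 3) := mul_le_mul_of_nonneg_left h3 hA0.le
        _ = ε / 8 * (H : ℝ) ^ (A + 3) := by rw [hpow]; ring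
        _ ≤ ε / 8 * (2 * s) := mul_le_mul_of_nonneg_left s4 (by positivity)
    have h5 : 4 * ((H : ℝ) ^ A * H) ≤ ε / 8 * s := by linarith
    calc 4 * Real.log N * (H : ℝ) ^ A * H = Real.log N * (4 * ((H : ℝ) ^ A * H)) := by ring
      _ ≤ Real.log N * (ε / 8 * s) := mul_le_mul_of_nonneg_left h5 (by linarith)
      _ = _ := by ring
  -- the harmonic sum
  have hh := sum_inv_le hs1 hsN
  have hlogs : 0 ≤ Real.log s := Real.log_nonneg (by exact_mod_cast hs1)
  have hh2 : (ε / 4 + 2 * X / H) * ∑ n ∈ Ioc s N, 1 / (n : ℝ) ≤ (3 * ε / 8) * Real.log N := by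
    have h1 : 2 * (X : ℝ) / H ≤ ε / 8 := by
      rw [div_le_iff₀ hHp]
      rw [hη] at d2
      linarith
    have h2 : ∑ n ∈ Ioc s N, 1 / (n : ℝ) ≤ Real.log N := by linarith
    have h3 : 0 ≤ ∑ n ∈ Ioc s N, 1 / (n : ℝ) := sum_nonneg fun n _ => by positivity
    exact mul_le_mul (by linarith) h2 h3 (by positivity)
  -- the cells
  have hc0 : ∀ n : ℕ, s < n → (n : ℝ) + H ≤ (1 + ε / 16) * n := by
    intro n hn
    have h1 : (s : ℝ) < n := by exact_mod_cast hn
    have h2 : (H : ℝ) ≤ ε / 16 * s := by nlinarith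
    have h3 : ε / 16 * s ≤ ε / 16 * n := mul_le_mul_of_nonneg_left h1.le (by positivity)
    linarith
  have h7 := double_count' (t := N) d5 hXH (by positivity) hc0 (fun j => Sc X j (a j))
    (fun j => Sc_nonneg _ _ _)
  have hj0 : 1 ≤ (s + X) / X := by
    rw [Nat.le_div_iff_mul_le (by omega)]
    omega
  have h01 : (s + X) / X ≤ (N + H) / X := Nat.div_le_div_right (by omega)
  have hta : (A + 3) * Real.log H ≤ Real.log (((s + X) / X) * X : ℕ) := by
    rw [← Real.log_rpow hHp]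
    refine Real.log_le_log (by positivity) ?_
    have h1 : s + X < (s + X) / X * X + X := Nat.lt_div_mul_add (by omega)
    have h2 : s + 1 ≤ (s + X) / X * X := by omega
    have h3 : ((s + 1 : ℕ) : ℝ) ≤ (((s + X) / X * X : ℕ) : ℝ) := by exact_mod_cast h2
    push_cast at h3 ⊢
    linarith
  have htb : Real.log (((N + H) / X) * X : ℕ) ≤ Real.log ((N : ℝ) + H) := by
    refine Real.log_le_log ?_ ?_
    · have h1 : N + H < (N + H) / X * X + X := Nat.lt_div_mul_add (by omega)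
      have h2 : 0 < (N + H) / X * X := by omega
      exact_mod_cast h2
    · have h1 : (N + H) / X * X ≤ N + H := Nat.div_mul_le_self _ _
      have h2 : (((N + H) / X * X : ℕ) : ℝ) ≤ ((N + H : ℕ) : ℝ) := by exact_mod_cast h1
      push_cast at h2 ⊢
      linarith
  have h9 := cells_integral d5 a hj0 h01 hta htb
  set I := ∫ u in ((A + 3) * Real.log H)..(Real.log N), SS X a u with hI
  have hlow : (A + 3) * Real.log H ≤ Real.log N := by
    rw [← Real.log_rpow hHp]
    exact Real.log_le_log (by positivity) hHN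
  have hsplit : ∫ u in ((A + 3) * Real.log H)..(Real.log ((N : ℝ) + H)), SS X a u ≤
      I + H / N := by
    rw [← intervalIntegral.integral_add_adjacent_intervals (SS_int X a _ (Real.log N))
      (SS_int X a _ _)]
    refine add_le_add le_rfl ?_
    have h1 : Real.log N ≤ Real.log ((N : ℝ) + H) := Real.log_le_log hN0 (by linarith)
    have h2 : ∫ u in (Real.log N)..(Real.log ((N : ℝ) + H)), SS X a u ≤
        ∫ _u in (Real.log N)..(Real.log ((N : ℝ) + H)), (1 : ℝ) :=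
      intervalIntegral.integral_mono_on h1 (SS_int X a _ _) (by simp)
        fun u _ => SS_le_one X a u
    refine h2.trans ?_
    simp only [intervalIntegral.integral_const, smul_eq_mul, mul_one]
    have h3 : Real.log (((N : ℝ) + H) / N) ≤ ((N : ℝ) + H) / N - 1 :=
      Real.log_le_sub_one_of_pos (by positivity)
    rw [Real.log_div (by positivity) hN0.ne'] at h3
    have h4 : ((N : ℝ) + H) / N - 1 = H / N := by
      field_simp
      ring
    linarith
  have hI1 : I ≤ Real.log N := by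
    have h2 : I ≤ ∫ _u in ((A + 3) * Real.log H)..(Real.log N), (1 : ℝ) :=
      intervalIntegral.integral_mono_on hlow (SS_int X a _ _) (by simp)
        fun u _ => SS_le_one X a u
    simp only [intervalIntegral.integral_const, smul_eq_mul, mul_one] at h2
    have h3 : 0 ≤ Real.log H := Real.log_nonneg hH1
    have h4 : 0 ≤ (A + 3) * Real.log H := by positivity
    linarith
  have hHN3 : (H : ℝ) / N ≤ ε / 16 := by
    rw [div_le_iff₀ hN0]
    nlinarith
  have h10 : 1 / (H : ℝ) * ∑ n ∈ Ioc s N, (1 / (n : ℝ)) *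
      ∑ j ∈ Ico ((n + X - 1) / X) ((n + H) / X), Sc X j (a j) ≤
      (1 + ε / 16) * (I + H / N) := by
    calc (1 / (H : ℝ)) * ∑ n ∈ Ioc s N, (1 / (n : ℝ)) *
        ∑ j ∈ Ico ((n + X - 1) / X) ((n + H) / X), Sc X j (a j)
        ≤ (1 / (H : ℝ)) * ((1 + ε / 16) * H * (I + H / N)) := by
          refine mul_le_mul_of_nonneg_left ?_ (by positivity)
          refine h7.trans ?_
          rw [← mul_sum]
          exact mul_le_mul_of_nonneg_left (h9.trans hsplit) (by positivity)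
      _ = _ := by field_simp
  have h11 : (1 + ε / 16) * (I + H / N) ≤ I + 3 * ε / 16 * Real.log N := by
    have h12 : 0 ≤ (H : ℝ) / N := by positivity
    have h13 : ε / 16 * I ≤ ε / 16 * Real.log N := mul_le_mul_of_nonneg_left hI1 (by positivity)
    have h14 : (1 + ε / 16) * ((H : ℝ) / N) ≤ 2 * (ε / 16) :=
      mul_le_mul (by linarith) hHN3 h12 (by norm_num)
    have h15 : 2 * (ε / 16) ≤ 2 * (ε / 16) * Real.log N := le_mul_of_one_le_right (by positivity) hlogN1
    nlinarith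
  have hlogN0 : 0 ≤ ε * Real.log N := by positivity
  have hB3 : ∑ n ∈ (Ioc s N).filter bad, 1 / (n : ℝ) ≤ ε / 8 * Real.log N := by
    refine le_trans ?_ (hB.trans hB2)
    rw [hbad]
  linarith

end

end Pool.Agent.SV
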