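import Mathlib
import Pool.Agent.Lib.SV.TFDefs2
import Pool.Agent.Lib.SV.T4

/-!
# Theorem TF (MP_663568_nt), row S1: functions of `T` are step functions of `u` (helper60)
-/

set_option autoImplicit false
open Finset MeasureTheory

namespace Pool.Agent.SV

open Pool.Agent.Lib.MP_663568_nt Pool.Agent.Lib.MP_663568_nt.Katai
  Pool.Agent.Lib.MP_663568_nt.Nul

noncomputable section

open Classical in
/-- The number of the changes below `n`. -/
def chg (T : ℕ → Set ℝ) (n : ℕ) : ℕ := #((range n).filter fun m => T (m + 1) ≠ T m)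

theorem chg_mono (T : ℕ → Set ℝ) {s t : ℕ} (h : s ≤ t) : chg T s ≤ chg T t := by
  classical
  unfold chg
  exact card_le_card (filter_subset_filter _ (range_mono h))

open Classical in
theorem chg_add (T : ℕ → Set ℝ) {s t : ℕ} (h : s ≤ t) :
    chg T t = chg T s + #((Ico s t).filter fun m => T (m + 1) ≠ T m) := by
  unfold chg
  rw [range_eq_Ico, range_eq_Ico, ← card_union_of_disjoint, ← filter_union,
    Ico_union_Ico_eq_Ico (Nat.zero_le _) h]
  refine disjoint_filter_filter ?_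
  rw [Finset.disjoint_left]
  intro a h1 h2
  rw [mem_Ico] at h1 h2
  omega

theorem chg_eq (T : ℕ → Set ℝ) {s t : ℕ} (hst : s ≤ t) (h : chg T s = chg T t) :
    T t = T s := by
  classical
  rw [chg_add T hst] at h
  have h1 : #((Ico s t).filter fun m => T (m + 1) ≠ T m) = 0 := by omega
  rw [card_eq_zero, filter_eq_empty_iff] at h1
  refine T4x.const_of (s := s) (t := t) (fun m hm1 hm2 => ?_) t hst le_rfl
  by_contra hne
  exact h1 (mem_Ico.2 ⟨hm1, hm2⟩) hne

theorem chg_four {T : ℕ → Set ℝ} {K : ℝ} (hT : Slow T K) {s t : ℕ} (hs : 1 ≤ s) (hst : s ≤ t)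
    (h4 : t ≤ 4 * s) : (chg T t : ℝ) ≤ chg T s + 3 * K := by
  classical
  rw [chg_add T hst]
  push_cast
  have hlog := Nat.pow_log_le_self 2 (x := s) (by omega)
  have hlog' := Nat.lt_pow_succ_log_self (b := 2) (by norm_num) s
  set j := Nat.log 2 s
  have h1 : (Ico s t).filter (fun m => T (m + 1) ≠ T m) ⊆
      (Ico j (j + 3)).biUnion fun j =>
        (Ico (2 ^ j) (2 ^ (j + 1))).filter fun n => T (n + 1) ≠ T n := by
    intro n hn
    rw [mem_filter, mem_Ico] at hn
    rw [mem_biUnion]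
    refine ⟨Nat.log 2 n, ?_, ?_⟩
    · rw [mem_Ico]
      refine ⟨Nat.log_mono_right hn.1.1, ?_⟩
      rw [Nat.log_lt_iff_lt_pow (by norm_num) (by omega)]
      calc n < 4 * s := by omega
        _ < 2 ^ (j + 3) := by
          rw [pow_add]
          rw [pow_succ] at hlog'
          omega
    · rw [mem_filter, mem_Ico]
      exact ⟨⟨Nat.pow_log_le_self 2 (by omega), Nat.lt_pow_succ_log_self (by norm_num) n⟩, hn.2⟩
  have h2 := (card_le_card h1).trans card_biUnion_le
  have h3 : (#((Ico s t).filter fun n => T (n + 1) ≠ T n) : ℝ) ≤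
      ∑ j ∈ Ico j (j + 3),
        (#((Ico (2 ^ j) (2 ^ (j + 1))).filter fun n => T (n + 1) ≠ T n) : ℝ) := by
    exact_mod_cast h2
  have h4 : ∀ i ∈ Ico j (j + 3),
      (#((Ico (2 ^ i) (2 ^ (i + 1))).filter fun n => T (n + 1) ≠ T n) : ℝ) ≤ K := by
    intro i _
    have := hT i
    convert this
  have h5 := h3.trans (sum_le_sum h4)
  rw [sum_const, Nat.card_Ico] at h5
  simp only [add_tsub_cancel_left, nsmul_eq_mul] at h5
  push_cast at h5
  linarith

/-- The beginning of the cell. -/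
def bc (X : ℕ) (u₀ u : ℝ) : ℕ := ⌊Real.exp (max u u₀) / X⌋₊ * X

theorem bc_mono (X : ℕ) (u₀ : ℝ) : Monotone (bc X u₀) := by
  intro u v huv
  unfold bc
  refine Nat.mul_le_mul_right _ (Nat.floor_le_floor ?_)
  exact div_le_div_of_nonneg_right (Real.exp_le_exp.2 (max_le_max_right _ huv))
    (Nat.cast_nonneg _)

theorem bc_le {X : ℕ} (hX : 1 ≤ X) (u₀ u : ℝ) : (bc X u₀ u : ℝ) ≤ Real.exp (max u u₀) := by
  have hX0 : (0 : ℝ) < X := by exact_mod_cast hX
  unfold bc
  push_cast
  have := Nat.floor_le (div_nonneg (Real.exp_pos (max u u₀)).le hX0.le)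
  rwa [le_div_iff₀ hX0] at this

theorem bc_gt {X : ℕ} (hX : 1 ≤ X) (u₀ u : ℝ) : Real.exp (max u u₀) - X < bc X u₀ u := by
  have hX0 : (0 : ℝ) < X := by exact_mod_cast hX
  unfold bc
  push_cast
  have := Nat.lt_floor_add_one (Real.exp (max u u₀) / X)
  rw [div_lt_iff₀ hX0] at this
  linarith

theorem s1 : S1' := by
  intro A hA
  refine ⟨4, fun H X hH hX hXH T hT Φ => ?_⟩
  have hHr : (4 : ℝ) ≤ H := by exact_mod_cast hH
  have hH0 : (0 : ℝ) < H := by linarith
  have hX0 : (0 : ℝ) < X := by exact_mod_cast hX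
  have hXr : (X : ℝ) ≤ H := by exact_mod_cast hXH
  set u₀ : ℝ := (A + 3) * Real.log H with hu₀
  have hE0 : (16 : ℝ) * X ≤ Real.exp u₀ := by
    have h1 : Real.exp u₀ = (H : ℝ) ^ (A + 3) := by
      rw [hu₀, Real.rpow_def_of_pos hH0, mul_comm]
    have h2 : (H : ℝ) ^ (3 : ℝ) ≤ (H : ℝ) ^ (A + 3) :=
      Real.rpow_le_rpow_of_exponent_le (by linarith) (by linarith)
    have h3 : (H : ℝ) ^ (3 : ℝ) = (H : ℝ) ^ (3 : ℕ) := by
      rw [← Real.rpow_natCast]; norm_num
    rw [h1]
    have h4 : (16 : ℝ) * H ≤ (H : ℝ) ^ (3 : ℕ) := by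
      have h5 : (16 : ℝ) ≤ (H : ℝ) ^ 2 := by nlinarith
      calc (16 : ℝ) * H ≤ (H : ℝ) ^ 2 * H := mul_le_mul_of_nonneg_right h5 hH0.le
        _ = _ := by ring
    calc (16 : ℝ) * X ≤ 16 * H := by linarith
      _ ≤ _ := h4
      _ = _ := h3.symm
      _ ≤ _ := h2
  have hE : ∀ u, 16 * (X : ℝ) ≤ Real.exp (max u u₀) := fun u =>
    hE0.trans (Real.exp_le_exp.2 (le_max_right _ _))
  refine ⟨fun u => (chg T (bc X u₀ u) : ℤ), ?_, ?_, ?_⟩
  · intro u v huv
    exact Int.ofNat_le.2 (chg_mono T (bc_mono X u₀ huv))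
  · intro u
    have h1 := bc_gt hX u₀ u
    have h2 := bc_le hX u₀ (u + 1)
    have h3 := hE u
    have h4 : Real.exp (max (u + 1) u₀) ≤ 3 * Real.exp (max u u₀) := by
      have h5 : max (u + 1) u₀ ≤ 1 + max u u₀ := by
        refine max_le ?_ ?_
        · have := le_max_left u u₀
          linarith
        · have := le_max_right u u₀
          linarith
      refine (Real.exp_le_exp.2 h5).trans ?_
      rw [Real.exp_add]
      have := Real.exp_one_lt_three
      exact mul_le_mul_of_nonneg_right this.le (Real.exp_pos _).le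
    have h6 : 1 ≤ bc X u₀ u := by
      have : (0 : ℝ) < bc X u₀ u := by
        linarith
      exact_mod_cast this
    have h7 : bc X u₀ (u + 1) ≤ 4 * bc X u₀ u := by
      have : (bc X u₀ (u + 1) : ℝ) ≤ 4 * bc X u₀ u := by
        linarith
      exact_mod_cast this
    have h8 := chg_four hT h6 (bc_mono X u₀ (by linarith : u ≤ u + 1)) h7
    have h9 : (0 : ℝ) ≤ (H : ℝ) ^ A := by positivity
    push_cast
    linarith
  · intro u v huv
    have huv' : chg T (bc X u₀ u) = chg T (bc X u₀ v) := Int.ofNat_inj.1 huv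
    have key : T (bc X u₀ u) = T (bc X u₀ v) := by
      rcases le_total u v with h | h
      · exact (chg_eq T (bc_mono X u₀ h) huv').symm
      · exact chg_eq T (bc_mono X u₀ h) huv'.symm
    simp only [bc] at key
    simp only [key]

end

end Pool.Agent.SV
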