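import Mathlib
import Pool.Agent.Lib.SV.TFDefs

/-!
# Theorem TF (MP_663568_nt): row T0.  (helper19)
-/

set_option autoImplicit false
open Finset MeasureTheory

namespace Pool.Agent.SV

open Pool.Agent.Lib.MP_663568_nt Pool.Agent.Lib.MP_663568_nt.Katai
  Pool.Agent.Lib.MP_663568_nt.Nul

theorem t0 : T0_stmt := by
  intro l y b
  rw [zz, vv, norm_div, RCLike.norm_natCast]
  congr 1
  have e : ∑ m ∈ Ioc y (y + l), muC m * ee (b * m) =
      ee (b * y) * ∑ m ∈ Icc 1 l, muC (y + m) * ee (b * m) := by
    rw [mul_sum]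
    rw [show Ioc y (y + l) = (Icc 1 l).map (addLeftEmbedding y) by
      ext m
      simp only [mem_Ioc, mem_map, mem_Icc, addLeftEmbedding_apply]
      constructor
      · intro h; exact ⟨m - y, by omega, by omega⟩
      · rintro ⟨a, ha, rfl⟩; omega]
    rw [sum_map]
    refine sum_congr rfl fun m _ => ?_
    rw [addLeftEmbedding_apply]
    have : b * ((y + m : ℕ) : ℝ) = b * y + b * m := by push_cast; ring
    rw [this, ee_add]
    ring
  rw [e, norm_mul, norm_ee, one_mul]

end Pool.Agent.SV
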