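import Pool.Agent.Lib.SV.TFDefs

/-!
# Row T10 of theorem TF (MP_663568_nt)
-/

set_option autoImplicit false
open Finset MeasureTheory

namespace Pool.Agent.SV

open Pool.Agent.Lib.MP_663568_nt Pool.Agent.Lib.MP_663568_nt.Katai
  Pool.Agent.Lib.MP_663568_nt.Nul

namespace T10x

theorem ep_integral {α : Type*} [MeasurableSpace α] (μ : Measure α) (PP : Finset ℕ) (j : ℕ) :
    ∀ f : ℕ → α → ℝ, (∀ P, Integrable (f P) μ) →
    Integrable (fun x => EP PP j (fun P => f P x)) μ ∧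
      EP PP j (fun P => ∫ x, f P x ∂μ) = ∫ x, EP PP j (fun P => f P x) ∂μ := by
  induction j with
  | zero =>
    intro f hf
    exact ⟨hf 1, rfl⟩
  | succ j ih =>
    intro f hf
    have h1 : ∀ p, Integrable (fun x => EP PP j (fun P => f (p * P) x)) μ ∧
        EP PP j (fun P => ∫ x, f (p * P) x ∂μ) = ∫ x, EP PP j (fun P => f (p * P) x) ∂μ :=
      fun p => ih (fun P => f (p * P)) fun P => hf _
    refine ⟨?_, ?_⟩
    · exact integrable_finsetSum _ fun p _ => (h1 p).1.const_mul _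
    · show ∑ p ∈ PP, wt PP p * EP PP j (fun P => ∫ x, f (p * P) x ∂μ) =
        ∫ x, ∑ p ∈ PP, wt PP p * EP PP j (fun P => f (p * P) x) ∂μ
      rw [integral_finsetSum _ fun p _ => (h1 p).1.const_mul _]
      refine Finset.sum_congr rfl fun p _ => ?_
      rw [(h1 p).2, integral_const_mul]

end T10x

theorem t10 : T10_stmt := by
  intro T9 T7 EPC κ₁ κ₂ ε j hκ₁ hκ hε hj
  obtain ⟨i, rfl⟩ : ∃ i, j = i + 1 := ⟨j - 1, by omega⟩
  obtain ⟨c9, C9, hc9, hC9, H9, h9⟩ := T9 κ₁ κ₂ (ε / 2) hκ₁ hκ (by positivity)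
  set c1 : ℝ := ε / 2 * c9 with hc1
  have hc1p : 0 < c1 := by positivity
  obtain ⟨Q, C7, hQ, hC7, H7, h7⟩ := T7 κ₁ κ₂ (c1 / 2) i hκ₁ hκ (by positivity)
  have hQ0 : (0 : ℝ) < Q := by exact_mod_cast hQ
  -- large H
  obtain ⟨HL, hHL⟩ : ∃ HL : ℕ, ∀ H : ℕ, HL ≤ H → C7 * C9 + 1 ≤ (H : ℝ) ^ (κ₁ / 2) := by
    have := (tendsto_rpow_atTop (show 0 < κ₁ / 2 by positivity)).comp
      (tendsto_natCast_atTop_atTop (R := ℝ))
    obtain ⟨N, hN⟩ := (this.eventually_ge_atTop (C7 * C9 + 1)).exists_forall_of_atTop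
    exact ⟨N, fun H hH => hN H hH⟩
  refine ⟨Q, c1 / (4 * Q), hQ, by positivity, max (max H9 H7) (max HL 1), ?_⟩
  intro H hH hLs s r hr W θ hW hθ hW0 hW1 hbig
  have hH9 : H9 ≤ H := le_trans (le_trans (le_max_left _ _) (le_max_left _ _)) hH
  have hH7 : H7 ≤ H := le_trans (le_trans (le_max_right _ _) (le_max_left _ _)) hH
  have hHL' : HL ≤ H := le_trans (le_trans (le_max_left _ _) (le_max_right _ _)) hH
  have hH1 : 1 ≤ H := le_trans (le_trans (le_max_right _ _) (le_max_right _ _)) hH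
  have hHr : (1 : ℝ) ≤ H := by exact_mod_cast hH1
  have hH0 : (0 : ℝ) < H := by linarith
  set PP := PPs H κ₁ κ₂ with hPP
  obtain ⟨e1, e2, e3, e4, e5, -⟩ := EPC PP hLs
  have hmono : ∀ (j : ℕ) (F G : ℕ → ℝ), (∀ P, F P ≤ G P) → EP PP j F ≤ EP PP j G :=
    fun j F G h => e4 j F G fun L _ _ => h _
  set ρ : ℝ := C9 * (H : ℝ) ^ (-κ₁) with hρ
  have hρ0 : 0 ≤ ρ := by positivity
  have hpow : (H : ℝ) ^ (-κ₁) = (H : ℝ) ^ (-(κ₁ / 2)) * (H : ℝ) ^ (-(κ₁ / 2)) := by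
    rw [← Real.rpow_add hH0]
    congr 1
    ring
  have hinv : (H : ℝ) ^ (-(κ₁ / 2)) * (H : ℝ) ^ (κ₁ / 2) = 1 := by
    rw [← Real.rpow_add hH0]
    simp
  have hbigH := hHL H hHL'
  have hy0 : 0 < (H : ℝ) ^ (-(κ₁ / 2)) := Real.rpow_pos_of_pos hH0 _
  have hy1 : (H : ℝ) ^ (-(κ₁ / 2)) ≤ 1 :=
    Real.rpow_le_one_of_one_le_of_nonpos hHr (by linarith)
  have hCρ : C7 * ρ ≤ (H : ℝ) ^ (-(κ₁ / 2)) := by
    have h1 : C7 * C9 * (H : ℝ) ^ (-(κ₁ / 2)) ≤ 1 := by
      calc C7 * C9 * (H : ℝ) ^ (-(κ₁ / 2)) ≤ (H : ℝ) ^ (κ₁ / 2) * (H : ℝ) ^ (-(κ₁ / 2)) :=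
            mul_le_mul_of_nonneg_right (by linarith) hy0.le
        _ = 1 := by rw [mul_comm]; exact hinv
    calc C7 * ρ = (C7 * C9 * (H : ℝ) ^ (-(κ₁ / 2))) * (H : ℝ) ^ (-(κ₁ / 2)) := by
          rw [hρ, hpow]; ring
      _ ≤ 1 * (H : ℝ) ^ (-(κ₁ / 2)) := mul_le_mul_of_nonneg_right h1 hy0.le
      _ = _ := one_mul _
  have hρ7 : ρ ≤ 1 / C7 := by
    rw [le_div_iff₀ (by linarith), mul_comm]
    linarith
  -- the measure
  have hsr : s ≤ s + r := by linarith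
  set μ : Measure ℝ := volume.restrict (Set.Ioc s (s + r)) with hμ
  have hfin : IsFiniteMeasure μ :=
    ⟨by rw [hμ, Measure.restrict_apply_univ, Real.volume_Ioc]; exact ENNReal.ofReal_lt_top⟩
  have hμr : μ.real Set.univ = r := by
    rw [Measure.real, hμ, Measure.restrict_apply_univ, Real.volume_Ioc, add_sub_cancel_left,
      ENNReal.toReal_ofReal hr.le]
  -- the functions on the square
  have hnd : ∀ t : ℝ, ∀ c : ℝ, MeasurableSet {z : ℝ × ℝ | nd (t * (θ z.1 - θ z.2)) ≤ c} := by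
    intro t c
    exact measurableSet_le (continuous_nd.measurable.comp
      (((hθ.comp measurable_fst).sub (hθ.comp measurable_snd)).const_mul t)) measurable_const
  have hmeas : ∀ t c : ℝ, Measurable fun z : ℝ × ℝ => W z.1 * W z.2 *
      (if nd (t * (θ z.1 - θ z.2)) ≤ c then (1 : ℝ) else 0) := fun t c =>
    ((hW.comp measurable_fst).mul (hW.comp measurable_snd)).mul
      (Measurable.ite (hnd t c) measurable_const measurable_const)
  have hWW : ∀ z : ℝ × ℝ, 0 ≤ W z.1 * W z.2 ∧ W z.1 * W z.2 ≤ 1 := fun z =>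
    ⟨mul_nonneg (hW0 _) (hW0 _), by
      calc W z.1 * W z.2 ≤ 1 * 1 := mul_le_mul (hW1 _) (hW1 _) (hW0 _) zero_le_one
        _ = 1 := one_mul 1⟩
  have hite : ∀ p : Prop, ∀ _ : Decidable p, 0 ≤ (if p then (1 : ℝ) else 0) ∧
      (if p then (1 : ℝ) else 0) ≤ 1 := by
    intro p _
    split_ifs <;> norm_num
  have hint : ∀ t c : ℝ, Integrable (fun z : ℝ × ℝ => W z.1 * W z.2 *
      (if nd (t * (θ z.1 - θ z.2)) ≤ c then (1 : ℝ) else 0)) (μ.prod μ) := by
    intro t c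
    refine Integrable.of_bound (C := 1) (hmeas t c).aestronglyMeasurable
      (Filter.Eventually.of_forall fun z => ?_)
    have h1 := hite (nd (t * (θ z.1 - θ z.2)) ≤ c) inferInstance
    rw [Real.norm_of_nonneg (mul_nonneg (hWW z).1 h1.1)]
    calc _ ≤ 1 * 1 := mul_le_mul (hWW z).2 h1.2 h1.1 zero_le_one
      _ = 1 := one_mul 1
  have hprod : ∀ t c : ℝ, (∫ x in s..(s + r), ∫ y in s..(s + r), W x * W y *
      (if nd (t * (θ x - θ y)) ≤ c then (1 : ℝ) else 0)) = ∫ z, W z.1 * W z.2 *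
      (if nd (t * (θ z.1 - θ z.2)) ≤ c then (1 : ℝ) else 0) ∂(μ.prod μ) := by
    intro t c
    rw [integral_prod _ (hint t c), intervalIntegral.integral_of_le hsr]
    refine integral_congr_ae (Filter.Eventually.of_forall fun x => ?_)
    simp only
    rw [intervalIntegral.integral_of_le hsr]
  -- the inner average
  set G : ℕ → ℝ := fun P => ∑ p ∈ PP, wt PP p *
    ‖∫ x in s..(s + r), (W x : ℂ) * ee ((p : ℝ) * ((P : ℝ) * θ x))‖ with hG
  have hEG : EP PP (i + 1) (fun P => ‖∫ x in s..(s + r), (W x : ℂ) * ee ((P : ℝ) * θ x)‖) =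
      EP PP i G := by
    rw [e5 i 1]
    congr 1
    funext P
    show ∑ p ∈ PP, wt PP p * ‖∫ x in s..(s + r), (W x : ℂ) *
      ee (((P * (p * 1) : ℕ) : ℝ) * θ x)‖ = G P
    simp only [hG]
    refine Finset.sum_congr rfl fun p _ => ?_
    congr 4
    funext x
    congr 2
    push_cast
    ring
  have hwt0 : ∀ p, 0 ≤ wt PP p := fun p => by
    unfold wt
    have : 0 ≤ Ls PP := by linarith
    positivity
  have hwt1 : ∑ p ∈ PP, wt PP p = 1 := by
    have := e1 1 1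
    simpa [EP] using this
  have hGr : ∀ P, G P ≤ r := by
    intro P
    calc G P ≤ ∑ p ∈ PP, wt PP p * r := by
          refine Finset.sum_le_sum fun p _ => mul_le_mul_of_nonneg_left ?_ (hwt0 p)
          have := intervalIntegral.norm_integral_le_of_norm_le_const (a := s) (b := s + r)
            (C := 1) (f := fun x => (W x : ℂ) * ee ((p : ℝ) * ((P : ℝ) * θ x))) (fun x _ => by
              rw [norm_mul, norm_ee, mul_one, Complex.norm_real, Real.norm_of_nonneg (hW0 x)]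
              exact hW1 x)
          rwa [one_mul, add_sub_cancel_left, abs_of_pos hr] at this
      _ = r := by rw [← Finset.sum_mul, hwt1, one_mul]
  have hG0 : ∀ P, 0 ≤ G P := fun P =>
    Finset.sum_nonneg fun p _ => mul_nonneg (hwt0 p) (norm_nonneg _)
  rw [hEG] at hbig
  -- step 1
  have s1 : ε / 2 ≤ EP PP i (fun P => if ε / 2 * r ≤ G P then (1 : ℝ) else 0) := by
    have h1 : EP PP i G ≤ EP PP i (fun P => ε / 2 * r + r * (if ε / 2 * r ≤ G P then 1 else 0)) := by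
      refine hmono _ _ _ fun P => ?_
      split_ifs with h
      · have := hGr P
        have : 0 ≤ ε / 2 * r := by positivity
        linarith
      · push Not at h
        linarith
    rw [e2 i (fun _ => ε / 2 * r) (fun P => r * (if ε / 2 * r ≤ G P then 1 else 0)), e1,
      e3] at h1
    have h2 : ε * r - ε / 2 * r ≤ r * EP PP i (fun P => if ε / 2 * r ≤ G P then (1 : ℝ) else 0) := by
      linarith
    have h3 : r * (ε / 2) ≤ r * EP PP i (fun P => if ε / 2 * r ≤ G P then (1 : ℝ) else 0) := by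
      linarith
    exact le_of_mul_le_mul_left h3 hr
  -- step 2
  have s2 : ∀ P, c9 * r ^ 2 * (if ε / 2 * r ≤ G P then (1 : ℝ) else 0) ≤
      ∫ z, W z.1 * W z.2 * (if nd ((P : ℝ) * (θ z.1 - θ z.2)) ≤ ρ then (1 : ℝ) else 0)
        ∂(μ.prod μ) := by
    intro P
    split_ifs with h
    · have := h9 H hH9 hLs s r hr W (fun x => (P : ℝ) * θ x) hW (hθ.const_mul _) hW0 hW1 h
      rw [mul_one]
      refine le_trans this (le_of_eq ?_)
      rw [← hprod]
      simp only [mul_sub]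
      rfl
    · rw [mul_zero]
      refine integral_nonneg fun z => ?_
      exact mul_nonneg (hWW z).1 (hite _ inferInstance).1
  have s3 : c1 * r ^ 2 ≤ ∫ z, EP PP i (fun P => W z.1 * W z.2 *
      (if nd ((P : ℝ) * (θ z.1 - θ z.2)) ≤ ρ then (1 : ℝ) else 0)) ∂(μ.prod μ) := by
    rw [← (T10x.ep_integral (μ.prod μ) PP i (fun P z => W z.1 * W z.2 *
      (if nd ((P : ℝ) * (θ z.1 - θ z.2)) ≤ ρ then (1 : ℝ) else 0)) (fun P => hint P ρ)).2]
    refine le_trans ?_ (hmono _ _ _ s2)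
    rw [e3]
    calc c1 * r ^ 2 = c9 * r ^ 2 * (ε / 2) := by rw [hc1]; ring
      _ ≤ _ := mul_le_mul_of_nonneg_left s1 (by positivity)
  -- step 3: Vinogradov
  set y₀ : ℝ := (H : ℝ) ^ (-(κ₁ / 2)) with hy₀
  have s4 : ∀ z : ℝ × ℝ, EP PP i (fun P => W z.1 * W z.2 *
      (if nd ((P : ℝ) * (θ z.1 - θ z.2)) ≤ ρ then (1 : ℝ) else 0)) ≤
      c1 / 2 + ∑ q ∈ Icc 1 Q, W z.1 * W z.2 *
        (if nd ((q : ℝ) * (θ z.1 - θ z.2)) ≤ y₀ then (1 : ℝ) else 0) := by
    intro z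
    rw [e3]
    set E := EP PP i (fun P => if nd ((P : ℝ) * (θ z.1 - θ z.2)) ≤ ρ then (1 : ℝ) else 0) with hE
    have hE1 : E ≤ 1 := by
      calc E ≤ EP PP i (fun _ => 1) := hmono _ _ _ fun P => (hite _ inferInstance).2
        _ = 1 := e1 i 1
    have hE0 : 0 ≤ E := by
      calc (0 : ℝ) = EP PP i (fun _ => 0) := (e1 i 0).symm
        _ ≤ E := hmono _ _ _ fun P => (hite _ inferInstance).1
    rcases lt_or_ge E (c1 / 2) with h | h
    · have h1 : W z.1 * W z.2 * E ≤ 1 * (c1 / 2) :=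
        mul_le_mul (hWW z).2 h.le hE0 zero_le_one
      have h2 : 0 ≤ ∑ q ∈ Icc 1 Q, W z.1 * W z.2 *
        (if nd ((q : ℝ) * (θ z.1 - θ z.2)) ≤ y₀ then (1 : ℝ) else 0) :=
        Finset.sum_nonneg fun q _ => mul_nonneg (hWW z).1 (hite _ inferInstance).1
      linarith
    · obtain ⟨q, hq1, hq2, hq3⟩ := h7 H hH7 hLs (θ z.1 - θ z.2) ρ hρ0 hρ7 h
      have h1 : W z.1 * W z.2 * E ≤ W z.1 * W z.2 * 1 :=
        mul_le_mul_of_nonneg_left hE1 (hWW z).1
      have h2 : W z.1 * W z.2 * 1 ≤ ∑ q ∈ Icc 1 Q, W z.1 * W z.2 *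
        (if nd ((q : ℝ) * (θ z.1 - θ z.2)) ≤ y₀ then (1 : ℝ) else 0) := by
        have h3 := Finset.single_le_sum (f := fun q : ℕ => W z.1 * W z.2 *
          (if nd ((q : ℝ) * (θ z.1 - θ z.2)) ≤ y₀ then (1 : ℝ) else 0))
          (fun q _ => mul_nonneg (hWW z).1 (hite _ inferInstance).1)
          (Finset.mem_Icc.mpr ⟨hq1, hq2⟩)
        rwa [if_pos (hq3.trans hCρ)] at h3
      have : 0 < c1 / 2 := by positivity
      linarith
  have hmass : (μ.prod μ).real Set.univ = r ^ 2 := by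
    rw [← Set.univ_prod_univ, measureReal_prod_prod, hμr]
    ring
  have s5 : c1 * r ^ 2 ≤ c1 / 2 * r ^ 2 + ∑ q ∈ Icc 1 Q, ∫ z, W z.1 * W z.2 *
      (if nd ((q : ℝ) * (θ z.1 - θ z.2)) ≤ y₀ then (1 : ℝ) else 0) ∂(μ.prod μ) := by
    refine le_trans s3 ?_
    have hi1 := (T10x.ep_integral (μ.prod μ) PP i (fun P z => W z.1 * W z.2 *
      (if nd ((P : ℝ) * (θ z.1 - θ z.2)) ≤ ρ then (1 : ℝ) else 0)) (fun P => hint P ρ)).1
    have hi2 : Integrable (fun z : ℝ × ℝ => ∑ q ∈ Icc 1 Q, W z.1 * W z.2 *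
        (if nd ((q : ℝ) * (θ z.1 - θ z.2)) ≤ y₀ then (1 : ℝ) else 0)) (μ.prod μ) :=
      integrable_finsetSum _ fun q _ => hint q y₀
    calc _ ≤ ∫ z, (c1 / 2 + ∑ q ∈ Icc 1 Q, W z.1 * W z.2 *
        (if nd ((q : ℝ) * (θ z.1 - θ z.2)) ≤ y₀ then (1 : ℝ) else 0)) ∂(μ.prod μ) :=
          integral_mono hi1 ((integrable_const _).add hi2) s4
      _ = _ := by
          have h9 := integral_finsetSum (μ := μ.prod μ) (Icc 1 Q)
            (f := fun (q : ℕ) (z : ℝ × ℝ) => W z.1 * W z.2 *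
              (if nd ((q : ℝ) * (θ z.1 - θ z.2)) ≤ y₀ then (1 : ℝ) else 0))
            fun q _ => hint q y₀
          rw [integral_add (integrable_const _) hi2, integral_const, hmass, smul_eq_mul, h9]
          ring
  have s6 : ∃ q ∈ Icc 1 Q, c1 / (2 * Q) * r ^ 2 ≤ ∫ z, W z.1 * W z.2 *
      (if nd ((q : ℝ) * (θ z.1 - θ z.2)) ≤ y₀ then (1 : ℝ) else 0) ∂(μ.prod μ) := by
    by_contra hcon
    push Not at hcon
    have h1 : ∑ q ∈ Icc 1 Q, ∫ z, W z.1 * W z.2 *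
      (if nd ((q : ℝ) * (θ z.1 - θ z.2)) ≤ y₀ then (1 : ℝ) else 0) ∂(μ.prod μ) <
        ∑ _q ∈ Icc 1 Q, c1 / (2 * Q) * r ^ 2 :=
      Finset.sum_lt_sum_of_nonempty ⟨1, Finset.mem_Icc.mpr ⟨le_rfl, hQ⟩⟩ hcon
    rw [Finset.sum_const, Nat.card_Icc, nsmul_eq_mul, Nat.add_sub_cancel] at h1
    have h2 : (Q : ℝ) * (c1 / (2 * Q) * r ^ 2) = c1 / 2 * r ^ 2 := by
      field_simp
    rw [h2] at h1
    linarith
  obtain ⟨q, hq, hq2⟩ := s6
  obtain ⟨hq1, hqQ⟩ := Finset.mem_Icc.mp hq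
  refine ⟨q, hq1, hqQ, ?_⟩
  by_contra hcon
  push Not at hcon
  rw [← hprod, intervalIntegral.integral_of_le hsr] at hq2
  have h1 : ∫ x in Set.Ioc s (s + r), (∫ y in s..(s + r), W x * W y *
      (if nd ((q : ℝ) * (θ x - θ y)) ≤ y₀ then (1 : ℝ) else 0)) ≤
      ∫ _x in Set.Ioc s (s + r), c1 / (4 * Q) * r := by
    have hi : Integrable (fun x => ∫ y in s..(s + r), W x * W y *
      (if nd ((q : ℝ) * (θ x - θ y)) ≤ y₀ then (1 : ℝ) else 0)) μ := by
      have := (hint q y₀).integral_prod_left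
      refine this.congr (Filter.Eventually.of_forall fun x => ?_)
      simp only
      rw [intervalIntegral.integral_of_le hsr]
    refine setIntegral_mono_on hi (integrable_const _) measurableSet_Ioc fun x hx => ?_
    have h2 := hcon x ⟨hx.1.le, hx.2⟩
    have h3 : (∫ y in s..(s + r), W x * W y *
        (if nd ((q : ℝ) * (θ x - θ y)) ≤ y₀ then (1 : ℝ) else 0)) = W x *
        ∫ y in s..(s + r), W y * (if nd ((q : ℝ) * (θ y - θ x)) ≤ y₀ then (1 : ℝ) else 0) := by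
      rw [← intervalIntegral.integral_const_mul]
      refine intervalIntegral.integral_congr fun y _ => ?_
      have h4 : nd ((q : ℝ) * (θ x - θ y)) = nd ((q : ℝ) * (θ y - θ x)) := by
        rw [← nd_neg]
        congr 1
        ring
      rw [h4]
      ring
    rw [h3]
    have h5 : 0 ≤ ∫ y in s..(s + r), W y *
        (if nd ((q : ℝ) * (θ y - θ x)) ≤ y₀ then (1 : ℝ) else 0) :=
      intervalIntegral.integral_nonneg hsr fun y _ =>
        mul_nonneg (hW0 y) (hite _ inferInstance).1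
    calc _ ≤ 1 * (c1 / (4 * Q) * r) := mul_le_mul (hW1 x) h2.le h5 zero_le_one
      _ = _ := one_mul _
  rw [setIntegral_const, Measure.real, Real.volume_Ioc, add_sub_cancel_left,
    ENNReal.toReal_ofReal hr.le, smul_eq_mul] at h1
  have h6 : c1 / (2 * Q) * r ^ 2 ≤ r * (c1 / (4 * Q) * r) := le_trans hq2 h1
  have h7 : r * (c1 / (4 * Q) * r) = c1 / (2 * Q) * r ^ 2 / 2 := by
    field_simp
    ring
  have h8 : 0 < c1 / (2 * Q) * r ^ 2 := by positivity
  linarith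

end Pool.Agent.SV
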