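import Pool.Agent.Lib.SV.TFDefs

/-! Row T11 of Theorem TF: equidistribution over a window of scales. -/

set_option autoImplicit false
open Finset MeasureTheory

namespace Pool.Agent.SV

open Pool.Agent.Lib.MP_663568_nt Pool.Agent.Lib.MP_663568_nt.Katai
  Pool.Agent.Lib.MP_663568_nt.Nul

namespace T11x

lemma stp_meas {A : ℝ → ℂ} {K : ℝ} (h : Stp A K) : Measurable A := by
  classical
  obtain ⟨st, hm, -, hc⟩ := h
  let g : ℤ → ℂ := fun n ↦ if h : ∃ u, st u = n then A h.choose else 0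
  have hA : A = g ∘ st := by
    ext u
    have hu : ∃ v, st v = st u := ⟨u, rfl⟩
    simp only [g, Function.comp]
    rw [dif_pos hu]
    exact (hc _ _ hu.choose_spec).symm
  rw [hA]
  exact (measurable_of_countable g).comp hm.measurable

lemma grow_nat {st : ℝ → ℤ} {K : ℝ} (hg : ∀ u : ℝ, (st (u + 1) : ℝ) ≤ st u + K) (u : ℝ) (n : ℕ) :
    (st (u + n) : ℝ) ≤ st u + K * n := by
  induction n with
  | zero => simp
  | succ n ih =>
    have h1 := hg (u + n)
    have h2 : u + ((n + 1 : ℕ) : ℝ) = u + n + 1 := by push_cast; ring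
    rw [h2]
    push_cast
    linarith

lemma grow {st : ℝ → ℤ} {K : ℝ} (hK : 0 ≤ K) (hm : Monotone st)
    (hg : ∀ u : ℝ, (st (u + 1) : ℝ) ≤ st u + K) (u y : ℝ) (hy : 0 ≤ y) :
    (st (u + y) : ℝ) ≤ st u + K * (y + 1) := by
  have h1 : (st (u + y) : ℝ) ≤ st (u + ⌈y⌉₊) := by
    exact_mod_cast hm (by linarith [Nat.le_ceil y])
  have h2 := grow_nat hg u ⌈y⌉₊
  have h3 : ((⌈y⌉₊ : ℕ) : ℝ) ≤ y + 1 := (Nat.ceil_lt_add_one hy).le
  nlinarith

lemma ext_int {E : Type} [NormedAddCommGroup E] [NormedSpace ℝ E] (g : ℝ → E) {a b ta tb : ℝ}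
    (h1 : a ≤ ta) (h2 : ta ≤ tb) (h3 : tb ≤ b) :
    ∫ x in a..b, (Set.Icc ta tb).indicator g x = ∫ x in ta..tb, g x := by
  rw [intervalIntegral.integral_of_le (by linarith), intervalIntegral.integral_of_le h2,
    setIntegral_indicator measurableSet_Icc]
  refine setIntegral_congr_set ?_
  have e1 : (Set.Ioc a b ∩ Set.Icc ta tb : Set ℝ) =ᵐ[volume] (Set.Icc a b ∩ Set.Icc ta tb : Set ℝ) :=
    Filter.EventuallyEq.inter Ioc_ae_eq_Icc (Filter.EventuallyEq.refl _ _)
  have e2 : (Set.Icc a b ∩ Set.Icc ta tb : Set ℝ) = Set.Icc ta tb :=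
    Set.inter_eq_right.mpr (Set.Icc_subset_Icc h1 h3)
  rw [e2] at e1
  exact e1.trans Ioc_ae_eq_Icc.symm

lemma ii_bdd {E : Type} [NormedAddCommGroup E] {f : ℝ → E} {C : ℝ}
    (hm : AEStronglyMeasurable f volume) (hb : ∀ x, ‖f x‖ ≤ C) (a b : ℝ) :
    IntervalIntegrable f volume a b := by
  have hc : IntervalIntegrable (fun _ : ℝ ↦ C) volume a b := intervalIntegrable_const
  exact hc.mono_fun' hm.restrict (Filter.Eventually.of_forall hb)

lemma EP_sum {PP : Finset ℕ} (hL : 1 ≤ Ls PP) (h : EPC_stmt) (j : ℕ) {ι : Type} (S : Finset ι)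
    (F : ι → ℕ → ℝ) : EP PP j (fun P ↦ ∑ i ∈ S, F i P) = ∑ i ∈ S, EP PP j (F i) := by
  classical
  obtain ⟨h0, hadd, -⟩ := h PP hL
  induction S using Finset.induction_on with
  | empty =>
    simp only [sum_empty]
    exact h0 j 0
  | insert a S ha ih =>
    rw [sum_insert ha, ← ih, ← hadd]
    congr 1
    ext P
    rw [sum_insert ha]

lemma EP_mono {PP : Finset ℕ} (hL : 1 ≤ Ls PP) (h : EPC_stmt) (j : ℕ) {F G : ℕ → ℝ}
    (hFG : ∀ P, F P ≤ G P) : EP PP j F ≤ EP PP j G := by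
  obtain ⟨-, -, -, hm, -⟩ := h PP hL
  exact hm j F G fun L _ _ ↦ hFG _

lemma nd_meas : Measurable nd := continuous_nd.measurable

end T11x

open T11x in
theorem t11 : T11_stmt := by
  classical
  intro h10 hEPC κ₁ κ₂ ε j Kf hκ₁ hκ₁₂ hε hj
  obtain ⟨Q₀, c, hQ₀, hc, H₀, h10'⟩ := h10 κ₁ κ₂ (ε / 6) j hκ₁ hκ₁₂ (by positivity) hj
  set ε₁ : ℝ := min 1 (ε / (2 * (4 + Q₀ / c))) with hε₁
  have hε₁0 : 0 < ε₁ := lt_min one_pos (by positivity)
  have hε₁1 : ε₁ ≤ 1 := min_le_left _ _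
  have hε₁2 : (4 + Q₀ / c) * ε₁ ≤ ε / 2 := by
    have h1 : ε₁ ≤ ε / (2 * (4 + Q₀ / c)) := min_le_right _ _
    rw [le_div_iff₀ (by positivity)] at h1
    linarith
  refine ⟨Q₀ * (Kf + 1), ε₁, Nat.mul_pos hQ₀ (by omega), hε₁0, H₀, ?_⟩
  intro H hH hLs r ta tb Λ K hr htab hΛ hΛ1 hK hrK W θ A hW hθ hW0 hW1 hStp hA hconc k hk0 hkK
  have hAm : Measurable A := stp_meas hStp
  obtain ⟨st, hmono, hgrow, hconst⟩ := hStp
  have hr1 : r ≤ 1 := by nlinarith
  set PP := PPs H κ₁ κ₂ with hPP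
  set ρ : ℝ := (H : ℝ) ^ (-(κ₁ / 2)) with hρ
  -- the grid
  set i₀ : ℤ := ⌊ta / r⌋ with hi₀
  set i₁ : ℤ := ⌊tb / r⌋ with hi₁
  have hi : i₀ ≤ i₁ := Int.floor_le_floor (by gcongr)
  set n : ℕ := (i₁ + 1 - i₀).toNat with hn
  have hnZ : (n : ℤ) = i₁ + 1 - i₀ := by rw [hn, Int.toNat_of_nonneg (by omega)]
  have hnR : (n : ℝ) = i₁ + 1 - i₀ := by exact_mod_cast hnZ
  set a : ℕ → ℝ := fun m ↦ ((i₀ : ℝ) + m) * r with ha
  have ha0 : a 0 ≤ ta := by
    have : (i₀ : ℝ) ≤ ta / r := Int.floor_le _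
    rw [le_div_iff₀ hr] at this
    simpa [ha] using this
  have han : tb ≤ a n := by
    have : tb / r < i₁ + 1 := Int.lt_floor_add_one _
    rw [div_lt_iff₀ hr] at this
    have h2 : a n = ((i₁ : ℝ) + 1) * r := by simp only [ha]; rw [hnR]; ring
    rw [h2]; exact this.le
  have hlen : (n : ℝ) * r ≤ tb - ta + 2 * r := by
    have h1 : (i₁ : ℝ) ≤ tb / r := Int.floor_le _
    rw [le_div_iff₀ hr] at h1
    have h2 : ta / r < i₀ + 1 := Int.lt_floor_add_one _
    rw [div_lt_iff₀ hr] at h2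
    rw [hnR]
    nlinarith
  have hlen3 : (n : ℝ) * r ≤ 3 * Λ := by nlinarith
  have hstep : ∀ m, a (m + 1) = a m + r := by
    intro m; simp only [ha]; push_cast; ring
  have hle : ∀ m, a m ≤ a (m + 1) := fun m ↦ by rw [hstep]; linarith
  have han0 : a n - a 0 = n * r := by simp only [ha]; push_cast; ring
  -- the weight
  set W₁ : ℝ → ℝ := (Set.Icc ta tb).indicator W with hW₁
  have hW₁m : Measurable W₁ := hW.indicator measurableSet_Icc
  have hW₁0 : ∀ x, 0 ≤ W₁ x := fun x ↦ Set.indicator_nonneg (fun y _ ↦ hW0 y) x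
  have hW₁1 : ∀ x, W₁ x ≤ 1 := by
    intro x
    simp only [hW₁, Set.indicator]
    split_ifs
    · exact hW1 x
    · norm_num
  have hW₁n : ∀ x, ‖(W₁ x : ℂ)‖ ≤ 1 := by
    intro x
    rw [Complex.norm_real, Real.norm_of_nonneg (hW₁0 x)]
    exact hW₁1 x
  have heem : ∀ (g : ℝ → ℝ), Measurable g → Measurable fun x ↦ ee (g x) := fun g hg ↦
    continuous_ee.measurable.comp hg
  -- the pieces
  set Nm : ℕ → ℕ → ℝ := fun m P ↦
    ‖∫ x in a m..(a m + r), (W₁ x : ℂ) * ee ((P : ℝ) * (k * θ x))‖ with hNm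
  have hNm_le : ∀ m P, Nm m P ≤ r := by
    intro m P
    simp only [hNm]
    have := intervalIntegral.norm_integral_le_of_norm_le_const (a := a m) (b := a m + r) (C := 1)
      (f := fun x ↦ (W₁ x : ℂ) * ee ((P : ℝ) * (k * θ x))) (fun x _ ↦ by
        rw [norm_mul, norm_ee, mul_one]; exact hW₁n x)
    simpa [abs_of_pos hr] using this
  -- the bound for one `P`
  have hone : ∀ P : ℕ, ‖∫ x in ta..tb, (W x : ℂ) * A (x - Real.log P) *
      ee (k * ((P : ℝ) * θ x))‖ ≤ (∑ m ∈ range n, Nm m P) + 4 * ε₁ * Λ := by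
    intro P
    set L := Real.log P with hL
    set F : ℝ → ℂ := fun x ↦ (W₁ x : ℂ) * A (x - L) * ee (k * ((P : ℝ) * θ x)) with hF
    have e1 : ∫ x in ta..tb, (W x : ℂ) * A (x - L) * ee (k * ((P : ℝ) * θ x)) =
        ∫ x in a 0..a n, F x := by
      rw [← ext_int _ ha0 htab han]
      congr 1
      ext x
      simp only [hF, hW₁, Set.indicator]
      split_ifs
      · rfl
      · simp
    have hFm : Measurable F := by
      refine Measurable.mul (Measurable.mul ?_ ?_) ?_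
      · exact Complex.measurable_ofReal.comp hW₁m
      · exact hAm.comp (measurable_id.sub_const L)
      · exact heem _ (((hθ.const_mul _)).const_mul _)
    have hFb : ∀ x, ‖F x‖ ≤ 1 := by
      intro x
      simp only [hF]
      rw [norm_mul, norm_mul, norm_ee, mul_one]
      calc _ ≤ (1 : ℝ) * 1 := mul_le_mul (hW₁n x) (hA _) (norm_nonneg _) zero_le_one
        _ = 1 := one_mul 1
    rw [e1, ← intervalIntegral.sum_integral_adjacent_intervals (a := a) (n := n)
      (fun m _ ↦ ii_bdd hFm.aestronglyMeasurable hFb _ _)]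
    have hpiece : ∀ m ∈ range n, ‖∫ x in a m..a (m + 1), F x‖ ≤ Nm m P +
        r * ((st (a (m + 1) - L) : ℝ) - st (a m - L)) := by
      intro m _
      by_cases hst : st (a m - L) = st (a (m + 1) - L)
      · have e2 : ∫ x in a m..a (m + 1), F x =
            ∫ x in a m..(a m + r), A (a m - L) * ((W₁ x : ℂ) * ee ((P : ℝ) * (k * θ x))) := by
          rw [hstep m]
          refine intervalIntegral.integral_congr fun x hx ↦ ?_
          rw [Set.uIcc_of_le (by linarith)] at hx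
          have h1 : st (a m - L) ≤ st (x - L) := hmono (by linarith [hx.1])
          have h2 : st (x - L) ≤ st (a (m + 1) - L) := hmono (by rw [hstep]; linarith [hx.2])
          have h3 : st (x - L) = st (a m - L) := le_antisymm (by rw [hst]; exact h2) h1
          simp only [hF]
          rw [hconst _ _ h3]
          have h4 : (k : ℝ) * ((P : ℝ) * θ x) = (P : ℝ) * (k * θ x) := by ring
          rw [h4]
          ring
        rw [e2, intervalIntegral.integral_const_mul, norm_mul, hst, sub_self, mul_zero, add_zero]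
        calc _ ≤ 1 * Nm m P := mul_le_mul_of_nonneg_right (hA _) (norm_nonneg _)
          _ = Nm m P := one_mul _
      · have h1 : st (a m - L) + 1 ≤ st (a (m + 1) - L) :=
          lt_of_le_of_ne (hmono (by linarith [hle m])) hst
        have h2 : (1 : ℝ) ≤ (st (a (m + 1) - L) : ℝ) - st (a m - L) := by
          have : ((st (a m - L) + 1 : ℤ) : ℝ) ≤ st (a (m + 1) - L) := by exact_mod_cast h1
          push_cast at this
          linarith
        have h3 := intervalIntegral.norm_integral_le_of_norm_le_const (a := a m) (b := a (m + 1))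
          (C := 1) (f := F) (fun x _ ↦ hFb x)
        rw [hstep m, add_sub_cancel_left, abs_of_pos hr, one_mul] at h3
        have h4 : 0 ≤ Nm m P := norm_nonneg _
        rw [hstep m] at h2 ⊢
        nlinarith
    refine (norm_sum_le _ _).trans ((sum_le_sum hpiece).trans ?_)
    rw [sum_add_distrib, ← mul_sum, sum_range_sub (fun m ↦ ((st (a m - L) : ℤ) : ℝ)) n]
    have h5 : (st (a n - L) : ℝ) ≤ st (a 0 - L) + K * (n * r + 1) := by
      have := grow (by linarith) hmono hgrow (a 0 - L) (n * r) (by positivity)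
      have e3 : a 0 - L + n * r = a n - L := by linarith [han0]
      rwa [e3] at this
    have h6 : r * ((st (a n - L) : ℝ) - st (a 0 - L)) ≤ 4 * ε₁ * Λ := by
      calc _ ≤ r * (K * (n * r + 1)) := by gcongr; linarith
        _ = (r * K) * (n * r + 1) := by ring
        _ ≤ ε₁ * (4 * Λ) := by
          refine mul_le_mul hrK (by linarith) (by positivity) hε₁0.le
        _ = 4 * ε₁ * Λ := by ring
    linarith
  -- the selection
  have hsel : ∀ m : ℕ, ∃ (q : ℕ) (x₀ : ℝ), ε / 6 * r ≤ EP PP j (Nm m) → (1 ≤ q ∧ q ≤ Q₀ ∧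
      c * r ≤ ∫ x in a m..(a m + r), W₁ x *
        (if nd ((q : ℝ) * (k * θ x - k * θ x₀)) ≤ ρ then 1 else 0)) := by
    intro m
    by_cases hm : ε / 6 * r ≤ EP PP j (Nm m)
    · obtain ⟨q, hq1, hq2, x₀, -, hx₀⟩ := h10' H hH hLs (a m) r hr W₁ (fun x ↦ k * θ x) hW₁m
        (hθ.const_mul _) hW₁0 hW₁1 hm
      exact ⟨q, x₀, fun _ ↦ ⟨hq1, hq2, hx₀⟩⟩
    · exact ⟨0, 0, fun h ↦ absurd h hm⟩
  choose qm xm hqm using hsel
  set al : ℝ → ℝ := fun x ↦ θ (xm (⌊x / r⌋ - i₀).toNat) with hal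
  have hgrid : Grid al r := by
    intro i x h1 h2
    have e1 : ⌊x / r⌋ = i := by
      rw [Int.floor_eq_iff]
      exact ⟨by rw [le_div_iff₀ hr]; exact h1, by rw [div_lt_iff₀ hr]; exact h2⟩
    have e2 : ⌊((i : ℝ) * r) / r⌋ = i := by
      rw [mul_div_cancel_right₀ _ hr.ne', Int.floor_intCast]
    simp only [hal]
    rw [e1, e2]
  have halm : Measurable al := by
    have h1 : al = (fun i : ℤ ↦ θ (xm (i - i₀).toNat)) ∘ fun x : ℝ ↦ ⌊x / r⌋ := rfl
    rw [h1]
    exact (measurable_of_countable _).comp (Int.measurable_floor.comp (measurable_id.div_const r))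
  have hal_cell : ∀ m : ℕ, ∀ x, a m < x → x < a m + r → al x = θ (xm m) := by
    intro m x h1 h2
    have e1 : ⌊x / r⌋ = i₀ + m := by
      rw [Int.floor_eq_iff]
      constructor
      · rw [le_div_iff₀ hr]; push_cast; exact h1.le
      · rw [div_lt_iff₀ hr]; push_cast
        have : a m + r = ((i₀ : ℝ) + m + 1) * r := by simp only [ha]; ring
        rw [← this]; exact h2
    simp only [hal]
    rw [e1]
    congr 2
    omega
  -- the concentrated cells
  set M := (range n).filter fun m ↦ ε / 6 * r ≤ EP PP j (Nm m) with hM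
  set G : ℕ → ℝ → ℝ := fun q x ↦ W₁ x *
    (if nd ((((q * k.natAbs : ℕ) : ℝ)) * (θ x - al x)) ≤ ρ then 1 else 0) with hG
  have hGm : ∀ q, Measurable (G q) := by
    intro q
    refine hW₁m.mul (Measurable.ite ?_ measurable_const measurable_const)
    exact measurableSet_le (nd_meas.comp ((hθ.sub halm).const_mul _)) measurable_const
  have hG0 : ∀ q x, 0 ≤ G q x := by
    intro q x
    simp only [hG]
    refine mul_nonneg (hW₁0 x) ?_
    split_ifs <;> norm_num
  have hG1 : ∀ q x, ‖G q x‖ ≤ 1 := by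
    intro q x
    rw [Real.norm_of_nonneg (hG0 q x)]
    simp only [hG]
    split_ifs
    · rw [mul_one]; exact hW₁1 x
    · rw [mul_zero]; norm_num
  have hGi : ∀ q u v, IntervalIntegrable (G q) volume u v := fun q u v ↦
    ii_bdd (hGm q).aestronglyMeasurable (hG1 q) u v
  have hk1 : 1 ≤ k.natAbs := Int.natAbs_pos.mpr hk0
  have hk2 : k.natAbs ≤ Kf := by
    have : (k.natAbs : ℤ) ≤ Kf := by rw [← Int.abs_eq_natAbs]; exact hkK
    exact_mod_cast this
  have hGbound : ∀ q ∈ Icc 1 Q₀, ∫ x in a 0..a n, G q x ≤ ε₁ * Λ := by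
    intro q hq
    rw [mem_Icc] at hq
    have h1 := hconc (q * k.natAbs) (Nat.mul_pos hq.1 hk1)
      (Nat.mul_le_mul hq.2 (by omega)) al hgrid
    refine le_of_eq_of_le ?_ h1
    rw [← ext_int _ ha0 htab han]
    congr 1
    ext x
    simp only [hG, hW₁, Set.indicator]
    split_ifs <;> simp
  have hcells : ∀ m ∈ M, c * r ≤ ∑ q ∈ Icc 1 Q₀, ∫ x in a m..a (m + 1), G q x := by
    intro m hm
    rw [hM, mem_filter] at hm
    obtain ⟨hq1, hq2, hq3⟩ := hqm m hm.2
    refine hq3.trans ?_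
    have h1 : ∫ x in a m..a (m + 1), G (qm m) x ≤ ∑ q ∈ Icc 1 Q₀, ∫ x in a m..a (m + 1), G q x := by
      refine single_le_sum (f := fun q ↦ ∫ x in a m..a (m + 1), G q x) (fun q _ ↦ ?_)
        (mem_Icc.mpr ⟨hq1, hq2⟩)
      exact intervalIntegral.integral_nonneg (hle m) fun x _ ↦ hG0 q x
    refine le_trans ?_ h1
    rw [hstep m]
    refine intervalIntegral.integral_mono_on_of_le_Ioo (by linarith) ?_ (hGi _ _ _) ?_
    · refine ii_bdd (C := 1) (Measurable.aestronglyMeasurable ?_) ?_ _ _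
      · refine hW₁m.mul (Measurable.ite ?_ measurable_const measurable_const)
        exact measurableSet_le (nd_meas.comp (((hθ.const_mul _).sub measurable_const).const_mul _))
          measurable_const
      · intro x
        rw [norm_mul, Real.norm_of_nonneg (hW₁0 x)]
        split_ifs
        · rw [norm_one, mul_one]; exact hW₁1 x
        · rw [norm_zero, mul_zero]; norm_num
    · intro x hx
      simp only [hG]
      have e1 := hal_cell m x hx.1 hx.2
      have e2 : nd ((((qm m * k.natAbs : ℕ) : ℝ)) * (θ x - al x)) =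
          nd ((qm m : ℝ) * (k * θ x - k * θ (xm m))) := by
        rw [e1]
        rcases Int.natAbs_eq k with h | h
        · have h' : (k : ℝ) = (k.natAbs : ℝ) := by
            conv_lhs => rw [h]
            exact Int.cast_natCast _
          congr 1
          rw [h']
          push_cast
          ring
        · have h' : (k : ℝ) = -(k.natAbs : ℝ) := by
            conv_lhs => rw [h]
            rw [Int.cast_neg, Int.cast_natCast]
          rw [← nd_neg]
          congr 1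
          rw [h']
          push_cast
          ring
      rw [e2]
  have hMcard : (#M : ℝ) * r ≤ Q₀ / c * ε₁ * Λ := by
    have h1 : (#M : ℝ) * (c * r) ≤ ∑ m ∈ M, ∑ q ∈ Icc 1 Q₀, ∫ x in a m..a (m + 1), G q x := by
      rw [← nsmul_eq_mul]
      exact card_nsmul_le_sum M _ _ hcells
    have h2 : ∑ m ∈ M, ∑ q ∈ Icc 1 Q₀, ∫ x in a m..a (m + 1), G q x ≤
        ∑ m ∈ range n, ∑ q ∈ Icc 1 Q₀, ∫ x in a m..a (m + 1), G q x := by
      refine sum_le_sum_of_subset_of_nonneg (filter_subset _ _) fun m _ _ ↦ ?_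
      exact sum_nonneg fun q _ ↦ intervalIntegral.integral_nonneg (hle m) fun x _ ↦ hG0 q x
    replace h2 := h2.trans_eq sum_comm
    have h3 : ∑ q ∈ Icc 1 Q₀, ∑ m ∈ range n, ∫ x in a m..a (m + 1), G q x ≤
        ∑ _q ∈ Icc 1 Q₀, ε₁ * Λ := by
      refine sum_le_sum fun q hq ↦ ?_
      rw [intervalIntegral.sum_integral_adjacent_intervals (fun m _ ↦ hGi _ _ _)]
      exact hGbound q hq
    rw [sum_const, nsmul_eq_mul, Nat.card_Icc, Nat.add_sub_cancel] at h3
    have h4 : (#M : ℝ) * r * c ≤ Q₀ * (ε₁ * Λ) := by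
      calc _ = (#M : ℝ) * (c * r) := by ring
        _ ≤ _ := h1.trans (h2.trans h3)
    rw [div_mul_eq_mul_div, div_mul_eq_mul_div, le_div_iff₀ hc]
    linarith
  -- conclusion
  have hEP1 : EP PP j (fun P ↦ ‖∫ x in ta..tb, (W x : ℂ) * A (x - Real.log P) *
      ee (k * ((P : ℝ) * θ x))‖) ≤ (∑ m ∈ range n, EP PP j (Nm m)) + 4 * ε₁ * Λ := by
    refine (EP_mono hLs hEPC j hone).trans ?_
    obtain ⟨h0, hadd, -⟩ := hEPC PP hLs
    rw [hadd j (fun P ↦ ∑ m ∈ range n, Nm m P) (fun _ ↦ 4 * ε₁ * Λ), h0, EP_sum hLs hEPC]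
  have hEPN : ∀ m, EP PP j (Nm m) ≤ r := by
    intro m
    obtain ⟨h0, -⟩ := hEPC PP hLs
    rw [← h0 j r]
    exact EP_mono hLs hEPC j fun P ↦ hNm_le m P
  have hsum : ∑ m ∈ range n, EP PP j (Nm m) ≤ (#M : ℝ) * r + ε / 6 * (n * r) := by
    rw [← sum_filter_add_sum_filter_not (range n) (fun m ↦ ε / 6 * r ≤ EP PP j (Nm m))]
    refine add_le_add ?_ ?_
    · have := sum_le_card_nsmul M (fun m ↦ EP PP j (Nm m)) r fun m _ ↦ hEPN m
      rwa [nsmul_eq_mul] at this
    · calc _ ≤ ∑ _m ∈ (range n).filter (fun m ↦ ¬ ε / 6 * r ≤ EP PP j (Nm m)), ε / 6 * r := by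
            refine sum_le_sum fun m hm ↦ ?_
            rw [mem_filter] at hm
            exact (not_le.mp hm.2).le
        _ ≤ ∑ _m ∈ range n, ε / 6 * r :=
            sum_le_sum_of_subset_of_nonneg (filter_subset _ _) fun _ _ _ ↦ by positivity
        _ = ε / 6 * (n * r) := by rw [sum_const, card_range, nsmul_eq_mul]; ring
  have hfin : (4 + Q₀ / c) * ε₁ * Λ ≤ ε / 2 * Λ := mul_le_mul_of_nonneg_right hε₁2 (by linarith)
  have h7 : ε / 6 * (n * r) ≤ ε / 6 * (3 * Λ) := mul_le_mul_of_nonneg_left hlen3 (by positivity)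
  nlinarith

end Pool.Agent.SV
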