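import Mathlib
import Pool.Agent.Lib.SV.TFDefs
import Pool.Agent.Lib.MP_663568_nul.Units

/-!
# Theorem TF (MP_663568_nt): row T12, the use of Theorem V for grids (helper23)
-/

set_option autoImplicit false
open Finset MeasureTheory

namespace Pool.Agent.SV

open Pool.Agent.Lib.MP_663568_nt Pool.Agent.Lib.MP_663568_nt.Katai
  Pool.Agent.Lib.MP_663568_nt.Nul

namespace T12x

/-! ### Elementary facts -/

lemma grid_eq {al : ℝ → ℝ} {r : ℝ} (hr : 0 < r) (h : Grid al r) (u : ℝ) :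
    al u = al (⌊u / r⌋ * r) := by
  refine h ⌊u / r⌋ u ?_ ?_
  · have := Int.floor_le (u / r)
    rwa [le_div_iff₀ hr] at this
  · have := Int.lt_floor_add_one (u / r)
    rwa [div_lt_iff₀ hr] at this

lemma meas (F : ℕ → ℝ → ℝ) (X : ℝ) {al : ℝ → ℝ} {r : ℝ} (hr : 0 < r) (h : Grid al r) :
    Measurable fun u : ℝ => F ⌊Real.exp u / X⌋₊ (al u) := by
  have h1 : (fun u : ℝ => F ⌊Real.exp u / X⌋₊ (al u)) =
      (fun z : ℕ × ℤ => F z.1 (al (z.2 * r))) ∘ fun u => (⌊Real.exp u / X⌋₊, ⌊u / r⌋) := by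
    funext u
    rw [Function.comp_apply, ← grid_eq hr h u]
  rw [h1]
  exact (measurable_of_countable _).comp ((Nat.measurable_floor.comp
    (Real.measurable_exp.div_const X)).prodMk (Int.measurable_floor.comp
      (measurable_id.div_const r)))

lemma meas1 {al : ℝ → ℝ} {r : ℝ} (hr : 0 < r) (h : Grid al r) (G : ℝ → ℝ) :
    Measurable fun u : ℝ => G (al u) := meas (fun _ => G) 1 hr h

/-- The choice of a representative in a cell. -/
lemma pick_one (G : ℝ → ℝ) (hG0 : ∀ y, 0 ≤ G y) (hG1 : ∀ y, G y ≤ 1) {X k : ℕ} (hX : 1 ≤ X)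
    (hk : 1 ≤ k) {al : ℝ → ℝ} {r : ℝ} (hr : 0 < r) (h : Grid al r) :
    ∃ x : ℝ, Real.log ((k : ℝ) * X) < x ∧ x < Real.log (((k + 1 : ℕ) : ℝ) * X) ∧
      ∫ t in Set.Ioo (Real.log ((k : ℝ) * X)) (Real.log (((k + 1 : ℕ) : ℝ) * X)), G (al t) ≤
        (1 / (k : ℝ)) * G (al x) := by
  have hk0 : (0 : ℝ) < k := by exact_mod_cast hk
  have hX0 : (0 : ℝ) < X := by exact_mod_cast hX
  have hk1 : ((k + 1 : ℕ) : ℝ) = (k : ℝ) + 1 := by push_cast; ring
  have hlt : Real.log ((k : ℝ) * X) < Real.log (((k + 1 : ℕ) : ℝ) * X) := by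
    apply Real.log_lt_log (by positivity)
    rw [hk1]
    nlinarith
  have hvol : volume (Set.Ioo (Real.log ((k : ℝ) * X)) (Real.log (((k + 1 : ℕ) : ℝ) * X))) =
      ENNReal.ofReal (Real.log (((k + 1 : ℕ) : ℝ) * X) - Real.log ((k : ℝ) * X)) :=
    Real.volume_Ioo
  have hint : IntegrableOn (fun t => G (al t))
      (Set.Ioo (Real.log ((k : ℝ) * X)) (Real.log (((k + 1 : ℕ) : ℝ) * X))) := by
    refine Measure.integrableOn_of_bounded (M := 1) ?_ (meas1 hr h G).aestronglyMeasurable ?_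
    · rw [hvol]
      exact ENNReal.ofReal_ne_top
    · refine Filter.Eventually.of_forall fun t => ?_
      rw [Real.norm_of_nonneg (hG0 _)]
      exact hG1 _
  obtain ⟨x, hx, hx2⟩ := exists_setAverage_le (f := fun t => G (al t)) (by
    rw [hvol]
    rw [Ne, ENNReal.ofReal_eq_zero, not_le]
    linarith) (by
    rw [hvol]
    exact ENNReal.ofReal_ne_top) hint
  refine ⟨x, hx.1, hx.2, ?_⟩
  rw [setAverage_eq, smul_eq_mul, Measure.real, hvol, ENNReal.toReal_ofReal (by linarith)] at hx2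
  have hd : 0 < Real.log (((k + 1 : ℕ) : ℝ) * X) - Real.log ((k : ℝ) * X) := by linarith
  rw [inv_mul_le_iff₀ hd] at hx2
  refine hx2.trans ?_
  refine mul_le_mul_of_nonneg_right ?_ (hG0 _)
  rw [← Real.log_div (by positivity) (by positivity)]
  have h2 := Real.log_le_sub_one_of_pos (x := (((k + 1 : ℕ) : ℝ) * X) / ((k : ℝ) * X))
    (by positivity)
  refine h2.trans (le_of_eq ?_)
  rw [hk1]
  field_simp
  ring

/-- The choice of representatives in all cells. -/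
lemma pick (F : ℕ → ℝ → ℝ) (hF0 : ∀ k y, 0 ≤ F k y) (hF1 : ∀ k y, F k y ≤ 1) {X : ℕ}
    (hX : 1 ≤ X) {al : ℝ → ℝ} {r : ℝ} (hr : 0 < r) (h : Grid al r) {K : ℕ} (hK : 1 ≤ K) :
    ∃ u : ℕ → ℝ, (∀ k : ℕ, 1 ≤ k → Real.log ((k : ℝ) * X) < u k ∧
      u k < Real.log (((k + 1 : ℕ) : ℝ) * X)) ∧
      ∫ t in Real.log (((1 : ℕ) : ℝ) * X)..Real.log ((K : ℝ) * X),
        F ⌊Real.exp t / X⌋₊ (al t) ≤ ∑ k ∈ Ico 1 K, (1 / (k : ℝ)) * F k (al (u k)) := by
  have hX0 : (0 : ℝ) < X := by exact_mod_cast hX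
  have hch : ∀ k : ℕ, ∃ x : ℝ, 1 ≤ k → Real.log ((k : ℝ) * X) < x ∧
      x < Real.log (((k + 1 : ℕ) : ℝ) * X) ∧
      ∫ t in Set.Ioo (Real.log ((k : ℝ) * X)) (Real.log (((k + 1 : ℕ) : ℝ) * X)), F k (al t) ≤
        (1 / (k : ℝ)) * F k (al x) := by
    intro k
    by_cases hk : 1 ≤ k
    · obtain ⟨x, hx⟩ := pick_one (F k) (hF0 k) (hF1 k) hX hk hr h
      exact ⟨x, fun _ => hx⟩
    · exact ⟨0, fun h' => absurd h' hk⟩
  choose u hu using hch
  refine ⟨u, fun k hk => ⟨(hu k hk).1, (hu k hk).2.1⟩, ?_⟩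
  have hm := meas F X hr h
  have hii : ∀ a b : ℝ, IntervalIntegrable (fun t => F ⌊Real.exp t / X⌋₊ (al t)) volume a b := by
    intro a b
    rw [intervalIntegrable_iff]
    refine Measure.integrableOn_of_bounded (M := 1) ?_ hm.aestronglyMeasurable ?_
    · rw [Set.uIoc, Real.volume_Ioc]
      exact ENNReal.ofReal_ne_top
    · refine Filter.Eventually.of_forall fun t => ?_
      rw [Real.norm_of_nonneg (hF0 _ _)]
      exact hF1 _ _
  rw [← intervalIntegral.sum_integral_adjacent_intervals_Ico (a := fun k : ℕ =>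
    Real.log ((k : ℝ) * X)) hK fun k _ => hii _ _]
  refine sum_le_sum fun k hk => ?_
  have hk1 : 1 ≤ k := (Finset.mem_Ico.1 hk).1
  have hk0 : (0 : ℝ) < k := by exact_mod_cast hk1
  have hlt : Real.log ((k : ℝ) * X) < Real.log (((k + 1 : ℕ) : ℝ) * X) :=
    (hu k hk1).1.trans (hu k hk1).2.1
  refine le_trans (le_of_eq ?_) (hu k hk1).2.2
  rw [intervalIntegral.integral_of_le hlt.le, integral_Ioc_eq_integral_Ioo]
  refine setIntegral_congr_fun measurableSet_Ioo fun t ht => ?_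
  have h1 : ⌊Real.exp t / X⌋₊ = k := by
    rw [Nat.floor_eq_iff (by positivity)]
    constructor
    · rw [le_div_iff₀ hX0]
      have := Real.exp_lt_exp.2 ht.1
      rw [Real.exp_log (by positivity)] at this
      exact this.le
    · rw [div_lt_iff₀ hX0]
      have := Real.exp_lt_exp.2 ht.2
      rw [Real.exp_log (by positivity)] at this
      push_cast at this
      exact this
  simp only [h1]

/-- The function `n ↦ u ⌊n / X⌋`. -/
noncomputable def ww (X : ℕ) (u : ℕ → ℝ) (n : ℕ) : ℝ := if n < X then Real.log X else u (n / X)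

lemma ww_lt {X : ℕ} {u : ℕ → ℝ} {n : ℕ} (h : n < X) : ww X u n = Real.log X := if_pos h
lemma ww_ge {X : ℕ} {u : ℕ → ℝ} {n : ℕ} (h : X ≤ n) : ww X u n = u (n / X) :=
  if_neg (not_lt.2 h)

lemma ww_mono {X : ℕ} (hX : 1 ≤ X) {u : ℕ → ℝ} (hu : ∀ k : ℕ, 1 ≤ k →
    Real.log ((k : ℝ) * X) < u k ∧ u k < Real.log (((k + 1 : ℕ) : ℝ) * X)) :
    Monotone (ww X u) := by
  refine monotone_nat_of_le_succ fun n => ?_
  by_cases h1 : n + 1 < X
  · rw [ww_lt h1, ww_lt (by omega)]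
  by_cases h2 : n < X
  · rw [ww_lt h2, ww_ge (by omega)]
    have h3 : n + 1 = X := by omega
    have h4 : (n + 1) / X = 1 := by rw [h3]; exact Nat.div_self (by omega)
    rw [h4]
    have := (hu 1 le_rfl).1
    simp only [Nat.cast_one, one_mul] at this
    exact this.le
  · rw [ww_ge (by omega), ww_ge (by omega)]
    have h3 : 1 ≤ n / X := (Nat.one_le_div_iff (by omega)).2 (by omega)
    have h5 : n / X ≤ (n + 1) / X := Nat.div_le_div_right (by omega)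
    rcases Nat.eq_or_lt_of_le h5 with h6 | h6
    · rw [← h6]
    · have h7 : n / X + 1 ≤ (n + 1) / X := h6
      have h8 := (hu _ h3).2
      have h9 := (hu ((n + 1) / X) (by omega)).1
      have h10 : Real.log (((n / X + 1 : ℕ) : ℝ) * X) ≤ Real.log ((((n + 1) / X : ℕ) : ℝ) * X) := by
        have hX0 : (0 : ℝ) < X := by exact_mod_cast hX
        apply Real.log_le_log (by positivity)
        gcongr
      linarith

lemma ww_three {X : ℕ} (hX : 1 ≤ X) {u : ℕ → ℝ} (hu : ∀ k : ℕ, 1 ≤ k →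
    Real.log ((k : ℝ) * X) < u k ∧ u k < Real.log (((k + 1 : ℕ) : ℝ) * X)) (j : ℕ) :
    ww X u (2 ^ (j + 1)) - ww X u (2 ^ j) ≤ 3 := by
  have hX0 : (0 : ℝ) < X := by exact_mod_cast hX
  have hlog2 := Real.log_two_lt_d9
  have hlog2' := Real.log_two_gt_d9
  have hup : ∀ n : ℕ, X ≤ n → ww X u n ≤ Real.log (2 * n) := by
    intro n hn
    rw [ww_ge hn]
    have h3 : 1 ≤ n / X := (Nat.one_le_div_iff (by omega)).2 hn
    refine (hu _ h3).2.le.trans (Real.log_le_log (by positivity) ?_)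
    have h4 : (n / X + 1) * X ≤ 2 * n := by
      have := Nat.div_mul_le_self n X
      nlinarith
    exact_mod_cast h4
  have hlo : ∀ n : ℕ, X ≤ n → Real.log ((n : ℝ) / 2) ≤ ww X u n := by
    intro n hn
    rw [ww_ge hn]
    have h3 : 1 ≤ n / X := (Nat.one_le_div_iff (by omega)).2 hn
    have hn0 : (0 : ℝ) < n := by exact_mod_cast (by omega : 0 < n)
    refine le_trans (Real.log_le_log (by positivity) ?_) (hu _ h3).1.le
    have h4 : n ≤ 2 * (n / X * X) := by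
      have h5 := Nat.div_add_mod n X
      have h6 := Nat.mod_lt n (by omega : 0 < X)
      nlinarith
    have h5 : (n : ℝ) ≤ 2 * (((n / X : ℕ) : ℝ) * X) := by exact_mod_cast h4
    linarith
  have hpow : (0 : ℝ) < 2 ^ j := by positivity
  by_cases h1 : X ≤ 2 ^ j
  · have h2 : X ≤ 2 ^ (j + 1) := h1.trans (Nat.pow_le_pow_right (by omega) (by omega))
    have h3 := hup _ h2
    have h4 := hlo _ h1
    have h5 : Real.log (2 * ((2 ^ (j + 1) : ℕ) : ℝ)) = 3 * Real.log 2 +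
        Real.log (((2 ^ j : ℕ) : ℝ) / 2) := by
      push_cast
      rw [show (2 : ℝ) * 2 ^ (j + 1) = 2 ^ 3 * (2 ^ j / 2) by ring, Real.log_mul (by norm_num)
        (by positivity), Real.log_pow]
      push_cast
      ring
    linarith
  · rw [not_le] at h1
    rw [ww_lt h1]
    by_cases h2 : X ≤ 2 ^ (j + 1)
    · have h3 := hup _ h2
      have h4 : Real.log (2 * ((2 ^ (j + 1) : ℕ) : ℝ)) ≤ 2 * Real.log 2 + Real.log X := by
        have h5 : (2 : ℝ) * ((2 ^ (j + 1) : ℕ) : ℝ) ≤ 2 ^ 2 * X := by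
          have h6 : ((2 ^ j : ℕ) : ℝ) ≤ X := by exact_mod_cast h1.le
          push_cast at h6 ⊢
          rw [pow_succ]
          linarith
        calc _ ≤ Real.log (2 ^ 2 * (X : ℝ)) := Real.log_le_log (by positivity) h5
          _ = _ := by
            rw [Real.log_mul (by norm_num) (by positivity), Real.log_pow]
            push_cast
            ring
      linarith
    · rw [ww_lt (by omega)]
      linarith

/-- The variation. -/
lemma tv {al : ℝ → ℝ} {r : ℝ} (hr : 0 < r) (h : Grid al r) {w : ℕ → ℝ} (hw : Monotone w)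
    (hw3 : ∀ j : ℕ, w (2 ^ (j + 1)) - w (2 ^ j) ≤ 3) (c : ℝ) {V : ℝ} (hV : 3 / r + 1 ≤ V) :
    TV (fun n => Int.fract (al (w n) + c)) V := by
  intro j
  have h1 : ∀ n : ℕ, |Int.fract (al (w (n + 1)) + c) - Int.fract (al (w n) + c)| ≤
      ((⌊w (n + 1) / r⌋ : ℤ) : ℝ) - ((⌊w n / r⌋ : ℤ) : ℝ) := by
    intro n
    have h2 : ⌊w n / r⌋ ≤ ⌊w (n + 1) / r⌋ := by
      apply Int.floor_le_floor
      have := hw (Nat.le_succ n)
      gcongr
    rcases eq_or_lt_of_le h2 with h3 | h3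
    · rw [grid_eq hr h (w (n + 1)), grid_eq hr h (w n), h3]
      simp
    · have h4 : (1 : ℝ) ≤ ((⌊w (n + 1) / r⌋ : ℤ) : ℝ) - ((⌊w n / r⌋ : ℤ) : ℝ) := by
        have : ⌊w n / r⌋ + 1 ≤ ⌊w (n + 1) / r⌋ := h3
        have h5 : ((⌊w n / r⌋ : ℤ) : ℝ) + 1 ≤ ((⌊w (n + 1) / r⌋ : ℤ) : ℝ) := by exact_mod_cast this
        linarith
      refine le_trans ?_ h4
      rw [abs_le]
      have a1 := Int.fract_nonneg (al (w (n + 1)) + c)
      have a2 := Int.fract_nonneg (al (w n) + c)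
      have a3 := (Int.fract_lt_one (al (w (n + 1)) + c)).le
      have a4 := (Int.fract_lt_one (al (w n) + c)).le
      constructor <;> linarith
  refine (sum_le_sum fun n _ => h1 n).trans ?_
  have h5 : ∑ n ∈ Ico (2 ^ j) (2 ^ (j + 1)),
      (((⌊w (n + 1) / r⌋ : ℤ) : ℝ) - ((⌊w n / r⌋ : ℤ) : ℝ)) =
      ((⌊w (2 ^ (j + 1)) / r⌋ : ℤ) : ℝ) - ((⌊w (2 ^ j) / r⌋ : ℤ) : ℝ) :=
    Finset.sum_Ico_sub (fun n => ((⌊w n / r⌋ : ℤ) : ℝ))
      (Nat.pow_le_pow_right (by omega) (by omega))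
  rw [h5]
  have h6 := Int.floor_le (w (2 ^ (j + 1)) / r)
  have h7 := Int.lt_floor_add_one (w (2 ^ j) / r)
  have h8 : w (2 ^ (j + 1)) / r - w (2 ^ j) / r ≤ 3 / r := by
    rw [← sub_div]
    gcongr
    exact hw3 j
  linarith

lemma vv_fract (l y : ℕ) (b : ℝ) : vv l y (Int.fract b) = vv l y b := by
  unfold vv
  congr 2
  refine sum_congr rfl fun m _ => ?_
  congr 1
  have : Int.fract b * (m : ℝ) = b * m + ((-(⌊b⌋ * m) : ℤ) : ℝ) := by
    rw [← Int.self_sub_floor]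
    push_cast
    ring
  rw [this, U56.ee_add_int]

lemma vv_nonneg (l y : ℕ) (b : ℝ) : 0 ≤ vv l y b := by
  unfold vv
  positivity

lemma vv_le_one (l y : ℕ) (b : ℝ) : vv l y b ≤ 1 := by
  unfold vv
  refine div_le_one_of_le₀ ?_ (by positivity)
  refine (norm_sum_le _ _).trans ?_
  calc ∑ m ∈ Icc 1 l, ‖muC (y + m) * ee (b * m)‖ ≤ ∑ _m ∈ Icc 1 l, (1 : ℝ) := by
        refine sum_le_sum fun m _ => ?_
        rw [norm_mul, norm_ee, mul_one]
        exact norm_muC _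
    _ = l := by simp

/-- The use of Theorem V. -/
lemma useV (hV : V_stmt) (A : ℝ) {ε : ℝ} (hε : 0 < ε) : ∃ H₀ : ℕ, ∀ l N : ℕ, H₀ ≤ l → l ≤ N →
    ∀ (al : ℝ → ℝ) (r : ℝ), 0 < r → Grid al r → ∀ w : ℕ → ℝ, Monotone w →
    (∀ j : ℕ, w (2 ^ (j + 1)) - w (2 ^ j) ≤ 3) → 3 / r + 1 ≤ (l : ℝ) ^ A → ∀ c : ℝ,
    ∑ n ∈ Icc 1 N, (1 / (n : ℝ)) * vv l n (al (w n) + c) ≤ ε * Real.log N := by
  obtain ⟨H₀, h⟩ := hV A ε hε
  refine ⟨max H₀ 1, fun l N hl hlN al r hr hal w hw hw3 hA c => ?_⟩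
  have hl1 : 1 ≤ l := (le_max_right _ _).trans hl
  have hl0 : (0 : ℝ) < l := by exact_mod_cast hl1
  have h1 := h l N ((le_max_left _ _).trans hl) hlN (fun n => Int.fract (al (w n) + c))
    (tv hr hal hw hw3 c hA)
  have h2 : ∑ n ∈ Icc 1 N, (1 / (n : ℝ)) * vv l n (al (w n) + c) =
      (∑ n ∈ Icc 1 N, (1 / (n : ℝ)) *
        ‖∑ h ∈ Icc 1 l, muC (n + h) * ee (Int.fract (al (w n) + c) * h)‖) / l := by
    rw [Finset.sum_div]
    refine sum_congr rfl fun n _ => ?_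
    rw [← vv_fract]
    unfold vv
    rw [mul_div_assoc]
  rw [h2, div_le_iff₀ hl0]
  calc _ ≤ ε * l * Real.log N := h1
    _ = _ := by ring

/-- The parameters. -/
lemma params {A₁ c : ℝ} (hA : 0 ≤ A₁) (hc : 0 < c) (L : ℕ) : ∃ H₀ : ℕ, ∀ H : ℕ, H₀ ≤ H →
    L ≤ ⌊(H : ℝ) ^ c⌋₊ ∧ 4 ≤ H ∧
      3 / ((H : ℝ) ^ (-A₁)) + 1 ≤ ((⌊(H : ℝ) ^ c⌋₊ : ℕ) : ℝ) ^ (2 * (A₁ + 1) / c) := by
  have t1 : Filter.Tendsto (fun H : ℕ => (H : ℝ) ^ c) Filter.atTop Filter.atTop :=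
    (tendsto_rpow_atTop hc).comp tendsto_natCast_atTop_atTop
  have t2 : Filter.Tendsto (fun H : ℕ => (H : ℝ) ^ (c / 2)) Filter.atTop Filter.atTop :=
    (tendsto_rpow_atTop (by positivity)).comp tendsto_natCast_atTop_atTop
  obtain ⟨H₀, h⟩ := Filter.eventually_atTop.1 ((t1.eventually_ge_atTop (L : ℝ)).and
    ((t2.eventually_ge_atTop 2).and (Filter.eventually_ge_atTop 4)))
  refine ⟨H₀, fun H hH => ?_⟩
  obtain ⟨h1, h2, h3⟩ := h H hH
  have hH4 : (4 : ℝ) ≤ H := by exact_mod_cast h3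
  have hH0 : (0 : ℝ) < H := by linarith
  refine ⟨Nat.le_floor h1, h3, ?_⟩
  have h4 : (H : ℝ) ^ (c / 2) ≤ ((⌊(H : ℝ) ^ c⌋₊ : ℕ) : ℝ) := by
    have h5 : (H : ℝ) ^ c = (H : ℝ) ^ (c / 2) * (H : ℝ) ^ (c / 2) := by
      rw [← Real.rpow_add hH0]
      congr 1
      ring
    have h6 := Nat.lt_floor_add_one ((H : ℝ) ^ c)
    nlinarith
  have h7 : (H : ℝ) ^ (A₁ + 1) ≤ ((⌊(H : ℝ) ^ c⌋₊ : ℕ) : ℝ) ^ (2 * (A₁ + 1) / c) := by
    calc (H : ℝ) ^ (A₁ + 1) = ((H : ℝ) ^ (c / 2)) ^ (2 * (A₁ + 1) / c) := by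
          rw [← Real.rpow_mul hH0.le]
          congr 1
          field_simp
      _ ≤ _ := by
          apply Real.rpow_le_rpow (by positivity) h4 (by positivity)
  refine le_trans ?_ h7
  rw [Real.rpow_neg hH0.le, div_inv_eq_mul, Real.rpow_add hH0, Real.rpow_one]
  have h8 : (1 : ℝ) ≤ (H : ℝ) ^ A₁ := Real.one_le_rpow (by linarith) hA
  nlinarith

end T12x

open T12x

/-- Row T12. -/
theorem t12 : T12_stmt := by
  intro hV A₁ c₁ ε Q hA hc hc1 hε
  obtain ⟨L, hL⟩ := useV hV (2 * (A₁ + 1) / c₁) hε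
  obtain ⟨H₀, hH₀⟩ := params hA hc L
  refine ⟨H₀, fun H N hH hN al hal q b hq hqQ hb => ?_⟩
  obtain ⟨h1, h2, h3⟩ := hH₀ H hH
  have hH4 : (4 : ℝ) ≤ H := by exact_mod_cast h2
  have hH0 : (0 : ℝ) < H := by linarith
  have hr : 0 < (H : ℝ) ^ (-A₁) := by positivity
  have hHN : (H : ℝ) ≤ N := by
    refine le_trans ?_ hN
    calc (H : ℝ) = (H : ℝ) ^ (1 : ℝ) := (Real.rpow_one _).symm
      _ ≤ _ := Real.rpow_le_rpow_of_exponent_le (by linarith) (by linarith)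
  have hN1 : 1 ≤ N := by
    have : H ≤ N := by exact_mod_cast hHN
    omega
  have hN0 : (0 : ℝ) < N := by exact_mod_cast hN1
  have hlN : ⌊(H : ℝ) ^ c₁⌋₊ ≤ N := by
    have : (⌊(H : ℝ) ^ c₁⌋₊ : ℝ) ≤ N := by
      refine (Nat.floor_le (by positivity)).trans (le_trans ?_ hHN)
      calc (H : ℝ) ^ c₁ ≤ (H : ℝ) ^ (1 : ℝ) :=
            Real.rpow_le_rpow_of_exponent_le (by linarith) hc1
        _ = H := Real.rpow_one _
    exact_mod_cast this
  set l := ⌊(H : ℝ) ^ c₁⌋₊ with hl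
  obtain ⟨u, hu, hint⟩ := pick (fun k y => vv l k (y + b / q)) (fun _ _ => vv_nonneg _ _ _)
    (fun _ _ => vv_le_one _ _ _) (X := 1) le_rfl hr hal hN1
  have h4 := hL l N h1 hlN al _ hr hal (ww 1 u) (ww_mono le_rfl hu) (ww_three le_rfl hu) h3
    ((b : ℝ) / q)
  simp only [Nat.cast_one, mul_one, div_one, Real.log_one] at hint
  have hta : 0 ≤ (A₁ + 1) * Real.log H := mul_nonneg (by linarith) (Real.log_nonneg (by linarith))
  have htb : (A₁ + 1) * Real.log H ≤ Real.log N := by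
    rw [← Real.log_rpow hH0]
    exact Real.log_le_log (by positivity) hN
  have hm : Measurable fun t : ℝ => vv l ⌊Real.exp t⌋₊ (al t + b / q) := by
    have := meas (fun k y => vv l k (y + b / q)) 1 hr hal
    simpa only [div_one] using this
  have hii : IntervalIntegrable (fun t : ℝ => vv l ⌊Real.exp t⌋₊ (al t + b / q)) volume 0
      (Real.log N) := by
    rw [intervalIntegrable_iff]
    refine Measure.integrableOn_of_bounded (M := 1) ?_ hm.aestronglyMeasurable ?_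
    · rw [Set.uIoc, Real.volume_Ioc]
      exact ENNReal.ofReal_ne_top
    · refine Filter.Eventually.of_forall fun t => ?_
      rw [Real.norm_of_nonneg (vv_nonneg _ _ _)]
      exact vv_le_one _ _ _
  have h5 : ∫ t in ((A₁ + 1) * Real.log H)..(Real.log N), vv l ⌊Real.exp t⌋₊ (al t + b / q) ≤
      ∫ t in (0 : ℝ)..(Real.log N), vv l ⌊Real.exp t⌋₊ (al t + b / q) :=
    intervalIntegral.integral_mono_interval hta htb le_rfl
      (Filter.Eventually.of_forall fun t => vv_nonneg _ _ _) hii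
  refine h5.trans (hint.trans (le_trans ?_ h4))
  have h6 : ∀ k ∈ Ico 1 N, (1 / (k : ℝ)) * vv l k (al (u k) + b / q) =
      (1 / (k : ℝ)) * vv l k (al (ww 1 u k) + b / q) := by
    intro k hk
    rw [ww_ge (Finset.mem_Ico.1 hk).1, Nat.div_one]
  rw [sum_congr rfl h6]
  refine sum_le_sum_of_subset_of_nonneg (fun k hk => ?_) fun k _ _ =>
    mul_nonneg (by positivity) (vv_nonneg _ _ _)
  rw [Finset.mem_Ico] at hk
  rw [Finset.mem_Icc]
  omega

end Pool.Agent.SV
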