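import Mathlib
import Pool.Agent.Lib.SV.TFDefs
import Pool.Agent.Lib.SV.RW
import Pool.Agent.Lib.SV.T12

/-!
# Theorem TF (MP_663568_nt): row T13, concentrated frequencies of cells are rare (helper23)
-/

set_option autoImplicit false
open Finset MeasureTheory

namespace Pool.Agent.SV

open Pool.Agent.Lib.MP_663568_nt Pool.Agent.Lib.MP_663568_nt.Katai
  Pool.Agent.Lib.MP_663568_nt.Nul

namespace T13x

open T12x

/-- Shifting a sum. -/
lemma shift (g : ℕ → ℂ) (hg : ∀ m, ‖g m‖ ≤ 1) {a b : ℕ} (hab : a ≤ b) (s : ℕ) :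
    ‖∑ m ∈ Ico a b, g (m + 1) - ∑ m ∈ Ico a b, g (m + (s + 1))‖ ≤ 2 * s := by
  induction s with
  | zero => simp
  | succ s ih =>
    have h1 : ∑ m ∈ Ico a b, (g (m + 1 + (s + 1)) - g (m + (s + 1))) =
        g (b + (s + 1)) - g (a + (s + 1)) :=
      Finset.sum_Ico_sub (fun m => g (m + (s + 1))) hab
    have h2 : ∑ m ∈ Ico a b, g (m + 1) - ∑ m ∈ Ico a b, g (m + (s + 1 + 1)) =
        (∑ m ∈ Ico a b, g (m + 1) - ∑ m ∈ Ico a b, g (m + (s + 1))) -
          (g (b + (s + 1)) - g (a + (s + 1))) := by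
      rw [← h1, sum_sub_distrib]
      have h3 : ∀ m : ℕ, m + 1 + (s + 1) = m + (s + 1 + 1) := fun m => by omega
      simp only [h3]
      ring
    rw [h2]
    refine (norm_sub_le _ _).trans ?_
    have h4 : ‖g (b + (s + 1)) - g (a + (s + 1))‖ ≤ 2 := by
      refine (norm_sub_le _ _).trans ?_
      linarith [hg (b + (s + 1)), hg (a + (s + 1))]
    push_cast
    linarith

lemma vv_abs (l y : ℕ) (hl : 1 ≤ l) (b : ℝ) :
    ‖∑ h ∈ Icc 1 l, muC (y + h) * ee (b * ((y + h : ℕ) : ℝ))‖ = l * vv l y b := by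
  have hl0 : (0 : ℝ) < l := by exact_mod_cast hl
  have h1 : ∑ h ∈ Icc 1 l, muC (y + h) * ee (b * ((y + h : ℕ) : ℝ)) =
      ee (b * y) * ∑ h ∈ Icc 1 l, muC (y + h) * ee (b * h) := by
    rw [mul_sum]
    refine sum_congr rfl fun h _ => ?_
    have : b * ((y + h : ℕ) : ℝ) = b * y + b * h := by push_cast; ring
    rw [this, ee_add]
    ring
  rw [h1, norm_mul, norm_ee, one_mul]
  unfold vv
  field_simp

/-- A cell is an average of windows. -/
lemma cell (a b l : ℕ) (hab : a ≤ b) (hl : 1 ≤ l) (θ : ℝ) :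
    ‖∑ m ∈ Ioc a b, muC m * ee (θ * m)‖ ≤ ∑ y ∈ Ico a b, vv l y θ + 2 * l := by
  have hl0 : (0 : ℝ) < l := by exact_mod_cast hl
  obtain ⟨g, hgdef⟩ : ∃ g : ℕ → ℂ, g = fun m : ℕ => muC m * ee (θ * m) := ⟨_, rfl⟩
  have hg : ∀ m, ‖g m‖ ≤ 1 := by
    intro m
    rw [hgdef]
    simp only [norm_mul, norm_ee, mul_one]
    exact norm_muC _
  have h0 : ∑ m ∈ Ioc a b, muC m * ee (θ * m) = ∑ m ∈ Ico a b, g (m + 1) := by
    have h1 : Ioc a b = Ico (a + 1) (b + 1) := by
      ext m
      simp only [mem_Ioc, mem_Ico]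
      omega
    rw [h1, Finset.sum_Ico_add' g a b 1, hgdef]
  rw [h0]
  obtain ⟨G, hG⟩ : ∃ G : ℂ, G = ∑ m ∈ Ico a b, g (m + 1) := ⟨_, rfl⟩
  rw [← hG]
  have h2 : (l : ℂ) * G = ∑ h ∈ Icc 1 l, (G - ∑ m ∈ Ico a b, g (m + h)) +
      ∑ y ∈ Ico a b, ∑ h ∈ Icc 1 l, g (y + h) := by
    rw [sum_sub_distrib, sum_comm (s := Ico a b)]
    simp
  have h3 : (l : ℝ) * ‖G‖ ≤ l * (2 * l) + ∑ y ∈ Ico a b, l * vv l y θ := by
    calc (l : ℝ) * ‖G‖ = ‖(l : ℂ) * G‖ := by rw [norm_mul, Complex.norm_natCast]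
      _ ≤ ‖∑ h ∈ Icc 1 l, (G - ∑ m ∈ Ico a b, g (m + h))‖ +
          ‖∑ y ∈ Ico a b, ∑ h ∈ Icc 1 l, g (y + h)‖ := by
        rw [h2]
        exact norm_add_le _ _
      _ ≤ l * (2 * l) + ∑ y ∈ Ico a b, l * vv l y θ := by
        refine add_le_add ?_ ?_
        · refine (norm_sum_le _ _).trans ?_
          calc _ ≤ ∑ _h ∈ Icc 1 l, (2 * l : ℝ) := by
                refine sum_le_sum fun h hh => ?_
                rw [mem_Icc] at hh
                have h4 := shift g hg hab (h - 1)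
                rw [Nat.sub_add_cancel hh.1, ← hG] at h4
                refine h4.trans ?_
                have : ((h - 1 : ℕ) : ℝ) ≤ l := by exact_mod_cast (by omega : h - 1 ≤ l)
                linarith
            _ = l * (2 * l) := by simp
        · refine (norm_sum_le _ _).trans (sum_le_sum fun y _ => ?_)
          rw [← vv_abs l y hl θ, hgdef]
  rw [← mul_sum, ← mul_add] at h3
  have h5 := le_of_mul_le_mul_left h3 hl0
  linarith

/-- Continuity in the frequency. -/
lemma vv_near (l y : ℕ) (θ θ' : ℝ) : vv l y θ ≤ vv l y θ' + 2 * Real.pi * l * nd (θ - θ') := by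
  rcases Nat.eq_zero_or_pos l with hl | hl
  · subst hl
    unfold vv
    simp
  have hl0 : (0 : ℝ) < l := by exact_mod_cast hl
  have hnd := nd_nonneg (θ - θ')
  unfold vv
  rw [div_add' _ _ _ hl0.ne']
  refine div_le_div_of_nonneg_right ?_ hl0.le
  have h1 : ∑ m ∈ Icc 1 l, muC (y + m) * ee (θ * m) = ∑ m ∈ Icc 1 l, muC (y + m) * ee (θ' * m) +
      ∑ m ∈ Icc 1 l, muC (y + m) * ee (θ' * m) * (ee ((m : ℝ) * (θ - θ')) - 1) := by
    rw [← sum_add_distrib]
    refine sum_congr rfl fun m _ => ?_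
    have : θ * (m : ℝ) = θ' * m + (m : ℝ) * (θ - θ') := by ring
    rw [this, ee_add]
    ring
  rw [h1]
  refine (norm_add_le _ _).trans (add_le_add le_rfl ?_)
  refine (norm_sum_le _ _).trans ?_
  calc _ ≤ ∑ _m ∈ Icc 1 l, (2 * Real.pi * l * nd (θ - θ')) := by
        refine sum_le_sum fun m hm => ?_
        rw [mem_Icc] at hm
        rw [norm_mul, norm_mul, norm_ee, mul_one]
        have h2 := U56.ee_nd (θ - θ') m
        have h3 := norm_muC (y + m)
        have hm' : (m : ℝ) ≤ l := by exact_mod_cast hm.2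
        calc ‖muC (y + m)‖ * ‖ee ((m : ℝ) * (θ - θ')) - 1‖ ≤
            1 * (2 * Real.pi * (m * nd (θ - θ'))) := by
              refine mul_le_mul h3 h2 (norm_nonneg _) zero_le_one
          _ ≤ 2 * Real.pi * l * nd (θ - θ') := by
            rw [one_mul, mul_assoc (2 * Real.pi)]
            have := Real.pi_pos
            gcongr
    _ = _ := by
      rw [sum_const, Nat.card_Icc, nsmul_eq_mul, Nat.add_sub_cancel]
      ring

/-- The numerator of the rational part. -/
lemma exists_b {q : ℕ} (hq : 1 ≤ q) {z ρ : ℝ} (h : nd ((q : ℝ) * z) ≤ ρ) :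
    ∃ b ∈ range q, nd (z - (b : ℝ) / q) ≤ ρ := by
  have hq0 : (0 : ℝ) < q := by exact_mod_cast hq
  have hq1 : (1 : ℝ) ≤ q := by exact_mod_cast hq
  obtain ⟨n, hn⟩ := nd_exists ((q : ℝ) * z)
  have hq' : (0 : ℤ) < q := by exact_mod_cast hq
  have hb0 := Int.emod_nonneg n hq'.ne'
  have hb1 := Int.emod_lt_of_pos n hq'
  refine ⟨(n % (q : ℤ)).toNat, ?_, ?_⟩
  · rw [mem_range]
    omega
  · have h1 : (((n % (q : ℤ)).toNat : ℕ) : ℝ) = ((n % (q : ℤ) : ℤ) : ℝ) := by
      have : (((n % (q : ℤ)).toNat : ℕ) : ℤ) = n % (q : ℤ) := Int.toNat_of_nonneg hb0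
      exact_mod_cast congrArg (fun t : ℤ => (t : ℝ)) this
    have h2 : (n : ℝ) = q * ((n / (q : ℤ) : ℤ) : ℝ) + ((n % (q : ℤ) : ℤ) : ℝ) := by
      exact_mod_cast (Int.mul_ediv_add_emod n (q : ℤ)).symm
    have h3 : z - (((n % (q : ℤ)).toNat : ℕ) : ℝ) / q =
        ((q : ℝ) * z - n) / q + ((n / (q : ℤ) : ℤ) : ℝ) := by
      rw [h1, h2]
      field_simp
      ring
    rw [h3, nd_add_int]
    refine (nd_le_abs _).trans ?_
    rw [abs_div, abs_of_pos hq0, ← hn]
    refine (div_le_self (nd_nonneg _) hq1).trans h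

/-- The sum over the cells. -/
lemma sum_cells (φ : ℕ → ℝ) {X K : ℕ} (hK : 1 ≤ K) :
    ∑ k ∈ Ico 1 K, ∑ y ∈ Ico (k * X) ((k + 1) * X), φ y = ∑ y ∈ Ico X (K * X), φ y := by
  induction K, hK using Nat.le_induction with
  | base => simp
  | succ K hK ih =>
    rw [Finset.sum_Ico_succ_top hK, ih]
    refine Finset.sum_Ico_consecutive φ ?_ ?_
    · nlinarith
    · nlinarith

end T13x

open T12x T13x

/-- Row T13, from Theorem V. -/
theorem t13v (hV : V_stmt) : T13' := by
  intro A₁ κ ε Q hA hκ hε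
  obtain ⟨c, hcdef⟩ : ∃ c : ℝ, c = min (κ / 2) (1 / 4) := ⟨_, rfl⟩
  have hc : 0 < c := by rw [hcdef]; exact lt_min (by positivity) (by norm_num)
  have hcκ : c ≤ κ / 2 := by rw [hcdef]; exact min_le_left _ _
  have hc4 : c ≤ 1 / 4 := by rw [hcdef]; exact min_le_right _ _
  have hQ0 : (0 : ℝ) < (Q : ℝ) + 1 := by positivity
  obtain ⟨L, hL⟩ := useV hV (2 * (A₁ + 1) / c) (ε := ε / (8 * ((Q : ℝ) + 1))) (by positivity)
  obtain ⟨H₁, hH₁⟩ := params hA hc (max L 1)
  have t1 : Filter.Tendsto (fun H : ℕ => 2 * (H : ℝ) ^ (-(1 / 4 : ℝ)) +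
      2 * Real.pi * (H : ℝ) ^ (-(κ / 2))) Filter.atTop (nhds (2 * 0 + 2 * Real.pi * 0)) := by
    refine Filter.Tendsto.add (Filter.Tendsto.const_mul _ ?_) (Filter.Tendsto.const_mul _ ?_)
    · exact (tendsto_rpow_neg_atTop (by norm_num)).comp tendsto_natCast_atTop_atTop
    · exact (tendsto_rpow_neg_atTop (by positivity)).comp tendsto_natCast_atTop_atTop
  have t2 : ∀ᶠ H : ℕ in Filter.atTop, 2 * (H : ℝ) ^ (-(1 / 4 : ℝ)) +
      2 * Real.pi * (H : ℝ) ^ (-(κ / 2)) < ε / 4 := by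
    refine t1.eventually_lt_const ?_
    have : (0 : ℝ) < ε / 4 := by positivity
    simpa using this
  obtain ⟨H₂, hH₂⟩ := Filter.eventually_atTop.1 t2
  refine ⟨max H₁ H₂, fun H N X hH hN hX1 hX2 a al hal q hq hqQ => ?_⟩
  obtain ⟨h1, h2, h3⟩ := hH₁ H ((le_max_left _ _).trans hH)
  have h4 := hH₂ H ((le_max_right _ _).trans hH)
  have hH4 : (4 : ℝ) ≤ H := by exact_mod_cast h2
  have hH0 : (0 : ℝ) < H := by linarith
  have hr : 0 < (H : ℝ) ^ (-A₁) := by positivity
  have hHN : H ≤ N := by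
    have : (H : ℝ) ≤ N := by
      refine le_trans ?_ hN
      calc (H : ℝ) = (H : ℝ) ^ (1 : ℝ) := (Real.rpow_one _).symm
        _ ≤ _ := Real.rpow_le_rpow_of_exponent_le (by linarith) (by linarith)
    exact_mod_cast this
  have hX0 : (0 : ℝ) < X := lt_of_lt_of_le (by positivity) hX1
  have hX : 1 ≤ X := by exact_mod_cast hX0
  have hN4 : 4 ≤ N := by omega
  have hN0 : (0 : ℝ) < N := by exact_mod_cast (by omega : 0 < N)
  have hN4' : (4 : ℝ) ≤ N := by exact_mod_cast hN4
  obtain ⟨l, hl⟩ : ∃ l : ℕ, l = ⌊(H : ℝ) ^ c⌋₊ := ⟨_, rfl⟩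
  rw [← hl] at h1 h3
  have hl1 : 1 ≤ l := (le_max_right _ _).trans h1
  have hlL : L ≤ l := (le_max_left _ _).trans h1
  have hlH : (l : ℝ) ≤ (H : ℝ) ^ c := by rw [hl]; exact Nat.floor_le (by positivity)
  have hl0 : (0 : ℝ) < l := by exact_mod_cast hl1
  obtain ⟨ρ, hρ⟩ : ∃ ρ : ℝ, ρ = (H : ℝ) ^ (-κ) := ⟨_, rfl⟩
  have hρ0 : 0 < ρ := by rw [hρ]; positivity
  have hpi := Real.pi_pos
  -- the error
  have herr : 2 * (l : ℝ) / X + 2 * Real.pi * l * ρ ≤ ε / 4 := by
    refine le_trans ?_ h4.le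
    refine add_le_add ?_ ?_
    · rw [div_le_iff₀ hX0]
      calc 2 * (l : ℝ) ≤ 2 * (H : ℝ) ^ (1 / 4 : ℝ) := by
            have : (H : ℝ) ^ c ≤ (H : ℝ) ^ (1 / 4 : ℝ) :=
              Real.rpow_le_rpow_of_exponent_le (by linarith) hc4
            linarith
        _ = 2 * (H : ℝ) ^ (-(1 / 4 : ℝ)) * (H : ℝ) ^ (1 / 2 : ℝ) := by
            rw [mul_assoc, ← Real.rpow_add hH0]
            norm_num
        _ ≤ _ := by gcongr
    · calc 2 * Real.pi * l * ρ ≤ 2 * Real.pi * (H : ℝ) ^ (κ / 2) * (H : ℝ) ^ (-κ) := by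
            rw [hρ]
            have : (l : ℝ) ≤ (H : ℝ) ^ (κ / 2) :=
              hlH.trans (Real.rpow_le_rpow_of_exponent_le (by linarith) hcκ)
            gcongr
        _ = _ := by
            rw [mul_assoc, ← Real.rpow_add hH0]
            congr 2
            ring
  -- the cells
  obtain ⟨F, hF⟩ : ∃ F : ℕ → ℝ → ℝ, F = fun k y =>
    ‖∑ m ∈ Ioc (k * X) ((k + 1) * X), muC m * ee (a k * m)‖ / X *
      (if nd ((q : ℝ) * (a k - y)) ≤ ρ then 1 else 0) := ⟨_, rfl⟩
  have hF0 : ∀ k y, 0 ≤ F k y := by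
    intro k y
    rw [hF]
    dsimp only
    split_ifs <;> positivity
  have hS1 : ∀ k : ℕ, ‖∑ m ∈ Ioc (k * X) ((k + 1) * X), muC m * ee (a k * m)‖ / X ≤ 1 := by
    intro k
    refine div_le_one_of_le₀ ?_ hX0.le
    refine (norm_sum_le _ _).trans ?_
    calc _ ≤ ∑ _m ∈ Ioc (k * X) ((k + 1) * X), (1 : ℝ) := by
          refine sum_le_sum fun m _ => ?_
          rw [norm_mul, norm_ee, mul_one]
          exact norm_muC _
      _ = X := by
          rw [sum_const, Nat.card_Ioc, nsmul_eq_mul, mul_one]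
          have : (k + 1) * X - k * X = X := by
            rw [add_mul, one_mul]
            omega
          rw [this]
  have hF1 : ∀ k y, F k y ≤ 1 := by
    intro k y
    rw [hF]
    dsimp only
    have := hS1 k
    split_ifs
    · rw [mul_one]
      exact this
    · rw [mul_zero]
      exact zero_le_one
  obtain ⟨K, hK⟩ : ∃ K : ℕ, K = N / X + 1 := ⟨_, rfl⟩
  have hK1 : 1 ≤ K := by rw [hK]; exact Nat.le_add_left _ _
  have hKN : N ≤ K * X := by
    have h5 := Nat.div_add_mod N X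
    have h6 := Nat.mod_lt N (by omega : 0 < X)
    have h7 : K * X = X * (N / X) + X := by rw [hK]; ring
    rw [h7]
    linarith
  have hKN2 : K * X ≤ 2 * N := by
    have h5 := Nat.div_mul_le_self N X
    have h6 : X ≤ H := hX2
    have h7 : K * X = N / X * X + X := by rw [hK]; ring
    rw [h7]
    linarith
  obtain ⟨u, hu, hint⟩ := pick F hF0 hF1 hX hr hal hK1
  -- the bound of a cell
  have hcell : ∀ k : ℕ, 1 ≤ k → F k (al (u k)) ≤
      1 / X * ∑ b ∈ range q, ∑ y ∈ Ico (k * X) ((k + 1) * X),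
        vv l y (al (ww X u y) + (b : ℝ) / q) + ε / 4 := by
    intro k hk
    have hww : ∀ y ∈ Ico (k * X) ((k + 1) * X), ww X u y = u k := by
      intro y hy
      rw [Finset.mem_Ico] at hy
      have h5 : X ≤ y := le_trans (by nlinarith) hy.1
      rw [ww_ge h5]
      congr 1
      exact Nat.div_eq_of_lt_le hy.1 hy.2
    have h0 : ∀ b ∈ range q, 0 ≤ ∑ y ∈ Ico (k * X) ((k + 1) * X),
        vv l y (al (ww X u y) + (b : ℝ) / q) := fun b _ =>
      sum_nonneg fun y _ => vv_nonneg _ _ _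
    by_cases hi : nd ((q : ℝ) * (a k - al (u k))) ≤ ρ
    · obtain ⟨b, hb, hbnd⟩ := exists_b hq hi
      have h5 : F k (al (u k)) = ‖∑ m ∈ Ioc (k * X) ((k + 1) * X), muC m * ee (a k * m)‖ / X := by
        rw [hF]
        dsimp only
        rw [if_pos hi, mul_one]
      have h6 := cell (k * X) ((k + 1) * X) l (by nlinarith) hl1 (a k)
      have h7 : ∑ y ∈ Ico (k * X) ((k + 1) * X), vv l y (a k) ≤
          ∑ y ∈ Ico (k * X) ((k + 1) * X), vv l y (al (ww X u y) + (b : ℝ) / q) +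
            X * (2 * Real.pi * l * ρ) := by
        calc _ ≤ ∑ y ∈ Ico (k * X) ((k + 1) * X), (vv l y (al (ww X u y) + (b : ℝ) / q) +
              2 * Real.pi * l * ρ) := by
              refine sum_le_sum fun y hy => ?_
              rw [hww y hy]
              refine (vv_near l y (a k) (al (u k) + (b : ℝ) / q)).trans ?_
              have h8 : a k - (al (u k) + (b : ℝ) / q) = a k - al (u k) - (b : ℝ) / q := by ring
              rw [h8]
              gcongr
          _ = _ := by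
              rw [sum_add_distrib, sum_const, Nat.card_Ico, nsmul_eq_mul]
              have : (k + 1) * X - k * X = X := by
                rw [add_mul, one_mul]
                omega
              rw [this]
      rw [h5, div_le_iff₀ hX0]
      have h9 : ∑ y ∈ Ico (k * X) ((k + 1) * X), vv l y (al (ww X u y) + (b : ℝ) / q) ≤
          ∑ b ∈ range q, ∑ y ∈ Ico (k * X) ((k + 1) * X),
            vv l y (al (ww X u y) + (b : ℝ) / q) := single_le_sum h0 hb
      have h10 : X * (2 * (l : ℝ) / X + 2 * Real.pi * l * ρ) ≤ X * (ε / 4) := by gcongr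
      have h11 : X * (2 * (l : ℝ) / X + 2 * Real.pi * l * ρ) =
          2 * l + X * (2 * Real.pi * l * ρ) := by field_simp
      have h12 : (1 / (X : ℝ) * ∑ b ∈ range q, ∑ y ∈ Ico (k * X) ((k + 1) * X),
          vv l y (al (ww X u y) + (b : ℝ) / q) + ε / 4) * X =
          ∑ b ∈ range q, ∑ y ∈ Ico (k * X) ((k + 1) * X),
          vv l y (al (ww X u y) + (b : ℝ) / q) + X * (ε / 4) := by
        generalize ∑ b ∈ range q, ∑ y ∈ Ico (k * X) ((k + 1) * X),
          vv l y (al (ww X u y) + (b : ℝ) / q) = S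
        field_simp
      rw [h12]
      linarith
    · have h5 : F k (al (u k)) = 0 := by
        rw [hF]
        dsimp only
        rw [if_neg hi, mul_zero]
      rw [h5]
      have := sum_nonneg h0
      positivity
  -- the sum over the cells
  have hlogN : 1 ≤ Real.log N := by
    rw [Real.le_log_iff_exp_le hN0]
    have := Real.exp_one_lt_d9
    linarith
  have hsumK : ∑ k ∈ Ico 1 K, (1 / (k : ℝ)) ≤ 2 * Real.log N := by
    have h5 : ∑ k ∈ Ico 1 K, (1 / (k : ℝ)) ≤ ∑ k ∈ Icc 1 N, (1 / (k : ℝ)) := by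
      refine sum_le_sum_of_subset_of_nonneg (fun k hk => ?_) fun k _ _ => by positivity
      rw [Finset.mem_Ico, hK] at hk
      rw [Finset.mem_Icc]
      exact ⟨hk.1, (Nat.lt_succ_iff.1 hk.2).trans (Nat.div_le_self N X)⟩
    have h6 := RWr.sum_inv_le' (by omega : 1 ≤ N)
    linarith
  have hpart : ∀ b : ℕ, ∑ k ∈ Ico 1 K, (1 / (k : ℝ)) * (1 / X *
      ∑ y ∈ Ico (k * X) ((k + 1) * X), vv l y (al (ww X u y) + (b : ℝ) / q)) ≤
      2 * (ε / (8 * ((Q : ℝ) + 1)) * (2 * Real.log N)) := by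
    intro b
    have h5 := hL l (K * X) hlL (by
      have h5a : (l : ℝ) ≤ H := hlH.trans (by
        calc (H : ℝ) ^ c ≤ (H : ℝ) ^ (1 : ℝ) :=
              Real.rpow_le_rpow_of_exponent_le (by linarith) (by linarith)
          _ = H := Real.rpow_one _)
      have h5b : l ≤ H := by exact_mod_cast h5a
      omega) al _ hr hal (ww X u) (ww_mono hX hu) (ww_three hX hu) h3 ((b : ℝ) / q)
    have h6 : Real.log ((K * X : ℕ) : ℝ) ≤ 2 * Real.log N := by
      calc Real.log ((K * X : ℕ) : ℝ) ≤ Real.log ((N : ℝ) ^ 2) := by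
            apply Real.log_le_log
            · exact_mod_cast (by omega : 0 < K * X)
            · have h7 : ((K * X : ℕ) : ℝ) ≤ 2 * N := by exact_mod_cast hKN2
              nlinarith
        _ = 2 * Real.log N := by rw [Real.log_pow]; push_cast; ring
    calc _ ≤ ∑ k ∈ Ico 1 K, ∑ y ∈ Ico (k * X) ((k + 1) * X),
          2 * ((1 / (y : ℝ)) * vv l y (al (ww X u y) + (b : ℝ) / q)) := by
          refine sum_le_sum fun k hk => ?_
          have hk1 : 1 ≤ k := (Finset.mem_Ico.1 hk).1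
          have hk0 : (0 : ℝ) < k := by exact_mod_cast hk1
          rw [← mul_assoc, mul_sum]
          refine sum_le_sum fun y hy => ?_
          rw [Finset.mem_Ico] at hy
          rw [← mul_assoc]
          refine mul_le_mul_of_nonneg_right ?_ (vv_nonneg _ _ _)
          have hy1 : 1 ≤ y := le_trans (by nlinarith) hy.1
          have hy0 : (0 : ℝ) < y := by exact_mod_cast hy1
          have hy2 : (y : ℝ) ≤ 2 * (k * X) := by
            have : y ≤ 2 * (k * X) := by nlinarith [hy.2]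
            exact_mod_cast this
          rw [one_div_mul_one_div, mul_one_div, div_le_div_iff₀ (by positivity) hy0]
          linarith
      _ = ∑ y ∈ Ico X (K * X), 2 * ((1 / (y : ℝ)) * vv l y (al (ww X u y) + (b : ℝ) / q)) :=
          sum_cells _ hK1
      _ ≤ ∑ y ∈ Icc 1 (K * X), 2 * ((1 / (y : ℝ)) * vv l y (al (ww X u y) + (b : ℝ) / q)) := by
          refine sum_le_sum_of_subset_of_nonneg (fun y hy => ?_) fun y _ _ =>
            mul_nonneg (by norm_num) (mul_nonneg (by positivity) (vv_nonneg _ _ _))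
          rw [Finset.mem_Ico] at hy
          rw [Finset.mem_Icc]
          omega
      _ ≤ _ := by
          rw [← mul_sum]
          have h7 : ε / (8 * ((Q : ℝ) + 1)) * Real.log ((K * X : ℕ) : ℝ) ≤
              ε / (8 * ((Q : ℝ) + 1)) * (2 * Real.log N) := by gcongr
          linarith
  have hsum : ∑ k ∈ Ico 1 K, (1 / (k : ℝ)) * F k (al (u k)) ≤ ε * Real.log N := by
    calc _ ≤ ∑ k ∈ Ico 1 K, (1 / (k : ℝ)) * (1 / X * ∑ b ∈ range q,
          ∑ y ∈ Ico (k * X) ((k + 1) * X), vv l y (al (ww X u y) + (b : ℝ) / q) + ε / 4) := by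
          refine sum_le_sum fun k hk => ?_
          exact mul_le_mul_of_nonneg_left (hcell k (Finset.mem_Ico.1 hk).1) (by positivity)
      _ = ∑ b ∈ range q, ∑ k ∈ Ico 1 K, (1 / (k : ℝ)) * (1 / X *
          ∑ y ∈ Ico (k * X) ((k + 1) * X), vv l y (al (ww X u y) + (b : ℝ) / q)) +
          (∑ k ∈ Ico 1 K, (1 / (k : ℝ))) * (ε / 4) := by
          rw [sum_comm (s := range q), sum_mul, ← sum_add_distrib]
          refine sum_congr rfl fun k _ => ?_
          rw [mul_add, mul_sum, mul_sum]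
      _ ≤ ∑ _b ∈ range q, 2 * (ε / (8 * ((Q : ℝ) + 1)) * (2 * Real.log N)) +
          2 * Real.log N * (ε / 4) := by
          refine add_le_add (sum_le_sum fun b _ => hpart b) ?_
          exact mul_le_mul_of_nonneg_right hsumK (by positivity)
      _ ≤ ε * Real.log N := by
          rw [sum_const, card_range, nsmul_eq_mul]
          have hq1 : (q : ℝ) ≤ (Q : ℝ) + 1 := by
            have : (q : ℝ) ≤ Q := by exact_mod_cast hqQ
            linarith
          have h5 : (q : ℝ) * (2 * (ε / (8 * ((Q : ℝ) + 1)) * (2 * Real.log N))) ≤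
              ((Q : ℝ) + 1) * (2 * (ε / (8 * ((Q : ℝ) + 1)) * (2 * Real.log N))) := by
            gcongr
          have h6 : ((Q : ℝ) + 1) * (2 * (ε / (8 * ((Q : ℝ) + 1)) * (2 * Real.log N))) =
              ε / 2 * Real.log N := by
            field_simp
            ring
          linarith
  -- the integral
  have hfF : (fun t : ℝ => SS X a t * (if nd ((q : ℝ) * (cf X a t - al t)) ≤ (H : ℝ) ^ (-κ)
      then 1 else 0)) = fun t => F ⌊Real.exp t / X⌋₊ (al t) := by
    funext t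
    rw [hF, hρ]
    rfl
  rw [hfF]
  have hm := meas F X hr hal
  have hii : IntervalIntegrable (fun t : ℝ => F ⌊Real.exp t / X⌋₊ (al t)) volume
      (Real.log (((1 : ℕ) : ℝ) * X)) (Real.log ((K : ℝ) * X)) := by
    rw [intervalIntegrable_iff]
    refine Measure.integrableOn_of_bounded (M := 1) ?_ hm.aestronglyMeasurable ?_
    · rw [Set.uIoc, Real.volume_Ioc]
      exact ENNReal.ofReal_ne_top
    · refine Filter.Eventually.of_forall fun t => ?_
      rw [Real.norm_of_nonneg (hF0 _ _)]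
      exact hF1 _ _
  have hlogH : 0 ≤ Real.log H := Real.log_nonneg (by linarith)
  have hta : Real.log (((1 : ℕ) : ℝ) * X) ≤ (A₁ + 3) * Real.log H := by
    rw [Nat.cast_one, one_mul]
    have h5 : Real.log X ≤ Real.log H := Real.log_le_log hX0 (by exact_mod_cast hX2)
    nlinarith
  have htb : (A₁ + 3) * Real.log H ≤ Real.log N := by
    rw [← Real.log_rpow hH0]
    exact Real.log_le_log (by positivity) hN
  have htc : Real.log N ≤ Real.log ((K : ℝ) * X) := by
    apply Real.log_le_log hN0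
    exact_mod_cast hKN
  have h5 : ∫ t in ((A₁ + 3) * Real.log H)..(Real.log N), F ⌊Real.exp t / X⌋₊ (al t) ≤
      ∫ t in (Real.log (((1 : ℕ) : ℝ) * X))..(Real.log ((K : ℝ) * X)),
        F ⌊Real.exp t / X⌋₊ (al t) :=
    intervalIntegral.integral_mono_interval hta htb htc
      (Filter.Eventually.of_forall fun t => hF0 _ _) hii
  exact h5.trans (hint.trans hsum)

end Pool.Agent.SV
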