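import Pool.Agent.Lib.SV.TFDefs

/-! Row T15 of Theorem TF: the Fejer mean of a periodic set. -/

set_option autoImplicit false
open Finset MeasureTheory

namespace Pool.Agent.SV

open Pool.Agent.Lib.MP_663568_nt Pool.Agent.Lib.MP_663568_nt.Katai
  Pool.Agent.Lib.MP_663568_nt.Nul

namespace T15x

/-- The Fejer kernel. -/
noncomputable def FK (K : ℕ) (y : ℝ) : ℝ := ‖∑ j ∈ Icc 1 (K + 1), ee (y * j)‖ ^ 2 / (K + 1)

lemma FK_nonneg (K : ℕ) (y : ℝ) : 0 ≤ FK K y := by unfold FK; positivity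

lemma FK_cont (K : ℕ) : Continuous (FK K) := by
  unfold FK
  refine Continuous.div_const (Continuous.pow (Continuous.norm ?_) 2) _
  exact continuous_finset_sum _ fun j _ ↦ continuous_ee.comp (continuous_id.mul continuous_const)

lemma FK_le (K : ℕ) (y δ : ℝ) (hδ : 0 < δ) (h : δ ≤ nd y) :
    FK K y ≤ 1 / (4 * δ ^ 2 * (K + 1)) := by
  have h1 := geom_bound y 0 (K + 1)
  simp only [add_zero] at h1
  have h2 := nd_le_norm_one_sub_ee y
  have h3 : 4 * δ * ‖∑ l ∈ Icc 1 (K + 1), ee (y * l)‖ ≤ 2 :=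
    (mul_le_mul_of_nonneg_right (by linarith) (norm_nonneg _)).trans h1
  have h4 : ‖∑ l ∈ Icc 1 (K + 1), ee (y * l)‖ ≤ 1 / (2 * δ) := by
    rw [le_div_iff₀ (by positivity)]; linarith
  unfold FK
  calc _ ≤ (1 / (2 * δ)) ^ 2 / (K + 1) := by gcongr
    _ = _ := by field_simp; ring

/-- The kernel as a double sum. -/
lemma FK_eq (K : ℕ) (y : ℝ) : ((FK K y : ℝ) : ℂ) =
    (∑ i ∈ Icc 1 (K + 1) ×ˢ Icc 1 (K + 1), ee ((((i.1 : ℤ) - i.2 : ℤ) : ℝ) * y)) / (K + 1) := by
  unfold FK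
  push_cast
  congr 1
  rw [← Complex.mul_conj', map_sum, sum_mul_sum, ← sum_product']
  refine sum_congr rfl fun i _ ↦ ?_
  rw [conj_ee, ← ee_add]
  congr 1
  push_cast
  ring

lemma int_ee (k : ℤ) : ∫ z in (0 : ℝ)..1, ee (-(k * z)) = if k = 0 then 1 else 0 := by
  split_ifs with h
  · subst h
    have : ∀ z : ℝ, ee (-(((0 : ℤ) : ℝ) * z)) = 1 := fun z ↦ by simp [ee]
    simp only [this]
    simp
  · have hk : (2 * Real.pi * Complex.I * (-(k : ℂ))) ≠ 0 := by
      have : (k : ℂ) ≠ 0 := by exact_mod_cast h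
      have := Complex.two_pi_I_ne_zero
      simp_all
    have h1 : ∀ z : ℝ, ee (-(k * z)) = Complex.exp ((2 * Real.pi * Complex.I * (-(k : ℂ))) * z) := by
      intro z
      unfold ee
      congr 1
      push_cast
      ring
    simp only [h1]
    rw [integral_exp_mul_complex hk]
    have h2 : Complex.exp ((2 * Real.pi * Complex.I * (-(k : ℂ))) * ((1 : ℝ) : ℂ)) = 1 := by
      rw [Complex.exp_eq_one_iff]
      exact ⟨-k, by push_cast; ring⟩
    rw [h2]
    simp

lemma ee_meas (k x : ℝ) : Measurable fun z : ℝ ↦ ee (k * (x - z)) :=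
  (continuous_ee.comp (continuous_const.mul (continuous_const.sub continuous_id))).measurable

/-- The Fourier coefficient. -/
noncomputable def ah (S : Set ℝ) (k : ℤ) : ℂ :=
  ∫ z in S ∩ Set.Ioc (0 : ℝ) 1, ee (-(k * z))

lemma int_S (S : Set ℝ) (hS : MeasurableSet S) (k : ℤ) :
    IntegrableOn (fun z : ℝ ↦ ee (-(k * z))) (S ∩ Set.Ioc (0 : ℝ) 1) := by
  have : IntegrableOn (fun z : ℝ ↦ ee (-(k * z))) (Set.Ioc (0 : ℝ) 1) := by
    refine (Continuous.integrableOn_Icc (μ := volume) (a := (0 : ℝ)) (b := 1) ?_).mono_set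
      Set.Ioc_subset_Icc_self
    exact continuous_ee.comp (continuous_const.mul continuous_id).neg
  exact this.mono_set Set.inter_subset_right

lemma vol_le (S : Set ℝ) : (volume (S ∩ Set.Ioc (0 : ℝ) 1)).toReal ≤ 1 := by
  have h : volume (S ∩ Set.Ioc (0 : ℝ) 1) ≤ 1 := by
    calc _ ≤ volume (Set.Ioc (0 : ℝ) 1) := measure_mono Set.inter_subset_right
      _ = 1 := by rw [Real.volume_Ioc]; norm_num
  calc _ ≤ (1 : ENNReal).toReal := ENNReal.toReal_mono (by simp) h
    _ = 1 := by simp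

lemma ah_le (S : Set ℝ) (k : ℤ) : ‖ah S k‖ ≤ 1 := by
  unfold ah
  have h : volume (S ∩ Set.Ioc (0 : ℝ) 1) < ⊤ := by
    calc _ ≤ volume (Set.Ioc (0 : ℝ) 1) := measure_mono Set.inter_subset_right
      _ < ⊤ := by simp
  refine (norm_setIntegral_le_of_norm_le_const h (C := 1) fun z _ ↦ (norm_ee _).le).trans ?_
  rw [one_mul]
  exact vol_le S

/-- The mean of the indicator of `S` against the kernel. -/
lemma conv_eq (S : Set ℝ) (hS : MeasurableSet S) (K : ℕ) (x : ℝ) :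
    ((∫ z in S ∩ Set.Ioc (0 : ℝ) 1, FK K (x - z) : ℝ) : ℂ) =
    (∑ i ∈ Icc 1 (K + 1) ×ˢ Icc 1 (K + 1), ah S ((i.1 : ℤ) - i.2) *
      ee ((((i.1 : ℤ) - i.2 : ℤ) : ℝ) * x)) / (K + 1) := by
  rw [← integral_complex_ofReal]
  simp only [FK_eq]
  rw [integral_div]
  congr 1
  rw [integral_finset_sum]
  · refine sum_congr rfl fun i _ ↦ ?_
    unfold ah
    rw [← integral_mul_const]
    refine integral_congr_ae (Filter.Eventually.of_forall fun z ↦ ?_)
    simp only
    rw [← ee_add]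
    congr 1
    ring
  · intro i _
    have h1 := (int_S S hS ((i.1 : ℤ) - i.2)).mul_const (ee ((((i.1 : ℤ) - i.2 : ℤ) : ℝ) * x))
    refine h1.congr (Filter.Eventually.of_forall fun z ↦ ?_)
    simp only
    rw [← ee_add]
    congr 1
    ring

end T15x

open T15x in
theorem t15 : T15_stmt := by
  classical
  intro R ε hR hε
  obtain ⟨K, hK⟩ := exists_nat_ge (R ^ 2 / ε)
  refine ⟨K, fun S hS hper ↦ ?_⟩
  have hK1 : (0 : ℝ) < K + 1 := by positivity
  have hKc : ((K : ℂ) + 1) ≠ 0 := by exact_mod_cast hK1.ne'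
  set I := Icc 1 (K + 1) ×ˢ Icc 1 (K + 1) with hI
  -- the coefficients
  set cnt : ℤ → ℕ := fun k ↦ #(I.filter fun i ↦ ((i.1 : ℤ) - i.2) = k) with hcnt
  have hcnt_le : ∀ k, cnt k ≤ K + 1 := by
    intro k
    have : cnt k ≤ #(Icc 1 (K + 1)) := by
      refine card_le_card_of_injOn Prod.fst ?_ ?_
      · intro i hi
        simp only [coe_filter, Set.mem_setOf_eq, hI, mem_product] at hi
        exact hi.1.1
      · intro i hi j hj hij
        simp only [coe_filter, Set.mem_setOf_eq] at hi hj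
        ext
        · exact hij
        · have h1 := hi.2
          have h2 := hj.2
          omega
    simpa using this
  have hcnt0 : cnt 0 = K + 1 := by
    have : (I.filter fun i ↦ ((i.1 : ℤ) - i.2) = 0) = (Icc 1 (K + 1)).image fun a ↦ (a, a) := by
      ext i
      simp only [hI, mem_filter, mem_product, mem_Icc, mem_image]
      constructor
      · rintro ⟨⟨h1, h2⟩, h3⟩
        exact ⟨i.1, h1, by ext <;> simp; omega⟩
      · rintro ⟨a, ha, rfl⟩
        simp [ha]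
    simp only [hcnt]
    rw [this, card_image_of_injective]
    · simp
    · intro a b hab
      simpa using hab
  set c : ℤ → ℂ := fun k ↦ (cnt k : ℂ) / (K + 1) * ah S k with hc
  have hsum : ∀ x : ℝ, ∑ k ∈ Icc (-(K : ℤ)) K, c k * ee (k * x) =
      ((∫ z in S ∩ Set.Ioc (0 : ℝ) 1, FK K (x - z) : ℝ) : ℂ) := by
    intro x
    rw [conv_eq S hS K x]
    have h1 : ∑ i ∈ I, ah S ((i.1 : ℤ) - i.2) * ee ((((i.1 : ℤ) - i.2 : ℤ) : ℝ) * x) =
        ∑ k ∈ Icc (-(K : ℤ)) K, ∑ i ∈ I.filter (fun i ↦ ((i.1 : ℤ) - i.2) = k),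
          ah S ((i.1 : ℤ) - i.2) * ee ((((i.1 : ℤ) - i.2 : ℤ) : ℝ) * x) := by
      rw [sum_fiberwise_of_maps_to]
      intro i hi
      simp only [hI, mem_product, mem_Icc] at hi
      rw [mem_Icc]
      omega
    rw [← hI, h1, sum_div]
    refine sum_congr rfl fun k _ ↦ ?_
    have h2 : ∑ i ∈ I.filter (fun i ↦ ((i.1 : ℤ) - i.2) = k),
        ah S ((i.1 : ℤ) - i.2) * ee ((((i.1 : ℤ) - i.2 : ℤ) : ℝ) * x) =
        ∑ _i ∈ I.filter (fun i ↦ ((i.1 : ℤ) - i.2) = k), ah S k * ee ((k : ℝ) * x) := by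
      refine sum_congr rfl fun i hi ↦ ?_
      rw [mem_filter] at hi
      rw [hi.2]
    rw [h2, sum_const, nsmul_eq_mul, hc]
    simp only [hcnt]
    field_simp
  have hre : ∀ x : ℝ, (∑ k ∈ Icc (-(K : ℤ)) K, c k * ee (k * x)).re =
      ∫ z in S ∩ Set.Ioc (0 : ℝ) 1, FK K (x - z) := by
    intro x; rw [hsum x, Complex.ofReal_re]
  -- the integral of the kernel
  have hFi : ∀ (T : Set ℝ) (x : ℝ), MeasurableSet T →
      IntegrableOn (fun z ↦ FK K (x - z)) (T ∩ Set.Ioc (0 : ℝ) 1) := by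
    intro T x hT
    have : IntegrableOn (fun z : ℝ ↦ FK K (x - z)) (Set.Ioc (0 : ℝ) 1) := by
      refine (Continuous.integrableOn_Icc (μ := volume) (a := (0 : ℝ)) (b := 1) ?_).mono_set
        Set.Ioc_subset_Icc_self
      exact (FK_cont K).comp (continuous_const.sub continuous_id)
    exact this.mono_set Set.inter_subset_right
  have htot : ∀ x : ℝ, ∫ z in Set.Ioc (0 : ℝ) 1, FK K (x - z) = 1 := by
    intro x
    have h1 := conv_eq Set.univ MeasurableSet.univ K x
    rw [Set.univ_inter] at h1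
    have h2 : ∀ k : ℤ, ah Set.univ k = if k = 0 then 1 else 0 := by
      intro k
      rw [← int_ee k, intervalIntegral.integral_of_le zero_le_one]
      unfold ah
      rw [Set.univ_inter]
    have h3 : ∑ i ∈ Icc 1 (K + 1) ×ˢ Icc 1 (K + 1), ah Set.univ ((i.1 : ℤ) - i.2) *
        ee ((((i.1 : ℤ) - i.2 : ℤ) : ℝ) * x) = (K + 1 : ℂ) := by
      have h4 : ∀ i ∈ Icc 1 (K + 1) ×ˢ Icc 1 (K + 1), ah Set.univ ((i.1 : ℤ) - i.2) *
          ee ((((i.1 : ℤ) - i.2 : ℤ) : ℝ) * x) = if ((i.1 : ℤ) - i.2) = 0 then 1 else 0 := by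
        intro i _
        rw [h2]
        split_ifs with h
        · rw [h]
          simp [ee]
        · simp
      rw [sum_congr rfl h4, ← sum_filter, sum_const]
      have h5 : #(I.filter fun i ↦ ((i.1 : ℤ) - i.2) = 0) = K + 1 := hcnt0
      rw [← hI, h5]
      simp
    rw [h3, div_self hKc] at h1
    exact_mod_cast h1
  have hle : ∀ x : ℝ, ∫ z in S ∩ Set.Ioc (0 : ℝ) 1, FK K (x - z) ≤ 1 := by
    intro x
    refine le_trans ?_ (htot x).le
    refine setIntegral_mono_set ?_ ?_ ?_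
    · have := hFi Set.univ x MeasurableSet.univ
      rwa [Set.univ_inter] at this
    · exact Filter.Eventually.of_forall fun z ↦ FK_nonneg K _
    · exact (Set.inter_subset_right).eventuallyLE
  have hR0 : (0 : ℝ) < R := by linarith
  have hfar : ∀ (T : Set ℝ) (x : ℝ), MeasurableSet T →
      (∀ z ∈ T, 1 / R ≤ nd (x - z)) →
      ∫ z in T ∩ Set.Ioc (0 : ℝ) 1, FK K (x - z) ≤ ε := by
    intro T x hT hfar
    have h1 : ∀ z ∈ T ∩ Set.Ioc (0 : ℝ) 1, ‖FK K (x - z)‖ ≤ ε := by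
      intro z hz
      rw [Real.norm_of_nonneg (FK_nonneg K _)]
      refine (FK_le K (x - z) (1 / R) (by positivity) (hfar z hz.1)).trans ?_
      rw [div_le_iff₀ (by positivity)]
      rw [div_le_iff₀ hε] at hK
      have : ε * (4 * (1 / R) ^ 2 * (K + 1)) = 4 * (ε * (K + 1)) / R ^ 2 := by
        field_simp
      rw [this, le_div_iff₀ (by positivity)]
      nlinarith [sq_nonneg R]
    have h2 : volume (T ∩ Set.Ioc (0 : ℝ) 1) < ⊤ := by
      calc _ ≤ volume (Set.Ioc (0 : ℝ) 1) := measure_mono Set.inter_subset_right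
        _ < ⊤ := by simp
    have h3 := norm_setIntegral_le_of_norm_le_const h2 h1
    calc _ ≤ ‖∫ z in T ∩ Set.Ioc (0 : ℝ) 1, FK K (x - z)‖ := le_abs_self _
      _ ≤ ε * (volume (T ∩ Set.Ioc (0 : ℝ) 1)).toReal := h3
      _ ≤ ε * 1 := by
        gcongr
        exact vol_le T
      _ = ε := mul_one ε
  have hperZ : ∀ (n : ℕ) (x : ℝ), (x + n ∈ S ↔ x ∈ S) := by
    intro n
    induction n with
    | zero => intro x; simp
    | succ n ih =>
      intro x
      have : x + ((n + 1 : ℕ) : ℝ) = (x + n) + 1 := by push_cast; ring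
      rw [this, hper, ih]
  have hperI : ∀ (n : ℤ) (x : ℝ), (x + n ∈ S ↔ x ∈ S) := by
    intro n x
    obtain ⟨m, rfl | rfl⟩ := n.eq_nat_or_neg
    · exact_mod_cast hperZ m x
    · have := hperZ m (x + ((-(m : ℤ) : ℤ) : ℝ))
      rw [← this]
      push_cast
      rw [neg_add_cancel_right]
  have hclose : ∀ x z : ℝ, ¬ (1 / R ≤ nd (x - z)) → ∃ n : ℤ, |(z + n) - x| ≤ 1 / R := by
    intro x z h
    push Not at h
    obtain ⟨n, hn⟩ := nd_exists (x - z)
    refine ⟨n, ?_⟩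
    rw [hn] at h
    rw [← abs_neg]
    have : -(z + n - x) = x - z - n := by ring
    rw [this]
    exact h.le
  refine ⟨c, ?_, ?_, fun x ↦ ⟨?_, ?_, ?_, ?_⟩⟩
  · intro k
    simp only [hc]
    rw [norm_mul, norm_div]
    have h1 : ‖(cnt k : ℂ)‖ / ‖((K : ℂ) + 1)‖ ≤ 1 := by
      have h2 : ‖((K : ℂ) + 1)‖ = K + 1 := by
        have : ((K : ℂ) + 1) = ((K + 1 : ℕ) : ℂ) := by push_cast; ring
        rw [this, Complex.norm_natCast]; push_cast; ring
      rw [h2, Complex.norm_natCast, div_le_one hK1]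
      exact_mod_cast hcnt_le k
    calc _ ≤ 1 * 1 := mul_le_mul h1 (ah_le S k) (norm_nonneg _) zero_le_one
      _ = 1 := one_mul 1
  · simp only [hc]
    rw [hcnt0]
    have h1 : ((K + 1 : ℕ) : ℂ) / (K + 1) = 1 := by
      push_cast
      exact div_self hKc
    rw [h1, one_mul]
    unfold ah
    have h2 : ∀ z : ℝ, ee (-(((0 : ℤ) : ℝ) * z)) = 1 := fun z ↦ by simp [ee]
    simp only [h2]
    have h3 : (volume (S ∩ Set.Ioc (0 : ℝ) 1)) = volume (S ∩ Set.Icc 0 1) := by
      refine measure_congr ?_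
      refine Filter.EventuallyEq.inter (Filter.EventuallyEq.refl _ _) ?_
      exact Ioc_ae_eq_Icc
    rw [setIntegral_const, ← h3]
    simp [Measure.real]
  · rw [hre]
    exact setIntegral_nonneg (hS.inter measurableSet_Ioc) fun z _ ↦ FK_nonneg K _
  · rw [hre]; exact hle x
  · intro hin
    rw [hre]
    have h1 : ∫ z in Sᶜ ∩ Set.Ioc (0 : ℝ) 1, FK K (x - z) ≤ ε := by
      refine hfar Sᶜ x hS.compl fun z hz ↦ ?_
      by_contra hcon
      obtain ⟨n, hn⟩ := hclose x z hcon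
      exact hz ((hperI n z).mp (hin _ hn))
    have h2 : (∫ z in S ∩ Set.Ioc (0 : ℝ) 1, FK K (x - z)) +
        ∫ z in Sᶜ ∩ Set.Ioc (0 : ℝ) 1, FK K (x - z) = 1 := by
      refine Eq.trans ?_ (htot x)
      rw [← setIntegral_union]
      · congr 2
        rw [← Set.union_inter_distrib_right, Set.union_compl_self, Set.univ_inter]
      · refine Set.disjoint_left.mpr fun z hz hz' ↦ hz'.1 hz.1
      · exact hS.compl.inter measurableSet_Ioc
      · exact hFi S x hS
      · exact hFi Sᶜ x hS.compl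
    linarith
  · intro hout
    rw [hre]
    refine hfar S x hS fun z hz ↦ ?_
    by_contra hcon
    obtain ⟨n, hn⟩ := hclose x z hcon
    exact hout _ hn ((hperI n z).mpr hz)

end Pool.Agent.SV
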