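import Mathlib
import Pool.Agent.Lib.SV.TFDefs2
import Pool.Agent.Lib.SV.EPC
import Pool.Agent.Lib.SV.T10
import Pool.Agent.Lib.SV.T4

/-!
# Theorem TF (MP_663568_nt), row T16a: coincidences come from above.  helper50
-/

set_option autoImplicit false
open Finset MeasureTheory

namespace Pool.Agent.SV

open Pool.Agent.Lib.MP_663568_nt Pool.Agent.Lib.MP_663568_nt.Katai
  Pool.Agent.Lib.MP_663568_nt.Nul

noncomputable section

namespace T16ax

theorem nd_meas : Measurable nd := by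
  have h : LipschitzWith 1 nd := LipschitzWith.of_le_add fun x y => nd_le_add_abs x y
  exact h.continuous.measurable

/-- functions of two cells are measurable -/
theorem meas2 (X : ℕ) (c d : ℝ) (Ψ : ℕ → ℕ → ℝ) :
    Measurable fun u : ℝ => Ψ ⌊Real.exp (u + c) / X⌋₊ ⌊Real.exp (u + d) / X⌋₊ := by
  have h1 : ∀ c : ℝ, Measurable fun u : ℝ => ⌊Real.exp (u + c) / X⌋₊ := fun c =>
    Nat.measurable_floor.comp ((Real.measurable_exp.comp (measurable_id.add_const c)).div_const _)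
  exact (measurable_of_countable (fun p : ℕ × ℕ => Ψ p.1 p.2)).comp ((h1 c).prodMk (h1 d))

theorem cf_meas (X : ℕ) (a : ℕ → ℝ) : Measurable (cf X a) := by
  have := meas2 X 0 0 (fun k _ => a k)
  simp only [add_zero] at this
  exact this

theorem cg_meas (X : ℕ) (g : ℕ → ℝ) (ta tb : ℝ) : Measurable (cg X g ta tb) := by
  have := meas2 X 0 0 (fun k _ => g k)
  simp only [add_zero] at this
  exact Measurable.ite (measurableSet_Icc : MeasurableSet (Set.Icc ta tb)) this measurable_const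

theorem cg_nonneg {X : ℕ} {g : ℕ → ℝ} {ta tb : ℝ} (hg : ∀ k, 0 ≤ g k) (u : ℝ) :
    0 ≤ cg X g ta tb u := by
  unfold cg
  split_ifs
  · exact hg _
  · exact le_rfl

theorem cg_le_one {X : ℕ} {g : ℕ → ℝ} {ta tb : ℝ} (hg : ∀ k, g k ≤ 1) (u : ℝ) :
    cg X g ta tb u ≤ 1 := by
  unfold cg
  split_ifs
  · exact hg _
  · exact zero_le_one

theorem cg_zero {X : ℕ} {g : ℕ → ℝ} {ta tb : ℝ} {u : ℝ} (h : tb < u) :
    cg X g ta tb u = 0 := if_neg fun h' => absurd h'.2 (not_le.2 h)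

theorem ind_meas {F : ℝ → ℝ} (hF : Measurable F) (τ : ℝ) :
    Measurable fun u => if nd (F u) ≤ τ then (1 : ℝ) else 0 :=
  Measurable.ite (measurableSet_le (nd_meas.comp hF) measurable_const) measurable_const
    measurable_const

theorem ind_nonneg (P : Prop) [Decidable P] : (0 : ℝ) ≤ if P then (1 : ℝ) else 0 := by
  split_ifs <;> norm_num

theorem ind_le (P : Prop) [Decidable P] : (if P then (1 : ℝ) else 0) ≤ 1 := by
  split_ifs <;> norm_num

theorem integ {F : ℝ → ℝ} (hm : Measurable F) {B : ℝ} (h0 : ∀ u, 0 ≤ F u) (hB : ∀ u, F u ≤ B)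
    (s t : ℝ) : IntervalIntegrable F volume s t := by
  rw [intervalIntegrable_iff]
  refine Measure.integrableOn_of_bounded (M := B) ?_ hm.aestronglyMeasurable
    (Filter.Eventually.of_forall fun u => ?_)
  · rw [Set.uIoc, Real.volume_Ioc]
    exact ENNReal.ofReal_ne_top
  · rw [Real.norm_eq_abs, abs_of_nonneg (h0 u)]
    exact hB u

/-- the shift -/
theorem shift_le {F : ℝ → ℝ} (hm : Measurable F) {B : ℝ} (h0 : ∀ u, 0 ≤ F u)
    (hB : ∀ u, F u ≤ B) {c ta tb : ℝ} (hc : 0 ≤ c) (htb : ∀ u, tb < u → F u = 0) :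
    ∫ u in ta..tb, F (u + c) ≤ ∫ u in ta..tb, F u := by
  have hi : ∀ s t : ℝ, IntervalIntegrable F volume s t := integ hm h0 hB
  rw [intervalIntegral.integral_comp_add_right]
  have e1 := intervalIntegral.integral_add_adjacent_intervals (hi ta (ta + c))
    (hi (ta + c) (tb + c))
  have e2 := intervalIntegral.integral_add_adjacent_intervals (hi ta tb) (hi tb (tb + c))
  have h2 : ∫ u in tb..(tb + c), F u = 0 := by
    rw [intervalIntegral.integral_of_le (by linarith)]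
    exact setIntegral_eq_zero_of_forall_eq_zero (fun x hx => htb x hx.1)
  have h3 : 0 ≤ ∫ u in ta..(ta + c), F u :=
    intervalIntegral.integral_nonneg (by linarith) fun u _ => h0 u
  linarith

theorem EP_sum (PP : Finset ℕ) (j : ℕ) (s : Finset ℕ) (c : ℕ → ℝ) (F : ℕ → ℕ → ℝ) :
    EP PP j (fun P => ∑ i ∈ s, c i * F i P) = ∑ i ∈ s, c i * EP PP j (F i) := by
  classical
  induction s using Finset.induction_on with
  | empty =>
    have := EPx.EP_mul PP j 0 (fun _ => 0)
    simpa using this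
  | insert i s hi ih =>
    simp only [sum_insert hi]
    rw [EPx.EP_add, EPx.EP_mul, ih]

theorem EP_swap (PP : Finset ℕ) (i j : ℕ) : ∀ F : ℕ → ℕ → ℝ,
    EP PP i (fun P => EP PP j (fun P' => F P P')) =
      EP PP j (fun P' => EP PP i (fun P => F P P')) := by
  induction i with
  | zero => intro F; rfl
  | succ i ih =>
    intro F
    show ∑ p ∈ PP, wt PP p * EP PP i (fun P => EP PP j (fun P' => F (p * P) P')) =
      EP PP j (fun P' => ∑ p ∈ PP, wt PP p * EP PP i (fun P => F (p * P) P'))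
    rw [EP_sum PP j PP (wt PP) (fun p P' => EP PP i (fun P => F (p * P) P'))]
    refine sum_congr rfl fun p _ => ?_
    rw [ih (fun P P' => F (p * P) P')]

/-- the average of interval integrals -/
theorem EP_int (PP : Finset ℕ) (j : ℕ) {ta tb : ℝ} (hab : ta ≤ tb) (F : ℕ → ℝ → ℝ)
    (hm : ∀ P, Measurable (F P)) {B : ℝ} (h0 : ∀ P u, 0 ≤ F P u) (hB : ∀ P u, F P u ≤ B) :
    IntervalIntegrable (fun u => EP PP j (fun P => F P u)) volume ta tb ∧
    EP PP j (fun P => ∫ u in ta..tb, F P u) = ∫ u in ta..tb, EP PP j (fun P => F P u) := by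
  have h := T10x.ep_integral (volume.restrict (Set.Ioc ta tb)) PP j F (fun P => by
    have := integ (hm P) (h0 P) (hB P) ta tb
    rw [intervalIntegrable_iff_integrableOn_Ioc_of_le hab] at this
    exact this)
  refine ⟨?_, ?_⟩
  · rw [intervalIntegrable_iff_integrableOn_Ioc_of_le hab]
    exact h.1
  · simp only [intervalIntegral.integral_of_le hab]
    exact h.2

theorem prod_one : ∀ L : List ℕ, (∀ p ∈ L, 1 ≤ p) → 1 ≤ L.prod
  | [], _ => by simp
  | p :: L, h => by
    rw [List.prod_cons]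
    exact Nat.mul_pos (h p (by simp)) (prod_one L fun q hq => h q (by simp [hq]))

theorem per {T : ℕ → Set ℝ} (hT : SymP T) (n : ℕ) (y : ℝ) (m : ℤ) :
    y + m ∈ T n ↔ y ∈ T n := by
  induction m using Int.induction_on with
  | zero => simp
  | succ i ih =>
    rw [← ih]
    have h := (hT n (y + ((i : ℤ) : ℝ))).2
    rw [show y + (((i : ℤ) + 1 : ℤ) : ℝ) = y + ((i : ℤ) : ℝ) + 1 by push_cast; ring]
    exact h
  | pred i ih =>
    rw [← ih]
    have h := (hT n (y + ((-(i : ℤ) - 1 : ℤ) : ℝ))).2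
    rw [show y + ((-(i : ℤ) - 1 : ℤ) : ℝ) + 1 = y + ((-(i : ℤ) : ℤ) : ℝ) by push_cast; ring] at h
    exact h.symm

/-- a value near an integer translate of a member or of its opposite -/
theorem near_sub {T : ℕ → Set ℝ} (hT : SymP T) {n : ℕ} {y z ρ : ℝ} (hy : y ∈ T n)
    (h : nd (y - z) ≤ ρ) : ∃ w ∈ T n, |z - w| ≤ ρ := by
  obtain ⟨m, hm⟩ := nd_exists (y - z)
  refine ⟨y + ((-m : ℤ) : ℝ), (per hT n y (-m)).2 hy, ?_⟩
  rw [hm] at h
  rw [show z - (y + ((-m : ℤ) : ℝ)) = -(y - z - m) by push_cast; ring, abs_neg]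
  exact h

theorem near_add {T : ℕ → Set ℝ} (hT : SymP T) {n : ℕ} {y z ρ : ℝ} (hy : y ∈ T n)
    (h : nd (y + z) ≤ ρ) : ∃ w ∈ T n, |z - w| ≤ ρ := by
  refine near_sub hT (y := -y) ((hT n y).1.1 hy) ?_
  rw [show -y - z = -(y + z) by ring, nd_neg]
  exact h

end T16ax

open T16ax Classical in
theorem t16a : T16a_stmt := by
  intro h7 h8 h13 _ A ε κ₁ κ₂ J hA hε hκ₁ hκ hJ
  have hκ₂ : 0 < κ₂ := hκ₁.trans_le hκ
  -- T8 for all `i ≤ J`
  have h8' : ∀ i : ℕ, ∃ H₀ : ℕ, i ≤ J → ∀ H : ℕ, H₀ ≤ H → 1 ≤ Ls (PPs H κ₁ κ₂) →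
      ∀ D τ : ℝ, 0 ≤ τ → τ ≤ (H : ℝ) ^ (-(1 / 2) : ℝ) →
      EP (PPs H κ₁ κ₂) i (fun P => if nd ((P : ℝ) * D) ≤ τ then 1 else 0) ≤
        (if nd D ≤ (H : ℝ) ^ (-(1 / 4) : ℝ) then 1 else 0) + ε / 6 := by
    intro i
    by_cases hi : i ≤ J
    · obtain ⟨H₀, h⟩ := h8 κ₁ κ₂ (ε / 6) i hκ₁ hκ (by
        have h1 : (i : ℝ) ≤ J := by exact_mod_cast hi
        have h2 := mul_le_mul_of_nonneg_left h1 hκ₂.le
        linarith) (by positivity)
      exact ⟨H₀, fun _ => h⟩
    · exact ⟨0, fun h => absurd h hi⟩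
  choose H8 h8' using h8'
  -- T7 for all `j`
  choose Q7 C7 hQ7 hC7 H7 h7' using fun j : ℕ =>
    h7 κ₁ κ₂ (ε / 6) j hκ₁ hκ (by positivity)
  obtain ⟨Qm, hQle⟩ : ∃ Qm : ℕ, ∀ j ≤ J, Q7 j ≤ Qm :=
    ⟨(range (J + 1)).sup Q7, fun j hj => le_sup (f := Q7) (mem_range.2 (by omega))⟩
  obtain ⟨Cm, hCle⟩ : ∃ Cm : ℝ, ∀ j ≤ J, C7 j ≤ Cm :=
    ⟨∑ j ∈ range (J + 1), C7 j, fun j hj => single_le_sum (f := C7)
      (fun i _ => by linarith [hC7 i]) (mem_range.2 (by omega))⟩
  have hQ1 : 1 ≤ Qm := (hQ7 0).trans (hQle 0 (Nat.zero_le _))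
  have hQr : (0 : ℝ) < Qm := by exact_mod_cast hQ1
  have hC1 : 1 ≤ Cm := (hC7 0).trans (hCle 0 (Nat.zero_le _))
  obtain ⟨H13, h13'⟩ := h13 (A + 1) (1 / 8) (ε ^ 2 / (2 * Qm)) (2 * Qm) (by linarith)
    (by norm_num) (by positivity)
  obtain ⟨HL, hHL⟩ : ∃ HL : ℕ, ∀ H : ℕ, HL ≤ H → 2 * Cm ≤ (H : ℝ) ^ (1 / 8 : ℝ) := by
    have := (tendsto_rpow_atTop (show (0 : ℝ) < 1 / 8 by norm_num)).comp
      (tendsto_natCast_atTop_atTop (R := ℝ))
    obtain ⟨N, hN⟩ := (this.eventually_ge_atTop (2 * Cm)).exists_forall_of_atTop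
    exact ⟨N, fun H hH => hN H hH⟩
  refine ⟨max (max ((range (J + 1)).sup H8) ((range (J + 1)).sup H7)) (max (max HL H13) 1), ?_⟩
  intro H N X hH hLs hN hX1 hX2 T hT a g haT hg0 hg1 hgv τ hτ0 hτ i j hj hij
  have hH8 : ∀ i ≤ J, H8 i ≤ H := fun i hi =>
    (le_sup (f := H8) (mem_range.2 (by omega))).trans
      (((le_max_left _ _).trans (le_max_left _ _)).trans hH)
  have hH7 : ∀ i ≤ J, H7 i ≤ H := fun i hi =>
    (le_sup (f := H7) (mem_range.2 (by omega))).trans
      (((le_max_right _ _).trans (le_max_left _ _)).trans hH)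
  have hHL1 : HL ≤ H := (((le_max_left _ _).trans (le_max_left _ _)).trans (le_max_right _ _)).trans hH
  have hH13 : H13 ≤ H :=
    (((le_max_right _ _).trans (le_max_left _ _)).trans (le_max_right _ _)).trans hH
  have hH1 : 1 ≤ H := ((le_max_right _ _).trans (le_max_right _ _)).trans hH
  have hHr : (1 : ℝ) ≤ H := by exact_mod_cast hH1
  have hH0 : (0 : ℝ) < H := by linarith
  have hHbig := hHL H hHL1
  set PP := PPs H κ₁ κ₂ with hPP
  set ta : ℝ := (A + 4) * Real.log H with hta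
  set tb : ℝ := Real.log N with htb
  set ρ : ℝ := (H : ℝ) ^ (-(1 / 4) : ℝ) with hρ
  have hlogH : 0 ≤ Real.log H := Real.log_nonneg hHr
  have hN0 : (0 : ℝ) < N := (Real.rpow_pos_of_pos hH0 _).trans_le hN
  have hab5 : (A + 5) * Real.log H ≤ tb := by
    rw [htb, ← Real.log_rpow hH0]
    exact Real.log_le_log (Real.rpow_pos_of_pos hH0 _) hN
  have hab : ta ≤ tb := by
    rw [hta]
    nlinarith
  have hta0 : 0 ≤ ta := by positivity
  have htb0 : 0 ≤ tb := hta0.trans hab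
  have hρ0 : 0 < ρ := Real.rpow_pos_of_pos hH0 _
  have hpos : ∀ L : List ℕ, (∀ p ∈ L, p ∈ PP) → 1 ≤ L.prod := by
    intro L hL
    refine prod_one L (fun p hp => ?_)
    have := hL p hp
    rw [hPP, PPs, mem_filter] at this
    exact this.2.1.pos
  have hi : i ≤ J := by omega
  have hjJ : j ≤ J := by omega
  set θ : ℝ → ℝ := cf X a with hθ
  set G : ℝ → ℝ := cg X g ta tb with hG
  have hθm : Measurable θ := cf_meas X a
  have hGm : Measurable G := cg_meas X g ta tb
  have hG0 : ∀ u, 0 ≤ G u := cg_nonneg hg0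
  have hG1 : ∀ u, G u ≤ 1 := cg_le_one hg1
  have hGz : ∀ u, tb < u → G u = 0 := fun u hu => cg_zero hu
  have hθs : ∀ c : ℝ, Measurable fun v => θ (v + c) := fun c => hθm.comp (measurable_id.add_const c)
  have hGs : ∀ c : ℝ, Measurable fun v => G (v + c) := fun c => hGm.comp (measurable_id.add_const c)
  -- the functions after the first shift
  set Φ : ℕ → ℕ → ℝ → ℝ := fun P P' v => G v * G (v + Real.log P') *
    ((if nd ((P : ℝ) * (θ v - P' * θ (v + Real.log P'))) ≤ τ then 1 else 0) +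
     (if nd ((P : ℝ) * (θ v + P' * θ (v + Real.log P'))) ≤ τ then 1 else 0)) with hΦ
  have hΦm : ∀ P P', Measurable (Φ P P') := by
    intro P P'
    refine (hGm.mul (hGs _)).mul ((ind_meas ?_ τ).add (ind_meas ?_ τ))
    · exact (hθm.sub ((hθs _).const_mul _)).const_mul _
    · exact (hθm.add ((hθs _).const_mul _)).const_mul _
  have hΦ0 : ∀ P P' v, 0 ≤ Φ P P' v := fun P P' v =>
    mul_nonneg (mul_nonneg (hG0 _) (hG0 _)) (add_nonneg (ind_nonneg _) (ind_nonneg _))
  have hΦ2 : ∀ P P' v, Φ P P' v ≤ 2 := by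
    intro P P' v
    have h1 : G v * G (v + Real.log P') ≤ 1 := mul_le_one₀ (hG1 _) (hG0 _) (hG1 _)
    have h2 := ind_le (nd ((P : ℝ) * (θ v - P' * θ (v + Real.log P'))) ≤ τ)
    have h3 := ind_le (nd ((P : ℝ) * (θ v + P' * θ (v + Real.log P'))) ≤ τ)
    have h4 := ind_nonneg (nd ((P : ℝ) * (θ v - P' * θ (v + Real.log P'))) ≤ τ)
    have h5 := ind_nonneg (nd ((P : ℝ) * (θ v + P' * θ (v + Real.log P'))) ≤ τ)
    have h6 : 0 ≤ G v * G (v + Real.log P') := mul_nonneg (hG0 _) (hG0 _)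
    calc Φ P P' v ≤ 1 * (1 + 1) :=
          mul_le_mul h1 (add_le_add h2 h3) (add_nonneg h4 h5) zero_le_one
      _ = 2 := by norm_num
  -- step 1
  have step1 : EP PP i (fun P => EP PP j (fun P' =>
      ∫ u in ta..tb, G (u + Real.log P) * G (u + Real.log (P * P' : ℕ)) *
        ((if nd (P * θ (u + Real.log P) - (P * P' : ℕ) * θ (u + Real.log (P * P' : ℕ))) ≤ τ
          then 1 else 0) +
         (if nd (P * θ (u + Real.log P) + (P * P' : ℕ) * θ (u + Real.log (P * P' : ℕ))) ≤ τ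
          then 1 else 0)))) ≤ EP PP i (fun P => EP PP j (fun P' => ∫ v in ta..tb, Φ P P' v)) := by
    refine EPx.EP_mono hLs i _ _ fun L hL _ => EPx.EP_mono hLs j _ _ fun L' hL' _ => ?_
    have hP := hpos L hL
    have hP' := hpos L' hL'
    set P := L.prod
    set P' := L'.prod
    have hPr : (1 : ℝ) ≤ P := by exact_mod_cast hP
    have hPr' : (1 : ℝ) ≤ P' := by exact_mod_cast hP'
    have hlog : Real.log ((P * P' : ℕ) : ℝ) = Real.log P + Real.log P' := by
      push_cast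
      exact Real.log_mul (by linarith) (by linarith)
    have h := shift_le (hΦm P P') (hΦ0 P P') (hΦ2 P P') (Real.log_nonneg hPr) (ta := ta)
      (tb := tb) (fun u hu => by
        rw [hΦ]
        simp only
        rw [hGz u hu, zero_mul, zero_mul])
    refine le_of_eq_of_le (intervalIntegral.integral_congr fun u _ => ?_) h
    rw [hΦ]
    simp only
    rw [hlog, ← add_assoc]
    push_cast
    have e1 : ∀ w w' : ℝ, (P : ℝ) * (w - P' * w') = P * w - P * P' * w' := fun _ _ => by ring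
    have e2 : ∀ w w' : ℝ, (P : ℝ) * (w + P' * w') = P * w + P * P' * w' := fun _ _ => by ring
    rw [e1, e2]
  -- step 2
  have step2 : EP PP i (fun P => EP PP j (fun P' => ∫ v in ta..tb, Φ P P' v)) ≤
      EP PP j (fun P' => ∫ v in ta..tb, G v * G (v + Real.log P') *
        ((if nd (θ v - P' * θ (v + Real.log P')) ≤ ρ then 1 else 0) +
         (if nd (θ v + P' * θ (v + Real.log P')) ≤ ρ then 1 else 0) + 2 * (ε / 6))) := by
    rw [EP_swap]
    refine EPx.EP_mono hLs j _ _ fun L' hL' _ => ?_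
    set P' := L'.prod
    obtain ⟨hI, hE⟩ := EP_int PP i hab (fun P => Φ P P') (fun P => hΦm P P')
      (fun P => hΦ0 P P') (fun P => hΦ2 P P')
    rw [hE]
    refine intervalIntegral.integral_mono_on hab hI ?_ fun v _ => ?_
    · refine integ (B := 2 + 2 * (ε / 6)) ?_ ?_ ?_ ta tb
      · refine (hGm.mul (hGs _)).mul (((ind_meas ?_ ρ).add (ind_meas ?_ ρ)).add_const _)
        · exact hθm.sub ((hθs _).const_mul _)
        · exact hθm.add ((hθs _).const_mul _)
      · intro v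
        exact mul_nonneg (mul_nonneg (hG0 _) (hG0 _))
          (add_nonneg (add_nonneg (ind_nonneg _) (ind_nonneg _)) (by positivity))
      · intro v
        have h1 : G v * G (v + Real.log P') ≤ 1 := mul_le_one₀ (hG1 _) (hG0 _) (hG1 _)
        have h2 := ind_le (nd (θ v - P' * θ (v + Real.log P')) ≤ ρ)
        have h3 := ind_le (nd (θ v + P' * θ (v + Real.log P')) ≤ ρ)
        have h4 := ind_nonneg (nd (θ v - P' * θ (v + Real.log P')) ≤ ρ)
        have h5 := ind_nonneg (nd (θ v + P' * θ (v + Real.log P')) ≤ ρ)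
        refine (mul_le_mul h1 (add_le_add (add_le_add h2 h3) le_rfl)
          (by positivity) zero_le_one).trans ?_
        linarith
    · have e : EP PP i (fun P => Φ P P' v) = G v * G (v + Real.log P') *
          (EP PP i (fun P => if nd ((P : ℝ) * (θ v - P' * θ (v + Real.log P'))) ≤ τ then 1 else 0) +
           EP PP i (fun P => if nd ((P : ℝ) * (θ v + P' * θ (v + Real.log P'))) ≤ τ
             then 1 else 0)) := by
        rw [hΦ]
        simp only
        rw [EPx.EP_mul, EPx.EP_add]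
      rw [e]
      refine mul_le_mul_of_nonneg_left ?_ (mul_nonneg (hG0 _) (hG0 _))
      have h1 := h8' i hi H (hH8 i hi) hLs (θ v - P' * θ (v + Real.log P')) τ hτ0 hτ
      have h2 := h8' i hi H (hH8 i hi) hLs (θ v + P' * θ (v + Real.log P')) τ hτ0 hτ
      linarith
  -- step 3
  set E : ℕ → ℝ → ℝ := fun P' x =>
    if ∃ y ∈ T (⌊Real.exp (x - Real.log P') / X⌋₊ * X), |P' * θ x - y| ≤ ρ then 1 else 0 with hE
  have hEm : ∀ P', Measurable (E P') := by
    intro P'
    have := meas2 X (-Real.log P') 0 (fun k₁ k₂ =>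
      if ∃ y ∈ T (k₁ * X), |P' * a k₂ - y| ≤ ρ then 1 else 0)
    simp only [add_zero, ← sub_eq_add_neg] at this
    exact this
  have hE0 : ∀ P' x, 0 ≤ E P' x := fun P' x => ind_nonneg _
  have hE1 : ∀ P' x, E P' x ≤ 1 := fun P' x => ind_le _
  set D : ℕ → ℝ → ℝ := fun P' x => if nd ((P' : ℝ) * (2 * θ x)) ≤ 2 * ρ then 1 else 0 with hD
  have hDm : ∀ P', Measurable (D P') := fun P' => ind_meas ((hθm.const_mul _).const_mul _) _
  have hD0 : ∀ P' x, 0 ≤ D P' x := fun P' x => ind_nonneg _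
  have hD1 : ∀ P' x, D P' x ≤ 1 := fun P' x => ind_le _
  have step3 : ∀ P' : ℕ, 1 ≤ P' → ∫ v in ta..tb, G v * G (v + Real.log P') *
        ((if nd (θ v - P' * θ (v + Real.log P')) ≤ ρ then 1 else 0) +
         (if nd (θ v + P' * θ (v + Real.log P')) ≤ ρ then 1 else 0) + 2 * (ε / 6)) ≤
      ∫ x in ta..tb, G x * (E P' x + D P' x + 2 * (ε / 6)) := by
    intro P' hP'
    have hPr' : (1 : ℝ) ≤ P' := by exact_mod_cast hP'
    set F : ℝ → ℝ := fun x => G (x - Real.log P') * G x *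
        ((if nd (θ (x - Real.log P') - P' * θ x) ≤ ρ then 1 else 0) +
         (if nd (θ (x - Real.log P') + P' * θ x) ≤ ρ then 1 else 0) + 2 * (ε / 6)) with hF
    have hFm : Measurable F := by
      have h1 : Measurable fun x => θ (x - Real.log P') := hθm.comp (measurable_id.sub_const _)
      have h2 : Measurable fun x => G (x - Real.log P') := hGm.comp (measurable_id.sub_const _)
      refine (h2.mul hGm).mul (((ind_meas ?_ ρ).add (ind_meas ?_ ρ)).add_const _)
      · exact h1.sub (hθm.const_mul _)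
      · exact h1.add (hθm.const_mul _)
    have hF0 : ∀ x, 0 ≤ F x := fun x => mul_nonneg (mul_nonneg (hG0 _) (hG0 _))
      (add_nonneg (add_nonneg (ind_nonneg _) (ind_nonneg _)) (by positivity))
    have hF1 : ∀ x, F x ≤ 2 + 2 * (ε / 6) := by
      intro x
      have h1 : G (x - Real.log P') * G x ≤ 1 := mul_le_one₀ (hG1 _) (hG0 _) (hG1 _)
      have h2 := ind_le (nd (θ (x - Real.log P') - P' * θ x) ≤ ρ)
      have h3 := ind_le (nd (θ (x - Real.log P') + P' * θ x) ≤ ρ)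
      have h4 := ind_nonneg (nd (θ (x - Real.log P') - P' * θ x) ≤ ρ)
      have h5 := ind_nonneg (nd (θ (x - Real.log P') + P' * θ x) ≤ ρ)
      refine (mul_le_mul h1 (add_le_add (add_le_add h2 h3) le_rfl)
        (by positivity) zero_le_one).trans ?_
      linarith
    have h := shift_le hFm hF0 hF1 (Real.log_nonneg hPr') (ta := ta) (tb := tb) (fun u hu => by
      rw [hF]
      simp only
      rw [hGz u hu, mul_zero, zero_mul])
    refine le_trans (le_of_eq_of_le (intervalIntegral.integral_congr fun u _ => ?_) h) ?_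
    · rw [hF]
      simp only
      rw [add_sub_cancel_right]
    refine intervalIntegral.integral_mono_on hab (integ hFm hF0 hF1 ta tb) ?_ fun x _ => ?_
    · refine integ (B := 2 + 2 * (ε / 6)) (hGm.mul (((hEm _).add (hDm _)).add_const _)) ?_ ?_ ta tb
      · exact fun x => mul_nonneg (hG0 _) (add_nonneg (add_nonneg (hE0 _ _) (hD0 _ _))
          (by positivity))
      · intro x
        refine (mul_le_mul (hG1 x) (add_le_add (add_le_add (hE1 P' x) (hD1 P' x)) le_rfl)
          (add_nonneg (add_nonneg (hE0 _ _) (hD0 _ _)) (by positivity)) zero_le_one).trans ?_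
        linarith
    · have hmem : θ (x - Real.log P') ∈ T (⌊Real.exp (x - Real.log P') / X⌋₊ * X) := haT _
      have hb : (if nd (θ (x - Real.log P') - P' * θ x) ≤ ρ then (1 : ℝ) else 0) +
          (if nd (θ (x - Real.log P') + P' * θ x) ≤ ρ then 1 else 0) ≤ E P' x + D P' x := by
        have hDD : nd (θ (x - Real.log P') - P' * θ x) ≤ ρ →
            nd (θ (x - Real.log P') + P' * θ x) ≤ ρ → D P' x = 1 := by
          intro h1 h2
          refine if_pos ?_
          have h3 := nd_sub_le (θ (x - Real.log P') + P' * θ x) (θ (x - Real.log P') - P' * θ x)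
          rw [show θ (x - Real.log P') + P' * θ x - (θ (x - Real.log P') - P' * θ x) =
            (P' : ℝ) * (2 * θ x) by ring] at h3
          linarith
        by_cases h1 : nd (θ (x - Real.log P') - P' * θ x) ≤ ρ
        · have hE1' : E P' x = 1 := if_pos (near_sub hT hmem h1)
          by_cases h2 : nd (θ (x - Real.log P') + P' * θ x) ≤ ρ
          · rw [if_pos h1, if_pos h2, hE1', hDD h1 h2]
          · rw [if_pos h1, if_neg h2, hE1']
            linarith [hD0 P' x]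
        · by_cases h2 : nd (θ (x - Real.log P') + P' * θ x) ≤ ρ
          · have hE1' : E P' x = 1 := if_pos (near_add hT hmem h2)
            rw [if_neg h1, if_pos h2, hE1']
            linarith [hD0 P' x]
          · rw [if_neg h1, if_neg h2]
            linarith [hD0 P' x, hE0 P' x]
      have hG2 : G (x - Real.log P') * G x ≤ G x := mul_le_of_le_one_left (hG0 _) (hG1 _)
      exact mul_le_mul hG2 (by linarith) (add_nonneg (add_nonneg (ind_nonneg _) (ind_nonneg _))
        (by positivity)) (hG0 _)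
  -- the integral of the weight
  have hGint : ∀ s t : ℝ, IntervalIntegrable G volume s t := integ hGm hG0 hG1
  have hGI : ∫ x in ta..tb, G x ≤ tb := by
    have h1 := intervalIntegral.integral_mono_on hab (hGint ta tb)
      (intervalIntegrable_const (c := (1 : ℝ))) (fun x _ => hG1 x)
    rw [intervalIntegral.integral_const, smul_eq_mul, mul_one] at h1
    linarith
  -- the double coincidences
  have hSS : ∀ x, G x ≤ SS X a x / ε := by
    intro x
    rw [hG, cg]
    split_ifs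
    · rw [le_div_iff₀ hε, mul_comm, RAr.SS_eq, ← T4x.vv_cell]
      exact hgv _
    · exact div_nonneg (RAr.SS_nonneg X a x) hε.le
  have hone : ∀ q : ℕ, 1 ≤ q → q ≤ Qm → ∫ x in ta..tb, G x *
      (if nd (((2 * q : ℕ) : ℝ) * (θ x - 0)) ≤ (H : ℝ) ^ (-(1 / 8) : ℝ) then 1 else 0) ≤
      ε / (2 * Qm) * tb := by
    intro q hq1 hq2
    have h1 := h13' H N X hH13 (by
      refine le_trans (Real.rpow_le_rpow_of_exponent_le hHr ?_) hN
      linarith) hX1 hX2 a (fun _ => 0) (fun _ _ _ _ => rfl) (2 * q) (by omega) (by omega)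
    rw [show (A + 1 + 3) * Real.log H = ta by rw [hta]; ring] at h1
    have h2 : ∫ x in ta..tb, G x *
        (if nd (((2 * q : ℕ) : ℝ) * (θ x - 0)) ≤ (H : ℝ) ^ (-(1 / 8) : ℝ) then 1 else 0) ≤
        ∫ x in ta..tb, (SS X a x *
        (if nd (((2 * q : ℕ) : ℝ) * (θ x - 0)) ≤ (H : ℝ) ^ (-(1 / 8) : ℝ) then 1 else 0)) / ε := by
      have hm : Measurable fun x =>
          (if nd (((2 * q : ℕ) : ℝ) * (θ x - 0)) ≤ (H : ℝ) ^ (-(1 / 8) : ℝ) then (1 : ℝ) else 0) :=
        ind_meas ((hθm.sub_const _).const_mul _) _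
      refine intervalIntegral.integral_mono_on hab ?_ ?_ fun x _ => ?_
      · exact integ (B := 1) (hGm.mul hm) (fun x => mul_nonneg (hG0 _) (ind_nonneg _))
          (fun x => mul_le_one₀ (hG1 _) (ind_nonneg _) (ind_le _)) ta tb
      · refine IntervalIntegrable.div_const ?_ _
        exact integ (B := 1) ((RAr.SS_meas X a).mul hm)
          (fun x => mul_nonneg (RAr.SS_nonneg _ _ _) (ind_nonneg _))
          (fun x => mul_le_one₀ (RAr.SS_le_one _ _ _) (ind_nonneg _) (ind_le _)) ta tb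
      · rw [mul_div_right_comm]
        exact mul_le_mul_of_nonneg_right (hSS x) (ind_nonneg _)
    rw [intervalIntegral.integral_div] at h2
    refine h2.trans ?_
    rw [div_le_iff₀ hε]
    refine h1.trans (le_of_eq ?_)
    rw [htb]
    field_simp
  have hDE : ∀ x, EP PP j (fun P' => D P' x) ≤ ε / 6 + ∑ q ∈ Icc 1 Qm,
      (if nd (((2 * q : ℕ) : ℝ) * (θ x - 0)) ≤ (H : ℝ) ^ (-(1 / 8) : ℝ) then (1 : ℝ) else 0) := by
    intro x
    have hs0 : 0 ≤ ∑ q ∈ Icc 1 Qm,
      (if nd (((2 * q : ℕ) : ℝ) * (θ x - 0)) ≤ (H : ℝ) ^ (-(1 / 8) : ℝ) then (1 : ℝ) else 0) :=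
      sum_nonneg fun q _ => ind_nonneg _
    rcases le_or_gt (EP PP j (fun P' => D P' x)) (ε / 6) with h1 | h1
    · linarith
    have hρC : Cm * (2 * ρ) ≤ (H : ℝ) ^ (-(1 / 8) : ℝ) := by
      have e1 : ρ = (H : ℝ) ^ (-(1 / 8) : ℝ) * (H : ℝ) ^ (-(1 / 8) : ℝ) := by
        rw [hρ, ← Real.rpow_add hH0]
        norm_num
      have e2 : (H : ℝ) ^ (1 / 8 : ℝ) * (H : ℝ) ^ (-(1 / 8) : ℝ) = 1 := by
        rw [← Real.rpow_add hH0]
        norm_num
      have e3 : 0 < (H : ℝ) ^ (-(1 / 8) : ℝ) := Real.rpow_pos_of_pos hH0 _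
      calc Cm * (2 * ρ) = (2 * Cm) * (H : ℝ) ^ (-(1 / 8) : ℝ) * (H : ℝ) ^ (-(1 / 8) : ℝ) := by
            rw [e1]; ring
        _ ≤ (H : ℝ) ^ (1 / 8 : ℝ) * (H : ℝ) ^ (-(1 / 8) : ℝ) * (H : ℝ) ^ (-(1 / 8) : ℝ) :=
            mul_le_mul_of_nonneg_right (mul_le_mul_of_nonneg_right hHbig e3.le) e3.le
        _ = _ := by rw [e2, one_mul]
    have h18 : (H : ℝ) ^ (-(1 / 8) : ℝ) ≤ 1 :=
      Real.rpow_le_one_of_one_le_of_nonpos hHr (by norm_num)
    have hCj := hCle j hjJ
    have hCj1 := hC7 j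
    obtain ⟨q, hq1, hq2, hq3⟩ := h7' j H (hH7 j hjJ) hLs (2 * θ x) (2 * ρ) (by positivity) (by
      rw [le_div_iff₀ (by linarith), mul_comm]
      calc C7 j * (2 * ρ) ≤ Cm * (2 * ρ) := mul_le_mul_of_nonneg_right hCj (by positivity)
        _ ≤ 1 := hρC.trans h18) h1.le
    have hle1 : EP PP j (fun P' => D P' x) ≤ 1 := by
      have := EPx.EP_mono hLs j (fun P' => D P' x) (fun _ => 1) (fun L _ _ => hD1 _ _)
      rwa [EPx.EP_const hLs] at this
    have hterm : (1 : ℝ) ≤ ∑ q ∈ Icc 1 Qm,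
      (if nd (((2 * q : ℕ) : ℝ) * (θ x - 0)) ≤ (H : ℝ) ^ (-(1 / 8) : ℝ) then (1 : ℝ) else 0) := by
      have h2 : nd (((2 * q : ℕ) : ℝ) * (θ x - 0)) ≤ (H : ℝ) ^ (-(1 / 8) : ℝ) := by
        rw [show ((2 * q : ℕ) : ℝ) * (θ x - 0) = (q : ℝ) * (2 * θ x) by push_cast; ring]
        exact hq3.trans ((mul_le_mul_of_nonneg_right hCj (by positivity)).trans hρC)
      have h3 := single_le_sum (f := fun q : ℕ =>
        (if nd (((2 * q : ℕ) : ℝ) * (θ x - 0)) ≤ (H : ℝ) ^ (-(1 / 8) : ℝ) then (1 : ℝ) else 0))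
        (fun q _ => ind_nonneg _) (mem_Icc.2 ⟨hq1, hq2.trans (hQle j hjJ)⟩ : q ∈ Icc 1 Qm)
      simp only [if_pos h2] at h3
      exact h3
    linarith
  -- step 4
  have step4 : EP PP j (fun P' => ∫ x in ta..tb, G x * (E P' x + D P' x + 2 * (ε / 6))) ≤
      EP PP j (fun P' => ∫ x in ta..tb, G x * E P' x) + ε * tb := by
    have hGE : ∀ P', IntervalIntegrable (fun x => G x * E P' x) volume ta tb := fun P' =>
      integ (B := 1) (hGm.mul (hEm _)) (fun x => mul_nonneg (hG0 _) (hE0 _ _))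
        (fun x => mul_le_one₀ (hG1 _) (hE0 _ _) (hE1 _ _)) ta tb
    have hGDm : ∀ P', Measurable (fun x => G x * D P' x) := fun P' => hGm.mul (hDm _)
    have hGD0 : ∀ P' x, 0 ≤ G x * D P' x := fun P' x => mul_nonneg (hG0 _) (hD0 _ _)
    have hGD1 : ∀ P' x, G x * D P' x ≤ 1 := fun P' x => mul_le_one₀ (hG1 _) (hD0 _ _) (hD1 _ _)
    have hGD : ∀ P', IntervalIntegrable (fun x => G x * D P' x) volume ta tb := fun P' =>
      integ (hGDm P') (hGD0 P') (hGD1 P') ta tb
    have e1 : ∀ P', ∫ x in ta..tb, G x * (E P' x + D P' x + 2 * (ε / 6)) =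
        (∫ x in ta..tb, G x * E P' x) + (∫ x in ta..tb, G x * D P' x) +
          (∫ x in ta..tb, G x) * (2 * (ε / 6)) := by
      intro P'
      rw [← intervalIntegral.integral_add (hGE P') (hGD P'), ← intervalIntegral.integral_mul_const,
        ← intervalIntegral.integral_add ((hGE P').add (hGD P')) ((hGint ta tb).mul_const _)]
      exact intervalIntegral.integral_congr fun x _ => by ring
    simp only [e1]
    rw [EPx.EP_add, EPx.EP_add, EPx.EP_const hLs]
    obtain ⟨hI, hEI⟩ := EP_int PP j hab (fun P' x => G x * D P' x) hGDm hGD0 hGD1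
    rw [hEI]
    have hm : ∀ q : ℕ, Measurable fun x =>
        (if nd (((2 * q : ℕ) : ℝ) * (θ x - 0)) ≤ (H : ℝ) ^ (-(1 / 8) : ℝ) then (1 : ℝ) else 0) :=
      fun q => ind_meas ((hθm.sub_const _).const_mul _) _
    have hGq : ∀ q : ℕ, IntervalIntegrable (fun x => G x *
        (if nd (((2 * q : ℕ) : ℝ) * (θ x - 0)) ≤ (H : ℝ) ^ (-(1 / 8) : ℝ) then (1 : ℝ) else 0))
        volume ta tb := fun q => integ (B := 1) (hGm.mul (hm q))
          (fun x => mul_nonneg (hG0 _) (ind_nonneg _))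
          (fun x => mul_le_one₀ (hG1 _) (ind_nonneg _) (ind_le _)) ta tb
    have hGs : IntervalIntegrable (fun x => ∑ q ∈ Icc 1 Qm, G x *
        (if nd (((2 * q : ℕ) : ℝ) * (θ x - 0)) ≤ (H : ℝ) ^ (-(1 / 8) : ℝ) then (1 : ℝ) else 0))
        volume ta tb := by
      have h := IntervalIntegrable.sum (Icc 1 Qm) (fun q _ => hGq q)
      have e : (fun x => ∑ q ∈ Icc 1 Qm, G x *
        (if nd (((2 * q : ℕ) : ℝ) * (θ x - 0)) ≤ (H : ℝ) ^ (-(1 / 8) : ℝ) then (1 : ℝ) else 0)) =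
        ∑ q ∈ Icc 1 Qm, fun x => G x *
        (if nd (((2 * q : ℕ) : ℝ) * (θ x - 0)) ≤ (H : ℝ) ^ (-(1 / 8) : ℝ) then (1 : ℝ) else 0) := by
        funext x
        rw [Finset.sum_apply]
      rw [e]
      exact h
    have h1 : ∫ x in ta..tb, EP PP j (fun P' => G x * D P' x) ≤
        ∫ x in ta..tb, (G x * (ε / 6) + ∑ q ∈ Icc 1 Qm, G x *
          (if nd (((2 * q : ℕ) : ℝ) * (θ x - 0)) ≤ (H : ℝ) ^ (-(1 / 8) : ℝ) then (1 : ℝ)
            else 0)) := by
      refine intervalIntegral.integral_mono_on hab hI ?_ fun x _ => ?_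
      · exact ((hGint ta tb).mul_const _).add hGs
      · rw [EPx.EP_mul, ← mul_sum, ← mul_add]
        exact mul_le_mul_of_nonneg_left (hDE x) (hG0 x)
    rw [intervalIntegral.integral_add ((hGint ta tb).mul_const _) hGs, intervalIntegral.integral_finsetSum
      (fun q _ => hGq q), intervalIntegral.integral_mul_const] at h1
    have h2 : ∑ q ∈ Icc 1 Qm, ∫ x in ta..tb, G x *
        (if nd (((2 * q : ℕ) : ℝ) * (θ x - 0)) ≤ (H : ℝ) ^ (-(1 / 8) : ℝ) then (1 : ℝ) else 0) ≤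
        ε / 2 * tb := by
      calc _ ≤ ∑ q ∈ Icc 1 Qm, ε / (2 * Qm) * tb := sum_le_sum fun q hq =>
            hone q (mem_Icc.1 hq).1 (mem_Icc.1 hq).2
        _ = ε / 2 * tb := by
            rw [sum_const, Nat.card_Icc, Nat.add_sub_cancel, nsmul_eq_mul]
            field_simp
    have h3 : (∫ x in ta..tb, G x) * (ε / 6) ≤ tb * (ε / 6) :=
      mul_le_mul_of_nonneg_right hGI (by positivity)
    have h4 : (∫ x in ta..tb, G x) * (2 * (ε / 6)) ≤ tb * (2 * (ε / 6)) :=
      mul_le_mul_of_nonneg_right hGI (by positivity)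
    linarith
  refine step1.trans (step2.trans (le_trans ?_ step4))
  exact EPx.EP_mono hLs j _ _ fun L' hL' _ => step3 _ (hpos L' hL')

end

end Pool.Agent.SV
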