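import Mathlib
import Pool.Agent.Lib.SV.TFDefs2
import Pool.Agent.Lib.SV.T0

/-!
# Theorem TF (MP_663568_nt), row T16b: equidistribution against the sets `T` (helper20)
-/

set_option autoImplicit false
open Finset MeasureTheory

namespace Pool.Agent.SV

open Pool.Agent.Lib.MP_663568_nt Pool.Agent.Lib.MP_663568_nt.Katai
  Pool.Agent.Lib.MP_663568_nt.Nul

noncomputable section

namespace T16bx

/-- The open `1 / R`-neighbourhood. -/
def U (S : Set ℝ) (R : ℝ) : Set ℝ := {x : ℝ | ∃ y ∈ S, |y - x| < 1 / R}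

theorem isOpen_U (S : Set ℝ) (R : ℝ) : IsOpen (U S R) := by
  have : U S R = ⋃ y ∈ S, Metric.ball y (1 / R) := by
    ext x
    rw [Set.mem_iUnion₂]
    constructor
    · rintro ⟨y, hy, h⟩
      exact ⟨y, hy, by rwa [Metric.mem_ball, Real.dist_eq, abs_sub_comm]⟩
    · rintro ⟨y, hy, h⟩
      refine ⟨y, hy, ?_⟩
      rwa [Metric.mem_ball, Real.dist_eq, abs_sub_comm] at h
  rw [this]
  exact isOpen_biUnion fun _ _ => Metric.isOpen_ball

theorem U_periodic {S : Set ℝ} {R : ℝ} (h : ∀ y : ℝ, y + 1 ∈ S ↔ y ∈ S) (x : ℝ) :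
    x + 1 ∈ U S R ↔ x ∈ U S R := by
  constructor
  · rintro ⟨y, hy, hxy⟩
    refine ⟨y - 1, ?_, ?_⟩
    · have := h (y - 1)
      rw [sub_add_cancel] at this
      exact this.1 hy
    · have : y - 1 - x = y - (x + 1) := by ring
      rwa [this]
  · rintro ⟨y, hy, hxy⟩
    refine ⟨y + 1, (h y).2 hy, ?_⟩
    have : y + 1 - (x + 1) = y - x := by ring
    rwa [this]

theorem om1_eq (S : Set ℝ) (R : ℝ) : om1 S R = (volume (U S R ∩ Set.Icc 0 1)).toReal := by
  unfold om1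
  congr 2
  ext x
  exact and_comm

theorem om1_nonneg (S : Set ℝ) (R : ℝ) : 0 ≤ om1 S R := ENNReal.toReal_nonneg

theorem om1_le (S : Set ℝ) (R : ℝ) : om1 S R ≤ 1 := by
  rw [om1_eq]
  have h1 : volume (U S R ∩ Set.Icc 0 1) ≤ 1 := by
    refine (measure_mono Set.inter_subset_right).trans ?_
    rw [Real.volume_Icc]
    norm_num
  have := ENNReal.toReal_mono ENNReal.one_ne_top h1
  simpa using this

theorem ii {E : Type} [NormedAddCommGroup E] [MeasurableSpace E] [BorelSpace E]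
    [SecondCountableTopology E] {f : ℝ → E} (hm : Measurable f) {M : ℝ} (hb : ∀ x, ‖f x‖ ≤ M)
    (a b : ℝ) : IntervalIntegrable f volume a b := by
  rw [intervalIntegrable_iff]
  refine MeasureTheory.Measure.integrableOn_of_bounded (M := M) ?_ hm.aestronglyMeasurable ?_
  · simp [Set.uIoc]
  · exact Filter.Eventually.of_forall fun t => hb t

theorem meas_nat {α : Type} [MeasurableSpace α] (X : ℕ) (f : ℕ → α) {φ : ℝ → ℝ}
    (hφ : Measurable φ) : Measurable fun u : ℝ => f ⌊Real.exp (φ u) / X⌋₊ :=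
  (measurable_from_nat (f := f)).comp
    (Nat.measurable_floor.comp ((Real.measurable_exp.comp hφ).div_const _))

theorem meas_cf (X : ℕ) (a : ℕ → ℝ) : Measurable (cf X a) := meas_nat X a measurable_id

theorem meas_cg (X : ℕ) (g : ℕ → ℝ) (ta tb : ℝ) : Measurable (cg X g ta tb) := by
  unfold cg
  refine Measurable.ite ?_ (meas_nat X g measurable_id) measurable_const
  exact measurableSet_Icc

theorem cg_nonneg (X : ℕ) {g : ℕ → ℝ} (hg : ∀ k, 0 ≤ g k) (ta tb u : ℝ) : 0 ≤ cg X g ta tb u := by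
  unfold cg
  split_ifs
  · exact hg _
  · exact le_rfl

theorem cg_le (X : ℕ) {g : ℕ → ℝ} (hg : ∀ k, g k ≤ 1) (ta tb u : ℝ) : cg X g ta tb u ≤ 1 := by
  unfold cg
  split_ifs
  · exact hg _
  · exact zero_le_one

theorem SS_eq (X : ℕ) (a : ℕ → ℝ) (u : ℝ) :
    SS X a u = vv X (⌊Real.exp u / X⌋₊ * X) (a ⌊Real.exp u / X⌋₊) := by
  rw [← t0, SS, zz, norm_div, RCLike.norm_natCast]
  congr 2
  refine sum_congr ?_ fun _ _ => rfl
  rw [add_mul, one_mul]

theorem vv_nonneg (l y : ℕ) (b : ℝ) : 0 ≤ vv l y b := by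
  unfold vv; positivity

theorem vv_le (l y : ℕ) (b : ℝ) : vv l y b ≤ 1 := by
  unfold vv
  apply div_le_one_of_le₀ _ (Nat.cast_nonneg _)
  refine (norm_sum_le _ _).trans ?_
  calc ∑ m ∈ Icc 1 l, ‖muC (y + m) * ee (b * m)‖ ≤ ∑ m ∈ Icc 1 l, (1 : ℝ) := by
        refine sum_le_sum fun m _ => ?_
        rw [norm_mul, norm_ee, mul_one]
        exact norm_muC _
    _ = l := by simp

theorem meas_SS (X : ℕ) (a : ℕ → ℝ) : Measurable (SS X a) := by
  have : SS X a = fun u => (fun k : ℕ => vv X (k * X) (a k)) ⌊Real.exp u / X⌋₊ := by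
    funext u
    exact SS_eq X a u
  rw [this]
  exact meas_nat X (fun k : ℕ => vv X (k * X) (a k)) measurable_id

theorem meas_grid {al : ℝ → ℝ} {r : ℝ} (hr : 0 < r) (h : Grid al r) : Measurable al := by
  have : al = fun u => (fun i : ℤ => al (i * r)) ⌊u / r⌋ := by
    funext u
    refine h ⌊u / r⌋ u ?_ ?_
    · rw [← le_div_iff₀ hr]
      exact Int.floor_le _
    · rw [← div_lt_iff₀ hr]
      exact Int.lt_floor_add_one _
  rw [this]
  have h2 : Measurable fun u : ℝ => ⌊u / r⌋ := Int.measurable_floor.comp (measurable_id.div_const r)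
  exact (measurable_of_countable (fun i : ℤ => al (i * r))).comp h2

/-- Products of primes of `[H ^ κ₁, H ^ κ₂]`. -/
theorem log_prod_le (H : ℕ) (κ₁ κ₂ : ℝ) (hH : 1 ≤ H) : ∀ L : List ℕ,
    (∀ p ∈ L, p ∈ PPs H κ₁ κ₂) → 1 ≤ L.prod ∧
      Real.log (L.prod : ℕ) ≤ L.length * (κ₂ * Real.log H) := by
  intro L
  have hH0 : (0 : ℝ) < H := by exact_mod_cast hH
  induction L with
  | nil => intro _; simp
  | cons p L ih =>
    intro h
    obtain ⟨h1, h2⟩ := ih fun q hq => h q (List.mem_cons_of_mem _ hq)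
    have hp := h p (List.mem_cons_self)
    rw [PPs, mem_filter, mem_Icc] at hp
    have hp1 : 1 ≤ p := hp.1.1
    have hp2 : (p : ℝ) ≤ (H : ℝ) ^ κ₂ := (Nat.cast_le.2 hp.1.2).trans (Nat.floor_le (by positivity))
    have hp0 : (0 : ℝ) < p := by exact_mod_cast hp1
    have hP0 : (0 : ℝ) < (L.prod : ℕ) := by exact_mod_cast h1
    rw [List.prod_cons, List.length_cons]
    refine ⟨Nat.mul_pos hp1 h1, ?_⟩
    have h3 : Real.log p ≤ κ₂ * Real.log H := by
      have := Real.log_le_log hp0 hp2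
      rwa [Real.log_rpow hH0] at this
    rw [Nat.cast_mul, Nat.cast_add, Nat.cast_one, Real.log_mul hp0.ne' hP0.ne']
    linarith

theorem EP_sum {PP : Finset ℕ} (j : ℕ) (h0 : ∀ c : ℝ, EP PP j (fun _ => c) = c)
    (h1 : ∀ F G : ℕ → ℝ, EP PP j (fun P => F P + G P) = EP PP j F + EP PP j G) {ι : Type}
    (s : Finset ι) (G : ι → ℕ → ℝ) :
    EP PP j (fun P => ∑ k ∈ s, G k P) = ∑ k ∈ s, EP PP j (G k) := by
  classical
  induction s using Finset.induction_on with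
  | empty => simpa using h0 0
  | insert a s ha ih =>
    simp only [sum_insert ha]
    rw [h1, ih]

open Classical in
/-- One value of `j`. -/
theorem one_j (h11 : T11') (h13 : T13') (h15 : T15_stmt) (hS1 : S1') (hS2 : S2')
    (hE : EPC_stmt) (A ε κ₁ κ₂ R : ℝ) (J : ℕ) (hA : 0 ≤ A) (hε : 0 < ε) (hκ₁ : 0 < κ₁)
    (hκ₁₂ : κ₁ ≤ κ₂) (hR : 1 ≤ R) (hJ : κ₂ * J ≤ 1 / 8) (j : ℕ) (hj1 : 1 ≤ j) (hjJ : j ≤ J) :
    ∃ H₀ : ℕ, ∀ H N X : ℕ, H₀ ≤ H → 1 ≤ Ls (PPs H κ₁ κ₂) →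
  (H : ℝ) ^ (A + 5) ≤ N → (H : ℝ) ^ (1 / 2 : ℝ) ≤ X → X ≤ H →
  ∀ T : ℕ → Set ℝ, SymP T → Slow T ((H : ℝ) ^ A) → ∀ a g : ℕ → ℝ, (∀ k, 0 ≤ g k) →
  (∀ k, g k ≤ 1) → (∀ k : ℕ, ε * g k ≤ vv X (k * X) (a k)) →
  EP (PPs H κ₁ κ₂) j (fun P' => ∫ x in ((A + 4) * Real.log H)..(Real.log N),
    cg X g ((A + 4) * Real.log H) (Real.log N) x *
    (if ∃ y ∈ T (⌊Real.exp (x - Real.log P') / X⌋₊ * X),
      |P' * cf X a x - y| ≤ (H : ℝ) ^ (-(1 / 4) : ℝ) then 1 else 0)) ≤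
  ∑ n ∈ Icc 1 N, (1 / (n : ℝ)) * om1 (T n) R + ε * Real.log N := by
  have hκ₂ : 0 < κ₂ := by linarith
  have hR0 : 0 < R := by linarith
  obtain ⟨K, hK⟩ := h15 (2 * R) (ε / 4) (by linarith) (by positivity)
  -- the coefficients of the sets
  have hC : ∀ S : Set ℝ, ∃ c : ℤ → ℂ, (∀ k, ‖c k‖ ≤ 1) ∧ ((∀ y : ℝ, y + 1 ∈ S ↔ y ∈ S) →
      c 0 = (om1 S R : ℂ) ∧ ∀ x : ℝ, 0 ≤ (∑ k ∈ Icc (-(K : ℤ)) K, c k * ee (k * x)).re ∧
      ((∀ z : ℝ, |z - x| ≤ 1 / (2 * R) → z ∈ U S R) →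
        1 - ε / 4 ≤ (∑ k ∈ Icc (-(K : ℤ)) K, c k * ee (k * x)).re)) := by
    intro S
    by_cases hS : ∀ y : ℝ, y + 1 ∈ S ↔ y ∈ S
    · obtain ⟨c, h1, h2, h3⟩ := hK (U S R) (isOpen_U S R).measurableSet (U_periodic hS)
      exact ⟨c, h1, fun _ => ⟨by rw [h2, om1_eq], fun x => ⟨(h3 x).1, (h3 x).2.2.1⟩⟩⟩
    · exact ⟨0, by simp, fun h => absurd h hS⟩
  choose C hC1 hC2 using hC
  obtain ⟨ε₂, hε₂⟩ : ∃ ε₂ : ℝ, ε₂ = ε / (4 * (2 * K + 1)) := ⟨_, rfl⟩
  have hε₂0 : 0 < ε₂ := by rw [hε₂]; positivity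
  obtain ⟨Q, ε₁, hQ, hε₁, Ha, h11⟩ := h11 κ₁ κ₂ ε₂ j K hκ₁ hκ₁₂ hε₂0 hj1
  obtain ⟨Hb, h13⟩ := h13 (A + 1) (κ₁ / 2) (ε * ε₁) Q (by linarith) (by positivity)
    (by positivity)
  obtain ⟨Hc, hS1⟩ := hS1 A hA
  obtain ⟨Hd, hS2⟩ := hS2 A (ε / 4) hA (by positivity)
  refine ⟨Ha + Hb + Hc + Hd + 3 + ⌈4 / ε₁⌉₊ + (⌈(2 * R) ^ 4⌉₊ + 1),
    fun H N X hH hL hN hX1 hX2 T hT hslow a g hg0 hg1 hgv => ?_⟩
  have hH3 : 3 ≤ H := by omega
  have hHr : (3 : ℝ) ≤ H := by exact_mod_cast hH3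
  have hH0 : (0 : ℝ) < H := by linarith
  have hH1 : (1 : ℝ) ≤ H := by linarith
  have hHe : 4 / ε₁ ≤ H := (Nat.le_ceil _).trans (by exact_mod_cast (by omega : ⌈4 / ε₁⌉₊ ≤ H))
  have hHR : (2 * R) ^ 4 < H := by
    refine (Nat.le_ceil _).trans_lt ?_
    exact_mod_cast (by omega : ⌈(2 * R) ^ 4⌉₊ < H)
  have hlH : 1 ≤ Real.log H := by
    rw [Real.le_log_iff_exp_le hH0]
    have := Real.exp_one_lt_d9
    linarith
  have hN0 : (0 : ℝ) < N := lt_of_lt_of_le (by positivity) hN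
  have hlN : (A + 5) * Real.log H ≤ Real.log N := by
    have := Real.log_le_log (by positivity) hN
    rwa [Real.log_rpow hH0] at this
  have hX1' : 1 ≤ X := by
    have : (1 : ℝ) ≤ X := (Real.one_le_rpow hH1 (by norm_num)).trans hX1
    exact_mod_cast this
  have hX0 : (0 : ℝ) < X := by exact_mod_cast hX1'
  obtain ⟨ta, hta⟩ : ∃ ta : ℝ, ta = (A + 4) * Real.log H := ⟨_, rfl⟩
  obtain ⟨tb, htb⟩ : ∃ tb : ℝ, tb = Real.log N := ⟨_, rfl⟩
  have hAl : 0 ≤ A * Real.log H := by positivity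
  have hab : ta ≤ tb := by rw [hta, htb]; nlinarith
  have hta0 : 0 ≤ ta := by rw [hta]; positivity
  have htb1 : 1 ≤ tb := by rw [htb]; nlinarith
  rw [← hta, ← htb]
  obtain ⟨E1, E2, E3, E4, -⟩ := hE (PPs H κ₁ κ₂) hL
  set W : ℝ → ℝ := cg X g ta tb with hW
  set θ : ℝ → ℝ := cf X a with hθ
  have hWm : Measurable W := meas_cg X g ta tb
  have hθm : Measurable θ := meas_cf X a
  have hW0 : ∀ x, 0 ≤ W x := cg_nonneg X hg0 ta tb
  have hW1 : ∀ x, W x ≤ 1 := cg_le X hg1 ta tb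
  set Ak : ℤ → ℝ → ℂ := fun k u =>
    C (T (⌊Real.exp (max u ((A + 3) * Real.log H)) / X⌋₊ * X)) k with hAk
  have hAkm : ∀ k, Measurable (Ak k) := fun k =>
    meas_nat X (fun n => C (T (n * X)) k) (measurable_id.max measurable_const)
  have hAk1 : ∀ k u, ‖Ak k u‖ ≤ 1 := fun k u => hC1 _ _
  -- the concentration hypothesis
  have hconc : ∀ q : ℕ, 1 ≤ q → q ≤ Q → ∀ al : ℝ → ℝ, Grid al ((H : ℝ) ^ (-(A + 1))) →
      ∫ x in ta..tb, W x * (if nd ((q : ℝ) * (θ x - al x)) ≤ (H : ℝ) ^ (-(κ₁ / 2)) then 1 else 0)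
        ≤ ε₁ * tb := by
    intro q hq1 hq2 al hal
    have h1 := h13 H N X (by omega) (by
      refine le_trans ?_ hN
      exact Real.rpow_le_rpow_of_exponent_le hH1 (by linarith)) hX1 hX2 a al hal q hq1 hq2
    have e1 : (A + 1 + 3) * Real.log H = ta := by rw [hta]; ring
    rw [e1, ← htb] at h1
    have hrp : (0 : ℝ) < (H : ℝ) ^ (-(A + 1)) := by positivity
    have halm := meas_grid hrp hal
    have hindm : Measurable fun x : ℝ =>
        (if nd ((q : ℝ) * (θ x - al x)) ≤ (H : ℝ) ^ (-(κ₁ / 2)) then (1 : ℝ) else 0) := by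
      refine Measurable.ite ?_ measurable_const measurable_const
      exact measurableSet_le (continuous_nd.measurable.comp ((hθm.sub halm).const_mul _))
        measurable_const
    have hind0 : ∀ x : ℝ, 0 ≤
        (if nd ((q : ℝ) * (θ x - al x)) ≤ (H : ℝ) ^ (-(κ₁ / 2)) then (1 : ℝ) else 0) := by
      intro x; split_ifs <;> norm_num
    have hind1 : ∀ x : ℝ,
        (if nd ((q : ℝ) * (θ x - al x)) ≤ (H : ℝ) ^ (-(κ₁ / 2)) then (1 : ℝ) else 0) ≤ 1 := by
      intro x; split_ifs <;> norm_num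
    have h2 : ε * ∫ x in ta..tb, W x *
        (if nd ((q : ℝ) * (θ x - al x)) ≤ (H : ℝ) ^ (-(κ₁ / 2)) then 1 else 0) ≤
        ∫ x in ta..tb, SS X a x *
        (if nd ((q : ℝ) * (cf X a x - al x)) ≤ (H : ℝ) ^ (-(κ₁ / 2)) then 1 else 0) := by
      rw [← intervalIntegral.integral_const_mul]
      refine intervalIntegral.integral_mono_on hab ?_ ?_ fun x _ => ?_
      · have hm1 : Measurable fun x : ℝ => ε * (W x *
            (if nd ((q : ℝ) * (θ x - al x)) ≤ (H : ℝ) ^ (-(κ₁ / 2)) then 1 else 0)) :=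
          (hWm.mul hindm).const_mul ε
        refine ii (M := ε) hm1 (fun x => ?_) ta tb
        rw [Real.norm_eq_abs, abs_of_nonneg (mul_nonneg hε.le (mul_nonneg (hW0 x) (hind0 x)))]
        have := mul_le_one₀ (hW1 x) (hind0 x) (hind1 x)
        nlinarith
      · have hm1 : Measurable fun x : ℝ => SS X a x *
            (if nd ((q : ℝ) * (cf X a x - al x)) ≤ (H : ℝ) ^ (-(κ₁ / 2)) then 1 else 0) :=
          (meas_SS X a).mul hindm
        refine ii (M := 1) hm1 (fun x => ?_) ta tb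
        have h3 : 0 ≤ SS X a x := by rw [SS_eq]; exact vv_nonneg _ _ _
        have h4 : SS X a x ≤ 1 := by rw [SS_eq]; exact vv_le _ _ _
        rw [Real.norm_eq_abs, abs_of_nonneg (mul_nonneg h3 (hind0 x))]
        exact mul_le_one₀ h4 (hind0 x) (hind1 x)
      · rw [← mul_assoc]
        refine mul_le_mul_of_nonneg_right ?_ (hind0 x)
        rw [hW, cg]
        have h3 : 0 ≤ SS X a x := by rw [SS_eq]; exact vv_nonneg _ _ _
        split_ifs
        · rw [SS_eq]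
          exact hgv _
        · rw [mul_zero]; exact h3
    have h3 := h2.trans h1
    have h4 : ε * ε₁ * tb = ε * (ε₁ * tb) := by ring
    rw [h4] at h3
    exact le_of_mul_le_mul_left h3 hε
  -- the frequencies
  have hfreq : ∀ k : ℤ, k ≠ 0 → |k| ≤ K →
      EP (PPs H κ₁ κ₂) j (fun P => ‖∫ x in ta..tb, (W x : ℂ) * Ak k (x - Real.log P) *
        ee (k * ((P : ℝ) * θ x))‖) ≤ ε₂ * tb := by
    intro k hk0 hkK
    have hrK : (H : ℝ) ^ (-(A + 1)) * (4 * (H : ℝ) ^ A) ≤ ε₁ := by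
      have e : (H : ℝ) ^ (-(A + 1)) * (4 * (H : ℝ) ^ A) = 4 / H := by
        have : (H : ℝ) ^ (-(A + 1)) * (H : ℝ) ^ A = (H : ℝ)⁻¹ := by
          rw [← Real.rpow_add hH0, ← Real.rpow_neg_one]
          congr 1
          ring
        rw [mul_left_comm, this]
        rfl
      rw [e, div_le_iff₀ hH0]
      rwa [div_le_iff₀ hε₁, mul_comm] at hHe
    refine h11 H (by omega) hL ((H : ℝ) ^ (-(A + 1))) ta tb tb (4 * (H : ℝ) ^ A) (by positivity) hab
      (by linarith) htb1 ?_ hrK W θ (Ak k) hWm hθm hW0 hW1 ?_ (hAk1 k) hconc k hk0 hkK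
    · have := Real.one_le_rpow hH1 hA
      linarith
    · exact hS1 H X (by omega) hX1' hX2 T hslow fun S => C S k
  -- one product of primes
  have hper : ∀ n : ℕ, ∀ y : ℝ, y + 1 ∈ T n ↔ y ∈ T n := fun n y => (hT n y).2
  set Z : Finset ℤ := (Icc (-(K : ℤ)) K).erase 0 with hZ
  have hone : ∀ P : ℕ, 1 ≤ P → Real.log P ≤ Real.log H / 8 →
      (∫ x in ta..tb, W x * (if ∃ y ∈ T (⌊Real.exp (x - Real.log P) / X⌋₊ * X),
        |P * θ x - y| ≤ (H : ℝ) ^ (-(1 / 4) : ℝ) then 1 else 0)) ≤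
      ∑ k ∈ Z, ‖∫ x in ta..tb, (W x : ℂ) * Ak k (x - Real.log P) * ee (k * ((P : ℝ) * θ x))‖ +
        (∑ n ∈ Icc 1 N, (1 / (n : ℝ)) * om1 (T n) R + ε / 4 + ε / 4 * tb) := by
    intro P hP1 hPl
    have hP0 : (1 : ℝ) ≤ P := by exact_mod_cast hP1
    have hlP : 0 ≤ Real.log P := Real.log_nonneg hP0
    obtain ⟨v, hv⟩ : ∃ v : ℝ, v = Real.log P := ⟨_, rfl⟩
    rw [← hv] at hPl hlP ⊢
    have hmax : ∀ x, ta ≤ x → max (x - v) ((A + 3) * Real.log H) = x - v := by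
      intro x hx
      apply max_eq_left
      rw [hta] at hx
      linarith
    set f : ℤ → ℝ → ℂ := fun k x => (W x : ℂ) * Ak k (x - v) * ee (k * ((P : ℝ) * θ x)) with hf
    have hfm : ∀ k, Measurable (f k) := by
      intro k
      refine ((Complex.measurable_ofReal.comp hWm).mul
        ((hAkm k).comp (measurable_id.sub_const v))).mul ?_
      have hee : Continuous ee := by unfold ee; fun_prop
      exact hee.measurable.comp ((hθm.const_mul _).const_mul _)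
    have hf1 : ∀ k x, ‖f k x‖ ≤ 1 := by
      intro k x
      rw [hf]
      simp only
      rw [norm_mul, norm_mul, norm_ee, mul_one, Complex.norm_real, Real.norm_eq_abs,
        abs_of_nonneg (hW0 x)]
      exact mul_le_one₀ (hW1 x) (norm_nonneg _) (hAk1 _ _)
    have hfi : ∀ k, IntervalIntegrable (f k) volume ta tb := fun k => ii (hfm k) (hf1 k) ta tb
    have hfr : ∀ k, IntervalIntegrable (fun x => (f k x).re) volume ta tb := by
      intro k
      refine ii (M := 1) (Complex.measurable_re.comp (hfm k)) (fun x => ?_) ta tb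
      exact (Complex.abs_re_le_norm _).trans (hf1 k x)
    -- pointwise
    have hindm : Measurable fun x : ℝ =>
        (if ∃ y ∈ T (⌊Real.exp (x - v) / X⌋₊ * X),
          |P * θ x - y| ≤ (H : ℝ) ^ (-(1 / 4) : ℝ) then (1 : ℝ) else 0) := by
      have h1 : Measurable fun x : ℝ => (⌊Real.exp (x - v) / X⌋₊, ⌊Real.exp x / X⌋₊) :=
        (meas_nat X (fun n => n) (measurable_id.sub_const v)).prodMk
          (meas_nat X (fun n => n) measurable_id)
      have h2 : Measurable fun z : ℕ × ℕ => (if ∃ y ∈ T (z.1 * X),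
          |P * a z.2 - y| ≤ (H : ℝ) ^ (-(1 / 4) : ℝ) then (1 : ℝ) else 0) :=
        measurable_of_countable _
      exact h2.comp h1
    have hpt : ∀ x ∈ Set.Icc ta tb, W x * (if ∃ y ∈ T (⌊Real.exp (x - v) / X⌋₊ * X),
        |P * θ x - y| ≤ (H : ℝ) ^ (-(1 / 4) : ℝ) then 1 else 0) ≤
        ∑ k ∈ Icc (-(K : ℤ)) K, (f k x).re + ε / 4 := by
      intro x hx
      have hm := hmax x hx.1
      set n := ⌊Real.exp (x - v) / X⌋₊ * X with hn
      have e1 : ∑ k ∈ Icc (-(K : ℤ)) K, (f k x).re =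
          W x * (∑ k ∈ Icc (-(K : ℤ)) K, C (T n) k * ee (k * (P * θ x))).re := by
        rw [Complex.re_sum, mul_sum]
        refine sum_congr rfl fun k _ => ?_
        rw [hf]
        simp only [hAk]
        rw [hm, ← hn, mul_assoc, Complex.re_ofReal_mul]
      rw [e1]
      obtain ⟨-, h2⟩ := hC2 (T n) (hper n)
      obtain ⟨h3, h4⟩ := h2 (P * θ x)
      split_ifs with hy
      · obtain ⟨y, hy1, hy2⟩ := hy
        have h5 := h4 fun z hz => ⟨y, hy1, by
          have h6 : (H : ℝ) ^ (-(1 / 4) : ℝ) < 1 / (2 * R) := by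
            rw [Real.rpow_neg hH0.le, one_div (2 * R)]
            apply inv_strictAnti₀ (by positivity)
            have h7 := Real.rpow_lt_rpow (by positivity) hHR (show (0 : ℝ) < 1 / 4 by norm_num)
            have h8 : ((2 * R) ^ 4 : ℝ) ^ (1 / 4 : ℝ) = 2 * R := by
              rw [← Real.rpow_natCast, ← Real.rpow_mul (by positivity)]
              norm_num
            rwa [h8] at h7
          have h9 : |y - z| ≤ |P * θ x - y| + |z - P * θ x| := by
            rw [abs_sub_comm y z]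
            calc |z - y| = |(z - P * θ x) + (P * θ x - y)| := by congr 1; ring
              _ ≤ |z - P * θ x| + |P * θ x - y| := abs_add_le _ _
              _ = _ := add_comm _ _
          have h10 : 1 / R = 1 / (2 * R) + 1 / (2 * R) := by field_simp; norm_num
          rw [h10]
          linarith⟩
        have h6 : W x * (1 - ε / 4) ≤ W x *
            (∑ k ∈ Icc (-(K : ℤ)) K, C (T n) k * ee (k * (P * θ x))).re :=
          mul_le_mul_of_nonneg_left h5 (hW0 x)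
        have h7 : W x * (ε / 4) ≤ ε / 4 := mul_le_of_le_one_left (by positivity) (hW1 x)
        linarith
      · rw [mul_zero]
        have := mul_nonneg (hW0 x) h3
        positivity
    have hsumI : IntervalIntegrable (fun x => ∑ k ∈ Icc (-(K : ℤ)) K, (f k x).re) volume ta tb := by
      have e := IntervalIntegrable.sum (Icc (-(K : ℤ)) K) fun k _ => hfr k
      have e2 : (∑ i ∈ Icc (-(K : ℤ)) K, fun x => (f i x).re) =
          fun x => ∑ k ∈ Icc (-(K : ℤ)) K, (f k x).re := by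
        funext x
        rw [Finset.sum_apply]
      rwa [e2] at e
    have hint : (∫ x in ta..tb, W x * (if ∃ y ∈ T (⌊Real.exp (x - v) / X⌋₊ * X),
        |P * θ x - y| ≤ (H : ℝ) ^ (-(1 / 4) : ℝ) then 1 else 0)) ≤
        ∑ k ∈ Icc (-(K : ℤ)) K, (∫ x in ta..tb, (f k x).re) + ε / 4 * (tb - ta) := by
      have h1 : ∑ k ∈ Icc (-(K : ℤ)) K, (∫ x in ta..tb, (f k x).re) + ε / 4 * (tb - ta) =
          ∫ x in ta..tb, (∑ k ∈ Icc (-(K : ℤ)) K, (f k x).re + ε / 4) := by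
        rw [intervalIntegral.integral_add, intervalIntegral.integral_finsetSum,
          intervalIntegral.integral_const, smul_eq_mul, mul_comm (ε / 4)]
        · exact fun k _ => hfr k
        · exact hsumI
        · exact intervalIntegrable_const
      rw [h1]
      refine intervalIntegral.integral_mono_on hab ?_ ?_ hpt
      · have hm1 : Measurable fun x : ℝ => W x *
            (if ∃ y ∈ T (⌊Real.exp (x - v) / X⌋₊ * X),
              |P * θ x - y| ≤ (H : ℝ) ^ (-(1 / 4) : ℝ) then (1 : ℝ) else 0) := hWm.mul hindm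
        refine ii (M := 1) hm1 (fun x => ?_) ta tb
        have h0 : 0 ≤ (if ∃ y ∈ T (⌊Real.exp (x - v) / X⌋₊ * X),
          |P * θ x - y| ≤ (H : ℝ) ^ (-(1 / 4) : ℝ) then (1 : ℝ) else 0) := by
          split_ifs <;> norm_num
        have h1' : (if ∃ y ∈ T (⌊Real.exp (x - v) / X⌋₊ * X),
          |P * θ x - y| ≤ (H : ℝ) ^ (-(1 / 4) : ℝ) then (1 : ℝ) else 0) ≤ 1 := by
          split_ifs <;> norm_num
        rw [Real.norm_eq_abs, abs_of_nonneg (mul_nonneg (hW0 x) h0)]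
        exact mul_le_one₀ (hW1 x) h0 h1'
      · exact hsumI.add intervalIntegrable_const
    have h0mem : (0 : ℤ) ∈ Icc (-(K : ℤ)) K := by
      rw [mem_Icc]
      constructor <;> linarith [Int.natCast_nonneg K]
    rw [← add_sum_erase _ _ h0mem, ← hZ] at hint
    -- the main term
    have hzero : ∫ x in ta..tb, (f 0 x).re ≤
        ∑ n ∈ Icc 1 N, (1 / (n : ℝ)) * om1 (T n) R + ε / 4 := by
      have hmo : ∀ (φ : ℝ → ℝ), Measurable φ →
          Measurable fun u : ℝ => om1 (T (⌊Real.exp (φ u) / X⌋₊ * X)) R := fun φ hφ =>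
        meas_nat X (fun n => om1 (T (n * X)) R) hφ
      have h1 : ∫ x in ta..tb, (f 0 x).re ≤
          ∫ x in ta..tb, om1 (T (⌊Real.exp (x - v) / X⌋₊ * X)) R := by
        refine intervalIntegral.integral_mono_on hab (hfr 0) ?_ fun x hx => ?_
        · refine ii (M := 1) (hmo _ (measurable_id.sub_const v)) (fun x => ?_) ta tb
          rw [Real.norm_eq_abs, abs_of_nonneg (om1_nonneg _ _)]
          exact om1_le _ _
        · have e1 : (f 0 x).re = W x * om1 (T (⌊Real.exp (x - v) / X⌋₊ * X)) R := by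
            rw [hf]
            simp only [hAk]
            rw [hmax x hx.1, (hC2 _ (hper _)).1, Int.cast_zero, zero_mul]
            have : ee 0 = 1 := by unfold ee; simp
            rw [this, mul_one, ← Complex.ofReal_mul, Complex.ofReal_re]
          rw [e1]
          exact mul_le_of_le_one_left (om1_nonneg _ _) (hW1 x)
      have h2 : ∫ x in ta..tb, om1 (T (⌊Real.exp (x - v) / X⌋₊ * X)) R =
          ∫ u in (ta - v)..(tb - v), om1 (T (⌊Real.exp u / X⌋₊ * X)) R :=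
        intervalIntegral.integral_comp_sub_right
          (fun u => om1 (T (⌊Real.exp u / X⌋₊ * X)) R) v
      have h3 : ∫ u in (ta - v)..(tb - v), om1 (T (⌊Real.exp u / X⌋₊ * X)) R ≤
          ∫ u in ((A + 3) * Real.log H)..(Real.log N), om1 (T (⌊Real.exp u / X⌋₊ * X)) R := by
        refine intervalIntegral.integral_mono_interval ?_ ?_ ?_ ?_ ?_
        · rw [hta]; linarith
        · linarith
        · rw [← htb]; linarith
        · exact Filter.Eventually.of_forall fun t => om1_nonneg _ _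
        · refine ii (M := 1) (hmo _ measurable_id) (fun x => ?_) _ _
          rw [Real.norm_eq_abs, abs_of_nonneg (om1_nonneg _ _)]
          exact om1_le _ _
      have h4 := hS2 H N X (by omega) hX1' hX2 (by
        refine le_trans ?_ hN
        exact Real.rpow_le_rpow_of_exponent_le hH1 (by linarith)) T hslow
        (fun S => om1 S R) (fun S => om1_nonneg S R) (fun S => om1_le S R)
      linarith
    have hrest : ∑ k ∈ Z, (∫ x in ta..tb, (f k x).re) ≤ ∑ k ∈ Z, ‖∫ x in ta..tb, f k x‖ := by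
      refine sum_le_sum fun k _ => ?_
      have h1 : ∫ x in ta..tb, (f k x).re = (∫ x in ta..tb, f k x).re :=
        Complex.reCLM.intervalIntegral_comp_comm (hfi k)
      rw [h1]
      exact Complex.re_le_norm _
    have h5 : ε / 4 * (tb - ta) ≤ ε / 4 * tb :=
      mul_le_mul_of_nonneg_left (by linarith) (by positivity)
    linarith
  -- the average over the products
  have hbound : EP (PPs H κ₁ κ₂) j (fun P' => ∫ x in ta..tb, W x *
      (if ∃ y ∈ T (⌊Real.exp (x - Real.log P') / X⌋₊ * X),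
        |P' * θ x - y| ≤ (H : ℝ) ^ (-(1 / 4) : ℝ) then 1 else 0)) ≤
      EP (PPs H κ₁ κ₂) j (fun P => ∑ k ∈ Z, ‖∫ x in ta..tb, (W x : ℂ) * Ak k (x - Real.log P) *
        ee (k * ((P : ℝ) * θ x))‖ +
        (∑ n ∈ Icc 1 N, (1 / (n : ℝ)) * om1 (T n) R + ε / 4 + ε / 4 * tb)) := by
    refine E4 j _ _ fun L hL1 hL2 => ?_
    obtain ⟨h1, h2⟩ := log_prod_le H κ₁ κ₂ (by omega) L hL1
    refine hone L.prod h1 (h2.trans ?_)
    rw [hL2]
    have hjr : (j : ℝ) ≤ J := by exact_mod_cast hjJ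
    have : (j : ℝ) * κ₂ ≤ 1 / 8 := by
      calc (j : ℝ) * κ₂ ≤ J * κ₂ := mul_le_mul_of_nonneg_right hjr hκ₂.le
        _ ≤ 1 / 8 := by rwa [mul_comm]
    nlinarith
  refine hbound.trans ?_
  rw [E2, E1, EP_sum j (E1 j) (E2 j) Z]
  have hsum : ∑ k ∈ Z, EP (PPs H κ₁ κ₂) j (fun P => ‖∫ x in ta..tb, (W x : ℂ) *
      Ak k (x - Real.log P) * ee (k * ((P : ℝ) * θ x))‖) ≤ ε / 4 * tb := by
    have h1 : ∀ k ∈ Z, EP (PPs H κ₁ κ₂) j (fun P => ‖∫ x in ta..tb, (W x : ℂ) *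
      Ak k (x - Real.log P) * ee (k * ((P : ℝ) * θ x))‖) ≤ ε₂ * tb := by
      intro k hk
      rw [hZ, mem_erase, mem_Icc] at hk
      exact hfreq k hk.1 (abs_le.2 hk.2)
    refine (sum_le_sum h1).trans ?_
    rw [sum_const, nsmul_eq_mul]
    have hcard : ((Z.card : ℕ) : ℝ) ≤ 2 * K + 1 := by
      have h2 : Z.card ≤ (Icc (-(K : ℤ)) K).card := card_le_card (erase_subset _ _)
      rw [Int.card_Icc] at h2
      have h3 : ((K : ℤ) + 1 - -(K : ℤ)).toNat = 2 * K + 1 := by omega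
      rw [h3] at h2
      exact_mod_cast h2
    have h4 : (2 * K + 1) * ε₂ = ε / 4 := by
      rw [hε₂]
      field_simp
    calc (Z.card : ℝ) * (ε₂ * tb) ≤ (2 * K + 1) * (ε₂ * tb) :=
          mul_le_mul_of_nonneg_right hcard (by positivity)
      _ = ε / 4 * tb := by rw [← mul_assoc, h4]
  have h6 : ε / 4 ≤ ε / 4 * tb := by nlinarith
  linarith

end T16bx

theorem t16b : T16b_stmt := by
  intro h11 h13 h15 hS1 hS2 hE A ε κ₁ κ₂ R J hA hε hκ₁ hκ₁₂ hR hJ
  classical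
  have h : ∀ j : ℕ, ∃ H₀ : ℕ, 1 ≤ j → j ≤ J → ∀ H N X : ℕ, H₀ ≤ H → 1 ≤ Ls (PPs H κ₁ κ₂) →
      (H : ℝ) ^ (A + 5) ≤ N → (H : ℝ) ^ (1 / 2 : ℝ) ≤ X → X ≤ H →
      ∀ T : ℕ → Set ℝ, SymP T → Slow T ((H : ℝ) ^ A) → ∀ a g : ℕ → ℝ, (∀ k, 0 ≤ g k) →
      (∀ k, g k ≤ 1) → (∀ k : ℕ, ε * g k ≤ vv X (k * X) (a k)) →
      EP (PPs H κ₁ κ₂) j (fun P' => ∫ x in ((A + 4) * Real.log H)..(Real.log N),
        cg X g ((A + 4) * Real.log H) (Real.log N) x *
        (if ∃ y ∈ T (⌊Real.exp (x - Real.log P') / X⌋₊ * X),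
          |P' * cf X a x - y| ≤ (H : ℝ) ^ (-(1 / 4) : ℝ) then 1 else 0)) ≤
      ∑ n ∈ Icc 1 N, (1 / (n : ℝ)) * om1 (T n) R + ε * Real.log N := by
    intro j
    by_cases hj : 1 ≤ j ∧ j ≤ J
    · obtain ⟨H₀, hH₀⟩ := T16bx.one_j h11 h13 h15 hS1 hS2 hE A ε κ₁ κ₂ R J hA hε hκ₁ hκ₁₂ hR hJ j
        hj.1 hj.2
      refine ⟨H₀, fun _ _ => ?_⟩
      convert hH₀
    · exact ⟨0, fun h1 h2 => absurd ⟨h1, h2⟩ hj⟩
  choose H₀ hH₀ using h
  refine ⟨(range (J + 1)).sup H₀, fun H N X hH hL hN hX1 hX2 T hT hslow a g hg0 hg1 hgv j hj1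
    hjJ => ?_⟩
  have h1 : H₀ j ≤ H := (Finset.le_sup (f := H₀) (mem_range.2 (by omega))).trans hH
  convert hH₀ j hj1 hjJ H N X h1 hL hN hX1 hX2 T hT hslow a g hg0 hg1 hgv

end

end Pool.Agent.SV
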