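import Mathlib
import Pool.Agent.Lib.SV.TFDefs2
import Pool.Agent.Lib.SV.T0

/-!
# Theorem TF (MP_663568_nt), row T16d: the diagonal.
-/

set_option autoImplicit false
open Finset MeasureTheory

namespace Pool.Agent.SV

open Pool.Agent.Lib.MP_663568_nt Pool.Agent.Lib.MP_663568_nt.Katai
  Pool.Agent.Lib.MP_663568_nt.Nul

namespace T16dx

lemma vv_le1 (l y : ℕ) (b : ℝ) : vv l y b ≤ 1 := by
  unfold vv
  refine div_le_one_of_le₀ ?_ (Nat.cast_nonneg _)
  refine (norm_sum_le _ _).trans ?_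
  calc ∑ m ∈ Icc 1 l, ‖muC (y + m) * ee (b * m)‖ ≤ ∑ m ∈ Icc 1 l, (1 : ℝ) := by
        refine Finset.sum_le_sum fun m _ => ?_
        rw [norm_mul, norm_ee, mul_one]
        exact norm_muC _
    _ = l := by simp

lemma vv_nn (l y : ℕ) (b : ℝ) : 0 ≤ vv l y b := by
  unfold vv
  positivity

lemma SS_vv (X : ℕ) (a : ℕ → ℝ) (u : ℝ) :
    SS X a u = vv X (⌊Real.exp u / X⌋₊ * X) (a ⌊Real.exp u / X⌋₊) := by
  rw [← t0, zz, SS, norm_div, RCLike.norm_natCast]
  congr 3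
  rw [add_mul, one_mul]

lemma meas_cell (X : ℕ) (h : ℕ → ℝ) : Measurable fun u : ℝ => h ⌊Real.exp u / X⌋₊ :=
  (measurable_from_nat (f := h)).comp (Nat.measurable_floor.comp (Real.measurable_exp.div_const _))

lemma meas_cg (X : ℕ) (g : ℕ → ℝ) (ta tb : ℝ) : Measurable fun u : ℝ => cg X g ta tb u := by
  unfold cg
  have h1 : MeasurableSet {u : ℝ | ta ≤ u ∧ u ≤ tb} := measurableSet_Icc
  exact Measurable.ite h1 (meas_cell X g) measurable_const

lemma cg_nn {X : ℕ} {g : ℕ → ℝ} (hg : ∀ k, 0 ≤ g k) (ta tb u : ℝ) : 0 ≤ cg X g ta tb u := by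
  unfold cg
  split_ifs
  · exact hg _
  · exact le_rfl

lemma cg_le1 {X : ℕ} {g : ℕ → ℝ} (hg : ∀ k, g k ≤ 1) (ta tb u : ℝ) : cg X g ta tb u ≤ 1 := by
  unfold cg
  split_ifs
  · exact hg _
  · exact zero_le_one

lemma bdd_ii {f : ℝ → ℝ} (hf : Measurable f) (h0 : ∀ u, 0 ≤ f u) (h1 : ∀ u, f u ≤ 1) (a b : ℝ) :
    IntervalIntegrable f volume a b := by
  rw [intervalIntegrable_iff]
  refine Measure.integrableOn_of_bounded (M := 1) (by simp) hf.aestronglyMeasurable ?_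
  refine Filter.Eventually.of_forall fun w => ?_
  rw [Real.norm_eq_abs, abs_of_nonneg (h0 w)]
  exact h1 w

lemma EP_int (PP : Finset ℕ) (a b : ℝ) : ∀ (j : ℕ) (F : ℕ → ℝ → ℝ),
    (∀ P, IntervalIntegrable (F P) volume a b) →
    IntervalIntegrable (fun u => EP PP j (fun P => F P u)) volume a b ∧
      EP PP j (fun P => ∫ u in a..b, F P u) = ∫ u in a..b, EP PP j (fun P => F P u)
  | 0, F, h => ⟨h 1, rfl⟩
  | (j + 1), F, h => by
    have ih := fun p : ℕ => EP_int PP a b j (fun P => F (p * P)) fun P => h _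
    have hi : ∀ p ∈ PP, IntervalIntegrable (fun u => wt PP p * EP PP j (fun P => F (p * P) u))
        volume a b := fun p _ => (ih p).1.const_mul _
    constructor
    · show IntervalIntegrable (fun u => ∑ p ∈ PP, wt PP p * EP PP j (fun P => F (p * P) u))
        volume a b
      have h1 := IntervalIntegrable.sum (μ := volume) (a := a) (b := b) PP
        (f := fun p (u : ℝ) => wt PP p * EP PP j (fun P => F (p * P) u)) fun p hp => hi p hp
      convert! h1 using 1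
      funext u
      rw [Finset.sum_apply]
    · show ∑ p ∈ PP, wt PP p * EP PP j (fun P => ∫ u in a..b, F (p * P) u) =
        ∫ u in a..b, ∑ p ∈ PP, wt PP p * EP PP j (fun P => F (p * P) u)
      rw [intervalIntegral.integral_finsetSum hi]
      refine Finset.sum_congr rfl fun p _ => ?_
      rw [(ih p).2, intervalIntegral.integral_const_mul]

/-- The shift by `log P`. -/
lemma shift_le {Ψ : ℝ → ℝ} (hm : Measurable Ψ) (h0 : ∀ u, 0 ≤ Ψ u) (h1 : ∀ u, Ψ u ≤ 1)
    {ta tb c : ℝ} (hab : ta ≤ tb) (hc : 0 ≤ c) (hz : ∀ u, tb < u → Ψ u = 0) :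
    ∫ u in ta..tb, Ψ (u + c) ≤ ∫ u in ta..tb, Ψ u := by
  have hii := bdd_ii hm h0 h1
  rw [intervalIntegral.integral_comp_add_right Ψ c]
  have e1 : ∫ u in (tb)..(tb + c), Ψ u = 0 := by
    rw [intervalIntegral.integral_of_le (by linarith)]
    rw [setIntegral_congr_fun (g := fun _ => (0 : ℝ)) measurableSet_Ioc fun u hu => hz u hu.1]
    simp
  have e2 := intervalIntegral.integral_add_adjacent_intervals (hii ta tb) (hii tb (tb + c))
  have e3 := intervalIntegral.integral_add_adjacent_intervals (hii ta (ta + c))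
    (hii (ta + c) (tb + c))
  have e4 : 0 ≤ ∫ u in (ta)..(ta + c), Ψ u :=
    intervalIntegral.integral_nonneg (by linarith) fun u _ => h0 u
  linarith

open T16dx in
/-- One value of `i`. -/
lemma key (h7 : T7') (h13 : T13') (hE : EPC_stmt) {A ε κ₁ κ₂ : ℝ} (hA : 0 ≤ A) (hε : 0 < ε)
    (h1 : 0 < κ₁) (h12 : κ₁ ≤ κ₂) (i : ℕ) : ∃ H₀ : ℕ, ∀ H N X : ℕ, H₀ ≤ H →
    1 ≤ Ls (PPs H κ₁ κ₂) →
  (H : ℝ) ^ (A + 5) ≤ N → (H : ℝ) ^ (1 / 2 : ℝ) ≤ X → X ≤ H →
  ∀ a g : ℕ → ℝ, (∀ k, 0 ≤ g k) → (∀ k, g k ≤ 1) → (∀ k : ℕ, ε * g k ≤ vv X (k * X) (a k)) →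
  ∀ τ : ℝ, 0 ≤ τ → τ ≤ (H : ℝ) ^ (-(1 / 2) : ℝ) →
  EP (PPs H κ₁ κ₂) i (fun P => ∫ u in ((A + 4) * Real.log H)..(Real.log N),
      cg X g ((A + 4) * Real.log H) (Real.log N) (u + Real.log P) *
      (if nd (P * cf X a (u + Real.log P) + P * cf X a (u + Real.log P)) ≤ τ then 1 else 0)) ≤
    ε * Real.log N := by
  have hε2 : 0 < ε / 2 := by positivity
  obtain ⟨Q, C, hQ, hC, H₁, h7⟩ := h7 κ₁ κ₂ (ε / 2) i h1 h12 hε2
  have hQ0 : (0 : ℝ) < Q := by exact_mod_cast hQ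
  obtain ⟨H₂, h13⟩ := h13 (A + 1) (1 / 4) (ε ^ 2 / (2 * Q)) (2 * Q) (by linarith) (by norm_num)
    (by positivity)
  have t1 := ((tendsto_rpow_atTop (y := 1 / 4) (by norm_num)).comp
    (tendsto_natCast_atTop_atTop (R := ℝ))).eventually_ge_atTop C
  obtain ⟨H₃, hH₃⟩ := Filter.eventually_atTop.1 t1
  refine ⟨max (max H₁ H₂) (max H₃ 1), fun H N X hH hL hN hX1 hX2 a g hg0 hg1 hg τ hτ0 hτ => ?_⟩
  have hHH1 : H₁ ≤ H := (le_max_left _ _).trans ((le_max_left _ _).trans hH)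
  have hHH2 : H₂ ≤ H := (le_max_right _ _).trans ((le_max_left _ _).trans hH)
  have hHH3 : H₃ ≤ H := (le_max_left _ _).trans ((le_max_right _ _).trans hH)
  have hH1 : (1 : ℝ) ≤ H := by exact_mod_cast (le_max_right _ _).trans ((le_max_right _ _).trans hH)
  have hH0 : (0 : ℝ) < H := by linarith
  have hC4 : C ≤ (H : ℝ) ^ (1 / 4 : ℝ) := hH₃ H hHH3
  have hlH : 0 ≤ Real.log H := Real.log_nonneg hH1
  have hN1 : (1 : ℝ) ≤ N := (Real.one_le_rpow hH1 (by linarith)).trans hN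
  have hN0 : (0 : ℝ) < N := by linarith
  have hlN : (A + 5) * Real.log H ≤ Real.log N := by
    rw [← Real.log_rpow hH0]
    exact Real.log_le_log (by positivity) hN
  have hab : (A + 4) * Real.log H ≤ Real.log N := by nlinarith
  have hN4 : (H : ℝ) ^ (A + 1 + 3) ≤ N :=
    (Real.rpow_le_rpow_of_exponent_le hH1 (by linarith)).trans hN
  set ta : ℝ := (A + 4) * Real.log H with hta
  set tb : ℝ := Real.log N with htb
  have hta0 : 0 ≤ ta := by positivity
  set PP := PPs H κ₁ κ₂ with hPP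
  set ind : ℕ → ℕ → ℝ := fun P k => if nd (P * a k + P * a k) ≤ τ then 1 else 0 with hind
  have hind0 : ∀ P k, 0 ≤ ind P k := by
    intro P k
    rw [hind]
    dsimp only
    split_ifs <;> norm_num
  have hind1 : ∀ P k, ind P k ≤ 1 := by
    intro P k
    rw [hind]
    dsimp only
    split_ifs <;> norm_num
  set Ψ : ℕ → ℝ → ℝ := fun P x => cg X g ta tb x * ind P ⌊Real.exp x / X⌋₊ with hΨ
  have hΨm : ∀ P, Measurable (Ψ P) := fun P => (meas_cg X g ta tb).mul (meas_cell X (ind P))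
  have hΨ0 : ∀ P u, 0 ≤ Ψ P u := fun P u => mul_nonneg (cg_nn hg0 _ _ _) (hind0 _ _)
  have hΨ1 : ∀ P u, Ψ P u ≤ 1 := fun P u =>
    mul_le_one₀ (cg_le1 hg1 _ _ _) (hind0 _ _) (hind1 _ _)
  have hΨz : ∀ P u, tb < u → Ψ P u = 0 := by
    intro P u hu
    rw [hΨ]
    dsimp only
    unfold cg
    rw [if_neg (fun h => absurd h.2 (not_le.2 hu)), zero_mul]
  obtain ⟨E1, E2, E3, E4, -⟩ := hE PP hL
  -- step 1: the shift
  have s1 : EP PP i (fun P => ∫ u in ta..tb, cg X g ta tb (u + Real.log P) *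
      (if nd (P * cf X a (u + Real.log P) + P * cf X a (u + Real.log P)) ≤ τ then 1 else 0)) ≤
      EP PP i (fun P => ∫ u in ta..tb, Ψ P u) := by
    refine E4 i _ _ fun L _ _ => ?_
    exact shift_le (hΨm _) (hΨ0 _) (hΨ1 _) hab (Real.log_natCast_nonneg _) (hΨz _)
  have s2 := EP_int PP ta tb i Ψ fun P => bdd_ii (hΨm P) (hΨ0 P) (hΨ1 P) ta tb
  refine s1.trans ?_
  rw [s2.2]
  -- step 2: pointwise bound
  set J : ℕ → ℝ → ℝ := fun q x => SS X a x *
    (if nd (((2 * q : ℕ) : ℝ) * (cf X a x - (fun _ : ℝ => (0 : ℝ)) x)) ≤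
      (H : ℝ) ^ (-(1 / 4 : ℝ)) then 1 else 0) with hJ
  have hJm : ∀ q, Measurable (J q) := by
    intro q
    have h2 := meas_cell X (fun k => vv X (k * X) (a k) *
      (if nd (((2 * q : ℕ) : ℝ) * (a k - 0)) ≤ (H : ℝ) ^ (-(1 / 4 : ℝ)) then 1 else 0))
    convert! h2 using 1
    funext x
    rw [hJ]
    dsimp only
    rw [SS_vv]
    rfl
  have hJ0 : ∀ q u, 0 ≤ J q u := by
    intro q u
    rw [hJ]
    dsimp only
    rw [SS_vv]
    refine mul_nonneg (vv_nn _ _ _) ?_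
    split_ifs <;> norm_num
  have hJ1 : ∀ q u, J q u ≤ 1 := by
    intro q u
    rw [hJ]
    dsimp only
    rw [SS_vv]
    refine mul_le_one₀ (vv_le1 _ _ _) ?_ ?_
    · split_ifs <;> norm_num
    · split_ifs <;> norm_num
  have hpt : ∀ x ∈ Set.Icc ta tb, EP PP i (fun P => Ψ P x) ≤
      ε / 2 + 1 / ε * ∑ q ∈ Icc 1 Q, J q x := by
    intro x hx
    set k := ⌊Real.exp x / X⌋₊ with hk
    have hcg : cg X g ta tb x = g k := by
      unfold cg
      rw [if_pos ⟨hx.1, hx.2⟩]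
    have e1 : EP PP i (fun P => Ψ P x) = g k * EP PP i (fun P => ind P k) := by
      rw [← E3]
      congr 1
      funext P
      show cg X g ta tb x * ind P ⌊Real.exp x / X⌋₊ = g k * ind P k
      rw [hcg]
    rw [e1]
    have hsum0 : 0 ≤ ∑ q ∈ Icc 1 Q, J q x := Finset.sum_nonneg fun q _ => hJ0 q x
    by_cases hcase : ε / 2 ≤ EP PP i (fun P => ind P k)
    · have e2 : EP PP i (fun P => ind P k) = EP PP i (fun P =>
          if nd ((P : ℝ) * (2 * a k)) ≤ τ then 1 else 0) := by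
        congr 1
        funext P
        rw [hind]
        dsimp only
        rw [show (P : ℝ) * a k + P * a k = (P : ℝ) * (2 * a k) by ring]
      have hτC : τ ≤ 1 / C := by
        refine hτ.trans ?_
        rw [le_div_iff₀ (by linarith)]
        calc (H : ℝ) ^ (-(1 / 2) : ℝ) * C ≤ (H : ℝ) ^ (-(1 / 2) : ℝ) * (H : ℝ) ^ (1 / 4 : ℝ) :=
              mul_le_mul_of_nonneg_left hC4 (by positivity)
          _ = (H : ℝ) ^ (-(1 / 4) : ℝ) := by
              rw [← Real.rpow_add hH0]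
              norm_num
          _ ≤ 1 := Real.rpow_le_one_of_one_le_of_nonpos hH1 (by norm_num)
      obtain ⟨q, hq1, hqQ, hqD⟩ := h7 H hHH1 hL (2 * a k) τ hτ0 hτC (e2 ▸ hcase)
      have hEP1 : EP PP i (fun P => ind P k) ≤ 1 := by
        exact (E4 i (fun P => ind P k) (fun _ => 1) fun L _ _ => hind1 _ _).trans
          (le_of_eq (E1 i 1))
      have hJq : vv X (k * X) (a k) ≤ J q x := by
        rw [hJ]
        dsimp only
        rw [SS_vv, ← hk, if_pos, mul_one]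
        have e3 : ((2 * q : ℕ) : ℝ) * (cf X a x - 0) = q * (2 * a k) := by
          have : cf X a x = a k := rfl
          rw [this]
          push_cast
          ring
        rw [e3]
        refine hqD.trans ?_
        calc C * τ ≤ (H : ℝ) ^ (1 / 4 : ℝ) * (H : ℝ) ^ (-(1 / 2) : ℝ) :=
              mul_le_mul hC4 hτ hτ0 (by positivity)
          _ = (H : ℝ) ^ (-(1 / 4 : ℝ)) := by
              rw [← Real.rpow_add hH0]
              norm_num
      have h3 : g k ≤ 1 / ε * J q x := by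
        rw [one_div_mul_eq_div, le_div_iff₀ hε, mul_comm]
        exact (hg k).trans hJq
      have h4 : J q x ≤ ∑ q ∈ Icc 1 Q, J q x :=
        Finset.single_le_sum (f := fun q => J q x) (fun q _ => hJ0 q x)
          (Finset.mem_Icc.2 ⟨hq1, hqQ⟩)
      have h5 : g k * EP PP i (fun P => ind P k) ≤ g k :=
        mul_le_of_le_one_right (hg0 k) hEP1
      have h6 : 1 / ε * J q x ≤ 1 / ε * ∑ q ∈ Icc 1 Q, J q x :=
        mul_le_mul_of_nonneg_left h4 (by positivity)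
      linarith
    · rw [not_le] at hcase
      have h2 : 0 ≤ EP PP i (fun P => ind P k) := by
        exact le_trans (le_of_eq (E1 i 0).symm)
          (E4 i (fun _ => 0) (fun P => ind P k) fun L _ _ => hind0 _ _)
      have h3 : g k * EP PP i (fun P => ind P k) ≤ EP PP i (fun P => ind P k) :=
        mul_le_of_le_one_left h2 (hg1 k)
      have h4 : 0 ≤ 1 / ε * ∑ q ∈ Icc 1 Q, J q x := by positivity
      linarith
  have hJi : ∀ q ∈ Icc 1 Q, IntervalIntegrable (J q) volume ta tb := fun q _ =>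
    bdd_ii (hJm q) (hJ0 q) (hJ1 q) ta tb
  have hsi : IntervalIntegrable (fun x => ∑ q ∈ Icc 1 Q, J q x) volume ta tb := by
    have h1 := IntervalIntegrable.sum (μ := volume) (a := ta) (b := tb) (Icc 1 Q)
      (f := J) hJi
    convert! h1 using 1
    funext u
    rw [Finset.sum_apply]
  have s3 : ∫ u in ta..tb, EP PP i (fun P => Ψ P u) ≤
      ∫ x in ta..tb, (ε / 2 + 1 / ε * ∑ q ∈ Icc 1 Q, J q x) :=
    intervalIntegral.integral_mono_on hab s2.1 ((by simp : IntervalIntegrable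
      (fun _ : ℝ => ε / 2) volume ta tb).add (hsi.const_mul _)) hpt
  refine s3.trans ?_
  rw [intervalIntegral.integral_add (by simp) (hsi.const_mul _), intervalIntegral.integral_const,
    intervalIntegral.integral_const_mul, intervalIntegral.integral_finsetSum hJi, smul_eq_mul]
  have s4 : ∀ q ∈ Icc 1 Q, ∫ x in ta..tb, J q x ≤ ε ^ 2 / (2 * Q) * tb := by
    intro q hq
    rw [Finset.mem_Icc] at hq
    have h2 := h13 H N X hHH2 hN4 hX1 hX2 a (fun _ => 0) (fun _ _ _ _ => rfl) (2 * q) (by omega)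
      (by omega)
    have e4 : (A + 1 + 3) * Real.log H = ta := by
      rw [hta]
      ring
    rw [e4] at h2
    exact h2
  have s5 : 1 / ε * ∑ q ∈ Icc 1 Q, ∫ x in ta..tb, J q x ≤ ε / 2 * tb := by
    have h2 := Finset.sum_le_sum s4
    rw [Finset.sum_const, Nat.card_Icc, nsmul_eq_mul] at h2
    have h3 : ((Q + 1 - 1 : ℕ) : ℝ) * (ε ^ 2 / (2 * Q) * tb) = ε ^ 2 / 2 * tb := by
      rw [Nat.add_sub_cancel]
      field_simp
    rw [h3] at h2
    calc 1 / ε * ∑ q ∈ Icc 1 Q, ∫ x in ta..tb, J q x ≤ 1 / ε * (ε ^ 2 / 2 * tb) :=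
          mul_le_mul_of_nonneg_left h2 (by positivity)
      _ = ε / 2 * tb := by
          field_simp
  have s6 : (tb - ta) * (ε / 2) ≤ ε / 2 * tb := by nlinarith
  linarith

end T16dx

open T16dx in
theorem t16d : T16d_stmt := by
  intro h7 h13 hE A ε κ₁ κ₂ J hA hε h1 h12 _
  choose H₀ hH₀ using fun i : ℕ => key h7 h13 hE hA hε h1 h12 i
  refine ⟨(range (J + 1)).sup H₀, fun H N X hH hL hN hX1 hX2 a g hg0 hg1 hg τ hτ0 hτ i hi => ?_⟩
  have hi' : H₀ i ≤ H := (Finset.le_sup (f := H₀) (Finset.mem_range.2 (by omega))).trans hH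
  exact hH₀ i H N X hi' hL hN hX1 hX2 a g hg0 hg1 hg τ hτ0 hτ

end Pool.Agent.SV
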