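import Mathlib
import Pool.Agent.Lib.SV.TFDefs2

/-!
# Theorem TF (MP_663568_nt), row T18: change of variables.
-/

set_option autoImplicit false
open Finset MeasureTheory

namespace Pool.Agent.SV

open Pool.Agent.Lib.MP_663568_nt Pool.Agent.Lib.MP_663568_nt.Katai
  Pool.Agent.Lib.MP_663568_nt.Nul

namespace T18x

lemma floor_window {n p j : ℕ} {t : ℝ} (h1 : ((n + j : ℕ) : ℝ) ≤ t)
    (h2 : t < ((n + j : ℕ) : ℝ) + 1) : ⌊t / p⌋₊ = (n + j) / p := by
  have h3 : ⌊t⌋₊ = n + j := by
    rw [Nat.floor_eq_iff (le_trans (Nat.cast_nonneg _) h1)]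
    exact ⟨h1, h2⟩
  rw [Nat.floor_div_natCast, h3]

lemma int_window (f : ℕ → ℝ) (n X p : ℕ) :
    ∫ t in (n : ℝ)..(n + X), f ⌊t / p⌋₊ = ∑ j ∈ range X, f ((n + j) / p) := by
  have hae : ∀ j : ℕ, ∫ t in ((n + j : ℕ) : ℝ)..((n + (j + 1) : ℕ) : ℝ), f ⌊t / p⌋₊ =
      f ((n + j) / p) := by
    intro j
    have h1 : ∫ t in ((n + j : ℕ) : ℝ)..((n + (j + 1) : ℕ) : ℝ), f ⌊t / p⌋₊ =
        ∫ _t in ((n + j : ℕ) : ℝ)..((n + (j + 1) : ℕ) : ℝ), f ((n + j) / p) := by
      have hle : ((n + j : ℕ) : ℝ) ≤ ((n + (j + 1) : ℕ) : ℝ) := by push_cast; linarith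
      rw [intervalIntegral.integral_of_le hle, intervalIntegral.integral_of_le hle,
        ← integral_Ico_eq_integral_Ioc, ← integral_Ico_eq_integral_Ioc]
      refine setIntegral_congr_fun measurableSet_Ico fun t ht => ?_
      have h2 : t < ((n + j : ℕ) : ℝ) + 1 := by
        have := ht.2
        push_cast at this ⊢
        linarith
      show f ⌊t / p⌋₊ = f ((n + j) / p)
      rw [floor_window ht.1 h2]
    rw [h1, intervalIntegral.integral_const, smul_eq_mul]
    push_cast
    ring
  have hii : ∀ j : ℕ, IntervalIntegrable (fun t : ℝ => f ⌊t / p⌋₊) volume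
      ((n + j : ℕ) : ℝ) ((n + (j + 1) : ℕ) : ℝ) := by
    intro j
    have hle : ((n + j : ℕ) : ℝ) ≤ ((n + (j + 1) : ℕ) : ℝ) := by push_cast; linarith
    rw [intervalIntegrable_iff_integrableOn_Ico_of_le hle]
    have h3 : IntegrableOn (fun _ : ℝ => f ((n + j) / p))
        (Set.Ico ((n + j : ℕ) : ℝ) ((n + (j + 1) : ℕ) : ℝ)) volume :=
      integrableOn_const (by simp) (by simp)
    refine h3.congr_fun (fun t ht => ?_) measurableSet_Ico
    have h2 : t < ((n + j : ℕ) : ℝ) + 1 := by
      have := ht.2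
      push_cast at this ⊢
      linarith
    show f ((n + j) / p) = f ⌊t / p⌋₊
    rw [floor_window ht.1 h2]
  have h4 := intervalIntegral.sum_integral_adjacent_intervals (f := fun t : ℝ => f ⌊t / p⌋₊)
    (a := fun j : ℕ => ((n + j : ℕ) : ℝ)) (μ := volume) (n := X) (fun j _ => hii j)
  simp only [hae] at h4
  rw [h4]
  push_cast
  simp

/-- The substitution `w = log ((e ^ u + j) / p)`. -/
lemma subst_le {f : ℕ → ℝ} (hf0 : ∀ n, 0 ≤ f n) (hf1 : ∀ n, f n ≤ 1) {p j X : ℕ} {Z ta tb η : ℝ}
    (hp : 2 ≤ p) (hpZ : (p : ℝ) ≤ Z) (hj : j ≤ X) (hη0 : 0 ≤ η) (hη : (X : ℝ) ≤ η * Real.exp ta)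
    (hη1 : η ≤ 1) (hab : ta ≤ tb) :
    ∫ u in ta..tb, f ((⌊Real.exp u⌋₊ + j) / p) ≤
      (1 + η) * ((∫ u in ta..tb, f ⌊Real.exp u⌋₊) + Real.log Z) := by
  have hp0 : (0 : ℝ) < p := by exact_mod_cast (by omega : 0 < p)
  have hp2 : (2 : ℝ) ≤ p := by exact_mod_cast hp
  have hZ0 : 0 < Z := lt_of_lt_of_le hp0 hpZ
  have hZ1 : 0 ≤ Real.log Z := Real.log_nonneg (by linarith)
  have hjX : (j : ℝ) ≤ X := by exact_mod_cast hj
  have hj0 : (0 : ℝ) ≤ j := Nat.cast_nonneg j
  set g : ℝ → ℝ := fun w => f ⌊Real.exp w⌋₊ with hg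
  have hgm : Measurable g :=
    (measurable_from_nat (f := f)).comp (Nat.measurable_floor.comp Real.measurable_exp)
  have hg0 : ∀ w, 0 ≤ g w := fun w => hf0 _
  have hg1 : ∀ w, g w ≤ 1 := fun w => hf1 _
  set φ : ℝ → ℝ := fun u => Real.log ((Real.exp u + j) / p) with hφ
  have hpos : ∀ u : ℝ, 0 < Real.exp u + j := fun u => by positivity
  have hφd : ∀ u : ℝ, HasDerivAt φ (Real.exp u / (Real.exp u + j)) u := by
    intro u
    have h1 : HasDerivAt (fun u : ℝ => (Real.exp u + j) / p) (Real.exp u / p) u :=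
      ((Real.hasDerivAt_exp u).add_const _).div_const _
    have h2 := h1.log (by have := hpos u; positivity)
    convert h2 using 1
    have := (hpos u).ne'
    field_simp
  have hexpφ : ∀ u : ℝ, Real.exp (φ u) = (Real.exp u + j) / p := fun u => by
    rw [hφ]
    exact Real.exp_log (by have := hpos u; positivity)
  have hinj : Function.Injective φ := by
    intro u v huv
    have h1 : Real.exp (φ u) = Real.exp (φ v) := by rw [huv]
    rw [hexpφ, hexpφ, div_left_inj' hp0.ne'] at h1
    exact Real.exp_injective (by linarith)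
  have hgφ : ∀ u : ℝ, g (φ u) = f ((⌊Real.exp u⌋₊ + j) / p) := by
    intro u
    have h1 : ⌊Real.exp (φ u)⌋₊ = (⌊Real.exp u⌋₊ + j) / p := by
      rw [hexpφ, Nat.floor_div_natCast, Nat.floor_add_natCast (Real.exp_pos u).le]
    show f ⌊Real.exp (φ u)⌋₊ = _
    rw [h1]
  have hfin : ∀ a b : ℝ, IntegrableOn g (Set.Icc a b) volume := by
    intro a b
    refine Measure.integrableOn_of_bounded (M := 1) (by simp) hgm.aestronglyMeasurable ?_
    refine Filter.Eventually.of_forall fun w => ?_
    rw [Real.norm_eq_abs, abs_of_nonneg (hg0 w)]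
    exact hg1 w
  have hchg := integral_image_eq_integral_abs_deriv_smul (s := Set.Icc ta tb) measurableSet_Icc
    (f := φ) (fun u _ => (hφd u).hasDerivWithinAt) hinj.injOn g
  have hderiv : ∀ u ∈ Set.Icc ta tb, 1 ≤ (1 + η) * |Real.exp u / (Real.exp u + j)| := by
    intro u hu
    rw [abs_of_nonneg (by have := hpos u; positivity), mul_div_assoc', le_div_iff₀ (hpos u)]
    have h1 : Real.exp ta ≤ Real.exp u := Real.exp_le_exp.2 hu.1
    have h2 : η * Real.exp ta ≤ η * Real.exp u := mul_le_mul_of_nonneg_left h1 hη0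
    linarith
  have hmeas2 : Measurable fun u : ℝ => f ((⌊Real.exp u⌋₊ + j) / p) :=
    (measurable_from_nat (f := fun n => f ((n + j) / p))).comp
      (Nat.measurable_floor.comp Real.measurable_exp)
  have hint1 : IntegrableOn (fun u : ℝ => f ((⌊Real.exp u⌋₊ + j) / p)) (Set.Icc ta tb) volume := by
    refine Measure.integrableOn_of_bounded (M := 1) (by simp) hmeas2.aestronglyMeasurable ?_
    refine Filter.Eventually.of_forall fun w => ?_
    rw [Real.norm_eq_abs, abs_of_nonneg (hf0 _)]
    exact hf1 _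
  have hdm : Measurable fun u : ℝ => |Real.exp u / (Real.exp u + j)| := by fun_prop
  have hint2 : IntegrableOn (fun u : ℝ => |Real.exp u / (Real.exp u + j)| • g (φ u))
      (Set.Icc ta tb) volume := by
    have hφm : Measurable φ := by
      rw [hφ]
      fun_prop
    refine Measure.integrableOn_of_bounded (M := 1) (by simp)
      (hdm.mul (hgm.comp hφm)).aestronglyMeasurable ?_
    refine Filter.Eventually.of_forall fun w => ?_
    rw [smul_eq_mul, norm_mul, Real.norm_eq_abs, Real.norm_eq_abs, abs_abs,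
      abs_of_nonneg (hg0 _), abs_of_nonneg (by have := hpos w; positivity)]
    refine mul_le_one₀ ?_ (hg0 _) (hg1 _)
    rw [div_le_one (hpos w)]
    linarith
  have hsub : φ '' Set.Icc ta tb ⊆ Set.Icc (ta - Real.log Z) tb := by
    rintro _ ⟨u, hu, rfl⟩
    have hd : φ u = Real.log (Real.exp u + j) - Real.log p := by
      rw [hφ]
      exact Real.log_div (hpos u).ne' hp0.ne'
    rw [hd]
    constructor
    · have h1 : u ≤ Real.log (Real.exp u + j) := by
        rw [Real.le_log_iff_exp_le (hpos u)]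
        linarith
      have h2 : Real.log p ≤ Real.log Z := Real.log_le_log hp0 hpZ
      have := hu.1
      linarith
    · have h1 : Real.log (Real.exp u + j) ≤ u + Real.log p := by
        rw [Real.log_le_iff_le_exp (hpos u), Real.exp_add, Real.exp_log hp0]
        have h2 : η * Real.exp ta ≤ 1 * Real.exp u :=
          mul_le_mul hη1 (Real.exp_le_exp.2 hu.1) (Real.exp_pos _).le zero_le_one
        have h3 := Real.exp_pos u
        nlinarith
      have := hu.2
      linarith
  rw [intervalIntegral.integral_of_le hab, ← integral_Icc_eq_integral_Ioc]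
  calc ∫ u in Set.Icc ta tb, f ((⌊Real.exp u⌋₊ + j) / p)
      ≤ ∫ u in Set.Icc ta tb, (1 + η) * (|Real.exp u / (Real.exp u + j)| • g (φ u)) := by
        refine setIntegral_mono_on hint1 (hint2.const_mul _) measurableSet_Icc fun u hu => ?_
        rw [hgφ u, smul_eq_mul, ← mul_assoc]
        exact le_mul_of_one_le_left (hf0 _) (hderiv u hu)
    _ = (1 + η) * ∫ w in φ '' Set.Icc ta tb, g w := by
        rw [integral_const_mul, hchg]
    _ ≤ (1 + η) * ∫ w in Set.Icc (ta - Real.log Z) tb, g w := by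
        refine mul_le_mul_of_nonneg_left ?_ (by linarith)
        exact setIntegral_mono_set (hfin _ _) (Filter.Eventually.of_forall hg0)
          hsub.eventuallyLE
    _ ≤ (1 + η) * ((∫ u in Set.Ioc ta tb, f ⌊Real.exp u⌋₊) + Real.log Z) := by
        refine mul_le_mul_of_nonneg_left ?_ (by linarith)
        have hii : ∀ a b : ℝ, a ≤ b → IntervalIntegrable g volume a b := by
          intro a b h
          rw [intervalIntegrable_iff_integrableOn_Icc_of_le h]
          exact hfin _ _
        have hle1 : ta - Real.log Z ≤ ta := by linarith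
        have h3 : ∫ w in Set.Icc (ta - Real.log Z) tb, g w =
            (∫ w in (ta - Real.log Z)..ta, g w) + ∫ w in ta..tb, g w := by
          rw [intervalIntegral.integral_add_adjacent_intervals (hii _ _ hle1) (hii _ _ hab),
            intervalIntegral.integral_of_le (hle1.trans hab), integral_Icc_eq_integral_Ioc]
        have h4 : ∫ w in (ta - Real.log Z)..ta, g w ≤ Real.log Z := by
          have h5 : ∫ w in (ta - Real.log Z)..ta, g w ≤
              ∫ _w in (ta - Real.log Z)..ta, (1 : ℝ) :=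
            intervalIntegral.integral_mono_on hle1 (hii _ _ hle1) (by simp) fun w _ => hg1 w
          refine h5.trans (le_of_eq ?_)
          simp
        have h6 : ∫ w in ta..tb, g w = ∫ u in Set.Ioc ta tb, f ⌊Real.exp u⌋₊ :=
          intervalIntegral.integral_of_le hab
        linarith
    _ = (1 + η) * ((∫ u in ta..tb, f ⌊Real.exp u⌋₊) + Real.log Z) := by
        rw [intervalIntegral.integral_of_le hab]

end T18x

open T18x in
theorem t18 : T18' := by
  intro ε hε
  refine ⟨max 1 (-Real.log (min ε 1)), le_max_left _ _, ?_⟩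
  intro PP Z hPP hL hZ X hX ta tb hta hab f hf0 hf1
  set K : ℝ := max 1 (-Real.log (min ε 1)) with hK
  have hm0 : 0 < min ε 1 := lt_min hε one_pos
  have hX0 : (0 : ℝ) < X := by exact_mod_cast hX
  have hZ0 : 0 < Z := by linarith
  have hlZ : 0 ≤ Real.log Z := Real.log_nonneg hZ
  set η : ℝ := Real.exp (-K) / Z with hη
  have hη0 : 0 ≤ η := by positivity
  have hKe : Real.exp (-K) ≤ min ε 1 := by
    have h1 : -K ≤ Real.log (min ε 1) := by
      have := le_max_right 1 (-Real.log (min ε 1))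
      linarith
    exact (Real.exp_le_exp.2 h1).trans (le_of_eq (Real.exp_log hm0))
  have hηe : η ≤ min ε 1 := (div_le_self (Real.exp_pos _).le hZ).trans hKe
  have hηε : η ≤ ε := hηe.trans (min_le_left _ _)
  have hη1 : η ≤ 1 := hηe.trans (min_le_right _ _)
  have hηX : (X : ℝ) ≤ η * Real.exp ta := by
    have h1 : Real.exp (Real.log X + Real.log Z + K) ≤ Real.exp ta := Real.exp_le_exp.2 hta
    rw [Real.exp_add, Real.exp_add, Real.exp_log hX0, Real.exp_log hZ0] at h1
    calc (X : ℝ) = η * (X * Z * Real.exp K) := by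
          rw [hη, Real.exp_neg]
          have := (Real.exp_pos K).ne'
          field_simp
      _ ≤ η * Real.exp ta := mul_le_mul_of_nonneg_left h1 hη0
  have hηZ : η * Real.log Z ≤ 1 := by
    have h1 : Real.log Z ≤ Z := (Real.log_le_sub_one_of_pos hZ0).trans (by linarith)
    have h2 : η * Z = Real.exp (-K) := by
      rw [hη]
      field_simp
    have h3 : Real.exp (-K) ≤ 1 := hKe.trans (min_le_right _ _)
    calc η * Real.log Z ≤ η * Z := mul_le_mul_of_nonneg_left h1 hη0
      _ ≤ 1 := by rw [h2]; exact h3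
  set I : ℝ := ∫ u in ta..tb, f ⌊Real.exp u⌋₊ with hI
  have hImeas : Measurable fun u : ℝ => f ⌊Real.exp u⌋₊ :=
    (measurable_from_nat (f := f)).comp (Nat.measurable_floor.comp Real.measurable_exp)
  have hI1 : I ≤ tb - ta := by
    rw [hI]
    have h1 : ∫ u in ta..tb, f ⌊Real.exp u⌋₊ ≤ ∫ _u in ta..tb, (1 : ℝ) := by
      refine intervalIntegral.integral_mono_on hab ?_ (by simp) fun u _ => hf1 _
      rw [intervalIntegrable_iff_integrableOn_Icc_of_le hab]
      refine Measure.integrableOn_of_bounded (M := 1) (by simp) hImeas.aestronglyMeasurable ?_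
      refine Filter.Eventually.of_forall fun w => ?_
      rw [Real.norm_eq_abs, abs_of_nonneg (hf0 _)]
      exact hf1 _
    refine h1.trans (le_of_eq ?_)
    simp
  have hbound : (1 + η) * (I + Real.log Z) ≤ I + ε * (tb - ta) + Real.log Z + 1 := by
    have h1 : η * I ≤ ε * (tb - ta) :=
      (mul_le_mul_of_nonneg_left hI1 hη0).trans
        (mul_le_mul_of_nonneg_right hηε (by linarith))
    nlinarith
  -- rewrite the inner integral
  have hin : ∀ u : ℝ, ∑ p ∈ PP, wt PP p * (1 / X *
      ∫ t in (⌊Real.exp u⌋₊ : ℝ)..(⌊Real.exp u⌋₊ + X), f ⌊t / p⌋₊) =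
      ∑ p ∈ PP, ∑ j ∈ range X, wt PP p * (1 / X) * f ((⌊Real.exp u⌋₊ + j) / p) := by
    intro u
    refine Finset.sum_congr rfl fun p _ => ?_
    rw [int_window, ← Finset.mul_sum, mul_assoc]
  simp only [hin]
  have hLpos : 0 < Ls PP := by linarith
  have hint : ∀ p ∈ PP, ∀ j ∈ range X, IntervalIntegrable
      (fun u : ℝ => wt PP p * (1 / X) * f ((⌊Real.exp u⌋₊ + j) / p)) volume ta tb := by
    intro p _ j _
    have hmeas2 : Measurable fun u : ℝ => f ((⌊Real.exp u⌋₊ + j) / p) :=
      (measurable_from_nat (f := fun n => f ((n + j) / p))).comp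
        (Nat.measurable_floor.comp Real.measurable_exp)
    refine IntervalIntegrable.const_mul ?_ _
    rw [intervalIntegrable_iff_integrableOn_Icc_of_le hab]
    refine Measure.integrableOn_of_bounded (M := 1) (by simp) hmeas2.aestronglyMeasurable ?_
    refine Filter.Eventually.of_forall fun w => ?_
    rw [Real.norm_eq_abs, abs_of_nonneg (hf0 _)]
    exact hf1 _
  have hsumint : ∀ p ∈ PP, IntervalIntegrable (fun u : ℝ => ∑ j ∈ range X,
      wt PP p * (1 / X) * f ((⌊Real.exp u⌋₊ + j) / p)) volume ta tb := by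
    intro p hp
    have h1 := IntervalIntegrable.sum (μ := volume) (a := ta) (b := tb) (range X)
      (f := fun j (u : ℝ) => wt PP p * (1 / X) * f ((⌊Real.exp u⌋₊ + j) / p))
      fun j hj => hint p hp j hj
    convert! h1 using 1
    funext u
    rw [Finset.sum_apply]
  rw [intervalIntegral.integral_finsetSum hsumint]
  have hp : ∀ p ∈ PP, ∫ u in ta..tb, ∑ j ∈ range X,
      wt PP p * (1 / X) * f ((⌊Real.exp u⌋₊ + j) / p) ≤
      wt PP p * ((1 + η) * (I + Real.log Z)) := by
    intro p hpP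
    obtain ⟨hpr, hpZ⟩ := hPP p hpP
    rw [intervalIntegral.integral_finsetSum fun j hj => hint p hpP j hj]
    have hwt : 0 ≤ wt PP p := by
      unfold wt
      positivity
    have h1 : ∀ j ∈ range X, ∫ u in ta..tb, wt PP p * (1 / X) * f ((⌊Real.exp u⌋₊ + j) / p) ≤
        wt PP p * (1 / X) * ((1 + η) * (I + Real.log Z)) := by
      intro j hj
      rw [intervalIntegral.integral_const_mul]
      refine mul_le_mul_of_nonneg_left ?_ (by positivity)
      exact subst_le hf0 hf1 hpr.two_le hpZ (Finset.mem_range.1 hj).le hη0 hηX hη1 hab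
    refine (Finset.sum_le_sum h1).trans (le_of_eq ?_)
    rw [Finset.sum_const, card_range, nsmul_eq_mul]
    field_simp
  refine (Finset.sum_le_sum hp).trans ?_
  rw [← Finset.sum_mul]
  have hsum : ∑ p ∈ PP, wt PP p = 1 := by
    unfold wt
    have h1 : ∀ p ∈ PP, 1 / ((p : ℝ) * Ls PP) = 1 / (p : ℝ) * (1 / Ls PP) := by
      intro p _
      rw [one_div_mul_one_div]
    rw [Finset.sum_congr rfl h1, ← Finset.sum_mul]
    show Ls PP * (1 / Ls PP) = 1
    rw [mul_one_div_cancel hLpos.ne']
  rw [hsum, one_mul]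
  exact hbound

end Pool.Agent.SV
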