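import Mathlib
import Pool.Agent.Lib.SV.TFDefs2
import Pool.Agent.Lib.SV.EPC

/-!
# Theorem TF (MP_663568_nt), row T19: the second moment (helper48)
-/

set_option autoImplicit false
open Finset MeasureTheory

namespace Pool.Agent.SV

open Pool.Agent.Lib.MP_663568_nt Pool.Agent.Lib.MP_663568_nt.Katai
  Pool.Agent.Lib.MP_663568_nt.Nul

noncomputable section

namespace T19x

/-- Functions of `⌊exp u⌋₊` are integrable on bounded intervals. -/
theorem int_exp (g : ℕ → ℝ) (a b : ℝ) :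
    IntervalIntegrable (fun u : ℝ => g ⌊Real.exp u⌋₊) volume a b := by
  set N : ℕ := ⌊Real.exp (max a b)⌋₊ with hN
  have hm : Measurable fun u : ℝ => g ⌊Real.exp u⌋₊ :=
    (measurable_from_nat (f := g)).comp (Nat.measurable_floor.comp Real.measurable_exp)
  refine (intervalIntegrable_const (c := ∑ n ∈ range (N + 1), |g n|)).mono_fun'
    hm.aestronglyMeasurable.restrict ?_
  refine ae_restrict_of_forall_mem measurableSet_uIoc fun u hu => ?_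
  have h1 : u ≤ max a b := (Set.mem_uIoc.1 hu).elim (fun h => h.2.trans (le_max_right _ _))
    (fun h => h.2.trans (le_max_left _ _))
  have h2 : ⌊Real.exp u⌋₊ ∈ range (N + 1) := by
    rw [mem_range]
    exact Nat.lt_succ_of_le (Nat.floor_le_floor (Real.exp_le_exp.2 h1))
  change ‖g ⌊Real.exp u⌋₊‖ ≤ ∑ n ∈ range (N + 1), |g n|
  rw [Real.norm_eq_abs]
  exact single_le_sum (f := fun n => |g n|) (fun n _ => abs_nonneg _) h2

/-- Functions of `⌊t / p⌋₊`, complex. -/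
theorem int_divC (g : ℕ → ℂ) (C : ℝ) (hg : ∀ n, ‖g n‖ ≤ C) (p : ℕ) (a b : ℝ) :
    IntervalIntegrable (fun t : ℝ => g ⌊t / p⌋₊) volume a b := by
  have hm : Measurable fun t : ℝ => g ⌊t / p⌋₊ :=
    (measurable_from_nat (f := g)).comp (Nat.measurable_floor.comp (measurable_id.div_const _))
  exact (intervalIntegrable_const (c := C)).mono_fun' hm.aestronglyMeasurable.restrict
    (Filter.Eventually.of_forall fun t => hg _)

/-- Functions of `⌊t / p⌋₊`, real. -/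
theorem int_div (g : ℕ → ℝ) (C : ℝ) (hg : ∀ n, |g n| ≤ C) (p : ℕ) (a b : ℝ) :
    IntervalIntegrable (fun t : ℝ => g ⌊t / p⌋₊) volume a b := by
  have hm : Measurable fun t : ℝ => g ⌊t / p⌋₊ :=
    (measurable_from_nat (f := g)).comp (Nat.measurable_floor.comp (measurable_id.div_const _))
  exact (intervalIntegrable_const (c := C)).mono_fun' hm.aestronglyMeasurable.restrict
    (Filter.Eventually.of_forall fun t => hg _)

theorem norm_ee' (x : ℝ) : ‖ee x‖ = 1 := by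
  have h : (2 * Real.pi * Complex.I * x : ℂ) = ((2 * Real.pi * x : ℝ) : ℂ) * Complex.I := by
    push_cast; ring
  rw [ee, h, Complex.norm_exp_ofReal_mul_I]

theorem norm_zz_le' (l y : ℕ) (b : ℝ) : ‖zz l y b‖ ≤ 1 := by
  unfold zz
  rw [norm_div, Complex.norm_natCast]
  apply div_le_one_of_le₀ _ (Nat.cast_nonneg _)
  refine (norm_sum_le _ _).trans ?_
  calc ∑ m ∈ Ioc y (y + l), ‖muC m * ee (b * m)‖ ≤ ∑ m ∈ Ioc y (y + l), (1 : ℝ) := by
        refine sum_le_sum fun m _ => ?_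
        rw [norm_mul, norm_ee', mul_one]
        exact norm_muC _
    _ = l := by simp

theorem vv0 (l y : ℕ) (b : ℝ) : 0 ≤ vv l y b := by unfold vv; positivity

theorem vv1 (h0 : T0_stmt) (l y : ℕ) (b : ℝ) : vv l y b ≤ 1 := by
  rw [← h0]; exact norm_zz_le' _ _ _

theorem bdd (h0 : T0_stmt) (l n : ℕ) : BddAbove (Set.range fun b : ℝ => vv l n b) :=
  ⟨1, by rintro _ ⟨_, rfl⟩; exact vv1 h0 _ _ _⟩

theorem vv_le_sv (h0 : T0_stmt) (l n : ℕ) (b : ℝ) : vv l n b ≤ sv l n :=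
  le_ciSup (bdd h0 l n) b

theorem sv0 (h0 : T0_stmt) (l n : ℕ) : 0 ≤ sv l n := (vv0 l n 0).trans (vv_le_sv h0 l n 0)

theorem sv1 (h0 : T0_stmt) (l n : ℕ) : sv l n ≤ 1 := ciSup_le fun _ => vv1 h0 _ _ _

/-- The pointwise second moment. -/
theorem point2 (h0 : T0_stmt) {PP : Finset ℕ} (hL : 1 ≤ Ls PP) {X l : ℕ} (hX : 1 ≤ X) {δ : ℝ}
    (n : ℕ) (β : ℝ) (h1 : ‖zz X n β + ∑ p ∈ PP, (wt PP p : ℂ) *
      (((1 / X : ℝ) : ℂ) * ∫ t in (n : ℝ)..(n + X), zz l ⌊t / p⌋₊ (p * β))‖ ≤ δ) :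
    ∑ p ∈ PP, wt PP p * (1 / X * ∫ t in (n : ℝ)..(n + X),
      ‖zz l ⌊t / p⌋₊ (p * β) + zz X n β‖ ^ 2) ≤
    ∑ p ∈ PP, wt PP p * (1 / X * ∫ t in (n : ℝ)..(n + X), sv l ⌊t / p⌋₊ ^ 2) -
      vv X n β ^ 2 + 2 * δ := by
  have hX0 : (0 : ℝ) < X := by exact_mod_cast hX
  set w : ℂ := zz X n β with hw
  have hw1 : ‖w‖ ≤ 1 := norm_zz_le' _ _ _
  have hv : vv X n β = ‖w‖ := (h0 X n β).symm
  set S : ℂ := ∑ p ∈ PP, (wt PP p : ℂ) *
      (((1 / X : ℝ) : ℂ) * ∫ t in (n : ℝ)..(n + X), zz l ⌊t / p⌋₊ (p * β)) with hS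
  have hle : (n : ℝ) ≤ n + X := by linarith
  -- one prime
  have key : ∀ p ∈ PP, 1 / (X : ℝ) * ∫ t in (n : ℝ)..(n + X), ‖zz l ⌊t / p⌋₊ (p * β) + w‖ ^ 2 ≤
      1 / X * (∫ t in (n : ℝ)..(n + X), sv l ⌊t / p⌋₊ ^ 2) +
      2 * ((((1 / X : ℝ) : ℂ) * ∫ t in (n : ℝ)..(n + X), zz l ⌊t / p⌋₊ (p * β)) *
        (starRingEnd ℂ) w).re + ‖w‖ ^ 2 := by
    intro p hp
    have iz : IntervalIntegrable (fun t : ℝ => zz l ⌊t / p⌋₊ (p * β)) volume (n : ℝ) (n + X) :=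
      int_divC (fun m => zz l m (p * β)) 1 (fun m => norm_zz_le' _ _ _) p _ _
    have isv : IntervalIntegrable (fun t : ℝ => sv l ⌊t / p⌋₊ ^ 2) volume (n : ℝ) (n + X) :=
      int_div (fun m => sv l m ^ 2) 1 (fun m => by
        rw [abs_of_nonneg (by positivity)]
        exact pow_le_one₀ (sv0 h0 _ _) (sv1 h0 _ _)) p _ _
    have ire : IntervalIntegrable (fun t : ℝ => 2 * (zz l ⌊t / p⌋₊ (p * β) *
        (starRingEnd ℂ) w).re) volume (n : ℝ) (n + X) :=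
      int_div (fun m => 2 * (zz l m (p * β) * (starRingEnd ℂ) w).re) 2 (fun m => by
        rw [abs_mul, abs_of_pos (by norm_num : (0 : ℝ) < 2)]
        have := (Complex.abs_re_le_norm (zz l m (p * β) * (starRingEnd ℂ) w))
        rw [norm_mul, Complex.norm_conj] at this
        have h3 : ‖zz l m (p * β)‖ * ‖w‖ ≤ 1 * 1 :=
          mul_le_mul (norm_zz_le' _ _ _) hw1 (norm_nonneg _) zero_le_one
        linarith) p _ _
    have isq : IntervalIntegrable (fun t : ℝ => ‖zz l ⌊t / p⌋₊ (p * β) + w‖ ^ 2) volume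
        (n : ℝ) (n + X) :=
      int_div (fun m => ‖zz l m (p * β) + w‖ ^ 2) 4 (fun m => by
        rw [abs_of_nonneg (by positivity)]
        have h3 : ‖zz l m (p * β) + w‖ ≤ 2 :=
          (norm_add_le _ _).trans (by linarith [norm_zz_le' l m (p * β)])
        nlinarith [norm_nonneg (zz l m (p * β) + w)]) p _ _
    have hmono : (∫ t in (n : ℝ)..(n + X), ‖zz l ⌊t / p⌋₊ (p * β) + w‖ ^ 2) ≤
        ∫ t in (n : ℝ)..(n + X), (sv l ⌊t / p⌋₊ ^ 2 + 2 * (zz l ⌊t / p⌋₊ (p * β) *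
          (starRingEnd ℂ) w).re + ‖w‖ ^ 2) := by
      refine intervalIntegral.integral_mono_on hle isq
        ((isv.add ire).add intervalIntegrable_const) fun t _ => ?_
      have h3 : ‖zz l ⌊t / p⌋₊ (p * β) + w‖ ^ 2 = ‖zz l ⌊t / p⌋₊ (p * β)‖ ^ 2 +
          2 * (zz l ⌊t / p⌋₊ (p * β) * (starRingEnd ℂ) w).re + ‖w‖ ^ 2 := by
        rw [← Complex.normSq_eq_norm_sq, ← Complex.normSq_eq_norm_sq, ← Complex.normSq_eq_norm_sq,
          Complex.normSq_add]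
        ring
      have h4 : ‖zz l ⌊t / p⌋₊ (p * β)‖ ^ 2 ≤ sv l ⌊t / p⌋₊ ^ 2 := by
        rw [h0]
        exact pow_le_pow_left₀ (vv0 _ _ _) (vv_le_sv h0 _ _ _) 2
      linarith
    have hsplit : (∫ t in (n : ℝ)..(n + X), (sv l ⌊t / p⌋₊ ^ 2 + 2 * (zz l ⌊t / p⌋₊ (p * β) *
          (starRingEnd ℂ) w).re + ‖w‖ ^ 2)) = (∫ t in (n : ℝ)..(n + X), sv l ⌊t / p⌋₊ ^ 2) +
          2 * ((∫ t in (n : ℝ)..(n + X), zz l ⌊t / p⌋₊ (p * β)) * (starRingEnd ℂ) w).re +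
          X * ‖w‖ ^ 2 := by
      rw [intervalIntegral.integral_add (isv.add ire) intervalIntegrable_const,
        intervalIntegral.integral_add isv ire, intervalIntegral.integral_const,
        intervalIntegral.integral_const_mul]
      have h5 : (∫ t in (n : ℝ)..(n + X), (zz l ⌊t / p⌋₊ (p * β) * (starRingEnd ℂ) w).re) =
          ((∫ t in (n : ℝ)..(n + X), zz l ⌊t / p⌋₊ (p * β)) * (starRingEnd ℂ) w).re := by
        rw [← intervalIntegral.integral_mul_const]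
        exact Complex.reCLM.intervalIntegral_comp_comm (iz.mul_const _)
      rw [h5, smul_eq_mul]
      ring
    have h6 : 1 / (X : ℝ) * ∫ t in (n : ℝ)..(n + X), ‖zz l ⌊t / p⌋₊ (p * β) + w‖ ^ 2 ≤
        1 / X * ((∫ t in (n : ℝ)..(n + X), sv l ⌊t / p⌋₊ ^ 2) +
          2 * ((∫ t in (n : ℝ)..(n + X), zz l ⌊t / p⌋₊ (p * β)) * (starRingEnd ℂ) w).re +
          X * ‖w‖ ^ 2) := by
      rw [← hsplit]
      exact mul_le_mul_of_nonneg_left hmono (by positivity)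
    refine h6.trans (le_of_eq ?_)
    rw [mul_assoc ((1 / X : ℝ) : ℂ), Complex.re_ofReal_mul]
    field_simp
  have hsum : ∑ p ∈ PP, wt PP p * (1 / X * ∫ t in (n : ℝ)..(n + X),
      ‖zz l ⌊t / p⌋₊ (p * β) + w‖ ^ 2) ≤
      ∑ p ∈ PP, wt PP p * (1 / X * ∫ t in (n : ℝ)..(n + X), sv l ⌊t / p⌋₊ ^ 2) +
        2 * (S * (starRingEnd ℂ) w).re + ‖w‖ ^ 2 := by
    refine (Finset.sum_le_sum fun p hp =>
      mul_le_mul_of_nonneg_left (key p hp) (EPx.wt_nonneg hL p)).trans (le_of_eq ?_)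
    have hSre : (S * (starRingEnd ℂ) w).re = ∑ p ∈ PP, wt PP p *
        ((((1 / X : ℝ) : ℂ) * ∫ t in (n : ℝ)..(n + X), zz l ⌊t / p⌋₊ (p * β)) *
        (starRingEnd ℂ) w).re := by
      rw [hS, Finset.sum_mul, Complex.re_sum]
      refine Finset.sum_congr rfl fun p _ => ?_
      rw [mul_assoc (wt PP p : ℂ), Complex.re_ofReal_mul]
    rw [hSre, Finset.mul_sum]
    have hw2 : ‖w‖ ^ 2 = ∑ p ∈ PP, wt PP p * ‖w‖ ^ 2 := by
      rw [← Finset.sum_mul, EPx.sum_wt hL, one_mul]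
    rw [hw2, ← Finset.sum_add_distrib, ← Finset.sum_add_distrib]
    refine Finset.sum_congr rfl fun p _ => ?_
    rw [← hw2]
    ring
  have hre : (S * (starRingEnd ℂ) w).re ≤ δ - ‖w‖ ^ 2 := by
    have e1 : S * (starRingEnd ℂ) w = (w + S) * (starRingEnd ℂ) w - w * (starRingEnd ℂ) w := by
      ring
    have e2 : (w * (starRingEnd ℂ) w).re = ‖w‖ ^ 2 := by
      rw [Complex.mul_conj, Complex.ofReal_re, Complex.normSq_eq_norm_sq]
    have e3 : ((w + S) * (starRingEnd ℂ) w).re ≤ δ := by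
      refine (Complex.re_le_norm _).trans ?_
      rw [norm_mul, Complex.norm_conj]
      calc ‖w + S‖ * ‖w‖ ≤ δ * 1 := mul_le_mul h1 hw1 (norm_nonneg _) ((norm_nonneg _).trans h1)
        _ = δ := mul_one _
    rw [e1, Complex.sub_re, e2]
    linarith
  rw [hv]
  linarith

/-- The pointwise first moment. -/
theorem point1 (h0 : T0_stmt) {PP : Finset ℕ} (hL : 1 ≤ Ls PP) {X l : ℕ} (hX : 1 ≤ X) {δ : ℝ}
    (n : ℕ) (β : ℝ) (h1 : ‖zz X n β + ∑ p ∈ PP, (wt PP p : ℂ) *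
      (((1 / X : ℝ) : ℂ) * ∫ t in (n : ℝ)..(n + X), zz l ⌊t / p⌋₊ (p * β))‖ ≤ δ) :
    vv X n β ≤ ∑ p ∈ PP, wt PP p * (1 / X * ∫ t in (n : ℝ)..(n + X), sv l ⌊t / p⌋₊) + δ := by
  have hX0 : (0 : ℝ) < X := by exact_mod_cast hX
  have hle : (n : ℝ) ≤ n + X := by linarith
  set S : ℂ := ∑ p ∈ PP, (wt PP p : ℂ) *
      (((1 / X : ℝ) : ℂ) * ∫ t in (n : ℝ)..(n + X), zz l ⌊t / p⌋₊ (p * β)) with hS
  have h2 : ‖S‖ ≤ ∑ p ∈ PP, wt PP p * (1 / X * ∫ t in (n : ℝ)..(n + X), sv l ⌊t / p⌋₊) := by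
    rw [hS]
    refine (norm_sum_le _ _).trans (Finset.sum_le_sum fun p _ => ?_)
    rw [norm_mul, norm_mul, Complex.norm_real, Complex.norm_real,
      Real.norm_of_nonneg (EPx.wt_nonneg hL p), Real.norm_of_nonneg (by positivity)]
    refine mul_le_mul_of_nonneg_left (mul_le_mul_of_nonneg_left ?_ (by positivity))
      (EPx.wt_nonneg hL p)
    refine (intervalIntegral.norm_integral_le_integral_norm hle).trans ?_
    refine intervalIntegral.integral_mono_on hle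
      (int_div (fun m => ‖zz l m (p * β)‖) 1 (fun m => by
        rw [abs_of_nonneg (norm_nonneg _)]; exact norm_zz_le' _ _ _) p _ _)
      (int_div (fun m => sv l m) 1 (fun m => by
        rw [abs_of_nonneg (sv0 h0 _ _)]; exact sv1 h0 _ _) p _ _) fun t _ => ?_
    rw [h0]
    exact vv_le_sv h0 _ _ _
  have h3 : vv X n β = ‖zz X n β‖ := (h0 X n β).symm
  have h4 : ‖zz X n β‖ ≤ ‖zz X n β + S‖ + ‖S‖ := by
    have := norm_sub_le (zz X n β + S) S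
    rwa [add_sub_cancel_right] at this
  rw [h3]
  linarith

end T19x

theorem t19 : T19_stmt := by
  intro h0 h1 h18 ε hε
  obtain ⟨K₁, hK₁, h18'⟩ := h18 (ε / 2) (by positivity)
  obtain ⟨K₂, η, hK₂, hη, hη1, h1'⟩ := h1 (ε / 4) (by positivity)
  refine ⟨max K₁ K₂, η, hK₁.trans (le_max_left _ _), hη, hη1, ?_⟩
  intro PP Z hPP hL X l hX hl hlZ ta tb hta htab b
  have hL1 : 1 ≤ Ls PP := (hK₁.trans (le_max_left _ _)).trans hL
  have hne : PP.Nonempty := by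
    rw [Finset.nonempty_iff_ne_empty]
    rintro rfl
    simp [Ls] at hL1
    linarith
  have hZ1 : 1 ≤ Z := by
    obtain ⟨p, hp⟩ := hne
    have h := hPP p hp
    have h2 : (2 : ℝ) ≤ p := by exact_mod_cast h.1.two_le
    linarith [h.2.2]
  have hX1 : 1 ≤ X := by
    have h2 : (1 : ℝ) ≤ X := by
      refine le_trans ?_ hX
      have h3 : (1 : ℝ) ≤ max K₁ K₂ := hK₁.trans (le_max_left _ _)
      nlinarith [mul_le_mul h3 (one_le_pow₀ hZ1 (n := 2)) zero_le_one (by linarith)]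
    exact_mod_cast h2
  have hX2 : K₂ * Z ^ 2 ≤ X :=
    (mul_le_mul_of_nonneg_right (le_max_right _ _) (by positivity)).trans hX
  have hp1 : ∀ (n : ℕ) (β : ℝ), ‖zz X n β + ∑ p ∈ PP, (wt PP p : ℂ) *
      (((1 / X : ℝ) : ℂ) * ∫ t in (n : ℝ)..(n + X), zz l ⌊t / p⌋₊ (p * β))‖ ≤ ε / 4 :=
    fun n β => h1' PP Z (fun p hp => ⟨(hPP p hp).1, (le_max_right _ _).trans (hPP p hp).2.1,
      (hPP p hp).2.2⟩) ((le_max_right _ _).trans hL) X l hX2 hl hlZ n β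
  have h18f : ∀ f : ℕ → ℝ, (∀ n, 0 ≤ f n) → (∀ n, f n ≤ 1) →
      ∫ u in ta..tb, ∑ p ∈ PP, wt PP p * (1 / X *
        ∫ t in (⌊Real.exp u⌋₊ : ℝ)..(⌊Real.exp u⌋₊ + X), f ⌊t / p⌋₊) ≤
      (∫ u in ta..tb, f ⌊Real.exp u⌋₊) + ε / 2 * (tb - ta) + Real.log Z + 1 :=
    h18' PP Z (fun p hp => ⟨(hPP p hp).1, (hPP p hp).2.2⟩) hL1 hZ1 X hX1 ta tb
      (by linarith [le_max_left K₁ K₂]) htab
  constructor
  · have h2 := h18f (fun n => sv l n ^ 2) (fun n => by positivity)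
      (fun n => pow_le_one₀ (T19x.sv0 h0 _ _) (T19x.sv1 h0 _ _))
    have i1 : IntervalIntegrable (fun u : ℝ => ∑ p ∈ PP, wt PP p * (1 / X *
        ∫ t in (⌊Real.exp u⌋₊ : ℝ)..(⌊Real.exp u⌋₊ + X),
          ‖zz l ⌊t / p⌋₊ (p * b ⌊Real.exp u⌋₊) + zz X ⌊Real.exp u⌋₊ (b ⌊Real.exp u⌋₊)‖ ^ 2))
        volume ta tb :=
      T19x.int_exp (fun n => ∑ p ∈ PP, wt PP p * (1 / X * ∫ t in (n : ℝ)..(n + X),
        ‖zz l ⌊t / p⌋₊ (p * b n) + zz X n (b n)‖ ^ 2)) _ _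
    have i2 : IntervalIntegrable (fun u : ℝ => ∑ p ∈ PP, wt PP p * (1 / X *
        ∫ t in (⌊Real.exp u⌋₊ : ℝ)..(⌊Real.exp u⌋₊ + X), sv l ⌊t / p⌋₊ ^ 2)) volume ta tb :=
      T19x.int_exp (fun n => ∑ p ∈ PP, wt PP p * (1 / X * ∫ t in (n : ℝ)..(n + X),
        sv l ⌊t / p⌋₊ ^ 2)) _ _
    have i3 : IntervalIntegrable (fun u : ℝ => vv X ⌊Real.exp u⌋₊ (b ⌊Real.exp u⌋₊) ^ 2)
        volume ta tb := T19x.int_exp (fun n => vv X n (b n) ^ 2) _ _
    have h3 := intervalIntegral.integral_mono_on htab i1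
      ((i2.sub i3).add (intervalIntegrable_const (c := 2 * (ε / 4))))
      (fun u _ => T19x.point2 h0 hL1 hX1 ⌊Real.exp u⌋₊ (b ⌊Real.exp u⌋₊) (hp1 _ _))
    rw [intervalIntegral.integral_add (i2.sub i3) intervalIntegrable_const,
      intervalIntegral.integral_sub i2 i3, intervalIntegral.integral_const, smul_eq_mul] at h3
    linarith
  · have h2 := h18f (fun n => sv l n) (fun n => T19x.sv0 h0 _ _) (fun n => T19x.sv1 h0 _ _)
    have i2 : IntervalIntegrable (fun u : ℝ => ∑ p ∈ PP, wt PP p * (1 / X *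
        ∫ t in (⌊Real.exp u⌋₊ : ℝ)..(⌊Real.exp u⌋₊ + X), sv l ⌊t / p⌋₊)) volume ta tb :=
      T19x.int_exp (fun n => ∑ p ∈ PP, wt PP p * (1 / X * ∫ t in (n : ℝ)..(n + X),
        sv l ⌊t / p⌋₊)) _ _
    have i3 : IntervalIntegrable (fun u : ℝ => vv X ⌊Real.exp u⌋₊ (b ⌊Real.exp u⌋₊))
        volume ta tb := T19x.int_exp (fun n => vv X n (b n)) _ _
    have h3 := intervalIntegral.integral_mono_on htab i3
      (i2.add (intervalIntegrable_const (c := ε / 4)))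
      (fun u _ => T19x.point1 h0 hL1 hX1 ⌊Real.exp u⌋₊ (b ⌊Real.exp u⌋₊) (hp1 _ _))
    rw [intervalIntegral.integral_add i2 intervalIntegrable_const,
      intervalIntegral.integral_const, smul_eq_mul] at h3
    have h4 : 0 ≤ ε * (tb - ta) := mul_nonneg hε.le (by linarith)
    linarith

end

end Pool.Agent.SV
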