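import Pool.Agent.Lib.SV.TFDefs
import Pool.Agent.Lib.SV.RB2

/-!
# Theorem TF: row T2 (several steps of the Turán–Kubilius inequality).  (helper28)
-/

set_option autoImplicit false
open Finset MeasureTheory

namespace Pool.Agent.SV

open Pool.Agent.Lib.MP_663568_nt Pool.Agent.Lib.MP_663568_nt.Katai
  Pool.Agent.Lib.MP_663568_nt.Nul Pool.Agent.MRL Pool.Agent.MRF Pool.Agent.MRHal

namespace T2x

/-- Averages over products and integrals. -/
theorem EP_int (PP : Finset ℕ) : ∀ (j : ℕ) (G : ℕ → ℝ → ℝ) (x y : ℝ),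
    (∀ P, IntervalIntegrable (G P) volume x y) →
    IntervalIntegrable (fun t => EP PP j (fun P => G P t)) volume x y ∧
    ∫ t in x..y, EP PP j (fun P => G P t) = EP PP j (fun P => ∫ t in x..y, G P t)
  | 0, G, x, y, h => ⟨h 1, rfl⟩
  | (j + 1), G, x, y, h => by
    have h1 := fun p : ℕ => EP_int PP j (fun P => G (p * P)) x y (fun P => h _)
    have h2 : (fun t => EP PP (j + 1) (fun P => G P t)) =
        fun t => ∑ p ∈ PP, wt PP p * EP PP j (fun P => G (p * P) t) := rfl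
    rw [h2]
    constructor
    · have h3 := IntervalIntegrable.sum PP (f := fun p t => wt PP p * EP PP j (fun P => G (p * P) t))
        (μ := volume) (a := x) (b := y) fun p _ => (h1 p).1.const_mul _
      simpa [Finset.sum_fn] using h3
    · rw [intervalIntegral.integral_finset_sum fun p _ => (h1 p).1.const_mul _]
      change _ = ∑ p ∈ PP, wt PP p * EP PP j (fun P => ∫ t in x..y, G (p * P) t)
      refine Finset.sum_congr rfl fun p _ => ?_
      rw [intervalIntegral.integral_const_mul, (h1 p).2]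

theorem sum_wt {PP : Finset ℕ} (h : 1 ≤ Ls PP) : ∑ p ∈ PP, wt PP p = 1 := by
  have h0 : Ls PP ≠ 0 := by linarith
  unfold wt
  have : ∀ p ∈ PP, 1 / ((p : ℝ) * Ls PP) = 1 / (p : ℝ) * (1 / Ls PP) := fun p _ => by
    rw [one_div_mul_one_div]
  rw [Finset.sum_congr rfl this, ← Finset.sum_mul]
  change Ls PP * (1 / Ls PP) = 1
  field_simp

theorem wt_nn {PP : Finset ℕ} (h : 1 ≤ Ls PP) (p : ℕ) : 0 ≤ wt PP p := by
  have h0 : 0 ≤ Ls PP := by linarith
  unfold wt
  positivity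

theorem sum_window (l y : ℕ) (f : ℕ → ℂ) : ∑ m ∈ Ioc y (y + l), f m = ∑ i ∈ Icc 1 l, f (y + i) := by
  have h1 : Ioc y (y + l) = Ico (1 + y) (l + 1 + y) := by
    ext x; simp only [Finset.mem_Ioc, Finset.mem_Ico]; omega
  have h2 : Icc 1 l = Ico 1 (l + 1) := by
    ext x; simp only [Finset.mem_Icc, Finset.mem_Ico]; omega
  rw [h1, h2, ← Finset.sum_Ico_add f 1 (l + 1) y]

/-- The mean over a long window and the means over short windows. -/
theorem shift_sum {f : ℕ → ℂ} (hf : ∀ m, ‖f m‖ ≤ 1) (n X : ℕ) : ∀ i : ℕ,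
    ‖∑ y ∈ Ico n (n + X), f (y + (i + 1)) - ∑ y ∈ Ico n (n + X), f (y + 1)‖ ≤ 2 * i
  | 0 => by simp
  | (i + 1) => by
    have h1 := shift_sum hf n X i
    have h2 : ∑ y ∈ Ico n (n + X), f (y + (i + 1 + 1)) - ∑ y ∈ Ico n (n + X), f (y + (i + 1)) =
        f (n + X + (i + 1)) - f (n + (i + 1)) := by
      rw [← Finset.sum_sub_distrib]
      have h3 := Finset.sum_Ico_sub (fun y => f (y + (i + 1))) (show n ≤ n + X by omega)
      rw [← h3]
      refine Finset.sum_congr rfl fun y _ => ?_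
      congr 2
      omega
    have h4 : ∑ y ∈ Ico n (n + X), f (y + (i + 1 + 1)) - ∑ y ∈ Ico n (n + X), f (y + 1) =
        (f (n + X + (i + 1)) - f (n + (i + 1))) +
          (∑ y ∈ Ico n (n + X), f (y + (i + 1)) - ∑ y ∈ Ico n (n + X), f (y + 1)) := by
      rw [← h2]; ring
    rw [h4]
    refine (norm_add_le _ _).trans ?_
    have h5 := norm_sub_le (f (n + X + (i + 1))) (f (n + (i + 1)))
    have h6 := hf (n + X + (i + 1))
    have h7 := hf (n + (i + 1))
    push_cast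
    linarith

theorem base_sum {f : ℕ → ℂ} (hf : ∀ m, ‖f m‖ ≤ 1) (n X l : ℕ) :
    ‖(l : ℂ) * ∑ m ∈ Ioc n (n + X), f m - ∑ y ∈ Ico n (n + X), ∑ m ∈ Ioc y (y + l), f m‖ ≤
      2 * (l : ℝ) ^ 2 := by
  have h0 : ∑ m ∈ Ioc n (n + X), f m = ∑ y ∈ Ico n (n + X), f (y + 1) := by
    have h1 : Ioc n (n + X) = Ico (n + 1) (n + X + 1) := by
      ext x; simp only [Finset.mem_Ioc, Finset.mem_Ico]; omega
    rw [h1, ← Finset.sum_Ico_add f n (n + X) 1]
    exact Finset.sum_congr rfl fun y _ => by rw [add_comm]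
  have h1 : ∑ y ∈ Ico n (n + X), ∑ m ∈ Ioc y (y + l), f m =
      ∑ i ∈ Finset.range l, ∑ y ∈ Ico n (n + X), f (y + (i + 1)) := by
    rw [Finset.sum_comm]
    refine Finset.sum_congr rfl fun y _ => ?_
    rw [sum_window]
    have h2 : Icc 1 l = Ico (0 + 1) (l + 1) := by
      ext x; simp only [Finset.mem_Icc, Finset.mem_Ico]; omega
    rw [h2, ← Finset.sum_Ico_add (fun i => f (y + i)) 0 l 1, Finset.range_eq_Ico]
    exact Finset.sum_congr rfl fun i _ => by rw [add_comm 1 i]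
  have h2 : (l : ℂ) * ∑ m ∈ Ioc n (n + X), f m =
      ∑ i ∈ Finset.range l, ∑ y ∈ Ico n (n + X), f (y + 1) := by
    rw [h0, Finset.sum_const, Finset.card_range, nsmul_eq_mul]
  rw [h1, h2, ← Finset.sum_sub_distrib]
  refine (norm_sum_le _ _).trans ?_
  have h3 : ∀ i ∈ Finset.range l, ‖∑ y ∈ Ico n (n + X), f (y + 1) -
      ∑ y ∈ Ico n (n + X), f (y + (i + 1))‖ ≤ 2 * (l : ℝ) := by
    intro i hi
    rw [norm_sub_rev]
    refine (shift_sum hf n X i).trans ?_
    have : (i : ℝ) ≤ l := by exact_mod_cast (Finset.mem_range.1 hi).le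
    linarith
  calc _ ≤ ∑ _i ∈ Finset.range l, 2 * (l : ℝ) := Finset.sum_le_sum h3
    _ = 2 * (l : ℝ) ^ 2 := by
      rw [Finset.sum_const, Finset.card_range, nsmul_eq_mul]; ring

theorem integral_cells (H : ℕ → ℝ) (n X : ℕ) :
    ∫ t in (n : ℝ)..(n + X), H ⌊t⌋₊ = ∑ y ∈ Ico n (n + X), H y := by
  have hone : ∀ y : ℕ, IntervalIntegrable (fun t : ℝ => H ⌊t⌋₊) volume (y : ℝ) ((y + 1 : ℕ) : ℝ) ∧
      ∫ t in (y : ℝ)..((y + 1 : ℕ) : ℝ), H ⌊t⌋₊ = H y := by
    intro y
    have hle : (y : ℝ) ≤ ((y + 1 : ℕ) : ℝ) := by push_cast; linarith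
    have h1 : ∀ u : ℝ, (y : ℝ) < u → u < ((y + 1 : ℕ) : ℝ) → H ⌊u⌋₊ = H y := by
      intro u h1 h2
      have : ⌊u⌋₊ = y := by
        rw [Nat.floor_eq_iff ((Nat.cast_nonneg y).trans h1.le)]
        push_cast at h2
        exact ⟨h1.le, h2⟩
      rw [this]
    have hae : ∀ᵐ x : ℝ, x ≠ ((y + 1 : ℕ) : ℝ) := by simp [ae_iff, measure_singleton]
    constructor
    · refine (intervalIntegrable_const (c := H y)).congr_ae ?_
      rw [Set.uIoc_of_le hle]
      refine (ae_restrict_iff' measurableSet_Ioc).2 ?_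
      filter_upwards [hae] with x hx hx2
      exact (h1 x hx2.1 (lt_of_le_of_ne hx2.2 hx)).symm
    · rw [rb2_congr hle (g := fun _ => H y) h1]
      simp
  have h2 := intervalIntegral.sum_integral_adjacent_intervals_Ico (a := fun k : ℕ => (k : ℝ))
    (f := fun t : ℝ => H ⌊t⌋₊) (μ := volume) (show n ≤ n + X by omega) (fun k _ => (hone k).1)
  have e : ((n + X : ℕ) : ℝ) = n + X := by push_cast; ring
  rw [e] at h2
  rw [← h2]
  exact Finset.sum_congr rfl fun y _ => (hone y).2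

theorem norm_term (b : ℝ) (m : ℕ) : ‖muC m * ee (b * m)‖ ≤ 1 := by
  rw [norm_mul, rb2_norm_ee, mul_one]
  exact norm_muC _

/-- The case `j = 0`. -/
theorem base (h0 : T0_stmt) {X l : ℕ} (hX : 1 ≤ X) (hl : 1 ≤ l) (n : ℕ) (a : ℝ) :
    vv X n a ≤ 1 / X * (∫ t in (n : ℝ)..(n + X), vv l ⌊t⌋₊ a) + 2 * (l : ℝ) / X := by
  have hXR : (0 : ℝ) < X := by exact_mod_cast hX
  have hlR : (0 : ℝ) < l := by exact_mod_cast hl
  have hXC : (X : ℂ) ≠ 0 := by exact_mod_cast hXR.ne'
  have hlC : (l : ℂ) ≠ 0 := by exact_mod_cast hlR.ne'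
  rw [integral_cells (fun y => vv l y a), ← h0 X n a]
  have h1 := base_sum (f := fun m => muC m * ee (a * m)) (norm_term a) n X l
  have h2 : zz X n a = (1 / (X : ℂ)) * ∑ y ∈ Ico n (n + X), zz l y a +
      (1 / ((l : ℂ) * X)) * ((l : ℂ) * ∑ m ∈ Ioc n (n + X), muC m * ee (a * m) -
        ∑ y ∈ Ico n (n + X), ∑ m ∈ Ioc y (y + l), muC m * ee (a * m)) := by
    unfold zz
    rw [← Finset.sum_div]
    field_simp
    ring
  rw [h2]
  refine (norm_add_le _ _).trans (add_le_add ?_ ?_)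
  · rw [norm_mul]
    have e : ‖(1 / (X : ℂ))‖ = 1 / (X : ℝ) := by simp
    rw [e]
    refine mul_le_mul_of_nonneg_left ?_ (by positivity)
    refine (norm_sum_le _ _).trans (le_of_eq ?_)
    exact Finset.sum_congr rfl fun y _ => h0 l y a
  · rw [norm_mul]
    have e : ‖(1 / ((l : ℂ) * X))‖ = 1 / ((l : ℝ) * X) := by simp
    rw [e]
    calc 1 / ((l : ℝ) * X) * _ ≤ 1 / ((l : ℝ) * X) * (2 * (l : ℝ) ^ 2) :=
          mul_le_mul_of_nonneg_left h1 (by positivity)
      _ = 2 * (l : ℝ) / X := by field_simp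

/-- Averages of averages. -/
theorem shift_avg {H : ℝ → ℝ} (hm : Measurable H) (h0 : ∀ x, 0 ≤ H x) (h1 : ∀ x, H x ≤ 1)
    {p : ℕ} (hp : 1 ≤ p) {X l : ℕ} (hX : 1 ≤ X) (hl : 1 ≤ l) (n : ℕ) :
    1 / (X : ℝ) * ∫ t in (n : ℝ)..(n + X), (1 / (l : ℝ) *
      ∫ t' in ((⌊t / p⌋₊ : ℕ) : ℝ)..(((⌊t / p⌋₊ : ℕ) : ℝ) + l), H t') ≤
      1 / (X : ℝ) * (∫ t in (n : ℝ)..(n + X), H (t / p)) + (p : ℝ) * l / X + 1 / l := by
  have hXR : (0 : ℝ) < X := by exact_mod_cast hX
  have hlR : (1 : ℝ) ≤ l := by exact_mod_cast hl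
  have hpR : (1 : ℝ) ≤ p := by exact_mod_cast hp
  have hi := ii_of_bdd hm h0 h1
  have hn : (0 : ℝ) ≤ n := Nat.cast_nonneg n
  have hend : ∀ x y : ℝ, x ≤ y → ∫ u in x..y, H u ≤ y - x := by
    intro x y hxy
    have h2 : ∫ u in x..y, H u ≤ ∫ _u in x..y, (1 : ℝ) :=
      intervalIntegral.integral_mono_on hxy (hi _ _) intervalIntegrable_const (fun u _ => h1 u)
    simpa using h2
  have hnn : ∀ x y : ℝ, x ≤ y → 0 ≤ ∫ u in x..y, H u := fun x y hxy =>
    intervalIntegral.integral_nonneg hxy fun u _ => h0 u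
  -- step A
  have hA : ∀ t : ℝ, 0 ≤ t → ∫ t' in ((⌊t / p⌋₊ : ℕ) : ℝ)..(((⌊t / p⌋₊ : ℕ) : ℝ) + l), H t' ≤
      1 + ∫ s in (0 : ℝ)..l, H (t / p + s) := by
    intro t ht
    set k : ℝ := ((⌊t / p⌋₊ : ℕ) : ℝ) with hk
    have hk1 : k ≤ t / p := Nat.floor_le (by positivity)
    have hk2 : t / p < k + 1 := Nat.lt_floor_add_one _
    have e1 : ∫ s in (0 : ℝ)..l, H (t / p + s) = ∫ x in (t / p)..(t / p + l), H x := by
      rw [intervalIntegral.integral_comp_add_left (fun x => H x), add_zero]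
    rw [e1]
    have e2 : ∫ t' in k..(k + l), H t' = (∫ t' in k..(t / p), H t') + ∫ t' in (t / p)..(k + l), H t' :=
      (intervalIntegral.integral_add_adjacent_intervals (hi _ _) (hi _ _)).symm
    have e3 : ∫ t' in (t / p)..(t / p + l), H t' = (∫ t' in (t / p)..(k + l), H t') +
        ∫ t' in (k + l)..(t / p + l), H t' :=
      (intervalIntegral.integral_add_adjacent_intervals (hi _ _) (hi _ _)).symm
    have e4 := hend k (t / p) hk1
    have e5 := hnn (k + l) (t / p + l) (by linarith)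
    rw [e2, e3]
    linarith
  -- the inner function
  have hfm : Measurable fun t : ℝ => ∫ t' in ((⌊t / p⌋₊ : ℕ) : ℝ)..(((⌊t / p⌋₊ : ℕ) : ℝ) + l), H t' := by
    have h2 : Measurable fun k : ℕ => ∫ t' in ((k : ℕ) : ℝ)..((k : ℝ) + l), H t' :=
      measurable_of_countable _
    exact h2.comp (Nat.measurable_floor.comp (measurable_id.div_const (p : ℝ)))
  have hfb : ∀ t : ℝ, 0 ≤ ∫ t' in ((⌊t / p⌋₊ : ℕ) : ℝ)..(((⌊t / p⌋₊ : ℕ) : ℝ) + l), H t' ∧
      ∫ t' in ((⌊t / p⌋₊ : ℕ) : ℝ)..(((⌊t / p⌋₊ : ℕ) : ℝ) + l), H t' ≤ l := by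
    intro t
    refine ⟨hnn _ _ (by linarith), (hend _ _ (by linarith)).trans (by linarith)⟩
  have hfi : ∀ x y : ℝ, IntervalIntegrable (fun t : ℝ => 1 / (l : ℝ) *
      ∫ t' in ((⌊t / p⌋₊ : ℕ) : ℝ)..(((⌊t / p⌋₊ : ℕ) : ℝ) + l), H t') volume x y := by
    refine ii_of_bdd (hfm.const_mul _) (fun t => mul_nonneg (by positivity) (hfb t).1) fun t => ?_
    rw [one_div_mul_eq_div, div_le_one (by linarith)]
    exact (hfb t).2
  -- the joint function
  have hjm : Measurable (Function.uncurry fun (t s : ℝ) => H (t / p + s)) :=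
    hm.comp ((measurable_fst.div_const (p : ℝ)).add measurable_snd)
  have hji : IntegrableOn (Function.uncurry fun (t s : ℝ) => H (t / p + s))
      (Set.uIoc (n : ℝ) (n + X) ×ˢ Set.uIoc (0 : ℝ) l) := by
    refine Measure.integrableOn_of_bounded (M := 1) ?_ hjm.aestronglyMeasurable ?_
    · rw [Measure.volume_eq_prod, Measure.prod_prod]
      refine ENNReal.mul_ne_top ?_ ?_ <;> simp [Set.uIoc]
    · refine Filter.Eventually.of_forall fun z => ?_
      rw [Function.uncurry, Real.norm_of_nonneg (h0 _)]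
      exact h1 _
  have hswap := intervalIntegral_intervalIntegral_swap (F := fun (t s : ℝ) => H (t / p + s)) hji
  -- the average over `t` for fixed `s`
  have hB : ∀ s : ℝ, 0 ≤ s → ∫ t in (n : ℝ)..(n + X), H (t / p + s) ≤
      (∫ t in (n : ℝ)..(n + X), H (t / p)) + p * s := by
    intro s hs
    have e1 : ∀ t : ℝ, H (t / p + s) = (fun t => H (t / p)) (t + p * s) := by
      intro t
      simp only
      congr 1
      field_simp
    have hpi : ∀ x y : ℝ, IntervalIntegrable (fun t => H (t / p)) volume x y :=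
      ii_of_bdd (hm.comp (measurable_id.div_const (p : ℝ))) (fun x => h0 _) (fun x => h1 _)
    simp only [e1]
    rw [intervalIntegral.integral_comp_add_right (fun t => H (t / p))]
    have hps : 0 ≤ (p : ℝ) * s := by positivity
    have e2 : (∫ t in (n : ℝ)..(n + p * s), H (t / p)) + ∫ t in ((n : ℝ) + p * s)..(n + X + p * s), H (t / p) =
        (∫ t in (n : ℝ)..(n + X), H (t / p)) + ∫ t in ((n : ℝ) + X)..(n + X + p * s), H (t / p) := by
      rw [intervalIntegral.integral_add_adjacent_intervals (hpi _ _) (hpi _ _),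
        intervalIntegral.integral_add_adjacent_intervals (hpi _ _) (hpi _ _)]
    have e3 : 0 ≤ ∫ t in (n : ℝ)..(n + p * s), H (t / p) :=
      intervalIntegral.integral_nonneg (by linarith) fun u _ => h0 _
    have e4 : ∫ t in ((n : ℝ) + X)..(n + X + p * s), H (t / p) ≤ p * s := by
      have h2 : ∫ t in ((n : ℝ) + X)..(n + X + p * s), H (t / p) ≤
          ∫ _u in ((n : ℝ) + X)..(n + X + p * s), (1 : ℝ) :=
        intervalIntegral.integral_mono_on (by linarith) (hpi _ _) intervalIntegrable_const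
          (fun u _ => h1 _)
      simpa using h2
    linarith
  set I : ℝ := ∫ t in (n : ℝ)..(n + X), H (t / p) with hI
  have hmeas1 : Measurable fun s : ℝ => ∫ t in (n : ℝ)..(n + X), H (t / p + s) := by
    have h2 : ∀ s : ℝ, ∫ t in (n : ℝ)..(n + X), H (t / p + s) =
        ∫ t in Set.Ioc (n : ℝ) (n + X), H (t / p + s) := fun s =>
      intervalIntegral.integral_of_le (by linarith)
    simp only [h2]
    have h3 : StronglyMeasurable (Function.uncurry fun (s t : ℝ) => H (t / p + s)) :=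
      (hm.comp ((measurable_snd.div_const (p : ℝ)).add measurable_fst)).stronglyMeasurable
    exact (h3.integral_prod_right (ν := volume.restrict (Set.Ioc (n : ℝ) (n + X)))).measurable
  have hmeas2 : Measurable fun t : ℝ => ∫ s in (0 : ℝ)..l, H (t / p + s) := by
    have h2 : ∀ t : ℝ, ∫ s in (0 : ℝ)..l, H (t / p + s) = ∫ s in Set.Ioc (0 : ℝ) l, H (t / p + s) :=
      fun t => intervalIntegral.integral_of_le (by linarith)
    simp only [h2]
    exact (hjm.stronglyMeasurable.integral_prod_right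
      (ν := volume.restrict (Set.Ioc (0 : ℝ) l))).measurable
  have hb2 : ∀ t : ℝ, 0 ≤ ∫ s in (0 : ℝ)..l, H (t / p + s) ∧ ∫ s in (0 : ℝ)..l, H (t / p + s) ≤ l := by
    intro t
    have hti : IntervalIntegrable (fun s => H (t / p + s)) volume 0 l :=
      ii_of_bdd (hm.comp (measurable_const.add measurable_id)) (fun x => h0 _) (fun x => h1 _) _ _
    refine ⟨intervalIntegral.integral_nonneg (by linarith) fun u _ => h0 _, ?_⟩
    have h2 : ∫ s in (0 : ℝ)..l, H (t / p + s) ≤ ∫ _s in (0 : ℝ)..l, (1 : ℝ) :=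
      intervalIntegral.integral_mono_on (by linarith) hti intervalIntegrable_const (fun u _ => h1 _)
    simpa using h2
  have hi2 : IntervalIntegrable (fun t : ℝ => ∫ s in (0 : ℝ)..l, H (t / p + s)) volume n (n + X) := by
    refine (intervalIntegrable_const (c := (l : ℝ))).mono_fun' hmeas2.aestronglyMeasurable
      (Filter.Eventually.of_forall fun t => ?_)
    simp only [Real.norm_of_nonneg (hb2 t).1]
    exact (hb2 t).2
  have hi1 : IntervalIntegrable (fun s : ℝ => ∫ t in (n : ℝ)..(n + X), H (t / p + s)) volume 0 l := by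
    refine (intervalIntegrable_const (c := (X : ℝ))).mono_fun' hmeas1.aestronglyMeasurable
      (Filter.Eventually.of_forall fun s => ?_)
    have hti : IntervalIntegrable (fun t => H (t / p + s)) volume n (n + X) :=
      ii_of_bdd (hm.comp ((measurable_id.div_const (p : ℝ)).add measurable_const)) (fun x => h0 _)
        (fun x => h1 _) _ _
    have h3 : 0 ≤ ∫ t in (n : ℝ)..(n + X), H (t / p + s) :=
      intervalIntegral.integral_nonneg (by linarith) fun u _ => h0 _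
    simp only [Real.norm_of_nonneg h3]
    have h2 : ∫ t in (n : ℝ)..(n + X), H (t / p + s) ≤ ∫ _t in (n : ℝ)..(n + X), (1 : ℝ) :=
      intervalIntegral.integral_mono_on (by linarith) hti intervalIntegrable_const (fun u _ => h1 _)
    simpa using h2
  have hC : ∫ t in (n : ℝ)..(n + X), (1 / (l : ℝ) *
      ∫ t' in ((⌊t / p⌋₊ : ℕ) : ℝ)..(((⌊t / p⌋₊ : ℕ) : ℝ) + l), H t') ≤
      1 / (l : ℝ) * (X + ∫ t in (n : ℝ)..(n + X), ∫ s in (0 : ℝ)..l, H (t / p + s)) := by
    have h2 : ∫ t in (n : ℝ)..(n + X), (1 / (l : ℝ) *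
        ∫ t' in ((⌊t / p⌋₊ : ℕ) : ℝ)..(((⌊t / p⌋₊ : ℕ) : ℝ) + l), H t') ≤
        ∫ t in (n : ℝ)..(n + X), (1 / (l : ℝ) * (1 + ∫ s in (0 : ℝ)..l, H (t / p + s))) := by
      refine intervalIntegral.integral_mono_on (by linarith) (hfi _ _)
        ((intervalIntegrable_const.add hi2).const_mul _) fun t ht => ?_
      exact mul_le_mul_of_nonneg_left (hA t (hn.trans ht.1)) (by positivity)
    refine h2.trans (le_of_eq ?_)
    rw [intervalIntegral.integral_const_mul, intervalIntegral.integral_add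
      intervalIntegrable_const hi2]
    simp
  have hD : ∫ t in (n : ℝ)..(n + X), ∫ s in (0 : ℝ)..l, H (t / p + s) ≤ l * (I + p * l) := by
    rw [hswap]
    have h2 : ∫ s in (0 : ℝ)..l, ∫ t in (n : ℝ)..(n + X), H (t / p + s) ≤
        ∫ _s in (0 : ℝ)..l, (I + p * l) := by
      refine intervalIntegral.integral_mono_on (by linarith) hi1 intervalIntegrable_const
        fun s hs => (hB s hs.1).trans ?_
      have : (p : ℝ) * s ≤ p * l := mul_le_mul_of_nonneg_left hs.2 (by linarith)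
      linarith
    refine h2.trans (le_of_eq ?_)
    rw [intervalIntegral.integral_const, smul_eq_mul, sub_zero]
  have hE : 1 / (l : ℝ) * (X + l * (I + p * l)) = I + p * l + X / l := by
    field_simp
    ring
  calc 1 / (X : ℝ) * _ ≤ 1 / (X : ℝ) * (1 / (l : ℝ) * (X + l * (I + p * l))) := by
        refine mul_le_mul_of_nonneg_left (hC.trans ?_) (by positivity)
        exact mul_le_mul_of_nonneg_left (by linarith) (by positivity)
    _ = 1 / (X : ℝ) * I + (p : ℝ) * l / X + 1 / l := by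
        rw [hE]; field_simp

theorem one_le_Z {PP : Finset ℕ} {K Z : ℝ} (hK : 1 ≤ K)
    (h : ∀ p ∈ PP, p.Prime ∧ K ≤ p ∧ (p : ℝ) ≤ Z) (hL : K ≤ Ls PP) : 1 ≤ Z := by
  rcases PP.eq_empty_or_nonempty with h0 | ⟨p, hp⟩
  · subst h0
    simp only [Ls, Finset.sum_empty] at hL
    linarith
  · obtain ⟨-, h2, h3⟩ := h p hp
    linarith

theorem vv_meas (l : ℕ) (P : ℕ) (b : ℝ) : Measurable fun t : ℝ => vv l ⌊t / P⌋₊ b := by
  have h : Measurable fun n : ℕ => vv l n b := measurable_of_countable _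
  exact h.comp (Nat.measurable_floor.comp (measurable_id.div_const (P : ℝ)))

theorem step (h0 : T0_stmt) (h1 : T1_stmt) (hE : EPC_stmt) : ∀ (j : ℕ) (ε : ℝ), 0 < ε →
    ∃ K : ℝ, 1 ≤ K ∧ ∀ (PP : Finset ℕ) (Z : ℝ), (∀ p ∈ PP, p.Prime ∧ K ≤ p ∧ (p : ℝ) ≤ Z) →
    K ≤ Ls PP → ∀ X l : ℕ, 1 ≤ l → K * Z ^ (j + 2) * l ≤ X → ∀ (n : ℕ) (a : ℝ),
    vv X n a ≤ EP PP j (fun P => 1 / X * ∫ t in (n : ℝ)..(n + X), vv l ⌊t / P⌋₊ (P * a)) + ε
  | 0, ε, hε => by
    refine ⟨max 1 (2 / ε), le_max_left _ _, fun PP Z hPP hL X l hl hX n a => ?_⟩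
    have hZ := one_le_Z (le_max_left _ _) hPP hL
    have hlR : (1 : ℝ) ≤ l := by exact_mod_cast hl
    have hZ2 : (1 : ℝ) ≤ Z ^ (0 + 2) := one_le_pow₀ hZ
    have hK1 : (1 : ℝ) ≤ max 1 (2 / ε) := le_max_left _ _
    have hKX : max 1 (2 / ε) * l ≤ X := by
      refine le_trans ?_ hX
      have : max 1 (2 / ε) * 1 ≤ max 1 (2 / ε) * Z ^ (0 + 2) :=
        mul_le_mul_of_nonneg_left hZ2 (by linarith)
      nlinarith
    have hXR : (1 : ℝ) ≤ X := by nlinarith
    have hX1 : 1 ≤ X := by exact_mod_cast hXR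
    have h2 := base h0 hX1 hl n a
    have h3 : 2 * (l : ℝ) / X ≤ ε := by
      rw [div_le_iff₀ (by linarith)]
      have h4 : 2 / ε * l ≤ X := le_trans (mul_le_mul_of_nonneg_right (le_max_right _ _)
        (by linarith)) hKX
      rw [div_mul_eq_mul_div, div_le_iff₀ hε] at h4
      linarith
    have h4 : EP PP 0 (fun P => 1 / (X : ℝ) * ∫ t in (n : ℝ)..(n + X), vv l ⌊t / P⌋₊ (P * a)) =
        1 / (X : ℝ) * ∫ t in (n : ℝ)..(n + X), vv l ⌊t⌋₊ a := by
      change 1 / (X : ℝ) * ∫ t in (n : ℝ)..(n + X), vv l ⌊t / (1 : ℕ)⌋₊ ((1 : ℕ) * a) = _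
      simp only [Nat.cast_one, div_one, one_mul]
    rw [h4]
    linarith
  | (j + 1), ε, hε => by
    obtain ⟨K1, η, hK1, hη, hη1, hT⟩ := h1 (ε / 4) (by positivity)
    obtain ⟨K2, hK2, hI⟩ := step h0 h1 hE j (ε / 4) (by positivity)
    set η' : ℝ := min η (ε / 4) with hη'
    have hη'0 : 0 < η' := lt_min hη (by positivity)
    set M : ℝ := max K2 (4 / ε) with hM
    have hM1 : 1 ≤ M := hK2.trans (le_max_left _ _)
    set K : ℝ := max (max K1 K2) (2 * M / η') with hK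
    have hKK1 : K1 ≤ K := (le_max_left _ _).trans (le_max_left _ _)
    have hKK2 : K2 ≤ K := (le_max_right _ _).trans (le_max_left _ _)
    have hKM : 2 * M / η' ≤ K := le_max_right _ _
    refine ⟨K, hK1.trans hKK1, fun PP Z hPP hL X l hl hX n a => ?_⟩
    have hKone : 1 ≤ K := hK1.trans hKK1
    have hZ := one_le_Z hKone hPP hL
    have hlR : (1 : ℝ) ≤ l := by exact_mod_cast hl
    have hL1 : 1 ≤ Ls PP := hKone.trans hL
    have hZ0 : 0 < Z := by linarith
    have hZj : (1 : ℝ) ≤ Z ^ (j + 2) := one_le_pow₀ hZ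
    -- `l1`
    set l1 : ℕ := ⌊η' * X / Z⌋₊ with hl1
    have hbig : 2 * (M * Z ^ (j + 2) * l) ≤ η' * X / Z := by
      rw [le_div_iff₀ hZ0]
      have h2 : 2 * M ≤ K * η' := (div_le_iff₀ hη'0).1 hKM
      have h3 : K * η' * (Z ^ (j + 1 + 2) * l) ≤ η' * X := by
        have h4 := mul_le_mul_of_nonneg_left hX hη'0.le
        calc K * η' * (Z ^ (j + 1 + 2) * l) = η' * (K * Z ^ (j + 1 + 2) * l) := by ring
          _ ≤ η' * X := h4
      have h4 : 2 * M * (Z ^ (j + 1 + 2) * l) ≤ K * η' * (Z ^ (j + 1 + 2) * l) :=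
        mul_le_mul_of_nonneg_right h2 (by positivity)
      calc 2 * (M * Z ^ (j + 2) * l) * Z = 2 * M * (Z ^ (j + 1 + 2) * l) := by ring
        _ ≤ η' * X := h4.trans h3
    have hMZ : 1 ≤ M * Z ^ (j + 2) * l := by
      have h2 : (1 : ℝ) * 1 ≤ M * Z ^ (j + 2) := mul_le_mul hM1 hZj zero_le_one (by linarith)
      nlinarith
    have hl1a : (l1 : ℝ) ≤ η' * X / Z := Nat.floor_le (by positivity)
    have hl1b : M * Z ^ (j + 2) * l ≤ l1 := by
      have := Nat.lt_floor_add_one (η' * X / Z)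
      rw [← hl1] at this
      linarith
    have hl1one : 1 ≤ l1 := by
      have h2 : (1 : ℝ) ≤ l1 := hMZ.trans hl1b
      exact_mod_cast h2
    have hl1R : (1 : ℝ) ≤ l1 := by exact_mod_cast hl1one
    have hl1X : (l1 : ℝ) * Z ≤ η' * X := (le_div_iff₀ hZ0).1 hl1a
    have hXR : (1 : ℝ) ≤ X := by
      by_contra hcon
      push Not at hcon
      have h2 : (X : ℝ) = 0 := by
        have : X < 1 := by exact_mod_cast hcon
        have : X = 0 := by omega
        exact_mod_cast this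
      rw [h2] at hl1X
      nlinarith
    have hX1 : 1 ≤ X := by exact_mod_cast hXR
    have hK1Z : K1 * Z ^ 2 ≤ X := by
      refine le_trans ?_ hX
      have h2 : Z ^ 2 ≤ Z ^ (j + 1 + 2) := pow_le_pow_right₀ hZ (by omega)
      calc K1 * Z ^ 2 ≤ K * Z ^ (j + 1 + 2) := mul_le_mul hKK1 h2 (by positivity) (by linarith)
        _ ≤ K * Z ^ (j + 1 + 2) * l := le_mul_of_one_le_right (by positivity) hlR
    have hT1 := hT PP Z (fun p hp => ⟨(hPP p hp).1, hKK1.trans (hPP p hp).2.1, (hPP p hp).2.2⟩)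
      (hKK1.trans hL) X l1 hK1Z hl1one
      (hl1X.trans (mul_le_mul_of_nonneg_right (min_le_left _ _) (by linarith))) n a
    have hIH := hI PP Z (fun p hp => ⟨(hPP p hp).1, hKK2.trans (hPP p hp).2.1, (hPP p hp).2.2⟩)
      (hKK2.trans hL) l1 l hl (by
        refine le_trans ?_ hl1b
        have h2 : K2 ≤ M := le_max_left _ _
        have h3 : 0 ≤ Z ^ (j + 2) * l := by positivity
        calc K2 * Z ^ (j + 2) * l = K2 * (Z ^ (j + 2) * l) := by ring
          _ ≤ M * (Z ^ (j + 2) * l) := mul_le_mul_of_nonneg_right h2 h3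
          _ = M * Z ^ (j + 2) * l := by ring)
    obtain ⟨e1, e2, e3, e4, -⟩ := hE PP hL1
    -- one prime
    have hone : ∀ p ∈ PP, 1 / (X : ℝ) * ∫ t in (n : ℝ)..(n + X), vv l1 ⌊t / p⌋₊ (p * a) ≤
        EP PP j (fun P => 1 / (X : ℝ) * ∫ t in (n : ℝ)..(n + X),
          vv l ⌊t / ((p * P : ℕ) : ℝ)⌋₊ (((p * P : ℕ) : ℝ) * a)) + 3 * (ε / 4) := by
      intro p hp
      obtain ⟨hpr, -, hpZ⟩ := hPP p hp
      have hp1 : 1 ≤ p := hpr.one_lt.le
      set G : ℕ → ℝ → ℝ := fun P t => 1 / (l1 : ℝ) *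
        ∫ t' in ((⌊t / p⌋₊ : ℕ) : ℝ)..(((⌊t / p⌋₊ : ℕ) : ℝ) + l1), vv l ⌊t' / P⌋₊ (P * (p * a)) with hG
      have hGi : ∀ P x y, IntervalIntegrable (G P) volume x y := by
        intro P
        have hint : ∀ x y : ℝ, IntervalIntegrable (fun t' : ℝ => vv l ⌊t' / P⌋₊ (P * (p * a))) volume x y :=
          ii_of_bdd (vv_meas _ _ _) (fun x => vv_nonneg _ _ _) (fun x => vv_le_one _ _ _)
        refine ii_of_bdd ?_ ?_ ?_
        · have h2 : Measurable fun k : ℕ => 1 / (l1 : ℝ) *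
              ∫ t' in ((k : ℕ) : ℝ)..((k : ℝ) + l1), vv l ⌊t' / P⌋₊ (P * (p * a)) :=
            measurable_of_countable _
          exact h2.comp (Nat.measurable_floor.comp (measurable_id.div_const (p : ℝ)))
        · intro t
          exact mul_nonneg (by positivity) (intervalIntegral.integral_nonneg (by linarith)
            fun u _ => vv_nonneg _ _ _)
        · intro t
          simp only [hG]
          rw [one_div_mul_eq_div, div_le_one (by linarith)]
          have h2 : ∫ t' in ((⌊t / p⌋₊ : ℕ) : ℝ)..(((⌊t / p⌋₊ : ℕ) : ℝ) + l1),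
              vv l ⌊t' / P⌋₊ (P * (p * a)) ≤ ∫ _t' in ((⌊t / p⌋₊ : ℕ) : ℝ)..(((⌊t / p⌋₊ : ℕ) : ℝ) + l1),
              (1 : ℝ) :=
            intervalIntegral.integral_mono_on (by linarith) (hint _ _) intervalIntegrable_const
              (fun u _ => vv_le_one _ _ _)
          simpa using h2
      obtain ⟨hE1, hE2⟩ := EP_int PP j G n (n + X) (fun P => hGi P _ _)
      have hvi : IntervalIntegrable (fun t : ℝ => vv l1 ⌊t / p⌋₊ (p * a)) volume n (n + X) :=
        ii_of_bdd (vv_meas _ _ _) (fun x => vv_nonneg _ _ _) (fun x => vv_le_one _ _ _) _ _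
      have hX0 : (0 : ℝ) < X := by linarith
      have h2 : ∫ t in (n : ℝ)..(n + X), vv l1 ⌊t / p⌋₊ (p * a) ≤
          ∫ t in (n : ℝ)..(n + X), (EP PP j (fun P => G P t) + ε / 4) := by
        refine intervalIntegral.integral_mono_on (by linarith) hvi
          (hE1.add intervalIntegrable_const) fun t _ => ?_
        exact hIH ⌊t / p⌋₊ (p * a)
      rw [intervalIntegral.integral_add hE1 intervalIntegrable_const, hE2,
        intervalIntegral.integral_const, smul_eq_mul] at h2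
      have h3 : 1 / (X : ℝ) * ∫ t in (n : ℝ)..(n + X), vv l1 ⌊t / p⌋₊ (p * a) ≤
          EP PP j (fun P => 1 / (X : ℝ) * ∫ t in (n : ℝ)..(n + X), G P t) + ε / 4 := by
        have h4 := mul_le_mul_of_nonneg_left h2 (show (0 : ℝ) ≤ 1 / X by positivity)
        rw [mul_add, ← e3] at h4
        have h5 : 1 / (X : ℝ) * ((n + X - n) * (ε / 4)) = ε / 4 := by field_simp; ring
        rw [h5] at h4
        exact h4
      refine h3.trans ?_
      have h4 : EP PP j (fun P => 1 / (X : ℝ) * ∫ t in (n : ℝ)..(n + X), G P t) ≤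
          EP PP j (fun P => 1 / (X : ℝ) * (∫ t in (n : ℝ)..(n + X),
            vv l ⌊t / ((p * P : ℕ) : ℝ)⌋₊ (((p * P : ℕ) : ℝ) * a)) + 2 * (ε / 4)) := by
        refine e4 j _ _ fun L _ _ => ?_
        have h5 := shift_avg (H := fun t' => vv l ⌊t' / (L.prod : ℕ)⌋₊ ((L.prod : ℕ) * (p * a)))
          (vv_meas _ _ _) (fun x => vv_nonneg _ _ _) (fun x => vv_le_one _ _ _) hp1 hX1 hl1one n
        have h6 : (fun t : ℝ => vv l ⌊t / p / (L.prod : ℕ)⌋₊ ((L.prod : ℕ) * (p * a))) =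
            fun t : ℝ => vv l ⌊t / ((p * L.prod : ℕ) : ℝ)⌋₊ (((p * L.prod : ℕ) : ℝ) * a) := by
          funext t
          rw [div_div]
          push_cast
          congr 1
          ring
        have h7 : ∫ t in (n : ℝ)..(n + X), vv l ⌊t / p / (L.prod : ℕ)⌋₊ ((L.prod : ℕ) * (p * a)) =
            ∫ t in (n : ℝ)..(n + X), vv l ⌊t / ((p * L.prod : ℕ) : ℝ)⌋₊ (((p * L.prod : ℕ) : ℝ) * a) := by
          rw [h6]
        simp only [h7] at h5
        have h8 : (p : ℝ) * l1 / X ≤ ε / 4 := by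
          rw [div_le_iff₀ hX0]
          calc (p : ℝ) * l1 ≤ Z * l1 := mul_le_mul_of_nonneg_right hpZ (by linarith)
            _ = l1 * Z := mul_comm _ _
            _ ≤ η' * X := hl1X
            _ ≤ ε / 4 * X := mul_le_mul_of_nonneg_right (min_le_right _ _) hX0.le
        have h9 : 1 / (l1 : ℝ) ≤ ε / 4 := by
          rw [div_le_iff₀ (by linarith)]
          have h10 : 4 / ε ≤ l1 := by
            refine le_trans ?_ hl1b
            calc 4 / ε ≤ M := le_max_right _ _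
              _ ≤ M * Z ^ (j + 2) := le_mul_of_one_le_right (by linarith) hZj
              _ ≤ M * Z ^ (j + 2) * l := le_mul_of_one_le_right (by positivity) hlR
          rw [div_le_iff₀ hε] at h10
          linarith
        refine h5.trans ?_
        linarith
      rw [e2] at h4
      have h5 : EP PP j (fun _ => 2 * (ε / 4)) = 2 * (ε / 4) := e1 j _
      rw [h5] at h4
      linarith
    -- the sum over the primes
    have hsum : ‖∑ p ∈ PP, (wt PP p : ℂ) * (((1 / X : ℝ) : ℂ) *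
        ∫ t in (n : ℝ)..(n + X), zz l1 ⌊t / p⌋₊ (p * a))‖ ≤
        ∑ p ∈ PP, wt PP p * (1 / X * ∫ t in (n : ℝ)..(n + X), vv l1 ⌊t / p⌋₊ (p * a)) := by
      refine (norm_sum_le _ _).trans (Finset.sum_le_sum fun p _ => ?_)
      rw [norm_mul, norm_mul, Complex.norm_real, Complex.norm_real,
        Real.norm_of_nonneg (wt_nn hL1 p), Real.norm_of_nonneg (by positivity)]
      refine mul_le_mul_of_nonneg_left (mul_le_mul_of_nonneg_left ?_ (by positivity)) (wt_nn hL1 p)
      have h2 := intervalIntegral.norm_integral_le_integral_norm (μ := volume)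
        (f := fun t : ℝ => zz l1 ⌊t / p⌋₊ (p * a)) (show (n : ℝ) ≤ n + X by linarith)
      simp only [h0 _ _ _] at h2
      exact h2
    have hfin : ∑ p ∈ PP, wt PP p * (1 / X * ∫ t in (n : ℝ)..(n + X), vv l1 ⌊t / p⌋₊ (p * a)) ≤
        EP PP (j + 1) (fun P => 1 / X * ∫ t in (n : ℝ)..(n + X), vv l ⌊t / P⌋₊ (P * a)) +
          3 * (ε / 4) := by
      calc _ ≤ ∑ p ∈ PP, wt PP p * (EP PP j (fun P => 1 / (X : ℝ) * ∫ t in (n : ℝ)..(n + X),
              vv l ⌊t / ((p * P : ℕ) : ℝ)⌋₊ (((p * P : ℕ) : ℝ) * a)) + 3 * (ε / 4)) :=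
            Finset.sum_le_sum fun p hp => mul_le_mul_of_nonneg_left (hone p hp) (wt_nn hL1 p)
        _ = _ := by
            simp only [mul_add, Finset.sum_add_distrib]
            rw [← Finset.sum_mul, sum_wt hL1, one_mul]
            rfl
    rw [← h0 X n a]
    have h2 : zz X n a = (zz X n a + ∑ p ∈ PP, (wt PP p : ℂ) * (((1 / X : ℝ) : ℂ) *
        ∫ t in (n : ℝ)..(n + X), zz l1 ⌊t / p⌋₊ (p * a))) - ∑ p ∈ PP, (wt PP p : ℂ) *
        (((1 / X : ℝ) : ℂ) * ∫ t in (n : ℝ)..(n + X), zz l1 ⌊t / p⌋₊ (p * a)) := by ring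
    rw [h2]
    refine (norm_sub_le _ _).trans ?_
    have h3 := hsum.trans hfin
    linarith

end T2x

/-- Row T2. -/
theorem t2 : T2_stmt := by
  intro h0 h1 hE ε J hε
  choose K hK1 hK using fun j : ℕ => T2x.step h0 h1 hE j ε hε
  have hKj : ∀ j ≤ J, K j ≤ ∑ i ∈ Finset.range (J + 1), K i := fun j hj =>
    Finset.single_le_sum (f := K) (fun i _ => zero_le_one.trans (hK1 i))
      (Finset.mem_range.2 (by omega))
  have hone : 1 ≤ ∑ i ∈ Finset.range (J + 1), K i := (hK1 0).trans (hKj 0 (Nat.zero_le _))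
  refine ⟨∑ i ∈ Finset.range (J + 1), K i, hone, fun PP Z hPP hL X l hl hX j hj n a => ?_⟩
  have hZ := T2x.one_le_Z hone hPP hL
  refine hK j PP Z (fun p hp => ⟨(hPP p hp).1, (hKj j hj).trans (hPP p hp).2.1, (hPP p hp).2.2⟩)
    ((hKj j hj).trans hL) X l hl ?_ n a
  refine le_trans ?_ hX
  refine mul_le_mul_of_nonneg_right ?_ (Nat.cast_nonneg _)
  exact mul_le_mul (hKj j hj) (pow_le_pow_right₀ hZ (by omega)) (by positivity) (by linarith)

end Pool.Agent.SV
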