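import Pool.Agent.Lib.SV.TFDefs2
import Pool.Agent.Lib.SV.EPC

/-!
# Theorem TF (MP_663568_nt), row T21: the lower bound at a regular scale.  helper66.
-/

set_option autoImplicit false
open Finset MeasureTheory

namespace Pool.Agent.SV.T21x

open Pool.Agent.Lib.MP_663568_nt Pool.Agent.Lib.MP_663568_nt.Katai
  Pool.Agent.Lib.MP_663568_nt.Nul Pool.Agent.SV Pool.Agent.SV.EPx

noncomputable section

/-! ### Basics -/

theorem norm_ee' (x : ℝ) : ‖ee x‖ = 1 := by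
  unfold ee
  have h1 : (2 * Real.pi * Complex.I * x : ℂ) = ((2 * Real.pi * x : ℝ) : ℂ) * Complex.I := by
    push_cast
    ring
  rw [h1, Complex.norm_exp_ofReal_mul_I]

theorem vv_nonneg (l y : ℕ) (b : ℝ) : 0 ≤ vv l y b := by unfold vv; positivity

theorem vv_le_one (l y : ℕ) (b : ℝ) : vv l y b ≤ 1 := by
  unfold vv
  refine div_le_one_of_le₀ ?_ (Nat.cast_nonneg _)
  refine (norm_sum_le _ _).trans ?_
  have : ∀ m ∈ Icc 1 l, ‖muC (y + m) * ee (b * m)‖ ≤ 1 := by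
    intro m _
    rw [norm_mul, norm_ee', mul_one]
    exact norm_muC _
  refine (sum_le_sum this).trans ?_
  simp

theorem bdd_all (l n : ℕ) : BddAbove (Set.range fun b : ℝ => vv l n b) :=
  ⟨1, by rintro _ ⟨b, rfl⟩; exact vv_le_one _ _ _⟩

theorem bdd_sub (l n : ℕ) (S : Set ℝ) : BddAbove (Set.range fun y : {y : ℝ // y ∈ S} => vv l n y) :=
  ⟨1, by rintro _ ⟨b, rfl⟩; exact vv_le_one _ _ _⟩

theorem sv_nonneg (l n : ℕ) : 0 ≤ sv l n := (vv_nonneg l n 0).trans (le_ciSup (bdd_all l n) 0)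

theorem sv_le_one (l n : ℕ) : sv l n ≤ 1 := ciSup_le fun b => vv_le_one _ _ _

/-- The supremum over a set of frequencies. -/
def fs (l : ℕ) (T : ℕ → Set ℝ) (n : ℕ) : ℝ := ⨆ y : {y : ℝ // y ∈ T n}, vv l n y

theorem fs_nonneg (l : ℕ) (T : ℕ → Set ℝ) (n : ℕ) : 0 ≤ fs l T n :=
  Real.iSup_nonneg fun y => vv_nonneg _ _ _

theorem fs_le_one (l : ℕ) (T : ℕ → Set ℝ) (n : ℕ) : fs l T n ≤ 1 :=
  Real.iSup_le (fun y => vv_le_one _ _ _) zero_le_one

theorem le_fs {l : ℕ} {T : ℕ → Set ℝ} {n : ℕ} {y : ℝ} (hy : y ∈ T n) : vv l n y ≤ fs l T n :=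
  le_ciSup (bdd_sub l n (T n)) ⟨y, hy⟩

theorem exists_opt (X : ℕ) {δ : ℝ} (hδ : 0 < δ) : ∃ b : ℕ → ℝ, ∀ n, sv X n ≤ vv X n (b n) + δ := by
  have h : ∀ n, ∃ b : ℝ, sv X n ≤ vv X n b + δ := by
    intro n
    obtain ⟨b, hb⟩ := exists_lt_of_lt_ciSup (show sv X n - δ < ⨆ b : ℝ, vv X n b by
      unfold sv
      linarith)
    exact ⟨b, by linarith⟩
  choose b hb using h
  exact ⟨b, hb⟩

/-! ### Integrability -/

theorem intble {E : Type*} [NormedAddCommGroup E] [MeasurableSpace E] [BorelSpace E]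
    [SecondCountableTopology E] {f : ℝ → E} (hm : Measurable f) {M : ℝ}
    (hb : ∀ u, ‖f u‖ ≤ M) (s t : ℝ) : IntervalIntegrable f volume s t := by
  rw [intervalIntegrable_iff]
  refine Measure.integrableOn_of_bounded (M := M) ?_ hm.aestronglyMeasurable
    (Filter.Eventually.of_forall fun u => hb u)
  rw [Set.uIoc, Real.volume_Ioc]
  exact ENNReal.ofReal_ne_top

theorem mfl : Measurable fun u : ℝ => ⌊Real.exp u⌋₊ := Nat.measurable_floor.comp Real.measurable_exp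

theorem mflp (p : ℝ) : Measurable fun u : ℝ => ⌊Real.exp u / p⌋₊ :=
  Nat.measurable_floor.comp (Real.measurable_exp.div_const _)

theorem mtp (p : ℝ) : Measurable fun t : ℝ => ⌊t / p⌋₊ :=
  Nat.measurable_floor.comp (measurable_id.div_const _)

/-- A mean of a bounded function. -/
theorem mean_le {X : ℕ} (hX : 1 ≤ X) {n : ℝ} {g : ℝ → ℝ} {M : ℝ} (h : ∀ t, |g t| ≤ M) :
    |1 / (X : ℝ) * ∫ t in n..(n + X), g t| ≤ M := by
  have hX0 : (0 : ℝ) < X := by exact_mod_cast hX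
  have h1 : ‖∫ t in n..(n + X), g t‖ ≤ M * |n + X - n| :=
    intervalIntegral.norm_integral_le_of_norm_le_const fun t _ => h t
  rw [Real.norm_eq_abs, add_sub_cancel_left, abs_of_pos hX0] at h1
  rw [abs_mul, abs_of_pos (by positivity : 0 < 1 / (X : ℝ))]
  calc 1 / (X : ℝ) * |∫ t in n..(n + X), g t| ≤ 1 / (X : ℝ) * (M * X) :=
        mul_le_mul_of_nonneg_left h1 (by positivity)
    _ = M := by field_simp

theorem wsum_le {PP : Finset ℕ} (h : 1 ≤ Ls PP) {g : ℕ → ℝ} {M : ℝ} (hg : ∀ p, |g p| ≤ M) :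
    |∑ p ∈ PP, wt PP p * g p| ≤ M := by
  refine (abs_sum_le_sum_abs _ _).trans ?_
  have h1 : ∀ p ∈ PP, |wt PP p * g p| ≤ wt PP p * M := by
    intro p _
    rw [abs_mul, abs_of_nonneg (wt_nonneg h p)]
    exact mul_le_mul_of_nonneg_left (hg p) (wt_nonneg h p)
  refine (sum_le_sum h1).trans ?_
  rw [← sum_mul, sum_wt h, one_mul]

/-! ### The minorant -/

/-- Periodic sets. -/
def Per (S : Set ℝ) : Prop := ∀ x : ℝ, x + 1 ∈ S ↔ x ∈ S

/-- The set of the points whose open neighbourhood is in `S`. -/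
def inn (R : ℝ) (S : Set ℝ) : Set ℝ := {x | ∀ z : ℝ, |z - x| < 1 / R → z ∈ S}

theorem inn_meas (R : ℝ) (S : Set ℝ) : MeasurableSet (inn R S) := by
  have h : IsOpen (inn R S)ᶜ := by
    have h1 : (inn R S)ᶜ = ⋃ z ∈ Sᶜ, Metric.ball z (1 / R) := by
      ext x
      simp only [inn, Set.mem_compl_iff, Set.mem_setOf_eq, Set.mem_iUnion, Metric.mem_ball,
        Real.dist_eq, not_forall, exists_prop]
      constructor
      · rintro ⟨z, h1, h2⟩
        exact ⟨z, h2, by rwa [abs_sub_comm]⟩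
      · rintro ⟨z, h2, h1⟩
        exact ⟨z, by rwa [abs_sub_comm], h2⟩
    rw [h1]
    exact isOpen_biUnion fun z _ => Metric.isOpen_ball
  exact (isOpen_compl_iff.1 h).measurableSet

theorem inn_per {R : ℝ} {S : Set ℝ} (h : Per S) : Per (inn R S) := by
  intro x
  constructor
  · intro hx z hz
    have h1 := hx (z + 1) (by
      have : z + 1 - (x + 1) = z - x := by ring
      rwa [this])
    exact (h z).1 h1
  · intro hx z hz
    have h1 := hx (z - 1) (by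
      have : z - 1 - x = z - (x + 1) := by ring
      rwa [this])
    have h2 := (h (z - 1)).2 h1
    have h3 : z - 1 + 1 = z := by ring
    rwa [h3] at h2

theorem im1_eq (S : Set ℝ) (R : ℝ) : im1 S R = (volume (inn R S ∩ Set.Icc 0 1)).toReal := by
  unfold im1
  congr 2
  ext x
  simp only [inn, Set.mem_setOf_eq, Set.mem_inter_iff]
  tauto

theorem im1_le_one (S : Set ℝ) (R : ℝ) : im1 S R ≤ 1 := by
  rw [im1_eq]
  have h1 : volume (inn R S ∩ Set.Icc (0 : ℝ) 1) ≤ volume (Set.Icc (0 : ℝ) 1) :=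
    measure_mono Set.inter_subset_right
  rw [Real.volume_Icc] at h1
  have h2 := ENNReal.toReal_mono ENNReal.ofReal_ne_top h1
  simpa using h2

/-- The trigonometric polynomial with the coefficients `c`. -/
def tp (K : ℕ) (c : ℤ → ℂ) (x : ℝ) : ℝ := (∑ k ∈ Icc (-(K : ℤ)) K, c k * ee (k * x)).re

theorem exists_coef (h15 : T15_stmt) {R e : ℝ} (hR : 1 ≤ R) (he : 0 < e) :
    ∃ (K : ℕ) (c : Set ℝ → ℤ → ℂ), (∀ S k, ‖c S k‖ ≤ 1) ∧ ∀ S, Per S →
      c S 0 = ((im1 S R : ℝ) : ℂ) ∧ ∀ x, tp K (c S) x ≤ 1 ∧ (x ∉ S → tp K (c S) x ≤ e) := by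
  classical
  obtain ⟨K, hK⟩ := h15 (2 * R) e (by linarith) he
  have h1 : ∀ S : Set ℝ, ∃ c : ℤ → ℂ, (∀ k, ‖c k‖ ≤ 1) ∧ (Per S →
      c 0 = ((im1 S R : ℝ) : ℂ) ∧ ∀ x, tp K c x ≤ 1 ∧ (x ∉ S → tp K c x ≤ e)) := by
    intro S
    by_cases hS : Per S
    · obtain ⟨c, c1, c2, c3⟩ := hK (inn R S) (inn_meas R S) (inn_per hS)
      refine ⟨c, c1, fun _ => ⟨?_, fun x => ⟨(c3 x).2.1, fun hx => (c3 x).2.2.2 ?_⟩⟩⟩
      · rw [c2, im1_eq]
      · intro z hz hzS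
        apply hx
        refine hzS x ?_
        rw [abs_sub_comm]
        refine lt_of_le_of_lt hz ?_
        exact one_div_lt_one_div_of_lt (by linarith) (by linarith)
    · exact ⟨fun _ => 0, fun _ => by simp, fun h => absurd h hS⟩
  choose c c1 c2 using h1
  exact ⟨K, c, c1, c2⟩

theorem tp_abs_le {K : ℕ} {c : ℤ → ℂ} (hc : ∀ k, ‖c k‖ ≤ 1) (x : ℝ) :
    |tp K c x| ≤ 2 * K + 1 := by
  unfold tp
  refine (Complex.abs_re_le_norm _).trans ((norm_sum_le _ _).trans ?_)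
  have h1 : ∀ k ∈ Icc (-(K : ℤ)) K, ‖c k * ee (k * x)‖ ≤ 1 := by
    intro k _
    rw [norm_mul, norm_ee', mul_one]
    exact hc k
  refine (sum_le_sum h1).trans ?_
  rw [sum_const, Int.card_Icc, nsmul_eq_mul, mul_one]
  have h2 : ((K : ℤ) + 1 - -(K : ℤ)).toNat = 2 * K + 1 := by omega
  rw [h2]
  push_cast
  exact le_rfl

/-! ### The pointwise inequality -/

theorem pt (h0 : T0_stmt) {T : ℕ → Set ℝ} {l X n m m0 : ℕ} {p : ℕ} {b s e G B : ℝ} (hs : 0 < s)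
    (he : 0 ≤ e) (hG : G ≤ 1) (hG' : (p : ℝ) * b ∉ T m0 → G ≤ e) (hB0 : 0 ≤ B)
    (hB : T m = T m0 ∨ B = 1) :
    vv X n b * G - e - B - s / 2 - 1 / (2 * s) * ‖zz l m (p * b) + zz X n b‖ ^ 2 ≤ fs l T m := by
  have v0 := vv_nonneg X n b
  have v1 := vv_le_one X n b
  have q0 : 0 ≤ 1 / (2 * s) * ‖zz l m (p * b) + zz X n b‖ ^ 2 := by positivity
  have f0 := fs_nonneg l T m
  have h1 : vv X n b * G ≤ vv X n b := mul_le_of_le_one_right v0 hG
  rcases hB with hB | hB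
  · by_cases hm : (p : ℝ) * b ∈ T m0
    · rw [← hB] at hm
      have h2 := le_fs (l := l) hm
      have h3 : vv X n b ≤ vv l m (p * b) + ‖zz l m (p * b) + zz X n b‖ := by
        rw [← h0, ← h0]
        have := norm_sub_le (zz l m (p * b) + zz X n b) (zz l m (p * b))
        rw [add_sub_cancel_left] at this
        linarith
      have h4 : ‖zz l m (p * b) + zz X n b‖ ≤
          s / 2 + 1 / (2 * s) * ‖zz l m (p * b) + zz X n b‖ ^ 2 := by
        set y := ‖zz l m (p * b) + zz X n b‖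
        have h5 : s / 2 + 1 / (2 * s) * y ^ 2 - y = (y - s) ^ 2 / (2 * s) := by
          field_simp
          ring
        have h6 : 0 ≤ (y - s) ^ 2 / (2 * s) := by positivity
        linarith
      linarith
    · have h2 := hG' hm
      have h3 : vv X n b * G ≤ vv X n b * e := mul_le_mul_of_nonneg_left h2 v0
      have h4 : vv X n b * e ≤ e := mul_le_of_le_one_left he v1
      linarith
  · linarith

theorem zz_norm_le (h0 : T0_stmt) (l y : ℕ) (b : ℝ) : ‖zz l y b‖ ≤ 1 := by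
  rw [h0]
  exact vv_le_one _ _ _

theorem sq_le (h0 : T0_stmt) (l m X n : ℕ) (b b' : ℝ) : ‖zz l m b + zz X n b'‖ ^ 2 ≤ 4 := by
  have h1 := norm_add_le (zz l m b) (zz X n b')
  have h2 := zz_norm_le h0 l m b
  have h3 := zz_norm_le h0 X n b'
  have h4 : ‖zz l m b + zz X n b'‖ ≤ 2 := by linarith
  have h5 := norm_nonneg (zz l m b + zz X n b')
  nlinarith

/-- Average over the window. -/
theorem avg (h0 : T0_stmt) {T : ℕ → Set ℝ} {l X n m0 : ℕ} {p : ℕ} {b s e G B : ℝ} (hX : 1 ≤ X)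
    (hs : 0 < s) (he : 0 ≤ e) (hG : G ≤ 1) (hG' : (p : ℝ) * b ∉ T m0 → G ≤ e) (hB0 : 0 ≤ B)
    (hB : ∀ t : ℝ, (n : ℝ) ≤ t → t ≤ n + X → T ⌊t / p⌋₊ = T m0 ∨ B = 1) :
    vv X n b * G - e - B - s / 2 - 1 / (2 * s) * (1 / X * ∫ t in (n : ℝ)..(n + X),
      ‖zz l ⌊t / p⌋₊ (p * b) + zz X n b‖ ^ 2) ≤
      1 / X * ∫ t in (n : ℝ)..(n + X), fs l T ⌊t / p⌋₊ := by
  have hX0 : (0 : ℝ) < X := by exact_mod_cast hX
  set C := vv X n b * G - e - B - s / 2 with hC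
  have i1 : IntervalIntegrable (fun t : ℝ => ‖zz l ⌊t / p⌋₊ (p * b) + zz X n b‖ ^ 2) volume
      (n : ℝ) (n + X) := by
    refine intble (M := 4) ?_ (fun t => ?_) _ _
    · exact (measurable_from_nat (f := fun m : ℕ => ‖zz l m (p * b) + zz X n b‖ ^ 2)).comp (mtp p)
    · rw [Real.norm_of_nonneg (by positivity)]
      exact sq_le h0 _ _ _ _ _ _
  have i2 : IntervalIntegrable (fun t : ℝ => fs l T ⌊t / p⌋₊) volume (n : ℝ) (n + X) := by
    refine intble (M := 1) ?_ (fun t => ?_) _ _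
    · exact (measurable_from_nat (f := fun m : ℕ => fs l T m)).comp (mtp p)
    · rw [Real.norm_of_nonneg (fs_nonneg _ _ _)]
      exact fs_le_one _ _ _
  have h1 : ∫ t in (n : ℝ)..(n + X), (C - 1 / (2 * s) * ‖zz l ⌊t / p⌋₊ (p * b) + zz X n b‖ ^ 2) ≤
      ∫ t in (n : ℝ)..(n + X), fs l T ⌊t / p⌋₊ := by
    refine intervalIntegral.integral_mono_on (by linarith)
      (IntervalIntegrable.sub (by simp) (i1.const_mul _)) i2 fun t ht => ?_
    exact pt h0 hs he hG hG' hB0 (hB t ht.1 ht.2)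
  rw [intervalIntegral.integral_sub (by simp) (i1.const_mul _),
    intervalIntegral.integral_const_mul] at h1
  simp only [intervalIntegral.integral_const, smul_eq_mul, add_sub_cancel_left] at h1
  have h2 := mul_le_mul_of_nonneg_left h1 (show 0 ≤ 1 / (X : ℝ) by positivity)
  refine le_trans (le_of_eq ?_) h2
  field_simp

/-! ### The outer integral -/

/-- The value of the optimal frequency. -/
def vo (X : ℕ) (b : ℕ → ℝ) (u : ℝ) : ℝ := vv X ⌊Real.exp u⌋₊ (b ⌊Real.exp u⌋₊)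

theorem vo_meas (X : ℕ) (b : ℕ → ℝ) : Measurable (vo X b) :=
  (measurable_from_nat (f := fun n : ℕ => vv X n (b n))).comp mfl

theorem vo_nonneg (X : ℕ) (b : ℕ → ℝ) (u : ℝ) : 0 ≤ vo X b u := vv_nonneg _ _ _

theorem vo_le_one (X : ℕ) (b : ℕ → ℝ) (u : ℝ) : vo X b u ≤ 1 := vv_le_one _ _ _

theorem vo_int (X : ℕ) (b : ℕ → ℝ) (s t : ℝ) : IntervalIntegrable (vo X b) volume s t :=
  intble (M := 1) (vo_meas X b)
    (fun u => by rw [Real.norm_of_nonneg (vo_nonneg _ _ _)]; exact vo_le_one _ _ _) _ _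

/-- The value of the minorant. -/
def go (K : ℕ) (c : Set ℝ → ℤ → ℂ) (T : ℕ → Set ℝ) (b : ℕ → ℝ) (p : ℕ) (u : ℝ) : ℝ :=
  tp K (c (T ⌊Real.exp u / p⌋₊)) (p * b ⌊Real.exp u⌋₊)

/-- functions of the two floors -/
theorem two_meas {E : Type*} [MeasurableSpace E] (F : ℕ × ℕ → E) (p : ℝ) :
    Measurable fun u : ℝ => F (⌊Real.exp u⌋₊, ⌊Real.exp u / p⌋₊) :=
  (measurable_of_countable F).comp (mfl.prodMk (mflp p))

theorem go_meas (K : ℕ) (c : Set ℝ → ℤ → ℂ) (T : ℕ → Set ℝ) (b : ℕ → ℝ) (p : ℕ) :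
    Measurable (go K c T b p) :=
  two_meas (fun x : ℕ × ℕ => tp K (c (T x.2)) (p * b x.1)) p

open Classical in
/-- The indicator of the bad set. -/
def bo (X : ℕ) (T : ℕ → Set ℝ) (p : ℕ) (u : ℝ) : ℝ :=
  if ∃ t : ℝ, (⌊Real.exp u⌋₊ : ℝ) ≤ t ∧ t ≤ ⌊Real.exp u⌋₊ + X ∧
    T ⌊t / p⌋₊ ≠ T ⌊Real.exp u / p⌋₊ then 1 else 0

theorem bo_meas (X : ℕ) (T : ℕ → Set ℝ) (p : ℕ) : Measurable (bo X T p) := by
  classical
  exact two_meas (fun x : ℕ × ℕ => if ∃ t : ℝ, (x.1 : ℝ) ≤ t ∧ t ≤ x.1 + X ∧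
    T ⌊t / p⌋₊ ≠ T x.2 then (1 : ℝ) else 0) p

theorem bo_nonneg (X : ℕ) (T : ℕ → Set ℝ) (p : ℕ) (u : ℝ) : 0 ≤ bo X T p u := by
  unfold bo
  split_ifs <;> norm_num

theorem bo_le_one (X : ℕ) (T : ℕ → Set ℝ) (p : ℕ) (u : ℝ) : bo X T p u ≤ 1 := by
  unfold bo
  split_ifs <;> norm_num

theorem bo_int (X : ℕ) (T : ℕ → Set ℝ) (p : ℕ) (s t : ℝ) :
    IntervalIntegrable (bo X T p) volume s t :=
  intble (M := 1) (bo_meas X T p)
    (fun u => by rw [Real.norm_of_nonneg (bo_nonneg _ _ _ _)]; exact bo_le_one _ _ _ _) _ _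

/-- `F1` and `F2` as functions of `u`. -/
def f1 (l X : ℕ) (PP : Finset ℕ) (T : ℕ → Set ℝ) (u : ℝ) : ℝ :=
  ∑ p ∈ PP, wt PP p * (1 / X * ∫ t in (⌊Real.exp u⌋₊ : ℝ)..(⌊Real.exp u⌋₊ + X), fs l T ⌊t / p⌋₊)

def f2 (l X : ℕ) (PP : Finset ℕ) (b : ℕ → ℝ) (u : ℝ) : ℝ :=
  ∑ p ∈ PP, wt PP p * (1 / X * ∫ t in (⌊Real.exp u⌋₊ : ℝ)..(⌊Real.exp u⌋₊ + X),
    ‖zz l ⌊t / p⌋₊ (p * b ⌊Real.exp u⌋₊) + zz X ⌊Real.exp u⌋₊ (b ⌊Real.exp u⌋₊)‖ ^ 2)

theorem f1_int {l X : ℕ} (hX : 1 ≤ X) {PP : Finset ℕ} (hL : 1 ≤ Ls PP) (T : ℕ → Set ℝ)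
    (s t : ℝ) : IntervalIntegrable (f1 l X PP T) volume s t := by
  refine intble (M := 1) ?_ (fun u => ?_) _ _
  · exact (measurable_from_nat (f := fun n : ℕ => ∑ p ∈ PP, wt PP p *
      (1 / X * ∫ t in (n : ℝ)..(n + X), fs l T ⌊t / p⌋₊))).comp mfl
  · rw [Real.norm_eq_abs]
    refine wsum_le hL fun p => mean_le hX fun t => ?_
    rw [abs_of_nonneg (fs_nonneg _ _ _)]
    exact fs_le_one _ _ _

theorem f2_int (h0 : T0_stmt) {l X : ℕ} (hX : 1 ≤ X) {PP : Finset ℕ} (hL : 1 ≤ Ls PP)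
    (b : ℕ → ℝ) (s t : ℝ) : IntervalIntegrable (f2 l X PP b) volume s t := by
  refine intble (M := 4) ?_ (fun u => ?_) _ _
  · exact (measurable_from_nat (f := fun n : ℕ => ∑ p ∈ PP, wt PP p *
      (1 / X * ∫ t in (n : ℝ)..(n + X), ‖zz l ⌊t / p⌋₊ (p * b n) + zz X n (b n)‖ ^ 2))).comp mfl
  · rw [Real.norm_eq_abs]
    refine wsum_le hL fun p => mean_le hX fun t => ?_
    rw [abs_of_nonneg (by positivity)]
    exact sq_le h0 _ _ _ _ _ _

/-- The outer integral. -/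
theorem outer (h0 : T0_stmt) {l X K : ℕ} (hX : 1 ≤ X) {PP : Finset ℕ} (hL : 1 ≤ Ls PP)
    {T : ℕ → Set ℝ} {b : ℕ → ℝ} {c : Set ℝ → ℤ → ℂ} (hc : ∀ S k, ‖c S k‖ ≤ 1) {s e : ℝ}
    (hs : 0 < s) (he : 0 ≤ e)
    (hG : ∀ m x, tp K (c (T m)) x ≤ 1 ∧ (x ∉ T m → tp K (c (T m)) x ≤ e)) {ta tb : ℝ}
    (hab : ta ≤ tb) :
    (∑ p ∈ PP, wt PP p * ∫ u in ta..tb, vo X b u * go K c T b p u) - (e + s / 2) * (tb - ta) -
      (∑ p ∈ PP, wt PP p * ∫ u in ta..tb, bo X T p u) - 1 / (2 * s) * ∫ u in ta..tb, f2 l X PP b u ≤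
      ∫ u in ta..tb, f1 l X PP T u := by
  have hpt : ∀ u : ℝ, (∑ p ∈ PP, wt PP p * (vo X b u * go K c T b p u)) - (e + s / 2) -
      (∑ p ∈ PP, wt PP p * bo X T p u) - 1 / (2 * s) * f2 l X PP b u ≤ f1 l X PP T u := by
    intro u
    have h1 : ∀ p ∈ PP, wt PP p * (vo X b u * go K c T b p u - e - bo X T p u - s / 2 -
        1 / (2 * s) * (1 / X * ∫ t in (⌊Real.exp u⌋₊ : ℝ)..(⌊Real.exp u⌋₊ + X),
          ‖zz l ⌊t / p⌋₊ (p * b ⌊Real.exp u⌋₊) + zz X ⌊Real.exp u⌋₊ (b ⌊Real.exp u⌋₊)‖ ^ 2)) ≤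
        wt PP p * (1 / X * ∫ t in (⌊Real.exp u⌋₊ : ℝ)..(⌊Real.exp u⌋₊ + X),
          fs l T ⌊t / p⌋₊) := by
      intro p _
      refine mul_le_mul_of_nonneg_left ?_ (wt_nonneg hL p)
      refine avg h0 (m0 := ⌊Real.exp u / p⌋₊) hX hs he (hG _ _).1 (hG _ _).2
        (bo_nonneg X T p u) fun t ht1 ht2 => ?_
      by_cases hb : T ⌊t / p⌋₊ = T ⌊Real.exp u / p⌋₊
      · exact Or.inl hb
      · right
        unfold bo
        rw [if_pos ⟨t, ht1, ht2, hb⟩]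
    have h2 := sum_le_sum h1
    have h3 : ∑ p ∈ PP, wt PP p * (vo X b u * go K c T b p u - e - bo X T p u - s / 2 -
        1 / (2 * s) * (1 / X * ∫ t in (⌊Real.exp u⌋₊ : ℝ)..(⌊Real.exp u⌋₊ + X),
          ‖zz l ⌊t / p⌋₊ (p * b ⌊Real.exp u⌋₊) + zz X ⌊Real.exp u⌋₊ (b ⌊Real.exp u⌋₊)‖ ^ 2)) =
        (∑ p ∈ PP, wt PP p * (vo X b u * go K c T b p u)) - (e + s / 2) -
          (∑ p ∈ PP, wt PP p * bo X T p u) - 1 / (2 * s) * f2 l X PP b u := by
      have h4 : (e + s / 2) = ∑ p ∈ PP, wt PP p * (e + s / 2) := by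
        rw [← sum_mul, sum_wt hL, one_mul]
      rw [h4]
      unfold f2
      rw [mul_sum, ← sum_sub_distrib, ← sum_sub_distrib, ← sum_sub_distrib]
      refine sum_congr rfl fun p _ => ?_
      ring
    rw [← h3]
    exact h2
  have i1 : ∀ p, IntervalIntegrable (fun u => vo X b u * go K c T b p u) volume ta tb := by
    intro p
    refine intble (M := 2 * K + 1) ((vo_meas X b).mul (go_meas K c T b p)) (fun u => ?_) _ _
    rw [Pi.mul_apply, norm_mul, Real.norm_of_nonneg (vo_nonneg _ _ _), Real.norm_eq_abs]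
    have h1 := tp_abs_le (K := K) (hc (T ⌊Real.exp u / p⌋₊)) (p * b ⌊Real.exp u⌋₊)
    calc vo X b u * |go K c T b p u| ≤ 1 * (2 * K + 1) :=
          mul_le_mul (vo_le_one _ _ _) h1 (abs_nonneg _) zero_le_one
      _ = _ := one_mul _
  have i2 : ∀ p, IntervalIntegrable (fun u => wt PP p * (vo X b u * go K c T b p u))
      volume ta tb := fun p => (i1 p).const_mul _
  have i3 : ∀ p, IntervalIntegrable (fun u => wt PP p * bo X T p u) volume ta tb :=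
    fun p => (bo_int X T p ta tb).const_mul _
  have i4 : IntervalIntegrable (fun u => ∑ p ∈ PP, wt PP p * (vo X b u * go K c T b p u))
      volume ta tb := by
    have e1 : (fun u => ∑ p ∈ PP, wt PP p * (vo X b u * go K c T b p u)) =
        ∑ p ∈ PP, fun u => wt PP p * (vo X b u * go K c T b p u) := by
      ext u
      simp
    rw [e1]
    exact IntervalIntegrable.sum PP fun p _ => i2 p
  have i5 : IntervalIntegrable (fun u => ∑ p ∈ PP, wt PP p * bo X T p u) volume ta tb := by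
    have e1 : (fun u => ∑ p ∈ PP, wt PP p * bo X T p u) =
        ∑ p ∈ PP, fun u => wt PP p * bo X T p u := by
      ext u
      simp
    rw [e1]
    exact IntervalIntegrable.sum PP fun p _ => i3 p
  have i6 : IntervalIntegrable (fun u => 1 / (2 * s) * f2 l X PP b u) volume ta tb :=
    (f2_int h0 hX hL b ta tb).const_mul _
  have i7 : IntervalIntegrable (fun _ : ℝ => e + s / 2) volume ta tb := by simp
  have hmono := intervalIntegral.integral_mono_on hab (((i4.sub i7).sub i5).sub i6)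
    (f1_int hX hL T ta tb) fun u _ => hpt u
  rw [intervalIntegral.integral_sub ((i4.sub i7).sub i5) i6,
    intervalIntegral.integral_sub (i4.sub i7) i5, intervalIntegral.integral_sub i4 i7,
    intervalIntegral.integral_finsetSum fun p _ => i2 p,
    intervalIntegral.integral_finsetSum fun p _ => i3 p,
    intervalIntegral.integral_const_mul] at hmono
  simp only [intervalIntegral.integral_const, smul_eq_mul,
    intervalIntegral.integral_const_mul] at hmono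
  rw [mul_comm (tb - ta) (e + s / 2)] at hmono
  exact hmono

/-! ### The main term -/

/-- The coefficient functions. -/
def Ak (c : Set ℝ → ℤ → ℂ) (T : ℕ → Set ℝ) (a0 : ℝ) (k : ℤ) (y : ℝ) : ℂ :=
  c (T (⌊Real.exp (max y a0) / (1 : ℕ)⌋₊ * 1)) k

theorem Ak_eq (c : Set ℝ → ℤ → ℂ) (T : ℕ → Set ℝ) {a0 u : ℝ} (k : ℤ) {p : ℕ} (hp : 1 ≤ p)
    (h : a0 + Real.log p ≤ u) : Ak c T a0 k (u - Real.log p) = c (T ⌊Real.exp u / p⌋₊) k := by
  have hp0 : (0 : ℝ) < p := by exact_mod_cast hp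
  unfold Ak
  rw [max_eq_left (by linarith), Real.exp_sub, Real.exp_log hp0, Nat.cast_one, div_one, mul_one]

/-- one frequency -/
def gk (X : ℕ) (c : Set ℝ → ℤ → ℂ) (T : ℕ → Set ℝ) (b : ℕ → ℝ) (p : ℕ) (k : ℤ) (u : ℝ) : ℂ :=
  (vo X b u : ℂ) * c (T ⌊Real.exp u / p⌋₊) k * ee (k * ((p : ℝ) * b ⌊Real.exp u⌋₊))

theorem gk_int {X : ℕ} {c : Set ℝ → ℤ → ℂ} (hc : ∀ S k, ‖c S k‖ ≤ 1) (T : ℕ → Set ℝ)
    (b : ℕ → ℝ) (p : ℕ) (k : ℤ) (s t : ℝ) : IntervalIntegrable (gk X c T b p k) volume s t := by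
  refine intble (M := 1) ?_ (fun u => ?_) _ _
  · exact two_meas (fun x : ℕ × ℕ => ((vv X x.1 (b x.1) : ℝ) : ℂ) * c (T x.2) k *
      ee (k * ((p : ℝ) * b x.1))) p
  · unfold gk
    rw [norm_mul, norm_mul, norm_ee', mul_one, Complex.norm_real,
      Real.norm_of_nonneg (vo_nonneg _ _ _)]
    calc vo X b u * ‖c (T ⌊Real.exp u / p⌋₊) k‖ ≤ 1 * 1 :=
          mul_le_mul (vo_le_one _ _ _) (hc _ _) (norm_nonneg _) zero_le_one
      _ = 1 := one_mul _

theorem Gint {X K : ℕ} {T : ℕ → Set ℝ} {b : ℕ → ℝ} {c : Set ℝ → ℤ → ℂ}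
    (hc : ∀ S k, ‖c S k‖ ≤ 1) {R w : ℝ} (hc0 : ∀ m, c (T m) 0 = ((im1 (T m) R : ℝ) : ℂ))
    (hw : ∀ n, w ≤ im1 (T n) R) {p : ℕ} (hp : 1 ≤ p) {a0 ta tb : ℝ} (hab : ta ≤ tb)
    (ha : a0 + Real.log p ≤ ta) :
    w * (∫ u in ta..tb, vo X b u) - ∑ k ∈ (Icc (-(K : ℤ)) K).erase 0,
      ‖∫ u in ta..tb, (vo X b u : ℂ) * Ak c T a0 k (u - Real.log p) *
        ee (k * ((p : ℝ) * b ⌊Real.exp u⌋₊))‖ ≤
      ∫ u in ta..tb, vo X b u * go K c T b p u := by
  have e1 : ∫ u in ta..tb, vo X b u * go K c T b p u =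
      ∑ k ∈ Icc (-(K : ℤ)) K, (∫ u in ta..tb, gk X c T b p k u).re := by
    have h1 : ∀ u, vo X b u * go K c T b p u =
        ∑ k ∈ Icc (-(K : ℤ)) K, (gk X c T b p k u).re := by
      intro u
      unfold go tp
      rw [← Complex.re_ofReal_mul, ← Complex.re_sum, mul_sum]
      congr 1
      refine sum_congr rfl fun k _ => ?_
      unfold gk
      ring
    simp only [h1]
    have h2 : ∀ k, IntervalIntegrable (fun u => (gk X c T b p k u).re) volume ta tb := by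
      intro k
      refine intble (M := 1) ?_ (fun u => ?_) _ _
      · exact Complex.measurable_re.comp (two_meas (fun x : ℕ × ℕ =>
          ((vv X x.1 (b x.1) : ℝ) : ℂ) * c (T x.2) k * ee (k * ((p : ℝ) * b x.1))) p)
      · rw [Real.norm_eq_abs]
        refine (Complex.abs_re_le_norm _).trans ?_
        unfold gk
        rw [norm_mul, norm_mul, norm_ee', mul_one, Complex.norm_real,
          Real.norm_of_nonneg (vo_nonneg _ _ _)]
        calc vo X b u * ‖c (T ⌊Real.exp u / p⌋₊) k‖ ≤ 1 * 1 :=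
              mul_le_mul (vo_le_one _ _ _) (hc _ _) (norm_nonneg _) zero_le_one
          _ = 1 := one_mul _
    rw [intervalIntegral.integral_finsetSum fun k _ => h2 k]
    refine sum_congr rfl fun k _ => ?_
    exact Complex.reCLM.intervalIntegral_comp_comm (gk_int hc T b p k ta tb)
  have h0 : (0 : ℤ) ∈ Icc (-(K : ℤ)) K := by
    rw [mem_Icc]
    omega
  rw [e1, ← add_sum_erase _ _ h0]
  have e2 : w * (∫ u in ta..tb, vo X b u) ≤ (∫ u in ta..tb, gk X c T b p 0 u).re := by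
    have h1 : ∀ u, gk X c T b p 0 u =
        ((vo X b u * im1 (T ⌊Real.exp u / p⌋₊) R : ℝ) : ℂ) := by
      intro u
      unfold gk
      rw [hc0]
      simp [ee]
    simp only [h1]
    rw [intervalIntegral.integral_ofReal, Complex.ofReal_re,
      ← intervalIntegral.integral_const_mul]
    refine intervalIntegral.integral_mono_on hab ((vo_int X b ta tb).const_mul _) ?_ fun u _ => ?_
    · refine intble (M := 1) ?_ (fun u => ?_) _ _
      · exact two_meas (fun x : ℕ × ℕ => vv X x.1 (b x.1) * im1 (T x.2) R) p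
      · have h2 : 0 ≤ im1 (T ⌊Real.exp u / p⌋₊) R := ENNReal.toReal_nonneg
        rw [norm_mul, Real.norm_of_nonneg (vo_nonneg _ _ _), Real.norm_of_nonneg h2]
        calc vo X b u * im1 (T ⌊Real.exp u / p⌋₊) R ≤ 1 * 1 :=
              mul_le_mul (vo_le_one _ _ _) (im1_le_one _ _) h2 zero_le_one
          _ = 1 := one_mul _
    · rw [mul_comm w]
      exact mul_le_mul_of_nonneg_left (hw _) (vo_nonneg _ _ _)
  have e3 : -(∑ k ∈ (Icc (-(K : ℤ)) K).erase 0,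
      ‖∫ u in ta..tb, (vo X b u : ℂ) * Ak c T a0 k (u - Real.log p) *
        ee (k * ((p : ℝ) * b ⌊Real.exp u⌋₊))‖) ≤
      ∑ k ∈ (Icc (-(K : ℤ)) K).erase 0, (∫ u in ta..tb, gk X c T b p k u).re := by
    rw [← sum_neg_distrib]
    refine sum_le_sum fun k _ => ?_
    have h1 : ∫ u in ta..tb, (vo X b u : ℂ) * Ak c T a0 k (u - Real.log p) *
        ee (k * ((p : ℝ) * b ⌊Real.exp u⌋₊)) = ∫ u in ta..tb, gk X c T b p k u := by
      refine intervalIntegral.integral_congr fun u hu => ?_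
      rw [Set.uIcc_of_le hab] at hu
      show (vo X b u : ℂ) * Ak c T a0 k (u - Real.log p) *
        ee (k * ((p : ℝ) * b ⌊Real.exp u⌋₊)) = _
      rw [Ak_eq c T k hp (ha.trans hu.1)]
      rfl
    rw [h1]
    have h2 := Complex.abs_re_le_norm (∫ u in ta..tb, gk X c T b p k u)
    have h3 := neg_abs_le (∫ u in ta..tb, gk X c T b p k u).re
    linarith
  linarith

theorem bo_integral {X p : ℕ} {T : ℕ → Set ℝ} {ta tb e : ℝ} (hab : ta ≤ tb) (he : 0 ≤ e)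
    (hv : volume {u : ℝ | ta ≤ u ∧ u ≤ tb ∧ ∃ t : ℝ, (⌊Real.exp u⌋₊ : ℝ) ≤ t ∧
      t ≤ ⌊Real.exp u⌋₊ + X ∧ T ⌊t / p⌋₊ ≠ T ⌊Real.exp u / p⌋₊} ≤ ENNReal.ofReal e) :
    ∫ u in ta..tb, bo X T p u ≤ e := by
  classical
  set D : Set ℝ := {u : ℝ | bo X T p u = 1} with hD
  have hDm : MeasurableSet D := bo_meas X T p (measurableSet_singleton 1)
  have h1 : bo X T p = D.indicator 1 := by
    ext u
    by_cases hu : u ∈ D
    · rw [Set.indicator_of_mem hu]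
      exact hu
    · rw [Set.indicator_of_notMem hu]
      simp only [hD, Set.mem_setOf_eq] at hu
      unfold bo at hu ⊢
      split_ifs at hu ⊢
      · exact absurd rfl hu
      · rfl
  rw [intervalIntegral.integral_of_le hab, h1, integral_indicator_one hDm]
  rw [measureReal_def, Measure.restrict_apply hDm]
  have h2 : D ∩ Set.Ioc ta tb ⊆ {u : ℝ | ta ≤ u ∧ u ≤ tb ∧ ∃ t : ℝ, (⌊Real.exp u⌋₊ : ℝ) ≤ t ∧
      t ≤ ⌊Real.exp u⌋₊ + X ∧ T ⌊t / p⌋₊ ≠ T ⌊Real.exp u / p⌋₊} := by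
    rintro u ⟨hu1, hu2⟩
    refine ⟨hu2.1.le, hu2.2, ?_⟩
    by_contra hc
    simp only [hD, Set.mem_setOf_eq] at hu1
    unfold bo at hu1
    rw [if_neg hc] at hu1
    exact zero_ne_one hu1
  have h3 := (measure_mono h2).trans hv
  have h4 := ENNReal.toReal_mono ENNReal.ofReal_ne_top h3
  rwa [ENNReal.toReal_ofReal he] at h4

end

end Pool.Agent.SV.T21x

namespace Pool.Agent.SV

open Pool.Agent.Lib.MP_663568_nt Pool.Agent.Lib.MP_663568_nt.Katai
  Pool.Agent.Lib.MP_663568_nt.Nul Pool.Agent.SV.T21x Pool.Agent.SV.EPx Filter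

noncomputable section

theorem t21 : T21_stmt := by
  classical
  intro h0 h18 h19 h11 h14 h15 hS1 hS3 ε hε hε1
  set s := √ε with hs
  have hs0 : 0 < s := Real.sqrt_pos.2 hε
  have hss : s * s = ε := Real.mul_self_sqrt hε.le
  have hs1 : s ≤ 1 := by
    rw [hs, Real.sqrt_le_one]
    exact hε1
  have hεs : ε ≤ s := by
    rw [← hss]
    exact mul_le_of_le_one_left hs0.le hs1
  obtain ⟨K19, η, hK19, hη0, hη1, h19'⟩ := h19 (ε / 4) (by positivity)
  refine ⟨K19, η, hK19, hη0, hη1, ?_⟩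
  intro A κ₁ κ₂ R hA hκ₁ hκ₁₂ hκε hR
  have hκ₂ : 0 < κ₂ := hκ₁.trans_le hκ₁₂
  have hκ8 : κ₂ ≤ 1 / 8 := by linarith
  obtain ⟨Kf, c, hc1, hc2⟩ := exists_coef h15 hR hε
  obtain ⟨K18, hK18, h18'⟩ := h18 ε hε
  obtain ⟨Q, ε₁, hQ, hε₁, H11, h11'⟩ := h11 κ₁ κ₂ (ε / (2 * Kf + 1)) 1 Kf hκ₁ hκ₁₂
    (by positivity) le_rfl
  obtain ⟨H14, h14'⟩ := h14 (A + 1) (κ₁ / 2) ε₁ Q (by linarith) (by positivity) hε₁
  obtain ⟨HS1, hS1'⟩ := hS1 A hA
  obtain ⟨HS3, hS3'⟩ := hS3 A ε hA hε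
  -- the conditions on `H`
  have e1 : ∀ᶠ h : ℝ in atTop, 100 / ε + K18 + K19 ≤ Real.log h :=
    Real.tendsto_log_atTop.eventually_ge_atTop _
  have e2 : ∀ᶠ h : ℝ in atTop, K19 ≤ h ^ κ₁ := (tendsto_rpow_atTop hκ₁).eventually_ge_atTop _
  have e3 : ∀ᶠ h : ℝ in atTop, K19 ≤ h ^ (1 / 4 : ℝ) :=
    (tendsto_rpow_atTop (by norm_num)).eventually_ge_atTop _
  have e4 : ∀ᶠ h : ℝ in atTop, 4 / ε₁ + 1 ≤ h := eventually_ge_atTop _
  obtain ⟨Hb, hHb⟩ := eventually_atTop.1 (tendsto_natCast_atTop_atTop (R := ℝ) |>.eventually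
    (e1.and (e2.and (e3.and e4))))
  refine ⟨max Hb (max H11 (max H14 (max HS1 HS3))), ?_⟩
  intro H N X l hH hL19 hHN hXl hXH hl hlX hreg T hSym hSlow w hw0 hw
  obtain ⟨c1, c2, c3, c4⟩ := hHb H ((le_max_left _ _).trans hH)
  have hH11 : H11 ≤ H := ((le_max_left _ _).trans (le_max_right _ _)).trans hH
  have hH14 : H14 ≤ H := ((le_max_left _ _).trans
    ((le_max_right _ _).trans (le_max_right _ _))).trans hH
  have hHS1 : HS1 ≤ H := ((le_max_left _ _).trans ((le_max_right _ _).trans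
    ((le_max_right _ _).trans (le_max_right _ _)))).trans hH
  have hHS3 : HS3 ≤ H := ((le_max_right _ _).trans ((le_max_right _ _).trans
    ((le_max_right _ _).trans (le_max_right _ _)))).trans hH
  have hH1 : (1 : ℝ) ≤ H := by
    have : 0 < 4 / ε₁ := by positivity
    linarith
  have hHp : (0 : ℝ) < H := by linarith
  have h100 : 100 ≤ 100 / ε := by
    rw [le_div_iff₀ hε]
    linarith
  have hlogH : 100 / ε ≤ Real.log H := by linarith
  have hlogH0 : 0 < Real.log H := by linarith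
  set PP := PPs H κ₁ κ₂ with hPP
  have hL : 1 ≤ Ls PP := hK19.trans hL19
  set Z := (H : ℝ) ^ κ₂ with hZ
  have hZ1 : 1 ≤ Z := Real.one_le_rpow hH1 hκ₂.le
  have hZH : Z ≤ H := by
    calc Z ≤ (H : ℝ) ^ (1 : ℝ) := Real.rpow_le_rpow_of_exponent_le hH1 (by linarith)
      _ = H := Real.rpow_one _
  have hlogZ : Real.log Z = κ₂ * Real.log H := Real.log_rpow hHp _
  have hmem : ∀ p ∈ PP, p.Prime ∧ (H : ℝ) ^ κ₁ ≤ p ∧ (p : ℝ) ≤ Z := by
    intro p hp
    rw [hPP] at hp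
    unfold PPs at hp
    rw [mem_filter, mem_Icc] at hp
    refine ⟨hp.2.1, hp.2.2, ?_⟩
    exact (Nat.le_floor_iff (by positivity)).1 hp.1.2
  have hX1 : 1 ≤ X := by
    have h1 : (1 : ℝ) ≤ X := (Real.one_le_rpow hH1 (by norm_num)).trans hXl
    exact_mod_cast h1
  have hXp : (0 : ℝ) < X := by exact_mod_cast hX1
  have hXH' : (X : ℝ) ≤ H := by exact_mod_cast hXH
  have hlogX : Real.log X ≤ Real.log H := Real.log_le_log hXp hXH'
  -- the window of scales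
  have hNp : (0 : ℝ) < N := lt_of_lt_of_le (by positivity) hHN
  set Λ := Real.log N with hΛ
  set ta := (A + 4) * Real.log H with hta
  have hΛ5 : (A + 5) * Real.log H ≤ Λ := by
    rw [← Real.log_rpow hHp]
    exact Real.log_le_log (by positivity) hHN
  have hAl : 0 ≤ A * Real.log H := by positivity
  have hΛ5' : 5 * Real.log H ≤ Λ := by linarith
  have hab : ta ≤ Λ := by
    rw [hta]
    linarith
  have hta0 : 4 * Real.log H ≤ ta := by
    rw [hta]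
    linarith
  have htaΛ : Λ - ta ≤ Λ := by linarith
  have hΛε : 500 ≤ ε * Λ := by
    have h1 : 500 / ε ≤ Λ := by
      have : 500 / ε = 5 * (100 / ε) := by ring
      rw [this]
      linarith
    rw [div_le_iff₀ hε] at h1
    linarith
  have hΛ1 : 1 ≤ Λ := by linarith
  have hΛ0 : 0 ≤ Λ := by linarith
  have hlogZ8 : Real.log Z ≤ ε / 40 * Λ := by
    rw [hlogZ]
    have h1 : κ₂ * Real.log H ≤ ε / 8 * Real.log H :=
      mul_le_mul_of_nonneg_right (by linarith) hlogH0.le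
    have h2 : ε / 8 * Real.log H ≤ ε / 8 * (Λ / 5) :=
      mul_le_mul_of_nonneg_left (by linarith) (by positivity)
    linarith
  have hlogZ0 : 0 ≤ Real.log Z := Real.log_nonneg hZ1
  have hlogZ1 : Real.log Z ≤ Real.log H := Real.log_le_log (by linarith) hZH
  -- optimal frequencies
  set δ : ℝ := ε / 16 with hδ
  have hδ0 : 0 < δ := by positivity
  obtain ⟨b, hb⟩ := exists_opt X hδ0
  -- Theorem 19
  have hKZ : K19 * Z ^ 2 ≤ X := by
    have h1 : Z ^ 2 ≤ (H : ℝ) ^ (1 / 4 : ℝ) := by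
      rw [hZ, ← Real.rpow_natCast, ← Real.rpow_mul hHp.le]
      exact Real.rpow_le_rpow_of_exponent_le hH1 (by push_cast; linarith)
    calc K19 * Z ^ 2 ≤ (H : ℝ) ^ (1 / 4 : ℝ) * (H : ℝ) ^ (1 / 4 : ℝ) :=
          mul_le_mul c3 h1 (by positivity) (by positivity)
      _ = (H : ℝ) ^ (1 / 2 : ℝ) := by
          rw [← Real.rpow_add hHp]
          norm_num
      _ ≤ X := hXl
  have h19a := (h19' PP Z (fun p hp => ⟨(hmem p hp).1, c2.trans (hmem p hp).2.1,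
    (hmem p hp).2.2⟩) hL19 X l hKZ hl hlX ta Λ (by linarith) hab b).1
  -- Theorem 18
  have h18a := h18' PP Z (fun p hp => ⟨(hmem p hp).1, (hmem p hp).2.2⟩) hL hZ1 X hX1 ta Λ
    (by linarith) hab (fs l T) (fs_nonneg l T) (fs_le_one l T)
  -- the bad sets
  have hbad : ∑ p ∈ PP, wt PP p * ∫ u in ta..Λ, bo X T p u ≤ ε := by
    have h1 : ∀ p ∈ PP, wt PP p * ∫ u in ta..Λ, bo X T p u ≤ wt PP p * ε := by
      intro p hp
      refine mul_le_mul_of_nonneg_left ?_ (wt_nonneg hL p)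
      obtain ⟨q1, q2, q3⟩ := hmem p hp
      refine bo_integral hab hε.le ?_
      refine hS3' H N X p hHS3 hX1 hXH q1.one_lt.le ?_ ?_ T hSlow
      · have : (p : ℝ) ≤ H := q3.trans hZH
        exact_mod_cast this
      · refine le_trans ?_ hHN
        exact Real.rpow_le_rpow_of_exponent_le hH1 (by linarith)
    refine (sum_le_sum h1).trans ?_
    rw [← sum_mul, sum_wt hL, one_mul]
  -- the main term
  have hPer : ∀ m, Per (T m) := fun m x => (hSym m x).2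
  have hw1 : w ≤ 1 := (hw 0).trans (im1_le_one _ _)
  have hmain : w * (∫ u in ta..Λ, vo X b u) - ε * Λ ≤
      ∑ p ∈ PP, wt PP p * ∫ u in ta..Λ, vo X b u * go Kf c T b p u := by
    -- equidistribution
    have hr0 : 0 < (H : ℝ) ^ (-(A + 1)) := by positivity
    have hK4 : 1 ≤ 4 * (H : ℝ) ^ A := by
      have := Real.one_le_rpow hH1 hA
      linarith
    have hrK : (H : ℝ) ^ (-(A + 1)) * (4 * (H : ℝ) ^ A) ≤ ε₁ := by
      have h1 : (H : ℝ) ^ (-(A + 1)) * (4 * (H : ℝ) ^ A) = 4 * (H : ℝ) ^ (-1 : ℝ) := by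
        have h2 : (H : ℝ) ^ (-(A + 1)) * (H : ℝ) ^ A = (H : ℝ) ^ (-1 : ℝ) := by
          rw [← Real.rpow_add hHp]
          congr 1
          ring
        rw [← h2]
        ring
      rw [h1, Real.rpow_neg_one, ← div_eq_mul_inv, div_le_iff₀ hHp]
      have h3 : 4 / ε₁ ≤ H := by linarith
      rw [div_le_iff₀ hε₁] at h3
      linarith
    have hconc : ∀ q : ℕ, 1 ≤ q → q ≤ Q → ∀ al : ℝ → ℝ, Grid al ((H : ℝ) ^ (-(A + 1))) →
        ∫ x in ta..Λ, vo X b x * (if nd ((q : ℝ) * (b ⌊Real.exp x⌋₊ - al x)) ≤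
          (H : ℝ) ^ (-(κ₁ / 2)) then 1 else 0) ≤ ε₁ * Λ := by
      intro q hq1 hq2 al hal
      have h1 := h14' H N X hH14 (le_trans (Real.rpow_le_rpow_of_exponent_le hH1
        (by linarith)) hHN) hXl hXH b al hal q hq1 hq2
      have h2 : A + 1 + 3 = A + 4 := by ring
      rw [h2] at h1
      exact h1
    have hEP : ∀ k : ℤ, k ≠ 0 → |k| ≤ Kf →
        ∑ p ∈ PP, wt PP p * ‖∫ u in ta..Λ, (vo X b u : ℂ) *
          Ak c T ((A + 3) * Real.log H) k (u - Real.log p) *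
          ee (k * ((p : ℝ) * b ⌊Real.exp u⌋₊))‖ ≤ ε / (2 * Kf + 1) * Λ := by
      intro k hk1 hk2
      have h1 := h11' H hH11 hL ((H : ℝ) ^ (-(A + 1))) ta Λ Λ (4 * (H : ℝ) ^ A) hr0 hab htaΛ
        hΛ1 hK4 hrK (vo X b) (fun x => b ⌊Real.exp x⌋₊)
        (Ak c T ((A + 3) * Real.log H) k) (vo_meas X b)
        ((measurable_from_nat (f := b)).comp mfl) (vo_nonneg X b) (vo_le_one X b)
        (hS1' H 1 hHS1 le_rfl (by exact_mod_cast hH1) T hSlow (fun S => c S k))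
        (fun u => hc1 _ _) hconc k hk1 hk2
      rw [EP] at h1
      simp only [EP, mul_one] at h1
      exact h1
    -- sum over the primes
    have h1 : ∀ p ∈ PP, wt PP p * (w * (∫ u in ta..Λ, vo X b u) -
        ∑ k ∈ (Icc (-(Kf : ℤ)) Kf).erase 0, ‖∫ u in ta..Λ, (vo X b u : ℂ) *
          Ak c T ((A + 3) * Real.log H) k (u - Real.log p) *
          ee (k * ((p : ℝ) * b ⌊Real.exp u⌋₊))‖) ≤
        wt PP p * ∫ u in ta..Λ, vo X b u * go Kf c T b p u := by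
      intro p hp
      obtain ⟨q1, q2, q3⟩ := hmem p hp
      refine mul_le_mul_of_nonneg_left ?_ (wt_nonneg hL p)
      refine Gint hc1 (fun m => (hc2 (T m) (hPer m)).1) hw q1.one_lt.le hab ?_
      have hp0 : (0 : ℝ) < p := by exact_mod_cast q1.pos
      have h2 : Real.log p ≤ Real.log H := Real.log_le_log hp0 (q3.trans hZH)
      rw [hta]
      linarith
    refine le_trans ?_ (sum_le_sum h1)
    have h2 : ∑ p ∈ PP, wt PP p * (w * (∫ u in ta..Λ, vo X b u) -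
        ∑ k ∈ (Icc (-(Kf : ℤ)) Kf).erase 0, ‖∫ u in ta..Λ, (vo X b u : ℂ) *
          Ak c T ((A + 3) * Real.log H) k (u - Real.log p) *
          ee (k * ((p : ℝ) * b ⌊Real.exp u⌋₊))‖) =
        w * (∫ u in ta..Λ, vo X b u) - ∑ k ∈ (Icc (-(Kf : ℤ)) Kf).erase 0,
          ∑ p ∈ PP, wt PP p * ‖∫ u in ta..Λ, (vo X b u : ℂ) *
          Ak c T ((A + 3) * Real.log H) k (u - Real.log p) *
          ee (k * ((p : ℝ) * b ⌊Real.exp u⌋₊))‖ := by
      simp only [mul_sub]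
      rw [sum_sub_distrib, ← sum_mul, sum_wt hL, one_mul, sum_comm]
      congr 1
      refine sum_congr rfl fun p _ => ?_
      rw [mul_sum]
    rw [h2]
    have h3 : ∑ k ∈ (Icc (-(Kf : ℤ)) Kf).erase 0,
          ∑ p ∈ PP, wt PP p * ‖∫ u in ta..Λ, (vo X b u : ℂ) *
          Ak c T ((A + 3) * Real.log H) k (u - Real.log p) *
          ee (k * ((p : ℝ) * b ⌊Real.exp u⌋₊))‖ ≤
        ∑ _k ∈ (Icc (-(Kf : ℤ)) Kf).erase 0, ε / (2 * Kf + 1) * Λ := by
      refine sum_le_sum fun k hk => ?_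
      rw [mem_erase, mem_Icc] at hk
      exact hEP k hk.1 (abs_le.2 hk.2)
    rw [sum_const, nsmul_eq_mul] at h3
    have h4 : (#((Icc (-(Kf : ℤ)) Kf).erase 0) : ℝ) ≤ 2 * Kf + 1 := by
      have h5 : #((Icc (-(Kf : ℤ)) Kf).erase 0) ≤ #(Icc (-(Kf : ℤ)) Kf) := card_erase_le
      rw [Int.card_Icc] at h5
      have h6 : ((Kf : ℤ) + 1 - -(Kf : ℤ)).toNat = 2 * Kf + 1 := by omega
      rw [h6] at h5
      exact_mod_cast h5
    have h5 : (#((Icc (-(Kf : ℤ)) Kf).erase 0) : ℝ) * (ε / (2 * Kf + 1) * Λ) ≤ ε * Λ := by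
      calc (#((Icc (-(Kf : ℤ)) Kf).erase 0) : ℝ) * (ε / (2 * Kf + 1) * Λ)
          ≤ (2 * Kf + 1) * (ε / (2 * Kf + 1) * Λ) :=
            mul_le_mul_of_nonneg_right h4 (by positivity)
        _ = ε * Λ := by field_simp
    linarith
  -- the outer integral
  have hout := outer h0 (l := l) (K := Kf) hX1 hL (T := T) (b := b) hc1 hs0 hε.le
    (fun m x => (hc2 (T m) (hPer m)).2 x) hab
  -- the optimal frequencies
  have isv : ∀ (g : ℕ → ℝ), (∀ n, 0 ≤ g n) → (∀ n, g n ≤ 1) →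
      IntervalIntegrable (fun u => g ⌊Real.exp u⌋₊) volume ta Λ := by
    intro g g0 g1
    refine intble (M := 1) ((measurable_from_nat (f := g)).comp mfl) (fun u => ?_) _ _
    rw [Function.comp_apply, Real.norm_of_nonneg (g0 _)]
    exact g1 _
  have hopt1 : ∫ u in ta..Λ, sv X ⌊Real.exp u⌋₊ ≤ (∫ u in ta..Λ, vo X b u) + δ * (Λ - ta) := by
    have h1 : ∫ u in ta..Λ, sv X ⌊Real.exp u⌋₊ ≤ ∫ u in ta..Λ, (vo X b u + δ) := by
      refine intervalIntegral.integral_mono_on hab (isv _ (sv_nonneg X) (sv_le_one X))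
        ((vo_int X b ta Λ).add (by simp)) fun u _ => hb _
    rw [intervalIntegral.integral_add (vo_int X b ta Λ) (by simp)] at h1
    simp only [intervalIntegral.integral_const, smul_eq_mul] at h1
    linarith
  have ivo2 : IntervalIntegrable (fun u => vo X b u ^ 2) volume ta Λ :=
    isv (fun n => vv X n (b n) ^ 2) (fun n => by positivity)
      (fun n => pow_le_one₀ (vv_nonneg _ _ _) (vv_le_one _ _ _))
  have hopt2 : ∫ u in ta..Λ, sv X ⌊Real.exp u⌋₊ ^ 2 ≤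
      (∫ u in ta..Λ, vo X b u ^ 2) + 3 * δ * (Λ - ta) := by
    have h1 : ∫ u in ta..Λ, sv X ⌊Real.exp u⌋₊ ^ 2 ≤ ∫ u in ta..Λ, (vo X b u ^ 2 + 3 * δ) := by
      refine intervalIntegral.integral_mono_on hab
        (isv (fun n => sv X n ^ 2) (fun n => by positivity)
          (fun n => pow_le_one₀ (sv_nonneg _ _) (sv_le_one _ _)))
        (ivo2.add (by simp)) fun u _ => ?_
      have h2 : sv X ⌊Real.exp u⌋₊ ≤ vo X b u + δ := hb _
      have h3 := sv_nonneg X ⌊Real.exp u⌋₊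
      have h4 := vo_nonneg X b u
      have h5 := vo_le_one X b u
      have h6 : δ ≤ 1 := by
        rw [hδ]
        linarith
      nlinarith
    rw [intervalIntegral.integral_add ivo2 (by simp)] at h1
    simp only [intervalIntegral.integral_const, smul_eq_mul] at h1
    linarith
  -- the end
  have hD : ∫ u in ta..Λ, f2 l X PP b u ≤ 3 / 2 * ε * Λ := by
    have h1 : ∫ u in ta..Λ, f2 l X PP b u ≤ (∫ u in ta..Λ, sv l ⌊Real.exp u⌋₊ ^ 2) -
        (∫ u in ta..Λ, vo X b u ^ 2) + ε / 4 * (Λ - ta) + Real.log Z + 1 := h19a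
    have h2 : ε / 4 * (Λ - ta) ≤ ε / 4 * Λ := mul_le_mul_of_nonneg_left htaΛ (by positivity)
    have h3 : 3 * δ * (Λ - ta) ≤ 3 * δ * Λ := mul_le_mul_of_nonneg_left htaΛ (by positivity)
    rw [hδ] at h3 hopt2
    linarith
  have hDs : 1 / (2 * s) * (∫ u in ta..Λ, f2 l X PP b u) ≤ 3 / 4 * s * Λ := by
    calc 1 / (2 * s) * (∫ u in ta..Λ, f2 l X PP b u) ≤ 1 / (2 * s) * (3 / 2 * ε * Λ) :=
          mul_le_mul_of_nonneg_left hD (by positivity)
      _ = 3 / 4 * s * Λ := by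
          rw [← hss]
          field_simp
          ring
  have hwv : w * (∫ u in ta..Λ, sv X ⌊Real.exp u⌋₊) - δ * Λ ≤ w * (∫ u in ta..Λ, vo X b u) := by
    have h1 := mul_le_mul_of_nonneg_left hopt1 hw0
    have h2 : w * (δ * (Λ - ta)) ≤ 1 * (δ * Λ) :=
      mul_le_mul hw1 (mul_le_mul_of_nonneg_left htaΛ hδ0.le)
        (mul_nonneg hδ0.le (by linarith)) zero_le_one
    linarith
  have hes : (ε + s / 2) * (Λ - ta) ≤ (ε + s / 2) * Λ :=
    mul_le_mul_of_nonneg_left htaΛ (by positivity)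
  have h18b : ∫ u in ta..Λ, f1 l X PP T u ≤ (∫ u in ta..Λ, fs l T ⌊Real.exp u⌋₊) +
      ε * (Λ - ta) + Real.log Z + 1 := h18a
  have h18c : ε * (Λ - ta) ≤ ε * Λ := mul_le_mul_of_nonneg_left htaΛ hε.le
  have hεΛs : ε * Λ ≤ s * Λ := mul_le_mul_of_nonneg_right hεs hΛ0
  have hεΛ : ε ≤ ε * Λ := le_mul_of_one_le_right hε.le hΛ1
  show w * (∫ u in ta..Λ, sv X ⌊Real.exp u⌋₊) - 8 * s * Λ ≤ ∫ u in ta..Λ, fs l T ⌊Real.exp u⌋₊
  rw [hδ] at hwv
  linarith

end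

end Pool.Agent.SV
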