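import Pool.Agent.Lib.SV.TFDefs
import Pool.Agent.Lib.SV.RB2
import Pool.Agent.Lib.SV.T2

/-!
# Theorem TF: row T3 (several steps, integrated over the scales).  (helper28)
-/

set_option autoImplicit false
open Finset MeasureTheory

namespace Pool.Agent.SV

open Pool.Agent.Lib.MP_663568_nt Pool.Agent.Lib.MP_663568_nt.Katai
  Pool.Agent.Lib.MP_663568_nt.Nul Pool.Agent.MRL Pool.Agent.MRF Pool.Agent.MRHal

namespace T3x

theorem ee_add (x y : ℝ) : ee (x + y) = ee x * ee y := by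
  unfold ee
  rw [← Complex.exp_add]
  congr 1
  push_cast
  ring

theorem window_norm (l y : ℕ) (b : ℝ) :
    ‖∑ m ∈ Ioc y (y + l), muC m * ee (b * m)‖ / l = vv l y b := by
  rw [T2x.sum_window]
  have h1 : ∑ i ∈ Icc 1 l, muC (y + i) * ee (b * ((y + i : ℕ) : ℝ)) =
      ee (b * y) * ∑ i ∈ Icc 1 l, muC (y + i) * ee (b * i) := by
    rw [Finset.mul_sum]
    refine Finset.sum_congr rfl fun i _ => ?_
    push_cast
    rw [mul_add, ee_add]
    ring
  rw [h1, norm_mul, rb2_norm_ee, one_mul]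
  rfl

theorem EP_sum (PP : Finset ℕ) {ι : Type} (s : Finset ι) : ∀ (j : ℕ) (F : ι → ℕ → ℝ),
    EP PP j (fun P => ∑ k ∈ s, F k P) = ∑ k ∈ s, EP PP j (F k)
  | 0, F => rfl
  | (j + 1), F => by
    change ∑ p ∈ PP, wt PP p * EP PP j (fun P => ∑ k ∈ s, F k (p * P)) =
      ∑ k ∈ s, ∑ p ∈ PP, wt PP p * EP PP j (fun P => F k (p * P))
    rw [Finset.sum_comm]
    refine Finset.sum_congr rfl fun p _ => ?_
    rw [EP_sum PP s j (fun k P => F k (p * P)), Finset.mul_sum]

theorem log_prod {PP : Finset ℕ} {K Z : ℝ} (hK : 1 ≤ K)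
    (h : ∀ p ∈ PP, p.Prime ∧ K ≤ p ∧ (p : ℝ) ≤ Z) : ∀ L : List ℕ, (∀ p ∈ L, p ∈ PP) →
    1 ≤ L.prod ∧ Real.log (L.prod : ℕ) ≤ L.length * Real.log Z
  | [], _ => by simp
  | p :: L, hL => by
    obtain ⟨h1, h2⟩ := log_prod hK h L (fun q hq => hL q (List.mem_cons_of_mem _ hq))
    obtain ⟨hp, hp1, hp2⟩ := h p (hL p List.mem_cons_self)
    have hp0 : (0 : ℝ) < p := by exact_mod_cast hp.pos
    have hL0 : (0 : ℝ) < (L.prod : ℕ) := by exact_mod_cast h1
    rw [List.prod_cons, List.length_cons]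
    refine ⟨Nat.mul_pos hp.pos h1, ?_⟩
    have h3 : Real.log p ≤ Real.log Z := Real.log_le_log hp0 hp2
    rw [Nat.cast_mul, Real.log_mul hp0.ne' hL0.ne', Nat.cast_add, Nat.cast_one]
    linarith

theorem cg_nn (X : ℕ) (g : ℕ → ℝ) (ta tb u : ℝ) (hg : ∀ k, 0 ≤ g k) : 0 ≤ cg X g ta tb u := by
  unfold cg
  split_ifs
  · exact hg _
  · exact le_rfl

theorem cg_le (X : ℕ) (g : ℕ → ℝ) (ta tb u : ℝ) (hg : ∀ k, g k ≤ 1) : cg X g ta tb u ≤ 1 := by
  unfold cg
  split_ifs
  · exact hg _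
  · exact zero_le_one

theorem cg_meas (X : ℕ) (g : ℕ → ℝ) (ta tb : ℝ) : Measurable (cg X g ta tb) := by
  unfold cg
  refine Measurable.ite ?_ ?_ measurable_const
  · exact (measurableSet_Icc : MeasurableSet (Set.Icc ta tb))
  · have h : Measurable fun k : ℕ => g k := measurable_of_countable _
    exact h.comp (rb2_meas_floor X)

/-- The integrand on the right. -/
noncomputable def Phi (X l : ℕ) (a g : ℕ → ℝ) (ta tb : ℝ) (P : ℕ) (u : ℝ) : ℝ :=
  cg X g ta tb (u + Real.log P) * vv l ⌊Real.exp u⌋₊ (P * cf X a (u + Real.log P))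

theorem Phi_meas (X l : ℕ) (a g : ℕ → ℝ) (ta tb : ℝ) (P : ℕ) :
    Measurable (Phi X l a g ta tb P) := by
  let F : ℕ × ℕ → ℝ := fun x => vv l x.1 (P * a x.2)
  have h : Measurable F := measurable_of_countable _
  have h2 : Measurable fun u : ℝ => (⌊Real.exp u⌋₊, ⌊Real.exp (u + Real.log P) / (X : ℝ)⌋₊) := by
    refine Measurable.prodMk ?_ ?_
    · exact Nat.measurable_floor.comp Real.measurable_exp
    · exact (rb2_meas_floor X).comp (measurable_id.add_const (Real.log P))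
  have h3 : Measurable fun u : ℝ => cg X g ta tb (u + Real.log P) :=
    (cg_meas X g ta tb).comp (measurable_id.add_const (Real.log P))
  have h4 : Measurable (F ∘ fun u : ℝ =>
      (⌊Real.exp u⌋₊, ⌊Real.exp (u + Real.log P) / (X : ℝ)⌋₊)) := h.comp h2
  have h5 : Phi X l a g ta tb P = fun u : ℝ => cg X g ta tb (u + Real.log P) *
      (F ∘ fun u : ℝ => (⌊Real.exp u⌋₊, ⌊Real.exp (u + Real.log P) / (X : ℝ)⌋₊)) u := rfl
  rw [h5]
  exact h3.mul h4

theorem Phi_nn {X l : ℕ} {a g : ℕ → ℝ} {ta tb : ℝ} (hg : ∀ k, 0 ≤ g k) (P : ℕ) (u : ℝ) :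
    0 ≤ Phi X l a g ta tb P u := mul_nonneg (cg_nn _ _ _ _ _ hg) (vv_nonneg _ _ _)

theorem Phi_le {X l : ℕ} {a g : ℕ → ℝ} {ta tb : ℝ} (hg0 : ∀ k, 0 ≤ g k) (hg : ∀ k, g k ≤ 1)
    (P : ℕ) (u : ℝ) : Phi X l a g ta tb P u ≤ 1 :=
  mul_le_one₀ (cg_le _ _ _ _ _ hg) (vv_nonneg _ _ _) (vv_le_one _ _ _)

theorem int_le_len {f : ℝ → ℝ} (hm : Measurable f) (h0 : ∀ x, 0 ≤ f x) (h1 : ∀ x, f x ≤ 1)
    {x y : ℝ} (hxy : x ≤ y) : ∫ u in x..y, f u ≤ y - x := by
  have h2 : ∫ u in x..y, f u ≤ ∫ _u in x..y, (1 : ℝ) :=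
    intervalIntegral.integral_mono_on hxy (ii_of_bdd hm h0 h1 _ _) intervalIntegrable_const
      (fun u _ => h1 u)
  simpa using h2

/-- The shift by `log P`. -/
theorem shift {X l : ℕ} {a g : ℕ → ℝ} (hg0 : ∀ k, 0 ≤ g k) (hg : ∀ k, g k ≤ 1) {ta tb : ℝ}
    (hab : ta ≤ tb) {P : ℕ} (hP : 1 ≤ P) :
    ∫ u in ta..tb, g ⌊Real.exp u / X⌋₊ * vv l ⌊Real.exp u / P⌋₊ (P * a ⌊Real.exp u / X⌋₊) ≤
      (∫ u in ta..tb, Phi X l a g ta tb P u) + Real.log P := by
  have hP0 : (0 : ℝ) < P := by exact_mod_cast hP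
  have hlog : 0 ≤ Real.log P := Real.log_nonneg (by exact_mod_cast hP)
  have hi := ii_of_bdd (Phi_meas X l a g ta tb P) (Phi_nn hg0 P) (Phi_le hg0 hg P)
  have e1 : ∫ u in ta..tb, g ⌊Real.exp u / X⌋₊ * vv l ⌊Real.exp u / P⌋₊ (P * a ⌊Real.exp u / X⌋₊) =
      ∫ v in (ta - Real.log P)..(tb - Real.log P), Phi X l a g ta tb P v := by
    have h2 := intervalIntegral.integral_comp_sub_right (a := ta) (b := tb)
      (fun v => Phi X l a g ta tb P v) (Real.log P)
    rw [← h2]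
    refine intervalIntegral.integral_congr fun u hu => ?_
    rw [Set.uIcc_of_le hab] at hu
    simp only [Phi, cg, cf]
    rw [sub_add_cancel, if_pos ⟨hu.1, hu.2⟩, Real.exp_sub, Real.exp_log hP0]
  rw [e1]
  have e2 : ∫ v in (ta - Real.log P)..(tb - Real.log P), Phi X l a g ta tb P v ≤
      ∫ v in (ta - Real.log P)..tb, Phi X l a g ta tb P v :=
    intervalIntegral.integral_mono_interval le_rfl (by linarith) (by linarith)
      (Filter.Eventually.of_forall fun u => Phi_nn hg0 P u) (hi _ _)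
  have e3 : ∫ v in (ta - Real.log P)..tb, Phi X l a g ta tb P v =
      (∫ v in (ta - Real.log P)..ta, Phi X l a g ta tb P v) +
        ∫ v in ta..tb, Phi X l a g ta tb P v :=
    (intervalIntegral.integral_add_adjacent_intervals (hi _ _) (hi _ _)).symm
  have e4 := int_le_len (Phi_meas X l a g ta tb P) (Phi_nn hg0 P) (Phi_le hg0 hg P)
    (show ta - Real.log P ≤ ta by linarith)
  linarith

end T3x

/-- Row T3. -/
theorem t3 : T3_stmt := by
  intro hT2 hE ε J hε
  obtain ⟨K2, hK2, hmain⟩ := hT2 (ε / 2) J (by positivity)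
  refine ⟨max K2 (2 / ε), hK2.trans (le_max_left _ _), fun PP Z hPP hL X l hl hX a g hg0 hg ta tb
    hab hta j hj => ?_⟩
  set K := max K2 (2 / ε) with hK
  have hKK2 : K2 ≤ K := le_max_left _ _
  have hKε : 2 / ε ≤ K := le_max_right _ _
  have hKone : 1 ≤ K := hK2.trans hKK2
  have hZ := T2x.one_le_Z hKone hPP hL
  have hL1 : 1 ≤ Ls PP := hKone.trans hL
  have hlR : (1 : ℝ) ≤ l := by exact_mod_cast hl
  have hZJ : (1 : ℝ) ≤ Z ^ (J + 2) := one_le_pow₀ hZ
  have hXR : (1 : ℝ) ≤ X := by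
    refine le_trans ?_ hX
    have h1 : (1 : ℝ) * 1 ≤ K * Z ^ (J + 2) := mul_le_mul hKone hZJ zero_le_one (by linarith)
    nlinarith
  have hX2 : 1 ≤ X := by exact_mod_cast hXR
  have hX0 : (0 : ℝ) < X := by linarith
  obtain ⟨e1, e2, e3, e4, -⟩ := hE PP hL1
  have hcellT := hmain PP Z (fun p hp => ⟨(hPP p hp).1, hKK2.trans (hPP p hp).2.1, (hPP p hp).2.2⟩)
    (hKK2.trans hL) X l hl (by
      refine le_trans ?_ hX
      exact mul_le_mul_of_nonneg_right (mul_le_mul_of_nonneg_right hKK2 (by positivity))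
        (by linarith)) j hj
  set j0 := ⌊Real.exp ta / X⌋₊ with hj0
  set j1 := ⌊Real.exp tb / X⌋₊ with hj1
  have hlogX : 0 ≤ Real.log X := Real.log_nonneg hXR
  have hx0 : K + 1 ≤ Real.exp ta / X := by
    have h1 : Real.exp ta / X = Real.exp (ta - Real.log X) := by
      rw [Real.exp_sub, Real.exp_log hX0]
    rw [h1]
    have h2 := Real.add_one_le_exp (ta - Real.log X)
    linarith
  have hj0K : K ≤ (j0 : ℝ) := by
    have := Nat.lt_floor_add_one (Real.exp ta / X)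
    rw [← hj0] at this
    linarith
  have hj0p : (0 : ℝ) < j0 := by linarith
  have hj0one : 1 ≤ j0 := by
    have : (1 : ℝ) ≤ (j0 : ℝ) := by linarith
    exact_mod_cast this
  have hj0e : 1 / (j0 : ℝ) ≤ ε / 2 := by
    rw [div_le_div_iff₀ hj0p (by norm_num)]
    rw [div_le_iff₀ hε] at hKε
    nlinarith
  have hj0i1 : 1 / (j0 : ℝ) ≤ 1 := by
    rw [div_le_one hj0p]; linarith
  have hj0i0 : 0 ≤ 1 / (j0 : ℝ) := by positivity
  set V : ℝ → ℝ := fun u => g ⌊Real.exp u / X⌋₊ * SS X a u with hV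
  set W : ℕ → ℝ → ℝ := fun P u => g ⌊Real.exp u / X⌋₊ *
    vv l ⌊Real.exp u / P⌋₊ (P * a ⌊Real.exp u / X⌋₊) with hW
  have hgm : Measurable fun u : ℝ => g ⌊Real.exp u / X⌋₊ := by
    have h : Measurable fun k : ℕ => g k := measurable_of_countable _
    exact h.comp (rb2_meas_floor X)
  have mV : Measurable V := hgm.mul (SS_measurable X a)
  have V0 : ∀ u, 0 ≤ V u := fun u => mul_nonneg (hg0 _) (SS_nonneg X a u)
  have V1 : ∀ u, V u ≤ 1 := fun u => mul_le_one₀ (hg _) (SS_nonneg X a u) (SS_le_one X a u)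
  have mW : ∀ P, Measurable (W P) := fun P => hgm.mul (W_measurable l P X a)
  have W0 : ∀ P u, 0 ≤ W P u := fun P u => mul_nonneg (hg0 _) (vv_nonneg _ _ _)
  have W1 : ∀ P u, W P u ≤ 1 := fun P u => mul_le_one₀ (hg _) (vv_nonneg _ _ _) (vv_le_one _ _ _)
  have iV : ∀ x y, IntervalIntegrable V volume x y := ii_of_bdd mV V0 V1
  have iW : ∀ P x y, IntervalIntegrable (W P) volume x y := fun P => ii_of_bdd (mW P) (W0 P) (W1 P)
  have hEnn : ∀ F : ℕ → ℝ, (∀ P, 0 ≤ F P) → 0 ≤ EP PP j F := by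
    intro F hF
    have h1 := e4 j (fun _ => 0) F (fun L _ _ => hF _)
    rw [e1] at h1
    exact h1
  -- the comparison with the right side
  set S := EP PP j (fun P => ∫ u in ta..tb, W P u) with hS
  have hS0 : 0 ≤ S := hEnn _ fun P => intervalIntegral.integral_nonneg hab fun u _ => W0 P u
  have hS1 : S ≤ tb - ta := by
    have h1 := e4 j (fun P => ∫ u in ta..tb, W P u) (fun _ => tb - ta)
      (fun L _ _ => T3x.int_le_len (mW _) (W0 _) (W1 _) hab)
    rw [e1] at h1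
    exact h1
  have hSR : S ≤ EP PP j (fun P => ∫ u in ta..tb, cg X g ta tb (u + Real.log P) *
      vv l ⌊Real.exp u⌋₊ (P * cf X a (u + Real.log P))) + J * Real.log Z := by
    have h1 := e4 j (fun P => ∫ u in ta..tb, W P u) (fun P => (∫ u in ta..tb,
      T3x.Phi X l a g ta tb P u) + J * Real.log Z) (fun L hLm hLl => by
        obtain ⟨h2, h3⟩ := T3x.log_prod hKone hPP L hLm
        refine (T3x.shift hg0 hg hab h2).trans ?_
        have h4 : (L.length : ℝ) * Real.log Z ≤ J * Real.log Z := by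
          refine mul_le_mul_of_nonneg_right ?_ (Real.log_nonneg hZ)
          rw [hLl]
          exact_mod_cast hj
        linarith)
    rw [e2, e1] at h1
    exact h1
  -- enough
  suffices hmainV : ∫ u in ta..tb, V u ≤ (1 + 1 / (j0 : ℝ)) * S + ε / 2 * (tb - ta) + 2 by
    have h1 : 1 / (j0 : ℝ) * S ≤ ε / 2 * (tb - ta) := mul_le_mul hj0e hS1 hS0 (by positivity)
    change ∫ u in ta..tb, V u ≤ _
    linarith
  by_cases hj01 : j0 + 1 ≤ j1
  swap
  · -- one cell
    have h1 : tb ≤ nd' X (j0 + 1) := by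
      unfold nd'
      rw [Real.le_log_iff_exp_le (by positivity), ← div_le_iff₀ hX0]
      have h2 : j1 + 1 ≤ j0 + 1 := by omega
      have h3 := Nat.lt_floor_add_one (Real.exp tb / X)
      rw [← hj1] at h3
      refine h3.le.trans ?_
      exact_mod_cast h2
    have h2 : nd' X j0 ≤ ta := by
      unfold nd'
      rw [Real.log_le_iff_le_exp (by positivity), ← le_div_iff₀ hX0]
      exact Nat.floor_le (by positivity)
    have h3 := nd_succ_sub hX2 hj0one
    have h4 := T3x.int_le_len mV V0 V1 hab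
    have h5 : 0 ≤ (1 + 1 / (j0 : ℝ)) * S := mul_nonneg (by linarith) hS0
    have h6 : 0 ≤ ε / 2 * (tb - ta) := mul_nonneg (by positivity) (by linarith)
    linarith
  have hj1one : 1 ≤ j1 := by omega
  -- the nodes
  have n1 : nd' X j0 ≤ ta := by
    unfold nd'
    rw [Real.log_le_iff_le_exp (by positivity), ← le_div_iff₀ hX0]
    exact Nat.floor_le (by positivity)
  have n2 : ta ≤ nd' X (j0 + 1) := by
    unfold nd'
    rw [Real.le_log_iff_exp_le (by positivity), ← div_le_iff₀ hX0]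
    push_cast
    exact (Nat.lt_floor_add_one _).le
  have hj1p : (0 : ℝ) < j1 := by exact_mod_cast hj1one
  have n3 : nd' X j1 ≤ tb := by
    unfold nd'
    rw [Real.log_le_iff_le_exp (by positivity), ← le_div_iff₀ hX0]
    exact Nat.floor_le (by positivity)
  have n4 : tb ≤ nd' X (j1 + 1) := by
    unfold nd'
    rw [Real.le_log_iff_exp_le (by positivity), ← div_le_iff₀ hX0]
    push_cast
    exact (Nat.lt_floor_add_one _).le
  have n5 : nd' X (j0 + 1) ≤ nd' X j1 := nd_mono hX2 (by omega) hj01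
  -- one cell
  have hcell : ∀ k, j0 + 1 ≤ k → ∫ u in (nd' X k)..(nd' X (k + 1)), V u ≤
      (1 + 1 / (j0 : ℝ)) * EP PP j (fun P => ∫ u in (nd' X k)..(nd' X (k + 1)), W P u) +
      ε / 2 * (nd' X (k + 1) - nd' X k) := by
    intro k hk
    have hk' : 1 ≤ k := by omega
    have hkp : (0 : ℝ) < k := by exact_mod_cast hk'
    have hle : nd' X k ≤ nd' X (k + 1) := nd_mono hX2 hk' (Nat.le_succ k)
    set c := vv X (k * X) (a k) with hc
    have hc0 : 0 ≤ c := vv_nonneg _ _ _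
    have f1 : ∫ u in (nd' X k)..(nd' X (k + 1)), V u = g k * c * (nd' X (k + 1) - nd' X k) := by
      rw [rb2_congr hle (g := fun _ => g k * c)]
      · rw [intervalIntegral.integral_const, smul_eq_mul, mul_comm]
      · intro u h1 h2
        have h3 := rb2_floor hX2 hk' h1.le h2
        simp only [hV, SS]
        rw [h3, hc, ← T3x.window_norm]
        have h4 : (k + 1) * X = k * X + X := by ring
        rw [h4]
    have h1 := hcellT (k * X) (a k)
    rw [← hc] at h1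
    have hexp1 : Real.exp (nd' X k) = k * X := by
      unfold nd'; rw [Real.exp_log (by positivity)]
    have hexp2 : Real.exp (nd' X (k + 1)) = ((k + 1 : ℕ) : ℝ) * X := by
      unfold nd'; rw [Real.exp_log (by positivity)]
    set D := nd' X (k + 1) - nd' X k with hD
    have hD0 : 0 ≤ D := by rw [hD]; linarith
    have hD1 : D ≤ 1 / k := nd_succ_sub hX2 hk'
    have hDk : ((k : ℝ) + 1) * D ≤ 1 + 1 / (j0 : ℝ) := by
      have h6 : ((k : ℝ) + 1) * D ≤ (k + 1) * (1 / k) :=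
        mul_le_mul_of_nonneg_left hD1 (by positivity)
      have h7 : ((k : ℝ) + 1) * (1 / k) = 1 + 1 / k := by field_simp
      have h8 : 1 / (k : ℝ) ≤ 1 / j0 := one_div_le_one_div_of_le hj0p
        (by exact_mod_cast (by omega : j0 ≤ k))
      linarith
    have h2 : ∀ P : ℕ, g k * D * (1 / X * ∫ t in ((k * X : ℕ) : ℝ)..(((k * X : ℕ) : ℝ) + X),
        vv l ⌊t / P⌋₊ (P * a k)) ≤
        (1 + 1 / (j0 : ℝ)) * ∫ u in (nd' X k)..(nd' X (k + 1)), W P u := by
      intro P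
      have f3 : ((k * X : ℕ) : ℝ) = Real.exp (nd' X k) := by rw [hexp1]; push_cast; ring
      have f4 : ((k * X : ℕ) : ℝ) + X = Real.exp (nd' X (k + 1)) := by
        rw [hexp2]; push_cast; ring
      have h3 := rb2_subst (T2x.vv_meas l P (P * a k)) (fun x => vv_nonneg _ _ _)
        (fun x => vv_le_one _ _ _) hle
      rw [← f4, ← f3] at h3
      have f5 : g k * (∫ u in (nd' X k)..(nd' X (k + 1)), vv l ⌊Real.exp u / P⌋₊ (P * a k)) =
          ∫ u in (nd' X k)..(nd' X (k + 1)), W P u := by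
        rw [← intervalIntegral.integral_const_mul]
        refine rb2_congr hle fun u h1 h2 => ?_
        simp only [hW]
        rw [rb2_floor hX2 hk' h1.le h2]
      set I := ∫ u in (nd' X k)..(nd' X (k + 1)), vv l ⌊Real.exp u / P⌋₊ (P * a k) with hI
      have hI0 : 0 ≤ I := intervalIntegral.integral_nonneg hle fun u _ => vv_nonneg _ _ _
      have h4 : 1 / (X : ℝ) * (∫ t in ((k * X : ℕ) : ℝ)..(((k * X : ℕ) : ℝ) + X),
          vv l ⌊t / P⌋₊ (P * a k)) ≤ (k + 1) * I := by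
        rw [one_div_mul_eq_div, div_le_iff₀ hX0]
        refine h3.trans (le_of_eq ?_)
        push_cast
        ring
      rw [← f5]
      calc g k * D * (1 / (X : ℝ) * (∫ t in ((k * X : ℕ) : ℝ)..(((k * X : ℕ) : ℝ) + X),
            vv l ⌊t / P⌋₊ (P * a k))) ≤ g k * D * ((k + 1) * I) :=
            mul_le_mul_of_nonneg_left h4 (mul_nonneg (hg0 k) hD0)
        _ = ((k + 1) * D) * (g k * I) := by ring
        _ ≤ (1 + 1 / (j0 : ℝ)) * (g k * I) :=
            mul_le_mul_of_nonneg_right hDk (mul_nonneg (hg0 k) hI0)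
    rw [f1]
    have h3 : g k * D * c ≤ g k * D * (EP PP j (fun P => 1 / (X : ℝ) *
        ∫ t in ((k * X : ℕ) : ℝ)..(((k * X : ℕ) : ℝ) + X), vv l ⌊t / P⌋₊ (P * a k)) + ε / 2) :=
      mul_le_mul_of_nonneg_left h1 (mul_nonneg (hg0 k) hD0)
    rw [mul_add, ← e3] at h3
    have h4 := e4 j (fun P => g k * D * (1 / (X : ℝ) *
        ∫ t in ((k * X : ℕ) : ℝ)..(((k * X : ℕ) : ℝ) + X), vv l ⌊t / P⌋₊ (P * a k)))
        (fun P => (1 + 1 / (j0 : ℝ)) * ∫ u in (nd' X k)..(nd' X (k + 1)), W P u)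
        (fun L _ _ => h2 _)
    rw [e3 j (1 + 1 / (j0 : ℝ))] at h4
    have h5 : g k * D * (ε / 2) ≤ ε / 2 * D := by
      have := mul_le_mul_of_nonneg_right (hg k) (show 0 ≤ D * (ε / 2) by positivity)
      nlinarith
    calc g k * c * D = g k * D * c := by ring
      _ ≤ _ := h3
      _ ≤ _ := by linarith
  -- the sum over the cells
  have hmid : ∫ u in (nd' X (j0 + 1))..(nd' X j1), V u ≤
      (1 + 1 / (j0 : ℝ)) * EP PP j (fun P => ∫ u in (nd' X (j0 + 1))..(nd' X j1), W P u) +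
      ε / 2 * (nd' X j1 - nd' X (j0 + 1)) := by
    rw [← intervalIntegral.sum_integral_adjacent_intervals_Ico (a := nd' X) hj01
      (fun k _ => iV _ _)]
    have f1 : ∀ P, ∫ u in (nd' X (j0 + 1))..(nd' X j1), W P u =
        ∑ k ∈ Ico (j0 + 1) j1, ∫ u in (nd' X k)..(nd' X (k + 1)), W P u := fun P =>
      (intervalIntegral.sum_integral_adjacent_intervals_Ico (a := nd' X) hj01
        (fun k _ => iW P _ _)).symm
    have f2 : nd' X j1 - nd' X (j0 + 1) = ∑ k ∈ Ico (j0 + 1) j1, (nd' X (k + 1) - nd' X k) :=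
      (Finset.sum_Ico_sub (nd' X) hj01).symm
    simp only [f1]
    rw [f2, Finset.mul_sum (Ico (j0 + 1) j1), T3x.EP_sum, Finset.mul_sum (Ico (j0 + 1) j1),
      ← Finset.sum_add_distrib]
    exact Finset.sum_le_sum fun k hk => hcell k (Finset.mem_Ico.1 hk).1
  -- the ends
  have hsplit : ∫ u in ta..tb, V u = (∫ u in ta..(nd' X (j0 + 1)), V u) +
      (∫ u in (nd' X (j0 + 1))..(nd' X j1), V u) + ∫ u in (nd' X j1)..tb, V u := by
    rw [intervalIntegral.integral_add_adjacent_intervals (iV _ _) (iV _ _),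
      intervalIntegral.integral_add_adjacent_intervals (iV _ _) (iV _ _)]
  have h1 := T3x.int_le_len mV V0 V1 n2
  have h2 := T3x.int_le_len mV V0 V1 n3
  have h3 := nd_succ_sub hX2 hj0one
  have h4 := nd_succ_sub hX2 hj1one
  have h5 : 1 / (j1 : ℝ) ≤ 1 / j0 := one_div_le_one_div_of_le hj0p
    (by exact_mod_cast (by omega : j0 ≤ j1))
  have hmono : EP PP j (fun P => ∫ u in (nd' X (j0 + 1))..(nd' X j1), W P u) ≤ S := by
    refine e4 j _ _ fun L _ _ => ?_
    exact intervalIntegral.integral_mono_interval n2 n5 n3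
      (Filter.Eventually.of_forall fun u => W0 _ u) (iW _ _ _)
  have h6 : (1 + 1 / (j0 : ℝ)) * EP PP j (fun P => ∫ u in (nd' X (j0 + 1))..(nd' X j1), W P u) ≤
      (1 + 1 / (j0 : ℝ)) * S := mul_le_mul_of_nonneg_left hmono (by linarith)
  have h7 : ε / 2 * (nd' X j1 - nd' X (j0 + 1)) ≤ ε / 2 * (tb - ta) :=
    mul_le_mul_of_nonneg_left (by linarith) (by positivity)
  rw [hsplit]
  linarith

end Pool.Agent.SV
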