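import Pool.Agent.Lib.SV.TFDefs
import Pool.Agent.Lib.WC86.CosM

/-! Theorem TF (MP_663568_nt), row T5: Bessel's inequality with the density of the square-free
numbers.  (helper96) -/

set_option autoImplicit false
open Finset

namespace Pool.Agent.SV

open Pool.Agent.Lib.MP_663568_nt Pool.Agent.Lib.MP_663568_nt.Katai
  Pool.Agent.Lib.MP_663568_nt.Nul Pool.Agent.WC86.Pr

noncomputable section

namespace T5

/-- The kernel. -/
def K (l : ℕ) (x : ℝ) : ℂ := ∑ m ∈ Icc 1 l, ee (x * m)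

lemma K_mul (l : ℕ) (x : ℝ) : ‖K l x‖ * (4 * nd x) ≤ 2 := by
  have h := per_small 1 (fun _ => 1) (fun _ => by simp) (fun _ => rfl) x l 0
  simp only [Complex.ofReal_one, one_mul, Nat.cast_one, mul_one] at h
  exact h

lemma K_le (l : ℕ) (x : ℝ) : ‖K l x‖ ≤ l := by
  refine (norm_sum_le _ _).trans ?_
  refine (sum_le_card_nsmul _ _ 1 fun m _ => (norm_ee _).le).trans ?_
  rw [Nat.card_Icc, nsmul_eq_mul, mul_one, Nat.add_sub_cancel]

lemma K_bd (ε : ℝ) (hε : 0 < ε) (l : ℕ) (hl : 1 ≤ l) (x : ℝ) :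
    ‖K l x‖ ≤ l * ((if nd x ≤ 2 / ε / l then 1 else 0) + ε / 4) := by
  have hl0 : (0 : ℝ) < l := by exact_mod_cast hl
  split_ifs with h
  · have := K_le l x
    nlinarith
  · push Not at h
    have h1 := K_mul l x
    have h2 : 2 < nd x * (ε * l) := by
      rw [div_div, div_lt_iff₀ (mul_pos hε hl0)] at h
      exact h
    have h3 := norm_nonneg (K l x)
    have h4 : ‖K l x‖ * 2 ≤ ‖K l x‖ * (nd x * (ε * l)) := mul_le_mul_of_nonneg_left h2.le h3
    have h5 : ‖K l x‖ * (nd x * (ε * l)) = (‖K l x‖ * (4 * nd x)) * (ε * l / 4) := by ring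
    have h6 : (‖K l x‖ * (4 * nd x)) * (ε * l / 4) ≤ 2 * (ε * l / 4) :=
      mul_le_mul_of_nonneg_right h1 (by positivity)
    nlinarith

/-- The Möbius function, real. -/
def mu (n : ℕ) : ℝ := ((ArithmeticFunction.moebius n : ℤ) : ℝ)

lemma muC_eq (n : ℕ) : muC n = ((mu n : ℝ) : ℂ) := by
  rw [muC, mu]; push_cast; rfl

lemma mu_sq (S : Finset ℕ) (hS : ∀ p ∈ S, p.Prime) (n : ℕ) : mu n ^ 2 ≤ sf S n := by
  unfold sf mu
  split_ifs with h
  · obtain ⟨p, hp, hpn⟩ := h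
    have hns : ¬ Squarefree n := by
      intro hs
      have h1 := hs p (by rwa [← sq])
      exact (hS p hp).one_lt.ne' (Nat.isUnit_iff.mp h1)
    rw [ArithmeticFunction.moebius_eq_zero_of_not_squarefree hns]
    norm_num
  · have h1 := ArithmeticFunction.abs_moebius_le_one (n := n)
    have h2 : |((ArithmeticFunction.moebius n : ℤ) : ℝ)| ≤ 1 := by exact_mod_cast h1
    rw [← sq_abs]
    exact pow_le_one₀ (abs_nonneg _) h2

/-- the unimodular factor -/
lemma exists_unit (z : ℂ) : ∃ u : ℂ, ‖u‖ ≤ 1 ∧ (u * z).re = ‖z‖ := by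
  by_cases hz : z = 0
  · exact ⟨0, by simp, by simp [hz]⟩
  · have hn : (‖z‖ : ℂ) ≠ 0 := by exact_mod_cast (norm_pos_iff.mpr hz).ne'
    refine ⟨(starRingEnd ℂ) z / ‖z‖, ?_, ?_⟩
    · rw [norm_div, RCLike.norm_conj, Complex.norm_real, Real.norm_eq_abs, abs_norm,
        div_self (norm_pos_iff.mpr hz).ne']
    · have : (starRingEnd ℂ) z / ‖z‖ * z = (‖z‖ : ℂ) := by
        rw [div_mul_eq_mul_div, mul_comm, Complex.mul_conj, Complex.normSq_eq_norm_sq]
        field_simp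
        push_cast
        ring
      rw [this, Complex.ofReal_re]

lemma re_re (a b : ℂ) : (2 * a.re) * (2 * b.re) =
    2 * (a * (starRingEnd ℂ) b).re + 2 * (a * b).re := by
  simp only [Complex.mul_re, Complex.conj_re, Complex.conj_im]
  ring

lemma G_sq (l : ℕ) (ι : Finset ℕ) (c w : ℕ → ℝ) (hw : ∀ j, 0 ≤ w j) (u : ℕ → ℂ)
    (hu : ∀ j, ‖u j‖ ≤ 1) :
    ∑ m ∈ Icc 1 l, (∑ j ∈ ι, w j * (2 * (u j * ee (c j * m)).re)) ^ 2 ≤
      ∑ i ∈ ι, ∑ j ∈ ι, w i * w j * (2 * (‖K l (c i - c j)‖ + ‖K l (c i + c j)‖)) := by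
  have e1 : ∀ m : ℕ, (∑ j ∈ ι, w j * (2 * (u j * ee (c j * m)).re)) ^ 2 =
      ∑ i ∈ ι, ∑ j ∈ ι, w i * w j * (2 * (u i * (starRingEnd ℂ) (u j) * ee ((c i - c j) * m)).re +
        2 * (u i * u j * ee ((c i + c j) * m)).re) := by
    intro m
    rw [sq, sum_mul_sum]
    refine sum_congr rfl fun i _ => sum_congr rfl fun j _ => ?_
    have h1 := re_re (u i * ee (c i * m)) (u j * ee (c j * m))
    have h2 : u i * ee (c i * m) * (starRingEnd ℂ) (u j * ee (c j * m)) =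
        u i * (starRingEnd ℂ) (u j) * ee ((c i - c j) * m) := by
      rw [map_mul, sub_mul, ee_sub]; ring
    have h3 : u i * ee (c i * m) * (u j * ee (c j * m)) =
        u i * u j * ee ((c i + c j) * m) := by
      rw [add_mul, ee_add]; ring
    rw [h2, h3] at h1
    rw [← h1]; ring
  simp only [e1]
  rw [sum_comm]
  refine sum_le_sum fun i _ => ?_
  rw [sum_comm]
  refine sum_le_sum fun j _ => ?_
  rw [← mul_sum]
  refine mul_le_mul_of_nonneg_left ?_ (mul_nonneg (hw i) (hw j))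
  rw [sum_add_distrib, ← mul_sum, ← mul_sum, mul_add]
  have hre : ∀ (a : ℂ) (x : ℝ), ‖a‖ ≤ 1 → ∑ m ∈ Icc 1 l, (a * ee (x * m)).re ≤ ‖K l x‖ := by
    intro a x ha
    have h1 : ∑ m ∈ Icc 1 l, (a * ee (x * m)).re = (a * K l x).re := by
      rw [K, mul_sum, Complex.re_sum]
    rw [h1]
    refine (Complex.re_le_norm _).trans ?_
    rw [norm_mul]
    exact mul_le_of_le_one_left (norm_nonneg _) ha
  have hb : ∀ a b : ℂ, ‖a‖ ≤ 1 → ‖b‖ ≤ 1 → ‖a * b‖ ≤ 1 := fun a b ha hb => by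
    rw [norm_mul]; exact mul_le_one₀ ha (norm_nonneg _) hb
  refine add_le_add (mul_le_mul_of_nonneg_left (hre _ _ ?_) (by norm_num))
    (mul_le_mul_of_nonneg_left (hre _ _ ?_) (by norm_num))
  · exact hb _ _ (hu i) (by rw [RCLike.norm_conj]; exact hu j)
  · exact hb _ _ (hu i) (hu j)

end T5

open T5

/-- Row T5. -/
theorem t5 : T5_stmt := by
  intro ε hε
  obtain ⟨S, hS, -, hdn⟩ := dn_lim (ε / 2) (by positivity)
  obtain ⟨C₁, hC₁0, hC₁⟩ := dens_win S hS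
  obtain ⟨l₁, hl₁⟩ := exists_nat_gt (C₁ / (ε / 2))
  refine ⟨2 / ε, by positivity, max 1 l₁, fun l hl y ι c w hw0 hw1 => ?_⟩
  have hl1 : 1 ≤ l := (le_max_left _ _).trans hl
  have hl2 : l₁ ≤ l := (le_max_right _ _).trans hl
  have hl0 : (0 : ℝ) < l := by exact_mod_cast hl1
  -- the mean of the squares
  have hmu : ∑ m ∈ Icc 1 l, mu (y + m) ^ 2 ≤ l * (6 / Real.pi ^ 2 + ε) := by
    have h1 : ∑ m ∈ Icc 1 l, mu (y + m) ^ 2 ≤ ∑ m ∈ Icc 1 l, sf S (y + m) :=
      sum_le_sum fun m _ => mu_sq S hS _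
    have h2 := (abs_le.mp (hC₁ y l)).2
    have h3 : C₁ ≤ ε / 2 * l := by
      have h4 : C₁ / (ε / 2) < l := lt_of_lt_of_le hl₁ (by exact_mod_cast hl2)
      rw [div_lt_iff₀ (by positivity)] at h4
      linarith
    have h5 : dn S * l ≤ (6 / Real.pi ^ 2 + ε / 2) * l := mul_le_mul_of_nonneg_right hdn hl0.le
    nlinarith
  -- the unimodular factors
  choose u hu1 hu2 using fun j : ℕ => T5.exists_unit (∑ m ∈ Icc 1 l, muC (y + m) * ee (c j * m))
  have hsum : 2 * ∑ j ∈ ι, w j * vv l y (c j) =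
      (∑ m ∈ Icc 1 l, mu (y + m) * (∑ j ∈ ι, w j * (2 * (u j * ee (c j * m)).re))) / l := by
    rw [eq_div_iff hl0.ne']
    have e1 : ∀ j, vv l y (c j) * l = ∑ m ∈ Icc 1 l, mu (y + m) * (u j * ee (c j * m)).re := by
      intro j
      rw [vv, div_mul_cancel₀ _ hl0.ne', ← hu2 j, mul_sum, Complex.re_sum]
      refine sum_congr rfl fun m _ => ?_
      rw [muC_eq, show u j * (((mu (y + m) : ℝ) : ℂ) * ee (c j * m)) =
        ((mu (y + m) : ℝ) : ℂ) * (u j * ee (c j * m)) by ring, Complex.re_ofReal_mul]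
    calc (2 * ∑ j ∈ ι, w j * vv l y (c j)) * l = ∑ j ∈ ι, 2 * w j * (vv l y (c j) * l) := by
          rw [mul_assoc, sum_mul, mul_sum]
          refine sum_congr rfl fun j _ => by ring
      _ = ∑ j ∈ ι, ∑ m ∈ Icc 1 l, mu (y + m) * (w j * (2 * (u j * ee (c j * m)).re)) := by
          refine sum_congr rfl fun j _ => ?_
          rw [e1, mul_sum]
          refine sum_congr rfl fun m _ => by ring
      _ = _ := by
          rw [sum_comm]
          refine sum_congr rfl fun m _ => ?_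
          rw [mul_sum]
  -- Cauchy
  have hcs := sum_mul_sq_le_sq_mul_sq (Icc 1 l) (fun m => mu (y + m))
    (fun m => ∑ j ∈ ι, w j * (2 * (u j * ee (c j * m)).re))
  have hG := G_sq l ι c w hw0 u hu1
  have hR : ∑ i ∈ ι, ∑ j ∈ ι, w i * w j * (2 * (‖K l (c i - c j)‖ + ‖K l (c i + c j)‖)) ≤
      l * (2 * ∑ i ∈ ι, ∑ j ∈ ι, w i * w j * ((if nd (c i - c j) ≤ 2 / ε / l then 1 else 0) +
      (if nd (c i + c j) ≤ 2 / ε / l then 1 else 0)) + ε * (#ι : ℝ) ^ 2) := by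
    have h1 : ε * (#ι : ℝ) ^ 2 = ∑ i ∈ ι, ∑ j ∈ ι, ε := by
      rw [sum_const, sum_const, nsmul_eq_mul, nsmul_eq_mul]; ring
    rw [h1, mul_sum, ← sum_add_distrib, mul_sum]
    refine sum_le_sum fun i _ => ?_
    rw [mul_sum, ← sum_add_distrib, mul_sum]
    refine sum_le_sum fun j _ => ?_
    have h2 := K_bd ε hε l hl1 (c i - c j)
    have h3 := K_bd ε hε l hl1 (c i + c j)
    have h4 : 0 ≤ w i * w j := mul_nonneg (hw0 i) (hw0 j)
    have h5 : w i * w j ≤ 1 := mul_le_one₀ (hw1 i) (hw0 j) (hw1 j)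
    have h6 : w i * w j * (2 * (‖K l (c i - c j)‖ + ‖K l (c i + c j)‖)) ≤
      w i * w j * (2 * (l * ((if nd (c i - c j) ≤ 2 / ε / l then 1 else 0) + ε / 4) +
        l * ((if nd (c i + c j) ≤ 2 / ε / l then 1 else 0) + ε / 4))) :=
      mul_le_mul_of_nonneg_left (by linarith) h4
    refine h6.trans ?_
    have h7 : w i * w j * (ε * l) ≤ 1 * (ε * l) :=
      mul_le_mul_of_nonneg_right h5 (by positivity)
    linarith [h7, show w i * w j * (2 * (l * ((if nd (c i - c j) ≤ 2 / ε / l then 1 else 0) + ε / 4) +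
        l * ((if nd (c i + c j) ≤ 2 / ε / l then 1 else 0) + ε / 4))) =
        l * (2 * (w i * w j * ((if nd (c i - c j) ≤ 2 / ε / l then 1 else 0) +
          (if nd (c i + c j) ≤ 2 / ε / l then 1 else 0)))) + w i * w j * (ε * l) by ring]
  set R : ℝ := 2 * ∑ i ∈ ι, ∑ j ∈ ι, w i * w j * ((if nd (c i - c j) ≤ 2 / ε / l then 1 else 0) +
      (if nd (c i + c j) ≤ 2 / ε / l then 1 else 0)) + ε * (#ι : ℝ) ^ 2 with hRdef
  have hfin : (∑ m ∈ Icc 1 l, mu (y + m) * (∑ j ∈ ι, w j * (2 * (u j * ee (c j * m)).re))) ^ 2 ≤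
      (l * (6 / Real.pi ^ 2 + ε)) * (l * R) := by
    refine hcs.trans ?_
    refine mul_le_mul hmu (hG.trans hR) (sum_nonneg fun _ _ => sq_nonneg _) (by positivity)
  rw [hsum, div_pow, div_le_iff₀ (by positivity)]
  refine hfin.trans (le_of_eq ?_)
  ring

end

end Pool.Agent.SV
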