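import Pool.Agent.Lib.SV.TFDefs
import Pool.Agent.Lib.SV.NT

/-!
# Theorem TF (MP_663568_nt): row T6, the theorem of Vinogradov for one random prime
-/

set_option autoImplicit false
open Finset MeasureTheory

namespace Pool.Agent.SV

open Pool.Agent.Lib.MP_663568_nt Pool.Agent.Lib.MP_663568_nt.Katai
  Pool.Agent.Lib.MP_663568_nt.Nul

namespace T6r

lemma pairs (G : Finset ℕ) :
    #G * #G - #G ≤ 2 * #((G ×ˢ G).filter fun x : ℕ × ℕ => x.1 < x.2) := by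
  rw [← offDiag_card]
  have hsub : G.offDiag ⊆ ((G ×ˢ G).filter fun x : ℕ × ℕ => x.1 < x.2) ∪
      ((G ×ˢ G).filter fun x : ℕ × ℕ => x.1 < x.2).image Prod.swap := by
    intro x hx
    rw [mem_offDiag] at hx
    rw [mem_union, mem_filter, mem_image]
    rcases lt_or_gt_of_ne hx.2.2 with h | h
    · exact Or.inl ⟨mem_product.2 ⟨hx.1, hx.2.1⟩, h⟩
    · exact Or.inr ⟨x.swap, mem_filter.2 ⟨mem_product.2 ⟨hx.2.1, hx.1⟩, h⟩, Prod.swap_swap x⟩
  have h1 := (card_le_card hsub).trans (card_union_le _ _)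
  have h2 := card_image_le (s := (G ×ˢ G).filter fun x : ℕ × ℕ => x.1 < x.2) (f := Prod.swap)
  omega

lemma large (κ₁ a b : ℝ) (hκ : 0 < κ₁) (ha : 0 < a) : ∃ H₀ : ℕ, ∀ H : ℕ, H₀ ≤ H →
    Real.exp 1 ≤ H ∧ 2 ≤ (H : ℝ) ^ κ₁ ∧ b ≤ (H : ℝ) ^ κ₁ ∧
      Real.log H ≤ a * (H : ℝ) ^ κ₁ := by
  have t1 : Filter.Tendsto (fun H : ℕ => (H : ℝ)) Filter.atTop Filter.atTop :=
    tendsto_natCast_atTop_atTop
  have t2 : Filter.Tendsto (fun H : ℕ => (H : ℝ) ^ κ₁) Filter.atTop Filter.atTop :=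
    (tendsto_rpow_atTop hκ).comp t1
  have t3 := t1.eventually ((isLittleO_log_rpow_atTop hκ).bound ha)
  obtain ⟨H₀, h⟩ := Filter.eventually_atTop.1 ((t1.eventually_ge_atTop (Real.exp 1)).and
    ((t2.eventually_ge_atTop 2).and ((t2.eventually_ge_atTop b).and t3)))
  refine ⟨H₀, fun H hH => ?_⟩
  obtain ⟨h1, h2, h3, h4⟩ := h H hH
  refine ⟨h1, h2, h3, ?_⟩
  rw [Real.norm_of_nonneg (show (0 : ℝ) ≤ (H : ℝ) ^ κ₁ by linarith)] at h4
  exact (le_abs_self _).trans h4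

lemma arith {a g F : ℝ} (h1 : 2 ≤ g) (h2 : a ^ 2 ≤ g ^ 2) (h3 : g * g - g ≤ 2 * F) :
    a ^ 2 / 4 ≤ F := by nlinarith

end T6r

open T6r in
/-- Row T6. -/
theorem t6 : T6_stmt := by
  classical
  rintro ⟨C₂, hC₂, h2⟩ ⟨C₃, hC₃, h3⟩ κ₁ κ₂ ε hκ hκ12 hε
  have hκ2 : 0 < κ₂ := hκ.trans_le hκ12
  set C₁ : ℝ := 3 * κ₂ + 1 with hC₁
  have hC₁0 : 1 ≤ C₁ := by rw [hC₁]; linarith
  have hC₁p : 0 < C₁ := by linarith
  set c : ℝ := (ε / C₁) ^ 2 / 16 * κ₁ ^ 2 / (2 * C₂) with hc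
  have hc0 : 0 < c := by positivity
  set κ : ℝ := c ^ 2 / (16 * C₃) with hκd
  have hκ0 : 0 < κ := by positivity
  obtain ⟨H₀, hlarge⟩ := large κ₁ (ε / C₁ / 4) (2 / κ) hκ (by positivity)
  refine ⟨⌈6 / κ⌉₊, max 1 (512 / κ), Nat.one_le_ceil_iff.2 (by positivity), le_max_left _ _,
    H₀, ?_⟩
  intro H hH hLs D ρ hρ0 hρ1 hsum
  obtain ⟨hH1, hP2, hκH, hlog⟩ := hlarge H hH
  have he : 2 < Real.exp 1 := lt_trans (by norm_num) Real.exp_one_gt_d9
  have hH0 : (0 : ℝ) < H := by linarith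
  have hL1 : 1 ≤ Real.log H := by
    rw [Real.le_log_iff_exp_le hH0]; exact hH1
  set L := Real.log H with hL
  have hL0 : 0 < L := by linarith
  have hlogP : Real.log ((H : ℝ) ^ κ₁) = κ₁ * L := Real.log_rpow hH0 _
  set G := (PPs H κ₁ κ₂).filter fun p : ℕ => nd ((p : ℝ) * D) ≤ ρ with hG
  have hGp : ∀ p ∈ G, (p : ℝ) ≤ (H : ℝ) ^ κ₂ ∧ p.Prime ∧ (H : ℝ) ^ κ₁ ≤ p ∧
      nd ((p : ℝ) * D) ≤ ρ := by
    intro p hp
    rw [hG, mem_filter, PPs, mem_filter, mem_Icc] at hp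
    exact ⟨(Nat.le_floor_iff (by positivity)).1 hp.1.1.2, hp.1.2.1, hp.1.2.2, hp.2⟩
  have hs1 : ε ≤ ∑ p ∈ G, 1 / (p : ℝ) := by
    rw [hG, sum_filter]
    refine hsum.trans (sum_le_sum fun p _ => ?_)
    split_ifs
    · rw [mul_one, wt]
      rcases Nat.eq_zero_or_pos p with h0 | h0
      · rw [h0]; simp
      have h0' : (0 : ℝ) < p := by exact_mod_cast h0
      refine one_div_le_one_div_of_le h0' ?_
      nlinarith
    · rw [mul_zero]
  -- the dyadic blocks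
  set m : ℕ := ⌊3 * κ₂ * L⌋₊ + 1 with hm
  have hmC : (m : ℝ) ≤ C₁ * L := by
    rw [hm, hC₁]
    push_cast
    have := Nat.floor_le (show 0 ≤ 3 * κ₂ * L by positivity)
    nlinarith
  have hm0 : (0 : ℝ) < m := by rw [hm]; positivity
  have hlogm : ∀ p ∈ G, Nat.log 2 p ∈ range m := by
    intro p hp
    obtain ⟨a1, a2, a3, a4⟩ := hGp p hp
    have h5 : ((2 ^ Nat.log 2 p : ℕ) : ℝ) ≤ (H : ℝ) ^ κ₂ := by
      refine le_trans ?_ a1
      exact_mod_cast Nat.pow_log_le_self 2 a2.pos.ne'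
    have h6 : (Nat.log 2 p : ℝ) * Real.log 2 ≤ κ₂ * L := by
      have h7 := Real.log_le_log (by positivity) h5
      rw [Real.log_rpow hH0] at h7
      push_cast at h7
      rwa [Real.log_pow] at h7
    have h7 : (Nat.log 2 p : ℝ) ≤ 3 * κ₂ * L := by
      have h8 : (0.6931471803 : ℝ) < Real.log 2 := Real.log_two_gt_d9
      have h10 : 0 ≤ κ₂ * L := by positivity
      have h11 : (0 : ℝ) ≤ (Nat.log 2 p : ℝ) := Nat.cast_nonneg _
      nlinarith
    rw [mem_range, hm]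
    exact Nat.lt_succ_of_le (Nat.le_floor h7)
  have hfib := sum_fiberwise_of_maps_to (g := fun p : ℕ => Nat.log 2 p) hlogm
    (fun p => 1 / (p : ℝ))
  obtain ⟨i, -, hi⟩ : ∃ i ∈ range m, ε / m ≤ ∑ p ∈ G with Nat.log 2 p = i, 1 / (p : ℝ) := by
    refine exists_le_of_sum_le (s := range m) ⟨0, mem_range.2 (by omega)⟩ ?_
    rw [hfib, sum_const, card_range, nsmul_eq_mul, mul_div_cancel₀ _ hm0.ne']
    exact hs1
  set G' := G.filter fun p => Nat.log 2 p = i with hG'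
  set Z : ℕ := 2 ^ i with hZ
  have hZ1 : 1 ≤ Z := Nat.one_le_two_pow
  have hZ0 : (0 : ℝ) < Z := by exact_mod_cast hZ1
  have hG'p : ∀ p ∈ G', Z ≤ p ∧ p < 2 * Z := by
    intro p hp
    rw [hG', mem_filter] at hp
    have b0 : p ≠ 0 := (hGp p hp.1).2.1.pos.ne'
    constructor
    · rw [hZ, ← hp.2]; exact Nat.pow_log_le_self 2 b0
    · have := Nat.lt_pow_succ_log_self (b := 2) (by norm_num) p
      rw [hp.2, Nat.succ_eq_add_one, pow_succ] at this
      rw [hZ]; omega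
  have hg : ε / C₁ * (Z / L) ≤ #G' := by
    have h4 : ∑ p ∈ G', 1 / (p : ℝ) ≤ #G' / (Z : ℝ) := by
      calc ∑ p ∈ G', 1 / (p : ℝ) ≤ ∑ _p ∈ G', 1 / (Z : ℝ) := by
            refine sum_le_sum fun p hp => one_div_le_one_div_of_le hZ0 ?_
            exact_mod_cast (hG'p p hp).1
        _ = #G' / (Z : ℝ) := by rw [sum_const, nsmul_eq_mul]; ring
    have h5 : ε / (C₁ * L) ≤ #G' / (Z : ℝ) :=
      le_trans (div_le_div_of_nonneg_left hε.le hm0 hmC) (hi.trans h4)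
    rw [div_le_div_iff₀ (by positivity) hZ0] at h5
    rw [div_mul_div_comm, div_le_iff₀ (by positivity)]
    exact h5
  have hne : G'.Nonempty := by
    rw [nonempty_iff_ne_empty]
    intro h0
    rw [h0, card_empty, Nat.cast_zero] at hg
    have : 0 < ε / C₁ * (Z / L) := by positivity
    linarith
  obtain ⟨y, hy⟩ := hne
  have hZP : (H : ℝ) ^ κ₁ ≤ 2 * Z := by
    have y1 := (hGp y (mem_filter.1 hy).1).2.2.1
    have y2 : (y : ℝ) < 2 * Z := by exact_mod_cast (hG'p y hy).2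
    linarith
  have hg2 : 2 ≤ ε / C₁ * (Z / L) := by
    rw [← mul_div_assoc, le_div_iff₀ hL0]
    calc 2 * L ≤ 2 * (ε / C₁ / 4 * (H : ℝ) ^ κ₁) := by linarith
      _ = ε / C₁ * ((H : ℝ) ^ κ₁ / 2) := by ring
      _ ≤ ε / C₁ * Z := by
          refine mul_le_mul_of_nonneg_left ?_ (by positivity)
          linarith
  set F := (G' ×ˢ G').filter fun x : ℕ × ℕ => x.1 < x.2 with hF
  have hFc : (ε / C₁ * (Z / L)) ^ 2 / 4 ≤ #F := by
    have h4 : #G' * #G' - #G' ≤ 2 * #F := by convert pairs G'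
    have h5 : (#G' : ℝ) * #G' - #G' ≤ 2 * #F := by
      have h6 : #G' * #G' ≤ 2 * #F + #G' := by omega
      have h7 : (#G' : ℝ) * #G' ≤ 2 * #F + #G' := by exact_mod_cast h6
      linarith
    have h6 : (2 : ℝ) ≤ #G' := hg2.trans hg
    have h7 : (ε / C₁ * (Z / L)) ^ 2 ≤ (#G' : ℝ) ^ 2 := pow_le_pow_left₀ (by linarith) hg 2
    exact arith h6 h7 h5
  set s : ℝ := (ε / C₁ * (Z / L)) ^ 2 / (16 * (Z : ℝ) ^ 2) with hs
  have hs0 : 0 < s := by positivity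
  have hsF : s ≤ ∑ x ∈ F, 1 / ((x.1 : ℝ) * x.2) := by
    calc s = (ε / C₁ * (Z / L)) ^ 2 / 4 * (1 / (2 * Z) ^ 2 : ℝ) := by
          rw [hs]; field_simp; ring
      _ ≤ #F * (1 / (2 * Z) ^ 2 : ℝ) := mul_le_mul_of_nonneg_right hFc (by positivity)
      _ = ∑ _x ∈ F, (1 / (2 * Z) ^ 2 : ℝ) := by rw [sum_const, nsmul_eq_mul]
      _ ≤ _ := by
          refine sum_le_sum fun x hx => ?_
          rw [hF, mem_filter, mem_product] at hx
          have a1 : (x.1 : ℝ) ≤ 2 * Z := by exact_mod_cast (hG'p _ hx.1.1).2.le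
          have a2 : (x.2 : ℝ) ≤ 2 * Z := by exact_mod_cast (hG'p _ hx.1.2).2.le
          have a3 : (0 : ℝ) < x.1 := by exact_mod_cast hZ1.trans (hG'p _ hx.1.1).1
          have a4 : (0 : ℝ) < x.2 := by exact_mod_cast hZ1.trans (hG'p _ hx.1.2).1
          rw [sq]
          exact one_div_le_one_div_of_le (by positivity) (mul_le_mul a1 a2 a4.le (by positivity))
  obtain ⟨D', hD1, hD2, hD3⟩ := NTr.block (P := (H : ℝ) ^ κ₁) (R := 1) (β := D) (M := 1)
    (E2 := ρ / (2 * Z)) (Z := Z) hC₂ h2 h3 hP2 le_rfl hZ1 one_pos (by positivity) F (by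
      intro x hx
      rw [hF, mem_filter, mem_product] at hx
      obtain ⟨a1, a2⟩ := hG'p _ hx.1.1
      obtain ⟨b1, b2⟩ := hG'p _ hx.1.2
      obtain ⟨-, c2, c3, c4⟩ := hGp _ (mem_filter.1 hx.1.1).1
      obtain ⟨-, d2, d3, d4⟩ := hGp _ (mem_filter.1 hx.1.2).1
      have e1 : (0 : ℝ) < x.1 := by exact_mod_cast c2.pos
      have e2 : (0 : ℝ) < x.2 := by exact_mod_cast d2.pos
      refine ⟨a1, a2, hx.2, ?_, c3, ?_, ?_⟩
      · intro r hr hd
        rcases (Nat.Prime.dvd_mul hr).1 hd with h | h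
        · rw [(Nat.prime_dvd_prime_iff_eq hr c2).1 h]; exact c3
        · rw [(Nat.prime_dvd_prime_iff_eq hr d2).1 h]; exact d3
      · have f1 : Real.log x.1 ≤ Real.log x.2 := Real.log_le_log e1 (by exact_mod_cast hx.2.le)
        have f2 : Real.log x.2 ≤ Real.log x.1 + Real.log 2 := by
          rw [← Real.log_mul e1.ne' (by norm_num)]
          refine Real.log_le_log e2 ?_
          have : x.2 ≤ x.1 * 2 := by omega
          exact_mod_cast this
        have f3 : Real.log 2 < 0.6931471808 := Real.log_two_lt_d9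
        rw [abs_sub_comm, abs_of_nonneg (by linarith)]
        norm_num at f3 ⊢
        linarith
      · obtain ⟨j1, g1⟩ := nd_exists ((x.1 : ℝ) * D)
        obtain ⟨j2, g2⟩ := nd_exists ((x.2 : ℝ) * D)
        rw [g1] at c4
        rw [g2] at d4
        refine ⟨j1 - j2, ?_⟩
        have g3 : ((x.1 : ℝ) - x.2) * D - ((j1 - j2 : ℤ) : ℝ) * 1 =
            ((x.1 : ℝ) * D - j1) - ((x.2 : ℝ) * D - j2) := by push_cast; ring
        rw [g3]
        refine (abs_sub _ _).trans ?_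
        have g4 : 2 * ((x.1 : ℝ) + x.2) * (ρ / (2 * Z)) = ((x.1 : ℝ) + x.2) / Z * ρ := by
          field_simp
        rw [g4]
        have g5 : 2 ≤ ((x.1 : ℝ) + x.2) / Z := by
          rw [le_div_iff₀ hZ0]
          have : (Z : ℝ) ≤ x.1 := by exact_mod_cast a1
          have : (Z : ℝ) ≤ x.2 := by exact_mod_cast b1
          linarith
        nlinarith) hs0 hsF
  rw [hlogP] at hD3
  have e1 : s * Z * (κ₁ * L) ^ 2 / (2 * C₂) = c * Z := by
    rw [hs, hc]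
    field_simp
  rw [e1, div_one] at hD3
  have hDc : κ * (4 * Z) ≤ #D' := by
    have h4 : κ * (4 * Z) * (4 * C₃ * Z) = (c * Z) ^ 2 := by
      rw [hκd]
      field_simp
      ring
    have h5 : (#D' : ℝ) * (C₃ * (4 * Z)) = #D' * (4 * C₃ * Z) := by ring
    rw [← h4, h5] at hD3
    exact le_of_mul_le_mul_right hD3 (by positivity)
  have hfl : ⌊4 * (Z : ℝ) / 1⌋₊ = 4 * Z := by
    rw [div_one]
    exact_mod_cast Nat.floor_natCast (4 * Z)
  rw [hfl] at hD1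
  have hδe : 16 * (Z : ℝ) * (ρ / (2 * Z)) / 1 = 8 * ρ := by field_simp; ring
  rw [hδe] at hD2
  have hM4 : 4 ≤ κ * ((4 * Z : ℕ) : ℝ) := by
    push_cast
    rw [div_le_iff₀ hκ0] at hκH
    nlinarith
  have hC512 : 512 / κ ≤ max 1 (512 / κ) := le_max_right _ _
  have hCpos : 0 < max 1 (512 / κ) := lt_of_lt_of_le one_pos (le_max_left _ _)
  have hδ : 8 * ρ ≤ κ / 64 := by
    have h4 : ρ ≤ κ / 512 := by
      refine hρ1.trans ?_
      rw [div_le_div_iff₀ hCpos (by norm_num)]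
      rw [div_le_iff₀ hκ0] at hC512
      linarith
    linarith
  obtain ⟨q, hq1, hq2, hq3⟩ := vino (D / 1) κ (8 * ρ) (4 * Z) D' hD1 hκ0 hM4 (by positivity)
    hδ (by push_cast; exact hDc) hD2
  refine ⟨q, hq1, ?_, ?_⟩
  · have := hq2.trans (Nat.le_ceil _)
    exact_mod_cast this
  · rw [div_one] at hq3
    refine hq3.trans ?_
    have h4 : 8 * ρ / (κ * ((4 * Z : ℕ) : ℝ)) ≤ 8 * ρ / (κ * 1) := by
      refine div_le_div_of_nonneg_left (by positivity) (by positivity) ?_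
      refine mul_le_mul_of_nonneg_left ?_ hκ0.le
      have : 1 ≤ 4 * Z := by omega
      exact_mod_cast this
    refine h4.trans ?_
    rw [mul_one]
    calc 8 * ρ / κ = 8 / κ * ρ := by ring
      _ ≤ 512 / κ * ρ := by
          refine mul_le_mul_of_nonneg_right ?_ hρ0
          exact div_le_div_of_nonneg_right (by norm_num) hκ0.le
      _ ≤ _ := mul_le_mul_of_nonneg_right hC512 hρ0

end Pool.Agent.SV
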