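import Mathlib
import Pool.Agent.Lib.SV.TFDefs

/-!
# Theorem TF (MP_663568_nt), rows T7 and T8: random products of primes.
-/

set_option autoImplicit false
open Finset MeasureTheory

namespace Pool.Agent.SV

open Pool.Agent.Lib.MP_663568_nt Pool.Agent.Lib.MP_663568_nt.Katai
  Pool.Agent.Lib.MP_663568_nt.Nul

namespace T7x

lemma wt_nonneg {PP : Finset ℕ} (h : 1 ≤ Ls PP) (p : ℕ) : 0 ≤ wt PP p := by
  unfold wt
  have : 0 ≤ Ls PP := by linarith
  positivity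

lemma wt_sum {PP : Finset ℕ} (h : 1 ≤ Ls PP) : ∑ p ∈ PP, wt PP p = 1 := by
  have h0 : 0 < Ls PP := by linarith
  have e : ∀ p ∈ PP, wt PP p = 1 / (p : ℝ) / Ls PP := by
    intro p _
    unfold wt
    rw [div_div]
  rw [sum_congr rfl e, ← sum_div]
  exact div_self h0.ne'

lemma EP_le_one (hE : EPC_stmt) {PP : Finset ℕ} (h : 1 ≤ Ls PP) (j : ℕ) (F : ℕ → ℝ)
    (hF : ∀ n, F n ≤ 1) : EP PP j F ≤ 1 := by
  obtain ⟨hc, -, -, hm, -⟩ := hE PP h
  calc EP PP j F ≤ EP PP j (fun _ => 1) := hm j F _ fun L _ _ => hF _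
    _ = 1 := hc j 1

lemma ind_le_one (P : Prop) [Decidable P] : (if P then (1 : ℝ) else 0) ≤ 1 := by
  split_ifs <;> norm_num

end T7x

open T7x in
theorem t7 : T7_stmt := by
  intro h6 hS hP hE κ₁ κ₂ ε j
  induction j generalizing ε with
  | zero =>
    intro h1 h12 hε
    refine ⟨1, 1, le_rfl, le_rfl, 0, fun H _ _ D ρ _ _ hh => ⟨1, le_rfl, le_rfl, ?_⟩⟩
    simp only [EP] at hh
    split_ifs at hh with h
    · simpa using h
    · linarith
  | succ j ih =>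
    intro h1 h12 hε
    obtain ⟨Q, C, hQ, hC, H₁, ih⟩ := ih (ε / 2) h1 h12 (by positivity)
    have hQ0 : (0 : ℝ) < Q := by exact_mod_cast hQ
    obtain ⟨Q', C', hQ', hC', H₂, h6⟩ := h6 hS hP κ₁ κ₂ (ε / 2 / Q) h1 h12 (by positivity)
    have hC0 : 0 < C := by linarith
    have hC0' : 0 < C' := by linarith
    have hCC : 1 ≤ C' * C := by nlinarith
    refine ⟨Q' * Q, C' * C, Nat.mul_pos hQ' hQ, hCC, max H₁ H₂,
      fun H hH hL D ρ h0 hρ hh => ?_⟩
    have hHa := ih H (le_trans (le_max_left _ _) hH) hL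
    have hHb := h6 H (le_trans (le_max_right _ _) hH) hL
    set PP := PPs H κ₁ κ₂ with hPP
    have hρ1 : ρ ≤ 1 / C := by
      refine hρ.trans ?_
      apply one_div_le_one_div_of_le hC0
      nlinarith
    have hρ2 : C * ρ ≤ 1 / C' := by
      rw [le_div_iff₀ hC0']
      rw [le_div_iff₀ (by positivity)] at hρ
      nlinarith
    have key : ∀ p ∈ PP, EP PP j (fun P => if nd ((P : ℝ) * ((p : ℝ) * D)) ≤ ρ then 1 else 0) ≤
        ε / 2 + ∑ q ∈ Icc 1 Q, (if nd ((p : ℝ) * ((q : ℝ) * D)) ≤ C * ρ then (1 : ℝ) else 0) := by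
      intro p _
      rcases le_or_gt (ε / 2) (EP PP j (fun P => if nd ((P : ℝ) * ((p : ℝ) * D)) ≤ ρ
        then 1 else 0)) with h | h
      · obtain ⟨q, hq1, hqQ, hq⟩ := hHa ((p : ℝ) * D) ρ h0 hρ1 h
        have h3 : EP PP j (fun P => if nd ((P : ℝ) * ((p : ℝ) * D)) ≤ ρ then 1 else 0) ≤ 1 :=
          EP_le_one hE hL j _ fun n => ind_le_one _
        have h4 : (if nd ((p : ℝ) * ((q : ℝ) * D)) ≤ C * ρ then (1 : ℝ) else 0) ≤
            ∑ q ∈ Icc 1 Q, (if nd ((p : ℝ) * ((q : ℝ) * D)) ≤ C * ρ then (1 : ℝ) else 0) :=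
          single_le_sum (f := fun q : ℕ => if nd ((p : ℝ) * ((q : ℝ) * D)) ≤ C * ρ
            then (1 : ℝ) else 0) (fun i _ => by split_ifs <;> norm_num)
            (mem_Icc.2 ⟨hq1, hqQ⟩)
        rw [if_pos (by rw [mul_left_comm]; exact hq)] at h4
        linarith
      · have : 0 ≤ ∑ q ∈ Icc 1 Q, (if nd ((p : ℝ) * ((q : ℝ) * D)) ≤ C * ρ then (1 : ℝ) else 0) :=
          sum_nonneg fun i _ => by split_ifs <;> norm_num
        linarith
    have h5 : ε ≤ ∑ p ∈ PP, wt PP p * (ε / 2 + ∑ q ∈ Icc 1 Q,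
        (if nd ((p : ℝ) * ((q : ℝ) * D)) ≤ C * ρ then (1 : ℝ) else 0)) := by
      refine hh.trans ?_
      simp only [EP]
      refine sum_le_sum fun p hp => mul_le_mul_of_nonneg_left ?_ (wt_nonneg hL p)
      refine le_trans (le_of_eq ?_) (key p hp)
      congr 1
      funext P
      have : ((p * P : ℕ) : ℝ) * D = (P : ℝ) * ((p : ℝ) * D) := by push_cast; ring
      rw [this]
    have h6' : ∑ q ∈ Icc 1 Q, ε / 2 / (Q : ℝ) ≤ ∑ q ∈ Icc 1 Q, ∑ p ∈ PP, wt PP p *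
        (if nd ((p : ℝ) * ((q : ℝ) * D)) ≤ C * ρ then (1 : ℝ) else 0) := by
      rw [sum_const, Nat.card_Icc, Nat.add_sub_cancel, nsmul_eq_mul,
        mul_div_cancel₀ _ hQ0.ne', sum_comm]
      simp only [mul_add, sum_add_distrib, ← sum_mul, wt_sum hL, one_mul, ← mul_sum] at h5 ⊢
      linarith
    obtain ⟨q, hq, hq2⟩ := exists_le_of_sum_le ⟨1, mem_Icc.2 ⟨le_rfl, hQ⟩⟩ h6'
    obtain ⟨q', hq1', hqQ', hq'⟩ := hHb ((q : ℝ) * D) (C * ρ) (by positivity) hρ2 hq2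
    rw [mem_Icc] at hq
    refine ⟨q' * q, Nat.mul_pos hq1' hq.1, Nat.mul_le_mul hqQ' hq.2, ?_⟩
    calc nd (((q' * q : ℕ) : ℝ) * D) = nd ((q' : ℝ) * ((q : ℝ) * D)) := by
          congr 1; push_cast; ring
      _ ≤ C' * (C * ρ) := hq'
      _ = C' * C * ρ := by ring

end Pool.Agent.SV
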