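import Mathlib
import Pool.Agent.Lib.SV.TFDefs

/-!
# Theorem TF (MP_663568_nt), row T8: coincidences come from above.
-/

set_option autoImplicit false
open Finset MeasureTheory

namespace Pool.Agent.SV

open Pool.Agent.Lib.MP_663568_nt Pool.Agent.Lib.MP_663568_nt.Katai
  Pool.Agent.Lib.MP_663568_nt.Nul

namespace T8x

lemma coprime_prod (q : ℕ) : ∀ L : List ℕ, (∀ p ∈ L, Nat.Coprime p q) → Nat.Coprime L.prod q
  | [], _ => by simp
  | p :: L, h => by
    rw [List.prod_cons]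
    exact Nat.Coprime.mul_left (h p (by simp)) (coprime_prod q L fun r hr => h r (by simp [hr]))

lemma prod_le (B : ℝ) (hB : 0 ≤ B) : ∀ L : List ℕ, (∀ p ∈ L, (p : ℝ) ≤ B) →
    (L.prod : ℝ) ≤ B ^ L.length
  | [], _ => by simp
  | p :: L, h => by
    rw [List.prod_cons, List.length_cons, pow_succ, mul_comm (B ^ _), Nat.cast_mul]
    exact mul_le_mul (h p (by simp)) (prod_le B hB L fun r hr => h r (by simp [hr]))
      (Nat.cast_nonneg _) hB

end T8x

open T8x in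
theorem t8 : T8_stmt := by
  intro h7 hE κ₁ κ₂ ε j h1 h12 hj hε
  obtain ⟨Q, C, hQ, hC, H₁, h7⟩ := h7 κ₁ κ₂ ε j h1 h12 hε
  have hQ0 : (0 : ℝ) < Q := by exact_mod_cast hQ
  have hQ1 : (1 : ℝ) ≤ Q := by exact_mod_cast hQ
  have t1 := ((tendsto_rpow_atTop (y := 1 / 4) (by norm_num)).comp
    (tendsto_natCast_atTop_atTop (R := ℝ))).eventually_gt_atTop (Q * (1 + C))
  have t2 := ((tendsto_rpow_atTop h1).comp
    (tendsto_natCast_atTop_atTop (R := ℝ))).eventually_gt_atTop (Q : ℝ)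
  obtain ⟨H₂, hH₂⟩ := Filter.eventually_atTop.1 (t1.and t2)
  refine ⟨max (max H₁ H₂) 1, fun H hH hL D τ hτ0 hτ => ?_⟩
  have hHH1 : H₁ ≤ H := (le_max_left _ _).trans ((le_max_left _ _).trans hH)
  have hHH2 : H₂ ≤ H := (le_max_right _ _).trans ((le_max_left _ _).trans hH)
  have hH1 : (1 : ℝ) ≤ H := by exact_mod_cast (le_max_right _ _).trans hH
  obtain ⟨t1, t2⟩ := hH₂ H hHH2
  simp only [Function.comp] at t1 t2
  set h : ℝ := (H : ℝ) ^ (1 / 4 : ℝ) with hh
  have hH0 : (0 : ℝ) < H := by linarith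
  have hh0 : 0 < h := Real.rpow_pos_of_pos hH0 _
  have e1 : (H : ℝ) ^ (-(1 / 4) : ℝ) = 1 / h := by
    rw [Real.rpow_neg hH0.le, ← hh, one_div h]
  have e3 : h ^ 2 = (H : ℝ) ^ (1 / 2 : ℝ) := by
    rw [hh, ← Real.rpow_natCast, ← Real.rpow_mul hH0.le]
    norm_num
  have e2 : (H : ℝ) ^ (-(1 / 2) : ℝ) = 1 / h ^ 2 := by
    rw [Real.rpow_neg hH0.le, e3, one_div ((H : ℝ) ^ (1 / 2 : ℝ))]
  rw [e1]
  rw [e2] at hτ
  have hCh : C ≤ h := by nlinarith
  have h1h : 1 ≤ h := by linarith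
  rcases le_or_gt (EP (PPs H κ₁ κ₂) j (fun P => if nd ((P : ℝ) * D) ≤ τ then 1 else 0)) ε
    with hsm | hbig
  · have : (0 : ℝ) ≤ if nd D ≤ 1 / h then 1 else 0 := by split_ifs <;> norm_num
    linarith
  have hC0 : 0 < C := by linarith
  have hτC : τ ≤ 1 / C := by
    refine hτ.trans (one_div_le_one_div_of_le hC0 ?_)
    nlinarith
  obtain ⟨q, hq1, hqQ, hq⟩ := h7 H hHH1 hL D τ hτ0 hτC hbig.le
  obtain ⟨hconst, -, -, hmono, -⟩ := hE _ hL
  have hex : ∃ L : List ℕ, (∀ p ∈ L, p ∈ PPs H κ₁ κ₂) ∧ L.length = j ∧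
      nd ((L.prod : ℝ) * D) ≤ τ := by
    by_contra hcon
    push Not at hcon
    have := hmono j (fun P => if nd ((P : ℝ) * D) ≤ τ then 1 else 0) (fun _ => 0)
      (fun L hL1 hL2 => by rw [if_neg (not_le.2 (hcon L hL1 hL2))])
    rw [hconst] at this
    linarith
  obtain ⟨L, hL1, hL2, hL3⟩ := hex
  have hmem : ∀ p ∈ L, p.Prime ∧ (H : ℝ) ^ κ₁ ≤ p ∧ (p : ℝ) ≤ (H : ℝ) ^ κ₂ := by
    intro p hp
    have := hL1 p hp
    rw [PPs, mem_filter, mem_Icc] at this
    refine ⟨this.2.1, this.2.2, ?_⟩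
    exact (Nat.cast_le.2 this.1.2).trans (Nat.floor_le (Real.rpow_nonneg hH0.le _))
  have hcop : Nat.Coprime L.prod q := by
    refine coprime_prod q L fun p hp => ?_
    obtain ⟨a1, a2, -⟩ := hmem p hp
    have hqp : q < p := by
      have : (q : ℝ) < p := by
        have : (q : ℝ) ≤ Q := by exact_mod_cast hqQ
        linarith
      exact_mod_cast this
    exact Nat.coprime_of_lt_prime (by omega) hqp a1
  have hPle : (L.prod : ℝ) ≤ h := by
    refine (prod_le _ (Real.rpow_nonneg hH0.le _) L fun p hp => (hmem p hp).2.2).trans ?_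
    rw [hL2, ← Real.rpow_natCast, ← Real.rpow_mul hH0.le]
    exact Real.rpow_le_rpow_of_exponent_le hH1 hj
  set P : ℕ := L.prod with hPdef
  have hqr : (0 : ℝ) < q := by exact_mod_cast hq1
  have hqr1 : (1 : ℝ) ≤ q := by exact_mod_cast hq1
  have hqQr : (q : ℝ) ≤ Q := by exact_mod_cast hqQ
  obtain ⟨b, hb⟩ := nd_exists ((q : ℝ) * D)
  rw [hb] at hq
  have hP0 : (0 : ℝ) ≤ P := Nat.cast_nonneg _
  have hdist : |((P * b : ℤ) : ℝ) / q - (P : ℝ) * D| ≤ P * (C * τ) := by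
    have e : ((P * b : ℤ) : ℝ) / q - (P : ℝ) * D = -(P * ((q * D - b) / q)) := by
      push_cast
      field_simp
      ring
    rw [e, abs_neg, abs_mul, abs_of_nonneg hP0, abs_div, abs_of_pos hqr]
    refine mul_le_mul_of_nonneg_left ?_ hP0
    rw [div_le_iff₀ hqr]
    exact hq.trans (le_mul_of_one_le_right (by positivity) hqr1)
  have hsmall : nd (((P * b : ℤ) : ℝ) / q) < 1 / (q : ℝ) := by
    have a1 := nd_le_add_abs (((P * b : ℤ) : ℝ) / q) ((P : ℝ) * D)
    have a2 : τ + P * (C * τ) ≤ (1 + C) / h := by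
      have b1 : P * (C * τ) ≤ h * (C * (1 / h ^ 2)) := by gcongr
      have b2 : h * (C * (1 / h ^ 2)) = C / h := by field_simp
      have b3 : 1 / h ^ 2 ≤ 1 / h := one_div_le_one_div_of_le hh0 (by nlinarith)
      rw [add_div]
      linarith
    have a3 : (1 + C) / h < 1 / Q := by
      rw [div_lt_div_iff₀ hh0 hQ0]
      linarith
    have a4 : 1 / (Q : ℝ) ≤ 1 / q := one_div_le_one_div_of_le hqr hqQr
    linarith
  have hdvd : (q : ℤ) ∣ P * b := by
    by_contra hcon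
    have := le_nd_div q (by omega) _ hcon
    linarith
  have hdvd2 : (q : ℤ) ∣ b := by
    refine IsCoprime.dvd_of_dvd_mul_left ?_ hdvd
    exact (Nat.isCoprime_iff_coprime.2 hcop).symm
  obtain ⟨c, hc⟩ := hdvd2
  have hfin : nd D ≤ 1 / h := by
    calc nd D ≤ |D - c| := nd_le D c
      _ = |(q * D - b) / q| := by
          congr 1
          rw [hc]; push_cast; field_simp
      _ = |q * D - b| / q := by rw [abs_div, abs_of_pos hqr]
      _ ≤ C * τ := by
          rw [div_le_iff₀ hqr]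
          exact hq.trans (le_mul_of_one_le_right (by positivity) hqr1)
      _ ≤ h * (1 / h ^ 2) := by gcongr
      _ = 1 / h := by field_simp
  rw [if_pos hfin]
  have : EP (PPs H κ₁ κ₂) j (fun P => if nd ((P : ℝ) * D) ≤ τ then 1 else 0) ≤ 1 := by
    calc EP (PPs H κ₁ κ₂) j (fun P => if nd ((P : ℝ) * D) ≤ τ then 1 else 0) ≤
        EP (PPs H κ₁ κ₂) j (fun _ => 1) := hmono j _ _ fun L _ _ => by
          split_ifs <;> norm_num
      _ = 1 := hconst j 1
  linarith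

end Pool.Agent.SV
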