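import Mathlib
import Pool.Agent.Lib.SV.TFDefs
import Pool.Agent.Lib.SV.RC

/-!
# Theorem TF (MP_663568_nt), row T9: one prime, one interval.  (helper21)
-/

set_option autoImplicit false
open Finset MeasureTheory

namespace Pool.Agent.SV

open Pool.Agent.Lib.MP_663568_nt Pool.Agent.Lib.MP_663568_nt.Katai
  Pool.Agent.Lib.MP_663568_nt.Nul

namespace T9x

noncomputable section

/-- The Fourier transform of the law of `θ` with the weight `W`. -/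
def ft (μ : Measure ℝ) (W θ : ℝ → ℝ) (m : ℝ) : ℂ := ∫ x, (W x : ℂ) * ee (m * θ x) ∂μ

variable {μ : Measure ℝ} [IsFiniteMeasure μ] {W θ : ℝ → ℝ} {r : ℝ}

lemma meas_ee (hθ : Measurable θ) (m : ℝ) : Measurable fun x => ee (m * θ x) :=
  continuous_ee.measurable.comp (hθ.const_mul m)

lemma meas_Wee (hW : Measurable W) (hθ : Measurable θ) (m : ℝ) :
    Measurable fun x => (W x : ℂ) * ee (m * θ x) :=
  (Complex.measurable_ofReal.comp hW).mul (meas_ee hθ m)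

lemma norm_Wee (hW0 : ∀ x, 0 ≤ W x) (hW1 : ∀ x, W x ≤ 1) (m x : ℝ) :
    ‖(W x : ℂ) * ee (m * θ x)‖ ≤ 1 := by
  rw [norm_mul, norm_ee, mul_one, Complex.norm_real, Real.norm_of_nonneg (hW0 x)]
  exact hW1 x

lemma int_Wee (hW : Measurable W) (hθ : Measurable θ) (hW0 : ∀ x, 0 ≤ W x) (hW1 : ∀ x, W x ≤ 1)
    (m : ℝ) : Integrable (fun x => (W x : ℂ) * ee (m * θ x)) μ :=
  Integrable.of_bound (meas_Wee hW hθ m).aestronglyMeasurable 1
    (Filter.Eventually.of_forall fun x => norm_Wee hW0 hW1 m x)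

lemma norm_ft_le (hW0 : ∀ x, 0 ≤ W x) (hW1 : ∀ x, W x ≤ 1) (hr : μ.real Set.univ ≤ r) (m : ℝ) :
    ‖ft μ W θ m‖ ≤ r := by
  refine (norm_integral_le_of_norm_le_const (C := 1)
    (Filter.Eventually.of_forall fun x => norm_Wee hW0 hW1 m x)).trans ?_
  rw [one_mul]
  exact hr

omit [IsFiniteMeasure μ] in
lemma ft_neg (m : ℝ) : ft μ W θ (-m) = (starRingEnd ℂ) (ft μ W θ m) := by
  unfold ft
  rw [← integral_conj]
  refine integral_congr_ae (Filter.Eventually.of_forall fun x => ?_)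
  simp only [map_mul, Complex.conj_ofReal, conj_ee, neg_mul]

omit [IsFiniteMeasure μ] in
lemma norm_ft_neg (m : ℝ) : ‖ft μ W θ (-m)‖ = ‖ft μ W θ m‖ := by
  rw [ft_neg, Complex.norm_conj]

/-- Duality. -/
lemma duality (hW : Measurable W) (hθ : Measurable θ) (hW0 : ∀ x, 0 ≤ W x) (hW1 : ∀ x, W x ≤ 1)
    (hr : μ.real Set.univ ≤ r) (S : Finset ℕ) :
    (∑ p ∈ S, ‖ft μ W θ p‖) ^ 2 ≤ r * ∑ p ∈ S, ∑ p' ∈ S, ‖ft μ W θ ((p : ℝ) - p')‖ := by
  set ω : ℕ → ℂ := fun p => (starRingEnd ℂ) (ft μ W θ p) / ‖ft μ W θ p‖ with hω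
  have hω1 : ∀ p, ‖ω p‖ ≤ 1 := by
    intro p
    rw [hω]
    simp only
    rw [norm_div, Complex.norm_conj, Complex.norm_real, norm_norm]
    exact div_self_le_one _
  have hω2 : ∀ p, ω p * ft μ W θ p = (‖ft μ W θ p‖ : ℂ) := by
    intro p
    by_cases h : ft μ W θ p = 0
    · rw [h]; simp
    · have h1 : (‖ft μ W θ p‖ : ℂ) ≠ 0 := by
        exact_mod_cast norm_ne_zero_iff.2 h
      rw [hω]
      simp only
      rw [div_mul_eq_mul_div, mul_comm, Complex.mul_conj, div_eq_iff h1,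
        Complex.normSq_eq_norm_sq]
      push_cast
      ring
  set g : ℝ → ℂ := fun x => ∑ p ∈ S, ω p * ee (p * θ x) with hg
  have hgm : Measurable g := by
    rw [hg]
    exact Finset.measurable_sum _ fun p _ => (meas_ee hθ p).const_mul _
  have hgb : ∀ x, ‖g x‖ ≤ #S := by
    intro x
    rw [hg]
    calc _ ≤ ∑ p ∈ S, ‖ω p * ee (p * θ x)‖ := norm_sum_le _ _
      _ ≤ ∑ _p ∈ S, (1 : ℝ) := sum_le_sum fun p _ => by rw [norm_mul, norm_ee, mul_one]; exact hω1 p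
      _ = #S := by simp
  have hWi : Integrable W μ := Integrable.of_bound hW.aestronglyMeasurable 1
    (Filter.Eventually.of_forall fun x => by rw [Real.norm_of_nonneg (hW0 x)]; exact hW1 x)
  have hWg : Integrable (fun x => W x * ‖g x‖) μ :=
    Integrable.of_bound (hW.mul hgm.norm).aestronglyMeasurable (#S)
      (Filter.Eventually.of_forall fun x => by
        rw [Real.norm_of_nonneg (mul_nonneg (hW0 x) (norm_nonneg _))]
        calc W x * ‖g x‖ ≤ 1 * #S := mul_le_mul (hW1 x) (hgb x) (norm_nonneg _) zero_le_one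
          _ = #S := one_mul _)
  have hWg2 : Integrable (fun x => W x * ‖g x‖ ^ 2) μ :=
    Integrable.of_bound (hW.mul (hgm.norm.pow_const 2)).aestronglyMeasurable ((#S : ℝ) ^ 2)
      (Filter.Eventually.of_forall fun x => by
        rw [Real.norm_of_nonneg (mul_nonneg (hW0 x) (by positivity))]
        calc W x * ‖g x‖ ^ 2 ≤ 1 * (#S : ℝ) ^ 2 :=
              mul_le_mul (hW1 x) (pow_le_pow_left₀ (norm_nonneg _) (hgb x) 2) (by positivity)
                zero_le_one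
          _ = (#S : ℝ) ^ 2 := one_mul _)
  -- the sum is at most `∫ W |g|`
  have h1 : ∑ p ∈ S, ‖ft μ W θ p‖ ≤ ∫ x, W x * ‖g x‖ ∂μ := by
    have e1 : ((∑ p ∈ S, ‖ft μ W θ p‖ : ℝ) : ℂ) = ∫ x, (W x : ℂ) * g x ∂μ := by
      have e2 : ∀ x, (W x : ℂ) * g x = ∑ p ∈ S, ω p * ((W x : ℂ) * ee (p * θ x)) := by
        intro x
        rw [hg]
        simp only
        rw [mul_sum]
        exact sum_congr rfl fun p _ => by ring
      have hi : ∀ p ∈ S, Integrable (fun x => ω p * ((W x : ℂ) * ee ((p : ℝ) * θ x))) μ :=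
        fun p _ => (int_Wee hW hθ hW0 hW1 _).const_mul _
      simp_rw [e2]
      rw [integral_finsetSum _ hi]
      push_cast
      refine sum_congr rfl fun p _ => ?_
      rw [integral_const_mul, ← hω2 p]
      rfl
    have e3 : ∑ p ∈ S, ‖ft μ W θ p‖ = ‖((∑ p ∈ S, ‖ft μ W θ p‖ : ℝ) : ℂ)‖ := by
      rw [Complex.norm_real, Real.norm_of_nonneg (sum_nonneg fun _ _ => norm_nonneg _)]
    rw [e3, e1]
    refine (norm_integral_le_integral_norm _).trans (le_of_eq ?_)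
    refine integral_congr_ae (Filter.Eventually.of_forall fun x => ?_)
    simp only
    rw [norm_mul, Complex.norm_real, Real.norm_of_nonneg (hW0 x)]
  -- Cauchy
  have h2 : (∫ x, W x * ‖g x‖ ∂μ) ^ 2 ≤ (∫ x, W x ∂μ) * ∫ x, W x * ‖g x‖ ^ 2 ∂μ := by
    have hq : ∀ t : ℝ, 0 ≤ (∫ x, W x ∂μ) * (t * t) + (-2 * ∫ x, W x * ‖g x‖ ∂μ) * t +
        ∫ x, W x * ‖g x‖ ^ 2 ∂μ := by
      intro t
      have e1 : 0 ≤ ∫ x, W x * (t - ‖g x‖) ^ 2 ∂μ :=
        integral_nonneg fun x => mul_nonneg (hW0 x) (by positivity)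
      have e2 : ∀ x, W x * (t - ‖g x‖) ^ 2 =
          ((t * t) * W x + (-2 * t) * (W x * ‖g x‖)) + W x * ‖g x‖ ^ 2 := fun x => by ring
      have i1 : Integrable (fun x => (t * t) * W x) μ := hWi.const_mul _
      have i2 : Integrable (fun x => (-2 * t) * (W x * ‖g x‖)) μ := hWg.const_mul _
      have i3 : Integrable (fun x => (t * t) * W x + (-2 * t) * (W x * ‖g x‖)) μ := i1.add i2
      have e3 : ∫ x, W x * (t - ‖g x‖) ^ 2 ∂μ = (t * t) * (∫ x, W x ∂μ) +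
          (-2 * t) * (∫ x, W x * ‖g x‖ ∂μ) + ∫ x, W x * ‖g x‖ ^ 2 ∂μ := by
        simp_rw [e2]
        rw [integral_add i3 hWg2, integral_add i1 i2, integral_const_mul, integral_const_mul]
      rw [e3] at e1
      linarith
    have h3 := discrim_le_zero hq
    rw [discrim] at h3
    nlinarith
  -- the quadratic form
  have h3 : ∫ x, W x * ‖g x‖ ^ 2 ∂μ ≤ ∑ p ∈ S, ∑ p' ∈ S, ‖ft μ W θ ((p : ℝ) - p')‖ := by
    have e1 : ((∫ x, W x * ‖g x‖ ^ 2 ∂μ : ℝ) : ℂ) =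
        ∑ p ∈ S, ∑ p' ∈ S, ω p * (starRingEnd ℂ) (ω p') * ft μ W θ ((p : ℝ) - p') := by
      rw [← integral_complex_ofReal]
      have e2 : ∀ x, ((W x * ‖g x‖ ^ 2 : ℝ) : ℂ) = ∑ p ∈ S, ∑ p' ∈ S,
          ω p * (starRingEnd ℂ) (ω p') * ((W x : ℂ) * ee (((p : ℝ) - p') * θ x)) := by
        intro x
        have e3 : ((‖g x‖ ^ 2 : ℝ) : ℂ) = g x * (starRingEnd ℂ) (g x) := by
          rw [Complex.mul_conj, Complex.normSq_eq_norm_sq]
        rw [Complex.ofReal_mul, e3, hg]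
        simp only
        rw [map_sum, sum_mul_sum, mul_sum]
        refine sum_congr rfl fun p _ => ?_
        rw [mul_sum]
        refine sum_congr rfl fun p' _ => ?_
        rw [map_mul, conj_ee, sub_mul, sub_eq_add_neg, ee_add]
        ring
      simp_rw [e2]
      have hi : ∀ p p' : ℕ, Integrable (fun x => ω p * (starRingEnd ℂ) (ω p') *
          ((W x : ℂ) * ee (((p : ℝ) - p') * θ x))) μ := fun p p' =>
        (int_Wee hW hθ hW0 hW1 _).const_mul _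
      rw [integral_finsetSum _ fun p _ => integrable_finsetSum _ fun p' _ => hi p p']
      refine sum_congr rfl fun p _ => ?_
      rw [integral_finsetSum _ fun p' _ => hi p p']
      refine sum_congr rfl fun p' _ => ?_
      rw [integral_const_mul]
      rfl
    have e4 : ∫ x, W x * ‖g x‖ ^ 2 ∂μ = ‖((∫ x, W x * ‖g x‖ ^ 2 ∂μ : ℝ) : ℂ)‖ := by
      rw [Complex.norm_real, Real.norm_of_nonneg
        (integral_nonneg fun x => mul_nonneg (hW0 x) (by positivity))]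
    rw [e4, e1]
    refine (norm_sum_le _ _).trans (sum_le_sum fun p _ => (norm_sum_le _ _).trans
      (sum_le_sum fun p' _ => ?_))
    rw [norm_mul, norm_mul, Complex.norm_conj]
    calc ‖ω p‖ * ‖ω p'‖ * ‖ft μ W θ ((p : ℝ) - p')‖ ≤ 1 * 1 * ‖ft μ W θ ((p : ℝ) - p')‖ :=
          mul_le_mul_of_nonneg_right (mul_le_mul (hω1 p) (hω1 p') (norm_nonneg _) zero_le_one)
            (norm_nonneg _)
      _ = _ := by ring
  have h4 : ∫ x, W x ∂μ ≤ r := by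
    calc ∫ x, W x ∂μ ≤ ∫ _x, (1 : ℝ) ∂μ :=
          integral_mono hWi (integrable_const _) fun x => hW1 x
      _ = μ.real Set.univ := by simp
      _ ≤ r := hr
  have h5 : 0 ≤ ∫ x, W x * ‖g x‖ ^ 2 ∂μ :=
    integral_nonneg fun x => mul_nonneg (hW0 x) (by positivity)
  have h6 : 0 ≤ r := le_trans (by positivity) hr
  calc (∑ p ∈ S, ‖ft μ W θ p‖) ^ 2 ≤ (∫ x, W x * ‖g x‖ ∂μ) ^ 2 :=
        pow_le_pow_left₀ (sum_nonneg fun _ _ => norm_nonneg _) h1 2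
    _ ≤ (∫ x, W x ∂μ) * ∫ x, W x * ‖g x‖ ^ 2 ∂μ := h2
    _ ≤ r * ∫ x, W x * ‖g x‖ ^ 2 ∂μ := mul_le_mul_of_nonneg_right h4 h5
    _ ≤ _ := mul_le_mul_of_nonneg_left h3 h6

/-- The double integral of the Fejér kernel. -/
lemma double (hW : Measurable W) (hθ : Measurable θ) (hW0 : ∀ x, 0 ≤ W x) (hW1 : ∀ x, W x ≤ 1)
    (n : ℕ) :
    ∫ z, W z.1 * W z.2 * ‖∑ m ∈ Icc 1 n, ee ((θ z.1 - θ z.2) * m)‖ ^ 2 ∂(μ.prod μ) =
      ∑ m ∈ Icc 1 n, ∑ m' ∈ Icc 1 n, ‖ft μ W θ ((m : ℝ) - m')‖ ^ 2 := by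
  have e0 : ∀ a b : ℝ, ((a : ℂ) = (b : ℂ)) → a = b := fun a b h => by exact_mod_cast h
  apply e0
  rw [← integral_complex_ofReal]
  have e2 : ∀ z : ℝ × ℝ, ((W z.1 * W z.2 * ‖∑ m ∈ Icc 1 n, ee ((θ z.1 - θ z.2) * m)‖ ^ 2 : ℝ) : ℂ) =
      ∑ m ∈ Icc 1 n, ∑ m' ∈ Icc 1 n, ((W z.1 : ℂ) * ee (((m : ℝ) - m') * θ z.1)) *
        ((W z.2 : ℂ) * ee ((-((m : ℝ) - m')) * θ z.2)) := by
    intro z
    have e3 : ((‖∑ m ∈ Icc 1 n, ee ((θ z.1 - θ z.2) * m)‖ ^ 2 : ℝ) : ℂ) =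
        (∑ m ∈ Icc 1 n, ee ((θ z.1 - θ z.2) * m)) *
          (starRingEnd ℂ) (∑ m ∈ Icc 1 n, ee ((θ z.1 - θ z.2) * m)) := by
      rw [Complex.mul_conj, Complex.normSq_eq_norm_sq]
    rw [Complex.ofReal_mul, Complex.ofReal_mul, e3, map_sum, sum_mul_sum, mul_sum]
    refine sum_congr rfl fun m _ => ?_
    rw [mul_sum]
    refine sum_congr rfl fun m' _ => ?_
    rw [conj_ee]
    have e4 : ee ((θ z.1 - θ z.2) * m) * ee (-((θ z.1 - θ z.2) * m')) =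
        ee (((m : ℝ) - m') * θ z.1) * ee ((-((m : ℝ) - m')) * θ z.2) := by
      rw [← ee_add, ← ee_add]
      congr 1
      ring
    calc (W z.1 : ℂ) * (W z.2 : ℂ) * (ee ((θ z.1 - θ z.2) * m) * ee (-((θ z.1 - θ z.2) * m')))
        = (W z.1 : ℂ) * (W z.2 : ℂ) * (ee (((m : ℝ) - m') * θ z.1) *
          ee ((-((m : ℝ) - m')) * θ z.2)) := by rw [e4]
      _ = _ := by ring
  simp_rw [e2]
  have hi : ∀ m m' : ℕ, Integrable (fun z : ℝ × ℝ => ((W z.1 : ℂ) * ee (((m : ℝ) - m') * θ z.1)) *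
        ((W z.2 : ℂ) * ee ((-((m : ℝ) - m')) * θ z.2))) (μ.prod μ) := fun m m' =>
    (int_Wee (μ := μ) hW hθ hW0 hW1 _).mul_prod (int_Wee (μ := μ) hW hθ hW0 hW1 _)
  rw [integral_finsetSum _ fun m _ => integrable_finsetSum _ fun m' _ => hi m m']
  push_cast
  refine sum_congr rfl fun m _ => ?_
  rw [integral_finsetSum _ fun m' _ => hi m m']
  refine sum_congr rfl fun m' _ => ?_
  rw [integral_prod_mul (μ := μ) (ν := μ) (fun x => (W x : ℂ) * ee (((m : ℝ) - m') * θ x))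
    (fun x => (W x : ℂ) * ee ((-((m : ℝ) - m')) * θ x))]
  change ft μ W θ ((m : ℝ) - m') * ft μ W θ (-((m : ℝ) - m')) = _
  rw [ft_neg, Complex.mul_conj, Complex.normSq_eq_norm_sq]
  push_cast
  rfl

omit [IsFiniteMeasure μ] in
lemma dir_le (x : ℝ) (n : ℕ) : ‖∑ m ∈ Icc 1 n, ee (x * m)‖ ≤ n := by
  calc _ ≤ ∑ m ∈ Icc 1 n, ‖ee (x * m)‖ := norm_sum_le _ _
    _ = n := by simp [norm_ee]

/-- Large Fourier coefficients imply coincidences. -/
lemma fejer (hW : Measurable W) (hθ : Measurable θ) (hW0 : ∀ x, 0 ≤ W x) (hW1 : ∀ x, W x ≤ 1)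
    (hr : μ.real Set.univ ≤ r) (Z : ℕ) (δ : ℝ) (hδ : 0 < δ) :
    Z * ∑ d ∈ Icc 1 Z, ‖ft μ W θ d‖ ^ 2 ≤ 4 * (Z : ℝ) ^ 2 *
      (∫ z, W z.1 * W z.2 * (if nd (θ z.1 - θ z.2) ≤ δ then 1 else 0) ∂(μ.prod μ)) +
        r ^ 2 / (4 * δ ^ 2) := by
  have h6 : 0 ≤ r := le_trans (by positivity) hr
  have hms : MeasurableSet {z : ℝ × ℝ | nd (θ z.1 - θ z.2) ≤ δ} :=
    measurableSet_le (continuous_nd.measurable.comp
      ((hθ.comp measurable_fst).sub (hθ.comp measurable_snd))) measurable_const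
  have hWW : Measurable fun z : ℝ × ℝ => W z.1 * W z.2 :=
    (hW.comp measurable_fst).mul (hW.comp measurable_snd)
  have hWW0 : ∀ z : ℝ × ℝ, 0 ≤ W z.1 * W z.2 := fun z => mul_nonneg (hW0 _) (hW0 _)
  have hWW1 : ∀ z : ℝ × ℝ, W z.1 * W z.2 ≤ 1 := fun z =>
    (mul_le_mul (hW1 _) (hW1 _) (hW0 _) zero_le_one).trans (by norm_num)
  have hI1 : Integrable (fun z : ℝ × ℝ => W z.1 * W z.2 *
      (if nd (θ z.1 - θ z.2) ≤ δ then 1 else 0)) (μ.prod μ) := by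
    refine Integrable.of_bound (hWW.mul (Measurable.ite hms measurable_const
      measurable_const)).aestronglyMeasurable 1 (Filter.Eventually.of_forall fun z => ?_)
    rw [norm_mul, Real.norm_of_nonneg (hWW0 z)]
    split_ifs
    · simpa using hWW1 z
    · simp
  have hI2 : Integrable (fun z : ℝ × ℝ => W z.1 * W z.2) (μ.prod μ) :=
    Integrable.of_bound hWW.aestronglyMeasurable 1 (Filter.Eventually.of_forall fun z => by
      rw [Real.norm_of_nonneg (hWW0 z)]; exact hWW1 z)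
  have hI3 : Integrable (fun z : ℝ × ℝ => W z.1 * W z.2 *
      ‖∑ m ∈ Icc 1 (2 * Z), ee ((θ z.1 - θ z.2) * m)‖ ^ 2) (μ.prod μ) := by
    have hm : Measurable fun z : ℝ × ℝ => ∑ m ∈ Icc 1 (2 * Z), ee ((θ z.1 - θ z.2) * m) :=
      Finset.measurable_sum _ fun m _ => continuous_ee.measurable.comp
        (((hθ.comp measurable_fst).sub (hθ.comp measurable_snd)).mul_const _)
    refine Integrable.of_bound (hWW.mul (hm.norm.pow_const 2)).aestronglyMeasurable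
      (((2 * Z : ℕ) : ℝ) ^ 2) (Filter.Eventually.of_forall fun z => ?_)
    rw [Real.norm_of_nonneg (mul_nonneg (hWW0 z) (by positivity))]
    calc W z.1 * W z.2 * ‖∑ m ∈ Icc 1 (2 * Z), ee ((θ z.1 - θ z.2) * m)‖ ^ 2 ≤
        1 * ((2 * Z : ℕ) : ℝ) ^ 2 :=
          mul_le_mul (hWW1 z) (pow_le_pow_left₀ (norm_nonneg _) (dir_le _ _) 2) (by positivity)
            zero_le_one
      _ = _ := one_mul _
  -- pointwise
  have hpt : ∀ z : ℝ × ℝ, W z.1 * W z.2 * ‖∑ m ∈ Icc 1 (2 * Z), ee ((θ z.1 - θ z.2) * m)‖ ^ 2 ≤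
      4 * (Z : ℝ) ^ 2 * (W z.1 * W z.2 * (if nd (θ z.1 - θ z.2) ≤ δ then 1 else 0)) +
        1 / (4 * δ ^ 2) * (W z.1 * W z.2) := by
    intro z
    have hb : ‖∑ m ∈ Icc 1 (2 * Z), ee ((θ z.1 - θ z.2) * m)‖ ^ 2 ≤
        4 * (Z : ℝ) ^ 2 * (if nd (θ z.1 - θ z.2) ≤ δ then 1 else 0) + 1 / (4 * δ ^ 2) := by
      split_ifs with h
      · have h1 := pow_le_pow_left₀ (norm_nonneg _) (dir_le (θ z.1 - θ z.2) (2 * Z)) 2
        have h2 : 0 ≤ 1 / (4 * δ ^ 2) := by positivity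
        push_cast at h1
        nlinarith
      · have h1 := pow_le_pow_left₀ (norm_nonneg _)
          (RCx.geom_le (θ z.1 - θ z.2) δ hδ (not_le.1 h).le (2 * Z)) 2
        refine h1.trans (le_of_eq ?_)
        rw [mul_zero, zero_add, div_pow, mul_pow]
        norm_num
    calc _ ≤ W z.1 * W z.2 * (4 * (Z : ℝ) ^ 2 * (if nd (θ z.1 - θ z.2) ≤ δ then 1 else 0) +
          1 / (4 * δ ^ 2)) := mul_le_mul_of_nonneg_left hb (hWW0 z)
      _ = _ := by ring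
  have hup : ∫ z, W z.1 * W z.2 * ‖∑ m ∈ Icc 1 (2 * Z), ee ((θ z.1 - θ z.2) * m)‖ ^ 2
      ∂(μ.prod μ) ≤ 4 * (Z : ℝ) ^ 2 *
      (∫ z, W z.1 * W z.2 * (if nd (θ z.1 - θ z.2) ≤ δ then 1 else 0) ∂(μ.prod μ)) +
        r ^ 2 / (4 * δ ^ 2) := by
    have hj := integral_mono hI3 ((hI1.const_mul (4 * (Z : ℝ) ^ 2)).add
      (hI2.const_mul (1 / (4 * δ ^ 2)))) hpt
    have hk : ∫ z, W z.1 * W z.2 ∂(μ.prod μ) ≤ r ^ 2 := by
      rw [integral_prod_mul (μ := μ) (ν := μ) W W]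
      have hWi : Integrable W μ := Integrable.of_bound hW.aestronglyMeasurable 1
        (Filter.Eventually.of_forall fun x => by rw [Real.norm_of_nonneg (hW0 x)]; exact hW1 x)
      have h4 : ∫ x, W x ∂μ ≤ r := by
        calc ∫ x, W x ∂μ ≤ ∫ _x, (1 : ℝ) ∂μ :=
              integral_mono hWi (integrable_const _) fun x => hW1 x
          _ = μ.real Set.univ := by simp
          _ ≤ r := hr
      have h5 : 0 ≤ ∫ x, W x ∂μ := integral_nonneg hW0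
      nlinarith
    refine hj.trans ?_
    have e : ∫ z, (4 * (Z : ℝ) ^ 2 * (W z.1 * W z.2 *
        (if nd (θ z.1 - θ z.2) ≤ δ then 1 else 0)) +
        1 / (4 * δ ^ 2) * (W z.1 * W z.2)) ∂(μ.prod μ) = 4 * (Z : ℝ) ^ 2 *
        (∫ z, W z.1 * W z.2 * (if nd (θ z.1 - θ z.2) ≤ δ then 1 else 0) ∂(μ.prod μ)) +
        1 / (4 * δ ^ 2) * ∫ z, W z.1 * W z.2 ∂(μ.prod μ) := by
      rw [integral_add (hI1.const_mul _) (hI2.const_mul _), integral_const_mul,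
        integral_const_mul]
    have hk2 : 1 / (4 * δ ^ 2) * ∫ z, W z.1 * W z.2 ∂(μ.prod μ) ≤ r ^ 2 / (4 * δ ^ 2) := by
      calc _ ≤ 1 / (4 * δ ^ 2) * r ^ 2 := mul_le_mul_of_nonneg_left hk (by positivity)
        _ = _ := by ring
    refine (le_of_eq e).trans ?_
    linarith
  rw [double hW hθ hW0 hW1 (2 * Z)] at hup
  refine le_trans ?_ hup
  -- the pairs `(m + d, m)`
  rw [← sum_product', ← nsmul_eq_mul]
  have hcard : (Z : ℕ) • ∑ d ∈ Icc 1 Z, ‖ft μ W θ d‖ ^ 2 =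
      ∑ x ∈ Icc 1 Z ×ˢ Icc 1 Z, ‖ft μ W θ (((x.1 + x.2 : ℕ) : ℝ) - x.2)‖ ^ 2 := by
    rw [sum_product_right]
    have e1 : ∀ m ∈ Icc 1 Z, ∑ d ∈ Icc 1 Z, ‖ft μ W θ (((d + m : ℕ) : ℝ) - m)‖ ^ 2 =
        ∑ d ∈ Icc 1 Z, ‖ft μ W θ d‖ ^ 2 := by
      intro m _
      refine sum_congr rfl fun d _ => ?_
      congr 3
      push_cast
      ring
    rw [sum_congr rfl e1, sum_const, Nat.card_Icc]
    simp
  rw [hcard]
  have hinj : Set.InjOn (fun x : ℕ × ℕ => (x.1 + x.2, x.2)) ((Icc 1 Z ×ˢ Icc 1 Z : Finset (ℕ × ℕ)) : Set (ℕ × ℕ)) := by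
    rintro ⟨a, b⟩ _ ⟨c, d⟩ _ h
    simp only [Prod.mk.injEq] at h ⊢
    omega
  rw [← sum_image (f := fun y : ℕ × ℕ => ‖ft μ W θ ((y.1 : ℝ) - y.2)‖ ^ 2)
    (g := fun x : ℕ × ℕ => (x.1 + x.2, x.2)) hinj]
  refine sum_le_sum_of_subset_of_nonneg ?_ fun _ _ _ => by positivity
  intro y hy
  rw [mem_image] at hy
  obtain ⟨x, hx, rfl⟩ := hy
  rw [mem_product, mem_Icc, mem_Icc] at hx
  rw [mem_product, mem_Icc, mem_Icc]
  simp only
  omega

open Classical in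
/-- The differences of the primes of a block. -/
lemma offdiag {C₂ : ℝ}
    (h2 : ∀ (P : ℝ) (X d : ℕ), 2 ≤ P → P ≤ X → 1 ≤ d →
      (#((Icc 1 X).filter fun n : ℕ => ∀ r : ℕ, r.Prime → r ∣ n * (n + d) → P ≤ r) : ℝ) ≤
      C₂ * X / (Real.log P) ^ 2 * ((d : ℝ) / Nat.totient d) ^ 2)
    (f : ℝ → ℝ) (hf : ∀ x, 0 ≤ f x) (hev : ∀ x, f (-x) = f x) (Z : ℕ) (hZ : 2 ≤ Z) (S : Finset ℕ)
    (hS : ∀ p ∈ S, p.Prime ∧ Z ≤ p ∧ p < 2 * Z) :
    ∑ p ∈ S, ∑ p' ∈ S, f ((p : ℝ) - p') ≤ Z * f 0 +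
      4 * C₂ * Z / (Real.log Z) ^ 2 * ∑ d ∈ Icc 1 Z, ((d : ℝ) / Nat.totient d) ^ 2 * f d := by
  have hpt : ∀ p ∈ S, ∀ p' ∈ S, f ((p : ℝ) - p') ≤ (if p = p' then f 0 else 0) +
      (∑ d ∈ Icc 1 Z, (if p' + d = p then f d else 0) +
        ∑ d ∈ Icc 1 Z, (if p + d = p' then f d else 0)) := by
    intro p hp p' hp'
    have n1 : ∀ a b : ℕ, ∀ d ∈ Icc 1 Z, 0 ≤ (if a + d = b then f d else 0) := by
      intro a b d _
      split_ifs
      · exact hf _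
      · exact le_rfl
    have n2 : ∀ a b : ℕ, 0 ≤ ∑ d ∈ Icc 1 Z, (if a + d = b then f d else 0) := fun a b =>
      sum_nonneg (n1 a b)
    rcases lt_trichotomy p p' with h | h | h
    · have hd : p' - p ∈ Icc 1 Z := by
        rw [mem_Icc]
        have a1 := (hS p hp).2.1
        have a2 := (hS p' hp').2.2
        omega
      have h1 := single_le_sum (n1 p p') hd
      have h4 : p + (p' - p) = p' := by omega
      simp only [h4, if_true] at h1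
      have e : f ((p : ℝ) - p') = f ((p' - p : ℕ) : ℝ) := by
        rw [Nat.cast_sub h.le, ← hev]
        congr 1
        ring
      rw [e, if_neg h.ne, zero_add]
      have := n2 p' p
      linarith
    · subst h
      simp only [sub_self, if_true]
      have := n2 p p
      linarith
    · have hd : p - p' ∈ Icc 1 Z := by
        rw [mem_Icc]
        have a1 := (hS p' hp').2.1
        have a2 := (hS p hp).2.2
        omega
      have h1 := single_le_sum (n1 p' p) hd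
      have h4 : p' + (p - p') = p := by omega
      simp only [h4, if_true] at h1
      have e : f ((p : ℝ) - p') = f ((p - p' : ℕ) : ℝ) := by
        rw [Nat.cast_sub h.le]
      rw [e, if_neg h.ne', zero_add]
      have := n2 p p'
      linarith
  have hG : ∑ a ∈ S, ∑ b ∈ S, ∑ d ∈ Icc 1 Z, (if a + d = b then f d else 0) ≤
      ∑ d ∈ Icc 1 Z, C₂ * ((2 * Z : ℕ) : ℝ) / (Real.log Z) ^ 2 *
        ((d : ℝ) / Nat.totient d) ^ 2 * f d := by
    have e1 : ∑ a ∈ S, ∑ b ∈ S, ∑ d ∈ Icc 1 Z, (if a + d = b then f d else 0) =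
        ∑ d ∈ Icc 1 Z, ∑ a ∈ S, (if a + d ∈ S then f d else 0) := by
      rw [sum_comm (s := Icc 1 Z) (t := S)]
      refine sum_congr rfl fun a _ => ?_
      rw [sum_comm]
      refine sum_congr rfl fun d _ => ?_
      rw [sum_ite_eq]
    rw [e1]
    refine sum_le_sum fun d hd => ?_
    rw [← sum_filter, sum_const, nsmul_eq_mul]
    refine mul_le_mul_of_nonneg_right ?_ (hf _)
    have hsub : S.filter (fun a => a + d ∈ S) ⊆ (Icc 1 (2 * Z)).filter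
        fun n : ℕ => ∀ r : ℕ, r.Prime → r ∣ n * (n + d) → (Z : ℝ) ≤ r := by
      intro n hn
      obtain ⟨hn1, hn2⟩ := mem_filter.1 hn
      rw [mem_filter, mem_Icc]
      obtain ⟨a1, a2, a3⟩ := hS n hn1
      obtain ⟨b1, b2, b3⟩ := hS _ hn2
      refine ⟨⟨a1.one_lt.le, by omega⟩, fun r hr hrd => ?_⟩
      rcases (hr.dvd_mul).1 hrd with h | h
      · rw [(Nat.prime_dvd_prime_iff_eq hr a1).1 h]
        exact_mod_cast a2
      · rw [(Nat.prime_dvd_prime_iff_eq hr b1).1 h]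
        exact_mod_cast b2
    calc (#(S.filter (fun a => a + d ∈ S)) : ℝ) ≤ _ := by exact_mod_cast card_le_card hsub
      _ ≤ _ := h2 (Z : ℝ) (2 * Z) d (by exact_mod_cast hZ)
          (by push_cast; linarith [(Nat.cast_nonneg Z : (0 : ℝ) ≤ Z)]) (mem_Icc.1 hd).1
  have hcS : (#S : ℝ) ≤ Z := by
    have : S ⊆ Ico Z (2 * Z) := fun p hp => mem_Ico.2 (hS p hp).2
    have h4 := card_le_card this
    rw [Nat.card_Ico] at h4
    have h5 : #S ≤ Z := by omega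
    exact_mod_cast h5
  calc ∑ p ∈ S, ∑ p' ∈ S, f ((p : ℝ) - p') ≤ ∑ p ∈ S, ∑ p' ∈ S, ((if p = p' then f 0 else 0) +
      (∑ d ∈ Icc 1 Z, (if p' + d = p then f d else 0) +
        ∑ d ∈ Icc 1 Z, (if p + d = p' then f d else 0))) :=
        sum_le_sum fun p hp => sum_le_sum fun p' hp' => hpt p hp p' hp'
    _ = #S * f 0 + (∑ a ∈ S, ∑ b ∈ S, ∑ d ∈ Icc 1 Z, (if a + d = b then f d else 0) +
        ∑ a ∈ S, ∑ b ∈ S, ∑ d ∈ Icc 1 Z, (if a + d = b then f d else 0)) := by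
        have e2 : ∑ p ∈ S, ∑ p' ∈ S, ∑ d ∈ Icc 1 Z, (if p' + d = p then f d else 0) =
            ∑ a ∈ S, ∑ b ∈ S, ∑ d ∈ Icc 1 Z, (if a + d = b then f d else 0) := sum_comm
        have e3 : ∑ p ∈ S, ∑ p' ∈ S, (if p = p' then f 0 else 0) = #S * f 0 := by
          have : ∀ p ∈ S, ∑ p' ∈ S, (if p = p' then f 0 else 0) = f 0 := by
            intro p hp
            rw [sum_ite_eq, if_pos hp]
          rw [sum_congr rfl this, sum_const, nsmul_eq_mul]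
        simp only [sum_add_distrib]
        rw [e2, e3]
    _ ≤ Z * f 0 + 2 * ∑ d ∈ Icc 1 Z, C₂ * ((2 * Z : ℕ) : ℝ) / (Real.log Z) ^ 2 *
        ((d : ℝ) / Nat.totient d) ^ 2 * f d := by
        have := mul_le_mul_of_nonneg_right hcS (hf 0)
        linarith
    _ = _ := by
        rw [mul_sum, mul_sum]
        congr 1
        refine sum_congr rfl fun d _ => ?_
        push_cast
        ring

/-- A block with large coefficients has many coincidences. -/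
lemma blk {C₂ C₃ : ℝ} (hC₂ : 0 < C₂) (hC₃ : 0 < C₃)
    (h2 : ∀ (P : ℝ) (X d : ℕ), 2 ≤ P → P ≤ X → 1 ≤ d → (by
      classical
      exact (#((Icc 1 X).filter fun n : ℕ => ∀ r : ℕ, r.Prime → r ∣ n * (n + d) → P ≤ r) : ℝ)) ≤
      C₂ * X / (Real.log P) ^ 2 * ((d : ℝ) / Nat.totient d) ^ 2)
    (h3 : ∀ X : ℕ, ∑ d ∈ Icc 1 X, ((d : ℝ) / Nat.totient d) ^ 4 ≤ C₃ * X)
    (hW : Measurable W) (hθ : Measurable θ) (hW0 : ∀ x, 0 ≤ W x) (hW1 : ∀ x, W x ≤ 1)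
    (hr0 : 0 < r) (hr : μ.real Set.univ ≤ r) {c₀ c₁ C : ℝ} (hc₀ : 0 < c₀) (hc₁ : 0 < c₁)
    (hC : 0 < C) (e1 : (c₀ ^ 2 * (Real.log 2) ^ 2 / (8 * C₂)) ^ 2 = c₁ * C₃)
    (e2 : C ^ 2 * (2 * c₁) = 1) (i : ℕ) (hi : 1 ≤ i) (hi2 : 2 * (i : ℝ) ^ 2 ≤ c₀ ^ 2 * 2 ^ i)
    (S : Finset ℕ) (hS : ∀ p ∈ S, p.Prime ∧ 2 ^ i ≤ p ∧ p < 2 * 2 ^ i)
    (hb : c₀ * r * 2 ^ i / i ≤ ∑ p ∈ S, ‖ft μ W θ p‖) :
    c₁ / 8 * r ^ 2 ≤ ∫ z, W z.1 * W z.2 *
      (if nd (θ z.1 - θ z.2) ≤ C / 2 ^ i then 1 else 0) ∂(μ.prod μ) := by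
  set Z : ℕ := 2 ^ i with hZd
  have hZr : (Z : ℝ) = 2 ^ i := by rw [hZd]; push_cast; rfl
  have hZ2 : 2 ≤ Z := by
    calc 2 = 2 ^ 1 := by norm_num
      _ ≤ 2 ^ i := Nat.pow_le_pow_right (by norm_num) hi
  have hZ0 : (0 : ℝ) < Z := by
    have : 0 < Z := by omega
    exact_mod_cast this
  have hi0 : (0 : ℝ) < i := by exact_mod_cast hi
  have hlog2 : 0 < Real.log 2 := Real.log_pos (by norm_num)
  have hlog : Real.log (Z : ℝ) = i * Real.log 2 := by rw [hZr, Real.log_pow]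
  rw [← hZr] at hb hi2 ⊢
  set U : ℝ := ∑ d ∈ Icc 1 Z, ‖ft μ W θ d‖ ^ 2 with hU
  set T : ℝ := ∑ d ∈ Icc 1 Z, ((d : ℝ) / Nat.totient d) ^ 2 * ‖ft μ W θ d‖ with hT
  have hT0 : 0 ≤ T := sum_nonneg fun _ _ => by positivity
  have hd := duality (μ := μ) hW hθ hW0 hW1 hr S
  have ho := offdiag h2 (fun x => ‖ft μ W θ x‖) (fun x => norm_nonneg _) (fun x => norm_ft_neg x)
    Z hZ2 S hS
  rw [← hT, hlog] at ho
  have hf0 : ‖ft μ W θ 0‖ ≤ r := norm_ft_le hW0 hW1 hr 0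
  have k1 : (c₀ * r * Z / i) ^ 2 ≤ r * (Z * r + 4 * C₂ * Z / (i * Real.log 2) ^ 2 * T) := by
    calc (c₀ * r * Z / i) ^ 2 ≤ (∑ p ∈ S, ‖ft μ W θ p‖) ^ 2 :=
          pow_le_pow_left₀ (by positivity) hb 2
      _ ≤ _ := hd
      _ ≤ _ := by
          refine mul_le_mul_of_nonneg_left (ho.trans ?_) hr0.le
          have := mul_le_mul_of_nonneg_left hf0 hZ0.le
          linarith
  -- the lower bound for `T`
  have k2 : c₀ ^ 2 * (Real.log 2) ^ 2 / (8 * C₂) * (r * Z) ≤ T := by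
    have a1 : (c₀ * r * Z / i) ^ 2 = (r * Z) * (c₀ ^ 2 * r * Z / i ^ 2) := by
      field_simp
    have a2 : r * (Z * r + 4 * C₂ * Z / (i * Real.log 2) ^ 2 * T) =
        (r * Z) * (r + 4 * C₂ / (i * Real.log 2) ^ 2 * T) := by
      field_simp
    rw [a1, a2] at k1
    have k3 := le_of_mul_le_mul_left k1 (by positivity)
    have a3 : r ≤ c₀ ^ 2 * r * Z / i ^ 2 / 2 := by
      rw [le_div_iff₀ (by norm_num), le_div_iff₀ (by positivity)]
      have := mul_le_mul_of_nonneg_left hi2 hr0.le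
      nlinarith
    have a4 : c₀ ^ 2 * r * Z / i ^ 2 / 2 ≤ 4 * C₂ / (i * Real.log 2) ^ 2 * T := by linarith
    have a5 : 4 * C₂ / (i * Real.log 2) ^ 2 * T = (4 * C₂ / (Real.log 2) ^ 2 * T) / i ^ 2 := by
      field_simp
    have a6 : c₀ ^ 2 * r * Z / i ^ 2 / 2 = (c₀ ^ 2 * r * Z / 2) / i ^ 2 := by
      field_simp
    rw [a5, a6, div_le_div_iff_of_pos_right (by positivity)] at a4
    have a7 : c₀ ^ 2 * (Real.log 2) ^ 2 / (8 * C₂) * (r * Z) =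
        (c₀ ^ 2 * r * Z / 2) * ((Real.log 2) ^ 2 / (4 * C₂)) := by
      field_simp
      ring
    rw [a7]
    calc (c₀ ^ 2 * r * Z / 2) * ((Real.log 2) ^ 2 / (4 * C₂)) ≤
        (4 * C₂ / (Real.log 2) ^ 2 * T) * ((Real.log 2) ^ 2 / (4 * C₂)) :=
          mul_le_mul_of_nonneg_right a4 (by positivity)
      _ = T := by field_simp
  -- Cauchy
  have k4 : T ^ 2 ≤ (C₃ * Z) * U := by
    have h4 := sum_mul_sq_le_sq_mul_sq (Icc 1 Z) (fun d : ℕ => ((d : ℝ) / Nat.totient d) ^ 2)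
      (fun d : ℕ => ‖ft μ W θ d‖)
    refine h4.trans (mul_le_mul_of_nonneg_right ?_ (sum_nonneg fun _ _ => by positivity))
    calc _ = ∑ d ∈ Icc 1 Z, ((d : ℝ) / Nat.totient d) ^ 4 := sum_congr rfl fun d _ => by ring
      _ ≤ _ := h3 Z
  have k5 : c₁ * (r ^ 2 * Z) ≤ U := by
    have a1 : (c₀ ^ 2 * (Real.log 2) ^ 2 / (8 * C₂) * (r * Z)) ^ 2 ≤ T ^ 2 :=
      pow_le_pow_left₀ (by positivity) k2 2
    rw [mul_pow, e1] at a1
    have a2 := a1.trans k4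
    have a3 : c₁ * C₃ * (r * Z) ^ 2 = (C₃ * Z) * (c₁ * (r ^ 2 * Z)) := by ring
    rw [a3] at a2
    exact le_of_mul_le_mul_left a2 (by positivity)
  -- Fejér
  have k6 := fejer (μ := μ) hW hθ hW0 hW1 hr Z (C / Z) (by positivity)
  rw [← hU] at k6
  have a1 : r ^ 2 / (4 * (C / Z) ^ 2) = (Z : ℝ) ^ 2 * (c₁ / 2 * r ^ 2) := by
    have a2 : r ^ 2 / (4 * (C / Z) ^ 2) = r ^ 2 * Z ^ 2 * 1 / (4 * C ^ 2) := by
      field_simp
    rw [a2, ← e2]
    field_simp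
    ring
  rw [a1] at k6
  have a2 : (Z : ℝ) ^ 2 * (c₁ * r ^ 2) ≤ Z * U := by
    have := mul_le_mul_of_nonneg_left k5 hZ0.le
    nlinarith
  have a3 : (Z : ℝ) ^ 2 * (c₁ / 8 * r ^ 2) ≤ (Z : ℝ) ^ 2 *
      (∫ z, W z.1 * W z.2 * (if nd (θ z.1 - θ z.2) ≤ C / Z then 1 else 0) ∂(μ.prod μ)) := by
    nlinarith
  exact le_of_mul_le_mul_left a3 (by positivity)

lemma mem_PPs {H : ℕ} {κ₁ κ₂ : ℝ} {p : ℕ} (h : p ∈ PPs H κ₁ κ₂) :
    p.Prime ∧ (H : ℝ) ^ κ₁ ≤ p ∧ p ≤ ⌊(H : ℝ) ^ κ₂⌋₊ := by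
  unfold PPs at h
  rw [mem_filter, mem_Icc] at h
  exact ⟨h.2.1, h.2.2, h.1.2⟩

end

end T9x

open T9x in
/-- **Row T9.** -/
theorem t9 : T9_stmt := by
  intro hSV hPHI κ₁ κ₂ ε hκ₁ hκ hε
  obtain ⟨C₂, hC₂, h2⟩ := hSV
  obtain ⟨C₃, hC₃, h3⟩ := hPHI
  have hκ₂ : 0 < κ₂ := lt_of_lt_of_le hκ₁ hκ
  have hlog2 : 0 < Real.log 2 := Real.log_pos (by norm_num)
  obtain ⟨c₀, hc₀d⟩ : ∃ c₀ : ℝ, c₀ = ε * κ₁ / (4 * κ₂) := ⟨_, rfl⟩
  have hc₀ : 0 < c₀ := by rw [hc₀d]; positivity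
  obtain ⟨c₁, hc₁d⟩ : ∃ c₁ : ℝ, c₁ = (c₀ ^ 2 * (Real.log 2) ^ 2 / (8 * C₂)) ^ 2 / C₃ := ⟨_, rfl⟩
  have hc₁ : 0 < c₁ := by rw [hc₁d]; positivity
  have e1 : (c₀ ^ 2 * (Real.log 2) ^ 2 / (8 * C₂)) ^ 2 = c₁ * C₃ := by
    rw [hc₁d]
    field_simp
  obtain ⟨C, hC, e2⟩ : ∃ C : ℝ, 0 < C ∧ C ^ 2 * (2 * c₁) = 1 := by
    refine ⟨1 / √(2 * c₁), by positivity, ?_⟩
    rw [div_pow, Real.sq_sqrt (by positivity)]
    field_simp
  obtain ⟨N, hN⟩ : ∃ N : ℕ, ∀ i : ℕ, N ≤ i → 1 ≤ i ∧ 2 * (i : ℝ) ^ 2 ≤ c₀ ^ 2 * 2 ^ i := by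
    have ht := tendsto_pow_const_div_const_pow_of_one_lt 2 (r := (2 : ℝ)) (by norm_num)
    have he := ht.eventually (gt_mem_nhds (show (0 : ℝ) < c₀ ^ 2 / 2 by positivity))
    obtain ⟨N, hN⟩ := Filter.eventually_atTop.1 he
    refine ⟨max N 1, fun i hi => ⟨(le_max_right _ _).trans hi, ?_⟩⟩
    have h4 := hN i ((le_max_left _ _).trans hi)
    rw [div_lt_iff₀ (by positivity)] at h4
    linarith
  refine ⟨c₁ / 8, 2 * C, by positivity, by positivity, ⌈((2 : ℝ) ^ N) ^ (1 / κ₁)⌉₊ + 1, ?_⟩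
  intro H hH hLs s r hr W θ hW hθ hW0 hW1 hsum
  have hH1 : (1 : ℝ) ≤ H := by
    have : 1 ≤ H := by omega
    exact_mod_cast this
  have hH0 : (0 : ℝ) < H := by linarith
  have hHN : (2 : ℝ) ^ N ≤ (H : ℝ) ^ κ₁ := by
    have h4 : ((2 : ℝ) ^ N) ^ (1 / κ₁) ≤ H := by
      refine (Nat.le_ceil _).trans ?_
      have : ⌈((2 : ℝ) ^ N) ^ (1 / κ₁)⌉₊ ≤ H := by omega
      exact_mod_cast this
    have h5 := Real.rpow_le_rpow (by positivity) h4 hκ₁.le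
    rwa [← Real.rpow_mul (by positivity), one_div, inv_mul_cancel₀ hκ₁.ne', Real.rpow_one] at h5
  -- the blocks
  set i0 : ℕ := Nat.log 2 ⌈(H : ℝ) ^ κ₁⌉₊ with hi0
  set i1 : ℕ := Nat.log 2 ⌊(H : ℝ) ^ κ₂⌋₊ with hi1
  have hNi0 : N ≤ i0 := by
    rw [hi0]
    refine Nat.le_log_of_pow_le (by norm_num) ?_
    have h4 : ((2 ^ N : ℕ) : ℝ) ≤ ⌈(H : ℝ) ^ κ₁⌉₊ := by
      push_cast
      exact hHN.trans (Nat.le_ceil _)
    exact_mod_cast h4
  have hi0' : 1 ≤ i0 := (hN i0 hNi0).1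
  have hlt : (H : ℝ) ^ κ₁ < 2 ^ (i0 + 1) := by
    have h4 := Nat.lt_pow_succ_log_self (b := 2) (by norm_num) ⌈(H : ℝ) ^ κ₁⌉₊
    have h5 : (⌈(H : ℝ) ^ κ₁⌉₊ : ℝ) < 2 ^ (i0 + 1) := by exact_mod_cast h4
    exact (Nat.le_ceil _).trans_lt h5
  have hle : (2 : ℝ) ^ i1 ≤ (H : ℝ) ^ κ₂ := by
    have h4 : 1 ≤ ⌊(H : ℝ) ^ κ₂⌋₊ := by
      rw [Nat.one_le_floor_iff]
      exact Real.one_le_rpow hH1 hκ₂.le
    have h5 := Nat.pow_log_le_self 2 (x := ⌊(H : ℝ) ^ κ₂⌋₊) (by omega)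
    have h6 : ((2 ^ i1 : ℕ) : ℝ) ≤ ⌊(H : ℝ) ^ κ₂⌋₊ := by exact_mod_cast h5
    push_cast at h6
    exact h6.trans (Nat.floor_le (by positivity))
  have hii : κ₁ * i1 ≤ κ₂ * (2 * i0) := by
    have h4 : (i1 : ℝ) * Real.log 2 ≤ κ₂ * Real.log H := by
      have := Real.log_le_log (by positivity) hle
      rwa [Real.log_pow, Real.log_rpow hH0] at this
    have h5 : κ₁ * Real.log H ≤ ((i0 : ℝ) + 1) * Real.log 2 := by
      have := Real.log_le_log (by positivity) hlt.le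
      rw [Real.log_pow, Real.log_rpow hH0] at this
      push_cast at this
      exact this
    have h6 : κ₁ * (i1 * Real.log 2) ≤ κ₂ * (((i0 : ℝ) + 1) * Real.log 2) := by
      calc κ₁ * (i1 * Real.log 2) ≤ κ₁ * (κ₂ * Real.log H) := mul_le_mul_of_nonneg_left h4 hκ₁.le
        _ = κ₂ * (κ₁ * Real.log H) := by ring
        _ ≤ _ := mul_le_mul_of_nonneg_left h5 hκ₂.le
    have h7 : κ₁ * i1 ≤ κ₂ * ((i0 : ℝ) + 1) := by
      refine le_of_mul_le_mul_right ?_ hlog2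
      linarith
    have h8 : (1 : ℝ) ≤ i0 := by exact_mod_cast hi0'
    refine h7.trans (mul_le_mul_of_nonneg_left (by linarith) hκ₂.le)
  -- the measure
  set μ : Measure ℝ := volume.restrict (Set.Ioc s (s + r)) with hμ
  have hfin : IsFiniteMeasure μ := by
    rw [hμ]
    exact ⟨by rw [Measure.restrict_apply_univ, Real.volume_Ioc]; exact ENNReal.ofReal_lt_top⟩
  have hsr : s ≤ s + r := by linarith
  have hmass : μ.real Set.univ ≤ r := by
    rw [hμ, Measure.real, Measure.restrict_apply_univ, Real.volume_Ioc, add_sub_cancel_left,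
      ENNReal.toReal_ofReal hr.le]
  have hft : ∀ p : ℕ, ‖∫ x in s..(s + r), (W x : ℂ) * ee ((p : ℝ) * θ x)‖ = ‖ft μ W θ p‖ := by
    intro p
    rw [intervalIntegral.integral_of_le hsr]
    rfl
  simp_rw [hft] at hsum
  set PP := PPs H κ₁ κ₂ with hPP
  have hmaps : ∀ p ∈ PP, Nat.log 2 p ∈ Icc i0 i1 := by
    intro p hp
    obtain ⟨a1, a2, a3⟩ := mem_PPs hp
    rw [mem_Icc]
    exact ⟨Nat.log_mono_right (Nat.ceil_le.2 a2), Nat.log_mono_right a3⟩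
  obtain ⟨i, hi, hbig⟩ : ∃ i ∈ Icc i0 i1, c₀ * r * 2 ^ i / i ≤
      ∑ p ∈ PP.filter (fun p => Nat.log 2 p = i), ‖ft μ W θ p‖ := by
    by_contra hcon
    push Not at hcon
    have h4 : ∑ p ∈ PP, wt PP p * ‖ft μ W θ p‖ ≤ ∑ i ∈ Icc i0 i1, c₀ * r / i0 := by
      rw [← sum_fiberwise_of_maps_to hmaps]
      refine sum_le_sum fun i hi => ?_
      have hi3 := (mem_Icc.1 hi).1
      have hi4 : (0 : ℝ) < i0 := by exact_mod_cast hi0'
      have hi5 : (i0 : ℝ) ≤ i := by exact_mod_cast hi3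
      calc ∑ p ∈ PP.filter (fun p => Nat.log 2 p = i), wt PP p * ‖ft μ W θ p‖ ≤
          ∑ p ∈ PP.filter (fun p => Nat.log 2 p = i), (1 / 2 ^ i) * ‖ft μ W θ p‖ := by
            refine sum_le_sum fun p hp => mul_le_mul_of_nonneg_right ?_ (norm_nonneg _)
            obtain ⟨hp1, hp2⟩ := mem_filter.1 hp
            have hpp := (mem_PPs hp1).1
            have h5 : 2 ^ i ≤ p := by
              rw [← hp2]
              exact Nat.pow_log_le_self 2 hpp.ne_zero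
            have h6 : (2 : ℝ) ^ i ≤ p := by exact_mod_cast h5
            have h7 : (0 : ℝ) < 2 ^ i := by positivity
            unfold wt
            refine one_div_le_one_div_of_le h7 ?_
            have hp0 : (0 : ℝ) < p := by linarith
            calc (2 : ℝ) ^ i ≤ p * 1 := by linarith
              _ ≤ p * Ls PP := mul_le_mul_of_nonneg_left hLs hp0.le
        _ = (1 / 2 ^ i) * ∑ p ∈ PP.filter (fun p => Nat.log 2 p = i), ‖ft μ W θ p‖ := by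
            rw [mul_sum]
        _ ≤ (1 / 2 ^ i) * (c₀ * r * 2 ^ i / i) :=
            mul_le_mul_of_nonneg_left (hcon i hi).le (by positivity)
        _ = c₀ * r / i := by field_simp
        _ ≤ c₀ * r / i0 := div_le_div_of_nonneg_left (by positivity) hi4 hi5
    rw [sum_const, Nat.card_Icc, nsmul_eq_mul] at h4
    have hi4 : (0 : ℝ) < i0 := by exact_mod_cast hi0'
    have h5 : ((i1 + 1 - i0 : ℕ) : ℝ) ≤ i1 := by
      have : i1 + 1 - i0 ≤ i1 := by omega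
      exact_mod_cast this
    have h6 : ((i1 + 1 - i0 : ℕ) : ℝ) * (c₀ * r / i0) ≤ ε * r / 2 := by
      calc _ ≤ (i1 : ℝ) * (c₀ * r / i0) := mul_le_mul_of_nonneg_right h5 (by positivity)
        _ = (κ₁ * i1) * (ε * r / (4 * κ₂ * i0)) := by
            rw [hc₀d]
            field_simp
        _ ≤ (κ₂ * (2 * i0)) * (ε * r / (4 * κ₂ * i0)) :=
            mul_le_mul_of_nonneg_right hii (by positivity)
        _ = ε * r / 2 := by
            field_simp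
            ring
    have h7 := hsum.trans (h4.trans h6)
    have h8 : 0 < ε * r := by positivity
    linarith
  have hi3 := (mem_Icc.1 hi).1
  obtain ⟨hi5, hi6⟩ := hN i (hNi0.trans hi3)
  have hfinal := blk (μ := μ) hC₂ hC₃ h2 h3 hW hθ hW0 hW1 hr hmass hc₀ hc₁ hC e1 e2 i hi5 hi6
    (PP.filter (fun p => Nat.log 2 p = i)) (by
      intro p hp
      obtain ⟨hp1, hp2⟩ := mem_filter.1 hp
      have hpp := (mem_PPs hp1).1
      refine ⟨hpp, ?_, ?_⟩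
      · rw [← hp2]
        exact Nat.pow_log_le_self 2 hpp.ne_zero
      · have := Nat.lt_pow_succ_log_self (b := 2) (by norm_num) p
        rw [hp2, pow_succ] at this
        omega) hbig
  -- conclusion
  have hthr : C / 2 ^ i ≤ 2 * C * (H : ℝ) ^ (-κ₁) := by
    rw [Real.rpow_neg hH0.le, ← div_eq_mul_inv, div_le_div_iff₀ (by positivity) (by positivity)]
    have h4 : (H : ℝ) ^ κ₁ ≤ 2 * 2 ^ i := by
      calc (H : ℝ) ^ κ₁ ≤ 2 ^ (i0 + 1) := hlt.le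
        _ ≤ 2 ^ (i + 1) := pow_le_pow_right₀ (by norm_num) (by omega)
        _ = 2 * 2 ^ i := by ring
    calc C * (H : ℝ) ^ κ₁ ≤ C * (2 * 2 ^ i) := mul_le_mul_of_nonneg_left h4 hC.le
      _ = _ := by ring
  have hWW : Measurable fun z : ℝ × ℝ => W z.1 * W z.2 :=
    (hW.comp measurable_fst).mul (hW.comp measurable_snd)
  have hWW0 : ∀ z : ℝ × ℝ, 0 ≤ W z.1 * W z.2 := fun z => mul_nonneg (hW0 _) (hW0 _)
  have hWW1 : ∀ z : ℝ × ℝ, W z.1 * W z.2 ≤ 1 := fun z =>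
    (mul_le_mul (hW1 _) (hW1 _) (hW0 _) zero_le_one).trans (by norm_num)
  have hI : ∀ δ : ℝ, Integrable (fun z : ℝ × ℝ => W z.1 * W z.2 *
      (if nd (θ z.1 - θ z.2) ≤ δ then 1 else 0)) (μ.prod μ) := by
    intro δ
    have hms : MeasurableSet {z : ℝ × ℝ | nd (θ z.1 - θ z.2) ≤ δ} :=
      measurableSet_le (continuous_nd.measurable.comp
        ((hθ.comp measurable_fst).sub (hθ.comp measurable_snd))) measurable_const
    refine Integrable.of_bound (hWW.mul (Measurable.ite hms measurable_const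
      measurable_const)).aestronglyMeasurable 1 (Filter.Eventually.of_forall fun z => ?_)
    rw [norm_mul, Real.norm_of_nonneg (hWW0 z)]
    split_ifs
    · simpa using hWW1 z
    · simp
  refine hfinal.trans ?_
  calc _ ≤ ∫ z, W z.1 * W z.2 * (if nd (θ z.1 - θ z.2) ≤ 2 * C * (H : ℝ) ^ (-κ₁) then 1 else 0)
        ∂(μ.prod μ) := by
        refine integral_mono (hI _) (hI _) fun z => mul_le_mul_of_nonneg_left ?_ (hWW0 z)
        split_ifs with h4 h5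
        · exact le_rfl
        · exact absurd (h4.trans hthr) h5
        · exact zero_le_one
        · exact le_rfl
    _ = ∫ x, ∫ y, W x * W y * (if nd (θ x - θ y) ≤ 2 * C * (H : ℝ) ^ (-κ₁) then 1 else 0) ∂μ ∂μ :=
        integral_prod _ (hI _)
    _ = _ := by
        rw [intervalIntegral.integral_of_le hsr]
        refine integral_congr_ae (Filter.Eventually.of_forall fun x => ?_)
        simp only
        rw [intervalIntegral.integral_of_le hsr]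

end Pool.Agent.SV
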