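import Mathlib
import Pool.Agent.Lib.SV.V
import Pool.Agent.Lib.SV.T0
import Pool.Agent.Lib.SV.T1
import Pool.Agent.Lib.SV.T2
import Pool.Agent.Lib.SV.T3
import Pool.Agent.Lib.SV.T4
import Pool.Agent.Lib.SV.T5
import Pool.Agent.Lib.SV.T6
import Pool.Agent.Lib.SV.T7
import Pool.Agent.Lib.SV.T8
import Pool.Agent.Lib.SV.T9
import Pool.Agent.Lib.SV.T10
import Pool.Agent.Lib.SV.T11
import Pool.Agent.Lib.SV.T12
import Pool.Agent.Lib.SV.T13
import Pool.Agent.Lib.SV.T14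
import Pool.Agent.Lib.SV.T15
import Pool.Agent.Lib.SV.S1
import Pool.Agent.Lib.SV.S2
import Pool.Agent.Lib.SV.S3
import Pool.Agent.Lib.SV.T16a
import Pool.Agent.Lib.SV.T16b
import Pool.Agent.Lib.SV.T16d
import Pool.Agent.Lib.SV.T18
import Pool.Agent.Lib.SV.T19
import Pool.Agent.Lib.SV.T21
import Pool.Agent.Lib.SV.EPC
import Pool.Agent.Lib.SV.IFin
import Pool.Agent.Lib.SV.IIFin
import Pool.Agent.Lib.SV.TFFin

/-!
# Theorem TF (MP_663568_nt), assembly.  (helper19)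
-/

set_option autoImplicit false

namespace Pool.Agent.SV.TFasm

open Pool.Agent.SV Pool.Agent.Lib.MP_663568_nt Pool.Agent.Lib.MP_663568_nt.Katai

noncomputable section

theorem t7p : T7' := t7 t6 sv2 phi4 epc
theorem t8p : T8' := t8 t7p epc
theorem t9p : T9' := t9 sv2 phi4
theorem t10p : T10' := t10 t9p t7p epc
theorem t11p : T11' := t11 t10p epc
theorem t12p : T12' := t12 v_thm
theorem t13p : T13' := t13v v_thm
theorem t14p : T14' := t14 t12p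
theorem t2p : T2' := t2 t0 t1 epc
theorem t16ap : T16a' := t16a t7p t8p t13p epc
theorem t16dp : T16d' := t16d t7p t13p epc
theorem t16bp : T16b' := t16b t11p t13p t15 s1 s2 epc
theorem t19p : T19' := t19 t0 t1 t18
theorem t21p : T21' := t21 t0 t18 t19p t11p t14p t15 s1 s3

/-- Part (i), without hypotheses. -/
theorem part_i : I' := ifin t2p epc t3 t4 t5 t16ap t16dp t16bp

/-- Part (ii), without hypotheses. -/
theorem part_ii : II' := iifin t19p t21p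

/-- Frequencies of bounded variation, as a family of one-point sets. -/
theorem part_iii (A ε : ℝ) (hε : 0 < ε) : ∃ H₀ : ℕ, ∀ H N : ℕ, H₀ ≤ H → H ≤ N → ∀ a : ℕ → ℝ,
    (∀ j : ℕ, ∑ n ∈ Finset.Ico (2 ^ j) (2 ^ (j + 1)), |a (n + 1) - a n| ≤ (H : ℝ) ^ A) →
    TFx.Avg (fun n => {a n}) N H ≤ ε * H * Real.log N := by
  obtain ⟨H₀, h⟩ := v_thm A ε hε
  refine ⟨max H₀ 1, fun H N hH hHN a ha => ?_⟩
  have hH1 : 1 ≤ H := (le_max_right _ _).trans hH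
  have hH0 : (H : ℝ) ≠ 0 := by exact_mod_cast (show H ≠ 0 by omega)
  have h1 := h H N ((le_max_left _ _).trans hH) hHN a ha
  rw [TFx.avg_eq, Finset.mul_sum]
  refine le_trans (Finset.sum_le_sum fun n _ => ?_) h1
  have h2 : TFx.sB {a n} H n ≤ vv H n (a n) :=
    TFx.sB_le_of _ H n (RB.vv_nonneg H n (a n)) fun y hy => by rw [Set.mem_singleton_iff.1 hy]
  have h3 : (H : ℝ) * vv H n (a n) =
      ‖∑ h ∈ Finset.Icc 1 H, muC (n + h) * ee (a n * h)‖ := by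
    unfold vv
    field_simp
  rw [← h3]
  have h4 : (H : ℝ) * TFx.sB {a n} H n ≤ H * vv H n (a n) :=
    mul_le_mul_of_nonneg_left h2 (Nat.cast_nonneg _)
  have h5 := mul_le_mul_of_nonneg_left h4 (show 0 ≤ 1 / (n : ℝ) by positivity)
  linarith

/-- **Theorem TF.** -/
theorem tf (A ε R : ℝ) (hε : 0 < ε) (hR : 1 ≤ R) :
    ∃ H₀ : ℕ, ∀ H N : ℕ, H₀ ≤ H → H ≤ N →
      (∀ B : ℕ → Set ℝ, TFx.SlowR B ((H : ℝ) ^ A) →
        TFx.Avg B N H ≤ (√(3 * ((∑ n ∈ Finset.Icc 1 N, (1 / (n : ℝ)) *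
          TFx.outer (TFx.Sym (B n)) R) / Real.log N)) / Real.pi + ε) * H * Real.log N) ∧
      (∃ L : ℕ, (H : ℝ) ^ (1 - ε) ≤ L ∧ L ≤ H ∧
        ∀ B : ℕ → Set ℝ, TFx.SlowR B ((H : ℝ) ^ A) →
        ∀ w : ℝ, (∀ n, w ≤ TFx.inner (TFx.Sym (B n)) R) →
        w * TFx.Avg (fun _ => Set.univ) N H / H - ε * Real.log N ≤ TFx.Avg B N L / L) ∧
      ∀ a : ℕ → ℝ,
        (∀ j : ℕ, ∑ n ∈ Finset.Ico (2 ^ j) (2 ^ (j + 1)), |a (n + 1) - a n| ≤ (H : ℝ) ^ A) →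
        TFx.Avg (fun n => {a n}) N H ≤ ε * H * Real.log N := by
  obtain ⟨H1, h1⟩ := TFx.fin_i part_i v_thm A ε R hε hR
  obtain ⟨H2, h2⟩ := TFx.fin_ii part_ii v_thm A ε R hε hR
  obtain ⟨H3, h3⟩ := part_iii A ε hε
  refine ⟨max (max H1 H2) H3, fun H N hH hHN => ⟨?_, ?_, ?_⟩⟩
  · exact h1 H N (((le_max_left _ _).trans (le_max_left _ _)).trans hH) hHN
  · exact h2 H N (((le_max_right _ _).trans (le_max_left _ _)).trans hH) hHN
  · exact h3 H N ((le_max_right _ _).trans hH) hHN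

end

end Pool.Agent.SV.TFasm
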