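import Pool.Agent.Lib.SV.Defs
import Pool.Agent.Lib.MP_f006b0_nt_h92.Av

/-! Theorem V, row PHI. -/

set_option autoImplicit false
open Finset

namespace Pool.Agent.SV

/-- Row PHI. -/
theorem phi4 : PHI_stmt := by
  obtain ⟨C, hC, h⟩ := Pool.Agent.FQ.sum_WW
  refine ⟨C, hC, fun X => (Finset.sum_le_sum fun d hd => ?_).trans (h X)⟩
  have hd1 : 1 ≤ d := (Finset.mem_Icc.1 hd).1
  have hphi : (0 : ℝ) < (Nat.totient d : ℝ) := by exact_mod_cast Nat.totient_pos.2 hd1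
  have h1 : 1 ≤ (d : ℝ) / Nat.totient d := by
    rw [one_le_div hphi]
    exact_mod_cast Nat.totient_le d
  unfold Pool.Agent.FQ.WW Pool.Agent.FQ.rr
  exact pow_le_pow_right₀ h1 (by norm_num)

end Pool.Agent.SV
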