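import Mathlib
import Pool.Agent.Lib.SV.TFDefs
import Pool.Agent.Lib.SV.RA
import Pool.Agent.Lib.SV.RB2
import Pool.Agent.Lib.SV.RC
import Pool.Agent.Lib.SV.RD

/-!
# Theorem TF (MP_663568_nt), row T14: concentrated frequencies of windows are rare.  (helper42)
-/

set_option autoImplicit false
open Finset MeasureTheory

namespace Pool.Agent.SV

open Pool.Agent.Lib.MP_663568_nt Pool.Agent.Lib.MP_663568_nt.Katai
  Pool.Agent.Lib.MP_663568_nt.Nul

namespace T14r

theorem norm_tm (b : ℝ) (m n : ℕ) : ‖muC n * ee (b * m)‖ ≤ 1 := by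
  rw [norm_mul, norm_ee, mul_one]; exact norm_muC n

/-- A window as an average of short windows. -/
theorem sub_win (X l y : ℕ) (hX : 1 ≤ X) (hl : 1 ≤ l) (b : ℝ) :
    vv X y b ≤ (1 / X) * ∑ i ∈ range X, vv l (y + i) b + 2 * l / X := by
  have hX0 : (0 : ℝ) < X := by exact_mod_cast hX
  have hl0 : (0 : ℝ) < l := by exact_mod_cast hl
  have h := RDr.avg (fun m => muC (y + m) * ee (b * m)) (fun m => norm_tm b m (y + m)) X l
  have h1 : ∀ i : ℕ, ‖∑ k ∈ Icc 1 l, muC (y + (i + k)) * ee (b * ((i + k : ℕ) : ℝ))‖ =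
      l * vv l (y + i) b := by
    intro i
    have h2 : ∑ k ∈ Icc 1 l, muC (y + (i + k)) * ee (b * ((i + k : ℕ) : ℝ)) =
        ee (b * i) * ∑ k ∈ Icc 1 l, muC (y + i + k) * ee (b * k) := by
      rw [Finset.mul_sum]
      refine Finset.sum_congr rfl fun k _ => ?_
      rw [← add_assoc]
      push_cast
      rw [mul_add, ee_add]
      ring
    rw [h2, norm_mul, norm_ee, one_mul, vv]
    field_simp
  simp only [h1] at h
  rw [← Finset.mul_sum] at h
  have h3 : ‖∑ m ∈ Icc 1 X, muC (y + m) * ee (b * m)‖ ≤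
      ∑ i ∈ range X, vv l (y + i) b + 2 * l := by
    have h4 : (l : ℝ) * ‖∑ m ∈ Icc 1 X, muC (y + m) * ee (b * m)‖ ≤
        l * (∑ i ∈ range X, vv l (y + i) b + 2 * l) := by
      rw [mul_add]
      refine h.trans (le_of_eq ?_)
      ring
    exact le_of_mul_le_mul_left h4 hl0
  have h5 : vv X y b ≤ (∑ i ∈ range X, vv l (y + i) b + 2 * l) / X :=
    div_le_div_of_nonneg_right h3 hX0.le
  refine h5.trans (le_of_eq ?_)
  rw [add_div]
  ring

/-- Change of the frequency, modulo 1. -/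
theorem vv_near (l n : ℕ) (hl : 1 ≤ l) (a b θ : ℝ) (k : ℤ) (h : |a - b - k| ≤ θ) :
    vv l n a ≤ vv l n b + 2 * Real.pi * θ * l := by
  have hl0 : (0 : ℝ) < l := by exact_mod_cast hl
  have h0 : |a - (b + k)| ≤ θ := by
    rw [show a - (b + k) = a - b - k by ring]
    exact h
  have h1 := RAr.change_le (H := l) (n := n) h0
  have h2 : ∀ m : ℕ, ee ((b + k) * m) = ee (b * m) := by
    intro m
    rw [add_mul, ee_add]
    have : ((k : ℝ) * m) = ((k * m : ℤ) : ℝ) := by push_cast; ring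
    rw [this, ee_int, mul_one]
  simp only [h2] at h1
  unfold vv
  rw [div_add' _ _ _ hl0.ne']
  refine div_le_div_of_nonneg_right h1 hl0.le

theorem conc (q : ℕ) (hq : 1 ≤ q) (x ρ : ℝ) (h : nd ((q : ℝ) * x) ≤ ρ) :
    ∃ b < q, ∃ k : ℤ, |x - (b : ℝ) / q - k| ≤ ρ := by
  obtain ⟨n, hn⟩ := nd_exists ((q : ℝ) * x)
  have hq0 : (0 : ℝ) < q := by exact_mod_cast hq
  have hqz : (0 : ℤ) < q := by exact_mod_cast hq
  have hb0 : 0 ≤ n % (q : ℤ) := Int.emod_nonneg _ hqz.ne'
  have hb1 : n % (q : ℤ) < q := Int.emod_lt_of_pos _ hqz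
  refine ⟨(n % (q : ℤ)).toNat, by omega, n / q, ?_⟩
  have h1 : (((n % (q : ℤ)).toNat : ℕ) : ℝ) = ((n % (q : ℤ) : ℤ) : ℝ) := by
    have : (((n % (q : ℤ)).toNat : ℕ) : ℤ) = n % (q : ℤ) := Int.toNat_of_nonneg hb0
    exact_mod_cast this
  have h2 : (n : ℝ) = q * ((n / q : ℤ) : ℝ) + ((n % (q : ℤ) : ℤ) : ℝ) := by
    have := Int.mul_ediv_add_emod n (q : ℤ)
    exact_mod_cast this.symm
  rw [h1]
  have h3 : x - ((n % (q : ℤ) : ℤ) : ℝ) / q - ((n / q : ℤ) : ℝ) = (q * x - n) / q := by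
    rw [h2]
    field_simp
    ring
  rw [h3, abs_div, abs_of_pos hq0, ← hn]
  rw [div_le_iff₀ hq0]
  have h4 : (1 : ℝ) ≤ q := by exact_mod_cast hq
  have h5 : 0 ≤ ρ := (nd_nonneg _).trans h
  nlinarith

/-- The pointwise bound. -/
theorem point (X l n q : ℕ) (hX : 1 ≤ X) (hl : 1 ≤ l) (hq : 1 ≤ q) (a α ρ : ℝ)
    (h : nd ((q : ℝ) * (a - α)) ≤ ρ) :
    vv X n a ≤ (∑ b ∈ range q, (1 / (X : ℝ)) * ∑ i ∈ range X, vv l (n + i) (α + (b : ℝ) / q)) +
      (2 * l / X + 2 * Real.pi * ρ * l) := by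
  have hX0 : (0 : ℝ) < X := by exact_mod_cast hX
  obtain ⟨b, hb, k, hk⟩ := conc q hq (a - α) ρ h
  have h1 := sub_win X l n hX hl a
  have h2 : ∀ i ∈ range X, vv l (n + i) a ≤
      vv l (n + i) (α + (b : ℝ) / q) + 2 * Real.pi * ρ * l := by
    intro i _
    refine vv_near l (n + i) hl a (α + (b : ℝ) / q) ρ k ?_
    rw [show a - (α + (b : ℝ) / q) - k = a - α - (b : ℝ) / q - k by ring]
    exact hk
  have h3 := Finset.sum_le_sum h2
  rw [Finset.sum_add_distrib, Finset.sum_const, card_range, nsmul_eq_mul] at h3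
  have h4 : (1 / (X : ℝ)) * ∑ i ∈ range X, vv l (n + i) (α + (b : ℝ) / q) ≤
      ∑ b ∈ range q, (1 / (X : ℝ)) * ∑ i ∈ range X, vv l (n + i) (α + (b : ℝ) / q) := by
    refine Finset.single_le_sum
      (f := fun b : ℕ => (1 / (X : ℝ)) * ∑ i ∈ range X, vv l (n + i) (α + (b : ℝ) / q))
      (fun b _ => ?_) (mem_range.2 hb)
    refine mul_nonneg (by positivity) (Finset.sum_nonneg fun i _ => RCx.vv_nonneg _ _ _)
  have h5 : (1 / (X : ℝ)) * ∑ i ∈ range X, vv l (n + i) a ≤
      (1 / (X : ℝ)) * ∑ i ∈ range X, vv l (n + i) (α + (b : ℝ) / q) + 2 * Real.pi * ρ * l := by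
    have h6 := mul_le_mul_of_nonneg_left h3 (by positivity : (0 : ℝ) ≤ 1 / X)
    refine h6.trans (le_of_eq ?_)
    field_simp
  linarith

/-- Change of variables `v = log (e ^ u + i)`. -/
theorem shift_int (F : ℝ → ℝ) (hm : Measurable F) (h0 : ∀ x, 0 ≤ F x) (h1 : ∀ x, F x ≤ 1)
    (i : ℕ) (ta tb tb' : ℝ) (hab : ta ≤ tb) (ht : Real.exp tb + i ≤ Real.exp tb') :
    ∫ u in ta..tb, F (Real.log (Real.exp u + i)) ≤
      (∫ v in ta..tb', F v) + (tb - ta) * (i * Real.exp (-ta)) := by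
  have hi0 : (0 : ℝ) ≤ i := Nat.cast_nonneg i
  have hpos : ∀ u : ℝ, 0 < Real.exp u + i := fun u => by positivity
  have htt : tb ≤ tb' := Real.exp_le_exp.1 (by linarith)
  have hcont : Continuous fun u : ℝ => Real.log (Real.exp u + i) :=
    (Real.continuous_exp.add continuous_const).log fun u => (hpos u).ne'
  have hmono : Monotone fun u : ℝ => Real.log (Real.exp u + i) := by
    intro u v huv
    exact Real.log_le_log (hpos u) (by linarith [Real.exp_le_exp.2 huv])
  have hder : ∀ u : ℝ, HasDerivAt (fun u : ℝ => Real.log (Real.exp u + i))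
      (Real.exp u / (Real.exp u + i)) u := by
    intro u
    exact ((Real.hasDerivAt_exp u).add_const _).log (hpos u).ne'
  have hsub := integral_image_eq_integral_deriv_smul_of_monotoneOn
    (measurableSet_Ioc (a := ta) (b := tb)) (fun x _ => (hder x).hasDerivWithinAt)
    (hmono.monotoneOn _) F
  have himg : (fun u : ℝ => Real.log (Real.exp u + i)) '' Set.Ioc ta tb ⊆ Set.Ioc ta tb' := by
    rintro _ ⟨u, ⟨hu1, hu2⟩, rfl⟩
    refine ⟨?_, ?_⟩
    · refine hu1.trans_le ?_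
      rw [Real.le_log_iff_exp_le (hpos u)]
      linarith
    · change Real.log (Real.exp u + i) ≤ tb'
      rw [Real.log_le_iff_le_exp (hpos u)]
      linarith [Real.exp_le_exp.2 hu2]
  have hF : IntegrableOn F (Set.Ioc ta tb') :=
    (intervalIntegrable_iff_integrableOn_Ioc_of_le (hab.trans htt)).1 (ii_of_bdd hm h0 h1 _ _)
  have h2 : ∫ x in (fun u : ℝ => Real.log (Real.exp u + i)) '' Set.Ioc ta tb, F x ≤
      ∫ x in Set.Ioc ta tb', F x :=
    setIntegral_mono_set hF (Filter.Eventually.of_forall fun x => h0 x) himg.eventuallyLE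
  have hmc : Measurable fun u : ℝ => F (Real.log (Real.exp u + i)) := hm.comp hcont.measurable
  have hi1 : IntegrableOn (fun u : ℝ => F (Real.log (Real.exp u + i))) (Set.Ioc ta tb) :=
    (intervalIntegrable_iff_integrableOn_Ioc_of_le hab).1
      (ii_of_bdd hmc (fun x => h0 _) (fun x => h1 _) _ _)
  have hq1 : ∀ u : ℝ, Real.exp u / (Real.exp u + i) ≤ 1 := by
    intro u
    rw [div_le_one (hpos u)]
    linarith
  have hi2 : IntegrableOn (fun u : ℝ => (Real.exp u / (Real.exp u + i)) •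
      F (Real.log (Real.exp u + i))) (Set.Ioc ta tb) := by
    refine (intervalIntegrable_iff_integrableOn_Ioc_of_le hab).1 (ii_of_bdd ?_ ?_ ?_ _ _)
    · exact (Real.measurable_exp.div (Real.measurable_exp.add_const _)).mul hmc
    · intro x
      exact mul_nonneg (div_nonneg (Real.exp_pos _).le (hpos x).le) (h0 _)
    · intro x
      exact mul_le_one₀ (hq1 x) (h0 _) (h1 _)
  rw [intervalIntegral.integral_of_le hab, intervalIntegral.integral_of_le (hab.trans htt)]
  have h3 : ∫ u in Set.Ioc ta tb, F (Real.log (Real.exp u + i)) ≤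
      ∫ u in Set.Ioc ta tb, ((Real.exp u / (Real.exp u + i)) • F (Real.log (Real.exp u + i)) +
        i * Real.exp (-ta)) := by
    refine setIntegral_mono_on hi1 (hi2.add (integrableOn_const (by simp))) measurableSet_Ioc
      fun u hu => ?_
    have h4 : 1 - Real.exp u / (Real.exp u + i) ≤ i * Real.exp (-ta) := by
      have h5 : 1 - Real.exp u / (Real.exp u + i) = i / (Real.exp u + i) := by
        rw [eq_div_iff (hpos u).ne', sub_mul, div_mul_cancel₀ _ (hpos u).ne']
        ring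
      rw [h5, Real.exp_neg, ← div_eq_mul_inv]
      refine div_le_div_of_nonneg_left hi0 (Real.exp_pos _) ?_
      linarith [Real.exp_le_exp.2 hu.1.le]
    have h6 : F (Real.log (Real.exp u + i)) =
        (Real.exp u / (Real.exp u + i)) * F (Real.log (Real.exp u + i)) +
          (1 - Real.exp u / (Real.exp u + i)) * F (Real.log (Real.exp u + i)) := by ring
    have h7 : (1 - Real.exp u / (Real.exp u + i)) * F (Real.log (Real.exp u + i)) ≤
        i * Real.exp (-ta) := by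
      have h8 : 0 ≤ 1 - Real.exp u / (Real.exp u + i) := by linarith [hq1 u]
      nlinarith [h0 (Real.log (Real.exp u + i)), h1 (Real.log (Real.exp u + i))]
    rw [smul_eq_mul]
    linarith
  refine h3.trans ?_
  rw [integral_add hi2 (integrableOn_const (by simp)), ← hsub, setIntegral_const]
  have h9 : volume.real (Set.Ioc ta tb) = tb - ta := by
    rw [Measure.real, Real.volume_Ioc, ENNReal.toReal_ofReal (by linarith)]
  rw [h9, smul_eq_mul]
  linarith

/-- The measure of the points near the end of a cell. -/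
theorem bad_int (r δ ta tb : ℝ) (hr : 0 < r) (hδ : 0 ≤ δ) :
    ∫ u in ta..tb, ((⌊(u + δ) / r⌋ : ℝ) - (⌊u / r⌋ : ℝ)) ≤ δ * ((tb - ta + δ) / r + 1) := by
  have hmono : Monotone fun u : ℝ => (⌊u / r⌋ : ℝ) := by
    intro u v huv
    have : u / r ≤ v / r := div_le_div_of_nonneg_right huv hr.le
    have h' : ⌊u / r⌋ ≤ ⌊v / r⌋ := Int.floor_mono this
    change ((⌊u / r⌋ : ℤ) : ℝ) ≤ ((⌊v / r⌋ : ℤ) : ℝ)
    exact_mod_cast h'
  have hii : ∀ a b : ℝ, IntervalIntegrable (fun u : ℝ => (⌊u / r⌋ : ℝ)) volume a b :=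
    fun a b => hmono.intervalIntegrable
  have hmono2 : Monotone fun u : ℝ => (⌊(u + δ) / r⌋ : ℝ) := by
    intro u v huv
    exact hmono (by linarith)
  have hii2 : ∀ a b : ℝ, IntervalIntegrable (fun u : ℝ => (⌊(u + δ) / r⌋ : ℝ)) volume a b :=
    fun a b => hmono2.intervalIntegrable
  rw [intervalIntegral.integral_sub (hii2 _ _) (hii _ _)]
  have h1 : ∫ u in ta..tb, (⌊(u + δ) / r⌋ : ℝ) = ∫ u in (ta + δ)..(tb + δ), (⌊u / r⌋ : ℝ) :=
    intervalIntegral.integral_comp_add_right (fun u : ℝ => (⌊u / r⌋ : ℝ)) δ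
  rw [h1]
  have h2 : (∫ u in ta..tb, (⌊u / r⌋ : ℝ)) + ∫ u in tb..(tb + δ), (⌊u / r⌋ : ℝ) =
      (∫ u in ta..(ta + δ), (⌊u / r⌋ : ℝ)) + ∫ u in (ta + δ)..(tb + δ), (⌊u / r⌋ : ℝ) := by
    rw [intervalIntegral.integral_add_adjacent_intervals (hii _ _) (hii _ _),
      intervalIntegral.integral_add_adjacent_intervals (hii _ _) (hii _ _)]
  have h3 : ∫ u in tb..(tb + δ), (⌊u / r⌋ : ℝ) ≤ δ * ((tb + δ) / r) := by
    have h4 : ∫ u in tb..(tb + δ), (⌊u / r⌋ : ℝ) ≤ ∫ _u in tb..(tb + δ), ((tb + δ) / r) := by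
      refine intervalIntegral.integral_mono_on (by linarith) (hii _ _)
        intervalIntegrable_const fun u hu => ?_
      refine (Int.floor_le _).trans ?_
      exact div_le_div_of_nonneg_right hu.2 hr.le
    refine h4.trans (le_of_eq ?_)
    rw [intervalIntegral.integral_const, smul_eq_mul]
    ring
  have h5 : δ * (ta / r - 1) ≤ ∫ u in ta..(ta + δ), (⌊u / r⌋ : ℝ) := by
    have h6 : ∫ _u in ta..(ta + δ), (ta / r - 1) ≤ ∫ u in ta..(ta + δ), (⌊u / r⌋ : ℝ) := by
      refine intervalIntegral.integral_mono_on (by linarith) intervalIntegrable_const (hii _ _)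
        fun u hu => ?_
      have h7 := Int.sub_one_lt_floor (u / r)
      have h8 : ta / r ≤ u / r := div_le_div_of_nonneg_right hu.1 hr.le
      linarith
    refine (le_of_eq ?_).trans h6
    rw [intervalIntegral.integral_const, smul_eq_mul]
    ring
  have h9 : δ * ((tb - ta + δ) / r + 1) = δ * ((tb + δ) / r) - δ * (ta / r - 1) := by
    field_simp
    ring
  rw [h9]
  linarith

theorem grid_eq {al : ℝ → ℝ} {r : ℝ} (hr : 0 < r) (h : Grid al r) (x : ℝ) :
    al x = al ((⌊x / r⌋ : ℝ) * r) := by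
  refine h ⌊x / r⌋ x ?_ ?_
  · have := Int.floor_le (x / r)
    rwa [le_div_iff₀ hr] at this
  · have := Int.lt_floor_add_one (x / r)
    rwa [div_lt_iff₀ hr] at this

theorem grid_meas {al : ℝ → ℝ} {r : ℝ} (hr : 0 < r) (h : Grid al r) : Measurable al := by
  have h1 : al = (fun k : ℤ => al ((k : ℝ) * r)) ∘ fun x : ℝ => ⌊x / r⌋ := by
    funext x
    exact grid_eq hr h x
  rw [h1]
  exact (measurable_from_top (f := fun k : ℤ => al ((k : ℝ) * r))).comp
    (Int.measurable_floor.comp (measurable_id.div_const r))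

theorem ii_sum (s : Finset ℕ) (f : ℕ → ℝ → ℝ) (a b : ℝ)
    (h : ∀ i, IntervalIntegrable (f i) volume a b) :
    IntervalIntegrable (fun u => ∑ i ∈ s, f i u) volume a b := by
  have h1 := IntervalIntegrable.sum (μ := volume) (a := a) (b := b) s (f := f) fun i _ => h i
  have h2 : (∑ i ∈ s, f i) = fun u => ∑ i ∈ s, f i u := by
    funext u
    exact Finset.sum_apply u s f
  rw [← h2]
  exact h1

/-- One shift. -/
theorem one_shift (l : ℕ) (hl : 1 ≤ l) {al : ℝ → ℝ} {r : ℝ} (hr : 0 < r) (hal : Grid al r)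
    (β : ℝ) (X i : ℕ) (hi : i < X) (ta tb tb' : ℝ) (hab : ta ≤ tb)
    (ht : Real.exp tb + X ≤ Real.exp tb') :
    ∫ u in ta..tb, vv l (⌊Real.exp u⌋₊ + i) (al u + β) ≤
      (∫ v in ta..tb', vv l ⌊Real.exp v⌋₊ (al v + β)) + (tb - ta) * (X * Real.exp (-ta)) +
        X * Real.exp (-ta) * ((tb - ta + X * Real.exp (-ta)) / r + 1) := by
  have hmal := grid_meas hr hal
  set δ : ℝ := X * Real.exp (-ta) with hδ
  have hδ0 : 0 ≤ δ := by positivity
  have hiX : (i : ℝ) ≤ X := by exact_mod_cast hi.le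
  have hfl : Measurable fun u : ℝ => ⌊Real.exp u⌋₊ := Nat.measurable_floor.comp Real.measurable_exp
  have hmF : Measurable fun v : ℝ => vv l ⌊Real.exp v⌋₊ (al v + β) :=
    RCx.measurable_vv l hfl (hmal.add_const β)
  have hcont : Continuous fun u : ℝ => Real.log (Real.exp u + i) :=
    (Real.continuous_exp.add continuous_const).log
      fun u => (by positivity : (0 : ℝ) < Real.exp u + i).ne'
  have hmF2 : Measurable fun u : ℝ => vv l ⌊Real.exp (Real.log (Real.exp u + i))⌋₊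
      (al (Real.log (Real.exp u + i)) + β) := hmF.comp hcont.measurable
  have hmG : Measurable fun u : ℝ => vv l (⌊Real.exp u⌋₊ + i) (al u + β) := by
    refine RCx.measurable_vv l ?_ (hmal.add_const β)
    exact (measurable_from_top (f := fun k : ℕ => k + i)).comp hfl
  have hmono : Monotone fun u : ℝ => (⌊u / r⌋ : ℝ) := by
    intro u v huv
    have : u / r ≤ v / r := div_le_div_of_nonneg_right huv hr.le
    have h' : ⌊u / r⌋ ≤ ⌊v / r⌋ := Int.floor_mono this
    change ((⌊u / r⌋ : ℤ) : ℝ) ≤ ((⌊v / r⌋ : ℤ) : ℝ)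
    exact_mod_cast h'
  have hmono2 : Monotone fun u : ℝ => (⌊(u + δ) / r⌋ : ℝ) := by
    intro u v huv
    exact hmono (by linarith)
  have hiB : IntervalIntegrable (fun u : ℝ => (⌊(u + δ) / r⌋ : ℝ) - (⌊u / r⌋ : ℝ))
      volume ta tb := hmono2.intervalIntegrable.sub hmono.intervalIntegrable
  have hi1 : IntervalIntegrable (fun u : ℝ => vv l (⌊Real.exp u⌋₊ + i) (al u + β))
      volume ta tb := ii_of_bdd hmG (fun x => RCx.vv_nonneg _ _ _) (fun x => RCx.vv_le_one _ hl _ _) _ _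
  have hi2 : IntervalIntegrable (fun u : ℝ => vv l ⌊Real.exp (Real.log (Real.exp u + i))⌋₊
      (al (Real.log (Real.exp u + i)) + β)) volume ta tb :=
    ii_of_bdd hmF2 (fun x => RCx.vv_nonneg _ _ _) (fun x => RCx.vv_le_one _ hl _ _) _ _
  have h1 : ∫ u in ta..tb, vv l (⌊Real.exp u⌋₊ + i) (al u + β) ≤
      ∫ u in ta..tb, (vv l ⌊Real.exp (Real.log (Real.exp u + i))⌋₊
        (al (Real.log (Real.exp u + i)) + β) + ((⌊(u + δ) / r⌋ : ℝ) - (⌊u / r⌋ : ℝ))) := by
    refine intervalIntegral.integral_mono_on hab hi1 (hi2.add hiB) fun u hu => ?_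
    have hp : (0 : ℝ) < Real.exp u + i := by positivity
    have hf : ⌊Real.exp (Real.log (Real.exp u + i))⌋₊ = ⌊Real.exp u⌋₊ + i := by
      rw [Real.exp_log hp, Nat.floor_add_natCast (Real.exp_pos u).le]
    rw [hf]
    have hle : (⌊u / r⌋ : ℤ) ≤ ⌊(u + δ) / r⌋ :=
      Int.floor_mono (div_le_div_of_nonneg_right (by linarith) hr.le)
    rcases hle.lt_or_eq with hlt | heq
    · have h2 : (1 : ℝ) ≤ (⌊(u + δ) / r⌋ : ℝ) - (⌊u / r⌋ : ℝ) := by
        have : (⌊u / r⌋ : ℤ) + 1 ≤ ⌊(u + δ) / r⌋ := hlt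
        have h3 : ((⌊u / r⌋ : ℤ) : ℝ) + 1 ≤ ((⌊(u + δ) / r⌋ : ℤ) : ℝ) := by exact_mod_cast this
        linarith
      have h4 := RCx.vv_le_one l hl (⌊Real.exp u⌋₊ + i) (al u + β)
      have h5 := RCx.vv_nonneg l (⌊Real.exp u⌋₊ + i) (al (Real.log (Real.exp u + i)) + β)
      linarith
    · have hv1 : u ≤ Real.log (Real.exp u + i) := by
        rw [Real.le_log_iff_exp_le hp]
        have : (0 : ℝ) ≤ i := Nat.cast_nonneg i
        linarith
      have hv2 : Real.log (Real.exp u + i) ≤ u + δ := by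
        rw [Real.log_le_iff_le_exp hp, Real.exp_add]
        have h6 : 1 + δ ≤ Real.exp δ := by linarith [Real.add_one_le_exp δ]
        have h7 : (i : ℝ) ≤ Real.exp u * δ := by
          rw [hδ]
          have h8 : (1 : ℝ) ≤ Real.exp u * Real.exp (-ta) := by
            rw [← Real.exp_add]
            exact Real.one_le_exp (by linarith [hu.1])
          have h9 : (0 : ℝ) ≤ X := Nat.cast_nonneg X
          nlinarith
        nlinarith [Real.exp_pos u]
      have hfv : ⌊Real.log (Real.exp u + i) / r⌋ = ⌊u / r⌋ := by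
        apply le_antisymm
        · rw [heq]
          exact Int.floor_mono (div_le_div_of_nonneg_right hv2 hr.le)
        · exact Int.floor_mono (div_le_div_of_nonneg_right hv1 hr.le)
      have hal2 : al (Real.log (Real.exp u + i)) = al u := by
        rw [grid_eq hr hal u, grid_eq hr hal (Real.log (Real.exp u + i)), hfv]
      rw [hal2, ← heq]
      linarith
  refine h1.trans ?_
  rw [intervalIntegral.integral_add hi2 hiB]
  have h2 := shift_int (fun v : ℝ => vv l ⌊Real.exp v⌋₊ (al v + β)) hmF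
    (fun x => RCx.vv_nonneg _ _ _) (fun x => RCx.vv_le_one _ hl _ _) i ta tb tb' hab
    (by linarith)
  have h3 := bad_int r δ ta tb hr hδ0
  have h4 : (tb - ta) * (i * Real.exp (-ta)) ≤ (tb - ta) * δ := by
    refine mul_le_mul_of_nonneg_left ?_ (by linarith)
    exact mul_le_mul_of_nonneg_right hiX (Real.exp_pos _).le
  linarith

end T14r

set_option maxHeartbeats 1000000 in
/-- Row T14: concentrated frequencies of windows are rare. -/
theorem t14 : T14_stmt := by
  intro hT A₁ κ ε Q hA hκ hε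
  have hQ0 : (0 : ℝ) ≤ Q := Nat.cast_nonneg Q
  set c₁ : ℝ := min (κ / 2) (1 / 4) with hc₁
  have hc0 : 0 < c₁ := lt_min (by linarith) (by norm_num)
  have hca : c₁ ≤ κ / 2 := min_le_left _ _
  have hcb : c₁ ≤ 1 / 4 := min_le_right _ _
  have hc1 : c₁ ≤ 1 := hcb.trans (by norm_num)
  obtain ⟨H₁, hH₁⟩ := hT A₁ c₁ (ε / (8 * (Q + 1))) Q hA hc0 hc1 (by positivity)
  have e1 : ∀ᶠ H : ℕ in Filter.atTop, (H : ℝ) ^ (-(1 / 4 : ℝ)) < ε / 16 :=
    ((tendsto_rpow_neg_atTop (by norm_num : (0 : ℝ) < 1 / 4)).comp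
      tendsto_natCast_atTop_atTop).eventually_lt_const (by positivity)
  have e2 : ∀ᶠ H : ℕ in Filter.atTop, (H : ℝ) ^ (-(κ / 2)) < ε / 64 :=
    ((tendsto_rpow_neg_atTop (by linarith : 0 < κ / 2)).comp
      tendsto_natCast_atTop_atTop).eventually_lt_const (by positivity)
  have e3 : ∀ᶠ H : ℕ in Filter.atTop, (H : ℝ) ^ (-(2 : ℝ)) < ε / (16 * (Q + 1)) :=
    ((tendsto_rpow_neg_atTop (by norm_num : (0 : ℝ) < 2)).comp
      tendsto_natCast_atTop_atTop).eventually_lt_const (by positivity)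
  obtain ⟨H₂, hH₂⟩ := Filter.eventually_atTop.1 (e1.and (e2.and e3))
  refine ⟨max (max H₁ H₂) 3, fun H N X hH hN hX1 hX2 a al hal q hq1 hq2 => ?_⟩
  have hHa : H₁ ≤ H := ((le_max_left _ _).trans (le_max_left _ _)).trans hH
  have hHb : H₂ ≤ H := ((le_max_right _ _).trans (le_max_left _ _)).trans hH
  have hH3 : 3 ≤ H := (le_max_right _ _).trans hH
  obtain ⟨f1, f2, f3⟩ := hH₂ H hHb
  have hH3r : (3 : ℝ) ≤ H := by exact_mod_cast hH3
  have hHpos : (0 : ℝ) < H := by linarith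
  have hHone : (1 : ℝ) ≤ H := by linarith
  have hLH : 1 ≤ Real.log H := by
    rw [Real.le_log_iff_exp_le hHpos]
    linarith [Real.exp_one_lt_d9]
  have hNH3 : (H : ℝ) ^ (3 : ℝ) ≤ N :=
    (Real.rpow_le_rpow_of_exponent_le hHone (by linarith)).trans hN
  have hHN : (H : ℝ) ≤ N := by
    refine le_trans ?_ hNH3
    calc (H : ℝ) = (H : ℝ) ^ (1 : ℝ) := (Real.rpow_one _).symm
      _ ≤ _ := Real.rpow_le_rpow_of_exponent_le hHone (by norm_num)
  have hNpos : (0 : ℝ) < N := by linarith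
  have hlogN : (A₁ + 3) * Real.log H ≤ Real.log N := by
    rw [← Real.log_rpow hHpos]
    exact Real.log_le_log (Real.rpow_pos_of_pos hHpos _) hN
  have hlN3 : 3 ≤ Real.log N := by nlinarith
  set ta : ℝ := (A₁ + 3) * Real.log H with hta
  set tb : ℝ := Real.log N with htb
  have hta0 : 0 ≤ ta := by positivity
  -- the cells
  set r : ℝ := (H : ℝ) ^ (-A₁) with hr
  have hr0 : 0 < r := Real.rpow_pos_of_pos hHpos _
  have hr1 : r ≤ 1 := Real.rpow_le_one_of_one_le_of_nonpos hHone (by linarith)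
  -- the short windows
  set l : ℕ := ⌊(H : ℝ) ^ c₁⌋₊ with hl
  have hl1 : 1 ≤ l := by
    rw [hl, Nat.one_le_floor_iff]
    exact Real.one_le_rpow hHone hc0.le
  have hlle : (l : ℝ) ≤ (H : ℝ) ^ c₁ := Nat.floor_le (by positivity)
  have hX0 : (0 : ℝ) < X := (Real.rpow_pos_of_pos hHpos _).trans_le hX1
  have hX1n : 1 ≤ X := by
    have : 0 < X := by exact_mod_cast hX0
    omega
  have hXH : (X : ℝ) ≤ H := by exact_mod_cast hX2
  set ρ : ℝ := (H : ℝ) ^ (-κ) with hρ
  have hρ0 : 0 < ρ := Real.rpow_pos_of_pos hHpos _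
  -- the shift
  set δ : ℝ := X * Real.exp (-ta) with hδ
  have hδ0 : 0 ≤ δ := by positivity
  set h2 : ℝ := (H : ℝ) ^ (-(2 : ℝ)) with hh2
  have hh20 : 0 < h2 := Real.rpow_pos_of_pos hHpos _
  have hδr : δ ≤ r * h2 := by
    have g1 : Real.exp (-ta) = (H : ℝ) ^ (-(A₁ + 3)) := by
      rw [Real.rpow_def_of_pos hHpos, hta]
      congr 1
      ring
    rw [hδ, g1, hr, hh2, ← Real.rpow_add hHpos]
    calc (X : ℝ) * (H : ℝ) ^ (-(A₁ + 3)) ≤ (H : ℝ) ^ (1 : ℝ) * (H : ℝ) ^ (-(A₁ + 3)) := by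
          rw [Real.rpow_one]
          exact mul_le_mul_of_nonneg_right hXH (Real.rpow_nonneg hHpos.le _)
      _ = _ := by
          rw [← Real.rpow_add hHpos]
          congr 1
          ring
  have hh21 : h2 ≤ 1 := Real.rpow_le_one_of_one_le_of_nonpos hHone (by norm_num)
  have hδ2 : δ ≤ h2 := hδr.trans (mul_le_of_le_one_left hh20.le hr1)
  -- measurability
  have hmal := T14r.grid_meas hr0 hal
  have hfl : Measurable fun u : ℝ => ⌊Real.exp u⌋₊ := Nat.measurable_floor.comp Real.measurable_exp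
  have hma : Measurable fun u : ℝ => a ⌊Real.exp u⌋₊ := (measurable_from_top (f := a)).comp hfl
  have hiG : IntervalIntegrable (fun u : ℝ => vv X ⌊Real.exp u⌋₊ (a ⌊Real.exp u⌋₊) *
      (if nd ((q : ℝ) * (a ⌊Real.exp u⌋₊ - al u)) ≤ ρ then 1 else 0)) volume ta tb := by
    refine ii_of_bdd ?_ (fun x => ?_) (fun x => ?_) _ _
    · refine (RCx.measurable_vv X hfl hma).mul ?_
      refine Measurable.ite (measurableSet_le ?_ measurable_const) measurable_const measurable_const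
      exact continuous_nd.measurable.comp ((hma.sub hmal).const_mul _)
    · refine mul_nonneg (RCx.vv_nonneg _ _ _) ?_
      split_ifs <;> norm_num
    · refine mul_le_one₀ (RCx.vv_le_one _ hX1n _ _) ?_ ?_
      · split_ifs <;> norm_num
      · split_ifs <;> norm_num
  have hiW : ∀ (b i : ℕ), IntervalIntegrable
      (fun u : ℝ => vv l (⌊Real.exp u⌋₊ + i) (al u + (b : ℝ) / q)) volume ta tb := by
    intro b i
    refine ii_of_bdd ?_ (fun x => RCx.vv_nonneg _ _ _) (fun x => RCx.vv_le_one _ hl1 _ _) _ _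
    refine RCx.measurable_vv l ?_ (hmal.add_const _)
    exact (measurable_from_top (f := fun k : ℕ => k + i)).comp hfl
  have hiS : ∀ b : ℕ, IntervalIntegrable (fun u : ℝ => (1 / (X : ℝ)) *
      ∑ i ∈ range X, vv l (⌊Real.exp u⌋₊ + i) (al u + (b : ℝ) / q)) volume ta tb := by
    intro b
    refine IntervalIntegrable.const_mul ?_ _
    exact T14r.ii_sum (range X)
      (fun (i : ℕ) (u : ℝ) => vv l (⌊Real.exp u⌋₊ + i) (al u + (b : ℝ) / q)) ta tb (hiW b)
  have hiT : IntervalIntegrable (fun u : ℝ => ∑ b ∈ range q, (1 / (X : ℝ)) *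
      ∑ i ∈ range X, vv l (⌊Real.exp u⌋₊ + i) (al u + (b : ℝ) / q)) volume ta tb :=
    T14r.ii_sum (range q) (fun (b : ℕ) (u : ℝ) => (1 / (X : ℝ)) *
      ∑ i ∈ range X, vv l (⌊Real.exp u⌋₊ + i) (al u + (b : ℝ) / q)) ta tb hiS
  set E : ℝ := 2 * l / X + 2 * Real.pi * ρ * l with hE
  have hE0 : 0 ≤ E := by positivity
  have hE1 : E ≤ ε / 4 := by
    have g1 : 2 * (l : ℝ) / X ≤ ε / 8 := by
      rw [div_le_iff₀ hX0]
      have g2 : (H : ℝ) ^ c₁ ≤ (H : ℝ) ^ (-(1 / 4 : ℝ)) * X := by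
        calc (H : ℝ) ^ c₁ ≤ (H : ℝ) ^ (1 / 4 : ℝ) :=
              Real.rpow_le_rpow_of_exponent_le hHone hcb
          _ = (H : ℝ) ^ (-(1 / 4 : ℝ)) * (H : ℝ) ^ (1 / 2 : ℝ) := by
              rw [← Real.rpow_add hHpos]; norm_num
          _ ≤ _ := mul_le_mul_of_nonneg_left hX1 (Real.rpow_nonneg hHpos.le _)
      have g3 : (H : ℝ) ^ (-(1 / 4 : ℝ)) * X ≤ ε / 16 * X :=
        mul_le_mul_of_nonneg_right f1.le hX0.le
      linarith
    have g4 : 2 * Real.pi * ρ * l ≤ ε / 8 := by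
      have g5 : ρ * l ≤ ε / 64 := by
        calc ρ * l ≤ (H : ℝ) ^ (-κ) * (H : ℝ) ^ c₁ := mul_le_mul_of_nonneg_left hlle hρ0.le
          _ ≤ (H : ℝ) ^ (-κ) * (H : ℝ) ^ (κ / 2) := mul_le_mul_of_nonneg_left
              (Real.rpow_le_rpow_of_exponent_le hHone hca) (Real.rpow_nonneg hHpos.le _)
          _ = (H : ℝ) ^ (-(κ / 2)) := by
              rw [← Real.rpow_add hHpos]
              congr 1
              ring
          _ ≤ _ := f2.le
      have g6 := Real.pi_lt_d2
      have g7 : 0 ≤ ρ * l := by positivity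
      calc 2 * Real.pi * ρ * l = 2 * Real.pi * (ρ * l) := by ring
        _ ≤ 2 * 4 * (ε / 64) := by
            refine mul_le_mul ?_ g5 g7 (by norm_num)
            linarith
        _ = _ := by ring
    linarith
  -- the pointwise bound
  have h1 : ∫ u in ta..tb, vv X ⌊Real.exp u⌋₊ (a ⌊Real.exp u⌋₊) *
      (if nd ((q : ℝ) * (a ⌊Real.exp u⌋₊ - al u)) ≤ ρ then 1 else 0) ≤
      ∫ u in ta..tb, ((∑ b ∈ range q, (1 / (X : ℝ)) *
        ∑ i ∈ range X, vv l (⌊Real.exp u⌋₊ + i) (al u + (b : ℝ) / q)) + E) := by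
    refine intervalIntegral.integral_mono_on hlogN hiG (hiT.add intervalIntegrable_const)
      fun u _ => ?_
    split_ifs with hc
    · rw [mul_one]
      exact T14r.point X l ⌊Real.exp u⌋₊ q hX1n hl1 hq1 _ _ ρ hc
    · rw [mul_zero]
      refine add_nonneg (Finset.sum_nonneg fun b _ => mul_nonneg (by positivity)
        (Finset.sum_nonneg fun i _ => RCx.vv_nonneg _ _ _)) hE0
  refine h1.trans ?_
  rw [intervalIntegral.integral_add hiT intervalIntegrable_const,
    intervalIntegral.integral_finsetSum fun b _ => hiS b, intervalIntegral.integral_const]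
  -- the range of Theorem V
  have hlog2N : Real.log ((2 * N : ℕ) : ℝ) ≤ 2 * Real.log N := by
    push_cast
    rw [Real.log_mul (by norm_num) hNpos.ne']
    have : Real.log 2 ≤ Real.log N := Real.log_le_log (by norm_num) (by linarith)
    linarith
  have hexp : Real.exp tb + X ≤ Real.exp (Real.log ((2 * N : ℕ) : ℝ)) := by
    rw [htb, Real.exp_log hNpos, Real.exp_log (by push_cast; positivity)]
    push_cast
    linarith
  have htt : tb ≤ Real.log ((2 * N : ℕ) : ℝ) :=
    Real.log_le_log hNpos (by push_cast; linarith)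
  have hN2 : (H : ℝ) ^ (A₁ + 1) ≤ ((2 * N : ℕ) : ℝ) := by
    push_cast
    have := (Real.rpow_le_rpow_of_exponent_le hHone (by linarith : A₁ + 1 ≤ A₁ + 3)).trans hN
    linarith
  set B : ℝ := ε / (2 * (Q + 1)) * Real.log N with hB
  have hBound : ∀ b ∈ range q, ∀ i ∈ range X,
      ∫ u in ta..tb, vv l (⌊Real.exp u⌋₊ + i) (al u + (b : ℝ) / q) ≤ B := by
    intro b hb i hi
    have k1 := T14r.one_shift l hl1 hr0 hal ((b : ℝ) / q) X i (mem_range.1 hi) ta tb
      (Real.log ((2 * N : ℕ) : ℝ)) hlogN hexp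
    have k2 := hH₁ H (2 * N) hHa hN2 al hal q b hq1 hq2 (mem_range.1 hb)
    have hmF : Measurable fun v : ℝ => vv l ⌊Real.exp v⌋₊ (al v + (b : ℝ) / q) :=
      RCx.measurable_vv l hfl (hmal.add_const _)
    have hiF : ∀ s t : ℝ, IntervalIntegrable
        (fun v : ℝ => vv l ⌊Real.exp v⌋₊ (al v + (b : ℝ) / q)) volume s t := fun s t =>
      ii_of_bdd hmF (fun x => RCx.vv_nonneg _ _ _) (fun x => RCx.vv_le_one _ hl1 _ _) _ _
    have k3 : ∫ v in ta..(Real.log ((2 * N : ℕ) : ℝ)),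
        vv l ⌊Real.exp v⌋₊ (al v + (b : ℝ) / q) ≤
        ∫ v in ((A₁ + 1) * Real.log H)..(Real.log ((2 * N : ℕ) : ℝ)),
          vv l ⌊Real.exp v⌋₊ (al v + (b : ℝ) / q) := by
      rw [← intervalIntegral.integral_add_adjacent_intervals (hiF ((A₁ + 1) * Real.log H) ta)
        (hiF ta (Real.log ((2 * N : ℕ) : ℝ)))]
      have k4 : 0 ≤ ∫ v in ((A₁ + 1) * Real.log H)..ta,
          vv l ⌊Real.exp v⌋₊ (al v + (b : ℝ) / q) := by
        refine intervalIntegral.integral_nonneg ?_ fun u _ => RCx.vv_nonneg _ _ _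
        rw [hta]
        nlinarith
      linarith
    have k5 : ε / (8 * (Q + 1)) * Real.log ((2 * N : ℕ) : ℝ) ≤
        ε / (4 * (Q + 1)) * Real.log N := by
      have := mul_le_mul_of_nonneg_left hlog2N (by positivity : 0 ≤ ε / (8 * ((Q : ℝ) + 1)))
      refine this.trans (le_of_eq ?_)
      field_simp
      ring
    have k6 : (tb - ta) * δ ≤ h2 * Real.log N := by
      have : tb - ta ≤ Real.log N := by linarith
      calc (tb - ta) * δ ≤ Real.log N * h2 :=
            mul_le_mul this hδ2 hδ0 (by linarith)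
        _ = _ := by ring
    have k7 : δ * ((tb - ta + δ) / r + 1) ≤ 3 * h2 * Real.log N := by
      have k8 : δ / r ≤ h2 := by
        rw [div_le_iff₀ hr0]
        linarith
      have k9 : δ * ((tb - ta + δ) / r + 1) = (δ / r) * (tb - ta + δ) + δ := by
        field_simp
      have k10 : tb - ta + δ ≤ 2 * Real.log N := by linarith
      have k11 : (δ / r) * (tb - ta + δ) ≤ h2 * (2 * Real.log N) :=
        mul_le_mul k8 k10 (by linarith) hh20.le
      rw [k9]
      nlinarith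
    have k12 : 4 * h2 * Real.log N ≤ ε / (4 * (Q + 1)) * Real.log N := by
      refine mul_le_mul_of_nonneg_right ?_ (by linarith)
      have k13 : 4 * (ε / (16 * ((Q : ℝ) + 1))) = ε / (4 * (Q + 1)) := by
        field_simp
        norm_num
      linarith
    have k14 : ε / (4 * ((Q : ℝ) + 1)) * Real.log N + ε / (4 * (Q + 1)) * Real.log N = B := by
      rw [hB]
      field_simp
      ring
    have k15 : X * Real.exp (-ta) = δ := rfl
    rw [k15] at k1
    linarith
  have hB0 : 0 ≤ B := by positivity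
  have hsum : ∑ b ∈ range q, ∫ u in ta..tb, (1 / (X : ℝ)) *
      ∑ i ∈ range X, vv l (⌊Real.exp u⌋₊ + i) (al u + (b : ℝ) / q) ≤ ∑ _b ∈ range q, B := by
    refine Finset.sum_le_sum fun b hb => ?_
    rw [intervalIntegral.integral_const_mul, intervalIntegral.integral_finsetSum
      fun i _ => hiW b i]
    have := Finset.sum_le_sum (hBound b hb)
    rw [Finset.sum_const, card_range, nsmul_eq_mul] at this
    calc (1 / (X : ℝ)) * _ ≤ (1 / (X : ℝ)) * (X * B) :=
          mul_le_mul_of_nonneg_left this (by positivity)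
      _ = B := by field_simp
  rw [Finset.sum_const, card_range, nsmul_eq_mul] at hsum
  have hqQ : (q : ℝ) ≤ Q := by exact_mod_cast hq2
  have hqB : (q : ℝ) * B ≤ ε / 2 * Real.log N := by
    have g1 : (q : ℝ) * B ≤ (Q + 1) * B := mul_le_mul_of_nonneg_right (by linarith) hB0
    refine g1.trans (le_of_eq ?_)
    rw [hB]
    field_simp
  have hEt : (tb - ta) • E ≤ ε / 4 * Real.log N := by
    rw [smul_eq_mul, mul_comm]
    exact mul_le_mul hE1 (by linarith) (by linarith) (by positivity)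
  have hfin : ε / 2 * Real.log N + ε / 4 * Real.log N ≤ ε * Real.log N := by nlinarith
  linarith

end Pool.Agent.SV
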