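import Pool.Agent.Lib.SV.Defs3
import Pool.Agent.Lib.MRF.HZ
import Pool.Agent.Lib.MRF.HA
import Pool.Agent.Lib.MRF.FL
import Pool.Agent.Lib.MRL.Top

/-! Theorem V, row U3: Halász for `λ χ`, every power.  helper50. -/

set_option autoImplicit false

namespace Pool.Agent.SV

open Finset Pool.Agent.MRHal Complex Pool.Agent.MRL Pool.Agent.MRF

/-- Halász for `f(n) n^{-it}`, `|t| ≤ x ^ D`. -/
theorem halaszT {f : ℕ → ℂ} (hf : CM f) (hF : FlUpF f) (D : ℕ) (η : ℝ) (hη : 0 < η) :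
    ∃ x0 : ℝ, ∀ x : ℝ, x0 ≤ x → ∀ t : ℝ, |t| ≤ x ^ D →
      ‖∑ n ∈ Icc 1 ⌊x⌋₊, f n * nt n t‖ ≤ η * x := by
  obtain ⟨κ', hκ'0, hκ'1, C0, hC0, hF⟩ := hF
  obtain ⟨κ, hκ, X0, hX0⟩ := hal η hη
  set e : ℝ := (κ / C0) ^ (1 / κ') with he
  have he0 : 0 < e := by positivity
  obtain ⟨C, hC, hF⟩ := hF (e / (2 * (D + 3))) (by positivity)
  refine ⟨max X0 (max (Real.exp 4) (Real.exp (2 * C / e))), fun x hx t ht => ?_⟩
  have hx1 : X0 ≤ x := (le_max_left _ _).trans hx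
  have hx2 : Real.exp 4 ≤ x := ((le_max_left _ _).trans (le_max_right _ _)).trans hx
  have hx3 : Real.exp (2 * C / e) ≤ x := ((le_max_right _ _).trans (le_max_right _ _)).trans hx
  have hx5 : (5 : ℝ) ≤ x := by
    have := Real.add_one_le_exp (4 : ℝ)
    linarith
  have hx0 : 0 < x := by linarith
  set l : ℝ := Real.log x with hl
  have hl4 : 4 ≤ l := by
    rw [hl, Real.le_log_iff_exp_le hx0]
    exact hx2
  have hl0 : 0 < l := by linarith
  have hlC : 2 * C / e ≤ l := by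
    rw [hl, Real.le_log_iff_exp_le hx0]
    exact hx3
  have hlx : l ≤ x := by
    have := Real.log_le_sub_one_of_pos hx0
    linarith
  have h := hX0 x hx1 (ft f t) (cm_ft hf t) (fun τ hτ => ?_)
  · have h1 : ps (ft f t) x = ∑ n ∈ Icc 1 ⌊x⌋₊, f n * nt n t := by
      unfold ps
      refine sum_congr rfl fun n hn => ?_
      rw [mem_Icc] at hn
      exact ft_pos t (by omega)
    rwa [h1] at h
  · rw [← hl] at hτ ⊢
    rw [ls_ft]
    have ha0 : 0 < l⁻¹ := by positivity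
    have ha1 : l⁻¹ ≤ 1 := inv_le_one_of_one_le₀ (by linarith)
    refine (hF l⁻¹ (t + τ) ha0 ha1).trans ?_
    have h1 : 2 + |t + τ| ≤ x ^ (D + 3) := by
      have h2 : |t + τ| ≤ x ^ D + l ^ 2 := (abs_add_le _ _).trans (add_le_add ht hτ)
      have h3 : l ^ 2 ≤ x ^ 2 := by gcongr
      have h4 : x ^ D ≤ x ^ (D + 2) := pow_le_pow_right₀ (by linarith) (by omega)
      have h4' : x ^ 2 ≤ x ^ (D + 2) := pow_le_pow_right₀ (by linarith) (by omega)
      have h5 : x ^ (D + 2) * 5 ≤ x ^ (D + 3) := by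
        have h6 : 0 < x ^ (D + 2) := by positivity
        rw [pow_succ x (D + 2)]
        exact mul_le_mul_of_nonneg_left hx5 h6.le
      nlinarith [sq_nonneg x]
    have h2 : Real.log (2 + |t + τ|) ≤ (D + 3) * l := by
      have h3 := Real.log_le_log (by positivity) h1
      rw [Real.log_pow] at h3
      push_cast at h3
      exact h3
    have h3 : e / (2 * (D + 3)) * Real.log (2 + |t + τ|) + C ≤ e * l := by
      rw [div_le_iff₀ he0] at hlC
      have h7 : e / (2 * (D + 3)) * Real.log (2 + |t + τ|) ≤ e / (2 * (D + 3)) * ((D + 3) * l) := by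
        gcongr
      have h8 : e / (2 * (D + 3)) * ((D + 3) * l) = e * l / 2 := by
        field_simp
      linarith
    have h4 : 0 ≤ e / (2 * (D + 3)) * Real.log (2 + |t + τ|) + C := by
      have : 0 ≤ Real.log (2 + |t + τ|) := Real.log_nonneg (by linarith [abs_nonneg (t + τ)])
      positivity
    have h5 : (e / (2 * (D + 3)) * Real.log (2 + |t + τ|) + C) ^ κ' ≤ (κ / C0) * l ^ κ' := by
      calc (e / (2 * (D + 3)) * Real.log (2 + |t + τ|) + C) ^ κ' ≤ (e * l) ^ κ' :=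
            Real.rpow_le_rpow h4 h3 hκ'0.le
        _ = e ^ κ' * l ^ κ' := Real.mul_rpow he0.le hl0.le
        _ = (κ / C0) * l ^ κ' := by
          rw [he, ← Real.rpow_mul (by positivity), one_div_mul_cancel hκ'0.ne', Real.rpow_one]
    have h6 : (l⁻¹) ^ (-(1 - κ')) = l ^ (1 - κ') := by
      rw [Real.inv_rpow hl0.le, Real.rpow_neg hl0.le, inv_inv]
    calc C0 * (l⁻¹) ^ (-(1 - κ')) * (e / (2 * (D + 3)) * Real.log (2 + |t + τ|) + C) ^ κ'
        ≤ C0 * (l⁻¹) ^ (-(1 - κ')) * ((κ / C0) * l ^ κ') := by gcongr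
      _ = κ * (l ^ (1 - κ') * l ^ κ') := by
        rw [h6]
        field_simp
      _ = κ * l := by
        rw [← Real.rpow_add hl0, sub_add_cancel, Real.rpow_one]

/-- partial summation. -/
theorem halaszAT {f : ℕ → ℂ} (hf : CM f) (hF : FlUpF f) (D : ℕ) (η : ℝ) (hη : 0 < η) :
    ∃ Y0 : ℝ, ∀ Y : ℝ, Y0 ≤ Y → ∀ t : ℝ, |t| ≤ Y ^ D → ‖AF f Y t‖ ≤ η := by
  obtain ⟨x0, hx0⟩ := halaszT hf hF D (η / 16) (by positivity)
  refine ⟨max x0 2, fun Y hY t ht => ?_⟩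
  have hY2 : 2 ≤ Y := le_trans (le_max_right _ _) hY
  have hYx : x0 ≤ Y := le_trans (le_max_left _ _) hY
  obtain ⟨N0, hN0def⟩ : ∃ N0, N0 = ⌊Y⌋₊ := ⟨_, rfl⟩
  obtain ⟨N1, hN1def⟩ : ∃ N1, N1 = ⌊2 * Y⌋₊ := ⟨_, rfl⟩
  have h1 : (N0 : ℝ) ≤ Y := by rw [hN0def]; exact Nat.floor_le (by linarith)
  have h2 : Y < N0 + 1 := by rw [hN0def]; exact Nat.lt_floor_add_one Y
  have h3 : (N1 : ℝ) ≤ 2 * Y := by rw [hN1def]; exact Nat.floor_le (by linarith)
  have h4 : N0 ≤ N1 := by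
    rw [hN0def, hN1def]; exact Nat.floor_mono (by linarith)
  have h5 : 1 ≤ N0 := by
    have : (1 : ℝ) < N0 := by linarith
    exact_mod_cast this.le
  have h5r : (1 : ℝ) ≤ N0 := by exact_mod_cast h5
  have hF : ∀ m, N0 ≤ m → ‖haF f t m‖ ≤ (η / 8) * m := by
    intro m hm
    have hmr : (N0 : ℝ) ≤ m := by exact_mod_cast hm
    have hfl : ⌊max (m : ℝ) Y⌋₊ = m := by
      rcases le_total (m : ℝ) Y with hc | hc
      · rw [max_eq_right hc, ← hN0def]
        apply le_antisymm hm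
        rw [hN0def]
        exact Nat.le_floor hc
      · rw [max_eq_left hc, Nat.floor_natCast]
    have h6 := hx0 (max (m : ℝ) Y) (le_trans hYx (le_max_right _ _)) t
      (ht.trans (by
        have : Y ≤ max (m : ℝ) Y := le_max_right _ _
        gcongr))
    rw [hfl] at h6
    have h7 : max (m : ℝ) Y ≤ 2 * m := by
      apply max_le <;> linarith
    calc ‖haF f t m‖ ≤ η / 16 * max (m : ℝ) Y := h6
      _ ≤ η / 16 * (2 * m) := by gcongr
      _ = η / 8 * m := by ring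
  have h8 := ha_abel f (t := t) (B := η / 8) (by positivity) h5 hF N1 h4
  have hA : AF f Y t = ∑ m ∈ Ioc N0 N1, (((1 / (m : ℝ) : ℝ) : ℂ) * f m) * nt m t := by
    rw [hN0def, hN1def]; rfl
  have h9 : ∀ m, N0 ≤ m → ‖haF f t m / (m : ℂ)‖ ≤ η / 8 := by
    intro m hm
    have hmr : (1 : ℝ) ≤ m := by
      have : (N0 : ℝ) ≤ m := by exact_mod_cast hm
      linarith
    rw [norm_div, Complex.norm_natCast, div_le_iff₀ (by linarith)]
    exact hF m hm
  have h10 : η / 8 * ((N1 : ℝ) - N0) / N0 ≤ η / 8 * 4 := by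
    rw [div_le_iff₀ (by linarith)]
    have : (N1 : ℝ) - N0 ≤ 4 * N0 := by linarith
    calc η / 8 * ((N1 : ℝ) - N0) ≤ η / 8 * (4 * N0) := by gcongr
      _ = η / 8 * 4 * N0 := by ring
  rw [hA]
  have h11 : (∑ m ∈ Ioc N0 N1, (((1 / (m : ℝ) : ℝ) : ℂ) * f m) * nt m t)
      = ((∑ m ∈ Ioc N0 N1, (((1 / (m : ℝ) : ℝ) : ℂ) * f m) * nt m t) - haF f t N1 / N1
          + haF f t N0 / N0) + haF f t N1 / N1 - haF f t N0 / N0 := by ring
  rw [h11]
  calc _ ≤ _ := norm_sub_le _ _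
    _ ≤ (‖(∑ m ∈ Ioc N0 N1, (((1 / (m : ℝ) : ℝ) : ℂ) * f m) * nt m t) - haF f t N1 / N1
          + haF f t N0 / N0‖ + ‖haF f t N1 / N1‖) + ‖haF f t N0 / N0‖ := by
        gcongr; exact norm_add_le _ _
    _ ≤ (η / 8 * 4 + η / 8) + η / 8 := by
        gcongr
        · exact h8.trans h10
        · exact h9 N1 h4
        · exact h9 N0 le_rfl
    _ ≤ η := by linarith

/-- Row U3. -/
theorem u3 : U3_stmt := by
  intro q _ χ D η hη
  exact halaszAT (cm_lamChi χ) (flUpF_lamChi (zetaUp vdc_row) χ) D η hη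

end Pool.Agent.SV
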